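import Pool.Agent.Lib.MP_3cd99b_gt.D

open Finset

namespace LG3

variable {K : Type*} [Field K]

abbrev Mat (K : Type*) := Matrix (Fin 4 × Fin 4) (Fin 4 × Fin 4) K

section lists

variable {X : Type*}

theorem take0 {l s : List X} {k : ℕ} (h : l.length = k) : (l ++ s).take k = l := by
  subst h; simp

theorem drop0 {l s : List X} {k : ℕ} (h : l.length = k) : (l ++ s).drop k = s := by
  subst h; simp

theorem take1 {l s : List X} {i : X} {k : ℕ} (h : l.length = k) :
    (l ++ i :: s).take (k + 1) = l ++ [i] := by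
  have := take0 (l := l ++ [i]) (s := s) (k := k + 1) (by simp [h])
  simpa using this

theorem drop1 {l s : List X} {i : X} {k : ℕ} (h : l.length = k) :
    (l ++ i :: s).drop (k + 1) = s := by
  have := drop0 (l := l ++ [i]) (s := s) (k := k + 1) (by simp [h])
  simpa using this

theorem take2 {l s : List X} {i j : X} {k : ℕ} (h : l.length = k) :
    (l ++ i :: j :: s).take (k + 2) = l ++ [i, j] := by
  have := take0 (l := l ++ [i, j]) (s := s) (k := k + 2) (by simp [h])
  simpa using this

theorem drop2 {l s : List X} {i j : X} {k : ℕ} (h : l.length = k) :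
    (l ++ i :: j :: s).drop (k + 2) = s := by
  have := drop0 (l := l ++ [i, j]) (s := s) (k := k + 2) (by simp [h])
  simpa using this

end lists

/-- the diagram w acts on the strands k, k+1 by the matrix M -/
def Acts (α β : K) (w : List Piece) (k : ℕ) (M : Mat K) : Prop :=
  ∀ (l r t : List (Fin 4)) (i j : Fin 4) (w' : List Piece), l.length = k →
    amp α β (w ++ w') (l ++ i :: j :: r) t = ∑ a, ∑ b, M (i, j) (a, b) * amp α β w' (l ++ a :: b :: r) t

theorem Acts.mul {α β : K} {w1 w2 : List Piece} {k : ℕ} {M N : Mat K} (h1 : Acts α β w1 k M)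
    (h2 : Acts α β w2 k N) : Acts α β (w1 ++ w2) k (M * N) := by
  intro l r t i j w' hl
  rw [List.append_assoc, h1 l r t i j _ hl]
  have e : ∀ a b, amp α β (w2 ++ w') (l ++ a :: b :: r) t =
      ∑ c, ∑ d, N (a, b) (c, d) * amp α β w' (l ++ c :: d :: r) t := fun a b => h2 l r t a b w' hl
  simp only [e, Matrix.mul_apply, Fintype.sum_prod_type, Finset.mul_sum, Finset.sum_mul]
  have : ∀ F : Fin 4 → Fin 4 → Fin 4 → Fin 4 → K,
      ∑ a, ∑ b, ∑ c, ∑ d, F a b c d = ∑ c, ∑ d, ∑ a, ∑ b, F a b c d := by
    intro F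
    calc ∑ a, ∑ b, ∑ c, ∑ d, F a b c d = ∑ a, ∑ c, ∑ b, ∑ d, F a b c d :=
          Finset.sum_congr rfl (fun a _ => Finset.sum_comm)
      _ = ∑ c, ∑ a, ∑ b, ∑ d, F a b c d := Finset.sum_comm
      _ = ∑ c, ∑ a, ∑ d, ∑ b, F a b c d :=
          Finset.sum_congr rfl (fun c _ => Finset.sum_congr rfl (fun a _ => Finset.sum_comm))
      _ = ∑ c, ∑ d, ∑ a, ∑ b, F a b c d :=
          Finset.sum_congr rfl (fun c _ => Finset.sum_comm)
  rw [this]
  refine Finset.sum_congr rfl (fun c _ => Finset.sum_congr rfl (fun d _ =>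
    Finset.sum_congr rfl (fun a _ => Finset.sum_congr rfl (fun b _ => ?_))))
  ring

/-- antiparallel half twist, first kind -/
def Am (α β : K) (s : Bool) : Mat K := fun p q =>
  (mu α β q.1)⁻¹ * Rs α β s q.1 p.1 q.2 p.2 * mu α β p.2

/-- antiparallel half twist, second kind -/
def Bm (α β : K) (s : Bool) : Mat K := fun p q => Rs α β s p.2 q.2 p.1 q.1

theorem acts_A (α β : K) (s : Bool) (k : ℕ) : Acts α β (twistA s k) k (Am α β s) := by
  intro l r t i j w' hl
  simp only [twistA, List.cons_append, List.nil_append, amp]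
  rw [take0 hl, drop0 hl]
  refine Finset.sum_congr rfl (fun m _ => ?_)
  have e1 : (l ++ m :: m :: i :: j :: r).drop (k + 1) = m :: i :: j :: r := drop1 hl
  have e2 : (l ++ m :: m :: i :: j :: r).take (k + 1) = l ++ [m] := take1 hl
  rw [e1, e2]
  simp only [Finset.mul_sum]
  refine Finset.sum_congr rfl (fun a _ => ?_)
  have e3 : ∀ b, (l ++ [m] ++ a :: b :: j :: r).drop (k + 2) = b :: j :: r := by
    intro b
    rw [List.append_assoc]
    exact drop2 hl
  have e4 : ∀ b, (l ++ [m] ++ a :: b :: j :: r).take (k + 2) = l ++ [m, a] := by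
    intro b
    rw [List.append_assoc]
    exact take2 hl
  simp only [e3, e4]
  rw [Finset.sum_eq_single j]
  · simp [Am]
    ring
  · intro b _ hb
    simp [hb]
  · intro h
    exact absurd (Finset.mem_univ j) h

theorem acts_B (α β : K) (s : Bool) (k : ℕ) : Acts α β (twistB s k) k (Bm α β s) := by
  intro l r t i j w' hl
  simp only [twistB, List.cons_append, List.nil_append, amp]
  rw [take2 hl, drop2 hl]
  have e0 : ∀ q : Fin 4, l ++ [i, j] ++ q :: q :: r = l ++ i :: j :: q :: q :: r := by
    intro q; simp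
  simp only [e0]
  have e1 : ∀ q : Fin 4, (l ++ i :: j :: q :: q :: r).drop (k + 1) = j :: q :: q :: r :=
    fun q => drop1 hl
  have e2 : ∀ q : Fin 4, (l ++ i :: j :: q :: q :: r).take (k + 1) = l ++ [i] :=
    fun q => take1 hl
  simp only [e1, e2]
  have e3 : ∀ a b q : Fin 4, (l ++ [i] ++ a :: b :: q :: r).drop k = i :: a :: b :: q :: r := by
    intro a b q
    rw [List.append_assoc]
    exact drop0 hl
  have e4 : ∀ a b q : Fin 4, (l ++ [i] ++ a :: b :: q :: r).take k = l := by
    intro a b q
    rw [List.append_assoc]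
    exact take0 hl
  simp only [e3, e4]
  have e5 : ∀ q : Fin 4, ∑ a, ∑ b, Rs α β s j q a b *
      (if i = a then (if False then mu α β i else 1) * amp α β w' (l ++ b :: q :: r) t else 0) =
      ∑ b, Rs α β s j q i b * amp α β w' (l ++ b :: q :: r) t := by
    intro q
    rw [Finset.sum_eq_single i]
    · simp
    · intro a _ ha
      refine Finset.sum_eq_zero (fun b _ => ?_)
      simp [Ne.symm ha]
    · intro h
      exact absurd (Finset.mem_univ i) h
  simp only [Bool.false_eq_true] at e5 ⊢
  calc _ = ∑ q : Fin 4, ∑ b : Fin 4, Rs α β s j q i b * amp α β w' (l ++ b :: q :: r) t := by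
        refine Finset.sum_congr rfl (fun q _ => ?_)
        rw [e5 q]
        simp
    _ = _ := by
        rw [Finset.sum_comm]
        rfl

/-- the column matrix of a twist matrix -/
def rot (α β : K) (T : Mat K) : Mat K := fun p q =>
  mu α β p.1 * (mu α β q.2)⁻¹ * T (p.2, q.2) (p.1, q.1)

theorem acts_rot {α β : K} {T : List Piece} {M : Mat K} (h : Acts α β T 1 M) :
    ∀ (r t : List (Fin 4)) (i j : Fin 4) (w' : List Piece),
    amp α β (.cup 2 false :: (T ++ [.cap 0 true]) ++ w') (i :: j :: r) t =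
      ∑ a, ∑ b, rot α β M (i, j) (a, b) * amp α β w' (a :: b :: r) t := by
  intro r t i j w'
  simp only [List.cons_append, List.append_assoc, amp, List.nil_append]
  have e1 : ∀ m : Fin 4, List.take 2 (i :: j :: r) ++ m :: m :: List.drop 2 (i :: j :: r) =
      [i] ++ j :: m :: (m :: r) := by
    intro m; simp
  simp only [e1]
  have e2 : ∀ m : Fin 4, amp α β (T ++ (.cap 0 true :: w')) ([i] ++ j :: m :: (m :: r)) t =
      ∑ a, ∑ b, M (j, m) (a, b) * amp α β (.cap 0 true :: w') ([i] ++ a :: b :: (m :: r)) t :=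
    fun m => h [i] (m :: r) t j m _ rfl
  simp only [e2]
  have e3 : ∀ a b m : Fin 4, amp α β (.cap 0 true :: w') ([i] ++ a :: b :: (m :: r)) t =
      if i = a then mu α β i * amp α β w' (b :: m :: r) t else 0 := by
    intro a b m
    simp [amp]
  simp only [e3]
  have e4 : ∀ m : Fin 4, ∑ a, ∑ b, M (j, m) (a, b) *
      (if i = a then mu α β i * amp α β w' (b :: m :: r) t else 0) =
      ∑ b, M (j, m) (i, b) * (mu α β i * amp α β w' (b :: m :: r) t) := by
    intro m
    rw [Finset.sum_eq_single i]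
    · simp
    · intro a _ ha
      refine Finset.sum_eq_zero (fun b _ => ?_)
      simp [Ne.symm ha]
    · intro h
      exact absurd (Finset.mem_univ i) h
  simp only [e4, Finset.mul_sum, rot]
  rw [Finset.sum_comm]
  refine Finset.sum_congr rfl (fun a _ => Finset.sum_congr rfl (fun b _ => ?_))
  simp
  ring

end LG3
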