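import Pool.Agent.Lib.MP_3cd99b_gt.Wo4

/-!
(J) for words: every Seifert circle separates the crossings on it from each other by their signs. The side of a
position is the parity of the number of strands of the circle above it.
-/

namespace LG3P.Jw
open LG3 LG3P.Wo Equiv.Perm

/-- the rules of a function of the positions that is constant along the smoothed strands -/
structure FRul (w : List Piece) {α : Type*} (φ : ℕ → ℕ → α) : Prop where
  rt : ∀ t p, w[t]? = some p → ∀ j, j < (SL w t).length → (rgt p j).1 = true →
    φ (t + 1) (rgt p j).2 = φ t j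
  rf : ∀ t p, w[t]? = some p → ∀ j, j < (SL w t).length → (rgt p j).1 = false →
    φ t (rgt p j).2 = φ t j
  lf : ∀ t p, w[t]? = some p → ∀ j, j < (SL w (t + 1)).length → (lft p j).1 = false →
    φ (t + 1) (lft p j).2 = φ (t + 1) j

variable {w : List Piece} (hw : IsTangle w)

theorem inv_of_rul {α : Type*} {φ : ℕ → ℕ → α} (h : FRul w φ) (he : φ 0 0 = φ w.length 0) (z : Pos w) :
    φ (pi hw z).1.1 (pi hw z).1.2 = φ z.1.1 z.1.2 := by
  obtain ⟨⟨t, j⟩, hz⟩ := z
  show φ (mv w false (t, j)).1 (mv w false (t, j)).2 = φ t j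
  rcases hd : west false j with _ | _
  · rcases Nat.lt_or_ge t w.length with ht | ht
    · have hp := getElem?_of_lt ht
      rw [mv_east w false t j _ hp hd]
      by_cases h1 : (rgt w[t] j).1 = true
      · rw [if_pos h1]
        exact h.rt t _ hp j hz.2 h1
      · rw [if_neg h1]
        exact h.rf t _ hp j hz.2 (by simpa using h1)
    · exfalso
      have ht' : t = w.length := le_antisymm hz.1 ht
      subst ht'
      have hj := val_len hw hz
      subst hj
      exact absurd hd (by decide)
  · rcases t with _ | t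
    · have hj := val_zero hz
      subst hj
      rw [mv_zero w false 0 hd]
      exact he.symm
    · have ht : t < w.length := hz.1
      have hp := getElem?_of_lt ht
      have hs := step_lft w[t] _ _ (SL_succ hw hp) j hz.2
      rw [mv_west w false t j _ hp hd]
      by_cases h1 : (lft w[t] j).1 = true
      · rw [if_pos h1] at hs ⊢
        have h2 := rgt_of_lft _ _ h1
        have h3 := h.rt t _ hp (lft w[t] j).2 hs.1 (by rw [h2])
        rw [h2] at h3
        exact h3.symm
      · rw [if_neg h1]
        exact h.lf t _ hp j hz.2 (by simpa using h1)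

/-- a property of the positions which is invariant under the walk -/
theorem rul_of_inv {α : Type*} {φ : ℕ → ℕ → α}
    (h : ∀ z : Pos w, φ (pi hw z).1.1 (pi hw z).1.2 = φ z.1.1 z.1.2) : FRul w φ := by
  constructor
  · intro t p hp j hj h1
    have ht : t < w.length := by
      by_contra hn
      rw [List.getElem?_eq_none (by omega)] at hp
      simp at hp
    have hs := step_rgt p _ _ (SL_succ hw hp) j hj
    rw [if_pos h1] at hs
    have hpar := rgt_par p j
    rw [if_pos h1] at hpar
    rcases hd : west false j with _ | _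
    · have h2 := h ⟨(t, j), ⟨ht.le, hj⟩⟩
      have h3 : (pi hw ⟨(t, j), ⟨ht.le, hj⟩⟩).1 = (t + 1, (rgt p j).2) := by
        show mv w false (t, j) = _
        rw [mv_east w false t j _ hp hd, if_pos h1]
      rw [h3] at h2
      exact h2
    · have h4 : west false (rgt p j).2 = true := by rw [west_congr false hpar, hd]
      have h2 := h ⟨(t + 1, (rgt p j).2), ⟨ht, hs.1⟩⟩
      have h3 : (pi hw ⟨(t + 1, (rgt p j).2), ⟨ht, hs.1⟩⟩).1 = (t, j) := by
        show mv w false (t + 1, (rgt p j).2) = _
        rw [mv_west w false t _ _ hp h4, lft_of_rgt _ _ h1]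
        rfl
      rw [h3] at h2
      exact h2.symm
  · intro t p hp j hj h1
    have ht : t < w.length := by
      by_contra hn
      rw [List.getElem?_eq_none (by omega)] at hp
      simp at hp
    have hs := step_rgt p _ _ (SL_succ hw hp) j hj
    rw [h1] at hs
    simp only [Bool.false_eq_true, if_false] at hs
    have hpar := rgt_par p j
    rw [h1] at hpar
    simp only [Bool.false_eq_true, if_false] at hpar
    rcases hd : west false j with _ | _
    · have h2 := h ⟨(t, j), ⟨ht.le, hj⟩⟩
      have h3 : (pi hw ⟨(t, j), ⟨ht.le, hj⟩⟩).1 = (t, (rgt p j).2) := by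
        show mv w false (t, j) = _
        rw [mv_east w false t j _ hp hd, h1]
        rfl
      rw [h3] at h2
      exact h2
    · have h4 : west false (rgt p j).2 = false := by rw [west_flip false hpar, hd]; rfl
      have h2 := h ⟨(t, (rgt p j).2), ⟨ht.le, hs.1⟩⟩
      have h3 : (pi hw ⟨(t, (rgt p j).2), ⟨ht.le, hs.1⟩⟩).1 = (t, j) := by
        show mv w false (t, (rgt p j).2) = _
        rw [mv_east w false t _ _ hp h4, rgt_turn _ _ h1]
        rfl
      rw [h3] at h2
      exact h2.symm
  · intro t p hp j hj h1
    have ht : t < w.length := by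
      by_contra hn
      rw [List.getElem?_eq_none (by omega)] at hp
      simp at hp
    have hs := step_lft p _ _ (SL_succ hw hp) j hj
    rw [h1] at hs
    simp only [Bool.false_eq_true, if_false] at hs
    have hpar := lft_par p j
    rw [h1] at hpar
    simp only [Bool.false_eq_true, if_false] at hpar
    rcases hd : west false j with _ | _
    · have h4 : west false (lft p j).2 = true := by rw [west_flip false hpar, hd]; rfl
      have h2 := h ⟨(t + 1, (lft p j).2), ⟨ht, hs.1⟩⟩
      have h3 : (pi hw ⟨(t + 1, (lft p j).2), ⟨ht, hs.1⟩⟩).1 = (t + 1, j) := by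
        show mv w false (t + 1, (lft p j).2) = _
        rw [mv_west w false t _ _ hp h4, lft_turn _ _ h1]
        rfl
      rw [h3] at h2
      exact h2.symm
    · have h2 := h ⟨(t + 1, j), ⟨ht, hj⟩⟩
      have h3 : (pi hw ⟨(t + 1, j), ⟨ht, hj⟩⟩).1 = (t + 1, (lft p j).2) := by
        show mv w false (t + 1, j) = _
        rw [mv_west w false t j _ hp hd, h1]
        rfl
      rw [h3] at h2
      exact h2

/-- parity of the number of marked strands above the strand j -/
def par (m : ℕ → Bool) : ℕ → Bool
  | 0 => false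
  | j + 1 => par m j ^^ m j

theorem par_congr {m m' : ℕ → Bool} (j : ℕ) (h : ∀ i < j, m' i = m i) : par m' j = par m j := by
  induction j with
  | zero => rfl
  | succ j ih =>
    show (par m' j ^^ m' j) = (par m j ^^ m j)
    rw [ih (fun i hi => h i (by omega)), h j (by omega)]

/-- two equal new strands at k -/
theorem par_ins {m m' : ℕ → Bool} (k : ℕ) (h1 : ∀ i < k, m' i = m i) (h2 : m' k = m' (k + 1)) :
    ∀ n, (∀ i, k ≤ i → i < k + n → m' (i + 2) = m i) → par m' (k + n + 2) = par m (k + n)
  | 0, _ => by
    show ((par m' k ^^ m' k) ^^ m' (k + 1)) = par m k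
    rw [h2, Bool.xor_assoc, Bool.xor_self, Bool.xor_false]
    exact par_congr k h1
  | n + 1, h3 => by
    have ih := par_ins k h1 h2 n (fun i hi hi' => h3 i hi (by omega))
    show (par m' (k + n + 2) ^^ m' (k + n + 2)) = (par m (k + n) ^^ m (k + n))
    rw [ih, h3 (k + n) (by omega) (by omega)]

/-- the side function, with the marks m -/
def sd (m : ℕ → ℕ → Bool) (t j : ℕ) : Bool := par (m t) j ^^ (m t j && decide (j % 2 = 1))

theorem sd_even {m : ℕ → ℕ → Bool} {t t' i j : ℕ} (h1 : m t' i = m t j) (h2 : par (m t') i = par (m t) j)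
    (h3 : i % 2 = j % 2) : sd m t' i = sd m t j := by
  unfold sd
  rw [h1, h2, h3]

theorem sd_turn {m : ℕ → ℕ → Bool} {t k : ℕ} (h : m t (k + 1) = m t k) : sd m t (k + 1) = sd m t k := by
  unfold sd
  show ((par (m t) k ^^ m t k) ^^ (m t (k + 1) && decide ((k + 1) % 2 = 1))) =
    (par (m t) k ^^ (m t k && decide (k % 2 = 1)))
  rw [h]
  cases m t k
  · simp
  · rcases Nat.mod_two_eq_zero_or_one k with h0 | h0
    · have h2 : (k + 1) % 2 = 1 := by omega
      rw [h0, h2]; cases par (m t) k <;> decide
    · have h2 : (k + 1) % 2 = 0 := by omega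
      rw [h0, h2]; cases par (m t) k <;> decide

/-- the side function is constant along the walk -/
theorem sd_rul {w : List Piece} (hw : IsTangle w) {m : ℕ → ℕ → Bool} (h : FRul w m) : FRul w (sd m) := by
  constructor
  · intro t p hp j hj h1
    have hpar := rgt_par p j
    rw [if_pos h1] at hpar
    refine sd_even (h.rt t p hp j hj h1) ?_ hpar
    have hrt := h.rt t p hp
    have hlf := h.lf t p hp
    have hrf := h.rf t p hp
    have hdir := SL_succ hw hp
    cases p with
    | cross k s =>
      show par (m (t + 1)) j = par (m t) j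
      exact par_congr j (fun i hi => hrt i (by omega) rfl)
    | cup k f =>
      obtain ⟨hk, hd⟩ := dir_cup hdir
      have hlen : (SL w (t + 1)).length = (SL w t).length + 2 := by
        rw [hd]; simp; omega
      have hb : ∀ i < k, m (t + 1) i = m t i := by
        intro i hi
        have := hrt i (by omega) rfl
        simp only [rgt, if_pos hi] at this
        exact this
      by_cases hjk : j < k
      · have e : (rgt (.cup k f) j).2 = j := by simp only [rgt, if_pos hjk]
        rw [e]
        exact par_congr j (fun i hi => hb i (by omega))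
      · have e : (rgt (.cup k f) j).2 = j + 2 := by simp only [rgt, if_neg hjk]
        rw [e]
        obtain ⟨n, rfl⟩ : ∃ n, j = k + n := ⟨j - k, by omega⟩
        apply par_ins k hb
        · have := hlf k (by omega) (by simp [lft])
          simp only [lft, lt_irrefl, if_false, if_true] at this
          exact this.symm
        · intro i hi hi'
          have := hrt i (by omega) rfl
          simp only [rgt, if_neg (by omega : ¬ i < k)] at this
          exact this
    | cap k f =>
      obtain ⟨a, b, ha, hd, hd'⟩ := dir_cap hdir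
      have hlen : (SL w t).length = (SL w (t + 1)).length + 2 := by
        rw [hd, hd']; simp; omega
      have hka : k + 1 < (SL w t).length := by rw [hd]; simp; omega
      have hb : ∀ i < k, m t i = m (t + 1) i := by
        intro i hi
        have e : rgt (.cap k f) i = (true, i) := by simp only [rgt, if_pos hi]
        have := hrt i (by omega) (by rw [e])
        rw [e] at this
        exact this.symm
      by_cases hjk : j < k
      · have e : (rgt (.cap k f) j).2 = j := by simp only [rgt, if_pos hjk]
        rw [e]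
        exact (par_congr j (fun i hi => hb i (by omega))).symm
      · have hj1 : j ≠ k := by
          rintro rfl
          simp [rgt] at h1
        have hj2 : j ≠ k + 1 := by
          rintro rfl
          simp [rgt] at h1
        have e : (rgt (.cap k f) j).2 = j - 2 := by
          simp only [rgt, if_neg hjk, if_neg hj1, if_neg hj2]
        rw [e]
        obtain ⟨n, rfl⟩ : ∃ n, j = k + n + 2 := ⟨j - k - 2, by omega⟩
        have e2 : k + n + 2 - 2 = k + n := by omega
        rw [e2]
        refine (par_ins k hb ?_ n ?_).symm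
        · have e3 : rgt (.cap k f) k = (false, k + 1) := by simp [rgt]
          have := hrf k (by omega) (by rw [e3])
          rw [e3] at this
          exact this.symm
        · intro i hi hi'
          have e3 : rgt (.cap k f) (i + 2) = (true, i) := by
            simp only [rgt, if_neg (by omega : ¬ i + 2 < k), if_neg (by omega : ¬ i + 2 = k),
              if_neg (by omega : ¬ i + 2 = k + 1)]
            rfl
          have := hrt (i + 2) (by omega) (by rw [e3])
          rw [e3] at this
          exact this.symm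
  · intro t p hp j hj h1
    have hm := h.rf t p hp j hj h1
    cases p with
    | cross k s => simp [rgt] at h1
    | cup k f => simp [rgt] at h1
    | cap k f =>
      have h2 : j = k ∨ j = k + 1 := by
        by_contra hn
        push Not at hn
        simp only [rgt] at h1
        split_ifs at h1 <;> simp_all
      rcases h2 with rfl | rfl
      · have e : rgt (.cap j f) j = (false, j + 1) := by simp [rgt]
        rw [e] at hm ⊢
        exact sd_turn hm
      · have e : rgt (.cap k f) (k + 1) = (false, k) := by simp [rgt]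
        rw [e] at hm ⊢
        exact (sd_turn hm.symm).symm
  · intro t p hp j hj h1
    have hm := h.lf t p hp j hj h1
    cases p with
    | cross k s => simp [lft] at h1
    | cap k f => simp [lft] at h1
    | cup k f =>
      have h2 : j = k ∨ j = k + 1 := by
        by_contra hn
        push Not at hn
        simp only [lft] at h1
        split_ifs at h1 <;> simp_all
      rcases h2 with rfl | rfl
      · have e : lft (.cup j f) j = (false, j + 1) := by simp [lft]
        rw [e] at hm ⊢
        exact sd_turn hm
      · have e : lft (.cup k f) (k + 1) = (false, k) := by simp [lft]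
        rw [e] at hm ⊢
        exact (sd_turn hm.symm).symm

/-- the slots on the circle of a slot -/
theorem same_of_st {s : Sl w} {c : Cr w} (h : (st hw s.2).SameCycle s.1 c) :
    (pi hw).SameCycle (depP hw s) (depP hw (c, s.2)) := by
  obtain ⟨c0, b⟩ := s
  have hn : ∀ n : ℕ, (pi hw).SameCycle (depP hw (c0, b)) (depP hw (((st hw b) ^ n) c0, b)) := by
    intro n
    induction n with
    | zero => exact SameCycle.refl _ _
    | succ n ih =>
      refine ih.trans ?_
      rw [pow_succ', Equiv.Perm.mul_apply, ← nx_eq]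
      exact ⟨(len hw (((st hw b) ^ n) c0, b) : ℤ), by rw [zpow_natCast]; exact (depP_nx' hw _).symm⟩
  obtain ⟨n, _, hn'⟩ := h.exists_pow_eq'
  rw [← hn']
  exact hn n

theorem st_of_same {s s' : Sl w} (h : (pi hw).SameCycle (depP hw s) (depP hw s')) :
    s'.2 = s.2 ∧ (st hw s.2).SameCycle s.1 s'.1 := by
  obtain ⟨n, hn0, hn⟩ := h.exists_pow_eq'
  clear h hn0
  induction n using Nat.strong_induction_on generalizing s with
  | _ n ih =>
    have h2 : s'.2 = s.2 := by rw [← ty_dep hw s', ← hn, ty_pow, ty_dep]
    refine ⟨h2, ?_⟩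
    rcases Nat.eq_zero_or_pos n with h0 | h0
    · subst h0
      rw [pow_zero, Equiv.Perm.one_apply] at hn
      rw [depP_inj hw hn]
    · have h3 : len hw s ≤ n := by
        by_contra hlt
        exact ft_min (pi hw) (Dep hw) (depP hw s) ⟨s, rfl⟩ n h0 (not_le.1 hlt) (hn ▸ ⟨s', rfl⟩)
      have h4 : 0 < len hw s := ft_pos _ _ _ _
      have h5 : (pi hw ^ (n - len hw s)) (depP hw (nx hw s)) = depP hw s' := by
        rw [depP_nx', ← Equiv.Perm.mul_apply, ← pow_add, Nat.sub_add_cancel h3]
        exact hn
      have h6 := ih (n - len hw s) (by omega) h5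
      rw [nx_snd] at h6
      have h7 : (nx hw s).1 = st hw s.2 s.1 := rfl
      rw [h7] at h6
      exact ⟨_, h6.2.choose_spec⟩ |> fun (h8 : (st hw s.2).SameCycle (st hw s.2 s.1) s'.1) =>
        (Equiv.Perm.sameCycle_apply_left.1 h8)

open Classical in
/-- the marks of the circle of a slot -/
noncomputable def mk (s : Sl w) (t j : ℕ) : Bool :=
  decide (∃ h : Val w (t, j), (pi hw).SameCycle (depP hw s) ⟨(t, j), h⟩)

theorem mk_inv (s : Sl w) (z : Pos w) : mk hw s (pi hw z).1.1 (pi hw z).1.2 = mk hw s z.1.1 z.1.2 := by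
  unfold mk
  rw [decide_eq_decide]
  constructor
  · rintro ⟨h1, h2⟩
    exact ⟨z.2, Equiv.Perm.sameCycle_apply_right.1 h2⟩
  · rintro ⟨h1, h2⟩
    exact ⟨(pi hw z).2, Equiv.Perm.sameCycle_apply_right.2 h2⟩

theorem mk_dep (s s' : Sl w) : mk hw s (depP hw s').1.1 (depP hw s').1.2 = true ↔
    (pi hw).SameCycle (depP hw s) (depP hw s') := by
  classical
  unfold mk
  exact decide_eq_true_iff.trans ⟨fun ⟨_, h⟩ => h, fun h => ⟨(depP hw s').2, h⟩⟩

/-- the value at the departure of a slot is the value at the left side of the crossing -/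
theorem val_dep_eq {α : Type*} {φ : ℕ → ℕ → α} (h : FRul w φ) (c : Cr w) (b : Bool) :
    φ (depP hw (c, b)).1.1 (depP hw (c, b)).1.2 = φ c.1 (je b (kc w c.1)) := by
  cases b
  · show φ (c.1 + 1) (je false (kc w c.1)) = _
    obtain ⟨h1, h2, -⟩ := cr_strand hw c.2 (je false (kc w c.1)) (je_or _ _)
    exact h.rt c.1 _ (cr_piece c.2) _ h2 rfl
  · rfl

/-- (J) for words -/
theorem jor {e : Bool} (ha : ∀ k s, Piece.cross k s ∈ w → s = (e ^^ decide (k % 2 = 1))) (c0 : Cr w)
    (b0 : Bool) : ∃ f : Cr w → Bool → Bool, (∀ c b, f (st hw b c) b = f c b) ∧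
      (∀ c, ¬ (st hw b0).SameCycle c0 c → f c true = f c false) ∧
      (∀ c, (st hw b0).SameCycle c0 c → f c (!b0) = sc w c.1) := by
  have hm : FRul w (mk hw (c0, b0)) := rul_of_inv hw (mk_inv hw (c0, b0))
  have hsd : FRul w (sd (mk hw (c0, b0))) := sd_rul hw hm
  have hinv : ∀ z : Pos w, sd (mk hw (c0, b0)) (pi hw z).1.1 (pi hw z).1.2 =
      sd (mk hw (c0, b0)) z.1.1 z.1.2 := by
    apply inv_of_rul hw hsd
    unfold sd
    show (false ^^ (_ && decide (0 % 2 = 1))) = (false ^^ (_ && decide (0 % 2 = 1)))
    simp
  have hpow : ∀ (n : ℕ) (z : Pos w), sd (mk hw (c0, b0)) ((pi hw ^ n) z).1.1 ((pi hw ^ n) z).1.2 =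
      sd (mk hw (c0, b0)) z.1.1 z.1.2 := by
    intro n z
    induction n with
    | zero => rfl
    | succ n ih => rw [pow_succ', Equiv.Perm.mul_apply, hinv, ih]
  have hcyc : ∀ z z' : Pos w, (pi hw).SameCycle z z' → sd (mk hw (c0, b0)) z'.1.1 z'.1.2 =
      sd (mk hw (c0, b0)) z.1.1 z.1.2 := by
    intro z z' h
    obtain ⟨n, _, hn⟩ := h.exists_pow_eq'
    rw [← hn, hpow]
  set g0 := sd (mk hw (c0, b0)) (depP hw (c0, b0)).1.1 (depP hw (c0, b0)).1.2 with hg0
  set G : Cr w → Bool → Bool := fun c b => sd (mk hw (c0, b0)) c.1 (je b (kc w c.1)) with hG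
  have hGd : ∀ c b, sd (mk hw (c0, b0)) (depP hw (c, b)).1.1 (depP hw (c, b)).1.2 = G c b :=
    fun c b => val_dep_eq hw hsd c b
  have hmd : ∀ c b, mk hw (c0, b0) c.1 (je b (kc w c.1)) = true ↔
      (b = b0 ∧ (st hw b0).SameCycle c0 c) := by
    intro c b
    rw [← val_dep_eq hw hm c b, mk_dep]
    constructor
    · intro h
      have := st_of_same hw h
      exact this
    · rintro ⟨rfl, h⟩
      exact same_of_st hw (s := (c0, b)) h
  -- the values at the two strands of a crossing
  have hpar : ∀ c : Cr w, par (mk hw (c0, b0) c.1) (kc w c.1 + 1) =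
      (par (mk hw (c0, b0) c.1) (kc w c.1) ^^ mk hw (c0, b0) c.1 (kc w c.1)) := fun _ => rfl
  refine ⟨fun c b => G c b ^^ (g0 ^^ !e), ?_, ?_, ?_⟩
  · intro c b
    have : G (st hw b c) b = G c b := by
      rw [← hGd, ← hGd, ← nx_eq]
      exact hcyc _ _ ⟨(len hw (c, b) : ℤ), by rw [zpow_natCast]; exact (depP_nx' hw _).symm⟩
    show (G (st hw b c) b ^^ _) = (G c b ^^ _)
    rw [this]
  · intro c hc
    have h1 : ∀ b, mk hw (c0, b0) c.1 (je b (kc w c.1)) = false := by
      intro b
      rw [← Bool.not_eq_true, hmd]
      exact fun h => hc h.2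
    have h2 : mk hw (c0, b0) c.1 (kc w c.1) = false ∧ mk hw (c0, b0) c.1 (kc w c.1 + 1) = false := by
      have ht := h1 true
      have hf := h1 false
      unfold je at ht hf
      by_cases hk : kc w c.1 % 2 = 0
      · simp only [hk, decide_true, if_true, Bool.true_eq_false, if_false] at ht hf
        exact ⟨ht, hf⟩
      · simp only [hk, decide_false, if_true, Bool.false_eq_true, if_false] at ht hf
        exact ⟨hf, ht⟩
    have h3 : sd (mk hw (c0, b0)) c.1 (kc w c.1 + 1) = sd (mk hw (c0, b0)) c.1 (kc w c.1) :=
      sd_turn (h2.2.trans h2.1.symm)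
    have h4 : ∀ b, G c b = sd (mk hw (c0, b0)) c.1 (kc w c.1) := by
      intro b
      show sd (mk hw (c0, b0)) c.1 (je b (kc w c.1)) = _
      rcases je_or b (kc w c.1) with h | h
      · rw [h]
      · rw [h, h3]
    show (G c true ^^ _) = (G c false ^^ _)
    rw [h4, h4]
  · intro c hc
    have hon : mk hw (c0, b0) c.1 (je b0 (kc w c.1)) = true := (hmd c b0).2 ⟨rfl, hc⟩
    have hoff : mk hw (c0, b0) c.1 (je (!b0) (kc w c.1)) = false := by
      rw [← Bool.not_eq_true, hmd]
      rintro ⟨h, _⟩
      cases b0 <;> simp at h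
    have hZ : G c b0 = g0 := by
      rw [← hGd]
      exact hcyc _ _ (same_of_st hw (s := (c0, b0)) hc)
    have hs : sc w c.1 = (e ^^ decide (kc w c.1 % 2 = 1)) :=
      ha _ _ (List.mem_of_getElem? (cr_piece c.2))
    have key : G c (!b0) = (G c b0 ^^ !decide (kc w c.1 % 2 = 1)) := by
      show sd (mk hw (c0, b0)) c.1 (je (!b0) (kc w c.1)) = (sd (mk hw (c0, b0)) c.1 (je b0 (kc w c.1)) ^^ _)
      unfold sd
      rw [hon, hoff]
      have hje : (je b0 (kc w c.1) = kc w c.1 ∧ je (!b0) (kc w c.1) = kc w c.1 + 1) ∨
          (je b0 (kc w c.1) = kc w c.1 + 1 ∧ je (!b0) (kc w c.1) = kc w c.1) := by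
        unfold je
        by_cases hk : kc w c.1 % 2 = 0
        · cases b0 <;> simp [hk]
        · cases b0 <;> simp [hk]
      rcases hje with ⟨h1, h2⟩ | ⟨h1, h2⟩
      · rw [h1] at hon ⊢
        rw [h2, hpar, hon]
        simp only [Bool.false_and, Bool.true_and, Bool.xor_false, Bool.xor_true]
        cases par (mk hw (c0, b0) c.1) (kc w c.1) <;> cases decide (kc w c.1 % 2 = 1) <;> rfl
      · rw [h2] at hoff ⊢
        rw [h1, hpar, hoff]
        simp only [Bool.false_and, Bool.true_and, Bool.xor_false]
        have h3 : decide ((kc w c.1 + 1) % 2 = 1) = !decide (kc w c.1 % 2 = 1) := by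
          rcases Nat.mod_two_eq_zero_or_one (kc w c.1) with h0 | h0
          · have h4 : (kc w c.1 + 1) % 2 = 1 := by omega
            rw [h0, h4]; rfl
          · have h4 : (kc w c.1 + 1) % 2 = 0 := by omega
            rw [h0, h4]; rfl
        rw [h3]
        cases par (mk hw (c0, b0) c.1) (kc w c.1) <;> cases decide (kc w c.1 % 2 = 1) <;> rfl
    show (G c (!b0) ^^ (g0 ^^ !e)) = sc w c.1
    rw [key, hZ, hs]
    cases g0 <;> cases e <;> cases decide (kc w c.1 % 2 = 1) <;> rfl

end LG3P.Jw
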