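import Pool.Agent.Lib.MP_3cd99b_gt.Nu
import Pool.Agent.Lib.MP_3cd99b_gt.Jw

/-!
If the parent system exists, every position is on the arc of a crossing or on the circle of the ends.
-/

namespace LG3P
open LG3

variable {α : Type*}

theorem dep_cons {q : Bool} {p : Piece} {w : List Piece} {c : ℕ} (hc : c < nx w) (b : Bool) :
    dep q (p :: w) c b = ((dep q w c b).1 + 1, (dep q w c b).2) := by
  cases p with
  | cross k e =>
    have : c ≠ nx w := by omega
    simp [dep, cxp, this, Nat.add_right_comm]
  | cup k f => simp [dep, cxp, Nat.add_right_comm]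
  | cap k f => simp [dep, cxp, Nat.add_right_comm]

theorem arr_cons {q : Bool} {p : Piece} {w : List Piece} {c : ℕ} (hc : c < nx w) (b : Bool) :
    arr q (p :: w) c b = ((arr q w c b).1 + 1, (arr q w c b).2) := by
  cases p with
  | cross k e =>
    have : c ≠ nx w := by omega
    simp [arr, cxp, this, Nat.add_right_comm]
  | cup k f => simp [arr, cxp, Nat.add_right_comm]
  | cap k f => simp [arr, cxp, Nat.add_right_comm]

theorem ptl_snd : ∀ (o : List Bool) (b : Bool) (f : ℕ → α), ∀ y ∈ ptl b o f, ∃ j < o.length, y.2 = f j := by
  intro o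
  induction o with
  | nil => intro b f y hy; simp [ptl] at hy
  | cons d o ih =>
    intro b f y hy
    simp only [ptl, List.mem_cons] at hy
    rcases hy with rfl | hy
    · exact ⟨0, by simp, rfl⟩
    · obtain ⟨j, hj, h⟩ := ih _ _ y hy
      exact ⟨j + 1, by simpa using hj, h⟩

theorem forall2_left {β γ : Type*} {P : β → γ → Prop} {A : List β} {X : List γ} (h : List.Forall₂ P A X) :
    ∀ z ∈ A, ∃ y ∈ X, P z y := by
  induction h with
  | nil => intro z hz; simp at hz
  | cons h _ ih =>
    intro z hz
    rcases List.mem_cons.mp hz with rfl | hz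
    · exact ⟨_, List.mem_cons_self, h⟩
    · obtain ⟨y, hy, h2⟩ := ih z hz
      exact ⟨y, List.mem_cons_of_mem _ hy, h2⟩

/-- the two strands of a cup carry a value of a crossing or of another point -/
theorem cup_val {q : Bool} {w : List Piece} {k : ℕ} {e : Bool} {o o' : List Bool} {D D' : Sys} {m : ℕ}
    (hd : (Piece.cup k e).dir o = some o') (hSI : SI q D (nx w) m)
    (hs : sysStep q (.cup k e) (nx w) m D = some D') {φ : ℕ → ℕ → α}
    (hL : Loc (.cup k e) o o' (φ 0) (φ 1)) {V : Tk → Bool → α} {lam : ℕ → Bool}
    (h : WI q o' w D (fun t => φ (t + 1)) V lam) (P : α → Prop) (h0 : ∀ j < o.length, P (φ 0 j))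
    (h1 : P (φ (w.length + 1) 0))
    (h2 : ∀ c < nx w, ∀ b, P (φ ((arr q w c b).1 + 1) (arr q w c b).2)) : P (φ 1 k) ∧ P (φ 1 (k + 1)) := by
  obtain ⟨h0', A0, hT⟩ : ∃ h0 A0, D.T = h0 :: A0 := by
    cases hT : D.T with
    | nil => exact absurd hT hSI.ne
    | cons a l => exact ⟨a, l, rfl⟩
  obtain ⟨hk, rfl⟩ := Wo.dir_cup hd
  have hta : (o.take k).length = k := by simp [hk]
  obtain ⟨L1, L2, L3⟩ := hL.cup
  have hsplit : A0 = A0.take k ++ A0.drop k := (List.take_append_drop k A0).symm
  simp only [sysStep, hT, pos, List.drop_succ_cons, List.take_succ_cons, List.map_cons] at hs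
  have hflag : (!q ^^ decide ((o.take k).length % 2 = 1)) = parq q k := by rw [hta, par_eq]
  match hB : A0.drop k, hs with
  | [], hs => simp at hs
  | [_], hs => simp at hs
  | u :: v :: R, hs =>
    have hlen := len_take_of_drop hB
    have hsr : srT (!q) D.T.tail = srT (!q) (A0.take k) ++ srT (parq q k) (u :: v :: R) := by
      rw [hT, List.tail_cons]
      conv_lhs => rw [hsplit]
      rw [srT_append, hlen, ← par_eq, hB]
    have hvp := h.vp
    rw [hT, List.tail_cons] at hvp
    have hA1 : A0 = A0.take k ++ (u :: v :: R) := by rw [← hB]; exact hsplit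
    rw [hA1, ptl_append, hflag, List.append_assoc, ptl_two] at hvp
    obtain ⟨hPA, hPB⟩ := forall2_mid _ _ _ _ (by rw [hlen, ptl_length, hta]) hvp
    simp only [List.cons_append, List.forall₂_cons] at hPB
    obtain ⟨hPu, hPv, hPR⟩ := hPB
    have hkk : φ 1 k = φ 1 (k + 1) := L3 (by simp; omega)
    have hPu' : Pt V lam u ((e == parq q k), φ 1 k) := by simpa [hta] using hPu
    have hPv' : Pt V lam v ((e == parq q k), φ 1 k) := by
      rw [hkk]
      have e1 : ((!e) == !parq q k) = (e == parq q k) := by cases e <;> cases parq q k <;> rfl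
      simpa [hta, Nat.add_comm 1 k, e1] using hPv
    -- the values of the other points
    have vA : ∀ z ∈ A0.take k, ∃ y, Pt V lam z y ∧ P y.2 := by
      intro z hz
      obtain ⟨y, hy, hzy⟩ := forall2_left hPA z hz
      obtain ⟨j, hj, hyj⟩ := ptl_snd _ _ _ y hy
      refine ⟨y, hzy, ?_⟩
      rw [hyj]
      show P (φ 1 j)
      rw [← L1 j (by omega) (by omega)]
      exact h0 j (by omega)
    have vR : ∀ z ∈ R, ∃ y, Pt V lam z y ∧ P y.2 := by
      intro z hz
      obtain ⟨y, hy, hzy⟩ := forall2_left hPR z hz
      refine ⟨y, hzy, ?_⟩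
      rcases List.mem_append.mp hy with hy | hy
      · obtain ⟨j, hj, hyj⟩ := ptl_snd _ _ _ y hy
        rw [hyj]
        simp only [List.length_drop] at hj
        show P (φ 1 (j + 2 + (o.take k).length))
        have := L2 (j + k) (by omega) (by omega)
        have e2 : j + 2 + (o.take k).length = j + k + 2 := by omega
        rw [e2, ← this]
        exact h0 _ (by omega)
      · simp only [List.mem_singleton] at hy
        subst hy
        exact h1
    -- the common value
    have fin : ∀ z, z ∈ D.T → Pt V lam z ((e == parq q k), φ 1 k) →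
        (∀ τ, z = .inr τ → z ∈ A0.take k ∨ z ∈ R) → P (φ 1 k) := by
      intro z hz hPz hsrc
      cases z with
      | inl c =>
        have hc : c < nx w := hSI.kT _ hz
        have e3 := h.vx c hc (e == parq q k)
        have e4 := hPz.1
        simp only at e4
        rw [← e4, e3]
        exact h2 c hc _
      | inr τ =>
        have : ∃ y, Pt V lam (.inr τ) y ∧ P y.2 := by
          rcases hsrc τ rfl with h5 | h5
          · exact vA _ h5
          · exact vR _ h5
        obtain ⟨y, hy, hP⟩ := this
        have e4 := hPz.1
        have e5 := hPz.2 τ rfl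
        have e6 := hy.1
        have e7 := hy.2 τ rfl
        simp only at e4 e5
        rw [e7] at e6
        rw [e5] at e4
        rw [← e4, e6]
        exact hP
    have main : P (φ 1 k) := by
      simp only at hs
      by_cases huv : u = v
      · rw [if_pos huv] at hs; simp at hs
      · have hmT : ∀ z ∈ u :: v :: R, z ∈ D.T := fun z hz => by
          rw [hT]
          exact List.mem_cons_of_mem _ (List.mem_of_mem_drop (i := k) (by rw [hB]; exact hz))
        by_cases hp : parq q k = true
        · apply fin v (hmT v (by simp)) hPv'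
          intro τ hτ
          have h5 := hSI.aT τ (hτ ▸ hmT v (by simp))
          rw [hsr, hp, List.mem_append] at h5
          rcases h5 with h5 | h5
          · exact Or.inl (hτ ▸ srT_subset _ _ _ h5)
          · simp only [srT, List.mem_cons] at h5
            rcases h5 with h5 | h5
            · exact absurd (h5.symm.trans hτ.symm) huv
            · exact Or.inr (hτ ▸ srT_subset _ _ _ h5)
        · have hp' : parq q k = false := by simpa using hp
          apply fin u (hmT u (by simp)) hPu'
          intro τ hτ
          have h5 := hSI.aT τ (hτ ▸ hmT u (by simp))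
          rw [hsr, hp', List.mem_append] at h5
          rcases h5 with h5 | h5
          · exact Or.inl (hτ ▸ srT_subset _ _ _ h5)
          · simp only [srT, List.mem_cons] at h5
            rcases h5 with h5 | h5
            · exact absurd (hτ.trans h5) huv
            · exact Or.inr (hτ ▸ srT_subset _ _ _ h5)
    exact ⟨main, hkk ▸ main⟩

/-- Every value of a function on the positions that obeys the rules is a value at the left end, at the right end or at
a crossing. -/
theorem cov (q : Bool) : ∀ (w : List Piece) (o : List Bool) (φ : ℕ → ℕ → α) (D : Sys),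
    w.foldl (fun o p => o.bind p.dir) (some o) = some [true] → Rul o w φ → sys q w = some D →
    ∀ P : α → Prop, (∀ j < o.length, P (φ 0 j)) → P (φ w.length 0) →
    (∀ c < nx w, ∀ b, P (φ (dep q w c b).1 (dep q w c b).2) ∧ P (φ (arr q w c b).1 (arr q w c b).2)) →
    ∀ t ≤ w.length, ∀ j < (SLo o w t).length, P (φ t j) := by
  intro w
  induction w with
  | nil =>
    intro o φ D ho hR hD P h0 h1 h2 t ht j hj
    have : t = 0 := by simpa using ht
    subst this
    exact h0 j hj
  | cons p w ih =>
    intro o φ D' ho hR hD' P h0 h1 h2 t ht j hj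
    cases t with
    | zero => exact h0 j hj
    | succ t =>
      simp only [List.foldl_cons, Option.bind_some] at ho
      obtain ⟨o', ho'⟩ : ∃ o', p.dir o = some o' := by
        cases h : p.dir o with
        | none => rw [h, Wo.foldl_none'] at ho; simp at ho
        | some o' => exact ⟨o', rfl⟩
      rw [ho'] at ho
      simp only [sys, Option.bind_eq_some_iff] at hD'
      obtain ⟨D, hD, hs⟩ := hD'
      obtain ⟨hL, hR'⟩ := Rul_cons ho' hR
      obtain ⟨V, lam, hW⟩ := wi_all q w o' _ D ho hR' hD
      have hSI := sys_si q w D hD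
      have h2' : ∀ c < nx w, ∀ b, P (φ ((dep q w c b).1 + 1) (dep q w c b).2) ∧
          P (φ ((arr q w c b).1 + 1) (arr q w c b).2) := by
        intro c hc b
        have := h2 c (lt_of_lt_of_le hc (nx_le_cons p w)) b
        rw [dep_cons hc, arr_cons hc] at this
        exact this
      rw [SLo_cons ho'] at hj
      refine ih o' (fun t => φ (t + 1)) D ho hR' hD P ?_ h1 h2' t (by simpa using ht) j hj
      intro j hj
      show P (φ 1 j)
      cases p with
      | cross k e =>
        obtain ⟨a, b, ha, rfl, rfl⟩ := Wo.dir_cross ho'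
        by_cases h3 : j = k ∨ j = k + 1
        · have h4 := h2 (nx w) (by simp [nx])
          have e1 : cxp (Piece.cross k e :: w) (nx w) = (0, k) := by simp [cxp]
          have h5 := (h4 true).2
          have h6 := (h4 false).1
          simp only [dep, arr, e1, jj, if_true, Bool.false_eq_true, if_false, Nat.zero_add] at h5 h6
          by_cases hp : parq q k = true
          · rw [if_pos hp] at h5
            rw [if_neg (by simp [hp])] at h6
            rcases h3 with rfl | rfl
            · exact h5
            · exact h6
          · have hp' : parq q k = false := by simpa using hp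
            rw [if_neg hp] at h5
            rw [if_pos hp'] at h6
            rcases h3 with rfl | rfl
            · exact h6
            · exact h5
        · push Not at h3
          rw [← hL.cross j hj h3.1 h3.2]
          exact h0 j hj
      | cup k e =>
        have h7 := cup_val ho' hSI hs hL hW P h0 h1 (fun c hc b => (h2' c hc b).2)
        obtain ⟨hk, rfl⟩ := Wo.dir_cup ho'
        obtain ⟨L1, L2, L3⟩ := hL.cup
        have hlen : (o.take k ++ e :: (!e) :: o.drop k).length = o.length + 2 := by simp; omega
        rw [hlen] at hj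
        by_cases hj1 : j < k
        · rw [← L1 j (by omega) hj1]
          exact h0 j (by omega)
        · by_cases hj2 : j = k
          · rw [hj2]; exact h7.1
          · by_cases hj3 : j = k + 1
            · rw [hj3]; exact h7.2
            · have := L2 (j - 2) (by omega) (by omega)
              have e2 : j - 2 + 2 = j := by omega
              rw [e2] at this
              rw [← this]
              exact h0 _ (by omega)
      | cap k e =>
        obtain ⟨a, b, ha, rfl, rfl⟩ := Wo.dir_cap ho'
        obtain ⟨L1, L2, L3⟩ := hL.cap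
        simp only [List.length_append, List.length_cons] at h0 L1 L2 hj
        by_cases hj1 : j < k
        · rw [← L1 j (by omega) hj1]
          exact h0 j (by omega)
        · have := L2 (j + 2) (by omega) (by omega)
          have e2 : j + 2 - 2 = j := by omega
          rw [e2] at this
          rw [← this]
          exact h0 _ (by omega)

end LG3P

namespace LG3P.Wo
open LG3 Equiv.Perm

/-- If the parent system exists, there is no closed circle without crossings. -/
theorem all_arcs {w : List Piece} (hw : IsTangle w) (hs : (sys false w).isSome = true) (z : Pos w) :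
    (∃ n : ℕ, (pi hw ^ n) z ∈ Dep hw) ∨ (pi hw).SameCycle (e0 w) z := by
  by_contra hz
  push Not at hz
  obtain ⟨D, hD⟩ := Option.isSome_iff_exists.mp hs
  -- the positions on the circle of z
  set φ : ℕ → ℕ → Prop := fun t j => ∃ h : Val w (t, j), (pi hw).SameCycle z ⟨(t, j), h⟩ with hφ
  have hinv : ∀ z' : Pos w, φ (pi hw z').1.1 (pi hw z').1.2 = φ z'.1.1 z'.1.2 := by
    intro z'
    apply propext
    constructor
    · rintro ⟨h1, h2⟩
      exact ⟨z'.2, Equiv.Perm.sameCycle_apply_right.1 h2⟩
    · rintro ⟨h1, h2⟩
      exact ⟨(pi hw z').2, Equiv.Perm.sameCycle_apply_right.2 h2⟩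
  have hF := Jw.rul_of_inv hw hinv
  have hR : LG3P.Rul [true] w φ := by
    intro t p hp j hj
    refine ⟨fun hv => ⟨fun h1 => (hF.rt t p hp j hv h1).symm, fun h1 => (hF.rf t p hp j hv h1).symm⟩,
      fun hv h1 => (hF.lf t p hp j hv h1).symm⟩
  have hdep : ∀ s : Sl w, ¬ φ (depP hw s).1.1 (depP hw s).1.2 := by
    rintro s ⟨h1, h2⟩
    obtain ⟨n, -, hn⟩ := h2.exists_pow_eq'
    exact hz.1 n ⟨s, hn.symm⟩
  have harr : ∀ s : Sl w, ¬ φ (arrP hw s).1.1 (arrP hw s).1.2 := by
    intro s h
    rw [← hinv, pi_arrP] at h
    exact hdep s h
  have h00 : ¬ φ 0 0 := by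
    rintro ⟨h1, h2⟩
    exact hz.2 h2.symm
  have hlen : ¬ φ w.length 0 := by
    intro h
    have := hinv (e0 w)
    rw [pi_e0] at this
    exact h00 (this ▸ h)
  have hjj : ∀ b k, jj false k b = je b k := by
    intro b k
    unfold jj je parq
    simp
  have key := cov false w [true] φ D hw hR hD (fun p => ¬ p) (by
    intro j hj
    have : j = 0 := by simpa using hj
    subst this
    exact h00) hlen (by
    intro c hc b
    obtain ⟨C, rfl⟩ := num_surj w c hc
    have e1 := cxp_num w C
    constructor
    · have := hdep (C, b)
      have e2 : LG3P.dep false w (num w C) b = (depP hw (C, b)).1 := by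
        unfold LG3P.dep
        rw [e1, hjj]
        show _ = (if b then C.1 else C.1 + 1, je b (kc w C.1))
        cases b <;> rfl
      rw [e2]; exact this
    · have := harr (C, b)
      have e2 : LG3P.arr false w (num w C) b = (arrP hw (C, b)).1 := by
        unfold LG3P.arr
        rw [e1, hjj]
        show _ = (if b then C.1 + 1 else C.1, je b (kc w C.1))
        cases b <;> rfl
      rw [e2]; exact this) z.1.1 z.2.1 z.1.2 z.2.2
  exact key ⟨z.2, Equiv.Perm.SameCycle.refl _ _⟩

end LG3P.Wo
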