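import Pool.Agent.Lib.MP_3cd99b_gt.Y6

/-!
The exact support and the signs of the Links-Gould polynomials of all alternating arborescent (algebraic) links.
In particular there are no interior zeros.

The objects (all in the namespace LG3):
* Piece, IsTangle, stateSum, IsLinksGould: oriented (1,1)-tangle diagrams and the state sum of the
  De Wit-Kauffman-Links R-matrix (file D0);
* AltTangle s k: the ways to build an alternating arborescent tangle from single crossings by gluing two tangles
  along two neighbouring ends and by quarter turns; s is the type of the alternation, k (P, A or B) tells how the two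
  strands at the left and right side are directed;
* AltTangle.link: the alternating link diagram obtained by closing the tangle, cut open at one point;
* Oc, Oc.mem: octagons of lattice points, l ≤ i, j ≤ r, s ≤ i + j ≤ t, |i - j| ≤ d;
* AltTangle.octagon: the octagon given by the recursion Oo.ver, Oo.hor, Oo.hor2, Oo.clasp, Oo.rot, which only adds and
  reflects the five numbers l, r, s, t, d;
* AltTangle.signExp: the number of crossings and quarter turns, plus one for the kind P.
-/

namespace Pool.Agent.Results.MP_3cd99b_gt.ArborescentSupport

open LG3

/-- Each alternating arborescent link diagram has exactly one Links-Gould polynomial P; the exponents of its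
monomials are exactly the lattice points of the octagon; the sign of the coefficient of t0^i t1^j is
(-1)^(i+j+signExp); and there are no interior zeros. -/
theorem result : ∀ (s : Bool) (k : Kd) (T : AltTangle s k), ∃ P : ℤ × ℤ →₀ ℤ,
    (∀ Q : ℤ × ℤ →₀ ℤ, IsLinksGould T.link Q ↔ Q = P) ∧
      (∀ i j : ℤ, P (i, j) ≠ 0 ↔ T.octagon.mem i j) ∧
      (∀ i j : ℤ, P (i, j) ≠ 0 → (0 < P (i, j) ↔ Even (i + j + T.signExp))) ∧
      NoInteriorZeros {z | P z ≠ 0} :=
  fun _ _ T => T.final

end Pool.Agent.Results.MP_3cd99b_gt.ArborescentSupport
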