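import Pool.Agent.Lib.MP_3cd99b_gt.A

/-! Matrix identities for the R-matrix, by computation with lists of monomials. -/

open Finset

namespace LG3

variable {K : Type*} [Field K]

/-- Laurent polynomials in α, β as lists of (coefficient, exponent of α, exponent of β) -/
abbrev LP := List (ℤ × ℤ × ℤ)

/-- the value of a Laurent polynomial -/
def ev (α β : K) (p : LP) : K := (p.map fun m => (m.1 : K) * (α ^ m.2.1 * β ^ m.2.2)).sum

/-- product -/
def mulP (p q : LP) : LP :=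
  p.flatMap fun m => q.map fun n => (m.1 * n.1, m.2.1 + n.2.1, m.2.2 + n.2.2)

/-- add a monomial -/
def ins (m : ℤ × ℤ × ℤ) : LP → LP
  | [] => [m]
  | n :: l => if n.2 = m.2 then (n.1 + m.1, n.2) :: l else n :: ins m l

/-- collect terms -/
def norm (p : LP) : LP := p.foldr ins []

/-- zero test -/
def isZ (p : LP) : Bool := (norm p).all fun m => m.1 == 0

/-- negation -/
def negP (p : LP) : LP := p.map fun m => (-m.1, m.2)

theorem ev_nil (α β : K) : ev α β [] = 0 := rfl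

theorem ev_cons (α β : K) (m : ℤ × ℤ × ℤ) (p : LP) :
    ev α β (m :: p) = (m.1 : K) * (α ^ m.2.1 * β ^ m.2.2) + ev α β p := by
  simp [ev]

theorem ev_append (α β : K) (p q : LP) : ev α β (p ++ q) = ev α β p + ev α β q := by
  simp [ev]

theorem ev_neg (α β : K) (p : LP) : ev α β (negP p) = -ev α β p := by
  induction p with
  | nil => simp [negP, ev]
  | cons m p ih =>
    have h : negP (m :: p) = (-m.1, m.2) :: negP p := rfl
    rw [h, ev_cons, ev_cons, ih]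
    push_cast
    ring

theorem ev_mulP {α β : K} (ha : α ≠ 0) (hb : β ≠ 0) (p q : LP) :
    ev α β (mulP p q) = ev α β p * ev α β q := by
  induction p with
  | nil => simp [mulP, ev]
  | cons m p ih =>
    have h : mulP (m :: p) q = (q.map fun n => (m.1 * n.1, m.2.1 + n.2.1, m.2.2 + n.2.2)) ++ mulP p q := rfl
    rw [h, ev_append, ev_cons, ih, add_mul]
    congr 1
    clear h ih
    induction q with
    | nil => simp [ev]
    | cons n q ih =>
      rw [List.map_cons, ev_cons, ev_cons, ih, zpow_add₀ ha, zpow_add₀ hb]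
      push_cast
      ring

theorem ev_ins (α β : K) (m : ℤ × ℤ × ℤ) (p : LP) :
    ev α β (ins m p) = (m.1 : K) * (α ^ m.2.1 * β ^ m.2.2) + ev α β p := by
  induction p with
  | nil => simp [ins, ev]
  | cons n p ih =>
    rw [ins]
    split_ifs with h
    · rw [ev_cons, ev_cons, h]
      push_cast
      ring
    · rw [ev_cons, ih, ev_cons]
      ring

theorem ev_norm (α β : K) (p : LP) : ev α β (norm p) = ev α β p := by
  induction p with
  | nil => rfl
  | cons m p ih =>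
    have h : norm (m :: p) = ins m (norm p) := rfl
    rw [h, ev_ins, ih, ev_cons]

theorem ev_isZ (α β : K) {p : LP} (h : isZ p = true) : ev α β p = 0 := by
  rw [← ev_norm]
  unfold isZ at h
  generalize norm p = q at h
  induction q with
  | nil => rfl
  | cons m q ih =>
    simp only [List.all_cons, Bool.and_eq_true, beq_iff_eq] at h
    rw [ev_cons, ih h.2, h.1]
    simp

/-- the R-matrix as a table -/
def RpL : Fin 4 → Fin 4 → Fin 4 → Fin 4 → LP
  | 0, 0, 0, 0 => [(1, 2, 0)]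
  | 0, 1, 1, 0 => [(1, 1, 0)]
  | 0, 2, 2, 0 => [(1, 1, 0)]
  | 0, 3, 3, 0 => [(1, 0, 0)]
  | 1, 0, 0, 1 => [(1, 1, 0)]
  | 1, 0, 1, 0 => [(1, 2, 0), (-1, 0, 0)]
  | 1, 1, 1, 1 => [(-1, 0, 0)]
  | 1, 2, 1, 2 => [(1, 2, 2), (-1, 0, 0)]
  | 1, 2, 2, 1 => [(-1, 1, 1)]
  | 1, 2, 3, 0 => [(1, 3, 3), (-1, 3, 1), (-1, 1, 3), (1, 1, 1)]
  | 1, 3, 3, 1 => [(1, 0, 1)]
  | 2, 0, 0, 2 => [(1, 1, 0)]
  | 2, 0, 2, 0 => [(1, 2, 0), (-1, 0, 0)]
  | 2, 1, 1, 2 => [(-1, 1, 1)]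
  | 2, 1, 3, 0 => [(1, 2, 0), (-1, 2, 2), (-1, 0, 0), (1, 0, 2)]
  | 2, 2, 2, 2 => [(-1, 0, 0)]
  | 2, 3, 3, 2 => [(1, 0, 1)]
  | 3, 0, 0, 3 => [(1, 0, 0)]
  | 3, 0, 1, 2 => [(-1, 1, 1)]
  | 3, 0, 2, 1 => [(1, 0, 0)]
  | 3, 0, 3, 0 => [(1, 2, 0), (-1, 2, 2), (-1, 0, 0), (1, 0, 2)]
  | 3, 1, 1, 3 => [(1, 0, 1)]
  | 3, 1, 3, 1 => [(1, 0, 2), (-1, 0, 0)]
  | 3, 2, 2, 3 => [(1, 0, 1)]
  | 3, 2, 3, 2 => [(1, 0, 2), (-1, 0, 0)]
  | 3, 3, 3, 3 => [(1, 0, 2)]
  | _, _, _, _ => []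

/-- its inverse as a table -/
def RmL : Fin 4 → Fin 4 → Fin 4 → Fin 4 → LP
  | 0, 0, 0, 0 => [(1, -2, 0)]
  | 0, 1, 0, 1 => [(1, -2, 0), (-1, 0, 0)]
  | 0, 1, 1, 0 => [(1, -1, 0)]
  | 0, 2, 0, 2 => [(1, -2, 0), (-1, 0, 0)]
  | 0, 2, 2, 0 => [(1, -1, 0)]
  | 0, 3, 0, 3 => [(1, -2, 0), (-1, -2, -2), (-1, 0, 0), (1, 0, -2)]
  | 0, 3, 1, 2 => [(1, -1, -1)]
  | 0, 3, 2, 1 => [(-1, -2, -2)]
  | 0, 3, 3, 0 => [(1, 0, 0)]
  | 1, 0, 0, 1 => [(1, -1, 0)]
  | 1, 1, 1, 1 => [(-1, 0, 0)]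
  | 1, 2, 0, 3 => [(-1, 1, 1), (1, 1, -1), (1, -1, 1), (-1, -1, -1)]
  | 1, 2, 2, 1 => [(-1, -1, -1)]
  | 1, 3, 1, 3 => [(1, 0, -2), (-1, 0, 0)]
  | 1, 3, 3, 1 => [(1, 0, -1)]
  | 2, 0, 0, 2 => [(1, -1, 0)]
  | 2, 1, 0, 3 => [(1, -2, -2), (-1, -2, 0), (-1, 0, -2), (1, 0, 0)]
  | 2, 1, 1, 2 => [(-1, -1, -1)]
  | 2, 1, 2, 1 => [(1, -2, -2), (-1, 0, 0)]
  | 2, 2, 2, 2 => [(-1, 0, 0)]
  | 2, 3, 2, 3 => [(1, 0, -2), (-1, 0, 0)]
  | 2, 3, 3, 2 => [(1, 0, -1)]
  | 3, 0, 0, 3 => [(1, 0, 0)]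
  | 3, 1, 1, 3 => [(1, 0, -1)]
  | 3, 2, 2, 3 => [(1, 0, -1)]
  | 3, 3, 3, 3 => [(1, 0, -2)]
  | _, _, _, _ => []

/-- table for both signs -/
def RsL (s : Bool) : Fin 4 → Fin 4 → Fin 4 → Fin 4 → LP := if s then RpL else RmL

/-- weights -/
def muL : Fin 4 → LP
  | 0 => [(1, -2, 0)]
  | 1 => [(-1, 0, 2)]
  | 2 => [(-1, -2, 0)]
  | 3 => [(1, 0, 2)]

/-- inverse weights -/
def muI : Fin 4 → LP
  | 0 => [(1, 2, 0)]
  | 1 => [(-1, 0, -2)]
  | 2 => [(-1, 2, 0)]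
  | 3 => [(1, 0, -2)]

theorem mu_ev (α β : K) (i : Fin 4) : mu α β i = ev α β (muL i) := by
  fin_cases i <;> simp [mu, muL, ev, zpow_ofNat, zpow_neg]

theorem muI_ev (α β : K) (i : Fin 4) : (mu α β i)⁻¹ = ev α β (muI i) := by
  fin_cases i <;> simp [mu, muI, ev, zpow_ofNat, zpow_neg]

theorem Rp_ev (α β : K) (i j k l : Fin 4) :
    Rp α β i j k l = ev α β (RpL i j k l) := by
  unfold Rp RpL
  split <;> simp only [ev, List.map_cons, List.map_nil, List.sum_cons, List.sum_nil,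
    zpow_ofNat, zpow_zero, zpow_one, Int.cast_one, Int.cast_neg] <;> ring1

theorem Rm_ev {α β : K} (ha : α ≠ 0) (hb : β ≠ 0) (i j k l : Fin 4) :
    Rm α β i j k l = ev α β (RmL i j k l) := by
  unfold Rm RmL
  split <;> simp only [ev, List.map_cons, List.map_nil, List.sum_cons, List.sum_nil, zpow_neg,
    zpow_ofNat, zpow_zero, zpow_one, Int.cast_one, Int.cast_neg] <;>
    first | ring1 | (field_simp; ring1)

theorem Rs_ev {α β : K} (ha : α ≠ 0) (hb : β ≠ 0) (s : Bool) (i j k l : Fin 4) :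
    Rs α β s i j k l = ev α β (RsL s i j k l) := by
  cases s
  · exact Rm_ev ha hb i j k l
  · exact Rp_ev α β i j k l

/-- tables of matrices -/
abbrev MatL := Fin 4 × Fin 4 → Fin 4 × Fin 4 → LP

/-- the matrix M has the table L -/
def Rep (α β : K) (M : Mat K) (L : MatL) : Prop := ∀ p q, M p q = ev α β (L p q)

/-- product of tables -/
def mulL (A B : MatL) : MatL := fun p q =>
  norm ([0, 1, 2, 3].flatMap fun a => [0, 1, 2, 3].flatMap fun b => mulP (A p (a, b)) (B (a, b) q))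

/-- sum of tables -/
def addL (A B : MatL) : MatL := fun p q => A p q ++ B p q

/-- scalar multiple -/
def smulL (c : LP) (A : MatL) : MatL := fun p q => mulP c (A p q)

/-- identity -/
def oneL : MatL := fun p q => if p = q then [(1, 0, 0)] else []

/-- equality test -/
def eqL (A B : MatL) : Bool :=
  [0, 1, 2, 3].all fun a => [0, 1, 2, 3].all fun b => [0, 1, 2, 3].all fun c => [0, 1, 2, 3].all fun d =>
    isZ (A (a, b) (c, d) ++ negP (B (a, b) (c, d)))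

theorem mem4 (a : Fin 4) : a ∈ ([0, 1, 2, 3] : List (Fin 4)) := by
  fin_cases a <;> simp

theorem Rep.mul {α β : K} (ha : α ≠ 0) (hb : β ≠ 0) {M N : Mat K} {A B : MatL} (h1 : Rep α β M A)
    (h2 : Rep α β N B) : Rep α β (M * N) (mulL A B) := by
  intro p q
  rw [mulL, ev_norm]
  simp only [List.flatMap_cons, List.flatMap_nil, List.append_nil, ev_append, ev_mulP ha hb,
    Matrix.mul_apply, Fintype.sum_prod_type, Fin.sum_univ_four]
  simp only [h1 p, fun x => h2 x q]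
  ring

theorem Rep.add {α β : K} {M N : Mat K} {A B : MatL} (h1 : Rep α β M A)
    (h2 : Rep α β N B) : Rep α β (M + N) (addL A B) := by
  intro p q
  rw [addL, ev_append, Matrix.add_apply, h1, h2]

theorem Rep.smul {α β : K} (ha : α ≠ 0) (hb : β ≠ 0) {M : Mat K} {A : MatL} (h1 : Rep α β M A)
    {c : K} {C : LP} (hc : c = ev α β C) : Rep α β (c • M) (smulL C A) := by
  intro p q
  rw [smulL, ev_mulP ha hb, Matrix.smul_apply, h1, hc, smul_eq_mul]

theorem Rep.one (α β : K) : Rep α β 1 oneL := by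
  intro p q
  rw [oneL, Matrix.one_apply]
  split_ifs
  · simp [ev]
  · rfl

theorem Rep.eq {α β : K} {M N : Mat K} {A B : MatL} (h1 : Rep α β M A)
    (h2 : Rep α β N B) (h : eqL A B = true) : M = N := by
  ext ⟨a, b⟩ ⟨c, d⟩
  rw [eqL, List.all_eq_true] at h
  have h3 := h a (mem4 a)
  rw [List.all_eq_true] at h3
  have h4 := h3 b (mem4 b)
  rw [List.all_eq_true] at h4
  have h5 := h4 c (mem4 c)
  rw [List.all_eq_true] at h5
  have h6 := h5 d (mem4 d)
  have h7 := ev_isZ α β h6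
  rw [ev_append, ev_neg, ← h1, ← h2] at h7
  exact sub_eq_zero.mp (by rw [sub_eq_add_neg]; exact h7)

/-- tables of the twist matrices -/
def AmL (s : Bool) : MatL := fun p q => mulP (muI q.1) (mulP (RsL s q.1 p.1 q.2 p.2) (muL p.2))

/-- second kind -/
def BmL (s : Bool) : MatL := fun p q => RsL s p.2 q.2 p.1 q.1

/-- the R-matrix as a matrix -/
def Rt (α β : K) (s : Bool) : Mat K := fun p q => Rs α β s p.1 p.2 q.1 q.2

/-- its table -/
def RtL (s : Bool) : MatL := fun p q => RsL s p.1 p.2 q.1 q.2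

/-- the turn back matrix -/
def Um (α β : K) : Mat K := fun p q =>
  if p.1 = p.2 ∧ q.1 = q.2 then mu α β p.1 * (mu α β q.1)⁻¹ else 0

/-- its table -/
def UmL : MatL := fun p q => if p.1 = p.2 ∧ q.1 = q.2 then mulP (muL p.1) (muI q.1) else []

section
variable {α β : K} (ha : α ≠ 0) (hb : β ≠ 0)
include ha hb

theorem Am_rep (s : Bool) : Rep α β (Am α β s) (AmL s) := by
  intro p q
  rw [AmL, ev_mulP ha hb, ev_mulP ha hb, ← muI_ev, ← mu_ev, ← Rs_ev ha hb, Am]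
  ring

theorem Bm_rep (s : Bool) : Rep α β (Bm α β s) (BmL s) := by
  intro p q
  rw [BmL, ← Rs_ev ha hb, Bm]

theorem Rt_rep (s : Bool) : Rep α β (Rt α β s) (RtL s) := by
  intro p q
  rw [RtL, ← Rs_ev ha hb, Rt]

theorem Um_rep : Rep α β (Um α β) UmL := by
  intro p q
  rw [UmL, Um]
  split_ifs
  · rw [ev_mulP ha hb, ← muI_ev, ← mu_ev]
  · rfl

end

/-- x for a positive column, its inverse for a negative one -/
def xL (s : Bool) : LP := if s then [(1, 2, 2)] else [(1, -2, -2)]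

/-- the factor of U -/
def kL (s : Bool) : LP :=
  if s then [(2, 0, 0), (-2, 2, 0), (-2, 0, 2), (2, 2, 2)] else [(2, 0, 0), (-2, -2, 0), (-2, 0, -2), (2, -2, -2)]

theorem chk_BA (s : Bool) : eqL (mulL (BmL s) (AmL (!s))) oneL = true := by
  cases s <;> decide +kernel

theorem chk_RR (s : Bool) : eqL (mulL (RtL s) (RtL (!s))) oneL = true := by
  cases s <;> decide +kernel

theorem chk_U (s : Bool) : eqL (mulL (AmL s) (mulL (BmL s) UmL)) UmL = true := by
  cases s <;> decide +kernel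

theorem chk_T (s : Bool) : eqL (mulL (AmL s) (mulL (BmL s) (AmL s)))
    (addL (addL (smulL ([(1, 0, 0)] ++ xL s) (AmL s)) (smulL (negP (xL s)) (AmL (!s)))) (smulL (negP (kL s)) UmL)) = true := by
  cases s <;> decide +kernel

theorem chk_cub : eqL (mulL (RtL true) (RtL true))
    (addL (addL (smulL [(1, 2, 0), (1, 0, 2), (-1, 0, 0)] (RtL true))
      (smulL [(1, 2, 0), (1, 0, 2), (-1, 2, 2)] oneL)) (smulL [(-1, 2, 2)] (RtL false))) = true := by
  decide +kernel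

theorem chk_cub' : eqL (mulL (RtL false) (RtL false))
    (addL (addL (smulL [(1, -2, 0), (1, 0, -2), (-1, 0, 0)] (RtL false))
      (smulL [(1, -2, 0), (1, 0, -2), (-1, -2, -2)] oneL)) (smulL [(-1, -2, -2)] (RtL true))) = true := by
  decide +kernel

/-- partial trace -/
def cl (α β : K) (M : Mat K) : Fin 4 → Fin 4 → K := fun i j => ∑ m, mu α β m * M (i, m) (j, m)

/-- its table -/
def clL (L : MatL) : Fin 4 → Fin 4 → LP := fun i j => [0, 1, 2, 3].flatMap fun m => mulP (muL m) (L (i, m) (j, m))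

theorem cl_rep {α β : K} (ha : α ≠ 0) (hb : β ≠ 0) {M : Mat K} {L : MatL} (h : Rep α β M L) (i j : Fin 4) :
    cl α β M i j = ev α β (clL L i j) := by
  rw [cl, clL]
  simp only [List.flatMap_cons, List.flatMap_nil, List.append_nil, ev_append, ev_mulP ha hb,
    Fin.sum_univ_four, ← mu_ev, h _ _]
  ring

theorem chk_cl (s : Bool) : ([0, 1, 2, 3] : List (Fin 4)).all (fun i => ([0, 1, 2, 3] : List (Fin 4)).all (fun j =>
    isZ (clL (RtL s) i j ++ (if i = j then [(-1, 0, 0)] else [])))) = true := by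
  cases s <;> decide +kernel

end LG3
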