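import Pool.Agent.Lib.MP_3cd99b_gt.D

/-! The two forms of the state sum agree. -/

open Finset

namespace LG3

variable {K : Type*} [Field K]

theorem wt_eq (α β : K) : wt α β = mu α β := by
  funext i
  fin_cases i <;> rfl

set_option maxHeartbeats 4000000 in
theorem RM_true (α β : K) (i j a b : Fin 4) : RM α β true i j a b = Rp α β i j a b := by
  fin_cases i <;> fin_cases j <;> fin_cases a <;> fin_cases b <;> first | exact add_zero _ | rfl

set_option maxHeartbeats 4000000 in
theorem RM_false (α β : K) (i j a b : Fin 4) : RM α β false i j a b = Rm α β i j a b := by
  fin_cases i <;> fin_cases j <;> fin_cases a <;> fin_cases b <;> first | exact add_zero _ | rfl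

theorem RM_eq (α β : K) (s : Bool) (i j a b : Fin 4) : RM α β s i j a b = Rs α β s i j a b := by
  cases s
  · rw [RM_false, Rs, if_neg Bool.false_ne_true]
  · rw [RM_true, Rs, if_pos rfl]

theorem stateSum_cons (α β : K) (p : Piece) (w : List Piece) (s t : List (Fin 4)) :
    stateSum α β (p :: w) s t = step α β p (fun r => stateSum α β w r t) s := rfl

theorem drop_add_two (s : List (Fin 4)) (k : ℕ) : s.drop (k + 2) = (s.drop k).drop 2 := by
  rw [List.drop_drop]

theorem stateSum_eq (α β : K) (w : List Piece) (s t : List (Fin 4)) :
    stateSum α β w s t = amp α β w s t := by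
  induction w generalizing s with
  | nil => rfl
  | cons p w ih =>
    rw [stateSum_cons]
    simp only [ih]
    cases p with
    | cup k f =>
      simp only [step, amp, wt_eq]
    | cap k f =>
      have e2 : s.drop (k + 2) = (s.drop k).drop 2 := drop_add_two s k
      simp only [step, amp, wt_eq, e2]
      generalize s.take k = l
      rcases s.drop k with _ | ⟨x, _ | ⟨y, r⟩⟩
      · simp
      · simp
      · simp only [List.drop_succ_cons, List.drop_zero, List.cons.injEq, and_true]
        by_cases h : x = y
        · subst h
          rw [if_pos rfl, Finset.sum_eq_single x]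
          · simp
          · intro i _ hi
            rw [if_neg (fun h => hi h.1.symm)]
          · intro h
            exact absurd (Finset.mem_univ x) h
        · rw [if_neg h]
          refine Finset.sum_eq_zero (fun i _ => ?_)
          rw [if_neg (fun h2 => h (h2.1.trans h2.2.symm))]
    | cross k e =>
      have e2 : s.drop (k + 2) = (s.drop k).drop 2 := drop_add_two s k
      simp only [step, amp, RM_eq, e2]
      generalize s.take k = l
      rcases s.drop k with _ | ⟨x, _ | ⟨y, r⟩⟩
      · simp
      · simp
      · simp only [List.drop_succ_cons, List.drop_zero, List.cons.injEq, and_true]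
        rw [Finset.sum_eq_single x, Finset.sum_eq_single y]
        · simp
        · intro j _ hj
          rw [if_neg (fun h => hj h.2.symm)]
        · intro h
          exact absurd (Finset.mem_univ y) h
        · intro i _ hi
          refine Finset.sum_eq_zero (fun j _ => ?_)
          rw [if_neg (fun h => hi h.1.symm)]
        · intro h
          exact absurd (Finset.mem_univ x) h

theorem foldl_dir (w : List Piece) (o : Option (List Bool)) :
    w.foldl (fun o p => o.bind p.dir) o = o.bind (dirs w) := by
  induction w generalizing o with
  | nil => simp only [List.foldl_nil, dirs]; cases o <;> rfl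
  | cons p w ih =>
    rw [List.foldl_cons, ih, Option.bind_assoc]
    rfl

theorem isTangle_iff (w : List Piece) : IsTangle w ↔ dirs w [true] = some [true] := by
  rw [IsTangle, foldl_dir, Option.bind_some]

theorem twists_eq (s : Bool) (k n : ℕ) :
    twists s k n = twistA s k ++ (List.replicate n (twistB s k ++ twistA s k)).flatten := by
  induction n with
  | zero => simp [twists]
  | succ n ih => rw [twists, ih, List.replicate_succ, List.flatten_cons, List.append_assoc]

theorem columnDiagram_eq (c : ℕ × Bool) : columnDiagram c = column c := by
  rw [columnDiagram, column, twists_eq]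
  simp

theorem pretzelDiagram_eq (cs : List (ℕ × Bool)) : pretzelDiagram cs = pretzel cs := by
  have h : columnDiagram = column := funext columnDiagram_eq
  rw [pretzelDiagram, pretzel, h]
  simp

theorem isLinksGould_iff (w : List Piece) (P : ℤ × ℤ →₀ ℤ) : IsLinksGould w P ↔ IsLGold w P := by
  rw [IsLinksGould, IsLGold, isTangle_iff]
  simp only [stateSum_eq]

end LG3
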