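import Pool.Agent.Lib.MP_3cd99b_gt.B

/-! Columns of crossings and the value of a pretzel diagram. -/

open Finset

namespace LG3

variable {K : Type*} [Field K]

theorem Acts.one (α β : K) (k : ℕ) : Acts α β [] k 1 := by
  intro l r t i j w' _
  rw [List.nil_append, Finset.sum_eq_single i, Finset.sum_eq_single j]
  · simp
  · intro b _ hb
    rw [Matrix.one_apply_ne (by simp [Ne.symm hb]), zero_mul]
  · intro h
    exact absurd (Finset.mem_univ j) h
  · intro a _ ha
    refine Finset.sum_eq_zero (fun b _ => ?_)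
    rw [Matrix.one_apply_ne (by simp [Ne.symm ha]), zero_mul]
  · intro h
    exact absurd (Finset.mem_univ i) h

/-- the matrix of twists -/
def Tw (α β : K) (s : Bool) : ℕ → Mat K
  | 0 => Am α β s
  | n + 1 => Am α β s * (Bm α β s * Tw α β s n)

theorem acts_twists (α β : K) (s : Bool) (k n : ℕ) : Acts α β (twists s k n) k (Tw α β s n) := by
  induction n with
  | zero => exact acts_A α β s k
  | succ n ih => exact (acts_A α β s k).mul ((acts_B α β s k).mul ih)

/-- `1 + x + ... + x^(n-1)` -/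
def bn (x : K) : ℕ → K
  | 0 => 0
  | n + 1 => 1 + x * bn x n

/-- `n + (n-1) x + ... + x^(n-1)` -/
def sn (x : K) : ℕ → K
  | 0 => 0
  | n + 1 => sn x n + bn x (n + 1)

/-- x or its inverse -/
def xs (α β : K) (s : Bool) : K := ev α β (xL s)

/-- the factor of U -/
def ks (α β : K) (s : Bool) : K := ev α β (kL s)

theorem one_ev (α β : K) : (1 : K) = ev α β [(1, 0, 0)] := by simp [ev]

section
variable {α β : K} (ha : α ≠ 0) (hb : β ≠ 0)
include ha hb

theorem mat_BA (s : Bool) : Bm α β s * Am α β (!s) = 1 :=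
  Rep.eq ((Bm_rep ha hb s).mul ha hb (Am_rep ha hb (!s))) (Rep.one α β) (chk_BA s)

theorem mat_RR (s : Bool) : Rt α β s * Rt α β (!s) = 1 :=
  Rep.eq ((Rt_rep ha hb s).mul ha hb (Rt_rep ha hb (!s))) (Rep.one α β) (chk_RR s)

theorem mat_U (s : Bool) : Am α β s * (Bm α β s * Um α β) = Um α β :=
  Rep.eq ((Am_rep ha hb s).mul ha hb ((Bm_rep ha hb s).mul ha hb (Um_rep ha hb))) (Um_rep ha hb) (chk_U s)

theorem mat_T (s : Bool) : Am α β s * (Bm α β s * Am α β s) =
    (1 + xs α β s) • Am α β s + (-xs α β s) • Am α β (!s) + (-ks α β s) • Um α β := by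
  refine Rep.eq ((Am_rep ha hb s).mul ha hb ((Bm_rep ha hb s).mul ha hb (Am_rep ha hb s)))
    ((((Am_rep ha hb s).smul ha hb ?_).add ((Am_rep ha hb (!s)).smul ha hb ?_)).add
      ((Um_rep ha hb).smul ha hb ?_)) (chk_T s)
  · rw [ev_append, xs, ← one_ev]
  · rw [ev_neg, xs]
  · rw [ev_neg, ks]

theorem mat_cub : Rt α β true * Rt α β true =
    (α ^ 2 + β ^ 2 - 1) • Rt α β true + (α ^ 2 + β ^ 2 - α ^ 2 * β ^ 2) • (1 : Mat K) +
      (-(α ^ 2 * β ^ 2)) • Rt α β false := by
  refine Rep.eq ((Rt_rep ha hb true).mul ha hb (Rt_rep ha hb true))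
    ((((Rt_rep ha hb true).smul ha hb ?_).add ((Rep.one α β).smul ha hb ?_)).add
      ((Rt_rep ha hb false).smul ha hb ?_)) chk_cub <;>
  · simp [ev, zpow_ofNat]
    try ring

theorem mat_cub' : Rt α β false * Rt α β false =
    ((α ^ 2)⁻¹ + (β ^ 2)⁻¹ - 1) • Rt α β false + ((α ^ 2)⁻¹ + (β ^ 2)⁻¹ - (α ^ 2 * β ^ 2)⁻¹) • (1 : Mat K) +
      (-(α ^ 2 * β ^ 2)⁻¹) • Rt α β true := by
  refine Rep.eq ((Rt_rep ha hb false).mul ha hb (Rt_rep ha hb false))
    ((((Rt_rep ha hb false).smul ha hb ?_).add ((Rep.one α β).smul ha hb ?_)).add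
      ((Rt_rep ha hb true).smul ha hb ?_)) chk_cub' <;>
  · simp [ev, zpow_ofNat, zpow_neg]
    try ring

theorem Tw_eq (s : Bool) (n : ℕ) : Tw α β s n = bn (xs α β s) (n + 1) • Am α β s +
    (-(xs α β s * bn (xs α β s) n)) • Am α β (!s) + (-(ks α β s * sn (xs α β s) n)) • Um α β := by
  induction n with
  | zero => simp [Tw, bn, sn]
  | succ n ih =>
    rw [Tw, ih]
    simp only [Matrix.mul_add, Matrix.mul_smul, mat_T ha hb, mat_BA ha hb, mat_U ha hb, Matrix.mul_one]
    ext p q
    simp only [Matrix.add_apply, Matrix.smul_apply, smul_eq_mul, bn, sn]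
    ring

theorem mu_ne (i : Fin 4) : mu α β i ≠ 0 := by
  fin_cases i <;> simp [mu, ha, hb]

/-- the matrix of a column -/
theorem rot_Tw (s : Bool) (n : ℕ) : rot α β (Tw α β s n) = bn (xs α β s) (n + 1) • Rt α β s +
    (-(xs α β s * bn (xs α β s) n)) • Rt α β (!s) + (-(ks α β s * sn (xs α β s) n)) • (1 : Mat K) := by
  rw [Tw_eq ha hb]
  ext p q
  have h1 := mu_ne ha hb p.1
  have h2 := mu_ne ha hb q.2
  have e : (1 : Mat K) p q = mu α β p.1 * (mu α β q.2)⁻¹ * Um α β (p.2, q.2) (p.1, q.1) := by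
    rw [Um, Matrix.one_apply]
    by_cases h : p = q
    · subst h
      rw [if_pos rfl, if_pos ⟨rfl, rfl⟩]
      field_simp
    · rw [if_neg h, if_neg, mul_zero]
      rintro ⟨h3, h4⟩
      exact h (Prod.ext h4 h3)
  rw [rot]
  simp only [Matrix.add_apply, Matrix.smul_apply, smul_eq_mul]
  rw [e]
  simp only [Am, Rt]
  field_simp

end

/-- the matrix of a column -/
def Col (α β : K) (c : ℕ × Bool) : Mat K := rot α β (Tw α β c.2 c.1)

theorem acts_column (α β : K) (c : ℕ × Bool) : Acts α β (column c) 0 (Col α β c) := by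
  intro l r t i j w' hl
  obtain rfl : l = [] := List.length_eq_zero_iff.mp hl
  exact acts_rot (acts_twists α β c.2 1 c.1) r t i j w'

theorem acts_columns (α β : K) (cs : List (ℕ × Bool)) :
    Acts α β (cs.flatMap column) 0 (cs.map (Col α β)).prod := by
  induction cs with
  | nil => exact Acts.one α β 0
  | cons c cs ih =>
    rw [List.flatMap_cons, List.map_cons, List.prod_cons]
    exact (acts_column α β c).mul ih

theorem amp_pretzel (α β : K) (cs : List (ℕ × Bool)) (i j : Fin 4) :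
    amp α β (pretzel cs) [i] [j] = cl α β (cs.map (Col α β)).prod i j := by
  rw [pretzel, cl]
  simp only [amp]
  refine Finset.sum_congr rfl (fun m _ => ?_)
  have h := acts_columns α β cs [] [m] [j] i m [.cap 1 true] rfl
  simp only [List.nil_append] at h
  simp only [List.take_succ_cons, List.take_zero, List.drop_succ_cons, List.drop_nil, List.cons_append,
    List.nil_append]
  rw [h]
  have e : ∀ a b : Fin 4, amp α β [.cap 1 true] (a :: b :: [m]) [j] =
      if b = m then (if a = j then mu α β m else 0) else 0 := by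
    intro a b
    simp only [amp, List.drop_succ_cons, List.drop_zero, List.take_succ_cons, List.take_zero]
    by_cases hbm : b = m
    · subst hbm
      by_cases haj : a = j <;> simp [haj]
    · simp [hbm]
  simp only [e]
  rw [Finset.sum_eq_single j, Finset.sum_eq_single m]
  · simp
    ring
  · intro b _ hb
    simp [hb]
  · intro h
    exact absurd (Finset.mem_univ m) h
  · intro a _ ha
    refine Finset.sum_eq_zero (fun b _ => ?_)
    by_cases hbm : b = m <;> simp [hbm, ha]
  · intro h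
    exact absurd (Finset.mem_univ j) h

/-- the combination `a R + b R⁻¹ + c` -/
def lin (α β : K) (a b c : K) : Mat K := a • Rt α β true + b • Rt α β false + c • (1 : Mat K)

theorem cl_add (α β : K) (M N : Mat K) (i j : Fin 4) : cl α β (M + N) i j = cl α β M i j + cl α β N i j := by
  simp only [cl, Matrix.add_apply, mul_add, Finset.sum_add_distrib]

theorem cl_smul (α β : K) (c : K) (M : Mat K) (i j : Fin 4) : cl α β (c • M) i j = c * cl α β M i j := by
  simp only [cl, Matrix.smul_apply, smul_eq_mul, Finset.mul_sum]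
  exact Finset.sum_congr rfl (fun _ _ => by ring)

theorem cl_one (α β : K) (i j : Fin 4) : cl α β (1 : Mat K) i j = 0 := by
  rw [cl, Fin.sum_univ_four]
  by_cases h : i = j
  · subst h
    simp [mu]
  · simp [h]

section
variable {α β : K} (ha : α ≠ 0) (hb : β ≠ 0)
include ha hb

theorem cl_Rt (s : Bool) (i j : Fin 4) : cl α β (Rt α β s) i j = if i = j then 1 else 0 := by
  rw [cl_rep ha hb (Rt_rep ha hb s)]
  have h := chk_cl s
  rw [List.all_eq_true] at h
  have h1 := h i (mem4 i)
  rw [List.all_eq_true] at h1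
  have h2 := ev_isZ α β (h1 j (mem4 j))
  rw [ev_append] at h2
  split_ifs at h2 ⊢
  · have h3 : ev α β [(-1, 0, 0)] = -1 := by simp [ev]
    rw [h3] at h2
    exact add_neg_eq_zero.mp h2
  · rw [ev_nil, add_zero] at h2
    exact h2

theorem cl_lin (a b c : K) (i j : Fin 4) : cl α β (lin α β a b c) i j = if i = j then a + b else 0 := by
  rw [lin, cl_add, cl_add, cl_smul, cl_smul, cl_smul, cl_one, cl_Rt ha hb, cl_Rt ha hb]
  split_ifs <;> ring

theorem lin_mul (a b c a' b' c' : K) : lin α β a b c * lin α β a' b' c' =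
    lin α β (a * a' * (α ^ 2 + β ^ 2 - 1) + a * c' + c * a' - b * b' * (α ^ 2 * β ^ 2)⁻¹)
      (b * b' * ((α ^ 2)⁻¹ + (β ^ 2)⁻¹ - 1) + b * c' + c * b' - a * a' * (α ^ 2 * β ^ 2))
      (c * c' + a * b' + b * a' + a * a' * (α ^ 2 + β ^ 2 - α ^ 2 * β ^ 2) +
        b * b' * ((α ^ 2)⁻¹ + (β ^ 2)⁻¹ - (α ^ 2 * β ^ 2)⁻¹)) := by
  have h1 := mat_cub ha hb
  have h2 := mat_cub' ha hb
  have h3 := mat_RR ha hb true
  have h4 := mat_RR ha hb false
  simp only [Bool.not_true, Bool.not_false] at h3 h4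
  simp only [lin, Matrix.add_mul, Matrix.mul_add, Matrix.smul_mul, Matrix.mul_smul, Matrix.one_mul,
    Matrix.mul_one, h1, h2, h3, h4]
  ext p q
  simp only [Matrix.add_apply, Matrix.smul_apply, smul_eq_mul]
  ring

theorem Col_true (n : ℕ) : Col α β (n, true) = lin α β (bn (xs α β true) (n + 1))
    (-(xs α β true * bn (xs α β true) n)) (-(ks α β true * sn (xs α β true) n)) := by
  rw [Col, rot_Tw ha hb, lin, Bool.not_true]

theorem Col_false (n : ℕ) : Col α β (n, false) = lin α β (-(xs α β false * bn (xs α β false) n))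
    (bn (xs α β false) (n + 1)) (-(ks α β false * sn (xs α β false) n)) := by
  rw [Col, rot_Tw ha hb, lin, Bool.not_false]
  congr 1
  rw [add_comm]

end

theorem xs_true (α β : K) : xs α β true = α ^ 2 * β ^ 2 := by
  simp [xs, xL, ev, zpow_ofNat]

theorem xs_false (α β : K) : xs α β false = (α ^ 2 * β ^ 2)⁻¹ := by
  simp [xs, xL, ev, zpow_ofNat, zpow_neg]
  ring

theorem ks_true (α β : K) : ks α β true = 2 * (1 - α ^ 2) * (1 - β ^ 2) := by
  simp [ks, kL, ev, zpow_ofNat]
  ring

theorem ks_false (α β : K) : ks α β false = 2 * (1 - (α ^ 2)⁻¹) * (1 - (β ^ 2)⁻¹) := by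
  simp [ks, kL, ev, zpow_ofNat, zpow_neg]
  ring

end LG3
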