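import Mathlib

/-! Unimodal and log-concave sequences. -/

namespace LG3

/-- shift of a sequence -/
def sh (f : ℕ → ℤ) : ℕ → ℤ
  | 0 => 0
  | k + 1 => f k

/-- unimodal sequences -/
def Uni (f : ℕ → ℤ) : Prop := ∀ i j k, i ≤ j → j ≤ k → f i ≤ f j ∨ f k ≤ f j

theorem uni_of_mode {f : ℕ → ℤ} (m : ℕ) (h1 : ∀ t, t < m → f t ≤ f (t + 1))
    (h2 : ∀ t, m ≤ t → f (t + 1) ≤ f t) : Uni f := by
  have up : ∀ i j, i ≤ j → j ≤ m → f i ≤ f j := by
    intro i j hij
    induction j, hij using Nat.le_induction with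
    | base => intro _; exact le_rfl
    | succ j _ ih => intro hj; exact (ih (by omega)).trans (h1 j (by omega))
  have down : ∀ j k, m ≤ j → j ≤ k → f k ≤ f j := by
    intro j k hj hjk
    induction k, hjk using Nat.le_induction with
    | base => exact le_rfl
    | succ k hk ih => exact (h2 k (by omega)).trans ih
  intro i j k hij hjk
  rcases le_total j m with h | h
  · exact Or.inl (up i j hij h)
  · exact Or.inr (down j k h hjk)

/-- a positive log-concave sequence on `[0, N]`, zero afterwards -/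
structure LCv (p : ℕ → ℤ) (N : ℕ) : Prop where
  pos : ∀ t, t ≤ N → 0 < p t
  zero : ∀ t, N < t → p t = 0
  lc : ∀ t, p t * p (t + 2) ≤ p (t + 1) ^ 2

theorem LCv.nonneg {p : ℕ → ℤ} {N : ℕ} (H : LCv p N) (t : ℕ) : 0 ≤ p t := by
  rcases le_or_gt t N with h | h
  · exact (H.pos t h).le
  · exact (H.zero t h).ge

theorem LCv.lc1 {p : ℕ → ℤ} {N : ℕ} (H : LCv p N) {i j : ℕ} (hij : i ≤ j) :
    p i * p (j + 1) ≤ p (i + 1) * p j := by
  induction j, hij using Nat.le_induction with
  | base => exact (mul_comm _ _).le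
  | succ j _ ih =>
    rcases le_or_gt (j + 2) N with h | h
    · have h1 := H.lc j
      have h2 := H.pos j (by omega)
      have h3 := H.pos (j + 1) (by omega)
      have h4 := H.nonneg i
      have h5 : p j * (p i * p (j + 1 + 1)) ≤ p j * (p (i + 1) * p (j + 1)) := by
        calc p j * (p i * p (j + 1 + 1)) = p i * (p j * p (j + 2)) := by ring
          _ ≤ p i * p (j + 1) ^ 2 := mul_le_mul_of_nonneg_left h1 h4
          _ = p (j + 1) * (p i * p (j + 1)) := by ring
          _ ≤ p (j + 1) * (p (i + 1) * p j) := mul_le_mul_of_nonneg_left ih h3.le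
          _ = p j * (p (i + 1) * p (j + 1)) := by ring
      exact le_of_mul_le_mul_left h5 h2
    · rw [H.zero (j + 1 + 1) h, mul_zero]
      exact mul_nonneg (H.nonneg _) (H.nonneg _)

theorem LCv.even {p : ℕ → ℤ} {N : ℕ} (H : LCv p N) (i r : ℕ) :
    p i * p (i + 2 * r) ≤ p (i + r) ^ 2 := by
  induction r generalizing i with
  | zero => simp [sq]
  | succ r ih =>
    have h1 := H.lc1 (i := i) (j := i + 2 * r + 1) (by omega)
    have h2 := ih (i + 1)
    rw [show i + 2 * (r + 1) = i + 2 * r + 1 + 1 by ring, show i + (r + 1) = i + 1 + r by ring]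
    rw [show i + 1 + 2 * r = i + 2 * r + 1 by ring] at h2
    exact h1.trans h2

theorem LCv.odd {p : ℕ → ℤ} {N : ℕ} (H : LCv p N) (i r : ℕ) :
    p i * p (i + 2 * r + 1) ≤ p (i + r) * p (i + r + 1) := by
  induction r generalizing i with
  | zero => simp
  | succ r ih =>
    have h1 := H.lc1 (i := i) (j := i + 2 * r + 1 + 1) (by omega)
    have h2 := ih (i + 1)
    rw [show i + 2 * (r + 1) + 1 = i + 2 * r + 1 + 1 + 1 by ring, show i + (r + 1) = i + 1 + r by ring]
    rw [show i + 1 + 2 * r + 1 = i + 2 * r + 1 + 1 by ring] at h2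
    exact h1.trans h2

theorem LCv.even' {p : ℕ → ℤ} {N : ℕ} (H : LCv p N) {i j k : ℕ} (h : i + j = 2 * k) :
    p j * p i ≤ p k ^ 2 := by
  rcases le_total i j with hij | hij
  · have := H.even i (k - i)
    rw [show i + 2 * (k - i) = j by omega, show i + (k - i) = k by omega] at this
    rwa [mul_comm]
  · have := H.even j (k - j)
    rwa [show j + 2 * (k - j) = i by omega, show j + (k - j) = k by omega] at this

theorem LCv.odd' {p : ℕ → ℤ} {N : ℕ} (H : LCv p N) {i j k : ℕ} (h : i + j = 2 * k + 1) :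
    p j * p i ≤ p (k + 1) * p k := by
  rcases le_total i j with hij | hij
  · have := H.odd i (k - i)
    rw [show i + 2 * (k - i) + 1 = j by omega, show i + (k - i) + 1 = k + 1 by omega,
      show i + (k - i) = k by omega] at this
    linarith [mul_comm (p j) (p i), mul_comm (p (k + 1)) (p k)]
  · have := H.odd j (k - j)
    rw [show j + 2 * (k - j) + 1 = i by omega, show j + (k - j) + 1 = k + 1 by omega,
      show j + (k - j) = k by omega] at this
    linarith [mul_comm (p (k + 1)) (p k)]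

/-- the three products -/
theorem LCv.three {p : ℕ → ℤ} {N : ℕ} (H : LCv p N) {i j k : ℕ} (h : i + j = 2 * (k + 1)) :
    p j * p i ≤ p (k + 1) ^ 2 ∧ p j * sh p i ≤ p (k + 1) * p k ∧ p j * sh (sh p) i ≤ p k ^ 2 := by
  refine ⟨H.even' h, ?_, ?_⟩
  · cases i with
    | zero =>
      rw [sh, mul_zero]
      exact mul_nonneg (H.nonneg _) (H.nonneg _)
    | succ i => exact H.odd' (by omega)
  · match i with
    | 0 =>
      rw [sh, mul_zero]
      exact sq_nonneg _
    | 1 =>
      show p j * 0 ≤ _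
      rw [mul_zero]
      exact sq_nonneg _
    | i + 2 => exact H.even' (by omega)

/-- the midpoint condition from log-concavity -/
theorem LCv.mid {p : ℕ → ℤ} {N : ℕ} (H : LCv p N) {i j k : ℕ} (h : i + j = 2 * (k + 1))
    {X L x0 x1 x2 : ℤ} (h0 : 0 ≤ x0) (h1 : 0 ≤ x1) (h2 : 0 ≤ x2) (hL : 0 ≤ L)
    (hX : X ≤ x0 * p i + x1 * sh p i + x2 * sh (sh p) i)
    (hlt : x0 * p (k + 1) ^ 2 + x1 * (p (k + 1) * p k) + x2 * p k ^ 2 < L ^ 2) :
    p j ≤ L ∨ X + 1 ≤ L := by
  by_contra hn
  push Not at hn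
  obtain ⟨hn1, hn2⟩ := hn
  obtain ⟨e1, e2, e3⟩ := H.three h
  have h3 : p j * X ≤ x0 * p (k + 1) ^ 2 + x1 * (p (k + 1) * p k) + x2 * p k ^ 2 := by
    have h4 := mul_le_mul_of_nonneg_left hX (H.nonneg j)
    have h5 := mul_le_mul_of_nonneg_left e1 h0
    have h6 := mul_le_mul_of_nonneg_left e2 h1
    have h7 := mul_le_mul_of_nonneg_left e3 h2
    nlinarith
  have h8 : L * L ≤ p j * X := mul_le_mul hn1.le (by omega) hL (H.nonneg j)
  nlinarith

/-- the conditions on three sequences -/
structure Rows (g0 g1 g2 : ℕ → ℤ) : Prop where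
  n0 : ∀ k, 0 ≤ g0 k
  n1 : ∀ k, 0 ≤ g1 k
  n2 : ∀ k, 0 ≤ g2 k
  u0 : Uni g0
  u1 : Uni g1
  u2 : Uni g2
  a10 : ∀ k, g1 k ≤ g0 k ∨ g1 k ≤ g0 (k + 1)
  a20 : ∀ k, g2 k ≤ g0 (k + 1)
  a21 : ∀ k, g2 k ≤ g1 k ∨ g2 k ≤ g1 (k + 1)
  aM : ∀ i j k, i + j = 2 * k → g2 j ≤ g1 k ∨ g0 i ≤ g1 k

/-- the sequence 1 at n -/
def del (n : ℕ) : ℕ → ℤ := fun t => if t = n then 1 else 0

/-- first row -/
def row1 (p q : ℕ → ℤ) : ℕ → ℤ := fun k => p k + q k + (sh p k + sh q k)

/-- main row -/
def row0 (n : ℕ) (p q : ℕ → ℤ) : ℕ → ℤ := fun k => q k + 2 * sh q k + sh (sh q) k + 2 * sh p k + del n k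

theorem del_nonneg (n t : ℕ) : 0 ≤ del n t := by
  unfold del
  split_ifs <;> norm_num

theorem sh_nonneg {f : ℕ → ℤ} (h : ∀ k, 0 ≤ f k) : ∀ k, 0 ≤ sh f k
  | 0 => le_rfl
  | k + 1 => h k

theorem rows_of {n : ℕ} {p q : ℕ → ℤ} (hp : ∀ k, 0 ≤ p k) (hq : ∀ k, 0 ≤ q k) (u0 : Uni (row0 n p q))
    (u1 : Uni (row1 p q)) (u2 : Uni p)
    (hM : ∀ i j k, i + j = 2 * k → p j ≤ row1 p q k ∨ row0 n p q i ≤ row1 p q k) :
    Rows (row0 n p q) (row1 p q) p where
  n0 k := by
    have h1 := hq k
    have h2 := sh_nonneg hq k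
    have h3 := sh_nonneg (sh_nonneg hq) k
    have h4 := sh_nonneg hp k
    have h5 := del_nonneg n k
    unfold row0
    linarith
  n1 k := by
    have h1 := hq k
    have h2 := sh_nonneg hq k
    have h3 := hp k
    have h4 := sh_nonneg hp k
    unfold row1
    linarith
  n2 := hp
  u0 := u0
  u1 := u1
  u2 := u2
  a10 k := by
    have h1 := hq k
    have h2 := sh_nonneg hq k
    have h3 := sh_nonneg (sh_nonneg hq) k
    have h4 := sh_nonneg hp k
    have h5 := del_nonneg n k
    have h6 := del_nonneg n (k + 1)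
    have h7 := hq (k + 1)
    have h8 := hp k
    have e1 : row0 n p q (k + 1) = q (k + 1) + 2 * q k + sh q k + 2 * p k + del n (k + 1) := rfl
    have e2 : row0 n p q k = q k + 2 * sh q k + sh (sh q) k + 2 * sh p k + del n k := rfl
    have e3 : row1 p q k = p k + q k + (sh p k + sh q k) := rfl
    by_contra hn
    push Not at hn
    rw [e1, e2, e3] at hn
    linarith [hn.1, hn.2]
  a20 k := by
    have h2 := sh_nonneg hq k
    have h6 := del_nonneg n (k + 1)
    have h7 := hq (k + 1)
    have h8 := hp k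
    have h1 := hq k
    have e1 : row0 n p q (k + 1) = q (k + 1) + 2 * q k + sh q k + 2 * p k + del n (k + 1) := rfl
    rw [e1]
    linarith
  a21 k := by
    left
    have h1 := hq k
    have h2 := sh_nonneg hq k
    have h4 := sh_nonneg hp k
    unfold row1
    linarith
  aM := hM

/-- a sum of two neighbours of a sequence with a sign change of the differences -/
theorem uni_row1 {p q : ℕ → ℤ} (m : ℕ) (h0 : 0 ≤ p 0 + q 0)
    (h1 : ∀ t, t < m → p t + q t ≤ p (t + 1) + q (t + 1))
    (h2 : ∀ t, m ≤ t → p (t + 1) + q (t + 1) ≤ p t + q t) : Uni (row1 p q) := by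
  -- differences: r (t+1) - r (t-1)
  have e : ∀ t, row1 p q (t + 2) - row1 p q (t + 1) = (p (t + 2) + q (t + 2)) - (p t + q t) := by
    intro t
    simp only [row1, sh]
    ring
  have e0 : row1 p q 1 - row1 p q 0 = p 1 + q 1 := by
    simp only [row1, sh]
    ring
  by_cases hc : (p (m + 1) + q (m + 1)) ≤ sh p m + sh q m
  · refine uni_of_mode m ?_ ?_
    · intro t ht
      cases t with
      | zero =>
        have := h1 0 ht
        linarith [e0]
      | succ t =>
        have := h1 t (by omega)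
        have := h1 (t + 1) (by omega)
        linarith [e t]
    · intro t ht
      rcases ht.eq_or_lt with rfl | ht
      · cases m with
        | zero =>
          simp only [sh] at hc
          linarith [e0]
        | succ m =>
          simp only [sh] at hc
          linarith [e m]
      · obtain ⟨t, rfl⟩ : ∃ t', t = t' + 1 := ⟨t - 1, by omega⟩
        have := h2 t (by omega)
        have := h2 (t + 1) (by omega)
        linarith [e t]
  · push Not at hc
    refine uni_of_mode (m + 1) ?_ ?_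
    · intro t ht
      rcases (Nat.lt_succ_iff.mp ht).eq_or_lt with rfl | ht
      · cases t with
        | zero =>
          simp only [sh] at hc
          linarith [e0]
        | succ m =>
          simp only [sh] at hc
          linarith [e m]
      · cases t with
        | zero =>
          have := h1 0 ht
          linarith [e0]
        | succ t =>
          have := h1 t (by omega)
          have := h1 (t + 1) (by omega)
          linarith [e t]
    · intro t ht
      obtain ⟨t, rfl⟩ : ∃ t', t = t' + 1 := ⟨t - 1, by omega⟩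
      have := h2 t (by omega)
      have := h2 (t + 1) (by omega)
      linarith [e t]

end LG3
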