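import Pool.Agent.Lib.MP_3cd99b_gt.S
import Pool.Agent.Lib.MP_3cd99b_gt.E

/-! Laurent polynomials with five diagonals. -/

open Finset Polynomial

namespace LG3

/-- the Laurent polynomial `t0^a t1^b f(t0 t1)` -/
noncomputable def emb (a b : ℤ) (f : ℤ[X]) : ℤ × ℤ →₀ ℤ :=
  f.sum fun k c => Finsupp.single ((k : ℤ) + a, (k : ℤ) + b) c

/-- coefficients with integer index -/
noncomputable def cfn (f : ℤ[X]) (k : ℤ) : ℤ := if 0 ≤ k then f.coeff k.toNat else 0

theorem emb_apply (a b : ℤ) (f : ℤ[X]) (i j : ℤ) :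
    emb a b f (i, j) = if i - j = a - b then cfn f (i - a) else 0 := by
  rw [emb, Polynomial.sum, Finsupp.finset_sum_apply]
  simp only [Finsupp.single_apply, Prod.mk.injEq]
  split_ifs with h
  · rw [cfn]
    split_ifs with h0
    · rw [Finset.sum_eq_single (i - a).toNat]
      · rw [if_pos]
        constructor <;> omega
      · intro k _ hk
        rw [if_neg]
        rintro ⟨h1, h2⟩
        exact hk (by omega)
      · intro hk
        rw [Polynomial.notMem_support_iff] at hk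
        rw [hk]
        split_ifs <;> rfl
    · refine Finset.sum_eq_zero (fun k _ => ?_)
      rw [if_neg]
      rintro ⟨h1, h2⟩
      omega
  · refine Finset.sum_eq_zero (fun k _ => ?_)
    rw [if_neg]
    rintro ⟨h1, h2⟩
    omega

/-- evaluation as an additive map -/
noncomputable def evH (t0 t1 : ℂ) : (ℤ × ℤ →₀ ℤ) →+ ℂ :=
  Finsupp.liftAddHom fun z => ((AddMonoidHom.mulRight (t0 ^ z.1 * t1 ^ z.2)).comp (Int.castAddHom ℂ))

theorem evH_eq (P : ℤ × ℤ →₀ ℤ) (t0 t1 : ℂ) : evH t0 t1 P = evalAt P t0 t1 := rfl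

theorem evH_single (t0 t1 : ℂ) (z : ℤ × ℤ) (c : ℤ) :
    evH t0 t1 (Finsupp.single z c) = (c : ℂ) * (t0 ^ z.1 * t1 ^ z.2) := by
  rw [evH, Finsupp.liftAddHom_apply_single]
  rfl

theorem evalAt_emb {t0 t1 : ℂ} (h0 : t0 ≠ 0) (h1 : t1 ≠ 0) (a b : ℤ) (f : ℤ[X]) :
    evalAt (emb a b f) t0 t1 = t0 ^ a * t1 ^ b * f.eval₂ (Int.castRingHom ℂ) (t0 * t1) := by
  rw [← evH_eq, emb, Polynomial.sum, map_sum, Polynomial.eval₂_eq_sum, Polynomial.sum, Finset.mul_sum]
  refine Finset.sum_congr rfl (fun k _ => ?_)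
  rw [evH_single, zpow_add₀ h0, zpow_add₀ h1, zpow_natCast, zpow_natCast, mul_pow, eq_intCast]
  ring

/-- the Laurent polynomial with the rows G0, G1, G2, shifted by n -/
noncomputable def mkP (n : ℕ) (G0 G1 G2 : ℤ[X]) : ℤ × ℤ →₀ ℤ :=
  emb (-n) (-n) G0 - emb (1 - n) (-n) G1 - emb (-n) (1 - n) G1 + emb (2 - n) (-n) G2 + emb (-n) (2 - n) G2

theorem mkP_eval {t0 t1 : ℂ} (h0 : t0 ≠ 0) (h1 : t1 ≠ 0) (n : ℕ) (G0 G1 G2 : ℤ[X]) :
    evalAt (mkP n G0 G1 G2) t0 t1 = ((t0 * t1) ^ n)⁻¹ * (G0.eval₂ (Int.castRingHom ℂ) (t0 * t1) -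
      (t0 + t1) * G1.eval₂ (Int.castRingHom ℂ) (t0 * t1) +
      (t0 ^ 2 + t1 ^ 2) * G2.eval₂ (Int.castRingHom ℂ) (t0 * t1)) := by
  have e : evalAt (mkP n G0 G1 G2) t0 t1 = evalAt (emb (-n) (-n) G0) t0 t1 - evalAt (emb (1 - n) (-n) G1) t0 t1 -
      evalAt (emb (-n) (1 - n) G1) t0 t1 + evalAt (emb (2 - n) (-n) G2) t0 t1 +
      evalAt (emb (-n) (2 - n) G2) t0 t1 := by
    simp only [← evH_eq, mkP, map_add, map_sub]
  have hn0 : t0 ^ n ≠ 0 := pow_ne_zero _ h0
  have hn1 : t1 ^ n ≠ 0 := pow_ne_zero _ h1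
  rw [e]
  simp only [evalAt_emb h0 h1, sub_eq_add_neg, zpow_add₀ h0, zpow_add₀ h1, zpow_neg, zpow_natCast, zpow_one,
    zpow_ofNat, mul_pow]
  field_simp
  ring

theorem mkP_apply (n : ℕ) (G0 G1 G2 : ℤ[X]) (z : ℤ × ℤ) : mkP n G0 G1 G2 z =
    (if z.1 - z.2 = 0 then cfn G0 (z.1 + n) else 0) - (if z.1 - z.2 = 1 then cfn G1 (z.2 + n) else 0) -
    (if z.1 - z.2 = -1 then cfn G1 (z.1 + n) else 0) + (if z.1 - z.2 = 2 then cfn G2 (z.2 + n) else 0) +
    (if z.1 - z.2 = -2 then cfn G2 (z.1 + n) else 0) := by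
  obtain ⟨i, j⟩ := z
  simp only [mkP, Finsupp.add_apply, Finsupp.sub_apply, emb_apply]
  congr 1
  · congr 1
    · congr 1
      · congr 1
        · split_ifs with h1 h2 h2
          · congr 1; omega
          · omega
          · omega
          · rfl
        · split_ifs with h1 h2 h2
          · congr 1; omega
          · omega
          · omega
          · rfl
      · split_ifs with h1 h2 h2
        · congr 1; omega
        · omega
        · omega
        · rfl
    · split_ifs with h1 h2 h2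
      · congr 1; omega
      · omega
      · omega
      · rfl
  · split_ifs with h1 h2 h2
    · congr 1; omega
    · omega
    · omega
    · rfl

theorem uni_cfn {f : ℤ[X]} (hu : Uni f.coeff) {c : ℝ} {a b d : ℤ}
    (ha : 0 < cfn f a ∧ c ≤ (cfn f a : ℝ)) (hd : 0 < cfn f d ∧ c ≤ (cfn f d : ℝ)) (hab : a ≤ b) (hbd : b ≤ d) :
    0 < cfn f b ∧ c ≤ (cfn f b : ℝ) := by
  have ha0 : 0 ≤ a := by
    by_contra h
    rw [cfn, if_neg h] at ha
    exact lt_irrefl _ ha.1
  have hb0 : 0 ≤ b := ha0.trans hab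
  have hd0 : 0 ≤ d := hb0.trans hbd
  rw [cfn, if_pos ha0] at ha
  rw [cfn, if_pos hd0] at hd
  rw [cfn, if_pos hb0]
  rcases hu a.toNat b.toNat d.toNat (by omega) (by omega) with h | h
  · exact ⟨ha.1.trans_le h, ha.2.trans (by exact_mod_cast h)⟩
  · exact ⟨hd.1.trans_le h, hd.2.trans (by exact_mod_cast h)⟩

theorem cfn_pos {f : ℤ[X]} {k : ℤ} (h : 0 < cfn f k) : 0 ≤ k ∧ k ≤ f.natDegree := by
  have h0 : 0 ≤ k := by
    by_contra h1
    rw [cfn, if_neg h1] at h
    exact lt_irrefl _ h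
  refine ⟨h0, ?_⟩
  rw [cfn, if_pos h0] at h
  have := Polynomial.le_natDegree_of_ne_zero h.ne'
  omega

/-- unimodality from the conditions on the rows -/
theorem Rows.unimodal {G0 G1 G2 : ℤ[X]} (R : Rows G0.coeff G1.coeff G2.coeff) (n : ℕ) :
    Unimodal (mkP n G0 G1 G2) := by
  intro c hc
  have nn0 : ∀ k, 0 ≤ cfn G0 k := fun k => by
    unfold cfn
    split_ifs
    · exact R.n0 _
    · rfl
  have nn1 : ∀ k, 0 ≤ cfn G1 k := fun k => by
    unfold cfn
    split_ifs
    · exact R.n1 _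
    · rfl
  have nn2 : ∀ k, 0 ≤ cfn G2 k := fun k => by
    unfold cfn
    split_ifs
    · exact R.n2 _
    · rfl
  have hset : {z : ℤ × ℤ | mkP n G0 G1 G2 z ≠ 0 ∧ c ≤ |(mkP n G0 G1 G2 z : ℝ)|} =
      SS (fun k => 0 < cfn G0 (k + n) ∧ c ≤ (cfn G0 (k + n) : ℝ))
        (fun k => 0 < cfn G1 (k + n) ∧ c ≤ (cfn G1 (k + n) : ℝ))
        (fun k => 0 < cfn G2 (k + n) ∧ c ≤ (cfn G2 (k + n) : ℝ)) := by
    ext z
    have key : ∀ g : ℤ, 0 ≤ g → ((g ≠ 0 ∧ c ≤ |(g : ℝ)|) ↔ (0 < g ∧ c ≤ (g : ℝ))) := by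
      intro g hg
      rw [abs_of_nonneg (by exact_mod_cast hg)]
      constructor
      · rintro ⟨h1, h2⟩
        exact ⟨lt_of_le_of_ne hg (Ne.symm h1), h2⟩
      · rintro ⟨h1, h2⟩
        exact ⟨h1.ne', h2⟩
    have key' : ∀ g : ℤ, 0 ≤ g → ((-g ≠ 0 ∧ c ≤ |((-g : ℤ) : ℝ)|) ↔ (0 < g ∧ c ≤ (g : ℝ))) := by
      intro g hg
      rw [← key g hg, neg_ne_zero, Int.cast_neg, abs_neg]
    simp only [Set.mem_setOf_eq, SS, mkP_apply]
    by_cases d0 : z.1 = z.2
    · rw [if_pos (by omega), if_neg (by omega), if_neg (by omega), if_neg (by omega), if_neg (by omega)]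
      rw [sub_zero, sub_zero, add_zero, add_zero, key _ (nn0 _)]
      constructor
      · intro h
        exact Or.inl ⟨d0, h⟩
      · rintro (⟨-, h⟩ | ⟨h1, -⟩ | ⟨h1, -⟩ | ⟨h1, -⟩ | ⟨h1, -⟩)
        · exact h
        all_goals omega
    by_cases d1 : z.1 = z.2 + 1
    · rw [if_neg (by omega), if_pos (by omega), if_neg (by omega), if_neg (by omega), if_neg (by omega)]
      rw [sub_zero, zero_sub, add_zero, add_zero, key' _ (nn1 _)]
      constructor
      · intro h
        exact Or.inr (Or.inl ⟨d1, h⟩)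
      · rintro (⟨h1, -⟩ | ⟨-, h⟩ | ⟨h1, -⟩ | ⟨h1, -⟩ | ⟨h1, -⟩)
        · omega
        · exact h
        all_goals omega
    by_cases d2 : z.2 = z.1 + 1
    · rw [if_neg (by omega), if_neg (by omega), if_pos (by omega), if_neg (by omega), if_neg (by omega)]
      rw [sub_zero, zero_sub, add_zero, add_zero, key' _ (nn1 _)]
      constructor
      · intro h
        exact Or.inr (Or.inr (Or.inl ⟨d2, h⟩))
      · rintro (⟨h1, -⟩ | ⟨h1, -⟩ | ⟨-, h⟩ | ⟨h1, -⟩ | ⟨h1, -⟩)
        · omega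
        · omega
        · exact h
        all_goals omega
    by_cases d3 : z.1 = z.2 + 2
    · rw [if_neg (by omega), if_neg (by omega), if_neg (by omega), if_pos (by omega), if_neg (by omega)]
      rw [sub_zero, sub_zero, zero_add, add_zero, key _ (nn2 _)]
      constructor
      · intro h
        exact Or.inr (Or.inr (Or.inr (Or.inl ⟨d3, h⟩)))
      · rintro (⟨h1, -⟩ | ⟨h1, -⟩ | ⟨h1, -⟩ | ⟨-, h⟩ | ⟨h1, -⟩)
        · omega
        · omega
        · omega
        · exact h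
        · omega
    by_cases d4 : z.2 = z.1 + 2
    · rw [if_neg (by omega), if_neg (by omega), if_neg (by omega), if_neg (by omega), if_pos (by omega)]
      rw [sub_zero, sub_zero, zero_add, zero_add, key _ (nn2 _)]
      constructor
      · intro h
        exact Or.inr (Or.inr (Or.inr (Or.inr ⟨d4, h⟩)))
      · rintro (⟨h1, -⟩ | ⟨h1, -⟩ | ⟨h1, -⟩ | ⟨h1, -⟩ | ⟨-, h⟩)
        · omega
        · omega
        · omega
        · omega
        · exact h
    · rw [if_neg (by omega), if_neg (by omega), if_neg (by omega), if_neg (by omega), if_neg (by omega)]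
      simp only [sub_zero, add_zero]
      constructor
      · rintro ⟨h, -⟩
        exact absurd rfl h
      · rintro (⟨h1, -⟩ | ⟨h1, -⟩ | ⟨h1, -⟩ | ⟨h1, -⟩ | ⟨h1, -⟩) <;> exfalso <;> omega
  rw [hset]
  refine Good.convex ?_
  have bnd : ∀ {f g : ℤ}, (0 < f ∧ c ≤ (f : ℝ)) → f ≤ g → (0 < g ∧ c ≤ (g : ℝ)) := by
    intro f g h1 h2
    exact ⟨h1.1.trans_le h2, h1.2.trans (by exact_mod_cast h2)⟩
  refine
    { c0 := fun a b d ha hd hab hbd => uni_cfn R.u0 ha hd (by omega) (by omega)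
      c1 := fun a b d ha hd hab hbd => uni_cfn R.u1 ha hd (by omega) (by omega)
      c2 := fun a b d ha hd hab hbd => uni_cfn R.u2 ha hd (by omega) (by omega)
      h10 := ?_
      h20 := ?_
      h21 := ?_
      hM := ?_
      bd := ?_ }
  · intro k hk
    have h0 := (cfn_pos hk.1).1
    have h1 : (k + 1 + n : ℤ).toNat = (k + n).toNat + 1 := by omega
    rcases R.a10 (k + n).toNat with h | h
    · left
      refine bnd hk ?_
      rw [cfn, cfn, if_pos h0, if_pos h0]
      exact h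
    · right
      refine bnd hk ?_
      rw [cfn, cfn, if_pos h0, if_pos (by omega), h1]
      exact h
  · intro k hk
    have h0 := (cfn_pos hk.1).1
    have h1 : (k + 1 + n : ℤ).toNat = (k + n).toNat + 1 := by omega
    refine bnd hk ?_
    rw [cfn, cfn, if_pos h0, if_pos (by omega), h1]
    exact R.a20 _
  · intro k hk
    have h0 := (cfn_pos hk.1).1
    have h1 : (k + 1 + n : ℤ).toNat = (k + n).toNat + 1 := by omega
    rcases R.a21 (k + n).toNat with h | h
    · left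
      refine bnd hk ?_
      rw [cfn, cfn, if_pos h0, if_pos h0]
      exact h
    · right
      refine bnd hk ?_
      rw [cfn, cfn, if_pos h0, if_pos (by omega), h1]
      exact h
  · intro i j k hi hj hk
    have h0 := (cfn_pos hi.1).1
    have h1 := (cfn_pos hj.1).1
    have h2 : 0 ≤ k + n := by omega
    rcases R.aM (i + n).toNat (j + n).toNat (k + n).toNat (by omega) with h | h
    · refine bnd hj ?_
      rw [cfn, cfn, if_pos h1, if_pos h2]
      exact h
    · refine bnd hi ?_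
      rw [cfn, cfn, if_pos h0, if_pos h2]
      exact h
  · refine ⟨n + G0.natDegree + G1.natDegree + G2.natDegree, by positivity, ?_⟩
    rintro k (h | h | h) <;> have := cfn_pos h.1 <;> constructor <;> omega

end LG3
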