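import Pool.Agent.Lib.MP_3cd99b_gt.V
import Pool.Agent.Lib.MP_3cd99b_gt.Q

/-! Polynomials and their differences. -/

open Finset Polynomial

namespace LG3

/-- `1 + X + ... + X^(n-1)` -/
noncomputable def bP : ℕ → ℤ[X]
  | 0 => 0
  | n + 1 => 1 + X * bP n

/-- `n + (n-1) X + ... + X^(n-1)` -/
noncomputable def sP : ℕ → ℤ[X]
  | 0 => 0
  | n + 1 => sP n + bP (n + 1)

/-- `1 + 2 X + ... + n X^(n-1)` -/
noncomputable def tP : ℕ → ℤ[X]
  | 0 => 0
  | n + 1 => bP (n + 1) + X * tP n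

theorem bP_eval (x : ℂ) (n : ℕ) : (bP n).eval₂ (Int.castRingHom ℂ) x = bn x n := by
  induction n with
  | zero => simp [bP, bn]
  | succ n ih => simp [bP, bn, eval₂_add, eval₂_mul, ih]

theorem sP_eval (x : ℂ) (n : ℕ) : (sP n).eval₂ (Int.castRingHom ℂ) x = sn x n := by
  induction n with
  | zero => simp [sP, sn]
  | succ n ih => rw [sP, sn, eval₂_add, ih, bP_eval]

theorem tP_eval (x : ℂ) (n : ℕ) : (tP n).eval₂ (Int.castRingHom ℂ) x = tn x n := by
  induction n with
  | zero => simp [tP, tn]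
  | succ n ih => rw [tP, tn, eval₂_add, eval₂_mul, ih, bP_eval, eval₂_X]

theorem bP_id (n : ℕ) : (1 - X) * bP n = 1 - X ^ n := by
  induction n with
  | zero => simp [bP]
  | succ n ih =>
    rw [bP]
    linear_combination X * ih

theorem sP_id (n : ℕ) : (1 - X) ^ 2 * sP n = (n : ℤ[X]) - ((n : ℤ[X]) + 1) * X + X ^ (n + 1) := by
  induction n with
  | zero => simp [sP]
  | succ n ih =>
    have h := bP_id (n + 1)
    rw [sP]
    push_cast
    linear_combination ih + (1 - X) * h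

theorem tP_id (n : ℕ) : (1 - X) ^ 2 * tP n = 1 - ((n : ℤ[X]) + 1) * X ^ n + (n : ℤ[X]) * X ^ (n + 1) := by
  induction n with
  | zero => simp [tP]
  | succ n ih =>
    have h := bP_id (n + 1)
    rw [tP]
    push_cast
    linear_combination X * ih + (1 - X) * h

/-- nonnegative coefficients -/
def NN (f : ℤ[X]) : Prop := ∀ k, 0 ≤ f.coeff k

theorem NN.add {f g : ℤ[X]} (hf : NN f) (hg : NN g) : NN (f + g) := fun k => by
  rw [coeff_add]
  exact add_nonneg (hf k) (hg k)

theorem NN.mul {f g : ℤ[X]} (hf : NN f) (hg : NN g) : NN (f * g) := fun k => by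
  rw [coeff_mul]
  exact Finset.sum_nonneg (fun z _ => mul_nonneg (hf _) (hg _))

theorem NN.nat (n : ℕ) : NN (n : ℤ[X]) := fun k => by
  rw [coeff_natCast_ite]
  split_ifs
  · exact Int.natCast_nonneg n
  · exact le_rfl

theorem NN.zero : NN 0 := fun k => by simp

theorem NN.one : NN 1 := by
  have := NN.nat 1
  simpa using this

theorem NN.two : NN 2 := by
  have := NN.nat 2
  simpa using this

theorem NN.X : NN X := fun k => by
  rw [coeff_X]
  split_ifs <;> norm_num

theorem bP_nn (n : ℕ) : NN (bP n) := by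
  induction n with
  | zero => exact NN.zero
  | succ n ih => exact NN.one.add (NN.X.mul ih)

theorem sP_nn (n : ℕ) : NN (sP n) := by
  induction n with
  | zero => exact NN.zero
  | succ n ih => exact ih.add (bP_nn _)

theorem tP_nn (n : ℕ) : NN (tP n) := by
  induction n with
  | zero => exact NN.zero
  | succ n ih => exact (bP_nn _).add (NN.X.mul ih)

theorem coeff_X_mul_sh (f : ℤ[X]) : (X * f).coeff = sh f.coeff := by
  funext k
  cases k with
  | zero => simp [sh]
  | succ k => rw [coeff_X_mul]; rfl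

/-- the rows as polynomials -/
noncomputable def gr0 (n : ℕ) (P Q : ℤ[X]) : ℤ[X] := Q + 2 * (X * Q) + X * (X * Q) + 2 * (X * P) + X ^ n

/-- first row -/
noncomputable def gr1 (P Q : ℤ[X]) : ℤ[X] := P + Q + (X * P + X * Q)

theorem coeff_two_mul (f : ℤ[X]) (k : ℕ) : (2 * f).coeff k = 2 * f.coeff k := by
  rw [two_mul, coeff_add, two_mul]

theorem gr0_coeff (n : ℕ) (P Q : ℤ[X]) : (gr0 n P Q).coeff = row0 n P.coeff Q.coeff := by
  funext k
  simp only [gr0, coeff_add, coeff_two_mul, coeff_X_mul_sh, row0, coeff_X_pow, del]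

theorem gr1_coeff (P Q : ℤ[X]) : (gr1 P Q).coeff = row1 P.coeff Q.coeff := by
  funext k
  simp only [gr1, coeff_add, coeff_X_mul_sh, row1]

/-- the Laurent polynomial of P and Q -/
noncomputable def mkPQ (n : ℕ) (P Q : ℤ[X]) : ℤ × ℤ →₀ ℤ := mkP n (gr0 n P Q) (gr1 P Q) P

theorem mkPQ_eval {t0 t1 : ℂ} (h0 : t0 ≠ 0) (h1 : t1 ≠ 0) (n : ℕ) (P Q : ℤ[X]) :
    evalAt (mkPQ n P Q) t0 t1 = ((t0 * t1) ^ n)⁻¹ * ((t0 * t1) ^ n + (1 - t0) * (1 - t1) *
      ((-t0 - t1) * P.eval₂ (Int.castRingHom ℂ) (t0 * t1) +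
        (1 + t0 * t1) * Q.eval₂ (Int.castRingHom ℂ) (t0 * t1))) := by
  rw [mkPQ, mkP_eval h0 h1, gr0, gr1]
  congr 1
  simp only [eval₂_add, eval₂_mul, eval₂_pow, eval₂_X, eval₂_ofNat]
  ring

theorem mkPQ_unimodal {n : ℕ} {P Q : ℤ[X]} (R : Rows (row0 n P.coeff Q.coeff) (row1 P.coeff Q.coeff) P.coeff) :
    Unimodal (mkPQ n P Q) := by
  refine Rows.unimodal ?_ n
  rw [gr0_coeff, gr1_coeff]
  exact R

/-- the power series of a quadratic polynomial -/
noncomputable def QS (a b c : ℤ) : PowerSeries ℤ := PowerSeries.mk fun t => a * (t : ℤ) ^ 2 + b * t + c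

theorem QS_id (a b c : ℤ) : (1 - PowerSeries.X) ^ 3 * QS a b c =
    (c : PowerSeries ℤ) + ((a + b - 2 * c : ℤ) : PowerSeries ℤ) * PowerSeries.X +
      ((a - b + c : ℤ) : PowerSeries ℤ) * PowerSeries.X ^ 2 := by
  have e : (1 - PowerSeries.X) ^ 3 * QS a b c = QS a b c - 3 * (PowerSeries.X ^ 1 * QS a b c) +
      3 * (PowerSeries.X ^ 2 * QS a b c) - PowerSeries.X ^ 3 * QS a b c := by ring
  have h3 : ∀ f : PowerSeries ℤ, ∀ t, PowerSeries.coeff t (3 * f) = 3 * PowerSeries.coeff t f := by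
    intro f t
    have : (3 : PowerSeries ℤ) = PowerSeries.C (3 : ℤ) := by simp
    rw [this, PowerSeries.coeff_C_mul]
  have hc : ∀ (z : ℤ) (f : PowerSeries ℤ) (t : ℕ), PowerSeries.coeff t ((z : PowerSeries ℤ) * f) =
      z * PowerSeries.coeff t f := by
    intro z f t
    have : (z : PowerSeries ℤ) = PowerSeries.C z := by simp
    rw [this, PowerSeries.coeff_C_mul]
  have hc0 : ∀ (z : ℤ) (t : ℕ), PowerSeries.coeff t ((z : PowerSeries ℤ)) = if t = 0 then z else 0 := by
    intro z t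
    have : (z : PowerSeries ℤ) = PowerSeries.C z := by simp
    rw [this, PowerSeries.coeff_C]
  rw [e]
  ext t
  simp only [map_sub, map_add, h3, hc, hc0, PowerSeries.coeff_X_pow_mul', QS, PowerSeries.coeff_mk,
    PowerSeries.coeff_X, PowerSeries.coeff_X_pow]
  match t with
  | 0 => simp
  | 1 => simp; ring
  | 2 => simp; ring
  | t + 3 =>
    rw [if_pos (by omega), if_pos (by omega), if_pos (by omega), if_neg (by omega), if_neg (by omega),
      if_neg (by omega), show t + 3 - 1 = t + 2 by omega, show t + 3 - 2 = t + 1 by omega,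
      show t + 3 - 3 = t by omega]
    push_cast
    ring

theorem coeff_QS (k t : ℕ) (a b c : ℤ) : PowerSeries.coeff t (PowerSeries.X ^ k * QS a b c) =
    if k ≤ t then a * ((t : ℤ) - k) ^ 2 + b * ((t : ℤ) - k) + c else 0 := by
  rw [PowerSeries.coeff_X_pow_mul']
  split_ifs with h
  · rw [QS, PowerSeries.coeff_mk, Nat.cast_sub h]
  · rfl

theorem coeff_QS0 (t : ℕ) (a b c : ℤ) : PowerSeries.coeff t (QS a b c) = a * (t : ℤ) ^ 2 + b * t + c := by
  rw [QS, PowerSeries.coeff_mk]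

/-- differences of the coefficients -/
theorem dif_coeff (f : ℤ[X]) (t : ℕ) : PowerSeries.coeff t ((1 - PowerSeries.X) * (f : PowerSeries ℤ)) =
    f.coeff t - sh f.coeff t := by
  rw [sub_mul, one_mul, map_sub, Polynomial.coeff_coe]
  congr 1
  cases t with
  | zero => simp [sh]
  | succ t => rw [PowerSeries.coeff_succ_X_mul, Polynomial.coeff_coe]; rfl

theorem one_sub_X_ne : (1 - PowerSeries.X : PowerSeries ℤ) ≠ 0 := by
  intro h
  have := congrArg (PowerSeries.coeff 0) h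
  simp at this

end LG3
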