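import Pool.Agent.Lib.MP_3cd99b_gt.D

/-! The Links-Gould polynomial of a diagram is unique. -/

namespace LG3

/-- the monomial with exponents z, as a character -/
noncomputable def mono (z : ℤ × ℤ) : ℂˣ × ℂˣ →* ℂ where
  toFun g := (((g.1 ^ z.1 * g.2 ^ z.2 : ℂˣ)) : ℂ)
  map_one' := by simp
  map_mul' g h := by
    simp only [Prod.fst_mul, Prod.snd_mul, mul_zpow, Units.val_mul]
    ring

theorem mono_inj : Function.Injective mono := by
  intro z w h
  have hp : ∀ a b : ℤ, ((Units.mk0 (2 : ℂ) two_ne_zero) ^ a : ℂˣ) = (Units.mk0 (2 : ℂ) two_ne_zero) ^ b → a = b := by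
    intro a b hab
    have h1 : (2 : ℂ) ^ a = (2 : ℂ) ^ b := by
      have := congrArg (fun u : ℂˣ => (u : ℂ)) hab
      simpa using this
    have h2 : (2 : ℝ) ^ a = (2 : ℝ) ^ b := by
      have h3 := congrArg (fun u : ℂ => ‖u‖) h1
      simpa [norm_zpow] using h3
    exact zpow_right_injective₀ (by norm_num) (by norm_num) h2
  have h1 := DFunLike.congr_fun h ((Units.mk0 (2 : ℂ) two_ne_zero), 1)
  have h2 := DFunLike.congr_fun h (1, (Units.mk0 (2 : ℂ) two_ne_zero))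
  simp only [mono, MonoidHom.coe_mk, OneHom.coe_mk, one_zpow, mul_one, one_mul] at h1 h2
  exact Prod.ext (hp _ _ (Units.ext h1)) (hp _ _ (Units.ext h2))

theorem evalAt_inj {P Q : ℤ × ℤ →₀ ℤ}
    (h : ∀ t0 t1 : ℂ, t0 ≠ 0 → t1 ≠ 0 → evalAt P t0 t1 = evalAt Q t0 t1) : P = Q := by
  have hli : LinearIndependent ℂ (fun z : ℤ × ℤ => (mono z : ℂˣ × ℂˣ → ℂ)) :=
    (linearIndependent_monoidHom (ℂˣ × ℂˣ) ℂ).comp mono mono_inj
  have hc : ∀ R : ℤ × ℤ →₀ ℤ, ∀ g : ℂˣ × ℂˣ,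
      Finsupp.linearCombination ℂ (fun z : ℤ × ℤ => (mono z : ℂˣ × ℂˣ → ℂ))
        (R.mapRange (fun c : ℤ => (c : ℂ)) Int.cast_zero) g = evalAt R g.1 g.2 := by
    intro R g
    rw [Finsupp.linearCombination_apply, Finsupp.sum_mapRange_index (by simp), evalAt, Finsupp.sum,
      Finset.sum_apply, Finsupp.sum]
    refine Finset.sum_congr rfl (fun z _ => ?_)
    simp [mono]
  have h1 : (P.mapRange (fun c : ℤ => (c : ℂ)) Int.cast_zero) =
      (Q.mapRange (fun c : ℤ => (c : ℂ)) Int.cast_zero) := by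
    apply hli
    funext g
    rw [hc, hc]
    exact h _ _ g.1.ne_zero g.2.ne_zero
  exact Finsupp.mapRange_injective _ Int.cast_zero Int.cast_injective h1

theorem IsLGold.unique {w : List Piece} {P Q : ℤ × ℤ →₀ ℤ} (hP : IsLGold w P)
    (hQ : IsLGold w Q) : P = Q := by
  refine evalAt_inj (fun t0 t1 h0 h1 => ?_)
  obtain ⟨α, rfl⟩ := IsAlgClosed.exists_pow_nat_eq t0 two_pos
  obtain ⟨β, rfl⟩ := IsAlgClosed.exists_pow_nat_eq t1 two_pos
  have ha : α ≠ 0 := fun h => h0 (by rw [h]; ring)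
  have hb : β ≠ 0 := fun h => h1 (by rw [h]; ring)
  have e1 := hP.2 α β ha hb 0 0
  have e2 := hQ.2 α β ha hb 0 0
  rw [if_pos rfl] at e1 e2
  rw [← e1, ← e2]

end LG3
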