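import Pool.Agent.Lib.MP_3cd99b_gt.SP

/-!
Chain states of a piece: the state `w` (closer circle) and the states obtained from it by closing exits in the
order of decreasing rank; ranks with the exit property.
-/

namespace PoolLib.MP_3cd99b_gt.Oct

open Function Finset Relation

variable {V I : Type*}

/-- the circles of a piece with their distance from the root circle -/
structure CircD (s : V → Bool → Option V) (circ : V → Bool → I) (dist : I → ℕ) : Prop where
  const : ∀ v b u, s v b = some u → circ u b = circ v b
  per : ∀ v b, dist (circ v b) ≠ 0 → Per s (fun _ => b) v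
  orbit : ∀ v u b, dist (circ v b) ≠ 0 → circ v b = circ u b → SC s (fun _ => b) v u
  root : ∀ v b, dist (circ v b) = 0 → ∃ n, (par s (fun _ => b))^[n] (some v) = none
  ne : ∀ v, dist (circ v true) ≠ dist (circ v false)
  closer : ∀ v b, dist (circ v b) ≠ 0 → ∃ u, circ u b = circ v b ∧
    dist (circ u (!b)) < dist (circ u b)

/-- crossing level rank -/
def Rank (s : V → Bool → Option V) (x : V → Bool) (r : V → ℕ) : Prop :=
  ∀ v u, s v (x v) = some u → r u < r v

/-- on every circle of type `b`: every exit has smaller rank than every crossing whose walker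
continues on this circle -/
def Ext (circ : V → Bool → I) (b : Bool) (r : V → ℕ) (x : V → Bool) : Prop :=
  ∀ e c, x e = !b → x c = b → circ c b = circ e b → r e < r c

theorem Rank.acyc {s : V → Bool → Option V} {x : V → Bool} {r : V → ℕ} (h : Rank s x r) :
    Acyc s x := ⟨r, h⟩

/-- the walk along the circle of type `b` from `v` has come to an exit of `x` or to the root -/
def Hits (s : V → Bool → Option V) (x : V → Bool) (b : Bool) (v : V) (n : ℕ) : Prop :=
  (par s (fun _ => b))^[n] (some v) = none ∨
    ∃ e, (par s (fun _ => b))^[n] (some v) = some e ∧ x e ≠ b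

theorem circ_iter {s : V → Bool → Option V} {circ : V → Bool → I}
    (hc : ∀ v b u, s v b = some u → circ u b = circ v b) (b : Bool) (n : ℕ) :
    ∀ v u, (par s (fun _ => b))^[n] (some v) = some u → circ u b = circ v b := by
  induction n with
  | zero => intro v u h; simp at h; rw [h]
  | succ n ih =>
    intro v u h
    rw [iterate_succ_apply, par_some] at h
    cases h' : s v b with
    | none => rw [h', iter_none] at h; simp at h
    | some t => rw [h'] at h; rw [ih t u h, hc v b t h']

theorem iter_const_of {s : V → Bool → Option V} {x : V → Bool} (b : Bool) (v : V) (n : ℕ)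
    (h : ∀ m < n, ∀ u, (par s (fun _ => b))^[m] (some v) = some u → x u = b) :
    (par s x)^[n] (some v) = (par s (fun _ => b))^[n] (some v) := by
  induction n with
  | zero => rfl
  | succ n ih =>
    rw [iterate_succ_apply', iterate_succ_apply', ih (fun m hm => h m (by omega))]
    cases ho : (par s (fun _ => b))^[n] (some v) with
    | none => rfl
    | some u => simp [h n (by omega) u ho]

theorem rank_lt_of_iter {s : V → Bool → Option V} {x : V → Bool} {r : V → ℕ}
    (hr : Rank s x r) (q : ℕ) : ∀ u w, (par s x)^[q + 1] (some u) = some w → r w < r u := by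
  intro u w h
  rw [iterate_succ_apply, par_some] at h
  cases h' : s u (x u) with
  | none => rw [h', iter_none] at h; simp at h
  | some t =>
    rw [h'] at h
    exact lt_of_le_of_lt (rank_le_of_iter hr q t w h) (hr u t h')

variable [Fintype V]

/-- From a rank for exits to a crossing level rank. -/
theorem rank_of_event {s : V → Bool → Option V} {circ : V → Bool → I}
    (hc : ∀ v b u, s v b = some u → circ u b = circ v b) (x : V → Bool) (r : V → ℕ) (b0 : Bool)
    (term : ∀ v, ∃ n, Hits s x (x v) v n)
    (hfirst : ∀ v n e, (∀ m < n, ¬ Hits s x (x v) v m) →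
      (par s (fun _ => x v))^[n] (some v) = some e → x e ≠ x v → r e < r v)
    (hext : Ext circ b0 r x) : ∃ r', Rank s x r' ∧ Ext circ b0 r' x := by
  classical
  let σ : V → ℕ := fun v => Nat.find (term v)
  have hσ : ∀ v, Hits s x (x v) v (σ v) := fun v => Nat.find_spec (term v)
  have hσm : ∀ v, ∀ m < σ v, ¬ Hits s x (x v) v m := fun v m hm => Nat.find_min (term v) hm
  have hσ0 : ∀ v, 0 < σ v := by
    intro v
    rcases Nat.eq_zero_or_pos (σ v) with h | h
    · have := hσ v
      rw [h] at this
      rcases this with h1 | ⟨e, h1, h2⟩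
      · simp at h1
      · simp at h1; subst h1; exact absurd rfl h2
    · exact h
  let fh : V → Option V := fun v => (par s (fun _ => x v))^[σ v] (some v)
  let base : V → ℕ := fun v => if x v = b0 then
      (univ.filter fun e => x e = !b0 ∧ circ e b0 = circ v b0).sup (fun e => r e + 1)
    else (fh v).elim 0 (fun e => r e + 1)
  have hbase : ∀ v, base v ≤ r v := by
    intro v
    simp only [base]
    split_ifs with h
    · apply Finset.sup_le
      intro e he
      simp only [mem_filter, mem_univ, true_and] at he
      exact hext e v he.1 h he.2.symm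
    · cases hf : fh v with
      | none => simp
      | some e =>
        simp only [Option.elim_some]
        rcases hσ v with h1 | ⟨e', h1, h2⟩
        · simp only [fh] at hf; rw [h1] at hf; simp at hf
        · have : e' = e := by simp only [fh] at hf; rw [h1] at hf; exact Option.some.inj hf
          subst this
          exact hfirst v (σ v) e' (hσm v) h1 h2
  let N := univ.sup σ + 1
  have hN : ∀ v, σ v < N := fun v => Nat.lt_succ_of_le (Finset.le_sup (Finset.mem_univ v))
  let r' : V → ℕ := fun v => N * base v + σ v
  have hr'1 : ∀ v, r' v < N * (base v + 1) := by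
    intro v; simp only [r']; have := hN v; rw [mul_add, mul_one]; omega
  have hr'2 : ∀ v, r' v < N * (r v + 1) := fun v =>
    lt_of_lt_of_le (hr'1 v) (Nat.mul_le_mul_left _ (by have := hbase v; omega))
  refine ⟨r', ?_, ?_⟩
  · intro v u hu
    by_cases hxu : x u = x v
    · -- the walk goes on along the same circle
      have e1 : ∀ n, (par s (fun _ => x v))^[n + 1] (some v)
          = (par s (fun _ => x v))^[n] (some u) := by
        intro n; rw [iterate_succ_apply, par_some, hu]
      have e2 : σ v = σ u + 1 := by
        apply (Nat.find_eq_iff (term v)).2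
        constructor
        · have := hσ u
          unfold Hits at this ⊢
          rw [e1]
          rw [hxu] at this
          exact this
        · intro m hm hH
          rcases Nat.eq_zero_or_pos m with h0 | h0
          · subst h0
            rcases hH with h1 | ⟨e, h1, h2⟩
            · simp at h1
            · simp at h1; subst h1; exact h2 rfl
          · obtain ⟨m', rfl⟩ : ∃ m', m = m' + 1 := ⟨m - 1, by omega⟩
            apply hσm u m' (by omega)
            unfold Hits at hH ⊢
            rw [e1] at hH
            rw [hxu]
            exact hH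
      have e3 : fh v = fh u := by
        simp only [fh]
        rw [e2, e1, hxu]
      have e4 : base u = base v := by
        simp only [base]
        rw [hxu, e3]
        split_ifs with h
        · have e5 : circ u b0 = circ v b0 := by
            rw [h] at hu; exact hc v b0 u hu
          rw [e5]
        · rfl
      simp only [r']
      rw [e4, e2]; omega
    · -- `u` is an exit
      have e0 : (par s (fun _ => x v))^[1] (some v) = some u := by
        simpa using hu
      have e2 : σ v = 1 := by
        apply (Nat.find_eq_iff (term v)).2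
        constructor
        · exact Or.inr ⟨u, e0, hxu⟩
        · intro m hm hH
          have h0 : m = 0 := by omega
          subst h0
          rcases hH with h1 | ⟨e, h1, h2⟩
          · simp at h1
          · simp at h1; subst h1; exact h2 rfl
      have e3 : r u + 1 ≤ base v := by
        simp only [base]
        split_ifs with h
        · have e5 : circ u b0 = circ v b0 := by
            rw [h] at hu; exact hc v b0 u hu
          have hm : u ∈ univ.filter (fun e => x e = !b0 ∧ circ e b0 = circ v b0) := by
            simp only [mem_filter, mem_univ, true_and]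
            refine ⟨?_, e5⟩
            rw [h] at hxu
            revert hxu; cases x u <;> cases b0 <;> simp
          exact Finset.le_sup (f := fun e => r e + 1) hm
        · simp only [fh]
          rw [e2, e0]
          simp
      have e4 : N * (r u + 1) ≤ N * base v := Nat.mul_le_mul_left _ e3
      have e5 := hr'2 u
      have e6 := hσ0 v
      simp only [r'] at e5 ⊢
      omega
  · intro e c he hcx hcc
    have e3 : r e + 1 ≤ base c := by
      simp only [base]
      rw [if_pos hcx]
      have hm : e ∈ univ.filter (fun e => x e = !b0 ∧ circ e b0 = circ c b0) := by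
        simp only [mem_filter, mem_univ, true_and]
        exact ⟨he, hcc.symm⟩
      exact Finset.le_sup (f := fun e => r e + 1) hm
    have e4 : N * (r e + 1) ≤ N * base c := Nat.mul_le_mul_left _ e3
    have e5 := hr'2 e
    simp only [r'] at e5 ⊢
    omega

/-- the state `w`: every crossing is directed to the circle closer to the root circle -/
def ww (circ : V → Bool → I) (dist : I → ℕ) : V → Bool :=
  fun v => decide (dist (circ v true) < dist (circ v false))

omit [Fintype V] in
theorem ww_eq {s : V → Bool → Option V} {circ : V → Bool → I} {dist : I → ℕ}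
    (h : CircD s circ dist) (v : V) (b : Bool) :
    ww circ dist v = b ↔ dist (circ v b) < dist (circ v (!b)) := by
  have := h.ne v
  unfold ww
  cases b
  · simp only [decide_eq_false_iff_not, Bool.not_false]; omega
  · simp only [decide_eq_true_eq, Bool.not_true]

/-- An injective rank of `w` which compares first the distances of the head circles. -/
theorem exists_rank_ww {s : V → Bool → Option V} {circ : V → Bool → I} {dist : I → ℕ}
    (h : CircD s circ dist) : ∃ r : V → ℕ, Injective r ∧ Rank s (ww circ dist) r ∧
      (∀ b, Ext circ b r (ww circ dist)) := by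
  classical
  set w := ww circ dist with hw
  have term : ∀ v, ∃ n, Hits s w (w v) v n := by
    intro v
    by_cases h0 : dist (circ v (w v)) = 0
    · obtain ⟨n, hn⟩ := h.root v (w v) h0
      exact ⟨n, Or.inl hn⟩
    · obtain ⟨u, hu1, hu2⟩ := h.closer v (w v) h0
      obtain ⟨n, hn⟩ := h.orbit v u (w v) h0 hu1.symm
      refine ⟨n, Or.inr ⟨u, hn, ?_⟩⟩
      intro e
      have := (ww_eq h u (w v)).1 e
      omega
  let σ : V → ℕ := fun v => Nat.find (term v)
  have hσ : ∀ v, Hits s w (w v) v (σ v) := fun v => Nat.find_spec (term v)
  have hσm : ∀ v, ∀ m < σ v, ¬ Hits s w (w v) v m := fun v m hm => Nat.find_min (term v) hm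
  let N := univ.sup σ + 1
  have hN : ∀ v, σ v < N := fun v => Nat.lt_succ_of_le (Finset.le_sup (Finset.mem_univ v))
  let D : V → ℕ := fun v => dist (circ v (w v))
  let r0 : V → ℕ := fun v => D v * N + σ v
  have hD : ∀ u v, D u < D v → r0 u < r0 v := by
    intro u v huv
    have h1 : (D u + 1) * N ≤ D v * N := Nat.mul_le_mul_right _ huv
    have := hN u
    simp only [r0]; nlinarith
  have hR : ∀ v u, s v (w v) = some u → r0 u < r0 v := by
    intro v u hu
    have hcc := h.const v (w v) u hu
    by_cases hwu : w u = w v
    · have e1 : ∀ n, (par s (fun _ => w v))^[n + 1] (some v)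
          = (par s (fun _ => w v))^[n] (some u) := by
        intro n; rw [iterate_succ_apply, par_some, hu]
      have e2 : σ v = σ u + 1 := by
        apply (Nat.find_eq_iff (term v)).2
        constructor
        · have := hσ u
          unfold Hits at this ⊢
          rw [e1]
          rw [hwu] at this
          exact this
        · intro m hm hH
          rcases Nat.eq_zero_or_pos m with h0 | h0
          · subst h0
            rcases hH with h1 | ⟨e, h1, h2⟩
            · simp at h1
            · simp at h1; subst h1; exact h2 rfl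
          · obtain ⟨m', rfl⟩ : ∃ m', m = m' + 1 := ⟨m - 1, by omega⟩
            apply hσm u m' (by omega)
            unfold Hits at hH ⊢
            rw [e1] at hH
            rw [hwu]
            exact hH
      simp only [r0, D]
      rw [hwu, hcc, e2]; omega
    · apply hD
      simp only [D]
      have hwu' : w u = !(w v) := by revert hwu; cases w u <;> cases w v <;> simp
      have := (ww_eq h u (!(w v))).1 hwu'
      rw [Bool.not_not] at this
      rw [hwu', ← hcc]; exact this
  have hE : ∀ b e c, w e = !b → w c = b → circ c b = circ e b → r0 e < r0 c := by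
    intro b e c he hcw hcc
    apply hD
    simp only [D]
    have := (ww_eq h e (!b)).1 he
    rw [Bool.not_not] at this
    rw [he, hcw, hcc]; exact this
  have hlex : ∀ u v, r0 u < r0 v → r0 u * Fintype.card V + (Fintype.equivFin V u : ℕ)
      < r0 v * Fintype.card V + (Fintype.equivFin V v : ℕ) := by
    intro u v huv
    have h2 : (Fintype.equivFin V u : ℕ) < Fintype.card V := Fin.is_lt _
    have h3 : (r0 u + 1) * Fintype.card V ≤ r0 v * Fintype.card V := Nat.mul_le_mul_right _ huv
    nlinarith
  refine ⟨fun v => r0 v * Fintype.card V + (Fintype.equivFin V v : ℕ), ?_, ?_, ?_⟩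
  · intro v u h
    have h1 : (r0 v * Fintype.card V + (Fintype.equivFin V v : ℕ)) % Fintype.card V
        = (r0 u * Fintype.card V + (Fintype.equivFin V u : ℕ)) % Fintype.card V := by
      simp only at h; rw [h]
    rw [Nat.mul_add_mod', Nat.mul_add_mod', Nat.mod_eq_of_lt (Fin.is_lt _),
      Nat.mod_eq_of_lt (Fin.is_lt _)] at h1
    exact (Fintype.equivFin V).injective (Fin.ext h1)
  · intro v u h
    exact hlex u v (hR v u h)
  · intro b e c he hcw hcc
    exact hlex e c (hE b e c he hcw hcc)

/-- `w` has no exits on the root circle -/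
theorem ww_root {s : V → Bool → Option V} {circ : V → Bool → I} {dist : I → ℕ}
    (h : CircD s circ dist) (v : V) (b : Bool) (hv : ww circ dist v = !b) :
    dist (circ v b) ≠ 0 := by
  have := (ww_eq h v (!b)).1 hv
  rw [Bool.not_not] at this
  omega

/-- first exit on its circle of type `b0` with respect to `r` -/
def Fst (circ : V → Bool → I) (dist : I → ℕ) (r : V → ℕ) (b0 : Bool) (v : V) : Prop :=
  ∀ u, ww circ dist u = !b0 → circ u b0 = circ v b0 → r v ≤ r u

open Classical in
/-- the chain states -/
noncomputable def cs (circ : V → Bool → I) (dist : I → ℕ) (r : V → ℕ) (b0 : Bool) (θ : ℕ) :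
    V → Bool := fun v =>
  if ww circ dist v = b0 ∨ (¬ Fst circ dist r b0 v ∧ θ ≤ r v) then b0 else !b0

omit [Fintype V] in
theorem cs_eq_iff (circ : V → Bool → I) (dist : I → ℕ) (r : V → ℕ) (b0 : Bool) (θ : ℕ) (v : V) :
    cs circ dist r b0 θ v = b0 ↔
      (ww circ dist v = b0 ∨ (¬ Fst circ dist r b0 v ∧ θ ≤ r v)) := by
  unfold cs
  split_ifs with h
  · simp [h]
  · simp only [h, iff_false]; cases b0 <;> simp

omit [Fintype V] in
theorem cs_eq_not_iff (circ : V → Bool → I) (dist : I → ℕ) (r : V → ℕ) (b0 : Bool) (θ : ℕ)
    (v : V) : cs circ dist r b0 θ v = !b0 ↔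
      (ww circ dist v = !b0 ∧ (Fst circ dist r b0 v ∨ r v < θ)) := by
  have h := cs_eq_iff circ dist r b0 θ v
  have h1 : cs circ dist r b0 θ v = !b0 ↔ ¬ cs circ dist r b0 θ v = b0 := by
    cases cs circ dist r b0 θ v <;> cases b0 <;> simp
  have h2 : ww circ dist v = !b0 ↔ ¬ ww circ dist v = b0 := by
    cases ww circ dist v <;> cases b0 <;> simp
  rw [h1, h, h2]
  push Not
  constructor
  · rintro ⟨h3, h4⟩
    refine ⟨h3, ?_⟩
    by_cases h5 : Fst circ dist r b0 v
    · exact Or.inl h5
    · exact Or.inr (h4 h5)
  · rintro ⟨h3, h4⟩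
    refine ⟨h3, fun h5 => ?_⟩
    rcases h4 with h4 | h4
    · exact absurd h4 h5
    · exact h4

theorem exists_fst {s : V → Bool → Option V} {circ : V → Bool → I} {dist : I → ℕ}
    (h : CircD s circ dist) (r : V → ℕ) (b0 : Bool) (v : V) (hv : dist (circ v b0) ≠ 0) :
    ∃ m, circ m b0 = circ v b0 ∧ ww circ dist m = !b0 ∧ Fst circ dist r b0 m := by
  classical
  obtain ⟨u, hu1, hu2⟩ := h.closer v b0 hv
  have hne : (univ.filter fun u => circ u b0 = circ v b0 ∧ ww circ dist u = !b0).Nonempty :=
    ⟨u, by
      simp only [mem_filter, mem_univ, true_and]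
      exact ⟨hu1, (ww_eq h u (!b0)).2 (by rw [Bool.not_not]; exact hu2)⟩⟩
  obtain ⟨m, hm, hmin⟩ := Finset.exists_min_image _ r hne
  simp only [mem_filter, mem_univ, true_and] at hm hmin
  exact ⟨m, hm.1, hm.2, fun u h1 h2 => hmin u ⟨h2.trans hm.1, h1⟩⟩

/-- chain states have a rank with the exit property at the circles of type `b0` -/
theorem cs_rank {s : V → Bool → Option V} {circ : V → Bool → I} {dist : I → ℕ}
    (h : CircD s circ dist) {r : V → ℕ} (hi : Injective r) (hr : Rank s (ww circ dist) r)
    (he : ∀ b, Ext circ b r (ww circ dist)) (b0 : Bool) (θ : ℕ) :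
    ∃ r', Rank s (cs circ dist r b0 θ) r' ∧ Ext circ b0 r' (cs circ dist r b0 θ) := by
  classical
  set x := cs circ dist r b0 θ with hx
  set w := ww circ dist with hw
  have hb : ∀ a : Bool, a = b0 ∨ a = !b0 := by intro a; cases a <;> cases b0 <;> simp
  have hext : Ext circ b0 r x := by
    intro e c h1 h2 h3
    obtain ⟨h4, h5⟩ := (cs_eq_not_iff circ dist r b0 θ e).1 h1
    rcases (cs_eq_iff circ dist r b0 θ c).1 h2 with h6 | ⟨h6, h7⟩
    · exact he b0 e c h4 h6 h3
    · rcases h5 with h5 | h5
      · have hwc : w c = !b0 ∨ w c = b0 := (hb (w c)).symm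
        rcases hwc with hwc | hwc
        · have h8 := h5 c hwc h3
          rcases Nat.lt_or_ge (r e) (r c) with h9 | h9
          · exact h9
          · have : e = c := hi (le_antisymm h8 h9)
            subst this
            exact absurd h5 h6
        · exact he b0 e c h4 hwc h3
      · omega
  apply rank_of_event h.const x r b0 _ _ hext
  · -- termination
    intro v
    by_cases h0 : dist (circ v (x v)) = 0
    · obtain ⟨n, hn⟩ := h.root v (x v) h0
      exact ⟨n, Or.inl hn⟩
    · rcases hb (x v) with hv | hv
      · obtain ⟨m, hm1, hm2, hm3⟩ := exists_fst h r b0 v (by rw [hv] at h0; exact h0)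
        obtain ⟨n, hn⟩ := h.orbit v m (x v) h0 (by rw [hv]; exact hm1.symm)
        refine ⟨n, Or.inr ⟨m, hn, ?_⟩⟩
        have : x m = !b0 := (cs_eq_not_iff circ dist r b0 θ m).2 ⟨hm2, Or.inl hm3⟩
        rw [this, hv]; cases b0 <;> simp
      · obtain ⟨u, hu1, hu2⟩ := h.closer v (x v) h0
        obtain ⟨n, hn⟩ := h.orbit v u (x v) h0 hu1.symm
        refine ⟨n, Or.inr ⟨u, hn, ?_⟩⟩
        rw [hv, Bool.not_not] at hu2
        have hwu : w u = b0 := (ww_eq h u b0).2 hu2
        have : x u = b0 := (cs_eq_iff circ dist r b0 θ u).2 (Or.inl hwu)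
        rw [this, hv]; cases b0 <;> simp
  · -- first exits
    intro v n e hn hne hxe
    have hcc := circ_iter h.const (x v) n v e hne
    rcases hb (x v) with hv | hv
    · rw [hv] at hcc hxe
      have hxe' : x e = !b0 := by
        rcases hb (x e) with h1 | h1
        · exact absurd h1 hxe
        · exact h1
      exact hext e v hxe' hv hcc.symm
    · have hwv : w v = !b0 := ((cs_eq_not_iff circ dist r b0 θ v).1 hv).1
      have hxe' : x e = b0 := by
        rcases hb (x e) with h1 | h1
        · exact h1
        · exact absurd (h1.trans hv.symm) hxe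
      rcases hb (w e) with hwe | hwe
      · rw [hv] at hcc
        exact he (!b0) e v (by rw [Bool.not_not]; exact hwe) hwv hcc.symm
      · -- all crossings before `e` have `w = !b0`
        have hpath : (par s w)^[n] (some v) = (par s (fun _ => !b0))^[n] (some v) := by
          apply iter_const_of
          intro m hm u hu
          have h1 := hn m hm
          unfold Hits at h1
          push Not at h1
          rw [hv] at h1
          have h2 := h1.2 u hu
          exact ((cs_eq_not_iff circ dist r b0 θ u).1 h2).1
        rw [hv] at hne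
        rw [hne] at hpath
        have hn0 : n ≠ 0 := by
          rintro rfl
          simp at hne
          subst hne
          exact hxe rfl
        obtain ⟨n', rfl⟩ : ∃ n', n = n' + 1 := ⟨n - 1, by omega⟩
        exact rank_lt_of_iter hr n' v e hpath


/-- chain states have no exits of type `b0` on the root circle -/
theorem cs_root {s : V → Bool → Option V} {circ : V → Bool → I} {dist : I → ℕ}
    (h : CircD s circ dist) (r : V → ℕ) (b0 : Bool) (θ : ℕ) (v : V)
    (hv : cs circ dist r b0 θ v = !b0) : dist (circ v b0) ≠ 0 :=
  ww_root h v b0 ((cs_eq_not_iff circ dist r b0 θ v).1 hv).1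

omit [Fintype V] in
theorem cs_ge_ww (circ : V → Bool → I) (dist : I → ℕ) (r : V → ℕ) (b0 : Bool) (θ : ℕ) (v : V)
    (hv : ww circ dist v = b0) : cs circ dist r b0 θ v = b0 :=
  (cs_eq_iff circ dist r b0 θ v).2 (Or.inl hv)

/-- for large `θ` the chain state is `w` -/
theorem cs_large (circ : V → Bool → I) (dist : I → ℕ) (r : V → ℕ) (b0 : Bool) (θ : ℕ)
    (hθ : ∀ v, r v < θ) : cs circ dist r b0 θ = ww circ dist := by
  funext v
  have hb : ∀ a : Bool, a = b0 ∨ a = !b0 := by intro a; cases a <;> cases b0 <;> simp
  rcases hb (ww circ dist v) with h | h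
  · rw [h]; exact cs_ge_ww circ dist r b0 θ v h
  · rw [h]; exact (cs_eq_not_iff circ dist r b0 θ v).2 ⟨h, Or.inr (hθ v)⟩

/-- the last chain state is a top state -/
theorem cs_top {s : V → Bool → Option V} {circ : V → Bool → I} {dist : I → ℕ}
    (h : CircD s circ dist) {r : V → ℕ} (hi : Injective r) (b0 : Bool) :
    Top (fun _ => b0) s (cs circ dist r b0 0) := by
  have hb : ∀ a : Bool, a ≠ b0 → a = !b0 := by intro a; cases a <;> cases b0 <;> simp
  constructor
  · intro v hv n
    exact Per.ne_none (fun _ => b0) (h.per v b0 (cs_root h r b0 0 v (hb _ hv))) n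
  · rintro v v' hv hv' _ ⟨q, hq⟩
    obtain ⟨h1, h2⟩ := (cs_eq_not_iff circ dist r b0 0 v).1 (hb _ hv)
    obtain ⟨h3, h4⟩ := (cs_eq_not_iff circ dist r b0 0 v').1 (hb _ hv')
    have h5 : Fst circ dist r b0 v := by
      rcases h2 with h2 | h2
      · exact h2
      · omega
    have h6 : Fst circ dist r b0 v' := by
      rcases h4 with h4 | h4
      · exact h4
      · omega
    have hcc := circ_iter h.const b0 q v v' hq
    exact hi (le_antisymm (h5 v' h3 hcc) (h6 v h1 hcc.symm))

/-- one step of the chain changes the number of exits by at most one -/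
theorem cs_step (circ : V → Bool → I) (dist : I → ℕ) {r : V → ℕ} (hi : Injective r) (b0 : Bool)
    (θ : ℕ) : low (fun _ => b0) (cs circ dist r b0 θ) ≤ low (fun _ => b0) (cs circ dist r b0 (θ + 1)) ∧
      low (fun _ => b0) (cs circ dist r b0 (θ + 1)) ≤ low (fun _ => b0) (cs circ dist r b0 θ) + 1 := by
  classical
  have hb : ∀ a : Bool, a ≠ b0 ↔ a = !b0 := by intro a; cases a <;> cases b0 <;> simp
  constructor
  · unfold low
    apply card_le_card
    intro v hv
    simp only [mem_filter, mem_univ, true_and, hb, cs_eq_not_iff] at hv ⊢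
    exact ⟨hv.1, hv.2.imp id (fun h => by omega)⟩
  · unfold low
    by_cases hex : ∃ u, r u = θ
    · obtain ⟨u, hu⟩ := hex
      have : (univ.filter fun v => cs circ dist r b0 (θ + 1) v ≠ b0) ⊆
          insert u (univ.filter fun v => cs circ dist r b0 θ v ≠ b0) := by
        intro v hv
        simp only [mem_insert, mem_filter, mem_univ, true_and, hb, cs_eq_not_iff] at hv ⊢
        by_cases hvu : v = u
        · exact Or.inl hvu
        · right
          refine ⟨hv.1, hv.2.imp id (fun h => ?_)⟩
          have : r v ≠ r u := fun e => hvu (hi e)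
          omega
      exact (card_le_card this).trans (card_insert_le _ _)
    · refine (card_le_card ?_).trans (Nat.le_succ _)
      intro v hv
      simp only [mem_filter, mem_univ, true_and, hb, cs_eq_not_iff] at hv ⊢
      refine ⟨hv.1, hv.2.imp id (fun h => ?_)⟩
      have : r v ≠ θ := fun e => hex ⟨v, e⟩
      omega

/-- all numbers of exits between the minimum and that of `w` occur in the chain -/
theorem cs_values [DecidableEq V] {s : V → Bool → Option V} {circ : V → Bool → I} {dist : I → ℕ}
    (h : CircD s circ dist) (hc : ∀ b, Circular s (fun _ => b)) {r : V → ℕ} (hi : Injective r)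
    (hr : Rank s (ww circ dist) r) (he : ∀ b, Ext circ b r (ww circ dist)) (b0 : Bool) (j : ℕ)
    (h1 : mn s (fun _ => b0) ≤ j) (h2 : j ≤ low (fun _ => b0) (ww circ dist)) :
    ∃ θ, low (fun _ => b0) (cs circ dist r b0 θ) = j := by
  have h0 : low (fun _ => b0) (cs circ dist r b0 0) = mn s (fun _ => b0) := by
    obtain ⟨r', hr', _⟩ := cs_rank h hi hr he b0 0
    exact low_top (hc b0) hr'.acyc (cs_top h hi b0)
  have hinf := cs_large circ dist r b0 (univ.sup r + 1)
    (fun v => Nat.lt_succ_of_le (Finset.le_sup (Finset.mem_univ v)))
  have key : ∀ θ, j ≤ low (fun _ => b0) (cs circ dist r b0 θ) →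
      ∃ θ', low (fun _ => b0) (cs circ dist r b0 θ') = j := by
    intro θ
    induction θ with
    | zero => intro h3; exact ⟨0, by omega⟩
    | succ θ ih =>
      intro h3
      have h4 := (cs_step circ dist hi b0 θ).2
      by_cases h5 : j ≤ low (fun _ => b0) (cs circ dist r b0 θ)
      · exact ih h5
      · exact ⟨θ + 1, by omega⟩
  exact key _ (by rw [hinf]; exact h2)

/-- the pairs of chain states -/
theorem chain_pairs [DecidableEq V] {s t : V → Bool → Option V} (P : PieceData s t)
    {circ : V → Bool → I} {dist : I → ℕ} (hs : CircD s circ dist) (ht : CircD t circ dist)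
    (i : ℕ) (hi : (i : ℤ) ≤ dd s) :
    ∃ x y rx ry, Rank s x rx ∧ Rank t y ry ∧ Ext circ true rx x ∧ Ext circ false ry y ∧
      (∀ e, x e = false → dist (circ e true) ≠ 0) ∧
      (∀ e, y e = true → dist (circ e false) ≠ 0) ∧
      (∀ v, ww circ dist v = true → x v = true) ∧ (∀ v, ww circ dist v = false → y v = false) ∧
      nn true false x y = i ∧ nn false true x y = 0 := by
  classical
  obtain ⟨r, hri, hr, he⟩ := exists_rank_ww hs
  obtain ⟨r', hri', hr', he'⟩ := exists_rank_ww ht
  have hcs : ∀ b, Circular s (fun _ => b) := by
    intro b; cases b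
    · exact P.sL
    · exact P.sR
  have hct : ∀ b, Circular t (fun _ => b) := by
    intro b; cases b
    · exact P.tL
    · exact P.tR
  have m1 := mn_le (lab := fun _ => true) hr.acyc
  have m2 := mn_le (lab := fun _ => false) hr'.acyc
  have e1 := low_add (ww circ dist) (fun _ => true)
  have e2 := P.mL
  simp only [Bool.not_true] at e1
  unfold dd at hi
  obtain ⟨i1, i2, hi12, hi1, hi2⟩ : ∃ i1 i2, i1 + i2 = i ∧
      mn s (fun _ => true) + i1 ≤ low (fun _ => true) (ww circ dist) ∧
      mn t (fun _ => false) + i2 ≤ low (fun _ => false) (ww circ dist) := by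
    rcases le_total i (low (fun _ => true) (ww circ dist) - mn s (fun _ => true)) with h | h
    · exact ⟨i, 0, by omega, by omega, by omega⟩
    · exact ⟨low (fun _ => true) (ww circ dist) - mn s (fun _ => true),
        i - (low (fun _ => true) (ww circ dist) - mn s (fun _ => true)), by omega, by omega,
        by omega⟩
  obtain ⟨θ, hθ⟩ := cs_values hs hcs hri hr he true (low (fun _ => true) (ww circ dist) - i1)
    (by omega) (by omega)
  obtain ⟨θ', hθ'⟩ := cs_values ht hct hri' hr' he' false
    (low (fun _ => false) (ww circ dist) - i2) (by omega) (by omega)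
  obtain ⟨rx, hrx, hex⟩ := cs_rank hs hri hr he true θ
  obtain ⟨ry, hry, hey⟩ := cs_rank ht hri' hr' he' false θ'
  have hz : nn false true (cs circ dist r true θ) (cs circ dist r' false θ') = 0 := by
    unfold nn
    rw [card_eq_zero, filter_eq_empty_iff]
    rintro v _ ⟨h3, h4⟩
    have h5 := (cs_eq_not_iff circ dist r true θ v).1 h3
    have h6 := (cs_eq_not_iff circ dist r' false θ' v).1 h4
    have h7 := h5.1
    have h8 := h6.1
    rw [h7] at h8
    simp at h8
  refine ⟨_, _, rx, ry, hrx, hry, hex, hey, fun e h => cs_root hs r true θ e (by simpa using h),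
    fun e h => cs_root ht r' false θ' e (by simpa using h),
    fun v h => cs_ge_ww circ dist r true θ v h, fun v h => cs_ge_ww circ dist r' false θ' v h,
    ?_, hz⟩
  have e3 := kappa_eq (cs circ dist r true θ) (cs circ dist r' false θ')
  rw [hz] at e3
  have e4 := low_add (cs circ dist r true θ) (fun _ => true)
  have e5 := low_add (cs circ dist r' false θ') (fun _ => false)
  simp only [Bool.not_true, Bool.not_false] at e4 e5
  omega

/-- a pair with the largest `A - B` consists of top states -/
theorem top_of_kappa [DecidableEq V] {s t : V → Bool → Option V} (P : PieceData s t)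
    {x y : V → Bool} (hx : Acyc s x) (hy : Acyc t y)
    (h : (nn true false x y : ℤ) - nn false true x y = dd s) :
    Top (fun _ => true) s x ∧ Top (fun _ => false) t y := by
  have h1 := kappa_eq x y
  have h2 := mn_le (lab := fun _ => true) hx
  have h3 := mn_le (lab := fun _ => false) hy
  have h4 := low_add x (fun _ => true)
  have h5 := low_add y (fun _ => false)
  have h6 := P.mL
  simp only [Bool.not_true, Bool.not_false] at h4 h5
  unfold dd at h
  refine ⟨top_of_low hx ?_, top_of_low hy ?_⟩ <;> omega

/-- a rank of a top state has the exit property -/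
theorem ext_of_top [DecidableEq V] {s : V → Bool → Option V} {circ : V → Bool → I}
    {dist : I → ℕ} (h : CircD s circ dist) (hc : ∀ b, Circular s (fun _ => b)) {b0 : Bool}
    {x : V → Bool} {r : V → ℕ} (hr : Rank s x r) (hT : Top (fun _ => b0) s x) :
    Ext circ b0 r x := by
  intro e c he hcx hcc
  have hne : x e ≠ b0 := by rw [he]; cases b0 <;> simp
  have hper : Per s (fun _ => b0) e := Top.per (fun _ => b0) hT (hc b0) hne
  have hdist : dist (circ e b0) ≠ 0 := by
    intro h0
    obtain ⟨n, hn⟩ := h.root e b0 h0
    exact Per.ne_none (fun _ => b0) hper n hn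
  have hsc : SC s (fun _ => b0) c e := h.orbit c e b0 (by rw [hcc]; exact hdist) hcc
  have hex : ∃ q, (par s (fun _ => b0))^[q] (some c) = some e := hsc
  classical
  have hq := Nat.find_spec hex
  have hmin : ∀ q < Nat.find hex, (par s (fun _ => b0))^[q] (some c) ≠ some e := fun q hq' =>
    Nat.find_min hex hq'
  have hcper : Per s (fun _ => b0) c :=
    h.per c b0 (by rw [hcc]; exact hdist)
  have hpath : (par s x)^[Nat.find hex] (some c) = (par s (fun _ => b0))^[Nat.find hex] (some c) := by
    apply iter_const_of
    intro m hm u hu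
    by_contra hub
    have h1 : e = u := Top.unique (fun _ => b0) hT (hc b0) hne hub
      ((SC.symm (fun _ => b0) hcper hsc).trans (fun _ => b0) ⟨m, hu⟩)
    subst h1
    exact hmin m hm hu
  rw [hq] at hpath
  have h0 : Nat.find hex ≠ 0 := by
    intro h0
    rw [h0] at hq
    simp at hq
    subst hq
    exact hne hcx
  obtain ⟨q', hq'⟩ : ∃ q', Nat.find hex = q' + 1 := ⟨Nat.find hex - 1, by omega⟩
  rw [hq'] at hpath
  exact rank_lt_of_iter hr q' c e hpath

end PoolLib.MP_3cd99b_gt.Oct
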