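import Pool.Agent.Lib.MP_3cd99b_gt.Top

/-!
A diagram with an acyclic choice is connected.
-/

namespace PoolLib.MP_3cd99b_gt.Oct

open LG3P.Top

variable {E : Type*} [Finite E]

theorem closed_inv {σ : Equiv.Perm E} {T : Set E} (h : ∀ c ∈ T, σ c ∈ T) (c : E) (hc : σ c ∈ T) : c ∈ T := by
  have hn : ∀ (n : ℕ) (d : E), d ∈ T → (σ ^ n) d ∈ T := by
    intro n
    induction n with
    | zero => intro d hd; exact hd
    | succ n ih => intro d hd; rw [pow_succ', Equiv.Perm.mul_apply]; exact h _ (ih d hd)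
  have h1 : (σ ^ (orderOf σ - 1)) (σ c) = c := by
    rw [← Equiv.Perm.mul_apply, ← pow_succ, Nat.sub_add_cancel (orderOf_pos σ), pow_orderOf_eq_one]
    rfl
  rw [← h1]
  exact hn _ _ hc

theorem conn_of_acyc {σ : Bool → Equiv.Perm E} {c0 : E} {b0 : Bool} {x : E → Bool}
    [DecidableEq E] (hx : Acyc (sx σ c0 b0) x) (T : Set E) (hT : T.Nonempty)
    (hc : ∀ c ∈ T, ∀ b, σ b c ∈ T) : T = Set.univ := by
  obtain ⟨r, hr⟩ := hx
  have key : ∀ U : Set E, (∀ c ∈ U, ∀ b, σ b c ∈ U) → U.Nonempty → c0 ∈ U := by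
    intro U hU ⟨v, hv⟩
    induction hn : r v using Nat.strong_induction_on generalizing v with
    | _ n ih =>
      by_cases h : v = c0 ∧ x v = b0
      · rw [← h.1]; exact hv
      · have h1 : sx σ c0 b0 v (x v) = some (σ (x v) v) := by
          unfold sx; rw [if_neg h]
        exact ih _ (hn ▸ hr v _ h1) _ (hU v hv _) rfl
  by_contra hne
  have h1 : (Tᶜ).Nonempty := by
    rw [Set.nonempty_compl]; exact hne
  have h2 : ∀ c ∈ Tᶜ, ∀ b, σ b c ∈ Tᶜ := by
    intro c hcT b hb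
    exact hcT (closed_inv (fun d hd => hc d hd b) c hb)
  exact (key _ h2 h1) (key _ hc hT)

end PoolLib.MP_3cd99b_gt.Oct
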