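import Pool.Agent.Lib.MP_3cd99b_gt.D0

/-!
The Links-Gould invariant of links presented by (1,1)-tangle diagrams: the state sum of the
De Wit-Kauffman-Links R-matrix (t0 = α^2, t1 = β^2, basis vector 3 rescaled so that no square root of
(t0-1)(1-t1) is needed).
-/

open Finset

namespace LG3

/-- The directions after a diagram. -/
def dirs : List Piece → List Bool → Option (List Bool)
  | [], l => some l
  | p :: w, l => (p.dir l).bind (dirs w)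

variable {K : Type*} [Field K]

/-- the R-matrix -/
def Rp (α β : K) : Fin 4 → Fin 4 → Fin 4 → Fin 4 → K
  | 0, 0, 0, 0 => α ^ 2
  | 0, 1, 1, 0 => α
  | 0, 2, 2, 0 => α
  | 0, 3, 3, 0 => 1
  | 1, 0, 0, 1 => α
  | 1, 0, 1, 0 => α ^ 2 - 1
  | 1, 1, 1, 1 => -1
  | 1, 2, 1, 2 => α ^ 2 * β ^ 2 - 1
  | 1, 2, 2, 1 => -(α * β)
  | 1, 2, 3, 0 => α * β * (α ^ 2 - 1) * (β ^ 2 - 1)
  | 1, 3, 3, 1 => β
  | 2, 0, 0, 2 => α
  | 2, 0, 2, 0 => α ^ 2 - 1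
  | 2, 1, 1, 2 => -(α * β)
  | 2, 1, 3, 0 => (α ^ 2 - 1) * (1 - β ^ 2)
  | 2, 2, 2, 2 => -1
  | 2, 3, 3, 2 => β
  | 3, 0, 0, 3 => 1
  | 3, 0, 1, 2 => -(α * β)
  | 3, 0, 2, 1 => 1
  | 3, 0, 3, 0 => (α ^ 2 - 1) * (1 - β ^ 2)
  | 3, 1, 1, 3 => β
  | 3, 1, 3, 1 => β ^ 2 - 1
  | 3, 2, 2, 3 => β
  | 3, 2, 3, 2 => β ^ 2 - 1
  | 3, 3, 3, 3 => β ^ 2
  | _, _, _, _ => 0

/-- the inverse of the R-matrix -/
def Rm (α β : K) : Fin 4 → Fin 4 → Fin 4 → Fin 4 → K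
  | 0, 0, 0, 0 => (α ^ 2)⁻¹
  | 0, 1, 0, 1 => (α ^ 2)⁻¹ - 1
  | 0, 1, 1, 0 => α⁻¹
  | 0, 2, 0, 2 => (α ^ 2)⁻¹ - 1
  | 0, 2, 2, 0 => α⁻¹
  | 0, 3, 0, 3 => ((α ^ 2)⁻¹ - 1) * (1 - (β ^ 2)⁻¹)
  | 0, 3, 1, 2 => (α * β)⁻¹
  | 0, 3, 2, 1 => -(α ^ 2 * β ^ 2)⁻¹
  | 0, 3, 3, 0 => 1
  | 1, 0, 0, 1 => α⁻¹
  | 1, 1, 1, 1 => -1
  | 1, 2, 0, 3 => -(α * β)⁻¹ * (α ^ 2 - 1) * (β ^ 2 - 1)
  | 1, 2, 2, 1 => -(α * β)⁻¹
  | 1, 3, 1, 3 => (β ^ 2)⁻¹ - 1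
  | 1, 3, 3, 1 => β⁻¹
  | 2, 0, 0, 2 => α⁻¹
  | 2, 1, 0, 3 => ((α ^ 2)⁻¹ - 1) * ((β ^ 2)⁻¹ - 1)
  | 2, 1, 1, 2 => -(α * β)⁻¹
  | 2, 1, 2, 1 => (α ^ 2 * β ^ 2)⁻¹ - 1
  | 2, 2, 2, 2 => -1
  | 2, 3, 2, 3 => (β ^ 2)⁻¹ - 1
  | 2, 3, 3, 2 => β⁻¹
  | 3, 0, 0, 3 => 1
  | 3, 1, 1, 3 => β⁻¹
  | 3, 2, 2, 3 => β⁻¹
  | 3, 3, 3, 3 => (β ^ 2)⁻¹
  | _, _, _, _ => 0

/-- the R-matrix of a crossing of sign s: Rs s i j a b is the coefficient of (a, b) in the image of (i, j) -/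
def Rs (α β : K) (s : Bool) : Fin 4 → Fin 4 → Fin 4 → Fin 4 → K := if s then Rp α β else Rm α β

/-- the weight of a turn -/
def mu (α β : K) : Fin 4 → K
  | 0 => (α ^ 2)⁻¹
  | 1 => -β ^ 2
  | 2 => -(α ^ 2)⁻¹
  | 3 => β ^ 2

/-- The state sum of a diagram, between the states s (left) and t (right). -/
def amp (α β : K) : List Piece → List (Fin 4) → List (Fin 4) → K
  | [], s, t => if s = t then 1 else 0
  | .cup k f :: w, s, t =>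
      ∑ i, (if f then 1 else (mu α β i)⁻¹) * amp α β w (s.take k ++ i :: i :: s.drop k) t
  | .cap k f :: w, s, t =>
      match s.drop k with
      | i :: j :: r => if i = j then (if f then mu α β i else 1) * amp α β w (s.take k ++ r) t else 0
      | _ => 0
  | .cross k p :: w, s, t =>
      match s.drop k with
      | i :: j :: r => ∑ a, ∑ b, Rs α β p i j a b * amp α β w (s.take k ++ a :: b :: r) t
      | _ => 0

/-- 2 n + 1 half twists of two antiparallel strands -/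
def twists (s : Bool) (k : ℕ) : ℕ → List Piece
  | 0 => twistA s k
  | n + 1 => twistA s k ++ (twistB s k ++ twists s k n)

/-- a vertical column of 2 n + 1 crossings (c = (n, sign)), seen from the side: it joins the forward
strands 0 and 1 to the forward strands 0 and 1 -/
def column (c : ℕ × Bool) : List Piece := .cup 2 false :: (twists c.2 1 c.1 ++ [.cap 0 true])

/-- the pretzel diagram with columns of 2 n + 1 crossings, (n, sign) in cs, cut open at one point -/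
def pretzel (cs : List (ℕ × Bool)) : List Piece := .cup 1 true :: (cs.flatMap column ++ [.cap 1 true])

/-- P is the Links-Gould polynomial of the closure of the (1,1)-tangle diagram w -/
def IsLGold (w : List Piece) (P : ℤ × ℤ →₀ ℤ) : Prop :=
  dirs w [true] = some [true] ∧
    ∀ α β : ℂ, α ≠ 0 → β ≠ 0 → ∀ i j : Fin 4,
      amp α β w [i] [j] = if i = j then evalAt P (α ^ 2) (β ^ 2) else 0

end LG3
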