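import Mathlib

/-!
The Links-Gould invariant of links presented by (1,1)-tangle diagrams: the state sum of the
De Wit-Kauffman-Links R-matrix (t0 = α^2, t1 = β^2, basis vector 3 rescaled so that no square root of
(t0-1)(1-t1) is needed).
-/

open Finset

namespace LG3

/-- Elementary pieces of an oriented tangle diagram, read from left to right; the strands present at a
given moment are numbered 0, 1, 2, ...
cup k f: a turn that creates the strands k and k+1; strand k runs forward iff f, strand k+1 the other way.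
cap k f: a turn that joins the strands k and k+1; strand k runs forward iff f, strand k+1 the other way.
cross k s: a crossing of the strands k and k+1, both running forward, positive iff s. -/
inductive Piece
  | cup (k : ℕ) (f : Bool)
  | cap (k : ℕ) (f : Bool)
  | cross (k : ℕ) (s : Bool)

/-- The list of directions (true = forward) after a piece, none if the piece does not fit. -/
def Piece.dir : Piece → List Bool → Option (List Bool)
  | .cup k f, l => if k ≤ l.length then some (l.take k ++ f :: (!f) :: l.drop k) else none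
  | .cap k f, l => if l.drop k = f :: (!f) :: l.drop (k + 2) then some (l.take k ++ l.drop (k + 2)) else none
  | .cross k _, l => if l.drop k = true :: true :: l.drop (k + 2) then some l else none

/-- w is an oriented (1,1)-tangle diagram, from one forward strand to one forward strand -/
def IsTangle (w : List Piece) : Prop := w.foldl (fun o p => o.bind p.dir) (some [true]) = some [true]

variable {K : Type*} [Field K]

/-- the nonzero entries of the R-matrix: ((i, j), (a, b)), coefficient -/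
def tabP (α β : K) : List ((Fin 4 × Fin 4 × Fin 4 × Fin 4) × K) :=
  [((0, 0, 0, 0), α ^ 2), ((0, 1, 1, 0), α), ((0, 2, 2, 0), α), ((0, 3, 3, 0), 1),
    ((1, 0, 0, 1), α), ((1, 0, 1, 0), α ^ 2 - 1), ((1, 1, 1, 1), -1),
    ((1, 2, 1, 2), α ^ 2 * β ^ 2 - 1), ((1, 2, 2, 1), -(α * β)),
    ((1, 2, 3, 0), α * β * (α ^ 2 - 1) * (β ^ 2 - 1)), ((1, 3, 3, 1), β),
    ((2, 0, 0, 2), α), ((2, 0, 2, 0), α ^ 2 - 1), ((2, 1, 1, 2), -(α * β)),
    ((2, 1, 3, 0), (α ^ 2 - 1) * (1 - β ^ 2)), ((2, 2, 2, 2), -1), ((2, 3, 3, 2), β),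
    ((3, 0, 0, 3), 1), ((3, 0, 1, 2), -(α * β)), ((3, 0, 2, 1), 1),
    ((3, 0, 3, 0), (α ^ 2 - 1) * (1 - β ^ 2)), ((3, 1, 1, 3), β), ((3, 1, 3, 1), β ^ 2 - 1),
    ((3, 2, 2, 3), β), ((3, 2, 3, 2), β ^ 2 - 1), ((3, 3, 3, 3), β ^ 2)]

/-- the nonzero entries of the inverse R-matrix -/
def tabM (α β : K) : List ((Fin 4 × Fin 4 × Fin 4 × Fin 4) × K) :=
  [((0, 0, 0, 0), (α ^ 2)⁻¹), ((0, 1, 0, 1), (α ^ 2)⁻¹ - 1), ((0, 1, 1, 0), α⁻¹),
    ((0, 2, 0, 2), (α ^ 2)⁻¹ - 1), ((0, 2, 2, 0), α⁻¹),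
    ((0, 3, 0, 3), ((α ^ 2)⁻¹ - 1) * (1 - (β ^ 2)⁻¹)), ((0, 3, 1, 2), (α * β)⁻¹),
    ((0, 3, 2, 1), -(α ^ 2 * β ^ 2)⁻¹), ((0, 3, 3, 0), 1), ((1, 0, 0, 1), α⁻¹),
    ((1, 1, 1, 1), -1), ((1, 2, 0, 3), -(α * β)⁻¹ * (α ^ 2 - 1) * (β ^ 2 - 1)),
    ((1, 2, 2, 1), -(α * β)⁻¹), ((1, 3, 1, 3), (β ^ 2)⁻¹ - 1), ((1, 3, 3, 1), β⁻¹),
    ((2, 0, 0, 2), α⁻¹), ((2, 1, 0, 3), ((α ^ 2)⁻¹ - 1) * ((β ^ 2)⁻¹ - 1)),
    ((2, 1, 1, 2), -(α * β)⁻¹), ((2, 1, 2, 1), (α ^ 2 * β ^ 2)⁻¹ - 1), ((2, 2, 2, 2), -1),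
    ((2, 3, 2, 3), (β ^ 2)⁻¹ - 1), ((2, 3, 3, 2), β⁻¹), ((3, 0, 0, 3), 1), ((3, 1, 1, 3), β⁻¹),
    ((3, 2, 2, 3), β⁻¹), ((3, 3, 3, 3), (β ^ 2)⁻¹)]

/-- the R-matrix of a crossing of sign s: the coefficient of (a, b) in the image of (i, j) -/
def RM (α β : K) (s : Bool) (i j a b : Fin 4) : K :=
  (((if s then tabP α β else tabM α β).filter fun e => e.1 = (i, j, a, b)).map Prod.snd).sum

/-- the weight of a turn -/
def wt (α β : K) : Fin 4 → K := ![(α ^ 2)⁻¹, -β ^ 2, -(α ^ 2)⁻¹, β ^ 2]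

/-- One piece of the state sum: v is the state sum of the rest of the diagram. -/
def step (α β : K) (p : Piece) (v : List (Fin 4) → K) (s : List (Fin 4)) : K :=
  match p with
  | .cup k f => ∑ i, (if f then 1 else (wt α β i)⁻¹) * v (s.take k ++ i :: i :: s.drop k)
  | .cap k f => ∑ i, if s.drop k = i :: i :: s.drop (k + 2) then
      (if f then wt α β i else 1) * v (s.take k ++ s.drop (k + 2)) else 0
  | .cross k e => ∑ i, ∑ j, if s.drop k = i :: j :: s.drop (k + 2) then
      ∑ a, ∑ b, RM α β e i j a b * v (s.take k ++ a :: b :: s.drop (k + 2)) else 0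

/-- The state sum of a diagram, between the states s (left) and t (right). -/
def stateSum (α β : K) (w : List Piece) (s t : List (Fin 4)) : K :=
  w.foldr (step α β) (fun r => if r = t then 1 else 0) s

/-- a half twist of the strands k (forward) and k+1 (backward): a crossing rotated by a quarter turn -/
def twistA (s : Bool) (k : ℕ) : List Piece := [.cup k false, .cross (k + 1) s, .cap (k + 2) true]

/-- a half twist of the strands k (backward) and k+1 (forward) -/
def twistB (s : Bool) (k : ℕ) : List Piece := [.cup (k + 2) true, .cross (k + 1) s, .cap k false]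

/-- a vertical column of 2 n + 1 crossings of the same sign with antiparallel strands (c = (n, sign)), seen
from the side: it joins the forward strands 0 and 1 to the forward strands 0 and 1 -/
def columnDiagram (c : ℕ × Bool) : List Piece :=
  .cup 2 false :: twistA c.2 1 ++ (List.replicate c.1 (twistB c.2 1 ++ twistA c.2 1)).flatten ++ [.cap 0 true]

/-- the pretzel diagram with columns of 2 n + 1 crossings, (n, sign) in cs, cut open at one point -/
def pretzelDiagram (cs : List (ℕ × Bool)) : List Piece :=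
  .cup 1 true :: cs.flatMap columnDiagram ++ [.cap 1 true]

/-- the value at (t0, t1) of the Laurent polynomial with coefficients P -/
noncomputable def evalAt (P : ℤ × ℤ →₀ ℤ) (t0 t1 : ℂ) : ℂ :=
  P.sum fun z c => (c : ℂ) * (t0 ^ z.1 * t1 ^ z.2)

/-- P is the Links-Gould polynomial of the closure of the (1,1)-tangle diagram w -/
def IsLinksGould (w : List Piece) (P : ℤ × ℤ →₀ ℤ) : Prop :=
  IsTangle w ∧ ∀ α β : ℂ, α ≠ 0 → β ≠ 0 → ∀ i j : Fin 4,
    stateSum α β w [i] [j] = if i = j then evalAt P (α ^ 2) (β ^ 2) else 0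

/-- S contains every lattice point of its convex hull -/
def NoInteriorZeros (S : Set (ℤ × ℤ)) : Prop :=
  ∀ z : ℤ × ℤ, ((z.1 : ℝ), (z.2 : ℝ)) ∈
    convexHull ℝ ((fun w : ℤ × ℤ => ((w.1 : ℝ), (w.2 : ℝ))) '' S) → z ∈ S

/-- two-dimensional unimodality of the array of absolute values -/
def Unimodal (P : ℤ × ℤ →₀ ℤ) : Prop :=
  ∀ c : ℝ, 0 ≤ c → NoInteriorZeros {z | P z ≠ 0 ∧ c ≤ |(P z : ℝ)|}

end LG3
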