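import Pool.Agent.Lib.MP_3cd99b_gt.L2

/-!
The digraph of the chosen arcs of a diagram: labels without a cycle = acyclic parent function on the crossings.

The crossings of a word are numbered from its end. The tail of an arc is a crossing (inl) or a token (inr): a token
stands for a point of the left end of the diagram where an arc enters. The tail list has one entry for each point, in
parallel with the label list.
-/

namespace LG3P
open LG3

/-- tails of arcs: crossings and tokens -/
abbrev Tk := ℕ ⊕ ℕ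

/-- substitution of one tail -/
def sb1 (a b z : Tk) : Tk := if z = a then b else z

/-- number of crossings -/
def nx : List Piece → ℕ
  | [] => 0
  | .cross _ _ :: w => nx w + 1
  | .cup _ _ :: w => nx w
  | .cap _ _ :: w => nx w

/-- the tails of the incoming arcs of the crossings (true = from the left) and the tails at the points -/
structure Sys where
  /-- tails of the incoming arcs -/
  s : ℕ → Bool → Tk
  /-- tails at the points -/
  T : List Tk

/-- the tails before a piece, from the tails after it. N = number of the crossing, m = new token -/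
def sysStep (q : Bool) (p : Piece) (N m : ℕ) (D : Sys) : Option Sys :=
  match p, D.T.drop (pos p + 1) with
  | .cross k _, u :: v :: R =>
    if parq q k then
      some ⟨fun c b => if c = N then (if b then .inr m else sb1 u (.inl N) v) else sb1 u (.inl N) (D.s c b),
        (D.T.take (k + 1)).map (sb1 u (.inl N)) ++ .inr m :: .inl N :: R.map (sb1 u (.inl N))⟩
    else
      some ⟨fun c b => if c = N then (if b then .inr m else sb1 v (.inl N) u) else sb1 v (.inl N) (D.s c b),
        (D.T.take (k + 1)).map (sb1 v (.inl N)) ++ .inl N :: .inr m :: R.map (sb1 v (.inl N))⟩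
  | .cup k _, u :: v :: R =>
    if u = v then none else
      if parq q k then
        some ⟨fun c b => sb1 u v (D.s c b), (D.T.take (k + 1)).map (sb1 u v) ++ R.map (sb1 u v)⟩
      else
        some ⟨fun c b => sb1 v u (D.s c b), (D.T.take (k + 1)).map (sb1 v u) ++ R.map (sb1 v u)⟩
  | .cap k _, R => some ⟨D.s, D.T.take (k + 1) ++ .inr m :: .inr m :: R⟩
  | _, _ => none

/-- the tails of a diagram, none if there is a closed circle without crossings -/
def sys (q : Bool) : List Piece → Option Sys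
  | [] => some ⟨fun _ _ => .inr 0, [.inr 0, .inr 0, .inr 0]⟩
  | p :: w => (sys q w).bind (sysStep q p (nx w) (w.length + 1))

/-- a list of choices (in the order of the word) as a function of the number of the crossing (from the end) -/
def fnx : List Bool → ℕ → Bool
  | [], _ => false
  | b :: l, c => if c = l.length then b else fnx l c

/-- every second entry -/
def srT : Bool → List Tk → List Tk
  | _, [] => []
  | true, a :: l => a :: srT false l
  | false, _ :: l => srT true l

theorem srT_map (g : Tk → ℕ) : ∀ (l : List Tk) (b : Bool), srcs b (l.map g) = (srT b l).map g := by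
  intro l
  induction l with
  | nil => intro b; cases b <;> rfl
  | cons a l ih =>
    intro b
    cases b
    · exact ih true
    · show g a :: srcs false (l.map g) = g a :: (srT false l).map g
      rw [ih false]

theorem srT_mapT (g : Tk → Tk) : ∀ (l : List Tk) (b : Bool), srT b (l.map g) = (srT b l).map g := by
  intro l
  induction l with
  | nil => intro b; cases b <;> rfl
  | cons a l ih =>
    intro b
    cases b
    · exact ih true
    · show g a :: srT false (l.map g) = g a :: (srT false l).map g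
      rw [ih false]

theorem srT_append : ∀ (A B : List Tk) (b : Bool),
    srT b (A ++ B) = srT b A ++ srT (b ^^ decide (A.length % 2 = 1)) B := by
  intro A
  induction A with
  | nil => intro B b; cases b <;> rfl
  | cons a A ih =>
    intro B b
    have e : decide ((a :: A).length % 2 = 1) = !decide (A.length % 2 = 1) := by
      rw [← decide_not]
      apply decide_eq_decide.mpr
      simp only [List.length_cons]
      omega
    cases b
    · show srT true (A ++ B) = srT true A ++ _
      rw [ih B true, e]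
      simp
    · show a :: srT false (A ++ B) = a :: srT false A ++ _
      rw [ih B false, e]
      simp

theorem par_eq (q : Bool) (k : ℕ) : parq q k = (!q ^^ decide (k % 2 = 1)) := by
  unfold parq
  have : decide (k % 2 = 0) = !decide (k % 2 = 1) := by
    rw [← decide_not]
    apply decide_eq_decide.mpr
    omega
  rw [this]
  cases q <;> cases decide (k % 2 = 1) <;> rfl

theorem srT_subset : ∀ (l : List Tk) (b : Bool), ∀ z ∈ srT b l, z ∈ l := by
  intro l
  induction l with
  | nil => intro b z hz; cases b <;> simp [srT] at hz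
  | cons a l ih =>
    intro b z hz
    cases b
    · exact List.mem_cons_of_mem _ (ih true z hz)
    · rcases List.mem_cons.mp hz with rfl | hz
      · exact List.mem_cons_self
      · exact List.mem_cons_of_mem _ (ih false z hz)

/-- crossings below N, tokens below m -/
def goodT (N m : ℕ) : Tk → Prop
  | .inl c => c < N
  | .inr t => t < m

/-- structure of the tails -/
structure SI (q : Bool) (D : Sys) (N m : ℕ) : Prop where
  /-- not empty -/
  ne : D.T ≠ []
  /-- tails at points -/
  kT : ∀ z ∈ D.T, goodT N m z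
  /-- tails at crossings -/
  kS : ∀ c < N, ∀ b, goodT N m (D.s c b)
  /-- tokens at points are sources -/
  aT : ∀ t, Sum.inr t ∈ D.T → Sum.inr t ∈ srT (!q) D.T.tail
  /-- tokens at crossings are sources -/
  aS : ∀ c < N, ∀ b t, D.s c b = Sum.inr t → Sum.inr t ∈ srT (!q) D.T.tail
  /-- the sources are different -/
  aN : (srT (!q) D.T.tail).Nodup
  /-- the sources are tokens -/
  aK : ∀ z ∈ srT (!q) D.T.tail, ∃ t, z = Sum.inr t

theorem goodT_mono {N m N' m' : ℕ} (hN : N ≤ N') (hm : m ≤ m') : ∀ z, goodT N m z → goodT N' m' z := by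
  intro z hz
  cases z with
  | inl c => exact lt_of_lt_of_le hz hN
  | inr t => exact lt_of_lt_of_le hz hm

theorem sb1_cases (a b z : Tk) : (z = a ∧ sb1 a b z = b) ∨ (z ≠ a ∧ sb1 a b z = z) := by
  unfold sb1
  split_ifs with h
  · exact Or.inl ⟨h, rfl⟩
  · exact Or.inr ⟨h, rfl⟩

theorem map_sb1 (a b : Tk) (X : List Tk) (h : a ∉ X) : X.map (sb1 a b) = X := by
  have : ∀ z ∈ X, sb1 a b z = id z := by
    intro z hz
    rcases sb1_cases a b z with ⟨h1, _⟩ | ⟨_, h1⟩
    · subst h1; exact absurd hz h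
    · exact h1
  rw [List.map_congr_left this, List.map_id]

theorem nodup_mid {α : Type*} {X Y : List α} {a : α} (h : (X ++ a :: Y).Nodup) : (X ++ Y).Nodup ∧ a ∉ X ∧ a ∉ Y := by
  rw [List.nodup_middle, List.nodup_cons, List.mem_append, not_or] at h
  exact ⟨h.2, h.1⟩

theorem mid_nodup {α : Type*} {X Y : List α} {a : α} (h : (X ++ Y).Nodup) (hX : a ∉ X) (hY : a ∉ Y) :
    (X ++ a :: Y).Nodup := by
  rw [List.nodup_middle, List.nodup_cons, List.mem_append, not_or]
  exact ⟨⟨hX, hY⟩, h⟩

/-- the structure of a crossing step -/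
theorem SI.cross {q : Bool} {D : Sys} {N m : ℕ} (h : SI q D N m) {h0 : Tk} {A R : List Tk} {a t : Tk} {y y' : Tk}
    (b0 : Bool) (B B' : List Tk)
    (hT : D.T = h0 :: (A ++ B))
    (hb0 : b0 = (!q ^^ decide (A.length % 2 = 1)))
    (hB : (b0 = true ∧ B = a :: t :: R ∧ y = .inr m ∧ y' = .inl N) ∨
      (b0 = false ∧ B = t :: a :: R ∧ y = .inl N ∧ y' = .inr m))
    (hB' : B' = y :: y' :: R.map (sb1 a (.inl N))) :
    SI q ⟨fun c b => if c = N then (if b then .inr m else sb1 a (.inl N) t) else sb1 a (.inl N) (D.s c b),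
      sb1 a (.inl N) h0 :: (A.map (sb1 a (.inl N)) ++ B')⟩ (N + 1) (m + 1) := by
  set f := sb1 a (.inl N) with hf
  have hok : ∀ z, goodT N m z → goodT (N + 1) (m + 1) (f z) := by
    intro z hz
    rcases sb1_cases a (.inl N) z with ⟨_, h1⟩ | ⟨_, h1⟩
    · rw [hf, h1]; exact Nat.lt_succ_self N
    · rw [hf, h1]; exact goodT_mono (Nat.le_succ N) (Nat.le_succ m) z hz
  have hsrc : srT (!q) D.T.tail = srT (!q) A ++ a :: srT b0 R := by
    rw [hT]
    show srT (!q) (A ++ B) = _
    rw [srT_append, ← hb0]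
    rcases hB with ⟨e, rfl, _, _⟩ | ⟨e, rfl, _, _⟩ <;> rw [e] <;> rfl
  have hsrc' : srT (!q) (A.map f ++ B') = (srT (!q) A).map f ++ .inr m :: (srT b0 R).map f := by
    rw [srT_append, List.length_map, ← hb0, srT_mapT]
    congr 1
    rcases hB with ⟨e, _, rfl, rfl⟩ | ⟨e, _, rfl, rfl⟩ <;> rw [e, hB', ← srT_mapT] <;> rfl
  -- tokens that are alive
  have hal : ∀ z, (∀ t, z = .inr t → z ∈ srT (!q) D.T.tail) → ∀ t', f z = .inr t' →
      f z ∈ srT (!q) (A.map f ++ B') := by
    intro z hz t' ht'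
    rcases sb1_cases a (.inl N) z with ⟨_, h1⟩ | ⟨h2, h1⟩
    · rw [hf, h1] at ht'; simp at ht'
    · rw [← hf] at h1
      have h3 := hz t' (h1 ▸ ht')
      rw [hsrc, List.mem_append, List.mem_cons] at h3
      rw [hsrc', List.mem_append, List.mem_cons]
      rcases h3 with h3 | h3 | h3
      · exact Or.inl (List.mem_map_of_mem h3)
      · exact absurd h3 h2
      · exact Or.inr (Or.inr (List.mem_map_of_mem h3))
  have hzT : ∀ z ∈ D.T, ∀ t, z = .inr t → z ∈ srT (!q) D.T.tail := by
    intro z hz t ht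
    subst ht
    exact h.aT t hz
  have hzS : ∀ c < N, ∀ b, ∀ t, D.s c b = .inr t → D.s c b ∈ srT (!q) D.T.tail := by
    intro c hc b t ht
    rw [ht]
    exact h.aS c hc b t ht
  have hht : t ∈ D.T := by
    rw [hT]
    rcases hB with ⟨_, rfl, _, _⟩ | ⟨_, rfl, _, _⟩ <;> simp
  have hnd := h.aN
  rw [hsrc] at hnd
  obtain ⟨hnd1, hnd2, hnd3⟩ := nodup_mid hnd
  have hsrc'' : srT (!q) (A.map f ++ B') = srT (!q) A ++ .inr m :: srT b0 R := by
    rw [hsrc', hf, map_sb1 _ _ _ hnd2, map_sb1 _ _ _ hnd3]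
  have hsm : ∀ z ∈ srT (!q) D.T.tail, z ≠ .inr m := by
    intro z hz
    rintro rfl
    have : Sum.inr m ∈ D.T := List.mem_of_mem_tail (srT_subset _ _ _ hz)
    exact lt_irrefl m (h.kT _ this)
  refine ⟨by simp, ?_, ?_, ?_, ?_, ?_, ?_⟩
  · intro z hz
    have hz' : z = .inr m ∨ z = .inl N ∨ ∃ y ∈ D.T, f y = z := by
      simp only [List.mem_cons, List.mem_append, List.mem_map] at hz
      rw [hT]
      rcases hz with rfl | ⟨y, hy, rfl⟩ | hz
      · exact Or.inr (Or.inr ⟨h0, by simp, rfl⟩)
      · exact Or.inr (Or.inr ⟨y, by simp [hy], rfl⟩)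
      · rw [hB'] at hz
        simp only [List.mem_cons, List.mem_map] at hz
        rcases hB with ⟨_, rfl, rfl, rfl⟩ | ⟨_, rfl, rfl, rfl⟩
        · rcases hz with rfl | rfl | ⟨y, hy, rfl⟩
          · exact Or.inl rfl
          · exact Or.inr (Or.inl rfl)
          · exact Or.inr (Or.inr ⟨y, by simp [hy], rfl⟩)
        · rcases hz with rfl | rfl | ⟨y, hy, rfl⟩
          · exact Or.inr (Or.inl rfl)
          · exact Or.inl rfl
          · exact Or.inr (Or.inr ⟨y, by simp [hy], rfl⟩)
    rcases hz' with rfl | rfl | ⟨y, hy, rfl⟩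
    · exact Nat.lt_succ_self m
    · exact Nat.lt_succ_self N
    · exact hok y (h.kT y hy)
  · intro c hc b
    show goodT (N + 1) (m + 1) (if c = N then (if b then .inr m else f t) else f (D.s c b))
    by_cases hcN : c = N
    · rw [if_pos hcN]
      cases b
      · exact hok t (h.kT t hht)
      · exact Nat.lt_succ_self m
    · rw [if_neg hcN]
      exact hok _ (h.kS c (by omega) b)
  · intro t' ht'
    show _ ∈ srT (!q) (A.map f ++ B')
    have hz' : (Sum.inr t' : Tk) = .inr m ∨ ∃ y ∈ D.T, f y = .inr t' := by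
      simp only [List.mem_cons, List.mem_append, List.mem_map] at ht'
      rw [hT]
      rcases ht' with hz | ⟨y, hy, hz⟩ | hz
      · exact Or.inr ⟨h0, by simp, hz.symm⟩
      · exact Or.inr ⟨y, by simp [hy], hz⟩
      · rw [hB'] at hz
        simp only [List.mem_cons, List.mem_map] at hz
        rcases hB with ⟨_, rfl, rfl, rfl⟩ | ⟨_, rfl, rfl, rfl⟩
        · rcases hz with hz | hz | ⟨y, hy, hz⟩
          · exact Or.inl hz
          · simp at hz
          · exact Or.inr ⟨y, by simp [hy], hz⟩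
        · rcases hz with hz | hz | ⟨y, hy, hz⟩
          · simp at hz
          · exact Or.inl hz
          · exact Or.inr ⟨y, by simp [hy], hz⟩
    rcases hz' with hz | ⟨y, hy, hz⟩
    · rw [hz, hsrc']; simp
    · rw [← hz]
      exact hal y (hzT y hy) t' hz
  · intro c hc b t' ht'
    show _ ∈ srT (!q) (A.map f ++ B')
    change (if c = N then (if b then .inr m else f t) else f (D.s c b)) = Sum.inr t' at ht'
    by_cases hcN : c = N
    · rw [if_pos hcN] at ht'
      cases b
      · rw [if_neg (by simp)] at ht'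
        rw [← ht']
        exact hal t (hzT t hht) t' ht'
      · rw [if_pos rfl] at ht'
        rw [← ht', hsrc']; simp
    · rw [if_neg hcN] at ht'
      rw [← ht']
      exact hal _ (hzS c (by omega) b) t' ht'
  · show (srT (!q) (A.map f ++ B')).Nodup
    rw [hsrc'']
    apply mid_nodup hnd1
    · intro hz
      exact hsm (.inr m) (by rw [hsrc]; simp [hz]) rfl
    · intro hz
      exact hsm (.inr m) (by rw [hsrc]; simp [hz]) rfl
  · show ∀ z ∈ srT (!q) (A.map f ++ B'), _
    intro z hz
    rw [hsrc'', List.mem_append, List.mem_cons] at hz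
    rcases hz with hz | hz | hz
    · exact h.aK z (by rw [hsrc]; simp [hz])
    · exact ⟨m, hz⟩
    · exact h.aK z (by rw [hsrc]; simp [hz])

/-- the structure of a cup step -/
theorem SI.cup {q : Bool} {D : Sys} {N m : ℕ} (h : SI q D N m) {h0 : Tk} {A R : List Tk} {a t : Tk}
    (b0 : Bool) (B : List Tk)
    (hT : D.T = h0 :: (A ++ B))
    (hb0 : b0 = (!q ^^ decide (A.length % 2 = 1)))
    (hB : (b0 = true ∧ B = a :: t :: R) ∨ (b0 = false ∧ B = t :: a :: R)) (hat : t ≠ a) :
    SI q ⟨fun c b => sb1 a t (D.s c b), sb1 a t h0 :: (A.map (sb1 a t) ++ R.map (sb1 a t))⟩ N (m + 1) := by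
  set f := sb1 a t with hf
  have hht : t ∈ D.T := by
    rw [hT]
    rcases hB with ⟨_, rfl⟩ | ⟨_, rfl⟩ <;> simp
  have hok : ∀ z, goodT N m z → goodT N (m + 1) (f z) := by
    intro z hz
    rcases sb1_cases a t z with ⟨_, h1⟩ | ⟨_, h1⟩
    · rw [hf, h1]; exact goodT_mono le_rfl (Nat.le_succ m) t (h.kT t hht)
    · rw [hf, h1]; exact goodT_mono le_rfl (Nat.le_succ m) z hz
  have hsrc : srT (!q) D.T.tail = srT (!q) A ++ a :: srT b0 R := by
    rw [hT]
    show srT (!q) (A ++ B) = _
    rw [srT_append, ← hb0]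
    rcases hB with ⟨e, rfl⟩ | ⟨e, rfl⟩ <;> rw [e] <;> rfl
  have hsrc' : srT (!q) (A.map f ++ R.map f) = (srT (!q) A).map f ++ (srT b0 R).map f := by
    rw [srT_append, List.length_map, ← hb0, srT_mapT, srT_mapT]
  have hal0 : ∀ z, z ∈ srT (!q) D.T.tail → z ≠ a → f z = z ∧ z ∈ srT (!q) (A.map f ++ R.map f) := by
    intro z h3 h2
    have h1 : f z = z := by
      rcases sb1_cases a t z with ⟨h4, _⟩ | ⟨_, h4⟩
      · exact absurd h4 h2
      · exact h4
    refine ⟨h1, ?_⟩
    rw [hsrc, List.mem_append, List.mem_cons] at h3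
    rw [hsrc', List.mem_append]
    rcases h3 with h3 | h3 | h3
    · exact Or.inl (h1 ▸ List.mem_map_of_mem h3)
    · exact absurd h3 h2
    · exact Or.inr (h1 ▸ List.mem_map_of_mem h3)
  have hal : ∀ z, (∀ t, z = .inr t → z ∈ srT (!q) D.T.tail) → ∀ t', f z = .inr t' →
      f z ∈ srT (!q) (A.map f ++ R.map f) := by
    intro z hz t' ht'
    rcases sb1_cases a t z with ⟨_, h1⟩ | ⟨h2, h1⟩
    · rw [← hf] at h1
      rw [h1] at ht' ⊢
      subst ht'
      exact (hal0 _ (h.aT t' hht) hat).2
    · rw [← hf] at h1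
      rw [h1] at ht' ⊢
      exact (hal0 z (hz t' ht') h2).2
  have hzT : ∀ z ∈ D.T, ∀ t, z = .inr t → z ∈ srT (!q) D.T.tail := by
    intro z hz t ht
    subst ht
    exact h.aT t hz
  have hzS : ∀ c < N, ∀ b, ∀ t, D.s c b = .inr t → D.s c b ∈ srT (!q) D.T.tail := by
    intro c hc b t ht
    rw [ht]
    exact h.aS c hc b t ht
  have hsub : ∀ z, z ∈ f h0 :: (A.map f ++ R.map f) → ∃ y ∈ D.T, f y = z := by
    intro z hz
    simp only [List.mem_cons, List.mem_append, List.mem_map] at hz
    rw [hT]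
    rcases hz with rfl | ⟨y, hy, rfl⟩ | ⟨y, hy, rfl⟩
    · exact ⟨h0, by simp, rfl⟩
    · exact ⟨y, by simp [hy], rfl⟩
    · refine ⟨y, ?_, rfl⟩
      rcases hB with ⟨_, rfl⟩ | ⟨_, rfl⟩ <;> simp [hy]
  have hnd := h.aN
  rw [hsrc] at hnd
  obtain ⟨hnd1, hnd2, hnd3⟩ := nodup_mid hnd
  have hsrc'' : srT (!q) (A.map f ++ R.map f) = srT (!q) A ++ srT b0 R := by
    rw [hsrc', hf, map_sb1 _ _ _ hnd2, map_sb1 _ _ _ hnd3]
  refine ⟨by simp, ?_, ?_, ?_, ?_, ?_, ?_⟩
  · intro z hz
    obtain ⟨y, hy, rfl⟩ := hsub z hz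
    exact hok y (h.kT y hy)
  · intro c hc b
    exact hok _ (h.kS c hc b)
  · intro t' ht'
    obtain ⟨y, hy, hz⟩ := hsub _ ht'
    show _ ∈ srT (!q) (A.map f ++ R.map f)
    rw [← hz]
    exact hal y (hzT y hy) t' hz
  · intro c hc b t' ht'
    show _ ∈ srT (!q) (A.map f ++ R.map f)
    change f (D.s c b) = Sum.inr t' at ht'
    rw [← ht']
    exact hal _ (hzS c hc b) t' ht'
  · show (srT (!q) (A.map f ++ R.map f)).Nodup
    rw [hsrc'']; exact hnd1
  · show ∀ z ∈ srT (!q) (A.map f ++ R.map f), _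
    intro z hz
    apply h.aK
    rw [hsrc'', List.mem_append] at hz
    rw [hsrc, List.mem_append, List.mem_cons]
    tauto

/-- the structure of a cap step -/
theorem SI.cap {q : Bool} {D : Sys} {N m : ℕ} (h : SI q D N m) {h0 : Tk} {A R : List Tk}
    (hT : D.T = h0 :: (A ++ R)) :
    SI q ⟨D.s, h0 :: (A ++ .inr m :: .inr m :: R)⟩ N (m + 1) := by
  set b0 : Bool := (!q ^^ decide (A.length % 2 = 1)) with hb0
  have hsrc : srT (!q) D.T.tail = srT (!q) A ++ srT b0 R := by
    rw [hT]
    show srT (!q) (A ++ R) = _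
    rw [srT_append]
  have hsrc' : srT (!q) (A ++ .inr m :: .inr m :: R) = srT (!q) A ++ .inr m :: srT b0 R := by
    rw [srT_append, ← hb0]
    cases b0 <;> rfl
  have hmem : ∀ z ∈ srT (!q) D.T.tail, z ∈ srT (!q) (A ++ .inr m :: .inr m :: R) := by
    intro z hz
    rw [hsrc, List.mem_append] at hz
    rw [hsrc', List.mem_append, List.mem_cons]
    tauto
  have hnd := h.aN
  rw [hsrc] at hnd
  have hsm : ∀ z ∈ srT (!q) D.T.tail, z ≠ .inr m := by
    intro z hz
    rintro rfl
    have : Sum.inr m ∈ D.T := List.mem_of_mem_tail (srT_subset _ _ _ hz)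
    exact lt_irrefl m (h.kT _ this)
  refine ⟨by simp, ?_, ?_, ?_, ?_, ?_, ?_⟩
  · intro z hz
    have hz' : z = .inr m ∨ z ∈ D.T := by
      rw [hT]
      simp only [List.mem_cons, List.mem_append] at hz ⊢
      tauto
    rcases hz' with rfl | hz'
    · exact Nat.lt_succ_self m
    · exact goodT_mono le_rfl (Nat.le_succ m) z (h.kT z hz')
  · intro c hc b
    exact goodT_mono le_rfl (Nat.le_succ m) _ (h.kS c hc b)
  · intro t' ht'
    show _ ∈ srT (!q) (A ++ .inr m :: .inr m :: R)
    have hz' : (Sum.inr t' : Tk) = .inr m ∨ (Sum.inr t' : Tk) ∈ D.T := by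
      rw [hT]
      simp only [List.mem_cons, List.mem_append] at ht' ⊢
      tauto
    rcases hz' with hz' | hz'
    · rw [hz', hsrc']; simp
    · exact hmem _ (h.aT t' hz')
  · intro c hc b t' ht'
    exact hmem _ (h.aS c hc b t' ht')
  · show (srT (!q) (A ++ .inr m :: .inr m :: R)).Nodup
    rw [hsrc']
    apply mid_nodup hnd
    · intro hz
      exact hsm (.inr m) (by rw [hsrc]; simp [hz]) rfl
    · intro hz
      exact hsm (.inr m) (by rw [hsrc]; simp [hz]) rfl
  · show ∀ z ∈ srT (!q) (A ++ .inr m :: .inr m :: R), _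
    intro z hz
    rw [hsrc', List.mem_append, List.mem_cons] at hz
    rcases hz with hz | hz | hz
    · exact h.aK z (by rw [hsrc]; simp [hz])
    · exact ⟨m, hz⟩
    · exact h.aK z (by rw [hsrc]; simp [hz])

/-- the labels of the sources are different -/
def LI (q : Bool) (L : List ℕ) : Prop := (srcs (!q) L.tail).Nodup

theorem le_foldr_max : ∀ (L : List ℕ), ∀ x ∈ L, x ≤ L.foldr max 0 := by
  intro L
  induction L with
  | nil => intro x hx; simp at hx
  | cons a L ih =>
    intro x hx
    rcases List.mem_cons.mp hx with rfl | hx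
    · exact le_max_left _ _
    · exact le_trans (ih x hx) (le_max_right _ _)

theorem lt_fresh (L : List ℕ) : ∀ x ∈ L, x < fresh L := fun x hx => Nat.lt_succ_of_le (le_foldr_max L x hx)

/-- compatible labels and ranks -/
def Pst (s : ℕ → Bool → Tk) (N : ℕ) (x : ℕ → Bool) (l r : Tk → ℕ) : Prop :=
  ∀ c < N, l (s c (x c)) = l (.inl c) ∧ r (s c (x c)) < r (.inl c)

theorem pst_crossT {s : ℕ → Bool → Tk} {N m : ℕ} {x x' : ℕ → Bool} {l r : Tk → ℕ} (h : Pst s N x l r)
    (hk : ∀ c < N, ∀ b, goodT N m (s c b)) (a t : Tk) (hx : ∀ c < N, x' c = x c) (hxN : x' N = true) :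
    ∃ l' r' : Tk → ℕ, Pst (fun c b => if c = N then (if b then .inr m else sb1 a (.inl N) t) else sb1 a (.inl N) (s c b))
        (N + 1) x' l' r' ∧ l' (.inl N) = l a ∧ l' (.inr m) = l a ∧ ∀ z, goodT N m z → l' (sb1 a (.inl N) z) = l z := by
  have e1 : ∀ z, goodT N m z → z ≠ .inl N ∧ z ≠ .inr m := by
    intro z hz
    constructor
    · rintro rfl; exact lt_irrefl N hz
    · rintro rfl; exact lt_irrefl m hz
  set l' : Tk → ℕ := fun z => if z = .inl N ∨ z = .inr m then l a else l z with hl'
  have hl : ∀ z, goodT N m z → l' (sb1 a (.inl N) z) = l z := by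
    intro z hz
    rcases sb1_cases a (.inl N) z with ⟨h1, h2⟩ | ⟨h1, h2⟩
    · rw [h2, h1]; simp [hl']
    · rw [h2]
      have := e1 z hz
      simp [hl', this.1, this.2]
  refine ⟨l', fun z => if z = .inl N then 1 else if z = .inr m then 0 else r z + 2, ?_, by simp [hl'], by simp [hl'], hl⟩
  intro c hc
  by_cases hcN : c = N
  · subst hcN
    simp [hxN, hl']
  · have hc' : c < N := by omega
    rw [hx c hc']
    simp only [hcN, if_false]
    have hcg : goodT N m (.inl c) := hc'
    have hg := hk c hc' (x c)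
    constructor
    · rw [hl _ hg, (h c hc').1]
      simp [hl', (e1 _ hcg).1]
    · have h3 := (h c hc').2
      rcases sb1_cases a (.inl N) (s c (x c)) with ⟨h1, h2⟩ | ⟨h1, h2⟩
      · rw [h2]; simp [hcN]
      · rw [h2]; simp [(e1 _ hg).1, (e1 _ hg).2, hcN, h3]

theorem pst_crossF {s : ℕ → Bool → Tk} {N m : ℕ} {x x' : ℕ → Bool} {l r : Tk → ℕ} (h : Pst s N x l r)
    (hk : ∀ c < N, ∀ b, goodT N m (s c b)) (a t : Tk) (ht : goodT N m t) (hx : ∀ c < N, x' c = x c)
    (hxN : x' N = false) (ρ : ℕ → ℕ) (F : ℕ) (hat : l a ≠ l t) (hρ : ρ (l a) = ρ (l t)) :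
    ∃ l' r' : Tk → ℕ, Pst (fun c b => if c = N then (if b then .inr m else sb1 a (.inl N) t) else sb1 a (.inl N) (s c b))
        (N + 1) x' l' r' ∧ l' (.inl N) = ρ (l t) ∧ l' (.inr m) = F ∧
      ∀ z, goodT N m z → l' (sb1 a (.inl N) z) = ρ (l z) := by
  have e1 : ∀ z, goodT N m z → z ≠ .inl N ∧ z ≠ .inr m := by
    intro z hz
    constructor
    · rintro rfl; exact lt_irrefl N hz
    · rintro rfl; exact lt_irrefl m hz
  set l' : Tk → ℕ := fun z => if z = .inl N then ρ (l t) else if z = .inr m then F else ρ (l z) with hl'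
  have hl : ∀ z, goodT N m z → l' (sb1 a (.inl N) z) = ρ (l z) := by
    intro z hz
    rcases sb1_cases a (.inl N) z with ⟨h1, h2⟩ | ⟨h1, h2⟩
    · rw [h2, h1]; simp [hl', hρ]
    · rw [h2]
      have := e1 z hz
      simp [hl', this.1, this.2]
  set r' : Tk → ℕ := fun z => if z = .inl N then r t + 1 else if z = .inr m then 0 else
    if l z = l a then r z + r t + 2 else r z with hr'
  have hr1 : ∀ z, goodT N m z → l z = l a → r' z = r z + r t + 2 := by
    intro z hz hz2
    have := e1 z hz
    simp [hr', this.1, this.2, hz2]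
  have hr2 : ∀ z, goodT N m z → l z ≠ l a → r' z = r z := by
    intro z hz hz2
    have := e1 z hz
    simp [hr', this.1, this.2, hz2]
  refine ⟨l', r', ?_, by simp [hl'], by simp [hl'], hl⟩
  intro c hc
  by_cases hcN : c = N
  · subst hcN
    simp only [hxN, if_true, Bool.false_eq_true, if_false]
    rw [hl t ht]
    have hta : t ≠ a := by rintro rfl; exact hat rfl
    rcases sb1_cases a (.inl c) t with ⟨h1, _⟩ | ⟨_, h2⟩
    · exact absurd h1 hta
    · rw [h2, hr2 t ht (Ne.symm hat)]
      simp [hl', hr']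
  · have hc' : c < N := by omega
    rw [hx c hc']
    simp only [hcN, if_false]
    have hcg : goodT N m (.inl c) := hc'
    have hg := hk c hc' (x c)
    obtain ⟨h3, h4⟩ := h c hc'
    constructor
    · rw [hl _ hg, h3]
      simp [hl', (e1 _ hcg).1]
    · rcases sb1_cases a (.inl N) (s c (x c)) with ⟨h1, h2⟩ | ⟨h1, h2⟩
      · rw [h2]
        have h5 : l (.inl c) = l a := by rw [← h3, h1]
        rw [hr1 _ hcg h5]
        simp [hr']
      · rw [h2]
        by_cases h5 : l (.inl c) = l a
        · rw [hr1 _ hcg h5, hr1 _ hg (by rw [h3, h5])]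
          omega
        · rw [hr2 _ hcg h5, hr2 _ hg (by rw [h3]; exact h5)]
          exact h4

theorem pst_cup {s : ℕ → Bool → Tk} {N : ℕ} {x : ℕ → Bool} {l r : Tk → ℕ} (h : Pst s N x l r)
    (a t : Tk) (ρ : ℕ → ℕ) (hat : l a ≠ l t) (hρ : ρ (l a) = ρ (l t)) :
    ∃ l' r' : Tk → ℕ, Pst (fun c b => sb1 a t (s c b)) N x l' r' ∧ ∀ z, l' (sb1 a t z) = ρ (l z) := by
  set l' : Tk → ℕ := fun z => ρ (l z) with hl'
  have hl : ∀ z, l' (sb1 a t z) = ρ (l z) := by
    intro z
    rcases sb1_cases a t z with ⟨h1, h2⟩ | ⟨h1, h2⟩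
    · rw [h2, h1]; exact hρ.symm
    · rw [h2]
  refine ⟨l', fun z => if l z = l a then r z + r t + 1 else r z, ?_, hl⟩
  intro c hc
  obtain ⟨h3, h4⟩ := h c hc
  constructor
  · show l' (sb1 a t (s c (x c))) = _
    rw [hl, h3]
  · show (if l (sb1 a t (s c (x c))) = l a then r (sb1 a t (s c (x c))) + r t + 1 else r (sb1 a t (s c (x c)))) <
      (if l (.inl c) = l a then r (.inl c) + r t + 1 else r (.inl c))
    rcases sb1_cases a t (s c (x c)) with ⟨h1, h2⟩ | ⟨h1, h2⟩
    · rw [h2, if_neg (Ne.symm hat)]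
      have h5 : l (.inl c) = l a := by rw [← h3, h1]
      rw [if_pos h5]
      omega
    · rw [h2, h3]
      split_ifs with h5
      · omega
      · exact h4

theorem pst_cap {s : ℕ → Bool → Tk} {N m : ℕ} {x : ℕ → Bool} {l r : Tk → ℕ} (h : Pst s N x l r)
    (hk : ∀ c < N, ∀ b, goodT N m (s c b)) (F : ℕ) :
    ∃ l' : Tk → ℕ, Pst s N x l' r ∧ l' (.inr m) = F ∧ ∀ z, goodT N m z → l' z = l z := by
  have e1 : ∀ z, goodT N m z → z ≠ .inr m := by
    intro z hz
    rintro rfl; exact lt_irrefl m hz
  refine ⟨fun z => if z = .inr m then F else l z, ?_, by simp, ?_⟩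
  · intro c hc
    obtain ⟨h3, h4⟩ := h c hc
    refine ⟨?_, h4⟩
    simp [e1 _ (hk c hc (x c)), h3]
  · intro z hz
    simp [e1 z hz]

/-- the way back, crossing: if the labels of the source a and of the tail t agree, there is a cycle -/
theorem bad_cross {s : ℕ → Bool → Tk} {N m : ℕ} {x x' : ℕ → Bool} {l r : Tk → ℕ} (h : Pst s N x l r)
    (hk : ∀ c < N, ∀ b, goodT N m (s c b)) (a t : Tk) (ht : goodT N m t) (hx : ∀ c < N, x' c = x c)
    (hxN : x' N = false) (hat : l a = l t)
    (hu : ∀ τ, (t = .inr τ ∨ ∃ c < N, ∃ b, s c b = .inr τ) → l (.inr τ) = l a → .inr τ = a)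
    (r' : Tk → ℕ)
    (hr' : ∀ c < N + 1, r' ((fun c b => if c = N then (if b then .inr m else sb1 a (.inl N) t)
      else sb1 a (.inl N) (s c b)) c (x' c)) < r' (.inl c)) : False := by
  have key : ∀ n z, r z ≤ n → goodT N m z → l z = l a → (∀ τ, z = .inr τ → (t = .inr τ ∨ ∃ c < N, ∃ b, s c b = .inr τ)) →
      r' (.inl N) ≤ r' (sb1 a (.inl N) z) := by
    intro n
    induction n with
    | zero =>
      intro z hz hg hl hal
      cases z with
      | inr τ =>
        have := hu τ (hal τ rfl) hl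
        rw [this]; simp [sb1]
      | inl c =>
        have h4 := (h c hg).2
        omega
    | succ n ih =>
      intro z hz hg hl hal
      cases z with
      | inr τ =>
        have := hu τ (hal τ rfl) hl
        rw [this]; simp [sb1]
      | inl c =>
        obtain ⟨h3, h4⟩ := h c hg
        have h5 := ih (s c (x c)) (by omega) (hk c hg _) (by rw [h3, hl]) (fun τ hτ => Or.inr ⟨c, hg, _, hτ⟩)
        have hcN : c ≠ N := by rintro rfl; exact lt_irrefl _ hg
        have h6 := hr' c (by have : c < N := hg; omega)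
        simp only [hcN, if_false, hx c hg] at h6
        rcases sb1_cases a (.inl N) (.inl c) with ⟨_, h2⟩ | ⟨_, h2⟩
        · rw [h2]
        · rw [h2]; omega
  have h1 := key (r t) t le_rfl ht hat.symm (fun τ hτ => Or.inl hτ)
  have h2 := hr' N (Nat.lt_succ_self N)
  simp only [if_true, hxN, Bool.false_eq_true, if_false] at h2
  omega

/-- the way back, cup -/
theorem bad_cup {s : ℕ → Bool → Tk} {N m : ℕ} {x : ℕ → Bool} {l r : Tk → ℕ} (h : Pst s N x l r)
    (hk : ∀ c < N, ∀ b, goodT N m (s c b)) (a t : Tk) (ht : goodT N m t) (hat : l a = l t) (hne : t ≠ a)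
    (hu : ∀ τ, (t = .inr τ ∨ ∃ c < N, ∃ b, s c b = .inr τ) → l (.inr τ) = l a → .inr τ = a)
    (r' : Tk → ℕ) (hr' : ∀ c < N, r' (sb1 a t (s c (x c))) < r' (.inl c)) : False := by
  have key : ∀ n z, r z ≤ n → goodT N m z → l z = l a → (∀ τ, z = .inr τ → (t = .inr τ ∨ ∃ c < N, ∃ b, s c b = .inr τ)) →
      r' t ≤ r' (sb1 a t z) := by
    intro n
    induction n with
    | zero =>
      intro z hz hg hl hal
      cases z with
      | inr τ =>
        have := hu τ (hal τ rfl) hl
        rw [this]; simp [sb1]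
      | inl c =>
        have h4 := (h c hg).2
        omega
    | succ n ih =>
      intro z hz hg hl hal
      cases z with
      | inr τ =>
        have := hu τ (hal τ rfl) hl
        rw [this]; simp [sb1]
      | inl c =>
        obtain ⟨h3, h4⟩ := h c hg
        have h5 := ih (s c (x c)) (by omega) (hk c hg _) (by rw [h3, hl]) (fun τ hτ => Or.inr ⟨c, hg, _, hτ⟩)
        have h6 := hr' c hg
        rcases sb1_cases a t (.inl c) with ⟨_, h2⟩ | ⟨_, h2⟩
        · rw [h2]
        · rw [h2]; omega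
  cases t with
  | inr τ => exact hne (hu τ (Or.inl rfl) hat.symm)
  | inl c =>
    obtain ⟨h3, h4⟩ := h c ht
    have h5 := key _ (s c (x c)) le_rfl (hk c ht _) (by rw [h3, hat]) (fun τ hτ => Or.inr ⟨c, ht, _, hτ⟩)
    have h6 := hr' c ht
    omega

end LG3P
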