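import Pool.Agent.Lib.MP_3cd99b_gt.DG

/-!
Labels without a cycle = acyclic parent function on the crossings: the induction over the word.
-/

namespace LG3P
open LG3

theorem take_drop_cons {α : Type*} (h : α) (A0 : List α) (k : ℕ) :
    (h :: A0).take (k + 1) = h :: A0.take k ∧ (h :: A0).drop (k + 1) = A0.drop k := ⟨rfl, rfl⟩

theorem len_take_of_drop {α : Type*} {A0 : List α} {k : ℕ} {u : α} {B : List α} (h : A0.drop k = u :: B) :
    (A0.take k).length = k := by
  have : (A0.drop k).length = (u :: B).length := by rw [h]
  simp only [List.length_drop, List.length_cons] at this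
  rw [List.length_take]
  omega

/-- The structure of the tails of a diagram. -/
theorem sys_si (q : Bool) : ∀ (w : List Piece) (D : Sys), sys q w = some D → SI q D (nx w) (w.length + 1) := by
  intro w
  induction w with
  | nil =>
    intro D hD
    simp only [sys, Option.some.injEq] at hD
    subst hD
    refine ⟨by simp, ?_, ?_, ?_, ?_, ?_, ?_⟩
    · intro z hz
      simp at hz
      subst hz
      exact Nat.lt_succ_self 0
    · intro c hc; exact absurd hc (Nat.not_lt_zero c)
    · intro t ht
      simp at ht
      subst ht
      cases q <;> simp [srT]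
    · intro c hc; exact absurd hc (Nat.not_lt_zero c)
    · cases q <;> simp [srT]
    · intro z hz
      cases q <;> simp [srT] at hz <;> exact ⟨0, hz⟩
  | cons p w ih =>
    intro D' hD'
    simp only [sys, Option.bind_eq_some_iff] at hD'
    obtain ⟨D, hD, hs⟩ := hD'
    have h := ih D hD
    obtain ⟨h0, A0, hT⟩ : ∃ h0 A0, D.T = h0 :: A0 := by
      cases hT : D.T with
      | nil => exact absurd hT h.ne
      | cons a l => exact ⟨a, l, rfl⟩
    have hsplit : ∀ k, A0 = A0.take k ++ A0.drop k := fun k => (List.take_append_drop k A0).symm
    cases p with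
    | cross k e =>
      simp only [sysStep, hT, pos, List.drop_succ_cons, List.take_succ_cons, List.map_cons] at hs
      match hB : A0.drop k, hs with
      | [], hs => simp at hs
      | [_], hs => simp at hs
      | u :: v :: R, hs =>
        have hlen := len_take_of_drop hB
        simp only at hs
        by_cases hp : parq q k = true
        · rw [if_pos hp, Option.some.injEq] at hs
          subst hs
          refine h.cross (a := u) (t := v) (R := R) (A := A0.take k) true (u :: v :: R) _ ?_ ?_ ?_ rfl
          · rw [hT, ← hB, ← hsplit k]
          · rw [hlen, ← par_eq, hp]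
          · exact Or.inl ⟨rfl, rfl, rfl, rfl⟩
        · rw [if_neg hp, Option.some.injEq] at hs
          subst hs
          refine h.cross (a := v) (t := u) (R := R) (A := A0.take k) false (u :: v :: R) _ ?_ ?_ ?_ rfl
          · rw [hT, ← hB, ← hsplit k]
          · rw [hlen, ← par_eq]; simpa using hp
          · exact Or.inr ⟨rfl, rfl, rfl, rfl⟩
    | cup k f =>
      simp only [sysStep, hT, pos, List.drop_succ_cons, List.take_succ_cons, List.map_cons] at hs
      match hB : A0.drop k, hs with
      | [], hs => simp at hs
      | [_], hs => simp at hs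
      | u :: v :: R, hs =>
        have hlen := len_take_of_drop hB
        simp only at hs
        by_cases huv : u = v
        · rw [if_pos huv] at hs; simp at hs
        · rw [if_neg huv] at hs
          by_cases hp : parq q k = true
          · rw [if_pos hp, Option.some.injEq] at hs
            subst hs
            refine h.cup (a := u) (t := v) (R := R) (A := A0.take k) true (u :: v :: R) ?_ ?_ ?_ (Ne.symm huv)
            · rw [hT, ← hB, ← hsplit k]
            · rw [hlen, ← par_eq, hp]
            · exact Or.inl ⟨rfl, rfl⟩
          · rw [if_neg hp, Option.some.injEq] at hs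
            subst hs
            refine h.cup (a := v) (t := u) (R := R) (A := A0.take k) false (u :: v :: R) ?_ ?_ ?_ huv
            · rw [hT, ← hB, ← hsplit k]
            · rw [hlen, ← par_eq]; simpa using hp
            · exact Or.inr ⟨rfl, rfl⟩
    | cap k f =>
      simp only [sysStep, hT, pos, List.drop_succ_cons, List.take_succ_cons, Option.some.injEq] at hs
      subst hs
      refine h.cap (A := A0.take k) (R := A0.drop k) ?_
      rw [hT, ← hsplit k]

theorem srcs_append : ∀ (A B : List ℕ) (b : Bool),
    srcs b (A ++ B) = srcs b A ++ srcs (b ^^ decide (A.length % 2 = 1)) B := by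
  intro A
  induction A with
  | nil => intro B b; cases b <;> rfl
  | cons a A ih =>
    intro B b
    have e : decide ((a :: A).length % 2 = 1) = !decide (A.length % 2 = 1) := by
      rw [← decide_not]
      apply decide_eq_decide.mpr
      simp only [List.length_cons]
      omega
    cases b
    · show srcs true (A ++ B) = srcs true A ++ _
      rw [ih B true, e]
      simp
    · show a :: srcs false (A ++ B) = a :: srcs false A ++ _
      rw [ih B false, e]
      simp

theorem srcs_mapN (g : ℕ → ℕ) : ∀ (l : List ℕ) (b : Bool), srcs b (l.map g) = (srcs b l).map g := by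
  intro l
  induction l with
  | nil => intro b; cases b <;> rfl
  | cons a l ih =>
    intro b
    cases b
    · exact ih true
    · show g a :: srcs false (l.map g) = g a :: (srcs false l).map g
      rw [ih false]

theorem srcs_subset : ∀ (l : List ℕ) (b : Bool), ∀ z ∈ srcs b l, z ∈ l := by
  intro l
  induction l with
  | nil => intro b z hz; cases b <;> simp [srcs] at hz
  | cons a l ih =>
    intro b z hz
    cases b
    · exact List.mem_cons_of_mem _ (ih true z hz)
    · rcases List.mem_cons.mp hz with rfl | hz
      · exact List.mem_cons_self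
      · exact List.mem_cons_of_mem _ (ih false z hz)

theorem map_ren_id (u v : ℕ) (X : List ℕ) (h : u ∉ X) : ren u v X = X := by
  have : ∀ z ∈ X, (fun x => if x = u then v else x) z = id z := by
    intro z hz
    have : z ≠ u := fun e => h (e ▸ hz)
    simp [this]
  unfold ren
  rw [List.map_congr_left this, List.map_id]

theorem ren_nodup (u v : ℕ) (X : List ℕ) (h : X.Nodup) (h2 : u ∉ X ∨ v ∉ X) : (ren u v X).Nodup := by
  rcases h2 with h2 | h2
  · rw [map_ren_id u v X h2]; exact h
  · unfold ren
    apply List.Nodup.map_on _ h
    intro x hx y hy hxy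
    have hx' : x ≠ v := fun e => h2 (e ▸ hx)
    have hy' : y ≠ v := fun e => h2 (e ▸ hy)
    by_cases h1 : x = u <;> by_cases h3 : y = u
    · rw [h1, h3]
    · simp only [h1, h3, if_true, if_false] at hxy; exact absurd hxy.symm hy'
    · simp only [h1, h3, if_true, if_false] at hxy; exact absurd hxy hx'
    · simpa [h1, h3] using hxy

/-- the sources of a step have different labels -/
theorem li_step (q : Bool) (p : Piece) (c : Bool) (L L' : List ℕ) (h : LI q L) (hne : L ≠ [])
    (hs : labStep q p c L = some L') : LI q L' ∧ L' ≠ [] := by
  obtain ⟨h0, A0, rfl⟩ : ∃ h0 A0, L = h0 :: A0 := by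
    cases L with
    | nil => exact absurd rfl hne
    | cons a l => exact ⟨a, l, rfl⟩
  have hsplit : ∀ k, A0 = A0.take k ++ A0.drop k := fun k => (List.take_append_drop k A0).symm
  have hfr : ∀ z ∈ A0, z < fresh (h0 :: A0) := fun z hz => lt_fresh _ z (List.mem_cons_of_mem _ hz)
  unfold LI at h ⊢
  rw [List.tail_cons] at h
  cases p with
  | cross k e =>
    simp only [labStep, pos, List.drop_succ_cons, List.take_succ_cons] at hs
    match hB : A0.drop k, hs with
    | [], hs => simp at hs
    | [_], hs => simp at hs
    | u :: v :: R, hs =>
      have hlen := len_take_of_drop hB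
      have hA0 : A0 = A0.take k ++ u :: v :: R := by rw [← hB]; exact hsplit k
      simp only at hs
      by_cases hp : parq q k = true
      · rw [if_pos hp] at hs
        have hb : (!q ^^ decide ((A0.take k).length % 2 = 1)) = true := by rw [hlen, ← par_eq, hp]
        have hsr : srcs (!q) A0 = srcs (!q) (A0.take k) ++ u :: srcs true R := by
          conv_lhs => rw [hA0]
          rw [srcs_append, hb]; rfl
        rw [hsr] at h
        cases c
        · rw [if_neg (by simp)] at hs
          by_cases huv : u = v
          · rw [if_pos huv] at hs; simp at hs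
          · rw [if_neg huv, Option.some.injEq] at hs
            subst hs
            refine ⟨?_, by simp [ren]⟩
            obtain ⟨h1, h2, h3⟩ := nodup_mid h
            show (srcs (!q) (ren u v (A0.take k) ++ fresh (h0 :: A0) :: v :: ren u v R)).Nodup
            rw [srcs_append]
            have e1 : (ren u v (A0.take k)).length = (A0.take k).length := by simp [ren]
            rw [e1, hb]
            show (srcs (!q) (ren u v (A0.take k)) ++ fresh (h0 :: A0) :: srcs true (ren u v R)).Nodup
            unfold ren
            rw [srcs_mapN, srcs_mapN]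
            have e2 := map_ren_id u v _ h2
            have e3 := map_ren_id u v _ h3
            unfold ren at e2 e3
            rw [e2, e3]
            apply mid_nodup h1
            · intro hz
              have h4 : fresh (h0 :: A0) ∈ A0 := List.mem_of_mem_take (srcs_subset _ _ _ hz)
              exact lt_irrefl _ (hfr _ h4)
            · intro hz
              have h4 : fresh (h0 :: A0) ∈ A0 := List.mem_of_mem_drop (i := k) (by
                rw [hB]; exact List.mem_cons_of_mem _ (List.mem_cons_of_mem _ (srcs_subset _ _ _ hz)))
              exact lt_irrefl _ (hfr _ h4)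
        · rw [if_pos rfl, Option.some.injEq] at hs
          subst hs
          refine ⟨?_, by simp⟩
          show (srcs (!q) (A0.take k ++ u :: u :: R)).Nodup
          rw [srcs_append, hb]
          exact h
      · rw [if_neg hp] at hs
        have hb : (!q ^^ decide ((A0.take k).length % 2 = 1)) = false := by rw [hlen, ← par_eq]; simpa using hp
        have hsr : srcs (!q) A0 = srcs (!q) (A0.take k) ++ v :: srcs false R := by
          conv_lhs => rw [hA0]
          rw [srcs_append, hb]; rfl
        rw [hsr] at h
        cases c
        · rw [if_neg (by simp)] at hs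
          by_cases huv : u = v
          · rw [if_pos huv] at hs; simp at hs
          · rw [if_neg huv, Option.some.injEq] at hs
            subst hs
            refine ⟨?_, by simp [ren]⟩
            obtain ⟨h1, h2, h3⟩ := nodup_mid h
            show (srcs (!q) (ren v u (A0.take k) ++ u :: fresh (h0 :: A0) :: ren v u R)).Nodup
            rw [srcs_append]
            have e1 : (ren v u (A0.take k)).length = (A0.take k).length := by simp [ren]
            rw [e1, hb]
            show (srcs (!q) (ren v u (A0.take k)) ++ fresh (h0 :: A0) :: srcs false (ren v u R)).Nodup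
            unfold ren
            rw [srcs_mapN, srcs_mapN]
            have e2 := map_ren_id v u _ h2
            have e3 := map_ren_id v u _ h3
            unfold ren at e2 e3
            rw [e2, e3]
            apply mid_nodup h1
            · intro hz
              have h4 : fresh (h0 :: A0) ∈ A0 := List.mem_of_mem_take (srcs_subset _ _ _ hz)
              exact lt_irrefl _ (hfr _ h4)
            · intro hz
              have h4 : fresh (h0 :: A0) ∈ A0 := List.mem_of_mem_drop (i := k) (by
                rw [hB]; exact List.mem_cons_of_mem _ (List.mem_cons_of_mem _ (srcs_subset _ _ _ hz)))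
              exact lt_irrefl _ (hfr _ h4)
        · rw [if_pos rfl, Option.some.injEq] at hs
          subst hs
          refine ⟨?_, by simp⟩
          show (srcs (!q) (A0.take k ++ v :: v :: R)).Nodup
          rw [srcs_append, hb]
          exact h
  | cup k f =>
    simp only [labStep, pos, List.drop_succ_cons, List.take_succ_cons] at hs
    match hB : A0.drop k, hs with
    | [], hs => simp at hs
    | [_], hs => simp at hs
    | u :: v :: R, hs =>
      have hlen := len_take_of_drop hB
      have hA0 : A0 = A0.take k ++ u :: v :: R := by rw [← hB]; exact hsplit k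
      simp only at hs
      by_cases huv : u = v
      · rw [if_pos huv] at hs; simp at hs
      · rw [if_neg huv, Option.some.injEq] at hs
        subst hs
        refine ⟨?_, by simp [ren]⟩
        show (srcs (!q) (ren u v (A0.take k) ++ ren u v R)).Nodup
        have e1 : (ren u v (A0.take k)).length = (A0.take k).length := by simp [ren]
        rw [srcs_append, e1]
        have e4 : ∀ b, srcs b (ren u v R) = ren u v (srcs b R) := fun b => srcs_mapN _ _ _
        have e5 : ∀ b, srcs b (ren u v (A0.take k)) = ren u v (srcs b (A0.take k)) := fun b => srcs_mapN _ _ _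
        rw [e4, e5]
        have e6 : ∀ X Y : List ℕ, ren u v X ++ ren u v Y = ren u v (X ++ Y) := by intro X Y; simp [ren]
        rw [e6]
        by_cases hp : parq q k = true
        · have hb : (!q ^^ decide ((A0.take k).length % 2 = 1)) = true := by rw [hlen, ← par_eq, hp]
          have hsr : srcs (!q) A0 = srcs (!q) (A0.take k) ++ u :: srcs true R := by
            conv_lhs => rw [hA0]
            rw [srcs_append, hb]; rfl
          rw [hsr] at h
          obtain ⟨h1, h2, h3⟩ := nodup_mid h
          rw [hb]
          apply ren_nodup u v _ h1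
          left
          rw [List.mem_append, not_or]
          exact ⟨h2, h3⟩
        · have hb : (!q ^^ decide ((A0.take k).length % 2 = 1)) = false := by rw [hlen, ← par_eq]; simpa using hp
          have hsr : srcs (!q) A0 = srcs (!q) (A0.take k) ++ v :: srcs false R := by
            conv_lhs => rw [hA0]
            rw [srcs_append, hb]; rfl
          rw [hsr] at h
          obtain ⟨h1, h2, h3⟩ := nodup_mid h
          rw [hb]
          apply ren_nodup u v _ h1
          right
          rw [List.mem_append, not_or]
          exact ⟨h2, h3⟩
  | cap k f =>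
    simp only [labStep, pos, List.drop_succ_cons, List.take_succ_cons, Option.some.injEq] at hs
    subst hs
    refine ⟨?_, by simp⟩
    show (srcs (!q) (A0.take k ++ fresh (h0 :: A0) :: fresh (h0 :: A0) :: A0.drop k)).Nodup
    have hsr : srcs (!q) A0 = srcs (!q) (A0.take k) ++ srcs (!q ^^ decide ((A0.take k).length % 2 = 1)) (A0.drop k) := by
      conv_lhs => rw [hsplit k]
      rw [srcs_append]
    rw [srcs_append]
    have e7 : ∀ b F, srcs b (F :: F :: A0.drop k) = F :: srcs b (A0.drop k) := by intro b F; cases b <;> rfl
    rw [e7]
    apply mid_nodup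
    · rw [← hsr]; exact h
    · intro hz
      exact lt_irrefl _ (hfr _ (List.mem_of_mem_take (srcs_subset _ _ _ hz)))
    · intro hz
      exact lt_irrefl _ (hfr _ (List.mem_of_mem_drop (srcs_subset _ _ _ hz)))

theorem labs_li (q : Bool) : ∀ (w : List Piece) (x : List Bool) (L : List ℕ), labs q w x = some L →
    LI q L ∧ L ≠ [] := by
  intro w
  induction w with
  | nil =>
    intro x L hL
    cases x with
    | nil =>
      simp only [labs, Option.some.injEq] at hL
      subst hL
      constructor
      · unfold LI; cases q <;> simp [srcs]
      · simp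
    | cons => simp [labs] at hL
  | cons p w ih =>
    intro x L hL
    cases p with
    | cross k e =>
      cases x with
      | nil => simp [labs] at hL
      | cons c x =>
        simp only [labs, Option.bind_eq_some_iff] at hL
        obtain ⟨L0, h1, h2⟩ := hL
        obtain ⟨h3, h4⟩ := ih x L0 h1
        exact li_step q _ c L0 L h3 h4 h2
    | cup k f =>
      simp only [labs, Option.bind_eq_some_iff] at hL
      obtain ⟨L0, h1, h2⟩ := hL
      obtain ⟨h3, h4⟩ := ih x L0 h1
      exact li_step q _ _ L0 L h3 h4 h2
    | cap k f =>
      simp only [labs, Option.bind_eq_some_iff] at hL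
      obtain ⟨L0, h1, h2⟩ := hL
      obtain ⟨h3, h4⟩ := ih x L0 h1
      exact li_step q _ _ L0 L h3 h4 h2

/-- the tails and the labels fit together -/
def FitD (w : List Piece) (x : ℕ → Bool) (L : List ℕ) (D : Sys) : Prop :=
  ∃ l r : Tk → ℕ, L = D.T.map l ∧ Pst D.s (nx w) x l r

theorem map_take_drop {D : Sys} {h0 : Tk} {A0 : List Tk} {l : Tk → ℕ} (hT : D.T = h0 :: A0) (k : ℕ) :
    (D.T.map l).drop (k + 1) = (A0.drop k).map l ∧ (D.T.map l).take (k + 1) = l h0 :: (A0.take k).map l := by
  rw [hT]
  constructor
  · simp [List.map_drop]
  · simp [List.map_take]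

theorem ren_map (l : Tk → ℕ) (l' : Tk → ℕ) (f : Tk → Tk) (u v : ℕ) (X : List Tk)
    (h : ∀ z ∈ X, l' (f z) = if l z = u then v else l z) : ren u v (X.map l) = (X.map f).map l' := by
  unfold ren
  rw [List.map_map, List.map_map]
  apply List.map_congr_left
  intro z hz
  simp only [Function.comp]
  rw [h z hz]

/-- one step of the fit, from the labels to the tails -/
theorem fit_cross {q : Bool} {w : List Piece} {D : Sys} {m : ℕ} (k : ℕ) (e c : Bool) (x x' : ℕ → Bool)
    (hSI : SI q D (nx w) m) {L L' : List ℕ} (hfit : FitD w x L D) (hx : ∀ i < nx w, x' i = x i) (hxN : x' (nx w) = c)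
    (hs : labStep q (.cross k e) c L = some L') :
    ∃ D', sysStep q (.cross k e) (nx w) m D = some D' ∧ FitD (.cross k e :: w) x' L' D' := by
  obtain ⟨l, r, rfl, hP⟩ := hfit
  obtain ⟨h0, A0, hT⟩ : ∃ h0 A0, D.T = h0 :: A0 := by
    cases hT : D.T with
    | nil => exact absurd hT hSI.ne
    | cons a l => exact ⟨a, l, rfl⟩
  obtain ⟨e1, e2⟩ := map_take_drop (l := l) hT k
  have g0 : goodT (nx w) m h0 := hSI.kT h0 (by rw [hT]; simp)
  have gA : ∀ z ∈ A0.take k, goodT (nx w) m z := fun z hz =>
    hSI.kT z (by rw [hT]; exact List.mem_cons_of_mem _ (List.mem_of_mem_take hz))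
  have gD : ∀ z ∈ A0.drop k, goodT (nx w) m z := fun z hz =>
    hSI.kT z (by rw [hT]; exact List.mem_cons_of_mem _ (List.mem_of_mem_drop hz))
  simp only [labStep, pos, e1] at hs
  simp only [sysStep, hT, pos, List.drop_succ_cons, List.take_succ_cons, List.map_cons]
  match hB : A0.drop k, hs with
  | [], hs => simp at hs
  | [_], hs => simp at hs
  | u :: v :: R, hs =>
    simp only [List.map_cons] at hs
    rw [e2] at hs
    simp only
    have gu : goodT (nx w) m u := gD u (by rw [hB]; simp)
    have gv : goodT (nx w) m v := gD v (by rw [hB]; simp)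
    have gR : ∀ z ∈ R, goodT (nx w) m z := fun z hz => gD z (by rw [hB]; simp [hz])
    by_cases hp : parq q k = true
    · rw [if_pos hp] at hs ⊢
      refine ⟨_, rfl, ?_⟩
      cases c
      · rw [if_neg (by simp)] at hs
        by_cases huv : l u = l v
        · rw [if_pos huv] at hs; simp at hs
        · rw [if_neg huv, Option.some.injEq] at hs
          obtain ⟨l', r', h1, h2, h3, h4⟩ := pst_crossF hP hSI.kS u v gv hx hxN (fun y => if y = l u then l v else y)
            (fresh (List.map l D.T)) huv (by simp)
          refine ⟨l', r', ?_, h1⟩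
          rw [← hs, ← List.map_cons, ren_map l l' (sb1 u (.inl (nx w))) _ _ _ (fun z hz => ?_),
            ren_map l l' (sb1 u (.inl (nx w))) _ _ _ (fun z hz => h4 z (gR z hz))]
          · have h2' : l' (.inl (nx w)) = l v := by rw [h2]; simp
            simp only [List.map_append, List.map_cons, h2', h3]
          · rcases List.mem_cons.mp hz with rfl | hz
            · exact h4 _ g0
            · exact h4 z (gA z hz)
      · rw [if_pos rfl, Option.some.injEq] at hs
        obtain ⟨l', r', h1, h2, h3, h4⟩ := pst_crossT hP hSI.kS u v hx hxN
        refine ⟨l', r', ?_, h1⟩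
        rw [← hs]
        simp only [List.map_append, List.map_cons, h2, h3, List.map_map]
        have hc : ∀ X : List Tk, (∀ z ∈ X, goodT (nx w) m z) →
            X.map (l' ∘ sb1 u (.inl (nx w))) = X.map l := fun X hX =>
          List.map_congr_left fun z hz => h4 z (hX z hz)
        rw [h4 h0 g0, hc _ gA, hc _ gR]
    · rw [if_neg hp] at hs ⊢
      refine ⟨_, rfl, ?_⟩
      cases c
      · rw [if_neg (by simp)] at hs
        by_cases huv : l u = l v
        · rw [if_pos huv] at hs; simp at hs
        · rw [if_neg huv, Option.some.injEq] at hs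
          obtain ⟨l', r', h1, h2, h3, h4⟩ := pst_crossF hP hSI.kS v u gu hx hxN (fun y => if y = l v then l u else y)
            (fresh (List.map l D.T)) (Ne.symm huv) (by simp)
          refine ⟨l', r', ?_, h1⟩
          rw [← hs, ← List.map_cons, ren_map l l' (sb1 v (.inl (nx w))) _ _ _ (fun z hz => ?_),
            ren_map l l' (sb1 v (.inl (nx w))) _ _ _ (fun z hz => h4 z (gR z hz))]
          · have h2' : l' (.inl (nx w)) = l u := by rw [h2]; simp
            simp only [List.map_append, List.map_cons, h2', h3]
          · rcases List.mem_cons.mp hz with rfl | hz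
            · exact h4 _ g0
            · exact h4 z (gA z hz)
      · rw [if_pos rfl, Option.some.injEq] at hs
        obtain ⟨l', r', h1, h2, h3, h4⟩ := pst_crossT hP hSI.kS v u hx hxN
        refine ⟨l', r', ?_, h1⟩
        rw [← hs]
        simp only [List.map_append, List.map_cons, h2, h3, List.map_map]
        have hc : ∀ X : List Tk, (∀ z ∈ X, goodT (nx w) m z) →
            X.map (l' ∘ sb1 v (.inl (nx w))) = X.map l := fun X hX =>
          List.map_congr_left fun z hz => h4 z (hX z hz)
        rw [h4 h0 g0, hc _ gA, hc _ gR]

theorem fit_cup {q : Bool} {w : List Piece} {D : Sys} {m : ℕ} (k : ℕ) (f : Bool) (x : ℕ → Bool)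
    (hSI : SI q D (nx w) m) {L L' : List ℕ} (hfit : FitD w x L D)
    (hs : labStep q (.cup k f) false L = some L') :
    ∃ D', sysStep q (.cup k f) (nx w) m D = some D' ∧ FitD (.cup k f :: w) x L' D' := by
  obtain ⟨l, r, rfl, hP⟩ := hfit
  obtain ⟨h0, A0, hT⟩ : ∃ h0 A0, D.T = h0 :: A0 := by
    cases hT : D.T with
    | nil => exact absurd hT hSI.ne
    | cons a l => exact ⟨a, l, rfl⟩
  obtain ⟨e1, e2⟩ := map_take_drop (l := l) hT k
  simp only [labStep, pos, e1] at hs
  simp only [sysStep, hT, pos, List.drop_succ_cons, List.take_succ_cons, List.map_cons]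
  match hB : A0.drop k, hs with
  | [], hs => simp at hs
  | [_], hs => simp at hs
  | u :: v :: R, hs =>
    simp only [List.map_cons] at hs
    rw [e2] at hs
    simp only
    by_cases huv : l u = l v
    · rw [if_pos huv] at hs; simp at hs
    · rw [if_neg huv, Option.some.injEq] at hs
      have huv' : u ≠ v := fun e => huv (by rw [e])
      rw [if_neg huv']
      by_cases hp : parq q k = true
      · rw [if_pos hp]
        refine ⟨_, rfl, ?_⟩
        obtain ⟨l', r', h1, h4⟩ := pst_cup hP u v (fun y => if y = l u then l v else y) huv (by simp)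
        refine ⟨l', r', ?_, h1⟩
        rw [← hs, ← List.map_cons, ren_map l l' (sb1 u v) _ _ _ (fun z _ => h4 z),
          ren_map l l' (sb1 u v) _ _ _ (fun z _ => h4 z)]
        simp only [List.map_append, List.map_cons]
      · rw [if_neg hp]
        refine ⟨_, rfl, ?_⟩
        obtain ⟨l', r', h1, h4⟩ := pst_cup hP v u (fun y => if y = l u then l v else y) (Ne.symm huv) (by simp)
        refine ⟨l', r', ?_, h1⟩
        rw [← hs, ← List.map_cons, ren_map l l' (sb1 v u) _ _ _ (fun z _ => h4 z),
          ren_map l l' (sb1 v u) _ _ _ (fun z _ => h4 z)]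
        simp only [List.map_append, List.map_cons]

theorem fit_cap {q : Bool} {w : List Piece} {D : Sys} {m : ℕ} (k : ℕ) (f : Bool) (x : ℕ → Bool)
    (hSI : SI q D (nx w) m) {L L' : List ℕ} (hfit : FitD w x L D)
    (hs : labStep q (.cap k f) false L = some L') :
    ∃ D', sysStep q (.cap k f) (nx w) m D = some D' ∧ FitD (.cap k f :: w) x L' D' := by
  obtain ⟨l, r, rfl, hP⟩ := hfit
  obtain ⟨h0, A0, hT⟩ : ∃ h0 A0, D.T = h0 :: A0 := by
    cases hT : D.T with
    | nil => exact absurd hT hSI.ne
    | cons a l => exact ⟨a, l, rfl⟩
  obtain ⟨e1, e2⟩ := map_take_drop (l := l) hT k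
  have g0 : goodT (nx w) m h0 := hSI.kT h0 (by rw [hT]; simp)
  have gA : ∀ z ∈ A0.take k, goodT (nx w) m z := fun z hz =>
    hSI.kT z (by rw [hT]; exact List.mem_cons_of_mem _ (List.mem_of_mem_take hz))
  have gD : ∀ z ∈ A0.drop k, goodT (nx w) m z := fun z hz =>
    hSI.kT z (by rw [hT]; exact List.mem_cons_of_mem _ (List.mem_of_mem_drop hz))
  simp only [labStep, pos, Option.some.injEq] at hs
  rw [e1, e2] at hs
  simp only [sysStep, hT, pos, List.drop_succ_cons, List.take_succ_cons]
  refine ⟨_, rfl, ?_⟩
  obtain ⟨l', h1, h3, h4⟩ := pst_cap hP hSI.kS (fresh (List.map l D.T))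
  refine ⟨l', r, ?_, h1⟩
  rw [← hs]
  have hc : ∀ X : List Tk, (∀ z ∈ X, goodT (nx w) m z) → X.map l' = X.map l := fun X hX =>
    List.map_congr_left fun z hz => h4 z (hX z hz)
  simp only [List.map_append, List.map_cons, h3, h4 h0 g0, hc _ gA, hc _ gD]

theorem fnx_cons (c : Bool) (x : List Bool) : fnx (c :: x) x.length = c ∧ ∀ i < x.length, fnx (c :: x) i = fnx x i := by
  constructor
  · simp [fnx]
  · intro i hi
    have : i ≠ x.length := by omega
    simp [fnx, this]

/-- labels without a cycle give an acyclic parent function -/
theorem labs_fit (q : Bool) : ∀ (w : List Piece) (x : List Bool) (L : List ℕ), labs q w x = some L →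
    x.length = nx w ∧ ∃ D, sys q w = some D ∧ FitD w (fnx x) L D := by
  intro w
  induction w with
  | nil =>
    intro x L hL
    cases x with
    | nil =>
      simp only [labs, Option.some.injEq] at hL
      subst hL
      refine ⟨rfl, _, rfl, fun _ => 0, fun _ => 0, rfl, ?_⟩
      intro c hc; exact absurd hc (Nat.not_lt_zero c)
    | cons => simp [labs] at hL
  | cons p w ih =>
    intro x L hL
    cases p with
    | cross k e =>
      cases x with
      | nil => simp [labs] at hL
      | cons c x =>
        simp only [labs, Option.bind_eq_some_iff] at hL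
        obtain ⟨L0, h1, h2⟩ := hL
        obtain ⟨h3, D, h4, h5⟩ := ih x L0 h1
        obtain ⟨f1, f2⟩ := fnx_cons c x
        rw [h3] at f1 f2
        obtain ⟨D', h6, h7⟩ := fit_cross k e c (fnx x) (fnx (c :: x)) (sys_si q w D h4) h5 f2 f1 h2
        refine ⟨by simp [nx, h3], D', ?_, h7⟩
        show (sys q w).bind _ = _
        rw [h4]; exact h6
    | cup k f =>
      simp only [labs, Option.bind_eq_some_iff] at hL
      obtain ⟨L0, h1, h2⟩ := hL
      obtain ⟨h3, D, h4, h5⟩ := ih x L0 h1
      obtain ⟨D', h6, h7⟩ := fit_cup k f (fnx x) (sys_si q w D h4) h5 h2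
      refine ⟨h3, D', ?_, h7⟩
      show (sys q w).bind _ = _
      rw [h4]; exact h6
    | cap k f =>
      simp only [labs, Option.bind_eq_some_iff] at hL
      obtain ⟨L0, h1, h2⟩ := hL
      obtain ⟨h3, D, h4, h5⟩ := ih x L0 h1
      obtain ⟨D', h6, h7⟩ := fit_cap k f (fnx x) (sys_si q w D h4) h5 h2
      refine ⟨h3, D', ?_, h7⟩
      show (sys q w).bind _ = _
      rw [h4]; exact h6

/-- a step substitutes a source -/
theorem sysStep_f {q : Bool} {p : Piece} {N m : ℕ} {D D' : Sys} (hSI : SI q D N m) (hs : sysStep q p N m D = some D') :
    ∃ f : Tk → Tk, (∀ c, f (.inl c) = .inl c) ∧ ∀ i < N, ∀ b, D'.s i b = f (D.s i b) := by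
  obtain ⟨h0, A0, hT⟩ : ∃ h0 A0, D.T = h0 :: A0 := by
    cases hT : D.T with
    | nil => exact absurd hT hSI.ne
    | cons a l => exact ⟨a, l, rfl⟩
  have hsplit : ∀ k, A0 = A0.take k ++ A0.drop k := fun k => (List.take_append_drop k A0).symm
  have hsrc : ∀ k u v R, A0.drop k = u :: v :: R →
      (parq q k = true → u ∈ srT (!q) D.T.tail) ∧ (¬ parq q k = true → v ∈ srT (!q) D.T.tail) := by
    intro k u v R hB
    have hlen := len_take_of_drop hB
    have : srT (!q) D.T.tail = srT (!q) (A0.take k) ++ srT (parq q k) (u :: v :: R) := by
      rw [hT, List.tail_cons]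
      conv_lhs => rw [hsplit k]
      rw [srT_append, hlen, ← par_eq, hB]
    constructor
    · intro hp
      rw [this, hp]; simp [srT]
    · intro hp
      have hp' : parq q k = false := by simpa using hp
      rw [this, hp']; simp [srT]
  have htok : ∀ a b, a ∈ srT (!q) D.T.tail → ∀ c, sb1 a b (.inl c) = .inl c := by
    intro a b ha c
    obtain ⟨t, rfl⟩ := hSI.aK a ha
    simp [sb1]
  cases p with
  | cross k e =>
    simp only [sysStep, hT, pos, List.drop_succ_cons, List.take_succ_cons, List.map_cons] at hs
    match hB : A0.drop k, hs with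
    | [], hs => simp at hs
    | [_], hs => simp at hs
    | u :: v :: R, hs =>
      simp only at hs
      by_cases hp : parq q k = true
      · rw [if_pos hp, Option.some.injEq] at hs
        subst hs
        refine ⟨sb1 u (.inl N), htok u _ ((hsrc k u v R hB).1 hp), ?_⟩
        intro i hi b
        have : i ≠ N := by omega
        simp [this]
      · rw [if_neg hp, Option.some.injEq] at hs
        subst hs
        refine ⟨sb1 v (.inl N), htok v _ ((hsrc k u v R hB).2 hp), ?_⟩
        intro i hi b
        have : i ≠ N := by omega
        simp [this]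
  | cup k f =>
    simp only [sysStep, hT, pos, List.drop_succ_cons, List.take_succ_cons, List.map_cons] at hs
    match hB : A0.drop k, hs with
    | [], hs => simp at hs
    | [_], hs => simp at hs
    | u :: v :: R, hs =>
      simp only at hs
      by_cases huv : u = v
      · rw [if_pos huv] at hs; simp at hs
      · rw [if_neg huv] at hs
        by_cases hp : parq q k = true
        · rw [if_pos hp, Option.some.injEq] at hs
          subst hs
          exact ⟨sb1 u v, htok u _ ((hsrc k u v R hB).1 hp), fun i hi b => rfl⟩
        · rw [if_neg hp, Option.some.injEq] at hs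
          subst hs
          exact ⟨sb1 v u, htok v _ ((hsrc k u v R hB).2 hp), fun i hi b => rfl⟩
  | cap k f =>
    simp only [sysStep, hT, pos, List.drop_succ_cons, List.take_succ_cons, Option.some.injEq] at hs
    subst hs
    exact ⟨id, fun c => rfl, fun i hi b => rfl⟩

/-- the tokens which occur are known by their labels -/
theorem tok_inj {q : Bool} {D : Sys} {N m : ℕ} (hSI : SI q D N m) {l : Tk → ℕ} (hLI : LI q (D.T.map l)) (a : Tk)
    (ha : a ∈ srT (!q) D.T.tail) (t : Tk) (ht : t ∈ D.T) :
    ∀ τ, (t = .inr τ ∨ ∃ c < N, ∃ b, D.s c b = .inr τ) → l (.inr τ) = l a → .inr τ = a := by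
  intro τ hτ hl
  have h1 : Sum.inr τ ∈ srT (!q) D.T.tail := by
    rcases hτ with hτ | ⟨c, hc, b, hτ⟩
    · exact hSI.aT τ (hτ ▸ ht)
    · exact hSI.aS c hc b τ hτ
  unfold LI at hLI
  rw [← List.map_tail, srT_map] at hLI
  exact List.inj_on_of_nodup_map hLI h1 ha hl

/-- an acyclic parent function gives labels -/
theorem labs_of_rank (q : Bool) : ∀ (w : List Piece) (x : List Bool), x.length = nx w → ∀ D', sys q w = some D' →
    ∀ r' : Tk → ℕ, (∀ c < nx w, r' (D'.s c (fnx x c)) < r' (.inl c)) → ∃ L, labs q w x = some L := by
  intro w
  induction w with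
  | nil =>
    intro x hx D' _ r' _
    have : x = [] := List.length_eq_zero_iff.mp hx
    subst this
    exact ⟨_, rfl⟩
  | cons p w ih =>
    intro x hx D' hD' r' hr'
    simp only [sys, Option.bind_eq_some_iff] at hD'
    obtain ⟨D, hD, hs⟩ := hD'
    have hSI := sys_si q w D hD
    obtain ⟨g, hg1, hg2⟩ := sysStep_f hSI hs
    obtain ⟨h0, A0, hT⟩ : ∃ h0 A0, D.T = h0 :: A0 := by
      cases hT : D.T with
      | nil => exact absurd hT hSI.ne
      | cons a l => exact ⟨a, l, rfl⟩
    have hsplit : ∀ k, A0 = A0.take k ++ A0.drop k := fun k => (List.take_append_drop k A0).symm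
    have hsrc : ∀ k u v R, A0.drop k = u :: v :: R →
        (parq q k = true → u ∈ srT (!q) D.T.tail) ∧ (¬ parq q k = true → v ∈ srT (!q) D.T.tail) := by
      intro k u v R hB
      have hlen := len_take_of_drop hB
      have : srT (!q) D.T.tail = srT (!q) (A0.take k) ++ srT (parq q k) (u :: v :: R) := by
        rw [hT, List.tail_cons]
        conv_lhs => rw [hsplit k]
        rw [srT_append, hlen, ← par_eq, hB]
      constructor
      · intro hp
        rw [this, hp]; simp [srT]
      · intro hp
        have hp' : parq q k = false := by simpa using hp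
        rw [this, hp']; simp [srT]
    have hmem : ∀ k u v R, A0.drop k = u :: v :: R → u ∈ D.T ∧ v ∈ D.T := by
      intro k u v R hB
      rw [hT]
      constructor
      · exact List.mem_cons_of_mem _ (List.mem_of_mem_drop (i := k) (by rw [hB]; simp))
      · exact List.mem_cons_of_mem _ (List.mem_of_mem_drop (i := k) (by rw [hB]; simp))
    cases p with
    | cross k e =>
      match x, hx with
      | [], hx => simp [nx] at hx
      | c :: x, hx =>
        have hx' : x.length = nx w := by simpa [nx] using hx
        obtain ⟨f1, f2⟩ := fnx_cons c x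
        rw [hx'] at f1 f2
        have hr : ∀ i < nx w, r' (g (D.s i (fnx x i))) < r' (g (.inl i)) := by
          intro i hi
          have h1 := hr' i (by simp only [nx]; omega)
          rw [f2 i hi, hg2 i hi] at h1
          rw [hg1]
          exact h1
        obtain ⟨L, hL⟩ := ih x hx' D hD (fun z => r' (g z)) hr
        obtain ⟨hLI, _⟩ := labs_li q w x L hL
        obtain ⟨_, D2, hD2, l, r, rfl, hP⟩ := labs_fit q w x L hL
        rw [hD] at hD2
        simp only [Option.some.injEq] at hD2
        subst hD2
        obtain ⟨e1, e2⟩ := map_take_drop (l := l) hT k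
        simp only [labs, hL, Option.bind_some, labStep, pos, e1]
        simp only [sysStep, hT, pos, List.drop_succ_cons, List.take_succ_cons, List.map_cons] at hs
        match hB : A0.drop k, hs with
        | [], hs => simp at hs
        | [_], hs => simp at hs
        | u :: v :: R, hs =>
          simp only at hs
          simp only [List.map_cons]
          obtain ⟨hu, hv⟩ := hmem k u v R hB
          by_cases hp : parq q k = true
          · rw [if_pos hp] at hs ⊢
            simp only [Option.some.injEq] at hs
            subst hs
            cases c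
            · rw [if_neg (by simp)]
              by_cases huv : l u = l v
              · exfalso
                refine bad_cross hP hSI.kS u v (hSI.kT v hv) f2 f1 huv
                  (tok_inj hSI hLI u ((hsrc k u v R hB).1 hp) v hv) r' ?_
                exact hr'
              · rw [if_neg huv]; exact ⟨_, rfl⟩
            · rw [if_pos rfl]; exact ⟨_, rfl⟩
          · rw [if_neg hp] at hs ⊢
            simp only [Option.some.injEq] at hs
            subst hs
            cases c
            · rw [if_neg (by simp)]
              by_cases huv : l u = l v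
              · exfalso
                refine bad_cross hP hSI.kS v u (hSI.kT u hu) f2 f1 huv.symm
                  (tok_inj hSI hLI v ((hsrc k u v R hB).2 hp) u hu) r' ?_
                exact hr'
              · rw [if_neg huv]; exact ⟨_, rfl⟩
            · rw [if_pos rfl]; exact ⟨_, rfl⟩
    | cup k f =>
      have hr : ∀ i < nx w, r' (g (D.s i (fnx x i))) < r' (g (.inl i)) := by
        intro i hi
        have h1 := hr' i hi
        rw [hg2 i hi] at h1
        rw [hg1]
        exact h1
      obtain ⟨L, hL⟩ := ih x hx D hD (fun z => r' (g z)) hr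
      obtain ⟨hLI, _⟩ := labs_li q w x L hL
      obtain ⟨_, D2, hD2, l, r, rfl, hP⟩ := labs_fit q w x L hL
      rw [hD] at hD2
      simp only [Option.some.injEq] at hD2
      subst hD2
      obtain ⟨e1, e2⟩ := map_take_drop (l := l) hT k
      simp only [labs, hL, Option.bind_some, labStep, pos, e1]
      simp only [sysStep, hT, pos, List.drop_succ_cons, List.take_succ_cons, List.map_cons] at hs
      match hB : A0.drop k, hs with
      | [], hs => simp at hs
      | [_], hs => simp at hs
      | u :: v :: R, hs =>
        simp only at hs
        simp only [List.map_cons]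
        obtain ⟨hu, hv⟩ := hmem k u v R hB
        by_cases huv' : u = v
        · rw [if_pos huv'] at hs; simp at hs
        · rw [if_neg huv'] at hs
          by_cases huv : l u = l v
          · exfalso
            by_cases hp : parq q k = true
            · rw [if_pos hp] at hs
              simp only [Option.some.injEq] at hs
              subst hs
              exact bad_cup hP hSI.kS u v (hSI.kT v hv) huv (Ne.symm huv')
                (tok_inj hSI hLI u ((hsrc k u v R hB).1 hp) v hv) r' hr'
            · rw [if_neg hp] at hs
              simp only [Option.some.injEq] at hs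
              subst hs
              exact bad_cup hP hSI.kS v u (hSI.kT u hu) huv.symm huv'
                (tok_inj hSI hLI v ((hsrc k u v R hB).2 hp) u hu) r' hr'
          · rw [if_neg huv]; exact ⟨_, rfl⟩
    | cap k f =>
      have hr : ∀ i < nx w, r' (g (D.s i (fnx x i))) < r' (g (.inl i)) := by
        intro i hi
        have h1 := hr' i hi
        rw [hg2 i hi] at h1
        rw [hg1]
        exact h1
      obtain ⟨L, hL⟩ := ih x hx D hD (fun z => r' (g z)) hr
      simp only [labs, hL, Option.bind_some, labStep]
      exact ⟨_, rfl⟩

/-- the parent crossings: none = the root -/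
def dgs (q : Bool) (w : List Piece) (c : ℕ) (b : Bool) : Option ℕ :=
  if c < nx w then
    match sys q w with
    | some D => match D.s c b with
      | .inl d => some d
      | .inr _ => none
    | none => none
  else none

/-- Labels without a cycle = acyclic parent function on the crossings. -/
theorem labs_iff (q : Bool) (w : List Piece) (x : List Bool) (hx : x.length = nx w) :
    (labs q w x).isSome ↔ (sys q w).isSome ∧ ∃ r : ℕ → ℕ, ∀ v u, dgs q w v (fnx x v) = some u → r u < r v := by
  constructor
  · intro h
    obtain ⟨L, hL⟩ := Option.isSome_iff_exists.mp h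
    obtain ⟨_, D, hD, l, r, _, hP⟩ := labs_fit q w x L hL
    refine ⟨by rw [hD]; rfl, fun c => r (.inl c), ?_⟩
    intro v u huv
    unfold dgs at huv
    split_ifs at huv with hv
    rw [hD] at huv
    simp only at huv
    have h2 := (hP v hv).2
    cases hz : D.s v (fnx x v) with
    | inl d =>
      rw [hz] at huv h2
      simp only [Option.some.injEq] at huv
      subst huv
      exact h2
    | inr t => rw [hz] at huv; simp at huv
  · rintro ⟨h1, r, hr⟩
    obtain ⟨D, hD⟩ := Option.isSome_iff_exists.mp h1
    obtain ⟨L, hL⟩ := labs_of_rank q w x hx D hD (fun z => match z with | .inl c => r c + 1 | .inr _ => 0) (by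
      intro c hc
      have h2 := hr c
      unfold dgs at h2
      rw [if_pos hc, hD] at h2
      simp only at h2
      cases hz : D.s c (fnx x c) with
      | inl d =>
        rw [hz] at h2
        have := h2 d rfl
        simp only
        omega
      | inr t => simp)
    rw [hL]; rfl

end LG3P
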