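import Pool.Agent.Lib.MP_3cd99b_gt.W0

/-!
Positions of a word (slice, strand), the walk along the smoothed strands (crossings are walls, both strands run
through), in the direction q: for q = false the even strands run to the left and the odd ones to the right, for
q = true the other way round.
-/

namespace LG3P.Wo
open LG3

theorem rgt_par (p : Piece) (j : ℕ) : (rgt p j).2 % 2 = (if (rgt p j).1 then j % 2 else (j + 1) % 2) := by
  cases p <;> simp only [rgt] <;> split_ifs <;> simp_all <;> omega

theorem lft_par (p : Piece) (j : ℕ) : (lft p j).2 % 2 = (if (lft p j).1 then j % 2 else (j + 1) % 2) := by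
  cases p <;> simp only [lft] <;> split_ifs <;> simp_all <;> omega

theorem lft_of_rgt (p : Piece) (j : ℕ) (h : (rgt p j).1 = true) : lft p (rgt p j).2 = (true, j) := by
  cases p with
  | cross k s => rfl
  | cup k f =>
    simp only [rgt, lft]
    split_ifs <;> simp_all <;> omega
  | cap k f =>
    simp only [rgt, lft] at h ⊢
    split_ifs at h ⊢ <;> simp_all <;> omega

theorem rgt_of_lft (p : Piece) (j : ℕ) (h : (lft p j).1 = true) : rgt p (lft p j).2 = (true, j) := by
  cases p with
  | cross k s => rfl
  | cap k f =>
    simp only [rgt, lft]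
    split_ifs <;> simp_all <;> omega
  | cup k f =>
    simp only [rgt, lft] at h ⊢
    split_ifs at h ⊢ <;> simp_all <;> omega

theorem rgt_turn (p : Piece) (j : ℕ) (h : (rgt p j).1 = false) : rgt p (rgt p j).2 = (false, j) := by
  cases p with
  | cross k s => simp [rgt] at h
  | cup k f => simp [rgt] at h
  | cap k f =>
    simp only [rgt] at h ⊢
    split_ifs at h ⊢ <;> simp_all

theorem lft_turn (p : Piece) (j : ℕ) (h : (lft p j).1 = false) : lft p (lft p j).2 = (false, j) := by
  cases p with
  | cross k s => simp [lft] at h
  | cap k f => simp [lft] at h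
  | cup k f =>
    simp only [lft] at h ⊢
    split_ifs at h ⊢ <;> simp_all

theorem west_not (q : Bool) (j : ℕ) : west (!q) j = !(west q j) := by
  unfold west; cases q <;> cases decide (j % 2 = 0) <;> rfl

theorem west_congr (q : Bool) {i j : ℕ} (h : i % 2 = j % 2) : west q i = west q j := by
  unfold west; rw [h]

theorem west_flip (q : Bool) {i j : ℕ} (h : i % 2 = (j + 1) % 2) : west q i = !(west q j) := by
  unfold west
  rcases Nat.mod_two_eq_zero_or_one j with h1 | h1
  · have h2 : i % 2 = 1 := by omega
    rw [h1, h2]; cases q <;> rfl
  · have h2 : i % 2 = 0 := by omega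
    rw [h1, h2]; cases q <;> rfl

theorem mv_west (w : List Piece) (q : Bool) (t j : ℕ) (p : Piece) (hp : w[t]? = some p) (h : west q j = true) :
    mv w q (t + 1, j) = if (lft p j).1 then (t, (lft p j).2) else (t + 1, (lft p j).2) := by
  simp only [mv, h, if_true, hp]

theorem mv_east (w : List Piece) (q : Bool) (t j : ℕ) (p : Piece) (hp : w[t]? = some p) (h : west q j = false) :
    mv w q (t, j) = if (rgt p j).1 then (t + 1, (rgt p j).2) else (t, (rgt p j).2) := by
  simp only [mv, h, Bool.false_eq_true, if_false, hp]

theorem mv_zero (w : List Piece) (q : Bool) (j : ℕ) (h : west q j = true) : mv w q (0, j) = (w.length, 0) := by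
  simp only [mv, h, if_true]

theorem mv_len (w : List Piece) (q : Bool) (j : ℕ) (h : west q j = false) : mv w q (w.length, j) = (0, 0) := by
  simp only [mv, h, Bool.false_eq_true, if_false]
  rw [List.getElem?_eq_none (le_refl _)]

theorem foldl_none' (w : List Piece) : w.foldl (fun o p => o.bind p.dir) none = none := by
  induction w with
  | nil => rfl
  | cons p w ih => simpa using ih

theorem SL_some {w : List Piece} (hw : IsTangle w) (t : ℕ) :
    (w.take t).foldl (fun o p => o.bind p.dir) (some [true]) = some (SL w t) := by
  unfold SL
  rcases h : (w.take t).foldl (fun o p => o.bind p.dir) (some [true]) with _ | d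
  · exfalso
    unfold IsTangle at hw
    rw [← List.take_append_drop t w, List.foldl_append, h, foldl_none'] at hw
    simp at hw
  · rw [h]; rfl

theorem SL_zero (w : List Piece) : SL w 0 = [true] := rfl

theorem SL_len {w : List Piece} (hw : IsTangle w) : SL w w.length = [true] := by
  have h := SL_some hw w.length
  rw [List.take_length] at h
  unfold IsTangle at hw
  rw [hw] at h
  exact (Option.some.inj h).symm

theorem SL_succ {w : List Piece} (hw : IsTangle w) {t : ℕ} {p : Piece} (hp : w[t]? = some p) :
    p.dir (SL w t) = some (SL w (t + 1)) := by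
  have h := SL_some hw (t + 1)
  have h2 : w.take (t + 1) = w.take t ++ [p] := by
    rw [List.take_add_one, hp]; rfl
  rw [h2, List.foldl_append, SL_some hw t] at h
  exact h

/-- the direction of the strand at a position -/
def dr (w : List Piece) (z : ℕ × ℕ) : Bool := (SL w z.1).getD z.2 false

/-- the type of a position, constant along the smoothed strands -/
def ty (w : List Piece) (z : ℕ × ℕ) : Bool := decide (z.2 % 2 = 0) ^^ !(dr w z)

theorem dir_cup {k : ℕ} {f : Bool} {d d' : List Bool} (h : (Piece.cup k f).dir d = some d') :
    k ≤ d.length ∧ d' = d.take k ++ f :: (!f) :: d.drop k := by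
  simp only [Piece.dir] at h
  split_ifs at h with h1
  exact ⟨h1, (Option.some.inj h).symm⟩

theorem dir_cap {k : ℕ} {f : Bool} {d d' : List Bool} (h : (Piece.cap k f).dir d = some d') :
    ∃ a b, a.length = k ∧ d = a ++ f :: (!f) :: b ∧ d' = a ++ b := by
  simp only [Piece.dir] at h
  split_ifs at h with h1
  have hk : k ≤ d.length := by
    by_contra hk
    rw [List.drop_eq_nil_of_le (by omega)] at h1
    simp at h1
  refine ⟨d.take k, d.drop (k + 2), by simp [hk], ?_, (Option.some.inj h).symm⟩
  conv_lhs => rw [← List.take_append_drop k d, h1]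

theorem dir_cross {k : ℕ} {s : Bool} {d d' : List Bool} (h : (Piece.cross k s).dir d = some d') :
    ∃ a b, a.length = k ∧ d = a ++ true :: true :: b ∧ d' = d := by
  simp only [Piece.dir] at h
  split_ifs at h with h1
  have hk : k ≤ d.length := by
    by_contra hk
    rw [List.drop_eq_nil_of_le (by omega)] at h1
    simp at h1
  refine ⟨d.take k, d.drop (k + 2), by simp [hk], ?_, (Option.some.inj h).symm⟩
  conv_lhs => rw [← List.take_append_drop k d, h1]

theorem getD_app_lt (a b : List Bool) (j : ℕ) (h : j < a.length) : (a ++ b).getD j false = a.getD j false := by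
  simp [List.getD, List.getElem?_append_left h]

theorem getD_app_ge (a b : List Bool) (j : ℕ) (h : a.length ≤ j) :
    (a ++ b).getD j false = b.getD (j - a.length) false := by
  simp [List.getD, List.getElem?_append_right h]

/-- the strands of two neighbouring slices: lengths and directions along the step to the right -/
theorem step_rgt (p : Piece) (d d' : List Bool) (h : p.dir d = some d') (j : ℕ) (hj : j < d.length) :
    if (rgt p j).1 then (rgt p j).2 < d'.length ∧ d'.getD (rgt p j).2 false = d.getD j false
    else (rgt p j).2 < d.length ∧ d.getD (rgt p j).2 false = !(d.getD j false) := by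
  cases p with
  | cross k s =>
    obtain ⟨a, b, -, -, rfl⟩ := dir_cross h
    simp [rgt, hj]
  | cup k f =>
    obtain ⟨hk, rfl⟩ := dir_cup h
    simp only [rgt, if_true]
    have ht : (d.take k).length = k := by simp [hk]
    split_ifs with h1
    · refine ⟨by simp; omega, ?_⟩
      rw [getD_app_lt _ _ _ (by omega)]
      conv_rhs => rw [← List.take_append_drop k d]
      rw [getD_app_lt _ _ _ (by omega)]
    · refine ⟨by simp; omega, ?_⟩
      rw [getD_app_ge _ _ _ (by omega), ht]
      conv_rhs => rw [← List.take_append_drop k d]
      rw [getD_app_ge _ _ _ (by omega), ht]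
      have : j + 2 - k = (j - k) + 2 := by omega
      rw [this]
      rfl
  | cap k f =>
    obtain ⟨a, b, ha, rfl, rfl⟩ := dir_cap h
    simp only [List.length_append, List.length_cons] at hj
    by_cases h1 : j < k
    · have e : rgt (.cap k f) j = (true, j) := by simp only [rgt, if_pos h1]
      rw [e]
      simp only [if_true]
      refine ⟨by simp; omega, ?_⟩
      rw [getD_app_lt _ _ _ (by omega), getD_app_lt _ _ _ (by omega)]
    by_cases h2 : j = k
    · have e : rgt (.cap k f) j = (false, k + 1) := by simp only [rgt, if_neg h1, if_pos h2]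
      rw [e]
      simp only [Bool.false_eq_true, if_false]
      refine ⟨by simp; omega, ?_⟩
      rw [getD_app_ge _ _ _ (by omega), getD_app_ge _ _ _ (by omega), ha, h2]
      have e1 : k + 1 - k = 1 := by omega
      rw [e1, Nat.sub_self]
      rfl
    by_cases h3 : j = k + 1
    · have e : rgt (.cap k f) j = (false, k) := by simp only [rgt, if_neg h1, if_neg h2, if_pos h3]
      rw [e]
      simp only [Bool.false_eq_true, if_false]
      refine ⟨by simp; omega, ?_⟩
      rw [getD_app_ge _ _ _ (by omega), getD_app_ge _ _ _ (by omega), ha, h3]
      have e1 : k + 1 - k = 1 := by omega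
      rw [e1, Nat.sub_self]
      simp
    · have e : rgt (.cap k f) j = (true, j - 2) := by simp only [rgt, if_neg h1, if_neg h2, if_neg h3]
      rw [e]
      simp only [if_true]
      refine ⟨by simp; omega, ?_⟩
      rw [getD_app_ge _ _ _ (by omega), getD_app_ge _ _ _ (by omega), ha]
      have e1 : j - k = (j - 2 - k) + 2 := by omega
      rw [e1]
      rfl

/-- the same for the step to the left -/
theorem step_lft (p : Piece) (d d' : List Bool) (h : p.dir d = some d') (j : ℕ) (hj : j < d'.length) :
    if (lft p j).1 then (lft p j).2 < d.length ∧ d.getD (lft p j).2 false = d'.getD j false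
    else (lft p j).2 < d'.length ∧ d'.getD (lft p j).2 false = !(d'.getD j false) := by
  cases p with
  | cross k s =>
    obtain ⟨a, b, -, -, rfl⟩ := dir_cross h
    simp [lft, hj]
  | cap k f =>
    obtain ⟨a, b, ha, rfl, rfl⟩ := dir_cap h
    simp only [List.length_append] at hj
    simp only [lft, if_true]
    split_ifs with h1
    · refine ⟨by simp; omega, ?_⟩
      rw [getD_app_lt _ _ _ (by omega), getD_app_lt _ _ _ (by omega)]
    · refine ⟨by simp; omega, ?_⟩
      rw [getD_app_ge _ _ _ (by omega), getD_app_ge _ _ _ (by omega), ha]
      have : j + 2 - k = (j - k) + 2 := by omega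
      rw [this]
      rfl
  | cup k f =>
    obtain ⟨hk, rfl⟩ := dir_cup h
    have ht : (d.take k).length = k := by simp [hk]
    simp only [List.length_append, List.length_cons, List.length_drop, ht] at hj
    by_cases h1 : j < k
    · have e : lft (.cup k f) j = (true, j) := by simp only [lft, if_pos h1]
      rw [e]
      simp only [if_true]
      refine ⟨by omega, ?_⟩
      rw [getD_app_lt _ _ _ (by omega)]
      conv_lhs => rw [← List.take_append_drop k d]
      rw [getD_app_lt _ _ _ (by omega)]
    by_cases h2 : j = k
    · have e : lft (.cup k f) j = (false, k + 1) := by simp only [lft, if_neg h1, if_pos h2]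
      rw [e]
      simp only [Bool.false_eq_true, if_false]
      refine ⟨by simp; omega, ?_⟩
      rw [getD_app_ge _ _ _ (by omega), getD_app_ge _ _ _ (by omega), ht, h2]
      have e1 : k + 1 - k = 1 := by omega
      rw [e1, Nat.sub_self]
      rfl
    by_cases h3 : j = k + 1
    · have e : lft (.cup k f) j = (false, k) := by simp only [lft, if_neg h1, if_neg h2, if_pos h3]
      rw [e]
      simp only [Bool.false_eq_true, if_false]
      refine ⟨by simp; omega, ?_⟩
      rw [getD_app_ge _ _ _ (by omega), getD_app_ge _ _ _ (by omega), ht, h3]
      have e1 : k + 1 - k = 1 := by omega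
      rw [e1, Nat.sub_self]
      simp
    · have e : lft (.cup k f) j = (true, j - 2) := by simp only [lft, if_neg h1, if_neg h2, if_neg h3]
      rw [e]
      simp only [if_true]
      refine ⟨by omega, ?_⟩
      rw [getD_app_ge _ _ _ (by omega), ht]
      conv_lhs => rw [← List.take_append_drop k d]
      rw [getD_app_ge _ _ _ (by omega), ht]
      have e1 : j - k = (j - 2 - k) + 2 := by omega
      rw [e1]
      rfl

end LG3P.Wo
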