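import Pool.Agent.Lib.MP_3cd99b_gt.DG2
import Pool.Agent.Lib.MP_3cd99b_gt.Wo1

/-!
The parent function of the crossings follows the arcs: a function on the positions (slice, strand) that is constant
along the strands between the crossings has the same value at the departure from a crossing and at the arrival at the
parent crossing.
-/

namespace LG3P
open LG3

variable {α : Type*}

/-- is the strand j one of the two strands of the crossing p -/
def Xst : Piece → ℕ → Prop
  | .cross k _, j => j = k ∨ j = k + 1
  | _, _ => False

/-- the directions in the slice t, first slice o -/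
def SLo (o : List Bool) (w : List Piece) (t : ℕ) : List Bool :=
  ((w.take t).foldl (fun o p => o.bind p.dir) (some o)).getD []

/-- the local rules for functions on positions -/
def Rul (o : List Bool) (w : List Piece) (φ : ℕ → ℕ → α) : Prop :=
  ∀ t p, w[t]? = some p → ∀ j, ¬ Xst p j →
    (j < (SLo o w t).length →
      ((Wo.rgt p j).1 = true → φ t j = φ (t + 1) (Wo.rgt p j).2) ∧ ((Wo.rgt p j).1 = false → φ t j = φ t (Wo.rgt p j).2)) ∧
    (j < (SLo o w (t + 1)).length → (Wo.lft p j).1 = false → φ (t + 1) j = φ (t + 1) (Wo.lft p j).2)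

/-- the rules at one piece -/
def Loc (p : Piece) (o o' : List Bool) (f g : ℕ → α) : Prop :=
  ∀ j, ¬ Xst p j →
    (j < o.length → ((Wo.rgt p j).1 = true → f j = g (Wo.rgt p j).2) ∧ ((Wo.rgt p j).1 = false → f j = f (Wo.rgt p j).2)) ∧
    (j < o'.length → (Wo.lft p j).1 = false → g j = g (Wo.lft p j).2)

theorem SLo_zero (o : List Bool) (w : List Piece) : SLo o w 0 = o := rfl

theorem SLo_cons {o o' : List Bool} {p : Piece} (h : p.dir o = some o') (w : List Piece) (t : ℕ) :
    SLo o (p :: w) (t + 1) = SLo o' w t := by
  simp [SLo, h]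

theorem Rul_cons {o o' : List Bool} {p : Piece} (h : p.dir o = some o') {w : List Piece} {φ : ℕ → ℕ → α}
    (hR : Rul o (p :: w) φ) : Loc p o o' (φ 0) (φ 1) ∧ Rul o' w (fun t => φ (t + 1)) := by
  constructor
  · intro j hj
    have := hR 0 p rfl j hj
    rw [SLo_zero, SLo_cons h, SLo_zero] at this
    exact this
  · intro t p' hp' j hj
    have := hR (t + 1) p' hp' j hj
    rw [SLo_cons h, SLo_cons h] at this
    exact this

/-- letter index (from the left) and strand of the crossing number c -/
def cxp : List Piece → ℕ → ℕ × ℕ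
  | [], _ => (0, 0)
  | .cross k _ :: w, c => if c = nx w then (0, k) else ((cxp w c).1 + 1, (cxp w c).2)
  | .cup _ _ :: w, c => ((cxp w c).1 + 1, (cxp w c).2)
  | .cap _ _ :: w, c => ((cxp w c).1 + 1, (cxp w c).2)

/-- the strand among k, k+1 with parq = b -/
def jj (q : Bool) (k : ℕ) (b : Bool) : ℕ := if parq q k = b then k else k + 1

/-- the position where the walk leaves crossing c through its incoming arc b -/
def dep (q : Bool) (w : List Piece) (c : ℕ) (b : Bool) : ℕ × ℕ :=
  ((cxp w c).1 + (if b then 0 else 1), jj q (cxp w c).2 b)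

/-- the position where the walk arrives at crossing c through its outgoing arc b -/
def arr (q : Bool) (w : List Piece) (c : ℕ) (b : Bool) : ℕ × ℕ :=
  ((cxp w c).1 + (if b then 1 else 0), jj q (cxp w c).2 b)

/-- type and value of the points of a slice -/
def ptl : Bool → List Bool → (ℕ → α) → List (Bool × α)
  | _, [], _ => []
  | b, d :: o, f => (d == b, f 0) :: ptl (!b) o (fun j => f (j + 1))

theorem ptl_length : ∀ (o : List Bool) (b : Bool) (f : ℕ → α), (ptl b o f).length = o.length := by
  intro o
  induction o with
  | nil => intro b f; rfl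
  | cons d o ih => intro b f; simp [ptl, ih]

theorem ptl_append : ∀ (o1 o2 : List Bool) (b : Bool) (f : ℕ → α),
    ptl b (o1 ++ o2) f = ptl b o1 f ++ ptl (b ^^ decide (o1.length % 2 = 1)) o2 (fun j => f (j + o1.length)) := by
  intro o1
  induction o1 with
  | nil => intro o2 b f; cases b <;> rfl
  | cons d o1 ih =>
    intro o2 b f
    have e : decide ((d :: o1).length % 2 = 1) = !decide (o1.length % 2 = 1) := by
      rw [← decide_not]
      apply decide_eq_decide.mpr
      simp only [List.length_cons]
      omega
    have e2 : ((!b) ^^ decide (o1.length % 2 = 1)) = (b ^^ !decide (o1.length % 2 = 1)) := by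
      cases b <;> simp
    rw [e, ← e2]
    simp only [List.cons_append, ptl, ih, List.length_cons]
    congr 2

theorem ptl_congr : ∀ (o : List Bool) (b : Bool) (f g : ℕ → α), (∀ j < o.length, f j = g j) →
    ptl b o f = ptl b o g := by
  intro o
  induction o with
  | nil => intro b f g _; rfl
  | cons d o ih =>
    intro b f g h
    simp only [ptl]
    rw [h 0 (by simp), ih (!b) _ (fun j => g (j + 1)) (fun j hj => h (j + 1) (by simpa using hj))]

/-- the tail z has the value y -/
def Pt (V : Tk → Bool → α) (lam : ℕ → Bool) (z : Tk) (y : Bool × α) : Prop :=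
  V z y.1 = y.2 ∧ ∀ τ, z = .inr τ → y.1 = lam τ

/-- valuation of the tails -/
structure WI (q : Bool) (o : List Bool) (w : List Piece) (D : Sys) (φ : ℕ → ℕ → α) (V : Tk → Bool → α)
    (lam : ℕ → Bool) : Prop where
  /-- crossings -/
  vx : ∀ c < nx w, ∀ b, V (.inl c) b = φ (arr q w c b).1 (arr q w c b).2
  /-- incoming arcs -/
  vs : ∀ c < nx w, ∀ b, Pt V lam (D.s c b) (b, φ (dep q w c b).1 (dep q w c b).2)
  /-- points -/
  vp : List.Forall₂ (Pt V lam) D.T.tail (ptl (!q) o (φ 0) ++ [(!q, φ w.length 0)])

theorem forall2_mid {β γ : Type*} {P : β → γ → Prop} : ∀ (A : List β) (X : List γ) (B : List β) (Y : List γ),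
    A.length = X.length → List.Forall₂ P (A ++ B) (X ++ Y) → List.Forall₂ P A X ∧ List.Forall₂ P B Y := by
  intro A
  induction A with
  | nil =>
    intro X B Y hl h
    have : X = [] := List.length_eq_zero_iff.mp hl.symm
    subst this
    exact ⟨List.Forall₂.nil, h⟩
  | cons a A ih =>
    intro X B Y hl h
    cases X with
    | nil => simp at hl
    | cons x X =>
      simp only [List.cons_append, List.forall₂_cons] at h
      obtain ⟨h1, h2⟩ := ih X B Y (by simpa using hl) h.2
      exact ⟨List.Forall₂.cons h.1 h1, h2⟩

theorem forall2_app {β γ : Type*} {P : β → γ → Prop} {A : List β} {X : List γ} {B : List β} {Y : List γ}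
    (h1 : List.Forall₂ P A X) (h2 : List.Forall₂ P B Y) : List.Forall₂ P (A ++ B) (X ++ Y) := by
  induction h1 with
  | nil => exact h2
  | cons h _ ih => exact List.Forall₂.cons h ih

theorem forall2_map {β γ : Type*} {P Q : β → γ → Prop} (g : β → β) {A : List β} {X : List γ}
    (h : List.Forall₂ P A X) (hg : ∀ z ∈ A, ∀ y, P z y → Q (g z) y) : List.Forall₂ Q (A.map g) X := by
  induction h with
  | nil => exact List.Forall₂.nil
  | cons h _ ih =>
    exact List.Forall₂.cons (hg _ List.mem_cons_self _ h) (ih fun z hz => hg z (List.mem_cons_of_mem _ hz))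

/-- the new valuation at a crossing -/
theorem pt_cross {V : Tk → Bool → α} {lam : ℕ → Bool} {N m : ℕ} {a : Tk} {g0 g1 g2 : α}
    (ha : ∃ τ, a = .inr τ) (hPa : Pt V lam a (true, g0)) :
    ∃ (V' : Tk → Bool → α) (lam' : ℕ → Bool), V' (.inl N) true = g0 ∧ V' (.inl N) false = g1 ∧
      (∀ b, V' (.inr m) b = g2) ∧ lam' m = true ∧ (∀ z b, goodT N m z → V' z b = V z b) ∧
      ∀ z y, goodT N m z → Pt V lam z y → Pt V' lam' (sb1 a (.inl N) z) y := by
  have e1 : ∀ z, goodT N m z → z ≠ .inl N ∧ z ≠ .inr m := by
    intro z hz
    constructor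
    · rintro rfl; exact lt_irrefl N hz
    · rintro rfl; exact lt_irrefl m hz
  refine ⟨fun z b => if z = .inl N then (if b then g0 else g1) else if z = .inr m then g2 else V z b,
    fun τ => if τ = m then true else lam τ, by simp, by simp, by simp, by simp, ?_, ?_⟩
  · intro z b hz
    simp [(e1 z hz).1, (e1 z hz).2]
  · intro z y hz hP
    rcases sb1_cases a (.inl N) z with ⟨h1, h2⟩ | ⟨h1, h2⟩
    · rw [h2]
      subst h1
      obtain ⟨τ, rfl⟩ := ha
      have h3 := hP.2 τ rfl
      have h4 := hPa.2 τ rfl
      simp only at h4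
      rw [← h4] at h3
      have h5 := hP.1
      have h6 := hPa.1
      simp only at h6
      rw [h3, h6] at h5
      refine ⟨?_, fun τ' h => by simp at h⟩
      simp [h3, h5]
    · rw [h2]
      refine ⟨?_, ?_⟩
      · simp only [(e1 z hz).1, (e1 z hz).2, if_false]
        exact hP.1
      · intro τ hτ
        have h3 := hP.2 τ hτ
        have : τ ≠ m := by
          rintro rfl
          exact (e1 z hz).2 hτ
        simp [this, h3]

theorem Loc.cross {k : ℕ} {e : Bool} {o o' : List Bool} {f g : ℕ → α} (h : Loc (.cross k e) o o' f g) :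
    ∀ j < o.length, j ≠ k → j ≠ k + 1 → f j = g j := by
  intro j hj h1 h2
  exact (h j (by simp [Xst, h1, h2])).1 hj |>.1 rfl

theorem ptl_two (b d d' : Bool) (o : List Bool) (f : ℕ → α) :
    ptl b (d :: d' :: o) f = (d == b, f 0) :: (d' == !b, f 1) :: ptl b o (fun j => f (j + 2)) := by
  simp only [ptl, Bool.not_not]

/-- the step of the valuation at a crossing -/
theorem wi_cross {q : Bool} {w : List Piece} {k : ℕ} {e : Bool} {o o' : List Bool} {D D' : Sys} {m : ℕ}
    (hd : (Piece.cross k e).dir o = some o') (hSI : SI q D (nx w) m)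
    (hs : sysStep q (.cross k e) (nx w) m D = some D') {φ : ℕ → ℕ → α}
    (hL : Loc (.cross k e) o o' (φ 0) (φ 1)) {V : Tk → Bool → α} {lam : ℕ → Bool}
    (h : WI q o' w D (fun t => φ (t + 1)) V lam) :
    ∃ V' lam', WI q o (.cross k e :: w) D' φ V' lam' := by
  obtain ⟨h0, A0, hT⟩ : ∃ h0 A0, D.T = h0 :: A0 := by
    cases hT : D.T with
    | nil => exact absurd hT hSI.ne
    | cons a l => exact ⟨a, l, rfl⟩
  obtain ⟨a, b, ha, rfl, rfl⟩ := Wo.dir_cross hd
  have hsplit : A0 = A0.take k ++ A0.drop k := (List.take_append_drop k A0).symm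
  have hlen0 : A0.length = (a ++ true :: true :: b).length + 1 := by
    have := h.vp.length_eq
    rw [hT] at this
    simp only [List.tail_cons, List.length_append, ptl_length, List.length_cons, List.length_nil] at this
    simpa using this
  simp only [sysStep, hT, pos, List.drop_succ_cons, List.take_succ_cons, List.map_cons] at hs
  have hflag : (!q ^^ decide (a.length % 2 = 1)) = parq q k := by rw [ha, par_eq]
  match hB : A0.drop k, hs with
  | [], hs => simp at hs
  | [_], hs => simp at hs
  | u :: v :: R, hs =>
    have hlen := len_take_of_drop hB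
    have hsrc : (parq q k = true → u ∈ srT (!q) D.T.tail) ∧ (¬ parq q k = true → v ∈ srT (!q) D.T.tail) := by
      have : srT (!q) D.T.tail = srT (!q) (A0.take k) ++ srT (parq q k) (u :: v :: R) := by
        rw [hT, List.tail_cons]
        conv_lhs => rw [hsplit]
        rw [srT_append, hlen, ← par_eq, hB]
      constructor
      · intro hp
        rw [this, hp]; simp [srT]
      · intro hp
        have hp' : parq q k = false := by simpa using hp
        rw [this, hp']; simp [srT]
    have gA : ∀ z ∈ A0.take k, goodT (nx w) m z := fun z hz =>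
      hSI.kT z (by rw [hT]; exact List.mem_cons_of_mem _ (List.mem_of_mem_take hz))
    have gD : ∀ z ∈ A0.drop k, goodT (nx w) m z := fun z hz =>
      hSI.kT z (by rw [hT]; exact List.mem_cons_of_mem _ (List.mem_of_mem_drop hz))
    have gu : goodT (nx w) m u := gD u (by rw [hB]; simp)
    have gv : goodT (nx w) m v := gD v (by rw [hB]; simp)
    have gR : ∀ z ∈ R, goodT (nx w) m z := fun z hz => gD z (by rw [hB]; simp [hz])
    -- split the values
    have hvp := h.vp
    rw [hT, List.tail_cons] at hvp
    have hA1 : A0 = A0.take k ++ (u :: v :: R) := by rw [← hB]; exact hsplit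
    rw [hA1, ptl_append, hflag, List.append_assoc, ptl_two] at hvp
    obtain ⟨hPA, hPB⟩ := forall2_mid _ _ _ _ (by rw [hlen, ptl_length, ha]) hvp
    simp only [List.cons_append, List.forall₂_cons] at hPB
    obtain ⟨hPu, hPv, hPR⟩ := hPB
    have hfA : ∀ j < a.length, φ 0 j = φ 1 j := fun j hj => hL.cross j (by simp; omega) (by omega) (by omega)
    have hfR : ∀ j < b.length, φ 0 (j + 2 + a.length) = φ 1 (j + 2 + a.length) := fun j hj =>
      hL.cross _ (by simp; omega) (by omega) (by omega)
    -- the list of the new slice
    have hnew : ptl (!q) (a ++ true :: true :: b) (φ 0) ++ [(!q, φ (Piece.cross k e :: w).length 0)] =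
        ptl (!q) a (φ 1) ++ (parq q k, φ 0 k) :: (!parq q k, φ 0 (k + 1)) ::
          (ptl (parq q k) b (fun j => φ 1 (j + 2 + a.length)) ++ [(!q, φ (w.length + 1) 0)]) := by
      rw [ptl_append, hflag, ptl_two, ptl_congr a _ (φ 0) (φ 1) hfA,
        ptl_congr b _ (fun j => φ 0 (j + 2 + a.length)) (fun j => φ 1 (j + 2 + a.length)) hfR, ha]
      simp only [List.append_assoc, List.cons_append, List.length_cons, Nat.zero_add, Nat.add_comm 1 k]
      cases parq q k <;> rfl
    by_cases hp : parq q k = true
    · simp only [if_pos hp, Option.some.injEq] at hs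
      subst hs
      have hPu' : Pt V lam u (true, φ 1 k) := by
        simpa [hp, ha] using hPu
      have hPv' : Pt V lam v (false, φ 1 (k + 1)) := by
        simpa [hp, ha, Nat.add_comm 1 k] using hPv
      obtain ⟨V', lam', v1, v2, v3, v4, v5, v6⟩ := pt_cross (N := nx w) (m := m) (g1 := φ 0 (k + 1)) (g2 := φ 0 k)
        (hSI.aK u (hsrc.1 hp)) hPu'
      refine ⟨V', lam', ?_, ?_, ?_⟩
      · intro c hc b'
        by_cases hcN : c = nx w
        · subst hcN
          cases b'
          · simp [v2, arr, cxp, jj, hp]
          · simp [v1, arr, cxp, jj, hp]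
        · have hc' : c < nx w := by simp only [nx] at hc; omega
          rw [v5 (.inl c) b' hc', h.vx c hc' b']
          simp [arr, cxp, hcN, Nat.add_right_comm]
      · intro c hc b'
        by_cases hcN : c = nx w
        · subst hcN
          cases b'
          · simp only [if_true, Bool.false_eq_true, if_false]
            have := v6 v _ gv hPv'
            simpa [dep, cxp, jj, hp] using this
          · simp only [if_true]
            refine ⟨?_, ?_⟩
            · rw [v3]; simp [dep, cxp, jj, hp]
            · intro τ hτ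
              simp only [Sum.inr.injEq] at hτ
              subst hτ
              exact v4.symm
        · have hc' : c < nx w := by simp only [nx] at hc; omega
          simp only [hcN, if_false]
          have := v6 _ _ (hSI.kS c hc' b') (h.vs c hc' b')
          simpa [dep, cxp, hcN, Nat.add_right_comm] using this
      · rw [hnew, hp]
        simp only [List.cons_append, List.tail_cons]
        refine forall2_app (forall2_map _ hPA fun z hz y hy => v6 z y (gA z hz) hy) ?_
        refine List.Forall₂.cons ⟨by rw [v3], ?_⟩ (List.Forall₂.cons ⟨v2, ?_⟩ ?_)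
        · intro τ hτ
          simp only [Sum.inr.injEq] at hτ
          subst hτ
          exact v4.symm
        · intro τ hτ; simp at hτ
        · have := forall2_map (Q := Pt V' lam') (sb1 u (.inl (nx w))) hPR fun z hz y hy => v6 z y (gR z hz) hy
          rw [hp] at this
          exact this
    · have hp' : parq q k = false := by simpa using hp
      simp only [if_neg hp, Option.some.injEq] at hs
      subst hs
      have hPu' : Pt V lam u (false, φ 1 k) := by
        simpa [hp', ha] using hPu
      have hPv' : Pt V lam v (true, φ 1 (k + 1)) := by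
        simpa [hp', ha, Nat.add_comm 1 k] using hPv
      obtain ⟨V', lam', v1, v2, v3, v4, v5, v6⟩ := pt_cross (N := nx w) (m := m) (g1 := φ 0 k) (g2 := φ 0 (k + 1))
        (hSI.aK v (hsrc.2 hp)) hPv'
      refine ⟨V', lam', ?_, ?_, ?_⟩
      · intro c hc b'
        by_cases hcN : c = nx w
        · subst hcN
          cases b'
          · simp [v2, arr, cxp, jj, hp']
          · simp [v1, arr, cxp, jj, hp']
        · have hc' : c < nx w := by simp only [nx] at hc; omega
          rw [v5 (.inl c) b' hc', h.vx c hc' b']
          simp [arr, cxp, hcN, Nat.add_right_comm]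
      · intro c hc b'
        by_cases hcN : c = nx w
        · subst hcN
          cases b'
          · simp only [if_true, Bool.false_eq_true, if_false]
            have := v6 u _ gu hPu'
            simpa [dep, cxp, jj, hp'] using this
          · simp only [if_true]
            refine ⟨?_, ?_⟩
            · rw [v3]; simp [dep, cxp, jj, hp']
            · intro τ hτ
              simp only [Sum.inr.injEq] at hτ
              subst hτ
              exact v4.symm
        · have hc' : c < nx w := by simp only [nx] at hc; omega
          simp only [hcN, if_false]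
          have := v6 _ _ (hSI.kS c hc' b') (h.vs c hc' b')
          simpa [dep, cxp, hcN, Nat.add_right_comm] using this
      · rw [hnew, hp']
        simp only [List.cons_append, List.tail_cons]
        refine forall2_app (forall2_map _ hPA fun z hz y hy => v6 z y (gA z hz) hy) ?_
        refine List.Forall₂.cons ⟨v2, ?_⟩ (List.Forall₂.cons ⟨by rw [v3], ?_⟩ ?_)
        · intro τ hτ; simp at hτ
        · intro τ hτ
          simp only [Sum.inr.injEq] at hτ
          subst hτ
          exact v4.symm
        · have := forall2_map (Q := Pt V' lam') (sb1 v (.inl (nx w))) hPR fun z hz y hy => v6 z y (gR z hz) hy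
          rw [hp'] at this
          exact this

theorem Loc.cup {k : ℕ} {f0 : Bool} {o o' : List Bool} {f g : ℕ → α} (h : Loc (.cup k f0) o o' f g) :
    (∀ j < o.length, j < k → f j = g j) ∧ (∀ j < o.length, k ≤ j → f j = g (j + 2)) ∧
      (k < o'.length → g k = g (k + 1)) := by
  refine ⟨?_, ?_, ?_⟩
  · intro j hj h1
    have := ((h j (by simp [Xst])).1 hj).1 rfl
    simpa [Wo.rgt, h1] using this
  · intro j hj h1
    have := ((h j (by simp [Xst])).1 hj).1 rfl
    have h2 : ¬ j < k := by omega
    simpa [Wo.rgt, h2] using this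
  · intro hk
    have := (h k (by simp [Xst])).2 hk (by simp [Wo.lft])
    simpa [Wo.lft] using this

theorem Loc.cap {k : ℕ} {f0 : Bool} {o o' : List Bool} {f g : ℕ → α} (h : Loc (.cap k f0) o o' f g) :
    (∀ j < o.length, j < k → f j = g j) ∧ (∀ j < o.length, k + 2 ≤ j → f j = g (j - 2)) ∧
      (k < o.length → f k = f (k + 1)) := by
  refine ⟨?_, ?_, ?_⟩
  · intro j hj h1
    have := ((h j (by simp [Xst])).1 hj).1 (by simp [Wo.rgt, h1])
    simpa [Wo.rgt, h1] using this
  · intro j hj h1
    have h2 : ¬ j < k := by omega
    have h3 : ¬ j = k := by omega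
    have h4 : ¬ j = k + 1 := by omega
    have := ((h j (by simp [Xst])).1 hj).1 (by simp [Wo.rgt, h2, h3, h4])
    simpa [Wo.rgt, h2, h3, h4] using this
  · intro hk
    have := ((h k (by simp [Xst])).1 hk).2 (by simp [Wo.rgt])
    simpa [Wo.rgt] using this

/-- the step of the valuation at a cup: the substituted source a and the tail t have the same type and value -/
theorem pt_cup {V : Tk → Bool → α} {lam : ℕ → Bool} {a t : Tk} {y0 : Bool × α}
    (ha : ∃ τ, a = .inr τ) (hPa : Pt V lam a y0) (hPt : Pt V lam t y0) :
    ∀ z y, Pt V lam z y → Pt V lam (sb1 a t z) y := by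
  intro z y hP
  rcases sb1_cases a t z with ⟨h1, h2⟩ | ⟨h1, h2⟩
  · rw [h2]
    subst h1
    obtain ⟨τ, rfl⟩ := ha
    have h3 := hP.2 τ rfl
    have h4 := hPa.2 τ rfl
    have h5 : y = y0 := by
      have h6 := hP.1
      have h7 := hPa.1
      rw [h3] at h6
      rw [h4] at h7
      rw [Prod.ext_iff]
      exact ⟨by rw [h3, h4], by rw [← h6, ← h7]⟩
    rw [h5]; exact hPt
  · rw [h2]; exact hP

theorem wi_cup {q : Bool} {w : List Piece} {k : ℕ} {e : Bool} {o o' : List Bool} {D D' : Sys} {m : ℕ}
    (hd : (Piece.cup k e).dir o = some o') (hSI : SI q D (nx w) m)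
    (hs : sysStep q (.cup k e) (nx w) m D = some D') {φ : ℕ → ℕ → α}
    (hL : Loc (.cup k e) o o' (φ 0) (φ 1)) {V : Tk → Bool → α} {lam : ℕ → Bool}
    (h : WI q o' w D (fun t => φ (t + 1)) V lam) :
    WI q o (.cup k e :: w) D' φ V lam := by
  obtain ⟨h0, A0, hT⟩ : ∃ h0 A0, D.T = h0 :: A0 := by
    cases hT : D.T with
    | nil => exact absurd hT hSI.ne
    | cons a l => exact ⟨a, l, rfl⟩
  obtain ⟨hk, rfl⟩ := Wo.dir_cup hd
  have hta : (o.take k).length = k := by simp [hk]
  obtain ⟨L1, L2, L3⟩ := hL.cup
  have hsplit : A0 = A0.take k ++ A0.drop k := (List.take_append_drop k A0).symm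
  simp only [sysStep, hT, pos, List.drop_succ_cons, List.take_succ_cons, List.map_cons] at hs
  have hflag : (!q ^^ decide ((o.take k).length % 2 = 1)) = parq q k := by rw [hta, par_eq]
  match hB : A0.drop k, hs with
  | [], hs => simp at hs
  | [_], hs => simp at hs
  | u :: v :: R, hs =>
    have hlen := len_take_of_drop hB
    have hsrc : (parq q k = true → u ∈ srT (!q) D.T.tail) ∧ (¬ parq q k = true → v ∈ srT (!q) D.T.tail) := by
      have : srT (!q) D.T.tail = srT (!q) (A0.take k) ++ srT (parq q k) (u :: v :: R) := by
        rw [hT, List.tail_cons]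
        conv_lhs => rw [hsplit]
        rw [srT_append, hlen, ← par_eq, hB]
      constructor
      · intro hp
        rw [this, hp]; simp [srT]
      · intro hp
        have hp' : parq q k = false := by simpa using hp
        rw [this, hp']; simp [srT]
    have hvp := h.vp
    rw [hT, List.tail_cons] at hvp
    have hA1 : A0 = A0.take k ++ (u :: v :: R) := by rw [← hB]; exact hsplit
    rw [hA1, ptl_append, hflag, List.append_assoc, ptl_two] at hvp
    obtain ⟨hPA, hPB⟩ := forall2_mid _ _ _ _ (by rw [hlen, ptl_length, hta]) hvp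
    simp only [List.cons_append, List.forall₂_cons] at hPB
    obtain ⟨hPu, hPv, hPR⟩ := hPB
    have hkk : φ 1 k = φ 1 (k + 1) := L3 (by simp; omega)
    have hPu' : Pt V lam u ((e == parq q k), φ 1 k) := by simpa [hta] using hPu
    have hPv' : Pt V lam v ((e == parq q k), φ 1 k) := by
      rw [hkk]
      have e1 : ((!e) == !parq q k) = (e == parq q k) := by cases e <;> cases parq q k <;> rfl
      simpa [hta, Nat.add_comm 1 k, e1] using hPv
    have hnew : ptl (!q) o (φ 0) ++ [(!q, φ (Piece.cup k e :: w).length 0)] =
        ptl (!q) (o.take k) (φ 1) ++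
          (ptl (parq q k) (o.drop k) (fun j => φ 1 (j + 2 + (o.take k).length)) ++ [(!q, φ (w.length + 1) 0)]) := by
      conv_lhs => rw [← List.take_append_drop k o]
      rw [ptl_append, hflag, List.append_assoc]
      congr 1
      · apply ptl_congr
        intro j hj
        exact L1 j (by omega) (by omega)
      · congr 1
        apply ptl_congr
        intro j hj
        simp only [List.length_drop] at hj
        have := L2 (j + k) (by omega) (by omega)
        rw [hta, this]
        congr 1
        omega
    have fin : ∀ a t, (∃ τ, a = Sum.inr τ) → Pt V lam a ((e == parq q k), φ 1 k) → Pt V lam t ((e == parq q k), φ 1 k) →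
        WI q o (.cup k e :: w) ⟨fun c b => sb1 a t (D.s c b),
          (sb1 a t h0 :: (A0.take k).map (sb1 a t)) ++ R.map (sb1 a t)⟩ φ V lam := by
      intro a t ha hPa hPt
      have key := pt_cup ha hPa hPt
      refine ⟨?_, ?_, ?_⟩
      · intro c hc b'
        rw [h.vx c hc b']
        simp [arr, cxp, Nat.add_right_comm]
      · intro c hc b'
        have := key _ _ (h.vs c hc b')
        simpa [dep, cxp, Nat.add_right_comm] using this
      · rw [hnew]
        simp only [List.cons_append, List.tail_cons]
        exact forall2_app (forall2_map _ hPA fun z _ y hy => key z y hy)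
          (forall2_map _ hPR fun z _ y hy => key z y hy)
    simp only at hs
    by_cases huv : u = v
    · rw [if_pos huv] at hs; simp at hs
    · rw [if_neg huv] at hs
      by_cases hp : parq q k = true
      · rw [if_pos hp, Option.some.injEq] at hs
        subst hs
        exact fin u v (hSI.aK u (hsrc.1 hp)) hPu' hPv'
      · rw [if_neg hp, Option.some.injEq] at hs
        subst hs
        exact fin v u (hSI.aK v (hsrc.2 hp)) hPv' hPu'

theorem wi_cap {q : Bool} {w : List Piece} {k : ℕ} {e : Bool} {o o' : List Bool} {D D' : Sys} {m : ℕ}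
    (hd : (Piece.cap k e).dir o = some o') (hSI : SI q D (nx w) m)
    (hs : sysStep q (.cap k e) (nx w) m D = some D') {φ : ℕ → ℕ → α}
    (hL : Loc (.cap k e) o o' (φ 0) (φ 1)) {V : Tk → Bool → α} {lam : ℕ → Bool}
    (h : WI q o' w D (fun t => φ (t + 1)) V lam) :
    ∃ V' lam', WI q o (.cap k e :: w) D' φ V' lam' := by
  obtain ⟨h0, A0, hT⟩ : ∃ h0 A0, D.T = h0 :: A0 := by
    cases hT : D.T with
    | nil => exact absurd hT hSI.ne
    | cons a l => exact ⟨a, l, rfl⟩
  obtain ⟨a, b, ha, rfl, rfl⟩ := Wo.dir_cap hd
  obtain ⟨L1, L2, L3⟩ := hL.cap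
  have hsplit : A0 = A0.take k ++ A0.drop k := (List.take_append_drop k A0).symm
  simp only [sysStep, hT, pos, List.drop_succ_cons, List.take_succ_cons, Option.some.injEq] at hs
  subst hs
  have hflag : (!q ^^ decide (a.length % 2 = 1)) = parq q k := by rw [ha, par_eq]
  have hvp := h.vp
  rw [hT, List.tail_cons] at hvp
  have hlen0 : A0.length = (a ++ b).length + 1 := by
    have := hvp.length_eq
    simp only [List.length_append, ptl_length, List.length_cons, List.length_nil] at this
    simpa using this
  rw [hsplit, ptl_append, hflag, List.append_assoc] at hvp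
  obtain ⟨hPA, hPR⟩ := forall2_mid _ _ _ _ (by
    rw [ptl_length, ha, List.length_take, hlen0]; simp; omega) hvp
  have e1 : ∀ z, goodT (nx w) m z → z ≠ .inr m := by
    intro z hz
    rintro rfl; exact lt_irrefl m hz
  set V' : Tk → Bool → α := fun z b => if z = .inr m then φ 0 k else V z b with hV'
  set lam' : ℕ → Bool := fun τ => if τ = m then (e == parq q k) else lam τ with hlam'
  have key : ∀ z y, goodT (nx w) m z → Pt V lam z y → Pt V' lam' z y := by
    intro z y hz hP
    refine ⟨?_, ?_⟩
    · simp only [hV', e1 z hz, if_false]; exact hP.1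
    · intro τ hτ
      have h3 := hP.2 τ hτ
      have : τ ≠ m := by rintro rfl; exact e1 z hz hτ
      simp [hlam', this, h3]
  have hkk : φ 0 k = φ 0 (k + 1) := L3 (by simp; omega)
  have hnew : ptl (!q) (a ++ e :: (!e) :: b) (φ 0) ++ [(!q, φ (Piece.cap k e :: w).length 0)] =
      ptl (!q) a (φ 1) ++ ((e == parq q k), φ 0 k) :: ((e == parq q k), φ 0 k) ::
        (ptl (parq q k) b (fun j => φ 1 (j + a.length)) ++ [(!q, φ (w.length + 1) 0)]) := by
    have e2 : ((!e) == !parq q k) = (e == parq q k) := by cases e <;> cases parq q k <;> rfl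
    rw [ptl_append, hflag, ptl_two, e2]
    rw [ptl_congr a _ (φ 0) (φ 1) (fun j hj => L1 j (by simp; omega) (by omega)),
      ptl_congr b _ (fun j => φ 0 (j + 2 + a.length)) (fun j => φ 1 (j + a.length)) (fun j hj => by
        have := L2 (j + 2 + a.length) (by simp; omega) (by omega)
        rw [this]; congr 1; omega)]
    simp only [List.append_assoc, List.cons_append, List.length_cons, Nat.zero_add, Nat.add_comm 1, ha, ← hkk]
  refine ⟨V', lam', ?_, ?_, ?_⟩
  · intro c hc b'
    have hc' : goodT (nx w) m (.inl c) := hc
    simp only [hV', e1 _ hc', if_false]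
    rw [h.vx c hc b']
    simp [arr, cxp, Nat.add_right_comm]
  · intro c hc b'
    have := key _ _ (hSI.kS c hc b') (h.vs c hc b')
    simpa [dep, cxp, Nat.add_right_comm] using this
  · rw [hnew]
    simp only [List.cons_append, List.tail_cons]
    have hm : Pt V' lam' (.inr m) ((e == parq q k), φ 0 k) := by
      refine ⟨by simp [hV'], ?_⟩
      intro τ hτ
      simp only [Sum.inr.injEq] at hτ
      subst hτ
      simp [hlam']
    have gT : ∀ z ∈ A0, goodT (nx w) m z := fun z hz => hSI.kT z (by rw [hT]; exact List.mem_cons_of_mem _ hz)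
    have r1 := forall2_map (Q := Pt V' lam') id hPA fun z hz y hy => key z y (gT z (List.mem_of_mem_take hz)) hy
    have r2 := forall2_map (Q := Pt V' lam') id hPR fun z hz y hy => key z y (gT z (List.mem_of_mem_drop hz)) hy
    rw [List.map_id] at r1 r2
    exact forall2_app r1 (List.Forall₂.cons hm (List.Forall₂.cons hm r2))

/-- The valuation of the tails of a diagram. -/
theorem wi_all (q : Bool) : ∀ (w : List Piece) (o : List Bool) (φ : ℕ → ℕ → α) (D : Sys),
    w.foldl (fun o p => o.bind p.dir) (some o) = some [true] → Rul o w φ → sys q w = some D →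
    ∃ V lam, WI q o w D φ V lam := by
  intro w
  induction w with
  | nil =>
    intro o φ D ho hR hD
    simp only [List.foldl_nil, Option.some.injEq] at ho
    subst ho
    simp only [sys, Option.some.injEq] at hD
    subst hD
    refine ⟨fun _ _ => φ 0 0, fun _ => !q, ?_, ?_, ?_⟩
    · intro c hc; exact absurd hc (Nat.not_lt_zero c)
    · intro c hc; exact absurd hc (Nat.not_lt_zero c)
    · have e1 : (true == !q) = !q := by cases q <;> rfl
      simp only [List.tail_cons, ptl, List.nil_append, List.cons_append, List.length_nil, e1]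
      refine List.Forall₂.cons ⟨rfl, fun τ _ => rfl⟩ (List.Forall₂.cons ⟨rfl, fun τ _ => rfl⟩ List.Forall₂.nil)
  | cons p w ih =>
    intro o φ D' ho hR hD'
    simp only [List.foldl_cons, Option.bind_some] at ho
    obtain ⟨o', ho'⟩ : ∃ o', p.dir o = some o' := by
      cases h : p.dir o with
      | none => rw [h, Wo.foldl_none'] at ho; simp at ho
      | some o' => exact ⟨o', rfl⟩
    rw [ho'] at ho
    simp only [sys, Option.bind_eq_some_iff] at hD'
    obtain ⟨D, hD, hs⟩ := hD'
    obtain ⟨hL, hR'⟩ := Rul_cons ho' hR
    obtain ⟨V, lam, hW⟩ := ih o' _ D ho hR' hD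
    have hSI := sys_si q w D hD
    cases p with
    | cross k e => exact wi_cross ho' hSI hs hL hW
    | cup k e => exact ⟨V, lam, wi_cup ho' hSI hs hL hW⟩
    | cap k e => exact wi_cap ho' hSI hs hL hW

/-- The parent function follows the arcs (W0). -/
theorem dgs_w0 (q : Bool) (w : List Piece) (hw : IsTangle w) (φ : ℕ → ℕ → α) (hR : Rul [true] w φ) (c : ℕ)
    (hc : c < nx w) (b : Bool) :
    (∀ c', dgs q w c b = some c' → c' < nx w ∧
      φ (dep q w c b).1 (dep q w c b).2 = φ (arr q w c' b).1 (arr q w c' b).2) ∧
    (dgs q w c b = none → (sys q w).isSome → b = !q ∧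
      φ (dep q w c b).1 (dep q w c b).2 = φ (if q then w.length else 0) 0) := by
  constructor
  · intro c' h
    unfold dgs at h
    rw [if_pos hc] at h
    cases hD : sys q w with
    | none => rw [hD] at h; simp at h
    | some D =>
      rw [hD] at h
      simp only at h
      have hSI := sys_si q w D hD
      obtain ⟨V, lam, hW⟩ := wi_all q w [true] φ D hw hR hD
      cases hz : D.s c b with
      | inr t => rw [hz] at h; simp at h
      | inl d =>
        rw [hz] at h
        simp only [Option.some.injEq] at h
        subst h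
        have h1 := hSI.kS c hc b
        rw [hz] at h1
        have h2 := (hW.vs c hc b).1
        rw [hz] at h2
        have h3 := hW.vx d h1 b
        exact ⟨h1, by simp only at h2; rw [← h2, h3]⟩
  · intro h hsome
    obtain ⟨D, hD⟩ := Option.isSome_iff_exists.mp hsome
    unfold dgs at h
    rw [if_pos hc, hD] at h
    simp only at h
    have hSI := sys_si q w D hD
    obtain ⟨V, lam, hW⟩ := wi_all q w [true] φ D hw hR hD
    cases hz : D.s c b with
    | inl d => rw [hz] at h; simp at h
    | inr t =>
      have h1 := hSI.aS c hc b t hz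
      have h2 := hW.vs c hc b
      rw [hz] at h2
      have h4 := h2.1
      have h5 := h2.2 t rfl
      simp only at h4 h5
      have h3 := hW.vp
      simp only [ptl, List.nil_append, List.cons_append] at h3
      match hT : D.T.tail, h3 with
      | [z0, z1], h3 =>
        simp only [List.forall₂_cons] at h3
        obtain ⟨p0, p1, -⟩ := h3
        rw [hT] at h1
        cases q
        · simp only [Bool.not_false, srT, List.mem_cons, List.not_mem_nil, or_false] at h1
          subst h1
          have p2 := p0.1
          have p3 := p0.2 t rfl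
          simp only [Bool.not_false, BEq.rfl] at p2 p3
          refine ⟨by rw [h5, ← p3]; rfl, ?_⟩
          rw [← h4, h5, ← p3, p2]; rfl
        · simp only [Bool.not_true, srT, List.mem_cons, List.not_mem_nil, or_false] at h1
          subst h1
          have p2 := p1.1
          have p3 := p1.2 t rfl
          simp only [Bool.not_true] at p2 p3
          refine ⟨by rw [h5, ← p3]; rfl, ?_⟩
          rw [← h4, h5, ← p3, p2]; rfl

theorem SLo_eq (w : List Piece) (t : ℕ) : SLo [true] w t = Wo.SL w t := rfl

end LG3P
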