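import Pool.Agent.Lib.MP_3cd99b_gt.D0

/-! The diagrams of the alternating arborescent links, and octagons: the definitions. -/

namespace LG3

/-- a piece moved down by k strands -/
def Piece.sh (k : ℕ) : Piece → Piece
  | .cup j f => .cup (j + k) f
  | .cap j f => .cap (j + k) f
  | .cross j s => .cross (j + k) s

/-- a diagram moved down by k strands -/
def shD (k : ℕ) (w : List Piece) : List Piece := w.map (Piece.sh k)

/-- w above w', joined by two turns: strand 1 of w is joined to strand 0 of w' at the left and at the right -/
def glueD (f : Bool) (w w' : List Piece) : List Piece := .cup 1 f :: (w ++ (shD 2 w' ++ [.cap 1 f]))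

/-- w above w' turned around (by a half turn), joined by two turns -/
def claspD (w w' : List Piece) : List Piece :=
  .cup 1 true :: (w ++ (.cup 1 false :: (shD 2 w' ++ [.cap 3 true, .cap 2 true])))

/-- w turned around (by a half turn) above w', joined by two turns -/
def claspD' (w w' : List Piece) : List Piece :=
  .cup 1 false :: (shD 2 w' ++ (.cup 3 true :: (shD 2 w ++ [.cap 1 false, .cap 0 false])))

/-- w rotated by a quarter turn -/
def rotD (f : Bool) (w : List Piece) : List Piece := .cup 0 f :: (shD 1 w ++ [.cap 2 f])

/-- The kinds of oriented tangles with two strands at the left and two at the right. Directions of the strands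
0 and 1, at both sides: P forward and forward, A forward and backward, B backward and forward. -/
inductive Kd
  | P
  | A
  | B

/-- The ways to build an alternating arborescent (algebraic) tangle from crossings. The mark s is the type of the
alternation (the sign of a crossing that is not rotated), the mark k is the kind. -/
inductive AltTangle : Bool → Kd → Type
  | cross (s : Bool) : AltTangle s .P
  | ver {s : Bool} (S T : AltTangle s .P) : AltTangle s .P
  | horA {s : Bool} (S : AltTangle s .A) (T : AltTangle s .P) : AltTangle s .P
  | horB {s : Bool} (S : AltTangle s .P) (T : AltTangle s .B) : AltTangle s .P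
  | horAA {s : Bool} (S T : AltTangle s .A) : AltTangle s .A
  | horBB {s : Bool} (S T : AltTangle s .B) : AltTangle s .B
  | claspA {s : Bool} (S T : AltTangle s .P) : AltTangle s .A
  | claspB {s : Bool} (S T : AltTangle s .P) : AltTangle s .B
  | rotA {s : Bool} (S : AltTangle (!s) .B) : AltTangle s .A
  | rotB {s : Bool} (S : AltTangle (!s) .A) : AltTangle s .B

namespace AltTangle

/-- The diagram of the tangle: a crossing of sign s; S then T; S above T, joined by two turns; the same with one of
them turned around; S rotated by a quarter turn. -/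
def diag : {s : Bool} → {k : Kd} → AltTangle s k → List Piece
  | _, _, .cross s => [.cross 0 s]
  | _, _, .ver S T => S.diag ++ T.diag
  | _, _, .horA S T => glueD false S.diag T.diag
  | _, _, .horB S T => glueD true S.diag T.diag
  | _, _, .horAA S T => glueD false S.diag T.diag
  | _, _, .horBB S T => glueD true S.diag T.diag
  | _, _, .claspA S T => claspD S.diag T.diag
  | _, _, .claspB S T => claspD' S.diag T.diag
  | _, _, .rotA S => rotD true S.diag
  | _, _, .rotB S => rotD false S.diag

/-- The link diagram obtained by joining the two ends at the left to the two ends at the right, cut open at one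
point. -/
def link : {s : Bool} → {k : Kd} → AltTangle s k → List Piece
  | _, .P, T => .cup 1 true :: (T.diag ++ [.cap 1 true])
  | _, .A, T => .cup 1 false :: (T.diag ++ [.cap 1 false])
  | _, .B, T => .cup 0 true :: (shD 1 T.diag ++ [.cap 0 true])

/-- the number of crossings and quarter turns -/
def count : {s : Bool} → {k : Kd} → AltTangle s k → ℕ
  | _, _, .cross _ => 1
  | _, _, .ver S T => S.count + T.count
  | _, _, .horA S T => S.count + T.count
  | _, _, .horB S T => S.count + T.count
  | _, _, .horAA S T => S.count + T.count
  | _, _, .horBB S T => S.count + T.count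
  | _, _, .claspA S T => S.count + T.count
  | _, _, .claspB S T => S.count + T.count
  | _, _, .rotA S => S.count + 1
  | _, _, .rotB S => S.count + 1

/-- the parity of this number gives the signs: the number of crossings and quarter turns, plus one for the kind P -/
def signExp {s : Bool} {k : Kd} (T : AltTangle s k) : ℕ :=
  match k with
  | .P => T.count + 1
  | .A => T.count
  | .B => T.count

end AltTangle

/-- parameters of an octagon, symmetric under the exchange of the coordinates -/
@[ext] structure Oc where
  l : ℤ
  r : ℤ
  s : ℤ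
  t : ℤ
  d : ℤ

namespace Oc

/-- the lattice points: l ≤ i, j ≤ r, s ≤ i + j ≤ t, |i - j| ≤ d -/
def mem (o : Oc) (i j : ℤ) : Prop :=
  o.l ≤ i ∧ i ≤ o.r ∧ o.l ≤ j ∧ j ≤ o.r ∧ o.s ≤ i + j ∧ i + j ≤ o.t ∧ i - j ≤ o.d ∧ j - i ≤ o.d

/-- sum of the parameters -/
def add (o o' : Oc) : Oc := ⟨o.l + o'.l, o.r + o'.r, o.s + o'.s, o.t + o'.t, o.d + o'.d⟩

/-- reflection in the origin -/
def neg (o : Oc) : Oc := ⟨-o.r, -o.l, -o.t, -o.s, o.d⟩

/-- a point on the diagonal -/
def pt (k : ℤ) : Oc := ⟨k, k, 2 * k, 2 * k, 0⟩

/-- the octagon of 1 + uv -/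
def dg : Oc := ⟨0, 1, 0, 2, 0⟩

/-- the octagon of (1 + u)(1 + v) -/
def bb : Oc := ⟨0, 1, 0, 2, 1⟩

/-- the octagon of 1 + u + v -/
def cc : Oc := ⟨0, 1, 0, 1, 1⟩

end Oc

/-- The data of a tangle: a mark and two octagons. For the kind P (m is false): the octagons of the coordinates D1 and
a of its triple (a, b, c). For the kinds A and B: the octagon of b, and the octagon of a (m false) or of c (m true). -/
structure Oo where
  m : Bool
  p : Oc
  q : Oc

namespace Oo

/-- the octagon of the first coordinate -/
def a (o : Oo) : Oc := if o.m then o.p.add Oc.bb else o.q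

/-- octagons of a product of two parallel tangles -/
def ver (o o' : Oo) : Oo := ⟨false, (o.p.add o'.p).add Oc.cc, (o.p.add o'.p).add Oc.bb⟩

/-- octagons of a product of an antiparallel and a parallel tangle -/
def hor (o o' : Oo) : Oo := ⟨false, (o.p.add (if o.m then Oc.bb else Oc.dg)).add o'.p, o.a.add o'.q⟩

/-- octagons of a product of two antiparallel tangles -/
def hor2 (o o' : Oo) : Oo :=
  match o.m, o'.m with
  | false, false => ⟨false, (o.p.add o'.p).add Oc.dg, o.q.add o'.q⟩
  | false, true => ⟨false, o.p.add (o'.p.add Oc.bb), o.q.add (o'.p.add Oc.bb)⟩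
  | true, false => ⟨false, o'.p.add (o.p.add Oc.bb), o'.q.add (o.p.add Oc.bb)⟩
  | true, true => ⟨true, o.p.add (o'.p.add Oc.bb), (o.p.add (o'.p.add Oc.bb)).add Oc.dg⟩

/-- octagons of the product with a reversed tangle -/
def clasp (o o' : Oo) : Oo := ⟨false, o.p.add o'.p, o.q.add o'.q⟩

/-- octagons of a rotated tangle -/
def rot (o : Oo) : Oo := ⟨!o.m, o.p.neg.add (Oc.pt (-1)), o.q.neg⟩

end Oo

namespace AltTangle

/-- the octagons of a tangle -/
def oo : {s : Bool} → {k : Kd} → AltTangle s k → Oo
  | _, _, .cross _ => ⟨false, Oc.pt 0, Oc.pt 0⟩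
  | _, _, .ver S T => S.oo.ver T.oo
  | _, _, .horA S T => S.oo.hor T.oo
  | _, _, .horB S T => T.oo.hor S.oo
  | _, _, .horAA S T => S.oo.hor2 T.oo
  | _, _, .horBB S T => S.oo.hor2 T.oo
  | _, _, .claspA S T => S.oo.clasp T.oo
  | _, _, .claspB S T => S.oo.clasp T.oo
  | _, _, .rotA S => S.oo.rot
  | _, _, .rotB S => S.oo.rot

/-- the octagon of the link -/
def octagon {s : Bool} {k : Kd} (T : AltTangle s k) : Oc := if s then T.oo.a else T.oo.a.neg

end AltTangle

end LG3
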