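import Mathlib

/-!
First return of a permutation to the points of the same sign.
-/

namespace PoolLib.MP_3cd99b_gt.Oct

open Function Finset

variable {C : Type*} [Finite C]

/-- (σ ^ k) c is the next point on the cycle with the sign of c -/
def Nxt (σ : Equiv.Perm C) (sg : C → Bool) (c : C) (k : ℕ) : Prop :=
  0 < k ∧ sg ((σ ^ k) c) = sg c ∧ ∀ i, 0 < i → i < k → sg ((σ ^ i) c) ≠ sg c

omit [Finite C] in
theorem Nxt.unique {σ : Equiv.Perm C} {sg : C → Bool} {c : C} {k l : ℕ} (h : Nxt σ sg c k) (h' : Nxt σ sg c l) :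
    k = l := by
  rcases lt_trichotomy k l with h1 | h1 | h1
  · exact absurd h.2.1 (h'.2.2 k h.1 h1)
  · exact h1
  · exact absurd h'.2.1 (h.2.2 l h'.1 h1)

theorem exists_pow_self (σ : Equiv.Perm C) (c : C) : ∃ k, 0 < k ∧ (σ ^ k) c = c := by
  refine ⟨orderOf σ, orderOf_pos σ, ?_⟩
  rw [pow_orderOf_eq_one]; rfl

theorem exists_nxt (σ : Equiv.Perm C) (sg : C → Bool) (c : C) : ∃ k, Nxt σ sg c k := by
  classical
  obtain ⟨n, hn, hn'⟩ := exists_pow_self σ c
  have h : ∃ k, 0 < k ∧ sg ((σ ^ k) c) = sg c := ⟨n, hn, by rw [hn']⟩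
  refine ⟨Nat.find h, (Nat.find_spec h).1, (Nat.find_spec h).2, ?_⟩
  intro i hi hi' he
  exact Nat.find_min h hi' ⟨hi, he⟩

/-- the number of steps of the first return -/
noncomputable def frk (σ : Equiv.Perm C) (sg : C → Bool) (c : C) : ℕ := (exists_nxt σ sg c).choose

theorem frk_spec (σ : Equiv.Perm C) (sg : C → Bool) (c : C) : Nxt σ sg c (frk σ sg c) :=
  (exists_nxt σ sg c).choose_spec

theorem fr_inj (σ : Equiv.Perm C) (sg : C → Bool) : Injective fun c => (σ ^ (frk σ sg c)) c := by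
  have key : ∀ c c' : C, frk σ sg c ≤ frk σ sg c' → (σ ^ (frk σ sg c)) c = (σ ^ (frk σ sg c')) c' → c = c' := by
    intro c c' hle h
    obtain ⟨a1, a2, a3⟩ := frk_spec σ sg c
    obtain ⟨b1, b2, b3⟩ := frk_spec σ sg c'
    obtain ⟨j, hj⟩ := Nat.exists_eq_add_of_le hle
    rw [hj, pow_add, Equiv.Perm.mul_apply] at h
    have h1 : c = (σ ^ j) c' := (σ ^ (frk σ sg c)).injective h
    rcases Nat.eq_zero_or_pos j with h0 | h0
    · subst h0; simpa using h1
    · exfalso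
      apply b3 j h0 (by omega)
      rw [← h1]
      have h2 : (σ ^ (frk σ sg c')) c' = (σ ^ (frk σ sg c)) c := by
        rw [hj, pow_add, Equiv.Perm.mul_apply, ← h1]
      rw [← a2, ← h2, b2]
  intro c c' h
  rcases le_total (frk σ sg c) (frk σ sg c') with h1 | h1
  · exact key c c' h1 h
  · exact (key c' c h1 h.symm).symm

/-- the first return permutation -/
noncomputable def fr (σ : Equiv.Perm C) (sg : C → Bool) : Equiv.Perm C :=
  Equiv.ofBijective (fun c => (σ ^ (frk σ sg c)) c) (Finite.injective_iff_bijective.mp (fr_inj σ sg))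

theorem fr_apply (σ : Equiv.Perm C) (sg : C → Bool) (c : C) : fr σ sg c = (σ ^ (frk σ sg c)) c := rfl

theorem fr_of_nxt {σ : Equiv.Perm C} {sg : C → Bool} {c : C} {k : ℕ} (h : Nxt σ sg c k) :
    fr σ sg c = (σ ^ k) c := by
  rw [fr_apply, (frk_spec σ sg c).unique h]

theorem sg_fr (σ : Equiv.Perm C) (sg : C → Bool) (c : C) : sg (fr σ sg c) = sg c := (frk_spec σ sg c).2.1

omit [Finite C] in
theorem nxt_symm {σ : Equiv.Perm C} {sg : C → Bool} {c : C} {k : ℕ} (h : Nxt σ sg c k) :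
    Nxt σ.symm sg ((σ ^ k) c) k := by
  have hp : ∀ i, i ≤ k → (σ.symm ^ i) ((σ ^ k) c) = (σ ^ (k - i)) c := by
    intro i hi
    have e : (σ ^ k) c = (σ ^ i) ((σ ^ (k - i)) c) := by
      rw [← Equiv.Perm.mul_apply, ← pow_add]; congr 2; omega
    have e2 : σ.symm ^ i = (σ ^ i).symm := by
      show (σ⁻¹) ^ i = (σ ^ i)⁻¹
      rw [inv_pow]
    rw [e, e2, Equiv.symm_apply_apply]
  refine ⟨h.1, ?_, ?_⟩
  · rw [hp k le_rfl, Nat.sub_self, pow_zero, Equiv.Perm.one_apply, h.2.1]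
  · intro i hi hi'
    rw [hp i hi'.le, h.2.1]
    exact h.2.2 (k - i) (by omega) (by omega)

theorem fr_symm (σ : Equiv.Perm C) (sg : C → Bool) : fr σ.symm sg = (fr σ sg).symm := by
  ext e
  obtain ⟨c, rfl⟩ := (fr σ sg).surjective e
  rw [Equiv.symm_apply_apply]
  have h := frk_spec σ sg c
  have h2 := fr_of_nxt (nxt_symm h)
  rw [fr_apply σ sg c, h2]
  have e2 : σ.symm ^ (frk σ sg c) = (σ ^ (frk σ sg c)).symm := by
    show (σ⁻¹) ^ _ = (σ ^ _)⁻¹
    rw [inv_pow]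
  rw [e2, Equiv.symm_apply_apply]

end PoolLib.MP_3cd99b_gt.Oct
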