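import Mathlib

/-!
# Strongly connected orientations (graph part of P2, MP_3cd99b_gt)

Vertices `V`, edges `E` with ends `lf e`, `rt e`; an orientation `O : E → Bool` directs `e` from `lf e` to `rt e` iff
`O e = true`. `Strong`: every proper nonempty set of vertices is left by an edge.

* `boesch_tindell`: a mixed graph which is strongly connected and has no bridge has a strongly connected orientation.
* `values_fill`: if all edges join the two colour classes of a 2-colouring, the numbers of edges `true` in strongly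
  connected orientations fill the interval between `A O` and `|E| - A O`.
-/

namespace LG3P.Gr

open Finset Function

variable {V E : Type*}

/-- the tail of an edge -/
def tl (lf rt : E → V) (O : E → Bool) (e : E) : V := if O e then lf e else rt e

/-- the head of an edge -/
def hd (lf rt : E → V) (O : E → Bool) (e : E) : V := if O e then rt e else lf e

/-- strongly connected (cut form) -/
def Strong (lf rt : E → V) (O : E → Bool) : Prop :=
  ∀ S : Set V, S.Nonempty → S ≠ Set.univ → ∃ e, tl lf rt O e ∈ S ∧ hd lf rt O e ∉ S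

/-- the edge `e` leaves `S` in the mixed graph whose edges `D` are directed by `O` -/
def Lv (lf rt : E → V) (D : Set E) (O : E → Bool) (S : Set V) (e : E) : Prop :=
  (e ∈ D ∧ tl lf rt O e ∈ S ∧ hd lf rt O e ∉ S) ∨
    (e ∉ D ∧ ((lf e ∈ S ∧ rt e ∉ S) ∨ (rt e ∈ S ∧ lf e ∉ S)))

/-- the mixed graph is strongly connected -/
def Mixed (lf rt : E → V) (D : Set E) (O : E → Bool) : Prop :=
  ∀ S : Set V, S.Nonempty → S ≠ Set.univ → ∃ e, Lv lf rt D O S e

/-- no bridge (cut form) -/
def Bridgeless (lf rt : E → V) : Prop :=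
  ∀ (S : Set V) (e : E), ((lf e ∈ S ∧ rt e ∉ S) ∨ (rt e ∈ S ∧ lf e ∉ S)) →
    ∃ e', e' ≠ e ∧ ((lf e' ∈ S ∧ rt e' ∉ S) ∨ (rt e' ∈ S ∧ lf e' ∉ S))

theorem Lv.crosses {lf rt : E → V} {D : Set E} {O : E → Bool} {S : Set V} {e : E} (h : Lv lf rt D O S e) :
    (lf e ∈ S ∧ rt e ∉ S) ∨ (rt e ∈ S ∧ lf e ∉ S) := by
  rcases h with ⟨_, h1, h2⟩ | ⟨_, h⟩
  · unfold tl at h1
    unfold hd at h2
    cases hO : O e <;> simp only [hO, if_true, if_false, Bool.false_eq_true] at h1 h2
    · exact Or.inr ⟨h1, h2⟩
    · exact Or.inl ⟨h1, h2⟩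
  · exact h

/-- orient one more edge -/
theorem orient_one [DecidableEq E] {lf rt : E → V} (hB : Bridgeless lf rt) {D : Set E} {O : E → Bool}
    (hM : Mixed lf rt D O) (e0 : E) (h0 : e0 ∉ D) :
    ∃ b : Bool, Mixed lf rt (insert e0 D) (update O e0 b) := by
  by_contra hcon
  push Not at hcon
  have key : ∀ b : Bool, ∃ S : Set V, S.Nonempty ∧ S ≠ Set.univ ∧ (if b then rt e0 else lf e0) ∈ S ∧
      (if b then lf e0 else rt e0) ∉ S ∧ ∀ e, e ≠ e0 → ¬ Lv lf rt D O S e := by
    intro b
    have h1 := hcon b
    unfold Mixed at h1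
    push Not at h1
    obtain ⟨S, hS1, hS2, hS3⟩ := h1
    have hne : ∀ e, e ≠ e0 → ¬ Lv lf rt D O S e := by
      intro e he hL
      apply hS3 e
      unfold Lv tl hd at hL ⊢
      rw [update_of_ne he]
      simpa [he] using hL
    obtain ⟨e, he⟩ := hM S hS1 hS2
    have hee : e = e0 := by
      by_contra hh
      exact hne e hh he
    subst hee
    have hc := he.crosses
    have h3 := hS3 e
    unfold Lv tl hd at h3
    simp only [Set.mem_insert_iff, true_or, true_and, not_true_eq_false, false_and, or_false, update_self] at h3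
    refine ⟨S, hS1, hS2, ?_, ?_, hne⟩ <;> cases b <;> simp at h3 ⊢ <;> tauto
  obtain ⟨S1, a1, a2, a3, a4, a5⟩ := key true
  obtain ⟨S2, b1, b2, b3, b4, b5⟩ := key false
  simp only [if_true, Bool.false_eq_true, if_false] at a3 a4 b3 b4
  -- `lf e0 ∉ S1`, `rt e0 ∈ S1`, `lf e0 ∈ S2`, `rt e0 ∉ S2`
  have hI : S1 ∩ S2 = ∅ := by
    by_contra hne
    have hne' : (S1 ∩ S2).Nonempty := Set.nonempty_iff_ne_empty.mpr hne
    obtain ⟨e, he⟩ := hM (S1 ∩ S2) hne' (fun h => a4 (by
      have : lf e0 ∈ S1 ∩ S2 := by rw [h]; exact Set.mem_univ _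
      exact this.1))
    by_cases hee : e = e0
    · subst hee
      rcases he.crosses with ⟨h, _⟩ | ⟨h, _⟩
      · exact a4 h.1
      · exact b4 h.2
    · have h1 := a5 e hee
      have h2 := b5 e hee
      unfold Lv at he h1 h2
      simp only [Set.mem_inter_iff] at he
      tauto
  have hU : S1 ∪ S2 = Set.univ := by
    by_contra hne
    obtain ⟨e, he⟩ := hM (S1 ∪ S2) (a1.mono Set.subset_union_left) hne
    by_cases hee : e = e0
    · subst hee
      rcases he.crosses with ⟨_, h⟩ | ⟨_, h⟩
      · exact h (Or.inl a3)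
      · exact h (Or.inr b3)
    · have h1 := a5 e hee
      have h2 := b5 e hee
      unfold Lv at he h1 h2
      simp only [Set.mem_union] at he
      tauto
  have hmem : ∀ v, v ∈ S2 ↔ v ∉ S1 := by
    intro v
    constructor
    · intro h2 h1
      have : v ∈ S1 ∩ S2 := ⟨h1, h2⟩
      rw [hI] at this
      exact this
    · intro h1
      have : v ∈ S1 ∪ S2 := by rw [hU]; exact Set.mem_univ _
      exact this.resolve_left h1
  obtain ⟨e', he', hc⟩ := hB S1 e0 (Or.inr ⟨a3, a4⟩)
  have h1 := a5 e' he'
  have h2 := b5 e' he'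
  unfold Lv tl hd at h1 h2
  simp only [hmem] at h2
  cases hO : O e' <;> simp only [hO, if_true, if_false, Bool.false_eq_true] at h1 h2 <;> tauto

/-- Boesch-Tindell: orient the free edges -/
theorem boesch_tindell [Finite E] {lf rt : E → V} (hB : Bridgeless lf rt) (U : Set E)
    (hU : ∀ S : Set V, S.Nonempty → S ≠ Set.univ → (∃ e ∈ U, lf e ∈ S ∧ rt e ∉ S) ∨
      ∃ e, e ∉ U ∧ ((lf e ∈ S ∧ rt e ∉ S) ∨ (rt e ∈ S ∧ lf e ∉ S))) :
    ∃ O : E → Bool, Strong lf rt O ∧ ∀ e ∈ U, O e = true := by
  classical
  have hfin : ∀ n : ℕ, ∀ (D : Set E) (O : E → Bool), Mixed lf rt D O → (Dᶜ).ncard = n → U ⊆ D →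
      (∀ e ∈ U, O e = true) → ∃ O : E → Bool, Strong lf rt O ∧ ∀ e ∈ U, O e = true := by
    intro n
    induction n with
    | zero =>
      intro D O hM hD hUD hO
      have hD' : D = Set.univ := by
        have := (Set.ncard_eq_zero (Set.toFinite _)).mp hD
        exact Set.compl_empty_iff.mp this
      refine ⟨O, ?_, hO⟩
      intro S hS1 hS2
      obtain ⟨e, he⟩ := hM S hS1 hS2
      refine ⟨e, ?_⟩
      rcases he with ⟨_, h⟩ | ⟨h, _⟩
      · exact h
      · exact absurd (by rw [hD']; exact Set.mem_univ _) h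
    | succ n ih =>
      intro D O hM hD hUD hO
      have hne : (Dᶜ).Nonempty := by
        rw [Set.nonempty_iff_ne_empty]
        intro h
        rw [h, Set.ncard_empty] at hD
        omega
      obtain ⟨e0, he0⟩ := hne
      obtain ⟨b, hb⟩ := orient_one hB hM e0 he0
      refine ih (insert e0 D) (update O e0 b) hb ?_ (hUD.trans (Set.subset_insert _ _)) ?_
      · have h1 : (insert e0 D)ᶜ = Dᶜ \ {e0} := by
          ext e
          simp only [Set.mem_compl_iff, Set.mem_insert_iff, Set.mem_sdiff, Set.mem_singleton_iff]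
          tauto
        rw [h1, Set.ncard_sdiff_singleton_of_mem he0, hD]
        rfl
      · intro e he
        have : e ≠ e0 := fun h => he0 (hUD (h ▸ he))
        rw [update_of_ne this]
        exact hO e he
  refine hfin _ U (fun _ => true) ?_ rfl le_rfl (fun _ _ => rfl)
  intro S hS1 hS2
  rcases hU S hS1 hS2 with ⟨e, he, h⟩ | ⟨e, he, h⟩
  · exact ⟨e, Or.inl ⟨he, by simpa [tl, hd] using h⟩⟩
  · exact ⟨e, Or.inr ⟨he, h⟩⟩

/-! ## Ears -/

/-- reverse everything outside `F` -/
def rv [DecidableEq E] (F : Finset E) (O : E → Bool) (e : E) : Bool := if e ∈ F then O e else !O e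

/-- the edges `F` have their ends in `S` and make `S` strongly connected -/
def StrongOn (lf rt : E → V) (S : Set V) (F : Finset E) (O : E → Bool) : Prop :=
  (∀ e ∈ F, tl lf rt O e ∈ S ∧ hd lf rt O e ∈ S) ∧
    ∀ T : Set V, T ⊆ S → T.Nonempty → T ≠ S → ∃ e ∈ F, tl lf rt O e ∈ T ∧ hd lf rt O e ∉ T

/-- reversing everything outside a strongly connected part keeps strong connectivity -/
theorem strong_rv [DecidableEq E] {lf rt : E → V} {O : E → Bool} (hO : Strong lf rt O) {S : Set V} {F : Finset E}
    (h : StrongOn lf rt S F O) : Strong lf rt (rv F O) := by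
  intro T hT1 hT2
  have hrev : ∀ e, e ∉ F → tl lf rt (rv F O) e = hd lf rt O e ∧ hd lf rt (rv F O) e = tl lf rt O e := by
    intro e he
    unfold tl hd rv
    cases O e <;> simp [he]
  have hsame : ∀ e, e ∈ F → tl lf rt (rv F O) e = tl lf rt O e ∧ hd lf rt (rv F O) e = hd lf rt O e := by
    intro e he
    unfold tl hd rv
    simp [he]
  have hTc : (Tᶜ).Nonempty := by
    rw [Set.nonempty_iff_ne_empty]
    intro h
    exact hT2 (Set.compl_empty_iff.mp h)
  have hTc' : Tᶜ ≠ Set.univ := by
    intro h
    rw [Set.compl_univ_iff] at h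
    exact hT1.ne_empty h
  by_cases h1 : (T ∩ S).Nonempty
  · by_cases h2 : T ∩ S = S
    · obtain ⟨e, he1, he2⟩ := hO Tᶜ hTc hTc'
      have he : e ∉ F := by
        intro hF
        have := (h.1 e hF).1
        rw [← h2] at this
        exact he1 this.1
      refine ⟨e, ?_⟩
      rw [(hrev e he).1, (hrev e he).2]
      exact ⟨by simpa using he2, he1⟩
    · obtain ⟨e, he, he1, he2⟩ := h.2 (T ∩ S) Set.inter_subset_right h1 h2
      refine ⟨e, ?_⟩
      rw [(hsame e he).1, (hsame e he).2]
      exact ⟨he1.1, fun h3 => he2 ⟨h3, (h.1 e he).2⟩⟩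
  · obtain ⟨e, he1, he2⟩ := hO Tᶜ hTc hTc'
    have he2' : hd lf rt O e ∈ T := by simpa using he2
    have he : e ∉ F := by
      intro hF
      exact h1 ⟨_, he2', (h.1 e hF).2⟩
    refine ⟨e, ?_⟩
    rw [(hrev e he).1, (hrev e he).2]
    exact ⟨he2', he1⟩

/-- directed paths from a vertex to `S`: edges `P`, vertices `D` outside `S` -/
inductive Ear [DecidableEq E] [DecidableEq V] (lf rt : E → V) (O : E → Bool) (S : Set V) :
    V → Finset E → Finset V → Prop
  | nil (v : V) (hv : v ∈ S) : Ear lf rt O S v ∅ ∅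
  | cons (e : E) (P : Finset E) (D : Finset V) (hv : tl lf rt O e ∉ S) (h : Ear lf rt O S (hd lf rt O e) P D)
      (hD : tl lf rt O e ∉ D) : Ear lf rt O S (tl lf rt O e) (insert e P) (insert (tl lf rt O e) D)

section Ears

variable [DecidableEq E] [DecidableEq V] {lf rt : E → V} {O : E → Bool} {S : Set V}

theorem Ear.ends {v : V} {P : Finset E} {D : Finset V} (h : Ear lf rt O S v P D) :
    (v ∈ S ∨ v ∈ D) ∧ (∀ u ∈ D, u ∉ S) ∧
      ∀ e ∈ P, tl lf rt O e ∈ D ∧ (hd lf rt O e ∈ S ∨ hd lf rt O e ∈ D) := by
  induction h with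
  | nil v hv => exact ⟨Or.inl hv, by simp, by simp⟩
  | cons e P D hv h hD ih =>
    obtain ⟨ih1, ih2, ih3⟩ := ih
    refine ⟨Or.inr (mem_insert_self _ _), ?_, ?_⟩
    · intro u hu
      rcases mem_insert.mp hu with rfl | hu
      · exact hv
      · exact ih2 u hu
    · intro e' he'
      rcases mem_insert.mp he' with rfl | he'
      · refine ⟨mem_insert_self _ _, ?_⟩
        rcases ih1 with h1 | h1
        · exact Or.inl h1
        · exact Or.inr (mem_insert_of_mem h1)
      · obtain ⟨h1, h2⟩ := ih3 e' he'
        refine ⟨mem_insert_of_mem h1, ?_⟩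
        rcases h2 with h2 | h2
        · exact Or.inl h2
        · exact Or.inr (mem_insert_of_mem h2)

theorem Ear.good {v : V} {P : Finset E} {D : Finset V} (h : Ear lf rt O S v P D) :
    ∀ u ∈ D, ∃ P' D', Ear lf rt O S u P' D' := by
  induction h with
  | nil v hv => simp
  | cons e P D hv h hD ih =>
    intro u hu
    rcases mem_insert.mp hu with rfl | hu
    · exact ⟨_, _, Ear.cons e P D hv h hD⟩
    · exact ih u hu

theorem Ear.leave {v : V} {P : Finset E} {D : Finset V} (h : Ear lf rt O S v P D) (T : Set V)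
    (hT : ∀ t ∈ T, t ∉ S) : ∀ u ∈ D, u ∈ T → ∃ e ∈ P, tl lf rt O e ∈ T ∧ hd lf rt O e ∉ T := by
  induction h with
  | nil v hv => simp
  | cons e P D hv h hD ih =>
    intro u hu huT
    have hrest : ∀ u ∈ D, u ∈ T → ∃ e' ∈ insert e P, tl lf rt O e' ∈ T ∧ hd lf rt O e' ∉ T := by
      intro u hu huT
      obtain ⟨e', he', h'⟩ := ih u hu huT
      exact ⟨e', mem_insert_of_mem he', h'⟩
    rcases mem_insert.mp hu with rfl | hu
    · by_cases h1 : hd lf rt O e ∈ T
      · rcases h.ends.1 with h2 | h2
        · exact absurd h2 (hT _ h1)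
        · exact hrest _ h2 h1
      · exact ⟨e, mem_insert_self _ _, huT, h1⟩
    · exact hrest u hu huT

theorem Ear.reach {v : V} {P : Finset E} {D : Finset V} (h : Ear lf rt O S v P D) (T : Set V) (hv : v ∈ T) :
    ∀ u ∈ D, u ∉ T → ∃ e ∈ P, tl lf rt O e ∈ T ∧ hd lf rt O e ∉ T := by
  induction h with
  | nil v hv => simp
  | cons e P D hv' h hD ih =>
    intro u hu huT
    rcases mem_insert.mp hu with rfl | hu
    · exact absurd hv huT
    · by_cases h1 : hd lf rt O e ∈ T
      · obtain ⟨e', he', h'⟩ := ih h1 u hu huT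
        exact ⟨e', mem_insert_of_mem he', h'⟩
      · exact ⟨e, mem_insert_self _ _, hv, h1⟩

/-- sign of a direction -/
def sgb (b : Bool) : ℤ := if b then 1 else -1

theorem Ear.sum (col : V → ℤ) (hc : ∀ v, col v = 0 ∨ col v = 1) (hl : ∀ e, col (lf e) = 1) (hr : ∀ e, col (rt e) = 0)
    {v : V} {P : Finset E} {D : Finset V} (h : Ear lf rt O S v P D) :
    ∃ i : ℤ, (i = 0 ∨ i = 1) ∧ ∑ e ∈ P, sgb (O e) = col v - i := by
  induction h with
  | nil v hv => exact ⟨col v, hc v, by simp⟩
  | cons e P D hv h hD ih =>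
    obtain ⟨i, hi, hs⟩ := ih
    refine ⟨i, hi, ?_⟩
    have hne : e ∉ P := fun he => hD (h.ends.2.2 e he).1
    rw [sum_insert hne, hs]
    unfold tl hd sgb
    cases O e
    · simp only [Bool.false_eq_true, if_false, hl, hr]
      ring
    · simp only [if_true, hl, hr]
      ring

/-- every vertex has a directed path to `S` -/
theorem ear_exists (hO : Strong lf rt O) (hS : S.Nonempty) (v : V) : ∃ P D, Ear lf rt O S v P D := by
  by_contra hcon
  obtain ⟨e, he1, he2⟩ := hO {u | ¬ ∃ P D, Ear lf rt O S u P D} ⟨v, hcon⟩ (by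
    intro h
    obtain ⟨s, hs⟩ := hS
    have h1 : s ∈ {u | ¬ ∃ P D, Ear lf rt O S u P D} := by rw [h]; exact Set.mem_univ _
    exact h1 ⟨_, _, Ear.nil s hs⟩)
  simp only [Set.mem_ofPred_eq, not_not] at he1 he2
  obtain ⟨P, D, h⟩ := he2
  apply he1
  refine ⟨_, _, Ear.cons e P D (fun h1 => he1 ⟨_, _, Ear.nil _ h1⟩) h (fun h1 => he1 (h.good _ h1))⟩

end Ears

/-- the number of edges directed from `lf` to `rt` -/
def A [Fintype E] (O : E → Bool) : ℤ := ∑ e, if O e then 1 else 0

theorem A_rv [Fintype E] [DecidableEq E] (F P : Finset E) (hd : Disjoint F P) (O : E → Bool) :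
    A (rv (F ∪ P) O) = A (rv F O) + ∑ e ∈ P, sgb (O e) := by
  unfold A
  rw [← sum_filter_add_sum_filter_not univ (· ∈ P) (fun e => if rv (F ∪ P) O e then (1 : ℤ) else 0),
    ← sum_filter_add_sum_filter_not univ (· ∈ P) (fun e => if rv F O e then (1 : ℤ) else 0)]
  have h1 : (univ.filter fun e => e ∈ P) = P := by ext e; simp
  have h2 : ∑ e ∈ univ.filter (fun e => e ∉ P), (if rv (F ∪ P) O e then (1 : ℤ) else 0) =
      ∑ e ∈ univ.filter (fun e => e ∉ P), (if rv F O e then (1 : ℤ) else 0) := by
    refine sum_congr rfl fun e he => ?_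
    have he' : e ∉ P := (mem_filter.mp he).2
    unfold rv
    simp [he']
  rw [h1, h2]
  have h3 : ∑ e ∈ P, (if rv (F ∪ P) O e then (1 : ℤ) else 0) =
      ∑ e ∈ P, (if rv F O e then (1 : ℤ) else 0) + ∑ e ∈ P, sgb (O e) := by
    rw [← sum_add_distrib]
    refine sum_congr rfl fun e he => ?_
    have he' : e ∉ F := fun h => (disjoint_left.mp hd h) he
    unfold rv sgb
    cases O e <;> simp [he, he']
  rw [h3]
  ring

/-- the values of `A` on strongly connected orientations fill the interval between `A O` and `A (-O)` -/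
theorem values_fill [Fintype E] {lf rt : E → V} {O : E → Bool} (hO : Strong lf rt O)
    (col : V → ℤ) (hc : ∀ v, col v = 0 ∨ col v = 1) (hl : ∀ e, col (lf e) = 1) (hr : ∀ e, col (rt e) = 0)
    (z : ℤ) (hz : (Fintype.card E : ℤ) - A O ≤ z ∧ z ≤ A O ∨ A O ≤ z ∧ z ≤ (Fintype.card E : ℤ) - A O) :
    ∃ O' : E → Bool, Strong lf rt O' ∧ A O' = z := by
  classical
  have main : ∀ n : ℕ, ∀ (S : Set V) (F : Finset E), (Fᶜ).card = n → S.Nonempty → StrongOn lf rt S F O →
      ∀ z : ℤ, (A (rv F O) ≤ z ∧ z ≤ A O ∨ A O ≤ z ∧ z ≤ A (rv F O)) →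
      ∃ O' : E → Bool, Strong lf rt O' ∧ A O' = z := by
    intro n
    induction n using Nat.strong_induction_on with
    | _ n ih =>
      intro S F hn hS hSF z hz
      by_cases hF : F = univ
      · have h1 : rv F O = O := by
          funext e
          simp [rv, hF]
        rw [h1] at hz
        exact ⟨O, hO, by omega⟩
      · -- find an ear
        obtain ⟨S', P, hP1, hP2, hP3, i, hi, hPs⟩ : ∃ (S' : Set V) (P : Finset E), Disjoint F P ∧ P.Nonempty ∧
            (S'.Nonempty ∧ StrongOn lf rt S' (F ∪ P) O) ∧ ∃ i : ℤ, (i = -1 ∨ i = 0 ∨ i = 1) ∧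
              ∑ e ∈ P, sgb (O e) = i := by
          by_cases hS' : S = Set.univ
          · obtain ⟨e, he⟩ : ∃ e, e ∉ F := by
              by_contra h
              push Not at h
              exact hF (eq_univ_iff_forall.mpr h)
            refine ⟨S, {e}, by simpa using he, singleton_nonempty e, ⟨hS, ?_, ?_⟩, sgb (O e), ?_, by simp⟩
            · intro e' _
              rw [hS']
              exact ⟨Set.mem_univ _, Set.mem_univ _⟩
            · intro T h1 h2 h3
              obtain ⟨e', he', h'⟩ := hSF.2 T h1 h2 h3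
              exact ⟨e', mem_union_left _ he', h'⟩
            · unfold sgb
              cases O e <;> simp
          · obtain ⟨c, hc1, hc2⟩ := hO S hS hS'
            obtain ⟨P, D, hE⟩ := ear_exists hO hS (hd lf rt O c)
            obtain ⟨he1, he2, he3⟩ := hE.ends
            have hw : hd lf rt O c ∈ D := he1.resolve_left hc2
            have hcP : c ∉ P := fun h => he2 _ (he3 c h).1 hc1
            have hcF : c ∉ F := fun h => hc2 (hSF.1 c h).2
            have hPF : ∀ e ∈ P, e ∉ F := fun e he hF => he2 _ (he3 e he).1 (hSF.1 e hF).1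
            refine ⟨S ∪ D, insert c P, ?_, insert_nonempty _ _, ⟨hS.mono Set.subset_union_left, ?_, ?_⟩, ?_⟩
            · rw [disjoint_left]
              intro e he he'
              rcases mem_insert.mp he' with rfl | he'
              · exact hcF he
              · exact hPF e he' he
            · intro e he
              rcases mem_union.mp he with he | he
              · exact ⟨Or.inl (hSF.1 e he).1, Or.inl (hSF.1 e he).2⟩
              · rcases mem_insert.mp he with rfl | he
                · exact ⟨Or.inl hc1, Or.inr (by exact_mod_cast hw)⟩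
                · obtain ⟨h1, h2⟩ := he3 e he
                  refine ⟨Or.inr (by exact_mod_cast h1), ?_⟩
                  rcases h2 with h2 | h2
                  · exact Or.inl h2
                  · exact Or.inr (by exact_mod_cast h2)
            · intro T h1 h2 h3
              by_cases h4 : (T ∩ S).Nonempty
              · by_cases h5 : T ∩ S = S
                · have h6 : ∃ u ∈ D, u ∉ T := by
                    by_contra h6
                    push Not at h6
                    apply h3
                    apply Set.Subset.antisymm h1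
                    rintro u (hu | hu)
                    · have : u ∈ T ∩ S := by rw [h5]; exact hu
                      exact this.1
                    · exact h6 u (by exact_mod_cast hu)
                  obtain ⟨u, hu, huT⟩ := h6
                  by_cases h7 : hd lf rt O c ∈ T
                  · obtain ⟨e, he, h'⟩ := hE.reach T h7 u hu huT
                    exact ⟨e, mem_union_right _ (mem_insert_of_mem he), h'⟩
                  · refine ⟨c, mem_union_right _ (mem_insert_self _ _), ?_, h7⟩
                    have : tl lf rt O c ∈ T ∩ S := by rw [h5]; exact hc1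
                    exact this.1
                · obtain ⟨e, he, h6, h7⟩ := hSF.2 (T ∩ S) Set.inter_subset_right h4 h5
                  exact ⟨e, mem_union_left _ he, h6.1, fun h8 => h7 ⟨h8, (hSF.1 e he).2⟩⟩
              · have h5 : ∀ t ∈ T, t ∉ S := fun t ht hs => h4 ⟨t, ht, hs⟩
                obtain ⟨u, hu⟩ := h2
                have hu' : u ∈ D := by
                  rcases h1 hu with h6 | h6
                  · exact absurd h6 (h5 u hu)
                  · exact_mod_cast h6
                obtain ⟨e, he, h'⟩ := hE.leave T h5 u hu' hu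
                exact ⟨e, mem_union_right _ (mem_insert_of_mem he), h'⟩
            · obtain ⟨i, hi, hs⟩ := hE.sum col hc hl hr
              refine ⟨sgb (O c) + (col (hd lf rt O c) - i), ?_, by rw [sum_insert hcP, hs]⟩
              have h8 : sgb (O c) + col (hd lf rt O c) = col (tl lf rt O c) := by
                unfold sgb hd tl
                cases O c <;> simp [hl, hr]
              have h9 := hc (tl lf rt O c)
              omega
        have hA := A_rv F P hP1 O
        have hcard : ((F ∪ P)ᶜ).card < n := by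
          rw [← hn]
          apply card_lt_card
          rw [ssubset_iff_of_subset]
          · obtain ⟨e, he⟩ := hP2
            refine ⟨e, ?_, ?_⟩
            · rw [mem_compl]
              exact fun h => disjoint_left.mp hP1 h he
            · rw [mem_compl, not_not]
              exact mem_union_right _ he
          · intro e he
            rw [mem_compl] at he ⊢
            exact fun h => he (mem_union_left _ h)
        by_cases hz1 : A (rv F O) = z
        · exact ⟨rv F O, strong_rv hO hSF, hz1⟩
        · refine ih _ hcard S' (F ∪ P) rfl hP3.1 hP3.2 z ?_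
          rw [hA, hPs]
          omega
  by_cases hV : Nonempty V
  · obtain ⟨v0⟩ := hV
    have h0 : StrongOn lf rt {v0} ∅ O := by
      refine ⟨by simp, ?_⟩
      intro T h1 h2 h3
      exfalso
      apply h3
      apply Set.Subset.antisymm h1
      obtain ⟨t, ht⟩ := h2
      have : t = v0 := h1 ht
      intro u hu
      rw [Set.mem_singleton_iff] at hu
      rw [hu, ← this]
      exact ht
    have h1 : A (rv ∅ O) = (Fintype.card E : ℤ) - A O := by
      unfold A
      rw [eq_sub_iff_add_eq, ← sum_add_distrib]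
      rw [show (Fintype.card E : ℤ) = ∑ _e : E, 1 by simp]
      refine sum_congr rfl fun e _ => ?_
      unfold rv
      cases O e <;> simp
    refine main _ {v0} ∅ rfl (Set.singleton_nonempty _) h0 z ?_
    rw [h1]
    exact hz
  · have hE : IsEmpty E := ⟨fun e => hV ⟨lf e⟩⟩
    refine ⟨O, hO, ?_⟩
    have h1 : A O = 0 := by unfold A; simp
    have h2 : Fintype.card E = 0 := Fintype.card_eq_zero
    rw [h1, h2] at hz
    rw [h1]
    push_cast at hz
    omega

end LG3P.Gr
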