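import Pool.Agent.Lib.MP_3cd99b_gt.Tr
import Pool.Agent.Lib.MP_3cd99b_gt.Fr
import Pool.Agent.Lib.MP_3cd99b_gt.Gr

/-!
# Abstract planar diagrams

Crossings `C`, the two systems of circles `st true`, `st false`, signs. The circles are the classes of the slots
`(c, b)`. The planarity of the system of circles is the side function `jor`.
-/

namespace PoolLib.MP_3cd99b_gt.Dm

open Relation Oct

variable {C : Type*}

/-- the circles as a setoid on the slots -/
def cset (st : Bool → Equiv.Perm C) : Setoid (C × Bool) where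
  r z z' := z.2 = z'.2 ∧ (st z.2).SameCycle z.1 z'.1
  iseqv := by
    refine ⟨fun z => ⟨rfl, Equiv.Perm.SameCycle.refl _ _⟩, ?_, ?_⟩
    · rintro ⟨c, b⟩ ⟨c', b'⟩ ⟨h1, h2⟩
      simp only at h1 h2 ⊢
      subst h1
      exact ⟨rfl, h2.symm⟩
    · rintro ⟨c, b⟩ ⟨c', b'⟩ ⟨c'', b''⟩ ⟨h1, h2⟩ ⟨h3, h4⟩
      simp only at h1 h2 h3 h4 ⊢
      subst h1; subst h3
      exact ⟨rfl, h2.trans h4⟩

/-- the circles -/
abbrev Ci (st : Bool → Equiv.Perm C) : Type _ := Quotient (cset st)

/-- the circle of a slot -/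
def ci (st : Bool → Equiv.Perm C) (c : C) (b : Bool) : Ci st := Quotient.mk (cset st) (c, b)

theorem ci_eq {st : Bool → Equiv.Perm C} {c c' : C} {b b' : Bool} :
    ci st c b = ci st c' b' ↔ b = b' ∧ (st b).SameCycle c c' := by
  unfold ci
  rw [Quotient.eq]
  rfl

theorem ci_st (st : Bool → Equiv.Perm C) (c : C) (b : Bool) : ci st (st b c) b = ci st c b := by
  rw [ci_eq]
  exact ⟨rfl, Equiv.Perm.SameCycle.symm ⟨1, by simp⟩⟩

theorem ci_surj (st : Bool → Equiv.Perm C) (k : Ci st) : ∃ c b, ci st c b = k := by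
  obtain ⟨⟨c, b⟩, h⟩ := Quotient.exists_rep k
  exact ⟨c, b, h⟩

/-- an abstract planar alternating diagram without bridges of the graph of circles -/
structure Dg (C : Type*) where
  /-- the next crossing on the circle of type b, in x-direction -/
  st : Bool → Equiv.Perm C
  /-- sign of a crossing -/
  sg : C → Bool
  /-- the sides of a circle -/
  jor : ∀ c0 b0, ∃ f : C → Bool → Bool, (∀ c b, f (st b c) b = f c b) ∧
    (∀ c, ¬ (st b0).SameCycle c0 c → f c true = f c false) ∧
    (∀ c, (st b0).SameCycle c0 c → f c (!b0) = sg c)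
  /-- connected -/
  conn : ∀ T : Set C, T.Nonempty → (∀ c ∈ T, ∀ b, st b c ∈ T) → T = Set.univ
  /-- no bridge: a set of slots which is closed under the circles and under the crossings other than c contains
  both slots of c or none -/
  nob : ∀ (c : C) (T : Set (C × Bool)), (∀ c' b, (c', b) ∈ T → (st b c', b) ∈ T) →
    (∀ c' b, c' ≠ c → (c', b) ∈ T → (c', !b) ∈ T) → (c, true) ∈ T → (c, false) ∈ T

namespace Dg

variable (D : Dg C)

/-- the circle of a slot -/
def κ (c : C) (b : Bool) : Ci D.st := ci D.st c b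

theorem κ_st (c : C) (b : Bool) : D.κ (D.st b c) b = D.κ c b := ci_st D.st c b

theorem κ_eq {c c' : C} {b b' : Bool} : D.κ c b = D.κ c' b' ↔ b = b' ∧ (D.st b).SameCycle c c' := ci_eq

theorem κ_ne (c c' : C) : D.κ c true ≠ D.κ c' false := by
  intro h
  have := (D.κ_eq.1 h).1
  exact absurd this (by decide)

/-- paths of length n from the root circle k0 -/
inductive Rc (k0 : Ci D.st) : ℕ → Ci D.st → Prop
  | zero : Rc k0 0 k0
  | step (n : ℕ) (c : C) (b : Bool) (h : Rc k0 n (D.κ c b)) : Rc k0 (n + 1) (D.κ c (!b))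

theorem exists_rc [Finite C] (m : C × Bool) (k : Ci D.st) : ∃ n, D.Rc (D.κ m.1 m.2) n k := by
  have h1 : {c : C | ∃ n, D.Rc (D.κ m.1 m.2) n (D.κ c true)} = Set.univ := by
    apply D.conn
    · refine ⟨m.1, ?_⟩
      rcases hb : m.2 with _ | _
      · refine ⟨1, ?_⟩
        have := Rc.step (D := D) (k0 := D.κ m.1 m.2) 0 m.1 m.2 Rc.zero
        rw [hb] at this
        exact this
      · exact ⟨0, Rc.zero⟩
    · rintro c ⟨n, hn⟩ b
      cases b
      · refine ⟨n + 2, ?_⟩
        have h1 := Rc.step (D := D) (k0 := D.κ m.1 m.2) n c true hn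
        have h2 : D.Rc (D.κ m.1 m.2) (n + 1) (D.κ (D.st false c) false) := by rw [D.κ_st]; exact h1
        exact Rc.step _ _ false h2
      · refine ⟨n, ?_⟩
        rw [D.κ_st]; exact hn
  obtain ⟨c, b, rfl⟩ := ci_surj D.st k
  have h2 : c ∈ {c : C | ∃ n, D.Rc (D.κ m.1 m.2) n (D.κ c true)} := by rw [h1]; trivial
  obtain ⟨n, hn⟩ := h2
  cases b
  · exact ⟨n + 1, Rc.step _ _ true hn⟩
  · exact ⟨n, hn⟩

/-- the type of a circle -/
def ty (k : Ci D.st) : Bool := Quotient.lift (fun z : C × Bool => z.2) (by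
  intro a b h
  exact h.1) k

theorem ty_κ (c : C) (b : Bool) : D.ty (D.κ c b) = b := rfl

theorem rc_ty {k0 k : Ci D.st} {n : ℕ} (h : D.Rc k0 n k) : (Even n ↔ D.ty k = D.ty k0) := by
  induction h with
  | zero => simp
  | step n c b _ ih =>
    rw [D.ty_κ] at ih ⊢
    rw [Nat.even_add_one, ih]
    cases b <;> cases D.ty k0 <;> simp

open Classical in
/-- distance to the root circle -/
noncomputable def dist [Finite C] (m : C × Bool) (k : Ci D.st) : ℕ := Nat.find (D.exists_rc m k)

theorem dist_spec [Finite C] (m : C × Bool) (k : Ci D.st) : D.Rc (D.κ m.1 m.2) (D.dist m k) k := by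
  classical exact Nat.find_spec (D.exists_rc m k)

theorem dist_le [Finite C] {m : C × Bool} {k : Ci D.st} {n : ℕ} (h : D.Rc (D.κ m.1 m.2) n k) : D.dist m k ≤ n := by
  classical exact Nat.find_min' (D.exists_rc m k) h

/-- the side function of a circle -/
noncomputable def side (k k' : Ci D.st) : Bool :=
  Quotient.lift (fun z : C × Bool => (D.jor (Quotient.out k).1 (Quotient.out k).2).choose z.1 z.2) (by
    have h := (D.jor (Quotient.out k).1 (Quotient.out k).2).choose_spec.1
    set f := (D.jor (Quotient.out k).1 (Quotient.out k).2).choose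
    rintro ⟨c, b⟩ ⟨c', b'⟩ ⟨h1, h2⟩
    simp only at h1 h2 ⊢
    subst h1
    obtain ⟨n, rfl⟩ := h2
    have key : ∀ n : ℕ, ∀ c, f ((D.st b ^ n) c) b = f c b := by
      intro n
      induction n with
      | zero => intro c; rfl
      | succ n ih =>
        intro c
        rw [pow_succ', Equiv.Perm.mul_apply, h, ih]
    rcases n with n | n
    · rw [Int.ofNat_eq_natCast, zpow_natCast, key]
    · rw [zpow_negSucc, ← key (n + 1) ((D.st b ^ (n + 1))⁻¹ c), ← Equiv.Perm.mul_apply, mul_inv_cancel]
      rfl) k'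

theorem out_spec (k : Ci D.st) : D.κ (Quotient.out k).1 (Quotient.out k).2 = k := Quotient.out_eq k

theorem κ_eq_out {c : C} {b : Bool} {k : Ci D.st} :
    D.κ c b = k ↔ b = (Quotient.out k).2 ∧ (D.st (Quotient.out k).2).SameCycle (Quotient.out k).1 c := by
  conv_lhs => rw [← D.out_spec k]
  rw [D.κ_eq]
  constructor
  · rintro ⟨rfl, h⟩
    exact ⟨rfl, h.symm⟩
  · rintro ⟨rfl, h⟩
    exact ⟨rfl, h.symm⟩

/-- the signed graph of circles of a diagram, with root circle the circle of the slot m -/
noncomputable def SG [Finite C] (m : C × Bool) : Tr.SG C (Ci D.st) where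
  κ := D.κ
  sg := D.sg
  k0 := D.κ m.1 m.2
  side := D.side
  side_off := by
    intro k c h1 h2
    have h := (D.jor (Quotient.out k).1 (Quotient.out k).2).choose_spec.2.1
    show (D.jor (Quotient.out k).1 (Quotient.out k).2).choose c true =
      (D.jor (Quotient.out k).1 (Quotient.out k).2).choose c false
    apply h
    intro h3
    have h4 : D.κ c (Quotient.out k).2 = k := D.κ_eq_out.2 ⟨rfl, h3⟩
    rcases hb : (Quotient.out k).2 with _ | _ <;> rw [hb] at h4
    · exact h2 h4
    · exact h1 h4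
  side_on := by
    intro k c b h1
    have h := (D.jor (Quotient.out k).1 (Quotient.out k).2).choose_spec.2.2
    show (D.jor (Quotient.out k).1 (Quotient.out k).2).choose c (!b) = D.sg c
    obtain ⟨h2, h3⟩ := D.κ_eq_out.1 h1
    rw [h2]
    exact h c h3
  dist := D.dist m
  dist_zero := by
    intro k
    constructor
    · intro h
      have := D.dist_spec m k
      rw [h] at this
      cases this
      rfl
    · rintro rfl
      exact Nat.le_zero.1 (D.dist_le Rc.zero)
  dist_low := by
    intro k hk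
    have h := D.dist_spec m k
    rcases hn : D.dist m k with _ | n
    · rw [hn] at h
      cases h
      exact absurd rfl hk
    · rw [hn] at h
      cases h with
      | step _ c b h =>
        refine ⟨c, !b, rfl, ?_⟩
        rw [Bool.not_not]
        have := D.dist_le h
        omega
  dist_ne := by
    intro c h
    have h1 := D.rc_ty (D.dist_spec m (D.κ c true))
    have h2 := D.rc_ty (D.dist_spec m (D.κ c false))
    rw [h, h2] at h1
    simp only [D.ty_κ] at h1
    cases m.2 <;> simp at h1

end Dg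

end PoolLib.MP_3cd99b_gt.Dm
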