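import Pool.Agent.Lib.MP_3cd99b_gt.P

/-! The two-bridge family: differences of the coefficients. -/

open Finset Polynomial

namespace LG3

/-- three ways to get log-concavity at a place -/
theorem lc_i {p : ℕ → ℤ} {t : ℕ} (h0 : 0 ≤ p t) (h2 : 0 ≤ p (t + 2))
    (h : p (t + 2) - p (t + 1) ≤ p (t + 1) - p t) : p t * p (t + 2) ≤ p (t + 1) ^ 2 := by
  have h3 : p t + p (t + 2) ≤ 2 * p (t + 1) := by linarith
  have h4 : (p t + p (t + 2)) ^ 2 ≤ (2 * p (t + 1)) ^ 2 := by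
    have : 0 ≤ p t + p (t + 2) := by linarith
    nlinarith
  nlinarith [sq_nonneg (p t - p (t + 2))]

theorem lc_ii {p : ℕ → ℤ} {t : ℕ}
    (h : p t * ((p (t + 2) - p (t + 1)) - (p (t + 1) - p t)) ≤ (p (t + 1) - p t) ^ 2) :
    p t * p (t + 2) ≤ p (t + 1) ^ 2 := by
  nlinarith

theorem lc_iii {p : ℕ → ℤ} {t : ℕ}
    (h : p (t + 2) * ((p (t + 2) - p (t + 1)) - (p (t + 1) - p t)) ≤ (p (t + 2) - p (t + 1)) ^ 2) :
    p t * p (t + 2) ≤ p (t + 1) ^ 2 := by
  nlinarith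

/-- `(2 m + 1) + (2 m - 1) X + ... + X^m` -/
noncomputable def RP (m : ℕ) : ℤ[X] := 2 * sP m + bP (m + 1)

/-- `1 + 3 X + ... + (2 n - 1) X^(n-1)` -/
noncomputable def TP (n : ℕ) : ℤ[X] := 2 * tP n - bP n

/-- P for the two-bridge family -/
noncomputable def P1 (m n : ℕ) : ℤ[X] := RP m * TP n

/-- Q - P for the two-bridge family -/
noncomputable def H1 (m n : ℕ) : ℤ[X] := bP (m + 1) * bP n

theorem TP_succ (n : ℕ) : TP (n + 1) = 1 + X * bP n + 2 * (X * tP n) := by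
  rw [TP, tP, bP]
  ring

theorem TP_nn (n : ℕ) : NN (TP n) := by
  cases n with
  | zero =>
    have : TP 0 = 0 := by simp [TP, tP, bP]
    rw [this]
    exact NN.zero
  | succ n =>
    rw [TP_succ]
    exact (NN.one.add (NN.X.mul (bP_nn n))).add (NN.two.mul (NN.X.mul (tP_nn n)))

theorem RP_nn (m : ℕ) : NN (RP m) := (NN.two.mul (sP_nn m)).add (bP_nn _)

theorem P1_nn (m n : ℕ) : NN (P1 m n) := (RP_nn m).mul (TP_nn n)

theorem H1_nn (m n : ℕ) : NN (H1 m n) := (bP_nn _).mul (bP_nn n)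

theorem RP_id (m : ℕ) : (1 - X) ^ 2 * RP m =
    (2 * (m : ℤ[X]) + 1) - (2 * (m : ℤ[X]) + 3) * X + X ^ (m + 1) + X ^ (m + 2) := by
  have h1 := sP_id m
  have h2 := bP_id (m + 1)
  rw [RP]
  linear_combination 2 * h1 + (1 - X) * h2

theorem TP_id (n : ℕ) : (1 - X) ^ 2 * TP n =
    1 + X - (2 * (n : ℤ[X]) + 1) * X ^ n + (2 * (n : ℤ[X]) - 1) * X ^ (n + 1) := by
  have h3 := tP_id n
  have h4 := bP_id n
  rw [TP]
  linear_combination 2 * h3 - (1 - X) * h4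

theorem P1_id (m n : ℕ) : (1 - X) ^ 4 * P1 m n =
    ((2 * (m : ℤ[X]) + 1) - (2 * (m : ℤ[X]) + 3) * X + X ^ (m + 1) + X ^ (m + 2)) *
      (1 + X - (2 * (n : ℤ[X]) + 1) * X ^ n + (2 * (n : ℤ[X]) - 1) * X ^ (n + 1)) := by
  rw [← RP_id, ← TP_id, P1]
  ring

theorem P1_series (m n : ℕ) : (1 - PowerSeries.X) * (P1 m n : PowerSeries ℤ) =
    QS (-2) (2 * (2 * m + 1)) (2 * m + 1) + PowerSeries.X ^ (m + 1) * QS 2 2 1 +
      PowerSeries.X ^ n * QS 2 (4 * n - 4 * (m + 1) + 2) (-((2 * m + 1) * (2 * n + 1))) +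
      PowerSeries.X ^ (m + 1 + n) * QS (-2) (-(4 * n + 2)) (-(2 * n + 1)) := by
  have h := congrArg (Polynomial.coeToPowerSeries.ringHom (R := ℤ)) (P1_id m n)
  simp only [map_add, map_sub, map_mul, map_pow, map_one, map_natCast, map_ofNat,
    Polynomial.coeToPowerSeries.ringHom_apply, Polynomial.coe_X] at h
  refine mul_left_cancel₀ (pow_ne_zero 3 one_sub_X_ne) ?_
  have q1 := QS_id (-2) (2 * (2 * m + 1)) (2 * m + 1)
  have q2 := QS_id 2 2 1
  have q3 := QS_id 2 (4 * n - 4 * (m + 1) + 2) (-((2 * m + 1) * (2 * n + 1)))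
  have q4 := QS_id (-2) (-(4 * n + 2)) (-(2 * n + 1))
  push_cast at q1 q2 q3 q4
  linear_combination h - q1 - PowerSeries.X ^ (m + 1) * q2 - PowerSeries.X ^ n * q3 -
    PowerSeries.X ^ (m + 1 + n) * q4

theorem H1_series (m n : ℕ) : (1 - PowerSeries.X) * (H1 m n : PowerSeries ℤ) =
    QS 0 0 1 - PowerSeries.X ^ (m + 1) * QS 0 0 1 - PowerSeries.X ^ n * QS 0 0 1 +
      PowerSeries.X ^ (m + 1 + n) * QS 0 0 1 := by
  have h0 : (1 - X) ^ 2 * H1 m n = (1 - X ^ (m + 1)) * (1 - X ^ n) := by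
    rw [← bP_id, ← bP_id, H1]
    ring
  have h := congrArg (Polynomial.coeToPowerSeries.ringHom (R := ℤ)) h0
  simp only [map_sub, map_mul, map_pow, map_one,
    Polynomial.coeToPowerSeries.ringHom_apply, Polynomial.coe_X] at h
  refine mul_left_cancel₀ (pow_ne_zero 3 one_sub_X_ne) ?_
  have q := QS_id 0 0 1
  push_cast at q
  linear_combination (1 - PowerSeries.X) ^ 2 * h - (1 - PowerSeries.X ^ (m + 1)) * (1 - PowerSeries.X ^ n) * q

/-- differences of the coefficients of P -/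
def e1 (m n t : ℕ) : ℤ :=
  (-2 * (t : ℤ) ^ 2 + 2 * (2 * m + 1) * t + (2 * m + 1)) +
    (if m + 1 ≤ t then 2 * ((t : ℤ) - (m + 1 : ℕ)) ^ 2 + 2 * ((t : ℤ) - (m + 1 : ℕ)) + 1 else 0) +
    (if n ≤ t then 2 * ((t : ℤ) - n) ^ 2 + (4 * n - 4 * (m + 1) + 2) * ((t : ℤ) - n) +
      -((2 * m + 1) * (2 * n + 1)) else 0) +
    (if m + 1 + n ≤ t then -2 * ((t : ℤ) - (m + 1 + n : ℕ)) ^ 2 +
      -(4 * n + 2) * ((t : ℤ) - (m + 1 + n : ℕ)) + -(2 * n + 1) else 0)

/-- differences of the coefficients of Q - P -/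
def et1 (m n t : ℕ) : ℤ :=
  1 - (if m + 1 ≤ t then 1 else 0) - (if n ≤ t then 1 else 0) + (if m + 1 + n ≤ t then 1 else 0)

theorem P1_dif (m n t : ℕ) : (P1 m n).coeff t - sh (P1 m n).coeff t = e1 m n t := by
  rw [← dif_coeff, P1_series, map_add, map_add, map_add, coeff_QS, coeff_QS, coeff_QS, coeff_QS0, e1]

theorem H1_dif (m n t : ℕ) : (H1 m n).coeff t - sh (H1 m n).coeff t = et1 m n t := by
  rw [← dif_coeff, H1_series, map_add, map_sub, map_sub, coeff_QS, coeff_QS, coeff_QS, coeff_QS0, et1]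
  simp only [zero_mul, zero_add]

theorem e1_A {m n t : ℕ} (h1 : t < m + 1) (h2 : t < n) : e1 m n t = (2 * m + 1) * (2 * t + 1) - 2 * t ^ 2 := by
  rw [e1, if_neg (by omega), if_neg (by omega), if_neg (by omega)]
  ring

theorem e1_B {m n t : ℕ} (h1 : m + 1 ≤ t) (h2 : t < n) : e1 m n t = 2 * (m + 1) ^ 2 := by
  rw [e1, if_pos (by omega), if_neg (by omega), if_neg (by omega)]
  push_cast
  ring

theorem e1_C {m n t : ℕ} (h1 : t < m + 1) (h2 : n ≤ t) : e1 m n t = -(2 * n ^ 2) := by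
  rw [e1, if_neg (by omega), if_pos (by omega), if_neg (by omega)]
  push_cast
  ring

theorem e1_D {m n t : ℕ} (h1 : m + 1 ≤ t) (h2 : n ≤ t) (h3 : t < m + 1 + n) :
    e1 m n t = -(2 * n ^ 2) + 2 * ((t : ℤ) - (m + 1)) ^ 2 + 2 * ((t : ℤ) - (m + 1)) + 1 := by
  rw [e1, if_pos (by omega), if_pos (by omega), if_neg (by omega)]
  push_cast
  ring

theorem e1_E {m n t : ℕ} (h3 : m + 1 + n ≤ t) : e1 m n t = 0 := by
  rw [e1, if_pos (by omega), if_pos (by omega), if_pos (by omega)]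
  push_cast
  ring

/-- a polynomial whose differences vanish beyond T vanishes from T on -/
theorem coeff_zero_of_dif {f : ℤ[X]} {T : ℕ} (h : ∀ t, T < t → f.coeff t - sh f.coeff t = 0) :
    ∀ t, T ≤ t → f.coeff t = 0 := by
  have h1 : ∀ t s, T ≤ t → t ≤ s → f.coeff s = f.coeff t := by
    intro t s ht hts
    induction s, hts using Nat.le_induction with
    | base => rfl
    | succ s hs ih =>
      have := h (s + 1) (by omega)
      simp only [sh] at this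
      linarith
  intro t ht
  rw [← h1 t (t + f.natDegree + 1) ht (by omega)]
  exact coeff_eq_zero_of_natDegree_lt (by omega)

end LG3
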