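import Pool.Agent.Lib.MP_3cd99b_gt.F1

/-! The two-bridge family: the conditions on the rows. -/

open Finset Polynomial

namespace LG3

/-- increasing up to m, decreasing from m + 1 on -/
theorem uni_of_gap {f : ℕ → ℤ} (m : ℕ) (h1 : ∀ t, t < m → f t ≤ f (t + 1))
    (h2 : ∀ t, m + 1 ≤ t → f (t + 1) ≤ f t) : Uni f := by
  rcases le_total (f m) (f (m + 1)) with h | h
  · refine uni_of_mode (m + 1) ?_ h2
    intro t ht
    rcases (Nat.lt_succ_iff.mp ht).eq_or_lt with rfl | ht
    · exact h
    · exact h1 t ht
  · refine uni_of_mode m h1 ?_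
    intro t ht
    rcases ht.eq_or_lt with rfl | ht
    · exact h
    · exact h2 t ht

section
variable {m n : ℕ} (hn : 1 ≤ n)

theorem p1_succ (m n t : ℕ) : (P1 m n).coeff (t + 1) = (P1 m n).coeff t + e1 m n (t + 1) := by
  have := P1_dif m n (t + 1)
  simp only [sh] at this
  linarith

theorem p1_zero (m n : ℕ) : (P1 m n).coeff 0 = e1 m n 0 := by
  have := P1_dif m n 0
  simp only [sh, sub_zero] at this
  exact this

theorem hh_succ (m n t : ℕ) : (H1 m n).coeff (t + 1) = (H1 m n).coeff t + et1 m n (t + 1) := by
  have := H1_dif m n (t + 1)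
  simp only [sh] at this
  linarith

theorem hh_zero (m n : ℕ) : (H1 m n).coeff 0 = et1 m n 0 := by
  have := H1_dif m n 0
  simp only [sh, sub_zero] at this
  exact this

theorem p1_vanish (m n t : ℕ) (h : m + n ≤ t) : (P1 m n).coeff t = 0 :=
  coeff_zero_of_dif (T := m + n) (fun t ht => by rw [P1_dif, e1_E (by omega)]) t h

theorem hh_vanish (m n t : ℕ) (h : m + n ≤ t) : (H1 m n).coeff t = 0 :=
  coeff_zero_of_dif (T := m + n) (fun t ht => by
    rw [H1_dif, et1, if_pos (by omega), if_pos (by omega), if_pos (by omega)]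
    norm_num) t h

theorem e1_left {t : ℕ} (ht : t < n) : 0 < e1 m n t := by
  rcases lt_or_ge t (m + 1) with h | h
  · rw [e1_A h ht]
    have : (t : ℤ) ≤ m := by exact_mod_cast Nat.lt_succ_iff.mp h
    have h0 : (0 : ℤ) ≤ t := Int.natCast_nonneg t
    nlinarith
  · rw [e1_B h ht]
    positivity

theorem e1_left_mono {t : ℕ} (ht : t + 1 < n) : e1 m n t ≤ e1 m n (t + 1) ∧
    (t : ℤ) * (e1 m n (t + 1) - e1 m n t) ≤ e1 m n t := by
  have h0 : (0 : ℤ) ≤ t := Int.natCast_nonneg t
  have hm0 : (0 : ℤ) ≤ m := Int.natCast_nonneg m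
  rcases lt_trichotomy t m with h | h | h
  · rw [e1_A (by omega) (by omega), e1_A (by omega) ht]
    have : (t : ℤ) + 1 ≤ m := by exact_mod_cast h
    push_cast
    constructor <;> nlinarith
  · subst h
    rw [e1_A (by omega) (by omega), e1_B (by omega) ht]
    constructor <;> nlinarith
  · rw [e1_B (by omega) (by omega), e1_B (by omega) ht]
    constructor
    · exact le_rfl
    · rw [sub_self, mul_zero]
      positivity

include hn in
theorem e1_right {t : ℕ} (ht : n ≤ t) (ht' : t ≤ m + n) : e1 m n t < 0 := by
  have hn' : (1 : ℤ) ≤ n := by exact_mod_cast hn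
  rcases lt_or_ge t (m + 1) with h | h
  · rw [e1_C h ht]
    nlinarith
  · rw [e1_D h ht (by omega)]
    obtain ⟨v, rfl⟩ := Nat.exists_eq_add_of_le h
    have h1 : (v : ℤ) + 1 ≤ n := by
      have : v + 1 ≤ n := by omega
      exact_mod_cast this
    have h0 : (0 : ℤ) ≤ v := Int.natCast_nonneg v
    push_cast
    nlinarith

include hn in
theorem e1_right_mono {c : ℕ} (hc : n ≤ c) (hc' : c + 1 ≤ m + n) : e1 m n c ≤ e1 m n (c + 1) ∧
    ((m : ℤ) + n - 1 - c) * (e1 m n (c + 1) - e1 m n c) ≤ -e1 m n (c + 1) := by
  have hn' : (1 : ℤ) ≤ n := by exact_mod_cast hn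
  have hm0 : (0 : ℤ) ≤ m := Int.natCast_nonneg m
  rcases lt_trichotomy c m with h | h | h
  · rw [e1_C (by omega) hc, e1_C (by omega) (by omega)]
    constructor
    · exact le_rfl
    · rw [sub_self, mul_zero]
      nlinarith [sq_nonneg (n : ℤ)]
  · subst h
    rw [e1_C (by omega) hc, e1_D (by omega) (by omega) (by omega)]
    push_cast
    constructor <;> nlinarith
  · rw [e1_D (by omega) hc (by omega), e1_D (by omega) (by omega) (by omega)]
    obtain ⟨v, rfl⟩ := Nat.exists_eq_add_of_le (show m + 1 ≤ c from h)
    have h0 : (0 : ℤ) ≤ v := Int.natCast_nonneg v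
    obtain ⟨r, rfl⟩ := Nat.exists_eq_add_of_le (show v + 2 ≤ n by omega)
    have h1 : (0 : ℤ) ≤ r := Int.natCast_nonneg r
    push_cast
    constructor
    · nlinarith
    · nlinarith [mul_nonneg h0 h1]

include hn in
theorem p1_pos {t : ℕ} (ht : t ≤ m + n - 1) : 0 < (P1 m n).coeff t := by
  rcases lt_or_ge t n with h | h
  · have key : ∀ s, s < n → 0 < (P1 m n).coeff s := by
      intro s hs
      induction s with
      | zero => rw [p1_zero]; exact e1_left hs
      | succ s ih =>
        rw [p1_succ]
        exact add_pos (ih (by omega)) (e1_left hs)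
    exact key t h
  · have key : ∀ r, ∀ s, s + r = m + n - 1 → n ≤ s → 0 < (P1 m n).coeff s := by
      intro r
      induction r with
      | zero =>
        intro s hs hns
        have h1 := p1_succ m n s
        have h2 := e1_right (m := m) hn (t := s + 1) (by omega) (by omega)
        rw [p1_vanish m n (s + 1) (by omega)] at h1
        linarith
      | succ r ih =>
        intro s hs hns
        have h1 := p1_succ m n s
        have h2 := e1_right (m := m) hn (t := s + 1) (by omega) (by omega)
        have h3 := ih (s + 1) (by omega) (by omega)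
        linarith
    exact key (m + n - 1 - t) t (by omega) h

theorem p1_left_le {t : ℕ} (ht : t < n) : (P1 m n).coeff t ≤ ((t : ℤ) + 1) * e1 m n t := by
  induction t with
  | zero => rw [p1_zero]; simp
  | succ t ih =>
    rw [p1_succ]
    have h1 := ih (by omega)
    have h2 := (e1_left_mono (m := m) ht).1
    have h0 : (0 : ℤ) ≤ t := Int.natCast_nonneg t
    push_cast
    nlinarith

include hn in
theorem p1_right_le (r : ℕ) : ∀ t, t + r = m + n → n ≤ t + 1 →
    (P1 m n).coeff t ≤ (r : ℤ) * -e1 m n (t + 1) := by
  induction r with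
  | zero =>
    intro t ht _
    rw [p1_vanish m n t (by omega)]
    simp
  | succ r ih =>
    intro t ht hnt
    have h1 := ih (t + 1) (by omega) (by omega)
    have h2 := p1_succ m n t
    have h3 : -e1 m n (t + 1 + 1) ≤ -e1 m n (t + 1) ∨ r = 0 := by
      rcases Nat.eq_zero_or_pos r with h | h
      · exact Or.inr h
      · left
        have := (e1_right_mono (m := m) hn (c := t + 1) (by omega) (by omega)).1
        linarith
    push_cast
    rcases h3 with h3 | h3
    · have h0 : (0 : ℤ) ≤ r := Int.natCast_nonneg r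
      nlinarith
    · subst h3
      simp only [Nat.cast_zero, zero_mul] at h1
      simp only [Nat.cast_zero]
      linarith

include hn in
theorem p1_lcv : LCv (P1 m n).coeff (m + n - 1) where
  pos t ht := p1_pos hn ht
  zero t ht := p1_vanish m n t (by omega)
  lc t := by
    have s1 := p1_succ m n t
    have s2 := p1_succ m n (t + 1)
    have d1 : (P1 m n).coeff (t + 1) - (P1 m n).coeff t = e1 m n (t + 1) := by linarith
    have d2 : (P1 m n).coeff (t + 2) - (P1 m n).coeff (t + 1) = e1 m n (t + 2) := by
      have : t + 1 + 1 = t + 2 := rfl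
      rw [this] at s2
      linarith
    rcases lt_trichotomy (t + 2) n with h | h | h
    · refine lc_ii ?_
      rw [d1, d2]
      have h1 := e1_left_mono (m := m) (t := t + 1) h
      have h2 := p1_left_le (m := m) (t := t) (n := n) (by omega)
      have h3 := (e1_left_mono (m := m) (t := t) (n := n) (by omega)).1
      have h4 := e1_left (m := m) (t := t + 1) (n := n) (by omega)
      have h5 : e1 m n (t + 1 + 1) = e1 m n (t + 2) := rfl
      rw [h5] at h1
      push_cast at h1
      have h0 : (0 : ℤ) ≤ t := Int.natCast_nonneg t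
      have h6 : (P1 m n).coeff t ≤ ((t : ℤ) + 1) * e1 m n (t + 1) := by nlinarith
      calc (P1 m n).coeff t * (e1 m n (t + 2) - e1 m n (t + 1))
          ≤ (((t : ℤ) + 1) * e1 m n (t + 1)) * (e1 m n (t + 2) - e1 m n (t + 1)) :=
            mul_le_mul_of_nonneg_right h6 (by linarith [h1.1])
        _ = (((t : ℤ) + 1) * (e1 m n (t + 2) - e1 m n (t + 1))) * e1 m n (t + 1) := by ring
        _ ≤ e1 m n (t + 1) * e1 m n (t + 1) := mul_le_mul_of_nonneg_right h1.2 h4.le
        _ = e1 m n (t + 1) ^ 2 := by ring
    · refine lc_i (P1_nn m n t) (P1_nn m n _) ?_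
      rw [d1, d2]
      have h1 := e1_left (m := m) (t := t + 1) (n := n) (by omega)
      have h2 := e1_right (m := m) hn (t := t + 2) (by omega) (by omega)
      linarith
    · rcases le_or_gt (t + 2) (m + n) with h' | h'
      · refine lc_iii ?_
        rw [d1, d2]
        have h1 := e1_right_mono (m := m) hn (c := t + 1) (by omega) h'
        have h2 := p1_right_le (m := m) hn (m + n - (t + 2)) (t + 2) (by omega) (by omega)
        have h5 : e1 m n (t + 1 + 1) = e1 m n (t + 2) := rfl
        rw [h5] at h1
        have h7 : ((m + n - (t + 2) : ℕ) : ℤ) = (m : ℤ) + n - 1 - (t + 1 : ℕ) := by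
          push_cast [Nat.cast_sub h']
          ring
        rw [h7] at h2
        have h8 : (0 : ℤ) ≤ (m : ℤ) + n - 1 - (t + 1 : ℕ) := by
          rw [← h7]
          exact Int.natCast_nonneg _
        have h4 := e1_right (m := m) hn (t := t + 2) (by omega) h'
        have h6 : (P1 m n).coeff (t + 2) ≤ ((m : ℤ) + n - 1 - (t + 1 : ℕ)) * -e1 m n (t + 2) := by
          rcases h'.eq_or_lt with h9 | h9
          · rw [p1_vanish m n (t + 2) (by omega)]
            exact mul_nonneg h8 (by linarith)
          · have h10 := (e1_right_mono (m := m) hn (c := t + 2) (by omega) (by omega)).1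
            exact h2.trans (mul_le_mul_of_nonneg_left (by linarith) h8)
        calc (P1 m n).coeff (t + 2) * (e1 m n (t + 2) - e1 m n (t + 1))
            ≤ (((m : ℤ) + n - 1 - (t + 1 : ℕ)) * -e1 m n (t + 2)) * (e1 m n (t + 2) - e1 m n (t + 1)) :=
              mul_le_mul_of_nonneg_right h6 (by linarith [h1.1])
          _ = (((m : ℤ) + n - 1 - (t + 1 : ℕ)) * (e1 m n (t + 2) - e1 m n (t + 1))) * -e1 m n (t + 2) := by
              ring
          _ ≤ -e1 m n (t + 2) * -e1 m n (t + 2) := mul_le_mul_of_nonneg_right h1.2 (by linarith)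
          _ = e1 m n (t + 2) ^ 2 := by ring
      · rw [p1_vanish m n (t + 2) (by omega), mul_zero]
        exact sq_nonneg _

theorem h1_left {t : ℕ} (ht : t < n) : 0 ≤ et1 m n t := by
  rw [et1, if_neg (show ¬ n ≤ t by omega), if_neg (show ¬ m + 1 + n ≤ t by omega)]
  split_ifs <;> norm_num

theorem h1_right {t : ℕ} (ht : n ≤ t) : et1 m n t ≤ 0 := by
  rw [et1, if_pos ht]
  split_ifs <;> first | omega | norm_num

theorem h1_ge (m n t : ℕ) : -1 ≤ et1 m n t := by
  rw [et1]
  split_ifs <;> first | omega | norm_num

theorem e1_right' {t : ℕ} (hn : 1 ≤ n) (ht : n ≤ t) : e1 m n t ≤ 0 := by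
  rcases le_or_gt t (m + n) with h | h
  · exact (e1_right hn ht h).le
  · rw [e1_E (by omega)]

theorem H1_le (m n t : ℕ) : (H1 m n).coeff t ≤ (P1 m n).coeff t := by
  have h : P1 m n = H1 m n + (RP m * (TP n - bP n) + (2 * sP m) * bP n) := by
    rw [P1, H1, RP]
    ring
  have h2 : NN (TP n - bP n) := by
    cases n with
    | zero =>
      have : TP 0 - bP 0 = 0 := by simp [TP, tP, bP]
      rw [this]
      exact NN.zero
    | succ n =>
      have : TP (n + 1) - bP (n + 1) = 2 * (X * tP n) := by
        rw [TP_succ, bP]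
        ring
      rw [this]
      exact NN.two.mul (NN.X.mul (tP_nn n))
  have h3 := (((RP_nn m).mul h2).add ((NN.two.mul (sP_nn m)).mul (bP_nn n))) t
  rw [h, coeff_add]
  linarith

/-- Q of the two-bridge family -/
noncomputable def Q1 (m n : ℕ) : ℤ[X] := P1 m n + H1 m n

theorem q1_coeff (m n t : ℕ) : (Q1 m n).coeff t = (P1 m n).coeff t + (H1 m n).coeff t := by
  rw [Q1, coeff_add]

theorem row0_dif (n : ℕ) (p q : ℕ → ℤ) (t : ℕ) : row0 n p q (t + 1) - row0 n p q t =
    (q (t + 1) - q t) + 2 * (q t - sh q t) + (sh q t - sh (sh q) t) + 2 * (p t - sh p t) +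
      (del n (t + 1) - del n t) := by
  simp only [row0, sh]
  ring

theorem q1_dif (m n t : ℕ) : (Q1 m n).coeff t - sh (Q1 m n).coeff t = e1 m n t + et1 m n t := by
  rw [← P1_dif, ← H1_dif, q1_coeff]
  cases t with
  | zero => simp [sh]
  | succ t => simp only [sh]; rw [q1_coeff]; ring

theorem q1_dif' (m n t : ℕ) : sh (Q1 m n).coeff t - sh (sh (Q1 m n).coeff) t =
    sh (fun t => e1 m n t + et1 m n t) t := by
  cases t with
  | zero => simp [sh]
  | succ t => exact q1_dif m n t

include hn in
theorem rows1_u0 : Uni (row0 n (P1 m n).coeff (Q1 m n).coeff) := by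
  have hn' : (1 : ℤ) ≤ n := by exact_mod_cast hn
  have hm0 : (0 : ℤ) ≤ m := Int.natCast_nonneg m
  have key : ∀ t, row0 n (P1 m n).coeff (Q1 m n).coeff (t + 1) - row0 n (P1 m n).coeff (Q1 m n).coeff t =
      (e1 m n (t + 1) + et1 m n (t + 1)) + 2 * (e1 m n t + et1 m n t) + sh (fun t => e1 m n t + et1 m n t) t +
        2 * e1 m n t + (del n (t + 1) - del n t) := by
    intro t
    have h1 := q1_dif m n (t + 1)
    simp only [sh] at h1
    rw [row0_dif, q1_dif, q1_dif', P1_dif, h1]
  have shn : ∀ t, t < n → 0 ≤ sh (fun t => e1 m n t + et1 m n t) t := by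
    intro t ht
    cases t with
    | zero => exact le_rfl
    | succ t => exact add_nonneg (e1_left (by omega)).le (h1_left (by omega))
  -- left part
  have left : ∀ t, t + 1 < n → row0 n (P1 m n).coeff (Q1 m n).coeff t ≤
      row0 n (P1 m n).coeff (Q1 m n).coeff (t + 1) := by
    intro t ht
    have h0 := key t
    have h1 := e1_left (m := m) ht
    have h2 := h1_left (m := m) ht
    have h3 := e1_left (m := m) (t := t) (n := n) (by omega)
    have h4 := h1_left (m := m) (t := t) (n := n) (by omega)
    have h5 := shn t (by omega)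
    have h6 : del n (t + 1) = 0 := if_neg (by omega)
    have h7 : del n t = 0 := if_neg (by omega)
    rw [h6, h7] at h0
    linarith
  have right : ∀ t, n + 1 ≤ t → row0 n (P1 m n).coeff (Q1 m n).coeff (t + 1) ≤
      row0 n (P1 m n).coeff (Q1 m n).coeff t := by
    intro t ht
    obtain ⟨t, rfl⟩ : ∃ t', t = t' + 1 := ⟨t - 1, by omega⟩
    have h0 := key (t + 1)
    have h1 := e1_right' (m := m) (t := t + 1) hn (by omega)
    have h2 := h1_right (m := m) (n := n) (t := t + 1) (by omega)
    have h3 := e1_right' (m := m) (t := t + 1 + 1) hn (by omega)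
    have h4 := h1_right (m := m) (n := n) (t := t + 1 + 1) (by omega)
    have h5 := e1_right' (m := m) (t := t) hn (by omega)
    have h6 := h1_right (m := m) (n := n) (t := t) (by omega)
    have h7 : del n (t + 1 + 1) = 0 := if_neg (by omega)
    have h8 : del n (t + 1) = 0 := if_neg (by omega)
    rw [h7, h8] at h0
    simp only [sh] at h0
    linarith
  obtain ⟨n, rfl⟩ : ∃ n', n = n' + 1 := ⟨n - 1, by omega⟩
  rcases le_or_gt (n + 1) (m + 1) with hc | hc
  · refine uni_of_gap (n + 1) ?_ right
    intro t ht
    rcases (Nat.lt_succ_iff.mp ht).eq_or_lt with rfl | ht'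
    · have h0 := key t
      have h5 := shn t (by omega)
      have h6 : del (t + 1) (t + 1) = 1 := if_pos rfl
      have h7 : del (t + 1) t = 0 := if_neg (by omega)
      have h8 := h1_left (m := m) (t := t) (n := t + 1) (by omega)
      have h9 := h1_ge m (t + 1) (t + 1)
      rw [h6, h7] at h0
      have e2 : e1 m (t + 1) t = (2 * m + 1) * (2 * t + 1) - 2 * t ^ 2 := e1_A (by omega) (by omega)
      have ht0 : (0 : ℤ) ≤ t := Int.natCast_nonneg t
      have htm : (t : ℤ) ≤ m := by
        have : t ≤ m := by omega
        exact_mod_cast this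
      rcases hc.eq_or_lt with hc' | hc'
      · have e3 := e1_D (m := m) (n := t + 1) (t := t + 1) (by omega) le_rfl (by omega)
        have : (m : ℤ) = t := by
          have : m = t := by omega
          exact_mod_cast this
        rw [this] at e3 e2
        push_cast at e3
        nlinarith
      · have e3 := e1_C (m := m) (n := t + 1) (t := t + 1) (by omega) le_rfl
        push_cast at e3
        nlinarith
    · exact left t (by omega)
  · refine uni_of_gap n (fun t ht => left t (by omega)) ?_
    intro t ht
    rcases ht.eq_or_lt with rfl | ht'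
    · have h0 := key (n + 1)
      have h6 : del (n + 1) (n + 1) = 1 := if_pos rfl
      have h7 : del (n + 1) (n + 1 + 1) = 0 := if_neg (by omega)
      have h1 := e1_right' (m := m) (n := n + 1) (t := n + 1 + 1) hn (by omega)
      have h2 := h1_right (m := m) (n := n + 1) (t := n + 1 + 1) (by omega)
      have h3 := h1_right (m := m) (n := n + 1) (t := n + 1) (by omega)
      have h4 : et1 m (n + 1) n = 0 := by
        rw [et1, if_pos (by omega), if_neg (by omega), if_neg (by omega)]
        norm_num
      rw [h6, h7] at h0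
      simp only [sh, h4] at h0
      have e2 := e1_B (m := m) (n := n + 1) (t := n) (by omega) (by omega)
      have e3 := e1_D (m := m) (n := n + 1) (t := n + 1) (by omega) (by omega) (by omega)
      have hnm : (m : ℤ) + 1 ≤ n := by
        have : m + 1 ≤ n := by omega
        exact_mod_cast this
      push_cast at e3
      nlinarith
    · exact right t ht'

include hn in
theorem rows1_u2 : Uni (P1 m n).coeff := by
  refine uni_of_mode (n - 1) ?_ ?_
  · intro t ht
    have := e1_left (m := m) (t := t + 1) (n := n) (by omega)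
    rw [p1_succ]
    linarith
  · intro t ht
    have := e1_right' (m := m) (t := t + 1) hn (by omega)
    rw [p1_succ]
    linarith

include hn in
theorem rows1_u1 : Uni (row1 (P1 m n).coeff (Q1 m n).coeff) := by
  refine uni_row1 (n - 1) ?_ ?_ ?_
  · rw [q1_coeff]
    have h1 := P1_nn m n 0
    have h2 := H1_nn m n 0
    linarith
  · intro t ht
    have h1 := e1_left (m := m) (t := t + 1) (n := n) (by omega)
    have h2 := h1_left (m := m) (t := t + 1) (n := n) (by omega)
    rw [q1_coeff, q1_coeff, p1_succ, hh_succ]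
    linarith
  · intro t ht
    have h1 := e1_right' (m := m) (t := t + 1) hn (by omega)
    have h2 := h1_right (m := m) (t := t + 1) (n := n) (by omega)
    rw [q1_coeff, q1_coeff, p1_succ, hh_succ]
    linarith

include hn in
theorem rows1_M (i j k : ℕ) (hij : i + j = 2 * k) :
    (P1 m n).coeff j ≤ row1 (P1 m n).coeff (Q1 m n).coeff k ∨
      row0 n (P1 m n).coeff (Q1 m n).coeff i ≤ row1 (P1 m n).coeff (Q1 m n).coeff k := by
  have hp := P1_nn m n
  have hh := H1_nn m n
  have hq : ∀ t, 0 ≤ (Q1 m n).coeff t := fun t => by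
    rw [q1_coeff]
    exact add_nonneg (hp t) (hh t)
  cases k with
  | zero =>
    left
    have : j = 0 := by omega
    subst this
    have := hq 0
    simp only [row1, sh]
    linarith
  | succ k =>
    have eL : row1 (P1 m n).coeff (Q1 m n).coeff (k + 1) =
        2 * ((P1 m n).coeff (k + 1) + (P1 m n).coeff k) + ((H1 m n).coeff (k + 1) + (H1 m n).coeff k) := by
      simp only [row1, sh, q1_coeff]
      ring
    have hL : 0 ≤ row1 (P1 m n).coeff (Q1 m n).coeff (k + 1) := by
      rw [eL]
      have := hp (k + 1)
      have := hp k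
      have := hh (k + 1)
      have := hh k
      linarith
    rcases le_or_gt (m + n) k with hk | hk
    · -- k large
      rcases le_or_gt (m + n) j with hj | hj
      · left
        rw [p1_vanish m n j hj]
        exact hL
      · right
        obtain ⟨i, rfl⟩ : ∃ i', i = i' + 2 := ⟨i - 2, by omega⟩
        have h7 : del n (i + 2) = 0 := if_neg (by omega)
        simp only [row0, sh, h7, q1_coeff, p1_vanish m n (i + 2) (by omega), p1_vanish m n (i + 1) (by omega),
          p1_vanish m n i (by omega), hh_vanish m n (i + 2) (by omega), hh_vanish m n (i + 1) (by omega),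
          hh_vanish m n i (by omega)]
        simpa using hL
    · have hX : (Q1 m n).coeff i + 2 * sh (Q1 m n).coeff i + sh (sh (Q1 m n).coeff) i +
          2 * sh (P1 m n).coeff i ≤ 2 * (P1 m n).coeff i + 6 * sh (P1 m n).coeff i +
            2 * sh (sh (P1 m n).coeff) i := by
        have h0 := H1_le m n i
        match i with
        | 0 =>
          simp only [sh, q1_coeff]
          linarith
        | 1 =>
          have h2 := H1_le m n 0
          simp only [sh, q1_coeff]
          linarith
        | i + 2 =>
          have h2 := H1_le m n (i + 1)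
          have h3 := H1_le m n i
          simp only [sh, q1_coeff]
          linarith
      have hpk : 0 < (P1 m n).coeff k := p1_pos hn (by omega)
      have hpk1 := hp (k + 1)
      have hhk := hh k
      have hhk1 := hh (k + 1)
      have hlt : 2 * (P1 m n).coeff (k + 1) ^ 2 + 6 * ((P1 m n).coeff (k + 1) * (P1 m n).coeff k) +
          2 * (P1 m n).coeff k ^ 2 < row1 (P1 m n).coeff (Q1 m n).coeff (k + 1) ^ 2 := by
        rw [eL]
        set A := (P1 m n).coeff (k + 1)
        set B := (P1 m n).coeff k
        set C := (H1 m n).coeff (k + 1) + (H1 m n).coeff k with hC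
        have hC0 : 0 ≤ C := by linarith
        nlinarith [mul_nonneg hpk1 hpk.le, mul_nonneg hC0 (add_nonneg hpk1 hpk.le), sq_nonneg C,
          mul_pos hpk hpk, sq_nonneg (A - B)]
      rcases (p1_lcv (m := m) hn).mid hij (by norm_num) (by norm_num) (by norm_num) hL hX hlt with h | h
      · exact Or.inl h
      · right
        have h7 : del n i ≤ 1 := by
          unfold del
          split_ifs <;> norm_num
        have : row0 n (P1 m n).coeff (Q1 m n).coeff i = (Q1 m n).coeff i + 2 * sh (Q1 m n).coeff i +
            sh (sh (Q1 m n).coeff) i + 2 * sh (P1 m n).coeff i + del n i := rfl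
        rw [this]
        linarith

include hn in
/-- the conditions for the two-bridge family -/
theorem rows1 : Rows (row0 n (P1 m n).coeff (Q1 m n).coeff) (row1 (P1 m n).coeff (Q1 m n).coeff)
    (P1 m n).coeff := by
  refine rows_of (P1_nn m n) (fun t => ?_) (rows1_u0 hn) (rows1_u1 hn) (rows1_u2 hn) (rows1_M hn)
  rw [q1_coeff]
  exact add_nonneg (P1_nn m n t) (H1_nn m n t)

end

end LG3
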