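import Pool.Agent.Lib.MP_3cd99b_gt.F1b

/-! The pretzel family: differences of the coefficients. -/

open Finset Polynomial

namespace LG3

/-- first polynomial of the pretzel family -/
noncomputable def CP (a b c : ℕ) : ℤ[X] := bP (a + 1) * bP (b + 1) * bP (c + 1) - X * (bP a * bP b * bP c)

/-- second polynomial of the pretzel family -/
noncomputable def MP (a b c : ℕ) : ℤ[X] :=
  sP a * (bP (b + 1) * bP (c + 1) + X * (bP b * bP c)) + sP b * (bP (a + 1) * bP (c + 1) + X * (bP a * bP c)) +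
    sP c * (bP (a + 1) * bP (b + 1) + X * (bP a * bP b)) + 2 * (sP a * sP b + sP a * sP c + sP b * sP c)

theorem CP_id (a b c : ℕ) : (1 - X) ^ 3 * CP a b c =
    (1 - X ^ (a + 1)) * (1 - X ^ (b + 1)) * (1 - X ^ (c + 1)) - X * ((1 - X ^ a) * (1 - X ^ b) * (1 - X ^ c)) := by
  simp only [← bP_id, CP]
  ring

theorem MP_id (a b c : ℕ) : (1 - X) ^ 4 * MP a b c =
    ((a : ℤ[X]) - ((a : ℤ[X]) + 1) * X + X ^ (a + 1)) *
      ((1 - X ^ (b + 1)) * (1 - X ^ (c + 1)) + X * ((1 - X ^ b) * (1 - X ^ c))) +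
    ((b : ℤ[X]) - ((b : ℤ[X]) + 1) * X + X ^ (b + 1)) *
      ((1 - X ^ (a + 1)) * (1 - X ^ (c + 1)) + X * ((1 - X ^ a) * (1 - X ^ c))) +
    ((c : ℤ[X]) - ((c : ℤ[X]) + 1) * X + X ^ (c + 1)) *
      ((1 - X ^ (a + 1)) * (1 - X ^ (b + 1)) + X * ((1 - X ^ a) * (1 - X ^ b))) +
    2 * (((a : ℤ[X]) - ((a : ℤ[X]) + 1) * X + X ^ (a + 1)) * ((b : ℤ[X]) - ((b : ℤ[X]) + 1) * X + X ^ (b + 1)) +
      ((a : ℤ[X]) - ((a : ℤ[X]) + 1) * X + X ^ (a + 1)) * ((c : ℤ[X]) - ((c : ℤ[X]) + 1) * X + X ^ (c + 1)) +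
      ((b : ℤ[X]) - ((b : ℤ[X]) + 1) * X + X ^ (b + 1)) * ((c : ℤ[X]) - ((c : ℤ[X]) + 1) * X + X ^ (c + 1))) := by
  simp only [← bP_id, ← sP_id, MP]
  ring

theorem CP_series (a b c : ℕ) : (1 - PowerSeries.X) * (CP a b c : PowerSeries ℤ) =
    QS 0 0 1 - PowerSeries.X ^ (a + b + 1) * QS 0 0 1 - PowerSeries.X ^ (a + c + 1) * QS 0 0 1 -
      PowerSeries.X ^ (b + c + 1) * QS 0 0 1 + PowerSeries.X ^ (a + b + c + 1) * QS 0 0 1 +
      PowerSeries.X ^ (a + b + c + 2) * QS 0 0 1 := by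
  have h := congrArg (Polynomial.coeToPowerSeries.ringHom (R := ℤ)) (CP_id a b c)
  simp only [map_sub, map_mul, map_pow, map_one,
    Polynomial.coeToPowerSeries.ringHom_apply, Polynomial.coe_X] at h
  refine mul_left_cancel₀ (pow_ne_zero 3 one_sub_X_ne) ?_
  have q := QS_id 0 0 1
  push_cast at q
  linear_combination (1 - PowerSeries.X) * h - (1 - PowerSeries.X ^ (a + b + 1) - PowerSeries.X ^ (a + c + 1) -
    PowerSeries.X ^ (b + c + 1) + PowerSeries.X ^ (a + b + c + 1) + PowerSeries.X ^ (a + b + c + 2)) * q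

theorem MP_series (a b c : ℕ) : (1 - PowerSeries.X) * (MP a b c : PowerSeries ℤ) =
    QS 0 (-(2 * (a + b + c) + 3)) (2 * (a * b + a * c + b * c) + (a + b + c)) +
      PowerSeries.X ^ a * QS 1 0 0 + PowerSeries.X ^ b * QS 1 0 0 + PowerSeries.X ^ c * QS 1 0 0 +
      PowerSeries.X ^ (a + b + 1) * QS (-2) (2 * c - 1) c + PowerSeries.X ^ (a + c + 1) * QS (-2) (2 * b - 1) b +
      PowerSeries.X ^ (b + c + 1) * QS (-2) (2 * a - 1) a + PowerSeries.X ^ (a + b + c + 1) * QS 3 0 0 := by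
  have h := congrArg (Polynomial.coeToPowerSeries.ringHom (R := ℤ)) (MP_id a b c)
  simp only [map_add, map_sub, map_mul, map_pow, map_one, map_natCast, map_ofNat,
    Polynomial.coeToPowerSeries.ringHom_apply, Polynomial.coe_X] at h
  refine mul_left_cancel₀ (pow_ne_zero 3 one_sub_X_ne) ?_
  have q1 := QS_id 0 (-(2 * (a + b + c) + 3)) (2 * (a * b + a * c + b * c) + (a + b + c))
  have q2 := QS_id 1 0 0
  have q3 := QS_id (-2) (2 * c - 1) c
  have q4 := QS_id (-2) (2 * b - 1) b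
  have q5 := QS_id (-2) (2 * a - 1) a
  have q6 := QS_id 3 0 0
  push_cast at q1 q2 q3 q4 q5 q6
  linear_combination h - q1 - (PowerSeries.X ^ a + PowerSeries.X ^ b + PowerSeries.X ^ c) * q2 -
    PowerSeries.X ^ (a + b + 1) * q3 - PowerSeries.X ^ (a + c + 1) * q4 - PowerSeries.X ^ (b + c + 1) * q5 -
    PowerSeries.X ^ (a + b + c + 1) * q6

/-- truncated square -/
def sq' (k t : ℕ) : ℤ := if k ≤ t then ((t : ℤ) - k) ^ 2 else 0

/-- truncated quadratic polynomial of a pair -/
def pr (k m t : ℕ) : ℤ :=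
  if k + 1 ≤ t then -2 * ((t : ℤ) - (k + 1 : ℕ)) ^ 2 + (2 * m - 1) * ((t : ℤ) - (k + 1 : ℕ)) + m else 0

/-- differences of the coefficients of M -/
def d2 (a b c t : ℕ) : ℤ :=
  -(2 * (a + b + c) + 3) * t + (2 * (a * b + a * c + b * c) + (a + b + c)) + sq' a t + sq' b t + sq' c t +
    pr (a + b) c t + pr (a + c) b t + pr (b + c) a t + 3 * sq' (a + b + c + 1) t

/-- differences of the coefficients of C -/
def g2 (a b c t : ℕ) : ℤ :=
  1 - (if a + b + 1 ≤ t then 1 else 0) - (if a + c + 1 ≤ t then 1 else 0) - (if b + c + 1 ≤ t then 1 else 0) +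
    (if a + b + c + 1 ≤ t then 1 else 0) + (if a + b + c + 2 ≤ t then 1 else 0)

theorem MP_dif (a b c t : ℕ) : (MP a b c).coeff t - sh (MP a b c).coeff t = d2 a b c t := by
  rw [← dif_coeff, MP_series]
  simp only [map_add, coeff_QS, coeff_QS0, d2, sq', pr]
  simp only [zero_mul, zero_add, one_mul, add_zero, mul_ite, mul_zero]

theorem CP_dif (a b c t : ℕ) : (CP a b c).coeff t - sh (CP a b c).coeff t = g2 a b c t := by
  rw [← dif_coeff, CP_series]
  simp only [map_add, map_sub, coeff_QS, coeff_QS0, g2]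
  simp only [zero_mul, zero_add]

theorem sq_succ (k t : ℕ) : sq' k (t + 1) = sq' k t + if k ≤ t then 2 * ((t : ℤ) - k) + 1 else 0 := by
  unfold sq'
  rcases lt_trichotomy k (t + 1) with h | h | h
  · rw [if_pos (by omega), if_pos (by omega), if_pos (by omega)]
    push_cast
    ring
  · subst h
    rw [if_pos le_rfl, if_neg (by omega), if_neg (by omega)]
    push_cast
    ring
  · rw [if_neg (by omega), if_neg (by omega), if_neg (by omega)]
    ring

theorem pr_succ (k m t : ℕ) : pr k m (t + 1) = pr k m t +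
    if k + 1 ≤ t then 2 * (m : ℤ) + 1 - 4 * ((t : ℤ) - k) else if k = t then (m : ℤ) else 0 := by
  unfold pr
  rcases lt_trichotomy k t with h | h | h
  · rw [if_pos (by omega), if_pos (by omega), if_pos (by omega)]
    push_cast
    ring
  · subst h
    rw [if_pos le_rfl, if_neg (by omega), if_neg (by omega), if_pos rfl]
    push_cast
    ring
  · rw [if_neg (by omega), if_neg (by omega), if_neg (by omega), if_neg (by omega)]
    ring

section
variable {a b c : ℕ} (hab : a ≤ b) (hbc : b ≤ c)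
include hab hbc

/-- region i -/
theorem d2_i {t w : ℕ} (h : t + w = a + b + c + 1) (h1 : 1 ≤ w) (h2 : w ≤ a) : d2 a b c t = -(3 * (w : ℤ) ^ 2) := by
  have ht : (t : ℤ) = a + b + c + 1 - w := by omega
  unfold d2 sq' pr
  rw [if_pos (by omega), if_pos (by omega), if_pos (by omega), if_pos (by omega), if_pos (by omega),
    if_pos (by omega), if_neg (by omega), ht]
  push_cast
  ring

/-- region ii -/
theorem d2_ii {t w : ℕ} (h : t + w = a + b + c + 1) (h1 : a < w) (h2 : w ≤ b) :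
    d2 a b c t = -((w : ℤ) * (w + 2 * a + 1)) := by
  have ht : (t : ℤ) = a + b + c + 1 - w := by omega
  unfold d2 sq' pr
  rw [if_pos (by omega), if_pos (by omega), if_pos (by omega), if_pos (by omega), if_pos (by omega),
    if_neg (by omega), if_neg (by omega), ht]
  push_cast
  ring

/-- region iii -/
theorem d2_iii {t w : ℕ} (h : t + w = a + b + c + 1) (h1 : b < w) (h2 : w ≤ c) (h3 : w ≤ a + b + 1) :
    d2 a b c t = -((w : ℤ) * (2 * a + 2 * b + 2 - w)) := by
  have ht : (t : ℤ) = a + b + c + 1 - w := by omega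
  unfold d2 sq' pr
  rw [if_pos (by omega), if_pos (by omega), if_pos (by omega), if_pos (by omega), if_neg (by omega),
    if_neg (by omega), if_neg (by omega), ht]
  push_cast
  ring

/-- region iv -/
theorem d2_iv (h1 : c ≤ a + b) : d2 a b c (a + b) = -(((c : ℤ) + 1) * (2 * a + 2 * b - c)) := by
  unfold d2 sq' pr
  rw [if_pos (by omega), if_pos (by omega), if_pos (by omega), if_neg (by omega), if_neg (by omega),
    if_neg (by omega), if_neg (by omega)]
  push_cast
  ring

/-- region v -/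
theorem d2_v {t : ℕ} (h : a + b + c + 1 ≤ t) : d2 a b c t = 0 := by
  unfold d2 sq' pr
  rw [if_pos (by omega), if_pos (by omega), if_pos (by omega), if_pos (by omega), if_pos (by omega),
    if_pos (by omega), if_pos (by omega)]
  push_cast
  ring

omit hab hbc in
theorem d2_zero : d2 a b c 0 = (2 * (a * b + a * c + b * c) + (a + b + c) : ℤ) := by
  have h1 : ∀ k, sq' k 0 = 0 := by
    intro k
    unfold sq'
    split_ifs with h
    · have : k = 0 := by omega
      subst this
      simp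
    · rfl
  have h2 : ∀ k m, pr k m 0 = 0 := by
    intro k m
    unfold pr
    rw [if_neg (by omega)]
  simp only [d2, h1, h2]
  push_cast
  ring

theorem d2_succ {t : ℕ} (h : t < a + c) : d2 a b c (t + 1) - d2 a b c t = -(2 * (a + b + c) + 3 : ℤ) +
    (if a ≤ t then 2 * ((t : ℤ) - a) + 1 else 0) + (if b ≤ t then 2 * ((t : ℤ) - b) + 1 else 0) +
    (if c ≤ t then 2 * ((t : ℤ) - c) + 1 else 0) +
    (if a + b + 1 ≤ t then 2 * (c : ℤ) + 1 - 4 * ((t : ℤ) - (a + b : ℕ)) else if a + b = t then (c : ℤ) else 0) := by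
  unfold d2
  rw [sq_succ, sq_succ, sq_succ, pr_succ, pr_succ (a + c), pr_succ (b + c), sq_succ (a + b + c + 1)]
  rw [if_neg (show ¬ a + c + 1 ≤ t by omega), if_neg (show ¬ a + c = t by omega),
    if_neg (show ¬ b + c + 1 ≤ t by omega), if_neg (show ¬ b + c = t by omega),
    if_neg (show ¬ a + b + c + 1 ≤ t by omega)]
  push_cast
  ring

/-- concavity of M up to max (a + b) c -/
theorem d2_conc {t : ℕ} (h : t + 1 ≤ a + b ∨ t + 1 ≤ c) : d2 a b c (t + 1) ≤ d2 a b c t := by
  have h0 := d2_succ hab hbc (t := t) (by omega)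
  split_ifs at h0 <;> push_cast at h0 <;> omega

/-- lower bound for the second differences -/
theorem d2_low {t : ℕ} (h : t + 1 ≤ a + b) : d2 a b c t ≤ d2 a b c (t + 1) + (2 * (a + b + c) + 3) := by
  have h0 := d2_succ hab hbc (t := t) (by omega)
  split_ifs at h0 <;> push_cast at h0 <;> omega

theorem d2_low' {t : ℕ} (h : t + 1 = c) (h' : a + b < c) :
    d2 a b c t ≤ d2 a b c c + (if c = a + b + 1 then (c : ℤ) + 1 else 0) := by
  have h0 := d2_succ hab hbc (t := t) (by omega)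
  rw [h] at h0
  split_ifs at h0 ⊢ <;> push_cast at h0 <;> omega

/-- negativity beyond max (a + b) c -/
theorem d2_neg {t : ℕ} (h1 : a + b ≤ t) (h2 : c ≤ t) (h3 : t ≤ a + b + c) (hc : 1 ≤ c) : d2 a b c t ≤ -1 := by
  rcases h1.eq_or_lt with h | h
  · subst h
    rw [d2_iv hab hbc h2]
    have h4 : (c : ℤ) ≤ a + b := by exact_mod_cast h2
    have h5 : (1 : ℤ) ≤ c := by exact_mod_cast hc
    nlinarith
  · obtain ⟨w, hw⟩ : ∃ w, t + w = a + b + c + 1 := ⟨a + b + c + 1 - t, by omega⟩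
    rcases le_or_gt w a with hwa | hwa
    · rw [d2_i hab hbc hw (by omega) hwa]
      have : (1 : ℤ) ≤ w := by
        have : 1 ≤ w := by omega
        exact_mod_cast this
      nlinarith
    · rcases le_or_gt w b with hwb | hwb
      · rw [d2_ii hab hbc hw hwa hwb]
        have : (1 : ℤ) ≤ w := by
          have : 1 ≤ w := by omega
          exact_mod_cast this
        have h0 : (0 : ℤ) ≤ a := Int.natCast_nonneg a
        nlinarith
      · rw [d2_iii hab hbc hw hwb (by omega) (by omega)]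
        have h6 : (1 : ℤ) ≤ w := by
          have : 1 ≤ w := by omega
          exact_mod_cast this
        have h7 : (w : ℤ) ≤ a + b + 1 := by
          have : w ≤ a + b + 1 := by omega
          exact_mod_cast this
        nlinarith

theorem d2_nonpos {t : ℕ} (h1 : a + b ≤ t) (h2 : c ≤ t) (hc : 1 ≤ c) : d2 a b c t ≤ 0 := by
  rcases le_or_gt t (a + b + c) with h | h
  · linarith [d2_neg hab hbc h1 h2 h hc]
  · rw [d2_v hab hbc (by omega)]

theorem g2_anti {t : ℕ} (h : t + 1 ≤ a + b + c) : g2 a b c (t + 1) ≤ g2 a b c t := by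
  unfold g2
  split_ifs <;> omega

omit hab hbc in
theorem g2_le (t : ℕ) : g2 a b c t ≤ 1 := by
  unfold g2
  split_ifs <;> omega

theorem g2_nonpos {t : ℕ} (h : a + b + 1 ≤ t) : g2 a b c t ≤ 0 := by
  unfold g2
  split_ifs <;> omega

end

end LG3
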