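import Pool.Agent.Lib.MP_3cd99b_gt.F2

/-! The pretzel family: comparison of M and C, log-concavity of 2 M + C. -/

open Finset Polynomial

namespace LG3

theorem bP_succ' (n : ℕ) : bP (n + 1) = bP n + X ^ n := by
  induction n with
  | zero => simp [bP]
  | succ n ih =>
    have h : bP (n + 1 + 1) = 1 + X * bP (n + 1) := rfl
    have h' : bP (n + 1) = 1 + X * bP n := rfl
    rw [h]
    linear_combination X * ih - h'

/-- coefficientwise order -/
def Dom (f g : ℤ[X]) : Prop := NN (g - f)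

theorem Dom.refl (f : ℤ[X]) : Dom f f := by
  unfold Dom
  rw [sub_self]
  exact NN.zero

theorem Dom.trans {f g h : ℤ[X]} (h1 : Dom f g) (h2 : Dom g h) : Dom f h := by
  have := NN.add h1 h2
  unfold Dom
  convert this using 1
  ring

theorem Dom.add {f g f' g' : ℤ[X]} (h1 : Dom f f') (h2 : Dom g g') : Dom (f + g) (f' + g') := by
  have := NN.add h1 h2
  unfold Dom
  convert this using 1
  ring

theorem Dom.mul {f g f' g' : ℤ[X]} (hf : NN f) (hg : NN g') (h1 : Dom f f') (h2 : Dom g g') :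
    Dom (f * g) (f' * g') := by
  have := NN.add (NN.mul h1 hg) (NN.mul hf h2)
  unfold Dom
  convert this using 1
  ring

theorem Dom.of_add {f g : ℤ[X]} (hg : NN g) : Dom f (f + g) := by
  unfold Dom
  rwa [add_sub_cancel_left]

theorem Dom.of_add' {f g : ℤ[X]} (hg : NN g) : Dom f (g + f) := by
  rw [add_comm]
  exact Dom.of_add hg

theorem Dom.le {f g : ℤ[X]} (h : Dom f g) (t : ℕ) : f.coeff t ≤ g.coeff t := by
  have := h t
  rw [coeff_sub] at this
  linarith

theorem NN.pow (n : ℕ) : NN (Polynomial.X ^ n) := fun k => by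
  rw [coeff_X_pow]
  split_ifs <;> norm_num

theorem one_dom (n : ℕ) : Dom 1 (bP (n + 1)) := Dom.of_add (NN.X.mul (bP_nn n))

theorem bP_dom (n : ℕ) : Dom (bP n) (bP (n + 1)) := by
  rw [bP_succ']
  exact Dom.of_add (NN.pow n)

theorem pow_dom (n : ℕ) : Dom (X ^ n) (bP (n + 1)) := by
  rw [bP_succ']
  exact Dom.of_add' (bP_nn n)

theorem bs_dom (n : ℕ) : Dom (bP n) (sP n) := by
  cases n with
  | zero => exact Dom.refl _
  | succ n => exact Dom.of_add' (sP_nn n)

theorem MP_nn (a b c : ℕ) : NN (MP a b c) := by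
  unfold MP
  refine NN.add (NN.add (NN.add ?_ ?_) ?_) ?_
  · exact (sP_nn a).mul (((bP_nn _).mul (bP_nn _)).add (NN.X.mul ((bP_nn _).mul (bP_nn _))))
  · exact (sP_nn b).mul (((bP_nn _).mul (bP_nn _)).add (NN.X.mul ((bP_nn _).mul (bP_nn _))))
  · exact (sP_nn c).mul (((bP_nn _).mul (bP_nn _)).add (NN.X.mul ((bP_nn _).mul (bP_nn _))))
  · exact NN.two.mul ((((sP_nn _).mul (sP_nn _)).add ((sP_nn _).mul (sP_nn _))).add ((sP_nn _).mul (sP_nn _)))

theorem CP_nn (a b c : ℕ) : NN (CP a b c) := by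
  have h : CP a b c = bP (b + 1) * bP (c + 1) +
      X * (bP a * (X ^ b * bP c + X ^ c * bP b + X ^ (b + c))) := by
    have h1 : bP (a + 1) = 1 + X * bP a := rfl
    rw [CP, h1, bP_succ' b, bP_succ' c]
    ring
  rw [h]
  exact ((bP_nn _).mul (bP_nn _)).add (NN.X.mul ((bP_nn _).mul
    ((((NN.pow _).mul (bP_nn _)).add ((NN.pow _).mul (bP_nn _))).add (NN.pow _))))

/-- the sum of three products is at most M -/
theorem three_dom (a b c : ℕ) : Dom (bP a * (bP (b + 1) * bP (c + 1)) + bP b * (bP (a + 1) * bP (c + 1)) +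
    bP c * (bP (a + 1) * bP (b + 1))) (MP a b c) := by
  have key : ∀ x y z : ℕ, Dom (bP x * (bP (y + 1) * bP (z + 1)))
      (sP x * (bP (y + 1) * bP (z + 1) + X * (bP y * bP z))) := fun x y z =>
    Dom.mul (bP_nn x) (((bP_nn _).mul (bP_nn _)).add (NN.X.mul ((bP_nn _).mul (bP_nn _)))) (bs_dom x)
      (Dom.of_add (NN.X.mul ((bP_nn _).mul (bP_nn _))))
  unfold MP
  refine ((((key a b c).add (key b a c)).add (key c a b))).trans ?_
  exact Dom.of_add (NN.two.mul ((((sP_nn _).mul (sP_nn _)).add ((sP_nn _).mul (sP_nn _))).add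
    ((sP_nn _).mul (sP_nn _))))

theorem CP_dom1 (a b c : ℕ) : Dom (CP a b c) (1 + X * MP a b c) := by
  have h1 : Dom (CP a b c) (1 + X * (bP a * (1 * 1) + bP b * (bP (a + 1) * 1) + bP c * (bP (a + 1) * bP (b + 1)))) := by
    have e : 1 + X * (bP a * (1 * 1) + bP b * (bP (a + 1) * 1) + bP c * (bP (a + 1) * bP (b + 1))) =
        CP a b c + X * (bP a * bP b * bP c) := by
      rw [CP]
      simp only [bP]
      ring
    rw [e]
    exact Dom.of_add (NN.X.mul (((bP_nn _).mul (bP_nn _)).mul (bP_nn _)))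
  refine h1.trans ((Dom.refl 1).add (Dom.mul NN.X (MP_nn a b c) (Dom.refl _) (Dom.trans ?_ (three_dom a b c))))
  refine Dom.add (Dom.add ?_ ?_) (Dom.refl _)
  · exact Dom.mul (bP_nn _) ((bP_nn _).mul (bP_nn _)) (Dom.refl _)
      (Dom.mul NN.one (bP_nn _) (one_dom _) (one_dom _))
  · exact Dom.mul (bP_nn _) ((bP_nn _).mul (bP_nn _)) (Dom.refl _)
      (Dom.mul (bP_nn _) (bP_nn _) (Dom.refl _) (one_dom _))

theorem CP_dom2 (a b c : ℕ) : Dom (CP a b c) (MP a b c + X ^ (a + b + c)) := by
  have h1 : Dom (CP a b c) (bP a * (X ^ b * X ^ c) + bP b * (bP (a + 1) * X ^ c) +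
      bP c * (bP (a + 1) * bP (b + 1)) + X ^ (a + b + c)) := by
    have e : bP a * (X ^ b * X ^ c) + bP b * (bP (a + 1) * X ^ c) +
        bP c * (bP (a + 1) * bP (b + 1)) + X ^ (a + b + c) = CP a b c + X * (bP a * bP b * bP c) := by
      rw [CP, bP_succ' a, bP_succ' b, bP_succ' c]
      ring
    rw [e]
    exact Dom.of_add (NN.X.mul (((bP_nn _).mul (bP_nn _)).mul (bP_nn _)))
  refine h1.trans (Dom.add (Dom.trans ?_ (three_dom a b c)) (Dom.refl _))
  refine Dom.add (Dom.add ?_ ?_) (Dom.refl _)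
  · exact Dom.mul (bP_nn _) ((bP_nn _).mul (bP_nn _)) (Dom.refl _)
      (Dom.mul (NN.pow _) (bP_nn _) (pow_dom _) (pow_dom _))
  · exact Dom.mul (bP_nn _) ((bP_nn _).mul (bP_nn _)) (Dom.refl _)
      (Dom.mul (bP_nn _) (bP_nn _) (Dom.refl _) (pow_dom _))

/-- positive coefficients up to m -/
def PU (f : ℤ[X]) (m : ℕ) : Prop := NN f ∧ ∀ t, t ≤ m → 0 < f.coeff t

theorem PU.mul {f g : ℤ[X]} {m n : ℕ} (hf : PU f m) (hg : PU g n) : PU (f * g) (m + n) := by
  refine ⟨hf.1.mul hg.1, fun t ht => ?_⟩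
  rw [coeff_mul]
  have h1 : ((min t m, t - min t m) : ℕ × ℕ) ∈ Finset.HasAntidiagonal.antidiagonal t := by
    rw [Finset.HasAntidiagonal.mem_antidiagonal]
    omega
  have h2 : 0 < f.coeff (min t m) * g.coeff (t - min t m) := mul_pos (hf.2 _ (by omega)) (hg.2 _ (by omega))
  exact h2.trans_le (Finset.single_le_sum (f := fun z : ℕ × ℕ => f.coeff z.1 * g.coeff z.2)
    (fun z _ => mul_nonneg (hf.1 _) (hg.1 _)) h1)

theorem bP_pu (n : ℕ) : PU (bP (n + 1)) n := by
  induction n with
  | zero =>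
    refine ⟨bP_nn 1, fun t ht => ?_⟩
    have : t = 0 := by omega
    subst this
    simp [bP]
  | succ n ih =>
    refine ⟨bP_nn _, fun t ht => ?_⟩
    have h : bP (n + 1 + 1) = 1 + X * bP (n + 1) := rfl
    rw [h, coeff_add]
    cases t with
    | zero => simp
    | succ t =>
      rw [coeff_X_mul]
      have h1 := ih.2 t (by omega)
      have h2 := NN.one (t + 1)
      linarith

theorem MP_pos {a b c t : ℕ} (hc : 1 ≤ c) (ht : t + 1 ≤ a + b + c) : 0 < (MP a b c).coeff t := by
  obtain ⟨c, rfl⟩ : ∃ c', c = c' + 1 := ⟨c - 1, by omega⟩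
  have h1 := ((bP_pu c).mul ((bP_pu a).mul (bP_pu b))).2 t (by omega)
  have h2 := (Dom.of_add' (f := bP (c + 1) * (bP (a + 1) * bP (b + 1)))
    (NN.add ((bP_nn a).mul ((bP_nn (b + 1)).mul (bP_nn (c + 1 + 1))))
      ((bP_nn b).mul ((bP_nn (a + 1)).mul (bP_nn (c + 1 + 1)))))).trans (three_dom a b (c + 1))
  exact h1.trans_le (h2.le t)

theorem m2_succ (a b c t : ℕ) : (MP a b c).coeff (t + 1) = (MP a b c).coeff t + d2 a b c (t + 1) := by
  have := MP_dif a b c (t + 1)
  simp only [sh] at this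
  linarith

theorem m2_zero (a b c : ℕ) : (MP a b c).coeff 0 = d2 a b c 0 := by
  have := MP_dif a b c 0
  simp only [sh, sub_zero] at this
  exact this

theorem c2_succ (a b c t : ℕ) : (CP a b c).coeff (t + 1) = (CP a b c).coeff t + g2 a b c (t + 1) := by
  have := CP_dif a b c (t + 1)
  simp only [sh] at this
  linarith

theorem c2_zero (a b c : ℕ) : (CP a b c).coeff 0 = g2 a b c 0 := by
  have := CP_dif a b c 0
  simp only [sh, sub_zero] at this
  exact this

/-- P of the pretzel family -/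
noncomputable def P2 (a b c : ℕ) : ℤ[X] := 2 * MP a b c + CP a b c

/-- Q of the pretzel family -/
noncomputable def Q2 (a b c : ℕ) : ℤ[X] := 2 * MP a b c

theorem p2_coeff (a b c t : ℕ) : (P2 a b c).coeff t = 2 * (MP a b c).coeff t + (CP a b c).coeff t := by
  rw [P2, coeff_add, coeff_two_mul]

theorem q2_coeff (a b c t : ℕ) : (Q2 a b c).coeff t = 2 * (MP a b c).coeff t := by
  rw [Q2, coeff_two_mul]

/-- differences of the coefficients of P -/
def e2 (a b c t : ℕ) : ℤ := 2 * d2 a b c t + g2 a b c t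

theorem p2_succ (a b c t : ℕ) : (P2 a b c).coeff (t + 1) = (P2 a b c).coeff t + e2 a b c (t + 1) := by
  rw [p2_coeff, p2_coeff, m2_succ, c2_succ, e2]
  ring

theorem p2_nn (a b c : ℕ) : NN (P2 a b c) := (NN.two.mul (MP_nn a b c)).add (CP_nn a b c)

theorem q2_nn (a b c : ℕ) : NN (Q2 a b c) := NN.two.mul (MP_nn a b c)

section
variable {a b c : ℕ} (hab : a ≤ b) (hbc : b ≤ c)
include hab hbc

theorem m2_vanish {t : ℕ} (h : a + b + c ≤ t) : (MP a b c).coeff t = 0 :=
  coeff_zero_of_dif (T := a + b + c) (fun t ht => by rw [MP_dif, d2_v hab hbc (by omega)]) t h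

theorem c2_vanish {t : ℕ} (h : a + b + c + 1 ≤ t) : (CP a b c).coeff t = 0 :=
  coeff_zero_of_dif (T := a + b + c + 1) (fun t ht => by
    rw [CP_dif, g2, if_pos (by omega), if_pos (by omega), if_pos (by omega), if_pos (by omega), if_pos (by omega)]
    norm_num) t h

theorem c2_top : (CP a b c).coeff (a + b + c) = 1 := by
  have h1 := c2_succ a b c (a + b + c)
  rw [c2_vanish hab hbc (t := a + b + c + 1) le_rfl, g2, if_pos (by omega), if_pos (by omega),
    if_pos (by omega), if_pos (by omega), if_neg (by omega)] at h1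
  linarith

theorem p2_vanish {t : ℕ} (h : a + b + c + 1 ≤ t) : (P2 a b c).coeff t = 0 := by
  rw [p2_coeff, m2_vanish hab hbc (by omega), c2_vanish hab hbc h]
  norm_num

theorem p2_top : (P2 a b c).coeff (a + b + c) = 1 := by
  rw [p2_coeff, m2_vanish hab hbc le_rfl, c2_top hab hbc]
  norm_num

theorem p2_pos (hc : 1 ≤ c) {t : ℕ} (h : t ≤ a + b + c) : 0 < (P2 a b c).coeff t := by
  rcases h.eq_or_lt with h | h
  · rw [h, p2_top hab hbc]
    norm_num
  · have h1 := MP_pos (a := a) (b := b) hc (t := t) (by omega)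
    have h2 := CP_nn a b c t
    rw [p2_coeff]
    linarith

theorem e2_i {t w : ℕ} (h : t + w = a + b + c + 1) (h1 : 1 ≤ w) (h2 : w ≤ a) :
    e2 a b c t = -(6 * (w : ℤ) ^ 2 + 2) := by
  rw [e2, d2_i hab hbc h h1 h2, g2, if_pos (by omega), if_pos (by omega), if_pos (by omega), if_neg (by omega),
    if_neg (by omega)]
  ring

theorem e2_ii {t w : ℕ} (h : t + w = a + b + c + 1) (h1 : a < w) (h2 : w ≤ b) :
    e2 a b c t = -(2 * (w : ℤ) * (w + 2 * a + 1) + 1) := by
  rw [e2, d2_ii hab hbc h h1 h2, g2, if_pos (by omega), if_pos (by omega), if_neg (by omega), if_neg (by omega),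
    if_neg (by omega)]
  ring

theorem e2_iii {t w : ℕ} (h : t + w = a + b + c + 1) (h1 : b < w) (h2 : w ≤ c) (h3 : w ≤ a + b + 1) :
    e2 a b c t = -(2 * (w : ℤ) * (2 * a + 2 * b + 2 - w)) := by
  rw [e2, d2_iii hab hbc h h1 h2 h3, g2, if_pos (by omega), if_neg (by omega), if_neg (by omega),
    if_neg (by omega), if_neg (by omega)]
  ring

theorem e2_iv (h1 : c ≤ a + b) : e2 a b c (a + b) = -(2 * ((c : ℤ) + 1) * (2 * a + 2 * b - c)) + 1 := by
  rw [e2, d2_iv hab hbc h1, g2, if_neg (by omega), if_neg (by omega), if_neg (by omega), if_neg (by omega),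
    if_neg (by omega)]
  ring

theorem e2_lower {t w : ℕ} (h : t + w = a + b + c + 1) (h1 : 1 ≤ w) (h2 : w ≤ c) (h3 : w ≤ a + b + 1) :
    -e2 a b c t ≤ 6 * (w : ℤ) ^ 2 + 6 * w + 2 := by
  rcases le_or_gt w a with hwa | hwa
  · rw [e2_i hab hbc h h1 hwa]
    have : (0 : ℤ) ≤ w := Int.natCast_nonneg w
    linarith
  · have h4 : (a : ℤ) + 1 ≤ w := by exact_mod_cast hwa
    rcases le_or_gt w b with hwb | hwb
    · rw [e2_ii hab hbc h hwa hwb]
      nlinarith
    · rw [e2_iii hab hbc h hwb h2 h3]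
      have h5 : (b : ℤ) + 1 ≤ w := by exact_mod_cast hwb
      nlinarith

/-- cubic bound in the tail -/
theorem p2_tail (w : ℕ) : ∀ t, t + w = a + b + c → w ≤ c → w ≤ a + b + 1 →
    (P2 a b c).coeff t ≤ 2 * ((w : ℤ) + 1) ^ 3 := by
  induction w with
  | zero =>
    intro t ht _ _
    rw [show t = a + b + c by omega, p2_top hab hbc]
    norm_num
  | succ w ih =>
    intro t ht h1 h2
    have h3 := ih (t + 1) (by omega) (by omega) (by omega)
    have h4 := p2_succ a b c t
    have h5 := e2_lower hab hbc (t := t + 1) (w := w + 1) (by omega) (by omega) h1 h2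
    push_cast at h5 ⊢
    nlinarith

/-- refined bound in the first two regions -/
theorem p2_tail' (w : ℕ) : ∀ t, t + w = a + b + c → w ≤ b →
    3 * (P2 a b c).coeff t ≤ 2 * ((w : ℤ) + 1) ^ 3 + 6 * a * (w + 1) ^ 2 + (1 - 6 * a) * (w + 1) := by
  induction w with
  | zero =>
    intro t ht _
    rw [show t = a + b + c by omega, p2_top hab hbc]
    push_cast
    nlinarith
  | succ w ih =>
    intro t ht h1
    have h3 := ih (t + 1) (by omega) (by omega)
    have h4 := p2_succ a b c t
    have h5 : -e2 a b c (t + 1) ≤ 2 * ((w : ℤ) + 1) * (w + 1 + 2 * a + 1) + 1 := by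
      rcases le_or_gt (w + 1) a with h | h
      · rw [e2_i hab hbc (w := w + 1) (by omega) (by omega) h]
        have : (w : ℤ) + 1 ≤ a := by exact_mod_cast h
        have h0 : (0 : ℤ) ≤ w := Int.natCast_nonneg w
        push_cast
        nlinarith
      · rw [e2_ii hab hbc (w := w + 1) (by omega) h (by omega)]
        push_cast
        linarith
    push_cast at h5 ⊢
    nlinarith

/-- the step of the differences in the tail -/
theorem e2_step {t w : ℕ} (h : t + w = a + b + c) (h1 : 1 ≤ w) (h2 : w ≤ c) (h3 : w ≤ a + b) :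
    e2 a b c (t + 1) - e2 a b c t ≤ (if w ≤ a then 12 * (w : ℤ) + 6 else if w ≤ b then 4 * ((w : ℤ) + a + 1)
      else 2 * (2 * a + 2 * b + 1 - 2 * w)) := by
  have hw : (1 : ℤ) ≤ w := by exact_mod_cast h1
  have hab' : (a : ℤ) ≤ b := by exact_mod_cast hab
  have hbc' : (b : ℤ) ≤ c := by exact_mod_cast hbc
  have ha' : (0 : ℤ) ≤ a := Int.natCast_nonneg a
  split_ifs with hwa hwb
  · have hwa' : (w : ℤ) ≤ a := by exact_mod_cast hwa
    rw [e2_i hab hbc (t := t + 1) (w := w) (by omega) h1 hwa]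
    rcases le_or_gt (w + 1) a with g1 | g1
    · rw [e2_i hab hbc (t := t) (w := w + 1) (by omega) (by omega) g1]
      push_cast
      nlinarith
    · have ew : (w : ℤ) = a := by
        have : w = a := by omega
        exact_mod_cast this
      rcases le_or_gt (w + 1) b with g2 | g2
      · rw [e2_ii hab hbc (t := t) (w := w + 1) (by omega) g1 g2]
        push_cast
        nlinarith
      · have eb : (b : ℤ) = a := by
          have : b = a := by omega
          exact_mod_cast this
        rcases le_or_gt (w + 1) c with g3 | g3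
        · rw [e2_iii hab hbc (t := t) (w := w + 1) (by omega) g2 g3 (by omega)]
          push_cast
          nlinarith
        · have ec : (c : ℤ) = a := by
            have : c = a := by omega
            exact_mod_cast this
          rw [show t = a + b by omega, e2_iv hab hbc (by omega)]
          nlinarith
  · have hwa' : (a : ℤ) + 1 ≤ w := by
      have : a + 1 ≤ w := by omega
      exact_mod_cast this
    have hwb' : (w : ℤ) ≤ b := by exact_mod_cast hwb
    rw [e2_ii hab hbc (t := t + 1) (w := w) (by omega) (by omega) hwb]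
    rcases le_or_gt (w + 1) b with g2 | g2
    · rw [e2_ii hab hbc (t := t) (w := w + 1) (by omega) (by omega) g2]
      push_cast
      nlinarith
    · have eb : (w : ℤ) = b := by
        have : w = b := by omega
        exact_mod_cast this
      rcases le_or_gt (w + 1) c with g3 | g3
      · rw [e2_iii hab hbc (t := t) (w := w + 1) (by omega) g2 g3 (by omega)]
        push_cast
        nlinarith
      · have ec : (c : ℤ) = b := by
          have : c = b := by omega
          exact_mod_cast this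
        rw [show t = a + b by omega, e2_iv hab hbc (by omega)]
        nlinarith
  · have hwb' : (b : ℤ) + 1 ≤ w := by
      have : b + 1 ≤ w := by omega
      exact_mod_cast this
    rw [e2_iii hab hbc (t := t + 1) (w := w) (by omega) (by omega) h2 (by omega)]
    rcases le_or_gt (w + 1) c with g3 | g3
    · rw [e2_iii hab hbc (t := t) (w := w + 1) (by omega) (by omega) g3 (by omega)]
      push_cast
      nlinarith
    · have ec : (w : ℤ) = c := by
        have : w = c := by omega
        exact_mod_cast this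
      rw [show t = a + b by omega, e2_iv hab hbc (by omega)]
      have h3' : (w : ℤ) ≤ a + b := by exact_mod_cast h3
      nlinarith

/-- the key inequality in the tail -/
theorem p2_key {t w : ℕ} (h : t + w = a + b + c) (h1 : 1 ≤ w) (h2 : w ≤ c) (h3 : w ≤ a + b) :
    (P2 a b c).coeff (t + 1) * (e2 a b c (t + 1) - e2 a b c t) ≤ e2 a b c (t + 1) ^ 2 := by
  have hw : (1 : ℤ) ≤ w := by exact_mod_cast h1
  have hab' : (a : ℤ) ≤ b := by exact_mod_cast hab
  have ha' : (0 : ℤ) ≤ a := Int.natCast_nonneg a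
  obtain ⟨v, rfl⟩ : ∃ v, w = v + 1 := ⟨w - 1, by omega⟩
  have hp := p2_nn a b c (t + 1)
  have hst := e2_step hab hbc h h1 h2 h3
  have hb := p2_tail hab hbc v (t + 1) (by omega) (by omega) (by omega)
  have hv : (0 : ℤ) ≤ v := Int.natCast_nonneg v
  refine (mul_le_mul_of_nonneg_left hst hp).trans ?_
  split_ifs with hwa hwb
  · rw [e2_i hab hbc (t := t + 1) (w := v + 1) (by omega) h1 hwa]
    push_cast
    have h5 : (0 : ℤ) ≤ 12 * ((v : ℤ) + 1) + 6 := by linarith
    refine (mul_le_mul_of_nonneg_right hb h5).trans ?_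
    have h6 : (1 : ℤ) ≤ v + 1 := by linarith
    nlinarith [pow_nonneg hv 3, pow_nonneg hv 2, pow_nonneg hv 4]
  · rw [e2_ii hab hbc (t := t + 1) (w := v + 1) (by omega) (by omega) hwb]
    have hb' := p2_tail' hab hbc v (t + 1) (by omega) (by omega)
    push_cast
    have h5 : (0 : ℤ) ≤ 4 * ((v : ℤ) + 1 + a + 1) := by linarith
    have h7 := mul_le_mul_of_nonneg_right hb' h5
    have e1 : 3 * (2 * ((v : ℤ) + 1) * (v + 1 + 2 * a + 1) + 1) ^ 2 -
        (2 * ((v : ℤ) + 1) ^ 3 + 6 * a * (v + 1) ^ 2 + (1 - 6 * a) * (v + 1)) * (4 * ((v : ℤ) + 1 + a + 1)) ≥ 0 := by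
      have := mul_nonneg hv ha'
      have := mul_nonneg (pow_nonneg hv 2) ha'
      have := mul_nonneg (pow_nonneg hv 3) ha'
      have := mul_nonneg (pow_nonneg hv 2) (pow_nonneg ha' 2)
      have := mul_nonneg hv (pow_nonneg ha' 2)
      have := pow_nonneg hv 2
      have := pow_nonneg hv 3
      have := pow_nonneg hv 4
      have := pow_nonneg ha' 2
      nlinarith
    linarith
  · rw [e2_iii hab hbc (t := t + 1) (w := v + 1) (by omega) (by omega) h2 (by omega)]
    push_cast
    obtain ⟨z, hz⟩ := Nat.exists_eq_add_of_le h3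
    have hz' : (a : ℤ) + b = v + 1 + z := by exact_mod_cast hz
    have hz0 : (0 : ℤ) ≤ z := Int.natCast_nonneg z
    have h5 : (0 : ℤ) ≤ 2 * (2 * a + 2 * b + 1 - 2 * ((v : ℤ) + 1)) := by linarith
    refine (mul_le_mul_of_nonneg_right hb h5).trans ?_
    have e1 : 2 * (2 * a + 2 * b + 1 - 2 * ((v : ℤ) + 1)) = 2 * (2 * z + 1) := by linarith
    have e2' : 2 * (a : ℤ) + 2 * b + 2 - (v + 1) = v + 2 * z + 3 := by linarith
    rw [e1, e2']
    have h6 : ((v : ℤ) + 1) * (2 * z + 1) ≤ (v + 2 * z + 3) ^ 2 := by nlinarith [mul_nonneg hv hz0]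
    have h7 : (0 : ℤ) ≤ ((v : ℤ) + 1) ^ 2 := by positivity
    nlinarith [mul_le_mul_of_nonneg_left h6 h7]

theorem p2_lcv (hc : 1 ≤ c) : LCv (P2 a b c).coeff (a + b + c) where
  pos t ht := p2_pos hab hbc hc ht
  zero t ht := p2_vanish hab hbc (by omega)
  lc t := by
    have s1 := p2_succ a b c t
    have s2 := p2_succ a b c (t + 1)
    have d1 : (P2 a b c).coeff (t + 1) - (P2 a b c).coeff t = e2 a b c (t + 1) := by linarith
    have d2' : (P2 a b c).coeff (t + 2) - (P2 a b c).coeff (t + 1) = e2 a b c (t + 2) := by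
      have : t + 1 + 1 = t + 2 := rfl
      rw [this] at s2
      linarith
    by_cases hT : t + 2 ≤ a + b ∨ t + 2 ≤ c
    · refine lc_i (p2_nn a b c t) (p2_nn a b c _) ?_
      rw [d1, d2', e2, e2]
      have h1 := d2_conc hab hbc (t := t + 1) hT
      have h2 := g2_anti hab hbc (t := t + 1) (by omega)
      have e5 : t + 1 + 1 = t + 2 := rfl
      rw [e5] at h1 h2
      linarith
    · push Not at hT
      rcases le_or_gt (t + 2) (a + b + c) with h | h
      · refine lc_iii ?_
        rw [d1, d2']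
        exact p2_key hab hbc (t := t + 1) (w := a + b + c - (t + 1)) (by omega) (by omega) (by omega) (by omega)
      · rw [p2_vanish hab hbc (t := t + 2) (by omega), mul_zero]
        exact sq_nonneg _

end

end LG3
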