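import Pool.Agent.Lib.MP_3cd99b_gt.F2b

/-! The pretzel family: the conditions on the rows. -/

open Finset Polynomial

namespace LG3

/-- a sequence that increases up to s0, is concave up to T and decreases from T on has a mode -/
theorem exists_mode {f : ℕ → ℤ} (s0 T : ℕ) (h0 : ∀ t, t < s0 → f t ≤ f (t + 1))
    (h1 : ∀ t, s0 ≤ t → t + 2 ≤ T → f (t + 2) - f (t + 1) ≤ f (t + 1) - f t)
    (h2 : ∀ t, T ≤ t → f (t + 1) ≤ f t) :
    ∃ m, (∀ t, t < m → f t ≤ f (t + 1)) ∧ (∀ t, m ≤ t → f (t + 1) ≤ f t) := by
  have hex : ∃ m, s0 ≤ m ∧ f (m + 1) ≤ f m := ⟨max s0 T, le_max_left _ _, h2 _ (le_max_right _ _)⟩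
  classical
  refine ⟨Nat.find hex, ?_, ?_⟩
  · intro t ht
    have := Nat.find_min hex ht
    rcases lt_or_ge t s0 with h | h
    · exact h0 t h
    · by_contra hn
      exact this ⟨h, by linarith⟩
  · obtain ⟨g1, g2⟩ := Nat.find_spec hex
    intro t ht
    induction t, ht using Nat.le_induction with
    | base => exact g2
    | succ t ht ih =>
      rcases le_or_gt T (t + 1) with h | h
      · exact h2 _ h
      · have := h1 t (by omega) (by omega)
        have e : t + 1 + 1 = t + 2 := rfl
        rw [e]
        linarith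

theorem q2_succ (a b c t : ℕ) : (Q2 a b c).coeff (t + 1) = (Q2 a b c).coeff t + 2 * d2 a b c (t + 1) := by
  rw [q2_coeff, q2_coeff, m2_succ]
  ring

section
variable {a b c : ℕ} (hab : a ≤ b) (hbc : b ≤ c)
include hab hbc

/-- the condition on the index T = max (a + b) c -/
theorem e2_conc {t : ℕ} (k : ℤ) (hk : 0 ≤ k) (hT : t + 1 ≤ a + b ∨ t + 1 ≤ c) :
    k * d2 a b c (t + 1) + g2 a b c (t + 1) ≤ k * d2 a b c t + g2 a b c t := by
  have h1 := d2_conc hab hbc hT
  have h2 := g2_anti hab hbc (t := t) (by omega)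
  have h3 := mul_le_mul_of_nonneg_left h1 hk
  linarith

theorem e2_nonpos {t : ℕ} (k : ℤ) (hk : 1 ≤ k) (h1 : a + b ≤ t) (h2 : c ≤ t) (hc : 1 ≤ c) :
    k * d2 a b c t + g2 a b c t ≤ 0 := by
  rcases le_or_gt t (a + b + c) with h | h
  · have h3 := d2_neg hab hbc h1 h2 h hc
    have h4 := g2_le (a := a) (b := b) (c := c) t
    nlinarith
  · rw [d2_v hab hbc (by omega)]
    have := g2_nonpos hab hbc (t := t) (by omega)
    linarith

theorem rows2_mode (hc : 1 ≤ c) (k : ℤ) (hk : 1 ≤ k) {f : ℕ → ℤ}
    (hf : ∀ t, f (t + 1) = f t + (k * d2 a b c (t + 1) + g2 a b c (t + 1))) :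
    ∃ m, (∀ t, t < m → f t ≤ f (t + 1)) ∧ (∀ t, m ≤ t → f (t + 1) ≤ f t) := by
  refine exists_mode 0 (max (a + b) c) (fun t ht => absurd ht (by omega)) ?_ ?_
  · intro t _ ht
    have e : t + 2 = t + 1 + 1 := rfl
    rw [e, hf (t + 1), hf t]
    have := e2_conc hab hbc (t := t + 1) k (by omega) (by omega)
    linarith
  · intro t ht
    rw [hf t]
    have := e2_nonpos hab hbc (t := t + 1) k hk (by omega) (by omega) hc
    linarith

theorem rows2_u2 (hc : 1 ≤ c) : Uni (P2 a b c).coeff := by
  obtain ⟨m, h1, h2⟩ := rows2_mode hab hbc hc 2 (by norm_num) (f := (P2 a b c).coeff) (fun t => by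
    rw [p2_succ, e2])
  exact uni_of_mode m h1 h2

theorem rows2_u1 (hc : 1 ≤ c) : Uni (row1 (P2 a b c).coeff (Q2 a b c).coeff) := by
  obtain ⟨m, h1, h2⟩ := rows2_mode hab hbc hc 4 (by norm_num)
    (f := fun t => (P2 a b c).coeff t + (Q2 a b c).coeff t) (fun t => by
      rw [p2_succ, q2_succ, e2]
      ring)
  refine uni_row1 m ?_ h1 h2
  have h3 := p2_nn a b c 0
  have h4 := q2_nn a b c 0
  linarith

theorem q2_dif (t : ℕ) : (Q2 a b c).coeff t - sh (Q2 a b c).coeff t = 2 * d2 a b c t := by
  cases t with
  | zero => rw [q2_coeff, m2_zero]; simp [sh]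
  | succ t => simp only [sh]; rw [q2_succ]; ring

theorem p2_dif (t : ℕ) : (P2 a b c).coeff t - sh (P2 a b c).coeff t = e2 a b c t := by
  cases t with
  | zero => rw [p2_coeff, m2_zero, c2_zero, e2]; simp [sh]
  | succ t => simp only [sh]; rw [p2_succ]; ring

theorem row0_step (t : ℕ) : row0 0 (P2 a b c).coeff (Q2 a b c).coeff (t + 1) -
    row0 0 (P2 a b c).coeff (Q2 a b c).coeff t = 2 * d2 a b c (t + 1) + 8 * d2 a b c t +
      2 * sh (d2 a b c) t + 2 * g2 a b c t + (del 0 (t + 1) - del 0 t) := by
  have h1 : (Q2 a b c).coeff (t + 1) - (Q2 a b c).coeff t = 2 * d2 a b c (t + 1) := by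
    rw [q2_succ]; ring
  have h2 : sh (Q2 a b c).coeff t - sh (sh (Q2 a b c).coeff) t = 2 * sh (d2 a b c) t := by
    cases t with
    | zero => simp [sh]
    | succ t => exact q2_dif hab hbc t
  rw [row0_dif, h1, h2, q2_dif hab hbc, p2_dif hab hbc, e2]
  ring

theorem rows2_u0 (hc : 1 ≤ c) : Uni (row0 0 (P2 a b c).coeff (Q2 a b c).coeff) := by
  have hc' : (1 : ℤ) ≤ c := by exact_mod_cast hc
  have ha' : (0 : ℤ) ≤ a := Int.natCast_nonneg a
  have hb' : (0 : ℤ) ≤ b := Int.natCast_nonneg b
  have hs := row0_step hab hbc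
  obtain ⟨m, h1, h2⟩ := exists_mode (f := row0 0 (P2 a b c).coeff (Q2 a b c).coeff) 1 (max (a + b) c)
    (by
      intro t ht
      obtain rfl : t = 0 := by omega
      have h3 := hs 0
      have h4 : del 0 (0 + 1) = 0 := if_neg (by omega)
      have h5 : del 0 0 = 1 := if_pos rfl
      have h6 : g2 a b c 0 = 1 := by
        rw [g2, if_neg (by omega), if_neg (by omega), if_neg (by omega), if_neg (by omega), if_neg (by omega)]
        norm_num
      rw [h4, h5, h6] at h3
      simp only [sh] at h3
      have e01 : (0 : ℕ) + 1 = 1 := rfl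
      rw [e01] at h3 ⊢
      have h7 : d2 a b c 0 ≤ d2 a b c 1 + (2 * (a + b + c) + 3) := by
        have h0 := d2_succ hab hbc (t := 0) (by omega)
        rw [e01] at h0
        split_ifs at h0 <;> push_cast at h0 <;> omega
      have h8 := d2_zero (a := a) (b := b) (c := c)
      have h9 : (0 : ℤ) ≤ a * b + a * c + b * c := by positivity
      linarith)
    (by
      intro t ht1 ht2
      have h3 := hs t
      have h4 := hs (t + 1)
      obtain ⟨u, rfl⟩ : ∃ u, t = u + 1 := ⟨t - 1, by omega⟩
      have g0 : del 0 (u + 1) = 0 := if_neg (by omega)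
      have g1 : del 0 (u + 1 + 1) = 0 := if_neg (by omega)
      have g3 : del 0 (u + 1 + 1 + 1) = 0 := if_neg (by omega)
      rw [g0, g1] at h3
      rw [g1, g3] at h4
      simp only [sh] at h3 h4
      have c1 := d2_conc hab hbc (t := u) (by omega)
      have c2 := d2_conc hab hbc (t := u + 1) (by omega)
      have c3 := d2_conc hab hbc (t := u + 1 + 1) (by omega)
      have c4 := g2_anti hab hbc (t := u + 1) (by omega)
      have e : u + 1 + 2 = u + 1 + 1 + 1 := rfl
      rw [e]
      linarith)
    (by
      intro t ht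
      have h3 := hs t
      have hd : del 0 (t + 1) - del 0 t ≤ 0 := by
        have h4 : del 0 (t + 1) = 0 := if_neg (by omega)
        have h5 := del_nonneg 0 t
        linarith
      rcases (show max (a + b) c ≤ t from ht).eq_or_lt with h | h
      · -- t = T
        obtain ⟨u, rfl⟩ : ∃ u, t = u + 1 := ⟨t - 1, by omega⟩
        simp only [sh] at h3
        have n1 := d2_nonpos hab hbc (t := u + 1 + 1) (by omega) (by omega) hc
        rcases le_or_gt c (a + b) with hca | hca
        · have hu : u + 1 = a + b := by omega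
          have l1 := d2_low hab hbc (t := u) (by omega)
          have l2 := d2_iv hab hbc hca
          have l3 := g2_le (a := a) (b := b) (c := c) (u + 1)
          rw [hu] at l1 l3 h3 hd ⊢
          have hca' : (c : ℤ) ≤ a + b := by exact_mod_cast hca
          have l4 : (4 : ℤ) * (a + b + c) + 8 ≤ 10 * ((c + 1) * (2 * a + 2 * b - c)) := by nlinarith
          rw [hu] at n1
          linarith
        · have hu : u + 1 = c := by omega
          have l1 := d2_low' hab hbc (t := u) hu hca
          have l3 := g2_nonpos hab hbc (t := u + 1) (by omega)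
          rw [hu] at l3 h3 hd n1 ⊢
          split_ifs at l1 with hcc
          · have l2 := d2_iii hab hbc (t := c) (w := a + b + 1) (by omega) (by omega) (by omega) le_rfl
            have hcc' : (c : ℤ) = a + b + 1 := by exact_mod_cast hcc
            push_cast at l2
            have l5 : 2 * ((c : ℤ) + 1) ≤ 10 * (((a : ℤ) + b + 1) * (2 * a + 2 * b + 2 - (a + b + 1))) := by
              nlinarith
            linarith
          · have l2 := d2_nonpos hab hbc (t := c) (by omega) le_rfl hc
            linarith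
      · obtain ⟨u, rfl⟩ : ∃ u, t = u + 1 := ⟨t - 1, by omega⟩
        simp only [sh] at h3
        have n1 := d2_nonpos hab hbc (t := u + 1 + 1) (by omega) (by omega) hc
        have n2 := d2_nonpos hab hbc (t := u + 1) (by omega) (by omega) hc
        have n3 := d2_nonpos hab hbc (t := u) (by omega) (by omega) hc
        have n4 := g2_nonpos hab hbc (t := u + 1) (by omega)
        linarith)
  exact uni_of_mode m h1 h2

/-- C is small compared to M -/
theorem c2_small (hc : 1 ≤ c) {k : ℕ} (hk : k + 1 ≤ a + b + c) :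
    (CP a b c).coeff (k + 1) + (CP a b c).coeff k ≤ 2 * ((MP a b c).coeff (k + 1) + (MP a b c).coeff k) := by
  have h1 := (CP_dom1 a b c).le (k + 1)
  have h2 := (CP_dom2 a b c).le k
  have h3 := (CP_dom2 a b c).le (k + 1)
  rw [coeff_add, coeff_X_mul] at h1
  rw [coeff_add, coeff_X_pow] at h2 h3
  have h4 : (1 : ℤ[X]).coeff (k + 1) = 0 := by
    rw [coeff_one, if_neg (by omega)]
  rw [h4] at h1
  rw [if_neg (by omega)] at h2
  have h5 := MP_nn a b c (k + 1)
  have h6 := MP_nn a b c k
  linarith

theorem rows2_M (hc : 1 ≤ c) (i j k : ℕ) (hij : i + j = 2 * k) :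
    (P2 a b c).coeff j ≤ row1 (P2 a b c).coeff (Q2 a b c).coeff k ∨
      row0 0 (P2 a b c).coeff (Q2 a b c).coeff i ≤ row1 (P2 a b c).coeff (Q2 a b c).coeff k := by
  have hp := p2_nn a b c
  have hq := q2_nn a b c
  cases k with
  | zero =>
    left
    have : j = 0 := by omega
    subst this
    have := hq 0
    simp only [row1, sh]
    linarith
  | succ k =>
    have eL : row1 (P2 a b c).coeff (Q2 a b c).coeff (k + 1) =
        ((P2 a b c).coeff (k + 1) + (P2 a b c).coeff k) + ((Q2 a b c).coeff (k + 1) + (Q2 a b c).coeff k) := by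
      simp only [row1, sh]
      ring
    have hL : 0 ≤ row1 (P2 a b c).coeff (Q2 a b c).coeff (k + 1) := by
      rw [eL]
      have := hp (k + 1)
      have := hp k
      have := hq (k + 1)
      have := hq k
      linarith
    rcases le_or_gt (a + b + c) k with hk | hk
    · rcases le_or_gt (a + b + c + 1) j with hj | hj
      · left
        rw [p2_vanish hab hbc hj]
        exact hL
      · right
        obtain ⟨i, rfl⟩ : ∃ i', i = i' + 2 := ⟨i - 2, by omega⟩
        have h7 : del 0 (i + 2) = 0 := if_neg (by omega)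
        have m0 := m2_vanish hab hbc (t := i) (by omega)
        have m1 := m2_vanish hab hbc (t := i + 1) (by omega)
        have m2 := m2_vanish hab hbc (t := i + 2) (by omega)
        have m3 := p2_vanish hab hbc (t := i + 1) (by omega)
        have : row0 0 (P2 a b c).coeff (Q2 a b c).coeff (i + 2) = 0 := by
          simp only [row0, sh, h7, q2_coeff, m0, m1, m2, m3]
          norm_num
        rw [this]
        exact hL
    · have hX : (Q2 a b c).coeff i + 2 * sh (Q2 a b c).coeff i + sh (sh (Q2 a b c).coeff) i +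
          2 * sh (P2 a b c).coeff i ≤ 1 * (P2 a b c).coeff i + 4 * sh (P2 a b c).coeff i +
            1 * sh (sh (P2 a b c).coeff) i := by
        have hle : ∀ t, (Q2 a b c).coeff t ≤ (P2 a b c).coeff t := fun t => by
          rw [q2_coeff, p2_coeff]
          linarith [CP_nn a b c t]
        have h0 := hle i
        match i with
        | 0 =>
          simp only [sh]
          linarith
        | 1 =>
          have h2 := hle 0
          simp only [sh]
          linarith
        | i + 2 =>
          have h2 := hle (i + 1)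
          have h3 := hle i
          simp only [sh]
          linarith
      have hpk : 0 < (P2 a b c).coeff k := p2_pos hab hbc hc (by omega)
      have hpk1 := hp (k + 1)
      have hsm := c2_small hab hbc hc (k := k) (by omega)
      have hlt : 1 * (P2 a b c).coeff (k + 1) ^ 2 + 4 * ((P2 a b c).coeff (k + 1) * (P2 a b c).coeff k) +
          1 * (P2 a b c).coeff k ^ 2 < row1 (P2 a b c).coeff (Q2 a b c).coeff (k + 1) ^ 2 := by
        have h5 : (P2 a b c).coeff (k + 1) + (P2 a b c).coeff k ≤
            2 * ((Q2 a b c).coeff (k + 1) + (Q2 a b c).coeff k) := by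
          rw [p2_coeff, p2_coeff, q2_coeff, q2_coeff]
          linarith
        rw [eL]
        set A := (P2 a b c).coeff (k + 1)
        set B := (P2 a b c).coeff k
        set D := (Q2 a b c).coeff (k + 1) + (Q2 a b c).coeff k with hD
        have h6 : 3 * (A + B) ≤ 2 * (A + B + D) := by linarith
        have h7 : (3 * (A + B)) ^ 2 ≤ (2 * (A + B + D)) ^ 2 := by
          have : 0 ≤ 3 * (A + B) := by linarith
          nlinarith
        nlinarith [mul_nonneg hpk1 hpk.le, mul_pos hpk hpk, sq_nonneg (A - B)]
      rcases (p2_lcv hab hbc hc).mid hij (by norm_num) (by norm_num) (by norm_num) hL hX hlt with h | h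
      · exact Or.inl h
      · right
        have h7 : del 0 i ≤ 1 := by
          unfold del
          split_ifs <;> norm_num
        have : row0 0 (P2 a b c).coeff (Q2 a b c).coeff i = (Q2 a b c).coeff i + 2 * sh (Q2 a b c).coeff i +
            sh (sh (Q2 a b c).coeff) i + 2 * sh (P2 a b c).coeff i + del 0 i := rfl
        rw [this]
        linarith

/-- the conditions for the pretzel family -/
theorem rows2 (hc : 1 ≤ c) : Rows (row0 0 (P2 a b c).coeff (Q2 a b c).coeff)
    (row1 (P2 a b c).coeff (Q2 a b c).coeff) (P2 a b c).coeff :=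
  rows_of (p2_nn a b c) (q2_nn a b c) (rows2_u0 hab hbc hc) (rows2_u1 hab hbc hc) (rows2_u2 hab hbc hc)
    (rows2_M hab hbc hc)

end

/-- the conditions for the trefoil -/
theorem rows2_zero : Rows (row0 0 (P2 0 0 0).coeff (Q2 0 0 0).coeff)
    (row1 (P2 0 0 0).coeff (Q2 0 0 0).coeff) (P2 0 0 0).coeff := by
  have hP : P2 0 0 0 = 1 := by simp [P2, MP, CP, sP, bP]
  have hQ : Q2 0 0 0 = 0 := by simp [Q2, MP, sP]
  have p : ∀ t, (P2 0 0 0).coeff t = if t = 0 then 1 else 0 := by
    intro t
    rw [hP, coeff_one]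
  have q : ∀ t, (Q2 0 0 0).coeff t = 0 := by
    intro t
    rw [hQ, coeff_zero]
  have r1 : ∀ t, row1 (P2 0 0 0).coeff (Q2 0 0 0).coeff t = if t ≤ 1 then 1 else 0 := by
    intro t
    match t with
    | 0 => simp [row1, sh, p, q]
    | 1 => simp [row1, sh, p, q]
    | t + 2 => simp [row1, sh, p, q]
  have r0 : ∀ t, row0 0 (P2 0 0 0).coeff (Q2 0 0 0).coeff t = if t = 0 then 1 else if t = 1 then 2 else 0 := by
    intro t
    match t with
    | 0 => simp [row0, sh, p, q, del]
    | 1 => simp [row0, sh, p, q, del]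
    | t + 2 => simp [row0, sh, p, q, del]
  refine rows_of (p2_nn 0 0 0) (q2_nn 0 0 0) ?_ ?_ ?_ ?_
  · refine uni_of_mode 1 ?_ ?_
    · intro t ht
      rw [r0, r0]
      split_ifs <;> first | contradiction | omega | simp
    · intro t ht
      rw [r0, r0]
      split_ifs <;> first | contradiction | omega | simp
  · refine uni_of_mode 0 (fun t ht => absurd ht (by omega)) ?_
    intro t _
    rw [r1, r1]
    split_ifs <;> first | contradiction | omega | simp
  · refine uni_of_mode 0 (fun t ht => absurd ht (by omega)) ?_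
    intro t _
    rw [p, p]
    split_ifs <;> first | contradiction | omega | simp
  · intro i j k hij
    rw [p, r1, r0]
    split_ifs <;> first | contradiction | omega | simp

end LG3
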