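import Mathlib

/-!
R4: covering arithmetic for the octagons of the special pieces (MP_3cd99b).
-/

set_option linter.unusedSimpArgs false
set_option linter.unnecessarySeqFocus false

namespace LG3P.R4

/-- The lattice points of the octagon of a positive special piece. -/
def Oct (r n d : ℤ) (p : ℤ × ℤ) : Prop :=
  0 ≤ p.1 ∧ 0 ≤ p.2 ∧ p.1 ≤ r ∧ p.2 ≤ r ∧ p.1 + p.2 ≤ n ∧ p.1 - p.2 ≤ d ∧ p.2 - p.1 ≤ d

/-- Admissible parameters (every inequality of the octagon is sharp). -/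
def Adm (r n d : ℤ) : Prop := 0 ≤ d ∧ d ≤ r ∧ n ≤ 2 * r ∧ 2 * r ≤ n + d

theorem Oct.swap {r n d : ℤ} {p : ℤ × ℤ} (h : Oct r n d p) : Oct r n d p.swap := by
  unfold Oct at *
  simp only [Prod.fst_swap, Prod.snd_swap]
  omega

theorem oct_aux (r1 n1 d1 r2 n2 d2 A B δ1 δ2 K1 K2 L1 L2 : ℤ) (hδ : δ1 + δ2 = A - B)
    (hd1 : δ1 ≤ d1) (hd1' : -δ1 ≤ d1) (hd2 : δ2 ≤ d2) (hd2' : -δ2 ≤ d2)
    (hL1 : 0 ≤ L1) (hL1' : -δ1 ≤ L1) (hL2 : 0 ≤ L2) (hL2' : -δ2 ≤ L2)
    (hK1 : L1 ≤ K1) (hK2 : L2 ≤ K2) (h1 : K1 + δ1 ≤ r1) (h1' : K1 ≤ r1) (h2 : K2 + δ2 ≤ r2) (h2' : K2 ≤ r2)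
    (hn1 : 2 * K1 + δ1 ≤ n1) (hn2 : 2 * K2 + δ2 ≤ n2) (hB : L1 + L2 ≤ B) (hB' : B ≤ K1 + K2) :
    ∃ p1 p2 : ℤ × ℤ, Oct r1 n1 d1 p1 ∧ Oct r2 n2 d2 p2 ∧ p1 + p2 = (A, B) := by
  rcases le_total (B - L2) K1 with h | h
  · refine ⟨(B - L2 + δ1, B - L2), (L2 + δ2, L2), ?_, ?_, ?_⟩
    · unfold Oct; dsimp only; omega
    · unfold Oct; dsimp only; omega
    · ext <;> simp <;> omega
  · refine ⟨(K1 + δ1, K1), (B - K1 + δ2, B - K1), ?_, ?_, ?_⟩
    · unfold Oct; dsimp only; omega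
    · unfold Oct; dsimp only; omega
    · ext <;> simp <;> omega

theorem oct_add_le {r1 n1 d1 r2 n2 d2 : ℤ} (h1 : Adm r1 n1 d1) (h2 : Adm r2 n2 d2) {A B : ℤ} (hAB : B ≤ A)
    (h : Oct (r1 + r2) (n1 + n2) (d1 + d2) (A, B)) :
    ∃ p1 p2 : ℤ × ℤ, Oct r1 n1 d1 p1 ∧ Oct r2 n2 d2 p2 ∧ p1 + p2 = (A, B) := by
  obtain ⟨a1, a2, a3, a4⟩ := h1
  obtain ⟨b1, b2, b3, b4⟩ := h2
  obtain ⟨c1, c2, c3, c4, c5, c6, c7⟩ := h
  dsimp only at c1 c2 c3 c4 c5 c6 c7
  rcases le_or_gt ((2 * r1 - n1) + (2 * r2 - n2)) (A - B) with hc | hc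
  · -- both differences beyond the corner
    rcases le_total (2 * r1 - n1) (A - B - d2) with h | h
    · refine oct_aux r1 n1 d1 r2 n2 d2 A B (A - B - d2) d2 (r1 - (A - B - d2)) (r2 - d2) 0 0 ?_ ?_ ?_ ?_ ?_ ?_ ?_ ?_ ?_
        ?_ ?_ ?_ ?_ ?_ ?_ ?_ ?_ ?_ ?_ <;> omega
    · refine oct_aux r1 n1 d1 r2 n2 d2 A B (2 * r1 - n1) (A - B - (2 * r1 - n1)) (r1 - (2 * r1 - n1))
        (r2 - (A - B - (2 * r1 - n1))) 0 0 ?_ ?_ ?_ ?_ ?_ ?_ ?_ ?_ ?_ ?_ ?_ ?_ ?_ ?_ ?_ ?_ ?_ ?_ ?_ <;> omega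
  · by_cases hz : A = B ∧ n1 % 2 = 1 ∧ n2 % 2 = 1
    · obtain ⟨hz1, hz2, hz3⟩ := hz
      rcases eq_or_lt_of_le c2 with hB | hB
      · exact ⟨(0, 0), (0, 0), by unfold Oct; dsimp only; omega, by unfold Oct; dsimp only; omega, by
          ext <;> simp <;> omega⟩
      · refine oct_aux r1 n1 d1 r2 n2 d2 A B 1 (-1) ((n1 - 1) / 2) ((n2 + 1) / 2) 0 1 ?_ ?_ ?_ ?_ ?_ ?_ ?_ ?_ ?_
          ?_ ?_ ?_ ?_ ?_ ?_ ?_ ?_ ?_ ?_ <;> omega
    · by_cases hp : (A - B - n1 - n2) % 2 = 0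
      · rcases Int.emod_two_eq_zero_or_one n1 with hn | hn
        · rcases le_total (A - B - (2 * r2 - n2)) 0 with h | h
          · refine oct_aux r1 n1 d1 r2 n2 d2 A B 0 (A - B) (n1 / 2) ((n2 - (A - B)) / 2) 0 0 ?_ ?_ ?_ ?_ ?_ ?_ ?_ ?_
              ?_ ?_ ?_ ?_ ?_ ?_ ?_ ?_ ?_ ?_ ?_ <;> omega
          · refine oct_aux r1 n1 d1 r2 n2 d2 A B (A - B - (2 * r2 - n2)) (2 * r2 - n2)
              ((n1 - (A - B - (2 * r2 - n2))) / 2) ((n2 - (2 * r2 - n2)) / 2) 0 0 ?_ ?_ ?_ ?_ ?_ ?_ ?_ ?_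
              ?_ ?_ ?_ ?_ ?_ ?_ ?_ ?_ ?_ ?_ ?_ <;> omega
        · rcases le_total (A - B - (2 * r2 - n2)) 1 with h | h
          · refine oct_aux r1 n1 d1 r2 n2 d2 A B 1 (A - B - 1) ((n1 - 1) / 2) ((n2 - (A - B - 1)) / 2) 0 0 ?_ ?_ ?_ ?_
              ?_ ?_ ?_ ?_ ?_ ?_ ?_ ?_ ?_ ?_ ?_ ?_ ?_ ?_ ?_ <;> omega
          · refine oct_aux r1 n1 d1 r2 n2 d2 A B (A - B - (2 * r2 - n2)) (2 * r2 - n2)
              ((n1 - (A - B - (2 * r2 - n2))) / 2) ((n2 - (2 * r2 - n2)) / 2) 0 0 ?_ ?_ ?_ ?_ ?_ ?_ ?_ ?_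
              ?_ ?_ ?_ ?_ ?_ ?_ ?_ ?_ ?_ ?_ ?_ <;> omega
      · rcases le_total (A - B - (2 * r2 - n2)) 0 with h | h
        · refine oct_aux r1 n1 d1 r2 n2 d2 A B 0 (A - B) (n1 / 2) ((n2 - (A - B)) / 2) 0 0 ?_ ?_ ?_ ?_ ?_ ?_ ?_ ?_
              ?_ ?_ ?_ ?_ ?_ ?_ ?_ ?_ ?_ ?_ ?_ <;> omega
        · refine oct_aux r1 n1 d1 r2 n2 d2 A B (A - B - (2 * r2 - n2)) (2 * r2 - n2)
              ((n1 - (A - B - (2 * r2 - n2))) / 2) ((n2 - (2 * r2 - n2)) / 2) 0 0 ?_ ?_ ?_ ?_ ?_ ?_ ?_ ?_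
              ?_ ?_ ?_ ?_ ?_ ?_ ?_ ?_ ?_ ?_ ?_ <;> omega

/-- The lattice points of the octagons of two pieces add up to all lattice points of the sum octagon. -/
theorem oct_add {r1 n1 d1 r2 n2 d2 : ℤ} (h1 : Adm r1 n1 d1) (h2 : Adm r2 n2 d2) {p : ℤ × ℤ}
    (h : Oct (r1 + r2) (n1 + n2) (d1 + d2) p) :
    ∃ p1 p2 : ℤ × ℤ, Oct r1 n1 d1 p1 ∧ Oct r2 n2 d2 p2 ∧ p1 + p2 = p := by
  obtain ⟨A, B⟩ := p
  rcases le_total B A with hAB | hAB
  · exact oct_add_le h1 h2 hAB h
  · obtain ⟨p1, p2, k1, k2, k3⟩ := oct_add_le h1 h2 hAB (Oct.swap h)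
    refine ⟨p1.swap, p2.swap, k1.swap, k2.swap, ?_⟩
    have := congrArg Prod.swap k3
    simpa using this

theorem Adm.sum {ι : Type*} (s : Finset ι) (r n d : ι → ℤ) (h : ∀ i ∈ s, Adm (r i) (n i) (d i)) :
    Adm (∑ i ∈ s, r i) (∑ i ∈ s, n i) (∑ i ∈ s, d i) := by
  refine ⟨Finset.sum_nonneg fun i hi => (h i hi).1, Finset.sum_le_sum fun i hi => (h i hi).2.1, ?_, ?_⟩
  · rw [Finset.mul_sum]
    exact Finset.sum_le_sum fun i hi => (h i hi).2.2.1
  · rw [Finset.mul_sum, ← Finset.sum_add_distrib]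
    exact Finset.sum_le_sum fun i hi => (h i hi).2.2.2

/-- The lattice points of the octagons of finitely many pieces add up to all lattice points of the sum octagon. -/
theorem oct_sum {ι : Type*} [DecidableEq ι] (s : Finset ι) (r n d : ι → ℤ) :
    (∀ i ∈ s, Adm (r i) (n i) (d i)) → ∀ p : ℤ × ℤ, Oct (∑ i ∈ s, r i) (∑ i ∈ s, n i) (∑ i ∈ s, d i) p →
    ∃ q : ι → ℤ × ℤ, (∀ i ∈ s, Oct (r i) (n i) (d i) (q i)) ∧ ∑ i ∈ s, q i = p := by
  induction s using Finset.induction_on with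
  | empty =>
    intro _ p hp
    refine ⟨fun _ => 0, by simp, ?_⟩
    simp only [Finset.sum_empty, Oct] at hp ⊢
    ext <;> simp <;> omega
  | insert a s ha ih =>
    intro h p hp
    rw [Finset.sum_insert ha, Finset.sum_insert ha, Finset.sum_insert ha] at hp
    obtain ⟨p1, p2, h1, h2, h3⟩ := oct_add (h a (Finset.mem_insert_self a s))
      (Adm.sum s r n d fun i hi => h i (Finset.mem_insert_of_mem hi)) hp
    obtain ⟨q, hq1, hq2⟩ := ih (fun i hi => h i (Finset.mem_insert_of_mem hi)) p2 h2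
    refine ⟨fun i => if i = a then p1 else q i, fun i hi => ?_, ?_⟩
    · by_cases hia : i = a
      · simp only [hia, if_true]; exact h1
      · simp only [hia, if_false]
        exact hq1 i (Finset.mem_of_mem_insert_of_ne hi hia)
    · rw [Finset.sum_insert ha, if_pos rfl, ← h3, ← hq2]
      congr 1
      exact Finset.sum_congr rfl fun i hi => if_neg (fun h' : i = a => ha (h' ▸ hi))

/-- Integers between two sums are sums of integers between the summands. -/
theorem int_sum {ι : Type*} [DecidableEq ι] (s : Finset ι) (l u : ι → ℤ) :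
    (∀ i ∈ s, l i ≤ u i) → ∀ x : ℤ, ∑ i ∈ s, l i ≤ x → x ≤ ∑ i ∈ s, u i →
    ∃ y : ι → ℤ, (∀ i ∈ s, l i ≤ y i ∧ y i ≤ u i) ∧ ∑ i ∈ s, y i = x := by
  induction s using Finset.induction_on with
  | empty =>
    intro _ x h1 h2
    refine ⟨fun _ => 0, by simp, ?_⟩
    simp only [Finset.sum_empty] at h1 h2 ⊢
    omega
  | insert a s ha ih =>
    intro h x h1 h2
    rw [Finset.sum_insert ha] at h1 h2
    have hs : ∑ i ∈ s, l i ≤ ∑ i ∈ s, u i := Finset.sum_le_sum fun i hi => h i (Finset.mem_insert_of_mem hi)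
    have ha' := h a (Finset.mem_insert_self a s)
    have key : ∃ y0 : ℤ, l a ≤ y0 ∧ y0 ≤ u a ∧ ∑ i ∈ s, l i ≤ x - y0 ∧ x - y0 ≤ ∑ i ∈ s, u i := by
      rcases le_total (x - ∑ i ∈ s, l i) (u a) with hc | hc
      · exact ⟨x - ∑ i ∈ s, l i, by omega, by omega, by omega, by omega⟩
      · exact ⟨u a, by omega, by omega, by omega, by omega⟩
    obtain ⟨y0, k1, k2, k3, k4⟩ := key
    obtain ⟨y, hy1, hy2⟩ := ih (fun i hi => h i (Finset.mem_insert_of_mem hi)) (x - y0) k3 k4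
    refine ⟨fun i => if i = a then y0 else y i, fun i hi => ?_, ?_⟩
    · by_cases hia : i = a
      · simp only [hia, if_true]; exact ⟨k1, k2⟩
      · simp only [hia, if_false]
        exact hy1 i (Finset.mem_of_mem_insert_of_ne hi hia)
    · rw [Finset.sum_insert ha, if_pos rfl]
      have e : ∑ i ∈ s, (if i = a then y0 else y i) = ∑ i ∈ s, y i :=
        Finset.sum_congr rfl fun i hi => if_neg (fun h' : i = a => ha (h' ▸ hi))
      rw [e, hy2]
      ring

/-- The kinds of state pairs of a piece: arbitrary, resting, both maximal, chain. -/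
inductive Kind
  | arb
  | w
  | mx
  | ch

/-- The contributions (A, B) of a piece of sign `sg` for state pairs of the kind `k` (kappa ≥ 0 version). -/
def Loc (k : Kind) (sg : Bool) (r n d : ℤ) (p : ℤ × ℤ) : Prop :=
  match k, sg with
  | .arb, true => Oct r n d p
  | .arb, false => Oct r n d (-p.2, -p.1)
  | .w, _ => p = 0
  | .mx, true => p.1 - p.2 = d ∧ d ≤ p.1 ∧ p.1 ≤ r
  | .mx, false => p.1 - p.2 = d ∧ -r ≤ p.2 ∧ p.2 ≤ -d
  | .ch, true => 0 ≤ p.1 ∧ p.1 ≤ d ∧ p.2 = 0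
  | .ch, false => p.1 = 0 ∧ -d ≤ p.2 ∧ p.2 ≤ 0

/-- The five families (kind of the positive pieces, kind of the negative pieces). -/
def Family (kp kn : Kind) : Prop :=
  (kp = .arb ∧ kn = .w) ∨ (kp = .mx ∧ kn = .ch) ∨ (kp = .w ∧ kn = .arb) ∨ (kp = .ch ∧ kn = .mx) ∨
    (kp = .ch ∧ kn = .ch)

/-- The contributions of one kind of pair over several pieces of one sign: everything for the sums of the parameters. -/
theorem loc_sum {ι : Type*} [DecidableEq ι] (s : Finset ι) (r n d : ι → ℤ) (h : ∀ i ∈ s, Adm (r i) (n i) (d i))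
    (k : Kind) (sg : Bool) (p : ℤ × ℤ) (hp : Loc k sg (∑ i ∈ s, r i) (∑ i ∈ s, n i) (∑ i ∈ s, d i) p) :
    ∃ q : ι → ℤ × ℤ, (∀ i ∈ s, Loc k sg (r i) (n i) (d i) (q i)) ∧ ∑ i ∈ s, q i = p := by
  obtain ⟨P, Q⟩ := p
  have ext2 : ∀ q : ι → ℤ × ℤ, ∑ i ∈ s, (q i).1 = P → ∑ i ∈ s, (q i).2 = Q → ∑ i ∈ s, q i = (P, Q) := by
    intro q h1 h2
    ext
    · rw [Prod.fst_sum]; exact h1
    · rw [Prod.snd_sum]; exact h2
  cases k with
  | arb =>
    cases sg with
    | true => exact oct_sum s r n d h (P, Q) hp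
    | false =>
      obtain ⟨q, h1, h2⟩ := oct_sum s r n d h (-Q, -P) hp
      refine ⟨fun i => (-(q i).2, -(q i).1), fun i hi => ?_, ext2 _ ?_ ?_⟩
      · have := h1 i hi
        simp only [Loc, neg_neg]
        exact this
      · have := congrArg Prod.snd h2
        rw [Prod.snd_sum] at this
        simp only [Finset.sum_neg_distrib]
        rw [this]; simp
      · have := congrArg Prod.fst h2
        rw [Prod.fst_sum] at this
        simp only [Finset.sum_neg_distrib]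
        rw [this]; simp
  | w =>
    refine ⟨fun _ => 0, fun i _ => rfl, ?_⟩
    rw [Finset.sum_const_zero]
    exact (show (P, Q) = 0 from hp).symm
  | mx =>
    cases sg with
    | true =>
      simp only [Loc] at hp
      obtain ⟨y, h1, h2⟩ := int_sum s d r (fun i hi => (h i hi).2.1) P (by omega) (by omega)
      refine ⟨fun i => (y i, y i - d i), fun i hi => ?_, ext2 _ h2 ?_⟩
      · have := h1 i hi
        simp only [Loc, and_true, true_and]
        omega
      · simp only [Finset.sum_sub_distrib]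
        omega
    | false =>
      simp only [Loc] at hp
      obtain ⟨y, h1, h2⟩ := int_sum s d r (fun i hi => (h i hi).2.1) (-Q) (by omega) (by omega)
      refine ⟨fun i => (d i - y i, -y i), fun i hi => ?_, ext2 _ ?_ ?_⟩
      · have := h1 i hi
        simp only [Loc, and_true, true_and]
        omega
      · simp only [Finset.sum_sub_distrib]
        omega
      · simp only [Finset.sum_neg_distrib]
        omega
  | ch =>
    cases sg with
    | true =>
      simp only [Loc] at hp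
      obtain ⟨y, h1, h2⟩ := int_sum s (fun _ => 0) d (fun i hi => (h i hi).1) P (by simpa using hp.1) hp.2.1
      refine ⟨fun i => (y i, 0), fun i hi => ?_, ext2 _ h2 ?_⟩
      · have := h1 i hi
        simp only [Loc, and_true, true_and]
        omega
      · simp only [Finset.sum_const_zero]
        omega
    | false =>
      simp only [Loc] at hp
      obtain ⟨y, h1, h2⟩ := int_sum s (fun _ => 0) d (fun i hi => (h i hi).1) (-Q) (by simp; omega) (by omega)
      refine ⟨fun i => (0, -y i), fun i hi => ?_, ext2 _ ?_ ?_⟩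
      · have := h1 i hi
        simp only [Loc, and_true, true_and]
        omega
      · simp only [Finset.sum_const_zero]
        omega
      · simp only [Finset.sum_neg_distrib]
        omega

section cover

variable {ι : Type*} [Fintype ι] [DecidableEq ι] (sg : ι → Bool) (r n d : ι → ℤ)

/-- Sum over the pieces of sign `b`. -/
def tot (b : Bool) (f : ι → ℤ) : ℤ := ∑ i ∈ Finset.univ.filter (fun i => sg i = b), f i

omit [DecidableEq ι] in
theorem tot_add (f : ι → ℤ) : tot sg true f + tot sg false f = ∑ i, f i := by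
  unfold tot
  rw [← Finset.sum_filter_add_sum_filter_not Finset.univ (fun i => sg i = true) f]
  congr 2
  ext i
  simp

omit [DecidableEq ι] in
theorem Adm.tot {sg : ι → Bool} {r n d : ι → ℤ} (h : ∀ i, Adm (r i) (n i) (d i)) (b : Bool) :
    Adm (R4.tot sg b r) (R4.tot sg b n) (R4.tot sg b d) := Adm.sum _ r n d fun i _ => h i

/-- Local contributions of the positive and of the negative pieces, put together. -/
theorem combine (h : ∀ i, Adm (r i) (n i) (d i)) (kp kn : Kind) (P N : ℤ × ℤ)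
    (hP : Loc kp true (tot sg true r) (tot sg true n) (tot sg true d) P)
    (hN : Loc kn false (tot sg false r) (tot sg false n) (tot sg false d) N) :
    ∃ q : ι → ℤ × ℤ, (∀ i, Loc (if sg i then kp else kn) (sg i) (r i) (n i) (d i) (q i)) ∧ ∑ i, q i = P + N := by
  obtain ⟨q1, h1, h2⟩ := loc_sum _ r n d (fun i _ => h i) kp true P hP
  obtain ⟨q2, h3, h4⟩ := loc_sum _ r n d (fun i _ => h i) kn false N hN
  refine ⟨fun i => if sg i then q1 i else q2 i, fun i => ?_, ?_⟩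
  · cases hb : sg i with
    | true =>
      have := h1 i (by simp [hb])
      simpa [hb] using this
    | false =>
      have := h3 i (by simp [hb])
      simpa [hb] using this
  · rw [← Finset.sum_filter_add_sum_filter_not Finset.univ (fun i => sg i = true), ← h2, ← h4]
    congr 1
    · exact Finset.sum_congr rfl fun i hi => by simp [(Finset.mem_filter.1 hi).2]
    · refine Finset.sum_congr (by ext i; simp) fun i hi => ?_
      have := (Finset.mem_filter.1 hi).2
      simp [this]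

/-- COVERING, kappa ≥ 0: every lattice point of the octagon of the diagram is a sum of contributions of one of the
five families. -/
theorem cover_ge (h : ∀ i, Adm (r i) (n i) (d i)) (A B : ℤ) (hAB : B ≤ A) (hA : A ≤ tot sg true r)
    (hB : -tot sg false r ≤ B) (hT : A + B ≤ tot sg true n) (hS : -tot sg false n ≤ A + B) (hd : A - B ≤ ∑ i, d i) :
    ∃ kp kn : Kind, Family kp kn ∧ ∃ q : ι → ℤ × ℤ,
      (∀ i, Loc (if sg i then kp else kn) (sg i) (r i) (n i) (d i) (q i)) ∧ ∑ i, q i = (A, B) := by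
  have hd' := tot_add sg d
  obtain ⟨a1, a2, a3, a4⟩ := Adm.tot (sg := sg) h true
  obtain ⟨b1, b2, b3, b4⟩ := Adm.tot (sg := sg) h false
  have fin : ∀ (kp kn : Kind) (P N : ℤ × ℤ), Family kp kn →
      Loc kp true (tot sg true r) (tot sg true n) (tot sg true d) P →
      Loc kn false (tot sg false r) (tot sg false n) (tot sg false d) N → P + N = (A, B) →
      ∃ kp kn : Kind, Family kp kn ∧ ∃ q : ι → ℤ × ℤ,
        (∀ i, Loc (if sg i then kp else kn) (sg i) (r i) (n i) (d i) (q i)) ∧ ∑ i, q i = (A, B) := by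
    intro kp kn P N hF hP hN hPN
    obtain ⟨q, h1, h2⟩ := combine sg r n d h kp kn P N hP hN
    exact ⟨kp, kn, hF, q, h1, h2.trans hPN⟩
  rcases le_or_gt 0 B with hB0 | hB0
  · rcases le_or_gt (A - B) (tot sg true d) with h1 | h1
    · refine fin .arb .w (A, B) 0 (Or.inl ⟨rfl, rfl⟩) ?_ rfl (by simp)
      simp only [Loc, Oct]
      omega
    · refine fin .mx .ch (A, A - tot sg true d) (0, B - A + tot sg true d) (Or.inr (Or.inl ⟨rfl, rfl⟩)) ?_ ?_ ?_
      · simp only [Loc, and_true, true_and]; omega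
      · simp only [Loc, and_true, true_and]; omega
      · ext <;> simp
  · rcases le_or_gt A 0 with hA0 | hA0
    · rcases le_or_gt (A - B) (tot sg false d) with h1 | h1
      · refine fin .w .arb 0 (A, B) (Or.inr (Or.inr (Or.inl ⟨rfl, rfl⟩))) rfl ?_ (by simp)
        simp only [Loc, Oct]
        omega
      · refine fin .ch .mx (A - B - tot sg false d, 0) (B + tot sg false d, B)
          (Or.inr (Or.inr (Or.inr (Or.inl ⟨rfl, rfl⟩)))) ?_ ?_ ?_
        · simp only [Loc, and_true, true_and]; omega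
        · simp only [Loc, and_true, true_and]; omega
        · ext <;> simp
    · rcases le_or_gt (tot sg true d) A with h1 | h1
      · refine fin .mx .ch (A, A - tot sg true d) (0, B - A + tot sg true d) (Or.inr (Or.inl ⟨rfl, rfl⟩)) ?_ ?_ ?_
        · simp only [Loc, and_true, true_and]; omega
        · simp only [Loc, and_true, true_and]; omega
        · ext <;> simp
      · rcases le_or_gt B (-tot sg false d) with h2 | h2
        · refine fin .ch .mx (A - B - tot sg false d, 0) (B + tot sg false d, B)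
            (Or.inr (Or.inr (Or.inr (Or.inl ⟨rfl, rfl⟩)))) ?_ ?_ ?_
          · simp only [Loc, and_true, true_and]; omega
          · simp only [Loc, and_true, true_and]; omega
          · ext <;> simp
        · refine fin .ch .ch (A, 0) (0, B) (Or.inr (Or.inr (Or.inr (Or.inr ⟨rfl, rfl⟩)))) ?_ ?_ (by simp)
          · simp only [Loc, and_true, true_and]; omega
          · simp only [Loc, and_true, true_and]; omega

/-- COVERING, kappa ≤ 0: the same with A and B exchanged (all local contributions swapped). -/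
theorem cover_le (h : ∀ i, Adm (r i) (n i) (d i)) (A B : ℤ) (hAB : A ≤ B) (hA : B ≤ tot sg true r)
    (hB : -tot sg false r ≤ A) (hT : A + B ≤ tot sg true n) (hS : -tot sg false n ≤ A + B) (hd : B - A ≤ ∑ i, d i) :
    ∃ kp kn : Kind, Family kp kn ∧ ∃ q : ι → ℤ × ℤ,
      (∀ i, Loc (if sg i then kp else kn) (sg i) (r i) (n i) (d i) (q i).swap) ∧ ∑ i, q i = (A, B) := by
  obtain ⟨kp, kn, hF, q, h1, h2⟩ := cover_ge sg r n d h B A hAB hA hB (by omega) (by omega) hd
  refine ⟨kp, kn, hF, fun i => (q i).swap, fun i => by simpa using h1 i, ?_⟩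
  have e1 := congrArg Prod.fst h2
  have e2 := congrArg Prod.snd h2
  rw [Prod.fst_sum] at e1
  rw [Prod.snd_sum] at e2
  ext
  · rw [Prod.fst_sum]; simpa using e2
  · rw [Prod.snd_sum]; simpa using e1

/-- The local contributions satisfy the bounds of the piece (used for the converse inclusion). -/
theorem Loc.bounds {r n d : ℤ} (h : Adm r n d) {k : Kind} {p : ℤ × ℤ} (hp : Loc k true r n d p) : Oct r n d p := by
  obtain ⟨a1, a2, a3, a4⟩ := h
  cases k <;> simp only [Loc, Oct, Prod.ext_iff, Prod.fst_zero, Prod.snd_zero] at * <;> omega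

end cover

end LG3P.R4
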