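import Pool.Agent.Lib.MP_3cd99b_gt.Out
import Pool.Agent.Lib.MP_3cd99b_gt.R4

/-!
Local states of a special piece for every kind of `R4.Loc`, both signs and both signs of `A - B`; the parameters of a
piece are admissible.
-/

namespace PoolLib.MP_3cd99b_gt.Oct

open Function Finset Relation LG3P.Top LG3P.Gr LG3P.R4

variable {E I : Type*} [Fintype E] [DecidableEq E] [Fintype I]

omit [Fintype E] [DecidableEq E] [Fintype I] in
theorem closed_symm [Finite E] {τ : Equiv.Perm E} {T : Set E} (h : ∀ c ∈ T, τ.symm c ∈ T) :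
    ∀ c ∈ T, τ c ∈ T := by
  have hn : ∀ (n : ℕ) (d : E), d ∈ T → (τ.symm ^ n) d ∈ T := by
    intro n
    induction n with
    | zero => intro d hd; exact hd
    | succ n ih => intro d hd; rw [pow_succ', Equiv.Perm.mul_apply]; exact h _ (ih d hd)
  intro c hc
  have h0 := orderOf_pos τ.symm
  have h1 : (τ.symm ^ (orderOf τ.symm - 1)) c = τ c := by
    apply τ.symm.injective
    rw [← Equiv.Perm.mul_apply, ← pow_succ', Nat.sub_add_cancel h0, pow_orderOf_eq_one,
      Equiv.symm_apply_apply]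
    rfl
  rw [← h1]
  exact hn _ _ hc

variable {σ : Bool → Equiv.Perm E} {circ : E → Bool → I} {Fc : Type*} {fc : E × Bool → Fc}

/-- exchange the two corners of a crossing -/
def swc (E : Type*) : Equiv.Perm (E × Bool) where
  toFun z := (z.1, !z.2)
  invFun z := (z.1, !z.2)
  left_inv z := by simp
  right_inv z := by simp

omit [Fintype E] [DecidableEq E] in
theorem phi_rev (σ : Bool → Equiv.Perm E) :
    phi (fun b => (σ b).symm) = swc E * (phi σ)⁻¹ * (swc E)⁻¹ := by
  ext1 z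
  obtain ⟨c, b⟩ := z
  show ((σ b).symm c, !b) = swc E ((phi σ).symm (c, !b))
  show ((σ b).symm c, !b) = swc E ((σ (!(!b))).symm c, !(!b))
  rw [Bool.not_not]
  rfl

/-- the piece with all circles reversed -/
theorem Piece.rev (P : Piece σ circ fc) :
    Piece (fun b => (σ b).symm) circ (fun z => fc (z.1, !z.2)) where
  orb := by
    intro c c' b
    rw [P.orb]
    exact Equiv.Perm.sameCycle_inv.symm
  surj := P.surj
  ne := P.ne
  face := by
    intro z z'
    rw [P.face, phi_rev, Equiv.Perm.sameCycle_conj, Equiv.Perm.sameCycle_inv]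
    rfl
  conn := by
    intro T hT hc
    exact P.conn T hT (fun c hcT b => closed_symm (fun d hd => hc d hd b) c hcT)
  bl := P.bl
  pl := by
    intro O hO
    obtain ⟨h, hh⟩ := P.pl O hO
    refine ⟨fun f => - h f, fun c => ?_⟩
    have := hh c
    simp only [Bool.not_not]
    linarith

omit [Fintype E] in
theorem sx_rev (σ : Bool → Equiv.Perm E) (c0 : E) (b0 : Bool) :
    sx (fun b => (σ b).symm) (σ b0 c0) b0 = sy σ c0 b0 := rfl

omit [Fintype E] in
theorem sy_rev (σ : Bool → Equiv.Perm E) (c0 : E) (b0 : Bool) :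
    sy (fun b => (σ b).symm) (σ b0 c0) b0 = sx σ c0 b0 := by
  funext c b
  unfold sy sx
  rw [Equiv.symm_apply_apply]
  rfl

section Piece

variable (P : Piece σ circ fc) {c0 : E} {b0 : Bool} {dist : I → ℕ} (D : PDist circ (circ c0 b0) dist)

include P D

theorem Piece.revD : PDist circ (circ (σ b0 c0) b0) dist := by
  rw [P.hcirc]; exact D

omit [Fintype I] P D [DecidableEq E] in
theorem nn_comm (a b : Bool) (x y : E → Bool) : nn a b x y = nn b a y x := by
  unfold nn
  congr 1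
  ext v
  simp only [mem_filter, mem_univ, true_and]
  exact and_comm

/-- (A1) mirrored: the pairs with the largest `B - A` -/
theorem Piece.outA1' (a b : ℤ) (hb : 0 ≤ b) (har : a ≤ rr circ)
    (hab : a + b ≤ Fintype.card E) (hd : a - b = (Fintype.card E : ℤ) + 1 - Fintype.card I) :
    ∃ x y r r', Rank (sx σ c0 b0) x r ∧ Rank (sy σ c0 b0) y r' ∧
      Ext circ false r x ∧ Ext circ true r' y ∧
      (∀ e, x e = true → circ e false ≠ circ c0 b0) ∧
      (∀ e, y e = false → circ e true ≠ circ c0 b0) ∧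
      (nn false true x y : ℤ) = a ∧ (nn true false x y : ℤ) = b := by
  obtain ⟨y, x, r', r, h1, h2, h3, h4, h5, h6, h7, h8⟩ :=
    Piece.outA1 (Piece.rev P) (Piece.revD P D) a b hb har hab hd
  rw [sx_rev] at h1
  rw [sy_rev] at h2
  rw [P.hcirc] at h5 h6
  exact ⟨x, y, r, r', h2, h1, h4, h3, h6, h5, by rw [nn_comm]; exact h7, by rw [nn_comm]; exact h8⟩

/-- (A2) mirrored -/
theorem Piece.outA2' (i : ℕ) (hi : (i : ℤ) ≤ (Fintype.card E : ℤ) + 1 - Fintype.card I) :
    ∃ x y r r', Rank (sx σ c0 b0) x r ∧ Rank (sy σ c0 b0) y r' ∧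
      Ext circ false r x ∧ Ext circ true r' y ∧
      (∀ e, x e = true → circ e false ≠ circ c0 b0) ∧
      (∀ e, y e = false → circ e true ≠ circ c0 b0) ∧
      nn false true x y = i ∧ nn true false x y = 0 := by
  obtain ⟨y, x, r', r, h1, h2, h3, h4, h5, h6, h7, h8⟩ :=
    Piece.outA2 (Piece.rev P) (Piece.revD P D) i hi
  rw [sx_rev] at h1
  rw [sy_rev] at h2
  rw [P.hcirc] at h5 h6
  exact ⟨x, y, r, r', h2, h1, h4, h3, h6, h5, by rw [nn_comm]; exact h7, by rw [nn_comm]; exact h8⟩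

/-- the parameters of a piece are admissible -/
theorem Piece.adm : Adm (rr circ) (Fintype.card E) ((Fintype.card E : ℤ) + 1 - Fintype.card I) := by
  classical
  obtain ⟨rw1, rw2, hrw, hrw', _⟩ := Piece.outW P D
  have hdd := P.dd_eq c0 b0 (ww circ dist) hrw.acyc
  have e : ∀ a b : Bool, a ≠ b → nn a b (ww circ dist) (ww circ dist) = 0 := by
    intro a b hne
    unfold nn
    rw [card_eq_zero, filter_eq_empty_iff]
    rintro v _ ⟨h3, h4⟩
    exact hne (h3.symm.trans h4)
  have hd0 : 0 ≤ (Fintype.card E : ℤ) + 1 - Fintype.card I := by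
    have h1 := kappa_le (Piece.data P D) hrw.acyc hrw'.acyc
    rw [e true false (by simp), e false true (by simp), hdd] at h1
    simpa using h1
  refine ⟨hd0, ?_, ?_, ?_⟩
  · obtain ⟨x, y, r, r', h1, h2, _, _, _, _, h7, h8⟩ := Piece.outA2 P D
      ((Fintype.card E : ℤ) + 1 - Fintype.card I).toNat (by rw [Int.toNat_of_nonneg hd0])
    have h3 := ((P.octagon c0 b0 (ww circ dist) hrw.acyc hrw'.acyc _ _).1
      ⟨x, y, h1.acyc, h2.acyc, rfl, rfl⟩).2.2.1
    rw [h7, Int.toNat_of_nonneg hd0] at h3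
    exact h3
  · exact_mod_cast P.two_rr.1
  · obtain ⟨⟨O₀, hO₀, h1⟩, h2⟩ := P.rr_spec
    obtain ⟨h, hh⟩ := P.pl O₀ hO₀
    have hcol : ∀ v : I, (if ∃ c, circ c false = v then (1 : ℤ) else 0) = 0 ∨
        (if ∃ c, circ c false = v then (1 : ℤ) else 0) = 1 := by
      intro v
      split_ifs
      · exact Or.inr rfl
      · exact Or.inl rfl
    have h3 := P.two_rr
    have h3' : (Fintype.card E : ℤ) ≤ 2 * rr circ := by exact_mod_cast h3.1
    obtain ⟨O, hOx, hOy, hA⟩ := top_row (σ := σ) (c0 := c0) (b0 := b0) fc P.face P.conn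
      (fun v => if ∃ c, circ c false = v then (1 : ℤ) else 0) hcol
      (fun c => if_pos ⟨c, rfl⟩)
      (fun c => if_neg (by
        rintro ⟨c', h⟩
        exact P.ne _ _ h.symm)) P.pl O₀ hO₀ (rr circ : ℤ) (by rw [h1]; linarith) (by rw [h1])
    have h6 := ((P.octagon c0 b0 (ww circ dist) hrw.acyc hrw'.acyc _ _).1
      ⟨O, fun c => !O c, hOx, hOy, rfl, rfl⟩).2.2.2.2.2.1
    have h7 : nn true false O (fun c => !O c) = (univ.filter fun c => O c = true).card := by
      unfold nn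
      congr 1
      ext c
      simp
    have h8 : nn true false O (fun c => !O c) + nn false true O (fun c => !O c) = Fintype.card E := by
      rw [← nq_eq]
      unfold nq
      rw [← card_univ]
      congr 1
      ext c
      simp
    rw [A_eq] at hA
    have h9 : (nn true false O (fun c => !O c) : ℤ) = rr circ := by rw [h7]; exact hA
    have h10 : (nn true false O (fun c => !O c) : ℤ) + nn false true O (fun c => !O c) =
        Fintype.card E := by exact_mod_cast h8
    linarith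

end Piece

/-- the local states which the gluing needs: `e` is the type of the circles at which `x` has the exit property -/
structure LS (σ : Bool → Equiv.Perm E) (c0 : E) (b0 : Bool) (circ : E → Bool → I) (k : Kind) (e : Bool)
    (x y : E → Bool) (r r' : E → ℕ) : Prop where
  rx : Rank (sx σ c0 b0) x r
  ry : Rank (sy σ c0 b0) y r'
  ext : k ≠ .arb → Ext circ e r x ∧ Ext circ (!e) r' y
  quiet : k ≠ .arb → (∀ v, x v = !e → circ v e ≠ circ c0 b0) ∧ (∀ v, y v = e → circ v (!e) ≠ circ c0 b0)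
  exw : k = .w → (∀ b, Ext circ b r x) ∧ (∀ b, Ext circ b r' y)
  quw : k = .w → (∀ v b, x v = !b → circ v b ≠ circ c0 b0) ∧ (∀ v b, y v = !b → circ v b ≠ circ c0 b0)

/-- the sign as an integer -/
def sgn (b : Bool) : ℤ := if b then 1 else -1

section Piece

variable (P : Piece σ circ fc) {c0 : E} {b0 : Bool} {dist : I → ℕ} (D : PDist circ (circ c0 b0) dist)

include P D

theorem Piece.stA1 (e : Bool) (a b : ℤ) (hb : 0 ≤ b) (har : a ≤ rr circ)
    (hab : a + b ≤ Fintype.card E) (hd : a - b = (Fintype.card E : ℤ) + 1 - Fintype.card I) (k : Kind)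
    (hk : k ≠ .w) :
    ∃ x y r r', LS σ c0 b0 circ k e x y r r' ∧ (nn e (!e) x y : ℤ) = a ∧ (nn (!e) e x y : ℤ) = b := by
  cases e
  · obtain ⟨x, y, r, r', h1, h2, h3, h4, h5, h6, h7, h8⟩ := Piece.outA1' P D a b hb har hab hd
    exact ⟨x, y, r, r', ⟨h1, h2, fun _ => ⟨h3, h4⟩, fun _ => ⟨h5, h6⟩, fun h => absurd h hk,
      fun h => absurd h hk⟩, h7, h8⟩
  · obtain ⟨x, y, r, r', h1, h2, h3, h4, h5, h6, h7, h8⟩ := Piece.outA1 P D a b hb har hab hd
    exact ⟨x, y, r, r', ⟨h1, h2, fun _ => ⟨h3, h4⟩, fun _ => ⟨h5, h6⟩, fun h => absurd h hk,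
      fun h => absurd h hk⟩, h7, h8⟩

theorem Piece.stA2 (e : Bool) (a : ℤ) (ha : 0 ≤ a) (had : a ≤ (Fintype.card E : ℤ) + 1 - Fintype.card I)
    (k : Kind) (hk : k ≠ .w) :
    ∃ x y r r', LS σ c0 b0 circ k e x y r r' ∧ (nn e (!e) x y : ℤ) = a ∧ (nn (!e) e x y : ℤ) = 0 := by
  obtain ⟨i, rfl⟩ : ∃ i : ℕ, (i : ℤ) = a := ⟨a.toNat, Int.toNat_of_nonneg ha⟩
  cases e
  · obtain ⟨x, y, r, r', h1, h2, h3, h4, h5, h6, h7, h8⟩ := Piece.outA2' P D i had
    exact ⟨x, y, r, r', ⟨h1, h2, fun _ => ⟨h3, h4⟩, fun _ => ⟨h5, h6⟩, fun h => absurd h hk,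
      fun h => absurd h hk⟩, by exact_mod_cast h7, by exact_mod_cast h8⟩
  · obtain ⟨x, y, r, r', h1, h2, h3, h4, h5, h6, h7, h8⟩ := Piece.outA2 P D i had
    exact ⟨x, y, r, r', ⟨h1, h2, fun _ => ⟨h3, h4⟩, fun _ => ⟨h5, h6⟩, fun h => absurd h hk,
      fun h => absurd h hk⟩, by exact_mod_cast h7, by exact_mod_cast h8⟩

theorem Piece.stB (a b : ℤ) (h : Oct (rr circ) (Fintype.card E) ((Fintype.card E : ℤ) + 1 - Fintype.card I) (a, b))
    (e : Bool) : ∃ x y r r', LS σ c0 b0 circ .arb e x y r r' ∧ (nn true false x y : ℤ) = a ∧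
      (nn false true x y : ℤ) = b := by
  obtain ⟨h1, h2, h3, h4, h5, h6, h7⟩ := h
  obtain ⟨x, y, r, r', k1, k2, k3, k4⟩ := Piece.outB P D a b h1 h2 h3 h4 h5 h6 h7
  exact ⟨x, y, r, r', ⟨k1, k2, fun h => absurd rfl h, fun h => absurd rfl h, fun h => (by cases h),
    fun h => (by cases h)⟩, k3, k4⟩

theorem Piece.stW (e : Bool) : ∃ x y r r', LS σ c0 b0 circ .w e x y r r' ∧ (nn true false x y : ℤ) = 0 ∧
    (nn false true x y : ℤ) = 0 := by
  obtain ⟨r, r', h1, h2, h3, h4, h5⟩ := Piece.outW P D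
  have e0 : ∀ a b : Bool, a ≠ b → nn a b (ww circ dist) (ww circ dist) = 0 := by
    intro a b hne
    unfold nn
    rw [card_eq_zero, filter_eq_empty_iff]
    rintro v _ ⟨h3, h4⟩
    exact hne (h3.symm.trans h4)
  refine ⟨ww circ dist, ww circ dist, r, r', ⟨h1, h2, fun _ => ⟨h3 _, h4 _⟩, fun _ => ⟨fun v h => h5 v e h,
    fun v h => h5 v (!e) (by rw [Bool.not_not]; exact h)⟩, fun _ => ⟨h3, h4⟩, fun _ => ⟨h5, h5⟩⟩, ?_, ?_⟩
  · rw [e0 _ _ (by simp)]; rfl
  · rw [e0 _ _ (by simp)]; rfl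

/-- LOCAL STATES of all kinds: `sg` = sign of the piece, `ge`: the version for `A - B ≥ 0` (true) or `≤ 0` -/
theorem Piece.states (k : Kind) (sg ge : Bool) (p : ℤ × ℤ)
    (h : Loc k sg (rr circ) (Fintype.card E) ((Fintype.card E : ℤ) + 1 - Fintype.card I)
      (if ge then p else p.swap)) :
    ∃ x y r r', LS σ c0 b0 circ k (sg == ge) x y r r' ∧
      sgn sg * (nn true false x y : ℤ) = p.1 ∧ sgn sg * (nn false true x y : ℤ) = p.2 := by
  obtain ⟨a1, a2, a3, a4⟩ := Piece.adm P D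
  obtain ⟨A, B⟩ := p
  cases k
  · -- arb
    have h0 : ∃ a b : ℤ, Oct (rr circ) (Fintype.card E) ((Fintype.card E : ℤ) + 1 - Fintype.card I) (a, b) ∧
        sgn sg * a = A ∧ sgn sg * b = B := by
      cases sg <;> cases ge
      · exact ⟨-A, -B, by unfold Loc Oct at *; simp only [Bool.false_eq_true, if_false, Prod.swap_prod_mk] at h ⊢; omega,
          by unfold sgn; simp, by unfold sgn; simp⟩
      · exact ⟨-A, -B, by unfold Loc Oct at *; simp only [if_true] at h ⊢; omega,
          by unfold sgn; simp, by unfold sgn; simp⟩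
      · exact ⟨A, B, by unfold Loc Oct at *; simp only [Bool.false_eq_true, if_false, Prod.swap_prod_mk] at h ⊢; omega,
          by unfold sgn; simp, by unfold sgn; simp⟩
      · exact ⟨A, B, by unfold Loc Oct at *; simp only [if_true] at h ⊢; omega,
          by unfold sgn; simp, by unfold sgn; simp⟩
    obtain ⟨a, b, h1, h2, h3⟩ := h0
    obtain ⟨x, y, r, r', k1, k2, k3⟩ := Piece.stB P D a b h1 (sg == ge)
    exact ⟨x, y, r, r', k1, by rw [k2, h2], by rw [k3, h3]⟩
  · -- w
    have h0 : A = 0 ∧ B = 0 := by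
      cases sg <;> cases ge <;> simp only [Loc, Bool.false_eq_true, if_false, if_true, Prod.swap_prod_mk,
        Prod.ext_iff, Prod.fst_zero, Prod.snd_zero] at h <;> omega
    obtain ⟨x, y, r, r', k1, k2, k3⟩ := Piece.stW P D (sg == ge)
    exact ⟨x, y, r, r', k1, by rw [k2, h0.1, mul_zero], by rw [k3, h0.2, mul_zero]⟩
  · -- mx
    cases sg <;> cases ge <;> simp only [Loc, Bool.false_eq_true, if_false, if_true, Prod.swap_prod_mk] at h
    · obtain ⟨x, y, r, r', k1, k2, k3⟩ := Piece.stA1 P D true (-A) (-B) (by omega) (by omega) (by omega) (by omega)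
        .mx (by simp)
      exact ⟨x, y, r, r', k1, by unfold sgn; simp at k2 ⊢; omega, by unfold sgn; simp at k3 ⊢; omega⟩
    · obtain ⟨x, y, r, r', k1, k2, k3⟩ := Piece.stA1 P D false (-B) (-A) (by omega) (by omega) (by omega) (by omega)
        .mx (by simp)
      exact ⟨x, y, r, r', k1, by unfold sgn; simp at k3 ⊢; omega, by unfold sgn; simp at k2 ⊢; omega⟩
    · obtain ⟨x, y, r, r', k1, k2, k3⟩ := Piece.stA1 P D false B A (by omega) (by omega) (by omega) (by omega)
        .mx (by simp)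
      exact ⟨x, y, r, r', k1, by unfold sgn; simp at k3 ⊢; omega, by unfold sgn; simp at k2 ⊢; omega⟩
    · obtain ⟨x, y, r, r', k1, k2, k3⟩ := Piece.stA1 P D true A B (by omega) (by omega) (by omega) (by omega)
        .mx (by simp)
      exact ⟨x, y, r, r', k1, by unfold sgn; simp at k2 ⊢; omega, by unfold sgn; simp at k3 ⊢; omega⟩
  · -- ch
    cases sg <;> cases ge <;> simp only [Loc, Bool.false_eq_true, if_false, if_true, Prod.swap_prod_mk] at h
    · obtain ⟨x, y, r, r', k1, k2, k3⟩ := Piece.stA2 P D true (-A) (by omega) (by omega) .ch (by simp)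
      exact ⟨x, y, r, r', k1, by unfold sgn; simp at k2 ⊢; omega, by unfold sgn; simp at k3 ⊢; omega⟩
    · obtain ⟨x, y, r, r', k1, k2, k3⟩ := Piece.stA2 P D false (-B) (by omega) (by omega) .ch (by simp)
      exact ⟨x, y, r, r', k1, by unfold sgn; simp at k3 ⊢; omega, by unfold sgn; simp at k2 ⊢; omega⟩
    · obtain ⟨x, y, r, r', k1, k2, k3⟩ := Piece.stA2 P D false B (by omega) (by omega) .ch (by simp)
      exact ⟨x, y, r, r', k1, by unfold sgn; simp at k3 ⊢; omega, by unfold sgn; simp at k2 ⊢; omega⟩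
    · obtain ⟨x, y, r, r', k1, k2, k3⟩ := Piece.stA2 P D true A (by omega) (by omega) .ch (by simp)
      exact ⟨x, y, r, r', k1, by unfold sgn; simp at k2 ⊢; omega, by unfold sgn; simp at k3 ⊢; omega⟩

end Piece

end PoolLib.MP_3cd99b_gt.Oct
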