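import Pool.Agent.Lib.MP_3cd99b_gt.R2

/-!
Special piece: the support of the pairs of acyclic states is a lattice octagon, abstract form.
-/

namespace PoolLib.MP_3cd99b_gt.Oct

open Function Finset Relation LG3P.Level

/-- change the name of the top height -/
def castSys {α : Type*} {d d' : ℤ} (h : d = d') (S : Sys α d) : Sys α d' where
  R := S.R
  k := S.k
  symm := S.symm
  step := S.step
  lo := S.lo
  hi := fun x => h ▸ S.hi x
  up := fun x hx => S.up x (h ▸ hx)
  dn := S.dn

theorem castSys_top {α : Type*} {d d' : ℤ} (h : d = d') (S : Sys α d) (hS : S.Top) :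
    (castSys h S).Top := by
  subst h; exact hS

variable {V : Type*} [Fintype V] [DecidableEq V] {s t : V → Bool → Option V}

/-- number of vertices with labels `a` and `b` -/
def nn (a b : Bool) (x y : V → Bool) : ℕ := (univ.filter fun v => x v = a ∧ y v = b).card

/-- number of vertices with different labels -/
def nq (x y : V → Bool) : ℕ := (univ.filter fun v => x v ≠ y v).card

theorem nq_eq (x y : V → Bool) : nq x y = nn true false x y + nn false true x y := by
  unfold nq nn
  rw [← card_union_of_disjoint]
  · congr 1
    ext v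
    simp only [mem_filter, mem_univ, true_and, mem_union]
    cases x v <;> cases y v <;> simp
  · rw [disjoint_left]
    intro v
    simp only [mem_filter, mem_univ, true_and]
    cases x v <;> cases y v <;> simp

theorem nq_le (x y : V → Bool) : nq x y ≤ Fintype.card V := card_le_univ _

theorem low_true (x : V → Bool) (y : V → Bool) :
    low (fun _ => false) x = nn true true x y + nn true false x y := by
  unfold low nn
  rw [← card_union_of_disjoint]
  · congr 1
    ext v
    simp only [mem_filter, mem_univ, true_and, mem_union]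
    cases x v <;> cases y v <;> simp
  · rw [disjoint_left]
    intro v
    simp only [mem_filter, mem_univ, true_and]
    cases x v <;> cases y v <;> simp

theorem low_true' (x : V → Bool) (y : V → Bool) :
    low (fun _ => true) y = nn true false x y + nn false false x y := by
  unfold low nn
  rw [← card_union_of_disjoint]
  · congr 1
    ext v
    simp only [mem_filter, mem_univ, true_and, mem_union]
    cases x v <;> cases y v <;> simp
  · rw [disjoint_left]
    intro v
    simp only [mem_filter, mem_univ, true_and]
    cases x v <;> cases y v <;> simp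

theorem nn_sum (x y : V → Bool) : nn true true x y + nn true false x y
    + nn false true x y + nn false false x y = Fintype.card V := by
  have h1 := low_true x y
  have h2 : low (fun _ => true) x = nn false true x y + nn false false x y := by
    unfold low nn
    rw [← card_union_of_disjoint]
    · congr 1
      ext v
      simp only [mem_filter, mem_univ, true_and, mem_union]
      cases x v <;> cases y v <;> simp
    · rw [disjoint_left]
      intro v
      simp only [mem_filter, mem_univ, true_and]
      cases x v <;> cases y v <;> simp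
  have h3 := low_add x (fun _ => true)
  simp only [Bool.not_true] at h3
  omega

/-- `A - B` in terms of the heights -/
theorem kappa_eq (x y : V → Bool) : (nn true false x y : ℤ) - nn false true x y
    = low (fun _ => false) x + low (fun _ => true) y - Fintype.card V := by
  have h1 := low_true x y
  have h2 := low_true' x y
  have h3 := nn_sum x y
  omega

theorem nq_update_left (x y : V → Bool) (v : V) :
    nq (update x v (!x v)) y = nq x y + 1 ∨ nq (update x v (!x v)) y + 1 = nq x y := by
  unfold nq
  by_cases h : x v = y v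
  · left
    have e : (univ.filter fun u => update x v (!x v) u ≠ y u)
        = insert v (univ.filter fun u => x u ≠ y u) := by
      ext u
      simp only [mem_filter, mem_univ, true_and, mem_insert]
      by_cases hu : u = v
      · subst hu; simp [h]
      · simp [hu]
    rw [e, card_insert_of_notMem (by simp [h])]
  · right
    have e : (univ.filter fun u => x u ≠ y u)
        = insert v (univ.filter fun u => update x v (!x v) u ≠ y u) := by
      ext u
      simp only [mem_filter, mem_univ, true_and, mem_insert]
      by_cases hu : u = v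
      · subst hu; simp [h]
      · simp [hu]
    rw [e, card_insert_of_notMem]
    simp only [mem_filter, mem_univ, true_and, update_self, ne_eq, not_not]
    revert h; cases x v <;> cases y v <;> simp

theorem nq_comm (x y : V → Bool) : nq x y = nq y x := by
  unfold nq; congr 1; ext v; simp [ne_comm]

theorem nq_update_right (x y : V → Bool) (v : V) :
    nq x (update y v (!y v)) = nq x y + 1 ∨ nq x (update y v (!y v)) + 1 = nq x y := by
  rw [nq_comm x, nq_comm x]; exact nq_update_left y x v

/-- the data of a special piece -/
structure PieceData (s t : V → Bool → Option V) : Prop where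
  sR : Circular s (fun _ => true)
  sL : Circular s (fun _ => false)
  tR : Circular t (fun _ => true)
  tL : Circular t (fun _ => false)
  mR : mn s (fun _ => true) = mn t (fun _ => true)
  mL : mn s (fun _ => false) = mn t (fun _ => false)

/-- the rank `d` of the piece -/
noncomputable def dd (s : V → Bool → Option V) : ℤ :=
  (Fintype.card V : ℤ) - mn s (fun _ => true) - mn s (fun _ => false)

/-- swap of the two labels -/
def sw (s : V → Bool → Option V) : V → Bool → Option V := fun v b => s v (!b)

omit [Fintype V] [DecidableEq V] in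
theorem acyc_sw {x : V → Bool} (h : Acyc s x) : Acyc (sw s) (fun v => !x v) := by
  obtain ⟨r, hr⟩ := h
  exact ⟨r, fun v u h => hr v u (by simpa [sw] using h)⟩

omit [Fintype V] [DecidableEq V] in
theorem sw_sw (s : V → Bool → Option V) : sw (sw s) = s := by
  funext v b; simp [sw]

omit [Fintype V] [DecidableEq V] in
theorem par_sw (b : Bool) : par (sw s) (fun _ => b) = par s (fun _ => !b) := by
  funext o; cases o <;> rfl

omit [Fintype V] [DecidableEq V] in
theorem circular_sw (b : Bool) (h : Circular s (fun _ => !b)) : Circular (sw s) (fun _ => b) := by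
  intro v
  rcases h v with ⟨n, hn⟩ | ⟨p, hp, h⟩
  · left; exact ⟨n, by rw [par_sw]; exact hn⟩
  · right; exact ⟨p, hp, by rw [par_sw]; exact h⟩

theorem low_sw (b : Bool) (x : V → Bool) :
    low (fun _ => b) (fun v => !x v) = low (fun _ => !b) x := by
  unfold low
  congr 1
  ext v
  simp only [mem_filter, mem_univ, true_and]
  cases x v <;> cases b <;> simp

theorem mn_sw (b : Bool) : mn (sw s) (fun _ => b) = mn s (fun _ => !b) := by
  unfold mn
  congr 1
  ext n
  constructor
  · rintro ⟨x, hx, h⟩
    refine ⟨fun v => !x v, ?_, ?_⟩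
    · have := acyc_sw hx; rwa [sw_sw] at this
    · rw [← h]
      have := low_sw (!b) x
      simpa using this
  · rintro ⟨x, hx, h⟩
    exact ⟨fun v => !x v, acyc_sw hx, by rw [low_sw]; exact h⟩

theorem PieceData.swap (h : PieceData s t) : PieceData (sw s) (sw t) where
  sR := circular_sw true (by simpa using h.sL)
  sL := circular_sw false (by simpa using h.sR)
  tR := circular_sw true (by simpa using h.tL)
  tL := circular_sw false (by simpa using h.tR)
  mR := by rw [mn_sw, mn_sw]; simpa using h.mL
  mL := by rw [mn_sw, mn_sw]; simpa using h.mR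

theorem dd_sw : dd (sw s) = dd s := by
  unfold dd; rw [mn_sw, mn_sw]; simp only [Bool.not_true, Bool.not_false]; ring

theorem nn_not (a b : Bool) (x y : V → Bool) :
    nn a b (fun v => !x v) (fun v => !y v) = nn (!a) (!b) x y := by
  unfold nn
  congr 1
  ext v
  simp only [mem_filter, mem_univ, true_and]
  cases x v <;> cases y v <;> cases a <;> cases b <;> simp

/-- half of the octagon: `A - B ≥ 0` -/
theorem half (P : PieceData s t) (r : ℕ)
    (hr : ∀ x y, Acyc s x → Acyc t y → nn true false x y ≤ r)
    (hbot : ∀ k : ℤ, 0 ≤ k → k ≤ dd s → ∃ x y, Acyc s x ∧ Acyc t y ∧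
      (nn true false x y : ℤ) = k ∧ nn false true x y = 0)
    (htop : ∀ a : ℕ, Fintype.card V ≤ 2 * a → a ≤ r → ∃ x y, Acyc s x ∧ Acyc t y ∧
      nn true false x y = a ∧ nn false true x y + a = Fintype.card V)
    (h2r : Fintype.card V ≤ 2 * r)
    (a b : ℤ) (hb : 0 ≤ b) (hba : b ≤ a) (har : a ≤ r) (hab : a + b ≤ Fintype.card V)
    (hd : a - b ≤ dd s) : ∃ x y, Acyc s x ∧ Acyc t y ∧ (nn true false x y : ℤ) = a ∧
      (nn false true x y : ℤ) = b := by
  classical
  -- the two systems
  have ed : (Fintype.card V : ℤ) - mn t (fun _ => false) - mn t (fun _ => !false) = dd s := by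
    unfold dd; rw [P.mR, P.mL]; simp only [Bool.not_false]; ring
  let S : Sys {x : V → Bool // Acyc s x} (dd s) := sys s (fun _ => true) P.sR (by simpa using P.sL)
  let T : Sys {y : V → Bool // Acyc t y} (dd s) :=
    castSys ed (sys t (fun _ => false) P.tL (by simpa using P.tR))
  have hST : S.Top := sys_top (s := s) (fun _ => true) P.sR (by simpa using P.sL)
  have hTT : T.Top := castSys_top ed _ (sys_top (s := t) (fun _ => false) P.tL (by simpa using P.tR))
  let q : {x : V → Bool // Acyc s x} → {y : V → Bool // Acyc t y} → ℤ := fun x y => nq x.1 y.1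
  have hqS : ∀ x x' y, S.R x x' → q x' y = q x y + 1 ∨ q x' y = q x y - 1 := by
    rintro x x' y ⟨v, hv⟩
    simp only [q, hv]
    rcases nq_update_left x.1 y.1 v with h | h
    · left; rw [h]; push_cast; ring
    · right; rw [← h]; push_cast; ring
  have hqT : ∀ x y y', T.R y y' → q x y' = q x y + 1 ∨ q x y' = q x y - 1 := by
    rintro x y y' ⟨v, hv⟩
    simp only [q, hv]
    rcases nq_update_right x.1 y.1 v with h | h
    · left; rw [h]; push_cast; ring
    · right; rw [← h]; push_cast; ring
  have hkS : ∀ x, S.k x = (low (fun _ => false) x.1 : ℤ) - mn s (fun _ => false) := fun x => rfl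
  have hkT : ∀ y, T.k y = (low (fun _ => true) y.1 : ℤ) - mn t (fun _ => true) := fun x => rfl
  have hlev : ∀ x y, S.k x + T.k y = (nn true false x.1 y.1 : ℤ) - nn false true x.1 y.1 + dd s := by
    intro x y
    rw [hkS, hkT, kappa_eq]
    unfold dd; rw [P.mR]; ring
  have hq : ∀ x y, q x y = (nn true false x.1 y.1 : ℤ) + nn false true x.1 y.1 := by
    intro x y; simp only [q, nq_eq]; push_cast; ring
  have hqn : ∀ x y, q x y ≤ Fintype.card V := fun x y => by
    simp only [q]; exact_mod_cast nq_le x.1 y.1
  -- a state with the largest `q` on each level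
  have hmaxr : ∀ j : ℕ, (2 * r : ℤ) - Fintype.card V + j ≤ dd s → ∃ x y,
      (nn true false x.1 y.1 : ℤ) = r ∧
      S.k x + T.k y = (2 * r : ℤ) - Fintype.card V + j + dd s := by
    intro j
    induction j with
    | zero =>
      intro _
      obtain ⟨x, y, hx, hy, h1, h2⟩ := htop r h2r le_rfl
      refine ⟨⟨x, hx⟩, ⟨y, hy⟩, by exact_mod_cast h1, ?_⟩
      rw [hlev]
      simp only
      have : (nn false true x y : ℤ) + r = Fintype.card V := by exact_mod_cast h2
      rw [h1]; push_cast; linarith
    | succ j ih =>
      intro hj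
      push_cast at hj
      obtain ⟨x, y, h1, h2⟩ := ih (by linarith)
      have h3 := S.hi x
      have h4 := T.hi y
      by_cases hx : S.k x < dd s
      · obtain ⟨x', h5, h6⟩ := S.up x hx
        have h7 := hqS x x' y h5
        have h8 := hr x'.1 y.1 x'.2 y.2
        have e1 := hlev x y
        have e2 := hlev x' y
        have e3 := hq x y
        have e4 := hq x' y
        refine ⟨x', y, ?_, by push_cast; linarith⟩
        rw [h6] at e2
        rcases h7 with h7 | h7 <;> omega
      · have hx' : S.k x = dd s := by linarith
        have hy : T.k y < dd s := by linarith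
        obtain ⟨y', h5, h6⟩ := T.up y hy
        have h7 := hqT x y y' h5
        have h8 := hr x.1 y'.1 x.2 y'.2
        have e1 := hlev x y
        have e2 := hlev x y'
        have e3 := hq x y
        have e4 := hq x y'
        refine ⟨x, y', ?_, by push_cast; linarith⟩
        rw [h6] at e2
        rcases h7 with h7 | h7 <;> omega
  have hmax : ∃ x y, S.k x + T.k y = a - b + dd s ∧ a + b ≤ q x y := by
    by_cases h1 : a - b ≤ (2 * r : ℤ) - Fintype.card V
    · by_cases h2 : 2 ∣ (a - b - Fintype.card V)
      · obtain ⟨c, hc⟩ := h2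
        have hc0 : 0 ≤ (Fintype.card V : ℤ) + c := by omega
        obtain ⟨m, hm⟩ := Int.eq_ofNat_of_zero_le hc0
        obtain ⟨x, y, hx, hy, h3, h4⟩ := htop m (by omega) (by omega)
        refine ⟨⟨x, hx⟩, ⟨y, hy⟩, ?_, ?_⟩
        · rw [hlev]; simp only; omega
        · rw [hq]; simp only; omega
      · have h2' : (a - b - Fintype.card V) % 2 = 1 := by omega
        have h5 : (a - b + 1 - Fintype.card V) % 2 = 0 := by omega
        obtain ⟨c, hc⟩ : 2 ∣ (a - b + 1 - Fintype.card V) := Int.dvd_of_emod_eq_zero h5
        have hc0 : 0 ≤ (Fintype.card V : ℤ) + c := by omega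
        obtain ⟨m, hm⟩ := Int.eq_ofNat_of_zero_le hc0
        obtain ⟨x, y, hx, hy, h3, h4⟩ := htop m (by omega) (by omega)
        have e1 := hlev ⟨x, hx⟩ ⟨y, hy⟩
        have e3 := hq ⟨x, hx⟩ ⟨y, hy⟩
        simp only at e1 e3
        have hdd : 0 ≤ dd s := by
          have := S.lo ⟨x, hx⟩
          have := S.hi ⟨x, hx⟩
          linarith
        by_cases h6 : 0 < S.k ⟨x, hx⟩
        · obtain ⟨x', h7, h8⟩ := S.dn ⟨x, hx⟩ h6
          have h9 := hqS _ x' ⟨y, hy⟩ h7
          refine ⟨x', ⟨y, hy⟩, ?_, ?_⟩
          · rw [h8]; omega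
          · rcases h9 with h9 | h9 <;> omega
        · have h7 := S.lo ⟨x, hx⟩
          have h8 : 0 < T.k ⟨y, hy⟩ := by omega
          obtain ⟨y', h9, h10⟩ := T.dn ⟨y, hy⟩ h8
          have h11 := hqT ⟨x, hx⟩ _ y' h9
          refine ⟨⟨x, hx⟩, y', ?_, ?_⟩
          · rw [h10]; omega
          · rcases h11 with h11 | h11 <;> omega
    · push Not at h1
      obtain ⟨j, hj⟩ := Int.eq_ofNat_of_zero_le
        (show 0 ≤ a - b - ((2 * r : ℤ) - Fintype.card V) by linarith)
      obtain ⟨x, y, h2, h3⟩ := hmaxr j (by rw [← hj]; linarith)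
      refine ⟨x, y, by rw [h3, ← hj]; ring, ?_⟩
      have e1 := hlev x y
      have e3 := hq x y
      rw [h3, ← hj] at e1
      omega
  obtain ⟨x', y', h1, h2⟩ := hmax
  obtain ⟨x, y, hx, hy, h3, h4⟩ := hbot (a - b) (by linarith) hd
  have e1 := hlev ⟨x, hx⟩ ⟨y, hy⟩
  have e3 := hq ⟨x, hx⟩ ⟨y, hy⟩
  simp only at e1 e3
  rw [h3, h4] at e1 e3
  obtain ⟨x'', y'', h5, h6⟩ := interval S T q hqS hqT hST hTT ⟨x, hx⟩ x' ⟨y, hy⟩ y'
    (by rw [e1]; push_cast; linarith) (by rw [e1, h1]; push_cast; ring) (a + b)
    (by rw [e3]; push_cast; linarith) h2 ⟨b, by rw [e3]; push_cast; ring⟩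
  have e5 := hlev x'' y''
  have e6 := hq x'' y''
  refine ⟨x''.1, y''.1, x''.2, y''.2, ?_, ?_⟩
  · push_cast at e1; omega
  · push_cast at e1; omega


theorem kappa_le (P : PieceData s t) {x y : V → Bool} (hx : Acyc s x) (hy : Acyc t y) :
    (nn true false x y : ℤ) - nn false true x y ≤ dd s := by
  have h1 := kappa_eq x y
  have h2 := mn_le (lab := fun _ => true) hx
  have h3 := mn_le (lab := fun _ => false) hy
  have h4 := low_add x (fun _ => true)
  have h5 := low_add y (fun _ => false)
  have h6 := P.mL
  simp only [Bool.not_true, Bool.not_false] at h4 h5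
  unfold dd
  omega

/-- the bottom chain: raise `x` and lower `y` from a common state `w` -/
theorem chain (P : PieceData s t) {w : V → Bool} (hws : Acyc s w) (hwt : Acyc t w) (k : ℕ) :
    (k : ℤ) ≤ dd s → ∃ x y, Acyc s x ∧ Acyc t y ∧ (∀ v, w v = true → x v = true) ∧
      (∀ v, y v = true → w v = true) ∧ nn true false x y = k ∧ nn false true x y = 0 := by
  have hz : ∀ x y : V → Bool, (∀ v, w v = true → x v = true) → (∀ v, y v = true → w v = true) →
      nn false true x y = 0 := by
    intro x y h1 h2
    unfold nn
    rw [card_eq_zero, filter_eq_empty_iff]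
    rintro v _ ⟨h3, h4⟩
    rw [h1 v (h2 v h4)] at h3
    simp at h3
  induction k with
  | zero =>
    intro _
    refine ⟨w, w, hws, hwt, fun _ h => h, fun _ h => h, ?_, ?_⟩
    · unfold nn
      rw [card_eq_zero, filter_eq_empty_iff]
      rintro v _ ⟨h1, h2⟩
      rw [h1] at h2; simp at h2
    · exact hz w w (fun _ h => h) (fun _ h => h)
  | succ k ih =>
    intro hk
    push_cast at hk
    obtain ⟨x, y, hx, hy, h1, h2, h3, h4⟩ := ih (by linarith)
    have e := kappa_eq x y
    rw [h3, h4] at e
    by_cases hxl : mn s (fun _ => true) < low (fun _ => true) x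
    · obtain ⟨u, hu, ha⟩ := raise_of_not_top hx (lab := fun _ => true) (fun hT => by
        have := low_top P.sR hx hT; omega)
      have e2 := kappa_eq (update x u true) y
      have e3 := low_update_lower (lab := fun _ => false) (x := x) (u := u) (by simpa using hu)
      simp only [Bool.not_false] at e3
      have h5 := hz (update x u true) y (fun v hv => by
        by_cases h : v = u
        · subst h; simp
        · rw [update_of_ne h]; exact h1 v hv) h2
      refine ⟨update x u true, y, ha, hy, fun v hv => ?_, h2, ?_, h5⟩
      · by_cases h : v = u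
        · subst h; simp
        · rw [update_of_ne h]; exact h1 v hv
      · rw [h5, e3] at e2; push_cast at e e2; omega
    · have hyl : mn t (fun _ => false) < low (fun _ => false) y := by
        by_contra hcon
        have h6 := mn_le (lab := fun _ => true) hx
        have h7 := mn_le (lab := fun _ => false) hy
        have h8 := low_add x (fun _ => true)
        have h9 := low_add y (fun _ => false)
        have h10 := P.mL
        simp only [Bool.not_true, Bool.not_false] at h8 h9
        unfold dd at hk
        push_cast at e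
        omega
      obtain ⟨u, hu, ha⟩ := raise_of_not_top hy (lab := fun _ => false) (fun hT => by
        have := low_top P.tL hy hT; omega)
      have e2 := kappa_eq x (update y u false)
      have e3 := low_update_lower (lab := fun _ => true) (x := y) (u := u) (by simpa using hu)
      simp only [Bool.not_true] at e3
      have h2' : ∀ v, update y u false v = true → w v = true := by
        intro v hv
        by_cases h : v = u
        · subst h; simp at hv
        · rw [update_of_ne h] at hv; exact h2 v hv
      have h5 := hz x (update y u false) h1 h2'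
      refine ⟨x, update y u false, hx, ha, h1, h2', ?_, h5⟩
      rw [h5, e3] at e2; push_cast at e e2; omega

/-- Support of the pairs of a special piece. -/
theorem special_support (P : PieceData s t) (r : ℕ)
    (hrA : ∀ x y, Acyc s x → Acyc t y → nn true false x y ≤ r)
    (hrB : ∀ x y, Acyc s x → Acyc t y → nn false true x y ≤ r)
    (w : V → Bool) (hws : Acyc s w) (hwt : Acyc t w)
    (htop : ∀ a b : ℕ, a + b = Fintype.card V → a ≤ r → b ≤ r → ∃ x y, Acyc s x ∧ Acyc t y ∧
      nn true false x y = a ∧ nn false true x y = b)
    (h2r : Fintype.card V ≤ 2 * r) (hrn : r ≤ Fintype.card V) (a b : ℤ) :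
    (∃ x y, Acyc s x ∧ Acyc t y ∧ (nn true false x y : ℤ) = a ∧ (nn false true x y : ℤ) = b) ↔
      0 ≤ a ∧ 0 ≤ b ∧ a ≤ r ∧ b ≤ r ∧ a + b ≤ Fintype.card V ∧ a - b ≤ dd s ∧ b - a ≤ dd s := by
  constructor
  · rintro ⟨x, y, hx, hy, rfl, rfl⟩
    have h1 := hrA x y hx hy
    have h2 := hrB x y hx hy
    have h3 := nq_le x y
    rw [nq_eq] at h3
    have h4 := kappa_le P hx hy
    have h5 := kappa_le P.swap (acyc_sw hx) (acyc_sw hy)
    rw [dd_sw, nn_not, nn_not] at h5
    simp only [Bool.not_true, Bool.not_false] at h5
    refine ⟨by positivity, by positivity, by exact_mod_cast h1, by exact_mod_cast h2,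
      by exact_mod_cast h3, h4, h5⟩
  · rintro ⟨ha0, hb0, har, hbr, hab, hd1, hd2⟩
    rcases le_total b a with h | h
    · refine half P r hrA ?_ ?_ h2r a b hb0 h har hab hd1
      · intro k hk0 hkd
        obtain ⟨m, rfl⟩ := Int.eq_ofNat_of_zero_le hk0
        obtain ⟨x, y, hx, hy, _, _, h3, h4⟩ := chain P hws hwt m hkd
        exact ⟨x, y, hx, hy, by exact_mod_cast h3, h4⟩
      · intro c hc1 hc2
        obtain ⟨x, y, hx, hy, h3, h4⟩ := htop c (Fintype.card V - c) (by omega) hc2 (by omega)
        exact ⟨x, y, hx, hy, h3, by omega⟩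
    · have hh := half P.swap r ?_ ?_ ?_ h2r b a ha0 h hbr (by linarith) (by rw [dd_sw]; exact hd2)
      · obtain ⟨x, y, hx, hy, h3, h4⟩ := hh
        have h5 := acyc_sw hx
        have h6 := acyc_sw hy
        rw [sw_sw] at h5 h6
        refine ⟨_, _, h5, h6, ?_, ?_⟩
        · rw [nn_not]; simpa using h4
        · rw [nn_not]; simpa using h3
      · intro x y hx hy
        have h5 := acyc_sw hx
        have h6 := acyc_sw hy
        rw [sw_sw] at h5 h6
        have := hrB _ _ h5 h6
        rw [nn_not] at this
        simpa using this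
      · intro k hk0 hkd
        obtain ⟨m, rfl⟩ := Int.eq_ofNat_of_zero_le hk0
        obtain ⟨x, y, hx, hy, _, _, h3, h4⟩ := chain P.swap (acyc_sw hws) (acyc_sw hwt) m hkd
        exact ⟨x, y, hx, hy, by exact_mod_cast h3, h4⟩
      · intro c hc1 hc2
        obtain ⟨x, y, hx, hy, h3, h4⟩ := htop (Fintype.card V - c) c (by omega) (by omega) hc2
        refine ⟨_, _, acyc_sw hx, acyc_sw hy, ?_, ?_⟩
        · rw [nn_not]; simpa using h4
        · rw [nn_not]; simp only [Bool.not_true, Bool.not_false]; omega


/-- `t` is the inverse of `s` along each of the two kinds of circles -/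
def Inv (s t : V → Bool → Option V) : Prop := ∀ u v b, s v b = some u ↔ t u b = some v

omit [Fintype V] [DecidableEq V] in
theorem Inv.symm (h : Inv s t) : Inv t s := fun u v b => (h v u b).symm

omit [Fintype V] [DecidableEq V] in
theorem par_inj (h : Inv s t) (b : Bool) {o o' : Option V} {v : V}
    (h1 : par s (fun _ => b) o = some v) (h2 : par s (fun _ => b) o' = some v) : o = o' := by
  cases o with
  | none => simp at h1
  | some u =>
    cases o' with
    | none => simp at h2
    | some u' =>
      simp only [par_some] at h1 h2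
      have e1 := (h v u b).1 h1
      have e2 := (h v u' b).1 h2
      rw [e1] at e2
      exact e2

omit [Fintype V] [DecidableEq V] in
theorem iter_inj (h : Inv s t) (b : Bool) (n : ℕ) : ∀ {o o' : Option V} {v : V},
    (par s (fun _ => b))^[n] o = some v → (par s (fun _ => b))^[n] o' = some v → o = o' := by
  induction n with
  | zero => intro o o' v h1 h2; simp at h1 h2; rw [h1, h2]
  | succ n ih =>
    intro o o' v h1 h2
    rw [iterate_succ_apply] at h1 h2
    have h3 : par s (fun _ => b) o = par s (fun _ => b) o' := ih h1 h2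
    cases h4 : par s (fun _ => b) o with
    | none => rw [h4, iter_none] at h1; simp at h1
    | some u => exact par_inj h b h4 (by rw [← h3, h4])

omit [DecidableEq V] in
theorem Inv.circular (h : Inv s t) (b : Bool) : Circular s (fun _ => b) := by
  classical
  intro v
  by_cases hn : ∃ n, (par s (fun _ => b))^[n] (some v) = none
  · exact Or.inl hn
  · right
    push Not at hn
    have hne : ∀ n, ∃ u, (par s (fun _ => b))^[n] (some v) = some u := fun n =>
      Option.ne_none_iff_exists'.1 (hn n)
    choose f hf using hne
    obtain ⟨i, j, hij, hfij⟩ := Finite.exists_ne_map_eq_of_infinite f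
    wlog hlt : i < j generalizing i j
    · exact this j i hij.symm hfij.symm (by omega)
    refine ⟨j - i, by omega, ?_⟩
    apply iter_inj h b i (v := f i)
    · rw [← iterate_add_apply, show i + (j - i) = j by omega, hf j, hfij]
    · exact hf i

omit [Fintype V] [DecidableEq V] in
theorem Inv.iter (h : Inv s t) (b : Bool) (n : ℕ) : ∀ {u v : V},
    (par s (fun _ => b))^[n] (some v) = some u → (par t (fun _ => b))^[n] (some u) = some v := by
  induction n with
  | zero => intro u v h1; simp at h1 ⊢; exact h1.symm
  | succ n ih =>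
    intro u v h1
    rw [iterate_succ_apply'] at h1
    cases h2 : (par s (fun _ => b))^[n] (some v) with
    | none => rw [h2] at h1; simp at h1
    | some w =>
      rw [h2, par_some] at h1
      rw [iterate_succ_apply, par_some, (h u w b).1 h1]
      exact ih h2

omit [Fintype V] [DecidableEq V] in
theorem Inv.per (h : Inv s t) (b : Bool) {v : V} (hv : Per s (fun _ => b) v) :
    Per t (fun _ => b) v := by
  obtain ⟨p, hp, h1⟩ := hv
  exact ⟨p, hp, h.iter b p h1⟩

omit [Fintype V] [DecidableEq V] in
theorem Inv.sc (h : Inv s t) (b : Bool) {v u : V} (hv : SC s (fun _ => b) v u) :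
    SC t (fun _ => b) u v := by
  obtain ⟨q, hq⟩ := hv
  exact ⟨q, h.iter b q hq⟩

omit [DecidableEq V] in
theorem Inv.low_le (h : Inv s t) (b : Bool) {x y : V → Bool} (hT : Top (fun _ => b) s x)
    (hy : Acyc t y) : low (fun _ => b) x ≤ low (fun _ => b) y := by
  classical
  have hex : ∀ v, ∃ u, x v ≠ b → (SC t (fun _ => b) v u ∧ y u ≠ b) := by
    intro v
    by_cases hv : x v = b
    · exact ⟨v, fun h => absurd hv h⟩
    · obtain ⟨u, hu⟩ := exists_low (fun _ => b) hy
        (h.per b (Top.per (fun _ => b) hT (h.circular b) hv))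
      exact ⟨u, fun _ => hu⟩
  choose f hf using hex
  unfold low
  apply card_le_card_of_injOn f
  · intro v hv
    simp only [coe_filter, mem_univ, true_and, Set.mem_setOf_eq] at hv ⊢
    exact (hf v hv).2
  · intro v hv v' hv' hff
    simp only [coe_filter, mem_univ, true_and, Set.mem_setOf_eq] at hv hv'
    have h1 := (hf v hv).1
    have h2 := (hf v' hv').1
    rw [← hff] at h2
    have h3 : SC s (fun _ => b) (f v) v := h.symm.sc b h1
    have h4 : SC s (fun _ => b) (f v) v' := h.symm.sc b h2
    have hp : Per s (fun _ => b) v := Top.per (fun _ => b) hT (h.circular b) hv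
    have hp' : Per s (fun _ => b) (f v) :=
      h.symm.per b (Per.of_SC (fun _ => b) (h.per b hp) h1)
    exact Top.unique (fun _ => b) hT (h.circular b) hv hv'
      ((SC.symm (fun _ => b) hp' h3).trans (fun _ => b) h4)

theorem Inv.mn_le (h : Inv s t) (b : Bool) {w w' : V → Bool} (hws : Acyc s w) (hwt : Acyc t w') :
    mn s (fun _ => b) ≤ mn t (fun _ => b) := by
  obtain ⟨x, _, hx, _, hT, _⟩ := walk_raise (fun _ => b) (fun _ => True)
    (fun _ _ _ _ _ => trivial) hws trivial
  have hne : {n | ∃ y, Acyc t y ∧ low (fun _ => b) y = n}.Nonempty := ⟨_, w', hwt, rfl⟩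
  obtain ⟨y, hy, hyn⟩ := Nat.sInf_mem hne
  have h1 := h.low_le b hT hy
  have h2 := Oct.mn_le (lab := fun _ => b) hx
  rw [hyn] at h1
  exact h2.trans h1

theorem Inv.pieceData (h : Inv s t) {w w' : V → Bool} (hws : Acyc s w) (hwt : Acyc t w') :
    PieceData s t where
  sR := h.circular true
  sL := h.circular false
  tR := h.symm.circular true
  tL := h.symm.circular false
  mR := le_antisymm (h.mn_le true hws hwt) (h.symm.mn_le true hwt hws)
  mL := le_antisymm (h.mn_le false hws hwt) (h.symm.mn_le false hwt hws)

end PoolLib.MP_3cd99b_gt.Oct
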