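import Pool.Agent.Lib.MP_3cd99b_gt.Top
import Pool.Agent.Lib.MP_3cd99b_gt.SP

/-!
# The special piece theorem in the data form of `Top` (P2, MP_3cd99b_gt)

For one piece with crossings `E`, next maps `σ`, circles `circ : E → Bool → V`, the pairs of states fill the lattice
points of the octagon `0 ≤ a, b ≤ r`, `a + b ≤ |E|`, `|a - b| ≤ |E| + 1 - |V|`, where `r` is the largest number of
edges directed from left to right in a strongly connected orientation: independent of the cut.
-/

set_option linter.unusedSectionVars false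

namespace LG3P.Top

open Finset Function PoolLib.MP_3cd99b_gt.Oct LG3P.Gr

variable {E : Type*} [Fintype E] [DecidableEq E] {V : Type*} [Fintype V]

/-- a special piece: next maps, circles, faces; no bridge; planarity in the form `pl` -/
structure Piece (σ : Bool → Equiv.Perm E) (circ : E → Bool → V) {Fc : Type*} (fc : E × Bool → Fc) : Prop where
  orb : ∀ c c' b, circ c b = circ c' b ↔ (σ b).SameCycle c c'
  surj : ∀ v, ∃ c b, circ c b = v
  ne : ∀ c c', circ c true ≠ circ c' false
  face : ∀ z z', fc z = fc z' ↔ (phi σ).SameCycle z z'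
  conn : ∀ T : Set E, T.Nonempty → (∀ c ∈ T, ∀ b, σ b c ∈ T) → T = Set.univ
  bl : Bridgeless (fun c => circ c false) (fun c => circ c true)
  pl : ∀ O, Strong (fun c => circ c false) (fun c => circ c true) O →
    ∃ h : Fc → ℤ, ∀ c, h (fc (c, O c)) < h (fc (c, !O c))

/-- the largest number of edges from left to right in a strongly connected orientation -/
noncomputable def rr (circ : E → Bool → V) : ℕ :=
  sSup {n : ℕ | ∃ O, Strong (fun c => circ c false) (fun c => circ c true) O ∧
    (univ.filter fun c => O c = true).card = n}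

theorem A_eq (O : E → Bool) : A O = ((univ.filter fun c => O c = true).card : ℤ) := by
  unfold A
  rw [card_filter]
  push_cast
  rfl

theorem inv_sx_sy (σ : Bool → Equiv.Perm E) (c0 : E) (b0 : Bool) : Inv (sx σ c0 b0) (sy σ c0 b0) := by
  intro u v b
  unfold sx sy
  constructor
  · intro h
    split_ifs at h with h1
    have h2 : σ b v = u := Option.some.inj h
    have h3 : ¬ (u = σ b0 c0 ∧ b = b0) := by
      rintro ⟨h4, rfl⟩
      rw [← h2] at h4
      exact h1 ⟨(σ b).injective h4, rfl⟩
    rw [if_neg h3, ← h2, Equiv.symm_apply_apply]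
  · intro h
    split_ifs at h with h1
    have h2 : (σ b).symm u = v := Option.some.inj h
    have h3 : ¬ (v = c0 ∧ b = b0) := by
      rintro ⟨rfl, rfl⟩
      exact h1 ⟨by rw [← h2, Equiv.apply_symm_apply], rfl⟩
    rw [if_neg h3, ← h2, Equiv.apply_symm_apply]

namespace Piece

variable {σ : Bool → Equiv.Perm E} {circ : E → Bool → V} {Fc : Type*} {fc : E × Bool → Fc}

theorem hcirc (P : Piece σ circ fc) (c : E) (b : Bool) : circ (σ b c) b = circ c b := by
  rw [P.orb]
  exact (Equiv.Perm.SameCycle.symm ⟨1, by simp⟩)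

theorem exists_strong (P : Piece σ circ fc) :
    ∃ O, Strong (fun c => circ c false) (fun c => circ c true) O := by
  obtain ⟨O, hO, _⟩ := boesch_tindell P.bl ∅ (by
    intro S hS1 hS2
    right
    by_contra hcon
    push Not at hcon
    have hT : {c : E | circ c false ∈ S} = Set.univ := by
      apply P.conn
      · obtain ⟨v, hv⟩ := hS1
        obtain ⟨c, b, rfl⟩ := P.surj v
        refine ⟨c, ?_⟩
        show circ c false ∈ S
        cases b
        · exact hv
        · by_contra h
          exact h ((hcon c (by simp)).2 hv)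
      · intro c hc b
        show circ (σ b c) false ∈ S
        have hc' : circ c false ∈ S := hc
        cases b
        · rw [P.hcirc]; exact hc'
        · have h1 : circ c true ∈ S := (hcon c (by simp)).1 hc'
          have h2 : circ (σ true c) true ∈ S := by rw [P.hcirc]; exact h1
          exact (hcon (σ true c) (by simp)).2 h2
    apply hS2
    rw [Set.eq_univ_iff_forall]
    intro v
    obtain ⟨c, b, rfl⟩ := P.surj v
    have h1 : c ∈ {c : E | circ c false ∈ S} := by rw [hT]; exact Set.mem_univ _
    have h1' : circ c false ∈ S := h1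
    cases b
    · exact h1'
    · exact (hcon c (by simp)).1 h1')
  exact ⟨O, hO⟩

theorem rr_spec (P : Piece σ circ fc) :
    (∃ O, Strong (fun c => circ c false) (fun c => circ c true) O ∧ A O = rr circ) ∧
      ∀ O, Strong (fun c => circ c false) (fun c => circ c true) O → A O ≤ rr circ := by
  have hbdd : BddAbove {n : ℕ | ∃ O, Strong (fun c => circ c false) (fun c => circ c true) O ∧
      (univ.filter fun c => O c = true).card = n} := by
    refine ⟨Fintype.card E, ?_⟩
    rintro n ⟨O, _, rfl⟩
    exact card_le_univ _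
  constructor
  · obtain ⟨O0, hO0⟩ := P.exists_strong
    have h1 := Nat.sSup_mem (s := {n : ℕ | ∃ O, Strong (fun c => circ c false) (fun c => circ c true) O ∧
      (univ.filter fun c => O c = true).card = n}) ⟨_, O0, hO0, rfl⟩ hbdd
    obtain ⟨O, hO, h2⟩ := h1
    refine ⟨O, hO, ?_⟩
    rw [A_eq, h2]
    rfl
  · intro O hO
    rw [A_eq]
    exact_mod_cast le_csSup hbdd ⟨O, hO, rfl⟩

theorem two_rr (P : Piece σ circ fc) : Fintype.card E ≤ 2 * rr circ ∧ rr circ ≤ Fintype.card E := by
  obtain ⟨⟨O, hO, h1⟩, h2⟩ := P.rr_spec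
  have h3 := h2 _ (strong_neg hO)
  rw [A_neg, h1] at h3
  have h4 : A O ≤ Fintype.card E := by
    rw [A_eq]
    exact_mod_cast card_le_univ _
  rw [h1] at h4
  constructor
  · have : (Fintype.card E : ℤ) ≤ 2 * rr circ := by linarith
    exact_mod_cast this
  · exact_mod_cast h4

/-- the chain along a circle -/
theorem par_pow (σ : Bool → Equiv.Perm E) (c0 : E) (b0 b : Bool) (c : E) (n : ℕ)
    (h : (par (sx σ c0 b0) (fun _ => b))^[n] (some c) ≠ none) :
    (par (sx σ c0 b0) (fun _ => b))^[n] (some c) = some ((σ b ^ n) c) := by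
  induction n with
  | zero => rfl
  | succ n ih =>
    rw [iterate_succ_apply'] at h ⊢
    have h1 : (par (sx σ c0 b0) (fun _ => b))^[n] (some c) ≠ none := by
      intro h2
      rw [h2] at h
      exact h rfl
    rw [ih h1] at h ⊢
    rw [par_some] at h ⊢
    unfold sx at h ⊢
    split_ifs at h ⊢ with h2
    · exact absurd rfl h
    · rw [pow_succ', Equiv.Perm.mul_apply]

/-- the number of letters different from `b` in a top state: the uncut circles of type `b` -/
theorem mn_eq [DecidableEq V] (P : Piece σ circ fc) (c0 : E) (b0 : Bool) (w : E → Bool)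
    (hw : Acyc (sx σ c0 b0) w) (b : Bool) :
    mn (sx σ c0 b0) (fun _ => b) = (univ.filter fun v => (∃ c, circ c b = v) ∧ v ≠ circ c0 b0).card := by
  have hI := inv_sx_sy σ c0 b0
  obtain ⟨x, _, hx, _, hT, _⟩ := walk_raise (fun _ => b) (fun _ => True) (fun _ _ _ _ _ => trivial) hw trivial
  have hc := hI.circular b
  apply le_antisymm
  · rw [← low_top hc hx hT]
    unfold low
    refine card_le_card_of_injOn (fun c => circ c b) ?_ ?_
    · intro c hcm
      have hcm : x c ≠ b := (mem_filter.mp hcm).2
      simp only [coe_filter, mem_univ, true_and, Set.mem_ofPred_eq]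
      refine ⟨⟨c, rfl⟩, ?_⟩
      intro h1
      have hb : b = b0 := by
        cases b <;> cases b0 <;> first | rfl | exact absurd h1 (P.ne _ _) | exact absurd h1.symm (P.ne _ _)
      subst hb
      obtain ⟨n, hn⟩ := ((P.orb _ _ _).mp h1).exists_nat_pow_eq
      have h2 := hT.1 c hcm n
      have h3 := par_pow σ c0 b b c n h2
      apply hT.1 c hcm (n + 1)
      rw [iterate_succ_apply', h3, hn, par_some]
      simp [sx]
    · intro c hcm c' hcm' h1
      have hcm : x c ≠ b := (mem_filter.mp hcm).2
      have hcm' : x c' ≠ b := (mem_filter.mp hcm').2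
      obtain ⟨n, hn⟩ := ((P.orb _ _ _).mp h1).exists_nat_pow_eq
      have h2 := hT.1 c hcm n
      have h3 := par_pow σ c0 b0 b c n h2
      exact Top.unique (fun _ => b) hT hc hcm hcm' ⟨n, by rw [h3, hn]⟩
  · rw [← low_top hc hx hT]
    unfold low
    have key : ∀ v ∈ univ.filter (fun v => (∃ c, circ c b = v) ∧ v ≠ circ c0 b0),
        ∃ e ∈ univ.filter (fun e => x e ≠ b), circ e b = v := by
      intro v hv
      obtain ⟨⟨c, rfl⟩, hv⟩ := (mem_filter.mp hv).2
      obtain ⟨e, he1, he2⟩ := leave_x P.hcirc hx {circ c b} ⟨c, b, rfl⟩ (fun h => hv h.symm)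
      have he1 : circ e (!x e) = circ c b := he1
      have hb : (!x e) = b := by
        cases h1 : x e <;> cases b <;> simp only [h1, Bool.not_false, Bool.not_true] at he1 ⊢
        · exact absurd he1 (P.ne _ _)
        · exact absurd he1.symm (P.ne _ _)
      refine ⟨e, mem_filter.mpr ⟨mem_univ _, ?_⟩, ?_⟩
      · rw [← hb]
        cases x e <;> simp
      · rw [← hb]
        rw [hb] at he1 ⊢
        exact he1
    have : Nonempty E := ⟨c0⟩
    choose! f hf1 hf2 using key
    refine card_le_card_of_injOn f (fun v hv => hf1 v hv) ?_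
    intro v hv v' hv' h1
    rw [← hf2 v hv, ← hf2 v' hv', h1]

/-- the rank of a piece is independent of the cut -/
theorem dd_eq (P : Piece σ circ fc) (c0 : E) (b0 : Bool) (w : E → Bool) (hw : Acyc (sx σ c0 b0) w) :
    dd (sx σ c0 b0) = (Fintype.card E : ℤ) + 1 - Fintype.card V := by
  classical
  unfold dd
  rw [P.mn_eq c0 b0 w hw true, P.mn_eq c0 b0 w hw false]
  have h1 : (univ.filter fun v => (∃ c, circ c true = v) ∧ v ≠ circ c0 b0) ∪
      (univ.filter fun v => (∃ c, circ c false = v) ∧ v ≠ circ c0 b0) = univ.erase (circ c0 b0) := by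
    ext v
    simp only [mem_union, mem_filter, mem_univ, true_and, mem_erase, and_true]
    constructor
    · rintro (⟨_, h⟩ | ⟨_, h⟩) <;> exact h
    · intro h
      obtain ⟨c, b, rfl⟩ := P.surj v
      cases b
      · exact Or.inr ⟨⟨c, rfl⟩, h⟩
      · exact Or.inl ⟨⟨c, rfl⟩, h⟩
  have h2 : Disjoint (univ.filter fun v => (∃ c, circ c true = v) ∧ v ≠ circ c0 b0)
      (univ.filter fun v => (∃ c, circ c false = v) ∧ v ≠ circ c0 b0) := by
    rw [disjoint_left]
    rintro v h3 h4
    obtain ⟨⟨c, rfl⟩, _⟩ := (mem_filter.mp h3).2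
    obtain ⟨⟨c', h5⟩, _⟩ := (mem_filter.mp h4).2
    exact P.ne _ _ h5.symm
  have h3 := card_union_of_disjoint h2
  rw [h1, card_erase_of_mem (mem_univ _), card_univ] at h3
  have h4 : 0 < Fintype.card V := Fintype.card_pos_iff.mpr ⟨circ c0 b0⟩
  have h5 : ((Fintype.card V : ℤ) - 1) =
      ((univ.filter fun v => (∃ c, circ c true = v) ∧ v ≠ circ c0 b0).card : ℤ) +
        ((univ.filter fun v => (∃ c, circ c false = v) ∧ v ≠ circ c0 b0).card : ℤ) := by
    rw [← Nat.cast_add, ← h3]
    push_cast [Nat.cast_sub (show 1 ≤ Fintype.card V from h4)]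
    ring
  linarith

/-- **The special piece theorem**, with parameters independent of the cut. -/
theorem octagon (P : Piece σ circ fc) (c0 : E) (b0 : Bool) (w : E → Bool) (hws : Acyc (sx σ c0 b0) w)
    (hwt : Acyc (sy σ c0 b0) w) (a b : ℤ) :
    (∃ x y, Acyc (sx σ c0 b0) x ∧ Acyc (sy σ c0 b0) y ∧ (nn true false x y : ℤ) = a ∧
      (nn false true x y : ℤ) = b) ↔
      0 ≤ a ∧ 0 ≤ b ∧ a ≤ rr circ ∧ b ≤ rr circ ∧ a + b ≤ Fintype.card E ∧
        a - b ≤ (Fintype.card E : ℤ) + 1 - Fintype.card V ∧
        b - a ≤ (Fintype.card E : ℤ) + 1 - Fintype.card V := by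
  classical
  have hI := inv_sx_sy σ c0 b0
  obtain ⟨⟨O₀, hO₀, h1⟩, h2⟩ := P.rr_spec
  have hcol : ∀ v : V, (if ∃ c, circ c false = v then (1 : ℤ) else 0) = 0 ∨
      (if ∃ c, circ c false = v then (1 : ℤ) else 0) = 1 := by
    intro v
    split_ifs
    · exact Or.inr rfl
    · exact Or.inl rfl
  rw [← P.dd_eq c0 b0 w hws]
  refine special_support (hI.pieceData hws hwt) (rr circ) ?_ ?_ w hws hwt ?_ P.two_rr.1 P.two_rr.2 a b
  · intro x y hx hy
    have h3 := A_le P.hcirc P.surj P.bl h2 hx hy
    exact_mod_cast h3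
  · intro x y hx hy
    have h3 := B_le P.hcirc P.surj P.bl h2 hx hy
    exact_mod_cast h3
  · intro a' b' h3 h4 h5
    obtain ⟨O, hOx, hOy, hA⟩ := top_row (σ := σ) (c0 := c0) (b0 := b0) fc P.face P.conn
      (fun v => if ∃ c, circ c false = v then (1 : ℤ) else 0) hcol
      (fun c => if_pos ⟨c, rfl⟩)
      (fun c => if_neg (by
        rintro ⟨c', h⟩
        exact P.ne _ _ h.symm)) P.pl O₀ hO₀ (a' : ℤ) (by rw [h1]; push_cast [← h3]; linarith)
      (by rw [h1]; exact_mod_cast h4)
    refine ⟨O, fun c => !O c, hOx, hOy, ?_, ?_⟩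
    · rw [A_eq] at hA
      have : nn true false O (fun c => !O c) = (univ.filter fun c => O c = true).card := by
        unfold nn
        congr 1
        ext c
        simp
      rw [this]
      exact_mod_cast hA
    · have h6 : nn true false O (fun c => !O c) + nn false true O (fun c => !O c) = Fintype.card E := by
        rw [← nq_eq]
        unfold nq
        rw [← card_univ]
        congr 1
        ext c
        simp
      have h7 : nn true false O (fun c => !O c) = a' := by
        rw [A_eq] at hA
        have : nn true false O (fun c => !O c) = (univ.filter fun c => O c = true).card := by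
          unfold nn
          congr 1
          ext c
          simp
        rw [this]
        exact_mod_cast hA
      omega

end Piece

end LG3P.Top
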