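import Pool.Agent.Lib.MP_3cd99b_gt.Ch
import Pool.Agent.Lib.MP_3cd99b_gt.Pc

/-!
What the mixed assembly needs from one special piece: ranks with the exit property for `w`, for the chain pairs, for
the pairs with the largest `A - B`, and arbitrary pairs of the octagon.
-/

namespace PoolLib.MP_3cd99b_gt.Oct

open Function Finset Relation LG3P.Top LG3P.Gr

variable {E I : Type*} [Fintype E] [DecidableEq E] [Fintype I]

omit [Fintype E] in
theorem iter_sx_off (σ : Bool → Equiv.Perm E) (c0 : E) (b0 : Bool) (b : Bool) (v : E) (n : ℕ)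
    (h : ∀ m < n, ¬ (((σ b) ^ m) v = c0 ∧ b = b0)) :
    (par (sx σ c0 b0) (fun _ => b))^[n] (some v) = some (((σ b) ^ n) v) := by
  induction n with
  | zero => simp
  | succ n ih =>
    rw [iterate_succ_apply', ih (fun m hm => h m (by omega)), par_some]
    unfold sx
    rw [if_neg (h n (by omega)), pow_succ', Equiv.Perm.mul_apply]

/-- distances of the circles of a piece from its root circle -/
structure PDist (circ : E → Bool → I) (k0 : I) (dist : I → ℕ) : Prop where
  zero : ∀ v b, dist (circ v b) = 0 ↔ circ v b = k0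
  ne : ∀ v, dist (circ v true) ≠ dist (circ v false)
  closer : ∀ v b, dist (circ v b) ≠ 0 → ∃ u, circ u b = circ v b ∧
      dist (circ u (!b)) < dist (circ u b)

/-- the circles of a cut system -/
theorem circD_sx {σ : Bool → Equiv.Perm E} {c0 : E} {b0 : Bool} {circ : E → Bool → I}
    {dist : I → ℕ} (hcirc : ∀ c b, circ (σ b c) b = circ c b)
    (hsame : ∀ v u b, circ v b = circ u b → (σ b).SameCycle v u)
    (htype : ∀ v u, circ v true ≠ circ u false) (D : PDist circ (circ c0 b0) dist) :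
    CircD (sx σ c0 b0) circ dist := by
  have hty : ∀ v u b b', circ v b = circ u b' → b = b' := by
    intro v u b b' h
    cases b <;> cases b'
    · rfl
    · exact absurd h.symm (htype u v)
    · exact absurd h (htype v u)
    · rfl
  have hpow : ∀ (b : Bool) (n : ℕ) (v : E), circ (((σ b) ^ n) v) b = circ v b := by
    intro b n
    induction n with
    | zero => intro v; simp
    | succ n ih => intro v; rw [pow_succ', Equiv.Perm.mul_apply, hcirc, ih]
  have hoff : ∀ v b, dist (circ v b) ≠ 0 → ∀ n,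
      (par (sx σ c0 b0) (fun _ => b))^[n] (some v) = some (((σ b) ^ n) v) := by
    intro v b hd n
    apply iter_sx_off
    rintro m _ ⟨h1, h2⟩
    apply hd
    rw [D.zero, ← hpow b m v, h1, h2]
  constructor
  · intro v b u h
    unfold sx at h
    split_ifs at h
    rw [← Option.some.inj h]; exact hcirc v b
  · intro v b hd
    refine ⟨orderOf (σ b), orderOf_pos _, ?_⟩
    rw [hoff v b hd, pow_orderOf_eq_one]; rfl
  · intro v u b hd h
    obtain ⟨n, _, hn⟩ := (hsame v u b h).exists_pow_eq'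
    exact ⟨n, by rw [hoff v b hd, hn]⟩
  · intro v b hd
    have h1 := (D.zero v b).1 hd
    have hb := hty _ _ _ _ h1
    subst hb
    obtain ⟨n, _, hn⟩ := (hsame v c0 b h1).exists_pow_eq'
    classical
    have hex : ∃ n, ((σ b) ^ n) v = c0 := ⟨n, hn⟩
    refine ⟨Nat.find hex + 1, ?_⟩
    rw [iterate_succ_apply', iter_sx_off]
    · rw [Nat.find_spec hex]
      simp [sx]
    · rintro m hm ⟨h2, _⟩
      exact Nat.find_min hex hm h2
  · exact D.ne
  · exact D.closer

theorem circD_sy {σ : Bool → Equiv.Perm E} {c0 : E} {b0 : Bool} {circ : E → Bool → I}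
    {dist : I → ℕ} (hcirc : ∀ c b, circ (σ b c) b = circ c b)
    (hsame : ∀ v u b, circ v b = circ u b → (σ b).SameCycle v u)
    (htype : ∀ v u, circ v true ≠ circ u false) (D : PDist circ (circ c0 b0) dist) :
    CircD (sy σ c0 b0) circ dist := by
  have h : CircD (sx (fun b => (σ b).symm) (σ b0 c0) b0) circ dist := by
    apply circD_sx (σ := fun b => (σ b).symm)
    · intro c b
      have := hcirc ((σ b).symm c) b
      rw [Equiv.apply_symm_apply] at this
      exact this.symm
    · intro v u b h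
      exact Equiv.Perm.sameCycle_inv.2 (hsame v u b h)
    · exact htype
    · rw [hcirc]; exact D
  exact h

/-- on every circle off the root there is an exit -/
theorem exit_exists {s : E → Bool → Option E} {circ : E → Bool → I} {dist : I → ℕ}
    (h : CircD s circ dist) {x : E → Bool} (hx : Acyc s x) (v : E) (b : Bool)
    (hd : dist (circ v b) ≠ 0) : ∃ e, circ e b = circ v b ∧ x e = !b := by
  obtain ⟨u, ⟨q, hq⟩, hu⟩ := exists_low (fun _ => b) hx (h.per v b hd)
  refine ⟨u, circ_iter h.const b q v u hq, ?_⟩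
  revert hu; cases x u <;> cases b <;> simp

section Piece

variable {σ : Bool → Equiv.Perm E} {circ : E → Bool → I} {Fc : Type*} {fc : E × Bool → Fc}
  (P : Piece σ circ fc) {c0 : E} {b0 : Bool} {dist : I → ℕ} (D : PDist circ (circ c0 b0) dist)

include P D

theorem Piece.cx : CircD (sx σ c0 b0) circ dist :=
  circD_sx P.hcirc (fun v u b h => (P.orb v u b).1 h) P.ne D

theorem Piece.cy : CircD (sy σ c0 b0) circ dist :=
  circD_sy P.hcirc (fun v u b h => (P.orb v u b).1 h) P.ne D

theorem Piece.data : PieceData (sx σ c0 b0) (sy σ c0 b0) := by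
  obtain ⟨r, _, hr, _⟩ := exists_rank_ww (Piece.cx P D)
  obtain ⟨r', _, hr', _⟩ := exists_rank_ww (Piece.cy P D)
  exact (inv_sx_sy σ c0 b0).pieceData hr.acyc hr'.acyc

/-- (W) the state `w` -/
theorem Piece.outW : ∃ r r', Rank (sx σ c0 b0) (ww circ dist) r ∧ Rank (sy σ c0 b0) (ww circ dist) r' ∧
    (∀ b, Ext circ b r (ww circ dist)) ∧ (∀ b, Ext circ b r' (ww circ dist)) ∧
    (∀ v b, ww circ dist v = !b → circ v b ≠ circ c0 b0) := by
  obtain ⟨r, _, hr, he⟩ := exists_rank_ww (Piece.cx P D)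
  obtain ⟨r', _, hr', he'⟩ := exists_rank_ww (Piece.cy P D)
  exact ⟨r, r', hr, hr', he, he', fun v b h h' => ww_root (Piece.cx P D) v b h ((D.zero v b).2 h')⟩

/-- (B) all points of the octagon -/
theorem Piece.outB (a b : ℤ) (ha : 0 ≤ a) (hb : 0 ≤ b) (har : a ≤ rr circ) (hbr : b ≤ rr circ)
    (hab : a + b ≤ Fintype.card E) (hd1 : a - b ≤ (Fintype.card E : ℤ) + 1 - Fintype.card I)
    (hd2 : b - a ≤ (Fintype.card E : ℤ) + 1 - Fintype.card I) :
    ∃ x y r r', Rank (sx σ c0 b0) x r ∧ Rank (sy σ c0 b0) y r' ∧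
      (nn true false x y : ℤ) = a ∧ (nn false true x y : ℤ) = b := by
  obtain ⟨r, _, hr, _⟩ := exists_rank_ww (Piece.cx P D)
  obtain ⟨r', _, hr', _⟩ := exists_rank_ww (Piece.cy P D)
  obtain ⟨x, y, ⟨rx, hx⟩, ⟨ry, hy⟩, h1, h2⟩ :=
    (P.octagon c0 b0 (ww circ dist) hr.acyc hr'.acyc a b).2 ⟨ha, hb, har, hbr, hab, hd1, hd2⟩
  exact ⟨x, y, rx, ry, hx, hy, h1, h2⟩

/-- (A2) the chain pairs -/
theorem Piece.outA2 (i : ℕ) (hi : (i : ℤ) ≤ (Fintype.card E : ℤ) + 1 - Fintype.card I) :
    ∃ x y r r', Rank (sx σ c0 b0) x r ∧ Rank (sy σ c0 b0) y r' ∧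
      Ext circ true r x ∧ Ext circ false r' y ∧
      (∀ e, x e = false → circ e true ≠ circ c0 b0) ∧
      (∀ e, y e = true → circ e false ≠ circ c0 b0) ∧
      nn true false x y = i ∧ nn false true x y = 0 := by
  obtain ⟨rw1, _, hrw, _⟩ := exists_rank_ww (Piece.cx P D)
  have hdd := P.dd_eq c0 b0 (ww circ dist) hrw.acyc
  obtain ⟨x, y, r, r', h1, h2, h3, h4, h5, h6, _, _, h7, h8⟩ :=
    chain_pairs (Piece.data P D) (Piece.cx P D) (Piece.cy P D) i (by rw [hdd]; exact hi)
  exact ⟨x, y, r, r', h1, h2, h3, h4, fun e he h => h5 e he ((D.zero e true).2 h),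
    fun e he h => h6 e he ((D.zero e false).2 h), h7, h8⟩

/-- (A1) the pairs with the largest `A - B` -/
theorem Piece.outA1 (a b : ℤ) (hb : 0 ≤ b) (har : a ≤ rr circ)
    (hab : a + b ≤ Fintype.card E) (hd : a - b = (Fintype.card E : ℤ) + 1 - Fintype.card I) :
    ∃ x y r r', Rank (sx σ c0 b0) x r ∧ Rank (sy σ c0 b0) y r' ∧
      Ext circ true r x ∧ Ext circ false r' y ∧
      (∀ e, x e = false → circ e true ≠ circ c0 b0) ∧
      (∀ e, y e = true → circ e false ≠ circ c0 b0) ∧
      (nn true false x y : ℤ) = a ∧ (nn false true x y : ℤ) = b := by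
  obtain ⟨rw1, _, hrw, _⟩ := exists_rank_ww (Piece.cx P D)
  have hdd := P.dd_eq c0 b0 (ww circ dist) hrw.acyc
  have hd0 : 0 ≤ (Fintype.card E : ℤ) + 1 - Fintype.card I := by
    have h1 := kappa_le (Piece.data P D) hrw.acyc
      (exists_rank_ww (Piece.cy P D)).choose_spec.2.1.acyc
    have e : ∀ a b : Bool, a ≠ b → nn a b (ww circ dist) (ww circ dist) = 0 := by
      intro a b hne
      unfold nn
      rw [card_eq_zero, filter_eq_empty_iff]
      rintro v _ ⟨h3, h4⟩
      exact hne (h3.symm.trans h4)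
    rw [e true false (by simp), e false true (by simp), hdd] at h1
    simpa using h1
  obtain ⟨x, y, r, r', h1, h2, h3, h4⟩ := Piece.outB P D a b (by linarith) hb har (by linarith)
    hab hd.le (by linarith)
  obtain ⟨hT, hT'⟩ := top_of_kappa (Piece.data P D) h1.acyc h2.acyc (by rw [h3, h4, hdd, hd])
  have hcs : ∀ b, Circular (sx σ c0 b0) (fun _ => b) := by
    intro b; cases b
    · exact (Piece.data P D).sL
    · exact (Piece.data P D).sR
  have hct : ∀ b, Circular (sy σ c0 b0) (fun _ => b) := by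
    intro b; cases b
    · exact (Piece.data P D).tL
    · exact (Piece.data P D).tR
  refine ⟨x, y, r, r', h1, h2, ext_of_top (Piece.cx P D) hcs h1 hT,
    ext_of_top (Piece.cy P D) hct h2 hT', ?_, ?_, h3, h4⟩
  · intro e he h
    obtain ⟨n, hn⟩ := (Piece.cx P D).root e true ((D.zero e true).2 h)
    exact hT.1 e (by rw [he]; simp) n hn
  · intro e he h
    obtain ⟨n, hn⟩ := (Piece.cy P D).root e false ((D.zero e false).2 h)
    exact hT'.1 e (by rw [he]; simp) n hn

end Piece

end PoolLib.MP_3cd99b_gt.Oct
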