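import Pool.Agent.Lib.MP_3cd99b_gt.Rg
import Pool.Agent.Lib.MP_3cd99b_gt.Out
import Pool.Agent.Lib.MP_3cd99b_gt.R4

/-!
# The region as a sum of local contributions (P2, MP_3cd99b_gt)

Bridge between helper94's covering arithmetic `R4` and the pieces of `Sm`.
-/

namespace LG3P.Sm

open Finset Function PoolLib.MP_3cd99b_gt.Oct LG3P.Gr LG3P.Top LG3P.R5 PoolLib.MP_3cd99b_gt.Tr

/-- the parameters of a special piece are admissible -/
theorem adm {E I : Type*} [Fintype E] [DecidableEq E] [Fintype I] {σ : Bool → Equiv.Perm E} {circ : E → Bool → I}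
    {Fc : Type*} {fc : E × Bool → Fc} (P : Piece σ circ fc) {c0 : E} {b0 : Bool} {dist : I → ℕ}
    (D : PDist circ (circ c0 b0) dist) :
    R4.Adm (rr circ) (Fintype.card E) ((Fintype.card E : ℤ) + 1 - Fintype.card I) := by
  classical
  obtain ⟨r, r', hr, hr', -⟩ := Piece.outW P D
  have hoct := P.octagon c0 b0 (ww circ dist) hr.acyc hr'.acyc
  -- d is nonnegative
  have hd0 : 0 ≤ (Fintype.card E : ℤ) + 1 - Fintype.card I := by
    have h1 := (hoct (nn true false (ww circ dist) (ww circ dist)) (nn false true (ww circ dist) (ww circ dist))).1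
      ⟨_, _, hr.acyc, hr'.acyc, rfl, rfl⟩
    have e : ∀ a b : Bool, a ≠ b → nn a b (ww circ dist) (ww circ dist) = 0 := by
      intro a b hne
      unfold nn
      rw [card_eq_zero, filter_eq_empty_iff]
      rintro v _ ⟨h3, h4⟩
      exact hne (h3.symm.trans h4)
    rw [e true false (by simp), e false true (by simp)] at h1
    simpa using h1.2.2.2.2.2.1
  refine ⟨hd0, ?_, ?_, ?_⟩
  · -- d <= r
    obtain ⟨i, hi⟩ := Int.eq_ofNat_of_zero_le hd0
    obtain ⟨x, y, r1, r2, h1, h2, -, -, -, -, h3, h4⟩ := Piece.outA2 P D i hi.ge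
    have h5 := (hoct i 0).1 ⟨x, y, h1.acyc, h2.acyc, by rw [h3], by rw [h4]; rfl⟩
    rw [hi]
    exact h5.2.2.1
  · have := P.two_rr.1
    exact_mod_cast this
  · -- 2 r <= n + d
    obtain ⟨⟨O₀, hO₀, h1⟩, -⟩ := P.rr_spec
    have h2rr := P.two_rr.1
    obtain ⟨O, hOx, hOy, hA⟩ := top_row (σ := σ) (c0 := c0) (b0 := b0) fc P.face P.conn
      (fun v => if ∃ c, circ c false = v then (1 : ℤ) else 0) (by
        intro v
        split_ifs
        · exact Or.inr rfl
        · exact Or.inl rfl)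
      (fun c => if_pos ⟨c, rfl⟩)
      (fun c => if_neg (by
        rintro ⟨c', h⟩
        exact P.ne _ _ h.symm)) P.pl O₀ hO₀ (rr circ : ℤ) (by rw [h1]; push_cast; omega) (by rw [h1])
    have h7 : nn true false O (fun c => !O c) = rr circ := by
      rw [A_eq] at hA
      have : nn true false O (fun c => !O c) = (univ.filter fun c => O c = true).card := by
        unfold nn
        congr 1
        ext c
        simp
      rw [this]
      exact_mod_cast hA
    have h6 : nn true false O (fun c => !O c) + nn false true O (fun c => !O c) = Fintype.card E := by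
      rw [← nq_eq]
      unfold nq
      rw [← card_univ]
      congr 1
      ext c
      simp
    have h8 := ((hoct _ _).1 ⟨O, _, hOx, hOy, rfl, rfl⟩).2.2.2.2.2.1
    rw [h7] at h6 h8
    have h6' : (rr circ : ℤ) + (nn false true O (fun c => !O c) : ℤ) = (Fintype.card E : ℤ) := by exact_mod_cast h6
    linarith

variable {C K : Type*} (G : SG C K)

section M

variable [Fintype C] [Fintype (QP G)] [∀ q, Fintype (SQ G q)]

omit [Fintype C] in
theorem tot_rr (s : Bool) : R4.tot (sgq G) s (fun q => (rr (cs G.κ (SQ G q)) : ℤ)) = (RR G s : ℤ) := by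
  unfold R4.tot RR
  rw [sum_filter]
  push_cast
  rfl

theorem tot_n (s : Bool) : R4.tot (sgq G) s (fun q => (Fintype.card (SQ G q) : ℤ)) =
    ((univ.filter fun c => G.sg c = s).card : ℤ) := by
  classical
  unfold R4.tot
  rw [sum_filter, card_filter, Nat.cast_sum, sum_pieces G]
  refine sum_congr rfl fun q _ => ?_
  have : ∀ c : SQ G q, (((if G.sg c = s then 1 else 0 : ℕ)) : ℤ) = if sgq G q = s then 1 else 0 := by
    intro c
    rw [sgq_eq G c.2]
    split_ifs <;> rfl
  rw [sum_congr rfl fun c _ => this c]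
  split_ifs <;> simp

theorem sum_d [Fintype K] [∀ q, Fintype (VS G.κ (SQ G q))] :
    ∑ q : QP G, ((Fintype.card (SQ G q) : ℤ) + 1 - (Fintype.card (VS G.κ (SQ G q)) : ℤ)) =
      (Fintype.card C : ℤ) + 1 - (Fintype.card K : ℤ) := by
  have h1 : ∑ q : QP G, (Fintype.card (SQ G q) : ℤ) = (Fintype.card C : ℤ) := by
    have h := sum_pieces G (fun _ => 1)
    simp only [sum_const, card_univ, nsmul_eq_mul, mul_one] at h
    exact h.symm
  have h2 := sum_circles G
  rw [sum_sub_distrib, sum_add_distrib, h1]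
  simp only [sum_const, card_univ, nsmul_eq_mul, mul_one]
  have h4 : ((∑ q : QP G, Fintype.card (VS G.κ (SQ G q)) : ℕ) : ℤ) + 1 =
      (Fintype.card K : ℤ) + (Fintype.card (QP G) : ℤ) := by exact_mod_cast h2
  push_cast at h4
  linarith

/-- every point of the region with B <= A is a sum of local contributions of one of the five families -/
theorem cover_ge [Fintype K] [∀ q, Fintype (VS G.κ (SQ G q))]
    (hadm : ∀ q : QP G, R4.Adm (rr (cs G.κ (SQ G q))) (Fintype.card (SQ G q))
      ((Fintype.card (SQ G q) : ℤ) + 1 - (Fintype.card (VS G.κ (SQ G q)) : ℤ))) (a b : ℤ) (hab : b ≤ a)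
    (h1 : a ≤ RR G true) (h2 : -(RR G false : ℤ) ≤ b) (h3 : a + b ≤ ((univ.filter fun c => G.sg c = true).card : ℤ))
    (h4 : -((univ.filter fun c => G.sg c = false).card : ℤ) ≤ a + b)
    (h5 : a - b ≤ (Fintype.card C : ℤ) + 1 - (Fintype.card K : ℤ)) :
    ∃ kp kn : R4.Kind, R4.Family kp kn ∧ ∃ p : QP G → ℤ × ℤ,
      (∀ q, R4.Loc (if sgq G q then kp else kn) (sgq G q) (rr (cs G.κ (SQ G q))) (Fintype.card (SQ G q))
        ((Fintype.card (SQ G q) : ℤ) + 1 - (Fintype.card (VS G.κ (SQ G q)) : ℤ)) (p q)) ∧ ∑ q, p q = (a, b) := by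
  classical
  exact R4.cover_ge (sgq G) (fun q => (rr (cs G.κ (SQ G q)) : ℤ)) (fun q => (Fintype.card (SQ G q) : ℤ))
    (fun q => (Fintype.card (SQ G q) : ℤ) + 1 - (Fintype.card (VS G.κ (SQ G q)) : ℤ)) hadm a b hab
    (by rw [tot_rr]; exact h1) (by rw [tot_rr]; exact h2) (by rw [tot_n]; exact h3) (by rw [tot_n]; exact h4)
    (by rw [sum_d]; exact h5)

/-- the same for A <= B, with all local contributions exchanged -/
theorem cover_le [Fintype K] [∀ q, Fintype (VS G.κ (SQ G q))]
    (hadm : ∀ q : QP G, R4.Adm (rr (cs G.κ (SQ G q))) (Fintype.card (SQ G q))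
      ((Fintype.card (SQ G q) : ℤ) + 1 - (Fintype.card (VS G.κ (SQ G q)) : ℤ))) (a b : ℤ) (hab : a ≤ b)
    (h1 : b ≤ RR G true) (h2 : -(RR G false : ℤ) ≤ a) (h3 : a + b ≤ ((univ.filter fun c => G.sg c = true).card : ℤ))
    (h4 : -((univ.filter fun c => G.sg c = false).card : ℤ) ≤ a + b)
    (h5 : b - a ≤ (Fintype.card C : ℤ) + 1 - (Fintype.card K : ℤ)) :
    ∃ kp kn : R4.Kind, R4.Family kp kn ∧ ∃ p : QP G → ℤ × ℤ,
      (∀ q, R4.Loc (if sgq G q then kp else kn) (sgq G q) (rr (cs G.κ (SQ G q))) (Fintype.card (SQ G q))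
        ((Fintype.card (SQ G q) : ℤ) + 1 - (Fintype.card (VS G.κ (SQ G q)) : ℤ)) (p q).swap) ∧
        ∑ q, p q = (a, b) := by
  classical
  exact R4.cover_le (sgq G) (fun q => (rr (cs G.κ (SQ G q)) : ℤ)) (fun q => (Fintype.card (SQ G q) : ℤ))
    (fun q => (Fintype.card (SQ G q) : ℤ) + 1 - (Fintype.card (VS G.κ (SQ G q)) : ℤ)) hadm a b hab
    (by rw [tot_rr]; exact h1) (by rw [tot_rr]; exact h2) (by rw [tot_n]; exact h3) (by rw [tot_n]; exact h4)
    (by rw [sum_d]; exact h5)

/-- the exponents of a pair of states which has on every piece the contribution p q -/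
theorem Z_of_local (x y : C → Bool) (p : QP G → ℤ × ℤ) (a b : ℤ) (hp : ∑ q, p q = (a, b))
    (hA : ∀ q, sgi (sgq G q) * ((univ.filter fun c : SQ G q => x c = true ∧ y c = false).card : ℤ) = (p q).1)
    (hB : ∀ q, sgi (sgq G q) * ((univ.filter fun c : SQ G q => x c = false ∧ y c = true).card : ℤ) = (p q).2) :
    ZA G.sg x y = a ∧ ZB G.sg x y = b := by
  rw [ZA_eq, ZB_eq]
  constructor
  · rw [sum_congr rfl fun q _ => hA q, ← Prod.fst_sum, hp]
  · rw [sum_congr rfl fun q _ => hB q, ← Prod.snd_sum, hp]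

end M

end LG3P.Sm
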