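import Pool.Agent.Lib.MP_3cd99b_gt.Pd
import Pool.Agent.Lib.MP_3cd99b_gt.Mk
import Pool.Agent.Lib.MP_3cd99b_gt.Lc

/-!
# The support of an abstract diagram (P2, MP_3cd99b_gt)

Main theorem `support`: the pairs of exponents of the pairs of states of an abstract planar alternating diagram
without bridges are exactly the lattice points of
`-R₋ ≤ A, B ≤ R₊`, `-n₋ ≤ A + B ≤ n₊`, `|A - B| ≤ n + 1 - s`.
-/

namespace PoolLib.MP_3cd99b_gt.Dm.Dg

open Relation Oct LG3P.Sm LG3P.Top LG3P.Gr Finset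

variable {C : Type*} [Fintype C] [DecidableEq C] (D : Dg C) (m : C × Bool)

/-- planarity: the field `pl` of every piece -/
def Pln : Prop := ∀ i, ∀ O, LG3P.Gr.Strong (fun c => D.cp m i c false) (fun c => D.cp m i c true) O →
    ∃ h : Quotient (Equiv.Perm.SameCycle.setoid (LG3P.Top.phi (D.sig m i))) → ℤ,
      ∀ c, h (D.fci m i (c, O c)) < h (D.fci m i (c, !O c))

/-- family I: the pieces of sign s have arbitrary states, the others the state w -/
def FamI : Prop := ∀ (s : Bool)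
  (Good : ∀ i : QP (D.SG m), (SQ (D.SG m) i → Bool) → (SQ (D.SG m) i → Bool) → Prop),
  (∀ i (q : SQ (D.SG m) i) (b0 : Bool), D.κ q b0 = (D.SG m).rc q →
    ∃ (x y : SQ (D.SG m) i → Bool) (r r' : SQ (D.SG m) i → ℕ), Rank (sx (D.sig m i) q b0) x r ∧
      Rank (sy (D.sig m i) q b0) y r' ∧
      (D.sg q ≠ s → x = y ∧ (∀ b, Ext (D.cp m i) b r x) ∧ (∀ b, Ext (D.cp m i) b r' y) ∧
        (∀ v b, x v = !b → D.cp m i v b ≠ D.cp m i q b0) ∧
        (∀ v b, y v = !b → D.cp m i v b ≠ D.cp m i q b0)) ∧ Good i x y) →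
  ∃ x y : C → Bool, Acyc (sx D.st m.1 m.2) x ∧ Acyc (sy D.st m.1 m.2) y ∧
    ∀ i, Good i (fun c => x c) (fun c => y c)

/-- family II: circular states of the same side on all pieces -/
def FamII : Prop := ∀ (t : Bool)
  (Good : ∀ i : QP (D.SG m), (SQ (D.SG m) i → Bool) → (SQ (D.SG m) i → Bool) → Prop),
  (∀ i (q : SQ (D.SG m) i) (b0 : Bool), D.κ q b0 = (D.SG m).rc q →
    ∃ (x y : SQ (D.SG m) i → Bool) (r r' : SQ (D.SG m) i → ℕ), Rank (sx (D.sig m i) q b0) x r ∧
      Rank (sy (D.sig m i) q b0) y r' ∧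
      Ext (D.cp m i) (D.sg q ^^ t) r x ∧ Ext (D.cp m i) (!(D.sg q ^^ t)) r' y ∧
      (∀ e, x e = (!(D.sg q ^^ t)) → D.cp m i e (D.sg q ^^ t) ≠ D.cp m i q b0) ∧
      (∀ e, y e = (D.sg q ^^ t) → D.cp m i e (!(D.sg q ^^ t)) ≠ D.cp m i q b0) ∧ Good i x y) →
  ∃ x y : C → Bool, Acyc (sx D.st m.1 m.2) x ∧ Acyc (sy D.st m.1 m.2) y ∧
    ∀ i, Good i (fun c => x c) (fun c => y c)

instance finiteQP : Finite (QP (D.SG m)) := by
  unfold QP
  infer_instance

open Classical in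
noncomputable instance fintypeQP : Fintype (QP (D.SG m)) := Fintype.ofFinite _

open Classical in
noncomputable instance fintypeSQ (i : QP (D.SG m)) : Fintype (SQ (D.SG m) i) := Fintype.ofFinite _

instance decEqSQ (i : QP (D.SG m)) : DecidableEq (SQ (D.SG m) i) := inferInstance

noncomputable instance fintypeVi (i : QP (D.SG m)) : Fintype (D.Vi m i) := Fintype.ofFinite _

noncomputable instance fintypeVS (i : QP (D.SG m)) : Fintype (LG3P.R5.VS (D.SG m).κ (SQ (D.SG m) i)) :=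
  D.fintypeVi m i

noncomputable instance fintypeCi : Fintype (Ci D.st) := Fintype.ofFinite _

omit [Fintype C] [DecidableEq C] in
/-- a crossing of the piece on its root circle -/
theorem exists_root [Finite C] (i : QP (D.SG m)) :
    ∃ (q : SQ (D.SG m) i) (b0 : Bool), D.κ q b0 = (D.SG m).rc q := by
  obtain ⟨c, hc⟩ := Quotient.exists_rep i
  have hc' : LG3P.Sm.mk (D.SG m) c = i := hc
  obtain ⟨⟨c1, b1, h1, h2⟩, -⟩ := (D.SG m).rc_spec c
  refine ⟨⟨c1, ((mk_eq _).2 h1.symm).trans hc'⟩, b1, ?_⟩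
  have h3 : (D.SG m).rc c1 = (D.SG m).rc c := (D.SG m).rc_of_pc (Tr.SG.Pc.symm (D.SG m) h1)
  show D.κ c1 b1 = (D.SG m).rc c1
  rw [h3]; exact h2

/-- the parameters of every piece are admissible -/
theorem admI (hpl : D.Pln m) (i : QP (D.SG m)) :
    LG3P.R4.Adm (rr (D.cp m i)) (Fintype.card (SQ (D.SG m) i))
      ((Fintype.card (SQ (D.SG m) i) : ℤ) + 1 - (Fintype.card (D.Vi m i) : ℤ)) := by
  obtain ⟨q, b0, hq⟩ := D.exists_root m i
  exact Piece.adm (D.pieceI m i (hpl i)) (D.pdist m i q b0 hq)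

/-- the local goal -/
def GoodI (p : QP (D.SG m) → ℤ × ℤ) (i : QP (D.SG m)) (x y : SQ (D.SG m) i → Bool) : Prop :=
  LG3P.Sm.sgi (sgq (D.SG m) i) * (nn true false x y : ℤ) = (p i).1 ∧
    LG3P.Sm.sgi (sgq (D.SG m) i) * (nn false true x y : ℤ) = (p i).2

/-- local contributions of a family are realised by global states -/
theorem realise (hpl : D.Pln m) (hI : D.FamI m) (hII : D.FamII m) (ge : Bool) (kp kn : LG3P.R4.Kind)
    (hF : LG3P.R4.Family kp kn) (p : QP (D.SG m) → ℤ × ℤ) (a b : ℤ) (hp : ∑ i, p i = (a, b))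
    (hloc : ∀ i, LG3P.R4.Loc (if sgq (D.SG m) i then kp else kn) (sgq (D.SG m) i) (rr (D.cp m i))
      (Fintype.card (SQ (D.SG m) i)) ((Fintype.card (SQ (D.SG m) i) : ℤ) + 1 - (Fintype.card (D.Vi m i) : ℤ))
      (if ge then p i else (p i).swap)) :
    ∃ x y : C → Bool, Acyc (sx D.st m.1 m.2) x ∧ Acyc (sy D.st m.1 m.2) y ∧ ZA D.sg x y = a ∧ ZB D.sg x y = b := by
  -- the local states
  have loc : ∀ i (q : SQ (D.SG m) i) (b0 : Bool), D.κ q b0 = (D.SG m).rc q →
      ∃ (x y : SQ (D.SG m) i → Bool) (r r' : SQ (D.SG m) i → ℕ),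
        LS (D.sig m i) q b0 (D.cp m i) (if sgq (D.SG m) i then kp else kn) (sgq (D.SG m) i == ge) x y r r' ∧
        D.GoodI m p i x y := by
    intro i q b0 hq
    obtain ⟨x, y, r, r', h1, h2, h3⟩ := Piece.states (D.pieceI m i (hpl i)) (D.pdist m i q b0 hq)
      (if sgq (D.SG m) i then kp else kn) (sgq (D.SG m) i) ge (p i) (hloc i)
    exact ⟨x, y, r, r', h1, h2, h3⟩
  have hsg : ∀ i (q : SQ (D.SG m) i), D.sg q = sgq (D.SG m) i := fun i q => sgq_eq (D.SG m) q.2
  -- from the global states to the exponents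
  have fin : (∃ x y : C → Bool, Acyc (sx D.st m.1 m.2) x ∧ Acyc (sy D.st m.1 m.2) y ∧
      ∀ i, D.GoodI m p i (fun c => x c) (fun c => y c)) →
      ∃ x y : C → Bool, Acyc (sx D.st m.1 m.2) x ∧ Acyc (sy D.st m.1 m.2) y ∧ ZA D.sg x y = a ∧ ZB D.sg x y = b := by
    rintro ⟨x, y, hx, hy, hg⟩
    refine ⟨x, y, hx, hy, ?_⟩
    exact Z_of_local (D.SG m) x y p a b hp (fun i => (hg i).1) (fun i => (hg i).2)
  apply fin
  -- family I or II
  have famI' : ∀ s : Bool, (∀ e : Bool, e ≠ s → (if e then kp else kn) = .w) →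
      ∃ x y : C → Bool, Acyc (sx D.st m.1 m.2) x ∧ Acyc (sy D.st m.1 m.2) y ∧
      ∀ i, D.GoodI m p i (fun c => x c) (fun c => y c) := by
    intro s hs
    refine hI s (D.GoodI m p) fun i q b0 hq => ?_
    by_cases hne : D.sg q = s
    · obtain ⟨x, y, r, r', h1, h2⟩ := loc i q b0 hq
      exact ⟨x, y, r, r', h1.rx, h1.ry, fun h => absurd hne h, h2⟩
    · have hk := hs (sgq (D.SG m) i) (by rw [← hsg i q]; exact hne)
      obtain ⟨r, r', h1, h2, h3, h4, h5⟩ := Piece.outW (D.pieceI m i (hpl i)) (D.pdist m i q b0 hq)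
      refine ⟨_, _, r, r', h1, h2, fun _ => ⟨rfl, h3, h4, h5, h5⟩, ?_⟩
      have h0 := hloc i
      rw [hk] at h0
      have hp0 : p i = 0 := by
        cases ge
        · have h6 : (p i).swap = 0 := by cases sgq (D.SG m) i <;> exact h0
          have := congrArg Prod.swap h6
          simpa using this
        · cases sgq (D.SG m) i <;> exact h0
      have e0 : ∀ a b : Bool, a ≠ b → nn a b (ww (D.cp m i) (D.di m i q)) (ww (D.cp m i) (D.di m i q)) = 0 := by
        intro a b hab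
        unfold nn
        rw [card_eq_zero, filter_eq_empty_iff]
        rintro v _ ⟨h3, h4⟩
        exact hab (h3.symm.trans h4)
      unfold GoodI
      rw [e0 _ _ (by simp), e0 _ _ (by simp), hp0]
      simp
  have famII' : kp ≠ .arb → kn ≠ .arb →
      ∃ x y : C → Bool, Acyc (sx D.st m.1 m.2) x ∧ Acyc (sy D.st m.1 m.2) y ∧
      ∀ i, D.GoodI m p i (fun c => x c) (fun c => y c) := by
    intro hkp hkn
    refine hII (!ge) (D.GoodI m p) fun i q b0 hq => ?_
    obtain ⟨x, y, r, r', h1, h2⟩ := loc i q b0 hq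
    have hk : (if sgq (D.SG m) i then kp else kn) ≠ .arb := by
      cases sgq (D.SG m) i
      · exact hkn
      · exact hkp
    have he : (D.sg q ^^ !ge) = (sgq (D.SG m) i == ge) := by
      rw [hsg i q]
      cases sgq (D.SG m) i <;> cases ge <;> rfl
    rw [he]
    exact ⟨x, y, r, r', h1.rx, h1.ry, (h1.ext hk).1, (h1.ext hk).2, (h1.quiet hk).1, (h1.quiet hk).2, h2⟩
  rcases hF with ⟨rfl, rfl⟩ | ⟨rfl, rfl⟩ | ⟨rfl, rfl⟩ | ⟨rfl, rfl⟩ | ⟨rfl, rfl⟩
  · refine famI' true fun e he => ?_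
    cases e
    · rfl
    · exact absurd rfl he
  · exact famII' (by simp) (by simp)
  · refine famI' false fun e he => ?_
    cases e
    · exact absurd rfl he
    · rfl
  · exact famII' (by simp) (by simp)
  · exact famII' (by simp) (by simp)

/-- **The support of an abstract diagram.** -/
theorem support (hpl : D.Pln m) (hI : D.FamI m) (hII : D.FamII m) (a b : ℤ) :
    (∃ x y : C → Bool, Acyc (sx D.st m.1 m.2) x ∧ Acyc (sy D.st m.1 m.2) y ∧
      ZA D.sg x y = a ∧ ZB D.sg x y = b) ↔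
      a ≤ RR (D.SG m) true ∧ -(RR (D.SG m) false : ℤ) ≤ a ∧ b ≤ RR (D.SG m) true ∧ -(RR (D.SG m) false : ℤ) ≤ b ∧
      a + b ≤ ((univ.filter fun c => D.sg c = true).card : ℤ) ∧
      -((univ.filter fun c => D.sg c = false).card : ℤ) ≤ a + b ∧
      |a - b| ≤ (Fintype.card C : ℤ) + 1 - (Fintype.card (Ci D.st) : ℤ) := by
  constructor
  · rintro ⟨x, y, hx, hy, rfl, rfl⟩
    exact region (D.SG m) (fun c b => D.κ_st c b) D.κ_ne D.brid hx hy
  · rintro ⟨h1, h2, h3, h4, h5, h6, h7⟩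
    rw [abs_le] at h7
    rcases le_total b a with hab | hab
    · obtain ⟨kp, kn, hF, p, hloc, hp⟩ := cover_ge (D.SG m) (D.admI m hpl) a b hab h1 h4 h5 h6 (by
        have := h7.2
        exact this)
      exact D.realise m hpl hI hII true kp kn hF p a b hp hloc
    · obtain ⟨kp, kn, hF, p, hloc, hp⟩ := cover_le (D.SG m) (D.admI m hpl) a b hab h3 h2 h5 h6 (by
        have := h7.1
        show b - a ≤ (Fintype.card C : ℤ) + 1 - (Fintype.card (Ci D.st) : ℤ)
        linarith)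
      exact D.realise m hpl hI hII false kp kn hF p a b hp hloc

end PoolLib.MP_3cd99b_gt.Dm.Dg
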