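import Pool.Agent.Lib.MP_3cd99b_gt.PL4

/-!
Planarity of one sign class of the crossings of a word, with the next maps of all crossings.

The circles of type true are followed backward, those of type false forward (`st b` = the next crossing on the circle
of type b). A face function of the sign s has a value `a c b` along the arc after the slot (c, b).
-/

namespace LG3P.PL
open LG3 LG3P.Gr

/-- planarity of the sign class `s`: weights which are orthogonal to the face functions are differences of functions
on the circles -/
def PlanarC {C : Type*} [Fintype C] (st : Bool → Equiv.Perm C) (sg : C → Bool) (s : Bool) : Prop :=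
  ∀ m : C → ℚ, (∀ c, sg c ≠ s → m c = 0) →
    (∀ a : C → Bool → ℚ, (∀ c b, a (st b c) (if sg (st b c) = s then !b else b) = a c b) →
      ∑ c, m c * (a c true - a c false) = 0) →
    ∃ ψ : C → Bool → ℚ, (∀ c b, ψ (st b c) b = ψ c b) ∧ ∀ c, ψ c true - ψ c false = m c

theorem planarC_word {C : Type*} [Fintype C] (w : List Piece) (q : ℕ) (s : Bool) (pos k : C → ℕ)
    (hinj : Function.Injective pos) (hpos : ∀ c, ∃ s, w[pos c]? = some (.cross (k c) s))
    (st : Bool → Equiv.Perm C) (sg : C → Bool) (hsg : ∀ c, sg c = s ↔ k c % 2 = q % 2) (j : C → Bool → ℕ)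
    (hj0 : ∀ c, k c % 2 = 0 → j c true = k c ∧ j c false = k c + 1)
    (hj1 : ∀ c, k c % 2 = 1 → j c true = k c + 1 ∧ j c false = k c)
    (W0 : ∀ φ : ℕ → ℕ → ℚ, StrandFn w (CrossPar w q) φ → φ w.length 0 = φ 0 0 → ∀ c,
      φ (pos c) (j c true) = φ (pos (st true c) + 1) (j (st true c) true) ∧
        φ (pos c + 1) (j c false) = φ (pos (st false c)) (j (st false c) false)) :
    PlanarC st sg s := by
  classical
  intro m hm0 hbal
  -- the weight on the letters
  let mt : ℕ → ℚ := fun t => if h : ∃ c, pos c = t then m h.choose else 0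
  have hmt : ∀ c, mt (pos c) = m c := by
    intro c
    have h : ∃ c', pos c' = pos c := ⟨c, rfl⟩
    simp only [mt, dif_pos h]
    rw [hinj h.choose_spec]
  have hmt0 : ∀ t, (∀ c, pos c ≠ t) → mt t = 0 := by
    intro t ht
    have h : ¬ ∃ c, pos c = t := fun ⟨c, hc⟩ => ht c hc
    simp only [mt, dif_neg h]
  have hjc : ∀ c b, j c b = k c ∨ j c b = k c + 1 := by
    intro c b
    rcases Nat.mod_two_eq_zero_or_one (k c) with h | h
    · obtain ⟨h1, h2⟩ := hj0 c h
      cases b
      · exact Or.inr h2
      · exact Or.inl h1
    · obtain ⟨h1, h2⟩ := hj1 c h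
      cases b
      · exact Or.inl h2
      · exact Or.inr h1
  have hside : ∀ c b, sg c = s → sideGap q (j c b) = k c + 1 := by
    intro c b hc
    have := (hsg c).mp hc
    unfold sideGap
    rcases hjc c b with h | h <;> rw [h]
    · rw [if_pos this]
    · rw [if_neg (by omega)]
  obtain ⟨φ, h1, h2, h3⟩ := slice_closed w mt (by
    intro h hh h0 h1
    rw [pair_eq_sum_type w pos k hinj hpos m mt hmt hmt0]
    have hs := hh.strandFn q (CrossPar w q) (fun t k s e e' => ⟨k, s, e, e'⟩)
    have hcl : h w.length (sideGap q 0) = h 0 (sideGap q 0) := by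
      unfold sideGap; split_ifs
      · exact h1.symm
      · exact h0.symm
    have hW := W0 _ hs hcl
    -- no jump at the other crossings
    have hnj : ∀ c, sg c ≠ s → ∀ i, h (pos c + 1) (sideGap q i) = h (pos c) (sideGap q i) := by
      intro c hc i
      obtain ⟨s', hs'⟩ := hpos c
      have h5 := hs _ _ hs' i (fun _ => by
        rintro ⟨k', s'', e1, e2⟩
        rw [hs'] at e1
        simp only [Option.some.injEq, Piece.cross.injEq] at e1
        rw [← e1.1] at e2
        exact hc ((hsg c).mpr e2))
      exact h5
    have h6 := hbal (fun c b => if b then h (pos c) (sideGap q (j c true)) else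
        h (pos c + 1) (sideGap q (j c false))) (by
      intro c b
      obtain ⟨e1, e2⟩ := hW c
      cases b
      · by_cases hc : sg (st false c) = s
        · have e3 : h (pos c + 1) (sideGap q (j c false)) = h (pos (st false c)) (sideGap q (j (st false c) false)) := e2
          simp only [hc, if_true, Bool.not_false, Bool.false_eq_true, if_false]
          rw [e3, hside _ _ hc, hside _ _ hc]
        · have e3 : h (pos c + 1) (sideGap q (j c false)) = h (pos (st false c)) (sideGap q (j (st false c) false)) := e2
          simp only [hc, if_false, Bool.false_eq_true]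
          rw [e3, hnj _ hc]
      · by_cases hc : sg (st true c) = s
        · have e3 : h (pos c) (sideGap q (j c true)) = h (pos (st true c) + 1) (sideGap q (j (st true c) true)) := e1
          simp only [hc, if_true, Bool.not_true, Bool.false_eq_true, if_false]
          rw [e3, hside _ _ hc, hside _ _ hc]
        · have e3 : h (pos c) (sideGap q (j c true)) = h (pos (st true c) + 1) (sideGap q (j (st true c) true)) := e1
          simp only [hc, if_false, if_true]
          rw [e3, hnj _ hc])
    have h7 : ∀ c, m c * (h (pos c + 1) (k c + 1) - h (pos c) (k c + 1)) =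
        - (m c * (h (pos c) (sideGap q (j c true)) - h (pos c + 1) (sideGap q (j c false)))) := by
      intro c
      by_cases hc : sg c = s
      · rw [hside _ _ hc, hside _ _ hc]; ring
      · rw [hm0 c hc]; ring
    rw [Finset.sum_congr rfl fun c _ => h7 c, Finset.sum_neg_distrib, neg_eq_zero]
    simpa using h6)
  have hW := W0 _ (h1.strandFn (CrossPar w q)) (h3 1)
  -- no jump at the crossings
  have hnj : ∀ c i, φ (pos c + 1) i = φ (pos c) i := by
    intro c i
    obtain ⟨s, hs⟩ := hpos c
    have h4 := (isStrand_iff w φ).mp h1 _ _ hs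
    have h5 : φ (pos c + 1) = φ (pos c) := h4
    rw [h5]
  have hval : ∀ c b, φ (pos (st b c)) (j (st b c) b + 1) = φ (pos c) (j c b + 1) := by
    intro c b
    obtain ⟨e1, e2⟩ := hW c
    cases b
    · rw [← hnj c]; exact e2.symm
    · rw [← hnj (st true c)]; exact e1.symm
  have hjump : ∀ c, φ (pos c) (k c + 1) - φ (pos c) (k c + 2) = m c := by
    intro c
    obtain ⟨s, hs⟩ := hpos c
    rw [h2.get (pos c) (k c) s hs, hmt]
  rcases Nat.mod_two_eq_zero_or_one q with hq | hq
  · refine ⟨fun c b => φ (pos c) (j c b + 1), hval, fun c => ?_⟩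
    dsimp only
    rcases Nat.mod_two_eq_zero_or_one (k c) with h | h
    · obtain ⟨e1, e2⟩ := hj0 c h
      rw [e1, e2]; exact hjump c
    · obtain ⟨e1, e2⟩ := hj1 c h
      have h4 : m c = 0 := hm0 c (fun e => by have := (hsg c).mp e; omega)
      rw [e1, e2]
      have := hjump c
      rw [h4] at this ⊢
      linarith
  · refine ⟨fun c b => - φ (pos c) (j c b + 1), fun c b => by dsimp only; rw [hval], fun c => ?_⟩
    dsimp only
    rcases Nat.mod_two_eq_zero_or_one (k c) with h | h
    · obtain ⟨e1, e2⟩ := hj0 c h
      have h4 : m c = 0 := hm0 c (fun e => by have := (hsg c).mp e; omega)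
      rw [e1, e2]
      have := hjump c
      rw [h4] at this ⊢
      have e3 : k c + 1 + 1 = k c + 2 := rfl
      rw [e3]
      linarith
    · obtain ⟨e1, e2⟩ := hj1 c h
      rw [e1, e2]
      have := hjump c
      have e3 : k c + 1 + 1 = k c + 2 := rfl
      rw [e3]
      linarith

end LG3P.PL
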