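import Pool.Agent.Lib.MP_3cd99b_gt.PL5
import Pool.Agent.Lib.MP_3cd99b_gt.PL6
import Pool.Agent.Lib.MP_3cd99b_gt.Fr

/-!
Planarity of a piece (crossings of one sign, first return system) from the planarity of its sign class.
-/

namespace LG3P.PL
open LG3 LG3P.Gr LG3P.Top PoolLib.MP_3cd99b_gt.Oct

variable {C : Type*} [Fintype C]

theorem face_fr (st : Bool → Equiv.Perm C) (sg : C → Bool) (s : Bool) (a : C → Bool → ℚ)
    (ha : ∀ c b, a (st b c) (if sg (st b c) = s then !b else b) = a c b) (c : C) (b : Bool) (hc : sg c = s) :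
    a (fr (st b) sg c) (!b) = a c b := by
  obtain ⟨h1, h2, h3⟩ := frk_spec (st b) sg c
  rw [fr_apply]
  obtain ⟨n, hn⟩ : ∃ n, frk (st b) sg c = n + 1 := ⟨frk (st b) sg c - 1, by omega⟩
  rw [hn] at h2 h3 ⊢
  have h4 : ∀ i, i ≤ n → a ((st b ^ i) c) b = a c b := by
    intro i
    induction i with
    | zero => intro _; rfl
    | succ i ih =>
      intro hi
      have h5 := ha ((st b ^ i) c) b
      have h6 : (st b) ((st b ^ i) c) = (st b ^ (i + 1)) c := by rw [pow_succ', Equiv.Perm.mul_apply]
      rw [h6, if_neg (by have := h3 (i + 1) (by omega) (by omega); rwa [hc] at this)] at h5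
      rw [h5]; exact ih (by omega)
  have h5 := ha ((st b ^ n) c) b
  have h6 : (st b) ((st b ^ n) c) = (st b ^ (n + 1)) c := by rw [pow_succ', Equiv.Perm.mul_apply]
  rw [h6, if_pos (by rw [h2, hc])] at h5
  rw [h5]; exact h4 n le_rfl

theorem planar_piece {V : Type*} (st : Bool → Equiv.Perm C) (sg : C → Bool) (s : Bool) (hP : PlanarC st sg s)
    (Q : C → Prop) [Fintype {c // Q c}] (hQs : ∀ c, Q c → sg c = s) (σ : Bool → Equiv.Perm {c // Q c})
    (hσ : ∀ b c, ((σ b c : {c // Q c}) : C) = fr (st b) sg c) (circ : {c // Q c} → Bool → V)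
    (orb : ∀ c c' b, circ c b = circ c' b → (σ b).SameCycle c c')
    (ne : ∀ c c', circ c true ≠ circ c' false) :
    Planar σ (fun c => circ c false) (fun c => circ c true) := by
  classical
  intro m hm
  obtain ⟨ψ, h1, h2⟩ := hP (fun c => if h : Q c then m ⟨c, h⟩ else 0)
    (fun c hc => by rw [dif_neg (fun h => hc (hQs c h))]) (by
      intro a ha
      have h3 := hm (fun z => a z.1 z.2) (by
        intro c b
        show a (σ b c : {c // Q c}).1 (!b) = a c.1 b
        rw [hσ]
        exact face_fr st sg s a ha c.1 b (hQs c.1 c.2))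
      refine Eq.trans ?_ h3
      have h4 : ∀ c : C, (if h : Q c then m ⟨c, h⟩ else 0) * (a c true - a c false) =
          if h : Q c then m ⟨c, h⟩ * (a c true - a c false) else 0 := by
        intro c; split_ifs <;> simp
      rw [Finset.sum_congr rfl fun c _ => h4 c]
      symm
      apply Finset.sum_bij_ne_zero (fun (c : {c // Q c}) _ _ => c.1)
      · intro c _ _; exact Finset.mem_univ _
      · intro c _ _ c' _ _ h; exact Subtype.ext h
      · intro c _ hne
        by_cases hq : Q c
        · rw [dif_pos hq] at hne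
          exact ⟨⟨c, hq⟩, Finset.mem_univ _, hne, rfl⟩
        · rw [dif_neg hq] at hne
          exact absurd rfl hne
      · intro c _ _
        rw [dif_pos c.2])
  have hst : ∀ (n : ℕ) (c : C) (b : Bool), ψ ((st b ^ n) c) b = ψ c b := by
    intro n
    induction n with
    | zero => intro c b; rfl
    | succ n ih => intro c b; rw [pow_succ', Equiv.Perm.mul_apply, h1, ih]
  have hσψ : ∀ (c : {c // Q c}) (b : Bool), ψ (σ b c : {c // Q c}).1 b = ψ c.1 b := by
    intro c b
    rw [hσ, fr_apply]; exact hst _ _ _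
  have hsame : ∀ b (c c' : {c // Q c}), (σ b).SameCycle c c' → ψ c.1 b = ψ c'.1 b := by
    rintro b c c' ⟨i, rfl⟩
    have h4 : ∀ n : ℕ, ∀ c : {c // Q c}, ψ ((σ b ^ n) c).1 b = ψ c.1 b := by
      intro n
      induction n with
      | zero => intro c; rfl
      | succ n ih => intro c; rw [pow_succ', Equiv.Perm.mul_apply, hσψ, ih]
    cases i with
    | ofNat n => rw [Int.ofNat_eq_natCast, zpow_natCast]; exact (h4 n c).symm
    | negSucc n =>
      rw [zpow_negSucc]
      have := h4 (n + 1) (((σ b ^ (n + 1))⁻¹) c)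
      rw [Equiv.Perm.inv_def, Equiv.apply_symm_apply] at this
      exact this
  have hcirc : ∀ c b c' b', circ c b = circ c' b' → ψ c.1 b = ψ c'.1 b' := by
    intro c b c' b' e
    cases b <;> cases b'
    · exact hsame _ _ _ (orb _ _ _ e)
    · exact absurd e.symm (ne _ _)
    · exact absurd e (ne _ _)
    · exact hsame _ _ _ (orb _ _ _ e)
  let χ : V → ℚ := fun v => if h : ∃ z : {c // Q c} × Bool, circ z.1 z.2 = v then ψ h.choose.1.1 h.choose.2 else 0
  have hχ : ∀ c b, χ (circ c b) = ψ c.1 b := by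
    intro c b
    have h : ∃ z : {c // Q c} × Bool, circ z.1 z.2 = circ c b := ⟨(c, b), rfl⟩
    simp only [χ, dif_pos h]
    exact hcirc _ _ _ _ h.choose_spec
  refine ⟨χ, fun c => ?_⟩
  dsimp only
  rw [hχ, hχ, h2 c.1, dif_pos c.2]

/-- the field `pl` of `Piece` -/
theorem pl_piece {V Fc : Type*} (st : Bool → Equiv.Perm C) (sg : C → Bool) (s : Bool) (hP : PlanarC st sg s)
    (Q : C → Prop) [Fintype {c // Q c}] (hQs : ∀ c, Q c → sg c = s) (σ : Bool → Equiv.Perm {c // Q c})
    (hσ : ∀ b c, ((σ b c : {c // Q c}) : C) = fr (st b) sg c) (circ : {c // Q c} → Bool → V)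
    (orb : ∀ c c' b, circ c b = circ c' b → (σ b).SameCycle c c')
    (ne : ∀ c c', circ c true ≠ circ c' false)
    (fc : {c // Q c} × Bool → Fc) (face : ∀ z z', fc z = fc z' → (phi σ).SameCycle z z')
    (O : {c // Q c} → Bool) (hO : Strong (fun c => circ c false) (fun c => circ c true) O) :
    ∃ h : Fc → ℤ, ∀ c, h (fc (c, O c)) < h (fc (c, !O c)) :=
  pl_of_planar σ circ fc face (planar_piece st sg s hP Q hQs σ hσ circ orb ne) O hO

end LG3P.PL
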