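import Pool.Agent.Lib.MP_3cd99b_gt.FC
import Pool.Agent.Lib.MP_3cd99b_gt.PL8

/-!
# Planarity of the pieces of an abstract diagram from the planarity of its sign classes
-/

namespace PoolLib.MP_3cd99b_gt.Dm.Dg

open Relation Oct LG3P.Sm LG3P.Top LG3P.Gr Finset

variable {C : Type*} [Fintype C] [DecidableEq C] (D : Dg C) (m : C × Bool)

/-- the field `pl` of every piece -/
theorem pln_of_planarC (h : ∀ s, LG3P.PL.PlanarC D.st D.sg s) : D.Pln m := by
  intro i O hO
  have : Fintype {c // c ∈ SQ (D.SG m) i} := D.fintypeSQ m i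
  exact LG3P.PL.pl_piece D.st D.sg (sgq (D.SG m) i) (h _) (fun c => c ∈ SQ (D.SG m) i)
    (fun c hc => sgq_eq (D.SG m) hc) (D.sig m i) (fun b c => D.sig_apply m i b c) (D.cp m i)
    (fun c c' b e => by
      rw [D.sig_sameCycle]
      have h1 : D.κ c b = D.κ c' b := (D.cir_eq m i).1 e
      exact (D.κ_eq.1 h1).2)
    (fun c c' e => by
      have h1 : D.κ c true = D.κ c' false := (D.cir_eq m i).1 e
      exact D.κ_ne _ _ h1)
    (D.fci m i) (fun z z' e => by
      have h1 : (Quotient.mk (Equiv.Perm.SameCycle.setoid (LG3P.Top.phi (D.sig m i))) z) = Quotient.mk _ z' := e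
      exact Quotient.exact h1) O hO

end PoolLib.MP_3cd99b_gt.Dm.Dg
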