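import Pool.Agent.Lib.MP_3cd99b_gt.Fam

/-!
Existence of pairs of global states from pairs of local states.
-/

namespace PoolLib.MP_3cd99b_gt.Oct

open Function Finset

variable {C K P : Type*}

theorem symm_pow_of {σ : Equiv.Perm C} {n : ℕ} {c c' : C} (h : (σ ^ n) c = c') : (σ.symm ^ n) c' = c := by
  have e2 : σ.symm ^ n = (σ ^ n).symm := by
    show (σ⁻¹) ^ n = (σ ^ n)⁻¹
    rw [inv_pow]
  rw [e2, ← h, Equiv.symm_apply_apply]

theorem symm_pow_sub {σ : Equiv.Perm C} {n k : ℕ} (c : C) (h : k ≤ n) :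
    (σ.symm ^ (n - k)) ((σ ^ n) c) = (σ ^ k) c := by
  apply symm_pow_of
  rw [← Equiv.Perm.mul_apply, ← pow_add, Nat.sub_add_cancel h]

/-- the last point of the sign of c1 before c0 -/
theorem exists_last [Finite C] (σ : Equiv.Perm C) (sg : C → Bool) {c1 c0 : C} {n : ℕ} (h : (σ ^ n) c1 = c0) :
    ∃ c k, sg c = sg c1 ∧ (σ ^ k) c = c0 ∧ k < frk σ sg c := by
  classical
  have hex : ∃ k, ∃ c, sg c = sg c1 ∧ (σ ^ k) c = c0 := ⟨n, c1, rfl, h⟩
  obtain ⟨c, h1, h2⟩ := Nat.find_spec hex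
  refine ⟨c, Nat.find hex, h1, h2, ?_⟩
  by_contra hcon
  push Not at hcon
  obtain ⟨a1, a2, a3⟩ := frk_spec σ sg c
  have hlt : Nat.find hex - frk σ sg c < Nat.find hex := by omega
  apply Nat.find_min hex hlt
  refine ⟨(σ ^ frk σ sg c) c, a2.trans h1, ?_⟩
  rw [← Equiv.Perm.mul_apply, ← pow_add, Nat.sub_add_cancel hcon]
  exact h2

theorem frk_symm [Finite C] (σ : Equiv.Perm C) (sg : C → Bool) (c : C) :
    frk σ.symm sg (fr σ sg c) = frk σ sg c :=
  (frk_spec σ.symm sg (fr σ sg c)).unique (nxt_symm (frk_spec σ sg c))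

/-- choice along a tree -/
theorem tree_choice {P α : Type*} (dep : P → ℕ) (par : P → Option P)
    (hpar : ∀ Q Q', par Q = some Q' → dep Q' < dep Q) (OK : P → α → Prop) (Conn : P → P → α → α → Prop)
    (h0 : ∀ Q, par Q = none → ∃ a, OK Q a)
    (h1 : ∀ Q Q' a', par Q = some Q' → OK Q' a' → ∃ a, OK Q a ∧ Conn Q Q' a a') :
    ∃ D : P → α, (∀ Q, OK Q (D Q)) ∧ ∀ Q Q', par Q = some Q' → Conn Q Q' (D Q) (D Q') := by
  classical
  have wf : WellFounded fun Q' Q : P => dep Q' < dep Q := (measure dep).wf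
  have key : ∀ Q (rec : ∀ Q', dep Q' < dep Q → {a // OK Q' a}), ∃ a, OK Q a ∧
      ∀ Q' (h : par Q = some Q'), Conn Q Q' a (rec Q' (hpar Q Q' h)).1 := by
    intro Q rec
    by_cases h : ∃ Q', par Q = some Q'
    · obtain ⟨Q', h⟩ := h
      obtain ⟨a, ha, ha'⟩ := h1 Q Q' _ h (rec Q' (hpar Q Q' h)).2
      refine ⟨a, ha, fun Q'' h'' => ?_⟩
      obtain rfl : Q' = Q'' := Option.some.inj (h.symm.trans h'')
      exact ha'
    · obtain ⟨a, ha⟩ := h0 Q (by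
        rcases h' : par Q with _ | Q'
        · rfl
        · exact absurd ⟨Q', h'⟩ h)
      exact ⟨a, ha, fun Q' h' => absurd ⟨Q', h'⟩ h⟩
  let F : ∀ Q : P, (∀ Q', dep Q' < dep Q → {a // OK Q' a}) → {a // OK Q a} := fun Q rec =>
    ⟨(key Q rec).choose, (key Q rec).choose_spec.1⟩
  let D : ∀ Q, {a // OK Q a} := wf.fix F
  have hD : ∀ Q, D Q = F Q (fun Q' _ => D Q') := fun Q => wf.fix_eq F Q
  refine ⟨fun Q => (D Q).1, fun Q => (D Q).2, ?_⟩
  intro Q Q' h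
  have := (key Q (fun Q' _ => D Q')).choose_spec.2 Q' h
  show Conn Q Q' (D Q).1 (D Q').1
  rw [hD Q]
  exact this

namespace Tree

variable (T : Tree C K P)

/-- the tree of the reversed diagram -/
def rev : Tree C K P where
  st := fun b => (T.st b).symm
  c0 := T.st T.b0 T.c0
  b0 := T.b0
  circ := T.circ
  sg := T.sg
  pc := T.pc
  rt := T.rt
  dep := T.dep
  lv := T.lv
  circ_st := by
    intro b c
    have := T.circ_st b ((T.st b).symm c)
    rw [Equiv.apply_symm_apply] at this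
    exact this.symm
  orbit := by
    intro c b c' b' h
    obtain ⟨e, n, hn, hn'⟩ := T.orbit c' b' c b h.symm
    refine ⟨e.symm, n, hn, ?_⟩
    rw [← e]
    exact symm_pow_of hn'
  pc_of := T.pc_of
  dep_out := T.dep_out
  dep_inn := T.dep_inn
  root := by
    intro c b h
    rw [T.circ_st] at h ⊢
    exact T.root c b h
  diff := by
    intro c c' b h h'
    rw [T.circ_st] at h'
    exact T.diff c c' b h h'
  hasout := by
    intro c b h h'
    rw [T.circ_st] at h'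
    exact T.hasout c b h h'

theorem rev_K0 : T.rev.K0 = T.K0 := T.circ_st _ _

theorem rev_frs [Finite C] (b : Bool) : T.rev.frs b = (T.frs b).symm := fr_symm _ _

theorem frs_eq [Finite C] (b : Bool) (c : C) : T.frs b c = (T.st b ^ frk (T.st b) T.sg c) c := rfl

theorem circ_frs [Finite C] (b : Bool) (c : C) : T.circ (T.frs b c) b = T.circ c b := T.circ_pow _ _ _

theorem sg_frs [Finite C] (b : Bool) (c : C) : T.sg (T.frs b c) = T.sg c := sg_fr _ _ _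

theorem pc_frs [Finite C] (b : Bool) (c : C) : T.pc (T.frs b c) = T.pc c :=
  T.pc_of _ _ b (T.circ_frs b c) (T.sg_frs b c)

variable {T}

theorem LocalX.congr [Finite C] {dx : K → Prop} {Q : P} {q : C × Bool} {x x' : C → Bool} {r r' : C → ℕ}
    (hx : ∀ c, T.pc c = Q → x' c = x c) (hr : ∀ c, T.pc c = Q → r' c = r c) (h : T.LocalX dx Q q x r) :
    T.LocalX dx Q q x' r' where
  rank := by
    intro c hc hq
    rw [hx c hc] at hq
    rw [hx c hc, hr c hc, hr _ ((T.pc_frs _ _).trans hc)]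
    exact h.rank c hc hq
  quiet := by
    intro h1 h2 c b hc hb
    rw [hx c hc]
    exact h.quiet h1 h2 c b hc hb
  ext := by
    intro e c b he hc h1 h2 h3 h4 h5
    rw [hr e he, hr c hc]
    rw [hx e he] at h4
    rw [hx c hc] at h5
    exact h.ext e c b he hc h1 h2 h3 h4 h5

variable (T)

/-- a pair of local states of the piece Q with cut after the slot q -/
structure Pair [Finite C] (dx dy : K → Prop) (s1 s2 : Bool) (Q : P) (q : C × Bool) (x y : C → Bool)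
    (r r' : C → ℕ) : Prop where
  lx : T.LocalX dx Q q x r
  ly : T.rev.LocalX dy Q (T.frs q.2 q.1, q.2) y r'
  ex : ∀ c b, T.pc c = Q → T.circ c b ≠ T.rt Q →
    ∃ e, T.pc e = Q ∧ T.circ e b = T.circ c b ∧ (dx (T.circ c b) → x e ≠ b) ∧ (dy (T.circ c b) → y e ≠ b)
  qx : ∀ c, T.pc c = Q → T.circ c T.b0 = T.K0 → T.sg c = s1 → x c = T.b0
  qy : ∀ c, T.pc c = Q → T.circ c T.b0 = T.K0 → T.sg c = s2 → y c = T.b0

/-- GLOBAL PAIRS FROM LOCAL PAIRS -/
theorem exists_global [Fintype C] [DecidableEq C] (dx dy : K → Prop) (s1 s2 : Bool)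
    (hrt : ∀ Q, ∃ c b, T.pc c = Q ∧ T.circ c b = T.rt Q) (Good : P → (C → Bool) → (C → Bool) → Prop)
    (hGood : ∀ Q x y x' y', (∀ c, T.pc c = Q → x' c = x c ∧ y' c = y c) → Good Q x y → Good Q x' y')
    (hloc : ∀ Q c b, T.pc c = Q → T.circ c b = T.rt Q →
      ∃ x y r r', T.Pair dx dy s1 s2 Q (c, b) x y r r' ∧ Good Q x y) :
    ∃ x y, Acyc T.par x ∧ Acyc T.rev.par y ∧ ∀ Q, Good Q x y := by
  classical
  have hpar : ∀ Q, T.rt Q ≠ T.K0 → ∃ e : C × Bool, T.circ e.1 e.2 = T.rt Q ∧ T.circ e.1 e.2 ≠ T.rt (T.pc e.1) := by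
    intro Q hQ
    obtain ⟨c, b, rfl, h⟩ := hrt Q
    obtain ⟨c', g1, g2⟩ := T.hasout c b h (by rw [h]; exact hQ)
    exact ⟨(c', b), g1.trans h, g2⟩
  let par : P → Option P := fun Q => if h : T.rt Q ≠ T.K0 then some (T.pc (hpar Q h).choose.1) else none
  have parnone : ∀ Q, par Q = none → T.rt Q = T.K0 := by
    intro Q h
    by_contra h'
    simp only [par] at h
    rw [dif_pos h'] at h
    exact absurd h (by simp)
  have parsome : ∀ Q Q', par Q = some Q' → T.rt Q ≠ T.K0 ∧ ∃ e b, T.pc e = Q' ∧ T.circ e b = T.rt Q ∧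
      T.circ e b ≠ T.rt Q' := by
    intro Q Q' h
    by_cases h' : T.rt Q ≠ T.K0
    · simp only [par] at h
      rw [dif_pos h'] at h
      have h1 := Option.some.inj h
      obtain ⟨h2, h3⟩ := (hpar Q h').choose_spec
      exact ⟨h', (hpar Q h').choose.1, (hpar Q h').choose.2, h1, h2, by rw [← h1]; exact h3⟩
    · simp only [par] at h
      rw [dif_neg h'] at h
      exact absurd h (by simp)
  have paris : ∀ Q, T.rt Q ≠ T.K0 → ∃ Q', par Q = some Q' := by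
    intro Q h
    exact ⟨_, dif_pos h⟩
  let OK : P → (C × Bool) × (C → Bool) × (C → Bool) × (C → ℕ) × (C → ℕ) → Prop := fun Q a =>
    T.pc a.1.1 = Q ∧ T.circ a.1.1 a.1.2 = T.rt Q ∧ T.Pair dx dy s1 s2 Q a.1 a.2.1 a.2.2.1 a.2.2.2.1 a.2.2.2.2 ∧
      Good Q a.2.1 a.2.2.1 ∧
      (T.rt Q = T.K0 → ∃ k, k < frk (T.st a.1.2) T.sg a.1.1 ∧ (T.st a.1.2 ^ k) a.1.1 = T.c0)
  let Conn : P → P → (C × Bool) × (C → Bool) × (C → Bool) × (C → ℕ) × (C → ℕ) →
      (C × Bool) × (C → Bool) × (C → Bool) × (C → ℕ) × (C → ℕ) → Prop := fun Q Q' a a' =>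
    ∃ k, 0 < k ∧ k < frk (T.st a.1.2) T.sg a.1.1 ∧ T.pc ((T.st a.1.2 ^ k) a.1.1) = Q' ∧
      (dx (T.rt Q) → a'.2.1 ((T.st a.1.2 ^ k) a.1.1) ≠ a.1.2) ∧
      (dy (T.rt Q) → a'.2.2.1 ((T.st a.1.2 ^ k) a.1.1) ≠ a.1.2)
  obtain ⟨D, hD1, hD2⟩ := tree_choice T.dep par (by
    intro Q Q' h
    obtain ⟨h1, e, b, h2, h3, h4⟩ := parsome Q Q' h
    obtain ⟨c1, b1, h5, h6⟩ := hrt Q
    have h7 := T.dep_out e b (by rw [h2]; exact h4)
    have h8 := T.dep_inn c1 b1 (by rw [h5]; exact h6)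
    rw [h2, h3] at h7
    rw [h5, h6] at h8
    omega) OK Conn (by
    intro Q h
    have h1 := parnone Q h
    obtain ⟨c1, b1, h5, h6⟩ := hrt Q
    obtain ⟨hb, n, hn, hn'⟩ := T.orbit c1 b1 T.c0 T.b0 (by rw [h6, h1]; rfl)
    obtain ⟨c, k, g1, g2, g3⟩ := exists_last (T.st b1) T.sg hn'
    have g4 : T.circ c b1 = T.circ c1 b1 := by
      rw [← T.circ_pow k c b1, g2, ← T.circ_pow n c1 b1, hn']
    have g5 : T.pc c = Q := (T.pc_of c c1 b1 g4 g1).trans h5
    obtain ⟨x, y, r, r', p1, p2⟩ := hloc Q c b1 g5 (g4.trans h6)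
    exact ⟨((c, b1), x, y, r, r'), g5, g4.trans h6, p1, p2, fun _ => ⟨k, g3, g2⟩⟩) (by
    rintro Q Q' a' h ⟨o1, o2, o3, o4, o5⟩
    obtain ⟨h1, e0, b, h2, h3, h4⟩ := parsome Q Q' h
    obtain ⟨e, e1, e2, e3, e4⟩ := o3.ex e0 b h2 h4
    obtain ⟨c1, b1, h5, h6⟩ := hrt Q
    obtain ⟨hb, n, hn, hn'⟩ := T.orbit c1 b1 e b (by rw [h6, e2, h3])
    subst hb
    obtain ⟨c, k, g1, g2, g3⟩ := exists_last (T.st b1) T.sg hn'
    have g4 : T.circ c b1 = T.circ c1 b1 := by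
      rw [← T.circ_pow k c b1, g2, ← T.circ_pow n c1 b1, hn']
    have g5 : T.pc c = Q := (T.pc_of c c1 b1 g4 g1).trans h5
    have hk : 0 < k := by
      rcases Nat.eq_zero_or_pos k with h0 | h0
      · exfalso
        subst h0
        have h9 : c = e := by simpa using g2
        subst h9
        apply h4
        rw [h3, ← e1, g5]
      · exact h0
    obtain ⟨x, y, r, r', p1, p2⟩ := hloc Q c b1 g5 (g4.trans h6)
    refine ⟨((c, b1), x, y, r, r'), ⟨g5, g4.trans h6, p1, p2, fun h0 => absurd h0 h1⟩, k, hk, g3, ?_⟩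
    simp only
    rw [g2]
    rw [h3] at e3 e4
    exact ⟨e1, e3, e4⟩)
  have cpair : ∀ c, T.Pair dx dy s1 s2 (T.pc c) (D (T.pc c)).1 (D (T.pc c)).2.1 (D (T.pc c)).2.2.1
      (D (T.pc c)).2.2.2.1 (D (T.pc c)).2.2.2.2 := fun c => (hD1 (T.pc c)).2.2.1
  refine ⟨fun c => (D (T.pc c)).2.1 c, fun c => (D (T.pc c)).2.2.1 c, ?_, ?_, ?_⟩
  · refine T.famX dx _ (fun c => (D (T.pc c)).2.2.2.1 c) (fun Q => (D Q).1) ?_ ?_ ?_ ?_ s1 ?_
    · intro c
      exact ⟨(hD1 (T.pc c)).1, (hD1 (T.pc c)).2.1⟩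
    · intro c
      exact (cpair c).lx.congr (fun c' hc' => by simp only [hc']) (fun c' hc' => by simp only [hc'])
    · intro c hc
      exact (hD1 (T.pc c)).2.2.2.2 hc
    · intro c hc hd
      obtain ⟨Q', hQ'⟩ := paris (T.pc c) hc
      obtain ⟨k, k1, k2, k3, k4, k5⟩ := hD2 (T.pc c) Q' hQ'
      refine ⟨k, k1, k2, ?_⟩
      simp only [k3]
      exact k4 hd
    · intro c h1 h2
      exact (cpair c).qx c rfl h1 h2
  · refine T.rev.famX dy _ (fun c => (D (T.pc c)).2.2.2.2 c)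
      (fun Q => (T.frs (D Q).1.2 (D Q).1.1, (D Q).1.2)) ?_ ?_ ?_ ?_ s2 ?_
    · intro c
      refine ⟨?_, ?_⟩
      · exact (T.pc_frs _ _).trans (hD1 (T.pc c)).1
      · exact (T.circ_frs _ _).trans (hD1 (T.pc c)).2.1
    · intro c
      exact (cpair c).ly.congr (T := T.rev) (fun c' (hc' : T.pc c' = T.pc c) => by simp only [hc'])
        (fun c' (hc' : T.pc c' = T.pc c) => by simp only [hc'])
    · intro c hc
      obtain ⟨k, k1, k2⟩ := (hD1 (T.pc c)).2.2.2.2 (by rw [← T.rev_K0]; exact hc)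
      have k3 : (D (T.pc c)).1.2 = T.b0 := by
        have h1 := (hD1 (T.pc c)).2.1
        have h2 : T.rt (T.pc c) = T.circ T.c0 T.b0 := by
          have : T.rt (T.pc c) = T.rev.K0 := hc
          rw [this, T.rev_K0]; rfl
        exact (T.orbit _ _ _ _ (h1.trans h2)).1
      show ∃ k, k < frk (T.st (D (T.pc c)).1.2).symm T.sg (fr (T.st (D (T.pc c)).1.2) T.sg (D (T.pc c)).1.1) ∧
        ((T.st (D (T.pc c)).1.2).symm ^ k) (fr (T.st (D (T.pc c)).1.2) T.sg (D (T.pc c)).1.1) = T.st T.b0 T.c0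
      rw [frk_symm]
      refine ⟨frk (T.st (D (T.pc c)).1.2) T.sg (D (T.pc c)).1.1 - (k + 1), by omega, ?_⟩
      rw [fr_apply, symm_pow_sub _ (by omega), pow_succ', Equiv.Perm.mul_apply, k2, k3]
    · intro c hc hd
      obtain ⟨Q', hQ'⟩ := paris (T.pc c) (by rw [← T.rev_K0]; exact hc)
      obtain ⟨k, k1, k2, k3, k4, k5⟩ := hD2 (T.pc c) Q' hQ'
      show ∃ k, 0 < k ∧ k < frk (T.st (D (T.pc c)).1.2).symm T.sg
          (fr (T.st (D (T.pc c)).1.2) T.sg (D (T.pc c)).1.1) ∧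
        (D (T.pc (((T.st (D (T.pc c)).1.2).symm ^ k) (fr (T.st (D (T.pc c)).1.2) T.sg (D (T.pc c)).1.1)))).2.2.1
          (((T.st (D (T.pc c)).1.2).symm ^ k) (fr (T.st (D (T.pc c)).1.2) T.sg (D (T.pc c)).1.1)) ≠
            (D (T.pc c)).1.2
      rw [frk_symm]
      refine ⟨frk (T.st (D (T.pc c)).1.2) T.sg (D (T.pc c)).1.1 - k, by omega, by omega, ?_⟩
      rw [fr_apply, symm_pow_sub _ (by omega), k3]
      exact k5 hd
    · intro c h1 h2
      exact (cpair c).qy c rfl (by rw [← T.rev_K0]; exact h1) h2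
  · intro Q
    exact hGood Q _ _ _ _ (fun c hc => by simp only [hc, and_self]) (hD1 Q).2.2.2.1

end Tree

end PoolLib.MP_3cd99b_gt.Oct
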