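import Pool.Agent.Lib.MP_3cd99b_gt.Pd
import Pool.Agent.Lib.MP_3cd99b_gt.Fam2

/-!
# The tree of an abstract diagram
-/

namespace PoolLib.MP_3cd99b_gt.Dm

open Relation Oct LG3P.Sm

namespace Dg

variable {C : Type*} [Finite C] (D : Dg C) (m : C × Bool)

/-- the level of a circle: the number of pieces between it and the root circle -/
noncomputable def lvn {C K : Type*} (G : Tr.SG C K) (k : K) : ℕ := by
  classical exact if h : k = G.k0 then 0 else lvn G (G.rc (G.we h)) + 1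
termination_by G.dist k
decreasing_by exact G.rc_lt h

theorem lvn_ne {C K : Type*} (G : Tr.SG C K) {k : K} (h : k ≠ G.k0) : lvn G k = lvn G (G.rc (G.we h)) + 1 := by
  rw [lvn, dif_neg h]

theorem rc_iff {C K : Type*} (G : Tr.SG C K) (c : C) (b : Bool) (h : G.κ c b ≠ G.k0) :
    G.κ c b = G.rc c ↔ G.side (G.κ c b) G.k0 ≠ G.sg c := by
  constructor
  · intro h1
    have h2 := (G.rc_spec c).2
    rw [← h1] at h2
    rcases h2 with h2 | h2
    · exact absurd h2 h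
    · exact h2
  · intro h1
    exact (G.rc_eq ⟨G.on_self c b, Or.inr h1⟩).symm

theorem rc_root {C K : Type*} (G : Tr.SG C K) (c : C) (b : Bool) (h : G.κ c b = G.k0) : G.rc c = G.k0 :=
  G.rc_eq ⟨by rw [← h]; exact G.on_self c b, Or.inl rfl⟩

theorem sg_we {C K : Type*} (G : Tr.SG C K) {k : K} (h : k ≠ G.k0) : G.sg (G.we h) = G.side k G.k0 := by
  have h1 := G.sg_up true (G.we h)
  rw [G.we_spec h] at h1
  unfold Tr.SG.ps at h1
  rwa [if_neg h] at h1

/-- the root circle of a piece -/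
noncomputable def rt (Q : QP (D.SG m)) : Ci D.st :=
  Quotient.lift (s := pcS (D.SG m)) (D.SG m).rc (fun _ _ h => (D.SG m).rc_of_pc h) Q

theorem rt_mk (c : C) : D.rt m (LG3P.Sm.mk (D.SG m) c) = (D.SG m).rc c := rfl

theorem rt_eq {c : C} {Q : QP (D.SG m)} (h : c ∈ SQ (D.SG m) Q) : D.rt m Q = (D.SG m).rc c := by
  rw [← show LG3P.Sm.mk (D.SG m) c = Q from h]
  rfl

/-- the tree of pieces of a diagram with cut slot m -/
noncomputable def tree : Tree C (Ci D.st) (QP (D.SG m)) where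
  st := D.st
  c0 := m.1
  b0 := m.2
  circ := D.κ
  sg := D.sg
  pc := LG3P.Sm.mk (D.SG m)
  rt := D.rt m
  dep := fun Q => lvn (D.SG m) (D.rt m Q) + 1
  lv := lvn (D.SG m)
  circ_st := fun b c => D.κ_st c b
  orbit := by
    intro c b c' b' h
    obtain ⟨h1, h2⟩ := D.κ_eq.1 h
    refine ⟨h1, ?_⟩
    obtain ⟨n, hn⟩ := h2.exists_nat_pow_eq
    obtain ⟨k, hk, hk'⟩ := exists_pow_self (D.st b) c'
    refine ⟨k + n, by omega, ?_⟩
    rw [pow_add, Equiv.Perm.mul_apply, hn, hk']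
  pc_of := by
    intro c c' b h h'
    rw [mk_eq]
    exact ReflTransGen.single ⟨h', b, b, h⟩
  dep_out := by
    intro c b h
    show lvn (D.SG m) (D.rt m (LG3P.Sm.mk (D.SG m) c)) + 1 = lvn (D.SG m) (D.κ c b)
    rw [D.rt_mk]
    have h' : (D.SG m).κ c b ≠ (D.SG m).rc c := h
    have h1 : (D.SG m).κ c b ≠ (D.SG m).k0 := fun h2 => h' (by rw [h2, rc_root _ c b h2])
    have h2 : (D.SG m).sg c = (D.SG m).side ((D.SG m).κ c b) (D.SG m).k0 := by
      by_contra h3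
      exact h' ((rc_iff (D.SG m) c b h1).2 (Ne.symm h3))
    have h3 : (D.SG m).Pc c ((D.SG m).we h1) := by
      refine ReflTransGen.single ⟨?_, b, _, ((D.SG m).we_spec h1).symm⟩
      rw [h2, sg_we]
    have h4 : lvn (D.SG m) ((D.SG m).κ c b) = _ := lvn_ne (D.SG m) h1
    show _ = lvn (D.SG m) ((D.SG m).κ c b)
    rw [h4, (D.SG m).rc_of_pc h3]
  dep_inn := by
    intro c b h
    show lvn (D.SG m) (D.rt m (LG3P.Sm.mk (D.SG m) c)) + 1 = lvn (D.SG m) (D.κ c b) + 1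
    rw [h]
  root := by
    intro c b h
    exact rc_root (D.SG m) c b h
  diff := by
    intro c c' b h h0 hs
    have h0' : (D.SG m).κ c b ≠ (D.SG m).k0 := h0
    have h0'' : (D.SG m).κ c' b ≠ (D.SG m).k0 := by
      show D.κ c' b ≠ _
      rw [← h]; exact h0
    have h1 := rc_iff (D.SG m) c b h0'
    have h2 := rc_iff (D.SG m) c' b h0''
    have h3 : (D.SG m).κ c b = (D.SG m).κ c' b := h
    rw [← h3] at h2
    have h4 : (D.SG m).sg c ≠ (D.SG m).sg c' := hs
    show (D.SG m).κ c b = (D.SG m).rc c ↔ (D.SG m).κ c' b ≠ (D.SG m).rc c'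
    have h5 : (D.SG m).κ c b ≠ (D.SG m).rc c' ↔ ¬ ((D.SG m).side ((D.SG m).κ c b) (D.SG m).k0 ≠ (D.SG m).sg c') :=
      not_congr h2
    rw [← h3, h1, h5]
    revert h4
    generalize (D.SG m).side ((D.SG m).κ c b) (D.SG m).k0 = a
    generalize (D.SG m).sg c = u
    generalize (D.SG m).sg c' = v
    revert a u v
    decide
  hasout := by
    intro c b h h0
    have h0' : (D.SG m).κ c b ≠ (D.SG m).k0 := h0
    have h1 := (D.SG m).we_spec h0'
    have h2 : D.κ ((D.SG m).we h0') (!(D.SG m).w ((D.SG m).we h0')) = D.κ c b := h1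
    have h3 : (!(D.SG m).w ((D.SG m).we h0')) = b := (D.κ_eq.1 h2).1
    rw [h3] at h2
    refine ⟨(D.SG m).we h0', h2, ?_⟩
    intro h4
    have h5 : (D.SG m).κ ((D.SG m).we h0') b ≠ (D.SG m).k0 := by
      show D.κ _ _ ≠ _
      rw [h2]; exact h0
    have h6 := (rc_iff (D.SG m) _ b h5).1 h4
    apply h6
    rw [sg_we]
    have h7 : (D.SG m).κ ((D.SG m).we h0') b = (D.SG m).κ c b := h2
    rw [h7]

theorem tree_hrt (Q : QP (D.SG m)) : ∃ c b, (D.tree m).pc c = Q ∧ (D.tree m).circ c b = (D.tree m).rt Q := by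
  obtain ⟨c, rfl⟩ : ∃ c, LG3P.Sm.mk (D.SG m) c = Q := Quotient.exists_rep Q
  obtain ⟨⟨c', b, h1, h2⟩, _⟩ := (D.SG m).rc_spec c
  exact ⟨c', b, ((mk_eq _).2 h1).symm, h2⟩

end Dg

end PoolLib.MP_3cd99b_gt.Dm
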