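import Pool.Agent.Lib.MP_3cd99b_gt.Fam3
import Pool.Agent.Lib.MP_3cd99b_gt.Td

/-!
The two families of global pairs for an abstract diagram.
-/

namespace PoolLib.MP_3cd99b_gt.Dm.Dg

open Function Finset LG3P.Top LG3P.R5 LG3P.Sm PoolLib.MP_3cd99b_gt.Oct

variable {C : Type*} [Fintype C] [DecidableEq C] (D : Dg C) (m : C × Bool)
  [∀ i, DecidableEq (SQ (D.SG m) i)]

/-- FAMILY I: arbitrary pairs in the pieces of sign s, the state w in the pieces of the other sign -/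
theorem famI (s : Bool) (Good : ∀ i, (SQ (D.SG m) i → Bool) → (SQ (D.SG m) i → Bool) → Prop)
    (h : ∀ i (q : SQ (D.SG m) i) b0, D.κ q b0 = (D.SG m).rc q →
      ∃ (x y : SQ (D.SG m) i → Bool) (r r' : SQ (D.SG m) i → ℕ),
        Rank (sx (D.sig m i) q b0) x r ∧ Rank (sy (D.sig m i) q b0) y r' ∧
        (D.sg q ≠ s → x = y ∧ (∀ b, Ext (D.cp m i) b r x) ∧ (∀ b, Ext (D.cp m i) b r' y) ∧
          (∀ v b, x v = !b → D.cp m i v b ≠ D.cp m i q b0) ∧ (∀ v b, y v = !b → D.cp m i v b ≠ D.cp m i q b0)) ∧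
        Good i x y) :
    ∃ x y : C → Bool, Acyc (sx D.st m.1 m.2) x ∧ Acyc (sy D.st m.1 m.2) y ∧
      ∀ i, Good i (fun c => x c) (fun c => y c) := by
  refine (D.tree m).famI (D.tree_hrt m) (SQ (D.SG m)) (fun _ _ => Iff.rfl) (D.sig m) (fun _ _ _ => rfl) Good ?_ s
    ?_ ?_
  · intro c c' hc
    exact Tr.SG.Pc.sg (D.SG m) ((mk_eq _).mp hc)
  · intro i q b hq hs
    obtain ⟨x, y, r, r', h1, h2, h3, h4⟩ := h i q b (Eq.trans hq (D.rt_eq m q.2))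
    exact ⟨x, y, r, r', h1, h2, h4⟩
  · intro i q b hq hs
    obtain ⟨x, y, r, r', h1, h2, h3, h4⟩ := h i q b (Eq.trans hq (D.rt_eq m q.2))
    obtain ⟨rfl, h5, h6, h7, h8⟩ := h3 hs
    exact ⟨x, r, r', h1, h2, h5, h6, h7, h4⟩

/-- FAMILY II: in every piece of sign s the state x has the exit property at the circles of type ε s, the state y at
the circles of type !ε s -/
theorem famII (ε : Bool → Bool) (hε : Injective ε)
    (Good : ∀ i, (SQ (D.SG m) i → Bool) → (SQ (D.SG m) i → Bool) → Prop)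
    (h : ∀ i (q : SQ (D.SG m) i) b0, D.κ q b0 = (D.SG m).rc q →
      ∃ (x y : SQ (D.SG m) i → Bool) (r r' : SQ (D.SG m) i → ℕ),
        Rank (sx (D.sig m i) q b0) x r ∧ Rank (sy (D.sig m i) q b0) y r' ∧
        Ext (D.cp m i) (ε (D.sg q)) r x ∧ Ext (D.cp m i) (!ε (D.sg q)) r' y ∧
        (∀ e, x e = !ε (D.sg q) → D.cp m i e (ε (D.sg q)) ≠ D.cp m i q b0) ∧
        (∀ e, y e = ε (D.sg q) → D.cp m i e (!ε (D.sg q)) ≠ D.cp m i q b0) ∧ Good i x y) :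
    ∃ x y : C → Bool, Acyc (sx D.st m.1 m.2) x ∧ Acyc (sy D.st m.1 m.2) y ∧
      ∀ i, Good i (fun c => x c) (fun c => y c) := by
  refine (D.tree m).famII (D.tree_hrt m) (SQ (D.SG m)) (fun _ _ => Iff.rfl) (D.sig m) (fun _ _ _ => rfl) Good ?_ ε hε
    ?_
  · intro c c' hc
    exact Tr.SG.Pc.sg (D.SG m) ((mk_eq _).mp hc)
  · intro i q b hq
    exact h i q b (Eq.trans hq (D.rt_eq m q.2))

/-- FAMILY II with a mirror bit t -/
theorem famII' (t : Bool)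
    (Good : ∀ i, (SQ (D.SG m) i → Bool) → (SQ (D.SG m) i → Bool) → Prop)
    (h : ∀ i (q : SQ (D.SG m) i) b0, D.κ q b0 = (D.SG m).rc q →
      ∃ (x y : SQ (D.SG m) i → Bool) (r r' : SQ (D.SG m) i → ℕ),
        Rank (sx (D.sig m i) q b0) x r ∧ Rank (sy (D.sig m i) q b0) y r' ∧
        Ext (D.cp m i) (D.sg q ^^ t) r x ∧ Ext (D.cp m i) (!(D.sg q ^^ t)) r' y ∧
        (∀ e, x e = !(D.sg q ^^ t) → D.cp m i e (D.sg q ^^ t) ≠ D.cp m i q b0) ∧
        (∀ e, y e = (D.sg q ^^ t) → D.cp m i e (!(D.sg q ^^ t)) ≠ D.cp m i q b0) ∧ Good i x y) :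
    ∃ x y : C → Bool, Acyc (sx D.st m.1 m.2) x ∧ Acyc (sy D.st m.1 m.2) y ∧
      ∀ i, Good i (fun c => x c) (fun c => y c) := by
  refine D.famII m (fun s => s ^^ t) ?_ Good h
  intro a b
  cases a <;> cases b <;> cases t <;> simp

end PoolLib.MP_3cd99b_gt.Dm.Dg
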