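import Pool.Agent.Lib.MP_3cd99b_gt.FC2
import Pool.Agent.Lib.MP_3cd99b_gt.Fam4

/-!
# The support of an abstract planar alternating diagram without bridges

Final abstract theorem: only the planarity of the two sign classes is assumed.
-/

namespace PoolLib.MP_3cd99b_gt.Dm.Dg

open Relation Oct LG3P.Sm LG3P.Top LG3P.Gr Finset

variable {C : Type*} [Fintype C] [DecidableEq C] (D : Dg C) (m : C × Bool)

/-- **The support of an abstract diagram.** -/
theorem supp (hP : ∀ s, LG3P.PL.PlanarC D.st D.sg s) (a b : ℤ) :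
    (∃ x y : C → Bool, Acyc (sx D.st m.1 m.2) x ∧ Acyc (sy D.st m.1 m.2) y ∧
      ZA D.sg x y = a ∧ ZB D.sg x y = b) ↔
      a ≤ RR (D.SG m) true ∧ -(RR (D.SG m) false : ℤ) ≤ a ∧ b ≤ RR (D.SG m) true ∧ -(RR (D.SG m) false : ℤ) ≤ b ∧
      a + b ≤ ((univ.filter fun c => D.sg c = true).card : ℤ) ∧
      -((univ.filter fun c => D.sg c = false).card : ℤ) ≤ a + b ∧
      |a - b| ≤ (Fintype.card C : ℤ) + 1 - (Fintype.card (Ci D.st) : ℤ) :=
  D.support m (D.pln_of_planarC m hP) (fun s Good h => D.famI m s Good h) (fun t Good h => D.famII' m t Good h) a b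

end PoolLib.MP_3cd99b_gt.Dm.Dg
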