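import Pool.Agent.Lib.MP_3cd99b_gt.FC3

/-!
# The parameter `R` of the support, without pieces

`TC st sg s O`: the orientation `O` of the graph of the crossings of sign `s` (vertices: the circles; `O c = true`
directs `c` from its circle of type `false` to its circle of type `true`) is totally cyclic: every set of circles
which is entered by a crossing of sign `s` is left by one. `rS st sg s` is the greatest number of crossings of sign
`s` with `O c = true` in such an orientation.
-/

namespace PoolLib.MP_3cd99b_gt.Dm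

open Relation Oct LG3P.Sm LG3P.Top LG3P.Gr Finset

variable {C : Type*}

/-- the orientation `O` of the graph of the crossings of sign `s` is totally cyclic -/
def TC (st : Bool → Equiv.Perm C) (sg : C → Bool) (s : Bool) (O : C → Bool) : Prop :=
  ∀ T : Set (Ci st), (∃ c, sg c = s ∧ ci st c (!O c) ∉ T ∧ ci st c (O c) ∈ T) →
    ∃ c, sg c = s ∧ ci st c (!O c) ∈ T ∧ ci st c (O c) ∉ T

/-- the greatest number of crossings of sign `s` in one direction in a totally cyclic orientation -/
noncomputable def rS [Fintype C] (st : Bool → Equiv.Perm C) (sg : C → Bool) (s : Bool) : ℕ :=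
  sSup {n : ℕ | ∃ O, TC st sg s O ∧ (univ.filter fun c => sg c = s ∧ O c = true).card = n}

namespace Dg

variable [Fintype C] [DecidableEq C] (D : Dg C) (m : C × Bool)

omit [DecidableEq C] in
theorem card_sum (s : Bool) (O : C → Bool) :
    (univ.filter fun c => D.sg c = s ∧ O c = true).card =
      ∑ i : QP (D.SG m), if sgq (D.SG m) i = s then (univ.filter fun c : SQ (D.SG m) i => O c = true).card else 0 := by
  rw [card_pieces (D.SG m)]
  refine sum_congr rfl fun i _ => ?_
  split_ifs with h
  · congr 1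
    ext c
    have h1 : D.sg c = sgq (D.SG m) i := sgq_eq (D.SG m) c.2
    simp [h1, h]
  · rw [card_eq_zero, filter_eq_empty_iff]
    rintro c _ ⟨h1, -⟩
    have h2 : D.sg c = sgq (D.SG m) i := sgq_eq (D.SG m) c.2
    exact h (h2.symm.trans h1)

omit [DecidableEq C] in
/-- restriction of a totally cyclic orientation to a piece -/
theorem strong_of_tc {s : Bool} {O : C → Bool} (hO : TC D.st D.sg s O) (i : QP (D.SG m)) (hs : sgq (D.SG m) i = s) :
    LG3P.Gr.Strong (fun c => D.cp m i c false) (fun c => D.cp m i c true) (fun c => O c) := by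
  intro T hT1 hT2
  have hsg : ∀ c ∈ SQ (D.SG m) i, D.sg c = s := fun c hc => (sgq_eq (D.SG m) hc).trans hs
  have tl_eq : ∀ c : SQ (D.SG m) i, tl (fun c => D.cp m i c false) (fun c => D.cp m i c true) (fun c => O c) c =
      D.cp m i c (!O c) := by
    intro c
    unfold tl
    cases h : O c <;> simp [h]
  have hd_eq : ∀ c : SQ (D.SG m) i, hd (fun c => D.cp m i c false) (fun c => D.cp m i c true) (fun c => O c) c =
      D.cp m i c (O c) := by
    intro c
    unfold hd
    cases h : O c <;> simp [h]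
  have memT : ∀ (c : SQ (D.SG m) i) (b : Bool), D.κ c b ∈ Subtype.val '' T ↔ D.cp m i c b ∈ T := by
    intro c b
    constructor
    · rintro ⟨v, hv, h⟩
      have : v = D.cp m i c b := Subtype.ext h
      exact this ▸ hv
    · intro h
      exact ⟨_, h, rfl⟩
  -- a crossing of the piece across the boundary of T
  have hcross : ∃ c : SQ (D.SG m) i, ¬ (D.cp m i c true ∈ T ↔ D.cp m i c false ∈ T) := by
    by_contra hcon
    push Not at hcon
    obtain ⟨⟨v, c, hc, b, rfl⟩, hv⟩ := hT1
    have h1 := (LG3P.Sm.piece (D.SG m) i).conn (Subtype.val '' T) ⟨c, hc, b, (memT ⟨c, hc⟩ b).2 hv⟩ (by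
      intro c' hc'
      have h2 := memT ⟨c', hc'⟩
      show D.κ c' true ∈ Subtype.val '' T ↔ D.κ c' false ∈ Subtype.val '' T
      exact (h2 true).trans ((hcon ⟨c', hc'⟩).trans (h2 false).symm))
    apply hT2
    rw [Set.eq_univ_iff_forall]
    rintro ⟨v, c', hc', b', rfl⟩
    exact (memT ⟨c', hc'⟩ b').1 (h1 c' hc' b')
  obtain ⟨c, hc⟩ := hcross
  by_cases hl : D.cp m i c (!O c) ∈ T ∧ D.cp m i c (O c) ∉ T
  · exact ⟨c, by rw [tl_eq]; exact hl.1, by rw [hd_eq]; exact hl.2⟩
  · have he : D.cp m i c (!O c) ∉ T ∧ D.cp m i c (O c) ∈ T := by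
      revert hl hc
      cases O c <;> simp only [Bool.not_false, Bool.not_true] <;> tauto
    obtain ⟨e, he1, he2, he3⟩ := hO (Subtype.val '' T)
      ⟨c, hsg c c.2, fun h => he.1 ((memT c _).1 h), (memT c _).2 he.2⟩
    have hmem : e ∈ SQ (D.SG m) i := by
      obtain ⟨⟨v, c', hc', b', hv⟩, -, h2⟩ := he2
      have h3 : D.κ c' b' = D.κ e (!O e) := hv.trans h2
      exact (LG3P.Sm.piece (D.SG m) i).closed c' hc' e b' (!O e) h3 (he1.trans (hsg c' hc').symm)
    refine ⟨⟨e, hmem⟩, ?_, ?_⟩
    · rw [tl_eq]; exact (memT ⟨e, hmem⟩ _).1 he2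
    · rw [hd_eq]; exact fun h => he3 ((memT ⟨e, hmem⟩ _).2 h)

/-- **`RR` is `rS`**: independent of the pieces and of the cut -/
theorem RR_eq (s : Bool) : RR (D.SG m) s = rS D.st D.sg s := by
  classical
  have hbdd : BddAbove {n : ℕ | ∃ O, TC D.st D.sg s O ∧ (univ.filter fun c => D.sg c = s ∧ O c = true).card = n} := by
    refine ⟨Fintype.card C, ?_⟩
    rintro n ⟨O, _, rfl⟩
    exact card_le_univ _
  -- the greatest orientations of the pieces
  have hex : ∀ i : QP (D.SG m), ∃ O : SQ (D.SG m) i → Bool,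
      LG3P.Gr.Strong (fun c => D.cp m i c false) (fun c => D.cp m i c true) O ∧
        (univ.filter fun c => O c = true).card = rr (D.cp m i) := by
    intro i
    have hb : BddAbove {n : ℕ | ∃ O, LG3P.Gr.Strong (fun c => D.cp m i c false) (fun c => D.cp m i c true) O ∧
        (univ.filter fun c => O c = true).card = n} := by
      refine ⟨Fintype.card (SQ (D.SG m) i), ?_⟩
      rintro n ⟨O, _, rfl⟩
      exact card_le_univ _
    have hne : {n : ℕ | ∃ O, LG3P.Gr.Strong (fun c => D.cp m i c false) (fun c => D.cp m i c true) O ∧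
        (univ.filter fun c => O c = true).card = n}.Nonempty := by
      obtain ⟨O, hO, -⟩ := boesch_tindell (piece_bl (LG3P.Sm.side (D.SG m)) (LG3P.Sm.piece (D.SG m) i) D.brid) ∅ (by
        intro S hS1 hS2
        right
        by_contra hcon
        push Not at hcon
        obtain ⟨⟨v, c, hc, b, rfl⟩, hv⟩ := hS1
        have memT : ∀ (c : SQ (D.SG m) i) (b : Bool), D.κ c b ∈ Subtype.val '' S ↔ D.cp m i c b ∈ S := by
          intro c b
          constructor
          · rintro ⟨v, hv, h⟩
            have : v = D.cp m i c b := Subtype.ext h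
            exact this ▸ hv
          · intro h
            exact ⟨_, h, rfl⟩
        have h1 := (LG3P.Sm.piece (D.SG m) i).conn (Subtype.val '' S) ⟨c, hc, b, (memT ⟨c, hc⟩ b).2 hv⟩ (by
          intro c' hc'
          have h2 := memT ⟨c', hc'⟩
          have h3 := hcon ⟨c', hc'⟩ (by simp)
          show D.κ c' true ∈ Subtype.val '' S ↔ D.κ c' false ∈ Subtype.val '' S
          rw [h2 true, h2 false]
          constructor
          · exact fun h => h3.2 h
          · exact fun h => h3.1 h)
        apply hS2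
        rw [Set.eq_univ_iff_forall]
        rintro ⟨v, c', hc', b', rfl⟩
        exact (memT ⟨c', hc'⟩ b').1 (h1 c' hc' b'))
      exact ⟨_, O, hO, rfl⟩
    obtain ⟨O, hO, h⟩ := Nat.sSup_mem hne hb
    exact ⟨O, hO, h⟩
  choose Om hOm1 hOm2 using hex
  let O : C → Bool := fun c => Om (LG3P.Sm.mk (D.SG m) c) ⟨c, rfl⟩
  have hOeq : ∀ i (c : SQ (D.SG m) i), O c = Om i c := by
    rintro i ⟨c, rfl⟩
    rfl
  have hTC : TC D.st D.sg s O := by
    rintro T ⟨c, hc, h1, h2⟩
    have hstrong := hOm1 (LG3P.Sm.mk (D.SG m) c)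
    obtain ⟨e, he1, he2⟩ := hstrong (Subtype.val ⁻¹' T) ⟨D.cp m _ ⟨c, rfl⟩ (O c), h2⟩ (by
      intro h
      have h3 : D.cp m (LG3P.Sm.mk (D.SG m) c) ⟨c, rfl⟩ (!O c) ∈ Subtype.val ⁻¹' T := by rw [h]; trivial
      exact h1 h3)
    refine ⟨e, ?_, ?_, ?_⟩
    · rw [show D.sg e = D.sg c from D.sg_mem m _ e.2 rfl]; exact hc
    · have h3 := he1
      unfold tl at h3
      rw [hOeq _ e]
      cases h4 : Om _ e <;> rw [h4] at h3 <;> exact h3
    · have h3 := he2
      unfold hd at h3
      rw [hOeq _ e]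
      cases h4 : Om _ e <;> rw [h4] at h3 <;> exact h3
  apply le_antisymm
  · have h1 : (univ.filter fun c => D.sg c = s ∧ O c = true).card = RR (D.SG m) s := by
      rw [D.card_sum m s O]
      unfold RR
      refine sum_congr rfl fun i _ => ?_
      split_ifs
      · refine Eq.trans ?_ (hOm2 i)
        congr 1
        ext c
        rw [mem_filter, mem_filter, hOeq i c]
      · rfl
    rw [← h1]
    exact le_csSup hbdd ⟨O, hTC, rfl⟩
  · refine csSup_le ⟨_, O, hTC, rfl⟩ ?_
    rintro n ⟨O', hO', rfl⟩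
    rw [D.card_sum m s O']
    unfold RR
    refine sum_le_sum fun i _ => ?_
    split_ifs with h
    · have h2 := le_rr (D.cp m i) (fun c => O' c) (D.strong_of_tc m hO' i h)
      rw [A_eq] at h2
      exact_mod_cast h2
    · exact le_rfl

/-- **The support of an abstract diagram**, all parameters explicit. -/
theorem supp' (hP : ∀ s, LG3P.PL.PlanarC D.st D.sg s) (a b : ℤ) :
    (∃ x y : C → Bool, Acyc (sx D.st m.1 m.2) x ∧ Acyc (sy D.st m.1 m.2) y ∧
      ZA D.sg x y = a ∧ ZB D.sg x y = b) ↔
      a ≤ rS D.st D.sg true ∧ -(rS D.st D.sg false : ℤ) ≤ a ∧ b ≤ rS D.st D.sg true ∧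
      -(rS D.st D.sg false : ℤ) ≤ b ∧ a + b ≤ ((univ.filter fun c => D.sg c = true).card : ℤ) ∧
      -((univ.filter fun c => D.sg c = false).card : ℤ) ≤ a + b ∧
      |a - b| ≤ (Fintype.card C : ℤ) + 1 - (Fintype.card (Ci D.st) : ℤ) := by
  rw [← D.RR_eq m true, ← D.RR_eq m false]
  exact D.supp m hP a b

end Dg

end PoolLib.MP_3cd99b_gt.Dm
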