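import Pool.Agent.Lib.MP_3cd99b_gt.FC4

/-!
# The bounds of the octagon are attained

`Dg.tight`: relations between the parameters. `attained`: pure arithmetic. `Dg.supp_attained`: every bound of the
octagon is attained by the support.
-/

namespace PoolLib.MP_3cd99b_gt.Dm

open Relation Oct LG3P.Sm LG3P.Top LG3P.Gr Finset

variable {C : Type*}

/-- the octagon with parameters r, r', p, n, d -/
def InOct (r r' p n d a b : ℤ) : Prop :=
  a ≤ r ∧ -r' ≤ a ∧ b ≤ r ∧ -r' ≤ b ∧ a + b ≤ p ∧ -n ≤ a + b ∧ |a - b| ≤ d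

/-- arithmetic: every bound of the octagon is attained -/
theorem inOct_attained (r r' p n d d1 d2 : ℤ) (h1 : LG3P.R4.Adm r p d1) (h2 : LG3P.R4.Adm r' n d2)
    (hd : d1 + d2 = d) (hpn : 1 ≤ p + n) :
    (∃ a b, InOct r r' p n d a b ∧ a + b = p) ∧ (∃ a b, InOct r r' p n d a b ∧ a + b = -n) ∧
    (∃ a b, InOct r r' p n d a b ∧ a - b = d) ∧ (∃ a b, InOct r r' p n d a b ∧ a = r) ∧
    (∃ a b, InOct r r' p n d a b ∧ a = -r') := by
  obtain ⟨a1, a2, a3, a4⟩ := h1
  obtain ⟨b1, b2, b3, b4⟩ := h2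
  simp only [InOct, abs_le]
  refine ⟨⟨(p + 1) / 2, p / 2, ?_⟩, ⟨(-n + 1) / 2, (-n) / 2, ?_⟩, ?_, ⟨r, p - r, ?_⟩, ⟨-r', r' - n, ?_⟩⟩
  · omega
  · omega
  · rcases le_total (d - r') ((d - n + 1) / 2) with h | h
    · exact ⟨(d - n + 1) / 2, (d - n + 1) / 2 - d, by omega⟩
    · exact ⟨d - r', -r', by omega⟩
  · omega
  · omega

namespace Dg

variable [Fintype C] [DecidableEq C] (D : Dg C) (m : C × Bool)

include m in
/-- the parameters of the octagon are admissible -/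
theorem tight (hP : ∀ s, LG3P.PL.PlanarC D.st D.sg s) : ∃ d1 d2 : ℤ,
    LG3P.R4.Adm (rS D.st D.sg true) ((univ.filter fun c => D.sg c = true).card : ℤ) d1 ∧
    LG3P.R4.Adm (rS D.st D.sg false) ((univ.filter fun c => D.sg c = false).card : ℤ) d2 ∧
    d1 + d2 = (Fintype.card C : ℤ) + 1 - (Fintype.card (Ci D.st) : ℤ) := by
  classical
  have hadm := D.admI m (D.pln_of_planarC m hP)
  have h := LG3P.R4.Adm.tot (sg := sgq (D.SG m)) hadm true
  have h' := LG3P.R4.Adm.tot (sg := sgq (D.SG m)) hadm false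
  have e1 : ∀ s, LG3P.R4.tot (sgq (D.SG m)) s (fun i => ((rr (D.cp m i) : ℕ) : ℤ)) = (rS D.st D.sg s : ℤ) := by
    intro s
    rw [← D.RR_eq m s]
    exact tot_rr (D.SG m) s
  have e2 : ∀ s, LG3P.R4.tot (sgq (D.SG m)) s (fun i => ((Fintype.card (SQ (D.SG m) i) : ℕ) : ℤ)) =
      ((univ.filter fun c => D.sg c = s).card : ℤ) := fun s => tot_n (D.SG m) s
  rw [e1, e2] at h h'
  refine ⟨_, _, h, h', ?_⟩
  rw [LG3P.R4.tot_add]
  exact sum_d (D.SG m)

/-- every bound of the octagon is attained -/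
theorem supp_attained (hP : ∀ s, LG3P.PL.PlanarC D.st D.sg s) (S : ℤ → ℤ → Prop)
    (hS : ∀ a b, S a b ↔ (∃ x y : C → Bool, Acyc (sx D.st m.1 m.2) x ∧ Acyc (sy D.st m.1 m.2) y ∧
      ZA D.sg x y = a ∧ ZB D.sg x y = b)) :
    (∃ a b, S a b ∧ a + b = ((univ.filter fun c => D.sg c = true).card : ℤ)) ∧
    (∃ a b, S a b ∧ a + b = -((univ.filter fun c => D.sg c = false).card : ℤ)) ∧
    (∃ a b, S a b ∧ a - b = (Fintype.card C : ℤ) + 1 - (Fintype.card (Ci D.st) : ℤ)) ∧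
    (∃ a b, S a b ∧ a = rS D.st D.sg true) ∧ (∃ a b, S a b ∧ a = -(rS D.st D.sg false : ℤ)) := by
  obtain ⟨d1, d2, h1, h2, h3⟩ := D.tight m hP
  have hcard : (univ.filter fun c => D.sg c = true).card + (univ.filter fun c => D.sg c = false).card =
      Fintype.card C := by
    rw [← card_univ, ← card_filter_add_card_filter_not (s := univ) (fun c => D.sg c = true)]
    congr 2
    ext c
    simp
  have hpos : 0 < Fintype.card C := Fintype.card_pos_iff.2 ⟨m.1⟩
  have key := inOct_attained _ _ _ _ _ d1 d2 h1 h2 h3 (by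
    have : ((Fintype.card C : ℕ) : ℤ) = ((univ.filter fun c => D.sg c = true).card : ℤ) +
      ((univ.filter fun c => D.sg c = false).card : ℤ) := by exact_mod_cast hcard.symm
    have h4 : (1 : ℤ) ≤ (Fintype.card C : ℤ) := by exact_mod_cast hpos
    linarith)
  have hiff : ∀ a b, S a b ↔ InOct (rS D.st D.sg true) (rS D.st D.sg false)
      ((univ.filter fun c => D.sg c = true).card : ℤ) ((univ.filter fun c => D.sg c = false).card : ℤ)
      ((Fintype.card C : ℤ) + 1 - (Fintype.card (Ci D.st) : ℤ)) a b :=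
    fun a b => (hS a b).trans (D.supp' m hP a b)
  simp only [hiff]
  exact key

/-- there are acyclic states for both systems -/
theorem exists_acyc (hP : ∀ s, LG3P.PL.PlanarC D.st D.sg s) :
    ∃ x y : C → Bool, Acyc (sx D.st m.1 m.2) x ∧ Acyc (sy D.st m.1 m.2) y := by
  obtain ⟨d1, d2, h1, h2, h3⟩ := D.tight m hP
  obtain ⟨a1, a2, a3, a4⟩ := h1
  obtain ⟨b1, b2, b3, b4⟩ := h2
  obtain ⟨x, y, hx, hy, -⟩ := (D.supp' m hP 0 0).2 (by
    refine ⟨by positivity, by simp, by positivity, by simp, by simp, by simp, ?_⟩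
    rw [← h3]
    simp only [sub_self, abs_zero]
    linarith)
  exact ⟨x, y, hx, hy⟩

end Dg

end PoolLib.MP_3cd99b_gt.Dm
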