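import Pool.Agent.Lib.MP_3cd99b_gt.Gl
import Pool.Agent.Lib.MP_3cd99b_gt.Fr

/-!
Families of global states from local states of the pieces.
-/

namespace PoolLib.MP_3cd99b_gt.Oct

open Function Finset

/-- the circles and pieces of a diagram: st b c = next crossing on the circle of type b, circ c b = circle of type b
through c, sg = sign, pc = piece, rt = root circle of a piece, dep = depth of a piece, lv = level of a circle; the
cut is on the circle of type b0 between c0 and st b0 c0 -/
structure Tree (C K P : Type*) where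
  /-- next crossing -/
  st : Bool → Equiv.Perm C
  /-- cut crossing -/
  c0 : C
  /-- cut type -/
  b0 : Bool
  /-- circle -/
  circ : C → Bool → K
  /-- sign -/
  sg : C → Bool
  /-- piece -/
  pc : C → P
  /-- root circle of a piece -/
  rt : P → K
  /-- depth of a piece -/
  dep : P → ℕ
  /-- level of a circle -/
  lv : K → ℕ
  circ_st : ∀ b c, circ (st b c) b = circ c b
  orbit : ∀ c b c' b', circ c b = circ c' b' → b = b' ∧ ∃ n, 0 < n ∧ (st b ^ n) c = c'
  pc_of : ∀ c c' b, circ c b = circ c' b → sg c = sg c' → pc c = pc c'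
  dep_out : ∀ c b, circ c b ≠ rt (pc c) → dep (pc c) = lv (circ c b)
  dep_inn : ∀ c b, circ c b = rt (pc c) → dep (pc c) = lv (circ c b) + 1
  root : ∀ c b, circ c b = circ c0 b0 → rt (pc c) = circ c0 b0
  diff : ∀ c c' b, circ c b = circ c' b → circ c b ≠ circ c0 b0 → sg c ≠ sg c' →
    (circ c b = rt (pc c) ↔ circ c' b ≠ rt (pc c'))
  hasout : ∀ c b, circ c b = rt (pc c) → circ c b ≠ circ c0 b0 →
    ∃ c', circ c' b = circ c b ∧ circ c' b ≠ rt (pc c')

namespace Tree

variable {C K P : Type*} (T : Tree C K P)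

/-- the root circle of the diagram -/
def K0 : K := T.circ T.c0 T.b0

/-- the permutation of the slots -/
def nx : Equiv.Perm (C × Bool) := Equiv.prodCongrLeft T.st

theorem nx_apply (c : C) (b : Bool) : T.nx (c, b) = (T.st b c, b) := rfl

theorem nx_pow (n : ℕ) (c : C) (b : Bool) : (T.nx ^ n) (c, b) = ((T.st b ^ n) c, b) := by
  induction n with
  | zero => rfl
  | succ n ih => rw [pow_succ', Equiv.Perm.mul_apply, ih, nx_apply, pow_succ', Equiv.Perm.mul_apply]

theorem circ_pow (n : ℕ) (c : C) (b : Bool) : T.circ ((T.st b ^ n) c) b = T.circ c b := by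
  induction n with
  | zero => rfl
  | succ n ih => rw [pow_succ', Equiv.Perm.mul_apply, T.circ_st, ih]

/-- the x-parents of the diagram -/
def par [DecidableEq C] : C → Bool → Option C := cutSys T.nx (T.c0, T.b0)

/-- next crossing of the same piece on the circle of type b -/
noncomputable def frs [Finite C] (b : Bool) : Equiv.Perm C := fr (T.st b) T.sg

/-- a local x-state on the piece Q with cut after the slot q -/
structure LocalX [Finite C] (dx : K → Prop) (Q : P) (q : C × Bool) (x : C → Bool) (r : C → ℕ) : Prop where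
  rank : ∀ c, T.pc c = Q → (c, x c) ≠ q → r (T.frs (x c) c) < r c
  quiet : ¬ dx (T.rt Q) → T.rt Q ≠ T.K0 → ∀ c b, T.pc c = Q → T.circ c b = T.rt Q → x c = b
  ext : ∀ e c b, T.pc e = Q → T.pc c = Q → T.circ e b = T.circ c b → T.circ c b ≠ T.rt Q → dx (T.circ c b) →
    x e ≠ b → x c = b → r e < r c

/-- FAMILY LEMMA for x: local states with matching cuts give an acyclic global state -/
theorem famX [Fintype C] [DecidableEq C] (dx : K → Prop) (x : C → Bool) (r : C → ℕ) (cut : P → C × Bool)
    (hcut : ∀ c, T.pc (cut (T.pc c)).1 = T.pc c ∧ T.circ (cut (T.pc c)).1 (cut (T.pc c)).2 = T.rt (T.pc c))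
    (hloc : ∀ c, T.LocalX dx (T.pc c) (cut (T.pc c)) x r)
    (hroot : ∀ c, T.rt (T.pc c) = T.K0 → ∃ k, k < frk (T.st (cut (T.pc c)).2) T.sg (cut (T.pc c)).1 ∧
      (T.st (cut (T.pc c)).2 ^ k) (cut (T.pc c)).1 = T.c0)
    (hdet : ∀ c, T.rt (T.pc c) ≠ T.K0 → dx (T.rt (T.pc c)) → ∃ k, 0 < k ∧
      k < frk (T.st (cut (T.pc c)).2) T.sg (cut (T.pc c)).1 ∧
      x ((T.st (cut (T.pc c)).2 ^ k) (cut (T.pc c)).1) ≠ (cut (T.pc c)).2)
    (s1 : Bool) (hs1 : ∀ c, T.circ c T.b0 = T.K0 → T.sg c = s1 → x c = T.b0) : Acyc T.par x := by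
  classical
  obtain ⟨N, hN⟩ : ∃ N, ∀ c, r c ≤ N := ⟨Finset.univ.sup r, fun c => Finset.le_sup (Finset.mem_univ c)⟩
  have bK0 : ∀ c b, T.circ c b = T.K0 → b = T.b0 := fun c b h => (T.orbit c b T.c0 T.b0 h).1
  have rtK0 : ∀ c b, T.circ c b = T.K0 → T.rt (T.pc c) = T.K0 := T.root
  -- two outer slots of one circle
  have outout : ∀ c c' b, T.circ c b = T.circ c' b → T.circ c b ≠ T.rt (T.pc c) → T.circ c' b ≠ T.rt (T.pc c') →
      T.sg c = T.sg c' := by
    intro c c' b h ho ho'
    by_contra hne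
    have hk : T.circ c b ≠ T.circ T.c0 T.b0 := fun h' => ho (by rw [T.root c b h', h'])
    exact ho ((T.diff c c' b h hk hne).mpr ho')
  have key := glue (W := C) (K := K) T.nx (T.c0, T.b0) x (fun z => T.circ z.1 z.2)
    (by rintro ⟨c, b⟩; exact T.circ_st b c)
    (by
      rintro ⟨c, b⟩ ⟨c', b'⟩ h
      obtain ⟨e, n, hn, hn'⟩ := T.orbit c b c' b' h
      refine ⟨n, hn, ?_⟩
      rw [T.nx_pow, hn', e])
    (fun z => T.circ z.1 z.2 ≠ T.rt (T.pc z.1)) T.lv (fun c => T.dep (T.pc c)) (fun c => T.rt (T.pc c))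
    (fun k => dx k ∧ k ≠ T.K0 ∧ ∃ c b, T.circ c b = k ∧ k = T.rt (T.pc c))
    (fun c => r c + if T.rt (T.pc c) = T.K0 ∧ T.sg c = s1 then N + 1 else 0)
    (by rintro ⟨c, b⟩ h; exact T.dep_out c b h)
    (by rintro ⟨c, b⟩ h; exact T.dep_inn c b (not_not.mp h))
    (by rintro ⟨c, b⟩ h; exact (not_not.mp h).symm)
    (by
      rintro ⟨c, b⟩ ⟨c', b'⟩ h ho ho'
      obtain ⟨e, -⟩ := T.orbit c b c' b' h
      simp only at e h ho ho' ⊢
      subst e
      rw [T.pc_of c c' b h (outout c c' b h ho ho')])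
    (by
      rintro k ⟨hd, hk, c, b, hc, hk'⟩ -
      obtain ⟨h1, h2⟩ := hcut c
      have hrt : T.rt (T.pc c) ≠ T.K0 := by rw [← hk']; exact hk
      obtain ⟨j, hj0, hj1, hj2⟩ := hdet c hrt (by rw [← hk']; exact hd)
      set q := cut (T.pc c) with hq
      have hcj : T.circ ((T.st q.2 ^ j) q.1) q.2 = k := by rw [T.circ_pow, h2, ← hk']
      refine ⟨((T.st q.2 ^ j) q.1, q.2), hcj, ?_, hj2⟩
      have hne : T.sg ((T.st q.2 ^ j) q.1) ≠ T.sg q.1 := (frk_spec (T.st q.2) T.sg q.1).2.2 j hj0 hj1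
      have h3 := T.diff q.1 ((T.st q.2 ^ j) q.1) q.2 (by rw [T.circ_pow]) (by rw [h2]; exact hrt) hne.symm
      exact h3.mp (by rw [h2, h1]))
    (by
      rintro ⟨c, b⟩ h
      exact not_not.mpr (by rw [rtK0 c b h]; exact h))
    (by
      rintro ⟨c, b⟩ h _ hk
      obtain ⟨c', g1, g2⟩ := T.hasout c b (not_not.mp h) hk
      exact ⟨(c', b), g1, g2⟩)
    (by
      rintro ⟨c, b⟩ hD hk h
      have h' : T.circ c b = T.rt (T.pc c) := not_not.mp h
      refine (hloc c).quiet ?_ (by rw [← h']; exact hk) c b rfl h'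
      intro hd
      exact hD ⟨by rw [← h'] at hd; exact hd, hk, c, b, rfl, h'⟩)
    ?_ ?_ ?_ ?_
  · exact key
  · -- root circle
    rintro c z rfl hk
    have hb := bK0 c (x c) hk
    have hrt := rtK0 c (x c) hk
    obtain ⟨hc1, hc2⟩ := hcut c
    by_cases hs : T.sg c = s1
    · -- quiet side
      obtain ⟨-, n, hn, hn'⟩ := T.orbit c (x c) T.c0 T.b0 hk
      by_cases hall : ∀ i, 0 < i → i ≤ n → x ((T.st (x c) ^ i) c) = x c
      · left
        refine ⟨n, by rw [T.nx_pow, hn', hb], ?_⟩
        intro i hi hi'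
        rw [T.nx_pow]; exact hall i hi hi'
      · right
        push Not at hall
        have hex : ∃ i, 0 < i ∧ i ≤ n ∧ x ((T.st (x c) ^ i) c) ≠ x c := hall
        obtain ⟨g0, g1, g2⟩ := Nat.find_spec hex
        refine ⟨Nat.find hex, g0, ?_, ?_⟩
        · rw [T.nx_pow]
          have hci : T.circ ((T.st (x c) ^ (Nat.find hex)) c) (x c) = T.K0 := by rw [T.circ_pow]; exact hk
          have hsi : T.sg ((T.st (x c) ^ (Nat.find hex)) c) ≠ s1 := by
            intro h
            apply g2
            rw [hs1 _ (by rw [← hb]; exact hci) h, hb]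
          simp only [hsi, and_false, if_false, hrt, hs, and_self, if_true]
          have := hN ((T.st (x c) ^ (Nat.find hex)) c)
          omega
        · intro i hi hi'
          rw [T.nx_pow]
          by_contra h
          exact Nat.find_min hex hi' ⟨hi, le_trans hi'.le g1, h⟩
    · -- the side which may have exits
      have hbt : ∀ i, 0 < i → i < frk (T.st (x c)) T.sg c → x ((T.st (x c) ^ i) c) = x c := by
        intro i hi hi'
        have h1 : T.sg ((T.st (x c) ^ i) c) ≠ T.sg c := (frk_spec (T.st (x c)) T.sg c).2.2 i hi hi'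
        have h2 : T.sg ((T.st (x c) ^ i) c) = s1 := by
          revert h1 hs
          generalize T.sg ((T.st (x c) ^ i) c) = u
          generalize T.sg c = v
          cases u <;> cases v <;> cases s1 <;> simp
        have hci : T.circ ((T.st (x c) ^ i) c) T.b0 = T.K0 := by rw [← hb, T.circ_pow]; exact hk
        rw [hs1 _ hci h2, hb]
      by_cases hq : (c, x c) = cut (T.pc c)
      · left
        obtain ⟨k, hk1, hk2⟩ := hroot c hrt
        rw [← hq] at hk1 hk2
        simp only at hk1 hk2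
        refine ⟨k, by rw [T.nx_pow, hk2, hb], ?_⟩
        intro i hi hi'
        rw [T.nx_pow]; exact hbt i hi (lt_of_le_of_lt hi' hk1)
      · right
        refine ⟨frk (T.st (x c)) T.sg c, (frk_spec (T.st (x c)) T.sg c).1, ?_, ?_⟩
        · rw [T.nx_pow]
          have h1 := (hloc c).rank c rfl hq
          have h2 : T.sg ((T.st (x c) ^ (frk (T.st (x c)) T.sg c)) c) = T.sg c := (frk_spec (T.st (x c)) T.sg c).2.1
          have h3 : T.frs (x c) c = (T.st (x c) ^ (frk (T.st (x c)) T.sg c)) c := rfl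
          rw [h3] at h1
          simp only [h2, hs, and_false, if_false, add_zero]
          exact h1
        · intro i hi hi'
          rw [T.nx_pow]; exact hbt i hi hi'
  · -- outer slots on detour circles
    rintro c z rfl ho ⟨hd, hk, -⟩ ⟨e, b⟩ he ho' hx
    obtain ⟨eb, -⟩ := T.orbit e b c (x c) he
    simp only at eb he ho' hx ho hd hk ⊢
    subst eb
    have hsg := outout e c (x c) he ho' ho
    have hpc := T.pc_of e c (x c) he hsg
    have h1 := (hloc c).ext e c (x c) hpc rfl he ho hd hx rfl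
    rw [hpc, hsg]
    omega
  · -- outer slots on quiet circles
    rintro c z rfl ho hD
    simp only at ho hD
    have hspec := frk_spec (T.st (x c)) T.sg c
    have hkk : T.circ c (x c) ≠ T.circ T.c0 T.b0 := fun h' => ho (by rw [T.root c _ h', h'])
    refine ⟨frk (T.st (x c)) T.sg c, hspec.1, ?_, ?_, ?_⟩
    · rw [T.nx_pow]
      simp only
      rw [T.circ_pow, T.pc_of _ c (x c) (T.circ_pow _ _ _) hspec.2.1]
      exact ho
    · rw [T.nx_pow]
      simp only
      rw [T.pc_of _ c (x c) (T.circ_pow _ _ _) hspec.2.1, hspec.2.1]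
      have hq : (c, x c) ≠ cut (T.pc c) := by
        intro h
        have := (hcut c).2
        rw [← h] at this
        exact ho this
      have h1 := (hloc c).rank c rfl hq
      have h3 : T.frs (x c) c = (T.st (x c) ^ (frk (T.st (x c)) T.sg c)) c := rfl
      rw [h3] at h1
      omega
    · intro i hi hi'
      rw [T.nx_pow]
      have h1 := hspec.2.2 i hi hi'
      have h2 := T.diff ((T.st (x c) ^ i) c) c (x c) (T.circ_pow _ _ _) (by rw [T.circ_pow]; exact hkk) h1
      exact not_not.mpr (h2.mpr ho)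
  · -- inner slots on detour circles
    rintro c z rfl ho ⟨hd, hk, -⟩
    simp only at ho hd hk
    have ho' : T.circ c (x c) = T.rt (T.pc c) := not_not.mp ho
    have hspec := frk_spec (T.st (x c)) T.sg c
    have hout : ∀ i, 0 < i → i < frk (T.st (x c)) T.sg c →
        T.circ ((T.st (x c) ^ i) c) (x c) ≠ T.rt (T.pc ((T.st (x c) ^ i) c)) := by
      intro i hi hi'
      have h1 := hspec.2.2 i hi hi'
      exact (T.diff c ((T.st (x c) ^ i) c) (x c) (T.circ_pow _ _ _).symm hk h1.symm).mp ho'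
    by_cases hq : (c, x c) = cut (T.pc c)
    · obtain ⟨k, hk0, hk1, hk2⟩ := hdet c (by rw [← ho']; exact hk) (by rw [← ho']; exact hd)
      rw [← hq] at hk1 hk2
      simp only at hk1 hk2
      refine ⟨k, hk0, ?_, Or.inl ⟨?_, ?_⟩⟩
      · intro i hi hi'
        rw [T.nx_pow]; exact hout i hi (by omega)
      · rw [T.nx_pow]; exact hout k hk0 hk1
      · rw [T.nx_pow]; exact hk2
    · refine ⟨frk (T.st (x c)) T.sg c, hspec.1, ?_, Or.inr ⟨?_, ?_⟩⟩
      · intro i hi hi'
        rw [T.nx_pow]; exact hout i hi hi'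
      · rw [T.nx_pow]
        simp only
        rw [T.circ_pow, T.pc_of _ c (x c) (T.circ_pow _ _ _) hspec.2.1]
        exact ho
      · rw [T.nx_pow]
        simp only
        rw [T.pc_of _ c (x c) (T.circ_pow _ _ _) hspec.2.1, hspec.2.1]
        have h1 := (hloc c).rank c rfl hq
        have h3 : T.frs (x c) c = (T.st (x c) ^ (frk (T.st (x c)) T.sg c)) c := rfl
        rw [h3] at h1
        omega

end Tree

end PoolLib.MP_3cd99b_gt.Oct
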