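import Pool.Agent.Lib.MP_3cd99b_gt.Top

/-!
# Upper bounds for the pieces of a mixed diagram (P2, MP_3cd99b_gt)

`σ b c` = next crossing on the circle of type `b` through `c`, `circ c b` = this circle, `sg c` = sign,
`Side circ sg` = helper32's hypothesis (J): for every circle there is an inside/outside function on the circles.
A piece: a set `S` of crossings of one sign which is closed under sharing a circle with equal sign and connected.
-/

namespace LG3P.R5

open Finset Function PoolLib.MP_3cd99b_gt.Oct LG3P.Gr LG3P.Top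

variable {E V : Type*}

/-- (J): inside and outside of every circle -/
def Side (circ : E → Bool → V) (sg : E → Bool) : Prop :=
  ∀ Z : V, ∃ f : V → Bool, (∀ c, circ c true ≠ Z → circ c false ≠ Z → f (circ c true) = f (circ c false)) ∧
    ∀ c b, circ c b = Z → f (circ c (!b)) = sg c

/-- a piece -/
structure Piece (circ : E → Bool → V) (sg : E → Bool) (S : Set E) : Prop where
  /-- one sign -/
  sign : ∀ c ∈ S, ∀ c' ∈ S, sg c = sg c'
  /-- closed -/
  closed : ∀ c ∈ S, ∀ c' b b', circ c b = circ c' b' → sg c' = sg c → c' ∈ S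
  /-- connected (cut form) -/
  conn : ∀ T : Set V, (∃ c ∈ S, ∃ b, circ c b ∈ T) → (∀ c ∈ S, (circ c true ∈ T ↔ circ c false ∈ T)) →
    ∀ c ∈ S, ∀ b, circ c b ∈ T
  /-- not empty -/
  ne : S.Nonempty

/-- two circles of a piece are not joined by the other crossings -/
theorem not_joined {circ : E → Bool → V} {sg : E → Bool} (hJ : Side circ sg) {S : Set E} (hS : Piece circ sg S)
    {c₁ c₂ : E} (h₁ : c₁ ∈ S) (h₂ : c₂ ∈ S) (b₁ b₂ : Bool)
    (h : Relation.EqvGen (fun u v => ∃ c, c ∉ S ∧ u = circ c true ∧ v = circ c false) (circ c₁ b₁) (circ c₂ b₂)) :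
    circ c₁ b₁ = circ c₂ b₂ := by
  by_contra hne
  obtain ⟨f, hf1, hf2⟩ := hJ (circ c₁ b₁)
  -- inside the piece
  have hA : f (circ c₂ b₂) = sg c₁ := by
    have hT := hS.conn {v | v = circ c₁ b₁ ∨ f v = sg c₁} ⟨c₁, h₁, b₁, Or.inl rfl⟩ (by
      intro c hc
      have hs : sg c = sg c₁ := hS.sign c hc c₁ h₁
      have ht := hf2 c true
      have hf := hf2 c false
      simp only [Bool.not_true, Bool.not_false] at ht hf
      by_cases e1 : circ c true = circ c₁ b₁
      · have := ht e1
        exact ⟨fun _ => Or.inr (this.trans hs), fun _ => Or.inl e1⟩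
      · by_cases e2 : circ c false = circ c₁ b₁
        · have := hf e2
          exact ⟨fun _ => Or.inl e2, fun _ => Or.inr (this.trans hs)⟩
        · have := hf1 c e1 e2
          constructor
          · rintro (h | h)
            · exact absurd h e1
            · exact Or.inr (this ▸ h)
          · rintro (h | h)
            · exact absurd h e2
            · exact Or.inr (this ▸ h)) c₂ h₂ b₂
    rcases hT with h | h
    · exact absurd h.symm hne
    · exact h
  -- outside of the piece
  have hB : circ c₂ b₂ = circ c₁ b₁ ∨ f (circ c₂ b₂) = !sg c₁ := by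
    have key : ∀ u v, Relation.EqvGen (fun u v => ∃ c, c ∉ S ∧ u = circ c true ∧ v = circ c false) u v →
        ((u = circ c₁ b₁ ∨ f u = !sg c₁) ↔ (v = circ c₁ b₁ ∨ f v = !sg c₁)) := by
      intro u v huv
      induction huv with
      | rel u v h =>
        obtain ⟨c, hc, rfl, rfl⟩ := h
        have hs : ∀ b, circ c b = circ c₁ b₁ → sg c = !sg c₁ := by
          intro b hb
          have : sg c ≠ sg c₁ := fun e => hc (hS.closed c₁ h₁ c b₁ b hb.symm e)
          cases hx : sg c <;> cases hy : sg c₁ <;> simp_all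
        by_cases e1 : circ c true = circ c₁ b₁
        · have := hf2 c true e1
          simp only [Bool.not_true] at this
          exact ⟨fun _ => Or.inr (this.trans (hs true e1)), fun _ => Or.inl e1⟩
        · by_cases e2 : circ c false = circ c₁ b₁
          · have := hf2 c false e2
            simp only [Bool.not_false] at this
            exact ⟨fun _ => Or.inl e2, fun _ => Or.inr (this.trans (hs false e2))⟩
          · have := hf1 c e1 e2
            constructor
            · rintro (h | h)
              · exact absurd h e1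
              · exact Or.inr (this ▸ h)
            · rintro (h | h)
              · exact absurd h e2
              · exact Or.inr (this ▸ h)
      | refl u => exact Iff.rfl
      | symm u v _ ih => exact ih.symm
      | trans u v w _ _ ih1 ih2 => exact ih1.trans ih2
    exact (key _ _ h).mp (Or.inl rfl)
  rcases hB with h | h
  · exact hne h.symm
  · rw [hA] at h
    cases hx : sg c₁ <;> simp [hx] at h

/-- the projection to a piece -/
theorem exists_proj {circ : E → Bool → V} {sg : E → Bool} (hJ : Side circ sg) {S : Set E} (hS : Piece circ sg S) :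
    ∃ P : V → V, (∀ c ∈ S, ∀ b, P (circ c b) = circ c b) ∧ ∀ c, c ∉ S → P (circ c true) = P (circ c false) := by
  classical
  obtain ⟨c₀, h₀⟩ := hS.ne
  let R : V → V → Prop := Relation.EqvGen (fun u v => ∃ c, c ∉ S ∧ u = circ c true ∧ v = circ c false)
  let Q : V → V → Prop := fun v Z => (∃ c ∈ S, ∃ b, circ c b = Z) ∧ R v Z
  have huniq : ∀ v Z Z', Q v Z → Q v Z' → Z = Z' := by
    rintro v Z Z' ⟨⟨c, hc, b, rfl⟩, hr⟩ ⟨⟨c', hc', b', rfl⟩, hr'⟩
    exact not_joined hJ hS hc hc' b b' (Relation.EqvGen.trans _ _ _ (Relation.EqvGen.symm _ _ hr) hr')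
  refine ⟨fun v => if h : ∃ Z, Q v Z then h.choose else circ c₀ true, fun c hc b => ?_, fun c hc => ?_⟩
  · have hq : Q (circ c b) (circ c b) := ⟨⟨c, hc, b, rfl⟩, Relation.EqvGen.refl _⟩
    have hex : ∃ Z, Q (circ c b) Z := ⟨_, hq⟩
    beta_reduce
    rw [dif_pos hex]
    exact huniq _ _ _ hex.choose_spec hq
  · have hR : R (circ c true) (circ c false) := Relation.EqvGen.rel _ _ ⟨c, hc, rfl, rfl⟩
    have hiff : ∀ Z, Q (circ c true) Z ↔ Q (circ c false) Z := by
      intro Z
      constructor
      · rintro ⟨h1, h2⟩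
        exact ⟨h1, Relation.EqvGen.trans _ _ _ (Relation.EqvGen.symm _ _ hR) h2⟩
      · rintro ⟨h1, h2⟩
        exact ⟨h1, Relation.EqvGen.trans _ _ _ hR h2⟩
    beta_reduce
    by_cases hex : ∃ Z, Q (circ c true) Z
    · have hex' : ∃ Z, Q (circ c false) Z := by
        obtain ⟨Z, hZ⟩ := hex
        exact ⟨Z, (hiff Z).mp hZ⟩
      rw [dif_pos hex, dif_pos hex']
      exact huniq _ _ _ hex.choose_spec ((hiff _).mpr hex'.choose_spec)
    · have hex' : ¬ ∃ Z, Q (circ c false) Z := by
        rintro ⟨Z, hZ⟩
        exact hex ⟨Z, (hiff Z).mpr hZ⟩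
      rw [dif_neg hex, dif_neg hex']

section Exit

variable [DecidableEq E] {σ : Bool → Equiv.Perm E} {c0 : E} {b0 : Bool} {circ : E → Bool → V} {sg : E → Bool}

/-- the x-walker leaves every set of circles of a piece without the root circle by a crossing of the piece -/
theorem exit_x (hcirc : ∀ c b, circ (σ b c) b = circ c b) {S : Set E} {P : V → V}
    (hP1 : ∀ c ∈ S, ∀ b, P (circ c b) = circ c b) (hP2 : ∀ c, c ∉ S → P (circ c true) = P (circ c false))
    {x : E → Bool} (hx : Acyc (sx σ c0 b0) x) (T : Set V) (hT : ∃ c ∈ S, ∃ b, circ c b ∈ T)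
    (h0 : P (circ c0 b0) ∉ T) : ∃ e ∈ S, circ e (!x e) ∈ T ∧ circ e (x e) ∉ T := by
  obtain ⟨c, hc, b, hb⟩ := hT
  obtain ⟨e, h1, h2⟩ := leave_x hcirc hx {v | P v ∈ T} ⟨c, b, by simpa [hP1 c hc b] using hb⟩ h0
  by_cases he : e ∈ S
  · refine ⟨e, he, ?_, ?_⟩
    · simpa [hP1 e he] using h1
    · simpa [hP1 e he] using h2
  · exfalso
    have h3 : P (circ e (!x e)) = P (circ e (x e)) := by
      have := hP2 e he
      cases x e
      · simpa using this
      · simpa using this.symm
    apply h2
    show P _ ∈ T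
    rw [← h3]
    exact h1

/-- the same for the y-walker -/
theorem exit_y (hcirc : ∀ c b, circ (σ b c) b = circ c b) {S : Set E} {P : V → V}
    (hP1 : ∀ c ∈ S, ∀ b, P (circ c b) = circ c b) (hP2 : ∀ c, c ∉ S → P (circ c true) = P (circ c false))
    {y : E → Bool} (hy : Acyc (sy σ c0 b0) y) (T : Set V) (hT : ∃ c ∈ S, ∃ b, circ c b ∈ T)
    (h0 : P (circ c0 b0) ∉ T) : ∃ e ∈ S, circ e (!y e) ∈ T ∧ circ e (y e) ∉ T := by
  have h1 : Acyc (sx (fun b => (σ b).symm) (σ b0 c0) b0) y := hy
  refine exit_x (fun c b => ?_) hP1 hP2 h1 T hT (by rw [hcirc]; exact h0)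
  have h2 := hcirc ((σ b).symm c) b
  rw [Equiv.apply_symm_apply] at h2
  exact h2.symm

/-- the circles of a piece -/
abbrev VS (circ : E → Bool → V) (S : Set E) : Type _ := {v : V // ∃ c ∈ S, ∃ b, circ c b = v}

/-- the ends of the crossings of a piece -/
def cs (circ : E → Bool → V) (S : Set E) (c : S) (b : Bool) : VS circ S := ⟨circ c b, c, c.2, b, rfl⟩

/-- the crossings of a piece with x = true, y = false extend to a strongly connected orientation -/
theorem piece_strong [Fintype E] (hcirc : ∀ c b, circ (σ b c) b = circ c b) {S : Set E} {P : V → V}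
    (hP1 : ∀ c ∈ S, ∀ b, P (circ c b) = circ c b) (hP2 : ∀ c, c ∉ S → P (circ c true) = P (circ c false))
    (hB : Bridgeless (fun c => cs circ S c false) (fun c => cs circ S c true)) {x y : E → Bool}
    (hx : Acyc (sx σ c0 b0) x) (hy : Acyc (sy σ c0 b0) y) :
    ∃ O : S → Bool, Strong (fun c => cs circ S c false) (fun c => cs circ S c true) O ∧
      ∀ c : S, x c = true → y c = false → O c = true := by
  classical
  have : Fintype S := Fintype.ofFinite _
  obtain ⟨O, hO, hU⟩ := boesch_tindell hB {c : S | x c = true ∧ y c = false} (by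
    intro T hT1 hT2
    -- the set of circles
    have main : ∀ (T' : Set (VS circ S)) (T'' : Set V), (∀ v : VS circ S, v ∈ T' ↔ (v : V) ∈ T'') → T'.Nonempty →
        ∃ c ∈ S, ∃ b, circ c b ∈ T'' := by
      rintro T' T'' h ⟨⟨v, c, hc, b, rfl⟩, hv⟩
      exact ⟨c, hc, b, (h _).mp hv⟩
    by_cases h0 : P (circ c0 b0) ∈ Subtype.val '' T
    · have hne : (Tᶜ).Nonempty := by
        obtain ⟨v, hv⟩ := (Set.ne_univ_iff_exists_notMem T).mp hT2
        exact ⟨v, hv⟩
      obtain ⟨e, he, he1, he2⟩ := exit_y hcirc hP1 hP2 hy (Subtype.val '' Tᶜ) (main Tᶜ _ (fun v => (Subtype.val_injective.mem_set_image).symm) hne) (by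
        rintro ⟨v, hv, hvP⟩
        obtain ⟨u, hu, huP⟩ := h0
        have : v = u := Subtype.ext (hvP.trans huP.symm)
        exact hv (this ▸ hu))
      have he1' : cs circ S ⟨e, he⟩ (!y e) ∉ T := by
        obtain ⟨v, hv, hvP⟩ := he1
        have : cs circ S ⟨e, he⟩ (!y e) = v := Subtype.ext hvP.symm
        rw [this]; exact hv
      have he2' : cs circ S ⟨e, he⟩ (y e) ∈ T := by
        by_contra hcon
        exact he2 ⟨_, hcon, rfl⟩
      by_cases hU : (⟨e, he⟩ : S) ∈ {c : S | x c = true ∧ y c = false}
      · left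
        refine ⟨⟨e, he⟩, hU, ?_⟩
        have hy0 : y e = false := hU.2
        rw [hy0] at he1' he2'
        exact ⟨he2', he1'⟩
      · right
        refine ⟨⟨e, he⟩, hU, ?_⟩
        cases hh : y e <;> rw [hh] at he1' he2'
        · exact Or.inl ⟨he2', he1'⟩
        · exact Or.inr ⟨he2', he1'⟩
    · obtain ⟨e, he, he1, he2⟩ := exit_x hcirc hP1 hP2 hx (Subtype.val '' T) (main T _ (fun v => (Subtype.val_injective.mem_set_image).symm) hT1) h0
      have he1' : cs circ S ⟨e, he⟩ (!x e) ∈ T := by
        obtain ⟨v, hv, hvP⟩ := he1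
        have : cs circ S ⟨e, he⟩ (!x e) = v := Subtype.ext hvP.symm
        rw [this]; exact hv
      have he2' : cs circ S ⟨e, he⟩ (x e) ∉ T := fun h => he2 ⟨_, h, rfl⟩
      by_cases hU : (⟨e, he⟩ : S) ∈ {c : S | x c = true ∧ y c = false}
      · left
        refine ⟨⟨e, he⟩, hU, ?_⟩
        have hx0 : x e = true := hU.1
        rw [hx0] at he1' he2'
        exact ⟨he1', he2'⟩
      · right
        refine ⟨⟨e, he⟩, hU, ?_⟩
        cases hh : x e <;> rw [hh] at he1' he2'
        · exact Or.inr ⟨he1', he2'⟩
        · exact Or.inl ⟨he1', he2'⟩)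
  exact ⟨O, hO, fun c h1 h2 => hU c ⟨h1, h2⟩⟩

/-- reversed form: the crossings with x = false, y = true extend to the reverse of a strongly connected orientation -/
theorem piece_strong' [Fintype E] (hcirc : ∀ c b, circ (σ b c) b = circ c b) {S : Set E} {P : V → V}
    (hP1 : ∀ c ∈ S, ∀ b, P (circ c b) = circ c b) (hP2 : ∀ c, c ∉ S → P (circ c true) = P (circ c false))
    (hB : Bridgeless (fun c => cs circ S c false) (fun c => cs circ S c true)) {x y : E → Bool}
    (hx : Acyc (sx σ c0 b0) x) (hy : Acyc (sy σ c0 b0) y) :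
    ∃ O : S → Bool, Strong (fun c => cs circ S c false) (fun c => cs circ S c true) O ∧
      ∀ c : S, x c = false → y c = true → O c = true := by
  have hx' : Acyc (sx (fun b => σ (!b)) c0 (!b0)) (fun c => !x c) := by
    obtain ⟨k, hk⟩ := hx
    refine ⟨k, fun v u h => hk v u ?_⟩
    have h2 : (v = c0 ∧ (!x v) = !b0) ↔ (v = c0 ∧ x v = b0) := by
      cases x v <;> cases b0 <;> simp
    unfold sx at h ⊢
    simp only [h2, Bool.not_not] at h
    exact h
  have hy' : Acyc (sy (fun b => σ (!b)) c0 (!b0)) (fun c => !y c) := by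
    obtain ⟨k, hk⟩ := hy
    refine ⟨k, fun v u h => hk v u ?_⟩
    have h2 : (v = σ b0 c0 ∧ (!y v) = !b0) ↔ (v = σ b0 c0 ∧ y v = b0) := by
      cases y v <;> cases b0 <;> simp
    unfold sy at h ⊢
    simp only [h2, Bool.not_not] at h
    exact h
  -- the set of circles does not change
  have hV : ∀ v : V, (∃ c ∈ S, ∃ b, circ c b = v) ↔ (∃ c ∈ S, ∃ b, circ c (!b) = v) := by
    intro v
    constructor
    · rintro ⟨c, hc, b, h⟩
      exact ⟨c, hc, !b, by simpa using h⟩
    · rintro ⟨c, hc, b, h⟩
      exact ⟨c, hc, !b, h⟩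
  let g : VS circ S → VS (fun c b => circ c (!b)) S := fun v => ⟨v.1, (hV v.1).mp v.2⟩
  let g' : VS (fun c b => circ c (!b)) S → VS circ S := fun v => ⟨v.1, (hV v.1).mpr v.2⟩
  have hB' : Bridgeless (fun c => cs (fun c b => circ c (!b)) S c false) (fun c => cs (fun c b => circ c (!b)) S c true) := by
    intro T e he
    obtain ⟨e', h1, h2⟩ := hB (g ⁻¹' T) e (by
      rcases he with he | he
      · exact Or.inr he
      · exact Or.inl he)
    exact ⟨e', h1, by
      rcases h2 with h2 | h2
      · exact Or.inr h2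
      · exact Or.inl h2⟩
  obtain ⟨O, hO, hU⟩ := piece_strong (σ := fun b => σ (!b)) (c0 := c0) (b0 := !b0) (circ := fun c b => circ c (!b))
    (P := P) (fun c b => hcirc c (!b)) (fun c hc b => hP1 c hc (!b)) (fun c hc => (hP2 c hc).symm) hB' hx' hy'
  refine ⟨O, ?_, fun c h1 h2 => hU c (by simp [h1]) (by simp [h2])⟩
  -- O is strong for the exchanged ends; reverse twice
  have h1 : Strong (fun c => cs circ S c true) (fun c => cs circ S c false) O := by
    intro T hT1 hT2
    obtain ⟨e, he1, he2⟩ := hO (g' ⁻¹' T) (by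
      obtain ⟨v, hv⟩ := hT1
      exact ⟨g v, hv⟩) (by
      intro h
      apply hT2
      rw [Set.eq_univ_iff_forall] at h ⊢
      intro v
      exact h (g v))
    refine ⟨e, ?_, ?_⟩
    · cases hOe : O e <;> simp only [tl, hOe, if_true, if_false, Bool.false_eq_true] at he1 ⊢ <;> exact he1
    · cases hOe : O e <;> simp only [hd, hOe, if_true, if_false, Bool.false_eq_true] at he2 ⊢ <;> exact he2
  have h2 := strong_neg (strong_swap (lf := fun c => cs circ S c false) (rt := fun c => cs circ S c true) h1)
  simp only [Bool.not_not] at h2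
  exact h2

variable [Fintype E]

/-- R5, first bound -/
theorem piece_A_le (hcirc : ∀ c b, circ (σ b c) b = circ c b) (hJ : Side circ sg) {S : Set E} (hS : Piece circ sg S)
    [Fintype S] (hB : Bridgeless (fun c => cs circ S c false) (fun c => cs circ S c true)) {r : ℤ}
    (hr : ∀ O, Strong (fun c => cs circ S c false) (fun c => cs circ S c true) O → A O ≤ r) {x y : E → Bool}
    (hx : Acyc (sx σ c0 b0) x) (hy : Acyc (sy σ c0 b0) y) :
    ((univ.filter fun c : S => x c = true ∧ y c = false).card : ℤ) ≤ r := by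
  obtain ⟨P, hP1, hP2⟩ := exists_proj hJ hS
  obtain ⟨O, hO, hU⟩ := piece_strong hcirc hP1 hP2 hB hx hy
  refine le_trans ?_ (hr O hO)
  unfold A
  rw [card_filter, Nat.cast_sum]
  refine sum_le_sum fun c _ => ?_
  by_cases h1 : x c = true ∧ y c = false
  · rw [if_pos h1, if_pos (hU c h1.1 h1.2)]
    simp
  · rw [if_neg h1]
    split_ifs <;> simp

/-- R5, second bound -/
theorem piece_B_le (hcirc : ∀ c b, circ (σ b c) b = circ c b) (hJ : Side circ sg) {S : Set E} (hS : Piece circ sg S)
    [Fintype S] (hB : Bridgeless (fun c => cs circ S c false) (fun c => cs circ S c true)) {r : ℤ}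
    (hr : ∀ O, Strong (fun c => cs circ S c false) (fun c => cs circ S c true) O → A O ≤ r) {x y : E → Bool}
    (hx : Acyc (sx σ c0 b0) x) (hy : Acyc (sy σ c0 b0) y) :
    ((univ.filter fun c : S => x c = false ∧ y c = true).card : ℤ) ≤ r := by
  obtain ⟨P, hP1, hP2⟩ := exists_proj hJ hS
  obtain ⟨O, hO, hU⟩ := piece_strong' hcirc hP1 hP2 hB hx hy
  refine le_trans ?_ (hr O hO)
  unfold A
  rw [card_filter, Nat.cast_sum]
  refine sum_le_sum fun c _ => ?_
  by_cases h1 : x c = false ∧ y c = true
  · rw [if_pos h1, if_pos (hU c h1.1 h1.2)]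
    simp
  · rw [if_neg h1]
    split_ifs <;> simp

omit [Fintype E] in
/-- in a piece with s circles: the x-walker leaves every circle of type b except the root circle, so there are at
least (number of these circles) crossings with x = not b -/
theorem exits_card (hcirc : ∀ c b, circ (σ b c) b = circ c b) (hne : ∀ c c', circ c true ≠ circ c' false)
    {S : Set E} [Fintype S] {P : V → V}
    (hP1 : ∀ c ∈ S, ∀ b, P (circ c b) = circ c b) (hP2 : ∀ c, c ∉ S → P (circ c true) = P (circ c false))
    {x : E → Bool} (hx : Acyc (sx σ c0 b0) x) (b : Bool) (F : Finset V)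
    (hF : ∀ v ∈ F, (∃ c ∈ S, circ c b = v) ∧ v ≠ P (circ c0 b0)) :
    F.card ≤ (univ.filter fun c : S => x c = !b).card := by
  classical
  have hex : ∀ v ∈ F, ∃ c : S, x c = (!b) ∧ circ c b = v := by
    intro v hv
    obtain ⟨⟨c, hc, hcv⟩, hv0⟩ := hF v hv
    obtain ⟨e, he, h1, h2⟩ := exit_x hcirc hP1 hP2 hx {v} ⟨c, hc, b, hcv⟩ (fun h => hv0 h.symm)
    have h1' : circ e (!x e) = v := h1
    have hb : (!x e) = b := by
      by_contra hcon
      have hb' : (!x e) = !b := by cases h3 : x e <;> cases b <;> simp_all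
      rw [hb'] at h1'
      cases b
      · exact hne e c (h1'.trans hcv.symm)
      · exact hne c e (hcv.trans h1'.symm)
    refine ⟨⟨e, he⟩, ?_, ?_⟩
    · show x e = !b
      rw [← hb, Bool.not_not]
    · show circ e b = v
      rw [← hb]; exact h1'
  rcases F.eq_empty_or_nonempty with rfl | ⟨v₀, hv₀⟩
  · simp
  have : Nonempty S := ⟨(hex v₀ hv₀).choose⟩
  choose! g hg using hex
  refine card_le_card_of_injOn g (fun v hv => by
    simpa using (hg v hv).1) ?_
  intro v hv w hw hvw
  have h1 := (hg v hv).2
  have h2 := (hg w hw).2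
  rw [hvw] at h1
  exact h1.symm.trans h2

omit [Fintype E] in
/-- the same for the y-walker -/
theorem exits_card_y (hcirc : ∀ c b, circ (σ b c) b = circ c b) (hne : ∀ c c', circ c true ≠ circ c' false)
    {S : Set E} [Fintype S] {P : V → V}
    (hP1 : ∀ c ∈ S, ∀ b, P (circ c b) = circ c b) (hP2 : ∀ c, c ∉ S → P (circ c true) = P (circ c false))
    {y : E → Bool} (hy : Acyc (sy σ c0 b0) y) (b : Bool) (F : Finset V)
    (hF : ∀ v ∈ F, (∃ c ∈ S, circ c b = v) ∧ v ≠ P (circ c0 b0)) :
    F.card ≤ (univ.filter fun c : S => y c = !b).card := by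
  have h1 : Acyc (sx (fun b => (σ b).symm) (σ b0 c0) b0) y := hy
  refine exits_card (fun c b => ?_) hne hP1 hP2 h1 b F (by rw [hcirc]; exact hF)
  have h2 := hcirc ((σ b).symm c) b
  rw [Equiv.apply_symm_apply] at h2
  exact h2.symm

/-- R5, third bound: |A - B| <= (number of crossings) + 1 - (number of circles) on a piece -/
theorem piece_kappa_le (hcirc : ∀ c b, circ (σ b c) b = circ c b) (hne : ∀ c c', circ c true ≠ circ c' false)
    (hJ : Side circ sg) {S : Set E} (hS : Piece circ sg S) [Fintype S] [Fintype (VS circ S)] {x y : E → Bool}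
    (hx : Acyc (sx σ c0 b0) x) (hy : Acyc (sy σ c0 b0) y) :
    |((univ.filter fun c : S => x c = true ∧ y c = false).card : ℤ) -
      ((univ.filter fun c : S => x c = false ∧ y c = true).card : ℤ)| ≤
      (Fintype.card S : ℤ) + 1 - (Fintype.card (VS circ S) : ℤ) := by
  classical
  obtain ⟨P, hP1, hP2⟩ := exists_proj hJ hS
  -- the circles of type b without the root circle
  let F : Bool → Finset V := fun b =>
    ((univ : Finset (VS circ S)).image Subtype.val).filter fun v => (∃ c ∈ S, circ c b = v) ∧ v ≠ P (circ c0 b0)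
  have hF : ∀ b, ∀ v ∈ F b, (∃ c ∈ S, circ c b = v) ∧ v ≠ P (circ c0 b0) := fun b v hv => (mem_filter.mp hv).2
  have hcard : (Fintype.card (VS circ S)) ≤ (F true).card + (F false).card + 1 := by
    have h1 : (univ : Finset (VS circ S)).image Subtype.val ⊆ (F true ∪ F false) ∪ {P (circ c0 b0)} := by
      intro v hv
      by_cases h0 : v = P (circ c0 b0)
      · exact mem_union_right _ (mem_singleton.mpr h0)
      · refine mem_union_left _ ?_
        obtain ⟨⟨w, c, hc, b, hb⟩, _, rfl⟩ := mem_image.mp hv
        cases b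
        · exact mem_union_right _ (mem_filter.mpr ⟨hv, ⟨c, hc, hb⟩, h0⟩)
        · exact mem_union_left _ (mem_filter.mpr ⟨hv, ⟨c, hc, hb⟩, h0⟩)
    have h2 := card_le_card h1
    rw [card_image_of_injective _ Subtype.val_injective, card_univ] at h2
    refine h2.trans ((card_union_le _ _).trans ?_)
    rw [card_singleton]
    exact Nat.add_le_add_right (card_union_le _ _) 1
  have e1 := exits_card hcirc hne hP1 hP2 hx true (F true) (hF true)
  have e2 := exits_card hcirc hne hP1 hP2 hx false (F false) (hF false)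
  have e3 := exits_card_y hcirc hne hP1 hP2 hy true (F true) (hF true)
  have e4 := exits_card_y hcirc hne hP1 hP2 hy false (F false) (hF false)
  simp only [Bool.not_true, Bool.not_false] at e1 e2 e3 e4
  -- counting
  have key : ∀ (u : E → Bool), (univ.filter fun c : S => u c = false).card +
      (univ.filter fun c : S => u c = true).card = Fintype.card S := by
    intro u
    have := card_filter_add_card_filter_not (s := (univ : Finset S)) (p := fun c : S => u c = false)
    simpa using this
  have kx := key x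
  have ky := key y
  have split1 : (univ.filter fun c : S => x c = true).card = (univ.filter fun c : S => x c = true ∧ y c = false).card +
      (univ.filter fun c : S => x c = true ∧ y c = true).card := by
    rw [← filter_filter, ← filter_filter]
    have := card_filter_add_card_filter_not (s := (univ : Finset S).filter fun c : S => x c = true)
      (p := fun c : S => y c = false)
    simpa using this.symm
  have split2 : (univ.filter fun c : S => y c = true).card = (univ.filter fun c : S => x c = false ∧ y c = true).card +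
      (univ.filter fun c : S => x c = true ∧ y c = true).card := by
    have h := card_filter_add_card_filter_not (s := (univ : Finset S).filter fun c : S => y c = true)
      (p := fun c : S => x c = false)
    rw [filter_filter, filter_filter] at h
    rw [← h]
    congr 2
    · ext c; simp [and_comm]
    · ext c; simp [and_comm]
  rw [abs_le]
  constructor <;> omega

end Exit

end LG3P.R5
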