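import Pool.Agent.Lib.MP_3cd99b_gt.Fam2
import Pool.Agent.Lib.MP_3cd99b_gt.Out
import Pool.Agent.Lib.MP_3cd99b_gt.R5

/-!
Families of global pairs of states in the form of `Out`: local states on the pieces as subtypes.
-/

namespace PoolLib.MP_3cd99b_gt.Oct

open Function Finset LG3P.Top LG3P.R5

variable {C K P : Type*}

open Classical in
/-- extension of a function on a subset -/
noncomputable def lift {α : Type*} [Inhabited α] {S : Set C} (x : S → α) (c : C) : α :=
  if h : c ∈ S then x ⟨c, h⟩ else default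

theorem lift_of {α : Type*} [Inhabited α] {S : Set C} (x : S → α) {c : C} (h : c ∈ S) : lift x c = x ⟨c, h⟩ :=
  dif_pos h

theorem lift_mem {α : Type*} [Inhabited α] {S : Set C} (x : S → α) (c : S) : lift x c = x c := lift_of x c.2

namespace Tree

theorem par_eq_sx [DecidableEq C] (T : Tree C K P) : T.par = sx T.st T.c0 T.b0 := by
  funext c b
  unfold par cutSys sx
  by_cases h : c = T.c0 ∧ b = T.b0
  · rw [if_pos h, if_pos (by rw [h.1, h.2])]
  · rw [if_neg h, if_neg (fun h' => h (Prod.ext_iff.mp h'))]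
    rfl

theorem rev_par_eq_sy [DecidableEq C] (T : Tree C K P) : T.rev.par = sy T.st T.c0 T.b0 := by
  rw [par_eq_sx]; rfl

theorem localX_of [Finite C] (T : Tree C K P) {S : Set C} [DecidableEq S] {Q : P} (hS : ∀ c, c ∈ S ↔ T.pc c = Q)
    {σ : Bool → Equiv.Perm S} (hσ : ∀ b (c : S), (σ b c : C) = T.frs b c) {q : S} {b : Bool} {x : S → Bool}
    {r : S → ℕ} (hr : Rank (sx σ q b) x r) {dx : K → Prop}
    (hquiet : ¬ dx (T.rt Q) → T.rt Q ≠ T.K0 → ∀ (c : S) b', T.circ c b' = T.rt Q → x c = b')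
    (hext : ∀ (e c : S) b', T.circ e b' = T.circ c b' → T.circ c b' ≠ T.rt Q → dx (T.circ c b') → x e = !b' →
      x c = b' → r e < r c) :
    T.LocalX dx Q ((q : C), b) (lift x) (lift r) where
  rank := by
    intro c hc hq
    have hcS := (hS c).mpr hc
    rw [lift_of x hcS] at hq ⊢
    rw [lift_of r hcS]
    have h1 : T.frs (x ⟨c, hcS⟩) c = (σ (x ⟨c, hcS⟩) ⟨c, hcS⟩ : C) := (hσ _ ⟨c, hcS⟩).symm
    rw [h1, lift_mem]
    apply hr
    unfold sx
    rw [if_neg]
    rintro ⟨h2, h3⟩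
    apply hq
    rw [h3, ← h2]
  quiet := by
    intro h1 h2 c b' hc hb
    rw [lift_of x ((hS c).mpr hc)]
    exact hquiet h1 h2 ⟨c, (hS c).mpr hc⟩ b' hb
  ext := by
    intro e c b' he hc h1 h2 h3 h4 h5
    rw [lift_of x ((hS e).mpr he)] at h4
    rw [lift_of x ((hS c).mpr hc)] at h5
    rw [lift_of r ((hS e).mpr he), lift_of r ((hS c).mpr hc)]
    refine hext ⟨e, (hS e).mpr he⟩ ⟨c, (hS c).mpr hc⟩ b' h1 h2 h3 ?_ h5
    revert h4
    cases x ⟨e, (hS e).mpr he⟩ <;> cases b' <;> simp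

/-- on every circle off the cut circle there is an exit -/
theorem exit_of_rank [Finite C] (T : Tree C K P) {S : Set C} [DecidableEq S]
    {σ : Bool → Equiv.Perm S} (hσ : ∀ b (c : S), (σ b c : C) = T.frs b c) {q : S} {b : Bool} {x : S → Bool}
    {r : S → ℕ} (hr : Rank (sx σ q b) x r) (c : S) (b' : Bool) (hne : T.circ c b' ≠ T.circ q b) :
    ∃ e : S, T.circ e b' = T.circ c b' ∧ x e = !b' := by
  classical
  by_contra hcon
  push Not at hcon
  have hex : ∃ n, ∃ e : S, T.circ e b' = T.circ c b' ∧ r e = n := ⟨r c, c, rfl, rfl⟩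
  obtain ⟨e, h1, h2⟩ := Nat.find_spec hex
  have hxe : x e = b' := by
    have := hcon e h1
    revert this
    cases x e <;> cases b' <;> simp
  have h3 : r (σ b' e) < r e := by
    apply hr
    rw [hxe]
    unfold sx
    rw [if_neg]
    rintro ⟨h4, h5⟩
    apply hne
    rw [← h1, h4, h5]
  refine Nat.find_min hex (h2 ▸ h3) ⟨σ b' e, ?_, rfl⟩
  rw [hσ, T.circ_frs, h1]

/-- global pairs from local pairs on the subtypes -/
theorem lift_global [Fintype C] [DecidableEq C] (T : Tree C K P)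
    (hrt : ∀ Q, ∃ c b, T.pc c = Q ∧ T.circ c b = T.rt Q) (S : P → Set C) [∀ Q, DecidableEq (S Q)]
    (hS : ∀ Q c, c ∈ S Q ↔ T.pc c = Q) (σ : ∀ Q, Bool → Equiv.Perm (S Q))
    (hσ : ∀ Q b (c : S Q), (σ Q b c : C) = T.frs b c) (dx dy : K → Prop) (s1 s2 : Bool)
    (Good : ∀ Q, (S Q → Bool) → (S Q → Bool) → Prop)
    (hloc : ∀ Q (q : S Q) b, T.circ q b = T.rt Q → ∃ (x y : S Q → Bool) (r r' : S Q → ℕ),
      Rank (sx (σ Q) q b) x r ∧ Rank (sy (σ Q) q b) y r' ∧
      (∀ (e c : S Q) b', T.circ e b' = T.circ c b' → T.circ c b' ≠ T.rt Q → dx (T.circ c b') → x e = !b' →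
        x c = b' → r e < r c) ∧
      (∀ (e c : S Q) b', T.circ e b' = T.circ c b' → T.circ c b' ≠ T.rt Q → dy (T.circ c b') → y e = !b' →
        y c = b' → r' e < r' c) ∧
      (¬ dx (T.rt Q) → T.rt Q ≠ T.K0 → ∀ (c : S Q) b', T.circ c b' = T.rt Q → x c = b') ∧
      (¬ dy (T.rt Q) → T.rt Q ≠ T.K0 → ∀ (c : S Q) b', T.circ c b' = T.rt Q → y c = b') ∧
      (∀ (c : S Q) b', T.circ c b' ≠ T.rt Q → ∃ e : S Q, T.circ e b' = T.circ c b' ∧
        (dx (T.circ c b') → x e = !b') ∧ (dy (T.circ c b') → y e = !b')) ∧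
      (∀ c : S Q, T.circ c T.b0 = T.K0 → T.sg c = s1 → x c = T.b0) ∧
      (∀ c : S Q, T.circ c T.b0 = T.K0 → T.sg c = s2 → y c = T.b0) ∧ Good Q x y) :
    ∃ x y : C → Bool, Acyc (sx T.st T.c0 T.b0) x ∧ Acyc (sy T.st T.c0 T.b0) y ∧
      ∀ Q, Good Q (fun c => x c) (fun c => y c) := by
  obtain ⟨x, y, h1, h2, h3⟩ := T.exists_global dx dy s1 s2 hrt
    (fun Q x y => Good Q (fun c => x c) (fun c => y c)) (by
      intro Q x y x' y' h hg
      have e1 : (fun c : S Q => x' c) = fun c : S Q => x c := funext fun c => (h c ((hS Q c).mp c.2)).1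
      have e2 : (fun c : S Q => y' c) = fun c : S Q => y c := funext fun c => (h c ((hS Q c).mp c.2)).2
      rw [e1, e2]; exact hg) (by
      intro Q c b hc hb
      obtain ⟨x, y, r, r', g1, g2, g3, g4, g5, g6, g7, g8, g9, g10⟩ := hloc Q ⟨c, (hS Q c).mpr hc⟩ b hb
      refine ⟨lift x, lift y, lift r, lift r', ⟨?_, ?_, ?_, ?_, ?_⟩, ?_⟩
      · exact localX_of T (hS Q) (hσ Q) g1 g5 g3
      · have := localX_of T.rev (S := S Q) (Q := Q) (hS Q) (σ := fun b => (σ Q b).symm) (q := σ Q b ⟨c, (hS Q c).mpr hc⟩)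
          (b := b) (dx := dy) (x := y) (r := r') (by
            intro b' c'
            show (((σ Q b').symm c' : S Q) : C) = T.rev.frs b' c'
            rw [T.rev_frs, Equiv.eq_symm_apply, ← hσ Q, Equiv.apply_symm_apply]) g2
            (by
              intro h1 h2
              rw [T.rev_K0] at h2
              exact g6 h1 h2) g4
        rw [hσ Q] at this
        exact this
      · intro c' b' hc' hne
        obtain ⟨e, e1, e2, e3⟩ := g7 ⟨c', (hS Q c').mpr hc'⟩ b' hne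
        refine ⟨e, (hS Q e).mp e.2, e1, ?_, ?_⟩
        · intro h
          rw [lift_mem, e2 h]
          cases b' <;> simp
        · intro h
          rw [lift_mem, e3 h]
          cases b' <;> simp
      · intro c' hc' h1 h2
        rw [lift_of x ((hS Q c').mpr hc')]
        exact g8 ⟨c', (hS Q c').mpr hc'⟩ h1 h2
      · intro c' hc' h1 h2
        rw [lift_of y ((hS Q c').mpr hc')]
        exact g9 ⟨c', (hS Q c').mpr hc'⟩ h1 h2
      · have e1 : (fun c : S Q => lift x c) = x := funext fun c => lift_mem x c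
        have e2 : (fun c : S Q => lift y c) = y := funext fun c => lift_mem y c
        rw [e1, e2]; exact g10)
  rw [par_eq_sx] at h1
  rw [rev_par_eq_sy] at h2
  exact ⟨x, y, h1, h2, h3⟩

section families

variable [Fintype C] [DecidableEq C] (T : Tree C K P)

omit [Fintype C] [DecidableEq C] in
/-- two outer slots of one circle have the same sign -/
theorem outout {c c' : C} {b : Bool} (h : T.circ c b = T.circ c' b) (ho : T.circ c b ≠ T.rt (T.pc c))
    (ho' : T.circ c' b ≠ T.rt (T.pc c')) : T.sg c = T.sg c' := by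
  by_contra hne
  have hk : T.circ c b ≠ T.circ T.c0 T.b0 := fun h' => ho (by rw [T.root c b h', h'])
  exact ho ((T.diff c c' b h hk hne).mpr ho')

variable (hrt : ∀ Q, ∃ c b, T.pc c = Q ∧ T.circ c b = T.rt Q) (S : P → Set C) [∀ Q, DecidableEq (S Q)]
    (hS : ∀ Q c, c ∈ S Q ↔ T.pc c = Q) (σ : ∀ Q, Bool → Equiv.Perm (S Q))
    (hσ : ∀ Q b (c : S Q), (σ Q b c : C) = T.frs b c) (Good : ∀ Q, (S Q → Bool) → (S Q → Bool) → Prop)
    (hsg : ∀ c c', T.pc c = T.pc c' → T.sg c = T.sg c')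

include hrt hS hσ hsg

/-- FAMILY I: arbitrary pairs in the pieces of sign s, the state w in the pieces of the other sign -/
theorem famI (s : Bool)
    (hA : ∀ Q (q : S Q) b, T.circ q b = T.rt Q → T.sg q = s → ∃ (x y : S Q → Bool) (r r' : S Q → ℕ),
      Rank (sx (σ Q) q b) x r ∧ Rank (sy (σ Q) q b) y r' ∧ Good Q x y)
    (hW : ∀ Q (q : S Q) b, T.circ q b = T.rt Q → T.sg q ≠ s → ∃ (w : S Q → Bool) (r r' : S Q → ℕ),
      Rank (sx (σ Q) q b) w r ∧ Rank (sy (σ Q) q b) w r' ∧ (∀ b', Ext (LG3P.R5.cs T.circ (S Q)) b' r w) ∧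
      (∀ b', Ext (LG3P.R5.cs T.circ (S Q)) b' r' w) ∧
      (∀ v b', w v = !b' → LG3P.R5.cs T.circ (S Q) v b' ≠ LG3P.R5.cs T.circ (S Q) q b) ∧ Good Q w w) :
    ∃ x y : C → Bool, Acyc (sx T.st T.c0 T.b0) x ∧ Acyc (sy T.st T.c0 T.b0) y ∧
      ∀ Q, Good Q (fun c => x c) (fun c => y c) := by
  have pcq : ∀ {Q} (c : S Q), T.pc c = Q := fun {Q} c => (hS Q c).mp c.2
  set d : K → Prop := fun k => ∃ c b, T.circ c b = k ∧ k ≠ T.rt (T.pc c) ∧ T.sg c ≠ s with hd
  -- detour circles are the outer circles of the pieces of sign ≠ s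
  have d1 : ∀ c b, T.circ c b ≠ T.rt (T.pc c) → d (T.circ c b) → T.sg c ≠ s := by
    rintro c b h ⟨c', b', h1, h2, h3⟩
    obtain ⟨e, -⟩ := T.orbit c' b' c b h1
    subst e
    rw [T.outout h1.symm h (by rw [h1]; exact h2)]
    exact h3
  -- the root circle of a piece of sign s is a detour circle
  have d2 : ∀ c b, T.circ c b = T.rt (T.pc c) → T.circ c b ≠ T.K0 → ¬ d (T.circ c b) → T.sg c ≠ s := by
    intro c b h h' hn hs
    obtain ⟨c', g1, g2⟩ := T.hasout c b h h'
    apply hn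
    refine ⟨c', b, g1, by rw [← g1]; exact g2, ?_⟩
    intro hs'
    have h3 := T.pc_of c' c b g1 (hs'.trans hs.symm)
    apply g2
    rw [g1, h3, h]
  refine T.lift_global hrt S hS σ hσ d d (!s) (!s) Good ?_
  intro Q q b hqb
  have hq : T.circ q b = T.rt (T.pc q) := by rw [pcq q]; exact hqb
  have sgQ : ∀ c : S Q, T.sg c = T.sg q := fun c => hsg _ _ ((pcq c).trans (pcq q).symm)
  by_cases hs : T.sg q = s
  · obtain ⟨x, y, r, r', h1, h2, h3⟩ := hA Q q b hqb hs
    have dn : ∀ (c : S Q) b', T.circ c b' ≠ T.rt Q → ¬ d (T.circ c b') := by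
      intro c b' h hdk
      exact d1 c b' (by rw [pcq c]; exact h) hdk ((sgQ c).trans hs)
    have dq : T.rt Q ≠ T.K0 → d (T.rt Q) := by
      intro h
      by_contra hdk
      exact d2 q b hq (by rw [hqb]; exact h) (by rw [hqb]; exact hdk) hs
    refine ⟨x, y, r, r', h1, h2, ?_, ?_, ?_, ?_, ?_, ?_, ?_, h3⟩
    · intro e c b' _ h4 h5; exact absurd h5 (dn c b' h4)
    · intro e c b' _ h4 h5; exact absurd h5 (dn c b' h4)
    · intro h4 h5; exact absurd (dq h5) h4
    · intro h4 h5; exact absurd (dq h5) h4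
    · intro c b' h4
      exact ⟨c, rfl, fun h5 => absurd h5 (dn c b' h4), fun h5 => absurd h5 (dn c b' h4)⟩
    · intro c _ h4
      rw [sgQ c, hs] at h4
      cases s <;> simp at h4
    · intro c _ h4
      rw [sgQ c, hs] at h4
      cases s <;> simp at h4
  · obtain ⟨w, r, r', h1, h2, h3, h4, h5, h6⟩ := hW Q q b hqb hs
    have quiet : ∀ (c : S Q) b', T.circ c b' = T.rt Q → w c = b' := by
      intro c b' h
      have h7 := h5 c b'
      by_contra h8
      apply h7
      · revert h8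
        cases w c <;> cases b' <;> simp
      · exact Subtype.ext (h.trans hqb.symm)
    refine ⟨w, w, r, r', h1, h2, ?_, ?_, ?_, ?_, ?_, ?_, ?_, h6⟩
    · intro e c b' h7 _ _ h8 h9
      exact h3 b' e c h8 h9 (Subtype.ext h7.symm)
    · intro e c b' h7 _ _ h8 h9
      exact h4 b' e c h8 h9 (Subtype.ext h7.symm)
    · intro _ _; exact quiet
    · intro _ _; exact quiet
    · intro c b' h7
      obtain ⟨e, e1, e2⟩ := exit_of_rank T (hσ Q) h1 c b' (by rw [hqb]; exact h7)
      exact ⟨e, e1, fun _ => e2, fun _ => e2⟩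
    · intro c h7 _
      apply quiet
      have h8 : T.rt (T.pc c) = T.K0 := T.root c T.b0 h7
      rw [pcq c] at h8
      rw [h7, h8]
    · intro c h7 _
      apply quiet
      have h8 : T.rt (T.pc c) = T.K0 := T.root c T.b0 h7
      rw [pcq c] at h8
      rw [h7, h8]

/-- FAMILY II: in every piece of sign s the state x has the exit property at the circles of type ε s, the state y at
the circles of type !ε s (ε = id for A - B ≥ 0, ε = not for A - B ≤ 0) -/
theorem famII (ε : Bool → Bool) (hε : Injective ε)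
    (hM : ∀ Q (q : S Q) b, T.circ q b = T.rt Q → ∃ (x y : S Q → Bool) (r r' : S Q → ℕ),
      Rank (sx (σ Q) q b) x r ∧ Rank (sy (σ Q) q b) y r' ∧ Ext (LG3P.R5.cs T.circ (S Q)) (ε (T.sg q)) r x ∧
      Ext (LG3P.R5.cs T.circ (S Q)) (!ε (T.sg q)) r' y ∧
      (∀ e, x e = !ε (T.sg q) → LG3P.R5.cs T.circ (S Q) e (ε (T.sg q)) ≠ LG3P.R5.cs T.circ (S Q) q b) ∧
      (∀ e, y e = ε (T.sg q) → LG3P.R5.cs T.circ (S Q) e (!ε (T.sg q)) ≠ LG3P.R5.cs T.circ (S Q) q b) ∧ Good Q x y) :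
    ∃ x y : C → Bool, Acyc (sx T.st T.c0 T.b0) x ∧ Acyc (sy T.st T.c0 T.b0) y ∧
      ∀ Q, Good Q (fun c => x c) (fun c => y c) := by
  have pcq : ∀ {Q} (c : S Q), T.pc c = Q := fun {Q} c => (hS Q c).mp c.2
  set dx : K → Prop := fun k => ∃ c b, T.circ c b = k ∧ k ≠ T.rt (T.pc c) ∧ b = ε (T.sg c) with hdx
  set dy : K → Prop := fun k => ∃ c b, T.circ c b = k ∧ k ≠ T.rt (T.pc c) ∧ b ≠ ε (T.sg c) with hdy
  have x1 : ∀ c b, T.circ c b ≠ T.rt (T.pc c) → dx (T.circ c b) → b = ε (T.sg c) := by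
    rintro c b h ⟨c', b', h1, h2, h3⟩
    obtain ⟨e, -⟩ := T.orbit c' b' c b h1
    subst e
    rw [T.outout h1.symm h (by rw [h1]; exact h2)]
    exact h3
  have y1 : ∀ c b, T.circ c b ≠ T.rt (T.pc c) → dy (T.circ c b) → b ≠ ε (T.sg c) := by
    rintro c b h ⟨c', b', h1, h2, h3⟩
    obtain ⟨e, -⟩ := T.orbit c' b' c b h1
    subst e
    rw [T.outout h1.symm h (by rw [h1]; exact h2)]
    exact h3
  have x2 : ∀ c b, T.circ c b = T.rt (T.pc c) → T.circ c b ≠ T.K0 → ¬ dx (T.circ c b) → b = ε (T.sg c) := by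
    intro c b h h' hn
    obtain ⟨c', g1, g2⟩ := T.hasout c b h h'
    have h4 : ε (T.sg c') ≠ ε (T.sg c) := by
      intro h5
      apply g2
      rw [g1, T.pc_of c' c b g1 (hε h5), h]
    have h5 : ¬ b = ε (T.sg c') := fun h6 => hn ⟨c', b, g1, by rw [← g1]; exact g2, h6⟩
    revert h4 h5
    cases b <;> cases ε (T.sg c) <;> cases ε (T.sg c') <;> simp
  have y2 : ∀ c b, T.circ c b = T.rt (T.pc c) → T.circ c b ≠ T.K0 → ¬ dy (T.circ c b) → b ≠ ε (T.sg c) := by
    intro c b h h' hn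
    obtain ⟨c', g1, g2⟩ := T.hasout c b h h'
    have h4 : ε (T.sg c') ≠ ε (T.sg c) := by
      intro h5
      apply g2
      rw [g1, T.pc_of c' c b g1 (hε h5), h]
    have h5 : ¬ b ≠ ε (T.sg c') := fun h6 => hn ⟨c', b, g1, by rw [← g1]; exact g2, h6⟩
    revert h4 h5
    cases b <;> cases ε (T.sg c) <;> cases ε (T.sg c') <;> simp
  obtain ⟨s1, hs1⟩ : ∃ s1, ε s1 = T.b0 := (Finite.injective_iff_surjective.mp hε) T.b0
  refine T.lift_global hrt S hS σ hσ dx dy s1 (!s1) Good ?_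
  intro Q q b hqb
  have hq : T.circ q b = T.rt (T.pc q) := by rw [pcq q]; exact hqb
  have sgQ : ∀ c : S Q, T.sg c = T.sg q := fun c => hsg _ _ ((pcq c).trans (pcq q).symm)
  obtain ⟨x, y, r, r', h1, h2, h3, h4, h5, h6, h7⟩ := hM Q q b hqb
  have qx : ∀ (c : S Q) b', T.circ c b' = T.rt Q → b' = ε (T.sg q) → x c = b' := by
    intro c b' h hb
    by_contra h8
    apply h5 c
    · rw [← hb]
      revert h8
      cases x c <;> cases b' <;> simp
    · exact Subtype.ext (by rw [← hb]; exact h.trans hqb.symm)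
  have qy : ∀ (c : S Q) b', T.circ c b' = T.rt Q → b' ≠ ε (T.sg q) → y c = b' := by
    intro c b' h hb
    have hb' : b' = !ε (T.sg q) := by
      revert hb
      cases b' <;> cases ε (T.sg q) <;> simp
    by_contra h8
    apply h6 c
    · rw [hb'] at h8
      revert h8
      cases y c <;> cases ε (T.sg q) <;> simp
    · exact Subtype.ext (by rw [← hb']; exact h.trans hqb.symm)
  refine ⟨x, y, r, r', h1, h2, ?_, ?_, ?_, ?_, ?_, ?_, ?_, h7⟩
  · intro e c b' g1 g2 g3 g4 g5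
    have hb := x1 c b' (by rw [pcq c]; exact g2) g3
    rw [sgQ c] at hb
    subst hb
    exact h3 e c g4 g5 (Subtype.ext g1.symm)
  · intro e c b' g1 g2 g3 g4 g5
    have hb := y1 c b' (by rw [pcq c]; exact g2) g3
    rw [sgQ c] at hb
    have hb' : b' = !ε (T.sg q) := by
      revert hb
      cases b' <;> cases ε (T.sg q) <;> simp
    subst hb'
    exact h4 e c g4 g5 (Subtype.ext g1.symm)
  · intro g1 g2 c b' g3
    have hb := x2 c b' (by rw [pcq c]; exact g3) (by rw [g3]; exact g2) (by rw [g3]; exact g1)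
    exact qx c b' g3 (hb.trans (congrArg ε (sgQ c)))
  · intro g1 g2 c b' g3
    have hb := y2 c b' (by rw [pcq c]; exact g3) (by rw [g3]; exact g2) (by rw [g3]; exact g1)
    rw [sgQ c] at hb
    exact qy c b' g3 hb
  · intro c b' g1
    by_cases hb : b' = ε (T.sg q)
    · obtain ⟨e, e1, e2⟩ := exit_of_rank T (hσ Q) h1 c b' (by rw [hqb]; exact g1)
      refine ⟨e, e1, fun _ => e2, fun h => ?_⟩
      exact absurd (hb.trans (congrArg ε (sgQ c).symm)) (y1 c b' (by rw [pcq c]; exact g1) h)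
    · obtain ⟨e, e1, e2⟩ := exit_of_rank T.rev (S := S Q) (σ := fun b => (σ Q b).symm) (q := σ Q b q) (b := b)
        (x := y) (r := r') (by
          intro b' c'
          show (((σ Q b').symm c' : S Q) : C) = T.rev.frs b' c'
          rw [T.rev_frs, Equiv.eq_symm_apply, ← hσ Q, Equiv.apply_symm_apply]) h2 c b' (by
          show T.circ c b' ≠ T.circ (σ Q b q) b
          rw [hσ Q, T.circ_frs, hqb]; exact g1)
      refine ⟨e, e1, fun h => ?_, fun _ => e2⟩
      exact absurd ((x1 c b' (by rw [pcq c]; exact g1) h).trans (congrArg ε (sgQ c))) hb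
  · intro c g1 g2
    have h8 : T.rt (T.pc c) = T.K0 := T.root c T.b0 g1
    rw [pcq c] at h8
    exact qx c T.b0 (by rw [g1, h8]) (by rw [← hs1, ← g2, sgQ c])
  · intro c g1 g2
    have h8 : T.rt (T.pc c) = T.K0 := T.root c T.b0 g1
    rw [pcq c] at h8
    refine qy c T.b0 (by rw [g1, h8]) ?_
    rw [← sgQ c, g2, ← hs1]
    intro h
    have := hε h
    cases s1 <;> simp at this

end families

end Tree

end PoolLib.MP_3cd99b_gt.Oct
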