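import Pool.Agent.Lib.MP_3cd99b_gt.D0

/-!
The lattice points of an octagon contain every lattice point of their convex hull.
-/

namespace LG3P
open LG3

theorem half_convex (α β c : ℝ) : Convex ℝ {x : ℝ × ℝ | α * x.1 + β * x.2 ≤ c} := by
  intro x hx y hy s t hs ht hst
  simp only [Set.mem_setOf_eq, Prod.fst_add, Prod.snd_add, Prod.smul_fst, Prod.smul_snd, smul_eq_mul] at hx hy ⊢
  have h1 := mul_le_mul_of_nonneg_left hx hs
  have h2 := mul_le_mul_of_nonneg_left hy ht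
  have h3 : s * c + t * c = c := by rw [← add_mul, hst, one_mul]
  nlinarith

theorem half_hull (S : Set (ℤ × ℤ)) (α β c : ℤ) (h : ∀ z ∈ S, α * z.1 + β * z.2 ≤ c) (z : ℤ × ℤ)
    (hz : ((z.1 : ℝ), (z.2 : ℝ)) ∈ convexHull ℝ ((fun w : ℤ × ℤ => ((w.1 : ℝ), (w.2 : ℝ))) '' S)) :
    α * z.1 + β * z.2 ≤ c := by
  have h1 := convexHull_min (s := (fun w : ℤ × ℤ => ((w.1 : ℝ), (w.2 : ℝ))) '' S)
    (t := {x : ℝ × ℝ | (α : ℝ) * x.1 + β * x.2 ≤ c}) (by
      rintro _ ⟨w, hw, rfl⟩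
      have := h w hw
      simp only [Set.mem_setOf_eq]
      exact_mod_cast this) (half_convex α β c) hz
  simp only [Set.mem_setOf_eq] at h1
  exact_mod_cast h1

/-- The lattice points of an octagon have no interior zeros. -/
theorem noInterior_oct (S : Set (ℤ × ℤ)) (a b p n d : ℤ)
    (h : ∀ z : ℤ × ℤ, z ∈ S ↔ -b ≤ z.1 ∧ z.1 ≤ a ∧ -b ≤ z.2 ∧ z.2 ≤ a ∧ -n ≤ z.1 + z.2 ∧ z.1 + z.2 ≤ p ∧
      |z.1 - z.2| ≤ d) : NoInteriorZeros S := by
  intro z hz
  rw [h]
  have k := fun (α β c : ℤ) (hc : ∀ z ∈ S, α * z.1 + β * z.2 ≤ c) => half_hull S α β c hc z hz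
  have k1 := k (-1) 0 b (fun z hz => by have := (h z).mp hz; linarith [this.1])
  have k2 := k 1 0 a (fun z hz => by have := (h z).mp hz; linarith [this.2.1])
  have k3 := k 0 (-1) b (fun z hz => by have := (h z).mp hz; linarith [this.2.2.1])
  have k4 := k 0 1 a (fun z hz => by have := (h z).mp hz; linarith [this.2.2.2.1])
  have k5 := k (-1) (-1) n (fun z hz => by have := (h z).mp hz; linarith [this.2.2.2.2.1])
  have k6 := k 1 1 p (fun z hz => by have := (h z).mp hz; linarith [this.2.2.2.2.2.1])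
  have k7 := k 1 (-1) d (fun z hz => by
    have := abs_le.mp ((h z).mp hz).2.2.2.2.2.2
    linarith [this.2])
  have k8 := k (-1) 1 d (fun z hz => by
    have := abs_le.mp ((h z).mp hz).2.2.2.2.2.2
    linarith [this.1])
  refine ⟨by linarith, by linarith, by linarith, by linarith, by linarith, by linarith, abs_le.mpr ⟨by linarith, by linarith⟩⟩

theorem noInterior_empty : NoInteriorZeros (∅ : Set (ℤ × ℤ)) := by
  intro z hz
  simp at hz

end LG3P
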