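import Pool.Agent.Lib.MP_3cd99b_gt.Oct

/-!
Gluing: a labelling of the crossings of a diagram whose restrictions to the pieces (regions between the Seifert
circles) are acyclic is acyclic, if at every circle either the child piece has no exit or it is cut at an exit of the
parent piece.

Slots are pairs (crossing, side), nx is the next slot on the same circle, m is the slot before the cut.
-/

namespace PoolLib.MP_3cd99b_gt.Oct

open Function Finset

variable {W : Type*}

/-- the parent system of a permutation of the slots, cut after the slot m -/
def cutSys [DecidableEq W] (nx : Equiv.Perm (W × Bool)) (m : W × Bool) (c : W) (b : Bool) : Option W :=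
  if (c, b) = m then none else some (nx (c, b)).1

/-- the walk from c meets the root or a vertex of T -/
inductive Goes (s : W → Bool → Option W) (x : W → Bool) (T : W → Prop) : W → Prop
  | here (c : W) : T c → Goes s x T c
  | root (c : W) : s c (x c) = none → Goes s x T c
  | step (c c' : W) : s c (x c) = some c' → Goes s x T c' → Goes s x T c

theorem Goes.bind {s : W → Bool → Option W} {x : W → Bool} {T T' : W → Prop} {c : W} (h : Goes s x T c)
    (h' : ∀ c', T c' → Goes s x T' c') : Goes s x T' c := by
  induction h with
  | here c hc => exact h' c hc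
  | root c hc => exact Goes.root c hc
  | step c c' hc _ ih => exact Goes.step c c' hc ih

theorem Goes.reach {s : W → Bool → Option W} {x : W → Bool} {c : W} (h : Goes s x (fun _ => False) c) :
    ∃ n, (par s x)^[n] (some c) = none := by
  induction h with
  | here c hc => exact absurd hc id
  | root c hc => exact ⟨1, by simpa [par] using hc⟩
  | step c c' hc _ ih =>
    obtain ⟨n, hn⟩ := ih
    refine ⟨n + 1, ?_⟩
    rw [iterate_succ_apply]
    have h1 : par s x (some c) = some c' := by simpa [par] using hc
    rw [h1]; exact hn

section
variable [DecidableEq W] (nx : Equiv.Perm (W × Bool)) (m : W × Bool) (x : W → Bool)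

/-- the walk which leaves along the slot z meets the root or T -/
def GoesS (T : W → Prop) (z : W × Bool) : Prop := z = m ∨ Goes (cutSys nx m) x T (nx z).1

variable {nx m x}

theorem Goes.of_slot {T : W → Prop} {z : W × Bool} (hz : x z.1 = z.2) (h : GoesS nx m x T z) :
    Goes (cutSys nx m) x T z.1 := by
  have e : (z.1, x z.1) = z := by rw [hz]
  by_cases hm : z = m
  · exact Goes.root _ (by unfold cutSys; rw [e, if_pos hm])
  · rcases h with h | h
    · exact absurd h hm
    · exact Goes.step _ (nx z).1 (by unfold cutSys; rw [e, if_neg hm]) h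

end

/-- THE GLUING THEOREM. κ = circle of a slot, out z = the crossing of z is on the parent side of its circle, lv = level of a circle,
dep = depth of a crossing, rc = root circle of the piece of a crossing, D = detour circles, Φ = robust potential. -/
theorem glue [Fintype W] [DecidableEq W] {K : Type*} (nx : Equiv.Perm (W × Bool)) (m : W × Bool) (x : W → Bool)
    (κ : W × Bool → K) (hκ : ∀ z, κ (nx z) = κ z) (hκ' : ∀ z z', κ z = κ z' → ∃ n, 0 < n ∧ (nx ^ n) z = z')
    (out : W × Bool → Prop) (lv : K → ℕ) (dep : W → ℕ) (rc : W → K) (D : K → Prop) (Φ : W → ℕ)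
    (hout : ∀ z : W × Bool, out z → dep z.1 = lv (κ z))
    (hinn : ∀ z : W × Bool, ¬ out z → dep z.1 = lv (κ z) + 1)
    (hrc : ∀ z : W × Bool, ¬ out z → rc z.1 = κ z)
    (hrs : ∀ z z' : W × Bool, κ z = κ z' → out z → out z' → rc z.1 = rc z'.1)
    (hex : ∀ k, D k → (∃ z, κ z = k) → ∃ e : W × Bool, κ e = k ∧ out e ∧ x e.1 ≠ e.2)
    (hroot : ∀ z, κ z = κ m → ¬ out z)
    (hex' : ∀ z : W × Bool, ¬ out z → ¬ D (κ z) → κ z ≠ κ m → ∃ e : W × Bool, κ e = κ z ∧ out e)
    (hst : ∀ z : W × Bool, ¬ D (κ z) → κ z ≠ κ m → ¬ out z → x z.1 = z.2)
    (h0 : ∀ (c : W) (z : W × Bool), z = (c, x c) → κ z = κ m →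
      (∃ k, (nx ^ k) z = m ∧ ∀ i, 0 < i → i ≤ k → x ((nx ^ i) z).1 = ((nx ^ i) z).2) ∨
      (∃ k, 0 < k ∧ Φ ((nx ^ k) z).1 < Φ c ∧ ∀ i, 0 < i → i < k → x ((nx ^ i) z).1 = ((nx ^ i) z).2))
    (h1 : ∀ (c : W) (z : W × Bool), z = (c, x c) → out z → D (κ z) →
      ∀ e : W × Bool, κ e = κ z → out e → x e.1 ≠ e.2 → Φ e.1 < Φ c)
    (h2 : ∀ (c : W) (z : W × Bool), z = (c, x c) → out z → ¬ D (κ z) →
      ∃ k, 0 < k ∧ out ((nx ^ k) z) ∧ Φ ((nx ^ k) z).1 < Φ c ∧ ∀ i, 0 < i → i < k → ¬ out ((nx ^ i) z))
    (h3 : ∀ (c : W) (z : W × Bool), z = (c, x c) → ¬ out z → D (κ z) →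
      ∃ k, 0 < k ∧ (∀ i, 0 < i → i < k → out ((nx ^ i) z)) ∧
        ((out ((nx ^ k) z) ∧ x ((nx ^ k) z).1 ≠ ((nx ^ k) z).2) ∨
          (¬ out ((nx ^ k) z) ∧ Φ ((nx ^ k) z).1 < Φ c))) :
    Acyc (cutSys nx m) x := by
  classical
  set s := cutSys nx m with hs
  -- targets
  let T : W → W → Prop := fun c c' =>
    ∃ b', κ (c', b') = rc c ∧ out (c', b') ∧ dep c = dep c' + 1 ∧ (D (rc c) → x c' ≠ b')
  have hTc : ∀ c c', rc c = rc c' → dep c = dep c' → ∀ a, T c a → T c' a := by
    rintro c c' h h' a ⟨b', g1, g2, g3, g4⟩
    exact ⟨b', by rw [← h]; exact g1, g2, by rw [← h']; exact g3, by rw [← h]; exact g4⟩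
  have hκn : ∀ n z, κ ((nx ^ n) z) = κ z := by
    intro n
    induction n with
    | zero => intro z; simp
    | succ n ih => intro z; rw [pow_succ', Equiv.Perm.mul_apply, hκ, ih]
  obtain ⟨N, hN⟩ : ∃ N, ∀ c, dep c ≤ N := ⟨Finset.univ.sup dep, fun c => Finset.le_sup (Finset.mem_univ c)⟩
  have claim : ∀ q : ℕ, ∀ c, N - dep c = q → Goes s x (T c) c := by
    intro q
    induction q using Nat.strong_induction_on with
    | _ q IH1 =>
    have IH1' : ∀ c c', N - dep c = q → dep c' = dep c + 1 → Goes s x (T c') c' := by
      intro c c' hc hc'
      exact IH1 (N - dep c') (by have := hN c'; omega) c' rfl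
    suffices H : ∀ f : ℕ, ∀ c, Φ c = f → N - dep c = q → Goes s x (T c) c by
      intro c hc; exact H (Φ c) c rfl hc
    intro f
    induction f using Nat.strong_induction_on with
    | _ f IH2 =>
    intro c hf hc
    have IH2' : ∀ c', Φ c' < Φ c → dep c' = dep c → rc c' = rc c → Goes s x (T c) c' := by
      intro c' h h' h''
      exact (IH2 (Φ c') (by omega) c' rfl (by rw [h']; exact hc)).bind fun a ha =>
        Goes.here a (hTc c' c h'' h' a ha)
    obtain ⟨z, hz⟩ : ∃ z : W × Bool, z = (c, x c) := ⟨_, rfl⟩
    have hz1 : z.1 = c := by rw [hz]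
    have hz2 : x z.1 = z.2 := by rw [hz]
    suffices HS : GoesS nx m x (T c) z by
      have := Goes.of_slot hz2 HS
      rw [hz1] at this; exact this
    by_cases ho : out z
    · have hdc : dep c = lv (κ z) := by rw [← hz1]; exact hout z ho
      by_cases hD : D (κ z)
      · -- detour circle
        obtain ⟨e, he1, he2, he3⟩ := hex (κ z) hD ⟨z, rfl⟩
        have hexit : ∀ e' : W × Bool, κ e' = κ z → out e' → x e'.1 ≠ e'.2 → Goes s x (T c) e'.1 := by
          intro e' g1 g2 g3
          refine IH2' e'.1 (h1 c z hz ho hD e' g1 g2 g3) ?_ ?_
          · rw [hdc, hout e' g2, g1]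
          · rw [← hz1]; exact hrs e' z g1 g2 ho
        have walk : ∀ n, 0 < n → ∀ z' : W × Bool, κ z' = κ z → (nx ^ n) z' = e → GoesS nx m x (T c) z' := by
          intro n
          induction n with
          | zero => intro h; exact absurd h (lt_irrefl _)
          | succ n ih =>
            intro _ z' hk hn
            right
            have hk1 : κ (nx z') = κ z := by rw [hκ, hk]
            by_cases hx : x (nx z').1 = (nx z').2
            · -- stays on the circle
              have hn0 : 0 < n := by
                rcases Nat.eq_zero_or_pos n with h0 | h0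
                · subst h0
                  rw [zero_add, pow_one] at hn
                  rw [hn] at hx
                  exact absurd hx he3
                · exact h0
              refine Goes.of_slot hx (ih hn0 (nx z') hk1 ?_)
              rw [pow_succ, Equiv.Perm.mul_apply] at hn
              exact hn
            · by_cases hp : out (nx z')
              · exact hexit (nx z') hk1 hp hx
              · have hi : ¬ out (nx z') := hp
                have hd1 : dep (nx z').1 = dep c + 1 := by rw [hinn _ hi, hk1, hdc]
                refine (IH1' c (nx z').1 hc hd1).bind ?_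
                rintro a ⟨b', g1, g2, g3, g4⟩
                have hr : rc (nx z').1 = κ z := by rw [hrc _ hi, hk1]
                rw [hr] at g1 g4
                exact hexit (a, b') g1 g2 (g4 hD)
        obtain ⟨n, hn0, hn⟩ := hκ' z e (he1.symm)
        exact walk n hn0 z rfl hn
      · -- quiet circle, parent side
        have hzm : κ z ≠ κ m := fun h => hroot z h ho
        have key : ∀ k, ∀ z' : W × Bool, κ z' = κ z →
            (0 < k ∧ out ((nx ^ k) z') ∧ Φ ((nx ^ k) z').1 < Φ c ∧
              ∀ i, 0 < i → i < k → ¬ out ((nx ^ i) z')) → GoesS nx m x (T c) z' := by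
          intro k
          induction k with
          | zero =>
            intro z' _ h
            exact absurd h.1 (lt_irrefl _)
          | succ k ih =>
            intro z' hk h
            right
            have hk1 : κ (nx z') = κ z := by rw [hκ, hk]
            have hsh : ∀ j, (nx ^ (j + 1)) z' = (nx ^ j) (nx z') := by
              intro j; rw [pow_succ, Equiv.Perm.mul_apply]
            have stay : ¬ out (nx z') → GoesS nx m x (T c) (nx z') → Goes s x (T c) (nx z').1 := by
              intro hp hg
              exact Goes.of_slot (hst (nx z') (by rw [hk1]; exact hD) (by rw [hk1]; exact hzm) hp) hg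
            obtain ⟨g0, g1, g2, g3⟩ := h
            rcases Nat.eq_zero_or_pos k with h0 | h0
            · subst h0
              rw [zero_add, pow_one] at g1 g2
              refine IH2' _ g2 ?_ ?_
              · rw [hdc, hout _ g1, hk1]
              · rw [← hz1]; exact hrs _ z hk1 g1 ho
            · have hp : ¬ out (nx z') := by
                have := g3 1 one_pos (by omega)
                rwa [pow_one] at this
              refine stay hp (ih (nx z') hk1 ⟨h0, by rw [← hsh]; exact g1, by rw [← hsh]; exact g2, ?_⟩)
              intro i hi hi'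
              rw [← hsh]; exact g3 (i + 1) (by omega) (by omega)
        obtain ⟨k, g0, g1, g2, g3⟩ := h2 c z hz ho hD
        exact key k z rfl ⟨g0, g1, g2, g3⟩
    · have hdc : dep c = lv (κ z) + 1 := by rw [← hz1]; exact hinn z ho
      have hrcc : rc c = κ z := by rw [← hz1]; exact hrc z ho
      have hT : ∀ z' : W × Bool, κ z' = κ z → out z' → (D (κ z) → x z'.1 ≠ z'.2) → T c z'.1 := by
        intro z' g1 g2 g3
        refine ⟨z'.2, by rw [hrcc]; exact g1, g2, ?_, by rw [hrcc]; exact g3⟩
        rw [hdc, hout z' g2, g1]
      by_cases hD : D (κ z)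
      · have key : ∀ k, 0 < k → ∀ z' : W × Bool, κ z' = κ z →
            (∀ i, 0 < i → i < k → out ((nx ^ i) z')) →
            ((out ((nx ^ k) z') ∧ x ((nx ^ k) z').1 ≠ ((nx ^ k) z').2) ∨
              (¬ out ((nx ^ k) z') ∧ Φ ((nx ^ k) z').1 < Φ c)) → GoesS nx m x (T c) z' := by
          intro k
          induction k with
          | zero => intro h; exact absurd h (lt_irrefl _)
          | succ k ih =>
            intro _ z' hk g1 g2
            right
            have hk1 : κ (nx z') = κ z := by rw [hκ, hk]
            have hsh : ∀ j, (nx ^ (j + 1)) z' = (nx ^ j) (nx z') := by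
              intro j; rw [pow_succ, Equiv.Perm.mul_apply]
            rcases Nat.eq_zero_or_pos k with h0 | h0
            · subst h0
              rw [zero_add, pow_one] at g2
              rcases g2 with ⟨g3, g4⟩ | ⟨g3, g4⟩
              · exact Goes.here _ (hT _ hk1 g3 fun _ => g4)
              · refine IH2' _ g4 ?_ ?_
                · rw [hdc, hinn _ g3, hk1]
                · rw [hrcc, hrc _ g3, hk1]
            · have hp : out (nx z') := by
                have := g1 1 one_pos (by omega)
                rwa [pow_one] at this
              by_cases hx : x (nx z').1 = (nx z').2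
              · refine Goes.of_slot hx (ih h0 (nx z') hk1 ?_ ?_)
                · intro i hi hi'
                  rw [← hsh]; exact g1 (i + 1) (by omega) (by omega)
                · rw [← hsh]; exact g2
              · exact Goes.here _ (hT _ hk1 hp fun _ => hx)
        obtain ⟨k, g0, g1, g2⟩ := h3 c z hz ho hD
        exact key k g0 z rfl g1 g2
      · by_cases hzm : κ z = κ m
        · -- the root circle
          have key : ∀ k, ∀ z' : W × Bool, κ z' = κ z →
              (((nx ^ k) z' = m ∧ ∀ i, 0 < i → i ≤ k → x ((nx ^ i) z').1 = ((nx ^ i) z').2) ∨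
              (0 < k ∧ Φ ((nx ^ k) z').1 < Φ c ∧ ∀ i, 0 < i → i < k → x ((nx ^ i) z').1 = ((nx ^ i) z').2)) →
              GoesS nx m x (T c) z' := by
            intro k
            induction k with
            | zero =>
              intro z' _ h
              rcases h with h | h
              · exact Or.inl (by simpa using h.1)
              · exact absurd h.1 (lt_irrefl _)
            | succ k ih =>
              intro z' hk h
              right
              have hk1 : κ (nx z') = κ z := by rw [hκ, hk]
              have hsh : ∀ j, (nx ^ (j + 1)) z' = (nx ^ j) (nx z') := by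
                intro j; rw [pow_succ, Equiv.Perm.mul_apply]
              rcases h with ⟨g1, g2⟩ | ⟨g0, g1, g2⟩
              · have hp : x (nx z').1 = (nx z').2 := by
                  have := g2 1 one_pos (by omega)
                  rwa [pow_one] at this
                refine Goes.of_slot hp (ih (nx z') hk1 (Or.inl ⟨by rw [← hsh]; exact g1, ?_⟩))
                intro i hi hi'
                rw [← hsh]; exact g2 (i + 1) (by omega) (by omega)
              · rcases Nat.eq_zero_or_pos k with h0 | h0
                · subst h0
                  rw [zero_add, pow_one] at g1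
                  have hno : ¬ out (nx z') := hroot _ (by rw [hk1, hzm])
                  refine IH2' _ g1 ?_ ?_
                  · rw [hdc, hinn _ hno, hk1]
                  · rw [hrcc, hrc _ hno, hk1]
                · have hp : x (nx z').1 = (nx z').2 := by
                    have := g2 1 one_pos (by omega)
                    rwa [pow_one] at this
                  refine Goes.of_slot hp (ih (nx z') hk1 (Or.inr ⟨h0, by rw [← hsh]; exact g1, ?_⟩))
                  intro i hi hi'
                  rw [← hsh]; exact g2 (i + 1) (by omega) (by omega)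
          rcases h0 c z hz hzm with ⟨k, g1, g2⟩ | ⟨k, g0, g1, g2⟩
          · exact key k z rfl (Or.inl ⟨g1, g2⟩)
          · exact key k z rfl (Or.inr ⟨g0, g1, g2⟩)
        · obtain ⟨e, he1, he2⟩ := hex' z ho hD hzm
          have key : ∀ n, 0 < n → ∀ z' : W × Bool, κ z' = κ z → (nx ^ n) z' = e → GoesS nx m x (T c) z' := by
            intro n
            induction n with
            | zero => intro h; exact absurd h (lt_irrefl _)
            | succ n ih =>
              intro _ z' hk hn
              right
              have hk1 : κ (nx z') = κ z := by rw [hκ, hk]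
              have hn' : (nx ^ n) (nx z') = e := by rw [← hn, pow_succ, Equiv.Perm.mul_apply]
              by_cases hp : out (nx z')
              · exact Goes.here _ (hT _ hk1 hp fun h => absurd h hD)
              · have hn0 : 0 < n := by
                  rcases Nat.eq_zero_or_pos n with h0 | h0
                  · subst h0
                    exfalso
                    apply hp
                    have : nx z' = e := by simpa using hn'
                    rw [this]; exact he2
                  · exact h0
                exact Goes.of_slot (hst (nx z') (by rw [hk1]; exact hD) (by rw [hk1]; exact hzm) hp)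
                  (ih hn0 (nx z') hk1 hn')
          obtain ⟨n, hn0, hn⟩ := hκ' z e he1.symm
          exact key n hn0 z rfl hn
  have fin : ∀ d : ℕ, ∀ c, dep c = d → Goes s x (fun _ => False) c := by
    intro d
    induction d with
    | zero =>
      intro c hc
      refine (claim _ c rfl).bind ?_
      rintro a ⟨b', _, _, g3, _⟩
      omega
    | succ d ih =>
      intro c hc
      refine (claim _ c rfl).bind ?_
      rintro a ⟨b', _, _, g3, _⟩
      exact ih a (by omega)
  exact acyc_of_reach fun v => (fin _ v rfl).reach

end PoolLib.MP_3cd99b_gt.Oct
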