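import Pool.Agent.Lib.MP_3cd99b_gt.Z1

/-!
The histories of a diagram are pairs of runs of a single label.
-/

namespace LG3P
open LG3

/-- the marks of one label at a crossing whose left region has the content c and whose lower region has the
content c': (hole taken from the region above, mark, new content of the right region, new content of the lower
region) -/
def oXb (c c' : Bool) : List (Bool × Mk × Bool × Bool) :=
  if c then [(false, .L, true, c')]
  else if c' then [(false, .R, false, true), (true, .T, true, true), (false, .B, true, false)]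
  else [(false, .R, false, false), (true, .T, true, false)]

/-- options of one label at a piece at the top: (hole taken from the region above, mark, contents) -/
def o1 : Piece → List Bool → List (Bool × Option Mk × List Bool)
  | .cup _ _, S => [(false, none, true :: false :: S), (true, none, true :: true :: S)]
  | .cap _ _, c :: c' :: S => if c then [] else [(!c', none, S)]
  | .cross _ _, c :: c' :: S => (oXb c c').map fun t => (t.1, some t.2.1, t.2.2.1 :: t.2.2.2 :: S)
  | _, _ => []

/-- options of one label at a piece below k strands -/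
def ok1l (p : Piece) : ℕ → List Bool → List (Bool × Option Mk × List Bool)
  | 0, S => o1 p S
  | _ + 1, [] => []
  | k + 1, c :: S => ((ok1l p k S).filter fun o => !o.1 || c).map fun o => (false, o.2.1, (c && !o.1) :: o.2.2)

/-- transfer of one label -/
def t1 (p : Piece) (S : List Bool) : List (Option Mk × List Bool) :=
  ((ok1l p (pos p) S).filter fun o => !o.1).map fun o => o.2

/-- the runs of one label: lists of marks of the crossings -/
def run : List Piece → List Bool → List (List Mk)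
  | [], S => if S = [false] then [[]] else []
  | p :: w, S => (t1 p S).flatMap fun o => (run w o.2).map fun l => o.1.toList ++ l

/-- the exponents of two lists of marks (label 2, label 1) -/
def ex2 : List Piece → List Mk → List Mk → ℤ × ℤ
  | [], _, _ => 0
  | .cross _ e :: w, m :: ms, n :: ns => wx e m n + ex2 w ms ns
  | .cross _ _ :: _, _, _ => 0
  | .cup _ _ :: w, ms, ns => ex2 w ms ns
  | .cap _ _ :: w, ms, ns => ex2 w ms ns

/-- label 1 in a content -/
def b1 (c : Fin 4) : Bool := Nat.beq (c.val % 2) 1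

/-- label 2 in a content -/
def b2 (c : Fin 4) : Bool := Nat.beq (c.val / 2) 1

/-- the marks and exponents of an option of two labels -/
def CombM (p : Piece) (q : ℤ × ℤ) (m n : Option Mk) : Prop :=
  match p with
  | .cross _ e => ∃ x y, m = some x ∧ n = some y ∧ q = wx e x y
  | _ => m = none ∧ n = none ∧ q = (0, 0)

/-- what an option of two labels is, in terms of options of one label -/
def Comb (p : Piece) (o : Op) (m n : Bool × Option Mk × List Bool) : Prop :=
  b2 o.T = m.1 ∧ b1 o.T = n.1 ∧ o.S.map b2 = m.2.2 ∧ o.S.map b1 = n.2.2 ∧ CombM p (o.p, o.q) m.2.1 n.2.1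

theorem b_inj : ∀ c d : Fin 4, b1 c = b1 d → b2 c = b2 d → c = d := by decide

theorem b_ex : ∀ x y : Bool, ∃ c : Fin 4, b2 c = x ∧ b1 c = y := by decide

theorem b_dif3 : ∀ c : Fin 4, b2 (dif 3 c) = !b2 c ∧ b1 (dif 3 c) = !b1 c := by decide

theorem b_dif : ∀ c d : Fin 4, b2 (dif c d) = (b2 c && !b2 d) ∧ b1 (dif c d) = (b1 c && !b1 d) := by decide

theorem sb_b : ∀ T c : Fin 4, sb T c = ((!b2 T || b2 c) && (!b1 T || b1 c)) := by decide

theorem zero_b : ∀ c : Fin 4, (c = 0 ↔ (b2 c = false ∧ b1 c = false)) := by decide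

theorem opX_fwd : ∀ e c c', ∀ o ∈ opX e c c', ∃ m ∈ oXb (b2 c) (b2 c'), ∃ n ∈ oXb (b1 c) (b1 c'),
    b2 o.1 = m.1 ∧ b1 o.1 = n.1 ∧ b2 o.2.2.2.2.1 = m.2.2.1 ∧ b1 o.2.2.2.2.1 = n.2.2.1 ∧
      b2 o.2.2.2.2.2 = m.2.2.2 ∧ b1 o.2.2.2.2.2 = n.2.2.2 ∧ (o.2.2.1, o.2.2.2.1) = wx e m.2.1 n.2.1 := by
  decide +kernel

theorem opX_bwd : ∀ e c c', ∀ m ∈ oXb (b2 c) (b2 c'), ∀ n ∈ oXb (b1 c) (b1 c'), ∃ o ∈ opX e c c',
    b2 o.1 = m.1 ∧ b1 o.1 = n.1 ∧ b2 o.2.2.2.2.1 = m.2.2.1 ∧ b1 o.2.2.2.2.1 = n.2.2.1 ∧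
      b2 o.2.2.2.2.2 = m.2.2.2 ∧ b1 o.2.2.2.2.2 = n.2.2.2 ∧ (o.2.2.1, o.2.2.2.1) = wx e m.2.1 n.2.1 := by
  decide +kernel

theorem comb_fwd (p : Piece) : ∀ (k : ℕ) (S : List (Fin 4)), ∀ o ∈ opk p k S,
    ∃ m ∈ ok1l p k (S.map b2), ∃ n ∈ ok1l p k (S.map b1), Comb p o m n := by
  intro k
  induction k with
  | zero =>
    intro S o ho
    cases p with
    | cup k' f =>
      simp only [opk, op0, List.mem_map] at ho
      obtain ⟨T, _, rfl⟩ := ho
      refine ⟨(b2 T, none, true :: b2 T :: S.map b2), ?_, (b1 T, none, true :: b1 T :: S.map b1), ?_, ?_⟩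
      · cases h : b2 T <;> simp [ok1l, o1]
      · cases h : b1 T <;> simp [ok1l, o1]
      · refine ⟨rfl, rfl, ?_, ?_, rfl, rfl, rfl⟩ <;> simp <;> decide
    | cap k' f =>
      match S, ho with
      | [], ho => simp [opk, op0] at ho
      | [c], ho => simp [opk, op0] at ho
      | c :: c' :: S, ho =>
        simp only [opk, op0] at ho
        split_ifs at ho with hc
        · simp only [List.mem_singleton] at ho
          subst ho
          subst hc
          have e2 : b2 0 = false := by decide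
          have e1 : b1 0 = false := by decide
          refine ⟨(!b2 c', none, S.map b2), ?_, (!b1 c', none, S.map b1), ?_, ?_⟩
          · simp [ok1l, o1, e2]
          · simp [ok1l, o1, e1]
          · exact ⟨(b_dif3 c').1, (b_dif3 c').2, rfl, rfl, rfl, rfl, rfl⟩
        · simp at ho
    | cross k' e =>
      match S, ho with
      | [], ho => simp [opk, op0] at ho
      | [c], ho => simp [opk, op0] at ho
      | c :: c' :: S, ho =>
        simp only [opk, op0, List.mem_map] at ho
        obtain ⟨x, hx, rfl⟩ := ho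
        obtain ⟨m, hm, n, hn, h1, h2, h3, h4, h5, h6, h7⟩ := opX_fwd e c c' x hx
        refine ⟨(m.1, some m.2.1, m.2.2.1 :: m.2.2.2 :: S.map b2), ?_,
          (n.1, some n.2.1, n.2.2.1 :: n.2.2.2 :: S.map b1), ?_, ?_⟩
        · exact List.mem_map.mpr ⟨m, hm, rfl⟩
        · exact List.mem_map.mpr ⟨n, hn, rfl⟩
        · exact ⟨h1, h2, by simp [h3, h5], by simp [h4, h6], _, _, rfl, rfl, h7⟩
  | succ k ih =>
    intro S o ho
    match S, ho with
    | [], ho => simp [opk] at ho
    | c :: S, ho =>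
      simp only [opk, List.mem_map, List.mem_filter] at ho
      obtain ⟨x, ⟨hx, hT⟩, rfl⟩ := ho
      obtain ⟨m, hm, n, hn, h1, h2, h3, h4, h5⟩ := ih S x hx
      rw [sb_b, Bool.and_eq_true] at hT
      rw [h1, h2] at hT
      have e2 : b2 0 = false := by decide
      have e1 : b1 0 = false := by decide
      refine ⟨(false, m.2.1, (b2 c && !m.1) :: m.2.2), ?_, (false, n.2.1, (b1 c && !n.1) :: n.2.2), ?_, ?_⟩
      · simp only [List.map_cons, ok1l, List.mem_map, List.mem_filter]
        exact ⟨m, ⟨hm, hT.1⟩, rfl⟩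
      · simp only [List.map_cons, ok1l, List.mem_map, List.mem_filter]
        exact ⟨n, ⟨hn, hT.2⟩, rfl⟩
      · refine ⟨e2, e1, ?_, ?_, h5⟩
        · simp [(b_dif c x.T).1, h1, h3]
        · simp [(b_dif c x.T).2, h2, h4]

theorem comb_bwd (p : Piece) : ∀ (k : ℕ) (S : List (Fin 4)), ∀ m ∈ ok1l p k (S.map b2),
    ∀ n ∈ ok1l p k (S.map b1), ∃ o ∈ opk p k S, Comb p o m n := by
  intro k
  induction k with
  | zero =>
    intro S m hm n hn
    cases p with
    | cup k' f =>
      have hm' : m = (m.1, none, true :: m.1 :: S.map b2) := by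
        simp only [ok1l, o1, List.mem_cons, List.not_mem_nil, or_false] at hm
        rcases hm with rfl | rfl <;> rfl
      have hn' : n = (n.1, none, true :: n.1 :: S.map b1) := by
        simp only [ok1l, o1, List.mem_cons, List.not_mem_nil, or_false] at hn
        rcases hn with rfl | rfl <;> rfl
      obtain ⟨T, hT2, hT1⟩ := b_ex m.1 n.1
      have h4 : ∀ T : Fin 4, T ∈ all4 := by decide
      refine ⟨⟨T, sg f, 0, 0, 3 :: T :: S⟩, List.mem_map.mpr ⟨T, h4 T, rfl⟩, ?_⟩
      rw [hm', hn']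
      have e2 : b2 3 = true := by decide
      have e1 : b1 3 = true := by decide
      exact ⟨hT2, hT1, by simp [hT2, e2], by simp [hT1, e1], rfl, rfl, rfl⟩
    | cap k' f =>
      match S, hm, hn with
      | [], hm, hn => simp [ok1l, o1] at hm
      | [c], hm, hn => simp [ok1l, o1] at hm
      | c :: c' :: S, hm, hn =>
        simp only [ok1l, List.map_cons, o1] at hm hn
        split_ifs at hm with hc2
        · simp at hm
        · split_ifs at hn with hc1
          · simp at hn
          · simp only [List.mem_singleton] at hm hn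
            subst hm
            subst hn
            have hc : c = 0 := (zero_b c).mpr ⟨by simpa using hc2, by simpa using hc1⟩
            refine ⟨⟨dif 3 c', - sg f, 0, 0, S⟩, by simp [opk, op0, hc], ?_⟩
            exact ⟨(b_dif3 c').1, (b_dif3 c').2, rfl, rfl, rfl, rfl, rfl⟩
    | cross k' e =>
      match S, hm, hn with
      | [], hm, hn => simp [ok1l, o1] at hm
      | [c], hm, hn => simp [ok1l, o1] at hm
      | c :: c' :: S, hm, hn =>
        simp only [ok1l, List.map_cons, o1, List.mem_map] at hm hn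
        obtain ⟨x, hx, rfl⟩ := hm
        obtain ⟨y, hy, rfl⟩ := hn
        obtain ⟨o, ho, h1, h2, h3, h4, h5, h6, h7⟩ := opX_bwd e c c' x hx y hy
        refine ⟨⟨o.1, o.2.1, o.2.2.1, o.2.2.2.1, o.2.2.2.2.1 :: o.2.2.2.2.2 :: S⟩, List.mem_map.mpr ⟨o, ho, rfl⟩, ?_⟩
        exact ⟨h1, h2, by simp [h3, h5], by simp [h4, h6], _, _, rfl, rfl, h7⟩
  | succ k ih =>
    intro S m hm n hn
    match S, hm, hn with
    | [], hm, hn => simp [ok1l] at hm
    | c :: S, hm, hn =>
      simp only [List.map_cons, ok1l, List.mem_map, List.mem_filter] at hm hn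
      obtain ⟨x, ⟨hx, hxT⟩, rfl⟩ := hm
      obtain ⟨y, ⟨hy, hyT⟩, rfl⟩ := hn
      obtain ⟨o, ho, h1, h2, h3, h4, h5⟩ := ih S x hx y hy
      have hT : sb o.T c = true := by
        rw [sb_b, h1, h2, hxT, hyT]; rfl
      have e2 : b2 0 = false := by decide
      have e1 : b1 0 = false := by decide
      refine ⟨⟨0, o.e, o.p, o.q, dif c o.T :: o.S⟩, ?_, ?_⟩
      · simp only [opk, List.mem_map, List.mem_filter]
        exact ⟨o, ⟨ho, hT⟩, rfl⟩
      · refine ⟨e2, e1, ?_, ?_, h5⟩
        · simp [(b_dif c o.T).1, h1, h3]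
        · simp [(b_dif c o.T).2, h2, h4]

/-- The exponents of the histories are the exponents of the pairs of runs. -/
theorem hist_runs : ∀ (w : List Piece) (S : List (Fin 4)) (z : ℤ × ℤ),
    (∃ t ∈ hist w S, t.2 = z) ↔ ∃ m ∈ run w (S.map b2), ∃ n ∈ run w (S.map b1), z = ex2 w m n := by
  intro w
  induction w with
  | nil =>
    intro S z
    have h0 : (S = [0]) ↔ (S.map b2 = [false] ∧ S.map b1 = [false]) := by
      constructor
      · rintro rfl; exact ⟨rfl, rfl⟩
      · rintro ⟨h2, h1⟩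
        match S, h2, h1 with
        | [], h2, _ => simp at h2
        | [c], h2, h1 =>
          simp only [List.map_cons, List.map_nil, List.cons.injEq, and_true] at h2 h1
          rw [(zero_b c).mpr ⟨h2, h1⟩]
        | _ :: _ :: _, h2, _ => simp at h2
    simp only [hist, run]
    by_cases h : S = [0]
    · have h' := h0.mp h
      rw [if_pos h, if_pos h'.1, if_pos h'.2]
      simp only [List.mem_singleton, exists_eq_left, ex2]
      exact eq_comm
    · rw [if_neg h]
      constructor
      · rintro ⟨t, ht, _⟩; simp at ht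
      · rintro ⟨m, hm, n, hn, _⟩
        exfalso
        apply h
        apply h0.mpr
        constructor
        · by_contra h2; rw [if_neg h2] at hm; simp at hm
        · by_contra h2; rw [if_neg h2] at hn; simp at hn
  | cons p w ih =>
    intro S z
    simp only [hist, run, List.mem_flatMap, List.mem_map, tr, t1, List.mem_filter]
    constructor
    · rintro ⟨t, ⟨o, ⟨ho, hT⟩, t', ht', rfl⟩, rfl⟩
      obtain ⟨m, hm, n, hn, h1, h2, h3, h4, h5⟩ := comb_fwd p (pos p) S o ho
      have hT0 : o.T = 0 := by simpa using hT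
      rw [hT0] at h1 h2
      have e2 : b2 0 = false := by decide
      have e1 : b1 0 = false := by decide
      rw [e2] at h1
      rw [e1] at h2
      obtain ⟨ms, hms, ns, hns, hz⟩ := (ih o.S t'.2).mp ⟨t', ht', rfl⟩
      rw [h3] at hms
      rw [h4] at hns
      refine ⟨m.2.1.toList ++ ms, ⟨m.2, ⟨m, ⟨hm, by rw [← h1]; rfl⟩, rfl⟩, ms, hms, rfl⟩,
        n.2.1.toList ++ ns, ⟨n.2, ⟨n, ⟨hn, by rw [← h2]; rfl⟩, rfl⟩, ns, hns, rfl⟩, ?_⟩
      have hz' : ((o.p + t'.2.1, o.q + t'.2.2) : ℤ × ℤ) = (o.p, o.q) + ex2 w ms ns := by rw [← hz]; rfl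
      show ((o.p + t'.2.1, o.q + t'.2.2) : ℤ × ℤ) = _
      rw [hz']
      cases p with
      | cup k f =>
        obtain ⟨a1, a2, a3⟩ := h5
        rw [a1, a2, a3]; simp [ex2]
      | cap k f =>
        obtain ⟨a1, a2, a3⟩ := h5
        rw [a1, a2, a3]; simp [ex2]
      | cross k e =>
        obtain ⟨x, y, a1, a2, a3⟩ := h5
        rw [a1, a2, a3]; simp [ex2]
    · rintro ⟨_, ⟨m', ⟨m, ⟨hm, hmT⟩, rfl⟩, ms, hms, rfl⟩, _, ⟨n', ⟨n, ⟨hn, hnT⟩, rfl⟩, ns, hns, rfl⟩, rfl⟩
      obtain ⟨o, ho, h1, h2, h3, h4, h5⟩ := comb_bwd p (pos p) S m hm n hn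
      have hT0 : o.T = 0 := (zero_b o.T).mpr ⟨by rw [h1]; simpa using hmT, by rw [h2]; simpa using hnT⟩
      rw [← h3] at hms
      rw [← h4] at hns
      obtain ⟨t', ht', hz⟩ := (ih o.S _).mpr ⟨ms, hms, ns, hns, rfl⟩
      refine ⟨(o.e * t'.1, o.p + t'.2.1, o.q + t'.2.2), ⟨o, ⟨ho, by simpa using hT0⟩, t', ht', rfl⟩, ?_⟩
      have hz' : ((o.p + t'.2.1, o.q + t'.2.2) : ℤ × ℤ) = (o.p, o.q) + ex2 w ms ns := by rw [← hz]; rfl
      show ((o.p + t'.2.1, o.q + t'.2.2) : ℤ × ℤ) = _
      rw [hz']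
      cases p with
      | cup k f =>
        obtain ⟨a1, a2, a3⟩ := h5
        rw [a1, a2, a3]; simp [ex2]
      | cap k f =>
        obtain ⟨a1, a2, a3⟩ := h5
        rw [a1, a2, a3]; simp [ex2]
      | cross k e =>
        obtain ⟨x, y, a1, a2, a3⟩ := h5
        rw [a1, a2, a3]; simp [ex2]

end LG3P
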