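import Pool.Agent.Lib.MP_3cd99b_gt.Z1

/-! The sign rule: all histories of an alternating diagram have the sign of their exponents. -/

namespace LG3P
open LG3

/-- sign of a bit -/
def bsg (b : Bool) : ℤ := if b then -1 else 1

theorem bsg_xor (a b : Bool) : bsg (a ^^ b) = bsg a * bsg b := by
  cases a <;> cases b <;> rfl

/-- parity of an integer -/
def ob (n : ℤ) : Bool := decide (n % 2 = 1)

theorem ob_add (m n : ℤ) : ob (m + n) = (ob m ^^ ob n) := by
  have h1 := Int.emod_two_eq_zero_or_one m
  have h2 := Int.emod_two_eq_zero_or_one n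
  unfold ob
  rcases h1 with h1 | h1 <;> rcases h2 with h2 | h2 <;> simp [Int.add_emod, h1, h2]

/-- parity of the number of labels of a content -/
def par (c : Fin 4) : Bool := decide (c = 1) || decide (c = 2)

theorem par_dif : ∀ T c : Fin 4, sb T c = true → par (dif c T) = (par c ^^ par T) := by decide

/-- the potential of a list of contents: o is the parity of the index of the region above the first strand,
v the value of that region -/
def pot (q : Bool) : Bool → Bool → List Bool → List (Fin 4) → Bool
  | o, v, f :: d, c :: S =>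
    (par c && (v ^^ ((o == q) ^^ !f))) ^^ pot q (!o) (v ^^ ((o == q) ^^ !f)) d S
  | _, _, _, _ => false

/-- the directions after a piece at depth k -/
def dk (p : Piece) : ℕ → List Bool → Option (List Bool)
  | 0, d => match p, d with
    | .cup _ f, d => some (f :: (!f) :: d)
    | .cap _ f, a :: b :: d => if a = f ∧ b = !f then some d else none
    | .cross _ _, true :: true :: d => some (true :: true :: d)
    | _, _ => none
  | _ + 1, [] => none
  | k + 1, f :: d => (dk p k d).map (f :: ·)

/-- constant sign of a piece -/
def pcs : Piece → Bool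
  | .cup _ f => !f
  | .cap _ f => f
  | .cross _ _ => true

/-- parity of a natural number -/
def podd : ℕ → Bool
  | 0 => false
  | k + 1 => !podd k

/-- alternation -/
def Alt1 (q o : Bool) : Piece → Prop
  | .cross _ e => e = (o ^^ q)
  | _ => True

theorem pot_cons (q o v f : Bool) (d : List Bool) (c : Fin 4) (S : List (Fin 4)) :
    pot q o v (f :: d) (c :: S) =
      ((par c && (v ^^ ((o == q) ^^ !f))) ^^ pot q (!o) (v ^^ ((o == q) ^^ !f)) d S) := rfl

/-- table for the crossings -/
theorem tabX : ∀ q o v : Bool, ∀ c c' : Fin 4, ∀ r ∈ opX (o ^^ q) c c',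
    r.2.1 = bsg (true ^^ (ob (r.2.2.1 + r.2.2.2.1) ^^
      (((par c && (v ^^ ((o == q) ^^ !true))) ^^ (par c' && ((v ^^ ((o == q) ^^ !true)) ^^ (((!o) == q) ^^ !true)))) ^^
        (((par r.2.2.2.2.1 && (v ^^ ((o == q) ^^ !true))) ^^
          (par r.2.2.2.2.2 && ((v ^^ ((o == q) ^^ !true)) ^^ (((!o) == q) ^^ !true)))) ^^ (par r.1 && v))))) := by
  decide +kernel

theorem sg_bsg (f : Bool) : sg f = bsg (!f) := by cases f <;> rfl

theorem nsg_bsg (f : Bool) : -sg f = bsg f := by cases f <;> rfl

theorem par_dif3 : ∀ c : Fin 4, par (dif 3 c) = par c := by decide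

/-- two strands of opposite directions do not change the value -/
theorem val2 (q o v f : Bool) : ((v ^^ ((o == q) ^^ !f)) ^^ (((!o) == q) ^^ !(!f))) = v := by
  cases q <;> cases o <;> cases v <;> cases f <;> rfl

/-- two strands of opposite directions do not change the value -/
theorem val3 (q o v f : Bool) : ((v ^^ ((o == q) ^^ !f)) ^^ (((!o) == q) ^^ f)) = v := by
  cases q <;> cases o <;> cases v <;> cases f <;> rfl

/-- the sign of an option at depth 0 -/
theorem op0_sign (q : Bool) (p : Piece) (o v : Bool) (d d' : List Bool) (S : List (Fin 4))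
    (hd : dk p 0 d = some d') (ha : Alt1 q o p) (r : Op) (hr : r ∈ op0 p S) :
    r.e = bsg (pcs p ^^ (ob (r.p + r.q) ^^ (pot q o v d S ^^ (pot q o v d' r.S ^^ (par r.T && v))))) := by
  cases p with
  | cup k0 f =>
    have hd' : d' = f :: (!f) :: d := by
      simp only [dk, Option.some.injEq] at hd
      exact hd.symm
    subst hd'
    simp only [op0, List.mem_map] at hr
    obtain ⟨T, _, rfl⟩ := hr
    have h3 : par 3 = false := rfl
    have h0 : ob (0 + 0) = false := rfl
    simp only [pot_cons, val3, h3, h0, pcs, Bool.not_not, Bool.false_and, Bool.false_xor]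
    rw [sg_bsg]
    congr 1
    generalize pot q o v d S = x
    generalize (par T && v) = y
    cases f <;> cases x <;> cases y <;> rfl
  | cap k0 f =>
    rcases d with _ | ⟨a, _ | ⟨b, d⟩⟩
    · simp [dk] at hd
    · simp [dk] at hd
    simp only [dk] at hd
    split_ifs at hd with hab
    obtain ⟨rfl, rfl⟩ := hab
    simp only [Option.some.injEq] at hd
    subst hd
    rcases S with _ | ⟨c, _ | ⟨c', S⟩⟩
    · simp [op0] at hr
    · simp [op0] at hr
    simp only [op0] at hr
    split_ifs at hr with hc
    · subst hc
      simp only [List.mem_singleton] at hr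
      subst hr
      have h3 : par 0 = false := rfl
      have h0 : ob (0 + 0) = false := rfl
      simp only [pot_cons, val3, h3, h0, pcs, Bool.not_not, Bool.false_and, Bool.false_xor, par_dif3]
      rw [nsg_bsg]
      congr 1
      generalize pot q o v d S = x
      generalize (par c' && v) = y
      cases a <;> cases x <;> cases y <;> rfl
    · simp at hr
  | cross k0 e =>
    rcases d with _ | ⟨a, _ | ⟨b, d⟩⟩
    · simp [dk] at hd
    · cases a <;> simp [dk] at hd
    cases a
    · simp [dk] at hd
    cases b
    · simp [dk] at hd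
    simp only [dk, Option.some.injEq] at hd
    subst hd
    rcases S with _ | ⟨c, _ | ⟨c', S⟩⟩
    · simp [op0] at hr
    · simp [op0] at hr
    simp only [op0, List.mem_map] at hr
    obtain ⟨r0, hr0, rfl⟩ := hr
    simp only [Alt1] at ha
    subst ha
    have h := tabX q o v c c' r0 hr0
    simp only [pot_cons, pcs]
    rw [h]
    congr 1
    generalize pot q (!(!o)) _ d S = x
    generalize (v ^^ ((o == q) ^^ !true)) = y
    generalize (y ^^ (((!o) == q) ^^ !true)) = z
    generalize ob (r0.2.2.1 + r0.2.2.2.1) = t
    generalize (par c && y) = a1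
    generalize (par c' && z) = a2
    generalize (par r0.2.2.2.2.1 && y) = a3
    generalize (par r0.2.2.2.2.2 && z) = a4
    generalize (par r0.1 && v) = a5
    revert a1 a2 a3 a4 a5 x t
    clear * -
    decide

/-- the sign of an option -/
theorem opk_sign (q : Bool) (p : Piece) : ∀ (k : ℕ) (o v : Bool) (d d' : List Bool) (S : List (Fin 4)),
    dk p k d = some d' → Alt1 q (o ^^ podd k) p → ∀ r ∈ opk p k S,
    r.e = bsg (pcs p ^^ (ob (r.p + r.q) ^^ (pot q o v d S ^^ (pot q o v d' r.S ^^ (par r.T && v))))) := by
  intro k
  induction k with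
  | zero =>
    intro o v d d' S hd ha r hr
    simp only [podd, Bool.xor_false] at ha
    exact op0_sign q p o v d d' S hd ha r (by simpa [opk] using hr)
  | succ k ih =>
    intro o v d d' S hd ha r hr
    rcases d with _ | ⟨f, d⟩
    · simp [dk] at hd
    rcases S with _ | ⟨c, S⟩
    · simp [opk] at hr
    simp only [dk, Option.map_eq_some_iff] at hd
    obtain ⟨d1, hd1, rfl⟩ := hd
    simp only [opk, List.mem_map, List.mem_filter] at hr
    obtain ⟨r0, ⟨hr0, hT⟩, rfl⟩ := hr
    have ha' : Alt1 q ((!o) ^^ podd k) p := by
      have e : ((!o) ^^ podd k) = (o ^^ podd (k + 1)) := by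
        simp only [podd]
        cases o <;> cases podd k <;> rfl
      rw [e]
      exact ha
    have h := ih (!o) (v ^^ ((o == q) ^^ !f)) d d1 S hd1 ha' r0 hr0
    simp only [pot_cons]
    rw [par_dif _ _ hT, h]
    congr 1
    have h3 : par 0 = false := rfl
    rw [h3]
    generalize pot q (!o) (v ^^ ((o == q) ^^ !f)) d S = x
    generalize pot q (!o) (v ^^ ((o == q) ^^ !f)) d1 r0.S = y
    generalize (v ^^ ((o == q) ^^ !f)) = z
    generalize par c = s
    generalize par r0.T = t
    generalize pcs p = m
    generalize ob (r0.p + r0.q) = n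
    rw [Bool.false_and]
    revert x y z s t m n
    clear * -
    decide

theorem dk_cup (k0 : ℕ) (f : Bool) : ∀ (k : ℕ) (l : List Bool), k ≤ l.length →
    dk (.cup k0 f) k l = some (l.take k ++ f :: (!f) :: l.drop k) := by
  intro k
  induction k with
  | zero => intro l _; simp [dk]
  | succ k ih =>
    intro l hl
    rcases l with _ | ⟨a, l⟩
    · simp at hl
    · simp only [List.length_cons, Nat.add_le_add_iff_right] at hl
      simp [dk, ih l hl]

theorem dk_cap (k0 : ℕ) (f : Bool) : ∀ (k : ℕ) (l : List Bool), l.drop k = f :: (!f) :: l.drop (k + 2) →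
    dk (.cap k0 f) k l = some (l.take k ++ l.drop (k + 2)) := by
  intro k
  induction k with
  | zero =>
    intro l hl
    rcases l with _ | ⟨a, _ | ⟨b, l⟩⟩
    · simp at hl
    · simp at hl
    · simp only [List.drop_zero, List.cons.injEq] at hl
      simp [dk, hl.1, hl.2.1]
  | succ k ih =>
    intro l hl
    rcases l with _ | ⟨a, l⟩
    · simp at hl
    · have e : k + 1 + 2 = (k + 2) + 1 := by ring
      rw [e] at hl ⊢
      simp only [List.drop_succ_cons] at hl
      simp [dk, ih l hl]

theorem dk_cross (k0 : ℕ) (e : Bool) : ∀ (k : ℕ) (l : List Bool),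
    l.drop k = true :: true :: l.drop (k + 2) → dk (.cross k0 e) k l = some l := by
  intro k
  induction k with
  | zero =>
    intro l hl
    rcases l with _ | ⟨a, _ | ⟨b, l⟩⟩
    · simp at hl
    · simp at hl
    · simp only [List.drop_zero, List.cons.injEq] at hl
      obtain ⟨rfl, rfl, _⟩ := hl
      simp [dk]
  | succ k ih =>
    intro l hl
    rcases l with _ | ⟨a, l⟩
    · simp at hl
    · have e : k + 1 + 2 = (k + 2) + 1 := by ring
      rw [e] at hl
      simp only [List.drop_succ_cons] at hl
      simp [dk, ih l hl]

theorem dir_dk (p : Piece) (l l' : List Bool) (h : p.dir l = some l') : dk p (pos p) l = some l' := by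
  cases p with
  | cup k f =>
    simp only [Piece.dir] at h
    split_ifs at h with h1
    rw [pos, dk_cup k f k l h1]
    exact h
  | cap k f =>
    simp only [Piece.dir] at h
    split_ifs at h with h1
    rw [pos, dk_cap k f k l h1]
    exact h
  | cross k e =>
    simp only [Piece.dir] at h
    split_ifs at h with h1
    rw [pos, dk_cross k e k l h1]
    exact h

/-- constant sign of a diagram -/
def cw : List Piece → Bool
  | [] => false
  | p :: w => pcs p ^^ cw w

theorem foldl_none (w : List Piece) : w.foldl (fun o p => o.bind p.dir) none = none := by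
  induction w with
  | nil => rfl
  | cons p w ih => simpa using ih

theorem hist_sign (q : Bool) : ∀ (w : List Piece) (d : List Bool) (S : List (Fin 4)),
    w.foldl (fun o p => o.bind p.dir) (some d) = some [true] →
    (∀ p ∈ w, Alt1 q (podd (pos p)) p) → ∀ t ∈ hist w S,
    t.1 = bsg (cw w ^^ (ob (t.2.1 + t.2.2) ^^ pot q false false d S)) := by
  intro w
  induction w with
  | nil =>
    intro d S hd _ t ht
    simp only [List.foldl_nil, Option.some.injEq] at hd
    subst hd
    simp only [hist] at ht
    split_ifs at ht with hS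
    · subst hS
      simp only [List.mem_singleton] at ht
      subst ht
      cases q <;> rfl
    · simp at ht
  | cons p w ih =>
    intro d S hd ha t ht
    simp only [List.foldl_cons, Option.bind_some] at hd
    rcases hp : p.dir d with _ | d'
    · rw [hp, foldl_none] at hd
      simp at hd
    rw [hp] at hd
    simp only [hist, List.mem_flatMap, List.mem_map] at ht
    obtain ⟨r, hr, s, hs, rfl⟩ := ht
    simp only [tr, List.mem_filter, decide_eq_true_eq] at hr
    obtain ⟨hr, hT⟩ := hr
    have h1 := opk_sign q p (pos p) false false d d' S (dir_dk p d d' hp)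
      (by simpa using ha p List.mem_cons_self) r hr
    have h2 := ih d' r.S hd (fun x hx => ha x (List.mem_cons_of_mem _ hx)) s hs
    show r.e * s.1 = _
    rw [h1, h2, hT, ← bsg_xor]
    congr 1
    have h4 : ob (r.p + s.2.1 + (r.q + s.2.2)) = (ob (r.p + r.q) ^^ ob (s.2.1 + s.2.2)) := by
      rw [← ob_add]
      congr 1
      ring
    show _ = (cw (p :: w) ^^ (ob (r.p + s.2.1 + (r.q + s.2.2)) ^^ pot q false false d S))
    rw [h4, cw]
    have h3 : par 0 = false := rfl
    rw [h3]
    generalize pot q false false d S = x
    generalize pot q false false d' r.S = y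
    generalize pcs p = m
    generalize cw w = z
    generalize ob (r.p + r.q) = n
    generalize ob (s.2.1 + s.2.2) = k
    revert x y m z n k
    decide

theorem podd_eq (k : ℕ) : podd k = decide (k % 2 = 1) := by
  induction k with
  | zero => rfl
  | succ k ih =>
    rw [podd, ih]
    rcases Nat.mod_two_eq_zero_or_one k with h | h <;> simp [Nat.add_mod, h]

theorem bsg_negOnePow (b : Bool) (n : ℤ) :
    bsg (b ^^ ob n) = (((n + if b then 1 else 0).negOnePow : ℤˣ) : ℤ) := by
  rcases Int.even_or_odd n with h | h
  · have h1 : ob n = false := by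
      unfold ob
      rw [Int.even_iff] at h
      simp [h]
    rw [h1]
    cases b
    · simp [Int.negOnePow_even n h, bsg]
    · have h2 : Odd (n + 1) := h.add_one
      simp [Int.negOnePow_odd _ h2, bsg]
  · have h1 : ob n = true := by
      unfold ob
      rw [Int.odd_iff] at h
      simp [h]
    rw [h1]
    cases b
    · simp [Int.negOnePow_odd n h, bsg]
    · have h2 : Even (n + 1) := h.add_one
      simp [Int.negOnePow_even _ h2, bsg]

/-- the sign rule for the histories of an alternating diagram -/
theorem hist_alt (e : Bool) (w : List Piece) (hw : IsTangle w)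
    (ha : ∀ k s, Piece.cross k s ∈ w → s = (e ^^ decide (k % 2 = 1))) :
    ∃ c : ℤ, ∀ t ∈ hist w [0], t.1 = (((t.2.1 + t.2.2 + c).negOnePow : ℤˣ) : ℤ) := by
  refine ⟨if cw w then 1 else 0, fun t ht => ?_⟩
  have h := hist_sign e w [true] [0] hw (by
    intro p hp
    cases p with
    | cup k f => trivial
    | cap k f => trivial
    | cross k s =>
      show s = (podd k ^^ e)
      rw [podd_eq, ha k s hp, Bool.xor_comm]) t ht
  have h0 : pot e false false [true] [0] = false := by cases e <;> rfl
  rw [h, h0, Bool.xor_false, bsg_negOnePow]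

end LG3P
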