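import Pool.Agent.Lib.MP_3cd99b_gt.Bridge
import Pool.Agent.Lib.MP_3cd99b_gt.C

/-!
The operator of a (1,1)-tangle diagram is a scalar: it commutes with four operators of the quantum superalgebra.
-/

open Finset

namespace LG3

variable {K : Type*} [Field K]

/-! ### The steps of the state sum -/

theorem step_succ_cup (α β : K) (k : ℕ) (f : Bool) (v : List (Fin 4) → K) (x : Fin 4) (s : List (Fin 4)) :
    step α β (.cup (k + 1) f) v (x :: s) = step α β (.cup k f) (fun r => v (x :: r)) s := rfl

theorem step_succ_cap (α β : K) (k : ℕ) (f : Bool) (v : List (Fin 4) → K) (x : Fin 4) (s : List (Fin 4)) :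
    step α β (.cap (k + 1) f) v (x :: s) = step α β (.cap k f) (fun r => v (x :: r)) s := rfl

theorem step_succ_cross (α β : K) (k : ℕ) (e : Bool) (v : List (Fin 4) → K) (x : Fin 4) (s : List (Fin 4)) :
    step α β (.cross (k + 1) e) v (x :: s) = step α β (.cross k e) (fun r => v (x :: r)) s := rfl

/-- weight of a left turn -/
def cupw (α β : K) (f : Bool) (i : Fin 4) : K := if f then 1 else (mu α β i)⁻¹

/-- weight of a right turn -/
def capw (α β : K) (f : Bool) (i : Fin 4) : K := if f then mu α β i else 1

theorem step_cup0 (α β : K) (f : Bool) (v : List (Fin 4) → K) (s : List (Fin 4)) :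
    step α β (.cup 0 f) v s = ∑ i, cupw α β f i * v (i :: i :: s) := by
  simp [step, cupw, wt_eq]

theorem step_cap0 (α β : K) (f : Bool) (v : List (Fin 4) → K) (i j : Fin 4) (s : List (Fin 4)) :
    step α β (.cap 0 f) v (i :: j :: s) = if i = j then capw α β f i * v s else 0 := by
  have h : step α β (.cap 0 f) v (i :: j :: s) =
      ∑ m, if i = m ∧ j = m then capw α β f m * v s else 0 := by
    simp [step, capw, wt_eq]
  rw [h]
  by_cases hij : i = j
  · subst hij
    rw [if_pos rfl, Finset.sum_eq_single i]
    · simp
    · intro m _ hm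
      rw [if_neg (fun h => hm h.1.symm)]
    · intro h
      exact absurd (Finset.mem_univ i) h
  · rw [if_neg hij]
    refine Finset.sum_eq_zero (fun m _ => ?_)
    rw [if_neg (fun h => hij (h.1.trans h.2.symm))]

theorem step_cross0 (α β : K) (e : Bool) (v : List (Fin 4) → K) (i j : Fin 4) (s : List (Fin 4)) :
    step α β (.cross 0 e) v (i :: j :: s) = ∑ a, ∑ b, Rs α β e i j a b * v (a :: b :: s) := by
  have h : step α β (.cross 0 e) v (i :: j :: s) =
      ∑ m, ∑ n, if i = m ∧ j = n then ∑ a, ∑ b, Rs α β e m n a b * v (a :: b :: s) else 0 := by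
    simp [step, RM_eq]
  rw [h, Finset.sum_eq_single i, Finset.sum_eq_single j]
  · simp
  · intro n _ hn
    rw [if_neg (fun h => hn h.2.symm)]
  · intro h
    exact absurd (Finset.mem_univ j) h
  · intro m _ hm
    refine Finset.sum_eq_zero (fun n _ => ?_)
    rw [if_neg (fun h => hm h.1.symm)]
  · intro h
    exact absurd (Finset.mem_univ i) h

/-- the steps are linear -/
theorem step_add (α β : K) (p : Piece) (v w : List (Fin 4) → K) (s : List (Fin 4)) :
    step α β p (fun r => v r + w r) s = step α β p v s + step α β p w s := by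
  cases p with
  | cup k f => simp only [step, mul_add, Finset.sum_add_distrib]
  | cap k f =>
    simp only [step, mul_add]
    rw [← Finset.sum_add_distrib]
    refine Finset.sum_congr rfl (fun i _ => ?_)
    split_ifs <;> simp
  | cross k e =>
    simp only [step, mul_add, Finset.sum_add_distrib]
    rw [← Finset.sum_add_distrib]
    refine Finset.sum_congr rfl (fun i _ => ?_)
    rw [← Finset.sum_add_distrib]
    refine Finset.sum_congr rfl (fun j _ => ?_)
    split_ifs <;> simp

theorem step_smul (α β : K) (p : Piece) (c : K) (v : List (Fin 4) → K) (s : List (Fin 4)) :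
    step α β p (fun r => c * v r) s = c * step α β p v s := by
  cases p with
  | cup k f =>
    simp only [step, Finset.mul_sum]
    exact Finset.sum_congr rfl (fun i _ => by ring)
  | cap k f =>
    simp only [step, Finset.mul_sum]
    refine Finset.sum_congr rfl (fun i _ => ?_)
    by_cases h : s.drop k = i :: i :: s.drop (k + 2)
    · rw [if_pos h, if_pos h]; ring
    · rw [if_neg h, if_neg h, mul_zero]
  | cross k e =>
    simp only [step, Finset.mul_sum]
    refine Finset.sum_congr rfl (fun i _ => Finset.sum_congr rfl (fun j _ => ?_))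
    by_cases h : s.drop k = i :: j :: s.drop (k + 2)
    · rw [if_pos h, if_pos h, Finset.mul_sum]
      refine Finset.sum_congr rfl (fun a _ => ?_)
      rw [Finset.mul_sum]
      exact Finset.sum_congr rfl (fun b _ => by ring)
    · rw [if_neg h, if_neg h, mul_zero]

theorem step_zero (α β : K) (p : Piece) (s : List (Fin 4)) : step α β p (fun _ => 0) s = 0 := by
  have h := step_smul α β p 0 (fun _ => 0) s
  simpa using h

theorem step_sum (α β : K) (p : Piece) {ι : Type*} (S : Finset ι) (v : ι → List (Fin 4) → K) (s : List (Fin 4)) :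
    step α β p (fun r => ∑ y ∈ S, v y r) s = ∑ y ∈ S, step α β p (v y) s := by
  classical
  induction S using Finset.induction_on with
  | empty => simpa using step_zero α β p s
  | insert a S ha ih =>
    simp only [Finset.sum_insert ha]
    rw [step_add, ih]

/-! ### The operators -/

/-- an operator on one strand together with a diagonal factor -/
structure Opr (K : Type*) where
  /-- the operator -/
  X : Fin 4 → Fin 4 → K
  /-- the diagonal factor -/
  k : Fin 4 → K

namespace Opr

/-- the operator on a strand of direction d -/
def Xd (o : Opr K) (d : Bool) (i j : Fin 4) : K := if d then o.X i j else -((o.k j)⁻¹ * o.X j i)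

/-- the factor on a strand of direction d -/
def kd (o : Opr K) (d : Bool) (i : Fin 4) : K := if d then o.k i else (o.k i)⁻¹

/-- the factor on several strands -/
def kap (o : Opr K) : List Bool → List (Fin 4) → K
  | d :: l, x :: s => o.kd d x * o.kap l s
  | _, _ => 1

/-- the operator on several strands -/
def act (o : Opr K) : List Bool → (List (Fin 4) → K) → List (Fin 4) → K
  | d :: l, v, x :: s => (∑ y, o.Xd d x y * o.kap l s * v (y :: s)) + o.act l (fun r => v (x :: r)) s
  | _, _, _ => 0

theorem act_cons (o : Opr K) (d : Bool) (l : List Bool) (v : List (Fin 4) → K) (x : Fin 4) (s : List (Fin 4)) :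
    o.act (d :: l) v (x :: s) = (∑ y, o.Xd d x y * o.kap l s * v (y :: s)) + o.act l (fun r => v (x :: r)) s := rfl

theorem act_nil (o : Opr K) (v : List (Fin 4) → K) (s : List (Fin 4)) : o.act [] v s = 0 := by
  cases s <;> rfl

theorem act_add (o : Opr K) (l : List Bool) (v w : List (Fin 4) → K) (s : List (Fin 4)) :
    o.act l (fun r => v r + w r) s = o.act l v s + o.act l w s := by
  induction l generalizing v w s with
  | nil => simp [act_nil]
  | cons d l ih =>
    cases s with
    | nil => simp [act]
    | cons x s =>
      rw [act_cons, act_cons, act_cons, ih]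
      simp only [mul_add, Finset.sum_add_distrib]
      ring

theorem act_smul (o : Opr K) (l : List Bool) (c : K) (v : List (Fin 4) → K) (s : List (Fin 4)) :
    o.act l (fun r => c * v r) s = c * o.act l v s := by
  induction l generalizing v s with
  | nil => simp [act_nil]
  | cons d l ih =>
    cases s with
    | nil => simp [act]
    | cons x s =>
      rw [act_cons, act_cons, ih, mul_add, Finset.mul_sum]
      congr 1
      exact Finset.sum_congr rfl (fun y _ => by ring)

theorem act_sum (o : Opr K) (l : List Bool) {ι : Type*} (S : Finset ι) (v : ι → List (Fin 4) → K)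
    (s : List (Fin 4)) : o.act l (fun r => ∑ y ∈ S, v y r) s = ∑ y ∈ S, o.act l (v y) s := by
  classical
  induction S using Finset.induction_on with
  | empty =>
    have h := act_smul o l 0 (fun _ => 0) s
    simpa using h
  | insert a S ha ih =>
    simp only [Finset.sum_insert ha]
    rw [act_add, ih]

/-- the conditions on an operator -/
structure Good (o : Opr K) (α β : K) : Prop where
  k0 : ∀ i, o.k i ≠ 0
  turn : ∀ i j, o.X i j * (mu α β j * o.k i) = o.X i j * (mu α β i * o.k j)
  kR : ∀ (e : Bool) (i j a b : Fin 4), Rs α β e i j a b * (o.k a * o.k b) = o.k i * o.k j * Rs α β e i j a b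
  XR : ∀ (e : Bool) (i j a b : Fin 4),
    ∑ y, (Rs α β e i j y b * (o.X y a * o.k b) + Rs α β e i j a y * o.X y b) =
      ∑ y, (o.X i y * o.k j * Rs α β e y j a b + o.X j y * Rs α β e i y a b)

theorem kap_cons (o : Opr K) (d : Bool) (l : List Bool) (x : Fin 4) (s : List (Fin 4)) :
    o.kap (d :: l) (x :: s) = o.kd d x * o.kap l s := rfl

theorem kd_not (o : Opr K) {α β : K} (h : o.Good α β) (f : Bool) (i : Fin 4) : o.kd f i * o.kd (!f) i = 1 := by
  have := h.k0 i
  cases f <;> simp [kd, this]

end Opr

/-- the directions after a piece moved down by one strand -/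
theorem dir_cup_succ (k : ℕ) (f d : Bool) (l : List Bool) :
    (Piece.cup (k + 1) f).dir (d :: l) = ((Piece.cup k f).dir l).map (List.cons d) := by
  by_cases h : k ≤ l.length <;> simp [Piece.dir, h]

theorem dir_cap_succ (k : ℕ) (f d : Bool) (l : List Bool) :
    (Piece.cap (k + 1) f).dir (d :: l) = ((Piece.cap k f).dir l).map (List.cons d) := by
  by_cases h : l.drop k = f :: (!f) :: l.drop (k + 2) <;> simp [Piece.dir, h]

theorem dir_cross_succ (k : ℕ) (e d : Bool) (l : List Bool) :
    (Piece.cross (k + 1) e).dir (d :: l) = ((Piece.cross k e).dir l).map (List.cons d) := by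
  by_cases h : l.drop k = true :: true :: l.drop (k + 2) <;> simp [Piece.dir, h]

omit [Field K] in
/-- induction over the position of a piece -/
theorem piece_ind (C : Piece → List Bool → List Bool → List (Fin 4) → Prop)
    (hcup : ∀ (f : Bool) (l : List Bool) (s : List (Fin 4)), s.length = l.length →
      C (.cup 0 f) l (f :: (!f) :: l) s)
    (hcap : ∀ (f : Bool) (l : List Bool) (i j : Fin 4) (s : List (Fin 4)), s.length = l.length →
      C (.cap 0 f) (f :: (!f) :: l) l (i :: j :: s))
    (hcross : ∀ (e : Bool) (l : List Bool) (i j : Fin 4) (s : List (Fin 4)), s.length = l.length →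
      C (.cross 0 e) (true :: true :: l) (true :: true :: l) (i :: j :: s))
    (scup : ∀ (k : ℕ) (f d : Bool) (l l' : List Bool) (x : Fin 4) (s : List (Fin 4)), s.length = l.length →
      (Piece.cup k f).dir l = some l' → C (.cup k f) l l' s → C (.cup (k + 1) f) (d :: l) (d :: l') (x :: s))
    (scap : ∀ (k : ℕ) (f d : Bool) (l l' : List Bool) (x : Fin 4) (s : List (Fin 4)), s.length = l.length →
      (Piece.cap k f).dir l = some l' → C (.cap k f) l l' s → C (.cap (k + 1) f) (d :: l) (d :: l') (x :: s))
    (scross : ∀ (k : ℕ) (e d : Bool) (l l' : List Bool) (x : Fin 4) (s : List (Fin 4)), s.length = l.length →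
      (Piece.cross k e).dir l = some l' → C (.cross k e) l l' s → C (.cross (k + 1) e) (d :: l) (d :: l') (x :: s))
    (p : Piece) (l l' : List Bool) (s : List (Fin 4)) (hs : s.length = l.length) (hp : p.dir l = some l') :
    C p l l' s := by
  cases p with
  | cup k f =>
    induction k generalizing l l' s with
    | zero =>
      simp [Piece.dir] at hp
      subst hp
      exact hcup f l s hs
    | succ k ih =>
      cases l with
      | nil => simp [Piece.dir] at hp
      | cons d l =>
        rw [dir_cup_succ, Option.map_eq_some_iff] at hp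
        obtain ⟨m, hm, rfl⟩ := hp
        cases s with
        | nil => simp at hs
        | cons x s =>
          have hs' : s.length = l.length := by simpa using hs
          exact scup k f d l m x s hs' hm (ih l m s hs' hm)
  | cap k f =>
    induction k generalizing l l' s with
    | zero =>
      simp only [Piece.dir, List.drop_zero, List.take_zero, List.nil_append, Nat.zero_add] at hp
      split_ifs at hp with h
      have e : l.drop 2 = l' := by simpa using hp
      rw [e] at h
      subst h
      rcases s with _ | ⟨i, _ | ⟨j, s⟩⟩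
      · simp at hs
      · simp at hs
      · exact hcap f l' i j s (by simpa using hs)
    | succ k ih =>
      cases l with
      | nil => simp [Piece.dir] at hp
      | cons d l =>
        rw [dir_cap_succ, Option.map_eq_some_iff] at hp
        obtain ⟨m, hm, rfl⟩ := hp
        cases s with
        | nil => simp at hs
        | cons x s =>
          have hs' : s.length = l.length := by simpa using hs
          exact scap k f d l m x s hs' hm (ih l m s hs' hm)
  | cross k e =>
    induction k generalizing l l' s with
    | zero =>
      simp only [Piece.dir, List.drop_zero, Nat.zero_add] at hp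
      split_ifs at hp with h
      have e1 : l = l' := by simpa using hp
      subst e1
      generalize l.drop 2 = l1 at h
      subst h
      rcases s with _ | ⟨i, _ | ⟨j, s⟩⟩
      · simp at hs
      · simp at hs
      · exact hcross e l1 i j s (by simpa using hs)
    | succ k ih =>
      cases l with
      | nil => simp [Piece.dir] at hp
      | cons d l =>
        rw [dir_cross_succ, Option.map_eq_some_iff] at hp
        obtain ⟨m, hm, rfl⟩ := hp
        cases s with
        | nil => simp at hs
        | cons x s =>
          have hs' : s.length = l.length := by simpa using hs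
          exact scross k e d l m x s hs' hm (ih l m s hs' hm)

/-- the diagonal factor commutes with the steps -/
theorem step_kap {α β : K} (o : Opr K) (h : o.Good α β) (p : Piece) (l l' : List Bool) (s : List (Fin 4))
    (hs : s.length = l.length) (hp : p.dir l = some l') :
    ∀ v : List (Fin 4) → K, step α β p (fun r => o.kap l' r * v r) s = o.kap l s * step α β p v s := by
  refine piece_ind (fun p l l' s => ∀ v : List (Fin 4) → K,
    step α β p (fun r => o.kap l' r * v r) s = o.kap l s * step α β p v s) ?_ ?_ ?_ ?_ ?_ ?_ p l l' s hs hp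
  · intro f l s _ v
    rw [step_cup0, step_cup0, Finset.mul_sum]
    refine Finset.sum_congr rfl (fun i _ => ?_)
    rw [Opr.kap_cons, Opr.kap_cons]
    linear_combination (cupw α β f i * o.kap l s * v (i :: i :: s)) * o.kd_not h f i
  · intro f l i j s _ v
    rw [step_cap0, step_cap0, Opr.kap_cons, Opr.kap_cons]
    by_cases hij : i = j
    · subst hij
      rw [if_pos rfl, if_pos rfl]
      linear_combination -(capw α β f i * o.kap l s * v s) * o.kd_not h f i
    · rw [if_neg hij, if_neg hij, mul_zero]
  · intro e l i j s _ v
    rw [step_cross0, step_cross0, Finset.mul_sum]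
    refine Finset.sum_congr rfl (fun a _ => ?_)
    rw [Finset.mul_sum]
    refine Finset.sum_congr rfl (fun b _ => ?_)
    rw [Opr.kap_cons, Opr.kap_cons, Opr.kap_cons, Opr.kap_cons]
    simp only [Opr.kd, if_true]
    linear_combination (o.kap l s * v (a :: b :: s)) * h.kR e i j a b
  · intro k f d l l' x s _ _ ih v
    rw [step_succ_cup, step_succ_cup, Opr.kap_cons]
    simp only [Opr.kap_cons, mul_assoc]
    rw [step_smul, ih]
  · intro k f d l l' x s _ _ ih v
    rw [step_succ_cap, step_succ_cap, Opr.kap_cons]
    simp only [Opr.kap_cons, mul_assoc]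
    rw [step_smul, ih]
  · intro k e d l l' x s _ _ ih v
    rw [step_succ_cross, step_succ_cross, Opr.kap_cons]
    simp only [Opr.kap_cons, mul_assoc]
    rw [step_smul, ih]

/-- the induction step for the operators -/
theorem act_succ {α β : K} (o : Opr K) (h : o.Good α β) (p q : Piece) (d : Bool) (l l' : List Bool) (x : Fin 4)
    (s : List (Fin 4)) (hs : s.length = l.length) (hp : p.dir l = some l')
    (hq : ∀ (v : List (Fin 4) → K) (x : Fin 4) (s : List (Fin 4)), step α β q v (x :: s) =
      step α β p (fun r => v (x :: r)) s)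
    (ih : ∀ v : List (Fin 4) → K, step α β p (o.act l' v) s = o.act l (step α β p v) s)
    (v : List (Fin 4) → K) :
    step α β q (o.act (d :: l') v) (x :: s) = o.act (d :: l) (step α β q v) (x :: s) := by
  rw [hq, Opr.act_cons]
  simp only [Opr.act_cons]
  rw [step_add, step_sum]
  congr 1
  · refine Finset.sum_congr rfl (fun y _ => ?_)
    rw [hq]
    simp only [mul_assoc]
    rw [step_smul, step_kap o h p l l' s hs hp]
  · rw [ih]
    have e : (fun r => step α β q v (x :: r)) = step α β p (fun r => v (x :: r)) := by
      funext r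
      rw [hq]
    rw [e]

/-- the operators commute with the steps -/
theorem step_act {α β : K} (ha : α ≠ 0) (hb : β ≠ 0) (o : Opr K) (h : o.Good α β) (p : Piece) (l l' : List Bool)
    (s : List (Fin 4)) (hs : s.length = l.length) (hp : p.dir l = some l') :
    ∀ v : List (Fin 4) → K, step α β p (o.act l' v) s = o.act l (step α β p v) s := by
  have hm : ∀ i, mu α β i ≠ 0 := by
    intro i
    fin_cases i <;> simp [mu, ha, hb]
  refine piece_ind (fun p l l' s => ∀ v : List (Fin 4) → K,
    step α β p (o.act l' v) s = o.act l (step α β p v) s) ?_ ?_ ?_ ?_ ?_ ?_ p l l' s hs hp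
  · intro f l s _ v
    rw [step_cup0]
    have e : step α β (.cup 0 f) v = fun s => ∑ i, cupw α β f i * v (i :: i :: s) := by
      funext s
      rw [step_cup0]
    rw [e, Opr.act_sum]
    simp only [Opr.act_smul, Opr.act_cons, Opr.kap_cons, mul_add, Finset.sum_add_distrib, Finset.mul_sum]
    rw [← add_assoc]
    refine add_eq_right.mpr ?_
    rw [Finset.sum_comm, ← Finset.sum_add_distrib]
    refine Finset.sum_eq_zero (fun y _ => ?_)
    rw [← Finset.sum_add_distrib]
    refine Finset.sum_eq_zero (fun i _ => ?_)
    have h1 := h.turn y i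
    have h2 := h.k0 y
    have h3 := h.k0 i
    have h4 := hm y
    have h5 := hm i
    cases f
    · simp only [cupw, Opr.Xd, Opr.kd, if_true, Bool.not_false, if_neg Bool.false_ne_true]
      field_simp
      linear_combination (o.kap l s * v (y :: i :: s)) * h1
    · simp only [cupw, Opr.Xd, Opr.kd, if_true, Bool.not_true, if_neg Bool.false_ne_true]
      field_simp
      ring
  · intro f l i j s _ v
    rw [step_cap0, Opr.act_cons, Opr.act_cons]
    simp only [step_cap0, Opr.kap_cons]
    rw [Finset.sum_eq_single j (by
        intro y _ hy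
        rw [if_neg hy, mul_zero]) (by
        intro hj
        exact absurd (Finset.mem_univ j) hj),
      Finset.sum_eq_single i (by
        intro y _ hy
        rw [if_neg (Ne.symm hy), mul_zero]) (by
        intro hj
        exact absurd (Finset.mem_univ i) hj), if_pos rfl, if_pos rfl, ← add_assoc]
    have e : o.act l (fun r => if i = j then capw α β f i * v r else 0) s =
        if i = j then capw α β f i * o.act l v s else 0 := by
      by_cases hij : i = j
      · simp only [if_pos hij]
        exact o.act_smul l _ v s
      · simp only [if_neg hij]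
        have := o.act_smul l 0 (fun _ => 0) s
        simpa using this
    rw [e]
    refine (add_eq_right.mpr ?_).symm
    have h1 := h.turn i j
    have h2 := h.k0 i
    have h3 := h.k0 j
    cases f
    · simp only [capw, Opr.Xd, Opr.kd, if_true, Bool.not_false, if_neg Bool.false_ne_true]
      field_simp
      ring
    · simp only [capw, Opr.Xd, Opr.kd, if_true, Bool.not_true, if_neg Bool.false_ne_true]
      field_simp
      linear_combination (o.kap l s * v s) * h1
  · intro e l i j s _ v
    rw [step_cross0, Opr.act_cons, Opr.act_cons]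
    simp only [step_cross0, Opr.kap_cons, Opr.act_cons, Opr.Xd, Opr.kd, if_true]
    have e1 : o.act l (fun r => ∑ a, ∑ b, Rs α β e i j a b * v (a :: b :: r)) s =
        ∑ a, ∑ b, Rs α β e i j a b * o.act l (fun r => v (a :: b :: r)) s := by
      rw [Opr.act_sum]
      refine Finset.sum_congr rfl (fun a _ => ?_)
      rw [Opr.act_sum]
      exact Finset.sum_congr rfl (fun b _ => o.act_smul l _ _ s)
    rw [e1]
    simp only [mul_add, Finset.sum_add_distrib]
    rw [← add_assoc, ← add_assoc]
    congr 1
    have key : ∀ a b, (∑ y, (Rs α β e i j y b * (o.X y a * o.k b) + Rs α β e i j a y * o.X y b)) *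
        (o.kap l s * v (a :: b :: s)) =
        (∑ y, (o.X i y * o.k j * Rs α β e y j a b + o.X j y * Rs α β e i y a b)) *
        (o.kap l s * v (a :: b :: s)) := fun a b => by rw [h.XR]
    have key2 := Finset.sum_congr (s₁ := (Finset.univ : Finset (Fin 4))) rfl
      (fun a _ => Finset.sum_congr (s₁ := (Finset.univ : Finset (Fin 4))) rfl (fun b _ => key a b))
    simp only [Fin.sum_univ_four] at key2 ⊢
    linear_combination key2
  · intro k f d l l' x s hs hp ih v
    exact act_succ o h _ _ d l l' x s hs hp (step_succ_cup α β k f) ih v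
  · intro k f d l l' x s hs hp ih v
    exact act_succ o h _ _ d l l' x s hs hp (step_succ_cap α β k f) ih v
  · intro k e d l l' x s hs hp ih v
    exact act_succ o h _ _ d l l' x s hs hp (step_succ_cross α β k e) ih v

/-- the steps only use the values on lists of the right length -/
theorem step_congr {α β : K} (p : Piece) (l l' : List Bool)
    (s : List (Fin 4)) (hs : s.length = l.length) (hp : p.dir l = some l') :
    ∀ v v' : List (Fin 4) → K, (∀ r, r.length = l'.length → v r = v' r) → step α β p v s = step α β p v' s := by
  refine piece_ind (fun p l l' s => ∀ v v' : List (Fin 4) → K, (∀ r, r.length = l'.length → v r = v' r) →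
    step α β p v s = step α β p v' s) ?_ ?_ ?_ ?_ ?_ ?_ p l l' s hs hp
  · intro f l s hs v v' h
    rw [step_cup0, step_cup0]
    exact Finset.sum_congr rfl (fun i _ => by rw [h _ (by simp [hs])])
  · intro f l i j s hs v v' h
    rw [step_cap0, step_cap0, h _ hs]
  · intro e l i j s hs v v' h
    rw [step_cross0, step_cross0]
    exact Finset.sum_congr rfl (fun a _ => Finset.sum_congr rfl (fun b _ => by rw [h _ (by simp [hs])]))
  · intro k f d l l' x s hs hp ih v v' h
    rw [step_succ_cup, step_succ_cup]
    exact ih _ _ (fun r hr => h _ (by simp [hr]))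
  · intro k f d l l' x s hs hp ih v v' h
    rw [step_succ_cap, step_succ_cap]
    exact ih _ _ (fun r hr => h _ (by simp [hr]))
  · intro k f d l l' x s hs hp ih v v' h
    rw [step_succ_cross, step_succ_cross]
    exact ih _ _ (fun r hr => h _ (by simp [hr]))

/-! ### Diagrams -/

/-- the state sum with an arbitrary function at the right end -/
def run (α β : K) (w : List Piece) (v : List (Fin 4) → K) (s : List (Fin 4)) : K := w.foldr (step α β) v s

theorem run_cons (α β : K) (p : Piece) (w : List Piece) (v : List (Fin 4) → K) (s : List (Fin 4)) :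
    run α β (p :: w) v s = step α β p (run α β w v) s := rfl

theorem run_congr {α β : K} (w : List Piece) (l l' : List Bool) (s : List (Fin 4)) (hs : s.length = l.length)
    (hw : dirs w l = some l') (v v' : List (Fin 4) → K) (h : ∀ r, r.length = l'.length → v r = v' r) :
    run α β w v s = run α β w v' s := by
  induction w generalizing l s with
  | nil =>
    have e : l = l' := by simpa [dirs] using hw
    subst e
    exact h s hs
  | cons p w ih =>
    rw [dirs, Option.bind_eq_some_iff] at hw
    obtain ⟨m, hm, hw⟩ := hw
    rw [run_cons, run_cons]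
    exact step_congr p l m s hs hm _ _ (fun r hr => ih m r hr hw)

theorem run_smul (α β : K) (w : List Piece) (c : K) (v : List (Fin 4) → K) (s : List (Fin 4)) :
    run α β w (fun r => c * v r) s = c * run α β w v s := by
  induction w generalizing s with
  | nil => rfl
  | cons p w ih =>
    rw [run_cons, run_cons, ← step_smul]
    congr 1
    funext r
    exact ih r

theorem run_sum (α β : K) (w : List Piece) {ι : Type*} (S : Finset ι) (v : ι → List (Fin 4) → K)
    (s : List (Fin 4)) : run α β w (fun r => ∑ y ∈ S, v y r) s = ∑ y ∈ S, run α β w (v y) s := by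
  induction w generalizing s with
  | nil => rfl
  | cons p w ih =>
    simp only [run_cons]
    rw [← step_sum]
    congr 1
    funext r
    exact ih r

theorem run_act {α β : K} (ha : α ≠ 0) (hb : β ≠ 0) (o : Opr K) (h : o.Good α β) (w : List Piece)
    (l l' : List Bool) (s : List (Fin 4)) (hs : s.length = l.length) (hw : dirs w l = some l')
    (v : List (Fin 4) → K) : run α β w (o.act l' v) s = o.act l (run α β w v) s := by
  induction w generalizing l s with
  | nil =>
    have e : l = l' := by simpa [dirs] using hw
    subst e
    rfl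
  | cons p w ih =>
    rw [dirs, Option.bind_eq_some_iff] at hw
    obtain ⟨m, hm, hw⟩ := hw
    rw [run_cons, step_congr p l m s hs hm _ (o.act m (run α β w v)) (fun r hr => ih m r hr hw),
      step_act ha hb o h p l m s hs hm]
    rfl

/-- the state sum as a run -/
theorem stateSum_run (α β : K) (w : List Piece) (s t : List (Fin 4)) :
    stateSum α β w s t = run α β w (fun r => if r = t then 1 else 0) s := rfl

/-- the matrix of a (1,1)-tangle commutes with a good operator -/
theorem tangle_comm {α β : K} (ha : α ≠ 0) (hb : β ≠ 0) (o : Opr K) (h : o.Good α β) (w : List Piece)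
    (hw : dirs w [true] = some [true]) (i j : Fin 4) :
    ∑ x, stateSum α β w [i] [x] * o.X x j = ∑ y, o.X i y * stateSum α β w [y] [j] := by
  have h1 := run_act ha hb o h w [true] [true] [i] rfl hw (fun r => if r = [j] then 1 else 0)
  have h2 : o.act [true] (run α β w (fun r => if r = [j] then 1 else 0)) [i] =
      ∑ y, o.X i y * stateSum α β w [y] [j] := by
    rw [Opr.act_cons, Opr.act_nil, add_zero]
    refine Finset.sum_congr rfl (fun y _ => ?_)
    simp only [Opr.Xd, Opr.kap, if_true, mul_one]
    rfl
  rw [← h2, ← h1]
  have h3 : run α β w (o.act [true] (fun r => if r = [j] then 1 else 0)) [i] =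
      run α β w (fun r => ∑ x, o.X x j * (if r = [x] then 1 else 0)) [i] := by
    refine run_congr w [true] [true] [i] rfl hw _ _ (fun r hr => ?_)
    rcases r with _ | ⟨z, _ | ⟨y, r⟩⟩
    · simp at hr
    · rw [Opr.act_cons, Opr.act_nil, add_zero]
      simp [Opr.Xd, Opr.kap]
    · simp at hr
  rw [h3, run_sum]
  refine Finset.sum_congr rfl (fun x _ => ?_)
  rw [run_smul, ← stateSum_run]
  ring

/-! ### The four operators -/

/-- a table of an operator -/
structure OprL where
  /-- the operator -/
  X : Fin 4 → Fin 4 → LP
  /-- the diagonal factor -/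
  k : Fin 4 → LP
  /-- its inverse -/
  ki : Fin 4 → LP

namespace OprL

/-- the operator of a table -/
def val (o : OprL) (α β : K) : Opr K := ⟨fun i j => ev α β (o.X i j), fun i => ev α β (o.k i)⟩

/-- difference -/
def dif (p q : LP) : LP := p ++ negP q

/-- all four indices -/
def all4 (f : Fin 4 → Bool) : Bool := ([0, 1, 2, 3] : List (Fin 4)).all f

theorem all4_iff {f : Fin 4 → Bool} (h : all4 f = true) (i : Fin 4) : f i = true := by
  rw [all4, List.all_eq_true] at h
  exact h i (mem4 i)

/-- the test of the conditions -/
def chk (o : OprL) : Bool :=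
  (all4 fun i => isZ (dif (mulP (o.k i) (o.ki i)) [(1, 0, 0)])) &&
  (all4 fun i => all4 fun j => isZ (dif (mulP (o.X i j) (mulP (muL j) (o.k i))) (mulP (o.X i j) (mulP (muL i) (o.k j))))) &&
  ([true, false].all fun e => all4 fun i => all4 fun j => all4 fun a => all4 fun b =>
    isZ (dif (mulP (RsL e i j a b) (mulP (o.k a) (o.k b))) (mulP (mulP (o.k i) (o.k j)) (RsL e i j a b)))) &&
  ([true, false].all fun e => all4 fun i => all4 fun j => all4 fun a => all4 fun b =>
    isZ (dif (([0, 1, 2, 3] : List (Fin 4)).flatMap fun y => mulP (RsL e i j y b) (mulP (o.X y a) (o.k b)) ++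
        mulP (RsL e i j a y) (o.X y b))
      (([0, 1, 2, 3] : List (Fin 4)).flatMap fun y => mulP (mulP (o.X i y) (o.k j)) (RsL e y j a b) ++
        mulP (o.X j y) (RsL e i y a b))))

theorem dif_ev {α β : K} {p q : LP} (h : isZ (dif p q) = true) : ev α β p = ev α β q := by
  have h1 := ev_isZ α β h
  rw [dif, ev_append, ev_neg] at h1
  linear_combination h1

theorem mem2 (e : Bool) : e ∈ [true, false] := by cases e <;> simp

theorem good {α β : K} (ha : α ≠ 0) (hb : β ≠ 0) (o : OprL) (h : o.chk = true) : (o.val α β).Good α β := by
  simp only [chk, Bool.and_eq_true] at h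
  obtain ⟨⟨⟨h1, h2⟩, h3⟩, h4⟩ := h
  refine ⟨fun i => ?_, fun i j => ?_, fun e i j a b => ?_, fun e i j a b => ?_⟩
  · have h5 := dif_ev (α := α) (β := β) (all4_iff h1 i)
    rw [ev_mulP ha hb, ← one_ev] at h5
    exact left_ne_zero_of_mul_eq_one h5
  · have h5 := dif_ev (α := α) (β := β) (all4_iff (all4_iff h2 i) j)
    simp only [ev_mulP ha hb, ← mu_ev] at h5
    exact h5
  · rw [List.all_eq_true] at h3
    have h5 := dif_ev (α := α) (β := β) (all4_iff (all4_iff (all4_iff (all4_iff (h3 e (mem2 e)) i) j) a) b)
    simp only [ev_mulP ha hb, ← Rs_ev ha hb] at h5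
    exact h5
  · rw [List.all_eq_true] at h4
    have h5 := dif_ev (α := α) (β := β) (all4_iff (all4_iff (all4_iff (all4_iff (h4 e (mem2 e)) i) j) a) b)
    simp only [List.flatMap_cons, List.flatMap_nil, List.append_nil, ev_append, ev_mulP ha hb,
      ← Rs_ev ha hb] at h5
    simp only [val, Fin.sum_univ_four]
    linear_combination h5

end OprL

/-- the first factor -/
def k1L : Fin 4 → LP := ![[(1, 1, 0)], [(-1, 0, -1)], [(-1, 1, 0)], [(1, 0, -1)]]

/-- its inverse -/
def k1I : Fin 4 → LP := ![[(1, -1, 0)], [(-1, 0, 1)], [(-1, -1, 0)], [(1, 0, 1)]]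

/-- the second factor -/
def k2L : Fin 4 → LP := ![[(1, 0, 0)], [(1, 1, 1)], [(1, -1, -1)], [(1, 0, 0)]]

/-- its inverse -/
def k2I : Fin 4 → LP := ![[(1, 0, 0)], [(1, -1, -1)], [(1, 1, 1)], [(1, 0, 0)]]

/-- the odd lowering operator -/
def opE : OprL := ⟨fun i j => if i = 2 ∧ j = 0 then [(1, 2, 0), (-1, 0, 0)] else
  if i = 3 ∧ j = 1 then [(-1, 0, -1)] else [], k1L, k1I⟩

/-- the odd raising operator -/
def opF : OprL := ⟨fun i j => if i = 0 ∧ j = 2 then [(1, 0, 0)] else
  if i = 1 ∧ j = 3 then [(1, 0, 1), (-1, 0, -1)] else [], k1L, k1I⟩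

/-- the even operators -/
def ope : OprL := ⟨fun i j => if i = 1 ∧ j = 2 then [(1, 0, 0)] else [], k2L, k2I⟩

/-- the even operators -/
def opf : OprL := ⟨fun i j => if i = 2 ∧ j = 1 then [(1, 0, 0)] else [], k2L, k2I⟩

theorem chk_opE : opE.chk = true := by decide +kernel
theorem chk_opF : opF.chk = true := by decide +kernel
theorem chk_ope : ope.chk = true := by decide +kernel
theorem chk_opf : opf.chk = true := by decide +kernel

/-- a matrix that commutes with the four operators is scalar -/
theorem scalar_of_comm {α β : K} (hb : β ≠ 0) (T : Fin 4 → Fin 4 → K)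
    (hE : ∀ i j, ∑ x, T i x * (opE.val α β).X x j = ∑ y, (opE.val α β).X i y * T y j)
    (hF : ∀ i j, ∑ x, T i x * (opF.val α β).X x j = ∑ y, (opF.val α β).X i y * T y j)
    (he : ∀ i j, ∑ x, T i x * (ope.val α β).X x j = ∑ y, (ope.val α β).X i y * T y j)
    (hf : ∀ i j, ∑ x, T i x * (opf.val α β).X x j = ∑ y, (opf.val α β).X i y * T y j) (i j : Fin 4) :
    T i j = if i = j then T 0 0 else 0 := by
  have E31 := hE 3 1
  have E01 := hE 0 1
  have F02 := hF 0 2
  have F32 := hF 3 2
  have e02 := he 0 2
  have e32 := he 3 2
  have e10 := he 1 0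
  have e11 := he 1 1
  have e13 := he 1 3
  have f21 := hf 2 1
  have f01 := hf 0 1
  have f31 := hf 3 1
  have f20 := hf 2 0
  have f22 := hf 2 2
  have f23 := hf 2 3
  simp [OprL.val, opE, opF, ope, opf, Fin.sum_univ_four, ev] at E31 E01 F02 F32 e02 e32 e10 e11 e13 f21 f01 f31 f20 f22 f23
  have E33 : T 3 3 = T 1 1 := by
    have h1 : β⁻¹ ≠ 0 := inv_ne_zero hb
    have h2 : β⁻¹ * (T 3 3 - T 1 1) = 0 := by linear_combination E31
    rcases mul_eq_zero.mp h2 with h3 | h3
    · exact absurd h3 h1
    · exact sub_eq_zero.mp h3
  clear E31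
  fin_cases i <;> fin_cases j <;> simp_all

/-- The matrix of a (1,1)-tangle diagram is a scalar. -/
theorem scalar {α β : K} (ha : α ≠ 0) (hb : β ≠ 0) (w : List Piece) (hw : IsTangle w) (i j : Fin 4) :
    stateSum α β w [i] [j] = if i = j then stateSum α β w [0] [0] else 0 := by
  rw [isTangle_iff] at hw
  exact scalar_of_comm (α := α) (β := β) hb (fun i j => stateSum α β w [i] [j])
    (fun i j => tangle_comm ha hb _ (opE.good ha hb chk_opE) w hw i j)
    (fun i j => tangle_comm ha hb _ (opF.good ha hb chk_opF) w hw i j)
    (fun i j => tangle_comm ha hb _ (ope.good ha hb chk_ope) w hw i j)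
    (fun i j => tangle_comm ha hb _ (opf.good ha hb chk_opf) w hw i j) i j

end LG3
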