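import Pool.Agent.Lib.MP_3cd99b_gt.Z3

/-!
The state sum of a (1,1)-tangle diagram is the sum over its histories, for a^2 not 1.
-/

namespace LG3P
open LG3 Finset

/-- change the position of a piece -/
def setp (p : Piece) (k : ℕ) : Piece :=
  match p with
  | .cup _ f => .cup k f
  | .cap _ f => .cap k f
  | .cross _ e => .cross k e

theorem setp_pos (p : Piece) : setp p (pos p) = p := by cases p <;> rfl

theorem dir_nil (p : Piece) (k : ℕ) : (setp p (k + 1)).dir [] = none := by
  cases p <;> simp [setp, Piece.dir]

theorem dir_succ {p : Piece} {k : ℕ} {g : Bool} {d d' : List Bool} (h : (setp p (k + 1)).dir (g :: d) = some d') :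
    ∃ e, (setp p k).dir d = some e ∧ d' = g :: e := by
  cases p with
  | cup k' f =>
    simp only [setp, Piece.dir, List.length_cons, List.take_succ_cons, List.drop_succ_cons] at h ⊢
    split_ifs at h with h1
    rw [if_pos (by omega)]
    exact ⟨_, rfl, by simpa using h.symm⟩
  | cap k' f =>
    have e1 : List.drop (k + 1 + 2) (g :: d) = List.drop (k + 2) d := rfl
    simp only [setp, Piece.dir, List.take_succ_cons, List.drop_succ_cons, e1] at h ⊢
    split_ifs at h with h1
    rw [if_pos h1]
    exact ⟨_, rfl, by simpa using h.symm⟩
  | cross k' e =>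
    have e1 : List.drop (k + 1 + 2) (g :: d) = List.drop (k + 2) d := rfl
    simp only [setp, Piece.dir, List.drop_succ_cons, e1] at h ⊢
    split_ifs at h with h1
    rw [if_pos h1]
    exact ⟨_, rfl, by simpa using h.symm⟩

theorem dir_cap0 {k : ℕ} {f : Bool} {d d' : List Bool} (h : (setp (.cap k f) 0).dir d = some d') :
    d = f :: (!f) :: d' := by
  simp only [setp, Piece.dir, List.drop_zero, List.take_zero, List.nil_append, zero_add] at h
  split_ifs at h with h1
  rw [Option.some.injEq] at h
  rw [h] at h1
  exact h1

theorem dir_cross0 {k : ℕ} {e : Bool} {d d' : List Bool} (h : (setp (.cross k e) 0).dir d = some d') :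
    ∃ d1, d = true :: true :: d1 ∧ d' = d := by
  simp only [setp, Piece.dir, List.drop_zero, zero_add] at h
  split_ifs at h with h1
  rw [Option.some.injEq] at h
  exact ⟨_, h1, h.symm⟩

theorem dir_cup0 {k : ℕ} {f : Bool} {d d' : List Bool} (h : (setp (.cup k f) 0).dir d = some d') :
    d' = f :: (!f) :: d := by
  simp only [setp, Piece.dir, List.drop_zero, List.take_zero, List.nil_append, Nat.zero_le, if_true,
    Option.some.injEq] at h
  exact h.symm

theorem hX : ∀ e c c', ∀ o ∈ opX e c c', h1 o.2.2.2.2.1 + h1 o.2.2.2.2.2 = h1 c + h1 c' + h1 o.1 ∧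
    h2 o.2.2.2.2.1 + h2 o.2.2.2.2.2 = h2 c + h2 c' + h2 o.1 := by decide +kernel

theorem h_compl : ∀ c, h1 (dif 3 c) = 1 - h1 c ∧ h2 (dif 3 c) = 1 - h2 c := by decide +kernel

theorem h_dif : ∀ c T, sb T c = true → h1 (dif c T) = h1 c - h1 T ∧ h2 (dif c T) = h2 c - h2 T := by
  decide +kernel

/-- the numbers of labels are conserved -/
theorem inv_opk (p : Piece) : ∀ (k : ℕ) (d d' : List Bool) (S : List (Fin 4)), (setp p k).dir d = some d' →
    ∀ o ∈ opk p k S, (o.S.map h1).sum - nb d' = (S.map h1).sum - nb d + h1 o.T ∧
      (o.S.map h2).sum - nb d' = (S.map h2).sum - nb d + h2 o.T := by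
  intro k
  induction k with
  | zero =>
    intro d d' S hd' o ho
    cases p with
    | cup k' f =>
      have hd := dir_cup0 hd'
      subst hd
      simp only [opk, op0, List.mem_map] at ho
      obtain ⟨T, _, rfl⟩ := ho
      rw [nb_cons, nb_cons]
      have e1 : h1 3 = 1 := by decide
      have e2 : h2 3 = 1 := by decide
      simp only [List.map_cons, List.sum_cons, e1, e2]
      cases f <;> constructor <;> simp <;> ring
    | cap k' f =>
      have hd := dir_cap0 hd'
      subst hd
      match S, ho with
      | [], ho => simp [opk, op0] at ho
      | [c], ho => simp [opk, op0] at ho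
      | c :: c' :: S, ho =>
        simp only [opk, op0] at ho
        split_ifs at ho with hc
        · simp only [List.mem_singleton] at ho
          subst ho
          subst hc
          rw [nb_cons, nb_cons]
          have e1 : h1 0 = 0 := by decide
          have e2 : h2 0 = 0 := by decide
          simp only [List.map_cons, List.sum_cons, e1, e2, (h_compl c').1, (h_compl c').2]
          cases f <;> constructor <;> simp <;> ring
        · simp at ho
    | cross k' e =>
      obtain ⟨d1, hd, hd2⟩ := dir_cross0 hd'
      subst hd2
      match S, ho with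
      | [], ho => simp [opk, op0] at ho
      | [c], ho => simp [opk, op0] at ho
      | c :: c' :: S, ho =>
        simp only [opk, op0, List.mem_map] at ho
        obtain ⟨x, hx, rfl⟩ := ho
        have := hX e c c' x hx
        simp only [List.map_cons, List.sum_cons]
        constructor
        · linarith [this.1]
        · linarith [this.2]
  | succ k ih =>
    intro d d' S hd' o ho
    match d with
    | [] => rw [dir_nil] at hd'; simp at hd'
    | g :: d =>
      obtain ⟨e, he, rfl⟩ := dir_succ hd'
      match S, ho with
      | [], ho => simp [opk] at ho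
      | c :: S, ho =>
        simp only [opk, List.mem_map, List.mem_filter] at ho
        obtain ⟨x, ⟨hx, hT⟩, rfl⟩ := ho
        have := ih d e S he x hx
        have h3 := h_dif c x.T hT
        have e1 : h1 0 = 0 := by decide
        have e2 : h2 0 = 0 := by decide
        rw [nb_cons, nb_cons]
        simp only [List.map_cons, List.sum_cons, e1, e2, h3.1, h3.2]
        constructor
        · linarith [this.1]
        · linarith [this.2]

section
variable {K : Type*} [Field K]

theorem step_succ (a b : K) (p : Piece) (k : ℕ) (v : List (Fin 4) → K) (i : Fin 4) (s : List (Fin 4)) :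
    step a b (setp p (k + 1)) v (i :: s) = step a b (setp p k) (fun t => v (i :: t)) s := by
  have e1 : List.drop (k + 1 + 2) (i :: s) = List.drop (k + 2) s := rfl
  cases p with
  | cup k' f => simp only [setp, step, List.take_succ_cons, List.drop_succ_cons, List.cons_append]
  | cap k' f => simp only [setp, step, List.take_succ_cons, List.drop_succ_cons, List.cons_append, e1]
  | cross k' e => simp only [setp, step, List.take_succ_cons, List.drop_succ_cons, List.cons_append, e1]

theorem pr_nil_right (a b : K) (f : Bool) (d : List Bool) (D : Fin 4) (v : List (Fin 4) → K) :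
    pr a b (f :: d) [] D v = 0 := rfl

theorem ok_swap : ∀ f D c T i, (ok1 f D c i = true ∧ sb T (d1 f D c i) = true) ↔
    (sb T c = true ∧ ok1 f D (dif c T) i = true) := by decide +kernel

theorem d1_swap : ∀ f D c T i, ok1 f D c i = true → sb T (d1 f D c i) = true →
    dif (d1 f D c i) T = d1 f D (dif c T) i := by decide +kernel

theorem sb_zero : ∀ D, sb 0 D = true := by decide
theorem dif_zero : ∀ D, dif D 0 = D := by decide

theorem sum_filter_map {α : Type*} (l : List α) (q : α → Bool) (F : α → K) :
    ((l.filter q).map F).sum = (l.map fun o => if q o then F o else 0).sum := by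
  induction l with
  | nil => rfl
  | cons o l ih =>
    by_cases h : q o = true
    · rw [List.filter_cons_of_pos h]; simp [h, ih]
    · rw [List.filter_cons_of_neg h]; simp [h, ih]

theorem push {a b : K} (ha : a ≠ 0) (hb : b ≠ 0) (hA : a ^ 2 - 1 ≠ 0) (p : Piece) :
    ∀ (k : ℕ) (d d' : List Bool) (S : List (Fin 4)) (D : Fin 4) (v : List (Fin 4) → K),
    (setp p k).dir d = some d' → pr a b d S D (step a b (setp p k) v) =
      ((opk p k S).map fun o => if sb o.T D then ov a b o.e o.p o.q * pr a b d' o.S (dif D o.T) v else 0).sum := by
  intro k
  induction k with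
  | zero =>
    intro d d' S D v hd'
    cases p with
    | cup k' f =>
      have hd := dir_cup0 hd'
      subst hd
      simp only [opk, op0, setp, List.map_map]
      exact push_cup0 ha hb hA f d S D v
    | cap k' f =>
      have hd := dir_cap0 hd'
      subst hd
      match S with
      | [] => simp [opk, op0, pr]
      | [c] => simp [opk, op0, pr]
      | c :: c' :: S =>
        simp only [opk, op0, setp]
        rw [push_cap0 ha hb hA]
        by_cases hc : c = 0
        · simp [hc]
        · simp [hc]
    | cross k' e =>
      obtain ⟨d1, hd, hd2⟩ := dir_cross0 hd'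
      subst hd2
      subst hd
      match S with
      | [] => simp [opk, op0, pr]
      | [c] => simp [opk, op0, pr]
      | c :: c' :: S =>
        simp only [opk, op0, setp, List.map_map]
        exact push_cross0 ha hb e d1 c c' S D v
  | succ k ih =>
    intro d d' S D v hd'
    match d with
    | [] => rw [dir_nil] at hd'; simp at hd'
    | g :: d =>
      obtain ⟨e, he, rfl⟩ := dir_succ hd'
      match S with
      | [] => simp [opk, pr]
      | c :: S =>
        rw [pr_cons]
        simp only [step_succ]
        simp only [opk, List.map_map]
        rw [sum_filter_map]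
        have hR : ∀ o ∈ opk p k S, (if sb o.T c = true then
            ((fun o : Op => if sb o.T D = true then ov a b o.e o.p o.q * pr a b (g :: e) o.S (dif D o.T) v else 0) ∘
              fun o => ⟨0, o.e, o.p, o.q, dif c o.T :: o.S⟩) o else 0) =
            ∑ i, if sb o.T c = true ∧ ok1 g D (dif c o.T) i = true then
              ov a b o.e o.p o.q * (hd a b g D i (M1 (d1 g D (dif c o.T) i) o.S e) (M2 (d1 g D (dif c o.T) i) o.S e) *
                pr a b e o.S (d1 g D (dif c o.T) i) (fun t => v (i :: t))) else 0 := by
          intro o _
          by_cases hT : sb o.T c = true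
          · rw [if_pos hT]
            simp only [Function.comp, sb_zero, if_true, dif_zero]
            rw [pr_cons, Finset.mul_sum]
            refine Finset.sum_congr rfl fun i _ => ?_
            by_cases ho : ok1 g D (dif c o.T) i = true
            · rw [if_pos ho, if_pos ⟨hT, ho⟩]
            · rw [if_neg ho, if_neg (fun h => ho h.2), mul_zero]
          · rw [if_neg hT]
            symm
            refine Finset.sum_eq_zero fun i _ => ?_
            rw [if_neg (fun h => hT h.1)]
        rw [List.map_congr_left hR, ← list_comm]
        refine Finset.sum_congr rfl fun i _ => ?_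
        by_cases ho : ok1 g D c i = true
        · rw [if_pos ho, ih d e S (d1 g D c i) (fun t => v (i :: t)) he, ← List.sum_map_mul_left]
          congr 1
          refine List.map_congr_left fun o hmem => ?_
          by_cases hT : sb o.T (d1 g D c i) = true
          · have h := (ok_swap g D c o.T i).mp ⟨ho, hT⟩
            rw [if_pos hT, if_pos h, ← d1_swap g D c o.T i ho hT]
            have hi := inv_opk p k d e S he o hmem
            have h4 := h_dif (d1 g D c i) o.T hT
            have E1 : M1 (dif (d1 g D c i) o.T) o.S e = M1 (d1 g D c i) S d := by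
              unfold M1; rw [h4.1]; linarith [hi.1]
            have E2 : M2 (dif (d1 g D c i) o.T) o.S e = M2 (d1 g D c i) S d := by
              unfold M2; rw [h4.2]; linarith [hi.2]
            rw [E1, E2]; ring
          · rw [if_neg hT, if_neg (fun h => hT ((ok_swap g D c o.T i).mpr h).2), mul_zero]
        · rw [if_neg ho]
          symm
          apply List.sum_eq_zero
          intro x hx
          rw [List.mem_map] at hx
          obtain ⟨o, _, rfl⟩ := hx
          rw [if_neg (fun h => ho ((ok_swap g D c o.T i).mpr h).1)]

/-- the value of a list of histories -/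
def hv (a b : K) (l : List (ℤ × ℤ × ℤ)) : K := (l.map fun t => ov a b t.1 t.2.1 t.2.2).sum

theorem hv_map (a b : K) (ha : a ≠ 0) (hb : b ≠ 0) (e p q : ℤ) (l : List (ℤ × ℤ × ℤ)) :
    hv a b (l.map fun t => (e * t.1, p + t.2.1, q + t.2.2)) = ov a b e p q * hv a b l := by
  unfold hv
  rw [List.map_map, ← List.sum_map_mul_left]
  congr 1
  refine List.map_congr_left fun t _ => ?_
  have h1 : a ^ 2 ≠ 0 := pow_ne_zero 2 ha
  have h2 : b ^ 2 ≠ 0 := pow_ne_zero 2 hb
  simp only [Function.comp, ov, Int.cast_mul, zpow_add₀ h1, zpow_add₀ h2]
  ring

theorem hv_flatMap {α : Type*} (a b : K) (l : List α) (g : α → List (ℤ × ℤ × ℤ)) :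
    hv a b (l.flatMap g) = (l.map fun x => hv a b (g x)).sum := by
  induction l with
  | nil => rfl
  | cons p l ih =>
    rw [List.flatMap_cons]
    unfold hv at ih ⊢
    rw [List.map_append, List.sum_append, ih]; simp

/-- the word: pushing all pieces -/
theorem word {a b : K} (ha : a ≠ 0) (hb : b ≠ 0) (hA : a ^ 2 - 1 ≠ 0) : ∀ (w : List Piece) (d : List Bool)
    (S : List (Fin 4)), w.foldl (fun o p => o.bind p.dir) (some d) = some [true] →
    pr a b d S 0 (w.foldr (step a b) (fun r => if r = [0] then 1 else 0)) = hv a b (hist w S) := by
  intro w
  induction w with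
  | nil =>
    intro d S h
    simp only [List.foldl_nil, Option.some.injEq] at h
    subst h
    match S with
    | [] => simp [pr, hist, hv]
    | [c] =>
      simp only [List.foldr_nil, pr_cons, hist, hv]
      have key : ∀ c i : Fin 4, ok1 true 0 c i = true → d1 true 0 c i = 0 → [i] = [0] → c = 0 := by decide
      have key2 : ok1 true 0 0 0 = true ∧ d1 true 0 0 0 = 0 := by decide
      by_cases hc : c = 0
      · subst hc
        rw [Finset.sum_eq_single 0]
        · rw [if_pos key2.1, key2.2]
          simp [pr, hd, mon, mdx, M1, M2, nb, h1, h2, bs, bsF, cn, ev, ov]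
        · intro i _ hi
          split_ifs with h1
          · have h3 : ¬ ([i] = [(0 : Fin 4)]) := by simpa using hi
            simp only [pr, if_neg h3]
            simp
          · rfl
        · simp
      · rw [Finset.sum_eq_zero]
        · simp [hc]
        · intro i _
          split_ifs with h1
          · simp only [pr]
            by_cases h2 : d1 true 0 c i = 0
            · by_cases h3 : [i] = [0]
              · exact absurd (key c i h1 h2 h3) hc
              · rw [if_neg h3]; simp
            · rw [if_neg h2, mul_zero]
          · rfl
    | c :: c' :: S => simp [pr, hist, hv]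
  | cons p w ih =>
    intro d S h
    rw [List.foldl_cons] at h
    cases hd' : p.dir d with
    | none =>
      exfalso
      have : (some d).bind p.dir = none := hd'
      rw [this] at h
      have h0 : ∀ w : List Piece, w.foldl (fun o p => o.bind p.dir) (none : Option (List Bool)) = none := by
        intro w
        induction w with
        | nil => rfl
        | cons q w ih => simpa using ih
      rw [h0] at h
      simp at h
    | some d' =>
      have : (some d).bind p.dir = some d' := hd'
      rw [this] at h
      rw [List.foldr_cons]
      have hp := push ha hb hA p (pos p) d d' S 0 (w.foldr (step a b) (fun r => if r = [0] then 1 else 0))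
        (by rw [setp_pos]; exact hd')
      rw [setp_pos] at hp
      rw [hp]
      simp only [hist, hv_flatMap, tr]
      rw [sum_filter_map]
      congr 1
      refine List.map_congr_left fun o _ => ?_
      have key : ∀ T : Fin 4, sb T 0 = decide (T = 0) := by decide
      rw [key]
      by_cases hT : o.T = 0
      · simp only [hT, decide_true, if_true, dif_zero]
        rw [hv_map a b ha hb, ← ih d' o.S h]
      · simp [hT]

/-- the state sum is the sum over the histories (a^2 not 1) -/
theorem state_eq_hist {a b : K} (ha : a ≠ 0) (hb : b ≠ 0) (hA : a ^ 2 - 1 ≠ 0) (w : List Piece)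
    (hw : IsTangle w) : stateSum a b w [0] [0] = hv a b (hist w [0]) := by
  rw [← word ha hb hA w [true] [0] hw, pr_cons, Finset.sum_eq_single 0]
  · have key2 : ok1 true 0 0 0 = true ∧ d1 true 0 0 0 = 0 := by decide
    rw [if_pos key2.1, key2.2]
    simp [pr, hd, mon, mdx, M1, M2, nb, h1, h2, bs, bsF, cn, ev, stateSum]
  · intro i _ hi
    have key : ∀ i : Fin 4, ok1 true 0 0 i = true → i = 0 := by decide
    rw [if_neg (fun h => hi (key i h))]
  · simp

end

end LG3P
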