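import Pool.Agent.Lib.MP_3cd99b_gt.Z5
import Pool.Agent.Lib.MP_3cd99b_gt.Z6
import Pool.Agent.Lib.MP_3cd99b_gt.Sc
import Pool.Agent.Lib.MP_3cd99b_gt.Unq

/-!
The Links-Gould polynomial of every diagram is the sum over its histories.
-/

namespace LG3P
open LG3

theorem evalAt_zero (t0 t1 : ℂ) : evalAt 0 t0 t1 = 0 := by simp [evalAt]

theorem evalAt_add (P Q : ℤ × ℤ →₀ ℤ) (t0 t1 : ℂ) : evalAt (P + Q) t0 t1 = evalAt P t0 t1 + evalAt Q t0 t1 := by
  unfold evalAt
  apply Finsupp.sum_add_index'
  · intro z; simp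
  · intro z x y; push_cast; ring

theorem evalAt_single (z : ℤ × ℤ) (c : ℤ) (t0 t1 : ℂ) :
    evalAt (Finsupp.single z c) t0 t1 = (c : ℂ) * (t0 ^ z.1 * t1 ^ z.2) := by
  unfold evalAt
  rw [Finsupp.sum_single_index]
  simp

/-- the polynomial of a list of histories -/
noncomputable def polyOf (l : List (ℤ × ℤ × ℤ)) : ℤ × ℤ →₀ ℤ := (l.map fun t => Finsupp.single t.2 t.1).sum

theorem evalAt_polyOf (l : List (ℤ × ℤ × ℤ)) (a b : ℂ) : evalAt (polyOf l) (a ^ 2) (b ^ 2) = hv a b l := by
  induction l with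
  | nil => simp [polyOf, hv, evalAt_zero]
  | cons t l ih =>
    have h : polyOf (t :: l) = Finsupp.single t.2 t.1 + polyOf l := rfl
    rw [h, evalAt_add, evalAt_single, ih]
    simp [hv, ov]

theorem state_eq_hist' {a b : ℂ} (ha : a ≠ 0) (hb : b ≠ 0) (w : List Piece) (hw : IsTangle w) :
    stateSum a b w [0] [0] = hv a b (hist w [0]) := by
  refine stateSum_of_off hb w [0] [0] (hist w [0]) (fun a ha h1 => ?_) ha
  exact state_eq_hist ha hb (sub_ne_zero.mpr h1) w hw

/-- The Links-Gould polynomial of the closure of an oriented (1,1)-tangle diagram is the sum over the histories. -/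
theorem isLinksGould_hist (w : List Piece) (hw : IsTangle w) : IsLinksGould w (polyOf (hist w [0])) := by
  refine ⟨hw, fun α β hα hβ i j => ?_⟩
  rw [scalar hα hβ w hw i j, evalAt_polyOf, state_eq_hist' hα hβ w hw]

theorem isLinksGould_iff_eq (w : List Piece) (hw : IsTangle w) (Q : ℤ × ℤ →₀ ℤ) :
    IsLinksGould w Q ↔ Q = polyOf (hist w [0]) := by
  constructor
  · intro h
    exact IsLGold.unique ((isLinksGould_iff w Q).mp h) ((isLinksGould_iff w _).mp (isLinksGould_hist w hw))
  · rintro rfl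
    exact isLinksGould_hist w hw

theorem polyOf_apply (l : List (ℤ × ℤ × ℤ)) (z : ℤ × ℤ) :
    polyOf l z = (l.map fun t => if t.2 = z then t.1 else 0).sum := by
  induction l with
  | nil => simp [polyOf]
  | cons t l ih =>
    have h : polyOf (t :: l) = Finsupp.single t.2 t.1 + polyOf l := rfl
    rw [h, Finsupp.add_apply, ih, List.map_cons, List.sum_cons, Finsupp.single_apply]

/-- If the sign of every history is (-1)^(p+q+c), the coefficients count the histories. -/
theorem polyOf_sign (l : List (ℤ × ℤ × ℤ)) (c : ℤ) (h : ∀ t ∈ l, t.1 = Int.negOnePow (t.2.1 + t.2.2 + c)) (z : ℤ × ℤ) :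
    polyOf l z = Int.negOnePow (z.1 + z.2 + c) * (l.countP fun t => t.2 = z) := by
  rw [polyOf_apply]
  induction l with
  | nil => simp
  | cons t l ih =>
    rw [List.map_cons, List.sum_cons, ih (fun t ht => h t (List.mem_cons_of_mem _ ht)), List.countP_cons]
    by_cases hz : t.2 = z
    · rw [if_pos hz, h t List.mem_cons_self]
      have h1 : t.2.1 = z.1 := by rw [hz]
      have h2 : t.2.2 = z.2 := by rw [hz]
      rw [h1, h2]
      simp [hz]; ring
    · rw [if_neg hz]; simp [hz]

/-- In that case the support is the set of exponents of the histories. -/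
theorem polyOf_ne_zero (l : List (ℤ × ℤ × ℤ)) (c : ℤ) (h : ∀ t ∈ l, t.1 = Int.negOnePow (t.2.1 + t.2.2 + c))
    (z : ℤ × ℤ) : polyOf l z ≠ 0 ↔ ∃ t ∈ l, t.2 = z := by
  rw [polyOf_sign l c h z]
  constructor
  · intro h1
    by_contra h2
    apply h1
    push Not at h2
    rw [List.countP_eq_zero.mpr (by intro t ht; simpa using h2 t ht)]
    simp
  · rintro ⟨t, ht, hz⟩
    apply mul_ne_zero
    · exact Units.ne_zero _
    · have : 0 < l.countP (fun t => t.2 = z) := List.countP_pos_iff.mpr ⟨t, ht, by simpa using hz⟩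
      exact_mod_cast this.ne'

end LG3P
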