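import Pool.Agent.Lib.MP_3cd99b_gt.L9
import Pool.Agent.Lib.MP_3cd99b_gt.Z4
import Pool.Agent.Lib.MP_3cd99b_gt.Z7

/-!
The exponents of an alternating diagram are the values of pairs of choices without cycles.
-/

namespace LG3P
open LG3

/-- the exponents of a pair of choices: sum over the crossings of the sign times (both true, both false) -/
def AB : List Piece → List Bool → List Bool → ℤ × ℤ
  | .cross _ s :: w, a :: x, b :: y =>
    (if a then (if b then (sg s, 0) else (0, 0)) else (if b then (0, 0) else (0, sg s))) + AB w x y
  | .cross _ _ :: _, _, _ => 0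
  | .cup _ _ :: w, x, y => AB w x y
  | .cap _ _ :: w, x, y => AB w x y
  | [], _, _ => 0

theorem wx_inc : ∀ (s : Bool) (m n : Mk), wx s m n = if inc (!s) m then (if inc s n then (sg s, 0) else (0, 0)) else
    (if inc s n then (0, 0) else (0, sg s)) := by
  intro s m n
  cases s <;> cases m <;> cases n <;> rfl

theorem ex2_AB (e : Bool) : ∀ (w : List Piece), (∀ k s, Piece.cross k s ∈ w → s = (e ^^ decide (k % 2 = 1))) →
    ∀ m n : List Mk, ex2 w m n = AB w (chv e w m) (chv (!e) w n) := by
  intro w
  induction w with
  | nil => intro _ m n; rfl
  | cons p w ih =>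
    intro ha m n
    have ih' := ih (fun k s h => ha k s (List.mem_cons_of_mem _ h))
    cases p with
    | cup k f => exact ih' m n
    | cap k f => exact ih' m n
    | cross k s =>
      have hs := ha k s List.mem_cons_self
      have h1 : parq e k = !s := by
        rw [hs]
        unfold parq
        rcases Nat.mod_two_eq_zero_or_one k with h | h <;> cases e <;> simp [h]
      have h2 : parq (!e) k = s := by
        rw [hs]
        unfold parq
        rcases Nat.mod_two_eq_zero_or_one k with h | h <;> cases e <;> simp [h]
      cases m with
      | nil => cases n <;> rfl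
      | cons m ms =>
        cases n with
        | nil => rfl
        | cons n ns =>
          rw [chv_cross, chv_cross, h1, h2]
          show wx s m n + ex2 w ms ns = _ + AB w _ _
          rw [ih', wx_inc]

theorem fit_of_dir : ∀ (w : List Piece) (d : List Bool),
    w.foldl (fun o p => o.bind p.dir) (some d) = some [true] → Fit w d.length := by
  intro w
  induction w with
  | nil =>
    intro d h
    simp only [List.foldl_nil, Option.some.injEq] at h
    subst h
    rfl
  | cons p w ih =>
    intro d h
    rw [List.foldl_cons, Option.bind_some] at h
    cases hd : p.dir d with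
    | none => rw [hd, foldl_none] at h; simp at h
    | some d' =>
      rw [hd] at h
      have h2 := ih d' h
      cases p with
      | cross k e =>
        simp only [Piece.dir] at hd
        split_ifs at hd with h3
        simp only [Option.some.injEq] at hd
        subst hd
        have h4 : (d.drop k).length = (true :: true :: d.drop (k + 2)).length := by rw [← h3]
        simp at h4
        exact ⟨by omega, h2⟩
      | cup k f =>
        simp only [Piece.dir] at hd
        split_ifs at hd with h3
        simp only [Option.some.injEq] at hd
        subst hd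
        refine ⟨h3, ?_⟩
        have : (List.take k d ++ f :: (!f) :: List.drop k d).length = d.length + 2 := by simp; omega
        rw [this] at h2
        exact h2
      | cap k f =>
        simp only [Piece.dir] at hd
        split_ifs at hd with h3
        simp only [Option.some.injEq] at hd
        subst hd
        have h4 : (d.drop k).length = (f :: (!f) :: d.drop (k + 2)).length := by rw [← h3]
        simp at h4
        refine ⟨by omega, ?_⟩
        have : (List.take k d ++ List.drop (k + 2) d).length = d.length - 2 := by simp; omega
        rw [this] at h2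
        exact h2

theorem fit_tangle (w : List Piece) (hw : IsTangle w) : Fit w 1 := fit_of_dir w [true] hw

/-- The exponents of the histories of an alternating diagram are the exponents of the pairs (x, y) of choices
without cycles: x chooses arcs for q = e, y for q = not e. -/
theorem hist_choices (e : Bool) (w : List Piece) (hw : IsTangle w)
    (ha : ∀ k s, Piece.cross k s ∈ w → s = (e ^^ decide (k % 2 = 1))) (z : ℤ × ℤ) :
    (∃ t ∈ hist w [0], t.2 = z) ↔
      ∃ x y : List Bool, (labs e w x).isSome = true ∧ (labs (!e) w y).isSome = true ∧ z = AB w x y := by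
  have hf := fit_tangle w hw
  rw [hist_runs w [0] z]
  have e2 : ([0] : List (Fin 4)).map b2 = [false] := rfl
  have e1 : ([0] : List (Fin 4)).map b1 = [false] := rfl
  rw [e1, e2]
  constructor
  · rintro ⟨m, hm, n, hn, rfl⟩
    refine ⟨chv e w m, chv (!e) w n, ?_, ?_, ex2_AB e w ha m n⟩
    · exact (run_iff e w hf _).mp ⟨m, hm, rfl⟩
    · exact (run_iff (!e) w hf _).mp ⟨n, hn, rfl⟩
  · rintro ⟨x, y, hx, hy, rfl⟩
    obtain ⟨m, hm, rfl⟩ := (run_iff e w hf _).mpr hx
    obtain ⟨n, hn, rfl⟩ := (run_iff (!e) w hf _).mpr hy
    exact ⟨m, hm, n, hn, (ex2_AB e w ha m n).symm⟩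

/-- The support of the Links-Gould polynomial of an alternating diagram. -/
theorem support_choices (e : Bool) (w : List Piece) (hw : IsTangle w)
    (ha : ∀ k s, Piece.cross k s ∈ w → s = (e ^^ decide (k % 2 = 1))) (P : ℤ × ℤ →₀ ℤ) (hP : IsLinksGould w P)
    (z : ℤ × ℤ) : P z ≠ 0 ↔
      ∃ x y : List Bool, (labs e w x).isSome = true ∧ (labs (!e) w y).isSome = true ∧ z = AB w x y := by
  obtain ⟨c, hc⟩ := hist_alt e w hw ha
  rw [(isLinksGould_iff_eq w hw P).mp hP, polyOf_ne_zero _ c hc z, hist_choices e w hw ha z]

end LG3P
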