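import Pool.Agent.Lib.MP_3cd99b_gt.L1

/-!
Runs of one label and forests of chosen arcs: definitions.

For q = false the strands at even positions run to the right and those at odd positions to the left, for q = true
the other way round (alternating orientation of the arcs, not the orientation of the link). A choice at a crossing
is one of its two incoming arcs: true = the one that comes from the left. The points of a slice are the strands
0, .., n-1 and the end of the diagram as point n; a label list has the entries (point n, point 0, .., point n), a
content list has the entries (region above strand 0, .., region below strand n-1), so the content number i lies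
between the labels number i and i+1.
-/

namespace LG3P
open LG3

/-- is the strand k directed into the crossing from the left -/
def parq (q : Bool) (k : ℕ) : Bool := decide (k % 2 = 0) ^^ q

/-- the incoming arc that is not adjacent to the mark (true = the one on the left) -/
def inc (b : Bool) : Mk → Bool
  | .R => true
  | .L => false
  | .T => !b
  | .B => b

/-- the choices of a run -/
def chv (q : Bool) : List Piece → List Mk → List Bool
  | .cross k _ :: w, m :: ms => inc (parq q k) m :: chv q w ms
  | .cup _ _ :: w, ms => chv q w ms
  | .cap _ _ :: w, ms => chv q w ms
  | _, _ => []

/-- the edges between the labels on the two sides of the regions with content true -/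
def edges : List ℕ → List Bool → List (ℕ × ℕ)
  | a :: b :: l, c :: C => (if c then [(a, b)] else []) ++ edges (b :: l) C
  | _, _ => []

/-- the edges connect all labels -/
def Con (L : List ℕ) (C : List Bool) : Prop :=
  ∀ f : ℕ → Bool, (∀ e ∈ edges L C, f e.1 = f e.2) → ∀ u ∈ L, ∀ v ∈ L, f u = f v

/-- rename a label -/
def ren (u v : ℕ) (L : List ℕ) : List ℕ := L.map fun x => if x = u then v else x

/-- a new label -/
def fresh (L : List ℕ) : ℕ := L.foldr max 0 + 1

/-- the labels at every second position -/
def srcs : Bool → List ℕ → List ℕ
  | _, [] => []
  | true, a :: l => a :: srcs false l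
  | false, _ :: l => srcs true l

/-- every label has exactly one source (b: the first point is a source) -/
def Ps (b : Bool) (L : List ℕ) : Prop := (srcs b L).Nodup ∧ ∀ x ∈ L, x ∈ srcs b L

/-- the labels do not cross -/
def NC (L : List ℕ) : Prop :=
  ∀ i j k m, i < j → j < k → k < m → m < L.length → L.getD i 0 = L.getD k 0 → L.getD j 0 = L.getD m 0 →
    L.getD i 0 = L.getD j 0

/-- a well-formed label list -/
structure LOK (q : Bool) (L : List ℕ) : Prop where
  /-- sources -/
  ps : Ps (!q) L.tail
  /-- no crossing -/
  nc : NC L
  /-- the first and the last label are the label of the point n -/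
  hl : L.head? = L.getLast?

/-- the labels before a piece, from the labels after it -/
def labStep (q : Bool) (p : Piece) (c : Bool) (L : List ℕ) : Option (List ℕ) :=
  match p, L.drop (pos p + 1) with
  | .cross k _, u :: v :: R =>
    if parq q k then
      if c then some (L.take (k + 1) ++ u :: u :: R)
      else if u = v then none else some (ren u v (L.take (k + 1)) ++ fresh L :: v :: ren u v R)
    else
      if c then some (L.take (k + 1) ++ v :: v :: R)
      else if u = v then none else some (ren v u (L.take (k + 1)) ++ u :: fresh L :: ren v u R)
  | .cup k _, u :: v :: R => if u = v then none else some (ren u v (L.take (k + 1)) ++ ren u v R)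
  | .cap k _, R => some (L.take (k + 1) ++ fresh L :: fresh L :: R)
  | _, _ => none

/-- the labels of a diagram with choices, none if the chosen arcs contain a cycle -/
def labs (q : Bool) : List Piece → List Bool → Option (List ℕ)
  | [], [] => some [0, 0, 0]
  | .cross k e :: w, c :: x => (labs q w x).bind (labStep q (.cross k e) c)
  | .cup k f :: w, x => (labs q w x).bind (labStep q (.cup k f) false)
  | .cap k f :: w, x => (labs q w x).bind (labStep q (.cap k f) false)
  | _, _ => none

/-- number of regions with content true -/
def cnt (C : List Bool) : ℕ := C.count true

/-- the contents and labels form a tree -/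
def Tree (q : Bool) (L : List ℕ) (C : List Bool) : Prop :=
  Con L C ∧ cnt C + 1 = (srcs (!q) L.tail).length

/-- one step of a label on extended contents, in context form -/
inductive Stp : Piece → List Bool → List Bool → Option Mk → Prop
  | L (k e) (X Y : List Bool) (a b : Bool) (h : X.length = k) :
      Stp (.cross k e) (X ++ a :: true :: b :: Y) (X ++ a :: true :: b :: Y) (some .L)
  | R (k e) (X Y : List Bool) (a b : Bool) (h : X.length = k) :
      Stp (.cross k e) (X ++ a :: false :: b :: Y) (X ++ a :: false :: b :: Y) (some .R)
  | T (k e) (X Y : List Bool) (b : Bool) (h : X.length = k) :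
      Stp (.cross k e) (X ++ true :: false :: b :: Y) (X ++ false :: true :: b :: Y) (some .T)
  | B (k e) (X Y : List Bool) (a : Bool) (h : X.length = k) :
      Stp (.cross k e) (X ++ a :: false :: true :: Y) (X ++ a :: true :: false :: Y) (some .B)
  | cup (k f) (X Y : List Bool) (a b : Bool) (h : X.length = k) (hab : (a && b) = false) :
      Stp (.cup k f) (X ++ (a || b) :: Y) (X ++ a :: true :: b :: Y) none
  | cap (k f) (X Y : List Bool) (a b : Bool) (h : X.length = k) (hab : (a || b) = true) :
      Stp (.cap k f) (X ++ a :: false :: b :: Y) (X ++ (a && b) :: Y) none

end LG3P
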