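import Pool.Agent.Lib.MP_3cd99b_gt.L2

/-!
The transfer of one label is the step relation.
-/

namespace LG3P
open LG3

/-- change the position of a piece -/
def setk (p : Piece) (k : ℕ) : Piece :=
  match p with
  | .cup _ f => .cup k f
  | .cap _ f => .cap k f
  | .cross _ e => .cross k e

theorem setk_pos (p : Piece) : setk p (pos p) = p := by cases p <;> rfl

theorem oXb_cases : ∀ c c', ∀ t ∈ oXb c c', (c = true ∧ t = (false, .L, true, c')) ∨
    (c = false ∧ t = (false, .R, false, c')) ∨ (c = false ∧ t = (true, .T, true, c')) ∨
    (c = false ∧ c' = true ∧ t = (false, .B, true, false)) := by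
  intro c c' t ht
  cases c <;> cases c' <;> simp [oXb] at ht ⊢ <;> tauto

theorem o1_stp (p : Piece) (S : List Bool) (o : Bool × Option Mk × List Bool) (ho : o ∈ o1 p S) (X : List Bool)
    (a : Bool) (ha : (!o.1 || a) = true) :
    Stp (setk p X.length) (X ++ a :: S) (X ++ (a && !o.1) :: o.2.2) o.2.1 := by
  cases p with
  | cup k f =>
    simp only [o1, List.mem_cons, List.not_mem_nil, or_false] at ho
    rcases ho with rfl | rfl
    · have := Stp.cup X.length f X S a false rfl (by simp)
      simpa [setk] using this
    · have h : a = true := by simpa using ha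
      subst h
      have := Stp.cup X.length f X S false true rfl (by simp)
      simpa [setk] using this
  | cap k f =>
    match S, ho with
    | [], ho => simp [o1] at ho
    | [c], ho => simp [o1] at ho
    | c :: c' :: S, ho =>
      simp only [o1] at ho
      split_ifs at ho with hc
      · simp at ho
      · simp only [List.mem_singleton] at ho
        subst ho
        have hc' : c = false := by simpa using hc
        subst hc'
        have h2 : (a || c') = true := by simpa [Bool.or_comm] using ha
        have := Stp.cap X.length f X S a c' rfl h2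
        simpa [setk] using this
  | cross k e =>
    match S, ho with
    | [], ho => simp [o1] at ho
    | [c], ho => simp [o1] at ho
    | c :: c' :: S, ho =>
      simp only [o1, List.mem_map] at ho
      obtain ⟨t, ht, rfl⟩ := ho
      rcases oXb_cases c c' t ht with ⟨rfl, rfl⟩ | ⟨rfl, rfl⟩ | ⟨rfl, rfl⟩ | ⟨rfl, rfl, rfl⟩
      · simpa [setk] using Stp.L X.length e X S a c' rfl
      · simpa [setk] using Stp.R X.length e X S a c' rfl
      · have h : a = true := by simpa using ha
        subst h
        simpa [setk] using Stp.T X.length e X S c' rfl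
      · simpa [setk] using Stp.B X.length e X S a rfl

theorem ok1l_stp (p : Piece) : ∀ (k : ℕ) (S : List Bool), ∀ o ∈ ok1l p k S, ∀ (X : List Bool) (a : Bool),
    (!o.1 || a) = true → Stp (setk p (X.length + k)) (X ++ a :: S) (X ++ (a && !o.1) :: o.2.2) o.2.1 := by
  intro k
  induction k with
  | zero => intro S o ho X a ha; exact o1_stp p S o ho X a ha
  | succ k ih =>
    intro S o ho X a ha
    match S, ho with
    | [], ho => simp [ok1l] at ho
    | c :: S, ho =>
      simp only [ok1l, List.mem_map, List.mem_filter] at ho
      obtain ⟨x, ⟨hx, hT⟩, rfl⟩ := ho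
      have := ih S x hx (X ++ [a]) c hT
      have e1 : (X ++ [a]).length + k = X.length + (k + 1) := by simp; omega
      rw [e1] at this
      simpa using this

theorem stp_ok1l (p : Piece) (T : Bool) (mk : Option Mk) (R R' : List Bool) (a : Bool) (hR : (T, mk, R') ∈ o1 p R)
    (hT : (!T || a) = true) : ∀ (X S : List Bool) (c : Bool), X ++ a :: R = c :: S →
    ∃ o ∈ ok1l p X.length S, (!o.1 || c) = true ∧ X ++ (a && !T) :: R' = (c && !o.1) :: o.2.2 ∧ o.2.1 = mk := by
  intro X
  induction X with
  | nil =>
    intro S c h
    simp only [List.nil_append, List.cons.injEq] at h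
    obtain ⟨rfl, rfl⟩ := h
    exact ⟨_, hR, hT, rfl, rfl⟩
  | cons x X ih =>
    intro S c h
    simp only [List.cons_append, List.cons.injEq] at h
    obtain ⟨rfl, rfl⟩ := h
    obtain ⟨c1, S1, hS⟩ : ∃ c1 S1, X ++ a :: R = c1 :: S1 := by
      cases X <;> simp
    obtain ⟨o, ho, h1, h2, h3⟩ := ih S1 c1 hS
    refine ⟨(false, o.2.1, (c1 && !o.1) :: o.2.2), ?_, rfl, ?_, h3⟩
    · rw [hS]
      simp only [List.length_cons, ok1l, List.mem_map, List.mem_filter]
      exact ⟨o, ⟨ho, h1⟩, rfl⟩
    · simp only [List.cons_append, Bool.not_false, Bool.and_true, List.cons.injEq, true_and]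
      exact h2

/-- The transfer of one label is the step relation. -/
theorem t1_iff (p : Piece) (S : List Bool) (mk : Option Mk) (S' : List Bool) :
    (mk, S') ∈ t1 p S ↔ Stp p (false :: S) (false :: S') mk := by
  constructor
  · intro h
    simp only [t1, List.mem_map, List.mem_filter] at h
    obtain ⟨o, ⟨ho, hT⟩, ho2⟩ := h
    have hT' : o.1 = false := by simpa using hT
    have := ok1l_stp p (pos p) S o ho [] false (by simp [hT'])
    simp only [List.length_nil, zero_add, setk_pos, List.nil_append, hT', Bool.not_false, Bool.and_true] at this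
    rw [ho2] at this
    exact this
  · intro h
    have key : ∀ (T : Bool) (R R' : List Bool) (a : Bool) (X : List Bool), X.length = pos p → (T, mk, R') ∈ o1 p R →
        (!T || a) = true → X ++ a :: R = false :: S → X ++ (a && !T) :: R' = false :: S' → (mk, S') ∈ t1 p S := by
      intro T R R' a X hX hR hT h1 h2
      obtain ⟨o, ho, h3, h4, h5⟩ := stp_ok1l p T mk R R' a hR hT X S false h1
      have h6 : o.1 = false := by simpa using h3
      simp only [t1, List.mem_map, List.mem_filter]
      refine ⟨o, ⟨by rw [← hX]; exact ho, by simp [h6]⟩, ?_⟩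
      rw [h2] at h4
      simp only [Bool.false_and, List.cons.injEq, true_and] at h4
      rw [Prod.ext_iff]
      exact ⟨h5, h4.symm⟩
    generalize hC : false :: S = C at h
    generalize hC' : false :: S' = C' at h
    cases h with
    | L k e X Y a b hX =>
      exact key false (true :: b :: Y) (true :: b :: Y) a X hX (by simp [o1, oXb]) (by simp) hC.symm (by simpa using hC'.symm)
    | R k e X Y a b hX =>
      exact key false (false :: b :: Y) (false :: b :: Y) a X hX (by cases b <;> simp [o1, oXb]) (by simp) hC.symm
        (by simpa using hC'.symm)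
    | T k e X Y b hX =>
      exact key true (false :: b :: Y) (true :: b :: Y) true X hX (by cases b <;> simp [o1, oXb]) (by simp) hC.symm
        (by simpa using hC'.symm)
    | B k e X Y a hX =>
      exact key false (false :: true :: Y) (true :: false :: Y) a X hX (by simp [o1, oXb]) (by simp) hC.symm
        (by simpa using hC'.symm)
    | cup k f X Y a b hX hab =>
      refine key b Y (true :: b :: Y) (a || b) X hX (by cases b <;> simp [o1]) (by cases a <;> cases b <;> simp) hC.symm ?_
      rw [hC']
      cases a <;> cases b <;> simp_all
    | cap k f X Y a b hX hab =>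
      refine key (!b) (false :: b :: Y) Y a X hX (by simp [o1]) (by cases a <;> cases b <;> simp_all) hC.symm ?_
      rw [hC']
      simp

end LG3P
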