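import Pool.Agent.Lib.MP_3cd99b_gt.L3

/-!
Rows A of the bridge: counting edges, exchange of an edge.
-/

namespace LG3P
open LG3

/-- the edges E connect the vertices V -/
def Cn (V : List ℕ) (E : List (ℕ × ℕ)) : Prop :=
  ∀ f : ℕ → Bool, (∀ e ∈ E, f e.1 = f e.2) → ∀ u ∈ V, ∀ v ∈ V, f u = f v

theorem con_iff (L : List ℕ) (C : List Bool) : Con L C ↔ Cn L (edges L C) := Iff.rfl

theorem cn_card' : ∀ (n : ℕ) (V : List ℕ) (E : List (ℕ × ℕ)), E.length = n → Cn V E →
    V.toFinset.card ≤ n + 1 := by
  intro n
  induction n with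
  | zero =>
    intro V E hE h
    have hE' : E = [] := List.length_eq_zero_iff.mp hE
    subst hE'
    simp only [zero_add, Finset.card_le_one, List.mem_toFinset]
    intro a ha b hb
    have := h (fun x => decide (x = a)) (by simp) a ha b hb
    simp at this
    exact this.symm
  | succ n ih =>
    intro V E hE h
    match E, hE with
    | e :: E, hE =>
      set ρ : ℕ → ℕ := fun x => if x = e.1 then e.2 else x with hρ
      have key : Cn (V.map ρ) (E.map fun d => (ρ d.1, ρ d.2)) := by
        intro f hf u hu v hv
        rw [List.mem_map] at hu hv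
        obtain ⟨u', hu', rfl⟩ := hu
        obtain ⟨v', hv', rfl⟩ := hv
        refine h (f ∘ ρ) ?_ u' hu' v' hv'
        intro d hd
        rcases List.mem_cons.mp hd with rfl | hd
        · simp only [Function.comp, hρ, if_true]
          split_ifs <;> rfl
        · exact hf (ρ d.1, ρ d.2) (List.mem_map.mpr ⟨d, hd, rfl⟩)
      have h2 := ih (V.map ρ) _ (by simpa using hE) key
      have h3 : V.toFinset ⊆ insert e.1 (V.map ρ).toFinset := by
        intro v hv
        rw [Finset.mem_insert, List.mem_toFinset, List.mem_map]
        by_cases hve : v = e.1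
        · exact Or.inl hve
        · exact Or.inr ⟨v, by simpa using hv, by simp [hρ, hve]⟩
      have h4 := Finset.card_le_card h3
      have h5 := Finset.card_insert_le e.1 (V.map ρ).toFinset
      omega

/-- ROW A1: at least |V| - 1 edges are needed -/
theorem cn_card (V : List ℕ) (E : List (ℕ × ℕ)) (h : Cn V E) : V.toFinset.card ≤ E.length + 1 :=
  cn_card' _ V E rfl h

/-- ROW A2: exchange of an edge of a tree: the third vertex z is on one of the two sides -/
theorem cn_exchange (V : List ℕ) (E1 E2 : List (ℕ × ℕ)) (α β z : ℕ) (h : Cn V (E1 ++ (α, β) :: E2))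
    (hc : V.toFinset.card = E1.length + E2.length + 2) (hα : α ∈ V) (hβ : β ∈ V) (hz : z ∈ V) :
    Cn V (E1 ++ (α, z) :: E2) ∨ Cn V (E1 ++ (z, β) :: E2) := by
  have hn : ¬ Cn V (E1 ++ E2) := by
    intro h'
    have := cn_card V _ h'
    simp only [List.length_append] at this
    omega
  unfold Cn at hn
  push Not at hn
  obtain ⟨f, hf, u, hu, v, hv, huv⟩ := hn
  have hf1 : ∀ e ∈ E1, f e.1 = f e.2 := fun e he => hf e (List.mem_append_left _ he)
  have hf2 : ∀ e ∈ E2, f e.1 = f e.2 := fun e he => hf e (List.mem_append_right _ he)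
  have hab : f α ≠ f β := by
    intro hab
    apply huv
    refine h f ?_ u hu v hv
    intro e he
    rcases List.mem_append.mp he with he | he
    · exact hf1 e he
    · rcases List.mem_cons.mp he with rfl | he
      · exact hab
      · exact hf2 e he
  -- g is constant on each side
  have side : ∀ (g : ℕ → Bool), (∀ e ∈ E1, g e.1 = g e.2) → (∀ e ∈ E2, g e.1 = g e.2) →
      (∀ x ∈ V, f x = f β → g x = g β) ∧ (∀ x ∈ V, f x = f α → g x = g α) := by
    intro g hg1 hg2
    constructor
    · intro x hx hxb
      have := h (fun x => if f x = f β then g x else g β) ?_ x hx β hβ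
      · simpa [hxb] using this
      intro e he
      rcases List.mem_append.mp he with he | he
      · simp only [hf1 e he, hg1 e he]
      · rcases List.mem_cons.mp he with rfl | he
        · simp [hab]
        · simp only [hf2 e he, hg2 e he]
    · intro x hx hxa
      have := h (fun x => if f x = f α then g x else g α) ?_ x hx α hα
      · simpa [hxa] using this
      intro e he
      rcases List.mem_append.mp he with he | he
      · simp only [hf1 e he, hg1 e he]
      · rcases List.mem_cons.mp he with rfl | he
        · simp [Ne.symm hab]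
        · simp only [hf2 e he, hg2 e he]
  have two0 : ∀ a b c : Bool, a ≠ b → c = a ∨ c = b := by decide
  have two : ∀ x, f x = f α ∨ f x = f β := fun x => two0 _ _ _ hab
  have fin : ∀ (g : ℕ → Bool), (∀ e ∈ E1, g e.1 = g e.2) → (∀ e ∈ E2, g e.1 = g e.2) → g α = g β →
      ∀ u ∈ V, ∀ v ∈ V, g u = g v := by
    intro g hg1 hg2 hgab u hu v hv
    obtain ⟨sb, sa⟩ := side g hg1 hg2
    have h1 : ∀ x ∈ V, g x = g α := by
      intro x hx
      rcases two x with hx' | hx'
      · exact sa x hx hx'
      · rw [sb x hx hx', hgab]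
    rw [h1 u hu, h1 v hv]
  rcases two z with hz' | hz'
  · right
    intro g hg
    have hg1 : ∀ e ∈ E1, g e.1 = g e.2 := fun e he => hg e (List.mem_append_left _ he)
    have hg2 : ∀ e ∈ E2, g e.1 = g e.2 :=
      fun e he => hg e (List.mem_append_right _ (List.mem_cons_of_mem _ he))
    have hg3 : g z = g β := hg (z, β) (List.mem_append_right _ List.mem_cons_self)
    refine fin g hg1 hg2 ?_
    rw [← hg3]
    exact ((side g hg1 hg2).2 z hz hz').symm
  · left
    intro g hg
    have hg1 : ∀ e ∈ E1, g e.1 = g e.2 := fun e he => hg e (List.mem_append_left _ he)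
    have hg2 : ∀ e ∈ E2, g e.1 = g e.2 :=
      fun e he => hg e (List.mem_append_right _ (List.mem_cons_of_mem _ he))
    have hg3 : g α = g z := hg (α, z) (List.mem_append_right _ List.mem_cons_self)
    refine fin g hg1 hg2 ?_
    rw [hg3]
    exact (side g hg1 hg2).1 z hz hz'

end LG3P
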