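import Pool.Agent.Lib.MP_3cd99b_gt.L3

/-!
Rows B of the bridge: edges join neighbours, the planar lemma.
-/

namespace LG3P
open LG3

/-- ROW B1: edges join neighbours -/
theorem edges_adj (L : List ℕ) (C : List Bool) : ∀ e ∈ edges L C, ∃ r, r + 1 < L.length ∧
    e.1 = L.getD r 0 ∧ e.2 = L.getD (r + 1) 0 := by
  induction L generalizing C with
  | nil => intro e he; simp [edges] at he
  | cons a L ih =>
    rcases L with _ | ⟨b, l⟩
    · intro e he; simp [edges] at he
    · rcases C with _ | ⟨c, C⟩
      · intro e he; simp [edges] at he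
      · intro e he
        rw [edges, List.mem_append] at he
        rcases he with he | he
        · refine ⟨0, by simp, ?_⟩
          cases c
          · simp at he
          · simp only [if_true, List.mem_singleton] at he
            subst he
            simp
        · obtain ⟨r, hr, h1, h2⟩ := ih C e he
          refine ⟨r + 1, by simpa using hr, ?_, ?_⟩
          · rw [h1]; rfl
          · rw [h2]; rfl

theorem planar_aux (L : List ℕ) (C : List Bool) (hNC : NC L) (hCon : Con L C) (g : ℕ → Bool) (s t c : ℕ)
    (hg : ∀ e ∈ edges L C, e = (s, t) ∨ g e.1 = g e.2) (lo hi x y : ℕ) (h1 : lo < hi) (h2 : hi < L.length)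
    (hlo : L.getD lo 0 = c) (hhi : L.getD hi 0 = c) (hx : lo < x) (hx' : x < hi) (hy : y < lo ∨ hi < y)
    (hyl : y < L.length) (gx : g (L.getD x 0) ≠ g c) (gy : g (L.getD y 0) ≠ g c) : False := by
  classical
  have sep : ∀ r1 r2, r1 < L.length → r2 < L.length → L.getD r1 0 = L.getD r2 0 → g (L.getD r1 0) ≠ g c →
      lo < r1 → r1 < hi → lo < r2 ∧ r2 < hi := by
    intro r1 r2 l1 l2 he hne a1 a2
    by_contra hcon
    have hcases : r2 < lo ∨ r2 = lo ∨ r2 = hi ∨ hi < r2 := by omega
    rcases hcases with h | h | h | h
    · have := hNC r2 lo r1 hi h a1 a2 h2 he.symm (by rw [hlo, hhi])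
      apply hne
      rw [he, this, hlo]
    · apply hne; rw [he, h, hlo]
    · apply hne; rw [he, h, hhi]
    · have := hNC lo r1 hi r2 a1 a2 h l2 (by rw [hlo, hhi]) he
      apply hne
      rw [← this, hlo]
  let bt : ℕ → Bool := fun z => decide (∃ r, lo < r ∧ r < hi ∧ L.getD r 0 = z)
  let κ : Bool := if g s ≠ g c then bt s else bt t
  let f : ℕ → Bool := fun z => if g z = g c then κ else bt z
  have hf : ∀ e ∈ edges L C, f e.1 = f e.2 := by
    intro e he
    obtain ⟨r, hr, e1, e2⟩ := edges_adj L C e he
    by_cases p1 : g e.1 = g c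
    · by_cases p2 : g e.2 = g c
      · simp only [f, if_pos p1, if_pos p2]
      · have hne : g e.1 ≠ g e.2 := by rw [p1]; exact fun h => p2 h.symm
        have hst : e = (s, t) := (hg e he).resolve_right hne
        have hs : ¬ g s ≠ g c := by rw [hst] at p1; exact fun h => h p1
        simp only [f, if_pos p1, if_neg p2, κ, if_neg hs]
        rw [hst]
    · by_cases p2 : g e.2 = g c
      · have hne : g e.1 ≠ g e.2 := by rw [p2]; exact p1
        have hst : e = (s, t) := (hg e he).resolve_right hne
        have hs : g s ≠ g c := by rw [hst] at p1; exact p1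
        simp only [f, if_neg p1, if_pos p2, κ, if_pos hs]
        rw [hst]
      · simp only [f, if_neg p1, if_neg p2, bt]
        congr 1
        rw [e1] at p1 ⊢
        rw [e2] at p2 ⊢
        have n1 : r ≠ lo := fun h => p1 (by rw [h, hlo])
        have n2 : r ≠ hi := fun h => p1 (by rw [h, hhi])
        have n3 : r + 1 ≠ lo := fun h => p2 (by rw [h, hlo])
        have n4 : r + 1 ≠ hi := fun h => p2 (by rw [h, hhi])
        apply propext
        constructor
        · rintro ⟨r', a1, a2, a3⟩
          have := sep r' r (by omega) (by omega) a3 (by rw [a3]; exact p1) a1 a2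
          exact ⟨r + 1, by omega, by omega, rfl⟩
        · rintro ⟨r', a1, a2, a3⟩
          have := sep r' (r + 1) (by omega) (by omega) a3 (by rw [a3]; exact p2) a1 a2
          exact ⟨r, by omega, by omega, rfl⟩
  have hmem : ∀ r, r < L.length → L.getD r 0 ∈ L := by
    intro r hr
    rw [List.getD_eq_getElem _ _ hr]
    exact List.getElem_mem hr
  have := hCon f hf _ (hmem x (by omega)) _ (hmem y hyl)
  have fx : f (L.getD x 0) = true := by
    simp only [f, if_neg gx, bt]
    exact decide_eq_true ⟨x, hx, hx', rfl⟩
  have fy : f (L.getD y 0) = false := by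
    simp only [f, if_neg gy, bt]
    apply decide_eq_false
    rintro ⟨r', a1, a2, a3⟩
    have := sep r' y (by omega) hyl a3 (by rw [a3]; exact gy) a1 a2
    omega
  rw [fx, fy] at this
  exact Bool.noConfusion this

/-- ROW B2: the planar lemma. g is constant on all edges but one, the points i and j are on one side, the label of
the point h between them is on the other side and has a point p outside of [i, j]. -/
theorem planar (L : List ℕ) (C : List Bool) (hNC : NC L) (hCon : Con L C) (g : ℕ → Bool) (s t : ℕ)
    (hg : ∀ e ∈ edges L C, e = (s, t) ∨ g e.1 = g e.2) (i h j p : ℕ) (hih : i < h) (hhj : h < j)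
    (hj : j < L.length) (hp : p < L.length) (hpo : p < i ∨ j < p) (hl : L.getD p 0 = L.getD h 0)
    (hgij : g (L.getD i 0) = g (L.getD j 0)) (hgih : g (L.getD i 0) ≠ g (L.getD h 0)) : False := by
  have hgjh : g (L.getD j 0) ≠ g (L.getD h 0) := by rw [← hgij]; exact hgih
  rcases hpo with hpo | hpo
  · exact planar_aux L C hNC hCon g s t (L.getD h 0) hg p h i j (by omega) (by omega) hl rfl (by omega) hih
      (Or.inr hhj) hj hgih hgjh
  · exact planar_aux L C hNC hCon g s t (L.getD h 0) hg h p j i (by omega) hp rfl hl (by omega) hpo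
      (Or.inl hih) (by omega) hgjh hgih

end LG3P
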