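import Pool.Agent.Lib.MP_3cd99b_gt.L3

/-!
Rows C of the bridge: well-formed label lists.
-/

namespace LG3P
open LG3

namespace RC

/-- non-crossing in function form -/
def NCf (l : ℕ → ℕ) (n : ℕ) : Prop :=
  ∀ i j k m, i < j → j < k → k < m → m < n → l i = l k → l j = l m → l i = l j

theorem nc_copy {l : ℕ → ℕ} {n : ℕ} (h : NCf l n) (a b : ℕ) (hab : b = a + 1 ∨ a = b + 1) (hb : b < n) :
    NCf (fun i => if i = a then l b else l i) n := by
  intro i j k m h1 h2 h3 h4 e1 e2
  beta_reduce at e1 e2 ⊢
  have key : ∀ i, (if i = a then l b else l i) = l (if i = a then b else i) := by intro i; split_ifs <;> rfl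
  simp only [key] at e1 e2 ⊢
  by_cases c1 : (if i = a then b else i) = (if j = a then b else j)
  · rw [c1]
  by_cases c2 : (if j = a then b else j) = (if k = a then b else k)
  · rw [c2, e1]
  by_cases c3 : (if k = a then b else k) = (if m = a then b else m)
  · rw [e1, c3, e2]
  refine h _ _ _ _ ?_ ?_ ?_ ?_ e1 e2
  · split_ifs at * <;> omega
  · split_ifs at * <;> omega
  · split_ifs at * <;> omega
  · split_ifs at * <;> omega

theorem nc_merge {l : ℕ → ℕ} {n : ℕ} (h : NCf l n) (u v p q : ℕ) (hpq : q = p + 1 ∨ p = q + 1) (hp : p < n)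
    (hq : q < n) (lp : l p = u) (lq : l q = v) : NCf (fun i => if l i = u then v else l i) n := by
  intro i j k m h1 h2 h3 h4 e1 e2
  beta_reduce at e1 e2 ⊢
  -- a class is u, v or another one
  have two : ∀ x y, (if l x = u then v else l x) = (if l y = u then v else l y) → l x = l y ∨
      (∃ px py, (py = px + 1 ∨ px = py + 1) ∧ px < n ∧ py < n ∧ l px = l x ∧ l py = l y ∧
        (l x = u ∨ l x = v) ∧ (l px = u ∨ l px = v) ∧ (l py = u ∨ l py = v)) := by
    intro x y hxy
    by_cases hx : l x = u
    · by_cases hy : l y = u
      · left; rw [hx, hy]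
      · rw [if_pos hx, if_neg hy] at hxy
        right
        exact ⟨p, q, hpq, hp, hq, by rw [lp, hx], by rw [lq, hxy], Or.inl hx, Or.inl lp, Or.inr lq⟩
    · by_cases hy : l y = u
      · rw [if_neg hx, if_pos hy] at hxy
        right
        exact ⟨q, p, hpq.symm, hq, hp, by rw [lq, hxy], by rw [lp, hy], Or.inr hxy, Or.inr lq, Or.inl lp⟩
      · rw [if_neg hx, if_neg hy] at hxy
        exact Or.inl hxy
  by_contra hne
  have hij : ∀ x y, l x = l y → (if l x = u then v else l x) = (if l y = u then v else l y) := by
    intro x y hxy; rw [hxy]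
  have uv : ∀ x, (l x = u ∨ l x = v) → (if l x = u then v else l x) = v := by
    intro x hx
    rcases hx with hx | hx
    · rw [if_pos hx]
    · split_ifs <;> simp [hx]
  rcases two i k e1 with c1 | ⟨pi, pk, hadj, l1, l2, a1, a2, a3, a4, a5⟩
  · rcases two j m e2 with c2 | ⟨pj, pm, hadj, l1, l2, a1, a2, a3, a4, a5⟩
    · exact hne (hij _ _ (h i j k m h1 h2 h3 h4 c1 c2))
    · -- merged class at j, m ; the class of i, k is another one
      have ni : ¬ (l i = u ∨ l i = v) := fun hi => hne (by rw [uv i hi, uv j a3])
      have nk : ¬ (l k = u ∨ l k = v) := by rw [← c1]; exact ni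
      have x1 : pj ≠ i := fun e => ni (by rw [← e]; exact a4)
      have x2 : pm ≠ i := fun e => ni (by rw [← e]; exact a5)
      have x3 : pj ≠ k := fun e => nk (by rw [← e]; exact a4)
      have x4 : pm ≠ k := fun e => nk (by rw [← e]; exact a5)
      have nij : l i ≠ l j := fun e => ni (by rw [e]; exact a3)
      have hc : (pj < i ∧ pm < i) ∨ (i < pj ∧ pj < k ∧ i < pm ∧ pm < k) ∨ (k < pj ∧ k < pm) := by omega
      rcases hc with ⟨b1, b2⟩ | ⟨b1, b2, b3, b4⟩ | ⟨b1, b2⟩
      · have := h pj i j k b1 h1 h2 (by omega) a1 c1
        exact nij (by rw [← this, a1])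
      · have := h i pm k m b3 b4 h3 h4 c1 a2
        exact ni (by rw [this]; exact a5)
      · have := h i j k pj h1 h2 b1 l1 c1 a1.symm
        exact nij this
  · -- merged class at i, k
    have nj : ¬ (l j = u ∨ l j = v) := fun hj => hne (by rw [uv j hj, uv i a3])
    have ejm : l j = l m := by
      rcases two j m e2 with c2 | ⟨_, _, _, _, _, _, _, b3, _, _⟩
      · exact c2
      · exact absurd b3 nj
    have nm : ¬ (l m = u ∨ l m = v) := by rw [← ejm]; exact nj
    have x1 : pi ≠ j := fun e => nj (by rw [← e]; exact a4)
    have x2 : pk ≠ j := fun e => nj (by rw [← e]; exact a5)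
    have x3 : pi ≠ m := fun e => nm (by rw [← e]; exact a4)
    have x4 : pk ≠ m := fun e => nm (by rw [← e]; exact a5)
    have nij : l i ≠ l j := fun e => nj (by rw [← e]; exact a3)
    have nkj : l k ≠ l j := fun e => nj (by rw [← e, ← a2]; exact a5)
    have hc : (pi < j ∧ pk < j) ∨ (j < pi ∧ pi < m ∧ j < pk ∧ pk < m) ∨ (m < pi ∧ m < pk) := by omega
    rcases hc with ⟨b1, b2⟩ | ⟨b1, b2, b3, b4⟩ | ⟨b1, b2⟩
    · have := h pk j k m b2 h2 h3 h4 a2 ejm
      exact nkj (by rw [← a2, this])
    · have := h i j pi m h1 b1 b2 h4 a1.symm ejm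
      exact nij this
    · have := h j k m pk h2 h3 b2 l2 ejm a2.symm
      exact nkj this.symm

theorem nc_del {l : ℕ → ℕ} {n : ℕ} (h : NCf l n) (a : ℕ) : NCf (fun i => if i < a then l i else l (i + 2)) (n - 2) := by
  intro i j k m h1 h2 h3 h4 e1 e2
  beta_reduce at e1 e2 ⊢
  have key : ∀ i, (if i < a then l i else l (i + 2)) = l (if i < a then i else i + 2) := by intro i; split_ifs <;> rfl
  simp only [key] at e1 e2 ⊢
  refine h _ _ _ _ ?_ ?_ ?_ ?_ e1 e2 <;> split_ifs at * <;> omega

theorem nc_fresh {l : ℕ → ℕ} {n : ℕ} (h : NCf l n) (a f : ℕ) (hf : ∀ i < n, l i ≠ f) :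
    NCf (fun i => if i = a then f else l i) n := by
  intro i j k m h1 h2 h3 h4 e1 e2
  beta_reduce at e1 e2 ⊢
  by_cases c1 : i = a
  · rw [if_pos c1, if_neg (by omega)] at e1
    exact absurd e1.symm (hf k (by omega))
  by_cases c2 : k = a
  · rw [if_neg c1, if_pos c2] at e1
    exact absurd e1 (hf i (by omega))
  by_cases c3 : j = a
  · rw [if_pos c3, if_neg (by omega)] at e2
    exact absurd e2.symm (hf m (by omega))
  by_cases c4 : m = a
  · rw [if_neg c3, if_pos c4] at e2
    exact absurd e2 (hf j (by omega))
  rw [if_neg c1, if_neg c2] at e1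
  rw [if_neg c3, if_neg c4] at e2
  rw [if_neg c1, if_neg c3]
  exact h i j k m h1 h2 h3 h4 e1 e2

theorem nc_ins {l : ℕ → ℕ} {n : ℕ} (h : NCf l n) (a f : ℕ) (ha : a ≤ n) (hf : ∀ i < n, l i ≠ f) :
    NCf (fun i => if i < a then l i else if i < a + 2 then f else l (i - 2)) (n + 2) := by
  intro i j k m h1 h2 h3 h4 e1 e2
  beta_reduce at e1 e2 ⊢
  have key : ∀ i, ¬ (a ≤ i ∧ i < a + 2) → (if i < a then l i else if i < a + 2 then f else l (i - 2)) =
      l (if i < a then i else i - 2) := by
    intro i hi
    by_cases c : i < a
    · simp [c]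
    · have : ¬ i < a + 2 := by omega
      simp [c, this]
  have keyf : ∀ i, (a ≤ i ∧ i < a + 2) → (if i < a then l i else if i < a + 2 then f else l (i - 2)) = f := by
    intro i hi
    have c1 : ¬ i < a := by omega
    simp [c1, hi.2]
  have ne : ∀ i, i < n + 2 → ¬ (a ≤ i ∧ i < a + 2) → a ≤ n →
      (if i < a then l i else if i < a + 2 then f else l (i - 2)) ≠ f := by
    intro i hi hi' ha
    rw [key i hi']
    apply hf
    split_ifs <;> omega
  by_cases c1 : a ≤ i ∧ i < a + 2
  · have c2 : ¬ (a ≤ k ∧ k < a + 2) := by omega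
    exact absurd ((keyf i c1).symm.trans e1).symm (ne k (by omega) c2 ha)
  by_cases c2 : a ≤ k ∧ k < a + 2
  · exact absurd (e1.trans (keyf k c2)) (ne i (by omega) c1 ha)
  by_cases c3 : a ≤ j ∧ j < a + 2
  · have c4 : ¬ (a ≤ m ∧ m < a + 2) := by omega
    exact absurd ((keyf j c3).symm.trans e2).symm (ne m (by omega) c4 ha)
  by_cases c4 : a ≤ m ∧ m < a + 2
  · exact absurd (e2.trans (keyf m c4)) (ne j (by omega) c3 ha)
  rw [key i c1, key k c2] at e1
  rw [key j c3, key m c4] at e2
  rw [key i c1, key j c3]
  refine h _ _ _ _ ?_ ?_ ?_ ?_ e1 e2 <;> split_ifs at * <;> omega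

/-- one source for every label, in function form (the entry 0 is left out) -/
def PsF (S : ℕ → Bool) (l : ℕ → ℕ) (n : ℕ) : Prop :=
  (∀ i j, 0 < i → i < j → j < n → S i = true → S j = true → l i ≠ l j) ∧
    ∀ i, 0 < i → i < n → ∃ j, 0 < j ∧ j < n ∧ S j = true ∧ l j = l i

theorem PsF.uniq {S : ℕ → Bool} {l : ℕ → ℕ} {n : ℕ} (h : PsF S l n) {i j : ℕ} (hi : 0 < i) (hj : 0 < j)
    (hin : i < n) (hjn : j < n) (Si : S i = true) (Sj : S j = true) (e : l i = l j) : i = j := by
  rcases Nat.lt_trichotomy i j with c | c | c
  · exact absurd e (h.1 i j hi c hjn Si Sj)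
  · exact c
  · exact absurd e.symm (h.1 j i hj c hin Sj Si)

/-- copy the label of the source b to its neighbour a -/
theorem ps_copy {S : ℕ → Bool} {l : ℕ → ℕ} {n : ℕ} (h : PsF S l n) (a b : ℕ) (hb : 0 < b) (hbn : b < n)
    (Sb : S b = true) (Sa : S a = false) : PsF S (fun i => if i = a then l b else l i) n := by
  refine ⟨fun i j hi hij hj Si Sj => ?_, fun i hi hin => ?_⟩
  · have n1 : i ≠ a := fun e => by rw [e, Sa] at Si; exact Bool.noConfusion Si
    have n2 : j ≠ a := fun e => by rw [e, Sa] at Sj; exact Bool.noConfusion Sj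
    beta_reduce
    rw [if_neg n1, if_neg n2]
    exact h.1 i j hi hij hj Si Sj
  · beta_reduce
    by_cases c : i = a
    · have : b ≠ a := fun e => by rw [e, Sa] at Sb; exact Bool.noConfusion Sb
      exact ⟨b, hb, hbn, Sb, by rw [if_pos c, if_neg this]⟩
    · obtain ⟨j, h1, h2, h3, h4⟩ := h.2 i hi hin
      have : j ≠ a := fun e => by rw [e, Sa] at h3; exact Bool.noConfusion h3
      exact ⟨j, h1, h2, h3, by rw [if_neg this, if_neg c, h4]⟩

/-- cut the class of the source a: its other points join the class of b, a gets a new label -/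
theorem ps_cut {S : ℕ → Bool} {l : ℕ → ℕ} {n : ℕ} (h : PsF S l n) (a b f : ℕ) (ha : 0 < a) (han : a < n)
    (hb : 0 < b) (hbn : b < n) (Sa : S a = true) (hne : l a ≠ l b) (hf : ∀ i < n, l i ≠ f) :
    PsF S (fun i => if i = a then f else if l i = l a then l b else l i) n := by
  have hf' : ∀ i < n, (if l i = l a then l b else l i) ≠ f := by
    intro i hi
    split_ifs
    · exact hf b hbn
    · exact hf i hi
  refine ⟨fun i j hi hij hj Si Sj => ?_, fun i hi hin => ?_⟩
  · beta_reduce
    by_cases c1 : i = a
    · rw [if_pos c1, if_neg (by omega)]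
      exact (hf' j hj).symm
    · by_cases c2 : j = a
      · rw [if_neg c1, if_pos c2]
        exact hf' i (by omega)
      · have n1 : l i ≠ l a := fun e => c1 (h.uniq hi ha (by omega) han Si Sa e)
        have n2 : l j ≠ l a := fun e => c2 (h.uniq (by omega) ha (by omega) han Sj Sa e)
        rw [if_neg c1, if_neg c2, if_neg n1, if_neg n2]
        exact h.1 i j hi hij hj Si Sj
  · beta_reduce
    by_cases c1 : i = a
    · exact ⟨a, ha, han, Sa, by rw [if_pos rfl, if_pos c1]⟩
    · rw [if_neg c1]
      by_cases c2 : l i = l a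
      · rw [if_pos c2]
        obtain ⟨j, h1, h2, h3, h4⟩ := h.2 b hb hbn
        have n1 : j ≠ a := fun e => hne (by rw [← e, h4])
        have n2 : l j ≠ l a := by rw [h4]; exact hne.symm
        exact ⟨j, h1, h2, h3, by rw [if_neg n1, if_neg n2, h4]⟩
      · rw [if_neg c2]
        obtain ⟨j, h1, h2, h3, h4⟩ := h.2 i hi hin
        have n1 : j ≠ a := fun e => c2 (by rw [← h4, e])
        have n2 : l j ≠ l a := by rw [h4]; exact c2
        exact ⟨j, h1, h2, h3, by rw [if_neg n1, if_neg n2, h4]⟩

/-- a cup: the points a, a + 1 disappear and their labels are identified -/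
theorem ps_cup {S : ℕ → Bool} {l : ℕ → ℕ} {n : ℕ} (hS : ∀ i, S (i + 1) = !S i) (h : PsF S l n) (a : ℕ) (ha : 0 < a)
    (han : a + 1 < n) (hne : l a ≠ l (a + 1)) :
    PsF S (fun i => if i < a then (if l i = l a then l (a + 1) else l i)
      else (if l (i + 2) = l a then l (a + 1) else l (i + 2))) (n - 2) := by
  have hS2 : ∀ i, S (i + 2) = S i := fun i => by rw [hS, hS, Bool.not_not]
  have key : ∀ i, (if i < a then (if l i = l a then l (a + 1) else l i)
      else (if l (i + 2) = l a then l (a + 1) else l (i + 2))) =
      (if l (if i < a then i else i + 2) = l a then l (a + 1) else l (if i < a then i else i + 2)) := by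
    intro i; by_cases c : i < a <;> simp [c]
  have hSk : ∀ i, S (if i < a then i else i + 2) = S i := by
    intro i; by_cases c : i < a <;> simp [c, hS2]
  -- sources that stay, in terms of the old indices
  have back : ∀ j, 0 < j → j < n → j ≠ a → j ≠ a + 1 → ∃ i, 0 < i ∧ i < n - 2 ∧ (if i < a then i else i + 2) = j := by
    intro j h1 h2 h3 h4
    by_cases c : j < a
    · exact ⟨j, h1, by omega, by rw [if_pos c]⟩
    · exact ⟨j - 2, by omega, by omega, by rw [if_neg (by omega)]; omega⟩
  by_cases Sa : S a = true
  · have Sb : S (a + 1) = false := by rw [hS, Sa]; rfl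
    refine ⟨fun i j hi hij hj Si Sj => ?_, fun i hi hin => ?_⟩
    · beta_reduce
      rw [key, key]
      rw [← hSk] at Si Sj
      have m1 : (if i < a then i else i + 2) < (if j < a then j else j + 2) := by split_ifs <;> omega
      have m2 : (if j < a then j else j + 2) < n := by split_ifs <;> omega
      have m3 : 0 < (if i < a then i else i + 2) := by split_ifs <;> omega
      have m4 : (if i < a then i else i + 2) ≠ a := by split_ifs <;> omega
      have m5 : (if j < a then j else j + 2) ≠ a := by split_ifs <;> omega
      generalize (if i < a then i else i + 2) = i' at *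
      generalize (if j < a then j else j + 2) = j' at *
      have n1 : l i' ≠ l a := fun e => m4 (h.uniq m3 ha (by omega) (by omega) Si Sa e)
      have n2 : l j' ≠ l a := fun e => m5 (h.uniq (by omega) ha (by omega) (by omega) Sj Sa e)
      rw [if_neg n1, if_neg n2]
      exact h.1 i' j' m3 m1 m2 Si Sj
    · beta_reduce
      simp only [key]
      have m2 : (if i < a then i else i + 2) < n := by split_ifs <;> omega
      have m3 : 0 < (if i < a then i else i + 2) := by split_ifs <;> omega
      generalize (if i < a then i else i + 2) = i' at *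
      by_cases c : l i' = l a
      · rw [if_pos c]
        obtain ⟨j, h1, h2, h3, h4⟩ := h.2 (a + 1) (by omega) han
        have n1 : j ≠ a := fun e => hne (by rw [e] at h4; exact h4)
        have n2 : j ≠ a + 1 := fun e => by rw [e, Sb] at h3; exact Bool.noConfusion h3
        obtain ⟨j0, b1, b2, b3⟩ := back j h1 h2 n1 n2
        refine ⟨j0, b1, b2, by rw [← hSk, b3, h3], ?_⟩
        rw [b3, if_neg (by rw [h4]; exact hne.symm), h4]
      · rw [if_neg c]
        obtain ⟨j, h1, h2, h3, h4⟩ := h.2 i' m3 m2
        have n1 : j ≠ a := fun e => c (by rw [← h4, e])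
        have n2 : j ≠ a + 1 := fun e => by rw [e, Sb] at h3; exact Bool.noConfusion h3
        obtain ⟨j0, b1, b2, b3⟩ := back j h1 h2 n1 n2
        refine ⟨j0, b1, b2, by rw [← hSk, b3, h3], ?_⟩
        rw [b3, if_neg (by rw [h4]; exact c), h4]
  · have Sa' : S a = false := by simpa using Sa
    have Sb : S (a + 1) = true := by rw [hS, Sa']; rfl
    refine ⟨fun i j hi hij hj Si Sj => ?_, fun i hi hin => ?_⟩
    · beta_reduce
      rw [key, key]
      rw [← hSk] at Si Sj
      have m1 : (if i < a then i else i + 2) < (if j < a then j else j + 2) := by split_ifs <;> omega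
      have m2 : (if j < a then j else j + 2) < n := by split_ifs <;> omega
      have m3 : 0 < (if i < a then i else i + 2) := by split_ifs <;> omega
      have m4 : (if i < a then i else i + 2) ≠ a + 1 := by split_ifs <;> omega
      have m5 : (if j < a then j else j + 2) ≠ a + 1 := by split_ifs <;> omega
      generalize (if i < a then i else i + 2) = i' at *
      generalize (if j < a then j else j + 2) = j' at *
      have n1 : l i' ≠ l (a + 1) := fun e => m4 (h.uniq m3 (by omega) (by omega) (by omega) Si Sb e)
      have n2 : l j' ≠ l (a + 1) := fun e => m5 (h.uniq (by omega) (by omega) (by omega) (by omega) Sj Sb e)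
      have n3 := h.1 i' j' m3 m1 m2 Si Sj
      by_cases c1 : l i' = l a
      · rw [if_pos c1, if_neg (by rw [← c1]; exact n3.symm)]
        exact n2.symm
      · rw [if_neg c1]
        by_cases c2 : l j' = l a
        · rw [if_pos c2]
          exact n1
        · rw [if_neg c2]
          exact n3
    · beta_reduce
      simp only [key]
      have m2 : (if i < a then i else i + 2) < n := by split_ifs <;> omega
      have m3 : 0 < (if i < a then i else i + 2) := by split_ifs <;> omega
      generalize (if i < a then i else i + 2) = i' at *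
      by_cases c : l i' = l a ∨ l i' = l (a + 1)
      · have e0 : (if l i' = l a then l (a + 1) else l i') = l (a + 1) := by
          rcases c with c | c
          · rw [if_pos c]
          · rw [c]; split_ifs <;> rfl
        rw [e0]
        obtain ⟨j, h1, h2, h3, h4⟩ := h.2 a ha (by omega)
        have n1 : j ≠ a := fun e => by rw [e, Sa'] at h3; exact Bool.noConfusion h3
        have n2 : j ≠ a + 1 := fun e => hne (by rw [← h4, e])
        obtain ⟨j0, b1, b2, b3⟩ := back j h1 h2 n1 n2
        refine ⟨j0, b1, b2, by rw [← hSk, b3, h3], ?_⟩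
        rw [b3, if_pos h4]
      · have c1 : l i' ≠ l a := fun e => c (Or.inl e)
        have c2 : l i' ≠ l (a + 1) := fun e => c (Or.inr e)
        rw [if_neg c1]
        obtain ⟨j, h1, h2, h3, h4⟩ := h.2 i' m3 m2
        have n1 : j ≠ a := fun e => c1 (by rw [← h4, e])
        have n2 : j ≠ a + 1 := fun e => c2 (by rw [← h4, e])
        obtain ⟨j0, b1, b2, b3⟩ := back j h1 h2 n1 n2
        refine ⟨j0, b1, b2, by rw [← hSk, b3, h3], ?_⟩
        rw [b3, if_neg (by rw [h4]; exact c1), h4]

/-- a cap: two new points a, a + 1 with a new label -/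
theorem ps_cap {S : ℕ → Bool} {l : ℕ → ℕ} {n : ℕ} (hS : ∀ i, S (i + 1) = !S i) (h : PsF S l n) (a f : ℕ) (ha : 0 < a)
    (han : a ≤ n) (hf : ∀ i < n, l i ≠ f) :
    PsF S (fun i => if i < a then l i else if i < a + 2 then f else l (i - 2)) (n + 2) := by
  have hS2 : ∀ i, S (i + 2) = S i := fun i => by rw [hS, hS, Bool.not_not]
  have old : ∀ i, ¬ (a ≤ i ∧ i < a + 2) → (if i < a then l i else if i < a + 2 then f else l (i - 2)) =
      l (if i < a then i else i - 2) := by
    intro i hi
    by_cases c : i < a
    · simp [c]
    · have : ¬ i < a + 2 := by omega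
      simp [c, this]
  have new : ∀ i, (a ≤ i ∧ i < a + 2) → (if i < a then l i else if i < a + 2 then f else l (i - 2)) = f := by
    intro i hi
    have c1 : ¬ i < a := by omega
    simp [c1, hi.2]
  have hSk : ∀ i, ¬ (a ≤ i ∧ i < a + 2) → S (if i < a then i else i - 2) = S i := by
    intro i hi
    by_cases c : i < a
    · simp [c]
    · rw [if_neg c]
      have e : i = (i - 2) + 2 := by omega
      conv_rhs => rw [e]
      rw [hS2]
  have ne : ∀ i, i < n + 2 → ¬ (a ≤ i ∧ i < a + 2) →
      (if i < a then l i else if i < a + 2 then f else l (i - 2)) ≠ f := by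
    intro i hi hi'
    rw [old i hi']
    apply hf
    split_ifs <;> omega
  refine ⟨fun i j hi hij hj Si Sj => ?_, fun i hi hin => ?_⟩
  · beta_reduce
    by_cases c1 : a ≤ i ∧ i < a + 2
    · by_cases c2 : a ≤ j ∧ j < a + 2
      · exfalso
        have e1 : i = a := by omega
        have e2 : j = a + 1 := by omega
        rw [e2, hS, ← e1, Si] at Sj
        exact Bool.noConfusion Sj
      · rw [new i c1]
        exact (ne j hj c2).symm
    · by_cases c2 : a ≤ j ∧ j < a + 2
      · rw [new j c2]
        exact ne i (by omega) c1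
      · rw [old i c1, old j c2]
        rw [← hSk i c1] at Si
        rw [← hSk j c2] at Sj
        refine h.1 _ _ ?_ ?_ ?_ Si Sj <;> split_ifs <;> omega
  · beta_reduce
    by_cases c1 : a ≤ i ∧ i < a + 2
    · rw [new i c1]
      cases hSa : S a
      · exact ⟨a + 1, by omega, by omega, by rw [hS, hSa]; rfl, new _ (by omega)⟩
      · exact ⟨a, ha, by omega, hSa, new _ (by omega)⟩
    · rw [old i c1]
      obtain ⟨j, h1, h2, h3, h4⟩ := h.2 (if i < a then i else i - 2) (by split_ifs <;> omega) (by split_ifs <;> omega)
      refine ⟨if j < a then j else j + 2, by split_ifs <;> omega, by split_ifs <;> omega, ?_, ?_⟩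
      · by_cases c : j < a
        · rw [if_pos c, h3]
        · rw [if_neg c, hS2, h3]
      · rw [old _ (by split_ifs <;> omega), ← h4]
        congr 1
        by_cases c : j < a
        · simp [c]
        · have : ¬ j + 2 < a := by omega
          simp [c, this]

theorem parq_succ (q : Bool) (k : ℕ) : parq q (k + 1) = !parq q k := by
  unfold parq
  have h1 := Nat.mod_two_eq_zero_or_one k
  rcases h1 with h1 | h1 <;> cases q <;> simp [Nat.add_mod, h1]

/-- is the entry i of a label list a source -/
def src (q : Bool) (i : ℕ) : Bool := !parq q i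

theorem src_succ (q : Bool) (i : ℕ) : src q (i + 1) = !src q i := by
  unfold src; rw [parq_succ]

theorem mem_srcs (b : Bool) (l : List ℕ) (x : ℕ) :
    x ∈ srcs b l ↔ ∃ r, r < l.length ∧ (decide (r % 2 = 0) = b) ∧ l.getD r 0 = x := by
  induction l generalizing b with
  | nil => cases b <;> simp [srcs]
  | cons a l ih =>
    have par1 : ∀ r, decide ((r + 1) % 2 = 0) = !decide (r % 2 = 0) := by
      intro r
      rcases Nat.mod_two_eq_zero_or_one r with h | h <;> simp [Nat.add_mod, h]
    cases b
    · rw [srcs, ih]
      constructor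
      · rintro ⟨r, h1, h2, h3⟩
        exact ⟨r + 1, by simpa using h1, by rw [par1, h2]; rfl, by simpa using h3⟩
      · rintro ⟨r, h1, h2, h3⟩
        rcases r with _ | r
        · simp at h2
        · rw [par1] at h2
          exact ⟨r, by simpa using h1, by simpa using h2, by simpa using h3⟩
    · rw [srcs, List.mem_cons, ih]
      constructor
      · rintro (rfl | ⟨r, h1, h2, h3⟩)
        · exact ⟨0, by simp, by simp, by simp⟩
        · exact ⟨r + 1, by simpa using h1, by rw [par1, h2]; rfl, by simpa using h3⟩
      · rintro ⟨r, h1, h2, h3⟩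
        rcases r with _ | r
        · left; simpa using h3.symm
        · right
          rw [par1] at h2
          exact ⟨r, by simpa using h1, by simpa using h2, by simpa using h3⟩

theorem nodup_srcs (b : Bool) (l : List ℕ) :
    (srcs b l).Nodup ↔ ∀ i j, i < j → j < l.length → decide (i % 2 = 0) = b → decide (j % 2 = 0) = b →
      l.getD i 0 ≠ l.getD j 0 := by
  induction l generalizing b with
  | nil => cases b <;> simp [srcs]
  | cons a l ih =>
    have par1 : ∀ r, decide ((r + 1) % 2 = 0) = !decide (r % 2 = 0) := by
      intro r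
      rcases Nat.mod_two_eq_zero_or_one r with h | h <;> simp [Nat.add_mod, h]
    cases b
    · rw [srcs, ih]
      constructor
      · intro h i j hij hj h1 h2
        rcases i with _ | i
        · simp at h1
        rcases j with _ | j
        · omega
        rw [par1] at h1 h2
        simpa using h i j (by omega) (by simpa using hj) (by simpa using h1) (by simpa using h2)
      · intro h i j hij hj h1 h2
        have := h (i + 1) (j + 1) (by omega) (by simpa using hj) (by rw [par1, h1]; rfl) (by rw [par1, h2]; rfl)
        simpa using this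
    · rw [srcs, List.nodup_cons, ih, mem_srcs]
      constructor
      · rintro ⟨h0, h⟩ i j hij hj h1 h2
        rcases j with _ | j
        · omega
        rw [par1] at h2
        rcases i with _ | i
        · intro e
          apply h0
          exact ⟨j, by simpa using hj, by simpa using h2, by simpa using e.symm⟩
        · rw [par1] at h1
          simpa using h i j (by omega) (by simpa using hj) (by simpa using h1) (by simpa using h2)
      · intro h
        refine ⟨?_, fun i j hij hj h1 h2 => ?_⟩
        · rintro ⟨r, h1, h2, h3⟩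
          have := h 0 (r + 1) (by omega) (by simpa using h1) (by simp) (by rw [par1, h2]; rfl)
          exact this (by simpa using h3.symm)
        · have := h (i + 1) (j + 1) (by omega) (by simpa using hj) (by rw [par1, h1]; rfl) (by rw [par1, h2]; rfl)
          simpa using this

theorem dec_src (q : Bool) (r : ℕ) : (decide (r % 2 = 0) = !q) ↔ src q (r + 1) = true := by
  rw [src_succ]; unfold src parq
  rcases Nat.mod_two_eq_zero_or_one r with h | h <;> cases q <;> simp [h]

theorem getD_tail (L : List ℕ) (i : ℕ) : L.tail.getD i 0 = L.getD (i + 1) 0 := by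
  cases L <;> simp

theorem ps_iff (q : Bool) (L : List ℕ) : Ps (!q) L.tail ↔ PsF (src q) (fun i => L.getD i 0) L.length := by
  unfold Ps PsF
  rw [nodup_srcs]
  constructor
  · rintro ⟨h1, h2⟩
    refine ⟨fun i j hi hij hj Si Sj => ?_, fun i hi hin => ?_⟩
    · rcases i with _ | i
      · omega
      rcases j with _ | j
      · omega
      have := h1 i j (by omega) (by rw [List.length_tail]; omega) ((dec_src q i).mpr Si) ((dec_src q j).mpr Sj)
      simpa only [getD_tail] using this
    · rcases i with _ | i
      · omega
      have hm : L.tail.getD i 0 ∈ L.tail := by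
        rw [List.getD_eq_getElem _ _ (by rw [List.length_tail]; omega)]
        exact List.getElem_mem _
      obtain ⟨r, a1, a2, a3⟩ := (mem_srcs _ _ _).mp (h2 _ hm)
      rw [List.length_tail] at a1
      exact ⟨r + 1, by omega, by omega, (dec_src q r).mp a2, by simpa only [getD_tail] using a3⟩
  · rintro ⟨h1, h2⟩
    refine ⟨fun i j hij hj Si Sj => ?_, fun x hx => ?_⟩
    · rw [List.length_tail] at hj
      have := h1 (i + 1) (j + 1) (by omega) (by omega) (by omega) ((dec_src q i).mp Si) ((dec_src q j).mp Sj)
      simpa only [getD_tail] using this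
    · obtain ⟨i, hi, rfl⟩ := List.getElem_of_mem hx
      rw [List.length_tail] at hi
      obtain ⟨j, a1, a2, a3, a4⟩ := h2 (i + 1) (by omega) (by omega)
      rw [mem_srcs]
      rcases j with _ | j
      · omega
      refine ⟨j, by rw [List.length_tail]; omega, (dec_src q j).mpr a3, ?_⟩
      rw [getD_tail]
      beta_reduce at a4
      rw [a4, ← getD_tail, List.getD_eq_getElem]

theorem hl_iff (L : List ℕ) (h : L ≠ []) : L.head? = L.getLast? ↔ L.getD 0 0 = L.getD (L.length - 1) 0 := by
  have hp : 0 < L.length := List.length_pos_iff.mpr h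
  rw [List.head?_eq_getElem?, List.getLast?_eq_getElem?, List.getD_eq_getElem _ _ hp,
    List.getD_eq_getElem _ _ (by omega), List.getElem?_eq_getElem hp, List.getElem?_eq_getElem (by omega)]
  simp

/-- the well-formedness in function form -/
def LF (q : Bool) (l : ℕ → ℕ) (n : ℕ) : Prop := PsF (src q) l n ∧ NCf l n ∧ l 0 = l (n - 1)

theorem lok_iff (q : Bool) (L : List ℕ) (h : L ≠ []) : LOK q L ↔ LF q (fun i => L.getD i 0) L.length := by
  constructor
  · rintro ⟨h1, h2, h3⟩
    exact ⟨(ps_iff q L).mp h1, h2, (hl_iff L h).mp h3⟩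
  · rintro ⟨h1, h2, h3⟩
    exact ⟨(ps_iff q L).mpr h1, h2, (hl_iff L h).mpr h3⟩

theorem lf_congr {q : Bool} {l l' : ℕ → ℕ} {n n' : ℕ} (hn : n = n') (h : ∀ i < n, l i = l' i) (hp : 0 < n)
    (hl : LF q l n) : LF q l' n' := by
  subst hn
  obtain ⟨⟨a1, a2⟩, a3, a4⟩ := hl
  refine ⟨⟨fun i j hi hij hj Si Sj => ?_, fun i hi hin => ?_⟩, fun i j k m h1 h2 h3 h4 e1 e2 => ?_, ?_⟩
  · rw [← h i (by omega), ← h j hj]; exact a1 i j hi hij hj Si Sj
  · obtain ⟨j, b1, b2, b3, b4⟩ := a2 i hi hin
    exact ⟨j, b1, b2, b3, by rw [← h j b2, ← h i hin, b4]⟩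
  · rw [← h i (by omega), ← h k (by omega)] at e1
    rw [← h j (by omega), ← h m h4] at e2
    rw [← h i (by omega), ← h j (by omega)]
    exact a3 i j k m h1 h2 h3 h4 e1 e2
  · rw [← h 0 hp, ← h (n - 1) (by omega), a4]

theorem lt_fresh {L : List ℕ} {x : ℕ} (hx : x ∈ L) : x < fresh L := by
  unfold fresh
  induction L with
  | nil => simp at hx
  | cons a L ih =>
    rw [List.foldr_cons]
    rcases List.mem_cons.mp hx with rfl | hx
    · exact Nat.lt_succ_of_le (le_max_left _ _)
    · exact lt_of_lt_of_le (ih hx) (Nat.succ_le_succ (le_max_right _ _))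

theorem getD_ne_fresh (L : List ℕ) (i : ℕ) (hi : i < L.length) : L.getD i 0 ≠ fresh L := by
  rw [List.getD_eq_getElem _ _ hi]
  exact (lt_fresh (List.getElem_mem hi)).ne

theorem getD_append' (A B : List ℕ) (i : ℕ) :
    (A ++ B).getD i 0 = if i < A.length then A.getD i 0 else B.getD (i - A.length) 0 := by
  split_ifs with h
  · exact List.getD_append _ _ _ _ h
  · exact List.getD_append_right _ _ _ _ (not_lt.mp h)

theorem getD_map' (f : ℕ → ℕ) (A : List ℕ) (i : ℕ) (h : i < A.length) : (A.map f).getD i 0 = f (A.getD i 0) := by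
  rw [List.getD_eq_getElem _ _ (by simpa using h), List.getD_eq_getElem _ _ h, List.getElem_map]

theorem getD_take' (L : List ℕ) (a i : ℕ) (h : i < a) : (L.take a).getD i 0 = L.getD i 0 := by
  simp [List.getD_eq_getElem?_getD, h]

theorem getD_drop' (L : List ℕ) (a i : ℕ) : (L.drop a).getD i 0 = L.getD (a + i) 0 := by
  simp [List.getD_eq_getElem?_getD, List.getElem?_drop]

theorem ren_len (u v : ℕ) (A : List ℕ) : (ren u v A).length = A.length := by simp [ren]

theorem getD_mid (A B : List ℕ) (x y a i : ℕ) (ha : A.length = a) :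
    (A ++ x :: y :: B).getD i 0 =
      if i < a then A.getD i 0 else if i = a then x else if i = a + 1 then y else B.getD (i - a - 2) 0 := by
  rw [getD_append', ha]
  by_cases h1 : i < a
  · rw [if_pos h1, if_pos h1]
  · rw [if_neg h1, if_neg h1]
    by_cases h2 : i = a
    · rw [if_pos h2, h2]; simp
    · rw [if_neg h2]
      by_cases h3 : i = a + 1
      · rw [if_pos h3, h3]; simp
      · rw [if_neg h3]
        obtain ⟨d, rfl⟩ : ∃ d, i = a + 2 + d := ⟨i - a - 2, by omega⟩
        have e1 : a + 2 + d - a = d + 2 := by omega
        have e2 : a + 2 + d - a - 2 = d := by omega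
        rw [e1]
        simp

/-- the split of a list at a piece -/
theorem drop_two (L : List ℕ) (a : ℕ) (h : a + 2 ≤ L.length) :
    ∃ u v R, L.drop a = u :: v :: R ∧ L.getD a 0 = u ∧ L.getD (a + 1) 0 = v ∧
      (∀ i, R.getD i 0 = L.getD (a + 2 + i) 0) ∧ R.length = L.length - a - 2 := by
  have hlen : (L.drop a).length = L.length - a := List.length_drop
  rcases hd : L.drop a with _ | ⟨u, _ | ⟨v, R⟩⟩
  · rw [hd] at hlen; simp at hlen; omega
  · rw [hd] at hlen; simp at hlen; omega
  · refine ⟨u, v, R, rfl, ?_, ?_, ?_, ?_⟩
    · have := getD_drop' L a 0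
      rw [hd] at this
      simpa using this.symm
    · have := getD_drop' L a 1
      rw [hd] at this
      simpa using this.symm
    · intro i
      have := getD_drop' L a (i + 2)
      rw [hd] at this
      rw [show a + 2 + i = a + (i + 2) by omega, ← this]
      simp
    · rw [hd] at hlen
      simp at hlen
      omega

end RC

open RC in
/-- ROW C1: the labels of a piece are well formed. The list has n + 2 entries on the side of L. -/
theorem lok_step (q : Bool) (p : Piece) (c : Bool) (L L' : List ℕ) (h : LOK q L) (hs : labStep q p c L = some L')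
    (hn : L.length % 2 = 1)
    (hfit : match p with
      | .cross k _ => k + 4 ≤ L.length
      | .cup k _ => k + 4 ≤ L.length
      | .cap k _ => k + 2 ≤ L.length) : LOK q L' := by
  have hL : L ≠ [] := by rintro rfl; simp at hn
  obtain ⟨hp, hnc, hl⟩ := (lok_iff q L hL).mp h
  have hfr : ∀ i < L.length, L.getD i 0 ≠ fresh L := fun i hi => getD_ne_fresh L i hi
  cases p with
  | cross k e =>
    replace hfit : k + 4 ≤ L.length := hfit
    obtain ⟨u, v, R, hd, hu, hv, hR, hRl⟩ := drop_two L (k + 1) (by omega)
    have hlt : (L.take (k + 1)).length = k + 1 := by rw [List.length_take]; omega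
    simp only [labStep, pos, hd] at hs
    by_cases hpar : parq q k = true
    · have S1 : src q (k + 1) = true := by rw [src_succ]; unfold src; rw [hpar]; rfl
      have S2 : src q (k + 1 + 1) = false := by rw [src_succ, S1]; rfl
      rw [if_pos hpar] at hs
      cases c
      · simp only [Bool.false_eq_true, if_false] at hs
        split_ifs at hs with huv
        have hL' := (Option.some.inj hs).symm
        subst hL'
        have hne : L.getD (k + 1) 0 ≠ L.getD (k + 1 + 1) 0 := by rw [hu, hv]; exact huv
        refine (lok_iff q _ (by simp)).mpr ?_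
        have base : LF q (fun i => if i = k + 1 then fresh L else
            if L.getD i 0 = L.getD (k + 1) 0 then L.getD (k + 1 + 1) 0 else L.getD i 0) L.length := by
          refine ⟨ps_cut hp (k + 1) (k + 1 + 1) (fresh L) (by omega) (by omega) (by omega) (by omega) S1 hne hfr,
            nc_fresh (nc_merge hnc _ _ (k + 1) (k + 1 + 1) (Or.inl rfl) (by omega) (by omega) rfl rfl) (k + 1)
              (fresh L) ?_, ?_⟩
          · intro i hi
            beta_reduce
            split_ifs
            · exact hfr _ (by omega)
            · exact hfr i hi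
          · beta_reduce
            beta_reduce at hl
            rw [if_neg (show (0 : ℕ) ≠ k + 1 by omega), if_neg (show L.length - 1 ≠ k + 1 by omega), hl]
        refine lf_congr ?_ ?_ (by omega) base
        · rw [List.length_append, List.length_cons, List.length_cons, ren_len, ren_len, hlt, hRl]; omega
        · intro i hi
          rw [getD_mid _ _ _ _ (k + 1) i (by rw [ren_len, hlt])]
          by_cases c1 : i < k + 1
          · rw [if_pos c1, if_neg (by omega), ren, getD_map' _ _ _ (by rw [hlt]; exact c1), getD_take' _ _ _ c1,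
              hu, hv]
          · rw [if_neg c1]
            by_cases c2 : i = k + 1
            · rw [if_pos c2, if_pos c2]
            · rw [if_neg c2, if_neg c2]
              by_cases c3 : i = k + 1 + 1
              · rw [if_pos c3, c3, if_neg (fun e => hne e.symm), hv]
              · rw [if_neg c3, ren, getD_map' _ _ _ (by omega), hR, hu, hv,
                  show k + 1 + 2 + (i - (k + 1) - 2) = i by omega]
      · simp only [if_true] at hs
        have hL' := (Option.some.inj hs).symm
        subst hL'
        refine (lok_iff q _ (by simp)).mpr ?_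
        have base : LF q (fun i => if i = k + 1 + 1 then L.getD (k + 1) 0 else L.getD i 0) L.length := by
          refine ⟨ps_copy hp (k + 1 + 1) (k + 1) (by omega) (by omega) S1 S2,
            nc_copy hnc (k + 1 + 1) (k + 1) (Or.inr rfl) (by omega), ?_⟩
          beta_reduce
          rw [if_neg (by omega), if_neg (by omega)]
          exact hl
        refine lf_congr ?_ ?_ (by omega) base
        · simp [hRl, hlt]; omega
        · intro i hi
          rw [getD_mid _ _ _ _ (k + 1) i hlt]
          by_cases c1 : i < k + 1
          · rw [if_pos c1, if_neg (by omega), getD_take' _ _ _ c1]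
          · rw [if_neg c1]
            by_cases c2 : i = k + 1
            · rw [if_pos c2, c2, if_neg (by omega), hu]
            · rw [if_neg c2]
              by_cases c3 : i = k + 1 + 1
              · rw [if_pos c3, if_pos c3, hu]
              · rw [if_neg c3, if_neg c3, hR, show k + 1 + 2 + (i - (k + 1) - 2) = i by omega]
    · have hpar' : parq q k = false := by simpa using hpar
      have S1 : src q (k + 1) = false := by rw [src_succ]; unfold src; rw [hpar']; rfl
      have S2 : src q (k + 1 + 1) = true := by rw [src_succ, S1]; rfl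
      rw [if_neg hpar] at hs
      cases c
      · simp only [Bool.false_eq_true, if_false] at hs
        split_ifs at hs with huv
        have hL' := (Option.some.inj hs).symm
        subst hL'
        have hne : L.getD (k + 1 + 1) 0 ≠ L.getD (k + 1) 0 := by rw [hu, hv]; exact fun e => huv e.symm
        refine (lok_iff q _ (by simp)).mpr ?_
        have base : LF q (fun i => if i = k + 1 + 1 then fresh L else
            if L.getD i 0 = L.getD (k + 1 + 1) 0 then L.getD (k + 1) 0 else L.getD i 0) L.length := by
          refine ⟨ps_cut hp (k + 1 + 1) (k + 1) (fresh L) (by omega) (by omega) (by omega) (by omega) S2 hne hfr,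
            nc_fresh (nc_merge hnc _ _ (k + 1 + 1) (k + 1) (Or.inr rfl) (by omega) (by omega) rfl rfl) (k + 1 + 1)
              (fresh L) ?_, ?_⟩
          · intro i hi
            beta_reduce
            split_ifs
            · exact hfr _ (by omega)
            · exact hfr i hi
          · beta_reduce
            beta_reduce at hl
            rw [if_neg (show (0 : ℕ) ≠ k + 1 + 1 by omega), if_neg (show L.length - 1 ≠ k + 1 + 1 by omega), hl]
        refine lf_congr ?_ ?_ (by omega) base
        · rw [List.length_append, List.length_cons, List.length_cons, ren_len, ren_len, hlt, hRl]; omega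
        · intro i hi
          rw [getD_mid _ _ _ _ (k + 1) i (by rw [ren_len, hlt])]
          by_cases c1 : i < k + 1
          · rw [if_pos c1, if_neg (by omega), ren, getD_map' _ _ _ (by rw [hlt]; exact c1), getD_take' _ _ _ c1,
              hu, hv]
          · rw [if_neg c1]
            by_cases c2 : i = k + 1
            · rw [if_pos c2, c2, if_neg (by omega), if_neg (fun e => hne e.symm), hu]
            · rw [if_neg c2]
              by_cases c3 : i = k + 1 + 1
              · rw [if_pos c3, if_pos c3]
              · rw [if_neg c3, if_neg c3, ren, getD_map' _ _ _ (by omega), hR, hu, hv,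
                  show k + 1 + 2 + (i - (k + 1) - 2) = i by omega]
      · simp only [if_true] at hs
        have hL' := (Option.some.inj hs).symm
        subst hL'
        refine (lok_iff q _ (by simp)).mpr ?_
        have base : LF q (fun i => if i = k + 1 then L.getD (k + 1 + 1) 0 else L.getD i 0) L.length := by
          refine ⟨ps_copy hp (k + 1) (k + 1 + 1) (by omega) (by omega) S2 S1,
            nc_copy hnc (k + 1) (k + 1 + 1) (Or.inl rfl) (by omega), ?_⟩
          beta_reduce
          rw [if_neg (by omega), if_neg (by omega)]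
          exact hl
        refine lf_congr ?_ ?_ (by omega) base
        · simp [hRl, hlt]; omega
        · intro i hi
          rw [getD_mid _ _ _ _ (k + 1) i hlt]
          by_cases c1 : i < k + 1
          · rw [if_pos c1, if_neg (by omega), getD_take' _ _ _ c1]
          · rw [if_neg c1]
            by_cases c2 : i = k + 1
            · rw [if_pos c2, if_pos c2, hv]
            · rw [if_neg c2, if_neg c2]
              by_cases c3 : i = k + 1 + 1
              · rw [if_pos c3, c3, hv]
              · rw [if_neg c3, hR, show k + 1 + 2 + (i - (k + 1) - 2) = i by omega]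
  | cup k f =>
    replace hfit : k + 4 ≤ L.length := hfit
    obtain ⟨u, v, R, hd, hu, hv, hR, hRl⟩ := drop_two L (k + 1) (by omega)
    have hlt : (L.take (k + 1)).length = k + 1 := by rw [List.length_take]; omega
    simp only [labStep, pos, hd] at hs
    split_ifs at hs with huv
    have hL' := (Option.some.inj hs).symm
    subst hL'
    have hne : L.getD (k + 1) 0 ≠ L.getD (k + 1 + 1) 0 := by rw [hu, hv]; exact huv
    have hne0 : (ren u v (L.take (k + 1)) ++ ren u v R) ≠ [] := by
      intro e
      have := congrArg List.length e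
      rw [List.length_append, ren_len, hlt] at this
      simp at this
    refine (lok_iff q _ hne0).mpr ?_
    have base : LF q (fun i => if i < k + 1 then
        (if L.getD i 0 = L.getD (k + 1) 0 then L.getD (k + 1 + 1) 0 else L.getD i 0)
        else (if L.getD (i + 2) 0 = L.getD (k + 1) 0 then L.getD (k + 1 + 1) 0 else L.getD (i + 2) 0))
        (L.length - 2) := by
      refine ⟨ps_cup (src_succ q) hp (k + 1) (by omega) (by omega) hne,
        nc_del (nc_merge hnc _ _ (k + 1) (k + 1 + 1) (Or.inl rfl) (by omega) (by omega) rfl rfl) (k + 1), ?_⟩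
      beta_reduce
      beta_reduce at hl
      rw [if_pos (show 0 < k + 1 by omega), if_neg (show ¬ L.length - 2 - 1 < k + 1 by omega),
        show L.length - 2 - 1 + 2 = L.length - 1 by omega, hl]
    refine lf_congr ?_ ?_ (by omega) base
    · rw [List.length_append, ren_len, ren_len, hlt, hRl]; omega
    · intro i hi
      rw [getD_append']
      have hl1 : (ren u v (L.take (k + 1))).length = k + 1 := by rw [ren_len, hlt]
      rw [hl1]
      by_cases c1 : i < k + 1
      · rw [if_pos c1, if_pos c1, ren, getD_map' _ _ _ (by rw [hlt]; exact c1), getD_take' _ _ _ c1, hu, hv]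
      · rw [if_neg c1, if_neg c1, ren, getD_map' _ _ _ (by omega), hR, hu, hv,
          show k + 1 + 2 + (i - (k + 1)) = i + 2 by omega]
  | cap k f =>
    replace hfit : k + 2 ≤ L.length := hfit
    have hlt : (L.take (k + 1)).length = k + 1 := by rw [List.length_take]; omega
    have hL' : L' = L.take (k + 1) ++ fresh L :: fresh L :: L.drop (k + 1) := by
      have hs' := hs
      simp only [labStep, pos] at hs'
      exact (Option.some.inj hs').symm
    subst hL'
    refine (lok_iff q _ (by simp)).mpr ?_
    have base : LF q (fun i => if i < k + 1 then L.getD i 0 else if i < k + 1 + 2 then fresh L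
        else L.getD (i - 2) 0) (L.length + 2) := by
      refine ⟨ps_cap (src_succ q) hp (k + 1) (fresh L) (by omega) (by omega) hfr,
        nc_ins hnc (k + 1) (fresh L) (by omega) hfr, ?_⟩
      beta_reduce
      beta_reduce at hl
      rw [if_pos (by omega), if_neg (by omega), if_neg (by omega),
        show L.length + 2 - 1 - 2 = L.length - 1 by omega, hl]
    refine lf_congr ?_ ?_ (by omega) base
    · simp [hlt]; omega
    · intro i hi
      rw [getD_mid _ _ _ _ (k + 1) i hlt]
      by_cases c1 : i < k + 1
      · rw [if_pos c1, if_pos c1, getD_take' _ _ _ c1]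
      · rw [if_neg c1, if_neg c1]
        by_cases c2 : i = k + 1
        · rw [if_pos c2, if_pos (by omega)]
        · rw [if_neg c2]
          by_cases c3 : i = k + 1 + 1
          · rw [if_pos c3, if_pos (by omega)]
          · rw [if_neg c3, if_neg (by omega), getD_drop', show k + 1 + (i - (k + 1) - 2) = i - 2 by omega]

open RC in
/-- ROW C2: the number of labels -/
theorem lok_card (q : Bool) (L : List ℕ) (h : LOK q L) (hn : 3 ≤ L.length) :
    L.toFinset.card = (srcs (!q) L.tail).length := by
  have hL : L ≠ [] := by rintro rfl; simp at hn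
  obtain ⟨h1, h2⟩ := h.ps
  rw [← List.toFinset_card_of_nodup h1]
  congr 1
  ext x
  rw [List.mem_toFinset, List.mem_toFinset]
  constructor
  · intro hx
    rcases List.getElem_of_mem hx with ⟨i, hi, rfl⟩
    rcases i with _ | i
    · have e := (hl_iff L hL).mp h.hl
      rw [List.getD_eq_getElem _ _ (by omega), List.getD_eq_getElem _ _ (by omega)] at e
      rw [e]
      apply h2
      have : L[L.length - 1] = L.tail[L.length - 2]'(by rw [List.length_tail]; omega) := by
        rw [List.getElem_tail]
        congr 1
        omega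
      rw [this]
      exact List.getElem_mem _
    · apply h2
      have : L[i + 1] = L.tail[i]'(by rw [List.length_tail]; omega) := by rw [List.getElem_tail]
      rw [this]
      exact List.getElem_mem _
  · intro hx
    obtain ⟨r, a1, a2, rfl⟩ := (mem_srcs _ _ _).mp hx
    rw [List.getD_eq_getElem _ _ a1]
    exact List.mem_of_mem_tail (List.getElem_mem _)

open RC in
/-- ROW C3: a point that is not a source has its label elsewhere (the source). The point number r (entry r + 1) is a
source iff parq q r. -/
theorem lok_other (q : Bool) (L : List ℕ) (h : LOK q L) (hn : L.length % 2 = 1) (r : ℕ) (hr : r + 1 < L.length)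
    (hp : parq q r = false) : ∃ r', r' ≠ r ∧ r' + 1 < L.length ∧ parq q r' = true ∧
      L.getD (r' + 1) 0 = L.getD (r + 1) 0 := by
  have hL : L ≠ [] := by rintro rfl; simp at hn
  obtain ⟨⟨_, h2⟩, _, _⟩ := (lok_iff q L hL).mp h
  obtain ⟨j, a1, a2, a3, a4⟩ := h2 (r + 1) (by omega) hr
  rcases j with _ | j
  · omega
  have hj : parq q j = true := by
    rw [src_succ] at a3
    unfold src at a3
    simpa using a3
  refine ⟨j, ?_, a2, hj, a4⟩
  rintro rfl
  rw [hp] at hj
  exact Bool.noConfusion hj

theorem labs_nil_lok (q : Bool) : LOK q [0, 0, 0] := by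
  refine ⟨?_, ?_, rfl⟩
  · cases q
    · exact ⟨by decide, by decide⟩
    · exact ⟨by decide, by decide⟩
  · intro i j k m h1 h2 h3 h4
    simp at h4
    omega

end LG3P
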