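import Pool.Agent.Lib.MP_3cd99b_gt.L3

/-!
The steps of the bridge on the level of connectivity.
-/

namespace LG3P
open LG3

/-- rename one label -/
def rn (u v x : ℕ) : ℕ := if x = u then v else x

theorem ren_eq (u v : ℕ) (L : List ℕ) : ren u v L = L.map (rn u v) := rfl

theorem edges_cons (a b : ℕ) (l : List ℕ) (c : Bool) (C : List Bool) :
    edges (a :: b :: l) (c :: C) = (if c then [(a, b)] else []) ++ edges (b :: l) C := rfl

theorem edges_split : ∀ (X : List ℕ) (Y : List Bool) (a : ℕ) (R : List ℕ) (C : List Bool), X.length = Y.length →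
    edges (X ++ a :: R) (Y ++ C) = edges (X ++ [a]) Y ++ edges (a :: R) C := by
  intro X
  induction X with
  | nil =>
    intro Y a R C h
    have : Y = [] := List.length_eq_zero_iff.mp h.symm
    subst this
    simp [edges]
  | cons x X ih =>
    intro Y a R C h
    match Y, h with
    | c :: Y, h =>
      have h' : X.length = Y.length := by simpa using h
      match X, ih, h' with
      | [], ih, h' =>
        have : Y = [] := List.length_eq_zero_iff.mp h'.symm
        subst this
        simp [edges]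
      | x' :: X, ih, h' =>
        have := ih Y a R C h'
        simp only [List.cons_append] at this ⊢
        rw [edges_cons, edges_cons, this, List.append_assoc]

theorem edges_ren (u v : ℕ) : ∀ (L : List ℕ) (C : List Bool),
    edges (ren u v L) C = (edges L C).map fun e => (rn u v e.1, rn u v e.2) := by
  intro L
  induction L with
  | nil => intro C; simp [ren, edges]
  | cons a L ih =>
    intro C
    match L, C, ih with
    | [], C, ih => simp [ren, edges]
    | b :: L, [], ih => simp [ren, edges]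
    | b :: L, c :: C, ih =>
      have h := ih C
      simp only [ren_eq, List.map_cons] at h ⊢
      rw [edges_cons, edges_cons, List.map_append, h]
      cases c <;> simp

theorem edges_length : ∀ (L : List ℕ) (C : List Bool), L.length = C.length + 1 → (edges L C).length = cnt C := by
  intro L
  induction L with
  | nil => intro C h; simp at h
  | cons a L ih =>
    intro C h
    match L, C, ih, h with
    | [], [], ih, h => simp [edges, cnt]
    | [], c :: C, ih, h => simp at h
    | b :: L, [], ih, h => simp at h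
    | b :: L, c :: C, ih, h =>
      have h' := ih C (by simpa using h)
      rw [edges_cons, List.length_append, h']
      cases c <;> simp [cnt, add_comm]

theorem mem_edges : ∀ (L : List ℕ) (C : List Bool), ∀ e ∈ edges L C, e.1 ∈ L ∧ e.2 ∈ L := by
  intro L
  induction L with
  | nil => intro C e he; simp [edges] at he
  | cons a L ih =>
    intro C e he
    match L, C, ih, he with
    | [], C, ih, he => simp [edges] at he
    | b :: L, [], ih, he => simp [edges] at he
    | b :: L, c :: C, ih, he =>
      rw [edges_cons, List.mem_append] at he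
      rcases he with he | he
      · cases c
        · simp at he
        · simp only [if_true, List.mem_singleton] at he
          subst he; simp
      · have := ih C e he
        exact ⟨List.mem_cons_of_mem _ this.1, List.mem_cons_of_mem _ this.2⟩

/-- f is constant on the edges -/
def Ok (f : ℕ → Bool) (E : List (ℕ × ℕ)) : Prop := ∀ e ∈ E, f e.1 = f e.2

theorem ok_append (f : ℕ → Bool) (E F : List (ℕ × ℕ)) : Ok f (E ++ F) ↔ Ok f E ∧ Ok f F := by
  unfold Ok
  constructor
  · intro h
    exact ⟨fun e he => h e (List.mem_append_left _ he), fun e he => h e (List.mem_append_right _ he)⟩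
  · rintro ⟨h1, h2⟩ e he
    rcases List.mem_append.mp he with he | he
    · exact h1 e he
    · exact h2 e he

theorem ok_if (f : ℕ → Bool) (c : Bool) (x y : ℕ) :
    Ok f (if c then [(x, y)] else []) ↔ (c = true → f x = f y) := by
  cases c <;> simp [Ok]

theorem ok_map (f : ℕ → Bool) (E : List (ℕ × ℕ)) (u v : ℕ) :
    Ok f (E.map fun e => (rn u v e.1, rn u v e.2)) ↔ Ok (fun x => f (rn u v x)) E := by
  unfold Ok
  constructor
  · intro h e he
    exact h (rn u v e.1, rn u v e.2) (List.mem_map.mpr ⟨e, he, rfl⟩)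
  · intro h e he
    obtain ⟨e', he', rfl⟩ := List.mem_map.mp he
    exact h e' he'

/-- connectivity in a context with four labels -/
theorem con4 (X : List Bool) (Xl : List ℕ) (α u v β : ℕ) (Yl : List ℕ) (a m b : Bool) (Y : List Bool)
    (h : Xl.length = X.length) : Con (Xl ++ α :: u :: v :: β :: Yl) (X ++ a :: m :: b :: Y) ↔
    ∀ f : ℕ → Bool, Ok f (edges (Xl ++ [α]) X) → Ok f (edges (β :: Yl) Y) → (a = true → f α = f u) →
      (m = true → f u = f v) → (b = true → f v = f β) →
      ∀ x ∈ Xl ++ α :: u :: v :: β :: Yl, ∀ y ∈ Xl ++ α :: u :: v :: β :: Yl, f x = f y := by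
  have key : ∀ f : ℕ → Bool, (∀ e ∈ edges (Xl ++ α :: u :: v :: β :: Yl) (X ++ a :: m :: b :: Y), f e.1 = f e.2) ↔
      (Ok f (edges (Xl ++ [α]) X) ∧ (a = true → f α = f u) ∧ (m = true → f u = f v) ∧ (b = true → f v = f β) ∧
        Ok f (edges (β :: Yl) Y)) := by
    intro f
    have : (∀ e ∈ edges (Xl ++ α :: u :: v :: β :: Yl) (X ++ a :: m :: b :: Y), f e.1 = f e.2) ↔
      Ok f (edges (Xl ++ α :: u :: v :: β :: Yl) (X ++ a :: m :: b :: Y)) := Iff.rfl
    rw [this, edges_split Xl X α _ _ h, edges_cons, edges_cons, edges_cons]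
    simp only [ok_append, ok_if]
  constructor
  · intro hc f h1 h2 h3 h4 h5
    exact hc f ((key f).mpr ⟨h1, h3, h4, h5, h2⟩)
  · intro hc f hf
    obtain ⟨h1, h3, h4, h5, h2⟩ := (key f).mp hf
    exact hc f h1 h2 h3 h4 h5

/-- connectivity in a context with two labels -/
theorem con2 (X : List Bool) (Xl : List ℕ) (α β : ℕ) (Yl : List ℕ) (c : Bool) (Y : List Bool)
    (h : Xl.length = X.length) : Con (Xl ++ α :: β :: Yl) (X ++ c :: Y) ↔
    ∀ f : ℕ → Bool, Ok f (edges (Xl ++ [α]) X) → Ok f (edges (β :: Yl) Y) → (c = true → f α = f β) →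
      ∀ x ∈ Xl ++ α :: β :: Yl, ∀ y ∈ Xl ++ α :: β :: Yl, f x = f y := by
  have key : ∀ f : ℕ → Bool, (∀ e ∈ edges (Xl ++ α :: β :: Yl) (X ++ c :: Y), f e.1 = f e.2) ↔
      (Ok f (edges (Xl ++ [α]) X) ∧ (c = true → f α = f β) ∧ Ok f (edges (β :: Yl) Y)) := by
    intro f
    have : (∀ e ∈ edges (Xl ++ α :: β :: Yl) (X ++ c :: Y), f e.1 = f e.2) ↔
      Ok f (edges (Xl ++ α :: β :: Yl) (X ++ c :: Y)) := Iff.rfl
    rw [this, edges_split Xl X α _ _ h, edges_cons]
    simp only [ok_append, ok_if]
  constructor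
  · intro hc f h1 h2 h3
    exact hc f ((key f).mpr ⟨h1, h3, h2⟩)
  · intro hc f hf
    obtain ⟨h1, h3, h2⟩ := (key f).mp hf
    exact hc f h1 h2 h3

theorem ok_ren_left (f : ℕ → Bool) (u v : ℕ) (Xl : List ℕ) (α : ℕ) (X : List Bool) :
    Ok f (edges (ren u v Xl ++ [rn u v α]) X) ↔ Ok (fun x => f (rn u v x)) (edges (Xl ++ [α]) X) := by
  have : ren u v Xl ++ [rn u v α] = ren u v (Xl ++ [α]) := by simp [ren, rn]
  rw [this, edges_ren, ok_map]

theorem ok_ren_right (f : ℕ → Bool) (u v : ℕ) (β : ℕ) (Yl : List ℕ) (Y : List Bool) :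
    Ok f (edges (rn u v β :: ren u v Yl) Y) ↔ Ok (fun x => f (rn u v x)) (edges (β :: Yl) Y) := by
  have : rn u v β :: ren u v Yl = ren u v (β :: Yl) := by simp [ren, rn]
  rw [this, edges_ren, ok_map]

theorem rn_self (u v : ℕ) : rn u v u = v := by simp [rn]
theorem rn_v (u v : ℕ) : rn u v v = v := by unfold rn; split_ifs <;> rfl

/-- if f u = f v the renaming does not change the values -/
theorem f_rn (f : ℕ → Bool) (u v : ℕ) (h : f u = f v) (x : ℕ) : f (rn u v x) = f x := by
  unfold rn
  split_ifs with hx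
  · rw [hx, h]
  · rfl

section
variable {X : List Bool} {Xl : List ℕ} {α u v β : ℕ} {Yl : List ℕ} {a m b : Bool} {Y : List Bool}

/-! ### choice true, strand k a source: labels u u from labels u v -/

theorem ct_fwd0 (h : Xl.length = X.length) (hv : v ∈ Xl ++ α :: u :: u :: β :: Yl)
    (hc : Con (Xl ++ α :: u :: u :: β :: Yl) (X ++ a :: false :: false :: Y)) :
    Con (Xl ++ α :: u :: v :: β :: Yl) (X ++ a :: false :: false :: Y) := by
  rw [con4 _ _ _ _ _ _ _ _ _ _ _ h] at hc ⊢
  intro f h1 h2 h3 h4 h5 x hx y hy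
  have key : ∀ x ∈ Xl ++ α :: u :: v :: β :: Yl, x ∈ Xl ++ α :: u :: u :: β :: Yl := by
    intro x hx
    simp only [List.mem_append, List.mem_cons] at hx hv ⊢
    rcases hx with hx | hx | hx | hx | hx | hx
    · tauto
    · tauto
    · tauto
    · subst hx; tauto
    · tauto
    · tauto
  exact hc f h1 h2 h3 (by simp) (by simp) x (key x hx) y (key y hy)

theorem ct_fwd1 (h : Xl.length = X.length) (hv : v ∈ Xl ++ α :: u :: u :: β :: Yl)
    (hc : Con (Xl ++ α :: u :: u :: β :: Yl) (X ++ a :: false :: true :: Y)) :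
    Con (Xl ++ α :: u :: v :: β :: Yl) (X ++ a :: false :: true :: Y) ∨
      Con (Xl ++ α :: u :: v :: β :: Yl) (X ++ a :: true :: false :: Y) := by
  rw [con4 _ _ _ _ _ _ _ _ _ _ _ h] at hc
  rw [con4 _ _ _ _ _ _ _ _ _ _ _ h, con4 _ _ _ _ _ _ _ _ _ _ _ h]
  by_contra hcon
  push Not at hcon
  obtain ⟨⟨f, f1, f2, f3, -, f5, x, hx, y, hy, hxy⟩, ⟨g, g1, g2, g3, g4, -, x', hx', y', hy', hxy'⟩⟩ := hcon
  have key : ∀ x ∈ Xl ++ α :: u :: v :: β :: Yl, x ∈ Xl ++ α :: u :: u :: β :: Yl := by
    intro x hx
    simp only [List.mem_append, List.mem_cons] at hx hv ⊢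
    rcases hx with hx | hx | hx | hx | hx | hx
    · tauto
    · tauto
    · tauto
    · subst hx; tauto
    · tauto
    · tauto
  have fv : f v = f β := f5 rfl
  have gu : g u = g v := g4 rfl
  have fu : f u ≠ f β := by
    intro hh
    exact hxy (hc f f1 f2 f3 (by simp) (fun _ => hh) x (key x hx) y (key y hy))
  have gb : g u ≠ g β := by
    intro hh
    exact hxy' (hc g g1 g2 g3 (by simp) (fun _ => hh) x' (key x' hx') y' (key y' hy'))
  have hh := hc (fun z => f z ^^ g z) (fun e he => by simp only [f1 e he, g1 e he])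
    (fun e he => by simp only [f2 e he, g2 e he]) (fun ha => by simp only [f3 ha, g3 ha]) (by simp)
    (fun _ => by
      show (f u ^^ g u) = (f β ^^ g β)
      revert fu gb
      cases f u <;> cases f β <;> cases g u <;> cases g β <;> simp) u (by simp) v hv
  replace hh : (f u ^^ g u) = (f v ^^ g v) := hh
  rw [gu, fv] at hh
  apply fu
  revert hh
  cases f u <;> cases f β <;> cases g v <;> simp

end

end LG3P
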