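import Pool.Agent.Lib.MP_3cd99b_gt.L5

/-!
The steps of the bridge on the level of connectivity, continued.
-/

namespace LG3P
open LG3

/-- two values of a function to Bool -/
theorem bxor_eq {p q r s : Bool} (h1 : p ≠ q) (h2 : r ≠ s) : (p ^^ r) = (q ^^ s) := by
  revert h1 h2
  cases p <;> cases q <;> cases r <;> cases s <;> simp

theorem ok_congr (f g : ℕ → Bool) (L : List ℕ) (C : List Bool) (h : ∀ x ∈ L, f x = g x) :
    Ok f (edges L C) ↔ Ok g (edges L C) := by
  unfold Ok
  constructor
  · intro h1 e he
    obtain ⟨a, b⟩ := mem_edges L C e he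
    rw [← h _ a, ← h _ b]; exact h1 e he
  · intro h1 e he
    obtain ⟨a, b⟩ := mem_edges L C e he
    rw [h _ a, h _ b]; exact h1 e he

/-! ### reversal -/

theorem ok_rev (f : ℕ → Bool) : ∀ (L : List ℕ) (C : List Bool), L.length = C.length + 1 →
    (Ok f (edges L.reverse C.reverse) ↔ Ok f (edges L C)) := by
  intro L
  induction L with
  | nil => intro C h; simp at h
  | cons a L ih =>
    intro C h
    match L, C, ih, h with
    | [], [], ih, h => simp [edges, Ok]
    | [], c :: C, ih, h => simp at h
    | b :: L, [], ih, h => simp at h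
    | b :: L, c :: C, ih, h =>
      have hl : L.length = C.length := by simpa using h
      have h1 := ih C (by simp [hl])
      have e1 : (a :: b :: L).reverse = L.reverse ++ b :: [a] := by simp
      have e2 : (c :: C).reverse = C.reverse ++ [c] := by simp
      rw [e1, e2, edges_split L.reverse C.reverse b [a] [c] (by simp [hl]), edges_cons, ok_append, edges_cons,
        ok_append, ok_append, ok_if, ok_if]
      have e3 : L.reverse ++ [b] = (b :: L).reverse := by simp
      rw [e3, h1]
      have e4 : Ok f (edges [a] ([] : List Bool)) := by simp [edges, Ok]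
      constructor
      · rintro ⟨h2, h3, -⟩
        exact ⟨fun hc => (h3 hc).symm, h2⟩
      · rintro ⟨h3, h2⟩
        exact ⟨h2, fun hc => (h3 hc).symm, e4⟩

theorem con_rev (L : List ℕ) (C : List Bool) (h : L.length = C.length + 1) :
    Con L.reverse C.reverse ↔ Con L C := by
  have key : ∀ f : ℕ → Bool, (∀ e ∈ edges L.reverse C.reverse, f e.1 = f e.2) ↔ (∀ e ∈ edges L C, f e.1 = f e.2) :=
    fun f => ok_rev f L C h
  unfold Con
  constructor
  · intro hc f hf u hu v hv
    exact hc f ((key f).mpr hf) u (List.mem_reverse.mpr hu) v (List.mem_reverse.mpr hv)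
  · intro hc f hf u hu v hv
    exact hc f ((key f).mp hf) u (List.mem_reverse.mp hu) v (List.mem_reverse.mp hv)

section
variable {X : List Bool} {Xl : List ℕ} {α u v β ν : ℕ} {Yl : List ℕ} {a m b : Bool} {Y : List Bool}

theorem con4_rev (h : Xl.length = X.length) (h' : Yl.length = Y.length) :
    Con (Yl.reverse ++ β :: v :: u :: α :: Xl.reverse) (Y.reverse ++ b :: m :: a :: X.reverse) ↔
      Con (Xl ++ α :: u :: v :: β :: Yl) (X ++ a :: m :: b :: Y) := by
  rw [← con_rev (Xl ++ α :: u :: v :: β :: Yl) (X ++ a :: m :: b :: Y) (by simp [h, h']; omega)]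
  simp

/-! ### choice true -/

/-- backwards: the marks R and B; hplan is the planar lemma -/
theorem ct_bwd (h : Xl.length = X.length)
    (hv : ∀ x ∈ Xl ++ α :: u :: u :: β :: Yl, x ∈ Xl ++ α :: u :: v :: β :: Yl)
    (m' b' : Bool) (hmb : (m' || b') = b)
    (hc : Con (Xl ++ α :: u :: v :: β :: Yl) (X ++ a :: m' :: b' :: Y)) (hmb' : (m' && b') = false)
    (hplan : ∀ f : ℕ → Bool, Ok f (edges (Xl ++ [α]) X) → Ok f (edges (β :: Yl) Y) → (a = true → f α = f u) →
      b = true → f u = f β → f u ≠ f v → False) :
    Con (Xl ++ α :: u :: u :: β :: Yl) (X ++ a :: false :: b :: Y) := by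
  rw [con4 _ _ _ _ _ _ _ _ _ _ _ h] at hc ⊢
  intro f h1 h2 h3 h4 h5 x hx y hy
  have hx' := hv x hx
  have hy' := hv y hy
  cases hb : b with
  | false =>
    rw [hb] at hmb
    have e1 : m' = false := by cases m' <;> simp_all
    have e2 : b' = false := by cases b' <;> simp_all
    subst e1; subst e2
    exact hc f h1 h2 h3 (by simp) (by simp) x hx' y hy'
  | true =>
    have h6 : f u = f β := h5 hb
    by_cases h7 : f u = f v
    · refine hc f h1 h2 h3 (fun _ => h7) (fun _ => by rw [← h7, h6]) x hx' y hy'
    · exact (hplan f h1 h2 h3 hb h6 h7).elim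

/-! ### choice false: labels (renamed) ν v from labels u v -/

theorem cf_bwdL (h : Xl.length = X.length)
    (hc : Con (Xl ++ α :: u :: v :: β :: Yl) (X ++ a :: true :: b :: Y)) :
    Con (ren u v Xl ++ rn u v α :: ν :: v :: rn u v β :: ren u v Yl) (X ++ a :: true :: b :: Y) := by
  rw [con4 _ _ _ _ _ _ _ _ _ _ _ (by simpa [ren] using h)]
  rw [con4 _ _ _ _ _ _ _ _ _ _ _ h] at hc
  intro f h1 h2 h3 h4 h5
  rw [ok_ren_left] at h1
  rw [ok_ren_right] at h2
  have hν : f ν = f v := h4 rfl
  have key := hc (fun x => f (rn u v x)) h1 h2 (fun ha => by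
    show f (rn u v α) = f (rn u v u)
    rw [h3 ha, rn_self, hν]) (fun _ => by
    show f (rn u v u) = f (rn u v v)
    rw [rn_self, rn_v]) (fun hb => by
    show f (rn u v v) = f (rn u v β)
    rw [rn_v]; exact h5 hb)
  have hall : ∀ x ∈ ren u v Xl ++ rn u v α :: ν :: v :: rn u v β :: ren u v Yl, f x = f v := by
    intro x hx
    have k2 : ∀ y ∈ Xl ++ α :: u :: v :: β :: Yl, f (rn u v y) = f v := by
      intro y hy
      have := key y hy v (by simp)
      rw [this, rn_v]
    simp only [List.mem_append, List.mem_cons, ren_eq, List.mem_map] at hx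
    rcases hx with ⟨y, hy, rfl⟩ | hx | hx | hx | hx | ⟨y, hy, rfl⟩
    · exact k2 y (by simp [hy])
    · rw [hx]; exact k2 α (by simp)
    · rw [hx, hν]
    · rw [hx]
    · rw [hx]; exact k2 β (by simp)
    · exact k2 y (by simp [hy])
  intro x hx y hy
  rw [hall x hx, hall y hy]

theorem cf_bwdT (h : Xl.length = X.length)
    (hc : Con (Xl ++ α :: u :: v :: β :: Yl) (X ++ false :: true :: b :: Y)) :
    Con (ren u v Xl ++ rn u v α :: ν :: v :: rn u v β :: ren u v Yl) (X ++ true :: false :: b :: Y) := by
  rw [con4 _ _ _ _ _ _ _ _ _ _ _ (by simpa [ren] using h)]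
  rw [con4 _ _ _ _ _ _ _ _ _ _ _ h] at hc
  intro f h1 h2 h3 h4 h5
  rw [ok_ren_left] at h1
  rw [ok_ren_right] at h2
  have key := hc (fun x => f (rn u v x)) h1 h2 (by simp) (fun _ => by
    show f (rn u v u) = f (rn u v v)
    rw [rn_self, rn_v]) (fun hb => by
    show f (rn u v v) = f (rn u v β)
    rw [rn_v]; exact h5 hb)
  have k2 : ∀ y ∈ Xl ++ α :: u :: v :: β :: Yl, f (rn u v y) = f v := by
    intro y hy
    have := key y hy v (by simp)
    rw [this, rn_v]
  have hν : f ν = f v := by
    rw [← h3 rfl]; exact k2 α (by simp)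
  have hall : ∀ x ∈ ren u v Xl ++ rn u v α :: ν :: v :: rn u v β :: ren u v Yl, f x = f v := by
    intro x hx
    simp only [List.mem_append, List.mem_cons, ren_eq, List.mem_map] at hx
    rcases hx with ⟨y, hy, rfl⟩ | hx | hx | hx | hx | ⟨y, hy, rfl⟩
    · exact k2 y (by simp [hy])
    · rw [hx]; exact k2 α (by simp)
    · rw [hx, hν]
    · rw [hx]
    · rw [hx]; exact k2 β (by simp)
    · exact k2 y (by simp [hy])
  intro x hx y hy
  rw [hall x hx, hall y hy]

/-- a function extended to a new label -/
theorem upd_same (f : ℕ → Bool) (ν : ℕ) (c : Bool) : Function.update f ν c ν = c := by simp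

theorem cf_fwd (h : Xl.length = X.length) (hν : ν ∉ Xl ++ α :: u :: v :: β :: Yl)
    (hc : Con (ren u v Xl ++ rn u v α :: ν :: v :: rn u v β :: ren u v Yl) (X ++ a :: m :: b :: Y)) :
    (m = true ∧ Con (Xl ++ α :: u :: v :: β :: Yl) (X ++ a :: true :: b :: Y)) ∨
      (a = true ∧ m = false ∧ Con (Xl ++ α :: u :: v :: β :: Yl) (X ++ false :: true :: b :: Y)) := by
  rw [con4 _ _ _ _ _ _ _ _ _ _ _ (by simpa [ren] using h)] at hc
  have hvν : v ≠ ν := by rintro rfl; exact hν (by simp)
  have hne : ∀ x ∈ Xl ++ α :: u :: v :: β :: Yl, rn u v x ≠ ν := by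
    intro x hx hh
    unfold rn at hh
    split_ifs at hh with h1
    · exact hvν hh
    · subst hh; exact hν hx
  have core : ∀ (f : ℕ → Bool) (c : Bool), f u = f v → Ok f (edges (Xl ++ [α]) X) → Ok f (edges (β :: Yl) Y) →
      (a = true → f α = c) → (m = true → c = f v) → (b = true → f v = f β) →
      ∀ x ∈ Xl ++ α :: u :: v :: β :: Yl, f x = f v := by
    intro f c huv h1 h2 h3 h4 h5
    have hg : ∀ x ∈ Xl ++ α :: u :: v :: β :: Yl, Function.update f ν c (rn u v x) = f x := by
      intro x hx
      rw [Function.update_of_ne (hne x hx), f_rn f u v huv]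
    have hgv : Function.update f ν c v = f v := Function.update_of_ne hvν _ _
    have key := hc (Function.update f ν c)
      (by
        rw [ok_ren_left, ok_congr _ f _ _ (fun x hx => ?_)]
        · exact h1
        · exact hg x (by simp at hx ⊢; tauto))
      (by
        rw [ok_ren_right, ok_congr _ f _ _ (fun x hx => ?_)]
        · exact h2
        · exact hg x (by simp at hx ⊢; tauto))
      (fun ha => by rw [hg α (by simp), upd_same]; exact h3 ha)
      (fun hm => by rw [upd_same, hgv]; exact h4 hm)
      (fun hb => by rw [hg β (by simp), hgv]; exact h5 hb)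
    intro x hx
    have hx2 : rn u v x ∈ ren u v Xl ++ rn u v α :: ν :: v :: rn u v β :: ren u v Yl := by
      simp only [List.mem_append, List.mem_cons, ren_eq, List.mem_map] at hx ⊢
      rcases hx with hx | hx | hx | hx | hx | hx
      · exact Or.inl ⟨x, hx, rfl⟩
      · subst hx; tauto
      · subst hx; rw [rn_self]; tauto
      · subst hx; rw [rn_v]; tauto
      · subst hx; tauto
      · exact Or.inr (Or.inr (Or.inr (Or.inr (Or.inr ⟨x, hx, rfl⟩))))
    have := key (rn u v x) hx2 v (by simp)
    rw [hg x hx, hgv] at this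
    exact this
  cases hm : m with
  | true =>
    left
    refine ⟨rfl, ?_⟩
    rw [con4 _ _ _ _ _ _ _ _ _ _ _ h]
    intro f h1 h2 h3 h4 h5 x hx y hy
    have h4' : f u = f v := h4 rfl
    have := core f (f v) h4' h1 h2 (fun ha => by rw [h3 ha, h4']) (fun _ => rfl) h5
    rw [this x hx, this y hy]
  | false =>
    right
    have ha : a = true := by
      by_contra hcon
      have ha : a = false := by simpa using hcon
      have key := hc (fun x => decide (x = ν))
        (by
          rw [ok_ren_left]
          intro e he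
          obtain ⟨h1, h2⟩ := mem_edges _ _ e he
          show decide (rn u v e.1 = ν) = decide (rn u v e.2 = ν)
          rw [decide_eq_false (hne e.1 (by simp at h1 ⊢; tauto)), decide_eq_false (hne e.2 (by simp at h2 ⊢; tauto))])
        (by
          rw [ok_ren_right]
          intro e he
          obtain ⟨h1, h2⟩ := mem_edges _ _ e he
          show decide (rn u v e.1 = ν) = decide (rn u v e.2 = ν)
          rw [decide_eq_false (hne e.1 (by simp at h1 ⊢; tauto)), decide_eq_false (hne e.2 (by simp at h2 ⊢; tauto))])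
        (by simp [ha]) (by simp [hm])
        (fun _ => by
          show decide (v = ν) = decide (rn u v β = ν)
          rw [decide_eq_false hvν, decide_eq_false (hne β (by simp))]) ν (by simp) v (by simp)
      simp [hvν] at key
    refine ⟨ha, rfl, ?_⟩
    rw [con4 _ _ _ _ _ _ _ _ _ _ _ h]
    intro f h1 h2 h3 h4 h5 x hx y hy
    have h4' : f u = f v := h4 rfl
    have := core f (f α) h4' h1 h2 (fun _ => rfl) (fun h => by rw [hm] at h; simp at h) h5
    rw [this x hx, this y hy]

/-! ### cup: labels (renamed) from labels u v -/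

theorem cup_bwd (h : Xl.length = X.length) (a b : Bool) (hab : (a && b) = false)
    (hc : Con (Xl ++ α :: u :: v :: β :: Yl) (X ++ a :: true :: b :: Y))
    (hplan : ∀ f : ℕ → Bool, Ok f (edges (Xl ++ [α]) X) → Ok f (edges (β :: Yl) Y) → f u = f v →
      (a || b) = true → f α = f β → f α ≠ f u → False) :
    Con (ren u v Xl ++ rn u v α :: rn u v β :: ren u v Yl) (X ++ (a || b) :: Y) := by
  rw [con2 _ _ _ _ _ _ _ (by simpa [ren] using h)]
  rw [con4 _ _ _ _ _ _ _ _ _ _ _ h] at hc
  intro f h1 h2 h3
  rw [ok_ren_left] at h1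
  rw [ok_ren_right] at h2
  have huv : f (rn u v u) = f (rn u v v) := by rw [rn_self, rn_v]
  have key : ∀ x ∈ Xl ++ α :: u :: v :: β :: Yl, ∀ y ∈ Xl ++ α :: u :: v :: β :: Yl, f (rn u v x) = f (rn u v y) := by
    cases hab2 : (a || b) with
    | false =>
      have ha : a = false := by cases a <;> simp_all
      have hb : b = false := by cases b <;> simp_all
      subst ha; subst hb
      exact hc (fun x => f (rn u v x)) h1 h2 (by simp) (fun _ => huv) (by simp)
    | true =>
      have h4 := h3 hab2
      by_cases h5 : f (rn u v α) = f (rn u v u)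
      · exact hc (fun x => f (rn u v x)) h1 h2 (fun _ => h5) (fun _ => huv) (fun _ => by
          show f (rn u v v) = f (rn u v β)
          rw [← huv, ← h5, h4])
      · exact (hplan (fun x => f (rn u v x)) h1 h2 huv hab2 h4 h5).elim
  have hall : ∀ x ∈ ren u v Xl ++ rn u v α :: rn u v β :: ren u v Yl, f x = f (rn u v u) := by
    intro x hx
    have k2 : ∀ y ∈ Xl ++ α :: u :: v :: β :: Yl, f (rn u v y) = f (rn u v u) := fun y hy => key y hy u (by simp)
    simp only [List.mem_append, List.mem_cons, ren_eq, List.mem_map] at hx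
    rcases hx with ⟨y, hy, rfl⟩ | hx | hx | ⟨y, hy, rfl⟩
    · exact k2 y (by simp [hy])
    · rw [hx]; exact k2 α (by simp)
    · rw [hx]; exact k2 β (by simp)
    · exact k2 y (by simp [hy])
  intro x hx y hy
  rw [hall x hx, hall y hy]

theorem cup_fwd (h : Xl.length = X.length) (c : Bool)
    (hv : v ∈ ren u v Xl ++ rn u v α :: rn u v β :: ren u v Yl)
    (hc : Con (ren u v Xl ++ rn u v α :: rn u v β :: ren u v Yl) (X ++ c :: Y)) :
    ∃ a b : Bool, (a && b) = false ∧ (a || b) = c ∧
      Con (Xl ++ α :: u :: v :: β :: Yl) (X ++ a :: true :: b :: Y) := by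
  rw [con2 _ _ _ _ _ _ _ (by simpa [ren] using h)] at hc
  have core : ∀ (f : ℕ → Bool), f u = f v → Ok f (edges (Xl ++ [α]) X) → Ok f (edges (β :: Yl) Y) →
      (c = true → f α = f β) → ∀ x ∈ Xl ++ α :: u :: v :: β :: Yl, f x = f v := by
    intro f huv h1 h2 h3
    have key := hc f
      (by
        rw [ok_ren_left, ok_congr _ f _ _ (fun x _ => f_rn f u v huv x)]
        exact h1)
      (by
        rw [ok_ren_right, ok_congr _ f _ _ (fun x _ => f_rn f u v huv x)]
        exact h2)
      (fun hc => by rw [f_rn f u v huv, f_rn f u v huv]; exact h3 hc)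
    intro x hx
    by_cases hxu : x = u
    · rw [hxu, huv]
    by_cases hxv : x = v
    · rw [hxv]
    have hx2 : rn u v x ∈ ren u v Xl ++ rn u v α :: rn u v β :: ren u v Yl := by
      simp only [List.mem_append, List.mem_cons, ren_eq, List.mem_map] at hx ⊢
      rcases hx with hx | hx | hx | hx | hx | hx
      · exact Or.inl ⟨x, hx, rfl⟩
      · subst hx; tauto
      · exact absurd hx hxu
      · exact absurd hx hxv
      · subst hx; tauto
      · exact Or.inr (Or.inr (Or.inr ⟨x, hx, rfl⟩))
    have := key (rn u v x) hx2 v hv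
    rw [f_rn f u v huv] at this
    exact this
  cases hcc : c with
  | false =>
    refine ⟨false, false, rfl, rfl, ?_⟩
    rw [con4 _ _ _ _ _ _ _ _ _ _ _ h]
    intro f h1 h2 h3 h4 h5 x hx y hy
    have := core f (h4 rfl) h1 h2 (by simp [hcc])
    rw [this x hx, this y hy]
  | true =>
    by_contra hcon
    have c1 : ¬ Con (Xl ++ α :: u :: v :: β :: Yl) (X ++ true :: true :: false :: Y) :=
      fun hh => hcon ⟨true, false, rfl, rfl, hh⟩
    have c2 : ¬ Con (Xl ++ α :: u :: v :: β :: Yl) (X ++ false :: true :: true :: Y) :=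
      fun hh => hcon ⟨false, true, rfl, rfl, hh⟩
    rw [con4 _ _ _ _ _ _ _ _ _ _ _ h] at c1 c2
    push Not at c1 c2
    obtain ⟨f, f1, f2, f3, f4, -, x, hx, y, hy, hxy⟩ := c1
    obtain ⟨g, g1, g2, -, g4, g5, x', hx', y', hy', hxy'⟩ := c2
    have fα : f α = f u := f3 rfl
    have fu : f u = f v := f4 rfl
    have gu : g u = g v := g4 rfl
    have gv : g v = g β := g5 rfl
    have fab : f α ≠ f β := by
      intro hh
      have := core f fu f1 f2 (fun _ => hh)
      exact hxy (by rw [this x hx, this y hy])
    have gab : g α ≠ g β := by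
      intro hh
      have := core g gu g1 g2 (fun _ => hh)
      exact hxy' (by rw [this x' hx', this y' hy'])
    have key := core (fun z => f z ^^ g z) (by show (f u ^^ g u) = (f v ^^ g v); rw [fu, gu])
      (fun e he => by simp only [f1 e he, g1 e he]) (fun e he => by simp only [f2 e he, g2 e he])
      (fun _ => bxor_eq fab gab) β (by simp)
    have key2 : (f β ^^ g β) = (f v ^^ g v) := key
    rw [gv, ← fu, ← fα] at key2
    apply fab
    revert key2
    cases f α <;> cases f β <;> cases g β <;> simp

/-! ### cap: labels ν ν inserted -/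

theorem cap_bwd (h : Xl.length = X.length) (a b : Bool) (hab : (a || b) = true)
    (hc : Con (Xl ++ α :: β :: Yl) (X ++ (a && b) :: Y)) :
    Con (Xl ++ α :: ν :: ν :: β :: Yl) (X ++ a :: false :: b :: Y) := by
  rw [con4 _ _ _ _ _ _ _ _ _ _ _ h]
  rw [con2 _ _ _ _ _ _ _ h] at hc
  intro f h1 h2 h3 _ h5
  have key := hc f h1 h2 (fun hh => by
    have ha : a = true := by cases a <;> simp_all
    have hb : b = true := by cases b <;> simp_all
    rw [h3 ha, h5 hb])
  have hν : f ν = f α := by
    cases ha : a with
    | true => rw [h3 ha]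
    | false =>
      have hb : b = true := by cases b <;> simp_all
      rw [h5 hb]; exact key β (by simp) α (by simp)
  have hall : ∀ x ∈ Xl ++ α :: ν :: ν :: β :: Yl, f x = f α := by
    intro x hx
    simp only [List.mem_append, List.mem_cons] at hx
    rcases hx with hx | hx | hx | hx | hx | hx
    · exact key x (by simp [hx]) α (by simp)
    · rw [hx]
    · rw [hx, hν]
    · rw [hx, hν]
    · exact key x (by simp [hx]) α (by simp)
    · exact key x (by simp [hx]) α (by simp)
  intro x hx y hy
  rw [hall x hx, hall y hy]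

theorem cap_fwd (h : Xl.length = X.length) (a b : Bool) (hν : ν ∉ Xl ++ α :: β :: Yl)
    (hc : Con (Xl ++ α :: ν :: ν :: β :: Yl) (X ++ a :: false :: b :: Y)) :
    (a || b) = true ∧ Con (Xl ++ α :: β :: Yl) (X ++ (a && b) :: Y) := by
  rw [con4 _ _ _ _ _ _ _ _ _ _ _ h] at hc
  have hne : ∀ x ∈ Xl ++ α :: β :: Yl, x ≠ ν := by
    rintro x hx rfl; exact hν hx
  constructor
  · by_contra hcon
    have ha : a = false := by cases a <;> simp_all
    have hb : b = false := by cases b <;> simp_all
    have key := hc (fun x => decide (x = ν))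
      (by
        intro e he
        obtain ⟨h1, h2⟩ := mem_edges _ _ e he
        show decide (e.1 = ν) = decide (e.2 = ν)
        rw [decide_eq_false (hne e.1 (by simp at h1 ⊢; tauto)), decide_eq_false (hne e.2 (by simp at h2 ⊢; tauto))])
      (by
        intro e he
        obtain ⟨h1, h2⟩ := mem_edges _ _ e he
        show decide (e.1 = ν) = decide (e.2 = ν)
        rw [decide_eq_false (hne e.1 (by simp at h1 ⊢; tauto)), decide_eq_false (hne e.2 (by simp at h2 ⊢; tauto))])
      (by simp [ha]) (by simp) (by simp [hb]) ν (by simp) α (by simp)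
    have : α ≠ ν := hne α (by simp)
    simp [this] at key
  · rw [con2 _ _ _ _ _ _ _ h]
    intro f h1 h2 h3 x hx y hy
    have hg : ∀ (c : Bool), ∀ x ∈ Xl ++ α :: β :: Yl, Function.update f ν c x = f x := by
      intro c x hx
      rw [Function.update_of_ne (hne x hx)]
    have key := hc (Function.update f ν (if a then f α else f β))
      (by
        rw [ok_congr _ f _ _ (fun x hx => ?_)]
        · exact h1
        · exact hg _ x (by simp at hx ⊢; tauto))
      (by
        rw [ok_congr _ f _ _ (fun x hx => ?_)]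
        · exact h2
        · exact hg _ x (by simp at hx ⊢; tauto))
      (fun ha => by rw [hg _ α (by simp), upd_same]; simp [ha])
      (by simp)
      (fun hb => by
        rw [hg _ β (by simp), upd_same]
        cases ha : a with
        | true => simp only [if_true]; exact h3 (by simp [ha, hb])
        | false => simp) x (by simp only [List.mem_append, List.mem_cons] at hx ⊢; tauto) y
      (by simp only [List.mem_append, List.mem_cons] at hy ⊢; tauto)
    rw [hg _ x hx, hg _ y hy] at key
    exact key

end

end LG3P
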