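import Pool.Agent.Lib.MP_3cd99b_gt.L6
import Pool.Agent.Lib.MP_3cd99b_gt.L4A
import Pool.Agent.Lib.MP_3cd99b_gt.L4B
import Pool.Agent.Lib.MP_3cd99b_gt.L4C

/-!
The steps of the bridge with trees.
-/

namespace LG3P
open LG3

/-- the contents and labels form a tree (the number of labels is half the length) -/
def Tr (L : List ℕ) (C : List Bool) : Prop := Con L C ∧ cnt C + 1 = L.length / 2

theorem srcs_length : ∀ (l : List ℕ), (srcs true l).length = (l.length + 1) / 2 ∧ (srcs false l).length = l.length / 2 := by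
  intro l
  induction l with
  | nil => simp [srcs]
  | cons a l ih =>
    obtain ⟨h1, h2⟩ := ih
    have e1 : (srcs true (a :: l)).length = (srcs false l).length + 1 := rfl
    have e2 : (srcs false (a :: l)).length = (srcs true l).length := rfl
    rw [e1, e2, h1, h2, List.length_cons]
    constructor <;> omega

theorem srcs_odd (q : Bool) (L : List ℕ) (hn : L.length % 2 = 1) : (srcs (!q) L.tail).length = L.length / 2 := by
  have h1 : L.tail.length = L.length - 1 := List.length_tail
  cases q
  · show (srcs true L.tail).length = _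
    rw [(srcs_length L.tail).1, h1]; omega
  · show (srcs false L.tail).length = _
    rw [(srcs_length L.tail).2, h1]; omega

theorem cnt_append (X Y : List Bool) : cnt (X ++ Y) = cnt X + cnt Y := by simp [cnt]

theorem cnt_cons (a : Bool) (X : List Bool) : cnt (a :: X) = cnt X + (if a then 1 else 0) := by
  cases a <;> simp [cnt]

theorem cn_loop (V : List ℕ) (E1 E2 : List (ℕ × ℕ)) (w : ℕ) (h : Cn V (E1 ++ (w, w) :: E2)) : Cn V (E1 ++ E2) := by
  intro f hf
  refine h f ?_
  intro e he
  rcases List.mem_append.mp he with he | he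
  · exact hf e (List.mem_append_left _ he)
  · rcases List.mem_cons.mp he with rfl | he
    · rfl
    · exact hf e (List.mem_append_right _ he)

/-- no edge of a tree is a loop -/
theorem no_loop (q : Bool) (X : List Bool) (Xl : List ℕ) (α w β : ℕ) (Yl : List ℕ) (a b : Bool) (Y : List Bool)
    (h : Xl.length = X.length) (hY : Yl.length = Y.length) (hL : LOK q (Xl ++ α :: w :: w :: β :: Yl))
    (hn : (Xl ++ α :: w :: w :: β :: Yl).length % 2 = 1)
    (ht : Tr (Xl ++ α :: w :: w :: β :: Yl) (X ++ a :: true :: b :: Y)) : False := by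
  obtain ⟨h1, h2⟩ := ht
  rw [con_iff] at h1
  have hlen : (edges (Xl ++ α :: w :: w :: β :: Yl) (X ++ a :: true :: b :: Y)).length =
      cnt (X ++ a :: true :: b :: Y) := edges_length _ _ (by simp [h, hY]; omega)
  rw [edges_split Xl X α _ _ h, edges_cons, edges_cons] at h1 hlen
  have e1 : edges (Xl ++ [α]) X ++ ((if a = true then [(α, w)] else []) ++
      ((if true = true then [(w, w)] else []) ++ edges (w :: β :: Yl) (b :: Y))) =
      (edges (Xl ++ [α]) X ++ (if a = true then [(α, w)] else [])) ++ (w, w) :: edges (w :: β :: Yl) (b :: Y) := by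
    simp
  rw [e1] at h1 hlen
  have h3 := cn_card _ _ (cn_loop _ _ _ _ h1)
  rw [lok_card q _ hL (by simp; omega), srcs_odd q _ hn] at h3
  simp only [List.length_append, List.length_cons] at h3 hlen h2
  omega

theorem split4 {k : ℕ} {L : List ℕ} (h : k + 4 ≤ L.length) :
    ∃ (Xl : List ℕ) (α u v β : ℕ) (Yl : List ℕ), L = Xl ++ α :: u :: v :: β :: Yl ∧ Xl.length = k := by
  have h1 : (L.drop k).length = L.length - k := List.length_drop
  have h2 := List.take_append_drop k L
  match hd : L.drop k, h1 with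
  | [], h1 => simp at h1; omega
  | [_], h1 => simp at h1; omega
  | [_, _], h1 => simp at h1; omega
  | [_, _, _], h1 => simp at h1; omega
  | α :: u :: v :: β :: Yl, h1 =>
    exact ⟨L.take k, α, u, v, β, Yl, by rw [← hd, h2], by rw [List.length_take]; omega⟩

theorem split2 {k : ℕ} {L : List ℕ} (h : k + 2 ≤ L.length) :
    ∃ (Xl : List ℕ) (α β : ℕ) (Yl : List ℕ), L = Xl ++ α :: β :: Yl ∧ Xl.length = k := by
  have h1 : (L.drop k).length = L.length - k := List.length_drop
  have h2 := List.take_append_drop k L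
  match hd : L.drop k, h1 with
  | [], h1 => simp at h1; omega
  | [_], h1 => simp at h1; omega
  | α :: β :: Yl, h1 =>
    exact ⟨L.take k, α, β, Yl, by rw [← hd, h2], by rw [List.length_take]; omega⟩

theorem splitC3 {k : ℕ} {C : List Bool} (h : k + 3 ≤ C.length) :
    ∃ (X : List Bool) (a m b : Bool) (Y : List Bool), C = X ++ a :: m :: b :: Y ∧ X.length = k := by
  have h1 : (C.drop k).length = C.length - k := List.length_drop
  have h2 := List.take_append_drop k C
  match hd : C.drop k, h1 with
  | [], h1 => simp at h1; omega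
  | [_], h1 => simp at h1; omega
  | [_, _], h1 => simp at h1; omega
  | a :: m :: b :: Y, h1 =>
    exact ⟨C.take k, a, m, b, Y, by rw [← hd, h2], by rw [List.length_take]; omega⟩

theorem splitC1 {k : ℕ} {C : List Bool} (h : k + 1 ≤ C.length) :
    ∃ (X : List Bool) (a : Bool) (Y : List Bool), C = X ++ a :: Y ∧ X.length = k := by
  have h1 : (C.drop k).length = C.length - k := List.length_drop
  have h2 := List.take_append_drop k C
  match hd : C.drop k, h1 with
  | [], h1 => simp at h1; omega
  | a :: Y, h1 =>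
    exact ⟨C.take k, a, Y, by rw [← hd, h2], by rw [List.length_take]; omega⟩

theorem take_drop1 (Xl : List ℕ) (α : ℕ) (R : List ℕ) (k : ℕ) (h : Xl.length = k) :
    (Xl ++ α :: R).drop (k + 1) = R ∧ (Xl ++ α :: R).take (k + 1) = Xl ++ [α] := by
  subst h
  have e : Xl ++ α :: R = (Xl ++ [α]) ++ R := by simp
  have l : (Xl ++ [α]).length = Xl.length + 1 := by simp
  constructor
  · rw [e, ← l, List.drop_left]
  · rw [e, ← l, List.take_left]

theorem labStep_cross (q : Bool) (k : ℕ) (e c : Bool) (Xl : List ℕ) (α u v β : ℕ) (Yl : List ℕ)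
    (h : Xl.length = k) : labStep q (.cross k e) c (Xl ++ α :: u :: v :: β :: Yl) =
    if parq q k then
      if c then some (Xl ++ α :: u :: u :: β :: Yl)
      else if u = v then none else some (ren u v Xl ++ rn u v α :: fresh (Xl ++ α :: u :: v :: β :: Yl) :: v ::
        rn u v β :: ren u v Yl)
    else
      if c then some (Xl ++ α :: v :: v :: β :: Yl)
      else if u = v then none else some (ren v u Xl ++ rn v u α :: u :: fresh (Xl ++ α :: u :: v :: β :: Yl) ::
        rn v u β :: ren v u Yl) := by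
  obtain ⟨h1, h2⟩ := take_drop1 Xl α (u :: v :: β :: Yl) k h
  have h3 : (Xl ++ α :: u :: v :: β :: Yl).drop (pos (.cross k e) + 1) = u :: v :: β :: Yl := h1
  unfold labStep
  rw [h3]
  simp only [h2, List.append_assoc, List.cons_append, List.nil_append, ren_eq, List.map_append,
    List.map_cons, List.map_nil]

theorem labStep_cup (q : Bool) (k : ℕ) (f c : Bool) (Xl : List ℕ) (α u v β : ℕ) (Yl : List ℕ)
    (h : Xl.length = k) : labStep q (.cup k f) c (Xl ++ α :: u :: v :: β :: Yl) =
    if u = v then none else some (ren u v Xl ++ rn u v α :: rn u v β :: ren u v Yl) := by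
  obtain ⟨h1, h2⟩ := take_drop1 Xl α (u :: v :: β :: Yl) k h
  have h3 : (Xl ++ α :: u :: v :: β :: Yl).drop (pos (.cup k f) + 1) = u :: v :: β :: Yl := h1
  unfold labStep
  rw [h3]
  simp only [h2, List.append_assoc, List.cons_append, List.nil_append, ren_eq, List.map_append,
    List.map_cons, List.map_nil]

theorem labStep_cap (q : Bool) (k : ℕ) (f c : Bool) (Xl : List ℕ) (α β : ℕ) (Yl : List ℕ)
    (h : Xl.length = k) : labStep q (.cap k f) c (Xl ++ α :: β :: Yl) =
    some (Xl ++ α :: fresh (Xl ++ α :: β :: Yl) :: fresh (Xl ++ α :: β :: Yl) :: β :: Yl) := by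
  obtain ⟨h1, h2⟩ := take_drop1 Xl α (β :: Yl) k h
  have h3 : (Xl ++ α :: β :: Yl).drop (pos (.cap k f) + 1) = β :: Yl := h1
  unfold labStep
  rw [h3]
  simp only [h2, List.append_assoc, List.cons_append, List.nil_append]

theorem fresh_not_mem (L : List ℕ) : fresh L ∉ L := by
  have key : ∀ x ∈ L, x ≤ L.foldr max 0 := by
    intro x hx
    induction L with
    | nil => simp at hx
    | cons a L ih =>
      rw [List.foldr_cons]
      rcases List.mem_cons.mp hx with rfl | hx
      · exact le_max_left _ _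
      · exact (ih hx).trans (le_max_right _ _)
  intro h
  have := key _ h
  unfold fresh at this
  omega

theorem getD_ctx (Xl : List ℕ) (R : List ℕ) (k i : ℕ) (h : Xl.length = k) :
    (Xl ++ R).getD (k + i) 0 = R.getD i 0 := by
  subst h
  rw [List.getD_append_right _ _ _ _ (by omega)]
  congr 1
  omega

theorem hg4 {X : List Bool} {Xl : List ℕ} {α u v β : ℕ} {Yl : List ℕ} {a m b : Bool} {Y : List Bool}
    (h : Xl.length = X.length) (f : ℕ → Bool) (h1 : Ok f (edges (Xl ++ [α]) X)) (h2 : Ok f (edges (β :: Yl) Y))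
    (s t : ℕ) (ha : a = true → (α, u) = (s, t) ∨ f α = f u) (hm : m = true → (u, v) = (s, t) ∨ f u = f v)
    (hb : b = true → (v, β) = (s, t) ∨ f v = f β) :
    ∀ e ∈ edges (Xl ++ α :: u :: v :: β :: Yl) (X ++ a :: m :: b :: Y), e = (s, t) ∨ f e.1 = f e.2 := by
  rw [edges_split Xl X α _ _ h, edges_cons, edges_cons, edges_cons]
  intro e he
  simp only [List.mem_append] at he
  have aux : ∀ (c : Bool) (x y : ℕ), (c = true → (x, y) = (s, t) ∨ f x = f y) →
      e ∈ (if c = true then [(x, y)] else []) → e = (s, t) ∨ f e.1 = f e.2 := by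
    intro c x y hc hx
    cases c
    · simp at hx
    · simp only [if_true, List.mem_singleton] at hx
      subst hx
      exact hc rfl
  rcases he with he | he | he | he | he
  · exact Or.inr (h1 e he)
  · exact aux a _ _ ha he
  · exact aux m _ _ hm he
  · exact aux b _ _ hb he
  · exact Or.inr (h2 e he)

theorem parq_succ (q : Bool) (k : ℕ) : parq q (k + 1) = !parq q k := by
  unfold parq
  rcases Nat.mod_two_eq_zero_or_one k with h | h
  · have : (k + 1) % 2 = 1 := by omega
    simp [h, this]
  · have : (k + 1) % 2 = 0 := by omega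
    simp [h, this]

section
variable {q : Bool} {k : ℕ} {X : List Bool} {Xl : List ℕ} {α u v β : ℕ} {Yl : List ℕ} {a m b : Bool} {Y : List Bool}

/-- the label v of the point k + 1 (not a source) occurs outside of the points k, k + 1, k + 2 and is separated
from the points k and k + 2 by one edge: impossible -/
theorem plan_v (hk : Xl.length = k) (h : Xl.length = X.length) (hL : LOK q (Xl ++ α :: u :: v :: β :: Yl))
    (hn : (Xl ++ α :: u :: v :: β :: Yl).length % 2 = 1) (hp : parq q k = true)
    (hc : Con (Xl ++ α :: u :: v :: β :: Yl) (X ++ a :: m :: b :: Y)) (f : ℕ → Bool) (s t : ℕ)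
    (hg : ∀ e ∈ edges (Xl ++ α :: u :: v :: β :: Yl) (X ++ a :: m :: b :: Y), e = (s, t) ∨ f e.1 = f e.2)
    (h1 : f u = f β) (h2 : f u ≠ f v) : False := by
  obtain ⟨r, r1, r2, r3, r4⟩ := lok_other q _ hL hn (k + 1) (by simp; omega) (by rw [parq_succ, hp]; rfl)
  have g1 : (Xl ++ α :: u :: v :: β :: Yl).getD (k + 1) 0 = u := getD_ctx _ _ k 1 hk
  have g2 : (Xl ++ α :: u :: v :: β :: Yl).getD (k + 1 + 1) 0 = v := getD_ctx _ _ k 2 hk
  have g3 : (Xl ++ α :: u :: v :: β :: Yl).getD (k + 3) 0 = β := getD_ctx _ _ k 3 hk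
  rw [g2] at r4
  have n1 : r ≠ k := by
    rintro rfl
    rw [g1] at r4
    exact h2 (by rw [r4])
  have n2 : r ≠ k + 2 := by
    rintro rfl
    rw [g3] at r4
    exact h2 (by rw [h1, r4])
  refine planar _ _ hL.nc hc f s t hg (k + 1) (k + 2) (k + 3) (r + 1) (by omega) (by omega) (by simp; omega) r2
    (by omega) ?_ ?_ ?_
  · rw [r4]; exact g2.symm
  · rw [g1, g3, h1]
  · rw [g1, show k + 2 = k + 1 + 1 from rfl, g2]; exact h2

/-- the label u of the point k (not a source), mirror image -/
theorem plan_u (hk : Xl.length = k) (h : Xl.length = X.length) (hL : LOK q (Xl ++ α :: u :: v :: β :: Yl))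
    (hn : (Xl ++ α :: u :: v :: β :: Yl).length % 2 = 1) (hp : parq q k = false)
    (hc : Con (Xl ++ α :: u :: v :: β :: Yl) (X ++ a :: m :: b :: Y)) (f : ℕ → Bool) (s t : ℕ)
    (hg : ∀ e ∈ edges (Xl ++ α :: u :: v :: β :: Yl) (X ++ a :: m :: b :: Y), e = (s, t) ∨ f e.1 = f e.2)
    (h1 : f v = f α) (h2 : f v ≠ f u) : False := by
  obtain ⟨r, r1, r2, r3, r4⟩ := lok_other q _ hL hn k (by simp; omega) hp
  have g0 : (Xl ++ α :: u :: v :: β :: Yl).getD k 0 = α := getD_ctx _ _ k 0 hk
  have g1 : (Xl ++ α :: u :: v :: β :: Yl).getD (k + 1) 0 = u := getD_ctx _ _ k 1 hk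
  have g2 : (Xl ++ α :: u :: v :: β :: Yl).getD (k + 2) 0 = v := getD_ctx _ _ k 2 hk
  rw [g1] at r4
  have n1 : r + 1 ≠ k := by
    intro hh
    rw [hh, g0] at r4
    exact h2 (by rw [h1, r4])
  have n2 : r ≠ k + 1 := by
    rintro rfl
    rw [show k + 1 + 1 = k + 2 from rfl, g2] at r4
    exact h2 (by rw [r4])
  refine planar _ _ hL.nc hc f s t hg k (k + 1) (k + 2) (r + 1) (by omega) (by omega) (by simp; omega) r2
    (by omega) ?_ ?_ ?_
  · rw [r4]; exact g1.symm
  · rw [g0, g2, h1]
  · rw [g0, g1, ← h1]; exact h2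

/-- the cup: one of the labels u, v (the one of the point that is not a source) is separated from α and β -/
theorem plan_cup (hk : Xl.length = k) (h : Xl.length = X.length) (hL : LOK q (Xl ++ α :: u :: v :: β :: Yl))
    (hn : (Xl ++ α :: u :: v :: β :: Yl).length % 2 = 1) (huv : u ≠ v)
    (hc : Con (Xl ++ α :: u :: v :: β :: Yl) (X ++ a :: m :: b :: Y)) (f : ℕ → Bool) (s t : ℕ)
    (hg : ∀ e ∈ edges (Xl ++ α :: u :: v :: β :: Yl) (X ++ a :: m :: b :: Y), e = (s, t) ∨ f e.1 = f e.2)
    (h1 : f α = f β) (h2 : f α ≠ f u) (h3 : f u = f v) : False := by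
  have g0 : (Xl ++ α :: u :: v :: β :: Yl).getD k 0 = α := getD_ctx _ _ k 0 hk
  have g1 : (Xl ++ α :: u :: v :: β :: Yl).getD (k + 1) 0 = u := getD_ctx _ _ k 1 hk
  have g2 : (Xl ++ α :: u :: v :: β :: Yl).getD (k + 2) 0 = v := getD_ctx _ _ k 2 hk
  have g3 : (Xl ++ α :: u :: v :: β :: Yl).getD (k + 3) 0 = β := getD_ctx _ _ k 3 hk
  cases hp : parq q k with
  | true =>
    obtain ⟨r, r1, r2, r3, r4⟩ := lok_other q _ hL hn (k + 1) (by simp; omega) (by rw [parq_succ, hp]; rfl)
    rw [show k + 1 + 1 = k + 2 from rfl, g2] at r4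
    have n1 : r + 1 ≠ k := by
      intro hh
      rw [hh, g0] at r4
      exact h2 (by rw [r4, h3])
    have n2 : r ≠ k := by
      rintro rfl
      rw [g1] at r4
      exact huv r4
    have n3 : r ≠ k + 2 := by
      rintro rfl
      rw [show k + 2 + 1 = k + 3 from rfl, g3] at r4
      exact h2 (by rw [h1, r4, h3])
    refine planar _ _ hL.nc hc f s t hg k (k + 2) (k + 3) (r + 1) (by omega) (by omega) (by simp; omega) r2
      (by omega) ?_ ?_ ?_
    · rw [r4, g2]
    · rw [g0, g3, h1]
    · rw [g0, g2, ← h3]; exact h2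
  | false =>
    obtain ⟨r, r1, r2, r3, r4⟩ := lok_other q _ hL hn k (by simp; omega) hp
    rw [g1] at r4
    have n1 : r + 1 ≠ k := by
      intro hh
      rw [hh, g0] at r4
      exact h2 (by rw [r4])
    have n2 : r ≠ k + 1 := by
      rintro rfl
      rw [show k + 1 + 1 = k + 2 from rfl, g2] at r4
      exact huv r4.symm
    have n3 : r ≠ k + 2 := by
      rintro rfl
      rw [show k + 2 + 1 = k + 3 from rfl, g3] at r4
      exact h2 (by rw [h1, r4])
    refine planar _ _ hL.nc hc f s t hg k (k + 1) (k + 3) (r + 1) (by omega) (by omega) (by simp; omega) r2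
      (by omega) ?_ ?_ ?_
    · rw [r4]; exact g1.symm
    · rw [g0, g3, h1]
    · rw [g0, g1]; exact h2

end

end LG3P
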