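import Pool.Agent.Lib.MP_3cd99b_gt.L7

/-!
The steps of the bridge.
-/

namespace LG3P
open LG3

/-! ### mirror images -/

section
variable {X : List Bool} {Xl : List ℕ} {α u v β ν : ℕ} {Yl : List ℕ} {a m b : Bool} {Y : List Bool}

theorem ren_reverse (u v : ℕ) (L : List ℕ) : ren u v L.reverse = (ren u v L).reverse := by
  simp [ren, List.map_reverse]

theorem cf_bwdL' (h : Xl.length = X.length) (h' : Yl.length = Y.length)
    (hc : Con (Xl ++ α :: u :: v :: β :: Yl) (X ++ a :: true :: b :: Y)) :
    Con (ren v u Xl ++ rn v u α :: u :: ν :: rn v u β :: ren v u Yl) (X ++ a :: true :: b :: Y) := by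
  rw [← con4_rev h h'] at hc
  have := cf_bwdL (ν := ν) (by simpa using h') hc
  rw [ren_reverse, ren_reverse, con4_rev (by simpa [ren] using h) (by simpa [ren] using h')] at this
  exact this

theorem cf_bwdB' (h : Xl.length = X.length) (h' : Yl.length = Y.length)
    (hc : Con (Xl ++ α :: u :: v :: β :: Yl) (X ++ a :: true :: false :: Y)) :
    Con (ren v u Xl ++ rn v u α :: u :: ν :: rn v u β :: ren v u Yl) (X ++ a :: false :: true :: Y) := by
  rw [← con4_rev h h'] at hc
  have := cf_bwdT (ν := ν) (by simpa using h') hc
  rw [ren_reverse, ren_reverse, con4_rev (by simpa [ren] using h) (by simpa [ren] using h')] at this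
  exact this

theorem cf_fwd' (h : Xl.length = X.length) (h' : Yl.length = Y.length)
    (hν : ν ∉ Xl ++ α :: u :: v :: β :: Yl)
    (hc : Con (ren v u Xl ++ rn v u α :: u :: ν :: rn v u β :: ren v u Yl) (X ++ a :: m :: b :: Y)) :
    (m = true ∧ Con (Xl ++ α :: u :: v :: β :: Yl) (X ++ a :: true :: b :: Y)) ∨
      (b = true ∧ m = false ∧ Con (Xl ++ α :: u :: v :: β :: Yl) (X ++ a :: true :: false :: Y)) := by
  rw [← con4_rev (by simpa [ren] using h) (by simpa [ren] using h'), ← ren_reverse, ← ren_reverse] at hc
  have := cf_fwd (by simpa using h') (by simp at hν ⊢; tauto) hc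
  rw [con4_rev h h', con4_rev h h'] at this
  exact this

theorem ct_bwd' (h : Xl.length = X.length) (h' : Yl.length = Y.length)
    (hv : ∀ x ∈ Xl ++ α :: v :: v :: β :: Yl, x ∈ Xl ++ α :: u :: v :: β :: Yl)
    (m' a' : Bool) (hmb : (m' || a') = a)
    (hc : Con (Xl ++ α :: u :: v :: β :: Yl) (X ++ a' :: m' :: b :: Y)) (hmb' : (m' && a') = false)
    (hplan : ∀ f : ℕ → Bool, Ok f (edges (Xl ++ [α]) X) → Ok f (edges (β :: Yl) Y) → (b = true → f v = f β) →
      a = true → f v = f α → f v ≠ f u → False) :
    Con (Xl ++ α :: v :: v :: β :: Yl) (X ++ a :: false :: b :: Y) := by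
  rw [← con4_rev h h'] at hc ⊢
  refine ct_bwd (by simpa using h') ?_ m' a' hmb hc hmb' ?_
  · intro x hx
    have := hv x (by simp at hx ⊢; tauto)
    simp at this ⊢; tauto
  · intro f h1 h2 h3 h4 h5 h6
    have e1 : Yl.reverse ++ [β] = (β :: Yl).reverse := by simp
    have e2 : α :: Xl.reverse = (Xl ++ [α]).reverse := by simp
    rw [e1, ok_rev f (β :: Yl) Y (by simp [h'])] at h1
    rw [e2, ok_rev f (Xl ++ [α]) X (by simp [h])] at h2
    exact hplan f h2 h1 (fun hb => (h3 hb).symm) h4 h5 h6

theorem ct_fwd0' (h : Xl.length = X.length) (h' : Yl.length = Y.length) (hu : u ∈ Xl ++ α :: v :: v :: β :: Yl)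
    (hc : Con (Xl ++ α :: v :: v :: β :: Yl) (X ++ false :: false :: b :: Y)) :
    Con (Xl ++ α :: u :: v :: β :: Yl) (X ++ false :: false :: b :: Y) := by
  rw [← con4_rev h h'] at hc ⊢
  exact ct_fwd0 (by simpa using h') (by simp at hu ⊢; tauto) hc

theorem ct_fwd1' (h : Xl.length = X.length) (h' : Yl.length = Y.length) (hu : u ∈ Xl ++ α :: v :: v :: β :: Yl)
    (hc : Con (Xl ++ α :: v :: v :: β :: Yl) (X ++ true :: false :: b :: Y)) :
    Con (Xl ++ α :: u :: v :: β :: Yl) (X ++ true :: false :: b :: Y) ∨
      Con (Xl ++ α :: u :: v :: β :: Yl) (X ++ false :: true :: b :: Y) := by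
  rw [← con4_rev h h'] at hc
  have := ct_fwd1 (by simpa using h') (by simp at hu ⊢; tauto) hc
  rw [con4_rev h h', con4_rev h h'] at this
  exact this

end

/-- the mark of a piece fits to the choice -/
def ChOk (q : Bool) (p : Piece) (mk : Option Mk) (c : Bool) : Prop :=
  match p with
  | .cross k _ => ∃ m, mk = some m ∧ inc (parq q k) m = c
  | _ => mk = none

/-- the labels on the right of a piece are long enough -/
def FitL (p : Piece) (L : List ℕ) : Prop :=
  match p with
  | .cross k _ => k + 4 ≤ L.length
  | .cup k _ => k + 4 ≤ L.length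
  | .cap k _ => k + 2 ≤ L.length

theorem mem_of_ne (A : List ℕ) (x : ℕ) (B : List ℕ) (i w : ℕ) (hi : i < (A ++ x :: B).length) (hne : i ≠ A.length)
    (h : (A ++ x :: B).getD i 0 = w) : w ∈ A ++ B := by
  rw [List.getD_eq_getElem _ _ hi] at h
  rw [List.mem_append]
  rcases lt_or_gt_of_ne hne with h1 | h1
  · left
    rw [← h, List.getElem_append_left h1]
    exact List.getElem_mem h1
  · right
    rw [← h, List.getElem_append_right (by omega)]
    obtain ⟨j, hj⟩ : ∃ j, i - A.length = j + 1 := ⟨i - A.length - 1, by omega⟩
    have : (x :: B)[i - A.length]'(by simp at hi ⊢; omega) = (x :: B)[j + 1]'(by simp at hi ⊢; omega) := by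
      congr 1
    rw [this, List.getElem_cons_succ]
    exact List.getElem_mem _

/-- an element at a place that is none of two neighbouring places -/
theorem mem_of_ne2 (A : List ℕ) (x y : ℕ) (B : List ℕ) (i w : ℕ) (hi : i < (A ++ x :: y :: B).length)
    (hne : i ≠ A.length) (hne2 : i ≠ A.length + 1) (h : (A ++ x :: y :: B).getD i 0 = w) : w ∈ A ++ B := by
  rcases lt_or_gt_of_ne hne with h1 | h1
  · rw [List.getD_eq_getElem _ _ hi, List.getElem_append_left h1] at h
    rw [← h]
    exact List.mem_append_left _ (List.getElem_mem h1)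
  · have := mem_of_ne (A ++ [x]) y B i w (by simpa using hi) (by simp; omega) (by simpa using h)
    rcases List.mem_append.mp this with h2 | h2
    · rcases List.mem_append.mp h2 with h3 | h3
      · exact List.mem_append_left _ h3
      · have h4 : i - A.length = (i - A.length - 2) + 2 := by omega
        rw [List.getD_eq_getElem _ _ hi, List.getElem_append_right (by omega)] at h
        have h5 : (x :: y :: B)[i - A.length]'(by simp at hi ⊢; omega) =
            (x :: y :: B)[(i - A.length - 2) + 2]'(by simp at hi ⊢; omega) := by congr 1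
        rw [h5, List.getElem_cons_succ, List.getElem_cons_succ] at h
        rw [← h]
        exact List.mem_append_right _ (List.getElem_mem _)
    · exact List.mem_append_right _ h2

section
variable {q : Bool} {k : ℕ} {Xl : List ℕ} {α u v β : ℕ} {Yl : List ℕ}

theorem mem_v (hk : Xl.length = k) (hL : LOK q (Xl ++ α :: u :: v :: β :: Yl))
    (hn : (Xl ++ α :: u :: v :: β :: Yl).length % 2 = 1) (hp : parq q k = true) :
    v ∈ Xl ++ α :: u :: β :: Yl := by
  obtain ⟨r, r1, r2, r3, r4⟩ := lok_other q _ hL hn (k + 1) (by simp; omega) (by rw [parq_succ, hp]; rfl)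
  have g2 : (Xl ++ α :: u :: v :: β :: Yl).getD (k + 1 + 1) 0 = v := getD_ctx _ _ k 2 hk
  rw [g2] at r4
  have := mem_of_ne (Xl ++ [α, u]) v (β :: Yl) (r + 1) v (by simpa using r2) (by simp; omega) (by simpa using r4)
  simpa using this

theorem mem_u (hk : Xl.length = k) (hL : LOK q (Xl ++ α :: u :: v :: β :: Yl))
    (hn : (Xl ++ α :: u :: v :: β :: Yl).length % 2 = 1) (hp : parq q k = false) :
    u ∈ Xl ++ α :: v :: β :: Yl := by
  obtain ⟨r, r1, r2, r3, r4⟩ := lok_other q _ hL hn k (by simp; omega) hp
  have g1 : (Xl ++ α :: u :: v :: β :: Yl).getD (k + 1) 0 = u := getD_ctx _ _ k 1 hk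
  rw [g1] at r4
  have := mem_of_ne (Xl ++ [α]) u (v :: β :: Yl) (r + 1) u (by simpa using r2) (by simp; omega) (by simpa using r4)
  simpa using this

theorem mem_cup (hk : Xl.length = k) (hL : LOK q (Xl ++ α :: u :: v :: β :: Yl))
    (hn : (Xl ++ α :: u :: v :: β :: Yl).length % 2 = 1) (huv : u ≠ v) :
    v ∈ ren u v Xl ++ rn u v α :: rn u v β :: ren u v Yl := by
  have e : ren u v Xl ++ rn u v α :: rn u v β :: ren u v Yl = (Xl ++ α :: β :: Yl).map (rn u v) := by
    simp [ren_eq]
  have g1 : (Xl ++ α :: u :: v :: β :: Yl).getD (k + 1) 0 = u := getD_ctx _ _ k 1 hk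
  have g2 : (Xl ++ α :: u :: v :: β :: Yl).getD (k + 2) 0 = v := getD_ctx _ _ k 2 hk
  rw [e, List.mem_map]
  cases hp : parq q k with
  | true =>
    obtain ⟨r, r1, r2, r3, r4⟩ := lok_other q _ hL hn (k + 1) (by simp; omega) (by rw [parq_succ, hp]; rfl)
    rw [show k + 1 + 1 = k + 2 from rfl, g2] at r4
    have n2 : r ≠ k := by
      rintro rfl
      rw [g1] at r4
      exact huv r4
    have := mem_of_ne2 (Xl ++ [α]) u v (β :: Yl) (r + 1) v (by simpa using r2) (by simp; omega) (by simp; omega)
      (by simpa using r4)
    exact ⟨v, by simpa using this, rn_v u v⟩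
  | false =>
    obtain ⟨r, r1, r2, r3, r4⟩ := lok_other q _ hL hn k (by simp; omega) hp
    rw [g1] at r4
    have n2 : r ≠ k + 1 := by
      rintro rfl
      rw [show k + 1 + 1 = k + 2 from rfl, g2] at r4
      exact huv r4.symm
    have := mem_of_ne2 (Xl ++ [α]) u v (β :: Yl) (r + 1) u (by simpa using r2) (by simp; omega) (by simp; omega)
      (by simpa using r4)
    exact ⟨u, by simpa using this, rn_self u v⟩

end

theorem ren_length (u v : ℕ) (L : List ℕ) : (ren u v L).length = L.length := by simp [ren]

/-- from the right to the left -/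
theorem step_bwd (q : Bool) (p : Piece) (mk : Option Mk) (L : List ℕ) (C C' : List Bool) (hL : LOK q L)
    (hn : L.length % 2 = 1) (hlen : L.length = C'.length + 1) (hst : Stp p C C' mk) (ht : Tr L C') (c : Bool)
    (hch : ChOk q p mk c) : ∃ L', labStep q p c L = some L' ∧ Tr L' C := by
  cases hst with
  | L k e X Y a b hX =>
    obtain ⟨mm, h1, h2⟩ := hch
    have h3 : c = false := by
      have : mm = .L := by simpa using h1.symm
      rw [← h2, this]; rfl
    subst h3
    obtain ⟨Xl, α, u, v, β, Yl, rfl, hk⟩ := split4 (k := k) (L := L) (by simp at hlen; omega)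
    have hX' : Xl.length = X.length := by rw [hk, hX]
    have hY' : Yl.length = Y.length := by simp at hlen; omega
    have huv : u ≠ v := by
      rintro rfl
      exact no_loop q X Xl α u β Yl a b Y hX' hY' hL hn ht
    rw [labStep_cross q k e false Xl α u v β Yl hk]
    cases hp : parq q k with
    | true =>
      refine ⟨_, by simp [huv], cf_bwdL (ν := fresh (Xl ++ α :: u :: v :: β :: Yl)) hX' ht.1, ?_⟩
      have := ht.2
      simp only [List.length_append, List.length_cons, ren_length] at this ⊢
      exact this
    | false =>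
      refine ⟨_, by simp [huv], cf_bwdL' (ν := fresh (Xl ++ α :: u :: v :: β :: Yl)) hX' hY' ht.1, ?_⟩
      have := ht.2
      simp only [List.length_append, List.length_cons, ren_length] at this ⊢
      exact this
  | R k e X Y a b hX =>
    obtain ⟨mm, h1, h2⟩ := hch
    have h3 : c = true := by
      have : mm = .R := by simpa using h1.symm
      rw [← h2, this]; rfl
    subst h3
    obtain ⟨Xl, α, u, v, β, Yl, rfl, hk⟩ := split4 (k := k) (L := L) (by simp at hlen; omega)
    have hX' : Xl.length = X.length := by rw [hk, hX]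
    have hY' : Yl.length = Y.length := by simp at hlen; omega
    rw [labStep_cross q k e true Xl α u v β Yl hk]
    cases hp : parq q k with
    | true =>
      refine ⟨_, by simp, ct_bwd hX' (by intro x; simp only [List.mem_append, List.mem_cons]; tauto) false b (by simp)
        ht.1 (by simp) ?_, ?_⟩
      · intro f f1 f2 f3 f4 f5 f6
        exact plan_v hk hX' hL hn hp ht.1 f v β (hg4 hX' f f1 f2 v β (fun ha => Or.inr (f3 ha)) (by simp)
          (fun _ => Or.inl rfl)) f5 f6
      · have := ht.2
        simp only [List.length_append, List.length_cons] at this ⊢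
        exact this
    | false =>
      refine ⟨_, by simp, ct_bwd' hX' hY' (by intro x; simp only [List.mem_append, List.mem_cons]; tauto) false a
        (by simp) ht.1 (by simp) ?_, ?_⟩
      · intro f f1 f2 f3 f4 f5 f6
        exact plan_u hk hX' hL hn hp ht.1 f α u (hg4 hX' f f1 f2 α u (fun _ => Or.inl rfl) (by simp)
          (fun hb => Or.inr (f3 hb))) f5 f6
      · have := ht.2
        simp only [List.length_append, List.length_cons] at this ⊢
        exact this
  | T k e X Y b hX =>
    obtain ⟨mm, h1, h2⟩ := hch
    have h0 : mm = .T := by simpa using h1.symm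
    subst h0
    obtain ⟨Xl, α, u, v, β, Yl, rfl, hk⟩ := split4 (k := k) (L := L) (by simp at hlen; omega)
    have hX' : Xl.length = X.length := by rw [hk, hX]
    have hY' : Yl.length = Y.length := by simp at hlen; omega
    have huv : u ≠ v := by
      rintro rfl
      exact no_loop q X Xl α u β Yl false b Y hX' hY' hL hn ht
    cases hp : parq q k with
    | true =>
      rw [hp] at h2
      have h3 : c = false := by rw [← h2]; rfl
      subst h3
      rw [labStep_cross q k e false Xl α u v β Yl hk, hp]
      refine ⟨_, by simp [huv], cf_bwdT (ν := fresh (Xl ++ α :: u :: v :: β :: Yl)) hX' ht.1, ?_⟩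
      have := ht.2
      simp only [List.length_append, List.length_cons, ren_length, cnt_append, cnt_cons] at this ⊢
      simp at this ⊢
      omega
    | false =>
      rw [hp] at h2
      have h3 : c = true := by rw [← h2]; rfl
      subst h3
      rw [labStep_cross q k e true Xl α u v β Yl hk, hp]
      refine ⟨_, by simp, ct_bwd' hX' hY' (by intro x; simp only [List.mem_append, List.mem_cons]; tauto) true false
        (by simp) ht.1 (by simp) ?_, ?_⟩
      · intro f f1 f2 f3 f4 f5 f6
        exact plan_u hk hX' hL hn hp ht.1 f u v (hg4 hX' f f1 f2 u v (by simp) (fun _ => Or.inl rfl)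
          (fun hb => Or.inr (f3 hb))) f5 f6
      · have := ht.2
        simp only [List.length_append, List.length_cons, cnt_append, cnt_cons] at this ⊢
        simp at this ⊢
        omega
  | B k e X Y a hX =>
    obtain ⟨mm, h1, h2⟩ := hch
    have h0 : mm = .B := by simpa using h1.symm
    subst h0
    obtain ⟨Xl, α, u, v, β, Yl, rfl, hk⟩ := split4 (k := k) (L := L) (by simp at hlen; omega)
    have hX' : Xl.length = X.length := by rw [hk, hX]
    have hY' : Yl.length = Y.length := by simp at hlen; omega
    have huv : u ≠ v := by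
      rintro rfl
      exact no_loop q X Xl α u β Yl a false Y hX' hY' hL hn ht
    cases hp : parq q k with
    | true =>
      rw [hp] at h2
      have h3 : c = true := by rw [← h2]; rfl
      subst h3
      rw [labStep_cross q k e true Xl α u v β Yl hk, hp]
      refine ⟨_, by simp, ct_bwd hX' (by intro x; simp only [List.mem_append, List.mem_cons]; tauto) true false
        (by simp) ht.1 (by simp) ?_, ?_⟩
      · intro f f1 f2 f3 f4 f5 f6
        exact plan_v hk hX' hL hn hp ht.1 f u v (hg4 hX' f f1 f2 u v (fun ha => Or.inr (f3 ha)) (fun _ => Or.inl rfl)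
          (by simp)) f5 f6
      · have := ht.2
        simp only [List.length_append, List.length_cons, cnt_append, cnt_cons] at this ⊢
        simp at this ⊢
        omega
    | false =>
      rw [hp] at h2
      have h3 : c = false := by rw [← h2]; rfl
      subst h3
      rw [labStep_cross q k e false Xl α u v β Yl hk, hp]
      refine ⟨_, by simp [huv], cf_bwdB' (ν := fresh (Xl ++ α :: u :: v :: β :: Yl)) hX' hY' ht.1, ?_⟩
      have := ht.2
      simp only [List.length_append, List.length_cons, ren_length, cnt_append, cnt_cons] at this ⊢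
      simp at this ⊢
      omega
  | cup k f X Y a b hX hab =>
    obtain ⟨Xl, α, u, v, β, Yl, rfl, hk⟩ := split4 (k := k) (L := L) (by simp at hlen; omega)
    have hX' : Xl.length = X.length := by rw [hk, hX]
    have hY' : Yl.length = Y.length := by simp at hlen; omega
    have huv : u ≠ v := by
      rintro rfl
      exact no_loop q X Xl α u β Yl a b Y hX' hY' hL hn ht
    rw [labStep_cup q k f c Xl α u v β Yl hk]
    refine ⟨_, by simp [huv], cup_bwd hX' a b hab ht.1 ?_, ?_⟩
    · intro f f1 f2 f3 f4 f5 f6
      cases ha : a with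
      | true =>
        have hb : b = false := by cases b <;> simp_all
        subst ha; subst hb
        exact plan_cup hk hX' hL hn huv ht.1 f α u (hg4 hX' f f1 f2 α u (fun _ => Or.inl rfl) (fun _ => Or.inr f3)
          (by simp)) f5 f6 f3
      | false =>
        have hb : b = true := by cases b <;> simp_all
        subst ha; subst hb
        exact plan_cup hk hX' hL hn huv ht.1 f v β (hg4 hX' f f1 f2 v β (by simp) (fun _ => Or.inr f3)
          (fun _ => Or.inl rfl)) f5 f6 f3
    · have := ht.2
      simp only [List.length_append, List.length_cons, ren_length, cnt_append, cnt_cons] at this ⊢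
      cases a <;> cases b <;> simp at this hab ⊢ <;> omega
  | cap k f X Y a b hX hab =>
    obtain ⟨Xl, α, β, Yl, rfl, hk⟩ := split2 (k := k) (L := L) (by simp at hlen; omega)
    have hX' : Xl.length = X.length := by rw [hk, hX]
    rw [labStep_cap q k f c Xl α β Yl hk]
    refine ⟨_, rfl, cap_bwd hX' a b hab ht.1, ?_⟩
    have := ht.2
    simp only [List.length_append, List.length_cons, cnt_append, cnt_cons] at this ⊢
    cases a <;> cases b <;> simp at this hab ⊢ <;> omega

/-- from the left to the right -/
theorem step_fwd (q : Bool) (p : Piece) (L L' : List ℕ) (C : List Bool) (c : Bool) (hL : LOK q L) (hL' : LOK q L')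
    (hn : L.length % 2 = 1) (hfit : FitL p L) (hlen : L'.length = C.length + 1) (hs : labStep q p c L = some L')
    (ht : Tr L' C) : ∃ C' mk, Stp p C C' mk ∧ ChOk q p mk c ∧ Tr L C' := by
  cases p with
  | cross k e =>
    obtain ⟨Xl, α, u, v, β, Yl, rfl, hk⟩ := split4 (k := k) (L := L) hfit
    rw [labStep_cross q k e c Xl α u v β Yl hk] at hs
    have hlL : L'.length = (Xl ++ α :: u :: v :: β :: Yl).length := by
      split_ifs at hs <;> simp only [Option.some.injEq] at hs <;> rw [← hs] <;> simp [ren_length]
    obtain ⟨X, a, m, b, Y, rfl, hX⟩ := splitC3 (k := k) (C := C) (by simp at hlen hlL; omega)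
    have hX' : Xl.length = X.length := by rw [hk, hX]
    have hY' : Yl.length = Y.length := by simp at hlen hlL; omega
    have ht2 := ht.2
    rw [hlL] at ht2
    cases hp : parq q k with
    | true =>
      cases c with
      | true =>
        rw [hp] at hs
        simp only [if_true, Option.some.injEq] at hs
        subst hs
        have hm : m = false := by
          by_contra hcon
          have hm : m = true := by simpa using hcon
          subst hm
          exact no_loop q X Xl α u β Yl a b Y hX' hY' hL' (by simp only [List.length_append, List.length_cons] at hn ⊢; exact hn) ht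
        subst hm
        have hv : v ∈ Xl ++ α :: u :: u :: β :: Yl := by
          have := mem_v hk hL hn hp
          simp at this ⊢; tauto
        cases b with
        | false => exact ⟨_, _, Stp.R k e X Y a false hX, ⟨.R, rfl, rfl⟩, ct_fwd0 hX' hv ht.1, ht2⟩
        | true =>
          rcases ct_fwd1 hX' hv ht.1 with h1 | h1
          · exact ⟨_, _, Stp.R k e X Y a true hX, ⟨.R, rfl, rfl⟩, h1, ht2⟩
          · refine ⟨_, _, Stp.B k e X Y a hX, ⟨.B, rfl, by rw [hp]; rfl⟩, h1, ?_⟩
            rw [← ht2]
            simp only [cnt_append, cnt_cons]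
            simp
      | false =>
        rw [hp] at hs
        have huv : u ≠ v := by
          rintro rfl
          simp at hs
        simp only [if_true, huv, if_false, Option.some.injEq, Bool.false_eq_true] at hs
        subst hs
        rcases cf_fwd hX' (fresh_not_mem _) ht.1 with ⟨h1, h2⟩ | ⟨h1, h2, h3⟩
        · subst h1
          exact ⟨_, _, Stp.L k e X Y a b hX, ⟨.L, rfl, rfl⟩, h2, ht2⟩
        · subst h1; subst h2
          refine ⟨_, _, Stp.T k e X Y b hX, ⟨.T, rfl, by rw [hp]; rfl⟩, h3, ?_⟩
          rw [← ht2]
          simp only [cnt_append, cnt_cons]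
          simp
    | false =>
      cases c with
      | true =>
        rw [hp] at hs
        simp only [if_true, if_false, Option.some.injEq, Bool.false_eq_true] at hs
        subst hs
        have hm : m = false := by
          by_contra hcon
          have hm : m = true := by simpa using hcon
          subst hm
          exact no_loop q X Xl α v β Yl a b Y hX' hY' hL' (by simp only [List.length_append, List.length_cons] at hn ⊢; exact hn) ht
        subst hm
        have hu : u ∈ Xl ++ α :: v :: v :: β :: Yl := by
          have := mem_u hk hL hn hp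
          simp at this ⊢; tauto
        cases a with
        | false => exact ⟨_, _, Stp.R k e X Y false b hX, ⟨.R, rfl, rfl⟩, ct_fwd0' hX' hY' hu ht.1, ht2⟩
        | true =>
          rcases ct_fwd1' hX' hY' hu ht.1 with h1 | h1
          · exact ⟨_, _, Stp.R k e X Y true b hX, ⟨.R, rfl, rfl⟩, h1, ht2⟩
          · refine ⟨_, _, Stp.T k e X Y b hX, ⟨.T, rfl, by rw [hp]; rfl⟩, h1, ?_⟩
            rw [← ht2]
            simp only [cnt_append, cnt_cons]
            simp
      | false =>
        rw [hp] at hs
        have huv : u ≠ v := by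
          rintro rfl
          simp at hs
        simp only [huv, if_false, Option.some.injEq, Bool.false_eq_true] at hs
        subst hs
        rcases cf_fwd' hX' hY' (fresh_not_mem _) ht.1 with ⟨h1, h2⟩ | ⟨h1, h2, h3⟩
        · subst h1
          exact ⟨_, _, Stp.L k e X Y a b hX, ⟨.L, rfl, rfl⟩, h2, ht2⟩
        · subst h1; subst h2
          refine ⟨_, _, Stp.B k e X Y a hX, ⟨.B, rfl, by rw [hp]; rfl⟩, h3, ?_⟩
          rw [← ht2]
          simp only [cnt_append, cnt_cons]
          simp
  | cup k f =>
    obtain ⟨Xl, α, u, v, β, Yl, rfl, hk⟩ := split4 (k := k) (L := L) hfit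
    rw [labStep_cup q k f c Xl α u v β Yl hk] at hs
    have huv : u ≠ v := by
      rintro rfl
      simp at hs
    simp only [huv, if_false, Option.some.injEq] at hs
    subst hs
    obtain ⟨X, c', Y, rfl, hX⟩ := splitC1 (k := k) (C := C) (by simp [ren_length] at hlen; omega)
    have hX' : Xl.length = X.length := by rw [hk, hX]
    obtain ⟨a, b, h1, h2, h3⟩ := cup_fwd hX' c' (mem_cup hk hL hn huv) ht.1
    subst h2
    refine ⟨_, _, Stp.cup k f X Y a b hX h1, rfl, h3, ?_⟩
    have := ht.2
    simp only [List.length_append, List.length_cons, ren_length, cnt_append, cnt_cons] at this ⊢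
    cases a <;> cases b <;> simp at this h1 ⊢ <;> omega
  | cap k f =>
    obtain ⟨Xl, α, β, Yl, rfl, hk⟩ := split2 (k := k) (L := L) hfit
    rw [labStep_cap q k f c Xl α β Yl hk] at hs
    simp only [Option.some.injEq] at hs
    subst hs
    obtain ⟨X, a, m, b, Y, rfl, hX⟩ := splitC3 (k := k) (C := C) (by simp at hlen; omega)
    have hX' : Xl.length = X.length := by rw [hk, hX]
    have hY' : Yl.length = Y.length := by simp at hlen; omega
    have hm : m = false := by
      by_contra hcon
      have hm : m = true := by simpa using hcon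
      subst hm
      exact no_loop q X Xl α _ β Yl a b Y hX' hY' hL' (by simp only [List.length_append, List.length_cons] at hn ⊢; omega) ht
    subst hm
    obtain ⟨h1, h2⟩ := cap_fwd hX' a b (fresh_not_mem _) ht.1
    refine ⟨_, _, Stp.cap k f X Y a b hX h1, rfl, h2, ?_⟩
    have := ht.2
    simp only [List.length_append, List.length_cons, cnt_append, cnt_cons] at this ⊢
    cases a <;> cases b <;> simp at this h1 ⊢ <;> omega

end LG3P
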