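import Pool.Agent.Lib.MP_3cd99b_gt.L8

/-!
The runs of one label are the choices without a cycle.
-/

namespace LG3P
open LG3

/-- the word fits from n strands to one strand -/
def Fit : List Piece → ℕ → Prop
  | [], n => n = 1
  | .cross k _ :: w, n => k + 2 ≤ n ∧ Fit w n
  | .cup k _ :: w, n => k ≤ n ∧ Fit w (n + 2)
  | .cap k _ :: w, n => k + 2 ≤ n ∧ Fit w (n - 2)

/-- lengths on the two sides of a piece: a on the left, b on the right -/
def LenOk : Piece → ℕ → ℕ → Prop
  | .cross _ _, a, b => a = b
  | .cup _ _, a, b => a + 2 = b
  | .cap _ _, a, b => a = b + 2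

theorem labStep_length (q : Bool) (p : Piece) (c : Bool) (L L' : List ℕ) (hfit : FitL p L)
    (hs : labStep q p c L = some L') : LenOk p L'.length L.length := by
  cases p with
  | cross k e =>
    obtain ⟨Xl, α, u, v, β, Yl, rfl, hk⟩ := split4 (k := k) (L := L) hfit
    rw [labStep_cross q k e c Xl α u v β Yl hk] at hs
    show L'.length = _
    split_ifs at hs <;> simp only [Option.some.injEq] at hs <;> rw [← hs] <;> simp [ren_length]
  | cup k f =>
    obtain ⟨Xl, α, u, v, β, Yl, rfl, hk⟩ := split4 (k := k) (L := L) hfit
    rw [labStep_cup q k f c Xl α u v β Yl hk] at hs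
    show L'.length + 2 = _
    split_ifs at hs
    simp only [Option.some.injEq] at hs
    rw [← hs]
    simp [ren_length]
    omega
  | cap k f =>
    obtain ⟨Xl, α, β, Yl, rfl, hk⟩ := split2 (k := k) (L := L) hfit
    rw [labStep_cap q k f c Xl α β Yl hk] at hs
    show L'.length = _ + 2
    simp only [Option.some.injEq] at hs
    rw [← hs]
    simp
    omega

theorem labs_inv (q : Bool) : ∀ (w : List Piece) (n : ℕ), Fit w n → ∀ (x : List Bool) (L : List ℕ),
    labs q w x = some L → LOK q L ∧ L.length = n + 2 ∧ n % 2 = 1 := by
  intro w
  induction w with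
  | nil =>
    intro n hf x L h
    have hn : n = 1 := hf
    subst hn
    cases x with
    | nil =>
      simp only [labs, Option.some.injEq] at h
      subst h
      exact ⟨labs_nil_lok q, rfl, rfl⟩
    | cons c x => simp [labs] at h
  | cons p w ih =>
    intro n hf x L h
    cases p with
    | cross k e =>
      cases x with
      | nil => simp [labs] at h
      | cons c x =>
        simp only [labs, Option.bind_eq_some_iff] at h
        obtain ⟨L1, h1, h2⟩ := h
        obtain ⟨i1, i2, i3⟩ := ih n hf.2 x L1 h1
        have hfl : FitL (.cross k e) L1 := by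
          show k + 4 ≤ L1.length
          have := hf.1; omega
        have hl : L.length = L1.length := labStep_length q (.cross k e) c L1 L hfl h2
        exact ⟨lok_step q (.cross k e) c L1 L i1 h2 (by omega) hfl, by omega, i3⟩
    | cup k f =>
      simp only [labs, Option.bind_eq_some_iff] at h
      obtain ⟨L1, h1, h2⟩ := h
      obtain ⟨i1, i2, i3⟩ := ih (n + 2) hf.2 x L1 h1
      have hfl : FitL (.cup k f) L1 := by
        show k + 4 ≤ L1.length
        have := hf.1; omega
      have hl : L.length + 2 = L1.length := labStep_length q (.cup k f) false L1 L hfl h2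
      exact ⟨lok_step q (.cup k f) false L1 L i1 h2 (by omega) hfl, by omega, by omega⟩
    | cap k f =>
      simp only [labs, Option.bind_eq_some_iff] at h
      obtain ⟨L1, h1, h2⟩ := h
      obtain ⟨i1, i2, i3⟩ := ih (n - 2) hf.2 x L1 h1
      have hk := hf.1
      have hfl : FitL (.cap k f) L1 := by
        show k + 2 ≤ L1.length
        omega
      have hl : L.length = L1.length + 2 := labStep_length q (.cap k f) false L1 L hfl h2
      exact ⟨lok_step q (.cap k f) false L1 L i1 h2 (by omega) hfl, by omega, by omega⟩

theorem stp_length {p : Piece} {C C' : List Bool} {mk : Option Mk} (h : Stp p C C' mk) :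
    LenOk p C.length C'.length := by
  cases h <;> simp [LenOk] <;> omega

theorem stp_cross {k : ℕ} {e : Bool} {C C' : List Bool} {mk : Option Mk} (h : Stp (.cross k e) C C' mk) :
    ∃ m, mk = some m := by
  cases h <;> exact ⟨_, rfl⟩

theorem stp_cup {k : ℕ} {f : Bool} {C C' : List Bool} {mk : Option Mk} (h : Stp (.cup k f) C C' mk) : mk = none := by
  cases h; rfl

theorem stp_cap {k : ℕ} {f : Bool} {C C' : List Bool} {mk : Option Mk} (h : Stp (.cap k f) C C' mk) : mk = none := by
  cases h; rfl

theorem stp_head {p : Piece} {S C' : List Bool} {mk : Option Mk} (h : Stp p (false :: S) C' mk) :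
    ∃ S', C' = false :: S' := by
  generalize hC : false :: S = C at h
  cases h with
  | L k e X Y a b hX => exact ⟨S, hC.symm⟩
  | R k e X Y a b hX => exact ⟨S, hC.symm⟩
  | T k e X Y b hX =>
    cases X with
    | nil => simp at hC
    | cons x X =>
      simp only [List.cons_append, List.cons.injEq] at hC ⊢
      exact ⟨_, hC.1.symm, rfl⟩
  | B k e X Y a hX =>
    cases X with
    | nil =>
      simp only [List.nil_append, List.cons.injEq] at hC ⊢
      exact ⟨_, hC.1.symm, rfl⟩
    | cons x X =>
      simp only [List.cons_append, List.cons.injEq] at hC ⊢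
      exact ⟨_, hC.1.symm, rfl⟩
  | cup k f X Y a b hX hab =>
    cases X with
    | nil =>
      simp only [List.nil_append, List.cons.injEq] at hC ⊢
      refine ⟨_, ?_, rfl⟩
      have h1 := hC.1
      revert h1
      cases a <;> simp
    | cons x X =>
      simp only [List.cons_append, List.cons.injEq] at hC ⊢
      exact ⟨_, hC.1.symm, rfl⟩
  | cap k f X Y a b hX hab =>
    cases X with
    | nil =>
      simp only [List.nil_append, List.cons.injEq] at hC ⊢
      refine ⟨_, ?_, rfl⟩
      rw [← hC.1]; rfl
    | cons x X =>
      simp only [List.cons_append, List.cons.injEq] at hC ⊢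
      exact ⟨_, hC.1.symm, rfl⟩

theorem chv_cross (q : Bool) (k : ℕ) (e : Bool) (w : List Piece) (m : Mk) (ms : List Mk) :
    chv q (.cross k e :: w) (m :: ms) = inc (parq q k) m :: chv q w ms := rfl

theorem chv_cup (q : Bool) (k : ℕ) (f : Bool) (w : List Piece) (ms : List Mk) :
    chv q (.cup k f :: w) ms = chv q w ms := rfl

theorem chv_cap (q : Bool) (k : ℕ) (f : Bool) (w : List Piece) (ms : List Mk) :
    chv q (.cap k f :: w) ms = chv q w ms := rfl

/-- The runs of one label with choices x exist if and only if the chosen arcs contain no cycle and the contents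
form a tree with the labels. -/
theorem run_labs (q : Bool) : ∀ (w : List Piece) (n : ℕ), Fit w n → ∀ (S : List Bool), S.length = n →
    ∀ x : List Bool, (∃ ms ∈ run w S, chv q w ms = x) ↔ ∃ L, labs q w x = some L ∧ Tr L (false :: S) := by
  intro w
  induction w with
  | nil =>
    intro n hf S hS x
    have hn : n = 1 := hf
    subst hn
    match S, hS with
    | [s], _ =>
      constructor
      · rintro ⟨ms, h1, h2⟩
        simp only [run] at h1
        split_ifs at h1 with h3
        · simp only [List.mem_singleton] at h1
          subst h1
          subst h2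
          refine ⟨[0, 0, 0], rfl, ?_, ?_⟩
          · intro f _ u hu v hv
            simp at hu hv
            rw [hu, hv]
          · simp at h3
            subst h3
            rfl
        · simp at h1
      · rintro ⟨L, h1, h2⟩
        cases x with
        | cons c x => simp [labs] at h1
        | nil =>
          simp only [labs, Option.some.injEq] at h1
          subst h1
          have h3 := h2.2
          have h4 : s = false := by
            cases s with
            | false => rfl
            | true => simp [cnt] at h3
          subst h4
          exact ⟨[], by simp [run], rfl⟩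
  | cons p w ih =>
    intro n hf S hS x
    constructor
    · rintro ⟨ms, h1, h2⟩
      simp only [run, List.mem_flatMap, List.mem_map] at h1
      obtain ⟨o, ho, ms', hms', rfl⟩ := h1
      obtain ⟨mk, S'⟩ := o
      have hst := (t1_iff p S mk S').mp ho
      cases p with
      | cross k e =>
        have hl : (false :: S).length = (false :: S').length := stp_length hst
        have hl' : S'.length = n := by simp at hl; omega
        obtain ⟨L, hL1, hL2⟩ := (ih n hf.2 S' hl' (chv q w ms')).mp ⟨ms', hms', rfl⟩
        obtain ⟨i1, i2, i3⟩ := labs_inv q w n hf.2 _ L hL1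
        obtain ⟨m, rfl⟩ := stp_cross hst
        obtain ⟨L', h3, h4⟩ := step_bwd q (.cross k e) (some m) L (false :: S) (false :: S') i1 (by omega)
          (by simp; omega) hst hL2 (inc (parq q k) m) ⟨m, rfl, rfl⟩
        refine ⟨L', ?_, h4⟩
        rw [← h2]
        have e1 : chv q (.cross k e :: w) ((some m : Option Mk).toList ++ ms') = inc (parq q k) m :: chv q w ms' := rfl
        show labs q (.cross k e :: w) (chv q (.cross k e :: w) ((some m : Option Mk).toList ++ ms')) = some L'
        rw [e1]
        simp only [labs, hL1, Option.bind_some]
        exact h3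
      | cup k f =>
        have hl : (false :: S).length + 2 = (false :: S').length := stp_length hst
        have hl' : S'.length = n + 2 := by simp at hl; omega
        obtain ⟨L, hL1, hL2⟩ := (ih (n + 2) hf.2 S' hl' (chv q w ms')).mp ⟨ms', hms', rfl⟩
        obtain ⟨i1, i2, i3⟩ := labs_inv q w (n + 2) hf.2 _ L hL1
        have hmk : mk = none := stp_cup hst
        subst hmk
        obtain ⟨L', h3, h4⟩ := step_bwd q (.cup k f) none L (false :: S) (false :: S') i1 (by omega)
          (by simp; omega) hst hL2 false rfl
        refine ⟨L', ?_, h4⟩
        rw [← h2]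
        show (labs q w (chv q w ms')).bind (labStep q (.cup k f) false) = some L'
        rw [hL1]
        exact h3
      | cap k f =>
        have hk := hf.1
        have hl : (false :: S).length = (false :: S').length + 2 := stp_length hst
        have hl' : S'.length = n - 2 := by simp at hl; omega
        obtain ⟨L, hL1, hL2⟩ := (ih (n - 2) hf.2 S' hl' (chv q w ms')).mp ⟨ms', hms', rfl⟩
        obtain ⟨i1, i2, i3⟩ := labs_inv q w (n - 2) hf.2 _ L hL1
        have hmk : mk = none := stp_cap hst
        subst hmk
        obtain ⟨L', h3, h4⟩ := step_bwd q (.cap k f) none L (false :: S) (false :: S') i1 (by omega)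
          (by simp; omega) hst hL2 false rfl
        refine ⟨L', ?_, h4⟩
        rw [← h2]
        show (labs q w (chv q w ms')).bind (labStep q (.cap k f) false) = some L'
        rw [hL1]
        exact h3
    · rintro ⟨L', h1, h2⟩
      cases p with
      | cross k e =>
        cases x with
        | nil => simp [labs] at h1
        | cons c x =>
          simp only [labs, Option.bind_eq_some_iff] at h1
          obtain ⟨L, h3, h4⟩ := h1
          obtain ⟨i1, i2, i3⟩ := labs_inv q w n hf.2 _ L h3
          have hfl : FitL (.cross k e) L := by
            show k + 4 ≤ L.length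
            have := hf.1; omega
          have hl : L'.length = L.length := labStep_length q (.cross k e) c L L' hfl h4
          have i4 := lok_step q (.cross k e) c L L' i1 h4 (by omega) hfl
          obtain ⟨C', mk, h5, ⟨m, h6, h6'⟩, h7⟩ := step_fwd q (.cross k e) L L' (false :: S) c i1 i4 (by omega) hfl
            (by simp; omega) h4 h2
          subst h6
          obtain ⟨S', rfl⟩ := stp_head h5
          have hl2 : (false :: S).length = (false :: S').length := stp_length h5
          have hl' : S'.length = n := by simp at hl2; omega
          obtain ⟨ms, h8, h9⟩ := (ih n hf.2 S' hl' x).mpr ⟨L, h3, h7⟩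
          refine ⟨m :: ms, ?_, by rw [chv_cross, h6', h9]⟩
          simp only [run, List.mem_flatMap, List.mem_map]
          exact ⟨(some m, S'), (t1_iff _ S _ S').mpr h5, ms, h8, rfl⟩
      | cup k f =>
        simp only [labs, Option.bind_eq_some_iff] at h1
        obtain ⟨L, h3, h4⟩ := h1
        obtain ⟨i1, i2, i3⟩ := labs_inv q w (n + 2) hf.2 _ L h3
        have hfl : FitL (.cup k f) L := by
          show k + 4 ≤ L.length
          have := hf.1; omega
        have hl : L'.length + 2 = L.length := labStep_length q (.cup k f) false L L' hfl h4
        have i4 := lok_step q (.cup k f) false L L' i1 h4 (by omega) hfl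
        obtain ⟨C', mk, h5, h6, h7⟩ := step_fwd q (.cup k f) L L' (false :: S) false i1 i4 (by omega) hfl
          (by simp; omega) h4 h2
        have h6' : mk = none := h6
        subst h6'
        obtain ⟨S', rfl⟩ := stp_head h5
        have hl2 : (false :: S).length + 2 = (false :: S').length := stp_length h5
        have hl' : S'.length = n + 2 := by simp at hl2; omega
        obtain ⟨ms, h8, h9⟩ := (ih (n + 2) hf.2 S' hl' x).mpr ⟨L, h3, h7⟩
        refine ⟨ms, ?_, by rw [chv_cup, h9]⟩
        simp only [run, List.mem_flatMap, List.mem_map]
        exact ⟨(none, S'), (t1_iff _ S _ S').mpr h5, ms, h8, rfl⟩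
      | cap k f =>
        have hk := hf.1
        simp only [labs, Option.bind_eq_some_iff] at h1
        obtain ⟨L, h3, h4⟩ := h1
        obtain ⟨i1, i2, i3⟩ := labs_inv q w (n - 2) hf.2 _ L h3
        have hfl : FitL (.cap k f) L := by
          show k + 2 ≤ L.length
          omega
        have hl : L'.length = L.length + 2 := labStep_length q (.cap k f) false L L' hfl h4
        have i4 := lok_step q (.cap k f) false L L' i1 h4 (by omega) hfl
        obtain ⟨C', mk, h5, h6, h7⟩ := step_fwd q (.cap k f) L L' (false :: S) false i1 i4 (by omega) hfl
          (by simp; omega) h4 h2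
        have h6' : mk = none := h6
        subst h6'
        obtain ⟨S', rfl⟩ := stp_head h5
        have hl2 : (false :: S).length = (false :: S').length + 2 := stp_length h5
        have hl' : S'.length = n - 2 := by simp at hl2; omega
        obtain ⟨ms, h8, h9⟩ := (ih (n - 2) hf.2 S' hl' x).mpr ⟨L, h3, h7⟩
        refine ⟨ms, ?_, by rw [chv_cap, h9]⟩
        simp only [run, List.mem_flatMap, List.mem_map]
        exact ⟨(none, S'), (t1_iff _ S _ S').mpr h5, ms, h8, rfl⟩

/-- The runs of one label of a diagram from one strand to one strand. -/
theorem run_iff (q : Bool) (w : List Piece) (hf : Fit w 1) (x : List Bool) :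
    (∃ ms ∈ run w [false], chv q w ms = x) ↔ (labs q w x).isSome = true := by
  rw [run_labs q w 1 hf [false] rfl x]
  constructor
  · rintro ⟨L, h, -⟩
    rw [h]; rfl
  · intro h
    obtain ⟨L, hL⟩ := Option.isSome_iff_exists.mp h
    refine ⟨L, hL, ?_⟩
    obtain ⟨h1, h2, -⟩ := labs_inv q w 1 hf x L hL
    match L, h2 with
    | [a, b, c], _ =>
      have hac : a = c := by
        have := h1.hl
        simpa using this
      subst hac
      have hlen := lok_card q [a, b, a] h1 (by simp)
      rw [srcs_odd q _ (by simp)] at hlen
      have hab : a = b := by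
        by_contra hne
        have : ([a, b, a] : List ℕ).toFinset = {a, b} := by
          ext z; simp; tauto
        rw [this, Finset.card_pair hne] at hlen
        simp at hlen
      subst hab
      refine ⟨?_, by simp [cnt]⟩
      intro f _ u hu v hv
      simp at hu hv
      rw [hu, hv]

end LG3P
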