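import Mathlib

/-!
# Level graphs of pairs (abstract lemma for MP_3cd99b_gt, P2)

`α`, `β` two sets of states with symmetric flip relations, heights `k` in `[0, d]` (a flip changes the height by
`±1`), `q` on pairs (a single flip changes `q` by `±1`). If one can go monotonically up and down from every state,
and the states of height `d` are joined by flips inside heights `≥ d - 1`, then on every level `k x + l y = N ≥ d`
the values of `q` are all values of their parity between any two of them (`Sys.interval`). If the states of height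
`0` are joined by flips inside heights `≤ 1`, the same for `N ≤ d` (`Sys.interval_low`).
-/

namespace LG3P.Level

open Relation

/-- states with flips and heights in `[0, d]`; monotone moves exist in both directions -/
structure Sys (α : Type*) (d : ℤ) where
  /-- flips -/
  R : α → α → Prop
  /-- height -/
  k : α → ℤ
  symm : ∀ {x x'}, R x x' → R x' x
  step : ∀ {x x'}, R x x' → k x' = k x + 1 ∨ k x' = k x - 1
  lo : ∀ x, 0 ≤ k x
  hi : ∀ x, k x ≤ d
  up : ∀ x, k x < d → ∃ x', R x x' ∧ k x' = k x + 1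
  dn : ∀ x, 0 < k x → ∃ x', R x x' ∧ k x' = k x - 1

variable {α β : Type*} {d : ℤ}

/-- the states of height `d` are joined by flips inside heights `≥ d - 1` -/
def Sys.Top (S : Sys α d) : Prop := ∀ x x', S.k x = d → S.k x' = d →
  ReflTransGen (fun a b => S.R a b ∧ d - 1 ≤ S.k b) x x'

/-- the states of height `0` are joined by flips inside heights `≤ 1` -/
def Sys.Bot (S : Sys α d) : Prop := ∀ x x', S.k x = 0 → S.k x' = 0 →
  ReflTransGen (fun a b => S.R a b ∧ S.k b ≤ 1) x x'

/-- reversed heights -/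
def Sys.dual (S : Sys α d) : Sys α d where
  R := S.R
  k := fun x => d - S.k x
  symm := S.symm
  step := fun h => by rcases S.step h with h | h <;> rw [h] <;> [right; left] <;> ring
  lo := fun x => by have := S.hi x; linarith
  hi := fun x => by have := S.lo x; linarith
  up := fun x hx => by
    obtain ⟨x', h, h'⟩ := S.dn x (by linarith)
    exact ⟨x', h, by rw [h']; ring⟩
  dn := fun x hx => by
    obtain ⟨x', h, h'⟩ := S.up x (by linarith)
    exact ⟨x', h, by rw [h']; ring⟩

theorem Sys.dual_top (S : Sys α d) (h : S.Bot) : S.dual.Top := by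
  intro x x' hx hx'
  have h1 : S.k x = 0 := by simp only [Sys.dual] at hx; linarith
  have h2 : S.k x' = 0 := by simp only [Sys.dual] at hx'; linarith
  have h3 := h x x' h1 h2
  clear h2 hx'
  induction h3 with
  | refl => exact .refl
  | tail _ h ih => exact ih.tail ⟨h.1, by have := h.2; simp only [Sys.dual]; linarith⟩

/-- double moves: same level, `q` changes by `0` or `±2` -/
def Dm (S : Sys α d) (T : Sys β d) (q : α → β → ℤ) (p p' : α × β) : Prop :=
  S.k p'.1 + T.k p'.2 = S.k p.1 + T.k p.2 ∧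
    (q p'.1 p'.2 = q p.1 p.2 ∨ q p'.1 p'.2 = q p.1 p.2 + 2 ∨ q p'.1 p'.2 = q p.1 p.2 - 2)

theorem Dm.symm {S : Sys α d} {T : Sys β d} {q : α → β → ℤ} {p p' : α × β} (h : Dm S T q p p') :
    Dm S T q p' p := by
  obtain ⟨h1, h2⟩ := h
  refine ⟨h1.symm, ?_⟩
  rcases h2 with h2 | h2 | h2
  · left; exact h2.symm
  · right; right; rw [h2]; ring
  · right; left; rw [h2]; ring

theorem Dm.path_symm {S : Sys α d} {T : Sys β d} {q : α → β → ℤ} {p p' : α × β}
    (h : ReflTransGen (Dm S T q) p p') : ReflTransGen (Dm S T q) p' p := by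
  induction h with
  | refl => exact .refl
  | tail _ h ih => exact .head h.symm ih

theorem Dm.values {S : Sys α d} {T : Sys β d} {q : α → β → ℤ} {p p' : α × β}
    (h : ReflTransGen (Dm S T q) p p') (v : ℤ) (h1 : q p.1 p.2 ≤ v) (h2 : v ≤ q p'.1 p'.2)
    (h3 : 2 ∣ v - q p.1 p.2) :
    ∃ p'' : α × β, S.k p''.1 + T.k p''.2 = S.k p.1 + T.k p.2 ∧ q p''.1 p''.2 = v := by
  induction h with
  | refl => exact ⟨p, rfl, le_antisymm h1 h2⟩
  | @tail b c hb h ih =>
    by_cases h4 : v ≤ q b.1 b.2
    · exact ih h4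
    · have hl : S.k c.1 + T.k c.2 = S.k p.1 + T.k p.2 ∧ 2 ∣ q b.1 b.2 - q p.1 p.2 := by
        clear ih h2 h4
        have hb' : S.k b.1 + T.k b.2 = S.k p.1 + T.k p.2 ∧ 2 ∣ q b.1 b.2 - q p.1 p.2 := by
          clear h
          induction hb with
          | refl => exact ⟨rfl, by simp⟩
          | tail _ h ih =>
            obtain ⟨ih1, ih2⟩ := ih
            refine ⟨h.1.trans ih1, ?_⟩
            rcases h.2 with h | h | h <;> omega
        exact ⟨h.1.trans hb'.1, hb'.2⟩
      refine ⟨c, hl.1, ?_⟩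
      rcases h.2 with h | h | h <;> omega

section
variable (S : Sys α d) (T : Sys β d) (q : α → β → ℤ)
  (hS : ∀ x x' y, S.R x x' → q x' y = q x y + 1 ∨ q x' y = q x y - 1)
  (hT : ∀ x y y', T.R y y' → q x y' = q x y + 1 ∨ q x y' = q x y - 1)
include hS hT

theorem both (x x' : α) (y y' : β) (h : S.R x x') (h' : T.R y y') (hk : S.k x' + T.k y' = S.k x + T.k y) :
    Dm S T q (x, y) (x', y') := by
  refine ⟨hk, ?_⟩
  have h1 := hS x x' y h
  have h2 := hT x' y y' h'
  simp only
  rcases h1 with h1 | h1 <;> rcases h2 with h2 | h2 <;> omega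

omit hT in
theorem moveX (x x' : α) (y : β) (hx : S.k x = d) (h : ReflTransGen (fun a b => S.R a b ∧ d - 1 ≤ S.k b) x x') :
    (S.k x' = d → ReflTransGen (Dm S T q) (x, y) (x', y)) ∧
      (S.k x' = d - 1 → ∃ z, S.R z x' ∧ S.k z = d ∧ ReflTransGen (Dm S T q) (x, y) (z, y)) ∧ d - 1 ≤ S.k x' := by
  induction h with
  | refl => exact ⟨fun _ => .refl, fun h => absurd h (by linarith), by linarith⟩
  | @tail b c hb h ih =>
    obtain ⟨ih1, ih2, ih3⟩ := ih
    obtain ⟨h1, h2⟩ := h
    have h3 := S.hi b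
    have h4 := S.hi c
    have h5 := S.step h1
    refine ⟨?_, ?_, h2⟩
    · intro hc
      have hb' : S.k b = d - 1 := by rcases h5 with h5 | h5 <;> linarith
      obtain ⟨z, hz1, hz2, hz3⟩ := ih2 hb'
      refine hz3.tail ⟨by simp only [hc, hz2], ?_⟩
      have h6 := hS z b y hz1
      have h7 := hS b c y h1
      simp only
      rcases h6 with h6 | h6 <;> rcases h7 with h7 | h7 <;> omega
    · intro hc
      have hb' : S.k b = d := by rcases h5 with h5 | h5 <;> linarith
      exact ⟨b, h1, hb', ih1 hb'⟩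

omit hS in
theorem moveY (x : α) (y y' : β) (hy : T.k y = d) (h : ReflTransGen (fun a b => T.R a b ∧ d - 1 ≤ T.k b) y y') :
    (T.k y' = d → ReflTransGen (Dm S T q) (x, y) (x, y')) ∧
      (T.k y' = d - 1 → ∃ z, T.R z y' ∧ T.k z = d ∧ ReflTransGen (Dm S T q) (x, y) (x, z)) ∧ d - 1 ≤ T.k y' := by
  induction h with
  | refl => exact ⟨fun _ => .refl, fun h => absurd h (by linarith), by linarith⟩
  | @tail b c hb h ih =>
    obtain ⟨ih1, ih2, ih3⟩ := ih
    obtain ⟨h1, h2⟩ := h
    have h3 := T.hi b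
    have h4 := T.hi c
    have h5 := T.step h1
    refine ⟨?_, ?_, h2⟩
    · intro hc
      have hb' : T.k b = d - 1 := by rcases h5 with h5 | h5 <;> linarith
      obtain ⟨z, hz1, hz2, hz3⟩ := ih2 hb'
      refine hz3.tail ⟨by simp only [hc, hz2], ?_⟩
      have h6 := hT x z b hz1
      have h7 := hT x b c h1
      simp only
      rcases h6 with h6 | h6 <;> rcases h7 with h7 | h7 <;> omega
    · intro hc
      have hb' : T.k b = d := by rcases h5 with h5 | h5 <;> linarith
      exact ⟨b, h1, hb', ih1 hb'⟩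

/-- raise `x` to height `d` while `y` goes down -/
theorem raise (n : ℕ) : ∀ (x : α) (y : β), S.k x = d - n → d ≤ S.k x + T.k y →
    ∃ x' y', S.k x' = d ∧ ReflTransGen (Dm S T q) (x, y) (x', y') := by
  induction n with
  | zero => intro x y hx _; exact ⟨x, y, by simpa using hx, .refl⟩
  | succ n ih =>
    intro x y hx hN
    push_cast at hx
    obtain ⟨x1, h1, h2⟩ := S.up x (by linarith)
    obtain ⟨y1, h3, h4⟩ := T.dn y (by linarith)
    obtain ⟨x', y', h5, h6⟩ := ih x1 y1 (by rw [h2, hx]; ring) (by rw [h2, h4]; linarith)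
    exact ⟨x', y', h5, .head (both S T q hS hT x x1 y y1 h1 h3 (by rw [h2, h4]; ring)) h6⟩

/-- change `y` at fixed `x` -/
theorem change (hTop : T.Top) (n : ℕ) : ∀ (x : α) (y y' : β), T.k y = d - n → T.k y' = d - n → (n : ℤ) ≤ S.k x →
    ReflTransGen (Dm S T q) (x, y) (x, y') := by
  induction n with
  | zero =>
    intro x y y' hy hy' _
    have hy : T.k y = d := by simpa using hy
    have hy' : T.k y' = d := by simpa using hy'
    exact (moveY S T q hT x y y' hy (hTop y y' hy hy')).1 hy'
  | succ n ih =>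
    intro x y y' hy hy' hx
    push_cast at hy hy' hx
    obtain ⟨x1, h1, h2⟩ := S.dn x (by linarith)
    obtain ⟨y1, h3, h4⟩ := T.up y (by linarith)
    obtain ⟨y2, h5, h6⟩ := T.up y' (by linarith)
    have h7 := ih x1 y1 y2 (by rw [h4, hy]; ring) (by rw [h6, hy']; ring) (by rw [h2]; linarith)
    exact .head (both S T q hS hT x x1 y y1 h1 h3 (by rw [h2, h4]; ring))
      (h7.tail (both S T q hS hT x x1 y' y2 h1 h5 (by rw [h2, h6]; ring)).symm)

/-- the level graph of a level `≥ d` is connected -/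
theorem connected (hS' : S.Top) (hT' : T.Top) (x x' : α) (y y' : β) (h1 : d ≤ S.k x + T.k y)
    (h2 : S.k x' + T.k y' = S.k x + T.k y) : ReflTransGen (Dm S T q) (x, y) (x', y') := by
  have lev : ∀ {p p' : α × β}, ReflTransGen (Dm S T q) p p' → S.k p'.1 + T.k p'.2 = S.k p.1 + T.k p.2 := by
    intro p p' h
    induction h with
    | refl => rfl
    | tail _ h ih => exact h.1.trans ih
  obtain ⟨a, b, ha, hab⟩ := raise S T q hS hT (d - S.k x).toNat x y
    (by rw [Int.toNat_of_nonneg (by linarith [S.hi x])]; ring) h1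
  obtain ⟨a', b', ha', hab'⟩ := raise S T q hS hT (d - S.k x').toNat x' y'
    (by rw [Int.toNat_of_nonneg (by linarith [S.hi x'])]; ring) (by rw [h2]; exact h1)
  have l1 := lev hab
  have l2 := lev hab'
  simp only at l1 l2
  have h3 := (moveX S T q hS a a' b ha (hS' a a' ha ha')).1 ha'
  have hb : T.k b = d - ((d - T.k b).toNat : ℤ) := by
    rw [Int.toNat_of_nonneg (by linarith [T.hi b])]; ring
  have hbb : T.k b' = T.k b := by linarith
  have h4 := change S T q hS hT hT' (d - T.k b).toNat a' b b' hb (hbb ▸ hb)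
    (by rw [Int.toNat_of_nonneg (by linarith [T.hi b])]; linarith)
  exact ((hab.trans h3).trans h4).trans (Dm.path_symm hab')

/-- On a level `≥ d` the values of `q` are all values of their parity between any two of them. -/
theorem interval (hS' : S.Top) (hT' : T.Top) (x x' : α) (y y' : β) (h1 : d ≤ S.k x + T.k y)
    (h2 : S.k x' + T.k y' = S.k x + T.k y) (v : ℤ) (h3 : q x y ≤ v) (h4 : v ≤ q x' y')
    (h5 : 2 ∣ v - q x y) : ∃ x'' y'', S.k x'' + T.k y'' = S.k x + T.k y ∧ q x'' y'' = v := by
  obtain ⟨p, hp⟩ := Dm.values (connected S T q hS hT hS' hT' x x' y y' h1 h2) v h3 h4 h5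
  exact ⟨p.1, p.2, hp⟩

/-- On a level `≤ d` the values of `q` are all values of their parity between any two of them. -/
theorem interval_low (hS' : S.Bot) (hT' : T.Bot) (x x' : α) (y y' : β) (h1 : S.k x + T.k y ≤ d)
    (h2 : S.k x' + T.k y' = S.k x + T.k y) (v : ℤ) (h3 : q x y ≤ v) (h4 : v ≤ q x' y')
    (h5 : 2 ∣ v - q x y) : ∃ x'' y'', S.k x'' + T.k y'' = S.k x + T.k y ∧ q x'' y'' = v := by
  obtain ⟨x'', y'', h6, h7⟩ := interval S.dual T.dual q (fun x x' y h => hS x x' y h)
    (fun x y y' h => hT x y y' h) (S.dual_top hS') (T.dual_top hT') x x' y y'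
    (by simp only [Sys.dual]; linarith) (by simp only [Sys.dual]; linarith) v h3 h4 h5
  refine ⟨x'', y'', ?_, h7⟩
  simp only [Sys.dual] at h6
  linarith

end

end LG3P.Level
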