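import Pool.Agent.Lib.MP_3cd99b_gt.V

/-! The value of the diagrams and of their mirror images. -/

open Finset

namespace LG3

variable {K : Type*} [Field K]

/-- combination of a matrix, its inverse and the identity -/
def li (R R' : Mat K) (a b c : K) : Mat K := a • R + b • R' + c • (1 : Mat K)

section
variable {t0 t1 : K} (h0 : t0 ≠ 0) (h1 : t1 ≠ 0) {R R' : Mat K} (r1 : R * R' = 1) (r2 : R' * R = 1)
  (c1 : R * R = (t0 + t1 - 1) • R + (t0 + t1 - t0 * t1) • (1 : Mat K) + (-(t0 * t1)) • R')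
  (c2 : R' * R' = (t0⁻¹ + t1⁻¹ - 1) • R' + (t0⁻¹ + t1⁻¹ - (t0 * t1)⁻¹) • (1 : Mat K) + (-(t0 * t1)⁻¹) • R)
include h0 h1 r1 r2 c1 c2

omit h0 h1 in
theorem li_mul (a b c a' b' c' : K) : li R R' a b c * li R R' a' b' c' =
    li R R' (a * a' * (t0 + t1 - 1) + a * c' + c * a' - b * b' * (t0 * t1)⁻¹)
      (b * b' * (t0⁻¹ + t1⁻¹ - 1) + b * c' + c * b' - a * a' * (t0 * t1))
      (c * c' + a * b' + b * a' + a * a' * (t0 + t1 - t0 * t1) +
        b * b' * (t0⁻¹ + t1⁻¹ - (t0 * t1)⁻¹)) := by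
  simp only [li, Matrix.add_mul, Matrix.mul_add, Matrix.smul_mul, Matrix.mul_smul, Matrix.one_mul,
    Matrix.mul_one, c1, c2, r1, r2]
  ext p q
  simp only [Matrix.add_apply, Matrix.smul_apply, smul_eq_mul]
  ring

theorem li'_mul (a b c a' b' c' : K) :
    li R R' a (-(t0 * t1) * b) c * li R R' a' (-(t0 * t1) * b') c' =
    li R R' (a * a' * (t0 + t1 - 1) + a * c' + c * a' - t0 * t1 * (b * b'))
      (-(t0 * t1) * (b * b' * (t0 * t1 - t0 - t1) + b * c' + c * b' + a * a'))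
      (c * c' - t0 * t1 * (a * b' + b * a') + a * a' * (t0 + t1 - t0 * t1) +
        t0 * t1 * (b * b' * (t0 + t1 - 1))) := by
  rw [li_mul r1 r2 c1 c2]
  congr 1 <;> field_simp <;> ring

variable {τ : Mat K → K} {δ : K} (τa : ∀ M N, τ (M + N) = τ M + τ N) (τs : ∀ (z : K) M, τ (z • M) = z * τ M)
  (τ1 : τ 1 = 0) (τR : τ R = δ) (τR' : τ R' = δ)
include τa τs τ1 τR τR'

omit h0 h1 r1 r2 c1 c2 in
theorem tr_li (a b c : K) : τ (li R R' a b c) = (a + b) * δ := by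
  rw [li, τa, τa, τs, τs, τs, τ1, τR, τR']
  ring

theorem tr_li' (A B C a b c : K) : τ (li R R' A (-(t0 * t1) * B) C * li R R' a b c) =
    ((A - t0 * t1 * B) * c + C * (a + b) + (1 - t0) * (1 - t1) * (B * b - A * a)) * δ := by
  rw [li_mul r1 r2 c1 c2, tr_li τa τs τ1 τR τR']
  congr 1
  field_simp
  ring

/-- three positive columns -/
theorem tr_pos (a b c : ℕ) : τ (li R R' (bn (t0 * t1) (a + 1)) (-(t0 * t1 * bn (t0 * t1) a))
      (-(2 * (1 - t0) * (1 - t1) * sn (t0 * t1) a)) *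
    (li R R' (bn (t0 * t1) (b + 1)) (-(t0 * t1 * bn (t0 * t1) b)) (-(2 * (1 - t0) * (1 - t1) * sn (t0 * t1) b)) *
    li R R' (bn (t0 * t1) (c + 1)) (-(t0 * t1 * bn (t0 * t1) c)) (-(2 * (1 - t0) * (1 - t1) * sn (t0 * t1) c)))) =
    valP t0 t1 (bn (t0 * t1) a) (bn (t0 * t1) (a + 1)) (bn (t0 * t1) b) (bn (t0 * t1) (b + 1))
      (bn (t0 * t1) c) (bn (t0 * t1) (c + 1)) (sn (t0 * t1) a) (sn (t0 * t1) b) (sn (t0 * t1) c) * δ := by
  have e : ∀ n, -(t0 * t1 * bn (t0 * t1) n) = -(t0 * t1) * bn (t0 * t1) n := fun n => by ring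
  rw [e, e, e, ← mul_assoc, li'_mul h0 h1 r1 r2 c1 c2, tr_li' h0 h1 r1 r2 c1 c2 τa τs τ1 τR τR']
  congr 1
  simp only [valP, bn]
  ring

/-- two positive columns, the second with one crossing, and one negative column -/
theorem tr_neg (m n : ℕ) : τ (li R R' (bn (t0 * t1) (m + 1)) (-(t0 * t1 * bn (t0 * t1) m))
      (-(2 * (1 - t0) * (1 - t1) * sn (t0 * t1) m)) *
    (li R R' (bn (t0 * t1) (0 + 1)) (-(t0 * t1 * bn (t0 * t1) 0)) (-(2 * (1 - t0) * (1 - t1) * sn (t0 * t1) 0)) *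
    li R R' (-((t0 * t1)⁻¹ * bn (t0 * t1)⁻¹ n)) (bn (t0 * t1)⁻¹ (n + 1))
      (-(2 * (1 - t0⁻¹) * (1 - t1⁻¹) * sn (t0 * t1)⁻¹ n)))) =
    ((t0 * t1) ^ n)⁻¹ * valN t0 t1 ((t0 * t1) ^ n) (bn (t0 * t1) m) (bn (t0 * t1) (m + 1)) (bn (t0 * t1) n)
      (sn (t0 * t1) m) (tn (t0 * t1) n) * δ := by
  have hx : t0 * t1 ≠ 0 := mul_ne_zero h0 h1
  have hk : (1 - t0⁻¹) * (1 - t1⁻¹) * (t0 * t1) = (1 - t0) * (1 - t1) := by
    field_simp
    ring
  have h3 := bn_inv hx n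
  have h4 := bn_inv hx (n + 1)
  have h5 := sn_inv hx n
  have h6 := bn_succ' (t0 * t1) n
  have e : ∀ n, -(t0 * t1 * bn (t0 * t1) n) = -(t0 * t1) * bn (t0 * t1) n := fun n => by ring
  rw [e, e, ← mul_assoc, li'_mul h0 h1 r1 r2 c1 c2, tr_li' h0 h1 r1 r2 c1 c2 τa τs τ1 τR τR']
  congr 1
  have hxn : (t0 * t1) ^ n ≠ 0 := pow_ne_zero _ hx
  have e1 : (t0 * t1)⁻¹ * bn (t0 * t1)⁻¹ n = ((t0 * t1) ^ n)⁻¹ * bn (t0 * t1) n := by
    rw [← mul_right_inj' hxn, ← mul_right_inj' hx]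
    calc t0 * t1 * ((t0 * t1) ^ n * ((t0 * t1)⁻¹ * bn (t0 * t1)⁻¹ n))
        = (t0 * t1 * (t0 * t1)⁻¹) * (bn (t0 * t1)⁻¹ n * (t0 * t1) ^ n) := by ring
      _ = t0 * t1 * bn (t0 * t1) n := by rw [mul_inv_cancel₀ hx, h3, one_mul]
      _ = t0 * t1 * ((t0 * t1) ^ n * (((t0 * t1) ^ n)⁻¹ * bn (t0 * t1) n)) := by
          rw [← mul_assoc ((t0 * t1) ^ n), mul_inv_cancel₀ hxn, one_mul]
  have e2 : bn (t0 * t1)⁻¹ (n + 1) = ((t0 * t1) ^ n)⁻¹ * bn (t0 * t1) (n + 1) := by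
    rw [← mul_right_inj' hxn, ← mul_right_inj' hx]
    calc t0 * t1 * ((t0 * t1) ^ n * bn (t0 * t1)⁻¹ (n + 1))
        = bn (t0 * t1)⁻¹ (n + 1) * (t0 * t1) ^ (n + 1) := by rw [pow_succ]; ring
      _ = t0 * t1 * bn (t0 * t1) (n + 1) := h4
      _ = t0 * t1 * ((t0 * t1) ^ n * (((t0 * t1) ^ n)⁻¹ * bn (t0 * t1) (n + 1))) := by
          rw [← mul_assoc ((t0 * t1) ^ n), mul_inv_cancel₀ hxn, one_mul]
  have e3 : 2 * (1 - t0⁻¹) * (1 - t1⁻¹) * sn (t0 * t1)⁻¹ n =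
      ((t0 * t1) ^ n)⁻¹ * (2 * (1 - t0) * (1 - t1) * tn (t0 * t1) n) := by
    rw [← mul_right_inj' hxn]
    calc (t0 * t1) ^ n * (2 * (1 - t0⁻¹) * (1 - t1⁻¹) * sn (t0 * t1)⁻¹ n)
        = 2 * (1 - t0⁻¹) * (1 - t1⁻¹) * (sn (t0 * t1)⁻¹ n * (t0 * t1) ^ n) := by ring
      _ = 2 * ((1 - t0⁻¹) * (1 - t1⁻¹) * (t0 * t1)) * tn (t0 * t1) n := by rw [h5]; ring
      _ = 2 * (1 - t0) * (1 - t1) * tn (t0 * t1) n := by rw [hk]; ring
      _ = (t0 * t1) ^ n * (((t0 * t1) ^ n)⁻¹ * (2 * (1 - t0) * (1 - t1) * tn (t0 * t1) n)) := by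
          rw [← mul_assoc ((t0 * t1) ^ n), mul_inv_cancel₀ hxn, one_mul]
  rw [e1, e2, e3, h6]
  have h7 : bn (t0 * t1) n + (t0 * t1) ^ n = 1 + t0 * t1 * bn (t0 * t1) n := by
    rw [← h6, bn]
  have h8 : ((t0 * t1) ^ n) = 1 + (t0 * t1 - 1) * bn (t0 * t1) n := by linear_combination h7
  have h9 : ((t0 * t1) ^ n)⁻¹ * ((t0 * t1) ^ n) = 1 := inv_mul_cancel₀ hxn
  generalize hY : ((t0 * t1) ^ n)⁻¹ = Y at h9 ⊢
  generalize hXX : (t0 * t1) ^ n = XX at h8 h9 ⊢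
  subst h8
  simp only [valN, bn, sn]
  ring

end

/-- the variables, inverted for a negative sign -/
def T0 (α : K) (s : Bool) : K := if s then α ^ 2 else (α ^ 2)⁻¹

section
variable {α β : K} (ha : α ≠ 0) (hb : β ≠ 0)

theorem xs_T (s : Bool) : xs α β s = T0 α s * T0 β s := by
  cases s
  · rw [xs_false, T0, T0, if_neg Bool.false_ne_true, if_neg Bool.false_ne_true, mul_inv]
  · rw [xs_true, T0, T0, if_pos rfl, if_pos rfl]

theorem ks_T (s : Bool) : ks α β s = 2 * (1 - T0 α s) * (1 - T0 β s) := by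
  cases s
  · rw [ks_false, T0, T0, if_neg Bool.false_ne_true, if_neg Bool.false_ne_true]
  · rw [ks_true, T0, T0, if_pos rfl, if_pos rfl]

theorem T0_not (s : Bool) : T0 α (!s) = (T0 α s)⁻¹ := by
  cases s
  · simp [T0]
  · simp [T0]

include ha in
theorem T0_ne (s : Bool) : T0 α s ≠ 0 := by
  cases s
  · simp [T0, ha]
  · simp [T0, ha]

include ha hb

theorem mat_cubT (s : Bool) : Rt α β s * Rt α β s =
    (T0 α s + T0 β s - 1) • Rt α β s + (T0 α s + T0 β s - T0 α s * T0 β s) • (1 : Mat K) +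
      (-(T0 α s * T0 β s)) • Rt α β (!s) := by
  cases s
  · rw [mat_cub' ha hb]
    simp only [T0, if_neg Bool.false_ne_true, Bool.not_false, mul_inv]
  · rw [mat_cub ha hb]
    simp only [T0, if_true, Bool.not_true]

theorem Col_T (s : Bool) (n : ℕ) : Col α β (n, s) = li (Rt α β s) (Rt α β (!s)) (bn (T0 α s * T0 β s) (n + 1))
    (-(T0 α s * T0 β s * bn (T0 α s * T0 β s) n)) (-(2 * (1 - T0 α s) * (1 - T0 β s) * sn (T0 α s * T0 β s) n)) := by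
  rw [Col, rot_Tw ha hb, li, xs_T, ks_T]

theorem Col_T' (s : Bool) (n : ℕ) : Col α β (n, !s) = li (Rt α β s) (Rt α β (!s))
    (-((T0 α s * T0 β s)⁻¹ * bn (T0 α s * T0 β s)⁻¹ n)) (bn (T0 α s * T0 β s)⁻¹ (n + 1))
    (-(2 * (1 - (T0 α s)⁻¹) * (1 - (T0 β s)⁻¹) * sn (T0 α s * T0 β s)⁻¹ n)) := by
  rw [Col_T ha hb, Bool.not_not, T0_not, T0_not, ← mul_inv, li, li]
  congr 1
  rw [add_comm]

theorem value_posT (s : Bool) (a b c : ℕ) (i j : Fin 4) :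
    amp α β (pretzel [(a, s), (b, s), (c, s)]) [i] [j] =
    if i = j then valP (T0 α s) (T0 β s) (bn (T0 α s * T0 β s) a) (bn (T0 α s * T0 β s) (a + 1))
      (bn (T0 α s * T0 β s) b) (bn (T0 α s * T0 β s) (b + 1)) (bn (T0 α s * T0 β s) c)
      (bn (T0 α s * T0 β s) (c + 1))
      (sn (T0 α s * T0 β s) a) (sn (T0 α s * T0 β s) b) (sn (T0 α s * T0 β s) c) else 0 := by
  rw [amp_pretzel]
  simp only [List.map_cons, List.map_nil, List.prod_cons, List.prod_nil, mul_one]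
  rw [Col_T ha hb, Col_T ha hb, Col_T ha hb]
  have c2 := mat_cubT ha hb (!s)
  rw [Bool.not_not, T0_not, T0_not, ← mul_inv] at c2
  have r2 := mat_RR ha hb (!s)
  rw [Bool.not_not] at r2
  have := tr_pos (T0_ne ha s) (T0_ne hb s) (mat_RR ha hb s) r2 (mat_cubT ha hb s) c2
    (τ := fun M => cl α β M i j) (δ := if i = j then 1 else 0) (fun M N => cl_add α β M N i j)
    (fun z M => cl_smul α β z M i j) (cl_one α β i j) (cl_Rt ha hb s i j) (cl_Rt ha hb (!s) i j) a b c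
  rw [this]
  split_ifs <;> ring

theorem value_negT (s : Bool) (m n : ℕ) (i j : Fin 4) :
    amp α β (pretzel [(m, s), (0, s), (n, !s)]) [i] [j] =
    if i = j then ((T0 α s * T0 β s) ^ n)⁻¹ * valN (T0 α s) (T0 β s) ((T0 α s * T0 β s) ^ n)
      (bn (T0 α s * T0 β s) m) (bn (T0 α s * T0 β s) (m + 1)) (bn (T0 α s * T0 β s) n) (sn (T0 α s * T0 β s) m)
      (tn (T0 α s * T0 β s) n) else 0 := by
  rw [amp_pretzel]
  simp only [List.map_cons, List.map_nil, List.prod_cons, List.prod_nil, mul_one]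
  rw [Col_T ha hb, Col_T ha hb, Col_T' ha hb]
  have c2 := mat_cubT ha hb (!s)
  rw [Bool.not_not, T0_not, T0_not, ← mul_inv] at c2
  have r2 := mat_RR ha hb (!s)
  rw [Bool.not_not] at r2
  have := tr_neg (T0_ne ha s) (T0_ne hb s) (mat_RR ha hb s) r2 (mat_cubT ha hb s) c2
    (τ := fun M => cl α β M i j) (δ := if i = j then 1 else 0) (fun M N => cl_add α β M N i j)
    (fun z M => cl_smul α β z M i j) (cl_one α β i j) (cl_Rt ha hb s i j) (cl_Rt ha hb (!s) i j) m n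
  rw [this]
  split_ifs <;> ring

end

end LG3
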