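import Pool.Agent.Lib.MP_3cd99b_gt.F2c
import Pool.Agent.Lib.MP_3cd99b_gt.V2

/-! The Links-Gould polynomials of the alternating knots of genus one are unimodal. -/

open Finset Polynomial

namespace LG3

theorem dirs_append (w w' : List Piece) (l : List Bool) : dirs (w ++ w') l = (dirs w l).bind (dirs w') := by
  induction w generalizing l with
  | nil => rfl
  | cons p w ih =>
    show (p.dir l).bind (dirs (w ++ w')) = ((p.dir l).bind (dirs w)).bind (dirs w')
    rw [Option.bind_assoc]
    congr 1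
    funext m
    exact ih m

theorem dirs_twists (s : Bool) (n : ℕ) (l : List Bool) :
    dirs (twists s 1 n) (true :: true :: false :: l) = some (true :: false :: true :: l) := by
  induction n with
  | zero => simp [twists, twistA, dirs, Piece.dir]
  | succ n ih =>
    have h1 : dirs (twistA s 1) (true :: true :: false :: l) = some (true :: false :: true :: l) := by
      simp [twistA, dirs, Piece.dir]
    have h2 : dirs (twistB s 1) (true :: false :: true :: l) = some (true :: true :: false :: l) := by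
      simp [twistB, dirs, Piece.dir]
    rw [twists, dirs_append, h1, Option.bind_some, dirs_append, h2, Option.bind_some, ih]

theorem dirs_column (c : ℕ × Bool) (l : List Bool) :
    dirs (column c) (true :: true :: l) = some (true :: true :: l) := by
  have h1 : dirs (column c) (true :: true :: l) =
      dirs (twists c.2 1 c.1 ++ [.cap 0 true]) (true :: true :: false :: true :: l) := by
    simp [column, dirs, Piece.dir]
  rw [h1, dirs_append, dirs_twists, Option.bind_some]
  simp [dirs, Piece.dir]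

theorem dirs_columns (cs : List (ℕ × Bool)) (l : List Bool) :
    dirs (cs.flatMap column) (true :: true :: l) = some (true :: true :: l) := by
  induction cs with
  | nil => rfl
  | cons c cs ih => rw [List.flatMap_cons, dirs_append, dirs_column, Option.bind_some, ih]

theorem dirs_pretzel (cs : List (ℕ × Bool)) : dirs (pretzel cs) [true] = some [true] := by
  have h1 : dirs (pretzel cs) [true] = dirs (cs.flatMap column ++ [.cap 1 true]) [true, true, false] := by
    simp [pretzel, dirs, Piece.dir]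
  rw [h1, dirs_append, dirs_columns, Option.bind_some]
  simp [dirs, Piece.dir]

/-- the Laurent polynomial with inverted variables -/
noncomputable def flipP (P : ℤ × ℤ →₀ ℤ) : ℤ × ℤ →₀ ℤ := P.equivMapDomain (Equiv.neg (ℤ × ℤ))

theorem flipP_apply (P : ℤ × ℤ →₀ ℤ) (z : ℤ × ℤ) : flipP P z = P (-z) := by
  rw [flipP, Finsupp.equivMapDomain_apply, Equiv.neg_symm, Equiv.neg_apply]

theorem evalAt_flip (P : ℤ × ℤ →₀ ℤ) (t0 t1 : ℂ) : evalAt (flipP P) t0 t1 = evalAt P t0⁻¹ t1⁻¹ := by
  rw [flipP, Finsupp.equivMapDomain_eq_mapDomain, evalAt, Finsupp.sum_mapDomain_index, evalAt]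
  · refine Finsupp.sum_congr (fun z _ => ?_)
    simp
  · intro z
    simp
  · intro z c d
    push_cast
    ring

theorem flip_unimodal {P : ℤ × ℤ →₀ ℤ} (h : Unimodal P) : Unimodal (flipP P) := by
  intro c hc z hz
  have h1 := h c hc (-z)
  have hS : {z : ℤ × ℤ | flipP P z ≠ 0 ∧ c ≤ |(flipP P z : ℝ)|} =
      Neg.neg '' {z : ℤ × ℤ | P z ≠ 0 ∧ c ≤ |(P z : ℝ)|} := by
    ext w
    simp only [Set.mem_ofPred_eq, flipP_apply, Set.mem_image]
    constructor
    · intro hw
      exact ⟨-w, hw, neg_neg w⟩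
    · rintro ⟨v, hv, rfl⟩
      rwa [neg_neg]
  rw [hS, Set.image_image] at hz
  have h2 : ((fun w : ℤ × ℤ => ((((-w).1 : ℤ) : ℝ), (((-w).2 : ℤ) : ℝ))) ''
      {z : ℤ × ℤ | P z ≠ 0 ∧ c ≤ |(P z : ℝ)|}) =
      -((fun w : ℤ × ℤ => ((w.1 : ℝ), (w.2 : ℝ))) '' {z : ℤ × ℤ | P z ≠ 0 ∧ c ≤ |(P z : ℝ)|}) := by
    rw [← Set.image_neg_eq_neg, Set.image_image]
    refine Set.image_congr (fun w _ => ?_)
    simp
  rw [h2, convexHull_neg, Set.mem_neg] at hz
  have h3 := h1 (by simpa using hz)
  rw [hS]
  exact ⟨-z, h3, neg_neg z⟩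

/-- the mirror image for a negative sign -/
noncomputable def mir (s : Bool) (P : ℤ × ℤ →₀ ℤ) : ℤ × ℤ →₀ ℤ := if s then P else flipP P

theorem mir_eval (s : Bool) (P : ℤ × ℤ →₀ ℤ) (α β : ℂ) :
    evalAt (mir s P) (α ^ 2) (β ^ 2) = evalAt P (T0 α s) (T0 β s) := by
  cases s
  · rw [mir, if_neg Bool.false_ne_true, evalAt_flip, T0, T0, if_neg Bool.false_ne_true,
      if_neg Bool.false_ne_true]
  · rw [mir, if_pos rfl, T0, T0, if_pos rfl, if_pos rfl]

theorem mir_unimodal (s : Bool) {P : ℤ × ℤ →₀ ℤ} (h : Unimodal P) : Unimodal (mir s P) := by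
  cases s
  · rw [mir, if_neg Bool.false_ne_true]
    exact flip_unimodal h
  · rw [mir, if_pos rfl]
    exact h

theorem lg_pos (s : Bool) (a b c : ℕ) :
    IsLGold (pretzel [(a, s), (b, s), (c, s)]) (mir s (mkPQ 0 (P2 a b c) (Q2 a b c))) := by
  refine ⟨dirs_pretzel _, fun α β ha hb i j => ?_⟩
  rw [value_posT ha hb, mir_eval]
  split_ifs
  · rw [mkPQ_eval (T0_ne ha s) (T0_ne hb s), P2, Q2, CP, MP]
    simp only [eval₂_add, eval₂_mul, eval₂_sub, eval₂_ofNat, eval₂_X, bP_eval, sP_eval, valP, pow_zero, inv_one,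
      one_mul]
    ring
  · rfl

theorem lg_neg (s : Bool) (m n : ℕ) :
    IsLGold (pretzel [(m, s), (0, s), (n, !s)]) (mir s (mkPQ n (P1 m n) (Q1 m n))) := by
  refine ⟨dirs_pretzel _, fun α β ha hb i j => ?_⟩
  rw [value_negT ha hb, mir_eval]
  split_ifs
  · rw [mkPQ_eval (T0_ne ha s) (T0_ne hb s), Q1, P1, H1, RP, TP]
    simp only [eval₂_add, eval₂_mul, eval₂_sub, eval₂_ofNat, bP_eval, sP_eval, tP_eval, valN]
    ring
  · rfl

theorem MP_swap1 (a b c : ℕ) : MP a b c = MP b a c := by
  unfold MP; ring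

theorem MP_swap2 (a b c : ℕ) : MP a b c = MP a c b := by
  unfold MP; ring

theorem CP_swap1 (a b c : ℕ) : CP a b c = CP b a c := by
  unfold CP; ring

theorem CP_swap2 (a b c : ℕ) : CP a b c = CP a c b := by
  unfold CP; ring

/-- the conditions on the rows, symmetric -/
def RR (a b c : ℕ) : Prop := Rows (row0 0 (P2 a b c).coeff (Q2 a b c).coeff)
    (row1 (P2 a b c).coeff (Q2 a b c).coeff) (P2 a b c).coeff

theorem RR_swap1 {a b c : ℕ} (h : RR a b c) : RR b a c := by
  unfold RR P2 Q2 at *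
  rwa [MP_swap1 b a c, CP_swap1 b a c]

theorem RR_swap2 {a b c : ℕ} (h : RR a b c) : RR a c b := by
  unfold RR P2 Q2 at *
  rwa [MP_swap2 a c b, CP_swap2 a c b]

theorem RR_sorted {a b c : ℕ} (hab : a ≤ b) (hbc : b ≤ c) : RR a b c := by
  rcases Nat.eq_zero_or_pos c with h | h
  · obtain rfl : c = 0 := h
    obtain rfl : b = 0 := by omega
    obtain rfl : a = 0 := by omega
    exact rows2_zero
  · exact rows2 hab hbc h

theorem RR_all (a b c : ℕ) : RR a b c := by
  rcases le_total a b with hab | hab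
  · rcases le_total b c with hbc | hbc
    · exact RR_sorted hab hbc
    · rcases le_total a c with hac | hac
      · exact RR_swap2 (RR_sorted hac hbc)
      · exact RR_swap2 (RR_swap1 (RR_sorted hac hab))
  · rcases le_total a c with hac | hac
    · exact RR_swap1 (RR_sorted hab hac)
    · rcases le_total b c with hbc | hbc
      · exact RR_swap1 (RR_swap2 (RR_sorted hbc hac))
      · exact RR_swap1 (RR_swap2 (RR_swap1 (RR_sorted hbc hab)))

/-- pretzel diagrams with three columns of the same sign -/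
theorem main_pos (s : Bool) (a b c : ℕ) :
    ∃ P, IsLGold (pretzel [(a, s), (b, s), (c, s)]) P ∧ Unimodal P :=
  ⟨_, lg_pos s a b c, mir_unimodal s (mkPQ_unimodal (RR_all a b c))⟩

/-- two-bridge diagrams -/
theorem main_neg (s : Bool) (m n : ℕ) (hn : 1 ≤ n) :
    ∃ P, IsLGold (pretzel [(m, s), (0, s), (n, !s)]) P ∧ Unimodal P :=
  ⟨_, lg_neg s m n, mir_unimodal s (mkPQ_unimodal (rows1 hn))⟩

end LG3
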