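import Pool.Agent.Lib.MP_3cd99b_gt.N5

/-!
The exact support and the signs of the Links-Gould polynomials of an infinite family of alternating
Montesinos links, of arbitrarily large genus and with any number of tangles. In particular there are no
interior zeros.
-/

namespace LG3.MontesinosSupport

open LG3

/-- The columns of a tangle. (a, false) is the rational tangle 1/(2a+1): a column of 2a+1 crossings of sign s.
(a, true) is the rational tangle 1 - 1/(2a+3) = (2a+2)/(2a+3): a column of one crossing of sign s and a column of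
2a+3 crossings of the other sign. -/
def tangleColumns (s : Bool) : ℕ × Bool → List (ℕ × Bool)
  | (a, false) => [(a, s)]
  | (a, true) => [(0, s), (a + 1, !s)]

/-- The Montesinos diagram with the tangles L, from left to right, and sign s, cut open at one point -/
def montesinosDiagram (s : Bool) (L : List (ℕ × Bool)) : List Piece :=
  pretzelDiagram (L.flatMap (tangleColumns s))

/-- a for the tangle 1/(2a+1), and a + 1 for the tangle (2a+2)/(2a+3) -/
def par : ℕ × Bool → ℕ
  | (a, false) => a
  | (a, true) => a + 1

/-- the number m of the tangles of the second kind -/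
def second (L : List (ℕ × Bool)) : ℕ := (L.filter fun c => c.2).length

/-- the sum E of the parameters of all tangles -/
def parSum (L : List (ℕ × Bool)) : ℕ := (L.map par).sum

/-- the sum N of the parameters of the tangles of the second kind -/
def parSum2 (L : List (ℕ × Bool)) : ℕ := ((L.filter fun c => c.2).map par).sum

/-- the octagon of lattice points (u, v) with 0 ≤ u, v ≤ p + E - 1, |u - v| ≤ p + m - 1, u + v ≤ p + 2 E,
where p is the number of tangles -/
def Octagon (L : List (ℕ × Bool)) (u v : ℤ) : Prop :=
  0 ≤ u ∧ 0 ≤ v ∧ u ≤ L.length + parSum L - 1 ∧ v ≤ L.length + parSum L - 1 ∧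
    |u - v| ≤ L.length + second L - 1 ∧ u + v ≤ L.length + 2 * parSum L

theorem nt_eq (L : List (ℕ × Bool)) : nt L = second L := by
  induction L with
  | nil => rfl
  | cons c L ih => obtain ⟨a, _ | _⟩ := c <;> simp_all [nt, second]

theorem et_eq (L : List (ℕ × Bool)) : et L = parSum L := by
  induction L with
  | nil => rfl
  | cons c L ih =>
    obtain ⟨a, _ | _⟩ := c
    · simp only [et, ih, parSum, List.map_cons, List.sum_cons, par]
      omega
    · simp only [et, ih, parSum, List.map_cons, List.sum_cons, par]
      omega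

theorem eTt_eq (L : List (ℕ × Bool)) : eTt L = parSum2 L := by
  induction L with
  | nil => rfl
  | cons c L ih =>
    obtain ⟨a, _ | _⟩ := c
    · rw [eTt, ih]
      simp [parSum2]
    · rw [eTt, ih]
      simp [parSum2, par]
      omega

theorem n1_eq (L : List (ℕ × Bool)) : n1 L + second L = L.length := by
  induction L with
  | nil => rfl
  | cons c L ih =>
    obtain ⟨a, _ | _⟩ := c
    · simp only [n1, List.length_cons, ← ih]
      simp only [second, List.filter_cons]
      simp
      omega
    · simp only [n1, List.length_cons, ← ih]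
      simp only [second, List.filter_cons]
      simp
      omega

theorem mem_OL (L : List (ℕ × Bool)) (u v : ℤ) : (u, v) ∈ OL L 0 0 ↔ Octagon L u v := by
  rw [OL, mem_OC_iff, Octagon, nt_eq, et_eq, abs_le]
  push_cast
  constructor
  · rintro ⟨h1, h2, h3, h4, h5, h6, h7⟩
    refine ⟨h1, h2, by linarith, by linarith, ⟨by linarith, by linarith⟩, by linarith⟩
  · rintro ⟨h1, h2, h3, h4, ⟨h5, h6⟩, h7⟩
    refine ⟨h1, h2, by linarith, by linarith, by linarith, by linarith, by linarith⟩

/-- Each Montesinos diagram with at least two of these tangles has exactly one Links-Gould polynomial P; the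
exponents of its monomials are exactly the lattice points of the octagon (reflected if s is negative, and shifted
by N); the sign of the coefficient of t0^i t1^j is (-1)^(i+j+p+m+1); and there are no interior zeros. -/
theorem main : ∀ (s : Bool) (L : List (ℕ × Bool)), 2 ≤ L.length →
    ∃ P : ℤ × ℤ →₀ ℤ, (∀ Q : ℤ × ℤ →₀ ℤ, IsLinksGould (montesinosDiagram s L) Q ↔ Q = P) ∧
      (∀ i j : ℤ, P (i, j) ≠ 0 ↔
        if s then Octagon L (i + parSum2 L) (j + parSum2 L) else Octagon L (parSum2 L - i) (parSum2 L - j)) ∧
      (∀ i j : ℤ, P (i, j) ≠ 0 → (0 < P (i, j) ↔ Even (i + j + L.length + second L + 1))) ∧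
      NoInteriorZeros {z | P z ≠ 0} := by
  intro s L hL
  obtain ⟨P, h1, h2, h3⟩ := mont_main s L hL
  have hd : montesinosDiagram s L = pretzel (L.flatMap (colsOf s)) := by
    rw [montesinosDiagram, pretzelDiagram_eq]
    congr 2
  refine ⟨P, fun Q => ⟨fun hQ => ?_, fun h => ?_⟩, fun i j => ?_, fun i j hij => ?_, ?_⟩
  · rw [isLinksGould_iff, hd] at hQ
    exact hQ.unique h1
  · rw [h, isLinksGould_iff, hd]
    exact h1
  · rw [h2, mem_OL, eTt_eq, sgnE]
    cases s
    · rw [if_neg Bool.false_ne_true, if_neg Bool.false_ne_true]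
      have e1 : ∀ i : ℤ, -1 * i + (parSum2 L : ℤ) = parSum2 L - i := fun i => by ring
      simp only [e1]
    · rw [if_pos rfl, if_pos rfl]
      simp only [one_mul]
  · rw [h3 _ hij]
    have e1 := n1_eq L
    have e2 : i + j + (L.length : ℤ) + (second L : ℤ) + 1 = (i + j + (n1 L : ℤ) + 1) + 2 * (second L : ℤ) := by
      rw [← e1]
      push_cast
      ring
    have e3 : Even (2 * (second L : ℤ)) := even_two_mul _
    have e4 : Even (i + j + (n1 L : ℤ) + 1 + 2 * (second L : ℤ)) ↔ Even (i + j + (n1 L : ℤ) + 1) := by
      rw [Int.even_add]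
      tauto
    rw [e2, e4]
  · have h4 : {z : ℤ × ℤ | P z ≠ 0} = {z : ℤ × ℤ | ((sgnE s * z.1 + eTt L, sgnE s * z.2 + eTt L) : ℤ × ℤ) ∈
        OL L 0 0} := Set.ext fun z => h2 z
    rw [h4]
    exact ni_oct _ _ _ _ _

end LG3.MontesinosSupport
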