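import Mathlib

/-! Laurent polynomials in two variables with nonnegative coefficients and known support. -/

open Finset

namespace LG3

/-- f is given by a Laurent polynomial with natural coefficients and support S -/
def PS (S : Set (ℤ × ℤ)) (f : ℂ → ℂ → ℂ) : Prop :=
  ∃ F : ℤ × ℤ →₀ ℕ, (∀ z, F z ≠ 0 ↔ z ∈ S) ∧
    ∀ u v : ℂ, u ≠ 0 → v ≠ 0 → f u v = F.sum fun z c => (c : ℂ) * (u ^ z.1 * v ^ z.2)

theorem PS.congr {S T : Set (ℤ × ℤ)} {f g : ℂ → ℂ → ℂ} (h : PS S f) (hS : ∀ z, z ∈ S ↔ z ∈ T)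
    (hf : ∀ u v : ℂ, u ≠ 0 → v ≠ 0 → g u v = f u v) : PS T g := by
  obtain ⟨F, h1, h2⟩ := h
  exact ⟨F, fun z => (h1 z).trans (hS z), fun u v hu hv => (hf u v hu hv).trans (h2 u v hu hv)⟩

theorem PS.zero : PS ∅ fun _ _ => 0 :=
  ⟨0, fun z => by simp, fun u v _ _ => by simp⟩

theorem PS.mono (a b : ℤ) : PS {(a, b)} fun u v => u ^ a * v ^ b := by
  refine ⟨Finsupp.single (a, b) 1, fun z => ?_, fun u v _ _ => ?_⟩
  · rw [Finsupp.single_apply, Set.mem_singleton_iff]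
    constructor
    · intro h
      by_contra hz
      exact h (if_neg (fun h2 => hz h2.symm))
    · intro h
      rw [if_pos h.symm]
      exact one_ne_zero
  · rw [Finsupp.sum_single_index (by simp)]
    simp

theorem PS.one : PS {(0, 0)} fun _ _ => 1 :=
  (PS.mono 0 0).congr (fun _ => Iff.rfl) (fun u v _ _ => by simp)

theorem PS.add {S T : Set (ℤ × ℤ)} {f g : ℂ → ℂ → ℂ} (hf : PS S f) (hg : PS T g) :
    PS (S ∪ T) fun u v => f u v + g u v := by
  obtain ⟨F, h1, h2⟩ := hf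
  obtain ⟨G, h3, h4⟩ := hg
  refine ⟨F + G, fun z => ?_, fun u v hu hv => ?_⟩
  · rw [Finsupp.add_apply, Set.mem_union, ← h1, ← h3]
    omega
  · show f u v + g u v = _
    rw [h2 u v hu hv, h4 u v hu hv, Finsupp.sum_add_index']
    · intro z
      simp
    · intro z c d
      push_cast
      ring

/-- the sum of two sets -/
def SP (S T : Set (ℤ × ℤ)) : Set (ℤ × ℤ) := {z | ∃ x ∈ S, ∃ y ∈ T, x.1 + y.1 = z.1 ∧ x.2 + y.2 = z.2}

theorem PS.mul {S T : Set (ℤ × ℤ)} {f g : ℂ → ℂ → ℂ} (hf : PS S f) (hg : PS T g) :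
    PS (SP S T) fun u v => f u v * g u v := by
  obtain ⟨F, h1, h2⟩ := hf
  obtain ⟨G, h3, h4⟩ := hg
  refine ⟨F.sum fun z c => G.sum fun w d => Finsupp.single (z + w) (c * d), fun y => ?_, fun u v hu hv => ?_⟩
  · rw [Finsupp.sum, Finsupp.finsetSum_apply]
    rw [Ne, Finset.sum_eq_zero_iff]
    push Not
    constructor
    · rintro ⟨z, hz, h⟩
      rw [Finsupp.sum, Finsupp.finsetSum_apply, Ne, Finset.sum_eq_zero_iff] at h
      push Not at h
      obtain ⟨w, hw, h⟩ := h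
      rw [Finsupp.single_apply] at h
      have e : z + w = y := by
        by_contra hc
        exact h (if_neg hc)
      refine ⟨z, (h1 z).mp (Finsupp.mem_support_iff.mp hz), w, (h3 w).mp (Finsupp.mem_support_iff.mp hw), ?_, ?_⟩
      · rw [← e]; rfl
      · rw [← e]; rfl
    · rintro ⟨z, hz, w, hw, e1, e2⟩
      have e : z + w = y := Prod.ext e1 e2
      refine ⟨z, Finsupp.mem_support_iff.mpr ((h1 z).mpr hz), ?_⟩
      rw [Finsupp.sum, Finsupp.finsetSum_apply, Ne, Finset.sum_eq_zero_iff]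
      push Not
      refine ⟨w, Finsupp.mem_support_iff.mpr ((h3 w).mpr hw), ?_⟩
      rw [Finsupp.single_apply, if_pos e]
      exact mul_ne_zero ((h1 z).mpr hz) ((h3 w).mpr hw)
  · show f u v * g u v = _
    rw [h2 u v hu hv, h4 u v hu hv, Finsupp.sum_sum_index]
    · rw [Finsupp.sum, Finsupp.sum, Finset.sum_mul]
      refine Finset.sum_congr rfl (fun z _ => ?_)
      beta_reduce
      rw [Finsupp.sum_sum_index]
      · rw [Finsupp.sum, Finset.mul_sum]
        refine Finset.sum_congr rfl (fun w _ => ?_)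
        rw [Finsupp.sum_single_index (by simp)]
        rw [Prod.fst_add, Prod.snd_add, zpow_add₀ hu, zpow_add₀ hv]
        push_cast
        ring
      · intro z
        simp
      · intro z c d
        push_cast
        ring
    · intro z
      simp
    · intro z c d
      push_cast
      ring

theorem PS.mono' {a b : ℤ} {f : ℂ → ℂ → ℂ} (h : ∀ u v : ℂ, u ≠ 0 → v ≠ 0 → f u v = u ^ a * v ^ b) :
    PS {(a, b)} f := (PS.mono a b).congr (fun _ => Iff.rfl) h

theorem PS.add' {S T U : Set (ℤ × ℤ)} {f g h : ℂ → ℂ → ℂ} (hf : PS S f) (hg : PS T g)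
    (hS : ∀ z, (z ∈ S ∨ z ∈ T) ↔ z ∈ U) (he : ∀ u v : ℂ, u ≠ 0 → v ≠ 0 → h u v = f u v + g u v) : PS U h :=
  (hf.add hg).congr hS he

theorem PS.mul' {S T U : Set (ℤ × ℤ)} {f g h : ℂ → ℂ → ℂ} (hf : PS S f) (hg : PS T g)
    (hS : ∀ z, (∃ x ∈ S, ∃ y ∈ T, x.1 + y.1 = z.1 ∧ x.2 + y.2 = z.2) ↔ z ∈ U)
    (he : ∀ u v : ℂ, u ≠ 0 → v ≠ 0 → h u v = f u v * g u v) : PS U h :=
  (hf.mul hg).congr hS he

/-- a Laurent polynomial with a prescribed sign pattern -/
theorem exists_P {S : Set (ℤ × ℤ)} {f : ℂ → ℂ → ℂ} (hf : PS S f) (e c : ℤ) (he : e = 1 ∨ e = -1)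
    (hc : c = 1 ∨ c = -1) (N : ℤ) : ∃ P : ℤ × ℤ →₀ ℤ,
      (∀ z, P z ≠ 0 ↔ (e * z.1 + N, e * z.2 + N) ∈ S) ∧
      (∀ z, P z ≠ 0 → (0 < P z ↔ c * (-1) ^ (z.1 + z.2).natAbs = 1)) ∧
      ∀ t0 t1 : ℂ, t0 ≠ 0 → t1 ≠ 0 → (P.sum fun z c => (c : ℂ) * (t0 ^ z.1 * t1 ^ z.2)) =
        c * (((t0 ^ e * t1 ^ e) ^ N)⁻¹ * f (-(t0 ^ e)) (-(t1 ^ e))) := by
  obtain ⟨F, h1, h2⟩ := hf
  have hee : e * e = 1 := by rcases he with h | h <;> rw [h] <;> rfl
  have hinj : Function.Injective (fun z : ℤ × ℤ => ((e * (z.1 - N), e * (z.2 - N)) : ℤ × ℤ)) := by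
    intro z w h
    simp only [Prod.mk.injEq] at h
    obtain ⟨h3, h4⟩ := h
    have h5 := congrArg (fun t => e * t) h3
    have h6 := congrArg (fun t => e * t) h4
    simp only [← mul_assoc, hee, one_mul] at h5 h6
    exact Prod.ext (by linarith) (by linarith)
  have hsg : ∀ n : ℕ, ((-1 : ℤ) ^ n = 1 ∨ (-1 : ℤ) ^ n = -1) := fun n => neg_one_pow_eq_or ℤ n
  have hP : ∀ z : ℤ × ℤ, c * (-1) ^ (z.1 + z.2).natAbs * (F (e * z.1 + N, e * z.2 + N) : ℤ) ≠ 0 →
      z ∈ F.support.image (fun z : ℤ × ℤ => ((e * (z.1 - N), e * (z.2 - N)) : ℤ × ℤ)) := by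
    intro z hz
    rw [Finset.mem_image]
    refine ⟨(e * z.1 + N, e * z.2 + N), ?_, ?_⟩
    · rw [Finsupp.mem_support_iff]
      intro h
      rw [h] at hz
      simp at hz
    · simp only [add_sub_cancel_right, ← mul_assoc, hee, one_mul]
  refine ⟨Finsupp.onFinset _ (fun z => c * (-1) ^ (z.1 + z.2).natAbs * (F (e * z.1 + N, e * z.2 + N) : ℤ)) hP,
    fun z => ?_, fun z hz => ?_, fun t0 t1 h0 h3 => ?_⟩
  · rw [Finsupp.onFinset_apply, ← h1]
    have hc' : c ≠ 0 := by rcases hc with h | h <;> rw [h] <;> norm_num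
    have hs : (-1 : ℤ) ^ (z.1 + z.2).natAbs ≠ 0 := pow_ne_zero _ (by norm_num)
    constructor
    · intro h h4
      rw [h4] at h
      simp at h
    · intro h
      exact mul_ne_zero (mul_ne_zero hc' hs) (by exact_mod_cast h)
  · rw [Finsupp.onFinset_apply] at hz ⊢
    have hF : 0 < (F (e * z.1 + N, e * z.2 + N) : ℤ) := by
      have : F (e * z.1 + N, e * z.2 + N) ≠ 0 := by
        intro h
        rw [h] at hz
        simp at hz
      omega
    have h5 : c * (-1) ^ (z.1 + z.2).natAbs = 1 ∨ c * (-1) ^ (z.1 + z.2).natAbs = -1 := by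
      rcases hc with h | h <;> rcases hsg (z.1 + z.2).natAbs with h6 | h6 <;> rw [h, h6] <;> simp
    rcases h5 with h5 | h5
    · rw [h5, one_mul]
      exact ⟨fun _ => rfl, fun _ => hF⟩
    · rw [h5]
      constructor
      · intro h
        linarith
      · intro h
        norm_num at h
  · have hu : -(t0 ^ e) ≠ 0 := neg_ne_zero.mpr (zpow_ne_zero _ h0)
    have hv : -(t1 ^ e) ≠ 0 := neg_ne_zero.mpr (zpow_ne_zero _ h3)
    rw [h2 _ _ hu hv, Finsupp.onFinset_sum _ (fun z => by simp), Finset.sum_image (fun z _ w _ h => hinj h),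
      Finsupp.sum, Finset.mul_sum, Finset.mul_sum]
    refine Finset.sum_congr rfl (fun z _ => ?_)
    simp only
    have e1 : e * (e * (z.1 - N)) + N = z.1 := by rw [← mul_assoc, hee]; ring
    have e2 : e * (e * (z.2 - N)) + N = z.2 := by rw [← mul_assoc, hee]; ring
    rw [e1, e2]
    have e3 : ((-1 : ℂ)) ^ (e * (z.1 - N) + e * (z.2 - N)).natAbs = (-1) ^ z.1 * (-1) ^ z.2 := by
      have h7 : (-1 : ℂ) ≠ 0 := by norm_num
      rw [← zpow_natCast, ← zpow_add₀ h7]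
      rcases Int.even_or_odd (z.1 + z.2) with h | h
      · rw [h.neg_one_zpow]
        refine Even.neg_one_zpow ?_
        rw [Int.natCast_natAbs, even_abs]
        have : e * (z.1 - N) + e * (z.2 - N) = e * ((z.1 + z.2) - 2 * N) := by ring
        rw [this]
        exact (h.sub (even_two_mul N)).mul_left e
      · rw [h.neg_one_zpow]
        refine Odd.neg_one_zpow ?_
        rw [Int.natCast_natAbs, odd_abs]
        have : e * (z.1 - N) + e * (z.2 - N) = e * ((z.1 + z.2) - 2 * N) := by ring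
        rw [this]
        have he1 : Odd e := by rcases he with h8 | h8 <;> rw [h8] <;> decide
        exact he1.mul (h.sub_even (even_two_mul N))
    have e4 : ∀ t : ℂ, ∀ n : ℤ, t ≠ 0 → t ^ (e * (n - N)) = ((t ^ e) ^ N)⁻¹ * (t ^ e) ^ n := by
      intro t n ht
      rw [zpow_mul, zpow_sub₀ (zpow_ne_zero _ ht)]
      field_simp
    have e5 : ∀ t : ℂ, ∀ n : ℤ, (-t) ^ n = (-1) ^ n * t ^ n := by
      intro t n
      rw [← neg_one_mul, mul_zpow]
    rw [e4 t0 _ h0, e4 t1 _ h3, e5 (t0 ^ e) z.1, e5 (t1 ^ e) z.2]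
    push_cast
    rw [e3, mul_zpow, mul_inv]
    ring

end LG3
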