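import Pool.Agent.Lib.MP_3cd99b_gt.C

/-! The value of the pretzel diagrams with three columns. -/

open Finset

namespace LG3

variable {K : Type*} [Field K]

/-- `1 + 2 x + ... + n x^(n-1)` -/
def tn (x : K) : ℕ → K
  | 0 => 0
  | n + 1 => bn x (n + 1) + x * tn x n

theorem bn_succ' (x : K) (n : ℕ) : bn x (n + 1) = bn x n + x ^ n := by
  induction n with
  | zero => simp [bn]
  | succ n ih =>
    simp only [bn] at ih ⊢
    linear_combination x * ih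

theorem bn_inv {x : K} (hx : x ≠ 0) (n : ℕ) : bn x⁻¹ n * x ^ n = x * bn x n := by
  induction n with
  | zero => simp [bn]
  | succ n ih =>
    rw [bn_succ' x, bn, pow_succ]
    have : (1 + x⁻¹ * bn x⁻¹ n) * (x ^ n * x) = x ^ n * x + bn x⁻¹ n * x ^ n := by
      field_simp
    rw [this, ih]
    ring

theorem sn_inv {x : K} (hx : x ≠ 0) (n : ℕ) : sn x⁻¹ n * x ^ n = x * tn x n := by
  induction n with
  | zero => simp [sn, tn]
  | succ n ih =>
    rw [sn, tn, add_mul, bn_inv hx, pow_succ, ← mul_assoc, ih]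
    ring

/-- combinations with the second coefficient divided by `-x` -/
def lin' (α β : K) (a b c : K) : Mat K := lin α β a (-(α ^ 2 * β ^ 2) * b) c

section
variable {α β : K} (ha : α ≠ 0) (hb : β ≠ 0)
include ha hb

theorem lin'_mul (a b c a' b' c' : K) : lin' α β a b c * lin' α β a' b' c' =
    lin' α β (a * a' * (α ^ 2 + β ^ 2 - 1) + a * c' + c * a' - α ^ 2 * β ^ 2 * (b * b'))
      (b * b' * (α ^ 2 * β ^ 2 - α ^ 2 - β ^ 2) + b * c' + c * b' + a * a')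
      (c * c' - α ^ 2 * β ^ 2 * (a * b' + b * a') + a * a' * (α ^ 2 + β ^ 2 - α ^ 2 * β ^ 2) +
        α ^ 2 * β ^ 2 * (b * b' * (α ^ 2 + β ^ 2 - 1))) := by
  rw [lin', lin', lin', lin_mul ha hb]
  congr 1 <;> field_simp <;> ring

theorem cl_lin' (A B C a b c : K) (i j : Fin 4) : cl α β (lin' α β A B C * lin α β a b c) i j =
    if i = j then (A - α ^ 2 * β ^ 2 * B) * c + C * (a + b) + (1 - α ^ 2) * (1 - β ^ 2) * (B * b - A * a)
      else 0 := by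
  rw [lin', lin_mul ha hb, cl_lin ha hb]
  split_ifs
  · field_simp
    ring
  · rfl

theorem Col_pos (n : ℕ) : Col α β (n, true) = lin' α β (bn (α ^ 2 * β ^ 2) (n + 1))
    (bn (α ^ 2 * β ^ 2) n) (-(2 * (1 - α ^ 2) * (1 - β ^ 2) * sn (α ^ 2 * β ^ 2) n)) := by
  rw [Col_true ha hb, lin', xs_true, ks_true]
  congr 1
  ring

theorem Col_neg (n : ℕ) : Col α β (n, false) = lin α β
    (-(((α ^ 2 * β ^ 2) ^ n)⁻¹ * bn (α ^ 2 * β ^ 2) n))
    (((α ^ 2 * β ^ 2) ^ n)⁻¹ * bn (α ^ 2 * β ^ 2) (n + 1))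
    (-(((α ^ 2 * β ^ 2) ^ n)⁻¹ * (2 * (1 - α ^ 2) * (1 - β ^ 2) * tn (α ^ 2 * β ^ 2) n))) := by
  have hx : α ^ 2 * β ^ 2 ≠ 0 := mul_ne_zero (pow_ne_zero _ ha) (pow_ne_zero _ hb)
  have h1 := bn_inv hx n
  have h2 := bn_inv hx (n + 1)
  have h3 := sn_inv hx n
  rw [Col_false ha hb, xs_false, ks_false]
  set x := α ^ 2 * β ^ 2 with hxd
  have hxn : x ^ n ≠ 0 := pow_ne_zero _ hx
  have e1 : bn x⁻¹ n = (x ^ n)⁻¹ * (x * bn x n) := by
    rw [← h1]; field_simp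
  have e2 : bn x⁻¹ (n + 1) = (x ^ n)⁻¹ * bn x (n + 1) := by
    rw [pow_succ] at h2
    have h4 : (bn x⁻¹ (n + 1) * x ^ n) * x = bn x (n + 1) * x := by
      rw [mul_assoc, h2]; ring
    rw [← mul_right_cancel₀ hx h4, mul_comm, mul_assoc, mul_inv_cancel₀ hxn, mul_one]
  have e3 : sn x⁻¹ n = (x ^ n)⁻¹ * (x * tn x n) := by
    rw [← h3]; field_simp
  rw [e1, e2, e3]
  congr 1
  · field_simp
  · have hk : (1 - (α ^ 2)⁻¹) * (1 - (β ^ 2)⁻¹) * x = (1 - α ^ 2) * (1 - β ^ 2) := by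
      rw [hxd]; field_simp; ring
    linear_combination (-(2 * (x ^ n)⁻¹ * tn x n)) * hk

theorem cl_lin'2 (A B C a b c : K) (i j : Fin 4) : cl α β (lin' α β A B C * lin' α β a b c) i j =
    if i = j then (A - α ^ 2 * β ^ 2 * B) * c + C * (a - α ^ 2 * β ^ 2 * b) -
      (1 - α ^ 2) * (1 - β ^ 2) * (α ^ 2 * β ^ 2 * B * b + A * a) else 0 := by
  refine (cl_lin' ha hb A B C a (-(α ^ 2 * β ^ 2) * b) c i j).trans ?_
  split_ifs
  · ring
  · rfl

end

/-- the value for three positive columns -/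
def valP (t0 t1 a0 a1 b0 b1 c0 c1 sa sb sc : K) : K :=
  1 + (1 - t0) * (1 - t1) * ((-t0 - t1) * (a1 * b1 * c1 - t0 * t1 * (a0 * b0 * c0)) +
    2 * ((1 - t0) * (1 - t1)) * (sa * (b1 * c1 + t0 * t1 * (b0 * c0)) + sb * (a1 * c1 + t0 * t1 * (a0 * c0)) +
      sc * (a1 * b1 + t0 * t1 * (a0 * b0)) + 2 * (sa * sb + sa * sc + sb * sc)))

/-- the value for the columns 2 m + 1, 1, -(2 n + 1), multiplied by x^n -/
def valN (t0 t1 xn m0 m1 n0 sm t : K) : K :=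
  xn + (1 - t0) * (1 - t1) * ((1 - t0) * (1 - t1) * (2 * sm + m1) * (2 * t - n0) + (1 + t0 * t1) * m1 * n0)

section
variable {α β : K} (ha : α ≠ 0) (hb : β ≠ 0)
include ha hb

/-- three positive columns -/
theorem value_pos (a b c : ℕ) (i j : Fin 4) :
    amp α β (pretzel [(a, true), (b, true), (c, true)]) [i] [j] =
    if i = j then valP (α ^ 2) (β ^ 2) (bn (α ^ 2 * β ^ 2) a) (bn (α ^ 2 * β ^ 2) (a + 1))
      (bn (α ^ 2 * β ^ 2) b) (bn (α ^ 2 * β ^ 2) (b + 1)) (bn (α ^ 2 * β ^ 2) c) (bn (α ^ 2 * β ^ 2) (c + 1))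
      (sn (α ^ 2 * β ^ 2) a) (sn (α ^ 2 * β ^ 2) b) (sn (α ^ 2 * β ^ 2) c) else 0 := by
  rw [amp_pretzel]
  simp only [List.map_cons, List.map_nil, List.prod_cons, List.prod_nil, mul_one]
  rw [← mul_assoc, Col_pos ha hb, Col_pos ha hb, Col_pos ha hb, lin'_mul ha hb, cl_lin'2 ha hb]
  split_ifs
  · simp only [valP, bn]
    ring
  · rfl

/-- two positive columns, the second with one crossing, and one negative column -/
theorem value_neg (m n : ℕ) (i j : Fin 4) :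
    amp α β (pretzel [(m, true), (0, true), (n, false)]) [i] [j] =
    if i = j then ((α ^ 2 * β ^ 2) ^ n)⁻¹ * valN (α ^ 2) (β ^ 2) ((α ^ 2 * β ^ 2) ^ n) (bn (α ^ 2 * β ^ 2) m)
      (bn (α ^ 2 * β ^ 2) (m + 1)) (bn (α ^ 2 * β ^ 2) n) (sn (α ^ 2 * β ^ 2) m) (tn (α ^ 2 * β ^ 2) n)
      else 0 := by
  rw [amp_pretzel]
  simp only [List.map_cons, List.map_nil, List.prod_cons, List.prod_nil, mul_one]
  rw [← mul_assoc, Col_pos ha hb, Col_pos ha hb, Col_neg ha hb, lin'_mul ha hb, cl_lin' ha hb]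
  split_ifs
  · have h := bn_succ' (α ^ 2 * β ^ 2) n
    have hx : (α ^ 2 * β ^ 2) ^ n ≠ 0 := pow_ne_zero _ (mul_ne_zero (pow_ne_zero _ ha) (pow_ne_zero _ hb))
    simp only [valN, bn, sn] at h ⊢
    have h2 : (α ^ 2 * β ^ 2) ^ n = 1 + (α ^ 2 * β ^ 2 - 1) * bn (α ^ 2 * β ^ 2) n := by
      linear_combination -h
    generalize (α ^ 2 * β ^ 2) ^ n = X at *
    field_simp
    rw [h2]
    ring
  · rfl

end

end LG3
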