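import Pool.Agent.Lib.MP_3cd99b_gt.N1
import Pool.Agent.Lib.MP_3cd99b_gt.V

/-! The cone recursion and its supports. -/

open Finset

namespace LG3

section
variable {K : Type*} [Field K]

/-- complete homogeneous polynomials in two variables -/
def hh (u v : K) : ℕ → K
  | 0 => 1
  | k + 1 => u ^ (k + 1) + v * hh u v k

/-- (1 + u)(1 + v) -/
def BB (u v : K) : K := (1 + u) * (1 + v)

/-- the numbers `δ(k, l)` -/
def dd (u v : K) : ℕ → ℕ → K
  | 0, 0 => 0
  | k + 1, 0 => BB u v * hh u v k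
  | k, l + 1 => (1 + u * v) * (dd u v (k + 1) l + dd u v k l)

/-- the numbers `M(k, l)` -/
def mm (u v : K) : ℕ → ℕ → K
  | 0, 0 => 0
  | 1, 0 => 1
  | k + 2, 0 => mm u v k 0 + BB u v * hh u v k
  | k, l + 1 => u * v * dd u v k l + BB u v * mm u v k l

/-- `2 S_a - [a]` -/
def ep (x : K) : ℕ → K
  | 0 => 0
  | a + 1 => ep x a + (bn x a + bn x (a + 1))

/-- `2 t_a - [a]` -/
def fp (x : K) : ℕ → K
  | 0 => 0
  | a + 1 => bn x (a + 1) + x * (bn x a + fp x a)

/-- the value of a list of tangles, times z^k ω^l -/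
def GG (u v : K) : List (ℕ × Bool) → ℕ → ℕ → K
  | [], k, l => mm u v k l
  | (a, false) :: L, k, l => GG u v L (k + 1) l + bn (u * v) a * GG u v L k (l + 1) +
      BB u v * ep (u * v) a * GG u v L k l
  | (a, true) :: L, k, l => (u * v) ^ (a + 1) * GG u v L k l + bn (u * v) (a + 1) * GG u v L k (l + 1) +
      BB u v * fp (u * v) (a + 1) * GG u v L (k + 1) l

end

/-- the square of lattice points of B -/
def sB : Set (ℤ × ℤ) := {z | 0 ≤ z.1 ∧ z.1 ≤ 1 ∧ 0 ≤ z.2 ∧ z.2 ≤ 1}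

theorem ps_u : PS {(1, 0)} fun u _ => u := PS.mono' (fun u v _ _ => by simp)

theorem ps_v : PS {(0, 1)} fun _ v => v := PS.mono' (fun u v _ _ => by simp)

theorem ps_x : PS {(1, 1)} fun u v => u * v := PS.mono' (fun u v _ _ => by simp)

theorem ps_pow (n : ℕ) : PS {((n : ℤ), (n : ℤ))} fun u v => (u * v) ^ n :=
  PS.mono' (fun u v _ _ => by rw [zpow_natCast, zpow_natCast, mul_pow])

theorem ps_B : PS sB fun u v => BB u v := by
  have h1 : PS {z : ℤ × ℤ | 0 ≤ z.1 ∧ z.1 ≤ 1 ∧ z.2 = 0} fun u _ => 1 + u :=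
    PS.one.add' ps_u (fun z => by
      simp only [Set.mem_singleton_iff, Set.mem_ofPred_eq, Prod.ext_iff]
      omega) (fun _ _ _ _ => rfl)
  have h2 : PS {z : ℤ × ℤ | z.1 = 0 ∧ 0 ≤ z.2 ∧ z.2 ≤ 1} fun _ v => 1 + v :=
    PS.one.add' ps_v (fun z => by
      simp only [Set.mem_singleton_iff, Set.mem_ofPred_eq, Prod.ext_iff]
      omega) (fun _ _ _ _ => rfl)
  refine h1.mul' h2 (fun z => ?_) (fun _ _ _ _ => rfl)
  constructor
  · rintro ⟨x, hx, y, hy, h3, h4⟩
    simp only [Set.mem_ofPred_eq, sB] at *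
    omega
  · intro h
    simp only [Set.mem_ofPred_eq, sB] at h
    exact ⟨(z.1, 0), ⟨h.1, h.2.1, rfl⟩, (0, z.2), ⟨rfl, h.2.2⟩, by simp, by simp⟩

/-- the points of sum k in the quadrant -/
def sH (k : ℕ) : Set (ℤ × ℤ) := {z | 0 ≤ z.1 ∧ 0 ≤ z.2 ∧ z.1 + z.2 = k}

theorem ps_h (k : ℕ) : PS (sH k) fun u v => hh u v k := by
  induction k with
  | zero =>
    refine PS.one.congr (fun z => ?_) (fun _ _ _ _ => rfl)
    simp only [Set.mem_singleton_iff, sH, Set.mem_ofPred_eq, Prod.ext_iff]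
    omega
  | succ k ih =>
    have h1 : PS {((k : ℤ) + 1, 0)} fun u _ => u ^ (k + 1) :=
      PS.mono' (fun u v _ _ => by rw [zpow_zero, mul_one, ← zpow_natCast]; push_cast; rfl)
    have h2 : PS {z : ℤ × ℤ | 0 ≤ z.1 ∧ 1 ≤ z.2 ∧ z.1 + z.2 = k + 1} fun u v => v * hh u v k :=
      ps_v.mul' ih (fun z => by
        constructor
        · rintro ⟨x, hx, y, hy, h3, h4⟩
          simp only [Set.mem_ofPred_eq, sH, Set.mem_singleton_iff, Prod.ext_iff] at *
          omega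
        · intro h
          simp only [Set.mem_ofPred_eq] at h
          refine ⟨(0, 1), rfl, (z.1, z.2 - 1), ?_, by simp, by simp⟩
          simp only [sH, Set.mem_ofPred_eq]
          omega) (fun _ _ _ _ => rfl)
    refine h1.add' h2 (fun z => ?_) (fun _ _ _ _ => rfl)
    simp only [Set.mem_singleton_iff, sH, Set.mem_ofPred_eq, Prod.ext_iff]
    omega

/-- the first a points of the diagonal -/
def sd (a : ℕ) : Set (ℤ × ℤ) := {z | z.1 = z.2 ∧ 0 ≤ z.1 ∧ z.1 < a}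

theorem ps_b (a : ℕ) : PS (sd a) fun u v => bn (u * v) a := by
  induction a with
  | zero =>
    refine PS.zero.congr (fun z => ?_) (fun _ _ _ _ => rfl)
    simp only [Set.mem_empty_iff_false, sd, Set.mem_ofPred_eq, false_iff]
    push_cast
    omega
  | succ a ih =>
    have h2 : PS {z : ℤ × ℤ | z.1 = z.2 ∧ 1 ≤ z.1 ∧ z.1 < a + 1} fun u v => (u * v) * bn (u * v) a :=
      ps_x.mul' ih (fun z => by
        constructor
        · rintro ⟨x, hx, y, hy, h3, h4⟩
          simp only [Set.mem_ofPred_eq, sd, Set.mem_singleton_iff, Prod.ext_iff] at *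
          omega
        · intro h
          simp only [Set.mem_ofPred_eq] at h
          refine ⟨(1, 1), rfl, (z.1 - 1, z.2 - 1), ?_, by simp, by simp⟩
          simp only [sd, Set.mem_ofPred_eq]
          omega) (fun _ _ _ _ => rfl)
    refine PS.one.add' h2 (fun z => ?_) (fun _ _ _ _ => rfl)
    simp only [Set.mem_singleton_iff, sd, Set.mem_ofPred_eq, Prod.ext_iff]
    push_cast
    omega

theorem ps_e (a : ℕ) : PS (sd a) fun u v => ep (u * v) a := by
  induction a with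
  | zero =>
    refine PS.zero.congr (fun z => ?_) (fun _ _ _ _ => rfl)
    simp only [Set.mem_empty_iff_false, sd, Set.mem_ofPred_eq, false_iff]
    push_cast
    omega
  | succ a ih =>
    have h1 : PS (sd (a + 1)) fun u v => bn (u * v) a + bn (u * v) (a + 1) :=
      (ps_b a).add' (ps_b (a + 1)) (fun z => by
        simp only [sd, Set.mem_ofPred_eq]
        push_cast
        omega) (fun _ _ _ _ => rfl)
    refine ih.add' h1 (fun z => ?_) (fun _ _ _ _ => rfl)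
    simp only [sd, Set.mem_ofPred_eq]
    push_cast
    omega

theorem ps_f (a : ℕ) : PS (sd a) fun u v => fp (u * v) a := by
  induction a with
  | zero =>
    refine PS.zero.congr (fun z => ?_) (fun _ _ _ _ => rfl)
    simp only [Set.mem_empty_iff_false, sd, Set.mem_ofPred_eq, false_iff]
    push_cast
    omega
  | succ a ih =>
    have h1 : PS (sd a) fun u v => bn (u * v) a + fp (u * v) a :=
      (ps_b a).add' ih (fun z => by simp only [or_self]) (fun _ _ _ _ => rfl)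
    have h2 : PS {z : ℤ × ℤ | z.1 = z.2 ∧ 1 ≤ z.1 ∧ z.1 < a + 1} fun u v => (u * v) * (bn (u * v) a + fp (u * v) a) :=
      ps_x.mul' h1 (fun z => by
        constructor
        · rintro ⟨x, hx, y, hy, h3, h4⟩
          simp only [Set.mem_ofPred_eq, sd, Set.mem_singleton_iff, Prod.ext_iff] at *
          omega
        · intro h
          simp only [Set.mem_ofPred_eq] at h
          refine ⟨(1, 1), rfl, (z.1 - 1, z.2 - 1), ?_, by simp, by simp⟩
          simp only [sd, Set.mem_ofPred_eq]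
          omega) (fun _ _ _ _ => rfl)
    refine (ps_b (a + 1)).add' h2 (fun z => ?_) (fun _ _ _ _ => rfl)
    simp only [sd, Set.mem_ofPred_eq]
    push_cast
    omega

/-- the hexagon H(n, A) -/
def HX (n A : ℤ) : Set (ℤ × ℤ) :=
  {z | 0 ≤ z.1 ∧ 0 ≤ z.2 ∧ z.1 - z.2 ≤ n - 1 ∧ z.2 - z.1 ≤ n - 1 ∧ z.1 + z.2 ≤ n + 2 * A}

/-- the support of `δ(k, l)` -/
theorem ps_d (k l : ℕ) : ∃ S : Set (ℤ × ℤ), PS S (fun u v => dd u v k l) ∧
    (∀ z ∈ S, 0 ≤ z.1 ∧ 0 ≤ z.2 ∧ z.1 - z.2 ≤ k + l ∧ z.2 - z.1 ≤ k + l ∧ z.1 + z.2 ≤ k + 1 + 3 * l) ∧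
    (∀ z : ℤ × ℤ, (l : ℤ) + 1 ≤ z.1 → (l : ℤ) + 1 ≤ z.2 → z.1 + z.2 = k + 1 + 3 * l → z ∈ S) ∧
    (1 ≤ k + l → ((k : ℤ) + 2 * l, (l : ℤ)) ∈ S ∧ ((l : ℤ), (k : ℤ) + 2 * l) ∈ S) ∧
    (k = 1 → l = 0 → ∀ z ∈ sB, z ∈ S) ∧ (k = 0 → l = 1 → ∀ z ∈ HX 2 1, z ∈ S) := by
  induction l generalizing k with
  | zero =>
    cases k with
    | zero =>
      refine ⟨∅, PS.zero.congr (fun _ => Iff.rfl) (fun _ _ _ _ => by rw [dd]), fun z hz => absurd hz (by simp),
        fun z h1 h2 h3 => ?_, fun h => absurd h (by norm_num), fun h => absurd h (by norm_num),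
        fun _ h => absurd h (by norm_num)⟩
      push_cast at h1 h2 h3
      omega
    | succ k =>
      refine ⟨SP sB (sH k), (ps_B.mul (ps_h k)).congr (fun _ => Iff.rfl) (fun _ _ _ _ => by rw [dd]), ?_, ?_, ?_, ?_,
        fun _ h => absurd h (by norm_num)⟩
      · rintro z ⟨x, hx, y, hy, h1, h2⟩
        simp only [sB, sH, Set.mem_ofPred_eq] at hx hy
        push_cast
        omega
      · intro z h1 h2 h3
        refine ⟨(1, 1), by simp [sB], (z.1 - 1, z.2 - 1), ?_, by simp, by simp⟩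
        simp only [sH, Set.mem_ofPred_eq]
        push_cast at *
        omega
      · intro _
        refine ⟨⟨(1, 0), by simp [sB], ((k : ℤ), 0), by simp [sH], ?_, ?_⟩,
          ⟨(0, 1), by simp [sB], (0, (k : ℤ)), by simp [sH], ?_, ?_⟩⟩ <;> push_cast <;> ring
      · intro hk _ z hz
        have hk0 : k = 0 := by omega
        subst hk0
        exact ⟨z, hz, (0, 0), by simp [sH], by simp, by simp⟩
  | succ l ih =>
    obtain ⟨S1, p1, u1, a1, b1, c1, -⟩ := ih (k + 1)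
    obtain ⟨S2, p2, u2, a2, b2, -⟩ := ih k
    have hx : PS {z : ℤ × ℤ | z.1 = z.2 ∧ 0 ≤ z.1 ∧ z.1 ≤ 1} fun u v => 1 + u * v :=
      PS.one.add' ps_x (fun z => by
        simp only [Set.mem_singleton_iff, Set.mem_ofPred_eq, Prod.ext_iff]
        omega) (fun _ _ _ _ => rfl)
    refine ⟨SP {z : ℤ × ℤ | z.1 = z.2 ∧ 0 ≤ z.1 ∧ z.1 ≤ 1} (S1 ∪ S2), (hx.mul (p1.add p2)).congr (fun _ => Iff.rfl)
      (fun _ _ _ _ => by rw [dd]), ?_, ?_, ?_, fun _ h => absurd h (by norm_num), ?_⟩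
    · rintro z ⟨x, hx, y, hy, h1, h2⟩
      simp only [Set.mem_ofPred_eq] at hx
      rcases hy with hy | hy
      · have := u1 y hy
        push_cast at *
        omega
      · have := u2 y hy
        push_cast at *
        omega
    · intro z h1 h2 h3
      refine ⟨(1, 1), by simp, (z.1 - 1, z.2 - 1), Or.inl (a1 _ ?_ ?_ ?_), by simp, by simp⟩ <;> push_cast at * <;> omega
    · intro _
      obtain ⟨e1, e2⟩ := b1 (by omega)
      refine ⟨⟨(1, 1), by simp, _, Or.inl e1, ?_, ?_⟩, ⟨(1, 1), by simp, _, Or.inl e2, ?_, ?_⟩⟩ <;>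
        push_cast <;> ring
    · intro hk hl z hz
      have c2 := c1 (by omega) (by omega)
      simp only [HX, Set.mem_ofPred_eq] at hz
      by_cases h : z.1 ≤ 1 ∧ z.2 ≤ 1
      · refine ⟨(0, 0), by simp, (z.1, z.2), Or.inl (c2 _ ?_), by simp, by simp⟩
        simp only [sB, Set.mem_ofPred_eq]
        omega
      · refine ⟨(1, 1), by simp, (z.1 - 1, z.2 - 1), Or.inl (c2 _ ?_), by simp, by simp⟩
        simp only [sB, Set.mem_ofPred_eq]
        omega

/-- the key step -/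
theorem HX_step {n A : ℤ} (hA : 0 ≤ A) (hn : 1 ≤ n) {z : ℤ × ℤ} (hz : z ∈ HX (n + 1) (A + 1)) :
    (∃ x ∈ sB, ∃ y ∈ HX n A, x.1 + y.1 = z.1 ∧ x.2 + y.2 = z.2) ∨ z.1 + z.2 = n + 3 + 2 * A ∨
      (z.1 + z.2 = n + 2 + 2 * A ∧ (z.1 - z.2 = n ∨ z.2 - z.1 = n)) := by
  simp only [HX, Set.mem_ofPred_eq, sB] at hz ⊢
  obtain ⟨h1, h2, h3, h4, h5⟩ := hz
  by_cases c1 : z.1 + z.2 = n + 3 + 2 * A
  · exact Or.inr (Or.inl c1)
  by_cases c2 : z.1 + z.2 = n + 2 + 2 * A ∧ (z.1 - z.2 = n ∨ z.2 - z.1 = n)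
  · exact Or.inr (Or.inr c2)
  left
  by_cases c3 : z.1 - z.2 = n
  · exact ⟨(1, 0), by simp, (z.1 - 1, z.2), by simp only; omega, by simp, by simp⟩
  by_cases c4 : z.2 - z.1 = n
  · exact ⟨(0, 1), by simp, (z.1, z.2 - 1), by simp only; omega, by simp, by simp⟩
  by_cases c5 : z.1 + z.2 ≤ n + 2 * A
  · exact ⟨(0, 0), by simp, (z.1, z.2), by simp only; omega, by simp, by simp⟩
  by_cases c6 : 1 ≤ z.1 ∧ 1 ≤ z.2
  · exact ⟨(1, 1), by simp, (z.1 - 1, z.2 - 1), by simp only; omega, by simp, by simp⟩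
  omega

end LG3
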