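import Pool.Agent.Lib.MP_3cd99b_gt.N2

/-! The supports of the cone recursion. -/

open Finset

namespace LG3

theorem ps_m0 : ∀ k : ℕ, PS (HX k 0) fun u v => mm u v k 0
  | 0 => PS.zero.congr (fun z => by
      simp only [Set.mem_empty_iff_false, HX, Set.mem_ofPred_eq, false_iff]
      push_cast
      omega) (fun _ _ _ _ => by rw [mm])
  | 1 => PS.one.congr (fun z => by
      simp only [Set.mem_singleton_iff, HX, Set.mem_ofPred_eq, Prod.ext_iff]
      push_cast
      omega) (fun _ _ _ _ => by rw [mm])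
  | k + 2 => by
      refine (ps_m0 k).add' (ps_B.mul (ps_h k)) (fun z => ?_) (fun _ _ _ _ => by rw [mm])
      constructor
      · rintro (h | ⟨x, hx, y, hy, h1, h2⟩)
        · simp only [HX, Set.mem_ofPred_eq] at h ⊢
          push_cast
          omega
        · simp only [HX, sB, sH, Set.mem_ofPred_eq] at hx hy ⊢
          push_cast
          omega
      · intro h
        simp only [HX, Set.mem_ofPred_eq] at h
        push_cast at h
        by_cases c1 : z.1 + z.2 ≤ k - 1
        · left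
          simp only [HX, Set.mem_ofPred_eq]
          omega
        right
        by_cases c2 : z.1 + z.2 = k
        · exact ⟨(0, 0), by simp [sB], (z.1, z.2), by simp only [sH, Set.mem_ofPred_eq]; omega, by simp, by simp⟩
        by_cases c3 : z.1 + z.2 = k + 2
        · exact ⟨(1, 1), by simp [sB], (z.1 - 1, z.2 - 1), by simp only [sH, Set.mem_ofPred_eq]; omega, by simp, by simp⟩
        by_cases c4 : 1 ≤ z.1
        · exact ⟨(1, 0), by simp [sB], (z.1 - 1, z.2), by simp only [sH, Set.mem_ofPred_eq]; omega, by simp, by simp⟩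
        · exact ⟨(0, 1), by simp [sB], (z.1, z.2 - 1), by simp only [sH, Set.mem_ofPred_eq]; omega, by simp, by simp⟩

theorem ps_m (k l : ℕ) : ∃ S : Set (ℤ × ℤ), PS S (fun u v => mm u v k l) ∧ (∀ z ∈ S, z ∈ HX (k + l) l) ∧
    (1 ≤ k → ∀ z ∈ HX (k + l) l, z ∈ S) ∧
    (2 ≤ l → ∀ z : ℤ × ℤ, ((z.1 - 1, z.2 - 1) : ℤ × ℤ) ∈ HX l (l - 1) → z ∈ S) := by
  induction l generalizing k with
  | zero =>
    refine ⟨HX k 0, ps_m0 k, fun z h => ?_, fun _ z h => ?_, fun h => absurd h (by norm_num)⟩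
    · simp only [HX, Set.mem_ofPred_eq] at h ⊢
      push_cast
      omega
    · simp only [HX, Set.mem_ofPred_eq] at h ⊢
      push_cast at h
      omega
  | succ l ih =>
    obtain ⟨S, p, us, lo, lo0⟩ := ih k
    obtain ⟨T, q, ut, a, b, -, c⟩ := ps_d k l
    have hlow : 1 ≤ k → ∀ z ∈ HX ((k : ℤ) + (l + 1 : ℕ)) ((l + 1 : ℕ) : ℤ), z ∈ SP {(1, 1)} T ∪ SP sB S := by
      intro hk z hz
      have hz' : z ∈ HX ((k + l : ℤ) + 1) ((l : ℤ) + 1) := by
        simp only [HX, Set.mem_ofPred_eq] at hz ⊢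
        push_cast at hz
        omega
      rcases HX_step (by omega) (by omega) hz' with ⟨x, hx, y, hy, h1, h2⟩ | h | ⟨h, h' | h'⟩
      · exact Or.inr ⟨x, hx, y, lo hk y hy, h1, h2⟩
      · simp only [HX, Set.mem_ofPred_eq] at hz'
        refine Or.inl ⟨(1, 1), rfl, (z.1 - 1, z.2 - 1), a _ ?_ ?_ ?_, by simp, by simp⟩ <;> simp only <;> omega
      · have h3 := (b (by omega)).1
        refine Or.inl ⟨(1, 1), rfl, _, h3, ?_, ?_⟩ <;> simp only <;> omega
      · have h3 := (b (by omega)).2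
        refine Or.inl ⟨(1, 1), rfl, _, h3, ?_, ?_⟩ <;> simp only <;> omega
    refine ⟨SP {(1, 1)} T ∪ SP sB S, ((ps_x.mul q).add (ps_B.mul p)).congr (fun _ => Iff.rfl)
      (fun _ _ _ _ => by rw [mm]), ?_, hlow, ?_⟩
    · rintro z (⟨x, hx, y, hy, h1, h2⟩ | ⟨x, hx, y, hy, h1, h2⟩)
      · have := ut y hy
        simp only [Set.mem_singleton_iff, Prod.ext_iff] at hx
        simp only [HX, Set.mem_ofPred_eq]
        push_cast
        omega
      · have := us y hy
        simp only [HX, sB, Set.mem_ofPred_eq] at hx this ⊢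
        push_cast
        omega
    · intro hl z hz
      simp only [HX, Set.mem_ofPred_eq] at hz
      push_cast at hz
      rcases Nat.eq_zero_or_pos k with rfl | hk
      · rcases eq_or_ne l 1 with rfl | hl1
        · refine Or.inl ⟨(1, 1), rfl, (z.1 - 1, z.2 - 1), c rfl rfl _ ?_, by simp, by simp⟩
          simp only [HX, Set.mem_ofPred_eq]
          omega
        · have hz' : ((z.1 - 1, z.2 - 1) : ℤ × ℤ) ∈ HX ((l : ℤ) + 1) (((l : ℤ) - 1) + 1) := by
            simp only [HX, Set.mem_ofPred_eq]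
            omega
          rcases HX_step (by omega) (by omega) hz' with ⟨x, hx, y, hy, h1, h2⟩ | h | ⟨h, h' | h'⟩
          · refine Or.inr ⟨x, hx, (y.1 + 1, y.2 + 1), lo0 (by omega) _ ?_, ?_, ?_⟩
            · simp only [add_sub_cancel_right]
              exact hy
            · simp only at h1 h2 ⊢
              omega
            · simp only at h1 h2 ⊢
              omega
          · simp only at h
            refine Or.inl ⟨(1, 1), rfl, (z.1 - 1, z.2 - 1), a _ ?_ ?_ ?_, by simp, by simp⟩ <;> simp only <;>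
              push_cast <;> omega
          · simp only at h h'
            have h3 := (b (by omega)).1
            refine Or.inl ⟨(1, 1), rfl, _, h3, ?_, ?_⟩ <;> simp only <;> push_cast <;> omega
          · simp only at h h'
            have h3 := (b (by omega)).2
            refine Or.inl ⟨(1, 1), rfl, _, h3, ?_, ?_⟩ <;> simp only <;> push_cast <;> omega
      · refine hlow hk z ?_
        simp only [HX, Set.mem_ofPred_eq]
        push_cast
        omega

/-- octagons -/
def OC (d s t : ℤ) : Set (ℤ × ℤ) :=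
  {z | 0 ≤ z.1 ∧ 0 ≤ z.2 ∧ z.1 ≤ t ∧ z.2 ≤ t ∧ z.1 - z.2 ≤ d ∧ z.2 - z.1 ≤ d ∧ z.1 + z.2 ≤ s}

theorem stepA {d s t a : ℤ} (h1 : d ≤ t + 1) (h2 : d ≤ s + 2) (ha : 0 ≤ a) {z : ℤ × ℤ}
    (hz : z ∈ OC (d + 1) (s + 1 + 2 * a) (t + 1 + a)) :
    z ∈ OC (d + 1) (s + 1) (t + 1) ∨ ∃ i : ℤ, 0 ≤ i ∧ i < a ∧ ((z.1 - i, z.2 - i) : ℤ × ℤ) ∈ OC (d + 1) (s + 3) (t + 2) := by
  by_cases c : z ∈ OC (d + 1) (s + 1) (t + 1)
  · exact Or.inl c
  right
  simp only [OC, Set.mem_ofPred_eq] at c hz ⊢
  by_cases c1 : a - 1 ≤ z.1 ∧ a - 1 ≤ z.2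
  · exact ⟨a - 1, by omega, by omega, by omega⟩
  by_cases c2 : z.1 ≤ z.2
  · exact ⟨z.1, by omega, by omega, by omega⟩
  · exact ⟨z.2, by omega, by omega, by omega⟩

theorem stepB {d s t n : ℤ} (h0 : -1 ≤ d) (h1 : d ≤ t) (h2 : d ≤ s) (h3 : 2 * t - d ≤ s - 1) (hn : 1 ≤ n) {z : ℤ × ℤ}
    (hz : z ∈ OC (d + 2) (s + 1 + 2 * n) (t + 1 + n)) :
    ∃ i : ℤ, 0 ≤ i ∧ i < n ∧ (((z.1 - i, z.2 - i) : ℤ × ℤ) ∈ OC (d + 1) (s + 3) (t + 2) ∨
      ∃ b ∈ sB, ((z.1 - i - b.1, z.2 - i - b.2) : ℤ × ℤ) ∈ OC (d + 1) (s + 1) (t + 1)) := by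
  simp only [OC, Set.mem_ofPred_eq] at hz ⊢
  by_cases c3 : z.1 - z.2 = d + 2
  · by_cases c1 : n - 1 ≤ z.2
    · exact ⟨n - 1, by omega, by omega, Or.inr ⟨(1, 0), by simp [sB], by simp only; omega⟩⟩
    · exact ⟨z.2, by omega, by omega, Or.inr ⟨(1, 0), by simp [sB], by simp only; omega⟩⟩
  by_cases c4 : z.2 - z.1 = d + 2
  · by_cases c1 : n - 1 ≤ z.1
    · exact ⟨n - 1, by omega, by omega, Or.inr ⟨(0, 1), by simp [sB], by simp only; omega⟩⟩
    · exact ⟨z.1, by omega, by omega, Or.inr ⟨(0, 1), by simp [sB], by simp only; omega⟩⟩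
  by_cases c1 : n - 1 ≤ z.1 ∧ n - 1 ≤ z.2
  · exact ⟨n - 1, by omega, by omega, Or.inl (by omega)⟩
  by_cases c2 : z.1 ≤ z.2
  · exact ⟨z.1, by omega, by omega, Or.inl (by omega)⟩
  · exact ⟨z.2, by omega, by omega, Or.inl (by omega)⟩

theorem stepC {l n : ℤ} (hl : 0 ≤ l) (hn : 1 ≤ n) {z : ℤ × ℤ}
    (hz : z ∈ OC (l + 1) (3 * l + 1 + 2 * n) (2 * l + n)) :
    ∃ i : ℤ, 0 ≤ i ∧ i < n ∧ ∃ b ∈ sB, ((z.1 - i - b.1, z.2 - i - b.2) : ℤ × ℤ) ∈ HX (1 + l) l := by
  simp only [OC, Set.mem_ofPred_eq, HX, sB] at hz ⊢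
  obtain ⟨i, hi0, hi1, hi2, hi3, hi4⟩ : ∃ i : ℤ, 0 ≤ i ∧ i < n ∧ i ≤ z.1 ∧ i ≤ z.2 ∧ (i = n - 1 ∨ i = z.1 ∨ i = z.2) := by
    by_cases c1 : n - 1 ≤ z.1 ∧ n - 1 ≤ z.2
    · exact ⟨n - 1, by omega, by omega, by omega, by omega, by omega⟩
    by_cases c2 : z.1 ≤ z.2
    · exact ⟨z.1, by omega, by omega, by omega, by omega, by omega⟩
    · exact ⟨z.2, by omega, by omega, by omega, by omega, by omega⟩
  refine ⟨i, hi0, hi1, ?_⟩
  by_cases c1 : z.1 - z.2 = l + 1
  · exact ⟨(1, 0), by simp, by simp only; omega⟩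
  by_cases c2 : z.2 - z.1 = l + 1
  · exact ⟨(0, 1), by simp, by simp only; omega⟩
  by_cases c3 : (z.1 - i) + (z.2 - i) ≤ 3 * l + 1
  · exact ⟨(0, 0), by simp, by simp only; omega⟩
  · exact ⟨(1, 1), by simp, by simp only; omega⟩

/-- the number of tangles of the second kind -/
def nt : List (ℕ × Bool) → ℕ
  | [] => 0
  | (_, false) :: L => nt L
  | (_, true) :: L => nt L + 1

/-- the sum of the parameters -/
def et : List (ℕ × Bool) → ℕ
  | [] => 0
  | (a, false) :: L => et L + a
  | (a, true) :: L => et L + (a + 1)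

theorem nt_le (L : List (ℕ × Bool)) : nt L ≤ et L := by
  induction L with
  | nil => exact le_rfl
  | cons c L ih =>
    obtain ⟨a, _ | _⟩ := c
    · simp only [nt, et]; omega
    · simp only [nt, et]; omega

/-- the octagon of a list -/
def OL (L : List (ℕ × Bool)) (k l : ℕ) : Set (ℤ × ℤ) :=
  OC (k + l + L.length + nt L - 1) (k + 3 * l + L.length + 2 * et L) (k + 2 * l + L.length + et L - 1)

theorem mem_OC_iff (d s t : ℤ) (z : ℤ × ℤ) : z ∈ OC d s t ↔ 0 ≤ z.1 ∧ 0 ≤ z.2 ∧ z.1 ≤ t ∧ z.2 ≤ t ∧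
    z.1 - z.2 ≤ d ∧ z.2 - z.1 ≤ d ∧ z.1 + z.2 ≤ s := Iff.rfl

theorem ps_G (L : List (ℕ × Bool)) (k l : ℕ) : ∃ S : Set (ℤ × ℤ), PS S (fun u v => GG u v L k l) ∧
    (∀ z ∈ S, z ∈ OL L k l) ∧
    ((1 ≤ k ∨ (1 ≤ L.length ∧ 1 ≤ l) ∨ 2 ≤ L.length + nt L) → ∀ z ∈ OL L k l, z ∈ S) ∧
    (L = [] → 2 ≤ l → ∀ z : ℤ × ℤ, ((z.1 - 1, z.2 - 1) : ℤ × ℤ) ∈ HX l (l - 1) → z ∈ S) := by
  induction L generalizing k l with
  | nil =>
    obtain ⟨S, p, us, lo, lo0⟩ := ps_m k l
    refine ⟨S, p.congr (fun _ => Iff.rfl) (fun _ _ _ _ => by rw [GG]), fun z hz => ?_, fun h z hz => ?_,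
      fun _ => lo0⟩
    · have := us z hz
      simp only [HX, OL, OC, Set.mem_ofPred_eq, List.length_nil, nt, et] at this ⊢
      push_cast
      omega
    · simp only [List.length_nil, nt] at h
      refine lo (by omega) z ?_
      simp only [HX, OL, OC, Set.mem_ofPred_eq, List.length_nil, nt, et] at hz ⊢
      push_cast at hz
      omega
  | cons c L ih =>
    obtain ⟨S1, p1, u1, l1, -⟩ := ih (k + 1) l
    obtain ⟨S2, p2, u2, l2, l20⟩ := ih k (l + 1)
    obtain ⟨S3, p3, u3, l3, -⟩ := ih k l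
    have hnt := nt_le L
    simp only [OL, mem_OC_iff] at u1 u2 u3
    push_cast at u1 u2 u3
    obtain ⟨a, _ | _⟩ := c
    · refine ⟨S1 ∪ SP (sd a) S2 ∪ SP (SP sB (sd a)) S3,
        ((p1.add ((ps_b a).mul p2)).add ((ps_B.mul (ps_e a)).mul p3)).congr (fun _ => Iff.rfl)
          (fun _ _ _ _ => by rw [GG]), ?_, ?_, fun h => absurd h (by simp)⟩
      · rintro z ((h | ⟨x, hx, y, hy, h1, h2⟩) | ⟨x, ⟨x1, hx1, x2, hx2, h3, h4⟩, y, hy, h1, h2⟩)
        · have := u1 z h
          simp only [OL, mem_OC_iff, List.length_cons, nt, et]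
          push_cast
          omega
        · have := u2 y hy
          simp only [OL, mem_OC_iff, List.length_cons, nt, et, sd, Set.mem_ofPred_eq] at hx ⊢
          push_cast
          omega
        · have := u3 y hy
          simp only [OL, mem_OC_iff, List.length_cons, nt, et, sd, sB, Set.mem_ofPred_eq] at hx1 hx2 ⊢
          push_cast
          omega
      · intro hr z hz
        by_cases hL : L = [] ∧ k = 0
        · obtain ⟨rfl, rfl⟩ := hL
          simp only [List.length_cons, List.length_nil, nt] at hr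
          have hl1 : 1 ≤ l := by omega
          simp only [OL, mem_OC_iff, List.length_cons, List.length_nil, nt, et] at hz
          push_cast at hz
          by_cases c1 : z.1 + z.2 ≤ 3 * l + 1
          · refine Or.inl (Or.inl (l1 (Or.inl (by omega)) z ?_))
            simp only [OL, mem_OC_iff, List.length_nil, nt, et]
            push_cast
            omega
          · obtain ⟨i, hi0, hi1, hi2, hi3, hi4⟩ : ∃ i : ℤ, 1 ≤ i ∧ i ≤ a ∧ i ≤ z.1 ∧ i ≤ z.2 ∧
                (i = a ∨ i = z.1 ∨ i = z.2) := by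
              by_cases c1 : (a : ℤ) ≤ z.1 ∧ (a : ℤ) ≤ z.2
              · exact ⟨a, by omega, by omega, by omega, by omega, by omega⟩
              by_cases c2 : z.1 ≤ z.2
              · exact ⟨z.1, by omega, by omega, by omega, by omega, by omega⟩
              · exact ⟨z.2, by omega, by omega, by omega, by omega, by omega⟩
            refine Or.inl (Or.inr ⟨(i - 1, i - 1), ⟨rfl, ?_, ?_⟩, (z.1 - (i - 1), z.2 - (i - 1)),
              l20 rfl (by omega) _ ?_, by simp, by simp⟩)
            · simp only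
              omega
            · simp only
              omega
            · simp only [HX, Set.mem_ofPred_eq]
              push_cast
              omega
        · have r1 : 1 ≤ k + 1 ∨ (1 ≤ L.length ∧ 1 ≤ l) ∨ 2 ≤ L.length + nt L := Or.inl (by omega)
          have r2 : 1 ≤ k ∨ (1 ≤ L.length ∧ 1 ≤ l + 1) ∨ 2 ≤ L.length + nt L := by
            rcases L with _ | ⟨c', L'⟩
            · left
              by_contra hk
              exact hL ⟨rfl, by omega⟩
            · right; left
              simp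
          have hz' : z ∈ OC ((k + l + L.length + nt L - 1 : ℤ) + 1) ((k + 3 * l + L.length + 2 * et L : ℤ) + 1 + 2 * a)
              ((k + 2 * l + L.length + et L - 1 : ℤ) + 1 + a) := by
            simp only [OL, mem_OC_iff, List.length_cons, nt, et] at hz ⊢
            push_cast at hz
            omega
          rcases stepA (by omega) (by omega) (by omega) hz' with h | ⟨i, hi0, hi1, h⟩
          · refine Or.inl (Or.inl (l1 r1 z ?_))
            simp only [OL, mem_OC_iff] at h ⊢
            push_cast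
            omega
          · refine Or.inl (Or.inr ⟨(i, i), ⟨rfl, hi0, hi1⟩, (z.1 - i, z.2 - i),
              l2 r2 _ ?_, by simp, by simp⟩)
            simp only [OL, mem_OC_iff] at h ⊢
            push_cast
            omega
    · refine ⟨SP {(((a + 1 : ℕ) : ℤ), ((a + 1 : ℕ) : ℤ))} S3 ∪ SP (sd (a + 1)) S2 ∪ SP (SP sB (sd (a + 1))) S1,
        ((((ps_pow (a + 1)).mul p3).add ((ps_b (a + 1)).mul p2)).add ((ps_B.mul (ps_f (a + 1))).mul p1)).congr
          (fun _ => Iff.rfl) (fun _ _ _ _ => by rw [GG]), ?_, ?_, fun h => absurd h (by simp)⟩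
      · rintro z ((⟨x, hx, y, hy, h1, h2⟩ | ⟨x, hx, y, hy, h1, h2⟩) | ⟨x, ⟨x1, hx1, x2, hx2, h3, h4⟩, y, hy, h1, h2⟩)
        · have := u3 y hy
          simp only [Set.mem_singleton_iff, Prod.ext_iff] at hx
          simp only [OL, mem_OC_iff, List.length_cons, nt, et]
          push_cast at hx ⊢
          omega
        · have := u2 y hy
          simp only [OL, mem_OC_iff, List.length_cons, nt, et, sd, Set.mem_ofPred_eq] at hx ⊢
          push_cast at hx ⊢
          omega
        · have := u1 y hy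
          simp only [OL, mem_OC_iff, List.length_cons, nt, et, sd, sB, Set.mem_ofPred_eq] at hx1 hx2 ⊢
          push_cast at hx2 ⊢
          omega
      · intro hr z hz
        have r1 : 1 ≤ k + 1 ∨ (1 ≤ L.length ∧ 1 ≤ l) ∨ 2 ≤ L.length + nt L := Or.inl (by omega)
        by_cases hL : L = [] ∧ k = 0
        · obtain ⟨rfl, rfl⟩ := hL
          have hz' : z ∈ OC ((l : ℤ) + 1) (3 * l + 1 + 2 * (a + 1)) (2 * l + (a + 1)) := by
            simp only [OL, mem_OC_iff, List.length_cons, List.length_nil, nt, et] at hz ⊢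
            push_cast at hz
            omega
          obtain ⟨i, hi0, hi1, b, hb, h⟩ := stepC (by omega) (by omega) hz'
          refine Or.inr ⟨(b.1 + i, b.2 + i), ⟨b, hb, (i, i), ⟨rfl, hi0, ?_⟩, rfl, rfl⟩,
            (z.1 - i - b.1, z.2 - i - b.2), l1 r1 _ ?_, ?_, ?_⟩
          · simp only
            push_cast
            exact hi1
          · simp only [HX, Set.mem_ofPred_eq] at h
            simp only [OL, mem_OC_iff, List.length_nil, nt, et]
            push_cast
            omega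
          · simp only
            omega
          · simp only
            omega
        · have r2 : 1 ≤ k ∨ (1 ≤ L.length ∧ 1 ≤ l + 1) ∨ 2 ≤ L.length + nt L := by
            rcases L with _ | ⟨c', L'⟩
            · left
              by_contra hk
              exact hL ⟨rfl, by omega⟩
            · right; left
              simp
          have hz' : z ∈ OC ((k + l + L.length + nt L - 1 : ℤ) + 2)
              ((k + 3 * l + L.length + 2 * et L : ℤ) + 1 + 2 * (a + 1))
              ((k + 2 * l + L.length + et L - 1 : ℤ) + 1 + (a + 1)) := by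
            simp only [OL, mem_OC_iff, List.length_cons, nt, et] at hz ⊢
            push_cast at hz
            omega
          obtain ⟨i, hi0, hi1, h | ⟨b, hb, h⟩⟩ := stepB (by omega) (by omega) (by omega) (by omega) (by omega) hz'
          · refine Or.inl (Or.inr ⟨(i, i), ⟨rfl, hi0, ?_⟩, (z.1 - i, z.2 - i), l2 r2 _ ?_, by simp, by simp⟩)
            · simp only
              push_cast
              exact hi1
            · simp only [OL, mem_OC_iff] at h ⊢
              push_cast
              omega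
          · refine Or.inr ⟨(b.1 + i, b.2 + i), ⟨b, hb, (i, i), ⟨rfl, hi0, ?_⟩, rfl, rfl⟩,
              (z.1 - i - b.1, z.2 - i - b.2), l1 r1 _ ?_, ?_, ?_⟩
            · simp only
              push_cast
              exact hi1
            · simp only [OL, mem_OC_iff] at h ⊢
              push_cast
              omega
            · simp only
              omega
            · simp only
              omega

end LG3
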