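import Pool.Agent.Lib.MP_3cd99b_gt.N2
import Pool.Agent.Lib.MP_3cd99b_gt.V2

/-! The cubic algebra generated by a crossing, in the basis z, y, 1. -/

open Finset

namespace LG3

section
variable {K : Type*} [Field K]

/-- multiplication by z -/
def mz (u v : K) : (K × K × K) →ₗ[K] (K × K × K) where
  toFun T := (T.1 * (1 + u + v) + T.2.2, T.1, u * v * T.2.1 - T.1 * (u + v + u * v))
  map_add' T S := by
    refine Prod.ext ?_ (Prod.ext ?_ ?_) <;> simp only [Prod.fst_add, Prod.snd_add] <;> ring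
  map_smul' c T := by
    refine Prod.ext ?_ (Prod.ext ?_ ?_) <;>
      simp only [Prod.smul_fst, Prod.smul_snd, smul_eq_mul, RingHom.id_apply] <;> ring

/-- multiplication by y -/
def my (u v : K) : (K × K × K) →ₗ[K] (K × K × K) where
  toFun T := (u * v * T.2.1, T.2.1 * (u + v + u * v) + T.2.2, u * v * T.1 - u * v * (1 + u + v) * T.2.1)
  map_add' T S := by
    refine Prod.ext ?_ (Prod.ext ?_ ?_) <;> simp only [Prod.fst_add, Prod.snd_add] <;> ring
  map_smul' c T := by
    refine Prod.ext ?_ (Prod.ext ?_ ?_) <;>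
      simp only [Prod.smul_fst, Prod.smul_snd, smul_eq_mul, RingHom.id_apply] <;> ring

/-- multiplication by `ξ = x z - y` -/
def mx (u v : K) : (K × K × K) →ₗ[K] (K × K × K) := (u * v) • mz u v - my u v

/-- multiplication by ω -/
def mw (u v : K) : (K × K × K) →ₗ[K] (K × K × K) := mx u v + BB u v • LinearMap.id

/-- the functional Φ -/
def ph (u v : K) : (K × K × K) →ₗ[K] K where
  toFun T := T.1 + u * v * T.2.1
  map_add' T S := by simp only [Prod.fst_add, Prod.snd_add]; ring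
  map_smul' c T := by simp only [Prod.smul_fst, Prod.smul_snd, smul_eq_mul, RingHom.id_apply]; ring

variable (u v : K)

theorem mz_apply (T : K × K × K) : mz u v T = (T.1 * (1 + u + v) + T.2.2, T.1, u * v * T.2.1 - T.1 * (u + v + u * v)) :=
  rfl

theorem my_apply (T : K × K × K) : my u v T =
    (u * v * T.2.1, T.2.1 * (u + v + u * v) + T.2.2, u * v * T.1 - u * v * (1 + u + v) * T.2.1) := rfl

theorem mx_apply (T : K × K × K) : mx u v T = (u * v) • mz u v T - my u v T := rfl

theorem mw_apply (T : K × K × K) : mw u v T = mx u v T + BB u v • T := rfl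

theorem ph_apply (T : K × K × K) : ph u v T = T.1 + u * v * T.2.1 := rfl

theorem my_mz (T : K × K × K) : my u v (mz u v T) = (u * v) • T := by
  refine Prod.ext ?_ (Prod.ext ?_ ?_) <;>
    simp only [mz_apply, my_apply, Prod.smul_fst, Prod.smul_snd, smul_eq_mul] <;> ring

theorem mz_mz (T : K × K × K) : mz u v (mz u v T) =
    (1 + u + v) • mz u v T - (u + v + u * v) • T + my u v T := by
  refine Prod.ext ?_ (Prod.ext ?_ ?_) <;>
    simp only [mz_apply, my_apply, Prod.smul_fst, Prod.smul_snd, smul_eq_mul, Prod.fst_add, Prod.snd_add,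
      Prod.fst_sub, Prod.snd_sub] <;> ring

theorem mx_mz_mz (T : K × K × K) : mx u v (mz u v (mz u v T)) = (u + v) • mx u v (mz u v T) - (u * v) • mx u v T := by
  refine Prod.ext ?_ (Prod.ext ?_ ?_) <;>
    simp only [mx_apply, mz_apply, my_apply, Prod.smul_fst, Prod.smul_snd, smul_eq_mul, Prod.fst_add, Prod.snd_add,
      Prod.fst_sub, Prod.snd_sub] <;> ring

theorem mx_mw (T : K × K × K) : mx u v (mw u v T) = (1 + u * v) • (mx u v (mz u v T) + mx u v T) := by
  refine Prod.ext ?_ (Prod.ext ?_ ?_) <;>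
    simp only [mw_apply, mx_apply, mz_apply, my_apply, Prod.smul_fst, Prod.smul_snd, smul_eq_mul, Prod.fst_add,
      Prod.snd_add, Prod.fst_sub, Prod.snd_sub, BB] <;> ring

theorem mw_mz (T : K × K × K) : mw u v (mz u v T) = mz u v (mw u v T) := by
  refine Prod.ext ?_ (Prod.ext ?_ ?_) <;>
    simp only [mw_apply, mx_apply, mz_apply, my_apply, Prod.smul_fst, Prod.smul_snd, smul_eq_mul, Prod.fst_add,
      Prod.snd_add, Prod.fst_sub, Prod.snd_sub, BB] <;> ring

/-- `z^k ω^l` -/
def pz (k l : ℕ) : K × K × K := (mz u v)^[k] ((mw u v)^[l] (0, 0, 1))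

theorem pz_z (k l : ℕ) : mz u v (pz u v k l) = pz u v (k + 1) l := by
  rw [pz, pz, Function.iterate_succ_apply']

theorem pz_w (k l : ℕ) : mw u v (pz u v k l) = pz u v k (l + 1) := by
  rw [pz, pz, Function.iterate_succ_apply']
  have h : Function.Commute (mw u v) (mz u v) := fun T => mw_mz u v T
  exact (h.iterate_right k).eq _

theorem hh_rec (k : ℕ) : hh u v (k + 2) = (u + v) * hh u v (k + 1) - u * v * hh u v k := by
  simp only [hh]
  ring

theorem ph_mx0 : ∀ k : ℕ, ph u v (mx u v (pz u v k 0)) = u * v * dd u v k 0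
  | 0 => by
    simp only [pz, Function.iterate_zero, id_eq, mx_apply, mz_apply, my_apply, ph_apply, dd, Prod.smul_fst,
      Prod.smul_snd, smul_eq_mul, Prod.fst_sub, Prod.snd_sub]
    ring
  | 1 => by
    rw [← pz_z, mx_apply, my_mz]
    simp only [pz, Function.iterate_zero, id_eq, mz_apply, ph_apply, dd, Prod.smul_fst,
      Prod.smul_snd, smul_eq_mul, Prod.fst_sub, Prod.snd_sub, hh, BB]
    ring
  | 2 => by
    rw [← pz_z, ← pz_z, mx_mz_mz, map_sub, map_smul, map_smul, pz_z, ph_mx0 1, ph_mx0 0]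
    simp only [dd, hh, smul_eq_mul]
    ring
  | k + 3 => by
    rw [← pz_z, ← pz_z, mx_mz_mz, map_sub, map_smul, map_smul, pz_z, ph_mx0 (k + 2), ph_mx0 (k + 1)]
    simp only [dd, smul_eq_mul]
    rw [hh_rec]
    ring

theorem ph_mx (k l : ℕ) : ph u v (mx u v (pz u v k l)) = u * v * dd u v k l := by
  induction l generalizing k with
  | zero => exact ph_mx0 u v k
  | succ l ih =>
    rw [← pz_w, mx_mw, map_smul, map_add, pz_z, ih, ih, smul_eq_mul, dd]
    ring

variable {u v}

theorem ph_pz0 (hx : u * v ≠ 0) : ∀ k : ℕ, ph u v (pz u v k 0) = mm u v k 0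
  | 0 => by
    simp only [pz, Function.iterate_zero, id_eq, ph_apply, mm]
    ring
  | 1 => by
    rw [← pz_z]
    simp only [pz, Function.iterate_zero, id_eq, mz_apply, ph_apply, mm]
    ring
  | k + 2 => by
    have h1 := ph_mx u v (k + 1) 0
    rw [← pz_z, mx_apply, my_mz, map_sub, map_smul, map_smul, pz_z, pz_z, ph_pz0 hx k] at h1
    simp only [smul_eq_mul, dd] at h1
    apply mul_left_cancel₀ hx
    rw [mm]
    linear_combination h1

theorem ph_pz (hx : u * v ≠ 0) (k l : ℕ) : ph u v (pz u v k l) = mm u v k l := by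
  induction l generalizing k with
  | zero => exact ph_pz0 hx k
  | succ l ih =>
    rw [← pz_w, mw_apply, map_add, map_smul, ph_mx, ih, smul_eq_mul, mm]

/-- the action of a list of tangles -/
def act (u v : K) : List (ℕ × Bool) → (K × K × K) →ₗ[K] (K × K × K)
  | [] => LinearMap.id
  | (a, false) :: L => act u v L ∘ₗ (mz u v + bn (u * v) a • mw u v + (BB u v * ep (u * v) a) • LinearMap.id)
  | (a, true) :: L => act u v L ∘ₗ ((u * v) ^ (a + 1) • LinearMap.id + bn (u * v) (a + 1) • mw u v +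
      (BB u v * fp (u * v) (a + 1)) • mz u v)

theorem act_false (a : ℕ) (L : List (ℕ × Bool)) (T : K × K × K) : act u v ((a, false) :: L) T =
    act u v L (mz u v T + bn (u * v) a • mw u v T + (BB u v * ep (u * v) a) • T) := rfl

theorem act_true (a : ℕ) (L : List (ℕ × Bool)) (T : K × K × K) : act u v ((a, true) :: L) T =
    act u v L ((u * v) ^ (a + 1) • T + bn (u * v) (a + 1) • mw u v T + (BB u v * fp (u * v) (a + 1)) • mz u v T) := rfl

theorem ph_act (hx : u * v ≠ 0) (L : List (ℕ × Bool)) (k l : ℕ) :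
    ph u v (act u v L (pz u v k l)) = GG u v L k l := by
  induction L generalizing k l with
  | nil => exact ph_pz hx k l
  | cons c L ih =>
    obtain ⟨a, _ | _⟩ := c
    · rw [act, GG]
      simp only [LinearMap.comp_apply, LinearMap.add_apply, LinearMap.smul_apply, LinearMap.id_apply, map_add,
        map_smul, pz_z, pz_w, ih, smul_eq_mul]
    · rw [act, GG]
      simp only [LinearMap.comp_apply, LinearMap.add_apply, LinearMap.smul_apply, LinearMap.id_apply, map_add,
        map_smul, pz_z, pz_w, ih, smul_eq_mul]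

theorem ep_eq (x : K) (a : ℕ) : ep x a = 2 * sn x a - bn x a := by
  induction a with
  | zero => simp [ep, sn, bn]
  | succ a ih => rw [ep, ih, sn]; ring

theorem fp_eq (x : K) (a : ℕ) : fp x a = 2 * tn x a - bn x a := by
  induction a with
  | zero => simp [fp, tn, bn]
  | succ a ih => rw [fp, ih, tn]; ring

end

section
variable {K : Type*} [Field K]

/-- the matrix of a triple -/
def ez (t0 t1 : K) (R R' : Mat K) (T : K × K × K) : Mat K := li R R' (-T.1) (-(t0 * t1) * T.2.1) T.2.2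

theorem ez_smul (t0 t1 : K) (R R' : Mat K) (c : K) (T : K × K × K) :
    ez t0 t1 R R' (c • T) = c • ez t0 t1 R R' T := by
  ext p q
  simp only [ez, li, Matrix.add_apply, Matrix.smul_apply, Prod.smul_fst, Prod.smul_snd, smul_eq_mul]
  ring

/-- the number of tangles of the first kind -/
def n1 : List (ℕ × Bool) → ℕ
  | [] => 0
  | (_, false) :: L => n1 L + 1
  | (_, true) :: L => n1 L

/-- the sum of the parameters of the tangles of the second kind -/
def eTt : List (ℕ × Bool) → ℕ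
  | [] => 0
  | (_, false) :: L => eTt L
  | (a, true) :: L => eTt L + (a + 1)

/-- the columns of a tangle: (a, false) is a column of 2 a + 1 crossings of sign s, (a, true) is a crossing
of sign s and a column of 2 a + 3 crossings of the other sign -/
def colsOf (s : Bool) : ℕ × Bool → List (ℕ × Bool)
  | (a, false) => [(a, s)]
  | (a, true) => [(0, s), (a + 1, !s)]

variable {α β : K} (ha : α ≠ 0) (hb : β ≠ 0)
include ha hb

theorem ez_mul (s : Bool) (T S : K × K × K) :
    ez (T0 α s) (T0 β s) (Rt α β s) (Rt α β (!s)) T * ez (T0 α s) (T0 β s) (Rt α β s) (Rt α β (!s)) S =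
    ez (T0 α s) (T0 β s) (Rt α β s) (Rt α β (!s)) (S.1 • mz (-T0 α s) (-T0 β s) T +
      S.2.1 • my (-T0 α s) (-T0 β s) T + S.2.2 • T) := by
  have c2 := mat_cubT ha hb (!s)
  rw [Bool.not_not, T0_not, T0_not, ← mul_inv] at c2
  have r2 := mat_RR ha hb (!s)
  rw [Bool.not_not] at r2
  rw [ez, ez, li'_mul (T0_ne ha s) (T0_ne hb s) (mat_RR ha hb s) r2 (mat_cubT ha hb s) c2, ez]
  congr 1 <;>
    simp only [mz_apply, my_apply, Prod.fst_add, Prod.snd_add, Prod.smul_fst, Prod.smul_snd, smul_eq_mul] <;> ring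

theorem ez_col1 (s : Bool) (a : ℕ) (T : K × K × K) :
    ez (T0 α s) (T0 β s) (Rt α β s) (Rt α β (!s)) T * Col α β (a, s) =
    (-1 : K) • ez (T0 α s) (T0 β s) (Rt α β s) (Rt α β (!s))
      (mz (-T0 α s) (-T0 β s) T + bn (-T0 α s * -T0 β s) a • mw (-T0 α s) (-T0 β s) T +
        (BB (-T0 α s) (-T0 β s) * ep (-T0 α s * -T0 β s) a) • T) := by
  have e : Col α β (a, s) = ez (T0 α s) (T0 β s) (Rt α β s) (Rt α β (!s))
      (-bn (T0 α s * T0 β s) (a + 1), bn (T0 α s * T0 β s) a,
        -(2 * (1 - T0 α s) * (1 - T0 β s) * sn (T0 α s * T0 β s) a)) := by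
    rw [Col_T ha hb, ez]
    congr 1 <;> simp only <;> ring
  rw [e, ez_mul ha hb, ← ez_smul]
  congr 1
  rw [neg_mul_neg, ep_eq]
  refine Prod.ext ?_ (Prod.ext ?_ ?_) <;>
    simp only [LinearMap.add_apply, LinearMap.smul_apply, LinearMap.id_apply, mw_apply, mx_apply, mz_apply, my_apply,
      Prod.smul_fst, Prod.smul_snd, smul_eq_mul, Prod.fst_add, Prod.snd_add, Prod.fst_sub, Prod.snd_sub, BB, bn] <;>
    ring

theorem ez_col2 (s : Bool) (n : ℕ) (T : K × K × K) :
    ez (T0 α s) (T0 β s) (Rt α β s) (Rt α β (!s)) T * (Col α β (0, s) * Col α β (n, !s)) =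
    ((T0 α s * T0 β s) ^ n)⁻¹ • ez (T0 α s) (T0 β s) (Rt α β s) (Rt α β (!s))
      ((-T0 α s * -T0 β s) ^ n • T + bn (-T0 α s * -T0 β s) n • mw (-T0 α s) (-T0 β s) T +
        (BB (-T0 α s) (-T0 β s) * fp (-T0 α s * -T0 β s) n) • mz (-T0 α s) (-T0 β s) T) := by
  have h0 := T0_ne ha s
  have h1 := T0_ne hb s
  have hx : T0 α s * T0 β s ≠ 0 := mul_ne_zero h0 h1
  have hxn : (T0 α s * T0 β s) ^ n ≠ 0 := pow_ne_zero _ hx
  have e : (T0 α s * T0 β s) ^ n • Col α β (n, !s) = ez (T0 α s) (T0 β s) (Rt α β s) (Rt α β (!s))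
      (bn (T0 α s * T0 β s) n, -((T0 α s * T0 β s)⁻¹ * bn (T0 α s * T0 β s) (n + 1)),
        -(2 * (1 - T0 α s) * (1 - T0 β s) * tn (T0 α s * T0 β s) n)) := by
    rw [Col_T' ha hb, ez]
    have h3 := bn_inv hx n
    have h4 := bn_inv hx (n + 1)
    have h5 := sn_inv hx n
    have hk : (1 - (T0 α s)⁻¹) * (1 - (T0 β s)⁻¹) * (T0 α s * T0 β s) = (1 - T0 α s) * (1 - T0 β s) := by
      field_simp
      ring
    have h6 : (T0 α s * T0 β s)⁻¹ * (T0 α s * T0 β s) = 1 := inv_mul_cancel₀ hx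
    have f1 : (T0 α s * T0 β s) ^ n * -((T0 α s * T0 β s)⁻¹ * bn (T0 α s * T0 β s)⁻¹ n) =
        -bn (T0 α s * T0 β s) n := by
      linear_combination (-(T0 α s * T0 β s)⁻¹) * h3 - bn (T0 α s * T0 β s) n * h6
    have f2 : (T0 α s * T0 β s) ^ n * bn (T0 α s * T0 β s)⁻¹ (n + 1) = bn (T0 α s * T0 β s) (n + 1) := by
      apply mul_left_cancel₀ hx
      rw [pow_succ] at h4
      linear_combination h4
    have f3 : (T0 α s * T0 β s) ^ n * -(2 * (1 - (T0 α s)⁻¹) * (1 - (T0 β s)⁻¹) * sn (T0 α s * T0 β s)⁻¹ n) =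
        -(2 * (1 - T0 α s) * (1 - T0 β s) * tn (T0 α s * T0 β s) n) := by
      linear_combination (-(2 * (1 - (T0 α s)⁻¹) * (1 - (T0 β s)⁻¹))) * h5 - 2 * tn (T0 α s * T0 β s) n * hk
    ext p q
    simp only [li, Matrix.add_apply, Matrix.smul_apply, smul_eq_mul]
    linear_combination (Rt α β s p q) * f1 + (Rt α β (!s) p q) * f2 + ((1 : Mat K) p q) * f3 -
      (Rt α β (!s) p q * bn (T0 α s * T0 β s) (n + 1)) * h6
  have e0 : Col α β (0, s) = ez (T0 α s) (T0 β s) (Rt α β s) (Rt α β (!s)) (-1, 0, 0) := by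
    rw [Col_T ha hb, ez]
    congr 1 <;> simp [bn, sn]
  have e' : Col α β (n, !s) = ((T0 α s * T0 β s) ^ n)⁻¹ • ez (T0 α s) (T0 β s) (Rt α β s) (Rt α β (!s))
      (bn (T0 α s * T0 β s) n, -((T0 α s * T0 β s)⁻¹ * bn (T0 α s * T0 β s) (n + 1)),
        -(2 * (1 - T0 α s) * (1 - T0 β s) * tn (T0 α s * T0 β s) n)) := by
    rw [← e, smul_smul, inv_mul_cancel₀ hxn, one_smul]
  rw [← mul_assoc, e0, ez_mul ha hb, e', Matrix.mul_smul, ez_mul ha hb]
  congr 2
  have h7 := bn_succ' (T0 α s * T0 β s) n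
  have h6 : (T0 α s * T0 β s)⁻¹ * (T0 α s * T0 β s) = 1 := inv_mul_cancel₀ hx
  have hmy : ∀ S : K × K × K, my (-T0 α s) (-T0 β s) (mz (-T0 α s) (-T0 β s) S) = (T0 α s * T0 β s) • S := by
    intro S
    rw [my_mz, neg_mul_neg]
  have hT : ((-1 : K), (0 : K), (0 : K)).1 • mz (-T0 α s) (-T0 β s) T +
      ((-1 : K), (0 : K), (0 : K)).2.1 • my (-T0 α s) (-T0 β s) T + ((-1 : K), (0 : K), (0 : K)).2.2 • T =
      (-1 : K) • mz (-T0 α s) (-T0 β s) T := by
    simp
  rw [hT, map_smul, map_smul, hmy, mz_mz, neg_mul_neg, fp_eq, h7]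
  refine Prod.ext ?_ (Prod.ext ?_ ?_)
  · simp only [LinearMap.add_apply, LinearMap.smul_apply, LinearMap.id_apply, mw_apply, mx_apply, mz_apply, my_apply,
      Prod.smul_fst, Prod.smul_snd, smul_eq_mul, Prod.fst_add, Prod.snd_add, Prod.fst_sub, Prod.snd_sub, BB]
    linear_combination (T.1 * (bn (T0 α s * T0 β s) n + (T0 α s * T0 β s) ^ n)) * h6
  · simp only [LinearMap.add_apply, LinearMap.smul_apply, LinearMap.id_apply, mw_apply, mx_apply, mz_apply, my_apply,
      Prod.smul_fst, Prod.smul_snd, smul_eq_mul, Prod.fst_add, Prod.snd_add, Prod.fst_sub, Prod.snd_sub, BB]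
    linear_combination (T.2.1 * (bn (T0 α s * T0 β s) n + (T0 α s * T0 β s) ^ n)) * h6
  · simp only [LinearMap.add_apply, LinearMap.smul_apply, LinearMap.id_apply, mw_apply, mx_apply, mz_apply, my_apply,
      Prod.smul_fst, Prod.smul_snd, smul_eq_mul, Prod.fst_add, Prod.snd_add, Prod.fst_sub, Prod.snd_sub, BB]
    linear_combination (T.2.2 * (bn (T0 α s * T0 β s) n + (T0 α s * T0 β s) ^ n)) * h6

theorem act_mat (s : Bool) (L : List (ℕ × Bool)) (T : K × K × K) :
    ez (T0 α s) (T0 β s) (Rt α β s) (Rt α β (!s)) T * ((L.flatMap (colsOf s)).map (Col α β)).prod =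
    ((-1) ^ n1 L * ((T0 α s * T0 β s) ^ eTt L)⁻¹) • ez (T0 α s) (T0 β s) (Rt α β s) (Rt α β (!s))
      (act (-T0 α s) (-T0 β s) L T) := by
  induction L generalizing T with
  | nil => simp [n1, eTt, act]
  | cons c L ih =>
    obtain ⟨a, _ | _⟩ := c
    · rw [List.flatMap_cons, List.map_append, List.prod_append]
      simp only [colsOf, List.map_cons, List.map_nil, List.prod_cons, List.prod_nil, mul_one]
      rw [← mul_assoc, ez_col1 ha hb, Matrix.smul_mul, ih, smul_smul, act_false]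
      congr 1
      rw [n1, eTt, pow_succ]
      ring
    · rw [List.flatMap_cons, List.map_append, List.prod_append]
      simp only [colsOf, List.map_cons, List.map_nil, List.prod_cons, List.prod_nil, mul_one]
      rw [← mul_assoc, ez_col2 ha hb, Matrix.smul_mul, ih, smul_smul, act_true]
      congr 1
      rw [n1, eTt, pow_add, mul_inv]
      ring

/-- the value of a Montesinos diagram -/
theorem amp_mont (s : Bool) (L : List (ℕ × Bool)) (i j : Fin 4) :
    amp α β (pretzel (L.flatMap (colsOf s))) [i] [j] =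
    if i = j then (-1) ^ (n1 L + 1) * (((T0 α s * T0 β s) ^ eTt L)⁻¹ * GG (-T0 α s) (-T0 β s) L 0 0) else 0 := by
  have h1 : ez (T0 α s) (T0 β s) (Rt α β s) (Rt α β (!s)) (0, 0, 1) = 1 := by
    simp [ez, li]
  have h2 := act_mat ha hb s L (0, 0, 1)
  rw [h1, one_mul] at h2
  have hx : -T0 α s * -T0 β s ≠ 0 := mul_ne_zero (neg_ne_zero.mpr (T0_ne ha s)) (neg_ne_zero.mpr (T0_ne hb s))
  have h3 := ph_act hx L 0 0
  rw [pz, Function.iterate_zero, id_eq, Function.iterate_zero, id_eq, ph_apply] at h3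
  rw [amp_pretzel, h2, cl_smul, ez, tr_li (τ := fun M => cl α β M i j) (δ := if i = j then 1 else 0)
    (fun M N => cl_add α β M N i j) (fun z M => cl_smul α β z M i j) (cl_one α β i j) (cl_Rt ha hb s i j)
    (cl_Rt ha hb (!s) i j), ← h3, pow_succ]
  split_ifs
  · ring
  · ring

end

end LG3
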