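import Pool.Agent.Lib.MP_3cd99b_gt.N3
import Pool.Agent.Lib.MP_3cd99b_gt.N4
import Pool.Agent.Lib.MP_3cd99b_gt.Main
import Pool.Agent.Lib.MP_3cd99b_gt.Unq
import Pool.Agent.Lib.MP_3cd99b_gt.Bridge

/-! The Links-Gould polynomials of the Montesinos diagrams: support and signs. -/

open Finset

namespace LG3

theorem ni_oct (e N d s t : ℤ) :
    NoInteriorZeros {z : ℤ × ℤ | ((e * z.1 + N, e * z.2 + N) : ℤ × ℤ) ∈ OC d s t} := by
  intro z hz
  by_contra hn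
  have key : ∀ a b : ℤ, (∀ w ∈ {z : ℤ × ℤ | ((e * z.1 + N, e * z.2 + N) : ℤ × ℤ) ∈ OC d s t},
      a * z.1 + b * z.2 < a * w.1 + b * w.2) → False := fun a b h => sep a b h hz
  simp only [Set.mem_ofPred_eq, mem_OC_iff] at hn key
  by_cases c1 : 0 ≤ e * z.1 + N
  swap
  · exact key e 0 fun w hw => by linarith [hw.1]
  by_cases c2 : 0 ≤ e * z.2 + N
  swap
  · exact key 0 e fun w hw => by linarith [hw.2.1]
  by_cases c3 : e * z.1 + N ≤ t
  swap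
  · exact key (-e) 0 fun w hw => by linarith [hw.2.2.1]
  by_cases c4 : e * z.2 + N ≤ t
  swap
  · exact key 0 (-e) fun w hw => by linarith [hw.2.2.2.1]
  by_cases c5 : e * z.1 + N - (e * z.2 + N) ≤ d
  swap
  · exact key (-e) e fun w hw => by linarith [hw.2.2.2.2.1]
  by_cases c6 : e * z.2 + N - (e * z.1 + N) ≤ d
  swap
  · exact key e (-e) fun w hw => by linarith [hw.2.2.2.2.2.1]
  by_cases c7 : e * z.1 + N + (e * z.2 + N) ≤ s
  swap
  · exact key (-e) (-e) fun w hw => by linarith [hw.2.2.2.2.2.2]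
  exact hn ⟨c1, c2, c3, c4, c5, c6, c7⟩

/-- the sign of the exponents -/
def sgnE (s : Bool) : ℤ := if s then 1 else -1

theorem T0_zpow (α : ℂ) (s : Bool) : T0 α s = (α ^ 2) ^ sgnE s := by
  cases s
  · rw [T0, sgnE, if_neg Bool.false_ne_true, if_neg Bool.false_ne_true, zpow_neg, zpow_one]
  · rw [T0, sgnE, if_pos rfl, if_pos rfl, zpow_one]

theorem mont_main (s : Bool) (L : List (ℕ × Bool)) (hL : 2 ≤ L.length) :
    ∃ P : ℤ × ℤ →₀ ℤ, IsLGold (pretzel (L.flatMap (colsOf s))) P ∧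
      (∀ z, P z ≠ 0 ↔ ((sgnE s * z.1 + eTt L, sgnE s * z.2 + eTt L) : ℤ × ℤ) ∈ OL L 0 0) ∧
      (∀ z, P z ≠ 0 → (0 < P z ↔ Even (z.1 + z.2 + n1 L + 1))) := by
  obtain ⟨S, hS, u, l, -⟩ := ps_G L 0 0
  have hSO : ∀ z, z ∈ S ↔ z ∈ OL L 0 0 := fun z => ⟨u z, l (Or.inr (Or.inr (by omega))) z⟩
  obtain ⟨P, h1, h2, h3⟩ := exists_P hS (sgnE s) ((-1) ^ (n1 L + 1)) (by cases s <;> simp [sgnE])
    (neg_one_pow_eq_or ℤ (n1 L + 1)) (eTt L)
  refine ⟨P, ⟨dirs_pretzel _, fun α β ha hb i j => ?_⟩, fun z => (h1 z).trans (hSO _),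
    fun z hz => (h2 z hz).trans ?_⟩
  · rw [amp_mont ha hb, evalAt, h3 (α ^ 2) (β ^ 2) (pow_ne_zero 2 ha) (pow_ne_zero 2 hb), ← T0_zpow,
      ← T0_zpow, zpow_natCast]
    split_ifs
    · push_cast
      ring
    · rfl
  · rw [← pow_add, neg_one_pow_eq_one_iff_even (by norm_num)]
    have h4 : ((n1 L + 1 + (z.1 + z.2).natAbs : ℕ) : ℤ) = (n1 L : ℤ) + 1 + |z.1 + z.2| := by
      push_cast
      rfl
    rw [← Int.even_coe_nat, h4]
    have h5 : Even |z.1 + z.2| ↔ Even (z.1 + z.2) := even_abs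
    have e1 : z.1 + z.2 + (n1 L : ℤ) + 1 = (z.1 + z.2) + ((n1 L : ℤ) + 1) := by ring
    rw [e1, Int.even_add, Int.even_add (m := z.1 + z.2), h5]
    tauto

end LG3
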