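import Pool.Agent.Lib.MP_3cd99b_gt.PL1

/-!
The slice lemma for a closed word, and the pointwise forms of gap functions and strand functions.
-/

namespace LG3P.PL
open LG3

theorem isGap_iff : ∀ (w : List Piece) (h : ℕ → ℕ → ℚ),
    IsGap w h ↔ ∀ t p, w[t]? = some p → GapStep p (h t) (h (t + 1))
  | [], h => by simp [IsGap]
  | q :: w, h => by
    have ih := isGap_iff w fun t => h (t + 1)
    constructor
    · rintro ⟨h1, h2⟩ t p hp
      cases t with
      | zero => simp only [List.getElem?_cons_zero, Option.some.injEq] at hp; subst hp; exact h1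
      | succ t => simp only [List.getElem?_cons_succ] at hp; exact ih.mp h2 t p hp
    · intro H
      exact ⟨H 0 q rfl, ih.mpr fun t p hp => H (t + 1) p (by simpa using hp)⟩

theorem isStrand_iff : ∀ (w : List Piece) (h : ℕ → ℕ → ℚ),
    IsStrand w h ↔ ∀ t p, w[t]? = some p → StrandStep p (h t) (h (t + 1))
  | [], h => by simp [IsStrand]
  | q :: w, h => by
    have ih := isStrand_iff w fun t => h (t + 1)
    constructor
    · rintro ⟨h1, h2⟩ t p hp
      cases t with
      | zero => simp only [List.getElem?_cons_zero, Option.some.injEq] at hp; subst hp; exact h1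
      | succ t => simp only [List.getElem?_cons_succ] at hp; exact ih.mp h2 t p hp
    · intro H
      exact ⟨H 0 q rfl, ih.mpr fun t p hp => H (t + 1) p (by simpa using hp)⟩

theorem Jumps.get : ∀ {w : List Piece} {m : ℕ → ℚ} {h : ℕ → ℕ → ℚ}, Jumps w m h →
    ∀ t k s, w[t]? = some (.cross k s) → h t (k + 1) - h t (k + 2) = m t
  | [], _, _, _, t, k, s, e => by simp at e
  | .cross k' s' :: w, m, h, ⟨h1, h2⟩, t, k, s, e => by
    cases t with
    | zero =>
      simp only [List.getElem?_cons_zero, Option.some.injEq, Piece.cross.injEq] at e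
      obtain ⟨rfl, rfl⟩ := e; exact h1
    | succ t => simp only [List.getElem?_cons_succ] at e; exact Jumps.get h2 t k s e
  | .cup k' s' :: w, m, h, h2, t, k, s, e => by
    cases t with
    | zero => simp at e
    | succ t => simp only [List.getElem?_cons_succ] at e; exact Jumps.get (show Jumps w _ _ from h2) t k s e
  | .cap k' s' :: w, m, h, h2, t, k, s, e => by
    cases t with
    | zero => simp at e
    | succ t => simp only [List.getElem?_cons_succ] at e; exact Jumps.get (show Jumps w _ _ from h2) t k s e

/-- one summand of `pair` -/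
def term (w : List Piece) (m : ℕ → ℚ) (h : ℕ → ℕ → ℚ) (t : ℕ) : ℚ :=
  match w[t]? with
  | some (.cross k _) => m t * (h (t + 1) (k + 1) - h t (k + 1))
  | _ => 0

theorem pair_eq_sum : ∀ (w : List Piece) (m : ℕ → ℚ) (h : ℕ → ℕ → ℚ),
    pair w m h = ∑ t ∈ Finset.range w.length, term w m h t
  | [], _, _ => by simp [pair]
  | p :: w, m, h => by
    have ih := pair_eq_sum w (fun t => m (t + 1)) fun t => h (t + 1)
    rw [List.length_cons, Finset.sum_range_succ']
    have h1 : ∀ t, term (p :: w) m h (t + 1) = term w (fun t => m (t + 1)) (fun t => h (t + 1)) t := fun t => by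
      unfold term; rw [List.getElem?_cons_succ]
    simp only [h1]
    rw [← ih]
    cases p with
    | cross k s => simp only [pair, term, List.getElem?_cons_zero]; ring
    | cup k s => simp only [pair, term, List.getElem?_cons_zero]; ring
    | cap k s => simp only [pair, term, List.getElem?_cons_zero]; ring

theorem IsStrand.const_zero : ∀ {w : List Piece} {φ : ℕ → ℕ → ℚ}, IsStrand w φ → φ w.length 0 = φ 0 0
  | [], _, _ => rfl
  | p :: w, φ, ⟨h1, h2⟩ => by
    have ih := IsStrand.const_zero h2
    have h3 : φ 1 0 = φ 0 0 := by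
      cases p with
      | cross k s => rw [show φ 1 = φ 0 from h1]
      | cup k s => exact h1.1 0 (Nat.zero_le _)
      | cap k s => exact (h1.1 0 (Nat.zero_le _)).symm
    rw [List.length_cons, ← h3]
    exact ih

/-- the slice lemma for a closed word -/
theorem slice_closed (w : List Piece) (m : ℕ → ℚ)
    (H : ∀ h, IsGap w h → h 0 0 = h w.length 0 → h 0 1 = h w.length 1 → pair w m h = 0) :
    ∃ φ : ℕ → ℕ → ℚ, IsStrand w φ ∧ Jumps w m φ ∧ ∀ g, φ w.length g = φ 0 g := by
  obtain ⟨c2, hc2⟩ := exists_mul (V := ℕ → ℕ → ℚ) (fun h => IsGap w h ∧ h 0 0 - h w.length 0 = 0)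
    (fun x y hx hy => ⟨hx.1.add hy.1, by
      have h1 := hx.2
      have h2 := hy.2
      simp only [Pi.add_apply]; linarith⟩)
    (fun c x hx => ⟨hx.1.smul c, by
      have h1 := hx.2
      simp only [Pi.smul_apply, smul_eq_mul]
      rw [← mul_sub, h1, mul_zero]⟩)
    (fun h => pair w m h) (fun h => h 0 1 - h w.length 1) (fun x y => pair_add w m x y)
    (fun c x => pair_smul w m c x) (fun x y => by simp only [Pi.add_apply]; ring)
    (fun c x => by simp only [Pi.smul_apply, smul_eq_mul]; ring)
    (fun x hx h0 => H x hx.1 (by linarith [hx.2]) (by linarith))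
  obtain ⟨c1, hc1⟩ := exists_mul (V := ℕ → ℕ → ℚ) (fun h => IsGap w h)
    (fun x y hx hy => hx.add hy) (fun c x hx => hx.smul c)
    (fun h => pair w m h - c2 * (h 0 1 - h w.length 1)) (fun h => h 0 0 - h w.length 0)
    (fun x y => by simp only [pair_add, Pi.add_apply]; ring)
    (fun c x => by simp only [pair_smul, Pi.smul_apply, smul_eq_mul]; ring)
    (fun x y => by simp only [Pi.add_apply]; ring)
    (fun c x => by simp only [Pi.smul_apply, smul_eq_mul]; ring)
    (fun x hx h0 => by rw [hc2 x ⟨hx, h0⟩]; ring)
  let P : ℕ → (ℕ → ℚ) →ₗ[ℚ] ℚ := fun g => LinearMap.proj g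
  obtain ⟨φ, a1, a2, a3, a4, a5⟩ := slice w m (-(c1 • P 0) - c2 • P 1) (-(c1 • P 0) - c2 • P 1) 0 (by
    intro h hh
    have h1 := hc1 h hh
    have h2 : ∀ u : ℕ → ℚ, (-(c1 • P 0) - c2 • P 1) u = -(c1 * u 0) - c2 * u 1 := fun u => rfl
    rw [h2, h2]; linarith)
  refine ⟨φ, a1, a2, fun g => ?_⟩
  induction g with
  | zero => exact a1.const_zero
  | succ g ih =>
    have h1 := a4 g
    have h2 := a5 g
    linarith

/-! ### strand functions with jumps -/

/-- one step of a function on the strands (index `j` is the strand `j`); it may jump at the two strands of a crossing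
if `A` holds -/
def Step (A : Prop) {α : Type*} : Piece → (ℕ → α) → (ℕ → α) → Prop
  | .cross k _, u, v => ∀ j, (j = k ∨ j = k + 1 → ¬ A) → v j = u j
  | .cup k _, u, v => (∀ j, j < k → v j = u j) ∧ v k = v (k + 1) ∧ ∀ j, k ≤ j → v (j + 2) = u j
  | .cap k _, u, v => (∀ j, j < k → u j = v j) ∧ u k = u (k + 1) ∧ ∀ j, k ≤ j → u (j + 2) = v j

/-- functions on the strands, which may jump at the crossings in `A` -/
def StrandFn (w : List Piece) (A : ℕ → Prop) {α : Type*} (φ : ℕ → ℕ → α) : Prop :=
  ∀ t p, w[t]? = some p → Step (A t) p (φ t) (φ (t + 1))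

/-- a strand function has no jumps -/
theorem IsStrand.strandFn {w : List Piece} {φ : ℕ → ℕ → ℚ} (h : IsStrand w φ) (A : ℕ → Prop) :
    StrandFn w A fun t j => φ t (j + 1) := by
  intro t p hp
  have h1 := (isStrand_iff w φ).mp h t p hp
  cases p with
  | cross k s =>
    intro j _
    have h2 : φ (t + 1) = φ t := h1
    simp only [h2]
  | cup k s =>
    obtain ⟨a, b, c⟩ := h1
    exact ⟨fun j hj => a (j + 1) (by omega), b, fun j hj => c (j + 1) (by omega)⟩
  | cap k s =>
    obtain ⟨a, b, c⟩ := h1
    exact ⟨fun j hj => a (j + 1) (by omega), b, fun j hj => c (j + 1) (by omega)⟩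

/-- the gap next to the strand `j` on the side of the crossings at positions of parity `q` -/
def sideGap (q j : ℕ) : ℕ := if j % 2 = q % 2 then j + 1 else j

/-- the gap values next to the strands, for a gap function: they may jump at the crossings of parity `q` only -/
theorem IsGap.strandFn {w : List Piece} {h : ℕ → ℕ → ℚ} (hh : IsGap w h) (q : ℕ) (A : ℕ → Prop)
    (hA : ∀ t k s, w[t]? = some (.cross k s) → k % 2 = q % 2 → A t) :
    StrandFn w A fun t j => h t (sideGap q j) := by
  intro t p hp
  have h1 := (isGap_iff w h).mp hh t p hp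
  cases p with
  | cross k s =>
    intro j hj
    refine h1 _ fun e => ?_
    unfold sideGap at e
    by_cases hk : k % 2 = q % 2
    · have hA' := hA t k s hp hk
      have h2 : ¬ (j = k ∨ j = k + 1) := fun h3 => hj h3 hA'
      push Not at h2
      split_ifs at e with h3
      · omega
      · omega
    · split_ifs at e with h3 <;> omega
  | cup k s =>
    obtain ⟨a, b⟩ := h1
    refine ⟨fun j hj => a _ ?_, ?_, fun j hj => ?_⟩
    · unfold sideGap; split_ifs <;> omega
    · unfold sideGap
      dsimp only
      by_cases hk : k % 2 = q % 2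
      · rw [if_pos hk, if_neg (by omega)]
      · rw [if_neg hk, if_pos (by omega)]
        rw [a k le_rfl, show k + 1 + 1 = k + 2 from rfl, b k le_rfl]
    · have h2 : sideGap q (j + 2) = sideGap q j + 2 := by unfold sideGap; split_ifs <;> omega
      dsimp only
      rw [h2]
      exact b _ (by unfold sideGap; split_ifs <;> omega)
  | cap k s =>
    obtain ⟨a, b⟩ := h1
    refine ⟨fun j hj => a _ ?_, ?_, fun j hj => ?_⟩
    · unfold sideGap; split_ifs <;> omega
    · unfold sideGap
      dsimp only
      by_cases hk : k % 2 = q % 2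
      · rw [if_pos hk, if_neg (by omega)]
      · rw [if_neg hk, if_pos (by omega)]
        rw [a k le_rfl, show k + 1 + 1 = k + 2 from rfl, b k le_rfl]
    · have h2 : sideGap q (j + 2) = sideGap q j + 2 := by unfold sideGap; split_ifs <;> omega
      dsimp only
      rw [h2]
      exact b _ (by unfold sideGap; split_ifs <;> omega)

end LG3P.PL
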