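import Pool.Agent.Lib.MP_3cd99b_gt.PL1

/-!
# Reduced diagrams (P2, MP_3cd99b_gt)

`Reduced w`: at every crossing the regions on the left and on the right are different (no nugatory crossing).
`stokes`: for a strand function and a gap function the sum over the crossings of the products of their jumps is a
boundary term. Hence in a reduced diagram a strand function never jumps at exactly one crossing (`no_bridge`).
-/

namespace LG3P.PL

open LG3 Finset

/-- boundary term of a slice with `n` strands -/
def bd (n : ℕ) (u v : ℕ → ℚ) : ℚ := ∑ j ∈ range n, u (j + 1) * (v (j + 1) - v j)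

theorem bd_cross (n k : ℕ) (hk : k + 2 ≤ n) (u v v' : ℕ → ℚ) (hv : ∀ g, g ≠ k + 1 → v' g = v g) :
    bd n u v' - bd n u v = (u (k + 1) - u (k + 2)) * (v' (k + 1) - v (k + 1)) := by
  unfold bd
  rw [← sum_sub_distrib]
  have h1 : ∀ j ∈ range n, u (j + 1) * (v' (j + 1) - v' j) - u (j + 1) * (v (j + 1) - v j) =
      (if j = k then u (k + 1) * (v' (k + 1) - v (k + 1)) else 0) -
        (if j = k + 1 then u (k + 2) * (v' (k + 1) - v (k + 1)) else 0) := by
    intro j _
    by_cases h2 : j = k
    · subst h2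
      have h3 : v' j = v j := hv j (by omega)
      rw [if_pos rfl, if_neg (by omega), h3]
      ring
    · by_cases h4 : j = k + 1
      · subst h4
        have h5 : v' (k + 1 + 1) = v (k + 1 + 1) := hv _ (by omega)
        rw [if_neg (by omega), if_pos rfl, h5]
        ring
      · rw [if_neg h2, if_neg h4, hv j (by omega), hv (j + 1) (by omega)]
        ring
  rw [sum_congr rfl h1, sum_sub_distrib, sum_ite_eq', sum_ite_eq', if_pos (mem_range.mpr (by omega)),
    if_pos (mem_range.mpr (by omega))]
  ring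

theorem bd_cup (n k : ℕ) (hk : k ≤ n) (u v u' v' : ℕ → ℚ) (h1 : ∀ j, j ≤ k → u' j = u j)
    (h2 : u' (k + 1) = u' (k + 2)) (h3 : ∀ j, k + 1 ≤ j → u' (j + 2) = u j) (h4 : ∀ g, g ≤ k → v' g = v g)
    (h5 : ∀ g, k ≤ g → v' (g + 2) = v g) : bd (n + 2) u' v' = bd n u v := by
  obtain ⟨m, rfl⟩ := Nat.exists_eq_add_of_le hk
  unfold bd
  rw [add_assoc, sum_range_add _ k (m + 2), sum_range_add _ k m, sum_range_succ', sum_range_succ']
  have e1 : ∑ x ∈ range k, u' (x + 1) * (v' (x + 1) - v' x) = ∑ x ∈ range k, u (x + 1) * (v (x + 1) - v x) := by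
    refine sum_congr rfl fun j hj => ?_
    have hj' := mem_range.mp hj
    rw [h1 (j + 1) (by omega), h4 (j + 1) (by omega), h4 j (by omega)]
  have e2 : ∑ x ∈ range m, u' (k + (x + 1 + 1) + 1) * (v' (k + (x + 1 + 1) + 1) - v' (k + (x + 1 + 1))) =
      ∑ x ∈ range m, u (k + x + 1) * (v (k + x + 1) - v (k + x)) := by
    refine sum_congr rfl fun j _ => ?_
    have a1 : k + (j + 1 + 1) + 1 = (k + j + 1) + 2 := by omega
    have a2 : k + (j + 1 + 1) = (k + j) + 2 := by omega
    rw [a1, a2, h3 _ (by omega), h5 _ (by omega), h5 _ (by omega)]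
  have e3 : v' (k + 2) = v' k := by rw [h5 k le_rfl, h4 k le_rfl]
  have e4 : u' (k + (0 + 1) + 1) * (v' (k + (0 + 1) + 1) - v' (k + (0 + 1))) +
      u' (k + 0 + 1) * (v' (k + 0 + 1) - v' (k + 0)) = 0 := by
    have a1 : k + (0 + 1) + 1 = k + 2 := by omega
    have a2 : k + (0 + 1) = k + 1 := by omega
    rw [a1, a2, add_zero, e3, h2]
    ring
  rw [e1, e2]
  linarith

/-- fold of the directions -/
def fd (w : List Piece) (d : List Bool) : Option (List Bool) := w.foldl (fun o p => o.bind p.dir) (some d)

theorem fd_none (w : List Piece) : w.foldl (fun o p => o.bind p.dir) none = none := by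
  induction w with
  | nil => rfl
  | cons p w ih => simpa using ih

theorem fd_cons {p : Piece} {w : List Piece} {d d' : List Bool} (h : fd (p :: w) d = some d') :
    ∃ d1, p.dir d = some d1 ∧ fd w d1 = some d' := by
  unfold fd at h
  rw [List.foldl_cons] at h
  simp only [Option.bind_some] at h
  cases h1 : p.dir d with
  | none => rw [h1, fd_none] at h; cases h
  | some d1 => exact ⟨d1, rfl, by rw [h1] at h; exact h⟩

theorem len_cross {k : ℕ} {s : Bool} {d d1 : List Bool} (h : (Piece.cross k s).dir d = some d1) :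
    d1 = d ∧ k + 2 ≤ d.length := by
  simp only [Piece.dir] at h
  split_ifs at h with h1
  refine ⟨(Option.some.inj h).symm, ?_⟩
  have h2 := congrArg List.length h1
  simp only [List.length_drop, List.length_cons] at h2
  omega

theorem len_cup {k : ℕ} {f : Bool} {d d1 : List Bool} (h : (Piece.cup k f).dir d = some d1) :
    k ≤ d.length ∧ d1.length = d.length + 2 := by
  simp only [Piece.dir] at h
  split_ifs at h with h1
  refine ⟨h1, ?_⟩
  rw [← Option.some.inj h]
  simp only [List.length_append, List.length_take, List.length_cons, List.length_drop]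
  omega

theorem len_cap {k : ℕ} {f : Bool} {d d1 : List Bool} (h : (Piece.cap k f).dir d = some d1) :
    k ≤ d1.length ∧ d.length = d1.length + 2 := by
  simp only [Piece.dir] at h
  split_ifs at h with h1
  have h2 := congrArg List.length h1
  simp only [List.length_drop, List.length_cons] at h2
  rw [← Option.some.inj h]
  simp only [List.length_append, List.length_take, List.length_drop]
  omega

/-- **Discrete Stokes.** -/
theorem stokes : ∀ (w : List Piece) (d d' : List Bool) (m : ℕ → ℚ) (φ h : ℕ → ℕ → ℚ), fd w d = some d' →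
    IsStrand w φ → IsGap w h → Jumps w m φ →
    pair w m h = bd d'.length (φ w.length) (h w.length) - bd d.length (φ 0) (h 0) ∧ h w.length 0 = h 0 0 ∧
      h w.length d'.length = h 0 d.length
  | [], d, d', m, φ, h, hd, _, _, _ => by
    have : d' = d := (Option.some.inj hd).symm
    subst this
    simp [pair]
  | .cross k s :: w, d, d', m, φ, h, hd, hφ, hh, hj => by
    obtain ⟨d1, h1, h2⟩ := fd_cons hd
    obtain ⟨h3, h4⟩ := len_cross h1
    subst h3
    obtain ⟨i1, i2, i3⟩ := stokes w d1 d' (fun t => m (t + 1)) (fun t => φ (t + 1)) (fun t => h (t + 1)) h2 hφ.2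
      hh.2 hj.2
    have hg := hh.1
    have hs := hφ.1
    simp only [GapStep] at hg
    simp only [StrandStep] at hs
    have h5 := bd_cross d1.length k h4 (φ 0) (h 0) (h 1) hg
    refine ⟨?_, ?_, ?_⟩
    · simp only [pair, List.length_cons]
      rw [i1, ← hj.1]
      simp only [zero_add]
      rw [hs]
      linarith
    · rw [List.length_cons, i2]
      exact hg 0 (by omega)
    · rw [List.length_cons, i3]
      exact hg _ (by omega)
  | .cup k f :: w, d, d', m, φ, h, hd, hφ, hh, hj => by
    obtain ⟨d1, h1, h2⟩ := fd_cons hd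
    obtain ⟨h3, h4⟩ := len_cup h1
    obtain ⟨i1, i2, i3⟩ := stokes w d1 d' (fun t => m (t + 1)) (fun t => φ (t + 1)) (fun t => h (t + 1)) h2 hφ.2
      hh.2 hj
    obtain ⟨hg1, hg2⟩ := hh.1
    obtain ⟨hs1, hs2, hs3⟩ := hφ.1
    have h5 := bd_cup d.length k h3 (φ 0) (h 0) (φ 1) (h 1) hs1 hs2 hs3 hg1 hg2
    refine ⟨?_, ?_, ?_⟩
    · simp only [pair, List.length_cons]
      rw [i1, h4]
      simp only [zero_add]
      rw [h5]
    · rw [List.length_cons, i2]
      exact hg1 0 (by omega)
    · rw [List.length_cons, i3, h4]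
      exact hg2 _ h3
  | .cap k f :: w, d, d', m, φ, h, hd, hφ, hh, hj => by
    obtain ⟨d1, h1, h2⟩ := fd_cons hd
    obtain ⟨h3, h4⟩ := len_cap h1
    obtain ⟨i1, i2, i3⟩ := stokes w d1 d' (fun t => m (t + 1)) (fun t => φ (t + 1)) (fun t => h (t + 1)) h2 hφ.2
      hh.2 hj
    obtain ⟨hg1, hg2⟩ := hh.1
    obtain ⟨hs1, hs2, hs3⟩ := hφ.1
    have h5 := bd_cup d1.length k h3 (φ 1) (h 1) (φ 0) (h 0) hs1 hs2 hs3 hg1 hg2
    refine ⟨?_, ?_, ?_⟩
    · simp only [pair, List.length_cons]
      rw [i1, h4]
      simp only [zero_add]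
      rw [h5]
    · rw [List.length_cons, i2]
      exact (hg1 0 (by omega)).symm
    · rw [List.length_cons, i3, h4]
      exact (hg2 _ h3).symm

/-- the jumps of a strand function -/
def jmp (w : List Piece) (φ : ℕ → ℕ → ℚ) (t : ℕ) : ℚ :=
  match w[t]? with
  | some (.cross k _) => φ t (k + 1) - φ t (k + 2)
  | _ => 0

theorem jumps_jmp : ∀ (w : List Piece) (φ : ℕ → ℕ → ℚ), Jumps w (jmp w φ) φ
  | [], _ => trivial
  | .cross _ _ :: w, φ => ⟨rfl, jumps_jmp w fun t => φ (t + 1)⟩
  | .cup _ _ :: w, φ => jumps_jmp w fun t => φ (t + 1)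
  | .cap _ _ :: w, φ => jumps_jmp w fun t => φ (t + 1)

theorem pair_single : ∀ (w : List Piece) (m : ℕ → ℚ) (h : ℕ → ℕ → ℚ) (t0 k0 : ℕ) (s0 : Bool),
    w[t0]? = some (.cross k0 s0) → (∀ t k s, w[t]? = some (.cross k s) → t ≠ t0 → m t = 0) →
    pair w m h = m t0 * (h (t0 + 1) (k0 + 1) - h t0 (k0 + 1))
  | [], _, _, _, _, _, h0, _ => by simp at h0
  | p :: w, m, h, t0, k0, s0, h0, hm => by
    have hz : ∀ (w : List Piece) (m : ℕ → ℚ) (h : ℕ → ℕ → ℚ),
        (∀ t k s, w[t]? = some (.cross k s) → m t = 0) → pair w m h = 0 := by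
      intro w
      induction w with
      | nil => intro m h _; rfl
      | cons p w ih =>
        intro m h hm
        have h1 := ih (fun t => m (t + 1)) (fun t => h (t + 1)) (fun t k s hh => hm (t + 1) k s (by simpa using hh))
        cases p with
        | cross k s =>
          simp only [pair]
          rw [h1, hm 0 k s (by simp)]
          ring
        | cup k f => exact h1
        | cap k f => exact h1
    cases t0 with
    | zero =>
      simp only [List.getElem?_cons_zero, Option.some.injEq] at h0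
      subst h0
      simp only [pair]
      rw [hz w _ _ (fun t k s hh => hm (t + 1) k s (by simpa using hh) (by omega))]
      simp
    | succ t0 =>
      have h1 := pair_single w (fun t => m (t + 1)) (fun t => h (t + 1)) t0 k0 s0 (by simpa using h0)
        (fun t k s hh hne => hm (t + 1) k s (by simpa using hh) (by omega))
      cases p with
      | cross k s =>
        simp only [pair]
        rw [h1, hm 0 k s (by simp) (by omega)]
        ring
      | cup k f => exact h1
      | cap k f => exact h1

/-- in a reduced diagram a strand function does not jump at exactly one crossing -/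
theorem no_bridge {w : List Piece} (hw : IsTangle w) (hr : Reduced w) (φ : ℕ → ℕ → ℚ) (hφ : IsStrand w φ)
    (he : φ 0 1 = φ w.length 1) (t0 k0 : ℕ) (s0 : Bool) (h0 : w[t0]? = some (.cross k0 s0))
    (hj : ∀ t k s, w[t]? = some (.cross k s) → t ≠ t0 → φ t (k + 1) = φ t (k + 2)) :
    φ t0 (k0 + 1) = φ t0 (k0 + 2) := by
  obtain ⟨h, hh, hne⟩ := hr t0 k0 s0 h0
  obtain ⟨h1, h2, h3⟩ := stokes w [true] [true] (jmp w φ) φ h hw hφ hh (jumps_jmp w φ)
  rw [pair_single w _ h t0 k0 s0 h0 (fun t k s hh hne => by
    unfold jmp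
    rw [hh]
    simp only
    rw [hj t k s hh hne, sub_self])] at h1
  have h4 : jmp w φ t0 = φ t0 (k0 + 1) - φ t0 (k0 + 2) := by
    unfold jmp
    rw [h0]
  have h5 : bd [true].length (φ w.length) (h w.length) = bd [true].length (φ 0) (h 0) := by
    have e1 : h w.length 1 = h 0 1 := h3
    simp only [bd, List.length_cons, List.length_nil, zero_add, sum_range_one, e1, h2, he]
  rw [h5, sub_self, h4] at h1
  rcases mul_eq_zero.mp h1 with h6 | h6
  · exact sub_eq_zero.mp h6
  · exact absurd (sub_eq_zero.mp h6).symm hne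

end LG3P.PL
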