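import Pool.Agent.Lib.MP_3cd99b_gt.Wo4
import Pool.Agent.Lib.MP_3cd99b_gt.PL3
import Pool.Agent.Lib.MP_3cd99b_gt.Rd

/-!
# No bridges in a reduced diagram (P2, MP_3cd99b_gt)

`nob`: in a reduced diagram no crossing separates the circles.
-/

namespace LG3P.Wo

open LG3 LG3P.PL

variable {w : List Piece} (hw : IsTangle w)

/-- a slot of `T` lies on the circle of the position `z` -/
def OnT (T : Set (Sl w)) (z : ℕ × ℕ) : Prop := ∃ (h : Val w z), ∃ s ∈ T, (pi hw).SameCycle (depP hw s) ⟨z, h⟩

theorem onT_congr {T : Set (Sl w)} {z z' : ℕ × ℕ} (h : Val w z) (h' : Val w z')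
    (hs : (pi hw).SameCycle ⟨z, h⟩ ⟨z', h'⟩) : OnT hw T z ↔ OnT hw T z' := by
  constructor
  · rintro ⟨_, s, hs1, hs2⟩
    exact ⟨h', s, hs1, hs2.trans hs⟩
  · rintro ⟨_, s, hs1, hs2⟩
    exact ⟨h, s, hs1, hs2.trans hs.symm⟩

theorem same_of_mv {z z' : ℕ × ℕ} (h : Val w z) (h' : Val w z') (he : mv w false z = z') :
    (pi hw).SameCycle ⟨z, h⟩ ⟨z', h'⟩ :=
  ⟨1, by rw [zpow_one]; exact Subtype.ext he⟩

/-- the strand `j` before the letter `p` and the strand `i` after it -/
theorem onT_rgt {T : Set (Sl w)} {t : ℕ} {p : Piece} (hp : w[t]? = some p) {j i : ℕ} (h : rgt p j = (true, i)) :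
    OnT hw T (t, j) ↔ OnT hw T (t + 1, i) := by
  have hd := SL_succ hw hp
  have hlt : t < w.length := by
    by_contra hh
    rw [List.getElem?_eq_none (by omega)] at hp
    simp at hp
  have hl : lft p i = (true, j) := by
    have := lft_of_rgt p j (by rw [h])
    rw [h] at this
    exact this
  have hval : Val w (t, j) ↔ Val w (t + 1, i) := by
    constructor
    · rintro ⟨_, hv⟩
      have h1 := step_rgt p _ _ hd j hv
      rw [h] at h1
      simp only [if_true] at h1
      exact ⟨by show t + 1 ≤ w.length; omega, h1.1⟩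
    · rintro ⟨_, hv⟩
      have h1 := step_lft p _ _ hd i hv
      rw [hl] at h1
      simp only [if_true] at h1
      exact ⟨by show t ≤ w.length; omega, h1.1⟩
  by_cases hv : Val w (t, j)
  · have hv' := hval.mp hv
    refine onT_congr hw hv hv' ?_
    have hpar : i % 2 = j % 2 := by
      have h1 := rgt_par p j
      rw [h] at h1
      simpa using h1
    cases hwst : west false j with
    | true =>
      have hwi : west false i = true := by rw [west_congr false hpar]; exact hwst
      refine (same_of_mv hw hv' hv ?_).symm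
      rw [mv_west w false t i p hp hwi, hl]
      simp
    | false =>
      refine same_of_mv hw hv hv' ?_
      rw [mv_east w false t j p hp hwst, h]
      simp
  · constructor
    · rintro ⟨h1, _⟩
      exact absurd h1 hv
    · rintro ⟨h1, _⟩
      exact absurd (hval.mpr h1) hv

/-- the two strands of a turn on the right -/
theorem onT_rgt_turn {T : Set (Sl w)} {t : ℕ} {p : Piece} (hp : w[t]? = some p) {j i : ℕ}
    (h : rgt p j = (false, i)) : OnT hw T (t, j) ↔ OnT hw T (t, i) := by
  have hd := SL_succ hw hp
  have hlt : t < w.length := by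
    by_contra hh
    rw [List.getElem?_eq_none (by omega)] at hp
    simp at hp
  have hi : rgt p i = (false, j) := by
    have := rgt_turn p j (by rw [h])
    rw [h] at this
    exact this
  have key : ∀ a b, rgt p a = (false, b) → Val w (t, a) → Val w (t, b) := by
    rintro a b hab ⟨_, hv⟩
    have h1 := step_rgt p _ _ hd a hv
    rw [hab] at h1
    simp only [Bool.false_eq_true, if_false] at h1
    exact ⟨by show t ≤ w.length; omega, h1.1⟩
  by_cases hv : Val w (t, j)
  · have hv' := key j i h hv
    refine onT_congr hw hv hv' ?_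
    have hpar : i % 2 = (j + 1) % 2 := by
      have h1 := rgt_par p j
      rw [h] at h1
      simpa using h1
    cases hwst : west false j with
    | false =>
      refine same_of_mv hw hv hv' ?_
      rw [mv_east w false t j p hp hwst, h]
      simp
    | true =>
      have hwi : west false i = false := by rw [west_flip false hpar, hwst]; rfl
      refine (same_of_mv hw hv' hv ?_).symm
      rw [mv_east w false t i p hp hwi, hi]
      simp
  · constructor
    · rintro ⟨h1, _⟩
      exact absurd h1 hv
    · rintro ⟨h1, _⟩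
      exact absurd (key i j hi h1) hv

/-- the two strands of a turn on the left -/
theorem onT_lft_turn {T : Set (Sl w)} {t : ℕ} {p : Piece} (hp : w[t]? = some p) {j i : ℕ}
    (h : lft p j = (false, i)) : OnT hw T (t + 1, j) ↔ OnT hw T (t + 1, i) := by
  have hd := SL_succ hw hp
  have hlt : t < w.length := by
    by_contra hh
    rw [List.getElem?_eq_none (by omega)] at hp
    simp at hp
  have hi : lft p i = (false, j) := by
    have := lft_turn p j (by rw [h])
    rw [h] at this
    exact this
  have key : ∀ a b, lft p a = (false, b) → Val w (t + 1, a) → Val w (t + 1, b) := by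
    rintro a b hab ⟨_, hv⟩
    have h1 := step_lft p _ _ hd a hv
    rw [hab] at h1
    simp only [Bool.false_eq_true, if_false] at h1
    exact ⟨by show t + 1 ≤ w.length; omega, h1.1⟩
  by_cases hv : Val w (t + 1, j)
  · have hv' := key j i h hv
    refine onT_congr hw hv hv' ?_
    have hpar : i % 2 = (j + 1) % 2 := by
      have h1 := lft_par p j
      rw [h] at h1
      simpa using h1
    cases hwst : west false j with
    | true =>
      refine same_of_mv hw hv hv' ?_
      rw [mv_west w false t j p hp hwst, h]
      simp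
    | false =>
      have hwi : west false i = true := by rw [west_flip false hpar, hwst]; rfl
      refine (same_of_mv hw hv' hv ?_).symm
      rw [mv_west w false t i p hp hwi, hi]
      simp
  · constructor
    · rintro ⟨h1, _⟩
      exact absurd h1 hv
    · rintro ⟨h1, _⟩
      exact absurd (key i j hi h1) hv

/-- the indicator function, index `j + 1` for the strand `j` -/
noncomputable def ind (T : Set (Sl w)) (t j : ℕ) : ℚ :=
  open Classical in
  match j with
  | 0 => 0
  | j + 1 => if OnT hw T (t, j) then 1 else 0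

theorem ind_succ (T : Set (Sl w)) (t j : ℕ) [Decidable (OnT hw T (t, j))] :
    ind hw T t (j + 1) = if OnT hw T (t, j) then 1 else 0 := by
  unfold ind
  simp only
  congr

theorem ind_eq {T : Set (Sl w)} {t t' j j' : ℕ} (h : OnT hw T (t, j) ↔ OnT hw T (t', j')) :
    ind hw T t (j + 1) = ind hw T t' (j' + 1) := by
  classical
  rw [ind_succ, ind_succ]
  simp only [h]

theorem isStrand_ind (T : Set (Sl w)) : IsStrand w (ind hw T) := by
  rw [isStrand_iff]
  intro t p hp
  cases p with
  | cross k s =>
    show ind hw T (t + 1) = ind hw T t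
    funext j
    cases j with
    | zero => rfl
    | succ j => exact (ind_eq hw (onT_rgt hw hp (show rgt (.cross k s) j = (true, j) from rfl))).symm
  | cup k f =>
    refine ⟨?_, ?_, ?_⟩
    · intro j hj
      cases j with
      | zero => rfl
      | succ j =>
        refine (ind_eq hw (onT_rgt hw hp ?_)).symm
        simp only [rgt]
        rw [if_pos (by omega)]
    · refine ind_eq hw (onT_lft_turn hw hp ?_)
      simp [lft]
    · intro j hj
      obtain ⟨i, rfl⟩ : ∃ i, j = i + 1 := ⟨j - 1, by omega⟩
      have e : i + 1 + 2 = (i + 2) + 1 := by omega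
      rw [e]
      refine (ind_eq hw (onT_rgt hw hp ?_)).symm
      simp only [rgt]
      rw [if_neg (by omega)]
  | cap k f =>
    refine ⟨?_, ?_, ?_⟩
    · intro j hj
      cases j with
      | zero => rfl
      | succ j =>
        refine ind_eq hw (onT_rgt hw hp ?_)
        simp only [rgt]
        rw [if_pos (by omega)]
    · refine ind_eq hw (onT_rgt_turn hw hp ?_)
      simp [rgt]
    · intro j hj
      obtain ⟨i, rfl⟩ : ∃ i, j = i + 1 := ⟨j - 1, by omega⟩
      have e : i + 1 + 2 = (i + 2) + 1 := by omega
      rw [e]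
      refine ind_eq hw (onT_rgt hw hp ?_)
      simp only [rgt]
      rw [if_neg (by omega), if_neg (by omega), if_neg (by omega)]
      simp

/-- slots on the same circle -/
theorem orbit_nx (n : ℕ) : ∀ s s' : Sl w, (pi hw ^ n) (depP hw s) = depP hw s' → ∃ m : ℕ, (nx hw ^ m) s = s' := by
  induction n using Nat.strong_induction_on with
  | _ n ih =>
    intro s s' h
    rcases Nat.eq_zero_or_pos n with rfl | hn
    · exact ⟨0, depP_inj hw (by simpa using h)⟩
    · have h1 : len hw s ≤ n := by
        by_contra hlt
        push Not at hlt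
        have := ft_min (pi hw) (Dep hw) (depP hw s) ⟨s, rfl⟩ n hn hlt
        exact this (by rw [h]; exact ⟨s', rfl⟩)
      have h0 : 0 < len hw s := ft_pos _ _ _ _
      obtain ⟨m, hm⟩ := ih (n - len hw s) (by omega) (nx hw s) s' (by
        rw [depP_nx', ← Equiv.Perm.mul_apply, ← pow_add, Nat.sub_add_cancel h1]
        exact h)
      exact ⟨m + 1, by rw [pow_succ, Equiv.Perm.mul_apply]; exact hm⟩

theorem onT_slot {T : Set (Sl w)} (hT : ∀ s ∈ T, nx hw s ∈ T) (s : Sl w) : OnT hw T (depP hw s).1 ↔ s ∈ T := by
  constructor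
  · rintro ⟨_, s', hs', h⟩
    obtain ⟨n, hn⟩ := h.exists_nat_pow_eq
    obtain ⟨m, hm⟩ := orbit_nx hw n s' s hn
    rw [← hm]
    clear hm
    induction m with
    | zero => exact hs'
    | succ m ih =>
      rw [pow_succ', Equiv.Perm.mul_apply]
      exact hT _ ih
  · intro h
    exact ⟨(depP hw s).2, s, h, Equiv.Perm.SameCycle.refl _ _⟩

/-- the strand of type `b` at a crossing, on the left side -/
theorem onT_cr {T : Set (Sl w)} (hT : ∀ s ∈ T, nx hw s ∈ T) (c : Cr w) (b : Bool) :
    OnT hw T (c.1, je b (kc w c.1)) ↔ (c, b) ∈ T := by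
  rw [← onT_slot hw hT (c, b)]
  cases b with
  | true => exact Iff.rfl
  | false =>
    have h1 : (arrP hw (c, false)).1 = (c.1, je false (kc w c.1)) := rfl
    rw [← h1]
    refine onT_congr hw (arrP hw (c, false)).2 (depP hw (c, false)).2 ?_
    exact same_of_mv hw _ _ (congrArg Subtype.val (pi_arrP hw (c, false)))

theorem kc_eq {t k : ℕ} {s : Bool} (h : w[t]? = some (.cross k s)) : kc w t = k := by
  unfold kc
  rw [h]

/-- **No bridge.** -/
theorem nob (hr : Reduced w) (c : Cr w) (T : Set (Cr w × Bool))
    (h1 : ∀ c' b, (c', b) ∈ T → (st hw b c', b) ∈ T)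
    (h2 : ∀ c' b, c' ≠ c → (c', b) ∈ T → (c', !b) ∈ T) : (c, true) ∈ T → (c, false) ∈ T := by
  intro hc
  have hT : ∀ s ∈ T, nx hw s ∈ T := by
    rintro ⟨c', b⟩ hs
    rw [nx_eq]
    exact h1 c' b hs
  have hends : ind hw T 0 1 = ind hw T w.length 1 := by
    refine ind_eq hw ?_
    refine onT_congr hw (val_start w) (val_end hw) ?_
    exact same_of_mv hw _ _ (congrArg Subtype.val (pi_e0 hw))
  have key := no_bridge hw hr (ind hw T) (isStrand_ind hw T) hends c.1 (kc w c.1) (sc w c.1) (cr_piece c.2) (by
    intro t k s ht hne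
    have hk := kc_eq ht
    have hcr : isCr w t = true := isCr_of ht
    have hcc : (⟨t, hcr⟩ : Cr w) ≠ c := fun h => hne (congrArg Subtype.val h)
    have e1 := onT_cr hw hT ⟨t, hcr⟩ true
    have e2 := onT_cr hw hT ⟨t, hcr⟩ false
    have e3 : ((⟨t, hcr⟩ : Cr w), true) ∈ T ↔ ((⟨t, hcr⟩ : Cr w), false) ∈ T :=
      ⟨fun h => h2 _ true hcc h, fun h => h2 _ false hcc h⟩
    rw [hk] at e1 e2
    refine ind_eq hw ?_
    simp only [je] at e1 e2
    rcases Nat.mod_two_eq_zero_or_one k with hk2 | hk2
    · simp only [hk2, decide_true, if_true, Bool.true_eq_false, if_false] at e1 e2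
      rw [e1, e2, e3]
    · simp only [hk2, one_ne_zero, decide_false, Bool.false_eq_true, if_false, if_true] at e1 e2
      rw [e1, e2, e3])
  have e1 := onT_cr hw hT c true
  have e2 := onT_cr hw hT c false
  classical
  rw [ind_succ, ind_succ] at key
  have e3 : OnT hw T (c.1, kc w c.1) ↔ OnT hw T (c.1, kc w c.1 + 1) := by
    split_ifs at key with k1 k2 k2
    · exact ⟨fun _ => k2, fun _ => k1⟩
    · norm_num at key
    · norm_num at key
    · exact ⟨fun h => absurd h k1, fun h => absurd h k2⟩
  simp only [je] at e1 e2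
  rcases Nat.mod_two_eq_zero_or_one (kc w c.1) with hk2 | hk2
  · simp only [hk2, decide_true, if_true, Bool.true_eq_false, if_false] at e1 e2
    exact e2.mp (e3.mp (e1.mpr hc))
  · simp only [hk2, one_ne_zero, decide_false, Bool.false_eq_true, if_false, if_true] at e1 e2
    exact e2.mp (e3.mpr (e1.mpr hc))

end LG3P.Wo
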