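import Pool.Agent.Lib.MP_3cd99b_gt.FC5

/-!
# Octagons with admissible parameters add up exactly
-/

namespace PoolLib.MP_3cd99b_gt.Nr

open Dm LG3P.R4

/-- a set of lattice points which is an octagon with admissible parameters -/
def Good (S : Set (ℤ × ℤ)) : Prop :=
  ∃ r r' p n d1 d2 : ℤ, Adm r p d1 ∧ Adm r' n d2 ∧ ∀ a b, (a, b) ∈ S ↔ InOct r r' p n (d1 + d2) a b

theorem good_zero : Good {0} := by
  refine ⟨0, 0, 0, 0, 0, 0, ?_, ?_, fun a b => ?_⟩
  · unfold Adm; omega
  · unfold Adm; omega
  · simp only [Set.mem_singleton_iff, Prod.ext_iff, Prod.fst_zero, Prod.snd_zero, InOct, abs_le]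
    omega

theorem Loc_false {k : Kind} {r n d : ℤ} (h : Adm r n d) {p : ℤ × ℤ} (hp : Loc k false r n d p) :
    Oct r n d (-p.2, -p.1) := by
  obtain ⟨a1, a2, a3, a4⟩ := h
  cases k <;> simp only [Loc, Oct, Prod.ext_iff, Prod.fst_zero, Prod.snd_zero] at * <;> omega

theorem loc_pos {k k' : Kind} {sg : Bool} {r n d : ℤ} (h : Adm r n d) {p : ℤ × ℤ} (hs : sg = true)
    (hp : Loc (if sg then k else k') sg r n d p) : Oct r n d p := by
  subst hs
  simp only [if_true] at hp
  exact Loc.bounds h hp

theorem loc_neg {k k' : Kind} {sg : Bool} {r n d : ℤ} (h : Adm r n d) {p : ℤ × ℤ} (hs : sg = false)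
    (hp : Loc (if sg then k else k') sg r n d p) : Oct r n d (-p.2, -p.1) := by
  subst hs
  simp only [Bool.false_eq_true, if_false] at hp
  exact Loc_false h hp

/-- the local bounds of both covering theorems together -/
theorem cover (rr nn dd : Bool × Bool → ℤ) (h : ∀ i, Adm (rr i) (nn i) (dd i)) (A B : ℤ)
    (hA : A ≤ rr (true, true) + rr (false, true)) (hA' : -(rr (true, false) + rr (false, false)) ≤ A)
    (hB : B ≤ rr (true, true) + rr (false, true)) (hB' : -(rr (true, false) + rr (false, false)) ≤ B)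
    (hT : A + B ≤ nn (true, true) + nn (false, true)) (hS : -(nn (true, false) + nn (false, false)) ≤ A + B)
    (hd : |A - B| ≤ dd (true, true) + dd (false, true) + (dd (true, false) + dd (false, false))) :
    ∃ q : Bool × Bool → ℤ × ℤ, (∀ i, Oct (rr (i, true)) (nn (i, true)) (dd (i, true)) (q (i, true))) ∧
      (∀ i, Oct (rr (i, false)) (nn (i, false)) (dd (i, false)) (-(q (i, false)).2, -(q (i, false)).1)) ∧
      ∑ i, q i = (A, B) := by
  have t1 : ∀ f : Bool × Bool → ℤ, tot (fun i : Bool × Bool => i.2) true f = f (true, true) + f (false, true) := by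
    intro f
    simp [tot, Finset.sum_filter, Fintype.sum_prod_type]
  have t2 : ∀ f : Bool × Bool → ℤ, tot (fun i : Bool × Bool => i.2) false f = f (true, false) + f (false, false) := by
    intro f
    simp [tot, Finset.sum_filter, Fintype.sum_prod_type]
  have t3 : ∑ i, dd i = dd (true, true) + dd (false, true) + (dd (true, false) + dd (false, false)) := by
    rw [Fintype.sum_prod_type]
    simp
    ring
  rw [abs_le] at hd
  rcases le_total B A with hAB | hAB
  · obtain ⟨kp, kn, hF, q, h1, h2⟩ := cover_ge (fun i : Bool × Bool => i.2) rr nn dd h A B hAB (by rw [t1]; omega)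
      (by rw [t2]; omega) (by rw [t1]; omega) (by rw [t2]; omega) (by rw [t3]; omega)
    refine ⟨q, fun i => ?_, fun i => ?_, h2⟩
    · exact loc_pos (h _) rfl (h1 (i, true))
    · exact loc_neg (h _) rfl (h1 (i, false))
  · obtain ⟨kp, kn, hF, q, h1, h2⟩ := cover_le (fun i : Bool × Bool => i.2) rr nn dd h A B hAB (by rw [t1]; omega)
      (by rw [t2]; omega) (by rw [t1]; omega) (by rw [t2]; omega) (by rw [t3]; omega)
    refine ⟨q, fun i => ?_, fun i => ?_, h2⟩
    · have := loc_pos (h _) rfl (h1 (i, true))
      unfold Oct at this ⊢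
      simp only [Prod.fst_swap, Prod.snd_swap] at this
      omega
    · have := loc_neg (h _) rfl (h1 (i, false))
      unfold Oct at this ⊢
      simp only [Prod.fst_swap, Prod.snd_swap] at this
      dsimp only
      omega

theorem good_add {S T : Set (ℤ × ℤ)} (hS : Good S) (hT : Good T) :
    Good {z | ∃ s t, s ∈ S ∧ t ∈ T ∧ s + t = z} := by
  obtain ⟨r, r', p, n, d1, d2, h1, h2, h3⟩ := hS
  obtain ⟨ρ, ρ', p', n', e1, e2, k1, k2, k3⟩ := hT
  refine ⟨r + ρ, r' + ρ', p + p', n + n', d1 + e1, d2 + e2, ?_, ?_, fun A B => ⟨?_, fun h => ?_⟩⟩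
  · unfold Adm at *; omega
  · unfold Adm at *; omega
  · rintro ⟨⟨a, b⟩, ⟨a', b'⟩, hs, ht, he⟩
    rw [h3] at hs
    rw [k3] at ht
    simp only [InOct, abs_le] at *
    simp only [Prod.mk_add_mk, Prod.mk.injEq] at he
    omega
  · obtain ⟨c1, c2, c3, c4, c5, c6, c7⟩ := h
    obtain ⟨q, g1, g2, g3⟩ := cover
      (fun i => if i.1 then (if i.2 then r else r') else (if i.2 then ρ else ρ'))
      (fun i => if i.1 then (if i.2 then p else n) else (if i.2 then p' else n'))
      (fun i => if i.1 then (if i.2 then d1 else d2) else (if i.2 then e1 else e2))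
      (by rintro ⟨i, j⟩; cases i <;> cases j <;> simp <;> assumption) A B
      (by simpa using c1) (by simpa using c2) (by simpa using c3) (by simpa using c4) (by simpa using c5)
      (by simpa using c6) (by simp; convert c7 using 1)
    have a1 := g1 true
    have a2 := g1 false
    have a3 := g2 true
    have a4 := g2 false
    simp only [if_true, Bool.false_eq_true, if_false, Oct] at a1 a2 a3 a4
    rw [Fintype.sum_prod_type] at g3
    simp only [Fintype.sum_bool, Prod.ext_iff, Prod.fst_add, Prod.snd_add] at g3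
    refine ⟨q (true, true) + q (true, false), q (false, true) + q (false, false), ?_, ?_, ?_⟩
    · rw [← Prod.mk.eta (p := q (true, true) + q (true, false)), h3]
      simp only [InOct, abs_le, Prod.fst_add, Prod.snd_add]
      omega
    · rw [← Prod.mk.eta (p := q (false, true) + q (false, false)), k3]
      simp only [InOct, abs_le, Prod.fst_add, Prod.snd_add]
      omega
    · ext
      · simp only [Prod.fst_add]; omega
      · simp only [Prod.snd_add]; omega

end PoolLib.MP_3cd99b_gt.Nr
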