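import Pool.Agent.Lib.MP_3cd99b_gt.Nr1

/-!
# States and a separating crossing

`c` separates the crossings into `P` (the side of the root) and `Q`.
-/

namespace PoolLib.MP_3cd99b_gt.Nr

open Dm Oct LG3P.Sm Finset

variable {C : Type*}

/-- The states of `s` are the pairs of the states of the two sides, the label of `c` is forced. -/
theorem acyc_split [DecidableEq C] (s : C → Bool → Option C) (c : C) (β : Bool) (P Q : C → Prop) (hPQ : ∀ x, P x → ¬ Q x)
    (hPc : ¬ P c) (hQc : ¬ Q c) (hall : ∀ x, x = c ∨ P x ∨ Q x)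
    (s1 : {x // P x} → Bool → Option {x // P x}) (s2 : {x // Q x} → Bool → Option {x // Q x})
    (h1 : ∀ (x : {x // P x}) b, (s1 x b).map Subtype.val = (s x b).bind fun y => if y = c then s c (!β) else some y)
    (h2 : ∀ (x : {x // Q x}) b, (s2 x b).map Subtype.val = (s x b).bind fun y => if y = c then none else some y)
    (h2' : ∀ (x : {x // Q x}) b, (s x b).isSome)
    (h3 : ∃ y, s c β = some y ∧ (y = c ∨ Q y)) (h4 : ∀ z, s c (!β) = some z → P z) (X : C → Bool) :
    Acyc s X ↔ X c = !β ∧ Acyc s1 (fun x => X x) ∧ Acyc s2 (fun x => X x) := by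
  classical
  constructor
  · rintro ⟨r, hr⟩
    have hX : X c = !β := by
      by_contra hne
      have hX' : X c = β := by
        cases h5 : X c <;> cases h6 : β <;> simp_all
      -- an element of least rank among c and the crossings of Q
      obtain ⟨v, hv, hmin⟩ : ∃ v, (v = c ∨ Q v) ∧ ∀ u, (u = c ∨ Q u) → r v ≤ r u := by
        have hne : ∃ n, ∃ v, (v = c ∨ Q v) ∧ r v = n := ⟨r c, c, Or.inl rfl, rfl⟩
        obtain ⟨v, hv, hv'⟩ := Nat.find_spec hne
        exact ⟨v, hv, fun u hu => hv' ▸ Nat.find_min' hne ⟨u, hu, rfl⟩⟩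
      have hstep : ∃ u, s v (X v) = some u ∧ (u = c ∨ Q u) := by
        rcases hv with rfl | hv
        · rw [hX']
          exact h3
        · obtain ⟨u, hu⟩ := Option.isSome_iff_exists.1 (h2' ⟨v, hv⟩ (X v))
          have h5 := h2 ⟨v, hv⟩ (X v)
          simp only at hu h5
          rw [hu] at h5
          refine ⟨u, hu, ?_⟩
          by_cases h6 : u = c
          · exact Or.inl h6
          · right
            simp only [Option.bind_some, if_neg h6] at h5
            obtain ⟨w, hw1, hw2⟩ := Option.map_eq_some_iff.1 h5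
            rw [← hw2]
            exact w.2
      obtain ⟨u, hu, hu'⟩ := hstep
      exact absurd (hr v u hu) (not_lt.2 (hmin u hu'))
    refine ⟨hX, ⟨fun x => r x, fun v u h => ?_⟩, ⟨fun x => r x, fun v u h => ?_⟩⟩
    · have h5 := h1 v (X v)
      rw [h, Option.map_some] at h5
      rcases h6 : s v (X v) with _ | y
      · rw [h6] at h5; simp at h5
      · rw [h6, Option.bind_some] at h5
        by_cases h7 : y = c
        · rw [if_pos h7] at h5
          subst h7
          have h8 := hr v y h6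
          have h9 := hr y u.1 (by rw [hX]; exact h5.symm)
          exact h9.trans h8
        · rw [if_neg h7] at h5
          have : y = u.1 := (Option.some.inj h5).symm
          subst this
          exact hr v _ h6
    · have h5 := h2 v (X v)
      rw [h, Option.map_some] at h5
      rcases h6 : s v (X v) with _ | y
      · rw [h6] at h5; simp at h5
      · rw [h6, Option.bind_some] at h5
        by_cases h7 : y = c
        · rw [if_pos h7] at h5
          simp at h5
        · rw [if_neg h7] at h5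
          have : y = u.1 := (Option.some.inj h5).symm
          subst this
          exact hr v _ h6
  · rintro ⟨hX, ⟨r1, hr1⟩, ⟨r2, hr2⟩⟩
    -- the rank of c
    let K : ℕ := match s c (!β) with
      | none => 0
      | some z => if h : P z then 2 * r1 ⟨z, h⟩ + 2 else 0
    let r : C → ℕ := fun x => if h : P x then 2 * r1 ⟨x, h⟩ + 1 else if h : Q x then K + 1 + r2 ⟨x, h⟩ else K
    have rP : ∀ x (h : P x), r x = 2 * r1 ⟨x, h⟩ + 1 := fun x h => by simp only [r, dif_pos h]
    have rQ : ∀ x (h : Q x), r x = K + 1 + r2 ⟨x, h⟩ := fun x h => by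
      have : ¬ P x := fun h' => hPQ x h' h
      simp only [r, dif_neg this, dif_pos h]
    have rc : r c = K := by simp only [r, dif_neg hPc, dif_neg hQc]
    have hK1 : ∀ z (h : P z), s c (!β) = some z → K = 2 * r1 ⟨z, h⟩ + 2 := fun z h hz => by
      simp only [K, hz, dif_pos h]
    have hK0 : s c (!β) = none → K = 0 := fun hz => by simp only [K, hz]
    refine ⟨r, fun v u h => ?_⟩
    rcases hall v with rfl | hv | hv
    · rw [hX] at h
      have hz := h4 u h
      rw [rc, rP u hz, hK1 u hz h]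
      omega
    · have h5 := h1 ⟨v, hv⟩ (X v)
      simp only at h5
      rw [h, Option.bind_some] at h5
      by_cases h7 : u = c
      · rw [if_pos h7] at h5
        subst h7
        rw [rc, rP v hv]
        rcases h8 : s u (!β) with _ | z
        · rw [hK0 h8]; omega
        · rw [h8] at h5
          obtain ⟨w, hw1, hw2⟩ := Option.map_eq_some_iff.1 h5
          have h9 := hr1 ⟨v, hv⟩ w hw1
          have h10 := h4 z h8
          rw [hK1 z h10 h8]
          have h11 : w = ⟨z, h10⟩ := Subtype.ext hw2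
          rw [h11] at h9
          omega
      · rw [if_neg h7] at h5
        obtain ⟨w, hw1, hw2⟩ := Option.map_eq_some_iff.1 h5
        have h9 := hr1 ⟨v, hv⟩ w hw1
        subst hw2
        rw [rP _ w.2, rP v hv, Subtype.coe_eta]
        omega
    · have h5 := h2 ⟨v, hv⟩ (X v)
      simp only at h5
      rw [h, Option.bind_some] at h5
      by_cases h7 : u = c
      · subst h7
        rw [rc, rQ v hv]
        omega
      · rw [if_neg h7] at h5
        obtain ⟨w, hw1, hw2⟩ := Option.map_eq_some_iff.1 h5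
        have h9 := hr2 ⟨v, hv⟩ w hw1
        subst hw2
        rw [rQ _ w.2, rQ v hv, Subtype.coe_eta]
        omega

/-- sums over the two sides -/
theorem sum_split [Fintype C] [DecidableEq C] (c : C) (P Q : C → Prop) (hPQ : ∀ x, P x → ¬ Q x)
    (hPc : ¬ P c) (hQc : ¬ Q c) (hall : ∀ x, x = c ∨ P x ∨ Q x) [DecidablePred P] [DecidablePred Q]
    {M : Type*} [AddCommMonoid M] (g : C → M) :
    ∑ x, g x = g c + (∑ x : {x // P x}, g x + ∑ x : {x // Q x}, g x) := by
  have e1 : ∑ x : {x // P x}, g x = ∑ x, if P x then g x else 0 := by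
    rw [← Finset.sum_filter]
    exact (Finset.sum_subtype (Finset.univ.filter P) (fun x => by simp) g).symm
  have e2 : ∑ x : {x // Q x}, g x = ∑ x, if Q x then g x else 0 := by
    rw [← Finset.sum_filter]
    exact (Finset.sum_subtype (Finset.univ.filter Q) (fun x => by simp) g).symm
  have e3 : g c = ∑ x, if x = c then g x else 0 := by simp
  rw [e1, e2, e3, ← Finset.sum_add_distrib, ← Finset.sum_add_distrib]
  refine Finset.sum_congr rfl fun x _ => ?_
  rcases hall x with rfl | h | h
  · simp [hPc, hQc]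
  · have h1 : x ≠ c := fun h' => hPc (h' ▸ h)
    simp [h, hPQ x h, h1]
  · have h1 : x ≠ c := fun h' => hQc (h' ▸ h)
    have h2 : ¬ P x := fun h' => hPQ x h' h
    simp [h, h2, h1]

/-- the possible values -/
def SS [Fintype C] (sg : C → Bool) (s s' : C → Bool → Option C) : Set (ℤ × ℤ) :=
  {z | ∃ x y : C → Bool, Acyc s x ∧ Acyc s' y ∧ ZA sg x y = z.1 ∧ ZB sg x y = z.2}

theorem SS_split [Fintype C] [DecidableEq C] (sg : C → Bool) (s s' : C → Bool → Option C) (c : C) (β : Bool)
    (P Q : C → Prop) [DecidablePred P] [DecidablePred Q] (hPQ : ∀ x, P x → ¬ Q x)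
    (hPc : ¬ P c) (hQc : ¬ Q c) (hall : ∀ x, x = c ∨ P x ∨ Q x)
    (s1 s1' : {x // P x} → Bool → Option {x // P x}) (s2 s2' : {x // Q x} → Bool → Option {x // Q x})
    (hX : ∀ X : C → Bool, Acyc s X ↔ X c = !β ∧ Acyc s1 (fun x => X x) ∧ Acyc s2 (fun x => X x))
    (hY : ∀ X : C → Bool, Acyc s' X ↔ X c = !β ∧ Acyc s1' (fun x => X x) ∧ Acyc s2' (fun x => X x)) :
    SS sg s s' = {z | ∃ u v, u ∈ SS (fun x : {x // P x} => sg x) s1 s1' ∧
      v ∈ SS (fun x : {x // Q x} => sg x) s2 s2' ∧ u + v = z} := by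
  have hA : ∀ X Y : C → Bool, X c = Y c → ZA sg X Y =
      ZA (fun x : {x // P x} => sg x) (fun x => X x) (fun x => Y x) +
      ZA (fun x : {x // Q x} => sg x) (fun x => X x) (fun x => Y x) := by
    intro X Y h
    unfold ZA
    rw [sum_split c P Q hPQ hPc hQc hall]
    rw [h]
    cases Y c <;> simp
  have hB : ∀ X Y : C → Bool, X c = Y c → ZB sg X Y =
      ZB (fun x : {x // P x} => sg x) (fun x => X x) (fun x => Y x) +
      ZB (fun x : {x // Q x} => sg x) (fun x => X x) (fun x => Y x) := by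
    intro X Y h
    unfold ZB
    rw [sum_split c P Q hPQ hPc hQc hall]
    rw [h]
    cases Y c <;> simp
  ext z
  constructor
  · rintro ⟨X, Y, h1, h2, h3, h4⟩
    obtain ⟨a1, a2, a3⟩ := (hX X).1 h1
    obtain ⟨b1, b2, b3⟩ := (hY Y).1 h2
    refine ⟨(ZA (fun x : {x // P x} => sg x) (fun x => X x) (fun x => Y x),
      ZB (fun x : {x // P x} => sg x) (fun x => X x) (fun x => Y x)),
      (ZA (fun x : {x // Q x} => sg x) (fun x => X x) (fun x => Y x),
      ZB (fun x : {x // Q x} => sg x) (fun x => X x) (fun x => Y x)),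
      ⟨_, _, a2, b2, rfl, rfl⟩, ⟨_, _, a3, b3, rfl, rfl⟩, ?_⟩
    ext
    · rw [← h3, hA X Y (a1.trans b1.symm)]; rfl
    · rw [← h4, hB X Y (a1.trans b1.symm)]; rfl
  · rintro ⟨u, v, ⟨X1, Y1, a1, a2, a3, a4⟩, ⟨X2, Y2, b1, b2, b3, b4⟩, rfl⟩
    let J : ({x // P x} → Bool) → ({x // Q x} → Bool) → C → Bool := fun F G x =>
      if h : P x then F ⟨x, h⟩ else if h : Q x then G ⟨x, h⟩ else !β
    have Jc : ∀ F G, J F G c = !β := fun F G => by simp only [J, dif_neg hPc, dif_neg hQc]
    have J1 : ∀ F G, (fun x : {x // P x} => J F G x) = F := fun F G => by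
      funext x
      simp only [J, dif_pos x.2]
    have J2 : ∀ F G, (fun x : {x // Q x} => J F G x) = G := fun F G => by
      funext x
      have : ¬ P x.1 := fun h' => hPQ _ h' x.2
      simp only [J, dif_neg this, dif_pos x.2]
    refine ⟨J X1 X2, J Y1 Y2, (hX _).2 ⟨Jc _ _, ?_, ?_⟩, (hY _).2 ⟨Jc _ _, ?_, ?_⟩, ?_, ?_⟩
    · rw [J1]; exact a1
    · rw [J2]; exact b1
    · rw [J1]; exact a2
    · rw [J2]; exact b2
    · rw [hA _ _ ((Jc _ _).trans (Jc _ _).symm), J1, J1, J2, J2, a3, b3]; rfl
    · rw [hB _ _ ((Jc _ _).trans (Jc _ _).symm), J1, J1, J2, J2, a4, b4]; rfl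

theorem SS_empty [Fintype C] [IsEmpty C] (sg : C → Bool) (s s' : C → Bool → Option C) : SS sg s s' = {0} := by
  ext z
  simp only [SS, Set.mem_ofPred_eq, Set.mem_singleton_iff, Prod.ext_iff, Prod.fst_zero, Prod.snd_zero]
  constructor
  · rintro ⟨x, y, -, -, h1, h2⟩
    rw [← h1, ← h2]
    simp [ZA, ZB]
  · rintro ⟨h1, h2⟩
    refine ⟨fun x => isEmptyElim x, fun x => isEmptyElim x, ⟨fun _ => 0, fun v => isEmptyElim v⟩,
      ⟨fun _ => 0, fun v => isEmptyElim v⟩, ?_, ?_⟩
    · rw [h1]; simp [ZA]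
    · rw [h2]; simp [ZB]

end PoolLib.MP_3cd99b_gt.Nr
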