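import Pool.Agent.Lib.MP_3cd99b_gt.Nr2

/-!
# The two sides of a separating crossing are diagrams
-/

set_option linter.unusedSimpArgs false

namespace PoolLib.MP_3cd99b_gt.Nr

open Dm Oct LG3P.Top Finset

variable {C : Type*}

/-- the next map which skips `c` -/
def skip [DecidableEq C] (σ : Equiv.Perm C) (c : C) : Equiv.Perm C := Equiv.swap c (σ c) * σ

theorem skip_self [DecidableEq C] (σ : Equiv.Perm C) (c : C) : skip σ c c = c := by simp [skip]

theorem skip_of [DecidableEq C] (σ : Equiv.Perm C) {c x : C} (h : x ≠ c) :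
    skip σ c x = if σ x = c then σ c else σ x := by
  simp only [skip, Equiv.Perm.mul_apply]
  split_ifs with h1
  · rw [h1, Equiv.swap_apply_left]
  · exact Equiv.swap_apply_of_ne_of_ne h1 (fun h2 => h (σ.injective h2))

theorem skip_symm_of [DecidableEq C] (σ : Equiv.Perm C) {c x : C} (h : x ≠ c) :
    (skip σ c).symm x = if σ.symm x = c then σ.symm c else σ.symm x := by
  rw [Equiv.symm_apply_eq]
  split_ifs with h1
  · have h2 : x = σ c := by rw [← h1]; simp
    have h3 : σ.symm c ≠ c := by
      intro h3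
      exact h (h2.trans ((Equiv.symm_apply_eq σ).1 h3).symm)
    rw [skip_of σ h3]
    simp [h2]
  · have h2 : σ.symm x ≠ c := h1
    rw [skip_of σ h2]
    simp [h]

/-- the side function, see `Dg` -/
def Jor (st : Bool → Equiv.Perm C) (sg : C → Bool) : Prop :=
  ∀ c0 b0, ∃ f : C → Bool → Bool, (∀ c b, f (st b c) b = f c b) ∧
    (∀ c, ¬ (st b0).SameCycle c0 c → f c true = f c false) ∧
    (∀ c, (st b0).SameCycle c0 c → f c (!b0) = sg c)

/-- connected, see `Dg` -/
def Conn (st : Bool → Equiv.Perm C) : Prop :=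
  ∀ T : Set C, T.Nonempty → (∀ c ∈ T, ∀ b, st b c ∈ T) → T = Set.univ

/-- the crossing `c` separates the slots in `T` from the others -/
structure Sep (st : Bool → Equiv.Perm C) (c : C) (T : Set (C × Bool)) (β : Bool) : Prop where
  h1 : ∀ x b, (st b x, b) ∈ T ↔ (x, b) ∈ T
  h2 : ∀ x, x ≠ c → ((x, true) ∈ T ↔ (x, false) ∈ T)
  h3 : (c, β) ∈ T
  h4 : (c, !β) ∉ T

/-- the crossings on the side of `T` -/
def SideP (c : C) (T : Set (C × Bool)) (x : C) : Prop := x ≠ c ∧ (x, true) ∈ T

variable {st : Bool → Equiv.Perm C} {c : C} {T : Set (C × Bool)} {β : Bool}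

theorem Sep.compl (h : Sep st c T β) : Sep st c Tᶜ (!β) where
  h1 x b := not_congr (h.h1 x b)
  h2 x hx := not_congr (h.h2 x hx)
  h3 := h.h4
  h4 := by
    rw [Bool.not_not]
    exact fun h' => h' h.h3

theorem Sep.mem_iff (h : Sep st c T β) {x : C} (hx : x ≠ c) (b : Bool) : (x, b) ∈ T ↔ (x, true) ∈ T := by
  cases b
  · exact (h.h2 x hx).symm
  · exact Iff.rfl

theorem Sep.eq_β (h : Sep st c T β) {b : Bool} (hb : (c, b) ∈ T) : b = β := by
  by_contra hne
  have : b = !β := by cases b <;> cases β <;> simp_all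
  rw [this] at hb
  exact h.h4 hb

theorem Sep.next_c (h : Sep st c T β) {x : C} {b : Bool} (hx : SideP c T x) (hc : st b x = c) : b = β := by
  refine h.eq_β ?_
  have := (h.h1 x b).2 ((h.mem_iff hx.1 b).2 hx.2)
  rwa [hc] at this

theorem Sep.prev_c (h : Sep st c T β) {x : C} {b : Bool} (hx : SideP c T x) (hc : (st b).symm x = c) : b = β := by
  refine h.eq_β ?_
  have h1 : st b c = x := by rw [← hc]; simp
  have := (h.mem_iff hx.1 b).2 hx.2
  rw [← h1] at this
  exact (h.h1 c b).1 this

theorem Sep.side_skip [DecidableEq C] (h : Sep st c T β) (b : Bool) (x : C) :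
    SideP c T (skip (st b) c x) ↔ SideP c T x := by
  by_cases hx : x = c
  · rw [hx, skip_self]
  have hne : skip (st b) c x ≠ c := by
    intro h'
    apply hx
    apply (skip (st b) c).injective
    rw [h', skip_self]
  have key : (skip (st b) c x, b) ∈ T ↔ (x, b) ∈ T := by
    rw [skip_of (st b) hx]
    split_ifs with h5
    · rw [h.h1, ← h.h1 x b, h5]
    · exact h.h1 x b
  rw [h.mem_iff hne b, h.mem_iff hx b] at key
  unfold SideP
  rw [key]
  simp [hx, hne]

/-- the next maps of a side -/
def Sep.sub [DecidableEq C] (h : Sep st c T β) (b : Bool) : Equiv.Perm {x // SideP c T x} :=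
  (skip (st b) c).subtypePerm (h.side_skip b)

theorem Sep.sub_val [DecidableEq C] (h : Sep st c T β) (b : Bool) (x : {x // SideP c T x}) :
    (h.sub b x : C) = if st b x = c then st b c else st b x := by
  rw [← skip_of (st b) x.2.1]
  rfl

theorem Sep.sub_symm_val [DecidableEq C] (h : Sep st c T β) (b : Bool) (x : {x // SideP c T x}) :
    ((h.sub b).symm x : C) = if (st b).symm x = c then (st b).symm c else (st b).symm x := by
  rw [← skip_symm_of (st b) x.2.1]
  rfl

/-- circles of a side -/
theorem Sep.sameCycle [DecidableEq C] (h : Sep st c T β) (b : Bool) (x y : {x // SideP c T x}) :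
    (h.sub b).SameCycle x y ↔ (st b).SameCycle x.1 y.1 := by
  have inv : ∀ {D : Type _} (σ : Equiv.Perm D) (f : D → Prop) (_ : ∀ z, f (σ z) ↔ f z) (x y : D),
      σ.SameCycle x y → (f x ↔ f y) := by
    intro D σ f hf x y hxy
    obtain ⟨i, rfl⟩ := hxy
    have h1 : ∀ i : ℤ, ∀ x, f ((σ ^ i) x) ↔ f x := by
      intro i
      induction i using Int.induction_on with
      | zero => intro x; simp
      | succ n ih =>
        intro x
        rw [zpow_add_one, Equiv.Perm.mul_apply, ih, hf]
      | pred n ih =>
        intro x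
        rw [zpow_sub_one, Equiv.Perm.mul_apply, ih]
        have e : σ (σ⁻¹ x) = x := by simp
        have := hf (σ⁻¹ x)
        rw [e] at this
        exact this.symm
    exact (h1 i x).symm
  constructor
  · intro hxy
    have := inv (h.sub b) (fun z => (st b).SameCycle x.1 z.1) (fun z => by
      rw [h.sub_val]
      split_ifs with h5
      · have e : st b c = (st b) ((st b) z.1) := by rw [h5]
        rw [e]
        simp
      · simp) x y hxy
    exact this.1 (Equiv.Perm.SameCycle.refl _ _)
  · intro hxy
    have hG := inv (st b) (fun z => (∃ hz : SideP c T z, (h.sub b).SameCycle x ⟨z, hz⟩) ∨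
        (z = c ∧ (c, b) ∈ T ∧ ∃ hz : SideP c T (st b c), (h.sub b).SameCycle x ⟨st b c, hz⟩)) (fun z => ?_) x.1 y.1 hxy
    · have h6 := hG.1 (Or.inl ⟨x.2, Equiv.Perm.SameCycle.refl _ _⟩)
      rcases h6 with ⟨_, h6⟩ | ⟨h6, _⟩
      · exact h6
      · exact absurd h6 y.2.1
    · -- invariance
      by_cases hz : z = c
      · subst hz
        by_cases h7 : st b z = z
        · rw [h7]
        · by_cases h8 : (z, b) ∈ T
          · have h9 : SideP z T (st b z) := ⟨h7, (h.mem_iff h7 b).1 ((h.h1 z b).2 h8)⟩
            have h10 : ¬ SideP z T z := fun h' => h'.1 rfl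
            simp only [h9, h10, h7, h8, exists_prop, true_and, false_and, or_false, false_or,
              IsEmpty.exists_iff, exists_true_left]
          · have h9 : ¬ SideP z T (st b z) := fun h' => h8 ((h.h1 z b).1 ((h.mem_iff h7 b).2 h'.2))
            have h10 : ¬ SideP z T z := fun h' => h'.1 rfl
            simp only [h9, h10, h7, h8, false_and, and_false, or_false, IsEmpty.exists_iff]
      · by_cases h8 : (z, b) ∈ T
        · have h9 : SideP c T z := ⟨hz, (h.mem_iff hz b).1 h8⟩
          have hcyc : ∀ w : {x // SideP c T x}, (h.sub b).SameCycle x (h.sub b ⟨z, h9⟩) ↔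
              (h.sub b).SameCycle x ⟨z, h9⟩ := fun w => by simp
          by_cases h7 : st b z = c
          · have h11 : (c, b) ∈ T := by rw [← h7]; exact (h.h1 z b).2 h8
            have h12 : (h.sub b ⟨z, h9⟩ : C) = st b c := by rw [h.sub_val]; simp [h7]
            have h13 : SideP c T (st b c) := h12 ▸ (h.sub b ⟨z, h9⟩).2
            have h14 : h.sub b ⟨z, h9⟩ = ⟨st b c, h13⟩ := Subtype.ext h12
            have h15 : ¬ SideP c T c := fun h' => h'.1 rfl
            rw [h7]
            simp only [h9, h15, h13, h11, hz, exists_prop, true_and, false_and, or_false, false_or,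
              IsEmpty.exists_iff, exists_true_left]
            rw [← h14]
            simp
          · have h12 : (h.sub b ⟨z, h9⟩ : C) = st b z := by rw [h.sub_val]; simp [h7]
            have h13 : SideP c T (st b z) := h12 ▸ (h.sub b ⟨z, h9⟩).2
            have h14 : h.sub b ⟨z, h9⟩ = ⟨st b z, h13⟩ := Subtype.ext h12
            simp only [h9, h13, h7, hz, exists_prop, true_and, false_and, or_false, false_or,
              IsEmpty.exists_iff, exists_true_left]
            rw [← h14]
            simp
        · have h9 : ¬ SideP c T z := fun h' => h8 ((h.mem_iff hz b).2 h'.2)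
          have h10 : (st b z, b) ∉ T := fun h' => h8 ((h.h1 z b).1 h')
          by_cases h7 : st b z = c
          · rw [h7] at h10 ⊢
            have h15 : ¬ SideP c T c := fun h' => h'.1 rfl
            simp only [h9, h15, h10, hz, false_and, and_false, or_false, IsEmpty.exists_iff]
          · have h11 : ¬ SideP c T (st b z) := fun h' => h10 ((h.mem_iff h7 b).2 h'.2)
            simp only [h9, h11, h7, hz, false_and, or_false, IsEmpty.exists_iff]

theorem Sep.jor [DecidableEq C] {sg : C → Bool} (h : Sep st c T β) (hJ : Jor st sg) :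
    Jor h.sub (fun x => sg x) := by
  intro c0 b0
  obtain ⟨f, h1, h2, h3⟩ := hJ c0 b0
  refine ⟨fun x b => f x b, fun x b => ?_, fun x hx => ?_, fun x hx => ?_⟩
  · simp only
    rw [h.sub_val]
    split_ifs with h5
    · have e : st b c = (st b) ((st b) x.1) := by rw [h5]
      rw [e, h1, h1]
    · exact h1 _ _
  · exact h2 _ (fun h' => hx ((h.sameCycle b0 c0 x).2 h'))
  · exact h3 _ ((h.sameCycle b0 c0 x).1 hx)

theorem Sep.conn [DecidableEq C] (h : Sep st c T β) (hC : Conn st) : Conn h.sub := by
  intro T1 hne hcl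
  by_cases hex : ∃ z ∈ T1, ∃ b, st b z.1 = c
  · obtain ⟨z, hz, b, hb⟩ := hex
    have hbβ : b = β := h.next_c z.2 hb
    subst hbβ
    have hz' := hcl z hz b
    have hv : (h.sub b z : C) = st b c := by rw [h.sub_val, if_pos hb]
    have hS := hC {x | (∃ hx : SideP c T x, (⟨x, hx⟩ : {x // SideP c T x}) ∈ T1) ∨ x = c ∨ (x ≠ c ∧ (x, true) ∉ T)}
      ⟨c, Or.inr (Or.inl rfl)⟩ (by
        rintro x hx b'
        rcases hx with ⟨hx, hx'⟩ | rfl | ⟨hx, hx'⟩
        · by_cases h7 : st b' x = c
          · exact Or.inr (Or.inl h7)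
          · left
            have h8 := hcl _ hx' b'
            have h9 : (h.sub b' ⟨x, hx⟩ : C) = st b' x := by rw [h.sub_val]; simp [h7]
            have h10 : SideP c T (st b' x) := h9 ▸ (h.sub b' ⟨x, hx⟩).2
            refine ⟨h10, ?_⟩
            have h11 : h.sub b' ⟨x, hx⟩ = ⟨st b' x, h10⟩ := Subtype.ext h9
            rw [← h11]
            exact h8
        · by_cases h7 : st b' x = x
          · exact Or.inr (Or.inl h7)
          · by_cases h8 : (x, b') ∈ T
            · have h9 : b' = b := h.eq_β h8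
              subst h9
              left
              refine ⟨hv ▸ (h.sub b' z).2, ?_⟩
              have h11 : h.sub b' z = ⟨st b' x, hv ▸ (h.sub b' z).2⟩ := Subtype.ext hv
              rw [← h11]
              exact hz'
            · right; right
              refine ⟨h7, fun h' => h8 ((h.h1 x b').1 ((h.mem_iff h7 b').2 h'))⟩
        · by_cases h7 : st b' x = c
          · exact Or.inr (Or.inl h7)
          · right; right
            refine ⟨h7, fun h' => hx' ?_⟩
            have h8 := (h.mem_iff h7 b').2 h'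
            exact (h.mem_iff hx b').1 ((h.h1 x b').1 h8))
    ext y
    simp only [Set.mem_univ, iff_true]
    have hy : y.1 ∈ (Set.univ : Set C) := trivial
    rw [← hS] at hy
    rcases hy with ⟨_, hy⟩ | hy | ⟨_, hy⟩
    · exact hy
    · exact absurd hy y.2.1
    · exact absurd y.2.2 hy
  · push Not at hex
    exfalso
    obtain ⟨z, hz⟩ := hne
    have hS := hC {x | ∃ hx : SideP c T x, (⟨x, hx⟩ : {x // SideP c T x}) ∈ T1} ⟨z.1, z.2, hz⟩ (by
      rintro x ⟨hx, hx'⟩ b'
      have h7 := hex _ hx' b'
      simp only at h7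
      have h9 : (h.sub b' ⟨x, hx⟩ : C) = st b' x := by rw [h.sub_val]; simp [h7]
      have h10 : SideP c T (st b' x) := h9 ▸ (h.sub b' ⟨x, hx⟩).2
      refine ⟨h10, ?_⟩
      have h11 : h.sub b' ⟨x, hx⟩ = ⟨st b' x, h10⟩ := Subtype.ext h9
      rw [← h11]
      exact hcl _ hx' b')
    have hy : c ∈ (Set.univ : Set C) := trivial
    rw [← hS] at hy
    obtain ⟨h', _⟩ := hy
    exact h'.1 rfl

/-- the circle of `c` on a side with crossings goes through another crossing -/
theorem Sep.ne_c (h : Sep st c T β) (hC : Conn st) (hne : ∃ x, SideP c T x) : st β c ≠ c := by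
  intro hcc
  obtain ⟨z, hz⟩ := hne
  have hS := hC {x | SideP c T x} ⟨z, hz⟩ (by
    intro x hx b
    have hx' : SideP c T x := hx
    have h7 : st b x ≠ c := by
      intro h7
      have hb := h.next_c hx' h7
      subst hb
      apply hx'.1
      apply (st b).injective
      rw [h7, hcc]
    exact ⟨h7, (h.mem_iff h7 b).1 ((h.h1 x b).2 ((h.mem_iff hx'.1 b).2 hx'.2))⟩)
  have hy : c ∈ (Set.univ : Set C) := trivial
  rw [← hS] at hy
  exact hy.1 rfl

end PoolLib.MP_3cd99b_gt.Nr
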