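import Pool.Agent.Lib.MP_3cd99b_gt.Nr3

/-!
# Every alternating diagram has an octagon

The support theorem for diagrams which need not be reduced.
-/

set_option linter.unusedSimpArgs false

namespace PoolLib.MP_3cd99b_gt.Nr

open Dm Oct LG3P.Top LG3P.PL Finset

variable {C : Type} {st : Bool → Equiv.Perm C} {c : C} {T : Set (C × Bool)} {β : Bool}

/-- a face passes on both sides of a separating crossing -/
theorem Sep.face_eq [Fintype C] (h : Sep st c T β) {sg : C → Bool} {s : Bool} (hs : sg c = s) (a : C → Bool → ℚ)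
    (ha : ∀ x b, a (st b x) (if sg (st b x) = s then !b else b) = a x b) : a c true = a c false := by
  classical
  let F : C × Bool → ℚ := fun z => if z ∈ T then a z.1 z.2 else 0
  let G : C × Bool → ℚ := fun z => if z ∈ T then a z.1 (if sg z.1 = s then !z.2 else z.2) else 0
  let ρ : Equiv.Perm (C × Bool) :=
    ⟨fun z => (st z.2 z.1, z.2), fun z => ((st z.2).symm z.1, z.2), fun z => by simp, fun z => by simp⟩
  have hρ : ∀ z, G (ρ z) = F z := by
    rintro ⟨x, b⟩
    have h5 : ρ (x, b) = (st b x, b) := rfl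
    simp only [F, G, h5, h.h1]
    split_ifs with h6 h7 h7
    · have := ha x b; rw [if_pos h7] at this; exact this
    · have := ha x b; rw [if_neg h7] at this; exact this
    · rfl
  have hsum : ∑ z, F z = ∑ z, G z := by
    rw [← Equiv.sum_comp ρ G]
    exact Finset.sum_congr rfl fun z _ => (hρ z).symm
  have hdiff : ∑ x, ((F (x, true) - G (x, true)) + (F (x, false) - G (x, false))) = 0 := by
    rw [Fintype.sum_prod_type, Fintype.sum_prod_type] at hsum
    simp only [Fintype.sum_bool] at hsum
    rw [← sub_eq_zero, ← Finset.sum_sub_distrib] at hsum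
    rw [← hsum]
    exact Finset.sum_congr rfl fun x _ => by ring
  rw [Finset.sum_eq_single c] at hdiff
  · simp only [F, G, hs, if_true, Bool.not_true, Bool.not_false] at hdiff
    have h4 := h.h4
    have h3 := h.h3
    cases hβ : β with
    | true =>
      rw [hβ] at h3 h4
      simp only [Bool.not_true] at h4
      rw [if_pos h3, if_pos h3, if_neg h4, if_neg h4] at hdiff
      linarith
    | false =>
      rw [hβ] at h3 h4
      simp only [Bool.not_false] at h4
      rw [if_pos h3, if_pos h3, if_neg h4, if_neg h4] at hdiff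
      linarith
  · intro x _ hx
    have h5 := h.h2 x hx
    simp only [F, G]
    by_cases h6 : (x, true) ∈ T
    · have h7 := h5.1 h6
      simp only [h6, h7, if_true]
      split_ifs <;> simp
    · have h7 : (x, false) ∉ T := fun h' => h6 (h5.2 h')
      simp [h6, h7]
  · intro h'
    exact absurd (Finset.mem_univ c) h'

/-- planarity of a side -/
theorem Sep.planar [Fintype C] [DecidableEq C] [Fintype {x // SideP c T x}] {sg : C → Bool} (h : Sep st c T β)
    (s : Bool) (hP : PlanarC st sg s) : PlanarC h.sub (fun x => sg x) s := by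
  classical
  intro m hm0 hbal
  obtain ⟨ψ, h1, h2⟩ := hP (fun x => if hx : SideP c T x then m ⟨x, hx⟩ else 0) (by
    intro x hx
    split_ifs with h5
    · exact hm0 ⟨x, h5⟩ hx
    · rfl) (by
    intro a ha
    have key := hbal (fun z b => a z b) (by
      intro z b
      change a (h.sub b z : C) (if sg (h.sub b z : C) = s then !b else b) = a z b
      rw [h.sub_val]
      by_cases h5 : st b z = c
      · rw [if_pos h5]
        have e1 := ha c b
        have e2 := ha z b
        rw [h5] at e2
        rw [e1]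
        by_cases h6 : sg c = s
        · rw [if_pos h6] at e2
          rw [← e2]
          have e3 := h.face_eq h6 a ha
          cases b
          · exact e3.symm
          · exact e3
        · rw [if_neg h6] at e2
          exact e2
      · rw [if_neg h5]
        exact ha z b)
    refine Eq.trans ?_ key
    refine (Fintype.sum_of_injective Subtype.val Subtype.val_injective _ _ ?_ ?_).symm
    · intro x hx
      have h5 : ¬ SideP c T x := fun h' => hx ⟨⟨x, h'⟩, rfl⟩
      simp [h5]
    · intro z
      simp [z.2])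
  refine ⟨fun z b => ψ z b, fun z b => ?_, fun z => ?_⟩
  · dsimp only
    rw [h.sub_val]
    split_ifs with h5
    · exact (h1 c b).trans ((congrArg (fun y => ψ y b) h5).symm.trans (h1 z b))
    · exact h1 _ _
  · dsimp only
    rw [h2, dif_pos z.2]

/-- the walkers on the side of the cut -/
theorem Sep.near [Fintype C] [DecidableEq C] [Fintype {x // SideP c T x}] [DecidableEq {x // SideP c T x}]
    {sg : C → Bool} (h : Sep st c T β) (hC : Conn st)
    (m : C × Bool) (hm : m ∈ T)
    (IH : ∀ m1 : {x // SideP c T x} × Bool, Good (SS (fun x : {x // SideP c T x} => sg x)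
      (sx h.sub m1.1 m1.2) (sy h.sub m1.1 m1.2))) :
    ∃ s1 s1' : {x // SideP c T x} → Bool → Option {x // SideP c T x},
      (∀ x b, (s1 x b).map Subtype.val =
        (sx st m.1 m.2 x b).bind fun y => if y = c then sx st m.1 m.2 c β else some y) ∧
      (∀ x b, (s1' x b).map Subtype.val =
        (sy st m.1 m.2 x b).bind fun y => if y = c then sy st m.1 m.2 c β else some y) ∧
      Good (SS (fun x : {x // SideP c T x} => sg x) s1 s1') := by
  obtain ⟨m0, mb⟩ := m
  by_cases hne : ∃ x, SideP c T x
  swap
  · have : IsEmpty {x // SideP c T x} := ⟨fun x => hne ⟨x.1, x.2⟩⟩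
    exact ⟨fun x => isEmptyElim x, fun x => isEmptyElim x, fun x => isEmptyElim x, fun x => isEmptyElim x, by
      rw [SS_empty]; exact good_zero⟩
  have hβ := h.ne_c hC hne
  have hβ' : (st β).symm c ≠ c := fun h' => hβ ((Equiv.symm_apply_eq _).1 h').symm
  by_cases hmc : m0 = c
  · subst hmc
    have hb : mb = β := h.eq_β hm
    subst hb
    have hp : SideP m0 T ((st mb).symm m0) := by
      refine ⟨hβ', (h.mem_iff hβ' mb).1 ?_⟩
      rw [← h.h1]
      simpa using hm
    refine ⟨_, _, ?_, ?_, IH (⟨(st mb).symm m0, hp⟩, mb)⟩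
    · rintro ⟨x, hx⟩ b
      simp only [sx, Subtype.mk.injEq, hx.1, false_and, if_false, Option.bind_some]
      by_cases h5 : st b x = m0
      · have h6 : b = mb := h.next_c hx h5
        subst h6
        have h7 : x = (st b).symm m0 := by rw [← h5]; simp
        simp [h5, ← h7]
      · have h6 : ¬ (x = (st mb).symm m0 ∧ b = mb) := by
          rintro ⟨rfl, rfl⟩
          simp at h5
        rw [if_neg h6, if_neg h5, Option.map_some, h.sub_val]
        simp [h5]
    · rintro ⟨x, hx⟩ b
      have hv : (h.sub mb ⟨(st mb).symm m0, hp⟩ : C) = st mb m0 := by rw [h.sub_val]; simp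
      have hq : SideP m0 T (st mb m0) := hv ▸ (h.sub mb ⟨(st mb).symm m0, hp⟩).2
      have hv' : h.sub mb ⟨(st mb).symm m0, hp⟩ = ⟨st mb m0, hq⟩ := Subtype.ext hv
      simp only [sy, hv', Subtype.mk.injEq]
      by_cases h5 : x = st mb m0 ∧ b = mb
      · simp [h5]
      · rw [if_neg h5, if_neg h5, Option.map_some, h.sub_symm_val]
        have h6 : (st b).symm x ≠ m0 := by
          intro h6
          have h7 : b = mb := h.prev_c hx h6
          subst h7
          exact h5 ⟨by rw [← h6]; simp, rfl⟩
        simp [h6]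
  · have hp : SideP c T m0 := ⟨hmc, (h.mem_iff hmc mb).1 hm⟩
    refine ⟨_, _, ?_, ?_, IH (⟨m0, hp⟩, mb)⟩
    · rintro ⟨x, hx⟩ b
      simp only [sx, Subtype.mk.injEq]
      by_cases h5 : x = m0 ∧ b = mb
      · simp [h5]
      · have h8 : ¬ (c = m0 ∧ β = mb) := fun h' => hmc h'.1.symm
        rw [if_neg h5, if_neg h5, Option.map_some, h.sub_val, Option.bind_some, if_neg h8]
        by_cases h6 : st b x = c
        · have h7 : b = β := h.next_c hx h6
          subst h7
          simp [h6]
        · simp [h6]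
    · rintro ⟨x, hx⟩ b
      simp only [sy]
      have hv : (h.sub mb ⟨m0, hp⟩ : C) = if st mb m0 = c then st mb c else st mb m0 := h.sub_val _ _
      by_cases hq : st mb m0 = c
      · have hmb : mb = β := h.next_c hp hq
        subst hmb
        rw [if_pos hq] at hv
        have h9 : ¬ (x = st mb m0 ∧ b = mb) := fun h' => hx.1 (h'.1.trans hq)
        rw [if_neg h9, Option.bind_some]
        by_cases h5 : (st b).symm x = c
        · have h7 : b = mb := h.prev_c hx h5
          subst h7
          have h10 : (⟨x, hx⟩ : {x // SideP c T x}) = h.sub b ⟨m0, hp⟩ := by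
            apply Subtype.ext
            rw [hv]
            exact (Equiv.symm_apply_eq _).1 h5
          rw [if_pos ⟨h10, rfl⟩, if_pos h5, if_pos ⟨hq.symm, rfl⟩]
          rfl
        · have h10 : ¬ ((⟨x, hx⟩ : {x // SideP c T x}) = h.sub mb ⟨m0, hp⟩ ∧ b = mb) := by
            rintro ⟨h10, rfl⟩
            have h11 := congrArg Subtype.val h10
            rw [hv] at h11
            simp only at h11
            apply h5
            rw [h11]
            simp
          rw [if_neg h10, if_neg h5, Option.map_some, h.sub_symm_val]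
          simp [h5]
      · rw [if_neg hq] at hv
        by_cases h5 : x = st mb m0 ∧ b = mb
        · have h10 : (⟨x, hx⟩ : {x // SideP c T x}) = h.sub mb ⟨m0, hp⟩ := by
            apply Subtype.ext
            rw [hv]
            exact h5.1
          rw [if_pos ⟨h10, h5.2⟩, if_pos h5]
          rfl
        · have h10 : ¬ ((⟨x, hx⟩ : {x // SideP c T x}) = h.sub mb ⟨m0, hp⟩ ∧ b = mb) := by
            rintro ⟨h10, rfl⟩
            have h11 := congrArg Subtype.val h10
            rw [hv] at h11
            exact h5 ⟨h11, rfl⟩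
          have h12 : ¬ (c = st mb m0 ∧ β = mb) := fun h' => hq h'.1.symm
          rw [if_neg h10, if_neg h5, Option.map_some, h.sub_symm_val, Option.bind_some, if_neg h12]
          by_cases h6 : (st b).symm x = c
          · have h7 : b = β := h.prev_c hx h6
            subst h7
            simp [h6]
          · simp [h6]

/-- the walkers on the other side -/
theorem Sep.far [Fintype C] [DecidableEq C] [Fintype {x // SideP c T x}] [DecidableEq {x // SideP c T x}]
    {sg : C → Bool} (h : Sep st c T β) (hC : Conn st)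
    (m : C × Bool) (hm : m ∉ T)
    (IH : ∀ m1 : {x // SideP c T x} × Bool, Good (SS (fun x : {x // SideP c T x} => sg x)
      (sx h.sub m1.1 m1.2) (sy h.sub m1.1 m1.2))) :
    ∃ s1 s1' : {x // SideP c T x} → Bool → Option {x // SideP c T x},
      (∀ x b, (s1 x b).map Subtype.val =
        (sx st m.1 m.2 x b).bind fun y => if y = c then none else some y) ∧
      (∀ x b, (s1' x b).map Subtype.val =
        (sy st m.1 m.2 x b).bind fun y => if y = c then none else some y) ∧
      Good (SS (fun x : {x // SideP c T x} => sg x) s1 s1') := by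
  obtain ⟨m0, mb⟩ := m
  by_cases hne : ∃ x, SideP c T x
  swap
  · have : IsEmpty {x // SideP c T x} := ⟨fun x => hne ⟨x.1, x.2⟩⟩
    exact ⟨fun x => isEmptyElim x, fun x => isEmptyElim x, fun x => isEmptyElim x, fun x => isEmptyElim x, by
      rw [SS_empty]; exact good_zero⟩
  have hβ := h.ne_c hC hne
  have hβ' : (st β).symm c ≠ c := fun h' => hβ ((Equiv.symm_apply_eq _).1 h').symm
  have hp : SideP c T ((st β).symm c) := by
    refine ⟨hβ', (h.mem_iff hβ' β).1 ?_⟩
    rw [← h.h1]
    simpa using h.h3
  refine ⟨_, _, ?_, ?_, IH (⟨(st β).symm c, hp⟩, β)⟩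
  · rintro ⟨x, hx⟩ b
    have h8 : ¬ (x = m0 ∧ b = mb) := by
      rintro ⟨rfl, rfl⟩
      exact hm ((h.mem_iff hx.1 b).2 hx.2)
    simp only [sx, Subtype.mk.injEq]
    rw [if_neg h8, Option.bind_some]
    by_cases h5 : st b x = c
    · have h6 : b = β := h.next_c hx h5
      subst h6
      have h7 : x = (st b).symm c := by rw [← h5]; simp
      simp [h5, ← h7]
    · have h6 : ¬ (x = (st β).symm c ∧ b = β) := by
        rintro ⟨rfl, rfl⟩
        simp at h5
      rw [if_neg h6, if_neg h5, Option.map_some, h.sub_val]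
      simp [h5]
  · rintro ⟨x, hx⟩ b
    have hv : (h.sub β ⟨(st β).symm c, hp⟩ : C) = st β c := by rw [h.sub_val]; simp
    have h8 : ¬ (x = st mb m0 ∧ b = mb) := by
      rintro ⟨rfl, rfl⟩
      exact hm ((h.h1 m0 b).1 ((h.mem_iff hx.1 b).2 hx.2))
    simp only [sy]
    rw [if_neg h8, Option.bind_some]
    by_cases h5 : (st b).symm x = c
    · have h7 : b = β := h.prev_c hx h5
      subst h7
      have h10 : (⟨x, hx⟩ : {x // SideP c T x}) = h.sub b ⟨(st b).symm c, hp⟩ := by
        apply Subtype.ext
        rw [hv]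
        exact (Equiv.symm_apply_eq _).1 h5
      rw [if_pos ⟨h10, rfl⟩, if_pos h5]
      rfl
    · have h10 : ¬ ((⟨x, hx⟩ : {x // SideP c T x}) = h.sub β ⟨(st β).symm c, hp⟩ ∧ b = β) := by
        rintro ⟨h10, rfl⟩
        have h11 := congrArg Subtype.val h10
        rw [hv] at h11
        simp only at h11
        apply h5
        rw [h11]
        simp
      rw [if_neg h10, if_neg h5, Option.map_some, h.sub_symm_val]
      simp [h5]

/-- the step of the induction -/
theorem Sep.step [Fintype C] [DecidableEq C] {sg : C → Bool} (h : Sep st c T β) (hC : Conn st)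
    (m : C × Bool) (hm : m ∉ T)
    (IH : ∀ (T' : Set (C × Bool)) (β' : Bool) (h' : Sep st c T' β') [Fintype {x // SideP c T' x}]
      [DecidableEq {x // SideP c T' x}] (m1 : {x // SideP c T' x} × Bool),
      Good (SS (fun x : {x // SideP c T' x} => sg x) (sx h'.sub m1.1 m1.2) (sy h'.sub m1.1 m1.2))) :
    Good (SS sg (sx st m.1 m.2) (sy st m.1 m.2)) := by
  classical
  obtain ⟨s1, s1', e1, e1', g1⟩ := h.compl.near (sg := sg) hC m hm fun m1 => IH _ _ h.compl m1
  obtain ⟨s2, s2', e2, e2', g2⟩ := h.far (sg := sg) hC m hm fun m1 => IH _ _ h m1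
  have hPQ : ∀ x, SideP c Tᶜ x → ¬ SideP c T x := fun x h1 h2 => h1.2 h2.2
  have hPc : ¬ SideP c Tᶜ c := fun h' => h'.1 rfl
  have hQc : ¬ SideP c T c := fun h' => h'.1 rfl
  have hall : ∀ x, x = c ∨ SideP c Tᶜ x ∨ SideP c T x := by
    intro x
    by_cases h5 : x = c
    · exact Or.inl h5
    · by_cases h6 : (x, true) ∈ T
      · exact Or.inr (Or.inr ⟨h5, h6⟩)
      · exact Or.inr (Or.inl ⟨h5, h6⟩)
  obtain ⟨m0, mb⟩ := m
  -- if the circle of c on the side of the cut is only c, the cut is there
  have hcut : st (!β) c = c → m0 = c ∧ mb = !β := by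
    intro h5
    have hne : ¬ ∃ x, SideP c Tᶜ x := fun h6 => h.compl.ne_c hC h6 h5
    have h7 : m0 = c := by
      by_contra h8
      exact hne ⟨m0, h8, (h.compl.mem_iff h8 mb).1 hm⟩
    refine ⟨h7, ?_⟩
    subst h7
    exact h.compl.eq_β hm
  have key := SS_split sg (sx st m0 mb) (sy st m0 mb) c β (SideP c Tᶜ) (SideP c T) hPQ hPc hQc hall s1 s1' s2 s2'
    (acyc_split _ c β _ _ hPQ hPc hQc hall s1 s2 e1 e2 ?_ ?_ ?_)
    (acyc_split _ c β _ _ hPQ hPc hQc hall s1' s2' e1' e2' ?_ ?_ ?_)
  · rw [key]
    exact good_add g1 g2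
  · rintro ⟨x, hx⟩ b
    have h8 : ¬ (x = m0 ∧ b = mb) := by
      rintro ⟨rfl, rfl⟩
      exact hm ((h.mem_iff hx.1 b).2 hx.2)
    simp [sx, h8]
  · have h8 : ¬ (c = m0 ∧ β = mb) := by
      rintro ⟨rfl, rfl⟩
      exact hm h.h3
    refine ⟨st β c, by simp [sx, h8], ?_⟩
    by_cases h5 : st β c = c
    · exact Or.inl h5
    · exact Or.inr ⟨h5, (h.mem_iff h5 β).1 ((h.h1 c β).2 h.h3)⟩
  · intro z hz
    simp only [sx] at hz
    split_ifs at hz with h8
    have h9 : z = st (!β) c := (Option.some.inj hz).symm
    subst h9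
    have h5 : st (!β) c ≠ c := fun h5 => h8 ⟨(hcut h5).1.symm, (hcut h5).2.symm⟩
    exact ⟨h5, (h.compl.mem_iff h5 (!β)).1 ((h.compl.h1 c (!β)).2 h.compl.h3)⟩
  · rintro ⟨x, hx⟩ b
    have h8 : ¬ (x = st mb m0 ∧ b = mb) := by
      rintro ⟨rfl, rfl⟩
      exact hm ((h.h1 m0 b).1 ((h.mem_iff hx.1 b).2 hx.2))
    simp [sy, h8]
  · have h8 : ¬ (c = st mb m0 ∧ β = mb) := by
      rintro ⟨h9, rfl⟩
      apply hm
      rw [← h.h1, ← h9]
      exact h.h3
    refine ⟨(st β).symm c, by simp [sy, h8], ?_⟩
    by_cases h5 : (st β).symm c = c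
    · exact Or.inl h5
    · refine Or.inr ⟨h5, (h.mem_iff h5 β).1 ?_⟩
      rw [← h.h1]
      simpa using h.h3
  · intro z hz
    simp only [sy] at hz
    split_ifs at hz with h8
    have h9 : z = (st (!β)).symm c := (Option.some.inj hz).symm
    subst h9
    have h5 : (st (!β)).symm c ≠ c := by
      intro h5
      have h6 : st (!β) c = c := ((Equiv.symm_apply_eq _).1 h5).symm
      obtain ⟨h10, h11⟩ := hcut h6
      subst h10; subst h11
      exact h8 ⟨h6.symm, rfl⟩
    refine ⟨h5, (h.compl.mem_iff h5 (!β)).1 ?_⟩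
    rw [← h.compl.h1]
    simpa using h.compl.h3

/-- The support of every connected abstract alternating diagram is an octagon with admissible parameters. -/
theorem good_supp (N : ℕ) : ∀ (C : Type) [Fintype C] [DecidableEq C] (st : Bool → Equiv.Perm C) (sg : C → Bool),
    Fintype.card C = N → Jor st sg → Conn st → (∀ s, PlanarC st sg s) → ∀ m : C × Bool,
    Good (SS sg (sx st m.1 m.2) (sy st m.1 m.2)) := by
  induction N using Nat.strong_induction_on with
  | _ N ih =>
    intro C _ _ st sg hN hJ hC hP m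
    by_cases hnob : ∀ (c : C) (T : Set (C × Bool)), (∀ c' b, (c', b) ∈ T → (st b c', b) ∈ T) →
        (∀ c' b, c' ≠ c → (c', b) ∈ T → (c', !b) ∈ T) → (c, true) ∈ T → (c, false) ∈ T
    · -- reduced
      let D : Dg C := ⟨st, sg, hJ, hC, hnob⟩
      obtain ⟨d1, d2, h1, h2, h3⟩ := D.tight m hP
      refine ⟨_, _, _, _, d1, d2, h1, h2, fun a b => ?_⟩
      rw [h3]
      exact D.supp' m hP a b
    · push Not at hnob
      obtain ⟨c, T, h1, h2, h3, h4⟩ := hnob
      have hS : Sep st c T true := by
        refine ⟨fun x b => ⟨fun h5 => ?_, h1 x b⟩, fun x hx => ⟨h2 x true hx, h2 x false hx⟩, h3, h4⟩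
        have h6 := Equiv.Perm.perm_symm_on_of_perm_on_finite (f := st b) (p := fun y => (y, b) ∈ T)
          (fun y hy => h1 y b hy) h5
        simpa using h6
      have IH : ∀ (T' : Set (C × Bool)) (β' : Bool) (h' : Sep st c T' β') [Fintype {x // SideP c T' x}]
          [DecidableEq {x // SideP c T' x}] (m1 : {x // SideP c T' x} × Bool),
          Good (SS (fun x : {x // SideP c T' x} => sg x) (sx h'.sub m1.1 m1.2) (sy h'.sub m1.1 m1.2)) := by
        intro T' β' h' _ _ m1
        have hlt : Fintype.card {x // SideP c T' x} < N := by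
          rw [← hN]
          exact Fintype.card_subtype_lt (x := c) (fun h5 => h5.1 rfl)
        exact ih _ hlt {x // SideP c T' x} h'.sub (fun x => sg x) rfl (h'.jor hJ) (h'.conn hC)
          (fun s => h'.planar s (hP s)) m1
      by_cases hm : m ∈ T
      · exact hS.compl.step hC m (fun h5 => h5 hm) IH
      · exact hS.step hC m hm IH

end PoolLib.MP_3cd99b_gt.Nr
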