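import Pool.Agent.Lib.MP_3cd99b_gt.Wo14
import Pool.Agent.Lib.MP_3cd99b_gt.Nr4

/-!
The support of the polynomial of a connected alternating word which need not be reduced.
-/

namespace LG3P.Wo
open LG3 PoolLib.MP_3cd99b_gt.Oct PoolLib.MP_3cd99b_gt.Dm

variable {w : List Piece}

/-- without crossings the constant coefficient is not 0 -/
theorem ne_zero_empty (e : Bool) (hw : IsTangle w) (ha : ∀ k s, Piece.cross k s ∈ w → s = (e ^^ decide (k % 2 = 1)))
    (P : ℤ × ℤ →₀ ℤ) (hP : IsLinksGould w P) (hE : IsEmpty (Cr w))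
    (hsf : (sys false w).isSome = true) (hst : (sys true w).isSome = true) : P (0, 0) ≠ 0 := by
  rw [supp_hist e hw ha P hP, hist_choices e w hw ha]
  have h0 : LG3P.nx w = 0 := by
    rcases Nat.eq_zero_or_pos (LG3P.nx w) with h | h
    · exact h
    · obtain ⟨C, -⟩ := num_surj w 0 h
      exact (hE.false C).elim
  have key : ∀ q : Bool, (labs q w []).isSome = true := by
    intro q
    rw [labs_iff q w [] h0.symm]
    refine ⟨by cases q <;> assumption, fun _ => 0, fun v u huv => ?_⟩
    unfold dgs at huv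
    rw [if_neg (by omega)] at huv
    simp at huv
  refine ⟨[], [], key e, key (!e), ?_⟩
  rw [AB_sum w [] [] h0.symm h0.symm, Finset.univ_eq_empty, Finset.sum_empty]
  rfl

/-- The support of the polynomial of a connected alternating diagram is an octagon with admissible parameters. -/
theorem good_conn {e : Bool} (hw : IsTangle w) (ha : ∀ k s, Piece.cross k s ∈ w → s = (e ^^ decide (k % 2 = 1)))
    (P : ℤ × ℤ →₀ ℤ) (hP : IsLinksGould w P) (hC : Connected w) :
    PoolLib.MP_3cd99b_gt.Nr.Good {z | P z ≠ 0} := by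
  classical
  by_cases hE : IsEmpty (Cr w)
  · have h0 := ne_zero_empty e hw ha P hP hE (sys_of hw false (all_pos hw hC)) (sys_of hw true (all_pos hw hC))
    have hz : ∀ z, P z ≠ 0 ↔ z = 0 := by
      rcases supp_cases e hw ha P hP with h | ⟨-, -, h⟩ | ⟨m, -⟩
      · exact absurd (h _) h0
      · exact h
      · exact (hE.false m.1).elim
    have h1 : {z | P z ≠ 0} = ({0} : Set (ℤ × ℤ)) := by
      ext z
      exact hz z
    rw [h1]
    exact PoolLib.MP_3cd99b_gt.Nr.good_zero
  · rw [not_isEmpty_iff] at hE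
    obtain ⟨C0⟩ := hE
    obtain ⟨m, hm⟩ := exists_onArc hw (e0 w) (root_pos hw hC C0)
    have h1 : {z | P z ≠ 0} =
        PoolLib.MP_3cd99b_gt.Nr.SS (sgn w) (Top.sx (st hw) m.1 m.2) (Top.sy (st hw) m.1 m.2) := by
      ext z
      show P z ≠ 0 ↔ _
      rw [supp_hist e hw ha P hP, border e hw ha (sys_of hw false (all_pos hw hC)) (sys_of hw true (all_pos hw hC)) hm]
      constructor
      · rintro ⟨X, Y, hX, hY, hz⟩
        exact ⟨X, Y, hX, hY, (congrArg Prod.fst hz).symm, (congrArg Prod.snd hz).symm⟩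
      · rintro ⟨X, Y, hX, hY, h3, h4⟩
        exact ⟨X, Y, hX, hY, Prod.ext h3.symm h4.symm⟩
    rw [h1]
    exact PoolLib.MP_3cd99b_gt.Nr.good_supp _ (Cr w) (st hw) (sgn w) rfl (Jw.jor hw ha) (conn_st hw hC)
      (planarW hw ha) m

end LG3P.Wo
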