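import Pool.Agent.Lib.MP_3cd99b_gt.Wo2

/-!
The crossings of a word and the permutation of the slots (crossing, type) along the Seifert circles.
Type true: the even one of the two strands of the crossing.
-/

namespace LG3P.Wo
open LG3

/-- is the letter t a crossing -/
def isCr (w : List Piece) (t : ℕ) : Bool :=
  match w[t]? with
  | some (.cross _ _) => true
  | _ => false

/-- the upper strand of the crossing t -/
def kc (w : List Piece) (t : ℕ) : ℕ :=
  match w[t]? with
  | some (.cross k _) => k
  | _ => 0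

/-- the sign of the crossing t -/
def sc (w : List Piece) (t : ℕ) : Bool :=
  match w[t]? with
  | some (.cross _ s) => s
  | _ => false

/-- the crossings of a diagram (the index is the position of the letter) -/
abbrev Cr (w : List Piece) := {t : ℕ // isCr w t = true}

theorem cr_piece {w : List Piece} {t : ℕ} (h : isCr w t = true) : w[t]? = some (.cross (kc w t) (sc w t)) := by
  unfold isCr at h
  unfold kc sc
  split at h
  · rename_i k s hp
    rw [hp]
  · simp at h

theorem isCr_of {w : List Piece} {t k : ℕ} {s : Bool} (h : w[t]? = some (.cross k s)) : isCr w t = true := by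
  unfold isCr; rw [h]

theorem cr_lt {w : List Piece} {t : ℕ} (h : isCr w t = true) : t < w.length := by
  by_contra hn
  have h1 := cr_piece h
  rw [List.getElem?_eq_none (by omega)] at h1
  simp at h1

theorem je_par (b : Bool) (k : ℕ) : (je b k) % 2 = (if b then 0 else 1) := by
  unfold je
  rcases Nat.mod_two_eq_zero_or_one k with h | h <;> cases b <;> simp [h] <;> omega

theorem west_je (q b : Bool) (k : ℕ) : west q (je b k) = (b ^^ q) := by
  unfold west
  rw [je_par]
  cases b <;> rfl

theorem je_or (b : Bool) (k : ℕ) : je b k = k ∨ je b k = k + 1 := by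
  unfold je; split_ifs <;> simp

/-- the position before and after the passage of the walk (q = false) through the slot (t, b) -/
def arr (w : List Piece) (s : ℕ × Bool) : ℕ × ℕ := (if s.2 then s.1 + 1 else s.1, je s.2 (kc w s.1))

/-- the position after the passage -/
def dep (w : List Piece) (s : ℕ × Bool) : ℕ × ℕ := (if s.2 then s.1 else s.1 + 1, je s.2 (kc w s.1))

theorem mv_arr {w : List Piece} {t : ℕ} (h : isCr w t = true) (b : Bool) : mv w false (arr w (t, b)) = dep w (t, b) := by
  have hp := cr_piece h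
  cases b
  · have h1 : west false (je false (kc w t)) = false := by rw [west_je]; rfl
    show mv w false (t, je false (kc w t)) = (t + 1, je false (kc w t))
    rw [mv_east w false t _ _ hp h1]
    rfl
  · have h1 : west false (je true (kc w t)) = true := by rw [west_je]; rfl
    show mv w false (t + 1, je true (kc w t)) = (t, je true (kc w t))
    rw [mv_west w false t _ _ hp h1]
    rfl

/-- the strands of a crossing run forward -/
theorem cr_strand {w : List Piece} (hw : IsTangle w) {t : ℕ} (h : isCr w t = true) (j : ℕ)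
    (hj : j = kc w t ∨ j = kc w t + 1) :
    SL w (t + 1) = SL w t ∧ j < (SL w t).length ∧ (SL w t).getD j false = true := by
  have hp := cr_piece h
  obtain ⟨a, b, ha, hd, hd'⟩ := dir_cross (SL_succ hw hp)
  refine ⟨hd', ?_, ?_⟩
  · rw [hd]; simp; rcases hj with rfl | rfl <;> omega
  · rw [hd, getD_app_ge _ _ _ (by omega), ha]
    rcases hj with rfl | rfl
    · rw [Nat.sub_self]; rfl
    · have : kc w t + 1 - kc w t = 1 := by omega
      rw [this]; rfl

theorem val_dep {w : List Piece} (hw : IsTangle w) {t : ℕ} (h : isCr w t = true) (b : Bool) : Val w (dep w (t, b)) := by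
  obtain ⟨h1, h2, -⟩ := cr_strand hw h (je b (kc w t)) (je_or _ _)
  have h3 := cr_lt h
  cases b
  · refine ⟨h3, ?_⟩
    show _ < (SL w (t + 1)).length
    rw [h1]; exact h2
  · exact ⟨le_of_lt h3, h2⟩

theorem val_arr {w : List Piece} (hw : IsTangle w) {t : ℕ} (h : isCr w t = true) (b : Bool) : Val w (arr w (t, b)) := by
  obtain ⟨h1, h2, -⟩ := cr_strand hw h (je b (kc w t)) (je_or _ _)
  have h3 := cr_lt h
  cases b
  · exact ⟨le_of_lt h3, h2⟩
  · refine ⟨h3, ?_⟩
    show _ < (SL w (t + 1)).length
    rw [h1]; exact h2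

/-- the slots -/
abbrev Sl (w : List Piece) := Cr w × Bool

/-- the departure position of a slot -/
def depP {w : List Piece} (hw : IsTangle w) (s : Sl w) : Pos w := ⟨dep w (s.1.1, s.2), val_dep hw s.1.2 s.2⟩

/-- the arrival position of a slot -/
def arrP {w : List Piece} (hw : IsTangle w) (s : Sl w) : Pos w := ⟨arr w (s.1.1, s.2), val_arr hw s.1.2 s.2⟩

theorem pi_arrP {w : List Piece} (hw : IsTangle w) (s : Sl w) : pi hw (arrP hw s) = depP hw s :=
  Subtype.ext (mv_arr s.1.2 s.2)

theorem depP_inj {w : List Piece} (hw : IsTangle w) : Function.Injective (depP hw) := by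
  rintro ⟨⟨t, ht⟩, b⟩ ⟨⟨t', ht'⟩, b'⟩ h
  have h1 : dep w (t, b) = dep w (t', b') := congrArg Subtype.val h
  unfold dep at h1
  rw [Prod.mk.injEq] at h1
  have h2 : (if b then 0 else 1) = (if b' then 0 else 1) := by rw [← je_par b (kc w t), ← je_par b' (kc w t')]; exact congrArg (· % 2) h1.2
  have h3 : b = b' := by cases b <;> cases b' <;> simp at h2 <;> rfl
  subst h3
  have h4 : t = t' := by
    have := h1.1
    simp only at this
    split_ifs at this <;> omega
  subst h4
  rfl

/-- the set of departure positions -/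
def Dep {w : List Piece} (hw : IsTangle w) : Set (Pos w) := Set.range (depP hw)

theorem cr_finite (w : List Piece) : Finite (Cr w) := by
  have h : {t : ℕ | isCr w t = true}.Finite :=
    Set.Finite.subset (Set.finite_Iio w.length) fun t ht => cr_lt ht
  exact h.to_subtype

instance (w : List Piece) : Finite (Cr w) := cr_finite w

/-- the next slot along the Seifert circle in the direction of the walk -/
noncomputable def nx {w : List Piece} (hw : IsTangle w) : Equiv.Perm (Sl w) :=
  (Equiv.ofInjective (depP hw) (depP_inj hw)).symm.permCongr (fr (pi hw) (Dep hw))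

theorem depP_nx {w : List Piece} (hw : IsTangle w) (s : Sl w) :
    depP hw (nx hw s) = (fr (pi hw) (Dep hw) ⟨depP hw s, ⟨s, rfl⟩⟩).1 := by
  have h : Equiv.ofInjective (depP hw) (depP_inj hw) (nx hw s) = fr (pi hw) (Dep hw) ⟨depP hw s, ⟨s, rfl⟩⟩ := by
    unfold nx
    rw [Equiv.permCongr_apply, Equiv.symm_symm, Equiv.apply_symm_apply]
    rfl
  exact congrArg Subtype.val h

/-- the number of steps from a slot to the next one -/
noncomputable def len {w : List Piece} (hw : IsTangle w) (s : Sl w) : ℕ := ft (pi hw) (Dep hw) (depP hw s) ⟨s, rfl⟩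

theorem depP_nx' {w : List Piece} (hw : IsTangle w) (s : Sl w) : depP hw (nx hw s) = (pi hw ^ len hw s) (depP hw s) :=
  depP_nx hw s

/-- the position z lies on the arc after the slot s -/
def OnArc {w : List Piece} (hw : IsTangle w) (s : Sl w) (z : Pos w) : Prop :=
  ∃ n : ℕ, n < len hw s ∧ (pi hw ^ n) (depP hw s) = z

theorem onArc_dep {w : List Piece} (hw : IsTangle w) (s : Sl w) : OnArc hw s (depP hw s) :=
  ⟨0, ft_pos _ _ _ _, by simp⟩

theorem onArc_unique {w : List Piece} (hw : IsTangle w) {s s' : Sl w} {z : Pos w} (h : OnArc hw s z)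
    (h' : OnArc hw s' z) : s = s' := by
  have key : ∀ {s s' : Sl w} {n n' : ℕ}, n ≤ n' → n' < len hw s' →
      (pi hw ^ n) (depP hw s) = (pi hw ^ n') (depP hw s') → s = s' := by
    intro s s' n n' hle hn' he
    obtain ⟨d, rfl⟩ := Nat.exists_eq_add_of_le hle
    rw [pow_add, Equiv.Perm.mul_apply] at he
    have h2 := (pi hw ^ n).injective he
    rcases Nat.eq_zero_or_pos d with h0 | h0
    · rw [h0, pow_zero, Equiv.Perm.one_apply] at h2
      exact depP_inj hw h2
    · exfalso
      exact ft_min (pi hw) (Dep hw) (depP hw s') ⟨s', rfl⟩ d h0 (lt_of_le_of_lt (Nat.le_add_left _ _) hn')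
        (h2 ▸ ⟨s, rfl⟩)
  obtain ⟨n, hn, h1⟩ := h
  obtain ⟨n', hn', h1'⟩ := h'
  rcases le_total n n' with hle | hle
  · exact key hle hn' (h1.trans h1'.symm)
  · exact (key hle hn (h1'.trans h1.symm)).symm

/-- every position on a circle with crossings lies on an arc -/
theorem exists_onArc {w : List Piece} (hw : IsTangle w) (z : Pos w) (h : ∃ n : ℕ, (pi hw ^ n) z ∈ Dep hw) :
    ∃ s, OnArc hw s z := by
  classical
  have h1 : ∃ k : ℕ, ∃ s : Sl w, (pi hw ^ k) (depP hw s) = z := by
    obtain ⟨n, s, hs⟩ := h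
    have ho := orderOf_pos (pi hw)
    -- z = pi^(-n) dep s = pi^(n * (o - 1)) dep s
    refine ⟨n * (orderOf (pi hw) - 1), s, ?_⟩
    rw [hs, ← Equiv.Perm.mul_apply, ← pow_add]
    have h2 : n * (orderOf (pi hw) - 1) + n = orderOf (pi hw) * n := by
      obtain ⟨o, ho'⟩ : ∃ o, orderOf (pi hw) = o + 1 := ⟨orderOf (pi hw) - 1, by omega⟩
      rw [ho']
      simp
      ring
    rw [h2, pow_mul, pow_orderOf_eq_one, one_pow, Equiv.Perm.one_apply]
  obtain ⟨s, hs⟩ := Nat.find_spec h1
  refine ⟨s, Nat.find h1, ?_, hs⟩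
  by_contra hle
  rw [not_lt] at hle
  have h3 : (pi hw ^ (Nat.find h1 - len hw s)) (depP hw (nx hw s)) = z := by
    rw [depP_nx', ← Equiv.Perm.mul_apply, ← pow_add, Nat.sub_add_cancel hle]
    exact hs
  have h4 := Nat.find_min' h1 ⟨nx hw s, h3⟩
  have h5 : 0 < len hw s := ft_pos _ _ _ _
  omega

/-- the left and the right end of the diagram -/
def e0 (w : List Piece) : Pos w := ⟨(0, 0), val_start w⟩
/-- the right end -/
def e1 {w : List Piece} (hw : IsTangle w) : Pos w := ⟨(w.length, 0), val_end hw⟩

theorem pi_e0 {w : List Piece} (hw : IsTangle w) : pi hw (e0 w) = e1 hw :=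
  Subtype.ext (mv_zero w false 0 rfl)

/-- W0: a function that is constant along the steps of the walk that neither pass a crossing nor the ends -/
theorem w0 {w : List Piece} (hw : IsTangle w) {α : Type*} (φ : Pos w → α)
    (h : ∀ z, z ≠ e0 w → pi hw z ∉ Dep hw → φ (pi hw z) = φ z) (s : Sl w) (hs : ¬ OnArc hw s (e0 w)) :
    φ (arrP hw (nx hw s)) = φ (depP hw s) := by
  have h1 : arrP hw (nx hw s) = (pi hw).symm (fr (pi hw) (Dep hw) ⟨depP hw s, ⟨s, rfl⟩⟩).1 := by
    rw [← depP_nx, ← pi_arrP, Equiv.symm_apply_apply]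
  rw [h1]
  apply fr_const (pi hw) (Dep hw) φ ⟨depP hw s, ⟨s, rfl⟩⟩
  intro n hn
  rw [pow_succ', Equiv.Perm.mul_apply]
  apply h
  · intro he
    exact hs ⟨n, lt_trans (Nat.lt_succ_self n) hn, he⟩
  · rw [← Equiv.Perm.mul_apply, ← pow_succ']
    exact ft_min (pi hw) (Dep hw) _ _ (n + 1) (Nat.succ_pos n) hn

/-- on the arc with the ends: the part before the left end -/
theorem w0_left {w : List Piece} (hw : IsTangle w) {α : Type*} (φ : Pos w → α)
    (h : ∀ z, z ≠ e0 w → pi hw z ∉ Dep hw → φ (pi hw z) = φ z) (s : Sl w) (hs : OnArc hw s (e0 w)) :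
    φ (depP hw s) = φ (e0 w) := by
  classical
  obtain ⟨m, hm, hmin⟩ : ∃ m : ℕ, (m < len hw s ∧ (pi hw ^ m) (depP hw s) = e0 w) ∧
      ∀ n, n < m → ¬ (n < len hw s ∧ (pi hw ^ n) (depP hw s) = e0 w) :=
    ⟨Nat.find hs, Nat.find_spec hs, fun n hn => Nat.find_min hs hn⟩
  have h1 : ∀ n : ℕ, n ≤ m → φ ((pi hw ^ n) (depP hw s)) = φ (depP hw s) := by
    intro n
    induction n with
    | zero => intro _; rw [pow_zero, Equiv.Perm.one_apply]
    | succ n ih =>
      intro hle
      rw [← ih (by omega), pow_succ', Equiv.Perm.mul_apply]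
      apply h
      · intro h2
        exact hmin n (by omega) ⟨by omega, h2⟩
      · rw [← Equiv.Perm.mul_apply, ← pow_succ']
        exact ft_min (pi hw) (Dep hw) _ _ (n + 1) (Nat.succ_pos n) (lt_of_le_of_lt hle hm.1)
  rw [← h1 m (le_refl _), hm.2]

theorem e1_not_dep {w : List Piece} (hw : IsTangle w) : e1 hw ∉ Dep hw := by
  rintro ⟨⟨⟨t, ht⟩, b⟩, h⟩
  have h1 : dep w (t, b) = (w.length, 0) := congrArg Subtype.val h
  unfold dep at h1
  rw [Prod.mk.injEq] at h1
  have h2 := cr_lt ht
  have h3 := je_par b (kc w t)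
  simp only at h1
  rw [h1.2] at h3
  cases b
  · simp at h3
  · have := h1.1
    simp at this
    omega

/-- on the arc with the ends: the part after the right end -/
theorem w0_right {w : List Piece} (hw : IsTangle w) {α : Type*} (φ : Pos w → α)
    (h : ∀ z, z ≠ e0 w → pi hw z ∉ Dep hw → φ (pi hw z) = φ z) (s : Sl w) (hs : OnArc hw s (e0 w)) :
    φ (arrP hw (nx hw s)) = φ (e1 hw) := by
  obtain ⟨m, hm, he⟩ := hs
  have hm1 : m + 1 < len hw s := by
    rcases Nat.lt_or_ge (m + 1) (len hw s) with h1 | h1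
    · exact h1
    · exfalso
      have h2 : m + 1 = len hw s := by omega
      have h3 := depP_nx' hw s
      rw [← h2, pow_succ', Equiv.Perm.mul_apply, he, pi_e0] at h3
      exact e1_not_dep hw ⟨_, h3⟩
  have h1 : ∀ n : ℕ, m + 1 + n < len hw s → φ ((pi hw ^ (m + 1 + n)) (depP hw s)) = φ (e1 hw) := by
    intro n
    induction n with
    | zero =>
      intro _
      rw [Nat.add_zero, pow_succ', Equiv.Perm.mul_apply, he, pi_e0]
    | succ n ih =>
      intro hlt
      rw [← ih (by omega), ← Nat.add_assoc, pow_succ', Equiv.Perm.mul_apply]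
      apply h
      · intro h2
        have h3 : (pi hw ^ (m + 1 + n)) (depP hw s) = (pi hw ^ m) (depP hw s) := h2.trans he.symm
        have h4 : m + 1 + n = m + (n + 1) := by omega
        rw [h4, pow_add, Equiv.Perm.mul_apply] at h3
        have h5 := (pi hw ^ m).injective h3
        exact ft_min (pi hw) (Dep hw) (depP hw s) ⟨s, rfl⟩ (n + 1) (Nat.succ_pos n)
          (show n + 1 < len hw s by omega) (by rw [h5]; exact ⟨s, rfl⟩)
      · rw [← Equiv.Perm.mul_apply, ← pow_succ']
        exact ft_min (pi hw) (Dep hw) (depP hw s) ⟨s, rfl⟩ (m + 1 + n + 1) (by omega)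
          (show m + 1 + n + 1 < len hw s by omega)
  have h2 : arrP hw (nx hw s) = (pi hw ^ (len hw s - 1)) (depP hw s) := by
    apply (pi hw).injective
    rw [pi_arrP, depP_nx', ← Equiv.Perm.mul_apply, ← pow_succ']
    have : len hw s - 1 + 1 = len hw s := by omega
    rw [this]
  rw [h2]
  have h3 : len hw s - 1 = m + 1 + (len hw s - 1 - (m + 1)) := by omega
  rw [h3]
  exact h1 _ (by omega)

end LG3P.Wo
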