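import Pool.Agent.Lib.MP_3cd99b_gt.DG3
import Pool.Agent.Lib.MP_3cd99b_gt.Wo3
import Pool.Agent.Lib.MP_3cd99b_gt.L10

/-!
Numbering of the crossings of a word, lists of choices as functions on the crossings.
-/

namespace LG3P
open LG3

/-- the number of the crossing at the letter t (numbered from the end) -/
def numN (w : List Piece) (t : ℕ) : ℕ := nx (w.drop (t + 1))

/-- the number of a crossing (numbered from the end) -/
def num (w : List Piece) (C : Wo.Cr w) : ℕ := numN w C.1

theorem isCr_succ (p : Piece) (w : List Piece) (t : ℕ) : Wo.isCr (p :: w) (t + 1) = Wo.isCr w t := rfl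

theorem kc_succ (p : Piece) (w : List Piece) (t : ℕ) : Wo.kc (p :: w) (t + 1) = Wo.kc w t := rfl

theorem sc_succ (p : Piece) (w : List Piece) (t : ℕ) : Wo.sc (p :: w) (t + 1) = Wo.sc w t := rfl

theorem nx_le_cons (p : Piece) (w : List Piece) : nx w ≤ nx (p :: w) := by
  cases p <;> simp [nx]

theorem numN_lt : ∀ (w : List Piece) (t : ℕ), Wo.isCr w t = true → numN w t < nx w := by
  intro w
  induction w with
  | nil => intro t h; simp [Wo.isCr] at h
  | cons p w ih =>
    intro t h
    cases t with
    | zero =>
      cases p with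
      | cross k e => show nx w < nx w + 1; omega
      | cup k f => simp [Wo.isCr] at h
      | cap k f => simp [Wo.isCr] at h
    | succ t =>
      have h1 := ih t h
      exact lt_of_lt_of_le h1 (nx_le_cons p w)

theorem cxp_numN : ∀ (w : List Piece) (t : ℕ), Wo.isCr w t = true → cxp w (numN w t) = (t, Wo.kc w t) := by
  intro w
  induction w with
  | nil => intro t h; simp [Wo.isCr] at h
  | cons p w ih =>
    intro t h
    cases t with
    | zero =>
      cases p with
      | cross k e =>
        have : numN (Piece.cross k e :: w) 0 = nx w := rfl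
        rw [this]
        simp [cxp, Wo.kc]
      | cup k f => simp [Wo.isCr] at h
      | cap k f => simp [Wo.isCr] at h
    | succ t =>
      have h1 := ih t h
      have h2 := numN_lt w t h
      have e : numN (p :: w) (t + 1) = numN w t := rfl
      rw [e, kc_succ]
      cases p with
      | cross k s =>
        have : numN w t ≠ nx w := by omega
        simp [cxp, this, h1]
      | cup k f => simp [cxp, h1]
      | cap k f => simp [cxp, h1]

theorem numN_surj : ∀ (w : List Piece) (c : ℕ), c < nx w → ∃ t, Wo.isCr w t = true ∧ numN w t = c := by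
  intro w
  induction w with
  | nil => intro c hc; exact absurd hc (Nat.not_lt_zero c)
  | cons p w ih =>
    intro c hc
    cases p with
    | cross k e =>
      by_cases h : c = nx w
      · exact ⟨0, rfl, h.symm⟩
      · obtain ⟨t, h1, h2⟩ := ih c (by simp only [nx] at hc; omega)
        exact ⟨t + 1, h1, h2⟩
    | cup k f =>
      obtain ⟨t, h1, h2⟩ := ih c hc
      exact ⟨t + 1, h1, h2⟩
    | cap k f =>
      obtain ⟨t, h1, h2⟩ := ih c hc
      exact ⟨t + 1, h1, h2⟩

theorem num_lt (w : List Piece) (C : Wo.Cr w) : num w C < nx w := numN_lt w C.1 C.2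

theorem cxp_num (w : List Piece) (C : Wo.Cr w) : cxp w (num w C) = (C.1, Wo.kc w C.1) := cxp_numN w C.1 C.2

theorem num_inj (w : List Piece) : Function.Injective (num w) := by
  intro C C' h
  have h1 := cxp_num w C
  rw [h, cxp_num w C'] at h1
  exact Subtype.ext (Prod.ext_iff.mp h1).1.symm

theorem num_surj (w : List Piece) (c : ℕ) (hc : c < nx w) : ∃ C, num w C = c := by
  obtain ⟨t, h1, h2⟩ := numN_surj w c hc
  exact ⟨⟨t, h1⟩, h2⟩

theorem labs_len {q : Bool} {w : List Piece} {x : List Bool} (h : (labs q w x).isSome = true) : x.length = nx w := by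
  obtain ⟨L, hL⟩ := Option.isSome_iff_exists.mp h
  exact (labs_fit q w x L hL).1

theorem list_ofN (f : ℕ → Bool) : ∀ n, ∃ x : List Bool, x.length = n ∧ ∀ c < n, fnx x c = f c := by
  intro n
  induction n with
  | zero => exact ⟨[], rfl, fun c hc => absurd hc (Nat.not_lt_zero c)⟩
  | succ n ih =>
    obtain ⟨x, h1, h2⟩ := ih
    refine ⟨f n :: x, by simp [h1], ?_⟩
    intro c hc
    obtain ⟨f1, f2⟩ := fnx_cons (f n) x
    rw [h1] at f1 f2
    by_cases h : c = n
    · rw [h, f1]
    · have hc' : c < n := by omega
      rw [f2 c hc', h2 c hc']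

theorem list_of (w : List Piece) (X : Wo.Cr w → Bool) : ∃ x : List Bool, x.length = nx w ∧
    ∀ C, fnx x (num w C) = X C := by
  classical
  obtain ⟨x, h1, h2⟩ := list_ofN (fun c => if h : ∃ C, num w C = c then X h.choose else false) (nx w)
  refine ⟨x, h1, ?_⟩
  intro C
  rw [h2 _ (num_lt w C)]
  have h : ∃ C', num w C' = num w C := ⟨C, rfl⟩
  simp only [h, dif_pos]
  congr 1
  exact num_inj w h.choose_spec

/-- the contribution of a crossing -/
def tAB (s a b : Bool) : ℤ × ℤ := if a then (if b then (sg s, 0) else (0, 0)) else (if b then (0, 0) else (0, sg s))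

theorem AB_range : ∀ (w : List Piece) (x y : List Bool), x.length = nx w → y.length = nx w →
    AB w x y = ∑ c ∈ Finset.range (nx w), tAB (Wo.sc w (cxp w c).1) (fnx x c) (fnx y c) := by
  intro w
  induction w with
  | nil => intro x y _ _; simp [AB, nx]
  | cons p w ih =>
    intro x y hx hy
    cases p with
    | cross k s =>
      match x, y, hx, hy with
      | [], _, hx, _ => simp [nx] at hx
      | _ :: _, [], _, hy => simp [nx] at hy
      | a :: x, b :: y, hx, hy =>
        have hx' : x.length = nx w := by simpa [nx] using hx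
        have hy' : y.length = nx w := by simpa [nx] using hy
        obtain ⟨f1, f2⟩ := fnx_cons a x
        obtain ⟨g1, g2⟩ := fnx_cons b y
        rw [hx'] at f1 f2
        rw [hy'] at g1 g2
        show tAB s a b + AB w x y = ∑ c ∈ Finset.range (nx w + 1), _
        rw [Finset.sum_range_succ, add_comm, ih x y hx' hy']
        congr 1
        · apply Finset.sum_congr rfl
          intro c hc
          have hc' : c < nx w := Finset.mem_range.mp hc
          have hne : c ≠ nx w := by omega
          rw [f2 c hc', g2 c hc']
          simp only [cxp, hne, if_false]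
          rw [sc_succ]
        · rw [f1, g1]
          simp [cxp, Wo.sc]
    | cup k f =>
      show AB w x y = ∑ c ∈ Finset.range (nx w), _
      rw [ih x y hx hy]
      rfl
    | cap k f =>
      show AB w x y = ∑ c ∈ Finset.range (nx w), _
      rw [ih x y hx hy]
      rfl

noncomputable instance fintypeCr (w : List Piece) : Fintype (Wo.Cr w) := Fintype.ofFinite _

theorem sum_num (w : List Piece) (f : ℕ → ℤ × ℤ) : ∑ c ∈ Finset.range (nx w), f c = ∑ C : Wo.Cr w, f (num w C) := by
  symm
  apply Finset.sum_bij (fun C _ => num w C)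
  · intro C _; exact Finset.mem_range.mpr (num_lt w C)
  · intro C _ C' _ h; exact num_inj w h
  · intro c hc
    obtain ⟨C, hC⟩ := num_surj w c (Finset.mem_range.mp hc)
    exact ⟨C, Finset.mem_univ _, hC⟩
  · intro C _; rfl

/-- the exponents as a sum over the crossings -/
theorem AB_sum (w : List Piece) (x y : List Bool) (hx : x.length = nx w) (hy : y.length = nx w) :
    AB w x y = ∑ C : Wo.Cr w, (if fnx x (num w C) then (if fnx y (num w C) then (sg (Wo.sc w C.1), 0) else (0, 0))
      else (if fnx y (num w C) then (0, 0) else (0, sg (Wo.sc w C.1)))) := by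
  rw [AB_range w x y hx hy, sum_num]
  apply Finset.sum_congr rfl
  intro C _
  rw [cxp_num]
  rfl

end LG3P
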