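import Pool.Agent.Lib.MP_3cd99b_gt.Wo4

/-!
Functions of the positions that obey the local rules: the arc of a position.
-/

namespace LG3P.Wo
open LG3

open Classical in
/-- a function of the valid positions as a function of all pairs -/
noncomputable def ext {w : List Piece} {α : Type*} (ψ : Pos w → α) (t j : ℕ) : Option α :=
  if h : Val w (t, j) then some (ψ ⟨(t, j), h⟩) else none

theorem ext_val {w : List Piece} {α : Type*} (ψ : Pos w → α) (z : Pos w) : ext ψ z.1.1 z.1.2 = some (ψ z) := by
  unfold ext
  rw [dif_pos z.2]

theorem ext_val' {w : List Piece} {α : Type*} (ψ : Pos w → α) (t j : ℕ) (h : Val w (t, j)) :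
    ext ψ t j = some (ψ ⟨(t, j), h⟩) := by
  unfold ext
  rw [dif_pos h]

theorem dep_parity {w : List Piece} {t j : ℕ} {s : Sl w} (h : dep w (s.1.1, s.2) = (t, j)) :
    west false j = s.2 ∧ (if s.2 then s.1.1 = t else s.1.1 + 1 = t) ∧ (j = kc w s.1.1 ∨ j = kc w s.1.1 + 1) := by
  obtain ⟨⟨c, hc⟩, b⟩ := s
  unfold dep at h
  rw [Prod.mk.injEq] at h
  have h2 := h.2
  simp only at h2
  subst h2
  refine ⟨by rw [west_je, Bool.xor_false], ?_, je_or _ _⟩
  have := h.1
  cases b
  · exact this
  · exact this

/-- a function that is constant along the steps of the walk outside the crossings and the ends obeys the rules -/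
theorem rul_ext {w : List Piece} (hw : IsTangle w) {α : Type*} (ψ : Pos w → α)
    (h : ∀ z, z ≠ e0 w → pi hw z ∉ Dep hw → ψ (pi hw z) = ψ z) : Rul w (ext ψ) := by
  intro t p hp
  have ht : t < w.length := by
    by_contra hn
    rw [List.getElem?_eq_none (by omega)] at hp
    simp at hp
  have hdir := SL_succ hw hp
  refine ⟨?_, ?_, ?_⟩
  · intro j hj h1 hat
    have hs := step_rgt p _ _ hdir j hj
    rw [if_pos h1] at hs
    have v1 : Val w (t, j) := ⟨le_of_lt ht, hj⟩
    have v2 : Val w (t + 1, (rgt p j).2) := ⟨ht, hs.1⟩
    have hpar := rgt_par p j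
    rw [if_pos h1] at hpar
    rcases hd : west false j with _ | _
    · -- pi (t, j) = (t + 1, rgt)
      have e : pi hw ⟨(t, j), v1⟩ = ⟨(t + 1, (rgt p j).2), v2⟩ := by
        apply Subtype.ext
        rw [pi_val]
        show mv w false (t, j) = _
        rw [mv_east w false t j p hp hd, if_pos h1]
      have h2 := h ⟨(t, j), v1⟩ (by
        intro he
        have : (t, j) = ((0 : ℕ), (0 : ℕ)) := congrArg Subtype.val he
        rw [Prod.mk.injEq] at this
        rw [this.2] at hd
        exact absurd hd (by decide)) (by
        rw [e]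
        rintro ⟨s, hs'⟩
        obtain ⟨a1, a2, a3⟩ := dep_parity (congrArg Subtype.val hs')
        have a4 : s.2 = false := by rw [← a1, west_congr false hpar, hd]
        rw [a4] at a2
        simp only [Bool.false_eq_true, if_false] at a2
        have a5 : s.1.1 = t := by omega
        have a6 := cr_piece s.1.2
        rw [a5, hp] at a6
        have a7 : p = .cross (kc w t) (sc w t) := Option.some.inj a6
        apply hat
        rw [a7]
        rw [a7, a5] at a3
        exact a3)
      rw [e] at h2
      rw [ext_val' ψ (t + 1) (rgt p j).2 (by assumption),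
        ext_val' ψ t j (by assumption), h2]
    · -- pi (t + 1, rgt) = (t, j)
      have hd2 : west false (rgt p j).2 = true := by rw [west_congr false hpar, hd]
      have e : pi hw ⟨(t + 1, (rgt p j).2), v2⟩ = ⟨(t, j), v1⟩ := by
        apply Subtype.ext
        rw [pi_val]
        show mv w false (t + 1, (rgt p j).2) = _
        rw [mv_west w false t _ p hp hd2, lft_of_rgt p j h1]
        rfl
      have h2 := h ⟨(t + 1, (rgt p j).2), v2⟩ (by
        intro he
        have : (t + 1, (rgt p j).2) = ((0 : ℕ), (0 : ℕ)) := congrArg Subtype.val he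
        rw [Prod.mk.injEq] at this
        omega) (by
        rw [e]
        rintro ⟨s, hs'⟩
        obtain ⟨a1, a2, a3⟩ := dep_parity (congrArg Subtype.val hs')
        have a4 : s.2 = true := by rw [← a1, hd]
        rw [a4] at a2
        simp only [if_true] at a2
        have a6 := cr_piece s.1.2
        rw [a2, hp] at a6
        have a7 : p = .cross (kc w t) (sc w t) := Option.some.inj a6
        apply hat
        rw [a7]
        rw [a2] at a3
        exact a3)
      rw [e] at h2
      rw [ext_val' ψ (t + 1) (rgt p j).2 (by assumption),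
        ext_val' ψ t j (by assumption), h2]
  · intro j hj h1
    have hs := step_rgt p _ _ hdir j hj
    rw [h1] at hs
    simp only [Bool.false_eq_true, if_false] at hs
    have v1 : Val w (t, j) := ⟨le_of_lt ht, hj⟩
    have v2 : Val w (t, (rgt p j).2) := ⟨le_of_lt ht, hs.1⟩
    have hpar := rgt_par p j
    rw [h1] at hpar
    simp only [Bool.false_eq_true, if_false] at hpar
    have key : ∀ a b : ℕ, ∀ va : Val w (t, a), ∀ vb : Val w (t, b), west false a = false → b % 2 = (a + 1) % 2 →
        rgt p a = (false, b) → ψ ⟨(t, b), vb⟩ = ψ ⟨(t, a), va⟩ := by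
      intro a b va vb hda hab hr
      have e : pi hw ⟨(t, a), va⟩ = ⟨(t, b), vb⟩ := by
        apply Subtype.ext
        rw [pi_val]
        show mv w false (t, a) = _
        rw [mv_east w false t a p hp hda, hr]
        rfl
      have h2 := h ⟨(t, a), va⟩ (by
        intro he
        have : (t, a) = ((0 : ℕ), (0 : ℕ)) := congrArg Subtype.val he
        rw [Prod.mk.injEq] at this
        rw [this.2] at hda
        exact absurd hda (by decide)) (by
        rw [e]
        rintro ⟨s, hs'⟩
        obtain ⟨a1, a2, a3⟩ := dep_parity (congrArg Subtype.val hs')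
        have a4 : s.2 = true := by rw [← a1, west_flip false hab, hda]; rfl
        rw [a4] at a2
        simp only [if_true] at a2
        have a6 := cr_piece s.1.2
        rw [a2, hp] at a6
        have a7 : p = .cross (kc w t) (sc w t) := Option.some.inj a6
        rw [a7] at hr
        simp [rgt] at hr)
      rw [e] at h2
      exact h2
    rw [ext_val' ψ t (rgt p j).2 (by assumption),
      ext_val' ψ t j (by assumption)]
    rcases hd : west false j with _ | _
    · rw [key j (rgt p j).2 v1 v2 hd hpar (by rw [← h1])]
    · have hd2 : west false (rgt p j).2 = false := by rw [west_flip false hpar, hd]; rfl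
      rw [key (rgt p j).2 j v2 v1 hd2 (by omega) (rgt_turn p j h1)]
  · intro j hj h1
    have hs := step_lft p _ _ hdir j hj
    rw [h1] at hs
    simp only [Bool.false_eq_true, if_false] at hs
    have v1 : Val w (t + 1, j) := ⟨ht, hj⟩
    have v2 : Val w (t + 1, (lft p j).2) := ⟨ht, hs.1⟩
    have hpar := lft_par p j
    rw [h1] at hpar
    simp only [Bool.false_eq_true, if_false] at hpar
    have key : ∀ a b : ℕ, ∀ va : Val w (t + 1, a), ∀ vb : Val w (t + 1, b), west false a = true →
        b % 2 = (a + 1) % 2 → lft p a = (false, b) → ψ ⟨(t + 1, b), vb⟩ = ψ ⟨(t + 1, a), va⟩ := by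
      intro a b va vb hda hab hr
      have e : pi hw ⟨(t + 1, a), va⟩ = ⟨(t + 1, b), vb⟩ := by
        apply Subtype.ext
        rw [pi_val]
        show mv w false (t + 1, a) = _
        rw [mv_west w false t a p hp hda, hr]
        rfl
      have h2 := h ⟨(t + 1, a), va⟩ (by
        intro he
        have : (t + 1, a) = ((0 : ℕ), (0 : ℕ)) := congrArg Subtype.val he
        rw [Prod.mk.injEq] at this
        omega) (by
        rw [e]
        rintro ⟨s, hs'⟩
        obtain ⟨a1, a2, a3⟩ := dep_parity (congrArg Subtype.val hs')
        have a4 : s.2 = false := by rw [← a1, west_flip false hab, hda]; rfl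
        rw [a4] at a2
        simp only [Bool.false_eq_true, if_false] at a2
        have a5 : s.1.1 = t := by omega
        have a6 := cr_piece s.1.2
        rw [a5, hp] at a6
        have a7 : p = .cross (kc w t) (sc w t) := Option.some.inj a6
        rw [a7] at hr
        simp [lft] at hr)
      rw [e] at h2
      exact h2
    rw [ext_val' ψ (t + 1) (lft p j).2 (by assumption),
      ext_val' ψ (t + 1) j (by assumption)]
    rcases hd : west false j with _ | _
    · have hd2 : west false (lft p j).2 = true := by rw [west_flip false hpar, hd]; rfl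
      rw [key (lft p j).2 j v2 v1 hd2 (by omega) (lft_turn p j h1)]
    · rw [key j (lft p j).2 v1 v2 hd hpar (by rw [← h1])]

end LG3P.Wo
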