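import Pool.Agent.Lib.MP_3cd99b_gt.Aa
import Pool.Agent.Lib.MP_3cd99b_gt.Wo5

/-!
If every position is on the arc of a crossing or on the circle of the ends, the parent systems exist.
-/

namespace LG3P.Wo
open LG3

variable {w : List Piece}

theorem SLo_drop (hw : IsTangle w) (s t : ℕ) : LG3P.SLo (SL w s) (w.drop s) t = SL w (s + t) := by
  have h : w.take (s + t) = w.take s ++ (w.drop s).take t := List.take_add
  unfold LG3P.SLo
  rw [← SL_some hw s, ← List.foldl_append, ← h, SL_some hw (s + t)]
  rfl

theorem fold_drop (hw : IsTangle w) (s : ℕ) :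
    (w.drop s).foldl (fun o p => o.bind p.dir) (some (SL w s)) = some [true] := by
  rw [← SL_some hw s, ← List.foldl_append, List.take_append_drop]
  exact hw

theorem dep_w (hw : IsTangle w) {t j : ℕ} {v : Val w (t, j)} (h : (⟨(t, j), v⟩ : Pos w) ∈ Dep hw)
    (hd : west false j = true) :
    w[t]? = some (.cross (kc w t) (sc w t)) ∧ (j = kc w t ∨ j = kc w t + 1) := by
  obtain ⟨s, hs⟩ := h
  obtain ⟨a1, a2, a3⟩ := dep_parity (congrArg Subtype.val hs)
  have a4 : s.2 = true := by rw [← a1, hd]
  rw [a4] at a2
  simp only [if_true] at a2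
  subst a2
  exact ⟨cr_piece s.1.2, a3⟩

theorem dep_e (hw : IsTangle w) {t j : ℕ} {v : Val w (t + 1, j)} (h : (⟨(t + 1, j), v⟩ : Pos w) ∈ Dep hw)
    (hd : west false j = false) :
    w[t]? = some (.cross (kc w t) (sc w t)) ∧ (j = kc w t ∨ j = kc w t + 1) := by
  obtain ⟨s, hs⟩ := h
  obtain ⟨a1, a2, a3⟩ := dep_parity (congrArg Subtype.val hs)
  have a4 : s.2 = false := by rw [← a1, hd]
  rw [a4] at a2
  simp only [Bool.false_eq_true, if_false] at a2
  have a5 : s.1.1 = t := by omega
  subst a5
  exact ⟨cr_piece s.1.2, a3⟩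

/-- the letter used by the step of the walk from a position -/
def pcx (z : ℕ × ℕ) : ℕ := if west false z.2 then z.1 - 1 else z.1

theorem pcx_w {t j : ℕ} (h : west false j = true) : pcx (t + 1, j) = t := by
  unfold pcx
  simp [h]

theorem pcx_e {t j : ℕ} (h : west false j = false) : pcx (t, j) = t := by
  unfold pcx
  simp [h]

theorem rul_suf (hw : IsTangle w) {α : Type*} (s : ℕ) (ψ : ℕ → ℕ → α)
    (h : ∀ z : Pos w, s ≤ pcx z.1 → (west false z.1.2 = true → 0 < z.1.1) → pi hw z ∉ Dep hw →
      ψ (pi hw z).1.1 (pi hw z).1.2 = ψ z.1.1 z.1.2) :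
    LG3P.Rul (SL w s) (w.drop s) (fun t j => ψ (s + t) j) := by
  intro t p hp j hX
  rw [List.getElem?_drop] at hp
  have e1 : SLo (SL w s) (w.drop s) t = SL w (s + t) := SLo_drop hw s t
  have e2 : SLo (SL w s) (w.drop s) (t + 1) = SL w (s + t + 1) := SLo_drop hw s (t + 1)
  rw [e1, e2]
  have ht : s + t < w.length := by
    by_contra hn
    rw [List.getElem?_eq_none (by omega)] at hp
    simp at hp
  have hdir := SL_succ hw hp
  refine ⟨fun hv => ⟨fun h1 => ?_, fun h1 => ?_⟩, fun hv h1 => ?_⟩
  · show ψ (s + t) j = ψ (s + t + 1) (rgt p j).2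
    have hs := step_rgt p _ _ hdir j hv
    rw [if_pos h1] at hs
    have v1 : Val w (s + t, j) := ⟨ht.le, hv⟩
    have v2 : Val w (s + t + 1, (rgt p j).2) := ⟨ht, hs.1⟩
    have hpar := rgt_par p j
    rw [if_pos h1] at hpar
    rcases hd : west false j with _ | _
    · have e : pi hw ⟨(s + t, j), v1⟩ = ⟨(s + t + 1, (rgt p j).2), v2⟩ := by
        apply Subtype.ext
        rw [pi_val]
        show mv w false (s + t, j) = _
        rw [mv_east w false (s + t) j p hp hd, if_pos h1]
      have h2 := h ⟨(s + t, j), v1⟩ (by rw [pcx_e hd]; omega) (by intro h3; rw [hd] at h3; simp at h3) (by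
        rw [e]
        intro hD
        obtain ⟨a6, a3⟩ := dep_e hw hD (by rw [west_congr false hpar, hd])
        rw [hp] at a6
        have a7 := Option.some.inj a6
        apply hX
        rw [a7]
        rw [a7] at a3
        exact a3)
      rw [e] at h2
      exact h2.symm
    · have hd2 : west false (rgt p j).2 = true := by rw [west_congr false hpar, hd]
      have e : pi hw ⟨(s + t + 1, (rgt p j).2), v2⟩ = ⟨(s + t, j), v1⟩ := by
        apply Subtype.ext
        rw [pi_val]
        show mv w false (s + t + 1, (rgt p j).2) = _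
        rw [mv_west w false (s + t) _ p hp hd2, lft_of_rgt p j h1]
        rfl
      have h2 := h ⟨(s + t + 1, (rgt p j).2), v2⟩ (by rw [pcx_w hd2]; omega) (fun _ => Nat.succ_pos _) (by
        rw [e]
        intro hD
        obtain ⟨a6, a3⟩ := dep_w hw hD hd
        rw [hp] at a6
        have a7 := Option.some.inj a6
        apply hX
        rw [a7]
        exact a3)
      rw [e] at h2
      exact h2
  · show ψ (s + t) j = ψ (s + t) (rgt p j).2
    have hs := step_rgt p _ _ hdir j hv
    rw [h1] at hs
    simp only [Bool.false_eq_true, if_false] at hs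
    have v1 : Val w (s + t, j) := ⟨ht.le, hv⟩
    have v2 : Val w (s + t, (rgt p j).2) := ⟨ht.le, hs.1⟩
    have hpar := rgt_par p j
    rw [h1] at hpar
    simp only [Bool.false_eq_true, if_false] at hpar
    have key : ∀ a b : ℕ, ∀ va : Val w (s + t, a), ∀ vb : Val w (s + t, b), west false a = false → b % 2 = (a + 1) % 2 →
        rgt p a = (false, b) → ψ (s + t) b = ψ (s + t) a := by
      intro a b va vb hda hab hr
      have e : pi hw ⟨(s + t, a), va⟩ = ⟨(s + t, b), vb⟩ := by
        apply Subtype.ext
        rw [pi_val]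
        show mv w false (s + t, a) = _
        rw [mv_east w false (s + t) a p hp hda, hr]
        rfl
      have h2 := h ⟨(s + t, a), va⟩ (by rw [pcx_e hda]; omega) (by intro h3; rw [hda] at h3; simp at h3) (by
        rw [e]
        intro hD
        obtain ⟨a6, a3⟩ := dep_w hw hD (by rw [west_flip false hab, hda]; rfl)
        rw [hp] at a6
        have a7 := Option.some.inj a6
        rw [a7] at hr
        simp [rgt] at hr)
      rw [e] at h2
      exact h2
    rcases hd : west false j with _ | _
    · exact (key j (rgt p j).2 v1 v2 hd hpar (by rw [← h1])).symm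
    · have hd2 : west false (rgt p j).2 = false := by rw [west_flip false hpar, hd]; rfl
      exact key (rgt p j).2 j v2 v1 hd2 (by omega) (rgt_turn p j h1)
  · show ψ (s + t + 1) j = ψ (s + t + 1) (lft p j).2
    have hs := step_lft p _ _ hdir j hv
    rw [h1] at hs
    simp only [Bool.false_eq_true, if_false] at hs
    have v1 : Val w (s + t + 1, j) := ⟨ht, hv⟩
    have v2 : Val w (s + t + 1, (lft p j).2) := ⟨ht, hs.1⟩
    have hpar := lft_par p j
    rw [h1] at hpar
    simp only [Bool.false_eq_true, if_false] at hpar
    have key : ∀ a b : ℕ, ∀ va : Val w (s + t + 1, a), ∀ vb : Val w (s + t + 1, b), west false a = true →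
        b % 2 = (a + 1) % 2 → lft p a = (false, b) → ψ (s + t + 1) b = ψ (s + t + 1) a := by
      intro a b va vb hda hab hr
      have e : pi hw ⟨(s + t + 1, a), va⟩ = ⟨(s + t + 1, b), vb⟩ := by
        apply Subtype.ext
        rw [pi_val]
        show mv w false (s + t + 1, a) = _
        rw [mv_west w false (s + t) a p hp hda, hr]
        rfl
      have h2 := h ⟨(s + t + 1, a), va⟩ (by rw [pcx_w hda]; omega) (fun _ => Nat.succ_pos _) (by
        rw [e]
        intro hD
        obtain ⟨a6, a3⟩ := dep_e hw hD (by rw [west_flip false hab, hda]; rfl)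
        rw [hp] at a6
        have a7 := Option.some.inj a6
        rw [a7] at hr
        simp [lft] at hr)
      rw [e] at h2
      exact h2
    rcases hd : west false j with _ | _
    · have hd2 : west false (lft p j).2 = true := by rw [west_flip false hpar, hd]; rfl
      exact key (lft p j).2 j v2 v1 hd2 (by omega) (lft_turn p j h1)
    · exact (key j (lft p j).2 v1 v2 hd hpar (by rw [← h1])).symm

theorem pcx_le (hw : IsTangle w) (z : Pos w) (h0 : west false z.1.2 = true → 0 < z.1.1) : pcx z.1 ≤ (pi hw z).1.1 := by
  obtain ⟨⟨t, j⟩, hz⟩ := z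
  show pcx (t, j) ≤ (mv w false (t, j)).1
  rcases hd : west false j with _ | _
  · rw [pcx_e hd]
    rcases Nat.lt_or_ge t w.length with ht | ht
    · rw [mv_east w false t j _ (getElem?_of_lt ht) hd]
      split_ifs <;> simp
    · exfalso
      have ht' : t = w.length := le_antisymm hz.1 ht
      subst ht'
      have hj := val_len hw hz
      subst hj
      exact absurd hd (by decide)
  · rcases t with _ | t
    · exact absurd (h0 hd) (lt_irrefl _)
    · have ht : t < w.length := hz.1
      rw [pcx_w hd, mv_west w false t j _ (getElem?_of_lt ht) hd]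
      split_ifs <;> simp

theorem lft_je (k : ℕ) (e : Bool) : lft (.cup k e) (je true k) = (false, je false k) := by
  unfold je lft
  rcases Nat.mod_two_eq_zero_or_one k with h | h <;> simp [h]

/-- a cup whose strands have the same value under all functions that obey the rules behind it closes a circle -/
theorem closed_of_cup (hw : IsTangle w) {t0 k : ℕ} {e : Bool} (hp : w[t0]? = some (.cup k e))
    (hφ : ∀ φ : ℕ → ℕ → Prop,
      LG3P.Rul (SL w (t0 + 1)) (w.drop (t0 + 1)) (fun t j => φ (t0 + 1 + t) j) → φ (t0 + 1) k = φ (t0 + 1) (k + 1)) :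
    ∃ z : Pos w, (∀ n : ℕ, (pi hw ^ n) z ∉ Dep hw) ∧ ¬ (pi hw).SameCycle (e0 w) z := by
  classical
  have ht : t0 < w.length := by
    by_contra hn
    rw [List.getElem?_eq_none (by omega)] at hp
    simp at hp
  obtain ⟨hk, hd⟩ := dir_cup (SL_succ hw hp)
  have hlen : k + 1 < (SL w (t0 + 1)).length := by
    rw [hd]; simp; omega
  have hjl : ∀ b, je b k < (SL w (t0 + 1)).length := by
    intro b
    rcases je_or b k with h | h <;> omega
  set z0 : Pos w := ⟨(t0 + 1, je false k), ⟨ht, hjl false⟩⟩ with hz0
  set z1 : Pos w := ⟨(t0 + 1, je true k), ⟨ht, hjl true⟩⟩ with hz1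
  have hw1 : west false (je true k) = true := by rw [west_je]; rfl
  have hw0 : west false (je false k) = false := by rw [west_je]; rfl
  have h10 : pi hw z1 = z0 := by
    apply Subtype.ext
    rw [pi_val]
    show mv w false (t0 + 1, je true k) = _
    rw [mv_west w false t0 _ _ hp hw1, lft_je]
    rfl
  have hnd : z0 ∉ Dep hw := by
    intro hD
    obtain ⟨a6, -⟩ := dep_e hw hD hw0
    rw [hp] at a6
    simp at a6
  have hex : ∃ n : ℕ, 0 < n ∧ ((pi hw ^ n) z0 ∈ Dep hw ∨ ((pi hw ^ n) z0).1.1 ≤ t0 ∨ (pi hw ^ n) z0 = z0) :=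
    ⟨orderOf (pi hw), orderOf_pos _, Or.inr (Or.inr (by rw [pow_orderOf_eq_one]; rfl))⟩
  obtain ⟨hM0, hM⟩ := Nat.find_spec hex
  have hmin : ∀ n, 0 < n → n < Nat.find hex → (pi hw ^ n) z0 ∉ Dep hw ∧ t0 < ((pi hw ^ n) z0).1.1 ∧ (pi hw ^ n) z0 ≠ z0 := by
    intro n h0 h1
    have h2 := Nat.find_min hex h1
    push Not at h2
    exact h2 h0
  set M := Nat.find hex with hMd
  clear_value M
  by_cases hc : (pi hw ^ M) z0 = z0
  · have hmod : ∀ n, (pi hw ^ n) z0 ∉ Dep hw ∧ t0 < ((pi hw ^ n) z0).1.1 := by
      intro n
      have h1 : (pi hw ^ n) z0 = (pi hw ^ (n % M)) z0 := by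
        have h2 : ∀ m : ℕ, ((pi hw ^ M) ^ m) z0 = z0 := by
          intro m
          induction m with
          | zero => rfl
          | succ m ih => rw [pow_succ, Equiv.Perm.mul_apply, hc, ih]
        conv_lhs => rw [← Nat.mod_add_div n M, pow_add, pow_mul, Equiv.Perm.mul_apply, h2]
      rw [h1]
      rcases Nat.eq_zero_or_pos (n % M) with h2 | h2
      · rw [h2]
        exact ⟨hnd, Nat.lt_succ_self t0⟩
      · have h3 := hmin (n % M) h2 (Nat.mod_lt n hM0)
        exact ⟨h3.1, h3.2.1⟩
    refine ⟨z0, fun n => (hmod n).1, fun hs => ?_⟩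
    obtain ⟨n, hn⟩ := hs.symm.exists_nat_pow_eq
    have h3 := (hmod n).2
    rw [hn] at h3
    exact absurd h3 (Nat.not_lt_zero _)
  · exfalso
    have hR := hφ (fun t j => ∃ n, n < M ∧ ((pi hw ^ n) z0).1 = (t, j)) (by
      apply rul_suf hw (t0 + 1) (fun t j => ∃ n, n < M ∧ ((pi hw ^ n) z0).1 = (t, j))
      intro z hz hz' hzd
      apply propext
      constructor
      · rintro ⟨n, hn, h1⟩
        have h2 : (pi hw ^ n) z0 = pi hw z := Subtype.ext h1
        rcases n with _ | n
        · exfalso
          have h3 : z = z1 := (pi hw).injective (by rw [← h2, h10]; rfl)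
          rw [h3] at hz
          rw [show pcx z1.1 = t0 from pcx_w hw1] at hz
          omega
        · rw [pow_succ', Equiv.Perm.mul_apply] at h2
          exact ⟨n, by omega, congrArg Subtype.val ((pi hw).injective h2)⟩
      · rintro ⟨n, hn, h1⟩
        have h2 : (pi hw ^ n) z0 = z := Subtype.ext h1
        have h3 : (pi hw ^ (n + 1)) z0 = pi hw z := by rw [pow_succ', Equiv.Perm.mul_apply, h2]
        rcases Nat.lt_or_ge (n + 1) M with h4 | h4
        · exact ⟨n + 1, h4, congrArg Subtype.val h3⟩
        · exfalso
          have h5 : n + 1 = M := by omega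
          rw [h5] at h3
          rw [h3] at hM hc
          rcases hM with h6 | h6 | h6
          · exact hzd h6
          · have := pcx_le hw z hz'
            omega
          · exact hc h6)
    have h0 : ∃ n, n < M ∧ ((pi hw ^ n) z0).1 = (t0 + 1, je false k) := ⟨0, hM0, rfl⟩
    have h1 : ∃ n, n < M ∧ ((pi hw ^ n) z0).1 = (t0 + 1, je true k) := by
      have hR' : (∃ n, n < M ∧ ((pi hw ^ n) z0).1 = (t0 + 1, k)) ↔ ∃ n, n < M ∧ ((pi hw ^ n) z0).1 = (t0 + 1, k + 1) :=
        Iff.of_eq hR
      unfold je at h0 ⊢
      rcases Nat.mod_two_eq_zero_or_one k with h | h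
      · simp only [h, decide_true, if_true, Bool.true_eq_false, if_false] at h0 ⊢
        exact hR'.mpr h0
      · simp only [h, Nat.one_ne_zero, decide_false, if_true, Bool.false_eq_true, if_false] at h0 ⊢
        exact hR'.mp h0
    obtain ⟨n, hn, h2⟩ := h1
    have h3 : (pi hw ^ n) z0 = z1 := Subtype.ext h2
    have h4 : (pi hw ^ (n + 1)) z0 = z0 := by rw [pow_succ', Equiv.Perm.mul_apply, h3, h10]
    rcases Nat.lt_or_ge (n + 1) M with h5 | h5
    · exact (hmin (n + 1) (Nat.succ_pos n) h5).2.2 h4
    · have h6 : n + 1 = M := by omega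
      rw [h6] at h4
      exact hc h4

/-- If every position is on the arc of a crossing or on the circle of the ends, the parent systems exist. -/
theorem sys_of (hw : IsTangle w) (q : Bool)
    (h : ∀ z : Pos w, (∃ n : ℕ, (pi hw ^ n) z ∈ Dep hw) ∨ (pi hw).SameCycle (e0 w) z) : (sys q w).isSome = true := by
  have key : ∀ n : ℕ, n ≤ w.length → (sys q (w.drop (w.length - n))).isSome = true := by
    intro n
    induction n with
    | zero => intro _; rw [Nat.sub_zero, List.drop_length]; rfl
    | succ n ih =>
      intro hn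
      obtain ⟨D, hD⟩ := Option.isSome_iff_exists.mp (ih (by omega))
      obtain ⟨t, ht⟩ : ∃ t, t = w.length - (n + 1) := ⟨_, rfl⟩
      have ht1 : w.length - n = t + 1 := by omega
      rw [ht1] at hD
      rw [← ht]
      have hlt : t < w.length := by omega
      have hp := getElem?_of_lt hlt
      have hdr : w.drop t = w[t] :: w.drop (t + 1) := List.drop_eq_getElem_cons hlt
      rw [hdr]
      have hSI := sys_si q _ D hD
      obtain ⟨h0, A0, hT⟩ : ∃ h0 A0, D.T = h0 :: A0 := by
        cases hT : D.T with
        | nil => exact absurd hT hSI.ne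
        | cons a l => exact ⟨a, l, rfl⟩
      have hlen : A0.length = (SL w (t + 1)).length + 1 := by
        obtain ⟨V, lam, hW⟩ := wi_all q (w.drop (t + 1)) (SL w (t + 1)) (fun _ _ => (0 : ℕ)) D (fold_drop hw _)
          (by intro t' p' _ j _; exact ⟨fun _ => ⟨fun _ => rfl, fun _ => rfl⟩, fun _ _ => rfl⟩) hD
        have h1 := hW.vp.length_eq
        rw [hT, List.tail_cons, List.length_append, ptl_length] at h1
        exact h1
      have hdir := SL_succ hw hp
      show ((sys q (w.drop (t + 1))).bind (sysStep q w[t] (LG3P.nx (w.drop (t + 1))) ((w.drop (t + 1)).length + 1))).isSome = true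
      rw [hD, Option.bind_some]
      rcases hpc : w[t] with ⟨k, e⟩ | ⟨k, e⟩ | ⟨k, e⟩
      · -- cup
        rw [hpc] at hp hdir
        obtain ⟨hk, hd'⟩ := dir_cup hdir
        have hl : (SL w (t + 1)).length = (SL w t).length + 2 := by rw [hd']; simp; omega
        have hta : ((SL w t).take k).length = k := by simp [hk]
        rcases hB : A0.drop k with _ | ⟨u, _ | ⟨v, R⟩⟩
        · have := congrArg List.length hB
          simp at this
          omega
        · have := congrArg List.length hB
          simp at this
          omega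
        · have hB' : D.T.drop (pos (Piece.cup k e) + 1) = u :: v :: R := by
            rw [hT]; exact hB
          simp only [sysStep, hB']
          by_cases huv : u = v
          · exfalso
            have hcl := closed_of_cup hw hp (by
              intro φ hR
              obtain ⟨V, lam, hW⟩ := wi_all q (w.drop (t + 1)) (SL w (t + 1)) (fun t' j => φ (t + 1 + t') j) D
                (fold_drop hw _) hR hD
              have hvp := hW.vp
              have hA1 : A0 = A0.take k ++ (u :: v :: R) := by rw [← hB]; exact (List.take_append_drop k A0).symm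
              have hflag : (!q ^^ decide (((SL w t).take k).length % 2 = 1)) = parq q k := by rw [hta, par_eq]
              have hlA : (A0.take k).length = k := by simp; omega
              rw [hT, List.tail_cons, hA1, hd', ptl_append, hflag, List.append_assoc, ptl_two] at hvp
              obtain ⟨-, hPB⟩ := forall2_mid _ _ _ _ (by rw [hlA, ptl_length, hta]) hvp
              simp only [List.cons_append, List.forall₂_cons] at hPB
              obtain ⟨hPu, hPv, -⟩ := hPB
              have hPu' : Pt V lam u ((e == parq q k), φ (t + 1) k) := by simpa [hta] using hPu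
              have hPv' : Pt V lam v ((e == parq q k), φ (t + 1) (k + 1)) := by
                have e1 : ((!e) == !parq q k) = (e == parq q k) := by cases e <;> cases parq q k <;> rfl
                simpa [hta, Nat.add_comm 1 k, e1] using hPv
              have a1 := hPu'.1
              have a2 := hPv'.1
              rw [← huv] at a2
              exact a1.symm.trans a2)
            obtain ⟨z, hz1, hz2⟩ := hcl
            rcases h z with ⟨m, hm⟩ | hm
            · exact hz1 m hm
            · exact hz2 hm
          · rw [if_neg huv]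
            split_ifs <;> rfl
      · -- cap
        rfl
      · -- crossing
        rw [hpc] at hp hdir
        obtain ⟨a, b, ha, hd1, hd2⟩ := dir_cross hdir
        have hl : k + 2 ≤ (SL w (t + 1)).length := by rw [hd2, hd1]; simp; omega
        rcases hB : A0.drop k with _ | ⟨u, _ | ⟨v, R⟩⟩
        · have := congrArg List.length hB
          simp at this
          omega
        · have := congrArg List.length hB
          simp at this
          omega
        · have hB' : D.T.drop (pos (Piece.cross k e) + 1) = u :: v :: R := by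
            rw [hT]; exact hB
          simp only [sysStep, hB']
          split_ifs <;> rfl
  have := key w.length (le_refl _)
  rw [Nat.sub_self] at this
  exact this

end LG3P.Wo
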