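import Mathlib

/-!
Topological core for the support of pairs of arborescences.
States are labellings `x : W → Bool`, the parent of `v` is `s v (x v)` (`none` = the root),
a state is acyclic if the parents are compatible with a rank.  A flip changes one label.
-/

namespace PoolLib.MP_3cd99b_gt.Oct

open Function Finset

variable {W : Type*}

/-- `x` is acyclic for the parent system `s` (`none` is the root). -/
def Acyc (s : W → Bool → Option W) (x : W → Bool) : Prop :=
  ∃ r : W → ℕ, ∀ v u, s v (x v) = some u → r u < r v

/-- the state which has the labels of `xs` on ranks below `k` and the labels of `x` elsewhere -/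
def mix (rk : W → ℕ) (xs x : W → Bool) (k : ℕ) : W → Bool :=
  fun v => if rk v < k then xs v else x v

theorem mix_apply (rk : W → ℕ) (xs x : W → Bool) (k : ℕ) (v : W) :
    mix rk xs x k v = if rk v < k then xs v else x v := rfl

@[simp] theorem mix_zero (rk : W → ℕ) (xs x : W → Bool) : mix rk xs x 0 = x := by
  funext v; simp [mix]

theorem mix_of_le (rk : W → ℕ) (xs x : W → Bool) (k : ℕ) (h : ∀ v, rk v < k) :
    mix rk xs x k = xs := by
  funext v; simp [mix, h v]

theorem mix_cases (rk : W → ℕ) (xs x : W → Bool) (k : ℕ) (v : W) :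
    mix rk xs x k v = x v ∨ mix rk xs x k v = xs v := by
  unfold mix; split_ifs
  · exact Or.inr rfl
  · exact Or.inl rfl

theorem Acyc.mix {s : W → Bool → Option W} {x xs : W → Bool} {rk : W → ℕ}
    (hx : Acyc s x) (hr : ∀ v u, s v (xs v) = some u → rk u < rk v) (k : ℕ) :
    Acyc s (mix rk xs x k) := by
  obtain ⟨r, hr'⟩ := hx
  refine ⟨fun v => if rk v < k then rk v else k + r v, ?_⟩
  intro v u h
  by_cases hv : rk v < k
  · have h' : s v (xs v) = some u := by simpa [Oct.mix, hv] using h
    have h1 := hr v u h'
    have h2 : rk u < k := lt_trans h1 hv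
    simp only [hv, h2, if_true]
    exact h1
  · have h' : s v (x v) = some u := by simpa [Oct.mix, hv] using h
    have h1 := hr' v u h'
    simp only [hv, if_false]
    split_ifs with h2
    · omega
    · omega

theorem exists_injective_rank [Fintype W] {s : W → Bool → Option W} {xs : W → Bool}
    (hx : Acyc s xs) : ∃ rk : W → ℕ, Injective rk ∧ ∀ v u, s v (xs v) = some u → rk u < rk v := by
  classical
  obtain ⟨r, hr⟩ := hx
  refine ⟨fun v => r v * Fintype.card W + (Fintype.equivFin W v : ℕ), ?_, ?_⟩
  · intro v u h
    have h1 : (r v * Fintype.card W + (Fintype.equivFin W v : ℕ)) % Fintype.card W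
        = (r u * Fintype.card W + (Fintype.equivFin W u : ℕ)) % Fintype.card W := by
      simp only at h; rw [h]
    rw [Nat.mul_add_mod', Nat.mul_add_mod', Nat.mod_eq_of_lt (Fin.is_lt _),
      Nat.mod_eq_of_lt (Fin.is_lt _)] at h1
    exact (Fintype.equivFin W).injective (Fin.ext h1)
  · intro v u h
    have h1 := hr v u h
    have h2 : (Fintype.equivFin W u : ℕ) < Fintype.card W := Fin.is_lt _
    have h3 : (r u + 1) * Fintype.card W ≤ r v * Fintype.card W := Nat.mul_le_mul_right _ h1
    simp only
    nlinarith

theorem mix_succ_of_rank [DecidableEq W] {rk : W → ℕ} (hi : Injective rk) (xs x : W → Bool)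
    (u : W) : mix rk xs x (rk u + 1) = update (mix rk xs x (rk u)) u (xs u) := by
  funext v
  by_cases h : v = u
  · subst h; simp [mix]
  · have h1 : rk v ≠ rk u := fun e => h (hi e)
    rw [update_of_ne h]
    simp only [mix]
    have : rk v < rk u + 1 ↔ rk v < rk u := by omega
    simp only [this]

theorem mix_succ_of_no {rk : W → ℕ} (xs x : W → Bool) (k : ℕ) (h : ¬ ∃ u, rk u = k) :
    mix rk xs x (k + 1) = mix rk xs x k := by
  funext v
  have h1 : rk v ≠ k := fun e => h ⟨v, e⟩
  simp only [mix]
  have : rk v < k + 1 ↔ rk v < k := by omega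
  simp only [this]

theorem mix_update_lt [DecidableEq W] {rk : W → ℕ} (xs x : W → Bool) (v : W) (b : Bool) (k : ℕ)
    (h : rk v < k) : mix rk xs (update x v b) k = mix rk xs x k := by
  funext u
  by_cases e : u = v
  · subst e; simp [mix, h]
  · simp [mix, update_of_ne e]

theorem mix_update_ge [DecidableEq W] {rk : W → ℕ} (xs x : W → Bool) (v : W) (b : Bool) (k : ℕ)
    (h : ¬ rk v < k) : mix rk xs (update x v b) k = update (mix rk xs x k) v b := by
  funext u
  by_cases e : u = v
  · subst e; simp [mix, h]
  · simp [mix, update_of_ne e]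

/-- one step of a walk of flips through acyclic states with property `R` -/
def FlipIn [DecidableEq W] (s : W → Bool → Option W) (R : (W → Bool) → Prop)
    (x y : W → Bool) : Prop :=
  Acyc s x ∧ Acyc s y ∧ R x ∧ R y ∧ ∃ v b, y = update x v b

/-- walks of flips through acyclic states with property `R` -/
def Walk [DecidableEq W] (s : W → Bool → Option W) (R : (W → Bool) → Prop) :
    (W → Bool) → (W → Bool) → Prop := Relation.ReflTransGen (FlipIn s R)

theorem Walk.trans [DecidableEq W] {s : W → Bool → Option W} {R : (W → Bool) → Prop}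
    {x y z : W → Bool} (h : Walk s R x y) (h' : Walk s R y z) : Walk s R x z :=
  Relation.ReflTransGen.trans h h'

theorem Walk.symm [DecidableEq W] {s : W → Bool → Option W} {R : (W → Bool) → Prop}
    {x y : W → Bool} (h : Walk s R x y) : Walk s R y x := by
  induction h with
  | refl => exact Relation.ReflTransGen.refl
  | tail hab hbc ih =>
    refine Relation.ReflTransGen.head ?_ ih
    obtain ⟨h1, h2, h3, h4, v, b, rfl⟩ := hbc
    refine ⟨h2, h1, h4, h3, v, ?_, ?_⟩
    · exact (‹W → Bool› : W → Bool) v
    · rw [update_idem]; exact (update_eq_self v _).symm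

theorem Walk.mono [DecidableEq W] {s : W → Bool → Option W} {R R' : (W → Bool) → Prop}
    (hR : ∀ x, Acyc s x → R x → R' x) {x y : W → Bool} (h : Walk s R x y) : Walk s R' x y := by
  induction h with
  | refl => exact Relation.ReflTransGen.refl
  | tail hab hbc ih =>
    obtain ⟨h1, h2, h3, h4, h5⟩ := hbc
    exact ih.tail ⟨h1, h2, hR _ h1 h3, hR _ h2 h4, h5⟩

theorem Walk.of_eq [DecidableEq W] {s : W → Bool → Option W} {R : (W → Bool) → Prop}
    {x y : W → Bool} (h : x = y) : Walk s R x y := by
  subst h; exact Relation.ReflTransGen.refl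

theorem Walk.flip [DecidableEq W] {s : W → Bool → Option W} {R : (W → Bool) → Prop}
    {x : W → Bool} (v : W) (b : Bool) (h1 : Acyc s x) (h2 : Acyc s (update x v b))
    (h3 : R x) (h4 : R (update x v b)) : Walk s R x (update x v b) :=
  Relation.ReflTransGen.single ⟨h1, h2, h3, h4, v, b, rfl⟩

/-- the canonical walk to `xs`: every state on it has at each vertex the label of `x` or of `xs`,
more precisely it is some `mix rk xs x k`. -/
theorem walk_mix [DecidableEq W] {s : W → Bool → Option W} {x xs : W → Bool} {rk : W → ℕ}
    (hi : Injective rk) (hr : ∀ v u, s v (xs v) = some u → rk u < rk v) (hx : Acyc s x)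
    (R : (W → Bool) → Prop) (hR : ∀ k, R (mix rk xs x k)) (k : ℕ) :
    Walk s R x (mix rk xs x k) := by
  induction k with
  | zero => exact Walk.of_eq (mix_zero _ _ _).symm
  | succ k ih =>
    by_cases h : ∃ u, rk u = k
    · obtain ⟨u, rfl⟩ := h
      refine ih.trans ?_
      have h1 := hx.mix hr (rk u)
      have h2 := hx.mix hr (rk u + 1)
      have h3 := hR (rk u)
      have h4 := hR (rk u + 1)
      rw [mix_succ_of_rank hi] at h2 h4 ⊢
      exact Walk.flip u (xs u) h1 h2 h3 h4
    · rw [mix_succ_of_no xs x k h]; exact ih

/-- connectedness of boxes: if `R` depends only on labels chosen from `x` and `xs`, then the two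
acyclic states are joined by a walk of flips inside `R`. -/
theorem walk_box [Fintype W] [DecidableEq W] {s : W → Bool → Option W} {x xs : W → Bool}
    (hx : Acyc s x) (hxs : Acyc s xs) (R : (W → Bool) → Prop)
    (hR : ∀ y : W → Bool, (∀ v, y v = x v ∨ y v = xs v) → R y) : Walk s R x xs := by
  obtain ⟨rk, hi, hr⟩ := exists_injective_rank hxs
  have h := walk_mix hi hr hx R (fun k => hR _ (fun v => mix_cases rk xs x k v))
    (Finset.univ.sup rk + 1)
  rwa [mix_of_le] at h
  intro v
  exact Nat.lt_succ_of_le (Finset.le_sup (Finset.mem_univ v))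

section Potential

variable {G : Type*} [AddCommGroup G]

/-- A cochain on flips of acyclic states which vanishes on squares is exact. -/
theorem exists_potential [Fintype W] [DecidableEq W] (s : W → Bool → Option W)
    (w : (W → Bool) → (W → Bool) → G) (hself : ∀ x, w x x = 0)
    (hanti : ∀ x v b, Acyc s x → Acyc s (update x v b) →
      w x (update x v b) + w (update x v b) x = 0)
    (hsq : ∀ x u v a b, u ≠ v → Acyc s x → Acyc s (update x u a) → Acyc s (update x v b) →
      Acyc s (update (update x u a) v b) →
      w x (update x u a) + w (update x u a) (update (update x u a) v b)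
        = w x (update x v b) + w (update x v b) (update (update x u a) v b)) :
    ∃ φ : (W → Bool) → G, ∀ x v b, Acyc s x → Acyc s (update x v b) →
      φ (update x v b) = φ x + w x (update x v b) := by
  classical
  by_cases hex : ∃ xs, Acyc s xs
  swap
  · exact ⟨0, fun x v b hx _ => absurd ⟨x, hx⟩ hex⟩
  obtain ⟨xs, hxs⟩ := hex
  obtain ⟨rk, hi, hr⟩ := exists_injective_rank hxs
  set K := Finset.univ.sup rk + 1 with hK
  have hKr : ∀ v, rk v < K := fun v => Nat.lt_succ_of_le (Finset.le_sup (Finset.mem_univ v))
  refine ⟨fun x => - ∑ k ∈ range K, w (mix rk xs x k) (mix rk xs x (k + 1)), ?_⟩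
  intro x v b hx hy
  have key : ∀ k, w (mix rk xs x k) (mix rk xs x (k + 1))
      + w (mix rk xs x (k + 1)) (mix rk xs (update x v b) (k + 1))
      = w (mix rk xs x k) (mix rk xs (update x v b) k)
      + w (mix rk xs (update x v b) k) (mix rk xs (update x v b) (k + 1)) := by
    intro k
    by_cases h : ∃ u, rk u = k
    · obtain ⟨u, rfl⟩ := h
      rcases lt_trichotomy (rk v) (rk u) with hlt | heq | hgt
      · rw [mix_update_lt xs x v b _ hlt, mix_update_lt xs x v b _ (by omega)]
        rw [hself, hself]; abel
      · have huv : v = u := hi heq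
        subst huv
        have e1 := mix_succ_of_rank hi xs x v
        rw [mix_update_lt xs x v b _ (by omega : rk v < rk v + 1),
          mix_update_ge xs x v b _ (by omega : ¬ rk v < rk v), hself, add_zero]
        have a1 := hx.mix hr (rk v)
        have a2 := hx.mix hr (rk v + 1)
        have a3 := hy.mix hr (rk v)
        rw [mix_update_ge xs x v b _ (by omega : ¬ rk v < rk v)] at a3
        rw [e1] at a2 ⊢
        set p := mix rk xs x (rk v) with hp
        by_cases hb : b = xs v
        · rw [hb, hself, add_zero]
        · by_cases hpv : p v = b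
          · have : update p v b = p := by rw [← hpv]; exact update_eq_self v p
            rw [this, hself, zero_add]
          · have hpx : p v = xs v := by
              revert hb hpv
              cases p v <;> cases b <;> cases xs v <;> simp
            have e2 : update p v (xs v) = p := by rw [← hpx]; exact update_eq_self v p
            rw [e2, hself]
            exact (hanti p v b a1 a3).symm
      · have huv : u ≠ v := by rintro rfl; exact lt_irrefl _ hgt
        have e1 := mix_succ_of_rank hi xs x u
        have e2 := mix_succ_of_rank hi xs (update x v b) u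
        have e3 := mix_update_ge xs x v b (rk u) (by omega : ¬ rk v < rk u)
        have e4 := mix_update_ge xs x v b (rk u + 1) (by omega : ¬ rk v < rk u + 1)
        have a1 := hx.mix hr (rk u)
        have a2 := hx.mix hr (rk u + 1)
        have a3 := hy.mix hr (rk u)
        have a4 := hy.mix hr (rk u + 1)
        rw [e4] at a4 ⊢
        rw [e3] at a3 ⊢
        rw [e1] at a2 a4 ⊢
        exact hsq _ u v (xs u) b huv a1 a2 a3 a4
    · rw [mix_succ_of_no xs x k h, mix_succ_of_no xs (update x v b) k h, hself, hself]; abel
  have tel : ∀ n, ∑ k ∈ range n, w (mix rk xs x k) (mix rk xs x (k + 1))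
      + w (mix rk xs x n) (mix rk xs (update x v b) n)
      = w x (update x v b)
      + ∑ k ∈ range n, w (mix rk xs (update x v b) k) (mix rk xs (update x v b) (k + 1)) := by
    intro n
    induction n with
    | zero => simp
    | succ n ih =>
      rw [sum_range_succ, sum_range_succ, add_assoc, key n, ← add_assoc, ih, add_assoc]
  have h := tel K
  rw [mix_of_le rk xs x K hKr, mix_of_le rk xs (update x v b) K hKr, hself, add_zero] at h
  simp only
  rw [h]; abel

end Potential

section Winding

/-- `1` strictly above the level `b`, `0` below -/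
def hi' (b : ℤ) (p : ℤ × ℤ) : ℤ := if b < p.2 then 1 else 0

/-- crossing number of the step from `p` to `q` with the ray east of `(a, b + 1/2)` -/
def crs (z p q : ℤ × ℤ) : ℤ := if z.1 < p.1 then hi' z.2 q - hi' z.2 p else 0

/-- unit step (or no step) -/
def Near (p q : ℤ × ℤ) : Prop :=
  (p.1 = q.1 ∧ (p.2 = q.2 ∨ p.2 = q.2 + 1 ∨ q.2 = p.2 + 1)) ∨
  (p.2 = q.2 ∧ (p.1 = q.1 ∨ p.1 = q.1 + 1 ∨ q.1 = p.1 + 1))

/-- the rule for squares of flips: a parallelogram, or one of the two diagonals is degenerate -/
def SqOK (p pu pv puv : ℤ × ℤ) : Prop :=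
  (puv.1 + p.1 = pu.1 + pv.1 ∧ puv.2 + p.2 = pu.2 + pv.2) ∨ puv = p ∨ pu = pv

theorem crs_self (z p : ℤ × ℤ) : crs z p p = 0 := by simp [crs]

theorem crs_anti {z p q : ℤ × ℤ} (h : Near p q) : crs z p q + crs z q p = 0 := by
  obtain ⟨z1, z2⟩ := z
  obtain ⟨p1, p2⟩ := p
  obtain ⟨q1, q2⟩ := q
  simp only [Near, crs, hi'] at *
  split_ifs <;> omega

theorem crs_sq {z p pu pv puv : ℤ × ℤ} (h1 : Near p pu) (h2 : Near p pv) (h3 : Near pu puv)
    (h4 : Near pv puv) (hs : SqOK p pu pv puv) (n1 : p ≠ z) (n2 : pu ≠ z) (n3 : pv ≠ z)
    (n4 : puv ≠ z) : crs z p pu + crs z pu puv = crs z p pv + crs z pv puv := by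
  rcases hs with hs | hs | hs
  · obtain ⟨z1, z2⟩ := z
    obtain ⟨p1, p2⟩ := p
    obtain ⟨q1, q2⟩ := pu
    obtain ⟨r1, r2⟩ := pv
    obtain ⟨t1, t2⟩ := puv
    simp only [Near, crs, hi', ne_eq, Prod.mk.injEq] at *
    split_ifs <;> omega
  · subst hs
    rw [crs_anti h1, crs_anti h2]
  · subst hs; rfl

/-- A map to the plane which moves by unit steps under flips and satisfies the square rule. -/
structure GoodMap [DecidableEq W] (f : (W → Bool) → ℤ × ℤ) : Prop where
  near : ∀ x v b, Near (f x) (f (update x v b))
  sq : ∀ x u v a b, u ≠ v →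
    SqOK (f x) (f (update x u a)) (f (update x v b)) (f (update (update x u a) v b))

variable [Fintype W] [DecidableEq W]

theorem exists_winding (s : W → Bool → Option W) (f : (W → Bool) → ℤ × ℤ) (hf : GoodMap f)
    (z : ℤ × ℤ) (hz : ¬ ∃ x, Acyc s x ∧ f x = z) :
    ∃ φ : (W → Bool) → ℤ, ∀ x v b, Acyc s x → Acyc s (update x v b) →
      φ (update x v b) = φ x + crs z (f x) (f (update x v b)) := by
  apply exists_potential s (fun x y => crs z (f x) (f y))
  · intro x; exact crs_self _ _
  · intro x v b _ _; exact crs_anti (hf.near x v b)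
  · intro x u v a b huv h1 h2 h3 h4
    have e : update (update x u a) v b = update (update x v b) u a :=
      update_comm huv a b x
    refine crs_sq (hf.near x u a) (hf.near x v b) (hf.near _ v b) ?_ (hf.sq x u v a b huv)
      (fun h => hz ⟨_, h1, h⟩) (fun h => hz ⟨_, h2, h⟩) (fun h => hz ⟨_, h3, h⟩)
      (fun h => hz ⟨_, h4, h⟩)
    rw [e]; exact hf.near _ u a

/-- the two regions in which the walks around `z` run -/
def SE (f : (W → Bool) → ℤ × ℤ) (z : ℤ × ℤ) (x : W → Bool) : Prop :=
  z.1 < (f x).1 ∨ (f x).2 < z.2

def NW (f : (W → Bool) → ℤ × ℤ) (z : ℤ × ℤ) (x : W → Bool) : Prop :=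
  z.2 < (f x).2 ∨ (f x).1 < z.1

theorem attained_of_walks (s : W → Bool → Option W) (f : (W → Bool) → ℤ × ℤ) (hf : GoodMap f)
    (z : ℤ × ℤ) (p q : W → Bool) (hp : z.2 < (f p).2) (hq : (f q).2 ≤ z.2)
    (hE : Walk s (SE f z) p q) (hW : Walk s (NW f z) p q) : ∃ x, Acyc s x ∧ f x = z := by
  by_contra hz
  obtain ⟨φ, hφ⟩ := exists_winding s f hf z hz
  have h1 : ∀ y, Walk s (SE f z) p y → φ y = φ p + (hi' z.2 (f y) - hi' z.2 (f p)) := by
    intro y hy
    induction hy with
    | refl => simp
    | tail hab hbc ih =>
      obtain ⟨a1, a2, a3, a4, v, b, rfl⟩ := hbc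
      rw [hφ _ v b a1 a2, ih]
      have hn := hf.near ‹_› v b
      revert hn a3 a4
      simp only [SE, Near, crs, hi']
      intro a3 a4 hn
      split_ifs <;> omega
  have h2 : ∀ y, Walk s (NW f z) p y → φ y = φ p := by
    intro y hy
    induction hy with
    | refl => rfl
    | tail hab hbc ih =>
      obtain ⟨a1, a2, a3, a4, v, b, rfl⟩ := hbc
      rw [hφ _ v b a1 a2, ih]
      have hn := hf.near ‹_› v b
      revert hn a3 a4
      simp only [NW, Near, crs, hi']
      intro a3 a4 hn
      split_ifs <;> omega
  have e1 := h1 q hE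
  have e2 := h2 q hW
  rw [e2] at e1
  simp only [hi', hp, if_true] at e1
  rw [if_neg (by omega)] at e1
  omega

end Winding

section Pairs

variable {V : Type*} [Fintype V] [DecidableEq V]

/-- contribution of one crossing of sign `sg` with labels `a` (in-arc) and `b` (out-arc) -/
def contr (sg : ℤ) (a b : Bool) : ℤ × ℤ :=
  (if a = true ∧ b = false then sg else 0, if a = false ∧ b = true then sg else 0)

/-- `(A, B)` of a pair of labellings -/
def AB (sg : V → ℤ) (x : V ⊕ V → Bool) : ℤ × ℤ :=
  ∑ c, contr (sg c) (x (Sum.inl c)) (x (Sum.inr c))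

theorem AB_update_inl (sg : V → ℤ) (x : V ⊕ V → Bool) (v : V) (b : Bool) :
    AB sg (update x (Sum.inl v) b) + contr (sg v) (x (Sum.inl v)) (x (Sum.inr v))
      = AB sg x + contr (sg v) b (x (Sum.inr v)) := by
  unfold AB
  rw [← Finset.add_sum_erase _ _ (Finset.mem_univ v),
    ← Finset.add_sum_erase (s := univ) (f := fun c => contr (sg c) (x (Sum.inl c)) (x (Sum.inr c)))
      (a := v) (Finset.mem_univ v)]
  have h : ∑ c ∈ univ.erase v, contr (sg c) (update x (Sum.inl v) b (Sum.inl c))
      (update x (Sum.inl v) b (Sum.inr c))
      = ∑ c ∈ univ.erase v, contr (sg c) (x (Sum.inl c)) (x (Sum.inr c)) := by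
    refine Finset.sum_congr rfl fun c hc => ?_
    have hcv : c ≠ v := Finset.ne_of_mem_erase hc
    rw [update_of_ne (by simpa using hcv), update_of_ne (by simp)]
  rw [h, update_self, update_of_ne (by simp)]
  abel

theorem AB_update_inr (sg : V → ℤ) (x : V ⊕ V → Bool) (v : V) (b : Bool) :
    AB sg (update x (Sum.inr v) b) + contr (sg v) (x (Sum.inl v)) (x (Sum.inr v))
      = AB sg x + contr (sg v) (x (Sum.inl v)) b := by
  unfold AB
  rw [← Finset.add_sum_erase _ _ (Finset.mem_univ v),
    ← Finset.add_sum_erase (s := univ) (f := fun c => contr (sg c) (x (Sum.inl c)) (x (Sum.inr c)))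
      (a := v) (Finset.mem_univ v)]
  have h : ∑ c ∈ univ.erase v, contr (sg c) (update x (Sum.inr v) b (Sum.inl c))
      (update x (Sum.inr v) b (Sum.inr c))
      = ∑ c ∈ univ.erase v, contr (sg c) (x (Sum.inl c)) (x (Sum.inr c)) := by
    refine Finset.sum_congr rfl fun c hc => ?_
    have hcv : c ≠ v := Finset.ne_of_mem_erase hc
    rw [update_of_ne (by simp), update_of_ne (by simpa using hcv)]
  rw [h, update_self, update_of_ne (by simp)]
  abel

theorem goodMap_AB (sg : V → ℤ) (hsg : ∀ c, sg c = 1 ∨ sg c = -1) : GoodMap (AB sg) := by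
  have near : ∀ x v b, Near (AB sg x) (AB sg (update x v b)) := by
    intro x v b
    rcases v with v | v
    · have h := AB_update_inl sg x v b
      rw [Prod.ext_iff] at h
      simp only [contr, Prod.fst_add, Prod.snd_add] at h
      rcases hsg v with e | e <;> rw [e] at h <;> revert h <;>
        cases x (Sum.inl v) <;> cases x (Sum.inr v) <;> cases b <;> simp [Near] <;> omega
    · have h := AB_update_inr sg x v b
      rw [Prod.ext_iff] at h
      simp only [contr, Prod.fst_add, Prod.snd_add] at h
      rcases hsg v with e | e <;> rw [e] at h <;> revert h <;>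
        cases x (Sum.inl v) <;> cases x (Sum.inr v) <;> cases b <;> simp [Near] <;> omega
  refine ⟨near, ?_⟩
  have main : ∀ (x : V ⊕ V → Bool) (u v : V) (a b : Bool), u = v →
      SqOK (AB sg x) (AB sg (update x (Sum.inl u) a)) (AB sg (update x (Sum.inr v) b))
        (AB sg (update (update x (Sum.inl u) a) (Sum.inr v) b)) := by
    intro x u v a b huv
    subst huv
    have h1 := AB_update_inl sg x u a
    have h2 := AB_update_inr sg x u b
    have h3 := AB_update_inr sg (update x (Sum.inl u) a) u b
    rw [update_self, update_of_ne (by simp)] at h3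
    rw [Prod.ext_iff] at h1 h2 h3
    simp only [contr, Prod.fst_add, Prod.snd_add] at h1 h2 h3
    simp only [SqOK, Prod.ext_iff]
    rcases hsg u with e | e <;> rw [e] at h1 h2 h3 <;> revert h1 h2 h3 <;>
      cases x (Sum.inl u) <;> cases x (Sum.inr u) <;> cases a <;> cases b <;> simp <;> omega
  intro x u v a b huv
  rcases u with u | u <;> rcases v with v | v
  · left
    have hne : (u : V) ≠ v := fun h => huv (by rw [h])
    have h1 := AB_update_inl sg x u a
    have h2 := AB_update_inl sg x v b
    have h3 := AB_update_inl sg (update x (Sum.inl u) a) v b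
    rw [update_of_ne (by simpa using hne.symm), update_of_ne (by simp)] at h3
    rw [Prod.ext_iff] at h1 h2 h3
    simp only [Prod.fst_add, Prod.snd_add] at h1 h2 h3
    constructor <;> omega
  · by_cases hne : u = v
    · exact main x u v a b hne
    · left
      have h1 := AB_update_inl sg x u a
      have h2 := AB_update_inr sg x v b
      have h3 := AB_update_inr sg (update x (Sum.inl u) a) v b
      rw [update_of_ne (by simpa using Ne.symm hne), update_of_ne (by simp)] at h3
      rw [Prod.ext_iff] at h1 h2 h3
      simp only [Prod.fst_add, Prod.snd_add] at h1 h2 h3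
      constructor <;> omega
  · by_cases hne : v = u
    · have h := main x v u b a hne
      have e : update (update x (Sum.inl v) b) (Sum.inr u) a
          = update (update x (Sum.inr u) a) (Sum.inl v) b := update_comm (by simp) b a x
      rw [e] at h
      rcases h with h | h | h
      · left; constructor <;> omega
      · exact Or.inr (Or.inl h)
      · exact Or.inr (Or.inr h.symm)
    · left
      have h1 := AB_update_inr sg x u a
      have h2 := AB_update_inl sg x v b
      have h3 := AB_update_inl sg (update x (Sum.inr u) a) v b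
      rw [update_of_ne (by simp), update_of_ne (by simpa using hne)] at h3
      rw [Prod.ext_iff] at h1 h2 h3
      simp only [Prod.fst_add, Prod.snd_add] at h1 h2 h3
      constructor <;> omega
  · left
    have hne : (u : V) ≠ v := fun h => huv (by rw [h])
    have h1 := AB_update_inr sg x u a
    have h2 := AB_update_inr sg x v b
    have h3 := AB_update_inr sg (update x (Sum.inr u) a) v b
    rw [update_of_ne (by simp), update_of_ne (by simpa using hne.symm)] at h3
    rw [Prod.ext_iff] at h1 h2 h3
    simp only [Prod.fst_add, Prod.snd_add] at h1 h2 h3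
    constructor <;> omega

end Pairs

section Reach

variable {s : W → Bool → Option W}

/-- one step to the parent -/
def par (s : W → Bool → Option W) (x : W → Bool) (o : Option W) : Option W :=
  o.bind fun u => s u (x u)

@[simp] theorem par_none (x : W → Bool) : par s x none = none := rfl

@[simp] theorem par_some (x : W → Bool) (u : W) : par s x (some u) = s u (x u) := rfl

theorem iter_none (x : W → Bool) (n : ℕ) : (par s x)^[n] none = none := by
  induction n with
  | zero => rfl
  | succ n ih => rw [iterate_succ_apply, par_none, ih]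

theorem iter_none_of_le (x : W → Bool) {o : Option W} {n m : ℕ} (h : (par s x)^[n] o = none)
    (hnm : n ≤ m) : (par s x)^[m] o = none := by
  obtain ⟨k, rfl⟩ := Nat.exists_eq_add_of_le' hnm
  rw [iterate_add_apply, h, iter_none]

theorem Acyc.reach {x : W → Bool} (hx : Acyc s x) (o : Option W) :
    ∃ n, (par s x)^[n] o = none := by
  obtain ⟨r, hr⟩ := hx
  cases o with
  | none => exact ⟨0, rfl⟩
  | some v =>
    induction hn : r v using Nat.strong_induction_on generalizing v with
    | _ m ih =>
      cases h : s v (x v) with
      | none => exact ⟨1, by simpa using h⟩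
      | some u =>
        obtain ⟨n, hn'⟩ := ih (r u) (by rw [← hn]; exact hr v u h) u rfl
        exact ⟨n + 1, by rw [iterate_succ_apply, par_some, h]; exact hn'⟩

theorem acyc_of_reach {x : W → Bool} (h : ∀ v, ∃ n, (par s x)^[n] (some v) = none) :
    Acyc s x := by
  classical
  refine ⟨fun v => Nat.find (h v), ?_⟩
  intro v u huv
  have h1 := Nat.find_spec (h v)
  have h0 : Nat.find (h v) ≠ 0 := by
    intro e
    rw [e] at h1
    simp at h1
  obtain ⟨m, hm⟩ := Nat.exists_eq_succ_of_ne_zero h0
  rw [hm, iterate_succ_apply, par_some, huv] at h1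
  have h2 := Nat.find_min' (h u) h1
  show Nat.find (h u) < Nat.find (h v)
  omega

theorem acyc_iff_reach {x : W → Bool} :
    Acyc s x ↔ ∀ v, ∃ n, (par s x)^[n] (some v) = none :=
  ⟨fun h _ => h.reach _, acyc_of_reach⟩

theorem Acyc.iter_ne {x : W → Bool} (hx : Acyc s x) (v : W) (n : ℕ) :
    (par s x)^[n + 1] (some v) ≠ some v := by
  intro h
  obtain ⟨m, hm⟩ := hx.reach (some v)
  have h2 : ∀ k, (par s x)^[k * (n + 1)] (some v) = some v := by
    intro k
    induction k with
    | zero => simp
    | succ k ih => rw [Nat.succ_mul, iterate_add_apply, h, ih]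
  have h3 := iter_none_of_le x hm (by nlinarith : m ≤ m * (n + 1))
  rw [h2] at h3
  simp at h3

/-- paths which avoid `v` do not see the label at `v` -/
theorem iter_update [DecidableEq W] (x : W → Bool) (v : W) (b : Bool) (o : Option W) (n : ℕ)
    (h : ∀ m < n, (par s x)^[m] o ≠ some v) :
    (par s (update x v b))^[n] o = (par s x)^[n] o := by
  induction n with
  | zero => rfl
  | succ n ih =>
    rw [iterate_succ_apply', iterate_succ_apply', ih (fun m hm => h m (by omega))]
    have hn := h n (by omega)
    cases ho : (par s x)^[n] o with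
    | none => rfl
    | some u =>
      have huv : u ≠ v := by rintro rfl; exact hn ho
      simp [update_of_ne huv]

/-- a flip of the label at `v` is allowed if the path from the new parent avoids `v` -/
theorem Acyc.update [DecidableEq W] {x : W → Bool} (hx : Acyc s x) (v : W) (b : Bool)
    (h : ∀ n, (par s x)^[n] (s v b) ≠ some v) : Acyc s (Function.update x v b) := by
  classical
  have hv : ∃ n, (par s (Function.update x v b))^[n] (some v) = none := by
    obtain ⟨n, hn⟩ := hx.reach (s v b)
    refine ⟨n + 1, ?_⟩
    rw [iterate_succ_apply, par_some, update_self, iter_update x v b _ n (fun m _ => h m), hn]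
  apply acyc_of_reach
  intro u
  by_cases hu : ∃ n, (par s x)^[n] (some u) = some v
  · have h1 := Nat.find_spec hu
    have h2 : ∀ m < Nat.find hu, (par s x)^[m] (some u) ≠ some v := fun m hm =>
      Nat.find_min hu hm
    obtain ⟨n, hn⟩ := hv
    refine ⟨n + Nat.find hu, ?_⟩
    rw [iterate_add_apply, iter_update x v b _ _ h2, h1, hn]
  · push Not at hu
    obtain ⟨n, hn⟩ := hx.reach (some u)
    exact ⟨n, by rw [iter_update x v b _ n (fun m _ => hu m), hn]⟩

theorem Acyc.update_none [DecidableEq W] {x : W → Bool} (hx : Acyc s x) (v : W) (b : Bool)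
    (h : s v b = none) : Acyc s (Function.update x v b) := by
  apply hx.update v b
  intro n
  rw [h, iter_none]
  simp

end Reach

section Raise

variable [Fintype W] [DecidableEq W] {s : W → Bool → Option W} (lab : W → Bool)

omit [Fintype W] [DecidableEq W] in
theorem iter_lab_of_all {x : W → Bool} (o : Option W) (n : ℕ)
    (h : ∀ m < n, ∀ u, (par s lab)^[m] o = some u → x u = lab u) :
    (par s x)^[n] o = (par s lab)^[n] o := by
  induction n with
  | zero => rfl
  | succ n ih =>
    rw [iterate_succ_apply', iterate_succ_apply', ih (fun m hm => h m (by omega))]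
    cases ho : (par s lab)^[n] o with
    | none => rfl
    | some u => simp [h n (by omega) u ho]

/-- raising on the circle through the root -/
theorem exists_raise_root {x : W → Bool} (hx : Acyc s x) (v : W) (n : ℕ)
    (hn : (par s lab)^[n] (some v) = none) (hv : x v ≠ lab v) :
    ∃ u, x u ≠ lab u ∧ Acyc s (update x u (lab u)) ∧
      ∃ m, (par s lab)^[m] (some v) = some u := by
  classical
  induction n using Nat.strong_induction_on generalizing v with
  | _ n ih =>
    by_cases h : ∃ m u, 0 < m ∧ m < n ∧ (par s lab)^[m] (some v) = some u ∧ x u ≠ lab u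
    · obtain ⟨m, u, h0, h1, h2, h3⟩ := h
      have h4 : (par s lab)^[n - m] (some u) = none := by
        rw [← h2, ← iterate_add_apply]
        rwa [show n - m + m = n by omega]
      obtain ⟨t, ht1, ht2, k, hk⟩ := ih (n - m) (by omega) u h4 h3
      refine ⟨t, ht1, ht2, k + m, ?_⟩
      rw [iterate_add_apply, h2, hk]
    · push Not at h
      refine ⟨v, hv, ?_, 0, rfl⟩
      apply hx.update
      intro k hk
      have hn0 : 0 < n := by
        rcases Nat.eq_zero_or_pos n with rfl | h
        · simp at hn
        · exact h
      have e1 : ∀ j, j < n → (par s x)^[j] (s v (lab v)) = (par s lab)^[j] (s v (lab v)) := by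
        intro j hj
        apply iter_lab_of_all
        intro m hm u hu
        refine h (m + 1) u (by omega) (by omega) ?_
        rw [iterate_succ_apply, par_some]; exact hu
      have e2 : (par s x)^[n - 1] (s v (lab v)) = none := by
        rw [e1 _ (by omega)]
        have : (par s lab)^[n - 1 + 1] (some v) = none := by
          rwa [show n - 1 + 1 = n by omega]
        rwa [iterate_succ_apply, par_some] at this
      by_cases hk' : k < n - 1
      · rw [e1 k (by omega)] at hk
        have h5 : (par s lab)^[k + 1] (some v) = some v := by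
          rw [iterate_succ_apply, par_some]; exact hk
        exact hv (h (k + 1) v (by omega) (by omega) h5)
      · rw [iter_none_of_le x e2 (by omega)] at hk
        simp at hk

/-- raising on a circle away from the root which has two lower labels -/
theorem exists_raise_circle {x : W → Bool} (hx : Acyc s x) (v v' : W) (hne : v ≠ v')
    (p : ℕ) (hp : 0 < p) (hper : (par s lab)^[p] (some v) = some v)
    (q : ℕ) (hq : (par s lab)^[q] (some v) = some v') (hv : x v ≠ lab v) (hv' : x v' ≠ lab v') :
    ∃ u, x u ≠ lab u ∧ Acyc s (update x u (lab u)) ∧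
      ∃ m, (par s lab)^[m] (some v) = some u := by
  classical
  -- the circle
  set C : Set (Option W) := {o | ∃ m, (par s lab)^[m] (some v) = o} with hC
  have hperk : ∀ k, (par s lab)^[k * p] (some v) = some v := by
    intro k
    induction k with
    | zero => simp
    | succ k ih => rw [Nat.succ_mul, iterate_add_apply, hper, ih]
  have hCsome : none ∉ C := by
    rintro ⟨m, hm⟩
    have h1 := iter_none_of_le lab hm (by nlinarith : m ≤ m * p)
    rw [hperk] at h1
    simp at h1
  have hCcirc : ∀ o ∈ C, par s lab o ∈ C := by
    rintro o ⟨m, hm⟩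
    exact ⟨m + 1, by rw [iterate_succ_apply', hm]⟩
  -- any two elements of the circle: one is an iterate of the other
  have hCtrans : ∀ o ∈ C, ∀ o' ∈ C, ∃ m, 0 < m ∧ (par s lab)^[m] o = o' := by
    rintro o ⟨m, hm⟩ o' ⟨m', hm'⟩
    refine ⟨m' + (m + 1) * p - m, ?_, ?_⟩
    · have : m + 1 ≤ (m + 1) * p := Nat.le_mul_of_pos_right _ hp
      omega
    · rw [← hm, ← iterate_add_apply]
      have : m + 1 ≤ (m + 1) * p := Nat.le_mul_of_pos_right _ hp
      rw [show m' + (m + 1) * p - m + m = m' + (m + 1) * p by omega, iterate_add_apply, hperk, hm']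
  -- the last visit of the path from `v`
  obtain ⟨N, hN⟩ := hx.reach (some v)
  have hex : ∃ k, (par s x)^[k] (some v) ∈ C ∧ ∀ j, k < j → (par s x)^[j] (some v) ∉ C := by
    have hfin : ∀ k ≥ N, (par s x)^[k] (some v) ∉ C := by
      intro k hk
      rw [iter_none_of_le x hN hk]
      exact hCsome
    have h0 : (par s x)^[0] (some v) ∈ C := ⟨0, rfl⟩
    have hb : ∃ k, k ≤ N ∧ (par s x)^[k] (some v) ∈ C := ⟨0, Nat.zero_le _, h0⟩
    let k := Nat.findGreatest (fun k => (par s x)^[k] (some v) ∈ C) N
    have hk : (par s x)^[k] (some v) ∈ C :=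
      Nat.findGreatest_spec (P := fun k => (par s x)^[k] (some v) ∈ C) (Nat.zero_le N) h0
    refine ⟨k, hk, ?_⟩
    intro j hj hjC
    by_cases hjN : j ≤ N
    · have := Nat.le_findGreatest (P := fun k => (par s x)^[k] (some v) ∈ C) hjN hjC
      change j ≤ k at this
      omega
    · exact hfin j (by omega) hjC
  obtain ⟨k, hkC, hkl⟩ := hex
  obtain ⟨c, hc⟩ : ∃ c, (par s x)^[k] (some v) = some c := by
    cases h : (par s x)^[k] (some v) with
    | none => rw [h] at hkC; exact absurd hkC hCsome
    | some c => exact ⟨c, rfl⟩
  rw [hc] at hkC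
  have hcav : ∀ j, 0 < j → (par s x)^[j] (some c) ∉ C := by
    intro j hj
    rw [← hc, ← iterate_add_apply]
    exact hkl _ (by omega)
  have hcl : x c ≠ lab c := by
    intro e
    have h1 := hcav 1 one_pos
    apply h1
    have : (par s x)^[1] (some c) = par s lab (some c) := by simp [e]
    rw [this]
    exact hCcirc _ hkC
  -- another lower label
  obtain ⟨d, hdC, hdc, hdl⟩ : ∃ d, some d ∈ C ∧ d ≠ c ∧ x d ≠ lab d := by
    by_cases h : v = c
    · exact ⟨v', ⟨q, hq⟩, fun e => hne (h.trans e.symm), hv'⟩
    · exact ⟨v, ⟨0, rfl⟩, h, hv⟩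
  -- nearest one before `c`
  have hex2 : ∃ m, 0 < m ∧ ∃ u, some u ∈ C ∧ u ≠ c ∧ x u ≠ lab u ∧
      (par s lab)^[m] (some u) = some c := by
    obtain ⟨m, hm0, hm⟩ := hCtrans (some d) hdC (some c) hkC
    exact ⟨m, hm0, d, hdC, hdc, hdl, hm⟩
  let m := Nat.find hex2
  obtain ⟨hm0, u, huC, huc, hul, hum⟩ : 0 < m ∧ ∃ u, some u ∈ C ∧ u ≠ c ∧ x u ≠ lab u ∧
      (par s lab)^[m] (some u) = some c := Nat.find_spec hex2
  have hmin : ∀ m' < m, ¬ (0 < m' ∧ ∃ u, some u ∈ C ∧ u ≠ c ∧ x u ≠ lab u ∧
      (par s lab)^[m'] (some u) = some c) := fun m' hm' => Nat.find_min hex2 hm'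
  obtain ⟨mu, hmu⟩ := huC
  refine ⟨u, hul, ?_, mu, hmu⟩
  have inter : ∀ j, 0 < j → j < m → ∀ w, (par s lab)^[j] (some u) = some w → x w = lab w := by
    intro j hj0 hjm w hw
    by_contra hwl
    by_cases hwc : w = c
    · rw [hwc] at hw
      exact hmin j hjm ⟨hj0, u, ⟨mu, hmu⟩, huc, hul, hw⟩
    · refine hmin (m - j) (by omega) ⟨by omega, w, ?_, hwc, hwl, ?_⟩
      · exact ⟨j + mu, by rw [iterate_add_apply, hmu, hw]⟩
      · rw [← hw, ← iterate_add_apply, show m - j + j = m by omega]
        exact hum
  apply hx.update
  intro j hj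
  have e1 : ∀ j, j < m → (par s x)^[j] (s u (lab u)) = (par s lab)^[j] (s u (lab u)) := by
    intro j hj
    apply iter_lab_of_all
    intro i hi w hw
    refine inter (i + 1) (by omega) (by omega) w ?_
    rw [iterate_succ_apply, par_some]; exact hw
  have e2 : (par s x)^[m - 1] (s u (lab u)) = some c := by
    rw [e1 _ (by omega)]
    have : (par s lab)^[m - 1 + 1] (some u) = some c := by
      rwa [show m - 1 + 1 = m by omega]
    rwa [iterate_succ_apply, par_some] at this
  rcases lt_trichotomy j (m - 1) with h | h | h
  · rw [e1 j (by omega)] at hj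
    have h5 : (par s lab)^[j + 1] (some u) = some u := by
      rw [iterate_succ_apply, par_some]; exact hj
    exact hul (inter (j + 1) (by omega) (by omega) u h5)
  · rw [h, e2] at hj
    exact huc (Option.some.inj hj).symm
  · have h6 : (par s x)^[j] (s u (lab u)) = (par s x)^[j - (m - 1)] (some c) := by
      rw [← e2, ← iterate_add_apply, show j - (m - 1) + (m - 1) = j by omega]
    rw [h6] at hj
    exact hcav (j - (m - 1)) (by omega) (hj ▸ ⟨mu, hmu⟩)

/-- the number of lower labels -/
def low (x : W → Bool) : ℕ := (univ.filter fun v => x v ≠ lab v).card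

theorem low_update_lt (x : W → Bool) (u : W) (hu : x u ≠ lab u) :
    low lab (update x u (lab u)) < low lab x := by
  unfold low
  apply Finset.card_lt_card
  refine ⟨?_, ?_⟩
  · intro v hv
    simp only [mem_filter, mem_univ, true_and] at hv ⊢
    by_cases h : v = u
    · subst h; simp at hv
    · rwa [update_of_ne h] at hv
  · intro h
    have h1 : u ∈ univ.filter fun v => x v ≠ lab v := by simp [hu]
    have h2 := h h1
    simp at h2

/-- no lower label on the circle through the root, at most one on every other circle -/
def Top (s : W → Bool → Option W) (x : W → Bool) : Prop :=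
  (∀ v, x v ≠ lab v → ∀ n, (par s lab)^[n] (some v) ≠ none) ∧
  (∀ v v', x v ≠ lab v → x v' ≠ lab v' → (∃ p, 0 < p ∧ (par s lab)^[p] (some v) = some v) →
    (∃ q, (par s lab)^[q] (some v) = some v') → v = v')

/-- from every acyclic state one can raise labels to a top state, inside every property which is
stable under raising of labels -/
theorem walk_raise (R : (W → Bool) → Prop)
    (hR : ∀ y u, Acyc s y → R y → y u ≠ lab u → R (update y u (lab u)))
    {x : W → Bool} (hx : Acyc s x) (hRx : R x) :
    ∃ x', Walk s R x x' ∧ Acyc s x' ∧ R x' ∧ Top lab s x' ∧ ∀ v, x' v ≠ lab v → x' v = x v := by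
  classical
  induction hn : low lab x using Nat.strong_induction_on generalizing x with
  | _ n ih =>
    by_cases h : Top lab s x
    · exact ⟨x, Walk.of_eq rfl, hx, hRx, h, fun _ _ => rfl⟩
    · obtain ⟨u, hu1, hu2⟩ : ∃ u, x u ≠ lab u ∧ Acyc s (update x u (lab u)) := by
        unfold Top at h
        rw [not_and_or] at h
        rcases h with h | h
        · push Not at h
          obtain ⟨v, hv, m, hm⟩ := h
          obtain ⟨u, h1, h2, _⟩ := exists_raise_root lab hx v m hm hv
          exact ⟨u, h1, h2⟩
        · push Not at h
          obtain ⟨v, v', hv, hv', ⟨p, hp, hper⟩, ⟨q, hq⟩, hne⟩ := h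
          obtain ⟨u, h1, h2, _⟩ := exists_raise_circle lab hx v v' hne p hp hper q hq hv hv'
          exact ⟨u, h1, h2⟩
      have hRu := hR x u hx hRx hu1
      obtain ⟨x', h1, h2, h3, h4, h5⟩ := ih _ (hn ▸ low_update_lt lab x u hu1) hu2 hRu rfl
      refine ⟨x', (Walk.flip u (lab u) hx hu2 hRx hRu).trans h1, h2, h3, h4, ?_⟩
      intro v hv
      have h6 := h5 v hv
      by_cases hvu : v = u
      · subst hvu
        rw [update_self] at h6
        exact absurd h6 hv
      · rwa [update_of_ne hvu] at h6

end Raise


section TopMoves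

variable [Fintype W] [DecidableEq W] {s : W → Bool → Option W} (lab : W → Bool)

omit [DecidableEq W] in
theorem Acyc.mixSet {x xs : W → Bool} (hx : Acyc s x) (hxs : Acyc s xs) (P : W → Prop)
    [DecidablePred P] (hP : ∀ v u, P v → s v (xs v) = some u → P u) :
    Acyc s (fun v => if P v then xs v else x v) := by
  obtain ⟨r, hr⟩ := hx
  obtain ⟨rs, hrs⟩ := hxs
  have hM : ∀ v, rs v < Finset.univ.sup rs + 1 := fun v =>
    Nat.lt_succ_of_le (Finset.le_sup (Finset.mem_univ v))
  refine ⟨fun v => if P v then rs v else Finset.univ.sup rs + 1 + r v, ?_⟩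
  intro v u h
  by_cases hv : P v
  · simp only [hv, if_true] at h ⊢
    simp only [hP v u hv h, if_true]
    exact hrs v u h
  · simp only [hv, if_false] at h ⊢
    have h1 := hr v u h
    split_ifs with h2
    · have := hM u; omega
    · omega

omit [Fintype W] [DecidableEq W] in
theorem rank_le_of_iter {x : W → Bool} {r : W → ℕ} (hr : ∀ v u, s v (x v) = some u → r u < r v)
    (q : ℕ) : ∀ u w, (par s x)^[q] (some u) = some w → r w ≤ r u := by
  induction q with
  | zero => intro u w h; simp at h; subst h; exact le_rfl
  | succ q ih =>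
    intro u w h
    rw [iterate_succ_apply, par_some] at h
    cases h' : s u (x u) with
    | none => rw [h', iter_none] at h; simp at h
    | some t =>
      rw [h'] at h
      exact (ih t w h).trans (hr u t h').le

/-- `u` lies on the `lab`-circle of `v` (in front of `v`) -/
def SC (s : W → Bool → Option W) (lab : W → Bool) (v u : W) : Prop :=
  ∃ q, (par s lab)^[q] (some v) = some u

omit [Fintype W] [DecidableEq W] in
theorem SC.refl (v : W) : SC s lab v v := ⟨0, rfl⟩

omit [Fintype W] [DecidableEq W] in
theorem SC.trans {u v w : W} (h : SC s lab u v) (h' : SC s lab v w) : SC s lab u w := by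
  obtain ⟨q, hq⟩ := h
  obtain ⟨q', hq'⟩ := h'
  exact ⟨q' + q, by rw [iterate_add_apply, hq, hq']⟩

/-- `v` lies on a circle away from the root -/
def Per (s : W → Bool → Option W) (lab : W → Bool) (v : W) : Prop :=
  ∃ p, 0 < p ∧ (par s lab)^[p] (some v) = some v

omit [Fintype W] [DecidableEq W] in
theorem Per.mul {v : W} {p : ℕ} (h : (par s lab)^[p] (some v) = some v) (k : ℕ) :
    (par s lab)^[k * p] (some v) = some v := by
  induction k with
  | zero => simp
  | succ k ih => rw [Nat.succ_mul, iterate_add_apply, h, ih]

omit [Fintype W] [DecidableEq W] in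
theorem Per.ne_none {v : W} (h : Per s lab v) (n : ℕ) : (par s lab)^[n] (some v) ≠ none := by
  obtain ⟨p, hp, hper⟩ := h
  intro hn
  have h1 := iter_none_of_le lab hn (by nlinarith : n ≤ n * p)
  rw [Per.mul lab hper] at h1
  simp at h1

omit [Fintype W] [DecidableEq W] in
theorem SC.symm {v u : W} (hv : Per s lab v) (h : SC s lab v u) : SC s lab u v := by
  obtain ⟨p, hp, hper⟩ := hv
  obtain ⟨q, hq⟩ := h
  have h1 : q ≤ q * p := Nat.le_mul_of_pos_right _ hp
  refine ⟨q * p - q, ?_⟩
  rw [← hq, ← iterate_add_apply, show q * p - q + q = q * p by omega, Per.mul lab hper]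

omit [Fintype W] [DecidableEq W] in
theorem Per.of_SC {v u : W} (hv : Per s lab v) (h : SC s lab v u) : Per s lab u := by
  obtain ⟨q', hq'⟩ := SC.symm lab hv h
  obtain ⟨p, hp, hper⟩ := hv
  obtain ⟨q, hq⟩ := h
  refine ⟨q + (p + q'), by omega, ?_⟩
  rw [iterate_add_apply, iterate_add_apply, hq', hper, hq]

omit [Fintype W] [DecidableEq W] in
/-- an acyclic state has a lower label on every circle away from the root -/
theorem exists_low {x : W → Bool} (hx : Acyc s x) {v : W} (hv : Per s lab v) :
    ∃ u, SC s lab v u ∧ x u ≠ lab u := by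
  by_contra hcon
  push Not at hcon
  obtain ⟨p, hp, hper⟩ := hv
  have h1 : (par s x)^[p] (some v) = (par s lab)^[p] (some v) := by
    apply iter_lab_of_all
    intro m _ u hu
    exact hcon u ⟨m, hu⟩
  rw [hper] at h1
  obtain ⟨p', rfl⟩ : ∃ p', p = p' + 1 := ⟨p - 1, by omega⟩
  exact hx.iter_ne v p' h1

/-- every vertex is on a circle or on the chain which ends in the root -/
def Circular (s : W → Bool → Option W) (lab : W → Bool) : Prop :=
  ∀ v, (∃ n, (par s lab)^[n] (some v) = none) ∨ Per s lab v

omit [Fintype W] [DecidableEq W] in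
theorem Top.per {x : W → Bool} (hT : Top lab s x) (hc : Circular s lab) {v : W}
    (hv : x v ≠ lab v) : Per s lab v := by
  rcases hc v with ⟨n, hn⟩ | h
  · exact absurd hn (hT.1 v hv n)
  · exact h

omit [Fintype W] [DecidableEq W] in
theorem Top.unique {x : W → Bool} (hT : Top lab s x) (hc : Circular s lab) {v v' : W}
    (hv : x v ≠ lab v) (hv' : x v' ≠ lab v') (h : SC s lab v v') : v = v' :=
  hT.2 v v' hv hv' (Top.per lab hT hc hv) h

/-- a double move: lower the label at `u`, then raise the label at `v` -/
def DM (s : W → Bool → Option W) (lab : W → Bool) (a b : W → Bool) : Prop :=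
  Acyc s a ∧ Acyc s b ∧ ∃ u v, u ≠ v ∧ a u = lab u ∧ a v ≠ lab v ∧ SC s lab u v ∧
    Acyc s (update a u (!lab u)) ∧ b = update (update a u (!lab u)) v (lab v)

/-- top states are joined by double moves through top states -/
theorem top_connected (hc : Circular s lab) {x xs : W → Bool} (hx : Acyc s x) (hxs : Acyc s xs)
    (hT : Top lab s x) (hTs : Top lab s xs) :
    Relation.ReflTransGen (fun a b => Top lab s a ∧ Top lab s b ∧ DM s lab a b) x xs := by
  classical
  obtain ⟨rk, hi, hr⟩ := exists_injective_rank hxs
  let F : (W → Prop) → ℕ := fun p => if h : ∃ u, p u then rk (Classical.choose h) + 1 else 0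
  let K : W → ℕ := fun v => F (fun u => SC s lab v u ∧ xs u ≠ lab u)
  have hKeq : ∀ v v', (∀ u, (SC s lab v u ∧ xs u ≠ lab u) ↔ (SC s lab v' u ∧ xs u ≠ lab u)) →
      K v = K v' := by
    intro v v' h
    have e : (fun u => SC s lab v u ∧ xs u ≠ lab u) = (fun u => SC s lab v' u ∧ xs u ≠ lab u) :=
      funext fun u => propext (h u)
    exact congrArg F e
  have hroot : ∀ v u, (∃ n, (par s lab)^[n] (some v) = none) → SC s lab v u → xs u = lab u := by
    rintro v u ⟨n, hn⟩ ⟨q, hq⟩
    by_contra h
    apply hTs.1 u h n
    rw [← hq, ← iterate_add_apply]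
    exact iter_none_of_le lab hn (by omega)
  -- `K` is constant on circles
  have hK1 : ∀ v v', SC s lab v v' → K v' = K v := by
    intro v v' h
    apply hKeq
    intro u
    constructor
    · rintro ⟨h1, h2⟩; exact ⟨h.trans lab h1, h2⟩
    · rintro ⟨h1, h2⟩
      rcases hc v with h3 | h3
      · exact absurd (hroot v u h3 h1) h2
      · exact ⟨(SC.symm lab h3 h).trans lab h1, h2⟩
  have hKspec : ∀ v u, SC s lab v u → xs u ≠ lab u → K v = rk u + 1 := by
    intro v u h1 h2
    have hex : ∃ u, SC s lab v u ∧ xs u ≠ lab u := ⟨u, h1, h2⟩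
    have h3 := Classical.choose_spec hex
    have hv : Per s lab v := by
      rcases hc v with h | h
      · exact absurd (hroot v u h h1) h2
      · exact h
    have h4 : Classical.choose hex = u :=
      Top.unique lab hTs hc h3.2 h2 ((SC.symm lab hv h3.1).trans lab h1)
    have h5 : K v = rk (Classical.choose hex) + 1 := dif_pos hex
    rw [h5, h4]
  have hK0 : ∀ v, K v ≠ 0 → ∃ u, SC s lab v u ∧ xs u ≠ lab u := by
    intro v h
    by_contra h'
    exact h (dif_neg h')
  have hK3 : ∀ v u, xs v ≠ lab v → s v (xs v) = some u → K u < K v := by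
    intro v u hv hu
    rw [hKspec v v (SC.refl lab v) hv]
    by_cases h0 : K u = 0
    · omega
    · obtain ⟨w, hw1, hw2⟩ := hK0 u h0
      rw [hKspec u w hw1 hw2]
      have hex : ∃ q, (par s lab)^[q] (some u) = some w := hw1
      have hq := Nat.find_spec hex
      have hmin : ∀ q < Nat.find hex, (par s lab)^[q] (some u) ≠ some w := fun q h =>
        Nat.find_min hex h
      have h1 : (par s xs)^[Nat.find hex] (some u) = (par s lab)^[Nat.find hex] (some u) := by
        apply iter_lab_of_all
        intro m hm t ht
        by_contra htl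
        have hPu : Per s lab u := by
          rcases hc u with h | h
          · exact absurd (hroot u w h hw1) hw2
          · exact h
        have : w = t := Top.unique lab hTs hc hw2 htl
          ((SC.symm lab hPu hw1).trans lab ⟨m, ht⟩)
        subst this
        exact hmin m hm ht
      rw [hq] at h1
      have h2 := rank_le_of_iter hr _ u w h1
      have h3 := hr v u hu
      omega
  have hK4 : ∀ v u, s v (xs v) = some u → K u ≤ K v := by
    intro v u hu
    by_cases h : xs v = lab v
    · rw [h] at hu
      exact (hK1 v u ⟨1, by simpa using hu⟩).le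
    · exact (hK3 v u h hu).le
  -- the intermediate states
  let Y : ℕ → W → Bool := fun k v => if K v < k then xs v else x v
  have hY0 : Y 0 = x := by funext v; simp [Y]
  have hYA : ∀ k, Acyc s (Y k) := fun k =>
    hx.mixSet hxs (fun v => K v < k) (fun v u h1 h2 => lt_of_le_of_lt (hK4 v u h2) h1)
  have hYT : ∀ k, Top lab s (Y k) := by
    intro k
    constructor
    · intro v hv
      simp only [Y] at hv
      split_ifs at hv with h
      · exact hTs.1 v hv
      · exact hT.1 v hv
    · intro v v' hv hv' hp hq
      have hKK : K v' = K v := hK1 v v' hq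
      simp only [Y, hKK] at hv hv'
      split_ifs at hv hv' with h
      · exact hTs.2 v v' hv hv' hp hq
      · exact hT.2 v v' hv hv' hp hq
  have step : ∀ k, Relation.ReflTransGen
      (fun a b => Top lab s a ∧ Top lab s b ∧ DM s lab a b) (Y k) (Y (k + 1)) := by
    intro k
    by_cases hk : ∃ c, xs c ≠ lab c ∧ K c = k
    · obtain ⟨cs, hcs, hKcs⟩ := hk
      have hPcs : Per s lab cs := Top.per lab hTs hc hcs
      obtain ⟨c, hc1, hc2⟩ := exists_low lab hx hPcs
      have hKc : K c = k := by rw [hK1 cs c hc1, hKcs]
      -- vertices with `K = k` are on this circle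
      have hcirc : ∀ v, K v = k → SC s lab cs v := by
        intro v hv
        have h0 : K v ≠ 0 := by
          rw [hv, ← hKcs, hKspec cs cs (SC.refl lab cs) hcs]; omega
        obtain ⟨w, hw1, hw2⟩ := hK0 v h0
        have h1 := hKspec v w hw1 hw2
        have h2 := hKspec cs cs (SC.refl lab cs) hcs
        have h3 : w = cs := hi (by omega)
        subst h3
        have hPv : Per s lab v := by
          rcases hc v with h | h
          · exact absurd (hroot v w h hw1) hw2
          · exact h
        exact SC.symm lab hPv hw1
      have hxsv : ∀ v, K v = k → v ≠ cs → xs v = lab v := by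
        intro v hv hne
        by_contra h
        exact hne (Top.unique lab hTs hc hcs h (hcirc v hv)).symm
      have hxv : ∀ v, K v = k → v ≠ c → x v = lab v := by
        intro v hv hne
        by_contra h
        exact hne (Top.unique lab hT hc hc2 h
          ((SC.symm lab hPcs hc1).trans lab (hcirc v hv))).symm
      by_cases hcc : c = cs
      · have e : Y (k + 1) = Y k := by
          funext v
          simp only [Y]
          by_cases hv : K v = k
          · rw [if_pos (by omega), if_neg (by omega)]
            by_cases hvc : v = cs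
            · rw [hcc] at hc2
              rw [hvc]
              revert hc2 hcs
              cases x cs <;> cases xs cs <;> cases lab cs <;> simp
            · rw [hxsv v hv hvc, hxv v hv (by rw [hcc]; exact hvc)]
          · have : K v < k + 1 ↔ K v < k := by omega
            simp only [this]
        rw [e]
      · have hYcs : Y k cs = lab cs := by
          simp only [Y, hKcs, lt_irrefl, if_false]
          exact hxv cs hKcs (Ne.symm hcc)
        have hYc : Y k c ≠ lab c := by
          simp only [Y, hKc, lt_irrefl, if_false]
          exact hc2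
        have hxscs : xs cs = !lab cs := by
          revert hcs; cases xs cs <;> cases lab cs <;> simp
        have hmid : Acyc s (update (Y k) cs (!lab cs)) := by
          apply (hYA k).update
          -- the path stays in `K < k`
          have hstay : ∀ n, ∀ w, (par s (Y k))^[n] (s cs (!lab cs)) = some w → K w < k := by
            intro n
            induction n with
            | zero =>
              intro w hw
              rw [← hxscs] at hw
              have := hK3 cs w hcs hw
              omega
            | succ n ih =>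
              intro w hw
              rw [iterate_succ_apply'] at hw
              cases ht : (par s (Y k))^[n] (s cs (!lab cs)) with
              | none => rw [ht] at hw; simp at hw
              | some t =>
                have h1 := ih t ht
                rw [ht, par_some] at hw
                have h2 : Y k t = xs t := by simp only [Y, h1, if_true]
                rw [h2] at hw
                exact lt_of_le_of_lt (hK4 t w hw) h1
          intro n hn
          have := hstay n cs hn
          omega
        have e : Y (k + 1) = update (update (Y k) cs (!lab cs)) c (lab c) := by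
          funext v
          by_cases hvc : v = c
          · subst hvc
            rw [update_self]
            simp only [Y]
            rw [if_pos (by omega)]
            exact hxsv v hKc hcc
          · rw [update_of_ne hvc]
            by_cases hvcs : v = cs
            · subst hvcs
              rw [update_self]
              simp only [Y]
              rw [if_pos (by omega), hxscs]
            · rw [update_of_ne hvcs]
              simp only [Y]
              by_cases hv : K v = k
              · rw [if_pos (by omega), if_neg (by omega), hxsv v hv hvcs, hxv v hv hvc]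
              · have : K v < k + 1 ↔ K v < k := by omega
                simp only [this]
        refine Relation.ReflTransGen.single ⟨hYT k, hYT (k + 1), hYA k, hYA (k + 1), cs, c,
          Ne.symm hcc, hYcs, hYc, hc1, hmid, e⟩
    · -- no circle has this rank
      have e : Y (k + 1) = Y k := by
        funext v
        simp only [Y]
        by_cases hv : K v = k
        · by_cases h0 : K v = 0
          · have hnp : ¬ Per s lab v := by
              intro hp
              obtain ⟨u, hu1, hu2⟩ := exists_low lab hxs hp
              have := hKspec v u hu1 hu2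
              omega
            have hrt : ∃ n, (par s lab)^[n] (some v) = none := by
              rcases hc v with h | h
              · exact h
              · exact absurd h hnp
            obtain ⟨n, hn⟩ := hrt
            have e1 : xs v = lab v := by
              by_contra h; exact hTs.1 v h n hn
            have e2 : x v = lab v := by
              by_contra h; exact hT.1 v h n hn
            rw [if_pos (by omega), if_neg (by omega), e1, e2]
          · obtain ⟨w, hw1, hw2⟩ := hK0 v h0
            exact absurd ⟨w, hw2, by rw [hK1 v w hw1, hv]⟩ hk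
        · have : K v < k + 1 ↔ K v < k := by omega
          simp only [this]
      rw [e]
  have hall : ∀ k, Relation.ReflTransGen
      (fun a b => Top lab s a ∧ Top lab s b ∧ DM s lab a b) x (Y k) := by
    intro k
    induction k with
    | zero => rw [hY0]
    | succ k ih => exact ih.trans (step k)
  have hfin : Y (Finset.univ.sup K + 1) = xs := by
    funext v
    have : K v < Finset.univ.sup K + 1 := Nat.lt_succ_of_le (Finset.le_sup (Finset.mem_univ v))
    simp only [Y, this, if_true]
  rw [← hfin]
  exact hall _

end TopMoves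

end PoolLib.MP_3cd99b_gt.Oct
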