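import Pool.Agent.Lib.MP_3cd99b_gt.W0

/-!
The slice lemma: planarity of a word of cups, caps and crossings (crossings are walls between the upper and the
lower strand, strands run through).  A gap function has a value for every gap of every slice, a strand function a
value for every strand of every slice.  A weight m on the crossings that is orthogonal to all gap functions is the
difference of a strand function.
-/

namespace LG3P.PL
open LG3

/-- one step of a strand function; index `j + 1` is the strand `j`, index 0 the outside -/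
def StrandStep : Piece → (ℕ → ℚ) → (ℕ → ℚ) → Prop
  | .cross _ _, u, v => v = u
  | .cup k _, u, v => (∀ j, j ≤ k → v j = u j) ∧ v (k + 1) = v (k + 2) ∧ ∀ j, k + 1 ≤ j → v (j + 2) = u j
  | .cap k _, u, v => (∀ j, j ≤ k → u j = v j) ∧ u (k + 1) = u (k + 2) ∧ ∀ j, k + 1 ≤ j → u (j + 2) = v j

/-- strand functions of a word -/
def IsStrand : List Piece → (ℕ → ℕ → ℚ) → Prop
  | [], _ => True
  | p :: w, h => StrandStep p (h 0) (h 1) ∧ IsStrand w fun t => h (t + 1)

/-- the sum over the crossings of `m` times (right gap value - left gap value) -/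
def pair : List Piece → (ℕ → ℚ) → (ℕ → ℕ → ℚ) → ℚ
  | [], _, _ => 0
  | .cross k _ :: w, m, h =>
    m 0 * (h 1 (k + 1) - h 0 (k + 1)) + pair w (fun t => m (t + 1)) fun t => h (t + 1)
  | .cup _ _ :: w, m, h => pair w (fun t => m (t + 1)) fun t => h (t + 1)
  | .cap _ _ :: w, m, h => pair w (fun t => m (t + 1)) fun t => h (t + 1)

/-- the strand function jumps by `m` at the crossings -/
def Jumps : List Piece → (ℕ → ℚ) → (ℕ → ℕ → ℚ) → Prop
  | [], _, _ => True
  | .cross k _ :: w, m, h =>
    h 0 (k + 1) - h 0 (k + 2) = m 0 ∧ Jumps w (fun t => m (t + 1)) fun t => h (t + 1)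
  | .cup _ _ :: w, m, h => Jumps w (fun t => m (t + 1)) fun t => h (t + 1)
  | .cap _ _ :: w, m, h => Jumps w (fun t => m (t + 1)) fun t => h (t + 1)

/-- sequences with a new first term -/
def cns (u : ℕ → ℚ) (h : ℕ → ℕ → ℚ) : ℕ → ℕ → ℚ
  | 0 => u
  | t + 1 => h t

@[simp] theorem cns_zero (u : ℕ → ℚ) (h : ℕ → ℕ → ℚ) : cns u h 0 = u := rfl
@[simp] theorem cns_succ (u : ℕ → ℚ) (h : ℕ → ℕ → ℚ) (t : ℕ) : cns u h (t + 1) = h t := rfl
@[simp] theorem cns_one (u : ℕ → ℚ) (h : ℕ → ℕ → ℚ) : cns u h 1 = h 0 := rfl

theorem GapStep.add {p : Piece} {u v u' v' : ℕ → ℚ} (h : GapStep p u v) (h' : GapStep p u' v') :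
    GapStep p (u + u') (v + v') := by
  cases p with
  | cross k s => exact fun g hg => by simp [h g hg, h' g hg]
  | cup k f =>
    obtain ⟨a, b⟩ := h
    obtain ⟨a', b'⟩ := h'
    exact ⟨fun g hg => by simp [a g hg, a' g hg], fun g hg => by simp [b g hg, b' g hg]⟩
  | cap k f =>
    obtain ⟨a, b⟩ := h
    obtain ⟨a', b'⟩ := h'
    exact ⟨fun g hg => by simp [a g hg, a' g hg], fun g hg => by simp [b g hg, b' g hg]⟩

theorem GapStep.smul {p : Piece} {u v : ℕ → ℚ} (c : ℚ) (h : GapStep p u v) :
    GapStep p (c • u) (c • v) := by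
  cases p with
  | cross k s => exact fun g hg => by simp [h g hg]
  | cup k f =>
    obtain ⟨a, b⟩ := h
    exact ⟨fun g hg => by simp [a g hg], fun g hg => by simp [b g hg]⟩
  | cap k f =>
    obtain ⟨a, b⟩ := h
    exact ⟨fun g hg => by simp [a g hg], fun g hg => by simp [b g hg]⟩

theorem IsGap.add : ∀ {w : List Piece} {h h' : ℕ → ℕ → ℚ}, IsGap w h → IsGap w h' → IsGap w (h + h')
  | [], _, _, _, _ => trivial
  | _ :: _, _, _, ⟨a, b⟩, ⟨a', b'⟩ => ⟨a.add a', b.add b'⟩

theorem IsGap.smul : ∀ {w : List Piece} {h : ℕ → ℕ → ℚ} (c : ℚ), IsGap w h → IsGap w (c • h)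
  | [], _, _, _ => trivial
  | _ :: _, _, c, ⟨a, b⟩ => ⟨a.smul c, b.smul c⟩

theorem pair_add : ∀ (w : List Piece) (m : ℕ → ℚ) (h h' : ℕ → ℕ → ℚ), pair w m (h + h') = pair w m h + pair w m h'
  | [], _, _, _ => by simp [pair]
  | .cross k s :: w, m, h, h' => by
    have := pair_add w (fun t => m (t + 1)) (fun t => h (t + 1)) (fun t => h' (t + 1))
    simp only [pair, Pi.add_apply]
    have e : (fun t => h (t + 1) + h' (t + 1)) = (fun t => h (t + 1)) + fun t => h' (t + 1) := rfl
    rw [e, this]; ring
  | .cup k s :: w, m, h, h' => pair_add w (fun t => m (t + 1)) (fun t => h (t + 1)) (fun t => h' (t + 1))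
  | .cap k s :: w, m, h, h' => pair_add w (fun t => m (t + 1)) (fun t => h (t + 1)) (fun t => h' (t + 1))

theorem pair_smul : ∀ (w : List Piece) (m : ℕ → ℚ) (c : ℚ) (h : ℕ → ℕ → ℚ), pair w m (c • h) = c * pair w m h
  | [], _, _, _ => by simp [pair]
  | .cross k s :: w, m, c, h => by
    have := pair_smul w (fun t => m (t + 1)) c (fun t => h (t + 1))
    simp only [pair, Pi.smul_apply, smul_eq_mul]
    have e : (fun t => c • h (t + 1)) = c • fun t => h (t + 1) := rfl
    rw [e, this]; ring
  | .cup k s :: w, m, c, h => pair_smul w (fun t => m (t + 1)) c (fun t => h (t + 1))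
  | .cap k s :: w, m, c, h => pair_smul w (fun t => m (t + 1)) c (fun t => h (t + 1))

/-- a functional that vanishes where another one vanishes is a multiple of it -/
theorem exists_mul {V : Type*} [AddCommGroup V] [Module ℚ V] (P : V → Prop)
    (hadd : ∀ x y, P x → P y → P (x + y)) (hsmul : ∀ (c : ℚ) x, P x → P (c • x))
    (f g : V → ℚ) (fadd : ∀ x y, f (x + y) = f x + f y) (fsmul : ∀ (c : ℚ) x, f (c • x) = c * f x)
    (gadd : ∀ x y, g (x + y) = g x + g y) (gsmul : ∀ (c : ℚ) x, g (c • x) = c * g x)
    (hfg : ∀ x, P x → g x = 0 → f x = 0) : ∃ c : ℚ, ∀ x, P x → f x = c * g x := by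
  by_cases h : ∃ x, P x ∧ g x ≠ 0
  · obtain ⟨x0, hx0, hg⟩ := h
    refine ⟨f x0 / g x0, fun x hx => ?_⟩
    have h1 : P (x + (-(g x / g x0)) • x0) := hadd _ _ hx (hsmul _ _ hx0)
    have h2 : g (x + (-(g x / g x0)) • x0) = 0 := by
      rw [gadd, gsmul]; field_simp; ring
    have h3 := hfg _ h1 h2
    rw [fadd, fsmul] at h3
    field_simp at h3 ⊢
    linarith
  · push Not at h
    exact ⟨0, fun x hx => by rw [hfg x hx (h x hx)]; ring⟩

/-- unit sequence -/
def eu (g : ℕ) : ℕ → ℚ := fun i => if i = g then 1 else 0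

/-- the shift of sequences below a cup at `k` (new gaps `k + 1`, `k + 2`) -/
def rr (k : ℕ) (g : ℕ) : ℕ := if g ≤ k then g else g + 2

/-- the inverse shift -/
def ss (k : ℕ) (g : ℕ) : ℕ := if g ≤ k then g else g - 2

/-- the value at the new gap is set to 0 -/
def insY (k : ℕ) (y : ℚ) (v : ℕ → ℚ) : ℕ → ℚ := fun g => if g = k + 1 then y else v (ss k g)

theorem slice : ∀ (w : List Piece) (m : ℕ → ℚ) (L M : (ℕ → ℚ) →ₗ[ℚ] ℚ) (θ : ℚ),
    (∀ h, IsGap w h → L (h 0) + pair w m h - M (h w.length) = 0) →
    ∃ φ : ℕ → ℕ → ℚ, IsStrand w φ ∧ Jumps w m φ ∧ φ 0 0 = θ ∧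
      (∀ g, L (eu g) = φ 0 g - φ 0 (g + 1)) ∧
      (∀ g, M (eu g) = φ w.length g - φ w.length (g + 1))
  | [], m, L, M, θ, H => by
    have h1 : ∀ u : ℕ → ℚ, L u = M u := fun u => by
      have := H (fun _ => u) trivial
      simp only [pair, add_zero] at this
      linarith
    refine ⟨fun _ g => θ - ∑ i ∈ Finset.range g, L (eu i), trivial, trivial, by simp, fun g => ?_, fun g => ?_⟩
    · simp only [Finset.sum_range_succ]; ring
    · simp only [Finset.sum_range_succ, ← h1]; ring
  | .cross k s :: w, m, L, M, θ, H => by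
    have h2 : ∀ h, IsGap w h → L (h 0) + pair w (fun t => m (t + 1)) h - M (h w.length) = 0 := fun h hh => by
      have := H (cns (h 0) h) ⟨fun g _ => rfl, hh⟩
      simp only [pair, cns_zero, cns_succ, sub_self, mul_zero, zero_add, List.length_cons] at this
      exact this
    obtain ⟨φ, a1, a2, a3, a4, a5⟩ := slice w (fun t => m (t + 1)) L M θ h2
    have h3 : L (eu (k + 1)) = m 0 := by
      have h4 := H (cns (eu (k + 1)) fun _ => 0) ⟨fun g hg => by simp [eu, hg], by
        have : ∀ w : List Piece, IsGap w fun _ => 0 := by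
          intro w
          induction w with
          | nil => trivial
          | cons p w ih =>
            refine ⟨?_, ih⟩
            cases p with
            | cross k s => exact fun _ _ => rfl
            | cup k s => exact ⟨fun _ _ => rfl, fun _ _ => rfl⟩
            | cap k s => exact ⟨fun _ _ => rfl, fun _ _ => rfl⟩
        exact this w⟩
      have h5 : pair w (fun t => m (t + 1)) (fun _ => 0) = 0 := by
        have := pair_smul w (fun t => m (t + 1)) 0 (fun _ => 0)
        have e : ((0 : ℚ) • (fun _ => 0 : ℕ → ℕ → ℚ)) = fun _ => 0 := by funext a b; simp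
        rw [e] at this; rw [this]; ring
      simp only [pair, cns_zero, cns_succ, List.length_cons] at h4
      rw [h5] at h4
      have h6 : eu (k + 1) (k + 1) = 1 := by simp [eu]
      rw [h6] at h4
      simp only [Pi.zero_apply, map_zero] at h4
      linarith
    refine ⟨cns (φ 0) φ, ⟨rfl, a1⟩, ⟨?_, a2⟩, a3, a4, a5⟩
    simp only [cns_zero]
    rw [← h3, a4]
  | .cup k f :: w, m, L, M, θ, H => by
    -- the functional of the rest of the word
    have hr : ∃ c : ℚ, ∀ h : ℕ → ℕ → ℚ, IsGap w h →
        (L fun g => h 0 (rr k g)) + pair w (fun t => m (t + 1)) h - M (h w.length) = c * (h 0 k - h 0 (k + 2)) := by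
      refine exists_mul (V := ℕ → ℕ → ℚ) (IsGap w) (fun x y hx hy => hx.add hy) (fun c x hx => hx.smul c)
        (fun h => (L fun g => h 0 (rr k g)) + pair w (fun t => m (t + 1)) h - M (h w.length))
        (fun h => h 0 k - h 0 (k + 2)) ?_ ?_ ?_ ?_ ?_
      · intro x y
        simp only [pair_add, Pi.add_apply]
        have e1 : (fun g => x 0 (rr k g) + y 0 (rr k g)) = (fun g => x 0 (rr k g)) + fun g => y 0 (rr k g) := rfl
        rw [e1, map_add, map_add]; ring
      · intro c x
        simp only [pair_smul, Pi.smul_apply, smul_eq_mul]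
        have e1 : (fun g => c * x 0 (rr k g)) = c • fun g => x 0 (rr k g) := rfl
        rw [e1, map_smul, map_smul, smul_eq_mul, smul_eq_mul]; ring
      · intro x y; simp only [Pi.add_apply]; ring
      · intro c x; simp only [Pi.smul_apply, smul_eq_mul]; ring
      · intro h hh h0
        have := H (cns (fun g => h 0 (rr k g)) h) ⟨⟨fun g hg => by simp [rr, hg], fun g hg => by
          by_cases e : g ≤ k
          · have : g = k := le_antisymm e hg
            subst this
            simp only [cns_zero, cns_one, rr, le_refl, if_true]; linarith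
          · simp [rr, e]⟩, hh⟩
        simp only [pair, cns_zero, cns_succ, List.length_cons] at this
        exact this
    obtain ⟨c, hc⟩ := hr
    let R : (ℕ → ℚ) →ₗ[ℚ] (ℕ → ℚ) :=
      { toFun := fun u g => u (rr k g), map_add' := fun _ _ => rfl, map_smul' := fun _ _ => rfl }
    let P : ℕ → (ℕ → ℚ) →ₗ[ℚ] ℚ := fun g => LinearMap.proj g
    obtain ⟨φ, a1, a2, a3, a4, a5⟩ := slice w (fun t => m (t + 1)) (L ∘ₗ R - c • (P k - P (k + 2))) M θ (by
      intro h hh
      have h1 := hc h hh
      have h2 : (L ∘ₗ R - c • (P k - P (k + 2))) (h 0) = (L fun g => h 0 (rr k g)) - c * (h 0 k - h 0 (k + 2)) := rfl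
      rw [h2]; linarith)
    have a4' : ∀ g, (L fun i => eu g (rr k i)) - c * (eu g k - eu g (k + 2)) = φ 0 g - φ 0 (g + 1) := fun g => a4 g
    have e1 : φ 0 (k + 1) = φ 0 (k + 2) := by
      have h1 := a4' (k + 1)
      have h2 : (fun i => eu (k + 1) (rr k i)) = 0 := by
        funext i; simp only [eu, rr, Pi.zero_apply]
        split_ifs <;> first | rfl | omega
      rw [h2, map_zero] at h1
      simp only [eu] at h1
      norm_num at h1
      linarith
    have e2 : ∀ g, g < k → L (eu g) = φ 0 g - φ 0 (g + 1) := fun g hg => by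
      have h1 := a4' g
      have h2 : (fun i => eu g (rr k i)) = eu g := by
        funext i; simp only [eu, rr]
        split_ifs <;> first | rfl | omega
      have h3 : eu g k = 0 := by simp only [eu]; rw [if_neg (by omega)]
      have h4 : eu g (k + 2) = 0 := by simp only [eu]; rw [if_neg (by omega)]
      rw [h2, h3, h4] at h1
      linarith
    have e3 : L (eu k) = φ 0 k - φ 0 (k + 3) := by
      have h1 := a4' k
      have h1' := a4' (k + 2)
      have h2 : (fun i => eu k (rr k i)) = eu k := by
        funext i; simp only [eu, rr]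
        split_ifs <;> first | rfl | omega
      have h2' : (fun i => eu (k + 2) (rr k i)) = 0 := by
        funext i; simp only [eu, rr, Pi.zero_apply]
        split_ifs <;> first | rfl | omega
      have h3 : eu k k = 1 := by simp [eu]
      have h4 : eu k (k + 2) = 0 := by simp only [eu]; rw [if_neg (by omega)]
      have h3' : eu (k + 2) k = 0 := by simp only [eu]; rw [if_neg (by omega)]
      have h4' : eu (k + 2) (k + 2) = 1 := by simp [eu]
      rw [h2, h3, h4] at h1
      rw [h2', h3', h4', map_zero] at h1'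
      have h5 : φ 0 (k + 2 + 1) = φ 0 (k + 3) := rfl
      rw [h5] at h1'
      linarith
    have e4 : ∀ g, k < g → L (eu g) = φ 0 (g + 2) - φ 0 (g + 3) := fun g hg => by
      have h1 := a4' (g + 2)
      have h2 : (fun i => eu (g + 2) (rr k i)) = eu g := by
        funext i; simp only [eu, rr]
        split_ifs <;> first | rfl | omega
      have h3 : eu (g + 2) k = 0 := by simp only [eu]; rw [if_neg (by omega)]
      have h4 : eu (g + 2) (k + 2) = 0 := by simp only [eu]; rw [if_neg (by omega)]
      rw [h2, h3, h4] at h1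
      have h5 : φ 0 (g + 2 + 1) = φ 0 (g + 3) := rfl
      rw [h5] at h1
      linarith
    refine ⟨cns (fun j => φ 0 (rr k j)) φ, ⟨⟨fun j hj => by simp [rr, hj], e1, fun j hj => ?_⟩, a1⟩, a2, ?_, ?_, a5⟩
    · have : ¬ j ≤ k := by omega
      simp [rr, this]
    · simp only [cns_zero, rr, zero_le, if_true]; exact a3
    · intro g
      simp only [cns_zero, rr]
      rcases lt_trichotomy g k with hg | hg | hg
      · rw [if_pos (by omega), if_pos (by omega)]; exact e2 g hg
      · subst hg
        rw [if_pos (by omega), if_neg (by omega)]; exact e3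
      · rw [if_neg (by omega), if_neg (by omega)]; exact e4 g hg
  | .cap k f :: w, m, L, M, θ, H => by
    have h0 : ∀ w : List Piece, IsGap w fun _ => 0 := by
      intro w
      induction w with
      | nil => trivial
      | cons p w ih =>
        refine ⟨?_, ih⟩
        cases p with
        | cross k s => exact fun _ _ => rfl
        | cup k s => exact ⟨fun _ _ => rfl, fun _ _ => rfl⟩
        | cap k s => exact ⟨fun _ _ => rfl, fun _ _ => rfl⟩
    have hL : L (eu (k + 1)) = 0 := by
      have h4 := H (cns (eu (k + 1)) fun _ => 0) ⟨⟨fun g hg => by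
        simp only [cns_zero, cns_one, eu, Pi.zero_apply]; rw [if_neg (by omega)], fun g hg => by
        simp only [cns_zero, cns_one, eu, Pi.zero_apply]; rw [if_neg (by omega)]⟩, h0 w⟩
      have h5 : pair w (fun t => m (t + 1)) (fun _ => 0) = 0 := by
        have := pair_smul w (fun t => m (t + 1)) 0 (fun _ => 0)
        have e : ((0 : ℚ) • (fun _ => 0 : ℕ → ℕ → ℚ)) = fun _ => 0 := by funext a b; simp
        rw [e] at this; rw [this]; ring
      simp only [pair, cns_zero, cns_succ, List.length_cons] at h4
      rw [h5] at h4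
      simp only [map_zero] at h4
      linarith
    let R : (ℕ → ℚ) →ₗ[ℚ] (ℕ → ℚ) :=
      { toFun := insY k 0
        map_add' := fun x y => by funext g; simp only [insY, Pi.add_apply]; split_ifs <;> simp
        map_smul' := fun c x => by
          funext g; simp only [insY, Pi.smul_apply, smul_eq_mul, RingHom.id_apply]; split_ifs <;> simp }
    obtain ⟨φ, a1, a2, a3, a4, a5⟩ := slice w (fun t => m (t + 1)) (L ∘ₗ R) M θ (by
      intro h hh
      have := H (cns (insY k 0 (h 0)) h) ⟨⟨fun g hg => by
        simp only [cns_zero, cns_one, insY, ss]; rw [if_neg (by omega), if_pos hg], fun g hg => by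
        simp only [cns_zero, cns_one, insY, ss]; rw [if_neg (by omega), if_neg (by omega)]; rfl⟩, hh⟩
      simp only [pair, cns_zero, cns_succ, List.length_cons] at this
      exact this)
    have a4' : ∀ g, L (insY k 0 (eu g)) = φ 0 g - φ 0 (g + 1) := fun g => a4 g
    have e2 : ∀ g, g < k → L (eu g) = φ 0 g - φ 0 (g + 1) := fun g hg => by
      rw [← a4' g]
      by_cases e : g + 1 = k
      · have h1 : insY k 0 (eu g) = eu g := by
          funext i; simp only [insY, eu, ss]
          split_ifs <;> first | rfl | omega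
        rw [h1]
      · have h1 : insY k 0 (eu g) = eu g := by
          funext i; simp only [insY, eu, ss]
          split_ifs <;> first | rfl | omega
        rw [h1]
    have e3 : L (eu k) + L (eu (k + 2)) = φ 0 k - φ 0 (k + 1) := by
      rw [← a4' k, ← map_add]
      congr 1
      funext i; simp only [insY, eu, ss, Pi.add_apply]
      split_ifs <;> first | (exfalso; omega) | norm_num
    have e4 : ∀ g, k < g → L (eu (g + 2)) = φ 0 g - φ 0 (g + 1) := fun g hg => by
      rw [← a4' g]
      congr 1
      funext i; simp only [insY, eu, ss]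
      split_ifs <;> first | rfl | omega
    refine ⟨cns (fun j => if j ≤ k then φ 0 j else if j ≤ k + 2 then φ 0 k - L (eu k) else φ 0 (j - 2)) φ,
      ⟨⟨fun j hj => by simp [hj], ?_, fun j hj => ?_⟩, a1⟩, a2, ?_, ?_, a5⟩
    · have h5 : ¬ k + 1 ≤ k := by omega
      have h6 : ¬ k + 2 ≤ k := by omega
      have h7 : k + 1 ≤ k + 2 := by omega
      simp only [cns_zero, h5, h6, h7, if_false, le_refl, if_true]
    · simp only [cns_zero, cns_one]
      rw [if_neg (by omega), if_neg (by omega)]; rfl
    · simp only [cns_zero, zero_le, if_true]; exact a3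
    · intro g
      simp only [cns_zero]
      by_cases g1 : g < k
      · rw [if_pos (by omega), if_pos (by omega)]; exact e2 g g1
      by_cases g2 : g = k
      · subst g2
        rw [if_pos (by omega), if_neg (by omega), if_pos (by omega)]; ring
      by_cases g3 : g = k + 1
      · subst g3
        rw [if_neg (by omega), if_pos (by omega), if_neg (by omega), if_pos (by omega), hL]; ring
      by_cases g4 : g = k + 2
      · subst g4
        rw [if_neg (by omega), if_pos (by omega), if_neg (by omega), if_neg (by omega)]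
        have h5 : k + 2 + 1 - 2 = k + 1 := by omega
        rw [h5]; linarith
      · obtain ⟨j, rfl⟩ : ∃ j, g = j + 2 := ⟨g - 2, by omega⟩
        rw [if_neg (by omega), if_neg (by omega), if_neg (by omega), if_neg (by omega)]
        have h5 : j + 2 + 1 - 2 = j + 1 := by omega
        have h6 : j + 2 - 2 = j := by omega
        rw [h5, h6]; exact e4 j (by omega)

end LG3P.PL
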