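import Pool.Agent.Lib.MP_3cd99b_gt.Gr

/-!
From weights to face potentials: if every weight that is orthogonal to the face functions is the difference of a
function on the vertices (planarity), then a strongly connected orientation has a potential on the faces which drops
from the left to the right of every edge.

The faces are the orbits of the corners (c, b) -> (σ b c, !b).
-/

namespace LG3P.PL

open LG3P.Gr

variable {E V : Type*}

/-- weights orthogonal to all functions on the faces -/
def Balanced [Fintype E] (σ : Bool → Equiv.Perm E) (m : E → ℚ) : Prop :=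
  ∀ f : E × Bool → ℚ, (∀ c b, f (σ b c, !b) = f (c, b)) → ∑ c, m c * (f (c, true) - f (c, false)) = 0

/-- planarity: balanced weights are differences -/
def Planar [Fintype E] (σ : Bool → Equiv.Perm E) (lf rt : E → V) : Prop :=
  ∀ m : E → ℚ, Balanced σ m → ∃ ψ : V → ℚ, ∀ c, ψ (rt c) - ψ (lf c) = m c

/-- corners of the same face -/
def faceRel (σ : Bool → Equiv.Perm E) (x y : E × Bool) : Prop := y = (σ x.2 x.1, !x.2)

/-- the faces -/
abbrev Face (σ : Bool → Equiv.Perm E) := Quot (faceRel σ)

/-- the face of a corner -/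
def face (σ : Bool → Equiv.Perm E) (x : E × Bool) : Face σ := Quot.mk _ x

theorem face_next (σ : Bool → Equiv.Perm E) (c : E) (b : Bool) : face σ (σ b c, !b) = face σ (c, b) :=
  (Quot.sound (show faceRel σ (c, b) (σ b c, !b) from rfl)).symm

/-- crossing an edge from the left to the right -/
def Drop (σ : Bool → Equiv.Perm E) (O : E → Bool) (x y : Face σ) : Prop :=
  ∃ c, x = face σ (c, !O c) ∧ y = face σ (c, O c)

theorem exists_weight [Fintype E] [DecidableEq E] (σ : Bool → Equiv.Perm E) (O : E → Bool) {x y : Face σ}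
    (h : Relation.TransGen (Drop σ O) x y) :
    ∃ m : E → ℚ, (∀ c, 0 ≤ m c) ∧ (∃ c, 0 < m c) ∧
      ∀ f : Face σ → ℚ, ∑ c, m c * (f (face σ (c, !O c)) - f (face σ (c, O c))) = f x - f y := by
  induction h with
  | single h =>
    obtain ⟨c, rfl, rfl⟩ := h
    refine ⟨fun e => if e = c then 1 else 0, fun e => by dsimp only; split_ifs <;> norm_num,
      ⟨c, by simp⟩, fun f => ?_⟩
    simp [ite_mul]
  | tail _ h ih =>
    obtain ⟨m, h1, h2, h3⟩ := ih
    obtain ⟨c, rfl, rfl⟩ := h
    refine ⟨fun e => m e + if e = c then 1 else 0, fun e => ?_, ?_, fun f => ?_⟩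
    · have := h1 e
      dsimp only; split_ifs <;> linarith
    · obtain ⟨e, he⟩ := h2
      refine ⟨e, ?_⟩
      dsimp only; split_ifs <;> linarith
    · simp only [add_mul, Finset.sum_add_distrib, h3 f, ite_mul, one_mul, zero_mul, Finset.sum_ite_eq',
        Finset.mem_univ, if_true]
      ring

theorem face_potential [Fintype E] (σ : Bool → Equiv.Perm E) (lf rt : E → V) (O : E → Bool)
    (hO : Strong lf rt O) (hpl : Planar σ lf rt) :
    ∃ h : E × Bool → ℤ, (∀ c b, h (σ b c, !b) = h (c, b)) ∧ ∀ c, h (c, O c) < h (c, !O c) := by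
  classical
  have hac : ∀ x : Face σ, ¬ Relation.TransGen (Drop σ O) x x := by
    intro x hx
    obtain ⟨m, h1, ⟨c0, h2⟩, h3⟩ := exists_weight σ O hx
    obtain ⟨ψ, hψ⟩ := hpl (fun c => if O c then - m c else m c) (by
      intro f hf
      have h4 : ∀ a b, faceRel σ a b → f a = f b := by
        rintro ⟨c, b⟩ y rfl
        exact (hf c b).symm
      have h5 := h3 (Quot.lift f h4)
      rw [sub_self] at h5
      rw [← h5]
      refine Finset.sum_congr rfl fun c _ => ?_
      cases hc : O c
      · simp only [hc, Bool.false_eq_true, if_false, Bool.not_false, face]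
      · simp only [hc, if_true, Bool.not_true, face]; ring)
    have h6 : ∀ c, ψ (hd lf rt O c) - ψ (tl lf rt O c) = - m c := by
      intro c
      have := hψ c
      unfold hd tl
      cases hc : O c <;> simp only [hc, if_true, if_false, Bool.false_eq_true] at this ⊢ <;> linarith
    obtain ⟨e, he1, he2⟩ := hO {v | ψ v ≤ ψ (hd lf rt O c0)}
        ⟨hd lf rt O c0, le_refl (ψ (hd lf rt O c0))⟩ (fun h => by
      have h7 : tl lf rt O c0 ∈ {v | ψ v ≤ ψ (hd lf rt O c0)} := by rw [h]; trivial
      have h8 := h6 c0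
      have h7' : ψ (tl lf rt O c0) ≤ ψ (hd lf rt O c0) := h7
      linarith)
    have h9 := h6 e
    have h10 := h1 e
    have he1' : ψ (tl lf rt O e) ≤ ψ (hd lf rt O c0) := he1
    have he2' : ¬ ψ (hd lf rt O e) ≤ ψ (hd lf rt O c0) := he2
    linarith
  have hfin : Finite (Face σ) := Quot.finite _
  have hh : ∃ h : Face σ → ℤ, ∀ x y, Drop σ O x y → h y < h x := by
    refine ⟨fun x => (Set.ncard {z | Relation.TransGen (Drop σ O) x z} : ℤ), fun x y hxy => ?_⟩
    have h1 : {z | Relation.TransGen (Drop σ O) y z} ⊂ {z | Relation.TransGen (Drop σ O) x z} :=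
      ⟨fun z hz => Relation.TransGen.head hxy hz, fun h => hac y (h (Relation.TransGen.single hxy))⟩
    have h2 := Set.ncard_lt_ncard h1 (Set.toFinite _)
    dsimp only
    exact_mod_cast h2
  obtain ⟨h, hh⟩ := hh
  refine ⟨fun z => h (face σ z), fun c b => ?_, fun c => hh _ _ ⟨c, rfl, rfl⟩⟩
  dsimp only
  rw [face_next]

end LG3P.PL
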