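import Pool.Agent.Lib.MP_3cd99b_gt.PL2
import Pool.Agent.Lib.MP_3cd99b_gt.PL3

/-!
Planarity of a set of crossings of one parity of a word, from the invariance of strand functions along the circles.
-/

namespace LG3P.PL
open LG3 LG3P.Gr

/-- the crossings of parity `q` -/
def CrossPar (w : List Piece) (q : ℕ) (t : ℕ) : Prop := ∃ k s, w[t]? = some (.cross k s) ∧ k % 2 = q % 2

theorem pair_eq_sum_type {E : Type*} [Fintype E] (w : List Piece) (pos k : E → ℕ) (hinj : Function.Injective pos)
    (hpos : ∀ c, ∃ s, w[pos c]? = some (.cross (k c) s)) (m : E → ℚ) (mt : ℕ → ℚ) (hm : ∀ c, mt (pos c) = m c)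
    (hm0 : ∀ t, (∀ c, pos c ≠ t) → mt t = 0) (h : ℕ → ℕ → ℚ) :
    pair w mt h = ∑ c, m c * (h (pos c + 1) (k c + 1) - h (pos c) (k c + 1)) := by
  classical
  rw [pair_eq_sum]
  have h1 : ∀ c, term w mt h (pos c) = m c * (h (pos c + 1) (k c + 1) - h (pos c) (k c + 1)) := by
    intro c
    obtain ⟨s, hs⟩ := hpos c
    unfold term
    rw [hs, ← hm c]
  have h2 : ∑ c, m c * (h (pos c + 1) (k c + 1) - h (pos c) (k c + 1)) =
      ∑ t ∈ Finset.univ.map ⟨pos, hinj⟩, term w mt h t := by
    rw [Finset.sum_map]
    exact Finset.sum_congr rfl fun c _ => (h1 c).symm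
  rw [h2]
  symm
  apply Finset.sum_subset
  · intro t ht
    simp only [Finset.mem_map, Finset.mem_univ, true_and, Function.Embedding.coeFn_mk] at ht
    obtain ⟨c, rfl⟩ := ht
    obtain ⟨s, hs⟩ := hpos c
    rw [Finset.mem_range]
    by_contra hh
    rw [List.getElem?_eq_none (by omega)] at hs
    exact absurd hs (by simp)
  · intro t _ ht
    have h3 : ∀ c, pos c ≠ t := fun c hc => ht (by
      simp only [Finset.mem_map, Finset.mem_univ, true_and, Function.Embedding.coeFn_mk]
      exact ⟨c, hc⟩)
    unfold term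
    rw [hm0 t h3]
    split <;> simp

/-- planarity of a class of crossings of one parity, from the invariance of strand functions. The circles of type `fw`
are followed forward, the circles of the other type backward; `ub` is the type of the upper strand of the crossings -/
theorem planar_word {E V : Type*} [Fintype E] (w : List Piece) (q : ℕ) (pos k : E → ℕ)
    (hinj : Function.Injective pos) (hpos : ∀ c, ∃ s, w[pos c]? = some (.cross (k c) s))
    (hk : ∀ c, k c % 2 = q % 2) (σ : Bool → Equiv.Perm E) (ub fw : Bool) (j : E → Bool → ℕ)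
    (hj : ∀ c, j c ub = k c ∧ j c (!ub) = k c + 1)
    (W0 : ∀ φ : ℕ → ℕ → ℚ, StrandFn w (CrossPar w q) φ → φ w.length 0 = φ 0 0 → ∀ c,
      φ (pos c + 1) (j c fw) = φ (pos (σ fw c)) (j (σ fw c) fw) ∧
        φ (pos c) (j c (!fw)) = φ (pos (σ (!fw) c) + 1) (j (σ (!fw) c) (!fw)))
    (circ : E → Bool → V) (orb : ∀ c c' b, circ c b = circ c' b → (σ b).SameCycle c c')
    (ne : ∀ c c', circ c true ≠ circ c' false) :
    Planar σ (fun c => circ c false) (fun c => circ c true) := by
  classical
  intro m hm
  -- the weight on the letters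
  let mt : ℕ → ℚ := fun t => if h : ∃ c, pos c = t then m h.choose else 0
  have hmt : ∀ c, mt (pos c) = m c := by
    intro c
    have h : ∃ c', pos c' = pos c := ⟨c, rfl⟩
    simp only [mt, dif_pos h]
    rw [hinj h.choose_spec]
  have hmt0 : ∀ t, (∀ c, pos c ≠ t) → mt t = 0 := by
    intro t ht
    have h : ¬ ∃ c, pos c = t := fun ⟨c, hc⟩ => ht c hc
    simp only [mt, dif_neg h]
  -- values of `j`
  have hjc : ∀ c b, j c b = k c ∨ j c b = k c + 1 := by
    intro c b
    obtain ⟨h1, h2⟩ := hj c
    by_cases hb : b = ub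
    · subst hb; exact Or.inl h1
    · have : b = !ub := by revert hb; cases b <;> cases ub <;> decide
      subst this; exact Or.inr h2
  have hside : ∀ c b, sideGap q (j c b) = k c + 1 := by
    intro c b
    have := hk c
    unfold sideGap
    rcases hjc c b with h | h <;> rw [h]
    · rw [if_pos this]
    · rw [if_neg (by omega)]
  obtain ⟨φ, h1, h2, h3⟩ := slice_closed w mt (by
    intro h hh h0 h1
    rw [pair_eq_sum_type w pos k hinj hpos m mt hmt hmt0]
    have hs := hh.strandFn q (CrossPar w q) (fun t k s e e' => ⟨k, s, e, e'⟩)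
    have hcl : h w.length (sideGap q 0) = h 0 (sideGap q 0) := by
      unfold sideGap; split_ifs
      · exact h1.symm
      · exact h0.symm
    have hW := W0 _ hs hcl
    have := hm (fun z => if z.2 = fw then h (pos z.1 + 1) (k z.1 + 1) else h (pos z.1) (k z.1 + 1)) (by
      intro c b
      obtain ⟨e1, e2⟩ := hW c
      rw [hside, hside] at e1 e2
      cases fw <;> cases b
      · simpa using e1.symm
      · simpa using e2.symm
      · simpa using e2.symm
      · simpa using e1.symm)
    cases fw
    · have h6 : ∑ c, m c * (h (pos c + 1) (k c + 1) - h (pos c) (k c + 1)) =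
          - ∑ c, m c * (h (pos c) (k c + 1) - h (pos c + 1) (k c + 1)) := by
        rw [← Finset.sum_neg_distrib]
        exact Finset.sum_congr rfl fun c _ => by ring
      rw [h6, neg_eq_zero]
      simpa using this
    · simpa using this)
  have hW := W0 _ (h1.strandFn (CrossPar w q)) (h3 1)
  -- no jump at the crossings
  have hnj : ∀ c b, φ (pos c + 1) (j c b + 1) = φ (pos c) (j c b + 1) := by
    intro c b
    obtain ⟨s, hs⟩ := hpos c
    have h4 := (isStrand_iff w φ).mp h1 _ _ hs
    have h5 : φ (pos c + 1) = φ (pos c) := h4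
    rw [h5]
  -- the value on the circle
  let val : E → Bool → ℚ := fun c b => φ (pos c) (j c b + 1)
  have hval : ∀ c b, val (σ b c) b = val c b := by
    intro c b
    obtain ⟨e1, e2⟩ := hW c
    by_cases hb : b = fw
    · subst hb
      show φ (pos (σ b c)) (j (σ b c) b + 1) = φ (pos c) (j c b + 1)
      rw [← hnj c]; exact e1.symm
    · have hb' : b = !fw := by revert hb; cases b <;> cases fw <;> decide
      subst hb'
      show φ (pos (σ (!fw) c)) (j (σ (!fw) c) (!fw) + 1) = φ (pos c) (j c (!fw) + 1)
      rw [← hnj (σ (!fw) c)]; exact e2.symm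
  have hsame : ∀ b c c', (σ b).SameCycle c c' → val c b = val c' b := by
    rintro b c c' ⟨i, rfl⟩
    have h4 : ∀ n : ℕ, ∀ c, val ((σ b ^ n) c) b = val c b := by
      intro n
      induction n with
      | zero => intro c; rfl
      | succ n ih => intro c; rw [pow_succ, Equiv.Perm.mul_apply, ih, hval]
    cases i with
    | ofNat n => rw [Int.ofNat_eq_natCast, zpow_natCast]; exact (h4 n c).symm
    | negSucc n =>
      rw [zpow_negSucc]
      have := h4 (n + 1) (((σ b ^ (n + 1))⁻¹) c)
      rw [Equiv.Perm.inv_def, Equiv.apply_symm_apply] at this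
      exact this
  have hcirc : ∀ c b c' b', circ c b = circ c' b' → val c b = val c' b' := by
    intro c b c' b' e
    cases b <;> cases b'
    · exact hsame _ _ _ (orb _ _ _ e)
    · exact absurd e.symm (ne _ _)
    · exact absurd e (ne _ _)
    · exact hsame _ _ _ (orb _ _ _ e)
  let ψ : V → ℚ := fun v => if h : ∃ z : E × Bool, circ z.1 z.2 = v then val h.choose.1 h.choose.2 else 0
  have hψ : ∀ c b, ψ (circ c b) = val c b := by
    intro c b
    have h : ∃ z : E × Bool, circ z.1 z.2 = circ c b := ⟨(c, b), rfl⟩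
    simp only [ψ, dif_pos h]
    exact hcirc _ _ _ _ h.choose_spec
  have hjump : ∀ c, val c ub - val c (!ub) = m c := by
    intro c
    obtain ⟨s, hs⟩ := hpos c
    have h4 := h2.get (pos c) (k c) s hs
    obtain ⟨e1, e2⟩ := hj c
    show φ (pos c) (j c ub + 1) - φ (pos c) (j c (!ub) + 1) = m c
    rw [e1, e2, ← hmt c, ← h4]
  cases hub : ub
  · refine ⟨fun v => - ψ v, fun c => ?_⟩
    have := hjump c
    rw [hub] at this
    dsimp only
    rw [hψ, hψ]
    simp only [Bool.not_false] at this
    linarith
  · refine ⟨ψ, fun c => ?_⟩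
    have := hjump c
    rw [hub] at this
    dsimp only
    rw [hψ, hψ]
    simp only [Bool.not_true] at this
    linarith

end LG3P.PL
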