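import Pool.Agent.Lib.MP_3cd99b_gt.Top
import Pool.Agent.Lib.MP_3cd99b_gt.PL4

/-!
The planarity input of a special piece in the form of `Top`.
-/

namespace LG3P.PL
open LG3 LG3P.Gr LG3P.Top

theorem pl_of_planar {E V Fc : Type*} [Fintype E] (σ : Bool → Equiv.Perm E) (circ : E → Bool → V)
    (fc : E × Bool → Fc) (face : ∀ z z', fc z = fc z' → (phi σ).SameCycle z z')
    (hpl : Planar σ (fun c => circ c false) (fun c => circ c true)) (O : E → Bool)
    (hO : Strong (fun c => circ c false) (fun c => circ c true) O) :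
    ∃ h : Fc → ℤ, ∀ c, h (fc (c, O c)) < h (fc (c, !O c)) := by
  classical
  obtain ⟨g, h1, h2⟩ := face_potential σ _ _ O hO hpl
  have hp : ∀ z, g (phi σ z) = g z := fun z => h1 z.1 z.2
  have hs : ∀ z z', (phi σ).SameCycle z z' → g z = g z' := by
    rintro z z' ⟨i, rfl⟩
    have h4 : ∀ n : ℕ, ∀ z, g ((phi σ ^ n) z) = g z := by
      intro n
      induction n with
      | zero => intro z; rfl
      | succ n ih => intro z; rw [pow_succ, Equiv.Perm.mul_apply, ih, hp]
    cases i with
    | ofNat n => rw [Int.ofNat_eq_natCast, zpow_natCast]; exact (h4 n z).symm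
    | negSucc n =>
      rw [zpow_negSucc]
      have := h4 (n + 1) (((phi σ ^ (n + 1))⁻¹) z)
      rw [Equiv.Perm.inv_def, Equiv.apply_symm_apply] at this
      exact this
  let h : Fc → ℤ := fun f => if e : ∃ z, fc z = f then g e.choose else 0
  have hh : ∀ z, h (fc z) = g z := by
    intro z
    have e : ∃ z', fc z' = fc z := ⟨z, rfl⟩
    simp only [h, dif_pos e]
    exact hs _ _ (face _ _ e.choose_spec)
  exact ⟨h, fun c => by rw [hh, hh]; exact h2 c⟩

end LG3P.PL
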