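import Pool.Agent.Lib.MP_3cd99b_gt.Wo3

/-!
Types of slots, the permutations st b of the crossings, the local rules for functions of the positions, the cut.
-/

namespace LG3P.Wo
open LG3

theorem ty_pi {w : List Piece} (hw : IsTangle w) (z : Pos w) : ty w (pi hw z).1 = ty w z.1 := by
  obtain ⟨⟨t, j⟩, hz⟩ := z
  show ty w (mv w false (t, j)) = ty w (t, j)
  rcases hd : west false j with _ | _
  · rcases Nat.lt_or_ge t w.length with ht | ht
    · have hp := getElem?_of_lt ht
      have hs := step_rgt w[t] _ _ (SL_succ hw hp) j hz.2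
      have hpar := rgt_par w[t] j
      rw [mv_east w false t j _ hp hd]
      by_cases h1 : (rgt w[t] j).1 = true
      · rw [if_pos h1] at hs hpar ⊢
        show (decide ((rgt w[t] j).2 % 2 = 0) ^^ !((SL w (t + 1)).getD (rgt w[t] j).2 false)) = _
        rw [hpar, hs.2]
        rfl
      · have h1' : (rgt w[t] j).1 = false := by simpa using h1
        rw [h1'] at hs hpar ⊢
        simp only [Bool.false_eq_true, if_false] at hs hpar ⊢
        show (decide ((rgt w[t] j).2 % 2 = 0) ^^ !((SL w t).getD (rgt w[t] j).2 false)) =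
          (decide (j % 2 = 0) ^^ !((SL w t).getD j false))
        rw [hpar, hs.2]
        rcases Nat.mod_two_eq_zero_or_one j with h2 | h2
        · have h3 : (j + 1) % 2 = 1 := by omega
          rw [h2, h3]
          cases (SL w t).getD j false <;> rfl
        · have h3 : (j + 1) % 2 = 0 := by omega
          rw [h2, h3]
          cases (SL w t).getD j false <;> rfl
    · have ht' : t = w.length := le_antisymm hz.1 ht
      subst ht'
      have hj := val_len hw hz
      subst hj
      exact absurd hd (by decide)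
  · rcases t with _ | t
    · have hj := val_zero hz
      subst hj
      rw [mv_zero w false 0 hd]
      show (decide (0 % 2 = 0) ^^ !((SL w w.length).getD 0 false)) = (decide (0 % 2 = 0) ^^ !((SL w 0).getD 0 false))
      rw [SL_len hw]
      rfl
    · have ht : t < w.length := hz.1
      have hp := getElem?_of_lt ht
      have hs := step_lft w[t] _ _ (SL_succ hw hp) j hz.2
      have hpar := lft_par w[t] j
      rw [mv_west w false t j _ hp hd]
      by_cases h1 : (lft w[t] j).1 = true
      · rw [if_pos h1] at hs hpar ⊢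
        show (decide ((lft w[t] j).2 % 2 = 0) ^^ !((SL w t).getD (lft w[t] j).2 false)) = _
        rw [hpar, hs.2]
        rfl
      · have h1' : (lft w[t] j).1 = false := by simpa using h1
        rw [h1'] at hs hpar ⊢
        simp only [Bool.false_eq_true, if_false] at hs hpar ⊢
        show (decide ((lft w[t] j).2 % 2 = 0) ^^ !((SL w (t + 1)).getD (lft w[t] j).2 false)) =
          (decide (j % 2 = 0) ^^ !((SL w (t + 1)).getD j false))
        rw [hpar, hs.2]
        rcases Nat.mod_two_eq_zero_or_one j with h2 | h2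
        · have h3 : (j + 1) % 2 = 1 := by omega
          rw [h2, h3]
          cases (SL w (t + 1)).getD j false <;> rfl
        · have h3 : (j + 1) % 2 = 0 := by omega
          rw [h2, h3]
          cases (SL w (t + 1)).getD j false <;> rfl

theorem ty_pow {w : List Piece} (hw : IsTangle w) (z : Pos w) (n : ℕ) : ty w ((pi hw ^ n) z).1 = ty w z.1 := by
  induction n with
  | zero => simp
  | succ n ih => rw [pow_succ', Equiv.Perm.mul_apply, ty_pi, ih]

theorem ty_dep {w : List Piece} (hw : IsTangle w) (s : Sl w) : ty w (depP hw s).1 = s.2 := by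
  obtain ⟨⟨t, ht⟩, b⟩ := s
  obtain ⟨h1, h2, h3⟩ := cr_strand hw ht (je b (kc w t)) (je_or _ _)
  have h4 := je_par b (kc w t)
  cases b
  · show (decide (je false (kc w t) % 2 = 0) ^^ !((SL w (t + 1)).getD (je false (kc w t)) false)) = false
    rw [h1, h3, h4]; rfl
  · show (decide (je true (kc w t) % 2 = 0) ^^ !((SL w t).getD (je true (kc w t)) false)) = true
    rw [h3, h4]; rfl

theorem nx_snd {w : List Piece} (hw : IsTangle w) (s : Sl w) : (nx hw s).2 = s.2 := by
  rw [← ty_dep hw (nx hw s), depP_nx', ty_pow, ty_dep]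

theorem nx_symm_snd {w : List Piece} (hw : IsTangle w) (s : Sl w) : ((nx hw).symm s).2 = s.2 := by
  have h := nx_snd hw ((nx hw).symm s)
  rw [Equiv.apply_symm_apply] at h
  exact h.symm

/-- the next crossing along the Seifert circle of type b, in the direction of the walk -/
noncomputable def st {w : List Piece} (hw : IsTangle w) (b : Bool) : Equiv.Perm (Cr w) where
  toFun c := (nx hw (c, b)).1
  invFun c := ((nx hw).symm (c, b)).1
  left_inv c := by
    have h : ((nx hw (c, b)).1, b) = nx hw (c, b) := Prod.ext rfl (nx_snd hw (c, b)).symm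
    show ((nx hw).symm ((nx hw (c, b)).1, b)).1 = c
    rw [h, Equiv.symm_apply_apply]
  right_inv c := by
    have h : (((nx hw).symm (c, b)).1, b) = (nx hw).symm (c, b) := Prod.ext rfl (nx_symm_snd hw (c, b)).symm
    show (nx hw (((nx hw).symm (c, b)).1, b)).1 = c
    rw [h, Equiv.apply_symm_apply]

theorem nx_eq {w : List Piece} (hw : IsTangle w) (c : Cr w) (b : Bool) : nx hw (c, b) = (st hw b c, b) :=
  Prod.ext rfl (nx_snd hw (c, b))

theorem nx_symm_eq {w : List Piece} (hw : IsTangle w) (c : Cr w) (b : Bool) :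
    (nx hw).symm (c, b) = ((st hw b).symm c, b) :=
  Prod.ext rfl (nx_symm_snd hw (c, b))

/-- is j a strand of the piece at which nothing is required -/
def atCr (p : Piece) (j : ℕ) : Prop :=
  match p with
  | .cross k _ => j = k ∨ j = k + 1
  | _ => False

/-- the local rules: constant along the strands, equal at the two strands of a turn, no condition at the two strands
of a crossing -/
def Rul (w : List Piece) {α : Type*} (φ : ℕ → ℕ → α) : Prop :=
  ∀ t p, w[t]? = some p →
    (∀ j, j < (SL w t).length → (rgt p j).1 = true → ¬ atCr p j → φ (t + 1) (rgt p j).2 = φ t j) ∧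
    (∀ j, j < (SL w t).length → (rgt p j).1 = false → φ t (rgt p j).2 = φ t j) ∧
    (∀ j, j < (SL w (t + 1)).length → (lft p j).1 = false → φ (t + 1) (lft p j).2 = φ (t + 1) j)

theorem je_eq {j k : ℕ} {b : Bool} (h : j = k ∨ j = k + 1) (hb : west false j = b) : je b k = j := by
  unfold west at hb
  unfold je
  rw [Bool.xor_false] at hb
  subst hb
  rcases h with rfl | rfl
  · rw [if_pos rfl]
  · rw [if_neg]
    rw [decide_eq_decide]
    omega

theorem rul_step {w : List Piece} (hw : IsTangle w) {α : Type*} {φ : ℕ → ℕ → α} (hr : Rul w φ) (z : Pos w)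
    (h0 : z ≠ e0 w) (hd : pi hw z ∉ Dep hw) :
    φ (pi hw z).1.1 (pi hw z).1.2 = φ z.1.1 z.1.2 := by
  obtain ⟨⟨t, j⟩, hz⟩ := z
  have hv : (pi hw ⟨(t, j), hz⟩).1 = mv w false (t, j) := rfl
  have hnd : ∀ s : Sl w, mv w false (t, j) ≠ dep w (s.1.1, s.2) := by
    intro s hs
    exact hd ⟨s, Subtype.ext hs.symm⟩
  rw [hv]
  show φ (mv w false (t, j)).1 (mv w false (t, j)).2 = φ t j
  rcases hw' : west false j with _ | _
  · rcases Nat.lt_or_ge t w.length with ht | ht
    · have hp := getElem?_of_lt ht
      obtain ⟨r1, r2, -⟩ := hr t _ hp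
      rw [mv_east w false t j _ hp hw'] at hnd ⊢
      by_cases h1 : (rgt w[t] j).1 = true
      · rw [if_pos h1] at hnd ⊢
        apply r1 j hz.2 h1
        intro hat
        rcases hw2 : w[t] with ⟨k, f⟩ | ⟨k, f⟩ | ⟨k, s⟩
        · rw [hw2] at hat; exact hat
        · rw [hw2] at hat; exact hat
        · rw [hw2] at hat hp hnd
          have hc := isCr_of hp
          have hk := cr_piece hc
          rw [hp] at hk
          simp only [Option.some.injEq, Piece.cross.injEq] at hk
          apply hnd (⟨t, hc⟩, false)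
          show (t + 1, j) = (t + 1, je false (kc w t))
          rw [je_eq (hk.1 ▸ hat) hw']
      · have h1' : (rgt w[t] j).1 = false := by simpa using h1
        rw [if_neg h1]
        exact r2 j hz.2 h1'
    · exfalso
      have ht' : t = w.length := le_antisymm hz.1 ht
      subst ht'
      have hj := val_len hw hz
      subst hj
      exact absurd hw' (by decide)
  · rcases t with _ | t
    · exfalso
      have hj := val_zero hz
      subst hj
      exact h0 rfl
    · have ht : t < w.length := hz.1
      have hp := getElem?_of_lt ht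
      obtain ⟨r1, -, r3⟩ := hr t _ hp
      have hs := step_lft w[t] _ _ (SL_succ hw hp) j hz.2
      rw [mv_west w false t j _ hp hw'] at hnd ⊢
      by_cases h1 : (lft w[t] j).1 = true
      · rw [if_pos h1] at hnd hs ⊢
        have h2 := rgt_of_lft _ _ h1
        have h3 := r1 (lft w[t] j).2 hs.1 (by rw [h2])
        rw [h2] at h3
        refine (h3 ?_).symm
        intro hat
        rcases hw2 : w[t] with ⟨k, f⟩ | ⟨k, f⟩ | ⟨k, s⟩
        · rw [hw2] at hat; exact hat
        · rw [hw2] at hat; exact hat
        · rw [hw2] at hat hp hnd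
          have hc := isCr_of hp
          have hk := cr_piece hc
          rw [hp] at hk
          simp only [Option.some.injEq, Piece.cross.injEq] at hk
          apply hnd (⟨t, hc⟩, true)
          show (t, j) = (t, je true (kc w t))
          rw [je_eq (hk.1 ▸ hat) hw']
      · have h1' : (lft w[t] j).1 = false := by simpa using h1
        rw [if_neg h1]
        exact r3 j hz.2 h1'

/-- W0 with the local rules -/
theorem w0_rul {w : List Piece} (hw : IsTangle w) {α : Type*} {φ : ℕ → ℕ → α} (hr : Rul w φ) (s : Sl w)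
    (hs : ¬ OnArc hw s (e0 w)) :
    φ (arr w ((nx hw s).1.1, s.2)).1 (arr w ((nx hw s).1.1, s.2)).2 = φ (dep w (s.1.1, s.2)).1 (dep w (s.1.1, s.2)).2 := by
  have h := w0 hw (fun z : Pos w => φ z.1.1 z.1.2) (fun z h0 hd => rul_step hw hr z h0 hd) s hs
  have e : (arrP hw (nx hw s)).1 = arr w ((nx hw s).1.1, s.2) := by
    show arr w ((nx hw s).1.1, (nx hw s).2) = _
    rw [nx_snd]
  rw [← e]
  exact h

theorem w0_rul_left {w : List Piece} (hw : IsTangle w) {α : Type*} {φ : ℕ → ℕ → α} (hr : Rul w φ) (s : Sl w)
    (hs : OnArc hw s (e0 w)) : φ (dep w (s.1.1, s.2)).1 (dep w (s.1.1, s.2)).2 = φ 0 0 :=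
  w0_left hw (fun z : Pos w => φ z.1.1 z.1.2) (fun z h0 hd => rul_step hw hr z h0 hd) s hs

theorem w0_rul_right {w : List Piece} (hw : IsTangle w) {α : Type*} {φ : ℕ → ℕ → α} (hr : Rul w φ) (s : Sl w)
    (hs : OnArc hw s (e0 w)) :
    φ (arr w ((nx hw s).1.1, s.2)).1 (arr w ((nx hw s).1.1, s.2)).2 = φ w.length 0 := by
  have h := w0_right hw (fun z : Pos w => φ z.1.1 z.1.2) (fun z h0 hd => rul_step hw hr z h0 hd) s hs
  have e : (arrP hw (nx hw s)).1 = arr w ((nx hw s).1.1, s.2) := by
    show arr w ((nx hw s).1.1, (nx hw s).2) = _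
    rw [nx_snd]
  rw [← e]
  exact h

/-- W0 for functions with equal values at the two ends -/
theorem w0_all {w : List Piece} (hw : IsTangle w) {α : Type*} {φ : ℕ → ℕ → α} (hr : Rul w φ)
    (he : φ 0 0 = φ w.length 0) (s : Sl w) :
    φ (arr w ((nx hw s).1.1, s.2)).1 (arr w ((nx hw s).1.1, s.2)).2 = φ (dep w (s.1.1, s.2)).1 (dep w (s.1.1, s.2)).2 := by
  by_cases hs : OnArc hw s (e0 w)
  · rw [w0_rul_left hw hr s hs, w0_rul_right hw hr s hs, he]
  · exact w0_rul hw hr s hs

/-- the root circle has a crossing iff there is a cut slot -/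
theorem cut_exists {w : List Piece} (hw : IsTangle w) :
    (∃! s, OnArc hw s (e0 w)) ∨ (∀ n : ℕ, (pi hw ^ n) (e0 w) ∉ Dep hw) := by
  by_cases h : ∃ n : ℕ, (pi hw ^ n) (e0 w) ∈ Dep hw
  · left
    obtain ⟨s, hs⟩ := exists_onArc hw (e0 w) h
    exact ⟨s, hs, fun s' hs' => onArc_unique hw hs' hs⟩
  · right
    intro n hn
    exact h ⟨n, hn⟩

end LG3P.Wo
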