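import Pool.Agent.Lib.MP_3cd99b_gt.PL6
import Pool.Agent.Lib.MP_3cd99b_gt.Wo4

/-!
Planarity of the sign classes of the crossings of a word.
-/

namespace LG3P.PL
open LG3 LG3P.Wo

theorem StrandFn.rul {w : List Piece} {A : ℕ → Prop} {α : Type*} {φ : ℕ → ℕ → α} (h : StrandFn w A φ) : Rul w φ := by
  intro t p hp
  have h1 := h t p hp
  cases p with
  | cross k s =>
    refine ⟨fun j _ _ hj => h1 j (fun e => absurd e hj), fun j _ e => ?_, fun j _ e => ?_⟩
    · simp [rgt] at e
    · simp [lft] at e
  | cup k f =>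
    obtain ⟨a, b, c⟩ := h1
    refine ⟨fun j _ _ _ => ?_, fun j _ e => ?_, fun j _ e => ?_⟩
    · simp only [rgt]
      split_ifs with hj
      · exact a j hj
      · exact c j (by omega)
    · simp [rgt] at e
    · simp only [lft] at e ⊢
      split_ifs at e ⊢ with h2 h3 h4
      · subst h3; exact b.symm
      · subst h4; exact b
  | cap k f =>
    obtain ⟨a, b, c⟩ := h1
    refine ⟨fun j _ e _ => ?_, fun j _ e => ?_, fun j _ e => ?_⟩
    · simp only [rgt] at e ⊢
      split_ifs at e ⊢ with h2 h3 h4
      · exact (a j h2).symm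
      · have := c (j - 2) (by omega)
        rw [show j - 2 + 2 = j by omega] at this
        exact this.symm
    · simp only [rgt] at e ⊢
      split_ifs at e ⊢ with h2 h3 h4
      · subst h3; exact b.symm
      · subst h4; exact b
    · simp [lft] at e

/-- planarity of a sign class of a word -/
theorem planarC_words {w : List Piece} (hw : IsTangle w) [Fintype (Cr w)] (q : ℕ) (s : Bool)
    (hsg : ∀ c : Cr w, sc w c.1 = s ↔ kc w c.1 % 2 = q % 2) :
    PlanarC (st hw) (fun c => sc w c.1) s := by
  refine planarC_word w q s (fun c : Cr w => c.1) (fun c => kc w c.1) Subtype.val_injective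
    (fun c => ⟨_, cr_piece c.2⟩) (st hw) _ hsg (fun c b => je b (kc w c.1)) ?_ ?_ ?_
  · intro c h
    simp [je, h]
  · intro c h
    simp [je, h]
  · intro φ hφ h0 c
    have h1 := w0_all hw hφ.rul h0.symm
    refine ⟨?_, ?_⟩
    · have h2 := h1 (c, true)
      rw [nx_eq] at h2
      exact h2.symm
    · have h2 := h1 (c, false)
      rw [nx_eq] at h2
      exact h2.symm

end LG3P.PL
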