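import Mathlib

/-!
# The tree of pieces of a signed planar graph of circles

`κ c b` is the circle of type `b` at the crossing `c`, `sg c` the sign of `c`. The planarity of the system of circles
is the function `side k` (the side of the circle `k` on which the other circles lie); `dist` is the distance of a
circle to the root circle `k0`. A piece is a class of crossings of one sign which are joined through circles.
-/

namespace PoolLib.MP_3cd99b_gt.Tr

open Relation

/-- a planar signed graph of circles, with distances to the root circle -/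
structure SG (C K : Type*) where
  /-- circle of type b at the crossing c -/
  κ : C → Bool → K
  /-- sign of a crossing -/
  sg : C → Bool
  /-- the root circle -/
  k0 : K
  /-- the side of the circle k on which the circle k' lies -/
  side : K → K → Bool
  side_off : ∀ k c, κ c true ≠ k → κ c false ≠ k → side k (κ c true) = side k (κ c false)
  side_on : ∀ k c b, κ c b = k → side k (κ c (!b)) = sg c
  /-- distance to the root circle -/
  dist : K → ℕ
  dist_zero : ∀ k, dist k = 0 ↔ k = k0
  dist_low : ∀ k, k ≠ k0 → ∃ c b, κ c b = k ∧ dist (κ c (!b)) < dist k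
  dist_ne : ∀ c, dist (κ c true) ≠ dist (κ c false)

variable {C K : Type*} (G : SG C K)

namespace SG

/-- the type of the circle nearer to the root circle -/
def w (c : C) : Bool := decide (G.dist (G.κ c true) < G.dist (G.κ c false))

/-- the lower circle of a crossing -/
def lo (c : C) : K := G.κ c (G.w c)

/-- the upper circle of a crossing -/
def up (c : C) : K := G.κ c (!G.w c)

theorem lo_lt (c : C) : G.dist (G.lo c) < G.dist (G.up c) := by
  unfold lo up w
  have h := G.dist_ne c
  by_cases h1 : G.dist (G.κ c true) < G.dist (G.κ c false)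
  · simp [h1]
  · simp only [h1, decide_false, Bool.not_false]
    omega

theorem w_eq {c : C} {b : Bool} (h : G.dist (G.κ c b) < G.dist (G.κ c (!b))) : G.w c = b := by
  unfold w
  cases b
  · simp only [Bool.not_false] at h
    simp only [decide_eq_false_iff_not]; omega
  · simp only [Bool.not_true] at h
    simp [h]

theorem up_ne (c : C) : G.up c ≠ G.k0 := by
  intro h
  have h1 := G.lo_lt c
  rw [(G.dist_zero _).2 h] at h1
  omega

theorem exists_up {k : K} (hk : k ≠ G.k0) : ∃ c, G.up c = k := by
  obtain ⟨c, b, h1, h2⟩ := G.dist_low k hk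
  refine ⟨c, ?_⟩
  have h3 : G.w c = !b := by
    apply G.w_eq
    rw [Bool.not_not, h1]; exact h2
  unfold up
  rw [h3, Bool.not_not, h1]

theorem chain {k2 : K} {g : K → Bool}
    (hg : ∀ c, G.κ c true ≠ k2 → G.κ c false ≠ k2 → g (G.κ c true) = g (G.κ c false)) :
    ∀ k, k ≠ k2 → G.dist k ≤ G.dist k2 → g k = g G.k0 := by
  intro k
  induction hn : G.dist k using Nat.strong_induction_on generalizing k with
  | _ n ih =>
    intro hk hd
    by_cases h0 : k = G.k0
    · rw [h0]
    · obtain ⟨c, b, h1, h2⟩ := G.dist_low k h0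
      have h3 : G.κ c (!b) ≠ k2 := by
        intro h; rw [h] at h2; omega
      have h4 : g k = g (G.κ c (!b)) := by
        have h5 := hg c
        rw [← h1] at hk ⊢
        cases b
        · exact (h5 h3 hk).symm
        · exact h5 hk h3
      rw [h4]
      exact ih _ (by omega) _ rfl h3 (by omega)

/-- the sign of the parent piece of a circle, e at the root circle -/
noncomputable def ps (e : Bool) (k : K) : Bool := by
  classical exact if k = G.k0 then e else G.side k G.k0

theorem sg_up (e : Bool) (c : C) : G.sg c = G.ps e (G.up c) := by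
  unfold ps
  rw [if_neg (G.up_ne c)]
  have h1 : G.side (G.up c) (G.lo c) = G.sg c := by
    have := G.side_on (G.up c) c (!G.w c) rfl
    rw [Bool.not_not] at this
    exact this
  rw [← h1]
  refine G.chain (G.side_off (G.up c)) (G.lo c) ?_ (G.lo_lt c).le
  intro h
  have := G.lo_lt c
  rw [h] at this
  exact lt_irrefl _ this

/-- two crossings of the same sign on a common circle -/
def Adj (c c' : C) : Prop := G.sg c = G.sg c' ∧ ∃ b b', G.κ c b = G.κ c' b'

/-- two crossings are in the same piece -/
def Pc : C → C → Prop := ReflTransGen G.Adj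

theorem Adj.symm {c c' : C} (h : G.Adj c c') : G.Adj c' c := by
  obtain ⟨h1, b, b', h2⟩ := h
  exact ⟨h1.symm, b', b, h2.symm⟩

theorem Pc.symm {c c' : C} (h : G.Pc c c') : G.Pc c' c := by
  induction h with
  | refl => exact ReflTransGen.refl
  | tail _ h2 ih => exact ReflTransGen.head (Adj.symm G h2) ih

theorem Pc.trans {c c' c'' : C} (h : G.Pc c c') (h' : G.Pc c' c'') : G.Pc c c'' :=
  ReflTransGen.trans h h'

theorem Pc.sg {c c' : C} (h : G.Pc c c') : G.sg c = G.sg c' := by
  induction h with
  | refl => rfl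
  | tail _ h2 ih => rw [ih, h2.1]

/-- a circle is on a piece -/
def On (c : C) (k : K) : Prop := ∃ c' b, G.Pc c c' ∧ G.κ c' b = k

theorem On.of_pc {c c' : C} {k : K} (h : G.Pc c c') (h' : G.On c' k) : G.On c k := by
  obtain ⟨d, b, h1, h2⟩ := h'
  exact ⟨d, b, h.trans G h1, h2⟩

theorem on_self (c : C) (b : Bool) : G.On c (G.κ c b) := ⟨c, b, ReflTransGen.refl, rfl⟩

/-- crossings of the sign of the piece on a circle of the piece are in the piece -/
theorem pc_of_on {c c' : C} {k : K} {b : Bool} (h : G.On c k) (h1 : G.κ c' b = k) (h2 : G.sg c' = G.sg c) :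
    G.Pc c c' := by
  obtain ⟨d, b', h3, h4⟩ := h
  refine ReflTransGen.tail h3 ⟨?_, b', b, ?_⟩
  · rw [← Pc.sg G h3, h2]
  · rw [h4, h1]

theorem side_of_pc {k2 : K} {c2 : C} {b2 : Bool} (h2 : G.κ c2 b2 = k2) {c : C} (h : G.Pc c2 c) :
    ∀ b, G.κ c b ≠ k2 → G.side k2 (G.κ c b) = G.sg c2 := by
  induction h with
  | refl =>
    intro b hb
    have hbb : b = !b2 := by
      cases b <;> cases b2 <;> first | rfl | exact absurd h2 hb
    rw [hbb]; exact G.side_on k2 c2 b2 h2
  | @tail c c' h1 h3 ih =>
    intro b hb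
    have hsg : G.sg c' = G.sg c2 := by
      rw [← h3.1]; exact (Pc.sg G h1).symm
    by_cases hb' : G.κ c' (!b) = k2
    · have := G.side_on k2 c' (!b) hb'
      rw [Bool.not_not] at this
      rw [this, hsg]
    · have h4 : G.side k2 (G.κ c' true) = G.side k2 (G.κ c' false) := by
        apply G.side_off
        · cases b
          · exact hb'
          · exact hb
        · cases b
          · exact hb
          · exact hb'
      obtain ⟨_, d, d', h5⟩ := h3
      have h6 : G.κ c d ≠ k2 := by
        rw [h5]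
        cases d' <;> cases b <;> assumption
      have h7 := ih d h6
      rw [h5] at h7
      cases b <;> cases d' <;> first | exact h7 | (rw [h4]; exact h7) | (rw [← h4]; exact h7)

/-- (J2) -/
theorem dist_gt {e : Bool} {k2 : K} {c2 : C} {b2 : Bool} (h2 : G.κ c2 b2 = k2) (hk : k2 ≠ G.k0)
    (hs : G.ps e k2 ≠ G.sg c2) {c : C} (h : G.Pc c2 c) (b : Bool) (hb : G.κ c b ≠ k2) :
    G.dist k2 < G.dist (G.κ c b) := by
  by_contra hcon
  apply hs
  unfold ps
  rw [if_neg hk, ← G.side_of_pc h2 h b hb]
  exact (G.chain (G.side_off k2) _ hb (by omega)).symm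

/-- a root circle of a piece -/
def IsRoot (c : C) (k : K) : Prop := G.On c k ∧ (k = G.k0 ∨ G.side k G.k0 ≠ G.sg c)

theorem exists_root (c : C) : ∃ k, G.IsRoot c k := by
  classical
  have hex : ∃ n, ∃ k, G.On c k ∧ G.dist k = n := ⟨_, _, G.on_self c true, rfl⟩
  obtain ⟨k, h1, h2⟩ := Nat.find_spec hex
  refine ⟨k, h1, ?_⟩
  by_cases hk : k = G.k0
  · exact Or.inl hk
  · right
    intro hs
    obtain ⟨c', hc'⟩ := G.exists_up hk
    have h3 : G.sg c' = G.sg c := by
      rw [G.sg_up true c', hc']
      unfold ps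
      rw [if_neg hk]; exact hs
    have h4 : G.Pc c c' := G.pc_of_on h1 (b := !G.w c') hc' h3
    have h5 : G.dist (G.lo c') < Nat.find hex := by
      rw [← h2, ← hc']; exact G.lo_lt c'
    exact Nat.find_min hex h5 ⟨G.lo c', ⟨c', G.w c', h4, rfl⟩, rfl⟩

theorem root_lt {c : C} {k k' : K} (h : G.IsRoot c k) (h' : G.On c k') (hne : k' ≠ k) :
    G.dist k < G.dist k' := by
  obtain ⟨⟨c1, b1, h1, h2⟩, h3⟩ := h
  obtain ⟨c2, b2, h4, h5⟩ := h'
  rcases h3 with h3 | h3
  · rw [(G.dist_zero k).2 h3]
    rcases Nat.eq_zero_or_pos (G.dist k') with h6 | h6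
    · exfalso; apply hne
      rw [(G.dist_zero k').1 h6, h3]
    · exact h6
  · by_cases hk : k = G.k0
    · rw [(G.dist_zero k).2 hk]
      rcases Nat.eq_zero_or_pos (G.dist k') with h6 | h6
      · exfalso; apply hne
        rw [(G.dist_zero k').1 h6, hk]
      · exact h6
    · rw [← h5]
      refine G.dist_gt (e := true) h2 hk ?_ ((Pc.symm G h1).trans G h4) b2 (by rw [h5]; exact hne)
      unfold ps
      rw [if_neg hk, ← Pc.sg G h1]
      exact h3

theorem root_unique {c : C} {k k' : K} (h : G.IsRoot c k) (h' : G.IsRoot c k') : k = k' := by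
  by_contra hne
  have h1 := G.root_lt h h'.1 (Ne.symm hne)
  have h2 := G.root_lt h' h.1 hne
  omega

/-- the root circle of the piece of c -/
noncomputable def rc (c : C) : K := Classical.choose (G.exists_root c)

theorem rc_spec (c : C) : G.IsRoot c (G.rc c) := Classical.choose_spec (G.exists_root c)

theorem isRoot_of_pc {c c' : C} {k : K} (h : G.Pc c c') (h' : G.IsRoot c' k) : G.IsRoot c k := by
  refine ⟨On.of_pc G h h'.1, ?_⟩
  rw [Pc.sg G h]; exact h'.2

theorem rc_eq {c : C} {k : K} (h : G.IsRoot c k) : G.rc c = k := G.root_unique (G.rc_spec c) h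

theorem rc_of_pc {c c' : C} (h : G.Pc c c') : G.rc c = G.rc c' := G.rc_eq (G.isRoot_of_pc h (G.rc_spec c'))

/-- a slot is on the parent side of its circle: the crossing has the sign of the parent piece -/
def out (e : Bool) (z : C × Bool) : Prop := G.sg z.1 = G.ps e (G.κ z.1 z.2)

/-- the crossing is in the root piece -/
def RP (e : Bool) (c : C) : Prop := G.sg c = e ∧ G.rc c = G.k0

theorem out_iff (e : Bool) (c : C) (b : Bool) : G.out e (c, b) ↔ (G.RP e c ∨ G.κ c b ≠ G.rc c) := by
  unfold out RP ps
  simp only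
  by_cases h : G.κ c b = G.k0
  · rw [if_pos h]
    have h1 : G.rc c = G.k0 := G.rc_eq ⟨by rw [← h]; exact G.on_self c b, Or.inl rfl⟩
    rw [h1, h]
    simp
  · rw [if_neg h]
    constructor
    · intro h1
      right
      intro h2
      have h3 := (G.rc_spec c).2
      rw [← h2] at h3
      rcases h3 with h3 | h3
      · exact h h3
      · exact h3 h1.symm
    · rintro (⟨h1, h2⟩ | h1)
      · by_contra h3
        have h4 : G.IsRoot c (G.κ c b) := ⟨G.on_self c b, Or.inr (Ne.symm h3)⟩
        exact h ((G.rc_eq h4).symm.trans h2)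
      · by_contra h3
        have h4 : G.IsRoot c (G.κ c b) := ⟨G.on_self c b, Or.inr (Ne.symm h3)⟩
        exact h1 (G.rc_eq h4).symm

/-- a crossing by which a circle is connected to a lower circle -/
noncomputable def we {k : K} (hk : k ≠ G.k0) : C := Classical.choose (G.exists_up hk)

theorem we_spec {k : K} (hk : k ≠ G.k0) : G.up (G.we hk) = k := Classical.choose_spec (G.exists_up hk)

theorem rc_lt {k : K} (hk : k ≠ G.k0) : G.dist (G.rc (G.we hk)) < G.dist k := by
  have h1 := G.we_spec hk
  refine G.root_lt (G.rc_spec (G.we hk)) ⟨G.we hk, !G.w (G.we hk), ReflTransGen.refl, h1⟩ ?_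
  intro h2
  have h3 := (G.rc_spec (G.we hk)).2
  rw [← h2] at h3
  rcases h3 with h3 | h3
  · exact hk h3
  · apply h3
    have h4 := G.sg_up true (G.we hk)
    rw [h1] at h4
    unfold ps at h4
    rw [if_neg hk] at h4
    exact h4.symm

open Classical in
/-- the level of a circle: the number of pieces between the root circle and the parent piece of the circle -/
noncomputable def lv (e : Bool) (k : K) : ℕ :=
  if h : k = G.k0 then 0 else if G.RP e (G.we h) then 0 else lv e (G.rc (G.we h)) + 1
termination_by G.dist k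
decreasing_by exact G.rc_lt h

open Classical in
/-- the depth of a crossing -/
noncomputable def dep (e : Bool) (c : C) : ℕ := if G.RP e c then 0 else G.lv e (G.rc c) + 1

theorem RP_of_pc {e : Bool} {c c' : C} (h : G.Pc c c') : G.RP e c ↔ G.RP e c' := by
  unfold RP
  rw [G.rc_of_pc h, Pc.sg G h]

theorem dep_of_pc {e : Bool} {c c' : C} (h : G.Pc c c') : G.dep e c = G.dep e c' := by
  unfold dep
  rw [G.rc_of_pc h]
  by_cases h1 : G.RP e c
  · rw [if_pos h1, if_pos ((G.RP_of_pc h).1 h1)]
  · rw [if_neg h1, if_neg (fun h2 => h1 ((G.RP_of_pc h).2 h2))]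

/-- two slots of the same circle on the parent side are in the same piece -/
theorem pc_of_out {e : Bool} {z z' : C × Bool} (h : G.κ z.1 z.2 = G.κ z'.1 z'.2) (h1 : G.out e z)
    (h2 : G.out e z') : G.Pc z.1 z'.1 := by
  refine ReflTransGen.single ⟨?_, z.2, z'.2, h⟩
  unfold out at h1 h2
  rw [h1, h2, h]

theorem out_we {e : Bool} {k : K} (hk : k ≠ G.k0) : G.out e (G.we hk, !G.w (G.we hk)) := by
  unfold out
  simp only
  exact G.sg_up e (G.we hk)

theorem lv_of_out {e : Bool} {z : C × Bool} (h : G.out e z) : G.dep e z.1 = G.lv e (G.κ z.1 z.2) := by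
  obtain ⟨c, b⟩ := z
  simp only
  by_cases hk : G.κ c b = G.k0
  · have h1 : G.RP e c := by
      refine ⟨?_, G.rc_eq ⟨by rw [← hk]; exact G.on_self c b, Or.inl rfl⟩⟩
      unfold out ps at h
      simp only at h
      rwa [if_pos hk] at h
    unfold dep lv
    rw [if_pos h1, dif_pos hk]
  · have h1 : G.Pc c (G.we hk) :=
      G.pc_of_out (z := (c, b)) (z' := (G.we hk, !G.w (G.we hk))) (G.we_spec hk).symm h (G.out_we hk)
    rw [lv, dif_neg hk]
    unfold dep
    rw [G.rc_of_pc h1]
    by_cases h2 : G.RP e c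
    · rw [if_pos h2, if_pos ((G.RP_of_pc h1).1 h2)]
    · rw [if_neg h2, if_neg (fun h3 => h2 ((G.RP_of_pc h1).2 h3))]

theorem lv_of_not_out {e : Bool} {z : C × Bool} (h : ¬ G.out e z) :
    G.dep e z.1 = G.lv e (G.κ z.1 z.2) + 1 ∧ G.rc z.1 = G.κ z.1 z.2 := by
  obtain ⟨c, b⟩ := z
  rw [G.out_iff] at h
  push Not at h
  obtain ⟨h1, h2⟩ := h
  simp only
  refine ⟨?_, h2.symm⟩
  unfold dep
  rw [if_neg h1, h2]

theorem rc_of_out {e : Bool} {z z' : C × Bool} (h : G.κ z.1 z.2 = G.κ z'.1 z'.2) (h1 : G.out e z)
    (h2 : G.out e z') : G.rc z.1 = G.rc z'.1 := G.rc_of_pc (G.pc_of_out h h1 h2)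

/-- the lower exits of a circle are on its parent side -/
theorem out_up (e : Bool) (c : C) : G.out e (c, !G.w c) := by
  unfold out
  exact G.sg_up e c

end SG

end PoolLib.MP_3cd99b_gt.Tr
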