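import Pool.Agent.Lib.MP_3cd99b_gt.R5
import Pool.Agent.Lib.MP_3cd99b_gt.Tr

/-!
# Sums over the pieces of a mixed diagram (P2, MP_3cd99b_gt)

`G : SG C K` = helper32's signed planar graph of circles. `QP G` = the pieces, `SQ G q` = the crossings of the piece
`q`. Upper bounds for a pair of acyclic walkers, summed over the pieces.
-/

namespace LG3P.Sm

open Finset Function PoolLib.MP_3cd99b_gt.Oct LG3P.Gr LG3P.Top LG3P.R5 PoolLib.MP_3cd99b_gt.Tr

variable {C K : Type*} (G : SG C K)

theorem side : Side G.κ G.sg := fun Z =>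
  ⟨G.side Z, fun c h1 h2 => G.side_off Z c h1 h2, fun c b h => G.side_on Z c b h⟩

/-- the equivalence relation of being in the same piece -/
def pcS : Setoid C where
  r := G.Pc
  iseqv := ⟨fun _ => Relation.ReflTransGen.refl, fun h => SG.Pc.symm G h, fun h h' => SG.Pc.trans G h h'⟩

/-- the pieces -/
def QP : Type _ := Quotient (pcS G)

/-- the piece of a crossing -/
def mk (c : C) : QP G := Quotient.mk (pcS G) c

/-- the crossings of a piece -/
def SQ (q : QP G) : Set C := {c | mk G c = q}

theorem mk_eq {c c' : C} : mk G c = mk G c' ↔ G.Pc c c' := Quotient.eq (r := pcS G)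

theorem piece (q : QP G) : Piece G.κ G.sg (SQ G q) where
  sign c hc c' hc' := SG.Pc.sg G ((mk_eq G).mp ((show mk G c = q from hc).trans (show mk G c' = q from hc').symm))
  closed c hc c' b b' h h' := by
    have h1 : G.Pc c' c := Relation.ReflTransGen.single ⟨h', b', b, h.symm⟩
    exact ((mk_eq G).mpr h1).trans hc
  conn T hT hT' := by
    obtain ⟨c, hc, b, hb⟩ := hT
    have both : ∀ c' ∈ SQ G q, ∀ b b', G.κ c' b ∈ T → G.κ c' b' ∈ T := by
      intro c' hc' b b' h
      have := hT' c' hc'
      cases b <;> cases b' <;> first | exact h | exact this.mp h | exact this.mpr h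
    have key : ∀ c', G.Pc c c' → ∀ b, G.κ c' b ∈ T := by
      intro c' h
      induction h with
      | refl => exact fun b' => both c hc b b' hb
      | @tail c1 c2 h1 h2 ih =>
        intro b'
        have hc2 : c2 ∈ SQ G q := by
          have h3 : G.Pc c c2 := Relation.ReflTransGen.tail h1 h2
          exact ((mk_eq G).mpr h3).symm.trans hc
        obtain ⟨_, d, d', h4⟩ := h2
        exact both c2 hc2 d' b' (h4 ▸ ih d)
    intro c' hc'
    exact key c' ((mk_eq G).mp ((show mk G c = q from hc).trans (show mk G c' = q from hc').symm))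
  ne := by
    obtain ⟨c, hc⟩ := Quotient.exists_rep q
    exact ⟨c, hc⟩

/-- every piece is bridgeless -/
theorem piece_bl {E V : Type*} {circ : E → Bool → V} {sg : E → Bool} (hJ : Side circ sg) {S : Set E}
    (hS : Piece circ sg S) (hB : Bridgeless (fun c => circ c false) (fun c => circ c true)) :
    Bridgeless (fun c => cs circ S c false) (fun c => cs circ S c true) := by
  obtain ⟨P, hP1, hP2⟩ := exists_proj hJ hS
  intro T e he
  have hmem : ∀ (c : S) (b : Bool), P (circ c b) ∈ Subtype.val '' T ↔ cs circ S c b ∈ T := by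
    intro c b
    rw [hP1 c c.2 b]
    constructor
    · rintro ⟨v, hv, h⟩
      have : v = cs circ S c b := Subtype.ext h
      exact this ▸ hv
    · intro h
      exact ⟨_, h, rfl⟩
  obtain ⟨e', h1, h2⟩ := hB {v | P v ∈ Subtype.val '' T} e (by
    simp only [Set.mem_ofPred_eq, hmem e]
    exact he)
  have h3 : e' ∈ S := by
    by_contra h3
    have h4 := hP2 e' h3
    simp only [Set.mem_ofPred_eq, h4] at h2
    rcases h2 with h2 | h2
    · exact h2.2 h2.1
    · exact h2.2 h2.1
  refine ⟨⟨e', h3⟩, fun h => h1 (congrArg Subtype.val h), ?_⟩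
  have := hmem ⟨e', h3⟩
  simp only [Set.mem_ofPred_eq, this] at h2
  exact h2

/-- sum over the crossings = sum over the pieces -/
theorem card_pieces [Fintype C] [Fintype (QP G)] [∀ q, Fintype (SQ G q)] (p : C → Prop) [DecidablePred p] :
    (univ.filter p).card = ∑ q : QP G, (univ.filter fun c : SQ G q => p c).card := by
  classical
  rw [card_eq_sum_card_fiberwise (f := mk G) (t := univ) (fun _ _ => mem_coe.mpr (mem_univ _))]
  refine sum_congr rfl fun q _ => ?_
  symm
  refine card_bij (fun c _ => c.1) ?_ ?_ ?_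
  · rintro ⟨c, hc⟩ h
    simp only [mem_filter, mem_univ, true_and] at h ⊢
    exact ⟨h, hc⟩
  · rintro ⟨c, hc⟩ _ ⟨c', hc'⟩ _ h
    exact Subtype.ext h
  · intro c h
    simp only [mem_filter, mem_univ, true_and] at h
    exact ⟨⟨c, h.2⟩, by simpa using h.1, rfl⟩

/-- the parent piece of a circle -/
noncomputable def par {k : K} (hk : k ≠ G.k0) : QP G := mk G (G.we hk)

theorem on_iff {c : C} {k : K} (hk : k ≠ G.k0) (h : ∃ c' ∈ SQ G (mk G c), ∃ b, G.κ c' b = k) :
    k ≠ G.rc c ↔ par G hk = mk G c := by
  obtain ⟨c', hc', b, hb⟩ := h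
  have hcc : G.Pc c' c := (mk_eq G).mp hc'
  have hr : G.rc c' = G.rc c := G.rc_of_pc hcc
  constructor
  · intro hne
    have h1 : G.out true (c', b) := by
      rw [G.out_iff]
      exact Or.inr (by rw [hb, hr]; exact hne)
    have h2 : G.Pc c' (G.we hk) :=
      G.pc_of_out (z := (c', b)) (z' := (G.we hk, !G.w (G.we hk))) (hb.trans (G.we_spec hk).symm) h1 (G.out_we hk)
    exact ((mk_eq G).mpr ((SG.Pc.symm G h2).trans G hcc))
  · intro h1 h2
    have h3 : G.Pc (G.we hk) c := (mk_eq G).mp h1
    have h4 := G.rc_lt hk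
    rw [G.rc_of_pc h3, ← h2] at h4
    exact lt_irrefl _ h4

/-- the number of circles of all pieces: each circle except the root circle is counted once as a circle of its parent
piece, and each piece has one root circle -/
theorem sum_circles [Fintype K] [Fintype (QP G)] [∀ q, Fintype (VS G.κ (SQ G q))] :
    ∑ q : QP G, Fintype.card (VS G.κ (SQ G q)) + 1 = Fintype.card K + Fintype.card (QP G) := by
  classical
  -- remove the root circles
  have hroot : ∀ q : QP G, ∃ k : VS G.κ (SQ G q), ∀ c ∈ SQ G q, (k : K) = G.rc c := by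
    intro q
    obtain ⟨c, rfl⟩ := Quotient.exists_rep q
    obtain ⟨⟨c1, b1, h1, h2⟩, h3⟩ := G.rc_spec c
    refine ⟨⟨G.rc c, c1, ((mk_eq G).mpr (SG.Pc.symm G h1)), b1, h2⟩, fun c' hc' => ?_⟩
    exact G.rc_of_pc (SG.Pc.symm G ((mk_eq G).mp hc'))
  choose rt hrt using hroot
  have hbij : (∑ q : QP G, (univ.filter fun k : VS G.κ (SQ G q) => k ≠ rt q).card) =
      (univ.filter fun k : K => k ≠ G.k0).card := by
    rw [← card_sigma]
    refine card_bij (fun z _ => (z.2 : K)) ?_ ?_ ?_
    · rintro ⟨q, k, c, hc, b, hb⟩ h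
      simp only [mem_sigma, mem_filter, mem_univ, true_and] at h ⊢
      intro h0
      apply h
      apply Subtype.ext
      rw [hrt q c hc]
      refine (G.rc_eq ⟨?_, Or.inl h0⟩).symm
      exact ⟨c, b, Relation.ReflTransGen.refl, hb⟩
    · rintro ⟨q, k, c, hc, b, hb⟩ h ⟨q', k', c', hc', b', hb'⟩ h' heq
      simp only [mem_sigma, mem_filter, mem_univ, true_and] at h h' heq
      subst heq
      have hk0 : k ≠ G.k0 := by
        intro h0
        apply h
        apply Subtype.ext
        rw [hrt q c hc]
        refine (G.rc_eq ⟨?_, Or.inl h0⟩).symm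
        exact ⟨c, b, Relation.ReflTransGen.refl, hb⟩
      have e1 : par G hk0 = q := by
        have hq : mk G c = q := hc
        rw [← hq]
        refine (on_iff G hk0 ⟨c, rfl, b, hb⟩).mp ?_
        intro h1
        apply h
        apply Subtype.ext
        rw [hrt q c hc]
        exact h1
      have e2 : par G hk0 = q' := by
        have hq : mk G c' = q' := hc'
        rw [← hq]
        refine (on_iff G hk0 ⟨c', rfl, b', hb'⟩).mp ?_
        intro h1
        apply h'
        apply Subtype.ext
        rw [hrt q' c' hc']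
        exact h1
      have : q = q' := e1.symm.trans e2
      subst this
      rfl
    · intro k hk
      simp only [mem_filter, mem_univ, true_and] at hk
      have hon : ∃ c' ∈ SQ G (mk G (G.we hk)), ∃ b, G.κ c' b = k := ⟨G.we hk, rfl, !G.w (G.we hk), G.we_spec hk⟩
      refine ⟨⟨mk G (G.we hk), ⟨k, hon⟩⟩, ?_, rfl⟩
      simp only [mem_sigma, mem_filter, mem_univ, true_and]
      intro h
      have h1 : k = G.rc (G.we hk) := by
        have := congrArg Subtype.val h
        rw [hrt _ (G.we hk) rfl] at this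
        exact this
      exact (on_iff G hk hon).mpr rfl h1
  have h1 : ∀ q : QP G, (univ.filter fun k : VS G.κ (SQ G q) => k ≠ rt q).card + 1 =
      Fintype.card (VS G.κ (SQ G q)) := by
    intro q
    have := card_filter_add_card_filter_not (s := (univ : Finset (VS G.κ (SQ G q)))) (p := fun k => k ≠ rt q)
    rw [card_univ] at this
    rw [← this]
    congr 1
    symm
    rw [card_eq_one]
    refine ⟨rt q, ?_⟩
    ext k; simp
  have h2 : (univ.filter fun k : K => k ≠ G.k0).card + 1 = Fintype.card K := by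
    have := card_filter_add_card_filter_not (s := (univ : Finset K)) (p := fun k => k ≠ G.k0)
    rw [card_univ] at this
    rw [← this]
    congr 1
    symm
    rw [card_eq_one]
    refine ⟨G.k0, ?_⟩
    ext k; simp
  rw [sum_congr rfl (fun q _ => (h1 q).symm), sum_add_distrib, hbij]
  simp only [sum_const, card_univ, smul_eq_mul, mul_one]
  omega

section Bounds

variable [DecidableEq C] [Fintype C] {σ : Bool → Equiv.Perm C} {c0 : C} {b0 : Bool}
variable [Fintype (QP G)] [∀ q, Fintype (SQ G q)]

/-- A <= sum of r -/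
theorem sum_A_le (hcirc : ∀ c b, G.κ (σ b c) b = G.κ c b)
    (hB : Bridgeless (fun c => G.κ c false) (fun c => G.κ c true)) {r : QP G → ℤ}
    (hr : ∀ q O, Strong (fun c => cs G.κ (SQ G q) c false) (fun c => cs G.κ (SQ G q) c true) O → A O ≤ r q)
    {x y : C → Bool} (hx : Acyc (sx σ c0 b0) x) (hy : Acyc (sy σ c0 b0) y) :
    ((univ.filter fun c => x c = true ∧ y c = false).card : ℤ) ≤ ∑ q, r q := by
  rw [card_pieces G, Nat.cast_sum]
  exact sum_le_sum fun q _ => piece_A_le hcirc (side G) (piece G q) (piece_bl (side G) (piece G q) hB) (hr q) hx hy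

/-- B <= sum of r -/
theorem sum_B_le (hcirc : ∀ c b, G.κ (σ b c) b = G.κ c b)
    (hB : Bridgeless (fun c => G.κ c false) (fun c => G.κ c true)) {r : QP G → ℤ}
    (hr : ∀ q O, Strong (fun c => cs G.κ (SQ G q) c false) (fun c => cs G.κ (SQ G q) c true) O → A O ≤ r q)
    {x y : C → Bool} (hx : Acyc (sx σ c0 b0) x) (hy : Acyc (sy σ c0 b0) y) :
    ((univ.filter fun c => x c = false ∧ y c = true).card : ℤ) ≤ ∑ q, r q := by
  rw [card_pieces G, Nat.cast_sum]
  exact sum_le_sum fun q _ => piece_B_le hcirc (side G) (piece G q) (piece_bl (side G) (piece G q) hB) (hr q) hx hy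

/-- |A - B| <= crossings + 1 - circles -/
theorem sum_kappa_le [Fintype K] (hcirc : ∀ c b, G.κ (σ b c) b = G.κ c b)
    (hne : ∀ c c', G.κ c true ≠ G.κ c' false) {x y : C → Bool} (hx : Acyc (sx σ c0 b0) x)
    (hy : Acyc (sy σ c0 b0) y) :
    |((univ.filter fun c => x c = true ∧ y c = false).card : ℤ) -
      ((univ.filter fun c => x c = false ∧ y c = true).card : ℤ)| ≤
      (Fintype.card C : ℤ) + 1 - (Fintype.card K : ℤ) := by
  classical
  have : ∀ q, Fintype (VS G.κ (SQ G q)) := fun q => Fintype.ofFinite _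
  have h1 : (univ.filter fun _ : C => True).card = ∑ q : QP G, (univ.filter fun _ : SQ G q => True).card :=
    card_pieces G (fun _ => True)
  simp only [filter_true, card_univ] at h1
  have h2 := sum_circles G
  rw [card_pieces G, card_pieces G, Nat.cast_sum, Nat.cast_sum, ← sum_sub_distrib]
  refine (abs_sum_le_sum_abs _ _).trans ?_
  have h3 : ∑ q : QP G, ((Fintype.card (SQ G q) : ℤ) + 1 - (Fintype.card (VS G.κ (SQ G q)) : ℤ)) =
      (Fintype.card C : ℤ) + 1 - (Fintype.card K : ℤ) := by
    rw [sum_sub_distrib, sum_add_distrib, ← Nat.cast_sum, ← Nat.cast_sum, ← h1]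
    simp only [sum_const, card_univ, nsmul_eq_mul, mul_one]
    have h4 : ((∑ q : QP G, Fintype.card (VS G.κ (SQ G q)) : ℕ) : ℤ) + 1 =
        (Fintype.card K : ℤ) + (Fintype.card (QP G) : ℤ) := by exact_mod_cast h2
    linarith
  rw [← h3]
  exact sum_le_sum fun q _ => piece_kappa_le hcirc hne (side G) (piece G q) hx hy

end Bounds

end LG3P.Sm
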