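import Pool.Agent.Lib.MP_3cd99b_gt.Dm
import Pool.Agent.Lib.MP_3cd99b_gt.Sm
import Pool.Agent.Lib.MP_3cd99b_gt.Out

/-!
# The pieces of an abstract diagram as special pieces
-/

namespace PoolLib.MP_3cd99b_gt.Dm

open Relation Oct LG3P.Sm

variable {C : Type*}

/-! ## first return -/

section fr

variable [Finite C] (σ : Equiv.Perm C) (sg : C → Bool)

theorem sameCycle_fr' (c : C) : σ.SameCycle c (fr σ sg c) := by
  rw [fr_apply]
  exact ⟨(frk σ sg c : ℤ), by rw [zpow_natCast]⟩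

theorem sameCycle_of_fr {c c' : C} (h : (fr σ sg).SameCycle c c') : σ.SameCycle c c' := by
  obtain ⟨n, rfl⟩ := h.exists_nat_pow_eq
  induction n with
  | zero => exact Equiv.Perm.SameCycle.refl _ _
  | succ n ih =>
    rw [pow_succ', Equiv.Perm.mul_apply]
    exact (ih ⟨n, by rw [zpow_natCast]⟩).trans (sameCycle_fr' σ sg _)

theorem fr_of_sameCycle {c c' : C} (h : σ.SameCycle c c') (hs : sg c = sg c') : ∃ n : ℕ, (fr σ sg ^ n) c = c' := by
  obtain ⟨k, rfl⟩ := h.exists_nat_pow_eq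
  clear h
  induction k using Nat.strong_induction_on generalizing c with
  | _ k ih =>
    rcases Nat.eq_zero_or_pos k with h0 | h0
    · subst h0
      exact ⟨0, rfl⟩
    · obtain ⟨h1, h2, h3⟩ := frk_spec σ sg c
      have h4 : frk σ sg c ≤ k := by
        by_contra hlt
        exact h3 k h0 (by omega) hs.symm
      have e : (σ ^ k) c = (σ ^ (k - frk σ sg c)) (fr σ sg c) := by
        rw [fr_apply, ← Equiv.Perm.mul_apply, ← pow_add]
        congr 2
        omega
      rw [e] at hs ⊢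
      obtain ⟨n, hn⟩ := ih (k - frk σ sg c) (by omega) (c := fr σ sg c) (by rw [sg_fr σ sg c]; exact hs)
      refine ⟨n + 1, ?_⟩
      rw [pow_succ, Equiv.Perm.mul_apply]
      exact hn

end fr

namespace Dg

variable [Finite C] (D : Dg C) (m : C × Bool) (i : QP (D.SG m))

theorem fr_mem (b : Bool) (c : C) : fr (D.st b) D.sg c ∈ SQ (D.SG m) i ↔ c ∈ SQ (D.SG m) i := by
  have h : LG3P.Sm.mk (D.SG m) (fr (D.st b) D.sg c) = LG3P.Sm.mk (D.SG m) c := by
    rw [mk_eq]
    refine ReflTransGen.single ⟨sg_fr _ _ _, b, b, ?_⟩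
    show D.κ (fr (D.st b) D.sg c) b = D.κ c b
    rw [D.κ_eq]
    exact ⟨rfl, (sameCycle_fr' _ _ _).symm⟩
  show LG3P.Sm.mk (D.SG m) (fr (D.st b) D.sg c) = i ↔ LG3P.Sm.mk (D.SG m) c = i
  rw [h]

/-- the next crossing of the piece on the circle of type b -/
noncomputable def sig (b : Bool) : Equiv.Perm (SQ (D.SG m) i) :=
  (fr (D.st b) D.sg).subtypePerm (D.fr_mem m i b)

theorem sig_apply (b : Bool) (c : SQ (D.SG m) i) : (D.sig m i b c : C) = fr (D.st b) D.sg c := rfl

/-- the circles of the piece -/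
abbrev Vi : Type _ := LG3P.R5.VS D.κ (SQ (D.SG m) i)

/-- the circle of a slot of the piece -/
def cir (c : SQ (D.SG m) i) (b : Bool) : D.Vi m i := LG3P.R5.cs D.κ (SQ (D.SG m) i) c b

theorem cir_val (c : SQ (D.SG m) i) (b : Bool) : (D.cir m i c b : Ci D.st) = D.κ c b := rfl

theorem cir_eq {c c' : SQ (D.SG m) i} {b b' : Bool} : D.cir m i c b = D.cir m i c' b' ↔ D.κ c b = D.κ c' b' := by
  rw [Subtype.ext_iff]
  rfl

theorem sg_mem {c c' : C} (h : c ∈ SQ (D.SG m) i) (h' : c' ∈ SQ (D.SG m) i) : D.sg c = D.sg c' := by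
  have h1 : (D.SG m).Pc c c' := (mk_eq _).1 (h.trans h'.symm)
  exact Tr.SG.Pc.sg (D.SG m) h1

theorem sig_pow (b : Bool) (n : ℕ) (c : SQ (D.SG m) i) :
    (((D.sig m i b) ^ n) c : C) = (fr (D.st b) D.sg ^ n) c := by
  induction n with
  | zero => rfl
  | succ n ih => rw [pow_succ', pow_succ', Equiv.Perm.mul_apply, Equiv.Perm.mul_apply, D.sig_apply, ih]

theorem sig_sameCycle {b : Bool} {c c' : SQ (D.SG m) i} :
    (D.sig m i b).SameCycle c c' ↔ (D.st b).SameCycle (c : C) (c' : C) := by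
  constructor
  · intro h
    obtain ⟨n, rfl⟩ := h.exists_nat_pow_eq
    rw [D.sig_pow]
    exact sameCycle_of_fr _ D.sg ⟨n, by rw [zpow_natCast]⟩
  · intro h
    obtain ⟨n, hn⟩ := fr_of_sameCycle _ D.sg h (D.sg_mem m i c.2 c'.2)
    refine ⟨n, ?_⟩
    rw [zpow_natCast]
    apply Subtype.ext
    rw [D.sig_pow, hn]

theorem sig_conn (T : Set (SQ (D.SG m) i)) (hT : T.Nonempty) (hc : ∀ c ∈ T, ∀ b, D.sig m i b c ∈ T) :
    T = Set.univ := by
  have hpow : ∀ b (n : ℕ), ∀ c ∈ T, ((D.sig m i b) ^ n) c ∈ T := by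
    intro b n
    induction n with
    | zero => intro c h; exact h
    | succ n ih =>
      intro c h
      rw [pow_succ', Equiv.Perm.mul_apply]
      exact hc _ (ih c h) b
  obtain ⟨⟨c0, h0⟩, hc0⟩ := hT
  rw [Set.eq_univ_iff_forall]
  rintro ⟨c, hcm⟩
  have h1 : (D.SG m).Pc c0 c := (mk_eq _).1 (h0.trans hcm.symm)
  induction h1 with
  | refl => exact hc0
  | @tail c' c'' h2 h3 ih =>
    have hm : c' ∈ SQ (D.SG m) i := by
      show LG3P.Sm.mk (D.SG m) c' = i
      rw [← (mk_eq _).2 h2]; exact h0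
    have h4 := ih hm
    obtain ⟨_, b, b', h5⟩ := h3
    have h5' : D.κ c' b = D.κ c'' b' := h5
    rw [D.κ_eq] at h5'
    have h6 : (D.sig m i b).SameCycle ⟨c', hm⟩ ⟨c'', hcm⟩ := (D.sig_sameCycle m i).2 h5'.2
    obtain ⟨n, hn⟩ := h6.exists_nat_pow_eq
    rw [← hn]
    exact hpow b n _ h4

omit [Finite C] in
theorem brid : LG3P.Gr.Bridgeless (fun c => D.κ c false) (fun c => D.κ c true) := by
  intro T e he
  by_contra hcon
  push Not at hcon
  have h1 : ∀ e', e' ≠ e → (D.κ e' false ∈ T ↔ D.κ e' true ∈ T) := by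
    intro e' hne
    obtain ⟨h1, h2⟩ := hcon e' hne
    constructor
    · intro h
      exact h1 h
    · intro h
      exact h2 h
  have h2 : D.κ e true ∈ T → D.κ e false ∈ T := by
    refine D.nob e {z : C × Bool | D.κ z.1 z.2 ∈ T} ?_ ?_
    · intro c b h
      show D.κ (D.st b c) b ∈ T
      rw [D.κ_st]; exact h
    · intro c b hne h
      have h' : D.κ c b ∈ T := h
      show D.κ c (!b) ∈ T
      cases b
      · exact (h1 c hne).1 h'
      · exact (h1 c hne).2 h'
  have h3 : D.κ e true ∉ T → D.κ e false ∉ T := by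
    refine D.nob e {z : C × Bool | D.κ z.1 z.2 ∉ T} ?_ ?_
    · intro c b h
      show D.κ (D.st b c) b ∉ T
      rw [D.κ_st]; exact h
    · intro c b hne h
      have h' : D.κ c b ∉ T := h
      show D.κ c (!b) ∉ T
      cases b
      · exact fun h4 => h' ((h1 c hne).2 h4)
      · exact fun h4 => h' ((h1 c hne).1 h4)
  rcases he with ⟨h4, h5⟩ | ⟨h4, h5⟩
  · exact h3 h5 h4
  · exact h5 (h2 h4)

/-- the circle function of a piece -/
abbrev cp : SQ (D.SG m) i → Bool → D.Vi m i := LG3P.R5.cs D.κ (SQ (D.SG m) i)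

/-- the face of a corner of a piece -/
noncomputable def fci (z : SQ (D.SG m) i × Bool) : Quotient (Equiv.Perm.SameCycle.setoid (LG3P.Top.phi (D.sig m i))) :=
  Quotient.mk _ z

theorem pieceI (hpl : ∀ O, LG3P.Gr.Strong (fun c => D.cp m i c false) (fun c => D.cp m i c true) O →
    ∃ h : Quotient (Equiv.Perm.SameCycle.setoid (LG3P.Top.phi (D.sig m i))) → ℤ,
      ∀ c, h (D.fci m i (c, O c)) < h (D.fci m i (c, !O c))) :
    LG3P.Top.Piece (D.sig m i) (D.cp m i) (D.fci m i) where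
  orb c c' b := by
    rw [D.sig_sameCycle]
    show D.cir m i c b = D.cir m i c' b ↔ _
    rw [D.cir_eq, D.κ_eq]
    simp
  surj := by
    rintro ⟨v, c, hc, b, rfl⟩
    exact ⟨⟨c, hc⟩, b, rfl⟩
  ne c c' h := by
    have h' : D.cir m i c true = D.cir m i c' false := h
    rw [D.cir_eq] at h'
    exact D.κ_ne _ _ h'
  face z z' := by
    unfold fci
    rw [Quotient.eq]
    rfl
  conn T hT hc := D.sig_conn m i T hT hc
  bl := piece_bl (LG3P.Sm.side (D.SG m)) (LG3P.Sm.piece (D.SG m) i) D.brid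
  pl := hpl

/-- distance inside the piece from the circle on which the piece is cut -/
noncomputable def di (q : SQ (D.SG m) i) (v : D.Vi m i) : ℕ := (D.SG m).dist v - (D.SG m).dist ((D.SG m).rc q)

theorem on_mem (q : SQ (D.SG m) i) (c : SQ (D.SG m) i) (b : Bool) : (D.SG m).On q (D.κ c b) :=
  ⟨c, b, (mk_eq _).1 (Eq.trans q.2 (Eq.symm c.2)), rfl⟩

theorem dist_mem (q : SQ (D.SG m) i) (c : SQ (D.SG m) i) (b : Bool) :
    (D.SG m).dist ((D.SG m).rc q) ≤ (D.SG m).dist (D.κ c b) := by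
  by_cases h : D.κ c b = (D.SG m).rc q
  · rw [h]
  · exact ((D.SG m).root_lt ((D.SG m).rc_spec q) (D.on_mem m i q c b) h).le

theorem pdist (q : SQ (D.SG m) i) (b0 : Bool) (hq : D.κ q b0 = (D.SG m).rc q) :
    PDist (D.cp m i) (D.cp m i q b0) (D.di m i q) where
  zero c b := by
    show (D.SG m).dist (D.κ c b) - (D.SG m).dist ((D.SG m).rc q) = 0 ↔ D.cir m i c b = D.cir m i q b0
    rw [D.cir_eq, hq]
    constructor
    · intro h
      by_contra hne
      have := (D.SG m).root_lt ((D.SG m).rc_spec q) (D.on_mem m i q c b) hne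
      omega
    · intro h
      rw [h]; omega
  ne c := by
    show (D.SG m).dist (D.κ c true) - (D.SG m).dist ((D.SG m).rc q) ≠
      (D.SG m).dist (D.κ c false) - (D.SG m).dist ((D.SG m).rc q)
    have h1 := D.dist_mem m i q c true
    have h2 := D.dist_mem m i q c false
    have h3 : (D.SG m).dist (D.κ c true) ≠ (D.SG m).dist (D.κ c false) := (D.SG m).dist_ne c
    omega
  closer c b h := by
    have h0 : (D.SG m).dist (D.κ c b) - (D.SG m).dist ((D.SG m).rc q) ≠ 0 := h
    have h1 : D.κ c b ≠ (D.SG m).rc q := by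
      intro h2
      rw [h2] at h0
      omega
    have h2 : D.κ c b ≠ (D.SG m).k0 := by
      intro h3
      rw [h3, ((D.SG m).dist_zero _).2 rfl] at h0
      omega
    obtain ⟨u, hu⟩ := (D.SG m).exists_up h2
    have hqc : (D.SG m).Pc q c := (mk_eq _).1 (Eq.trans q.2 (Eq.symm c.2))
    have h3 : (D.SG m).out true ((c : C), b) := by
      rw [(D.SG m).out_iff]
      right
      rw [← (D.SG m).rc_of_pc hqc]
      exact h1
    have h4 : (D.SG m).sg u = (D.SG m).sg c := by
      rw [(D.SG m).sg_up true u, hu]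
      exact h3.symm
    have h5 : D.κ u (!(D.SG m).w u) = D.κ c b := hu
    have h6 : (D.SG m).Pc c u := ReflTransGen.single ⟨h4.symm, b, _, h5.symm⟩
    have h7 : u ∈ SQ (D.SG m) i := by
      show LG3P.Sm.mk (D.SG m) u = i
      rw [← (mk_eq _).2 h6]; exact c.2
    have h8 : (!(D.SG m).w u) = b := (D.κ_eq.1 h5).1
    refine ⟨⟨u, h7⟩, ?_, ?_⟩
    · show D.cir m i ⟨u, h7⟩ b = D.cir m i c b
      rw [D.cir_eq]
      show D.κ u b = D.κ c b
      rw [← h8]; exact h5.trans (by rw [h8])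
    · show (D.SG m).dist (D.κ u (!b)) - (D.SG m).dist ((D.SG m).rc q) <
        (D.SG m).dist (D.κ u b) - (D.SG m).dist ((D.SG m).rc q)
      have h9 := D.dist_mem m i q ⟨u, h7⟩ (!b)
      have h10 := (D.SG m).lo_lt u
      have h11 : (D.SG m).lo u = D.κ u (!b) := by
        show D.κ u ((D.SG m).w u) = D.κ u (!b)
        rw [← h8, Bool.not_not]
      have h12 : (D.SG m).up u = D.κ u b := by
        show D.κ u (!(D.SG m).w u) = D.κ u b
        rw [h8]
      rw [h11, h12] at h10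
      have h9' : (D.SG m).dist ((D.SG m).rc q) ≤ (D.SG m).dist (D.κ u (!b)) := h9
      omega

end Dg

end PoolLib.MP_3cd99b_gt.Dm
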