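import Pool.Agent.Lib.MP_3cd99b_gt.Level
import Pool.Agent.Lib.MP_3cd99b_gt.Oct

/-!
The acyclic states of a special piece form a `Level.Sys` with `Top` and `Bot`.
-/

namespace PoolLib.MP_3cd99b_gt.Oct

open Function Finset Relation LG3P.Level

variable {W : Type*} [Fintype W] [DecidableEq W] {s : W → Bool → Option W}

theorem low_update_lower {lab x : W → Bool} {u : W} (hu : x u = lab u) :
    low lab (update x u (!lab u)) = low lab x + 1 := by
  unfold low
  have e : (univ.filter fun v => update x u (!lab u) v ≠ lab v)
      = insert u (univ.filter fun v => x v ≠ lab v) := by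
    ext v
    simp only [mem_filter, mem_univ, true_and, mem_insert]
    by_cases h : v = u
    · subst h; simp
    · simp [h]
  rw [e, card_insert_of_notMem (by simp [hu])]

theorem low_update_raise {lab x : W → Bool} {u : W} (hu : x u ≠ lab u) :
    low lab (update x u (lab u)) + 1 = low lab x := by
  have h := low_update_lower (lab := lab) (x := update x u (lab u)) (u := u) (by simp)
  have e : update (update x u (lab u)) u (!lab u) = x := by
    rw [update_idem]
    have : (!lab u) = x u := by revert hu; cases x u <;> cases lab u <;> simp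
    rw [this]; exact update_eq_self u x
  rw [e] at h
  omega

theorem low_DM {lab a b : W → Bool} (h : DM s lab a b) : low lab b = low lab a := by
  obtain ⟨_, _, u, v, huv, hu, hv, _, _, rfl⟩ := h
  have h1 := low_update_lower hu
  have h2 : update a u (!lab u) v ≠ lab v := by rwa [update_of_ne huv.symm]
  have h3 := low_update_raise h2
  omega

theorem raise_of_not_top {lab x : W → Bool} (hx : Acyc s x) (h : ¬ Top lab s x) :
    ∃ u, x u ≠ lab u ∧ Acyc s (update x u (lab u)) := by
  unfold Top at h
  rw [not_and_or] at h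
  rcases h with h | h
  · push Not at h
    obtain ⟨v, hv, m, hm⟩ := h
    obtain ⟨u, h1, h2, _⟩ := exists_raise_root lab hx v m hm hv
    exact ⟨u, h1, h2⟩
  · push Not at h
    obtain ⟨v, v', hv, hv', ⟨p, hp, hper⟩, ⟨q, hq⟩, hne⟩ := h
    obtain ⟨u, h1, h2, _⟩ := exists_raise_circle lab hx v v' hne p hp hper q hq hv hv'
    exact ⟨u, h1, h2⟩

theorem low_top_eq {lab x x' : W → Bool} (hc : Circular s lab) (hx : Acyc s x)
    (hx' : Acyc s x') (hT : Top lab s x) (hT' : Top lab s x') : low lab x' = low lab x := by
  have h := top_connected lab hc hx hx' hT hT'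
  induction h with
  | refl => rfl
  | tail _ h ih =>
    rw [low_DM h.2.2]
    exact ih h.2.2.1 h.1

theorem low_top_le {lab x y : W → Bool} (hc : Circular s lab) (hx : Acyc s x)
    (hT : Top lab s x) (hy : Acyc s y) : low lab x ≤ low lab y := by
  obtain ⟨y', _, h2, _, h4, h5⟩ := walk_raise lab (fun _ => True) (fun _ _ _ _ _ => trivial) hy
    trivial
  rw [← low_top_eq hc hx h2 hT h4]
  unfold low
  apply card_le_card
  intro v hv
  simp only [mem_filter, mem_univ, true_and] at hv ⊢
  rw [← h5 v hv]; exact hv

/-- least number of lower labels -/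
noncomputable def mn (s : W → Bool → Option W) (lab : W → Bool) : ℕ :=
  sInf {n | ∃ x, Acyc s x ∧ low lab x = n}

theorem mn_le {lab x : W → Bool} (hx : Acyc s x) : mn s lab ≤ low lab x :=
  Nat.sInf_le ⟨x, hx, rfl⟩

theorem low_top {lab x : W → Bool} (hc : Circular s lab) (hx : Acyc s x) (hT : Top lab s x) :
    low lab x = mn s lab := by
  apply le_antisymm _ (mn_le hx)
  have hne : {n | ∃ x, Acyc s x ∧ low lab x = n}.Nonempty := ⟨_, x, hx, rfl⟩
  obtain ⟨y, hy, hyn⟩ := Nat.sInf_mem hne
  have := low_top_le hc hx hT hy
  unfold mn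
  rw [← hyn]; exact this

theorem top_of_low {lab x : W → Bool} (hx : Acyc s x) (h : low lab x = mn s lab) :
    Top lab s x := by
  by_contra hT
  obtain ⟨u, hu, ha⟩ := raise_of_not_top hx hT
  have h1 := mn_le (lab := lab) ha
  have h2 := low_update_raise hu
  omega

/-- one flip -/
def Flip (x x' : {x : W → Bool // Acyc s x}) : Prop := ∃ v, x'.1 = update x.1 v (!x.1 v)

theorem Flip.symm {x x' : {x : W → Bool // Acyc s x}} (h : Flip x x') : Flip x' x := by
  obtain ⟨v, hv⟩ := h
  exact ⟨v, by rw [hv, update_idem, update_self, Bool.not_not, update_eq_self]⟩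

theorem Flip.low {lab : W → Bool} {x x' : {x : W → Bool // Acyc s x}} (h : Flip x x') :
    low lab x'.1 = low lab x.1 + 1 ∨ low lab x'.1 + 1 = low lab x.1 := by
  obtain ⟨v, hv⟩ := h
  rw [hv]
  by_cases h : x.1 v = lab v
  · left; rw [h]; exact low_update_lower h
  · right
    have : (!x.1 v) = lab v := by revert h; cases x.1 v <;> cases lab v <;> simp
    rw [this]; exact low_update_raise h

/-- top states are joined by flips which stay at distance at most one -/
theorem flips_of_top {lab : W → Bool} (hc : Circular s lab) (x x' : {x : W → Bool // Acyc s x})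
    (hT : Top lab s x.1) (hT' : Top lab s x'.1) :
    ReflTransGen (fun a b => Flip a b ∧ low lab b.1 ≤ low lab x.1 + 1) x x' := by
  have h := top_connected lab hc x.2 x'.2 hT hT'
  obtain ⟨x', hx'⟩ := x'
  simp only at h hT'
  clear hT'
  have key : ∀ y, ReflTransGen (fun a b => Top lab s a ∧ Top lab s b ∧ DM s lab a b) x.1 y →
      ∀ hy : Acyc s y, low lab y = low lab x.1 ∧
        ReflTransGen (fun a b => Flip a b ∧ low lab b.1 ≤ low lab x.1 + 1) x ⟨y, hy⟩ := by
    intro y h
    induction h with
    | refl => intro hy; exact ⟨rfl, .refl⟩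
    | @tail b c hb hbc ih =>
      intro hy
      obtain ⟨i1, i2⟩ := ih hbc.2.2.1
      have hl := low_DM hbc.2.2
      refine ⟨hl.trans i1, ?_⟩
      obtain ⟨_, _, hDM⟩ := hbc
      obtain ⟨hbA, _, u, v, huv, hu, hv, _, hm, rfl⟩ := hDM
      have h2 : update b u (!lab u) v ≠ lab v := by rwa [update_of_ne huv.symm]
      have s1 : Flip (⟨b, hbA⟩ : {x : W → Bool // Acyc s x}) ⟨_, hm⟩ :=
        ⟨u, by simp only [hu]⟩
      have s2 : Flip (⟨_, hm⟩ : {x : W → Bool // Acyc s x}) ⟨_, hy⟩ := by
        refine ⟨v, ?_⟩
        have : (!(update b u (!lab u) v)) = lab v := by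
          revert h2; cases update b u (!lab u) v <;> cases lab v <;> simp
        simp only [this]
      refine (i2.tail ⟨s1, ?_⟩).tail ⟨s2, ?_⟩
      · simp only; rw [low_update_lower hu, i1]
      · simp only at hl ⊢; omega
  exact (key x' h hx').2

theorem low_add (x : W → Bool) (lab : W → Bool) :
    low lab x + low (fun v => !lab v) x = Fintype.card W := by
  unfold low
  rw [← card_univ, ← card_filter_add_card_filter_not (s := univ) (fun v => x v ≠ lab v)]
  congr 2
  ext v
  simp only [mem_filter, mem_univ, true_and]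
  cases x v <;> cases lab v <;> simp

theorem low_add_int (x : W → Bool) (lab : W → Bool) :
    (low lab x : ℤ) + low (fun v => !lab v) x = Fintype.card W := by
  exact_mod_cast low_add x lab

theorem exists_up {lab : W → Bool} (hc : Circular s lab) (x : {x : W → Bool // Acyc s x})
    (h : mn s lab < low lab x.1) :
    ∃ x', Flip x x' ∧ low lab x'.1 + 1 = low lab x.1 := by
  have hT : ¬ Top lab s x.1 := fun hT => by
    have := low_top hc x.2 hT
    omega
  obtain ⟨u, hu, ha⟩ := raise_of_not_top x.2 hT
  refine ⟨⟨_, ha⟩, ⟨u, ?_⟩, low_update_raise hu⟩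
  have : (!x.1 u) = lab u := by revert hu; cases x.1 u <;> cases lab u <;> simp
  simp only [this]

/-- The system of the acyclic states: `lab` is the upper labelling, height = number of upper labels
minus its least value. -/
noncomputable def sys (s : W → Bool → Option W) (lab : W → Bool) (hc : Circular s lab)
    (hc' : Circular s (fun v => !lab v)) :
    Sys {x : W → Bool // Acyc s x}
      ((Fintype.card W : ℤ) - mn s lab - mn s (fun v => !lab v)) where
  R := Flip
  k := fun x => (low (fun v => !lab v) x.1 : ℤ) - mn s (fun v => !lab v)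
  symm := Flip.symm
  step := fun h => by
    rcases h.low (lab := fun v => !lab v) with h | h
    · left; rw [h]; push_cast; ring
    · right; rw [← h]; push_cast; ring
  lo := fun x => by
    have := mn_le (lab := fun v => !lab v) x.2
    have : (mn s (fun v => !lab v) : ℤ) ≤ low (fun v => !lab v) x.1 := by exact_mod_cast this
    linarith
  hi := fun x => by
    have h1 := mn_le (lab := lab) x.2
    have h2 := low_add_int x.1 lab
    have h1' : (mn s lab : ℤ) ≤ low lab x.1 := by exact_mod_cast h1
    linarith
  up := fun x hx => by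
    have h2 := low_add_int x.1 lab
    have h3 : (mn s lab : ℤ) < low lab x.1 := by linarith
    obtain ⟨x', h4, h5⟩ := exists_up hc x (by exact_mod_cast h3)
    refine ⟨x', h4, ?_⟩
    have h6 := low_add_int x'.1 lab
    have h5' : (low lab x'.1 : ℤ) + 1 = low lab x.1 := by exact_mod_cast h5
    linarith
  dn := fun x hx => by
    have h3 : (mn s (fun v => !lab v) : ℤ) < low (fun v => !lab v) x.1 := by linarith
    obtain ⟨x', h4, h5⟩ := exists_up hc' x (by exact_mod_cast h3)
    refine ⟨x', h4, ?_⟩
    have h5' : (low (fun v => !lab v) x'.1 : ℤ) + 1 = low (fun v => !lab v) x.1 := by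
      exact_mod_cast h5
    linarith

theorem sys_R (lab : W → Bool) (hc : Circular s lab) (hc' : Circular s (fun v => !lab v))
    (x x' : {x : W → Bool // Acyc s x}) : (sys s lab hc hc').R x x' ↔ Flip x x' := Iff.rfl

theorem sys_k (lab : W → Bool) (hc : Circular s lab) (hc' : Circular s (fun v => !lab v))
    (x : {x : W → Bool // Acyc s x}) :
    (sys s lab hc hc').k x = (low (fun v => !lab v) x.1 : ℤ) - mn s (fun v => !lab v) := rfl

/-- the height in terms of the lower labels -/
theorem sys_k' (lab : W → Bool) (hc : Circular s lab) (hc' : Circular s (fun v => !lab v))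
    (x : {x : W → Bool // Acyc s x}) :
    (sys s lab hc hc').k x = (Fintype.card W : ℤ) - low lab x.1 - mn s (fun v => !lab v) := by
  rw [sys_k]; have := low_add_int x.1 lab; linarith

theorem sys_top (lab : W → Bool) (hc : Circular s lab) (hc' : Circular s (fun v => !lab v)) :
    (sys s lab hc hc').Top := by
  intro x x' hx hx'
  rw [sys_k'] at hx hx'
  have h1 : low lab x.1 = mn s lab := by
    have : (low lab x.1 : ℤ) = mn s lab := by linarith
    exact_mod_cast this
  have h2 : low lab x'.1 = mn s lab := by
    have : (low lab x'.1 : ℤ) = mn s lab := by linarith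
    exact_mod_cast this
  have h := flips_of_top hc x x' (top_of_low x.2 h1) (top_of_low x'.2 h2)
  refine ReflTransGen.mono ?_ _ _ h
  intro a b hab
  refine ⟨hab.1, ?_⟩
  rw [sys_k']
  have h3 : (low lab b.1 : ℤ) ≤ low lab x.1 + 1 := by exact_mod_cast hab.2
  have h4 : (low lab x.1 : ℤ) = mn s lab := by exact_mod_cast h1
  linarith

theorem sys_bot (lab : W → Bool) (hc : Circular s lab) (hc' : Circular s (fun v => !lab v)) :
    (sys s lab hc hc').Bot := by
  intro x x' hx hx'
  rw [sys_k] at hx hx'
  have h1 : low (fun v => !lab v) x.1 = mn s (fun v => !lab v) := by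
    have : (low (fun v => !lab v) x.1 : ℤ) = mn s (fun v => !lab v) := by linarith
    exact_mod_cast this
  have h2 : low (fun v => !lab v) x'.1 = mn s (fun v => !lab v) := by
    have : (low (fun v => !lab v) x'.1 : ℤ) = mn s (fun v => !lab v) := by linarith
    exact_mod_cast this
  have h := flips_of_top hc' x x' (top_of_low x.2 h1) (top_of_low x'.2 h2)
  refine ReflTransGen.mono ?_ _ _ h
  intro a b hab
  refine ⟨hab.1, ?_⟩
  rw [sys_k]
  have h3 : (low (fun v => !lab v) b.1 : ℤ) ≤ low (fun v => !lab v) x.1 + 1 := by
    exact_mod_cast hab.2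
  have h4 : (low (fun v => !lab v) x.1 : ℤ) = mn s (fun v => !lab v) := by exact_mod_cast h1
  linarith

end PoolLib.MP_3cd99b_gt.Oct
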