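import Pool.Agent.Lib.MP_3cd99b_gt.Sm
import Pool.Agent.Lib.MP_3cd99b_gt.Pc

/-!
# The region of a mixed diagram: upper half (P2, MP_3cd99b_gt)

`ZA`, `ZB` = the two exponents of a pair of states. Every pair of acyclic walkers lies in
`-R₋ ≤ A, B ≤ R₊`, `-n₋ ≤ A + B ≤ n₊`, `|A - B| ≤ n + 1 - s`.
-/

namespace LG3P.Sm

open Finset Function PoolLib.MP_3cd99b_gt.Oct LG3P.Gr LG3P.Top LG3P.R5 PoolLib.MP_3cd99b_gt.Tr

/-- the sign as an integer -/
def sgi (b : Bool) : ℤ := if b then 1 else -1

section Z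

variable {C : Type*} [Fintype C]

/-- the first exponent -/
def ZA (sg x y : C → Bool) : ℤ := ∑ c, if x c = true ∧ y c = false then sgi (sg c) else 0

/-- the second exponent -/
def ZB (sg x y : C → Bool) : ℤ := ∑ c, if x c = false ∧ y c = true then sgi (sg c) else 0

theorem Z_add (sg x y : C → Bool) :
    ZA sg x y + ZB sg x y ≤ ((univ.filter fun c => sg c = true).card : ℤ) ∧
      -((univ.filter fun c => sg c = false).card : ℤ) ≤ ZA sg x y + ZB sg x y := by
  unfold ZA ZB
  rw [← sum_add_distrib, card_filter, card_filter, Nat.cast_sum, Nat.cast_sum, ← sum_neg_distrib]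
  constructor
  · refine sum_le_sum fun c _ => ?_
    cases x c <;> cases y c <;> cases sg c <;> simp [sgi]
  · refine sum_le_sum fun c _ => ?_
    cases x c <;> cases y c <;> cases sg c <;> simp [sgi]

end Z

variable {C K : Type*} (G : SG C K)

/-- the sign of a piece -/
def sgq (q : QP G) : Bool := Quotient.lift (s := pcS G) G.sg (fun _ _ h => SG.Pc.sg G h) q

theorem sgq_eq {q : QP G} {c : C} (h : c ∈ SQ G q) : G.sg c = sgq G q := by
  have h' : mk G c = q := h
  rw [← h']; rfl

section S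

variable [Fintype C] [Fintype (QP G)] [∀ q, Fintype (SQ G q)]

/-- sum over the crossings = sum over the pieces -/
theorem sum_pieces (f : C → ℤ) : ∑ c, f c = ∑ q : QP G, ∑ c : SQ G q, f c := by
  classical
  rw [← sum_fiberwise_of_maps_to (s := univ) (t := univ) (g := mk G) (fun _ _ => mem_univ _) f]
  refine sum_congr rfl fun q _ => ?_
  symm
  refine sum_bij (fun c _ => c.1) ?_ ?_ ?_ ?_
  · rintro ⟨c, hc⟩ _
    simp only [mem_filter, mem_univ, true_and]
    exact hc
  · rintro ⟨c, hc⟩ _ ⟨c', hc'⟩ _ h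
    exact Subtype.ext h
  · intro c h
    simp only [mem_filter, mem_univ, true_and] at h
    exact ⟨⟨c, h⟩, mem_univ _, rfl⟩
  · intro c _; rfl

theorem ZA_eq (x y : C → Bool) : ZA G.sg x y =
    ∑ q : QP G, sgi (sgq G q) * ((univ.filter fun c : SQ G q => x c = true ∧ y c = false).card : ℤ) := by
  unfold ZA
  rw [sum_pieces G]
  refine sum_congr rfl fun q _ => ?_
  rw [card_filter, Nat.cast_sum, mul_sum]
  refine sum_congr rfl fun c _ => ?_
  rw [sgq_eq G c.2]
  split_ifs <;> simp

theorem ZB_eq (x y : C → Bool) : ZB G.sg x y =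
    ∑ q : QP G, sgi (sgq G q) * ((univ.filter fun c : SQ G q => x c = false ∧ y c = true).card : ℤ) := by
  unfold ZB
  rw [sum_pieces G]
  refine sum_congr rfl fun q _ => ?_
  rw [card_filter, Nat.cast_sum, mul_sum]
  refine sum_congr rfl fun c _ => ?_
  rw [sgq_eq G c.2]
  split_ifs <;> simp

/-- the sum of the numbers `rr` of the pieces of the sign `s` -/
noncomputable def RR (s : Bool) : ℕ := ∑ q : QP G, if sgq G q = s then rr (cs G.κ (SQ G q)) else 0

end S

/-- `rr` is an upper bound -/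
theorem le_rr {E V : Type*} [Fintype E] (circ : E → Bool → V) (O : E → Bool)
    (hO : Strong (fun c => circ c false) (fun c => circ c true) O) : A O ≤ rr circ := by
  classical
  have hbdd : BddAbove {n : ℕ | ∃ O, Strong (fun c => circ c false) (fun c => circ c true) O ∧
      (univ.filter fun c => O c = true).card = n} := by
    refine ⟨Fintype.card E, ?_⟩
    rintro n ⟨O, _, rfl⟩
    exact card_le_univ _
  rw [A_eq]
  exact_mod_cast le_csSup hbdd ⟨O, hO, rfl⟩

theorem sum_signed_le {ι : Type*} [Fintype ι] (s : ι → Bool) (f g : ι → ℤ) (h0 : ∀ i, 0 ≤ f i) (h : ∀ i, f i ≤ g i) :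
    (∑ i, sgi (s i) * f i ≤ ∑ i, if s i = true then g i else 0) ∧
      (-(∑ i, if s i = false then g i else 0) ≤ ∑ i, sgi (s i) * f i) := by
  rw [← sum_neg_distrib]
  constructor
  · refine sum_le_sum fun i _ => ?_
    have := h0 i
    have := h i
    cases s i <;> simp [sgi] <;> linarith
  · refine sum_le_sum fun i _ => ?_
    have := h0 i
    have := h i
    cases s i <;> simp [sgi] <;> linarith

section R

variable [DecidableEq C] [Fintype C] [Fintype (QP G)] [∀ q, Fintype (SQ G q)] [Fintype K]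

/-- **the upper half of the region theorem** -/
theorem region {σ : Bool → Equiv.Perm C} {c0 : C} {b0 : Bool} (hcirc : ∀ c b, G.κ (σ b c) b = G.κ c b)
    (hne : ∀ c c', G.κ c true ≠ G.κ c' false)
    (hB : Bridgeless (fun c => G.κ c false) (fun c => G.κ c true)) {x y : C → Bool}
    (hx : Acyc (sx σ c0 b0) x) (hy : Acyc (sy σ c0 b0) y) :
    ZA G.sg x y ≤ RR G true ∧ -(RR G false : ℤ) ≤ ZA G.sg x y ∧
    ZB G.sg x y ≤ RR G true ∧ -(RR G false : ℤ) ≤ ZB G.sg x y ∧
    ZA G.sg x y + ZB G.sg x y ≤ ((univ.filter fun c => G.sg c = true).card : ℤ) ∧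
    -((univ.filter fun c => G.sg c = false).card : ℤ) ≤ ZA G.sg x y + ZB G.sg x y ∧
    |ZA G.sg x y - ZB G.sg x y| ≤ (Fintype.card C : ℤ) + 1 - (Fintype.card K : ℤ) := by
  classical
  have hr : ∀ q O, Strong (fun c => cs G.κ (SQ G q) c false) (fun c => cs G.κ (SQ G q) c true) O →
      A O ≤ (rr (cs G.κ (SQ G q)) : ℤ) := fun q O hO => le_rr _ O hO
  have hbl := fun q => piece_bl (side G) (piece G q) hB
  have hcast : ∀ s, (RR G s : ℤ) = ∑ q : QP G, if sgq G q = s then (rr (cs G.κ (SQ G q)) : ℤ) else 0 := by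
    intro s
    unfold RR
    push_cast
    rfl
  have hA := sum_signed_le (sgq G) (fun q => ((univ.filter fun c : SQ G q => x c = true ∧ y c = false).card : ℤ))
    (fun q => (rr (cs G.κ (SQ G q)) : ℤ)) (fun q => by positivity)
    (fun q => piece_A_le hcirc (side G) (piece G q) (hbl q) (hr q) hx hy)
  have hBb := sum_signed_le (sgq G) (fun q => ((univ.filter fun c : SQ G q => x c = false ∧ y c = true).card : ℤ))
    (fun q => (rr (cs G.κ (SQ G q)) : ℤ)) (fun q => by positivity)
    (fun q => piece_B_le hcirc (side G) (piece G q) (hbl q) (hr q) hx hy)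
  rw [← ZA_eq, ← hcast, ← hcast] at hA
  rw [← ZB_eq, ← hcast, ← hcast] at hBb
  have h3 := Z_add G.sg x y
  refine ⟨hA.1, hA.2, hBb.1, hBb.2, h3.1, h3.2, ?_⟩
  have : ∀ q, Fintype (VS G.κ (SQ G q)) := fun q => Fintype.ofFinite _
  have h1 : (univ.filter fun _ : C => True).card = ∑ q : QP G, (univ.filter fun _ : SQ G q => True).card :=
    card_pieces G (fun _ => True)
  simp only [filter_true, card_univ] at h1
  have h2 := sum_circles G
  rw [ZA_eq, ZB_eq, ← sum_sub_distrib]
  refine (abs_sum_le_sum_abs _ _).trans ?_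
  have h3 : ∑ q : QP G, ((Fintype.card (SQ G q) : ℤ) + 1 - (Fintype.card (VS G.κ (SQ G q)) : ℤ)) =
      (Fintype.card C : ℤ) + 1 - (Fintype.card K : ℤ) := by
    rw [sum_sub_distrib, sum_add_distrib, ← Nat.cast_sum, ← Nat.cast_sum, ← h1]
    simp only [sum_const, card_univ, nsmul_eq_mul, mul_one]
    have h4 : ((∑ q : QP G, Fintype.card (VS G.κ (SQ G q)) : ℕ) : ℤ) + 1 =
        (Fintype.card K : ℤ) + (Fintype.card (QP G) : ℤ) := by exact_mod_cast h2
    linarith
  rw [← h3]
  refine sum_le_sum fun q _ => ?_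
  rw [← mul_sub, abs_mul]
  have h4 : |sgi (sgq G q)| = 1 := by cases sgq G q <;> simp [sgi]
  rw [h4, one_mul]
  exact piece_kappa_le hcirc hne (side G) (piece G q) hx hy

end R

end LG3P.Sm
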