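import Pool.Agent.Lib.MP_3cd99b_gt.D

/-! Lattice convexity of sets contained in five neighbouring diagonals. -/

open Finset

namespace LG3

theorem sep {S : Set (ℤ × ℤ)} {z : ℤ × ℤ} (a b : ℤ) (h : ∀ w ∈ S, a * z.1 + b * z.2 < a * w.1 + b * w.2) :
    ((z.1 : ℝ), (z.2 : ℝ)) ∉ convexHull ℝ ((fun w : ℤ × ℤ => ((w.1 : ℝ), (w.2 : ℝ))) '' S) := by
  intro hz
  have hc : Convex ℝ {p : ℝ × ℝ | (a : ℝ) * z.1 + b * z.2 < a * p.1 + b * p.2} := by
    intro p hp q hq s t hs ht hst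
    simp only [Set.mem_setOf_eq, Prod.fst_add, Prod.snd_add, Prod.smul_fst, Prod.smul_snd, smul_eq_mul] at *
    have h1 : (a : ℝ) * (s * p.1 + t * q.1) + b * (s * p.2 + t * q.2) =
        s * (a * p.1 + b * p.2) + t * (a * q.1 + b * q.2) := by ring
    rw [h1]
    have h2 : (a : ℝ) * z.1 + b * z.2 = s * (a * z.1 + b * z.2) + t * (a * z.1 + b * z.2) := by
      rw [← add_mul, hst, one_mul]
    rw [h2]
    rcases hs.lt_or_eq with hs' | hs'
    · have := mul_lt_mul_of_pos_left hp hs'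
      have := mul_le_mul_of_nonneg_left hq.le ht
      linarith
    · have ht' : t = 1 := by rw [← hs', zero_add] at hst; exact hst
      rw [← hs', ht']
      linarith
  have hsub : ((fun w : ℤ × ℤ => ((w.1 : ℝ), (w.2 : ℝ))) '' S) ⊆
      {p : ℝ × ℝ | (a : ℝ) * z.1 + b * z.2 < a * p.1 + b * p.2} := by
    rintro _ ⟨w, hw, rfl⟩
    have := h w hw
    simp only [Set.mem_setOf_eq]
    exact_mod_cast this
  have := convexHull_min hsub hc hz
  simp only [Set.mem_setOf_eq] at this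
  exact lt_irrefl _ this

/-- the conditions on the diagonals -/
structure Good (I0 I1 I2 : ℤ → Prop) : Prop where
  c0 : ∀ a b c, I0 a → I0 c → a ≤ b → b ≤ c → I0 b
  c1 : ∀ a b c, I1 a → I1 c → a ≤ b → b ≤ c → I1 b
  c2 : ∀ a b c, I2 a → I2 c → a ≤ b → b ≤ c → I2 b
  h10 : ∀ k, I1 k → I0 k ∨ I0 (k + 1)
  h20 : ∀ k, I2 k → I0 (k + 1)
  h21 : ∀ k, I2 k → I1 k ∨ I1 (k + 1)
  hM : ∀ i j k, I0 i → I2 j → i + j = 2 * k → I1 k
  bd : ∃ N : ℤ, 0 ≤ N ∧ ∀ k, (I0 k ∨ I1 k ∨ I2 k) → -N ≤ k ∧ k ≤ N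

/-- the set with the given diagonals -/
def SS (I0 I1 I2 : ℤ → Prop) : Set (ℤ × ℤ) :=
  {z | (z.1 = z.2 ∧ I0 z.1) ∨ (z.1 = z.2 + 1 ∧ I1 z.2) ∨ (z.2 = z.1 + 1 ∧ I1 z.1) ∨
    (z.1 = z.2 + 2 ∧ I2 z.2) ∨ (z.2 = z.1 + 2 ∧ I2 z.1)}

theorem Good.refl' {I0 I1 I2 : ℤ → Prop} (G : Good I0 I1 I2) :
    Good (fun k => I0 (-k)) (fun k => I1 (-k - 1)) (fun k => I2 (-k - 2)) where
  c0 a b c ha hc h1 h2 := G.c0 (-c) (-b) (-a) hc ha (by omega) (by omega)
  c1 a b c ha hc h1 h2 := G.c1 (-c - 1) (-b - 1) (-a - 1) hc ha (by omega) (by omega)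
  c2 a b c ha hc h1 h2 := G.c2 (-c - 2) (-b - 2) (-a - 2) hc ha (by omega) (by omega)
  h10 k hk := by
    rcases G.h10 _ hk with h | h
    · right
      rwa [show -(k + 1) = -k - 1 by ring]
    · left
      rwa [show -k - 1 + 1 = -k by ring] at h
  h20 k hk := by
    have := G.h20 _ hk
    rwa [show -k - 2 + 1 = -(k + 1) by ring] at this
  h21 k hk := by
    rcases G.h21 _ hk with h | h
    · right
      rwa [show -(k + 1) - 1 = -k - 2 by ring]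
    · left
      rwa [show -k - 2 + 1 = -k - 1 by ring] at h
  hM i j k hi hj h := G.hM (-i) (-j - 2) (-k - 1) hi hj (by omega)
  bd := by
    obtain ⟨N, h0, hN⟩ := G.bd
    refine ⟨N + 2, by omega, ?_⟩
    rintro k (h | h | h)
    · have := hN (-k) (Or.inl h)
      omega
    · have := hN (-k - 1) (Or.inr (Or.inl h))
      omega
    · have := hN (-k - 2) (Or.inr (Or.inr h))
      omega

/-- the separation on the left, diagonal 0 -/
theorem left0 {I0 I1 I2 : ℤ → Prop} (G : Good I0 I1 I2) {k : ℤ} (h : ∀ i, I0 i → k < i) :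
    ∃ θ : ℤ, ∀ w ∈ SS I0 I1 I2, k + k - θ * (k - k) < w.1 + w.2 - θ * (w.1 - w.2) := by
  refine ⟨0, ?_⟩
  rintro w (⟨h1, h2⟩ | ⟨h1, h2⟩ | ⟨h1, h2⟩ | ⟨h1, h2⟩ | ⟨h1, h2⟩)
  · have := h _ h2
    omega
  · rcases G.h10 _ h2 with h3 | h3 <;> have := h _ h3 <;> omega
  · rcases G.h10 _ h2 with h3 | h3 <;> have := h _ h3 <;> omega
  · have := h _ (G.h20 _ h2)
    omega
  · have := h _ (G.h20 _ h2)
    omega

/-- the separation on the left, diagonal 1 -/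
theorem left1 {I0 I1 I2 : ℤ → Prop} (G : Good I0 I1 I2) {k : ℤ} (h : ∀ i, I1 i → k < i)
    (hne : ∃ i, I1 i) :
    ∃ θ : ℤ, ∀ w ∈ SS I0 I1 I2, (k + 1) + k - θ * ((k + 1) - k) < w.1 + w.2 - θ * (w.1 - w.2) := by
  obtain ⟨N, hN0, hN⟩ := G.bd
  by_cases h2 : ∃ j, I2 j
  · obtain ⟨j0, hj0, hj⟩ := Int.exists_least_of_bdd (P := I2) ⟨-N, fun z hz => (hN z (Or.inr (Or.inr hz))).1⟩ h2
    obtain ⟨i0, hi0, hi⟩ := Int.exists_least_of_bdd (P := I0) ⟨-N, fun z hz => (hN z (Or.inl hz)).1⟩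
      ⟨_, G.h20 _ hj0⟩
    have h3 : i0 ≤ j0 + 1 := hi _ (G.h20 _ hj0)
    have h4 : 2 * k < i0 + j0 := by
      rcases Int.even_or_odd' (i0 + j0) with ⟨m, hm | hm⟩
      · have := h _ (G.hM i0 j0 m hi0 hj0 hm)
        omega
      · by_cases h5 : I0 (i0 + 1)
        · have := h _ (G.hM (i0 + 1) j0 (m + 1) h5 hj0 (by omega))
          omega
        · have h6 : i0 = j0 + 1 := by
            by_contra h7
            exact h5 (G.c0 i0 (i0 + 1) (j0 + 1) hi0 (G.h20 _ hj0) (by omega) (by omega))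
          rcases G.h21 _ hj0 with h7 | h7 <;> have := h _ h7 <;> omega
    refine ⟨j0 - i0 + 1, ?_⟩
    rintro w (⟨h5, h6⟩ | ⟨h5, h6⟩ | ⟨h5, h6⟩ | ⟨h5, h6⟩ | ⟨h5, h6⟩)
    · have := hi _ h6
      rw [show w.1 - w.2 = 0 by omega]
      omega
    · have := h _ h6
      rw [show w.1 - w.2 = 1 by omega]
      omega
    · have := h _ h6
      rw [show w.1 - w.2 = -1 by omega]
      omega
    · have := hj _ h6
      rw [show w.1 - w.2 = 2 by omega]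
      omega
    · have := hj _ h6
      rw [show w.1 - w.2 = -2 by omega]
      omega
  · refine ⟨2 * |k| + 2 * N + 2, ?_⟩
    have hk := neg_abs_le k
    have hk' := le_abs_self k
    rintro w (⟨h5, h6⟩ | ⟨h5, h6⟩ | ⟨h5, h6⟩ | ⟨h5, h6⟩ | ⟨h5, h6⟩)
    · have := hN _ (Or.inl h6)
      rw [show w.1 - w.2 = 0 by omega]
      omega
    · have := h _ h6
      rw [show w.1 - w.2 = 1 by omega]
      omega
    · have := h _ h6
      rw [show w.1 - w.2 = -1 by omega]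
      omega
    · exact absurd ⟨_, h6⟩ h2
    · exact absurd ⟨_, h6⟩ h2

/-- the separation on the left, diagonal 2 -/
theorem left2 {I0 I1 I2 : ℤ → Prop} (G : Good I0 I1 I2) {k : ℤ} (h : ∀ i, I2 i → k < i) :
    ∃ θ : ℤ, ∀ w ∈ SS I0 I1 I2, (k + 2) + k - θ * ((k + 2) - k) < w.1 + w.2 - θ * (w.1 - w.2) := by
  obtain ⟨N, hN0, hN⟩ := G.bd
  refine ⟨2 * |k| + 2 * N + 4, ?_⟩
  have hk := neg_abs_le k
  have hk' := le_abs_self k
  rintro w (⟨h5, h6⟩ | ⟨h5, h6⟩ | ⟨h5, h6⟩ | ⟨h5, h6⟩ | ⟨h5, h6⟩)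
  · have := hN _ (Or.inl h6)
    rw [show w.1 - w.2 = 0 by omega]
    omega
  · have := hN _ (Or.inr (Or.inl h6))
    rw [show w.1 - w.2 = 1 by omega]
    omega
  · have := hN _ (Or.inr (Or.inl h6))
    rw [show w.1 - w.2 = -1 by omega]
    omega
  · have := h _ h6
    rw [show w.1 - w.2 = 2 by omega]
    omega
  · have := h _ h6
    rw [show w.1 - w.2 = -2 by omega]
    omega

/-- separation for points with `z.2 ≤ z.1` to the left of their diagonal or on an empty diagonal -/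
theorem sepHalf {I0 I1 I2 : ℤ → Prop} (G : Good I0 I1 I2) {z : ℤ × ℤ} (hz : z ∉ SS I0 I1 I2) (h12 : z.2 ≤ z.1)
    (hL : (z.1 = z.2 → ∀ i, I0 i → z.2 < i) ∧ (z.1 = z.2 + 1 → ∀ i, I1 i → z.2 < i) ∧
      (z.1 = z.2 + 2 → ∀ i, I2 i → z.2 < i)) :
    ∃ a b : ℤ, ∀ w ∈ SS I0 I1 I2, a * z.1 + b * z.2 < a * w.1 + b * w.2 := by
  obtain ⟨L0, L1, L2⟩ := hL
  have key : ∀ θ : ℤ, (∀ w ∈ SS I0 I1 I2, z.1 + z.2 - θ * (z.1 - z.2) < w.1 + w.2 - θ * (w.1 - w.2)) →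
      ∃ a b : ℤ, ∀ w ∈ SS I0 I1 I2, a * z.1 + b * z.2 < a * w.1 + b * w.2 := by
    intro θ h
    refine ⟨1 - θ, 1 + θ, fun w hw => ?_⟩
    have := h w hw
    have e1 : (1 - θ) * z.1 + (1 + θ) * z.2 = z.1 + z.2 - θ * (z.1 - z.2) := by ring
    have e2 : (1 - θ) * w.1 + (1 + θ) * w.2 = w.1 + w.2 - θ * (w.1 - w.2) := by ring
    rw [e1, e2]
    exact this
  by_cases d0 : z.1 = z.2
  · obtain ⟨θ, hθ⟩ := left0 G (L0 d0)
    refine key θ ?_
    rw [d0]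
    exact hθ
  by_cases d1 : z.1 = z.2 + 1
  · by_cases hne : ∃ i, I1 i
    · obtain ⟨θ, hθ⟩ := left1 G (L1 d1) hne
      refine key θ ?_
      rw [d1]
      exact hθ
    · refine ⟨-1, 1, ?_⟩
      rintro w (⟨h5, h6⟩ | ⟨h5, h6⟩ | ⟨h5, h6⟩ | ⟨h5, h6⟩ | ⟨h5, h6⟩)
      · omega
      · exact absurd ⟨_, h6⟩ hne
      · exact absurd ⟨_, h6⟩ hne
      · rcases G.h21 _ h6 with h7 | h7 <;> exact absurd ⟨_, h7⟩ hne
      · rcases G.h21 _ h6 with h7 | h7 <;> exact absurd ⟨_, h7⟩ hne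
  by_cases d2 : z.1 = z.2 + 2
  · obtain ⟨θ, hθ⟩ := left2 G (L2 d2)
    refine key θ ?_
    rw [d2]
    exact hθ
  · refine ⟨-1, 1, ?_⟩
    rintro w (⟨h5, h6⟩ | ⟨h5, h6⟩ | ⟨h5, h6⟩ | ⟨h5, h6⟩ | ⟨h5, h6⟩) <;> omega

/-- an ordconnected predicate: a point outside is to the left or to the right -/
theorem side {I : ℤ → Prop} (hc : ∀ a b c, I a → I c → a ≤ b → b ≤ c → I b) {k : ℤ} (hk : ¬ I k) :
    (∀ i, I i → k < i) ∨ (∀ i, I i → i < k) := by
  by_contra hn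
  push Not at hn
  obtain ⟨⟨i, hi, hik⟩, ⟨j, hj, hjk⟩⟩ := hn
  exact hk (hc i k j hi hj hik hjk)

theorem sepUpper {I0 I1 I2 : ℤ → Prop} (G : Good I0 I1 I2) {z : ℤ × ℤ} (hz : z ∉ SS I0 I1 I2) (h12 : z.2 ≤ z.1) :
    ∃ a b : ℤ, ∀ w ∈ SS I0 I1 I2, a * z.1 + b * z.2 < a * w.1 + b * w.2 := by
  by_cases hL : (z.1 = z.2 → ∀ i, I0 i → z.2 < i) ∧ (z.1 = z.2 + 1 → ∀ i, I1 i → z.2 < i) ∧
      (z.1 = z.2 + 2 → ∀ i, I2 i → z.2 < i)
  · exact sepHalf G hz h12 hL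
  · -- reflect
    have hR : (z.1 = z.2 → ∀ i, I0 i → i < z.2) ∧ (z.1 = z.2 + 1 → ∀ i, I1 i → i < z.2) ∧
        (z.1 = z.2 + 2 → ∀ i, I2 i → i < z.2) := by
      by_contra hR
      rw [not_and_or, not_and_or] at hL hR
      rcases hL with h1 | h1 | h1 <;> rcases hR with h2 | h2 | h2 <;> rw [Classical.not_imp] at h1 h2 <;>
        obtain ⟨e1, h1⟩ := h1 <;> obtain ⟨e2, h2⟩ := h2
      · rcases side G.c0 (k := z.2) (fun h => hz (Or.inl ⟨e1, by rw [e1]; exact h⟩)) with h | h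
        · exact h1 h
        · exact h2 h
      · omega
      · omega
      · omega
      · rcases side G.c1 (k := z.2) (fun h => hz (Or.inr (Or.inl ⟨e1, h⟩))) with h | h
        · exact h1 h
        · exact h2 h
      · omega
      · omega
      · omega
      · rcases side G.c2 (k := z.2) (fun h => hz (Or.inr (Or.inr (Or.inr (Or.inl ⟨e1, h⟩))))) with h | h
        · exact h1 h
        · exact h2 h
    have hz' : ((-z.2, -z.1) : ℤ × ℤ) ∉ SS (fun k => I0 (-k)) (fun k => I1 (-k - 1)) (fun k => I2 (-k - 2)) := by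
      rintro (⟨h5, h6⟩ | ⟨h5, h6⟩ | ⟨h5, h6⟩ | ⟨h5, h6⟩ | ⟨h5, h6⟩)
      · refine hz (Or.inl ⟨by simp only at h5; omega, ?_⟩)
        simp only [neg_neg] at h5 h6
        rwa [show z.1 = z.2 by omega]
      · refine hz (Or.inr (Or.inl ⟨by simp only at h5; omega, ?_⟩))
        simp only [neg_neg] at h5 h6
        rwa [show z.2 = z.1 - 1 by omega]
      · simp only at h5
        omega
      · refine hz (Or.inr (Or.inr (Or.inr (Or.inl ⟨by simp only at h5; omega, ?_⟩))))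
        simp only [neg_neg] at h5 h6
        rwa [show z.2 = z.1 - 2 by omega]
      · simp only at h5
        omega
    obtain ⟨a, b, hab⟩ := sepHalf G.refl' hz' (by simp only; omega) (by
      refine ⟨fun e i hi => ?_, fun e i hi => ?_, fun e i hi => ?_⟩ <;> simp only at e hi ⊢
      · have := hR.1 (by omega) _ hi
        omega
      · have := hR.2.1 (by omega) _ hi
        omega
      · have := hR.2.2 (by omega) _ hi
        omega)
    refine ⟨-b, -a, fun w hw => ?_⟩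
    have := hab (-w.2, -w.1) (by
      rcases hw with ⟨h5, h6⟩ | ⟨h5, h6⟩ | ⟨h5, h6⟩ | ⟨h5, h6⟩ | ⟨h5, h6⟩
      · exact Or.inl ⟨by simp only; omega, by simp only [neg_neg]; rwa [← h5]⟩
      · refine Or.inr (Or.inl ⟨by simp only; omega, ?_⟩)
        simp only [neg_neg]
        rwa [show w.1 - 1 = w.2 by omega]
      · refine Or.inr (Or.inr (Or.inl ⟨by simp only; omega, ?_⟩))
        simp only [neg_neg]
        rwa [show w.2 - 1 = w.1 by omega]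
      · refine Or.inr (Or.inr (Or.inr (Or.inl ⟨by simp only; omega, ?_⟩)))
        simp only [neg_neg]
        rwa [show w.1 - 2 = w.2 by omega]
      · refine Or.inr (Or.inr (Or.inr (Or.inr ⟨by simp only; omega, ?_⟩)))
        simp only [neg_neg]
        rwa [show w.2 - 2 = w.1 by omega])
    simp only at this
    linarith

/-- lattice convexity -/
theorem Good.convex {I0 I1 I2 : ℤ → Prop} (G : Good I0 I1 I2) : NoInteriorZeros (SS I0 I1 I2) := by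
  intro z hz
  by_contra hn
  rcases le_total z.2 z.1 with h | h
  · obtain ⟨a, b, hab⟩ := sepUpper G hn h
    exact sep a b hab hz
  · have hn' : ((z.2, z.1) : ℤ × ℤ) ∉ SS I0 I1 I2 := by
      rintro (⟨h5, h6⟩ | ⟨h5, h6⟩ | ⟨h5, h6⟩ | ⟨h5, h6⟩ | ⟨h5, h6⟩) <;> simp only at h5 h6
      · exact hn (Or.inl ⟨h5.symm, by rwa [← h5]⟩)
      · exact hn (Or.inr (Or.inr (Or.inl ⟨h5, h6⟩)))
      · exact hn (Or.inr (Or.inl ⟨h5, h6⟩))
      · exact hn (Or.inr (Or.inr (Or.inr (Or.inr ⟨h5, h6⟩))))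
      · exact hn (Or.inr (Or.inr (Or.inr (Or.inl ⟨h5, h6⟩))))
    obtain ⟨a, b, hab⟩ := sepUpper G hn' h
    refine sep b a (fun w hw => ?_) hz
    have := hab (w.2, w.1) (by
      rcases hw with ⟨h5, h6⟩ | ⟨h5, h6⟩ | ⟨h5, h6⟩ | ⟨h5, h6⟩ | ⟨h5, h6⟩
      · exact Or.inl ⟨h5.symm, by simp only; rwa [← h5]⟩
      · exact Or.inr (Or.inr (Or.inl ⟨h5, h6⟩))
      · exact Or.inr (Or.inl ⟨h5, h6⟩)
      · exact Or.inr (Or.inr (Or.inr (Or.inr ⟨h5, h6⟩)))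
      · exact Or.inr (Or.inr (Or.inr (Or.inl ⟨h5, h6⟩))))
    simp only at this
    linarith

end LG3
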