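import Pool.Agent.Lib.MP_3cd99b_gt.Gr
import Pool.Agent.Lib.MP_3cd99b_gt.Oct

/-!
# Top states of a piece (P2, MP_3cd99b_gt)

A piece: crossings `E`, `σ b c` = next crossing on the circle of type `b` through `c`, cut slot `(c0, b0)`.
Corners `(c, b)`: after `c` on its circle of type `b`; the faces are the orbits of `phi (c, b) = (σ b c, !b)`.
For an orientation `O` (true: from the circle of type `false` to the circle of type `true`) the face `fc (c, O c)` is
on the right of `c` and `fc (c, !O c)` on the left.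
-/

namespace LG3P.Top

open Finset Function PoolLib.MP_3cd99b_gt.Oct LG3P.Gr

variable {E : Type*} [Fintype E] [DecidableEq E]

/-- the x-walker -/
def sx (σ : Bool → Equiv.Perm E) (c0 : E) (b0 : Bool) (c : E) (b : Bool) : Option E :=
  if c = c0 ∧ b = b0 then none else some (σ b c)

/-- the y-walker -/
def sy (σ : Bool → Equiv.Perm E) (c0 : E) (b0 : Bool) (c : E) (b : Bool) : Option E :=
  if c = σ b0 c0 ∧ b = b0 then none else some ((σ b).symm c)

/-- the next corner of a face -/
def phi (σ : Bool → Equiv.Perm E) : Equiv.Perm (E × Bool) where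
  toFun z := (σ z.2 z.1, !z.2)
  invFun z := ((σ (!z.2)).symm z.1, !z.2)
  left_inv z := by simp
  right_inv z := by simp

omit [Fintype E] [DecidableEq E] in
theorem exists_seq {s : E → Bool → Option E} {x : E → Bool} (h : ¬ Acyc s x) :
    ∃ c : ℕ → E, ∀ n, s (c n) (x (c n)) = some (c (n + 1)) := by
  rw [acyc_iff_reach] at h
  push Not at h
  obtain ⟨v, hv⟩ := h
  have h1 : ∀ n, ∃ u, (par s x)^[n] (some v) = some u := fun n => Option.ne_none_iff_exists'.mp (hv n)
  choose c hc using h1
  refine ⟨c, fun n => ?_⟩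
  have h2 := hc (n + 1)
  rw [iterate_succ_apply', hc n, par_some] at h2
  exact h2

/-- Top states: if `h` drops from left to right at every crossing and every face except the face of the cut has a
crossing with this face on its left, the x-walker which follows `O` reaches the cut from everywhere. -/
theorem top_x (σ : Bool → Equiv.Perm E) (c0 : E) (b0 : Bool) {Fc : Type*} (fc : E × Bool → Fc)
    (hF : ∀ z z', fc z = fc z' ↔ (phi σ).SameCycle z z') (h : Fc → ℤ) (O : E → Bool)
    (hO : ∀ c, h (fc (c, O c)) < h (fc (c, !O c)))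
    (hs : ∀ z, fc z ≠ fc (c0, b0) → ∃ e, fc (e, !O e) = fc z) : Acyc (sx σ c0 b0) O := by
  by_contra hcon
  obtain ⟨c, hc⟩ := exists_seq hcon
  have hstep : ∀ n, ¬ (c n = c0 ∧ O (c n) = b0) ∧ c (n + 1) = σ (O (c n)) (c n) := by
    intro n
    have h1 := hc n
    unfold sx at h1
    split_ifs at h1 with h2
    exact ⟨h2, (Option.some.inj h1).symm⟩
  have hphi : ∀ n, fc (c (n + 1), !O (c n)) = fc (c n, O (c n)) := by
    intro n
    rw [hF, (hstep n).2]
    exact (Equiv.Perm.SameCycle.symm ⟨1, by simp [phi]⟩)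
  have hg : ∀ n, h (fc (c (n + 1), O (c (n + 1)))) ≤ h (fc (c n, O (c n))) ∧
      (h (fc (c (n + 1), O (c (n + 1)))) = h (fc (c n, O (c n))) →
        (c (n + 1), O (c (n + 1))) = phi σ (c n, O (c n))) := by
    intro n
    have h1 := hphi n
    by_cases h2 : O (c (n + 1)) = !O (c n)
    · rw [h2, h1]
      refine ⟨le_rfl, fun _ => ?_⟩
      rw [(hstep n).2]
      rfl
    · have h3 : O (c (n + 1)) = O (c n) := by
        cases h4 : O (c (n + 1)) <;> cases h5 : O (c n) <;> simp_all
      have h4 := hO (c (n + 1))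
      rw [h3, h1] at h4
      rw [h3]
      exact ⟨h4.le, fun h5 => absurd h5 h4.ne⟩
  obtain ⟨e, ⟨N, rfl⟩, hN⟩ := Set.exists_min_image (Set.range c) (fun e => h (fc (e, O e))) (Set.toFinite _)
    ⟨c 0, 0, rfl⟩
  have hN' : ∀ m, h (fc (c N, O (c N))) ≤ h (fc (c m, O (c m))) := fun m => hN (c m) ⟨m, rfl⟩
  have hle : ∀ k, h (fc (c (N + k), O (c (N + k)))) ≤ h (fc (c N, O (c N))) := by
    intro k
    induction k with
    | zero => exact le_rfl
    | succ k ih => exact (hg (N + k)).1.trans ih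
  have hit : ∀ k, (c (N + k), O (c (N + k))) = ((phi σ) ^ k) (c N, O (c N)) := by
    intro k
    induction k with
    | zero => rfl
    | succ k ih =>
      have h1 := (hg (N + k)).2 (le_antisymm (hg (N + k)).1 ((hle k).trans (hN' _)))
      rw [pow_succ', Equiv.Perm.mul_apply, ← ih, ← h1]
      rfl
  by_cases h1 : fc (c N, O (c N)) = fc (c0, b0)
  · obtain ⟨k, hk⟩ := ((hF _ _).mp h1).exists_nat_pow_eq
    have h2 := hit k
    rw [hk] at h2
    exact (hstep (N + k)).1 ⟨congrArg Prod.fst h2, congrArg Prod.snd h2⟩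
  · obtain ⟨e, he⟩ := hs _ h1
    obtain ⟨k, hk⟩ := ((hF _ _).mp he.symm).exists_nat_pow_eq
    have h2 := hit k
    rw [hk] at h2
    have h3 := congrArg Prod.fst h2
    have h4 := congrArg Prod.snd h2
    simp only at h3 h4
    rw [h3] at h4
    cases h5 : O e <;> simp [h5] at h4

omit [Fintype E] [DecidableEq E] in
theorem fc_phi {σ : Bool → Equiv.Perm E} {Fc : Type*} {fc : E × Bool → Fc}
    (hF : ∀ z z', fc z = fc z' ↔ (phi σ).SameCycle z z') (c : E) (b : Bool) : fc (σ b c, !b) = fc (c, b) := by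
  rw [hF]
  exact (Equiv.Perm.SameCycle.symm ⟨1, by simp [phi]⟩)

/-- the y-walker which runs against `O` reaches the cut from everywhere -/
theorem top_y (σ : Bool → Equiv.Perm E) (c0 : E) (b0 : Bool) {Fc : Type*} (fc : E × Bool → Fc)
    (hF : ∀ z z', fc z = fc z' ↔ (phi σ).SameCycle z z') (h : Fc → ℤ) (O : E → Bool)
    (hO : ∀ c, h (fc (c, O c)) < h (fc (c, !O c)))
    (hs : ∀ z, fc z ≠ fc (c0, b0) → ∃ e, fc (e, !O e) = fc z) : Acyc (sy σ c0 b0) (fun c => !O c) := by
  have hphi : phi (fun b => (σ (!b)).symm) = (phi σ)⁻¹ := by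
    ext z <;> rfl
  have h1 := top_x (fun b => (σ (!b)).symm) (σ b0 c0) (!b0) fc
    (fun z z' => by rw [hphi, Equiv.Perm.sameCycle_inv]; exact hF z z') h O hO
    (fun z hz => hs z (by rwa [fc_phi hF] at hz))
  obtain ⟨r, hr⟩ := h1
  refine ⟨r, fun v u huv => hr v u ?_⟩
  unfold sx
  unfold sy at huv
  have h2 : (v = σ b0 c0 ∧ O v = !b0) ↔ (v = σ b0 c0 ∧ (!O v) = b0) := by
    cases O v <;> cases b0 <;> simp
  simp only [h2]
  exact huv

/-- 0-1 paths of faces: crossing `c` from right to left costs 0, from left to right costs 1 -/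
inductive Rch {Fc : Type*} (rt lt : E → Fc) (f0 : Fc) : ℕ → Fc → Prop
  | start : Rch rt lt f0 0 f0
  | zero (m : ℕ) (c : E) (h : Rch rt lt f0 m (rt c)) : Rch rt lt f0 m (lt c)
  | one (m : ℕ) (c : E) (h : Rch rt lt f0 m (lt c)) : Rch rt lt f0 (m + 1) (rt c)

omit [DecidableEq E] in
/-- Normalisation: change `O` along the 0-1 distance from the face of the cut. -/
theorem norm (σ : Bool → Equiv.Perm E) (z0 : E × Bool) {Fc : Type*} (fc : E × Bool → Fc)
    (hF : ∀ c b, fc (σ b c, !b) = fc (c, b))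
    (hconn : ∀ T : Set E, T.Nonempty → (∀ c ∈ T, ∀ b, σ b c ∈ T) → T = Set.univ) (h : Fc → ℤ) (O : E → Bool)
    (hO : ∀ c, h (fc (c, O c)) < h (fc (c, !O c))) :
    ∃ (O' : E → Bool) (h' : Fc → ℤ), (∀ c, h' (fc (c, O' c)) < h' (fc (c, !O' c))) ∧
      (∀ z, fc z ≠ fc z0 → ∃ e, fc (e, !O' e) = fc z) ∧ A O' = A O := by
  classical
  let R := Rch (fun c => fc (c, O c)) (fun c => fc (c, !O c)) (fc z0)
  have hboth : ∀ c : E, (∃ b m, R m (fc (c, b))) → ∀ b, ∃ m, R m (fc (c, b)) := by
    rintro c ⟨b, m, hm⟩ b'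
    by_cases hb : b' = b
    · exact ⟨m, by rw [hb]; exact hm⟩
    · have hb' : b' = !b := by cases b <;> cases b' <;> simp_all
      rw [hb']
      by_cases h1 : b = O c
      · refine ⟨m, ?_⟩
        rw [h1] at hm ⊢
        exact Rch.zero m c hm
      · have h1' : b = !O c := by cases b <;> cases hh : O c <;> simp_all
        refine ⟨m + 1, ?_⟩
        rw [h1'] at hm ⊢
        rw [Bool.not_not]
        exact Rch.one m c hm
  have hall : ∀ z : E × Bool, ∃ m, R m (fc z) := by
    have h1 : {c : E | ∃ b m, R m (fc (c, b))} = Set.univ := by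
      apply hconn
      · exact ⟨z0.1, z0.2, 0, Rch.start⟩
      · intro c hc b
        obtain ⟨m, hm⟩ := hboth c hc b
        exact ⟨!b, m, by rw [hF]; exact hm⟩
    intro z
    have h2 : z.1 ∈ {c : E | ∃ b m, R m (fc (c, b))} := by rw [h1]; exact Set.mem_univ _
    exact hboth z.1 h2 z.2
  let g : Fc → ℕ := fun f => sInf {m | R m f}
  have hgR : ∀ z, R (g (fc z)) (fc z) := fun z => Nat.sInf_mem (hall z)
  have hgle : ∀ m f, R m f → g f ≤ m := fun m f hm => Nat.sInf_le hm
  have g1 : ∀ c, g (fc (c, !O c)) ≤ g (fc (c, O c)) := fun c => hgle _ _ (Rch.zero _ c (hgR (c, O c)))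
  have g2 : ∀ c, g (fc (c, O c)) ≤ g (fc (c, !O c)) + 1 := fun c => hgle _ _ (Rch.one _ c (hgR (c, !O c)))
  have g3 : ∀ z, fc z ≠ fc z0 → (∃ c, fc (c, !O c) = fc z ∧ g (fc (c, O c)) = g (fc (c, !O c))) ∨
      (∃ c, fc (c, O c) = fc z ∧ g (fc (c, O c)) = g (fc (c, !O c)) + 1) := by
    intro z hz
    have h1 := hgR z
    generalize hf : fc z = f at h1 hz
    generalize hm : g f = m at h1
    cases h1 with
    | start => exact absurd rfl hz
    | zero m c h =>
      left
      refine ⟨c, rfl, ?_⟩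
      have h2 := hgle _ _ h
      have h3 := g1 c
      omega
    | one m c h =>
      right
      refine ⟨c, rfl, ?_⟩
      have h2 := hgle _ _ h
      have h3 := g2 c
      omega
  let O' : E → Bool := fun c => if g (fc (c, O c)) = g (fc (c, !O c)) then O c else !O c
  let M : ℤ := 1 + ∑ c, |h (fc (c, true)) - h (fc (c, false))|
  have hM : ∀ c, h (fc (c, !O c)) < M + h (fc (c, O c)) := by
    intro c
    have h1 : |h (fc (c, true)) - h (fc (c, false))| ≤ ∑ c, |h (fc (c, true)) - h (fc (c, false))| :=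
      single_le_sum (f := fun c => |h (fc (c, true)) - h (fc (c, false))|) (fun _ _ => abs_nonneg _) (mem_univ c)
    have h2 : h (fc (c, !O c)) - h (fc (c, O c)) ≤ |h (fc (c, true)) - h (fc (c, false))| := by
      cases O c
      · exact le_abs_self _
      · rw [abs_sub_comm]
        exact le_abs_self _
    have h3 : M = 1 + ∑ c, |h (fc (c, true)) - h (fc (c, false))| := rfl
    linarith
  refine ⟨O', fun f => M * g f + h f, ?_, ?_, ?_⟩
  · intro c
    have h1 := hO c
    by_cases h2 : g (fc (c, O c)) = g (fc (c, !O c))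
    · have h3 : O' c = O c := if_pos h2
      rw [h3]
      simp only
      rw [h2]
      linarith
    · have h3 : O' c = !O c := if_neg h2
      have h4 : (g (fc (c, O c)) : ℤ) = g (fc (c, !O c)) + 1 := by
        have h5 := g1 c
        have h6 := g2 c
        omega
      rw [h3, Bool.not_not]
      simp only
      rw [h4]
      have h5 := hM c
      linarith
  · intro z hz
    rcases g3 z hz with ⟨c, h1, h2⟩ | ⟨c, h1, h2⟩
    · refine ⟨c, ?_⟩
      have h3 : O' c = O c := if_pos h2
      rw [h3, h1]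
    · refine ⟨c, ?_⟩
      have h3 : O' c = !O c := if_neg (by omega)
      rw [h3, Bool.not_not, h1]
  · have h1 : A O' - A O = ∑ c, ((g (fc (c, false)) : ℤ) - g (fc (c, true))) := by
      unfold A
      rw [← sum_sub_distrib]
      refine sum_congr rfl fun c _ => ?_
      have h5 := g1 c
      have h6 := g2 c
      by_cases h2 : g (fc (c, O c)) = g (fc (c, !O c))
      · have h3 : O' c = O c := if_pos h2
        rw [h3]
        cases hO : O c <;> simp only [hO, Bool.not_false, Bool.not_true] at h2 ⊢ <;> omega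
      · have h3 : O' c = !O c := if_neg h2
        rw [h3]
        cases hO : O c <;> simp only [hO, Bool.not_false, Bool.not_true] at h2 h5 h6 ⊢ <;> simp <;> omega
    have h2 : ∑ c, ((g (fc (c, false)) : ℤ) - g (fc (c, true))) = 0 := by
      rw [sum_sub_distrib, sub_eq_zero]
      rw [← Equiv.sum_comp (σ true) (fun c => (g (fc (c, false)) : ℤ))]
      refine sum_congr rfl fun c _ => ?_
      have h3 := hF c true
      rw [Bool.not_true] at h3
      rw [h3]
    linarith

/-- The top state of a strongly connected orientation with a face potential. -/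
theorem top_state (σ : Bool → Equiv.Perm E) (c0 : E) (b0 : Bool) {Fc : Type*} (fc : E × Bool → Fc)
    (hF : ∀ z z', fc z = fc z' ↔ (phi σ).SameCycle z z')
    (hconn : ∀ T : Set E, T.Nonempty → (∀ c ∈ T, ∀ b, σ b c ∈ T) → T = Set.univ) (h : Fc → ℤ) (O : E → Bool)
    (hO : ∀ c, h (fc (c, O c)) < h (fc (c, !O c))) :
    ∃ O' : E → Bool, Acyc (sx σ c0 b0) O' ∧ Acyc (sy σ c0 b0) (fun c => !O' c) ∧ A O' = A O := by
  obtain ⟨O', h', h1, h2, h3⟩ := norm σ (c0, b0) fc (fc_phi hF) hconn h O hO
  exact ⟨O', top_x σ c0 b0 fc hF h' O' h1 h2, top_y σ c0 b0 fc hF h' O' h1 h2, h3⟩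

/-! ## Circles: cuts are left by the walkers -/

section Cuts

variable {V : Type*} {σ : Bool → Equiv.Perm E} {c0 : E} {b0 : Bool} {circ : E → Bool → V}

omit [Fintype E] in
theorem leave_x (hcirc : ∀ c b, circ (σ b c) b = circ c b) {x : E → Bool} (hx : Acyc (sx σ c0 b0) x)
    (S : Set V) (hS : ∃ c b, circ c b ∈ S) (h0 : circ c0 b0 ∉ S) : ∃ e, circ e (!x e) ∈ S ∧ circ e (x e) ∉ S := by
  by_contra hcon
  push Not at hcon
  have hall : ∀ c b, circ c b ∈ S → circ c (x c) ∈ S := by
    intro c b hcb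
    by_cases h1 : b = x c
    · rw [← h1]; exact hcb
    · have h2 : b = !x c := by cases b <;> cases hh : x c <;> simp_all
      exact hcon c (by rw [← h2]; exact hcb)
  obtain ⟨r, hr⟩ := hx
  have key : ∀ n : ℕ, ∀ c, r c = n → circ c (x c) ∉ S := by
    intro n
    induction n using Nat.strong_induction_on with
    | _ n ih =>
      intro c hc hcS
      by_cases h1 : c = c0 ∧ x c = b0
      · rw [h1.2, h1.1] at hcS
        exact h0 hcS
      · have h2 : sx σ c0 b0 c (x c) = some (σ (x c) c) := if_neg h1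
        have h3 := hr c _ h2
        refine ih (r (σ (x c) c)) (by omega) (σ (x c) c) rfl ?_
        exact hall _ (x c) (by rw [hcirc]; exact hcS)
  obtain ⟨c, b, hcb⟩ := hS
  exact key _ c rfl (hall c b hcb)

omit [Fintype E] in
theorem leave_y (hcirc : ∀ c b, circ (σ b c) b = circ c b) {y : E → Bool} (hy : Acyc (sy σ c0 b0) y)
    (S : Set V) (hS : ∃ c b, circ c b ∈ S) (h0 : circ c0 b0 ∉ S) : ∃ e, circ e (!y e) ∈ S ∧ circ e (y e) ∉ S := by
  have h1 : Acyc (sx (fun b => (σ b).symm) (σ b0 c0) b0) y := hy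
  refine leave_x (fun c b => ?_) h1 S hS (by rw [hcirc]; exact h0)
  have h2 := hcirc ((σ b).symm c) b
  rw [Equiv.apply_symm_apply] at h2
  exact h2.symm

/-- The crossings with `x = true`, `y = false` extend to a strongly connected orientation. -/
theorem strong_of_pair (hcirc : ∀ c b, circ (σ b c) b = circ c b) (hsurj : ∀ v, ∃ c b, circ c b = v)
    (hB : Bridgeless (fun c => circ c false) (fun c => circ c true)) {x y : E → Bool}
    (hx : Acyc (sx σ c0 b0) x) (hy : Acyc (sy σ c0 b0) y) :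
    ∃ O : E → Bool, Strong (fun c => circ c false) (fun c => circ c true) O ∧
      ∀ c, x c = true → y c = false → O c = true := by
  obtain ⟨O, hO, hU⟩ := boesch_tindell hB {c | x c = true ∧ y c = false} (by
    intro S hS1 hS2
    by_cases h0 : circ c0 b0 ∈ S
    · have hSc : ∃ c b, circ c b ∈ Sᶜ := by
        obtain ⟨v, hv⟩ := (Set.ne_univ_iff_exists_notMem S).mp hS2
        obtain ⟨c, b, rfl⟩ := hsurj v
        exact ⟨c, b, hv⟩
      obtain ⟨e, he1, he2⟩ := leave_y hcirc hy Sᶜ hSc (by simpa using h0)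
      have he2' : circ e (y e) ∈ S := by simpa using he2
      have he1' : circ e (!y e) ∉ S := he1
      by_cases hU : e ∈ {c | x c = true ∧ y c = false}
      · left
        refine ⟨e, hU, ?_⟩
        rw [hU.2] at he1' he2'
        exact ⟨he2', he1'⟩
      · right
        refine ⟨e, hU, ?_⟩
        cases hh : y e <;> rw [hh] at he1' he2'
        · exact Or.inl ⟨he2', he1'⟩
        · exact Or.inr ⟨he2', he1'⟩
    · have hSc : ∃ c b, circ c b ∈ S := by
        obtain ⟨v, hv⟩ := hS1
        obtain ⟨c, b, rfl⟩ := hsurj v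
        exact ⟨c, b, hv⟩
      obtain ⟨e, he1, he2⟩ := leave_x hcirc hx S hSc h0
      by_cases hU : e ∈ {c | x c = true ∧ y c = false}
      · left
        refine ⟨e, hU, ?_⟩
        rw [hU.1] at he1 he2
        exact ⟨he1, he2⟩
      · right
        refine ⟨e, hU, ?_⟩
        cases hh : x e <;> rw [hh] at he1 he2
        · exact Or.inr ⟨he1, he2⟩
        · exact Or.inl ⟨he1, he2⟩)
  exact ⟨O, hO, fun c h1 h2 => hU c ⟨h1, h2⟩⟩

/-- `A(x, y) ≤ r` -/
theorem A_le (hcirc : ∀ c b, circ (σ b c) b = circ c b) (hsurj : ∀ v, ∃ c b, circ c b = v)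
    (hB : Bridgeless (fun c => circ c false) (fun c => circ c true)) {r : ℤ}
    (hr : ∀ O, Strong (fun c => circ c false) (fun c => circ c true) O → A O ≤ r) {x y : E → Bool}
    (hx : Acyc (sx σ c0 b0) x) (hy : Acyc (sy σ c0 b0) y) :
    ((univ.filter fun c => x c = true ∧ y c = false).card : ℤ) ≤ r := by
  obtain ⟨O, hO, hU⟩ := strong_of_pair hcirc hsurj hB hx hy
  refine le_trans ?_ (hr O hO)
  unfold A
  rw [card_filter, Nat.cast_sum]
  refine sum_le_sum fun c _ => ?_
  by_cases h1 : x c = true ∧ y c = false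
  · rw [if_pos h1, if_pos (hU c h1.1 h1.2)]
    simp
  · rw [if_neg h1]
    split_ifs <;> simp

end Cuts

omit [Fintype E] [DecidableEq E] in
/-- reversing a strong orientation -/
theorem strong_neg {V : Type*} {lf rt : E → V} {O : E → Bool} (h : Strong lf rt O) :
    Strong lf rt (fun e => !O e) := by
  intro S hS1 hS2
  obtain ⟨e, he1, he2⟩ := h Sᶜ (by
    rw [Set.nonempty_iff_ne_empty]
    intro h
    exact hS2 (Set.compl_empty_iff.mp h)) (by
    intro h
    rw [Set.compl_univ_iff] at h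
    exact hS1.ne_empty h)
  refine ⟨e, ?_⟩
  simp only [tl, hd] at he1 he2 ⊢
  rcases Bool.eq_false_or_eq_true (O e) with hO | hO <;>
    simp only [hO, if_true, if_false, Bool.false_eq_true, Bool.not_true, Bool.not_false,
      Set.mem_compl_iff, not_not] at he1 he2 ⊢ <;> exact ⟨he2, he1⟩

omit [DecidableEq E] in
theorem A_neg (O : E → Bool) : A (fun e => !O e) = (Fintype.card E : ℤ) - A O := by
  unfold A
  rw [eq_sub_iff_add_eq, ← sum_add_distrib]
  rw [show (Fintype.card E : ℤ) = ∑ _e : E, 1 by simp]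
  refine sum_congr rfl fun e _ => ?_
  cases h : O e <;> simp [h]

omit [Fintype E] [DecidableEq E] in
/-- exchanging the two ends of all edges -/
theorem strong_swap {V : Type*} {lf rt : E → V} {O : E → Bool} (h : Strong rt lf O) :
    Strong lf rt (fun e => !O e) := by
  intro S hS1 hS2
  obtain ⟨e, he1, he2⟩ := h S hS1 hS2
  refine ⟨e, ?_⟩
  simp only [tl, hd] at he1 he2 ⊢
  rcases Bool.eq_false_or_eq_true (O e) with hO | hO <;>
    simp only [hO, if_true, if_false, Bool.false_eq_true, Bool.not_true, Bool.not_false] at he1 he2 ⊢ <;>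
    exact ⟨he1, he2⟩

section Row

variable {V : Type*} {σ : Bool → Equiv.Perm E} {c0 : E} {b0 : Bool} {circ : E → Bool → V}

/-- `B(x, y) ≤ r` -/
theorem B_le (hcirc : ∀ c b, circ (σ b c) b = circ c b) (hsurj : ∀ v, ∃ c b, circ c b = v)
    (hB : Bridgeless (fun c => circ c false) (fun c => circ c true)) {r : ℤ}
    (hr : ∀ O, Strong (fun c => circ c false) (fun c => circ c true) O → A O ≤ r) {x y : E → Bool}
    (hx : Acyc (sx σ c0 b0) x) (hy : Acyc (sy σ c0 b0) y) :
    ((univ.filter fun c => x c = false ∧ y c = true).card : ℤ) ≤ r := by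
  have hx' : Acyc (sx (fun b => σ (!b)) c0 (!b0)) (fun c => !x c) := by
    obtain ⟨k, hk⟩ := hx
    refine ⟨k, fun v u h => hk v u ?_⟩
    have h2 : (v = c0 ∧ (!x v) = !b0) ↔ (v = c0 ∧ x v = b0) := by
      cases x v <;> cases b0 <;> simp
    unfold sx at h ⊢
    simp only [h2, Bool.not_not] at h
    exact h
  have hy' : Acyc (sy (fun b => σ (!b)) c0 (!b0)) (fun c => !y c) := by
    obtain ⟨k, hk⟩ := hy
    refine ⟨k, fun v u h => hk v u ?_⟩
    have h2 : (v = σ b0 c0 ∧ (!y v) = !b0) ↔ (v = σ b0 c0 ∧ y v = b0) := by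
      cases y v <;> cases b0 <;> simp
    unfold sy at h ⊢
    simp only [h2, Bool.not_not] at h
    exact h
  have h1 := A_le (r := r) (σ := fun b => σ (!b)) (c0 := c0) (b0 := !b0) (circ := fun c b => circ c (!b))
    (fun c b => hcirc c (!b)) (fun v => by
      obtain ⟨c, b, h⟩ := hsurj v
      exact ⟨c, !b, by simpa using h⟩)
    (fun S e he => by
      obtain ⟨e', h1, h2⟩ := hB S e he.symm
      exact ⟨e', h1, h2.symm⟩)
    (fun O hO => by
      have h2 := strong_neg (strong_swap (lf := fun c => circ c false) (rt := fun c => circ c true) hO)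
      simp only [Bool.not_not] at h2
      exact hr O h2) hx' hy'
  refine le_trans (le_of_eq ?_) h1
  congr 2
  ext c
  simp

/-- The top row: if `r = A O₀` for a strongly connected `O₀` and every strongly connected orientation has a face
potential (planarity), every `z` in `[n - r, r]` is `A` of a top state. -/
theorem top_row {Fc : Type*} (fc : E × Bool → Fc) (hF : ∀ z z', fc z = fc z' ↔ (phi σ).SameCycle z z')
    (hconn : ∀ T : Set E, T.Nonempty → (∀ c ∈ T, ∀ b, σ b c ∈ T) → T = Set.univ)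
    (col : V → ℤ) (hc : ∀ v, col v = 0 ∨ col v = 1) (hl : ∀ c, col (circ c false) = 1) (hr : ∀ c, col (circ c true) = 0)
    (hPL : ∀ O, Strong (fun c => circ c false) (fun c => circ c true) O →
      ∃ h : Fc → ℤ, ∀ c, h (fc (c, O c)) < h (fc (c, !O c)))
    (O₀ : E → Bool) (hO₀ : Strong (fun c => circ c false) (fun c => circ c true) O₀) (z : ℤ)
    (h1 : (Fintype.card E : ℤ) - A O₀ ≤ z) (h2 : z ≤ A O₀) :
    ∃ O : E → Bool, Acyc (sx σ c0 b0) O ∧ Acyc (sy σ c0 b0) (fun c => !O c) ∧ A O = z := by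
  obtain ⟨O, hO, hz⟩ := values_fill hO₀ col hc hl hr z (Or.inl ⟨h1, h2⟩)
  obtain ⟨h, hh⟩ := hPL O hO
  obtain ⟨O', h3, h4, h5⟩ := top_state σ c0 b0 fc hF hconn h O hh
  exact ⟨O', h3, h4, h5.trans hz⟩

end Row

end LG3P.Top
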