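import Pool.Agent.Lib.MP_3cd99b_gt.D0

/-!
Definitions for words (oriented tangle diagrams): regions, reduced diagrams, positions, Seifert circles, connected
diagrams, the numbers of crossings, totally cyclic orientations of the Seifert graph.
-/

namespace LG3P.PL
open LG3

/-- one step of a gap function: u before the piece, v after the piece (gap g lies above the strand g) -/
def GapStep : Piece → (ℕ → ℚ) → (ℕ → ℚ) → Prop
  | .cross k _, u, v => ∀ g, g ≠ k + 1 → v g = u g
  | .cup k _, u, v => (∀ g, g ≤ k → v g = u g) ∧ ∀ g, k ≤ g → v (g + 2) = u g
  | .cap k _, u, v => (∀ g, g ≤ k → u g = v g) ∧ ∀ g, k ≤ g → u (g + 2) = v g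

/-- functions that are constant on the regions of a diagram: h t g is the value at the gap g of the slice t (before
the letter t) -/
def IsGap : List Piece → (ℕ → ℕ → ℚ) → Prop
  | [], _ => True
  | p :: w, h => GapStep p (h 0) (h 1) ∧ IsGap w fun t => h (t + 1)

/-- reduced diagrams: at every crossing the regions before and behind it are different -/
def Reduced (w : List Piece) : Prop :=
  ∀ t k s, w[t]? = some (.cross k s) → ∃ h : ℕ → ℕ → ℚ, IsGap w h ∧ h t (k + 1) ≠ h (t + 1) (k + 1)

end LG3P.PL

namespace LG3P.Wo
open LG3

/-- a strand j that enters a piece from the left: (true, i) = it leaves at the right as strand i, (false, i) = it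
turns back and leaves at the left as strand i; a crossing is smoothed: both strands stay on their level -/
def rgt : Piece → ℕ → Bool × ℕ
  | .cross _ _, j => (true, j)
  | .cup k _, j => (true, if j < k then j else j + 2)
  | .cap k _, j => if j < k then (true, j) else if j = k then (false, k + 1) else
      if j = k + 1 then (false, k) else (true, j - 2)

/-- a strand j that enters a piece from the right -/
def lft : Piece → ℕ → Bool × ℕ
  | .cross _ _, j => (true, j)
  | .cap k _, j => (true, if j < k then j else j + 2)
  | .cup k _, j => if j < k then (true, j) else if j = k then (false, k + 1) else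
      if j = k + 1 then (false, k) else (true, j - 2)

/-- the direction of the walk at strand j: q = false: even strands to the left, odd strands to the right -/
def west (q : Bool) (j : ℕ) : Bool := decide (j % 2 = 0) ^^ q

/-- one step of the walk along the smoothed diagram, at the position z = (slice, strand), q = direction of the walk;
the two ends (0, 0) and (w.length, 0) of the diagram are joined -/
def mv (w : List Piece) (q : Bool) (z : ℕ × ℕ) : ℕ × ℕ :=
  if west q z.2 then
    match z.1 with
    | 0 => (w.length, 0)
    | t + 1 => match w[t]? with
      | some p => if (lft p z.2).1 then (t, (lft p z.2).2) else (t + 1, (lft p z.2).2)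
      | none => (0, 0)
  else
    match w[z.1]? with
    | some p => if (rgt p z.2).1 then (z.1 + 1, (rgt p z.2).2) else (z.1, (rgt p z.2).2)
    | none => (0, 0)

/-- the directions of the strands in the slice t (before the letter t) -/
def SL (w : List Piece) (t : ℕ) : List Bool := ((w.take t).foldl (fun o p => o.bind p.dir) (some [true])).getD []

/-- the positions (slice, strand) of the diagram -/
def Val (w : List Piece) (z : ℕ × ℕ) : Prop := z.1 ≤ w.length ∧ z.2 < (SL w z.1).length

/-- the type of the positions -/
abbrev Pos (w : List Piece) := {z : ℕ × ℕ // Val w z}

/-- the number of Seifert circles: positions up to steps of the walk -/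
noncomputable def seifert (w : List Piece) : ℕ := Nat.card (Quot fun z z' : Pos w => z'.1 = mv w false z.1)

/-- the number of crossings of sign s -/
def crossings (s : Bool) (w : List Piece) : ℕ :=
  w.countP fun p => match p with
    | .cross _ s' => s' == s
    | _ => false

/-- the diagram is connected: a function on the positions that is constant along the Seifert circles and takes equal
values at the two strands of every crossing is constant -/
def Connected (w : List Piece) : Prop :=
  ∀ f : Pos w → Bool, (∀ z z' : Pos w, z'.1 = mv w false z.1 → f z' = f z) →
    (∀ t k s, w[t]? = some (Piece.cross k s) → ∀ (h : Val w (t, k)) (h' : Val w (t, k + 1)),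
      f ⟨(t, k), h⟩ = f ⟨(t, k + 1), h'⟩) → ∀ z z', f z = f z'

/-- the even (b = true) or the odd (b = false) one of the strands k, k + 1 -/
def je (b : Bool) (k : ℕ) : ℕ := if decide (k % 2 = 0) = b then k else k + 1

/-- Orientations of the Seifert graph of the crossings of sign s (vertices: Seifert circles, edges: crossings of sign
s): O t = true directs the crossing t from the circle of its odd strand to the circle of its even strand. The
orientation O is totally cyclic: every set T of circles which is entered by a crossing of sign s is left by one. -/
def TotallyCyclic (w : List Piece) (s : Bool) (O : ℕ → Bool) : Prop :=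
  ∀ T : Set (ℕ × ℕ), (∀ z, Val w z → (mv w false z ∈ T ↔ z ∈ T)) →
    (∃ t k, w[t]? = some (.cross k s) ∧ (t, je (!O t) k) ∉ T ∧ (t, je (O t) k) ∈ T) →
    ∃ t k, w[t]? = some (.cross k s) ∧ (t, je (!O t) k) ∈ T ∧ (t, je (O t) k) ∉ T

/-- the greatest number of crossings t of sign s with O t = true in a totally cyclic orientation O -/
noncomputable def rmax (w : List Piece) (s : Bool) : ℕ :=
  sSup {n : ℕ | ∃ O : ℕ → Bool, TotallyCyclic w s O ∧
    {t : ℕ | (∃ k, w[t]? = some (.cross k s)) ∧ O t = true}.ncard = n}

end LG3P.Wo
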