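import Pool.Agent.Lib.MP_3cd99b_gt.Wo9

/-!
The number of Seifert circles and the numbers of positive and negative crossings of a word.
-/

namespace LG3P.Wo
open LG3 PoolLib.MP_3cd99b_gt.Oct PoolLib.MP_3cd99b_gt.Dm

variable {w : List Piece}

theorem quot_iff (hw : IsTangle w) (z z' : Pos w) :
    Quot.mk (fun z z' : Pos w => z'.1 = mv w false z.1) z = Quot.mk (fun z z' : Pos w => z'.1 = mv w false z.1) z' ↔
      (pi hw).SameCycle z z' := by
  constructor
  · intro h
    have h1 := Quot.eqvGen_exact h
    clear h
    induction h1 with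
    | rel x y h =>
      have h2 : y = pi hw x := Subtype.ext h
      rw [h2]
      exact ⟨1, by simp⟩
    | refl x => exact Equiv.Perm.SameCycle.refl _ _
    | symm x y _ ih => exact ih.symm
    | trans x y z _ _ ih1 ih2 => exact ih1.trans ih2
  · intro h
    obtain ⟨n, hn⟩ := h.exists_nat_pow_eq
    clear h
    induction n generalizing z' with
    | zero =>
      rw [pow_zero, Equiv.Perm.one_apply] at hn
      rw [hn]
    | succ n ih =>
      rw [pow_succ', Equiv.Perm.mul_apply] at hn
      rw [ih _ rfl, ← hn]
      exact Quot.sound rfl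

theorem seifert_eq (hw : IsTangle w) (hall : ∀ z : Pos w, ∃ s, OnArc hw s z) : seifert w = Nat.card (Ci (st hw)) := by
  let f : Ci (st hw) → Quot fun z z' : Pos w => z'.1 = mv w false z.1 :=
    Quotient.lift (fun s : Sl w => Quot.mk (fun z z' : Pos w => z'.1 = mv w false z.1) (depP hw s)) (by
      rintro ⟨c, b⟩ ⟨c', b'⟩ ⟨h1, h2⟩
      simp only at h1 h2
      subst h1
      rw [quot_iff hw]
      exact Jw.same_of_st hw (s := (c, b)) h2)
  have hf : Function.Bijective f := by
    constructor
    · intro x y h
      obtain ⟨s, rfl⟩ := Quotient.exists_rep x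
      obtain ⟨s', rfl⟩ := Quotient.exists_rep y
      have h1 : (pi hw).SameCycle (depP hw s) (depP hw s') := (quot_iff hw _ _).mp h
      obtain ⟨h2, h3⟩ := Jw.st_of_same hw h1
      exact Quotient.sound ⟨h2.symm, h3⟩
    · intro y
      obtain ⟨z, rfl⟩ := Quot.exists_rep y
      obtain ⟨s, n, -, hn⟩ := hall z
      refine ⟨Quotient.mk _ s, ?_⟩
      show Quot.mk _ (depP hw s) = _
      rw [quot_iff hw]
      exact ⟨n, by rw [zpow_natCast]; exact hn⟩
  exact (Nat.card_congr (Equiv.ofBijective f hf)).symm

theorem seifert_one (hw : IsTangle w) (h : ∀ z : Pos w, (pi hw).SameCycle (e0 w) z) : seifert w = 1 := by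
  unfold seifert
  rw [Nat.card_eq_one_iff_unique]
  refine ⟨⟨?_⟩, ⟨Quot.mk _ (e0 w)⟩⟩
  intro x y
  obtain ⟨z, rfl⟩ := Quot.exists_rep x
  obtain ⟨z', rfl⟩ := Quot.exists_rep y
  rw [quot_iff hw]
  exact (h z).symm.trans (h z')

theorem crossings_range (s : Bool) : ∀ w : List Piece,
    crossings s w = ∑ t ∈ Finset.range w.length, if isCr w t = true ∧ sc w t = s then 1 else 0 := by
  intro w
  induction w with
  | nil => rfl
  | cons p w ih =>
    rw [List.length_cons, Finset.sum_range_succ']
    have h1 : ∀ t, (if isCr (p :: w) (t + 1) = true ∧ sc (p :: w) (t + 1) = s then 1 else 0) =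
        if isCr w t = true ∧ sc w t = s then 1 else 0 := fun t => rfl
    rw [Finset.sum_congr rfl fun t _ => h1 t, ← ih]
    unfold crossings
    rw [List.countP_cons]
    congr 1
    cases p with
    | cross k s' =>
      show (if (s' == s) = true then 1 else 0) = if (true = true ∧ s' = s) then 1 else 0
      simp
    | cup k f => rfl
    | cap k f => rfl

theorem crossings_eq (s : Bool) (w : List Piece) :
    (Finset.univ.filter fun c : Cr w => sgn w c = s).card = crossings s w := by
  rw [crossings_range, Finset.card_filter]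
  have h1 : ∑ t ∈ Finset.range w.length, (if isCr w t = true ∧ sc w t = s then 1 else 0) =
      ∑ t ∈ (Finset.range w.length).filter (fun t => isCr w t = true), if sc w t = s then 1 else 0 := by
    rw [Finset.sum_filter]
    refine Finset.sum_congr rfl fun t _ => ?_
    by_cases h2 : isCr w t = true <;> simp [h2]
  rw [h1]
  symm
  refine Finset.sum_subtype ((Finset.range w.length).filter (fun t => isCr w t = true)) ?_ (fun t => if sc w t = s then 1 else 0)
  intro t
  rw [Finset.mem_filter, Finset.mem_range]
  exact ⟨fun h => h.2, fun h => ⟨cr_lt h, h⟩⟩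

theorem card_cr (w : List Piece) : Fintype.card (Cr w) = crossings true w + crossings false w := by
  rw [← crossings_eq true w, ← crossings_eq false w, ← Finset.card_univ]
  have := Finset.card_filter_add_card_filter_not (s := (Finset.univ : Finset (Cr w))) (fun c => sgn w c = true)
  rw [← this]
  congr 2
  ext c
  simp

end LG3P.Wo
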