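import Pool.Agent.Lib.MP_3cd99b_gt.Wo10
import Pool.Agent.Lib.MP_3cd99b_gt.Aa

/-!
Connected diagrams.
-/

namespace LG3P.Wo
open LG3 PoolLib.MP_3cd99b_gt.Oct PoolLib.MP_3cd99b_gt.Dm

variable {w : List Piece}

theorem conn_use (hw : IsTangle w) (hC : Connected w) (f : Pos w → Bool) (h1 : ∀ z, f (pi hw z) = f z)
    (h2 : ∀ c : Cr w, f (depP hw (c, true)) = f (depP hw (c, false))) (z z' : Pos w) : f z = f z' := by
  refine hC f (fun z z' h => ?_) (fun t k s hp h h' => ?_) z z'
  · have : z' = pi hw z := Subtype.ext h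
    rw [this, h1]
  · have ht := isCr_of hp
    have hk : kc w t = k := by unfold kc; rw [hp]
    have h3 : f (arrP hw (⟨t, ht⟩, false)) = f (depP hw (⟨t, ht⟩, false)) := by rw [← pi_arrP, h1]
    have h4 := h2 ⟨t, ht⟩
    rw [← h3] at h4
    have e1 : (depP hw (⟨t, ht⟩, true)).1 = (t, je true k) := by
      show (if true then t else t + 1, je true (kc w t)) = _
      rw [hk]; rfl
    have e2 : (arrP hw (⟨t, ht⟩, false)).1 = (t, je false k) := by
      show (if false then t + 1 else t, je false (kc w t)) = _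
      rw [hk]; rfl
    rcases Nat.mod_two_eq_zero_or_one k with hm | hm
    · have j1 : je true k = k := by unfold je; simp [hm]
      have j2 : je false k = k + 1 := by unfold je; simp [hm]
      rw [j1] at e1
      rw [j2] at e2
      have g1 : (⟨(t, k), h⟩ : Pos w) = depP hw (⟨t, ht⟩, true) := Subtype.ext e1.symm
      have g2 : (⟨(t, k + 1), h'⟩ : Pos w) = arrP hw (⟨t, ht⟩, false) := Subtype.ext e2.symm
      rw [g1, g2, h4]
    · have j1 : je true k = k + 1 := by unfold je; simp [hm]
      have j2 : je false k = k := by unfold je; simp [hm]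
      rw [j1] at e1
      rw [j2] at e2
      have g1 : (⟨(t, k + 1), h'⟩ : Pos w) = depP hw (⟨t, ht⟩, true) := Subtype.ext e1.symm
      have g2 : (⟨(t, k), h⟩ : Pos w) = arrP hw (⟨t, ht⟩, false) := Subtype.ext e2.symm
      rw [g1, g2, h4]

theorem same_dep (hw : IsTangle w) {z : Pos w} {s : Sl w} (h : (pi hw).SameCycle z (depP hw s)) :
    ∃ n : ℕ, (pi hw ^ n) z ∈ Dep hw := by
  obtain ⟨n, hn⟩ := h.exists_nat_pow_eq
  exact ⟨n, s, hn.symm⟩

theorem all_pos (hw : IsTangle w) (hC : Connected w) (z : Pos w) :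
    (∃ n : ℕ, (pi hw ^ n) z ∈ Dep hw) ∨ (pi hw).SameCycle (e0 w) z := by
  classical
  by_contra hz
  rw [not_or] at hz
  have h := conn_use hw hC (fun y => decide ((pi hw).SameCycle z y)) (fun y => by
      simp only [Equiv.Perm.sameCycle_apply_right]) (fun c => by
      have a1 : ¬ (pi hw).SameCycle z (depP hw (c, true)) := fun h => hz.1 (same_dep hw h)
      have a2 : ¬ (pi hw).SameCycle z (depP hw (c, false)) := fun h => hz.1 (same_dep hw h)
      simp [a1, a2]) z (e0 w)
  simp only [Equiv.Perm.SameCycle.refl, decide_true] at h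
  exact hz.2 (of_decide_eq_true h.symm).symm

theorem root_pos (hw : IsTangle w) (hC : Connected w) (C0 : Cr w) : ∃ n : ℕ, (pi hw ^ n) (e0 w) ∈ Dep hw := by
  classical
  by_contra hz
  have h := conn_use hw hC (fun y => decide ((pi hw).SameCycle (e0 w) y)) (fun y => by
      simp only [Equiv.Perm.sameCycle_apply_right]) (fun c => by
      have a1 : ¬ (pi hw).SameCycle (e0 w) (depP hw (c, true)) := fun h => hz (same_dep hw h)
      have a2 : ¬ (pi hw).SameCycle (e0 w) (depP hw (c, false)) := fun h => hz (same_dep hw h)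
      simp [a1, a2]) (e0 w) (depP hw (C0, true))
  simp only [Equiv.Perm.SameCycle.refl, decide_true] at h
  exact hz (same_dep hw (of_decide_eq_true h.symm))

theorem conn_st (hw : IsTangle w) (hC : Connected w) (T : Set (Cr w)) (hT : T.Nonempty)
    (hc : ∀ c ∈ T, ∀ b, st hw b c ∈ T) : T = Set.univ := by
  classical
  have key : ∀ (c : Cr w) (b : Bool), (∃ s : Sl w, s.1 ∈ T ∧ (pi hw).SameCycle (depP hw s) (depP hw (c, b))) ↔ c ∈ T := by
    intro c b
    constructor
    · rintro ⟨s, hs, h⟩
      obtain ⟨-, h2⟩ := Jw.st_of_same hw h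
      obtain ⟨n, hn⟩ := h2.exists_nat_pow_eq
      have : ∀ n : ℕ, (st hw s.2 ^ n) s.1 ∈ T := by
        intro n
        induction n with
        | zero => exact hs
        | succ n ih =>
          rw [pow_succ', Equiv.Perm.mul_apply]
          exact hc _ ih _
      have h3 := this n
      rw [hn] at h3
      exact h3
    · intro h
      exact ⟨(c, b), h, Equiv.Perm.SameCycle.refl _ _⟩
  obtain ⟨c0, h0⟩ := hT
  ext c
  refine ⟨fun _ => trivial, fun _ => ?_⟩
  have h := conn_use hw hC (fun y => decide (∃ s : Sl w, s.1 ∈ T ∧ (pi hw).SameCycle (depP hw s) y)) (fun y => by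
      simp only [Equiv.Perm.sameCycle_apply_right]) (fun c => by simp only [key]) (depP hw (c0, true)) (depP hw (c, true))
  simp only [key, h0, decide_true] at h
  exact of_decide_eq_true h.symm

/-- a diagram with a state is connected -/
theorem connected_of (hw : IsTangle w) (hs : (sys false w).isSome = true)
    (hc : ∀ T : Set (Cr w), T.Nonempty → (∀ c ∈ T, ∀ b, st hw b c ∈ T) → T = Set.univ)
    (hroot : Nonempty (Cr w) → ∃ n : ℕ, (pi hw ^ n) (e0 w) ∈ Dep hw) : Connected w := by
  classical
  intro f h1 h2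
  have hpi : ∀ z, f (pi hw z) = f z := fun z => h1 z (pi hw z) rfl
  have hpow : ∀ (n : ℕ) z, f ((pi hw ^ n) z) = f z := by
    intro n z
    induction n with
    | zero => rfl
    | succ n ih => rw [pow_succ', Equiv.Perm.mul_apply, hpi, ih]
  have hsame : ∀ z z', (pi hw).SameCycle z z' → f z = f z' := by
    intro z z' h
    obtain ⟨n, hn⟩ := h.exists_nat_pow_eq
    rw [← hn, hpow]
  have h2' : ∀ c : Cr w, f (depP hw (c, true)) = f (depP hw (c, false)) := by
    rintro ⟨t, ht⟩
    have hp := cr_piece ht
    have h3 : f (arrP hw (⟨t, ht⟩, false)) = f (depP hw (⟨t, ht⟩, false)) := by rw [← pi_arrP, hpi]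
    rw [← h3]
    obtain ⟨k, hk⟩ : ∃ k, kc w t = k := ⟨_, rfl⟩
    have e1 : (depP hw (⟨t, ht⟩, true)).1 = (t, je true k) := by
      show (if true then t else t + 1, je true (kc w t)) = _
      rw [hk]; rfl
    have e2 : (arrP hw (⟨t, ht⟩, false)).1 = (t, je false k) := by
      show (if false then t + 1 else t, je false (kc w t)) = _
      rw [hk]; rfl
    have v1 := (depP hw (⟨t, ht⟩, true)).2
    have v2 := (arrP hw (⟨t, ht⟩, false)).2
    rw [e1] at v1
    rw [e2] at v2
    have g1 : depP hw (⟨t, ht⟩, true) = ⟨(t, je true k), v1⟩ := Subtype.ext e1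
    have g2 : arrP hw (⟨t, ht⟩, false) = ⟨(t, je false k), v2⟩ := Subtype.ext e2
    rw [g1, g2]
    rw [hk] at hp
    rcases Nat.mod_two_eq_zero_or_one k with hm | hm
    · have j1 : je true k = k := by unfold je; simp [hm]
      have j2 : je false k = k + 1 := by unfold je; simp [hm]
      simp only [j1] at v1 ⊢
      simp only [j2] at v2 ⊢
      exact h2 t k _ hp v1 v2
    · have j1 : je true k = k + 1 := by unfold je; simp [hm]
      have j2 : je false k = k := by unfold je; simp [hm]
      simp only [j1] at v1 ⊢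
      simp only [j2] at v2 ⊢
      exact (h2 t k _ hp v2 v1).symm
  by_cases hE : Nonempty (Cr w)
  · obtain ⟨C0⟩ := hE
    have hall : ∀ z : Pos w, ∃ s : Sl w, f z = f (depP hw s) := by
      intro z
      rcases all_arcs hw hs z with ⟨n, s, hn⟩ | h
      · exact ⟨s, by rw [hn, hpow]⟩
      · obtain ⟨n, s, hn⟩ := hroot ⟨C0⟩
        exact ⟨s, by rw [hn, hpow]; exact (hsame _ _ h).symm⟩
    have hdep : ∀ s : Sl w, f (depP hw s) = f (depP hw (s.1, true)) := by
      rintro ⟨c, b⟩
      cases b
      · exact (h2' c).symm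
      · rfl
    have hst : ∀ c b, f (depP hw (st hw b c, true)) = f (depP hw (c, true)) := by
      intro c b
      have a1 := hdep (st hw b c, b)
      have a2 := hdep (c, b)
      simp only at a1 a2
      rw [← a1, ← a2, ← nx_eq, depP_nx', hpow]
    have hT : {c : Cr w | f (depP hw (c, true)) = f (depP hw (C0, true))} = Set.univ := by
      apply hc
      · exact ⟨C0, rfl⟩
      · intro c h b
        exact (hst c b).trans h
    have hconst : ∀ z, f z = f (depP hw (C0, true)) := by
      intro z
      obtain ⟨s, hs⟩ := hall z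
      have h3 : s.1 ∈ {c : Cr w | f (depP hw (c, true)) = f (depP hw (C0, true))} := by rw [hT]; trivial
      rw [hs, hdep]
      exact h3
    intro z z'
    rw [hconst z, hconst z']
  · have hall : ∀ z : Pos w, f z = f (e0 w) := by
      intro z
      rcases all_arcs hw hs z with ⟨n, s, hn⟩ | h
      · exact (hE ⟨s.1⟩).elim
      · exact (hsame _ _ h).symm
    intro z z'
    rw [hall z, hall z']

/-- the polynomial of a diagram that is not connected is 0 -/
theorem zero_of_split (e : Bool) (hw : IsTangle w) (ha : ∀ k s, Piece.cross k s ∈ w → s = (e ^^ decide (k % 2 = 1)))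
    (P : ℤ × ℤ →₀ ℤ) (hP : IsLinksGould w P) (hn : ¬ Connected w) : P = 0 := by
  by_contra h0
  rcases supp_cases e hw ha P hP with h1 | ⟨hE, hs, -⟩ | ⟨m, hm, hs, h⟩
  · exact h0 (by ext z; exact h1 z)
  · exact hn (connected_of hw hs (fun T hT _ => by obtain ⟨c, -⟩ := hT; exact (hE.false c).elim)
      (fun ⟨c⟩ => (hE.false c).elim))
  · obtain ⟨z, hz⟩ : ∃ z, P z ≠ 0 := by
      by_contra hno
      push Not at hno
      exact h0 (by ext z; exact hno z)
    obtain ⟨X, Y, hX, -, -, -⟩ := (h z).mp hz
    refine hn (connected_of hw hs (fun T h1 h2 => conn_of_acyc hX T h1 h2) fun _ => ?_)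
    obtain ⟨n, hn, hm⟩ := hm
    refine ⟨len hw m - n, ?_⟩
    rw [← hm, ← Equiv.Perm.mul_apply, ← pow_add, Nat.sub_add_cancel (le_of_lt hn), ← depP_nx']
    exact ⟨_, rfl⟩

/-- the number of circles -/
theorem card_le {C : Type*} [Fintype C] [DecidableEq C] (D : Dg C) (m : C × Bool) :
    Fintype.card (Ci D.st) ≤ Fintype.card C + 1 := by
  classical
  have h := (D.SG m).dist_low
  have hk : ∀ k : Ci D.st, k ≠ (D.SG m).k0 → ∃ c b, D.κ c b = k ∧ D.dist m (D.κ c (!b)) < D.dist m k := h
  choose cr bb h1 h2 using hk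
  let f : Ci D.st → Option C := fun k => if hk : k ≠ (D.SG m).k0 then some (cr k hk) else none
  have hf : Function.Injective f := by
    intro k k' hkk
    by_cases a : k ≠ (D.SG m).k0
    · by_cases a' : k' ≠ (D.SG m).k0
      · simp only [f, dif_pos a, dif_pos a', Option.some.injEq] at hkk
        by_contra hne
        have g1 := h1 k a
        have g2 := h2 k a
        have g1' := h1 k' a'
        have g2' := h2 k' a'
        rw [hkk] at g1 g2
        have hb : bb k a ≠ bb k' a' := by
          intro hb
          rw [hb] at g1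
          exact hne (g1.symm.trans g1')
        have hb' : (!bb k a) = bb k' a' := by
          revert hb
          cases bb k a <;> cases bb k' a' <;> simp
        have hb'' : (!bb k' a') = bb k a := by rw [← hb', Bool.not_not]
        rw [hb', g1'] at g2
        rw [hb'', g1] at g2'
        omega
      · simp only [f, dif_pos a, dif_neg a'] at hkk
        simp at hkk
    · by_cases a' : k' ≠ (D.SG m).k0
      · simp only [f, dif_neg a, dif_pos a'] at hkk
        simp at hkk
      · rw [not_not] at a a'
        rw [a, a']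
  have := Fintype.card_le_of_injective f hf
  rw [Fintype.card_option] at this
  exact this

end LG3P.Wo
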