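import Pool.Agent.Lib.MP_3cd99b_gt.Wo11

/-!
The polynomial of a connected reduced alternating diagram is not 0.
-/

namespace LG3P.Wo
open LG3 PoolLib.MP_3cd99b_gt.Oct PoolLib.MP_3cd99b_gt.Dm

variable {w : List Piece}

/-- the constant coefficient of a connected reduced alternating diagram is not 0 -/
theorem ne_zero (e : Bool) (hw : IsTangle w) (ha : ∀ k s, Piece.cross k s ∈ w → s = (e ^^ decide (k % 2 = 1)))
    (hr : PL.Reduced w) (P : ℤ × ℤ →₀ ℤ) (hP : IsLinksGould w P) (hC : Connected w)
    (hsf : (sys false w).isSome = true) (hst : (sys true w).isSome = true) : P (0, 0) ≠ 0 := by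
  rw [supp_hist e hw ha P hP]
  by_cases hE : IsEmpty (Cr w)
  · rw [hist_choices e w hw ha]
    have h0 : LG3P.nx w = 0 := by
      rcases Nat.eq_zero_or_pos (LG3P.nx w) with h | h
      · exact h
      · obtain ⟨C, -⟩ := num_surj w 0 h
        exact (hE.false C).elim
    have key : ∀ q : Bool, (labs q w []).isSome = true := by
      intro q
      rw [labs_iff q w [] h0.symm]
      refine ⟨by cases q <;> assumption, fun _ => 0, fun v u huv => ?_⟩
      unfold dgs at huv
      rw [if_neg (by omega)] at huv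
      simp at huv
    refine ⟨[], [], key e, key (!e), ?_⟩
    rw [AB_sum w [] [] h0.symm h0.symm, Finset.univ_eq_empty, Finset.sum_empty]
    rfl
  · rw [not_isEmpty_iff] at hE
    obtain ⟨C0⟩ := hE
    obtain ⟨m, hm⟩ := exists_onArc hw (e0 w) (root_pos hw hC C0)
    rw [border e hw ha hsf hst hm]
    have hc : ∀ T : Set (Cr w), T.Nonempty → (∀ c ∈ T, ∀ b, st hw b c ∈ T) → T = Set.univ := conn_st hw hC
    have hle := card_le (dgW hw hr ha hc) m
    obtain ⟨X, Y, hX, hY, h1, h2⟩ := ((dgW hw hr ha hc).supp' m (planarW hw ha) 0 0).mpr (by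
      refine ⟨by positivity, by simp, by positivity, by simp, by simp, by simp, ?_⟩
      rw [sub_zero, abs_zero]
      have : (Fintype.card (Ci (dgW hw hr ha hc).st) : ℤ) ≤ (Fintype.card (Cr w) : ℤ) + 1 := by exact_mod_cast hle
      linarith)
    exact ⟨X, Y, hX, hY, Prod.ext h1.symm h2.symm⟩

end LG3P.Wo
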