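import Pool.Agent.Lib.MP_3cd99b_gt.Wo12

/-!
The numbers rmax of a word are the numbers rS of its abstract diagram.
-/

namespace LG3P.Wo
open LG3 PoolLib.MP_3cd99b_gt.Oct PoolLib.MP_3cd99b_gt.Dm

variable {w : List Piece}

/-- a set of positions that is invariant under the walk -/
def Inv (w : List Piece) (T : Set (ℕ × ℕ)) : Prop := ∀ z, Val w z → (mv w false z ∈ T ↔ z ∈ T)

theorem inv_pow (hw : IsTangle w) {T : Set (ℕ × ℕ)} (hT : Inv w T) (z : Pos w) (n : ℕ) :
    ((pi hw ^ n) z).1 ∈ T ↔ z.1 ∈ T := by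
  induction n with
  | zero => rfl
  | succ n ih =>
    rw [pow_succ', Equiv.Perm.mul_apply, ← ih]
    exact hT _ ((pi hw ^ n) z).2

theorem inv_same (hw : IsTangle w) {T : Set (ℕ × ℕ)} (hT : Inv w T) {z z' : Pos w} (h : (pi hw).SameCycle z z') :
    z.1 ∈ T ↔ z'.1 ∈ T := by
  obtain ⟨n, hn⟩ := h.exists_nat_pow_eq
  rw [← hn, inv_pow hw hT]

/-- the strand b of a crossing lies on the circle of the slot b -/
theorem inv_slot (hw : IsTangle w) {T : Set (ℕ × ℕ)} (hT : Inv w T) (c : Cr w) (b : Bool) :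
    (c.1, je b (kc w c.1)) ∈ T ↔ (depP hw (c, b)).1 ∈ T := by
  cases b
  · have h1 := hT (arrP hw (c, false)).1 (arrP hw (c, false)).2
    have h2 : mv w false (arrP hw (c, false)).1 = (depP hw (c, false)).1 := mv_arr c.2 false
    rw [h2] at h1
    exact h1.symm
  · exact Iff.rfl

theorem cr_iff {t k : ℕ} {s : Bool} : w[t]? = some (.cross k s) ↔ ∃ h : isCr w t = true, kc w t = k ∧ sgn w ⟨t, h⟩ = s := by
  constructor
  · intro h
    refine ⟨isCr_of h, by unfold kc; rw [h], ?_⟩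
    show sc w t = s
    unfold sc; rw [h]
  · rintro ⟨h, rfl, rfl⟩
    exact cr_piece h

/-- totally cyclic orientations of the word and of the abstract diagram -/
theorem tc_iff (hw : IsTangle w) (s : Bool) (O : ℕ → Bool) :
    TotallyCyclic w s O ↔ TC (st hw) (sgn w) s (fun c => O c.1) := by
  constructor
  · intro h T hT
    -- the positions on the circles of T
    let T' : Set (ℕ × ℕ) := {z | ∃ (v : Val w z) (x : Sl w), ci (st hw) x.1 x.2 ∈ T ∧ (pi hw).SameCycle (depP hw x) ⟨z, v⟩}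
    have hinv : Inv w T' := by
      intro z v
      constructor
      · rintro ⟨v', x, hx, hs⟩
        refine ⟨v, x, hx, ?_⟩
        have h2 : (⟨mv w false z, v'⟩ : Pos w) = pi hw ⟨z, v⟩ := rfl
        rw [h2, Equiv.Perm.sameCycle_apply_right] at hs
        exact hs
      · rintro ⟨v', x, hx, hs⟩
        refine ⟨(mv_main hw false z v).1, x, hx, ?_⟩
        have h2 : (⟨mv w false z, (mv_main hw false z v).1⟩ : Pos w) = pi hw ⟨z, v⟩ := rfl
        rw [h2, Equiv.Perm.sameCycle_apply_right]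
        exact hs
    have hmem : ∀ (c : Cr w) (b : Bool), (c.1, je b (kc w c.1)) ∈ T' ↔ ci (st hw) c b ∈ T := by
      intro c b
      rw [inv_slot hw hinv]
      constructor
      · rintro ⟨v, x, hx, hs⟩
        obtain ⟨h1, h2⟩ := Jw.st_of_same hw (s := x) (s' := (c, b)) hs
        have h3 : ci (st hw) x.1 x.2 = ci (st hw) c b := ci_eq.mpr ⟨h1.symm, h2⟩
        rw [← h3]
        exact hx
      · intro hx
        exact ⟨(depP hw (c, b)).2, (c, b), hx, Equiv.Perm.SameCycle.refl _ _⟩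
    obtain ⟨c, hc, h1, h2⟩ := hT
    obtain ⟨t, k, hp, h3, h4⟩ := h T' hinv ⟨c.1, kc w c.1, cr_iff.mpr ⟨c.2, rfl, hc⟩,
      fun h5 => h1 ((hmem c _).mp h5), (hmem c _).mpr h2⟩
    obtain ⟨ht, rfl, hs⟩ := cr_iff.mp hp
    exact ⟨⟨t, ht⟩, hs, (hmem ⟨t, ht⟩ _).mp h3, fun h5 => h4 ((hmem ⟨t, ht⟩ _).mpr h5)⟩
  · intro h T hT hent
    have hinv : Inv w T := hT
    let T' : Set (Ci (st hw)) := {q | ∃ x : Sl w, ci (st hw) x.1 x.2 = q ∧ (depP hw x).1 ∈ T}
    have hmem : ∀ (c : Cr w) (b : Bool), ci (st hw) c b ∈ T' ↔ (c.1, je b (kc w c.1)) ∈ T := by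
      intro c b
      rw [inv_slot hw hinv]
      constructor
      · rintro ⟨x, hx, h1⟩
        obtain ⟨h2, h3⟩ := ci_eq.mp hx
        have h4 := Jw.same_of_st hw (s := x) (c := c) h3
        rw [h2] at h4
        exact (inv_same hw hinv h4).mp h1
      · intro h1
        exact ⟨(c, b), rfl, h1⟩
    obtain ⟨t, k, hp, h1, h2⟩ := hent
    obtain ⟨ht, rfl, hs⟩ := cr_iff.mp hp
    obtain ⟨c, hc, h3, h4⟩ := h T' ⟨⟨t, ht⟩, hs, fun h5 => h1 ((hmem ⟨t, ht⟩ _).mp h5), (hmem ⟨t, ht⟩ _).mpr h2⟩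
    exact ⟨c.1, kc w c.1, cr_iff.mpr ⟨c.2, rfl, hc⟩, (hmem c _).mp h3, fun h5 => h4 ((hmem c _).mpr h5)⟩

theorem card_or (s : Bool) (O : ℕ → Bool) : {t : ℕ | (∃ k, w[t]? = some (.cross k s)) ∧ O t = true}.ncard =
    (Finset.univ.filter fun c : Cr w => sgn w c = s ∧ O c.1 = true).card := by
  rw [← Set.ncard_coe_finset]
  symm
  have h : {t : ℕ | (∃ k, w[t]? = some (.cross k s)) ∧ O t = true} =
      Subtype.val '' ((Finset.univ.filter fun c : Cr w => sgn w c = s ∧ O c.1 = true : Finset (Cr w)) : Set (Cr w)) := by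
    ext t
    constructor
    · rintro ⟨⟨k, hp⟩, hO⟩
      obtain ⟨ht, -, hs⟩ := cr_iff.mp hp
      exact ⟨⟨t, ht⟩, by simp [hs, hO], rfl⟩
    · rintro ⟨c, hc, rfl⟩
      have h1 : sgn w c = s ∧ O c.1 = true := by simpa using hc
      exact ⟨⟨kc w c.1, cr_iff.mpr ⟨c.2, rfl, h1.1⟩⟩, h1.2⟩
  rw [h, Set.ncard_image_of_injective _ Subtype.val_injective]

/-- the number rmax -/
theorem rmax_eq (hw : IsTangle w) (s : Bool) : rmax w s = rS (st hw) (sgn w) s := by
  classical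
  unfold rmax rS
  congr 1
  ext n
  constructor
  · rintro ⟨O, h1, h2⟩
    exact ⟨fun c => O c.1, (tc_iff hw s O).mp h1, by rw [← h2, card_or]⟩
  · rintro ⟨O, h1, h2⟩
    let O' : ℕ → Bool := fun t => if h : isCr w t = true then O ⟨t, h⟩ else false
    have h3 : (fun c : Cr w => O' c.1) = O := by
      funext c
      simp only [O', dif_pos c.2]
    refine ⟨O', (tc_iff hw s O').mpr (by rw [h3]; exact h1), ?_⟩
    rw [card_or, ← h2]
    have h4 : ∀ c : Cr w, O' c.1 = O c := fun c => congrFun h3 c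
    simp only [h4]

end LG3P.Wo
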