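import Pool.Agent.Lib.MP_3cd99b_gt.Wo13
import Pool.Agent.Lib.MP_3cd99b_gt.FC5
import Pool.Agent.Lib.MP_3cd99b_gt.Nz1
import Pool.Agent.Lib.MP_3cd99b_gt.Fz

/-!
The support of the polynomial of a connected reduced alternating word.
-/

namespace LG3P.Wo
open LG3 PoolLib.MP_3cd99b_gt.Oct PoolLib.MP_3cd99b_gt.Dm

variable {w : List Piece}

/-- (i, j) is a lattice point of the octagon of the diagram w -/
def Octagon (w : List Piece) (i j : ℤ) : Prop :=
  -(rmax w false : ℤ) ≤ i ∧ i ≤ rmax w true ∧ -(rmax w false : ℤ) ≤ j ∧ j ≤ rmax w true ∧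
    -(crossings false w : ℤ) ≤ i + j ∧ i + j ≤ crossings true w ∧
    |i - j| ≤ (crossings true w : ℤ) + crossings false w + 1 - seifert w

theorem rS_empty (hw : IsTangle w) (hE : IsEmpty (Cr w)) (s : Bool) : rS (st hw) (sgn w) s = 0 := by
  unfold rS
  have h : {n : ℕ | ∃ O, TC (st hw) (sgn w) s O ∧ (Finset.univ.filter fun c => sgn w c = s ∧ O c = true).card = n} =
      {0} := by
    ext n
    constructor
    · rintro ⟨O, -, rfl⟩
      show _ = 0
      rw [Finset.card_eq_zero, Finset.filter_eq_empty_iff]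
      intro c
      exact (hE.false c).elim
    · intro hn
      rw [Set.mem_singleton_iff] at hn
      refine ⟨fun _ => true, ?_, ?_⟩
      · rintro T ⟨c, -⟩
        exact (hE.false c).elim
      · rw [hn, Finset.card_eq_zero, Finset.filter_eq_empty_iff]
        intro c
        exact (hE.false c).elim
  rw [h, csSup_singleton]

/-- the abstract form of the support of a connected diagram with crossings -/
theorem supp_conn {e : Bool} (hw : IsTangle w) (ha : ∀ k s, Piece.cross k s ∈ w → s = (e ^^ decide (k % 2 = 1)))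
    (hr : PL.Reduced w) (P : ℤ × ℤ →₀ ℤ) (hP : IsLinksGould w P) (hC : Connected w) (C0 : Cr w) :
    ∃ m : Sl w, ∀ i j : ℤ, P (i, j) ≠ 0 ↔ ∃ X Y : Cr w → Bool,
      Acyc (Top.sx (dgW hw hr ha (conn_st hw hC)).st m.1 m.2) X ∧
      Acyc (Top.sy (dgW hw hr ha (conn_st hw hC)).st m.1 m.2) Y ∧
      Sm.ZA (dgW hw hr ha (conn_st hw hC)).sg X Y = i ∧ Sm.ZB (dgW hw hr ha (conn_st hw hC)).sg X Y = j := by
  obtain ⟨m, hm⟩ := exists_onArc hw (e0 w) (root_pos hw hC C0)
  refine ⟨m, fun i j => ?_⟩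
  rw [supp_hist e hw ha P hP, border e hw ha (sys_of hw false (all_pos hw hC)) (sys_of hw true (all_pos hw hC)) hm]
  constructor
  · rintro ⟨X, Y, hX, hY, hz⟩
    exact ⟨X, Y, hX, hY, (congrArg Prod.fst hz).symm, (congrArg Prod.snd hz).symm⟩
  · rintro ⟨X, Y, hX, hY, h3, h4⟩
    exact ⟨X, Y, hX, hY, Prod.ext h3.symm h4.symm⟩

theorem seifert_conn (hw : IsTangle w) (hC : Connected w) (C0 : Cr w) : seifert w = Nat.card (Ci (st hw)) := by
  apply seifert_eq hw
  intro z
  apply exists_onArc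
  rcases all_pos hw hC z with h4 | h4
  · exact h4
  · obtain ⟨n, hn⟩ := root_pos hw hC C0
    obtain ⟨k, hk⟩ := h4.symm.exists_nat_pow_eq
    exact ⟨n + k, by rw [pow_add, Equiv.Perm.mul_apply, hk]; exact hn⟩

/-- The support of the polynomial of a connected reduced alternating diagram is the set of the lattice points of the
octagon, and every bound of the octagon is attained. -/
theorem octagon_conn {e : Bool} (hw : IsTangle w) (ha : ∀ k s, Piece.cross k s ∈ w → s = (e ^^ decide (k % 2 = 1)))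
    (hr : PL.Reduced w) (P : ℤ × ℤ →₀ ℤ) (hP : IsLinksGould w P) (hC : Connected w) :
    (∀ i j : ℤ, P (i, j) ≠ 0 ↔ Octagon w i j) ∧
      (∃ i j : ℤ, P (i, j) ≠ 0 ∧ i + j = crossings true w) ∧
      (∃ i j : ℤ, P (i, j) ≠ 0 ∧ i + j = -(crossings false w : ℤ)) ∧
      (∃ i j : ℤ, P (i, j) ≠ 0 ∧ i - j = (crossings true w : ℤ) + crossings false w + 1 - seifert w) ∧
      (∃ i j : ℤ, P (i, j) ≠ 0 ∧ i = rmax w true) ∧ (∃ i j : ℤ, P (i, j) ≠ 0 ∧ i = -(rmax w false : ℤ)) := by
  by_cases hE : IsEmpty (Cr w)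
  · have hc : Fintype.card (Cr w) = 0 := Fintype.card_eq_zero_iff.mpr hE
    rw [card_cr] at hc
    have h1 : crossings true w = 0 := by omega
    have h2 : crossings false w = 0 := by omega
    have h3 : seifert w = 1 := by
      apply seifert_one hw
      intro z
      rcases all_pos hw hC z with ⟨n, ⟨C, b⟩, hC⟩ | h4
      · exact (hE.false C).elim
      · exact h4
    have h0 := ne_zero e hw ha hr P hP hC (sys_of hw false (all_pos hw hC)) (sys_of hw true (all_pos hw hC))
    have hz : ∀ z, P z ≠ 0 ↔ z = 0 := by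
      rcases supp_cases e hw ha P hP with h | ⟨-, -, h⟩ | ⟨m, -⟩
      · exact absurd (h _) h0
      · exact h
      · exact (hE.false m.1).elim
    unfold Octagon
    rw [h1, h2, h3, rmax_eq hw, rmax_eq hw, rS_empty hw hE, rS_empty hw hE]
    refine ⟨fun i j => ?_, ⟨0, 0, h0, by simp⟩, ⟨0, 0, h0, by simp⟩, ⟨0, 0, h0, by simp⟩, ⟨0, 0, h0, by simp⟩,
      ⟨0, 0, h0, by simp⟩⟩
    rw [hz]
    constructor
    · intro h
      have h4 : i = 0 := congrArg Prod.fst h
      have h5 : j = 0 := congrArg Prod.snd h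
      subst h4; subst h5
      simp
    · rintro ⟨g1, g2, g3, g4, -, -, -⟩
      push_cast at g1 g2 g3 g4
      exact Prod.ext (by show i = 0; omega) (by show j = 0; omega)
  · rw [not_isEmpty_iff] at hE
    obtain ⟨C0⟩ := hE
    obtain ⟨m, hm⟩ := supp_conn hw ha hr P hP hC C0
    have hcard : Nat.card (Ci (dgW hw hr ha (conn_st hw hC)).st) = Fintype.card (Ci (dgW hw hr ha (conn_st hw hC)).st) :=
      Nat.card_eq_fintype_card
    have key := (dgW hw hr ha (conn_st hw hC)).supp' m (planarW hw ha)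
    have att := (dgW hw hr ha (conn_st hw hC)).supp_attained m (planarW hw ha) (fun i j => P (i, j) ≠ 0) hm
    rw [← hcard] at key att
    have e1 : (dgW hw hr ha (conn_st hw hC)).st = st hw := rfl
    have e2 : (dgW hw hr ha (conn_st hw hC)).sg = sgn w := rfl
    rw [e1, e2, crossings_eq, crossings_eq, ← rmax_eq hw, ← rmax_eq hw, ← seifert_conn hw hC C0, card_cr] at att
    rw [Nat.cast_add] at att
    refine ⟨fun i j => ?_, att⟩
    rw [hm i j, key i j, e1, e2, crossings_eq, crossings_eq, ← rmax_eq hw, ← rmax_eq hw, ← seifert_conn hw hC C0,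
      card_cr]
    unfold Octagon
    push_cast
    constructor
    · rintro ⟨h1, h2, h3, h4, h5, h6, h7⟩
      exact ⟨h2, h1, h4, h3, h6, h5, h7⟩
    · rintro ⟨h1, h2, h3, h4, h5, h6, h7⟩
      exact ⟨h2, h1, h4, h3, h6, h5, h7⟩

end LG3P.Wo
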