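import Pool.Agent.Lib.MP_3cd99b_gt.Wo1

/-!
The permutation of the positions along the smoothed strands, and first returns of a permutation.
-/

namespace LG3P.Wo
open LG3

theorem getElem?_of_lt {w : List Piece} {t : ℕ} (h : t < w.length) : w[t]? = some w[t] :=
  List.getElem?_eq_getElem h

theorem val_zero {w : List Piece} {j : ℕ} (h : Val w (0, j)) : j = 0 := by
  have h2 : j < ([true] : List Bool).length := h.2
  simpa using h2

theorem val_len {w : List Piece} (hw : IsTangle w) {j : ℕ} (h : Val w (w.length, j)) : j = 0 := by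
  have h2 : j < (SL w w.length).length := h.2
  rw [SL_len hw] at h2
  simpa using h2

theorem val_end {w : List Piece} (hw : IsTangle w) : Val w (w.length, 0) :=
  ⟨le_refl _, by show 0 < (SL w w.length).length; rw [SL_len hw]; decide⟩

theorem val_start (w : List Piece) : Val w (0, 0) := ⟨Nat.zero_le _, by show 0 < ([true] : List Bool).length; decide⟩

/-- the walk stays in the diagram, and the walk in the other direction undoes it -/
theorem mv_main {w : List Piece} (hw : IsTangle w) (q : Bool) (z : ℕ × ℕ) (hz : Val w z) :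
    Val w (mv w q z) ∧ mv w (!q) (mv w q z) = z := by
  obtain ⟨t, j⟩ := z
  rcases hd : west q j with _ | _
  · -- to the right
    rcases Nat.lt_or_ge t w.length with ht | ht
    · have hp := getElem?_of_lt ht
      have hs := step_rgt w[t] _ _ (SL_succ hw hp) j hz.2
      rw [mv_east w q t j _ hp hd]
      by_cases h1 : (rgt w[t] j).1 = true
      · rw [if_pos h1] at hs ⊢
        refine ⟨⟨ht, hs.1⟩, ?_⟩
        have hpar := rgt_par w[t] j
        rw [if_pos h1] at hpar
        have h2 : west (!q) (rgt w[t] j).2 = true := by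
          rw [west_not, west_congr q hpar, hd]; rfl
        rw [mv_west w (!q) t _ _ hp h2, lft_of_rgt _ _ h1]
        rfl
      · have h1' : (rgt w[t] j).1 = false := by simpa using h1
        rw [h1'] at hs ⊢
        simp only [Bool.false_eq_true, if_false] at hs ⊢
        refine ⟨⟨hz.1, hs.1⟩, ?_⟩
        have hpar := rgt_par w[t] j
        rw [h1'] at hpar
        simp only [Bool.false_eq_true, if_false] at hpar
        have h2 : west (!q) (rgt w[t] j).2 = false := by
          rw [west_not, west_flip q hpar, hd]; rfl
        rw [mv_east w (!q) t _ _ hp h2, rgt_turn _ _ h1']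
        rfl
    · have ht' : t = w.length := le_antisymm hz.1 ht
      subst ht'
      have hj := val_len hw hz
      subst hj
      rw [mv_len w q 0 hd]
      refine ⟨val_start w, ?_⟩
      have h2 : west (!q) 0 = true := by rw [west_not, hd]; rfl
      rw [mv_zero w (!q) 0 h2]
  · -- to the left
    rcases t with _ | t
    · have hj := val_zero hz
      subst hj
      rw [mv_zero w q 0 hd]
      refine ⟨val_end hw, ?_⟩
      have h2 : west (!q) 0 = false := by rw [west_not, hd]; rfl
      rw [mv_len w (!q) 0 h2]
    · have ht : t < w.length := hz.1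
      have hp := getElem?_of_lt ht
      have hs := step_lft w[t] _ _ (SL_succ hw hp) j hz.2
      rw [mv_west w q t j _ hp hd]
      by_cases h1 : (lft w[t] j).1 = true
      · rw [if_pos h1] at hs ⊢
        refine ⟨⟨le_of_lt ht, hs.1⟩, ?_⟩
        have hpar := lft_par w[t] j
        rw [if_pos h1] at hpar
        have h2 : west (!q) (lft w[t] j).2 = false := by
          rw [west_not, west_congr q hpar, hd]; rfl
        rw [mv_east w (!q) t _ _ hp h2, rgt_of_lft _ _ h1]
        rfl
      · have h1' : (lft w[t] j).1 = false := by simpa using h1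
        rw [h1'] at hs ⊢
        simp only [Bool.false_eq_true, if_false] at hs ⊢
        refine ⟨⟨ht, hs.1⟩, ?_⟩
        have hpar := lft_par w[t] j
        rw [h1'] at hpar
        simp only [Bool.false_eq_true, if_false] at hpar
        have h2 : west (!q) (lft w[t] j).2 = true := by
          rw [west_not, west_flip q hpar, hd]; rfl
        rw [mv_west w (!q) t _ _ hp h2, lft_turn _ _ h1']
        rfl

/-- the permutation of the positions along the smoothed strands, for q = false -/
def pi {w : List Piece} (hw : IsTangle w) : Equiv.Perm (Pos w) where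
  toFun z := ⟨mv w false z.1, (mv_main hw false z.1 z.2).1⟩
  invFun z := ⟨mv w true z.1, (mv_main hw true z.1 z.2).1⟩
  left_inv z := Subtype.ext (mv_main hw false z.1 z.2).2
  right_inv z := Subtype.ext (mv_main hw true z.1 z.2).2

theorem pi_val {w : List Piece} (hw : IsTangle w) (z : Pos w) : (pi hw z).1 = mv w false z.1 := rfl
theorem pi_symm_val {w : List Piece} (hw : IsTangle w) (z : Pos w) : ((pi hw).symm z).1 = mv w true z.1 := rfl

instance finite_pos (w : List Piece) : Finite (Pos w) := by
  have h : {z : ℕ × ℕ | Val w z}.Finite := by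
    apply Set.Finite.subset (Finset.finite_toSet ((Finset.range (w.length + 1)) ×ˢ
      (Finset.range ((Finset.range (w.length + 1)).sup fun t => (SL w t).length))))
    intro z hz
    have hz' : Val w z := hz
    simp only [Finset.coe_product, Set.mem_prod, Finset.coe_range, Set.mem_Iio]
    refine ⟨Nat.lt_succ_of_le hz'.1, lt_of_lt_of_le hz'.2 ?_⟩
    exact Finset.le_sup (f := fun t => (SL w t).length) (Finset.mem_range.mpr (Nat.lt_succ_of_le hz'.1))
  exact h.to_subtype

section FirstReturn

variable {P : Type*} [Finite P] (p : Equiv.Perm P) (S : Set P)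

theorem exists_return (x : P) (hx : x ∈ S) : ∃ n : ℕ, 0 < n ∧ (p ^ n) x ∈ S := by
  refine ⟨orderOf p, orderOf_pos p, ?_⟩
  rw [pow_orderOf_eq_one]
  exact hx

open Classical in
/-- the time of the first return to S -/
noncomputable def ft (x : P) (hx : x ∈ S) : ℕ := Nat.find (exists_return p S x hx)

theorem ft_pos (x : P) (hx : x ∈ S) : 0 < ft p S x hx := by
  classical
  exact (Nat.find_spec (exists_return p S x hx)).1

theorem ft_mem (x : P) (hx : x ∈ S) : (p ^ (ft p S x hx)) x ∈ S := by
  classical
  exact (Nat.find_spec (exists_return p S x hx)).2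

theorem ft_min (x : P) (hx : x ∈ S) (n : ℕ) (h0 : 0 < n) (h : n < ft p S x hx) : (p ^ n) x ∉ S := by
  classical
  intro h1
  exact Nat.find_min (exists_return p S x hx) h ⟨h0, h1⟩

/-- the first return map -/
noncomputable def frFun (x : S) : S := ⟨(p ^ (ft p S x.1 x.2)) x.1, ft_mem p S x.1 x.2⟩

theorem frFun_inj : Function.Injective (frFun p S) := by
  have key : ∀ x y : S, ft p S x.1 x.2 ≤ ft p S y.1 y.2 → frFun p S x = frFun p S y → x = y := by
    intro x y hle h
    have h1 : (p ^ (ft p S x.1 x.2)) x.1 = (p ^ (ft p S y.1 y.2)) y.1 := congrArg Subtype.val h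
    obtain ⟨d, hd⟩ := Nat.exists_eq_add_of_le hle
    rw [hd, pow_add, Equiv.Perm.mul_apply] at h1
    have h2 : x.1 = (p ^ d) y.1 := (p ^ (ft p S x.1 x.2)).injective h1
    rcases Nat.eq_zero_or_pos d with h0 | h0
    · rw [h0, pow_zero, Equiv.Perm.one_apply] at h2
      exact Subtype.ext h2
    · exfalso
      have h3 := ft_pos p S x.1 x.2
      exact ft_min p S y.1 y.2 d h0 (by omega) (h2 ▸ x.2)
  intro x y h
  rcases le_total (ft p S x.1 x.2) (ft p S y.1 y.2) with hle | hle
  · exact key x y hle h
  · exact (key y x hle h.symm).symm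

/-- the first return map as a permutation of S -/
noncomputable def fr : Equiv.Perm S := Equiv.ofBijective (frFun p S) (Finite.injective_iff_bijective.mp (frFun_inj p S))

theorem fr_apply (x : S) : (fr p S x).1 = (p ^ (ft p S x.1 x.2)) x.1 := rfl

/-- a function that is constant along the steps that do not end in S -/
theorem fr_const {α : Type*} (φ : P → α) (x : S)
    (h : ∀ n : ℕ, n + 1 < ft p S x.1 x.2 → φ ((p ^ (n + 1)) x.1) = φ ((p ^ n) x.1)) :
    φ (p.symm (fr p S x).1) = φ x.1 := by
  have h0 := ft_pos p S x.1 x.2
  obtain ⟨m, hm⟩ : ∃ m, ft p S x.1 x.2 = m + 1 := ⟨ft p S x.1 x.2 - 1, by omega⟩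
  have h1 : ∀ n : ℕ, n ≤ m → φ ((p ^ n) x.1) = φ x.1 := by
    intro n
    induction n with
    | zero => intro _; rw [pow_zero, Equiv.Perm.one_apply]
    | succ n ih =>
      intro hn
      rw [h n (by omega), ih (by omega)]
  rw [fr_apply, hm, pow_succ', Equiv.Perm.mul_apply, Equiv.symm_apply_apply]
  exact h1 m (le_refl _)

end FirstReturn

end LG3P.Wo
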