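import Pool.Agent.Lib.MP_3cd99b_gt.Nu
import Pool.Agent.Lib.MP_3cd99b_gt.Wo5
import Pool.Agent.Lib.MP_3cd99b_gt.Top

/-!
The parent functions of the crossings of a diagram are the walkers of the circles cut at the ends.
-/

namespace LG3P.Wo
open LG3

variable {w : List Piece}

/-- the arcs through a position, and those on which it is not after the left end of the diagram -/
def psi (hw : IsTangle w) (z : Pos w) : Set (Sl w) × Set (Sl w) :=
  ({s | OnArc hw s z},
    {s | ∃ n m : ℕ, n ≤ m ∧ m < len hw s ∧ (pi hw ^ n) (depP hw s) = z ∧ (pi hw ^ m) (depP hw s) = e0 w})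

theorem onArc_step (hw : IsTangle w) {z : Pos w} (hd : pi hw z ∉ Dep hw) (s : Sl w) :
    OnArc hw s (pi hw z) ↔ OnArc hw s z := by
  constructor
  · rintro ⟨n, hn, h⟩
    rcases n with _ | n
    · rw [pow_zero, Equiv.Perm.one_apply] at h
      exact absurd ⟨s, h⟩ hd
    · refine ⟨n, by omega, ?_⟩
      rw [pow_succ', Equiv.Perm.mul_apply] at h
      exact (pi hw).injective h
  · rintro ⟨n, hn, h⟩
    refine ⟨n + 1, ?_, by rw [pow_succ', Equiv.Perm.mul_apply, h]⟩
    by_contra hle
    have h2 : n + 1 = len hw s := by omega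
    have h3 := depP_nx' hw s
    rw [← h2, pow_succ', Equiv.Perm.mul_apply, h] at h3
    exact hd ⟨_, h3⟩

theorem psi_step (hw : IsTangle w) (z : Pos w) (h0 : z ≠ e0 w) (hd : pi hw z ∉ Dep hw) :
    psi hw (pi hw z) = psi hw z := by
  refine Prod.ext ?_ ?_
  · ext s; exact onArc_step hw hd s
  · ext s
    constructor
    · rintro ⟨n, m, hnm, hm, h1, h2⟩
      rcases n with _ | n
      · rw [pow_zero, Equiv.Perm.one_apply] at h1
        exact absurd ⟨s, h1⟩ hd
      · rw [pow_succ', Equiv.Perm.mul_apply] at h1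
        exact ⟨n, m, by omega, hm, (pi hw).injective h1, h2⟩
    · rintro ⟨n, m, hnm, hm, h1, h2⟩
      refine ⟨n + 1, m, ?_, hm, by rw [pow_succ', Equiv.Perm.mul_apply, h1], h2⟩
      rcases Nat.lt_or_ge n m with h3 | h3
      · exact h3
      · exfalso
        apply h0
        have h4 : n = m := by omega
        rw [← h1, ← h2, h4]

theorem arc_dep (hw : IsTangle w) {s s' : Sl w} (h : OnArc hw s' (depP hw s)) : s' = s :=
  onArc_unique hw h (onArc_dep hw s)

theorem arrP_nx (hw : IsTangle w) (s : Sl w) : arrP hw (nx hw s) = (pi hw ^ (len hw s - 1)) (depP hw s) := by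
  apply (pi hw).injective
  have h0 : 0 < len hw s := ft_pos _ _ _ _
  rw [pi_arrP, depP_nx', ← Equiv.Perm.mul_apply, ← pow_succ']
  congr 2
  omega

theorem onArc_arr (hw : IsTangle w) (s : Sl w) : OnArc hw s (arrP hw (nx hw s)) := by
  have h0 : 0 < len hw s := ft_pos _ _ _ _
  exact ⟨len hw s - 1, by omega, (arrP_nx hw s).symm⟩

theorem arc_arr (hw : IsTangle w) {s s' : Sl w} (h : OnArc hw s' (arrP hw (nx hw s))) : s' = s :=
  onArc_unique hw h (onArc_arr hw s)

/-- the index of a position on an arc is unique -/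
theorem idx_unique (hw : IsTangle w) (s : Sl w) {n n' : ℕ} (hn : n < len hw s) (hn' : n' < len hw s)
    (h : (pi hw ^ n) (depP hw s) = (pi hw ^ n') (depP hw s)) : n = n' := by
  have key : ∀ {n n' : ℕ}, n ≤ n' → n' < len hw s → (pi hw ^ n) (depP hw s) = (pi hw ^ n') (depP hw s) → n = n' := by
    intro n n' hle hn' h
    obtain ⟨d, rfl⟩ := Nat.exists_eq_add_of_le hle
    rw [pow_add, Equiv.Perm.mul_apply] at h
    have h2 := (pi hw ^ n).injective h
    rcases Nat.eq_zero_or_pos d with h0 | h0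
    · omega
    · exfalso
      exact ft_min (pi hw) (Dep hw) (depP hw s) ⟨s, rfl⟩ d h0 (lt_of_le_of_lt (Nat.le_add_left _ _) hn')
        (h2 ▸ ⟨s, rfl⟩)
  rcases le_total n n' with hle | hle
  · exact key hle hn' h
  · exact (key hle hn h.symm).symm

theorem bef_arr (hw : IsTangle w) (s : Sl w) : (psi hw (arrP hw (nx hw s))).2 = ∅ := by
  ext x
  constructor
  · rintro ⟨n, m, hnm, hm, h1, h2⟩
    exfalso
    have hx : x = s := arc_arr hw ⟨n, by omega, h1⟩
    subst hx
    have h0 : 0 < len hw x := ft_pos _ _ _ _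
    rw [arrP_nx] at h1
    have h3 := idx_unique hw x (by omega) (by omega) h1
    have h4 : m = len hw x - 1 := by omega
    have h5 := depP_nx' hw x
    have h6 : len hw x = m + 1 := by omega
    rw [h6, pow_succ', Equiv.Perm.mul_apply, h2, pi_e0] at h5
    exact e1_not_dep hw ⟨_, h5⟩
  · intro h; exact absurd h (Set.notMem_empty _)

theorem bef_dep (hw : IsTangle w) {m : Sl w} (hm : OnArc hw m (e0 w)) : m ∈ (psi hw (depP hw m)).2 := by
  obtain ⟨k, hk, h⟩ := hm
  exact ⟨0, k, by omega, hk, rfl, h⟩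

theorem onArc_e1 (hw : IsTangle w) (s : Sl w) : OnArc hw s (e1 hw) ↔ OnArc hw s (e0 w) := by
  rw [← pi_e0]
  apply onArc_step
  rw [pi_e0]
  exact e1_not_dep hw

/-- the rules of the two files -/
theorem rul_rul {α : Type*} {φ : ℕ → ℕ → α} (h : Rul w φ) : LG3P.Rul [true] w φ := by
  intro t p hp j hj
  obtain ⟨h1, h2, h3⟩ := h t p hp
  rw [SLo_eq, SLo_eq]
  refine ⟨fun hl => ⟨fun hr => (h1 j hl hr ?_).symm, fun hr => (h2 j hl hr).symm⟩, fun hl hr => (h3 j hl hr).symm⟩
  intro hc
  apply hj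
  cases p with
  | cross k s => exact hc
  | cup k f => exact hc
  | cap k f => exact hc

theorem his_dep_f (hw : IsTangle w) (C : Cr w) (b : Bool) : LG3P.dep false w (num w C) b = (depP hw (C, b)).1 := by
  unfold LG3P.dep
  rw [cxp_num]
  show _ = dep w (C.1, b)
  unfold dep jj je parq
  rw [Bool.xor_false]
  cases b <;> rfl

theorem his_arr_f (hw : IsTangle w) (C : Cr w) (b : Bool) : LG3P.arr false w (num w C) b = (arrP hw (C, b)).1 := by
  unfold LG3P.arr
  rw [cxp_num]
  show _ = arr w (C.1, b)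
  unfold arr jj je parq
  rw [Bool.xor_false]
  cases b <;> rfl

theorem his_dep_t (hw : IsTangle w) (C : Cr w) (b : Bool) : LG3P.dep true w (num w C) (!b) = (arrP hw (C, b)).1 := by
  unfold LG3P.dep
  rw [cxp_num]
  show _ = arr w (C.1, b)
  unfold arr jj je parq
  cases b <;> cases decide (kc w C.1 % 2 = 0) <;> rfl

theorem his_arr_t (hw : IsTangle w) (C : Cr w) (b : Bool) : LG3P.arr true w (num w C) (!b) = (depP hw (C, b)).1 := by
  unfold LG3P.arr
  rw [cxp_num]
  show _ = dep w (C.1, b)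
  unfold dep jj je parq
  cases b <;> cases decide (kc w C.1 % 2 = 0) <;> rfl

/-- the walker of the system q = false -/
theorem dgs_false (hw : IsTangle w) (hs : (sys false w).isSome = true) (C : Cr w) (b : Bool) :
    (OnArc hw (C, b) (e0 w) ∧ dgs false w (num w C) b = none) ∨
    (¬ OnArc hw (C, b) (e0 w) ∧ dgs false w (num w C) b = some (num w (st hw b C))) := by
  have hR : LG3P.Rul [true] w (ext (psi hw)) := rul_rul (rul_ext hw (psi hw) (psi_step hw))
  obtain ⟨h1, h2⟩ := dgs_w0 false w hw _ hR (num w C) (num_lt w C) b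
  rcases hd : dgs false w (num w C) b with _ | c'
  · left
    refine ⟨?_, rfl⟩
    obtain ⟨-, h3⟩ := h2 hd hs
    rw [his_dep_f hw, ext_val] at h3
    have h4 : ext (psi hw) (if false then w.length else 0) 0 = some (psi hw (e0 w)) := ext_val (psi hw) (e0 w)
    rw [h4, Option.some.injEq] at h3
    have h5 : (C, b) ∈ (psi hw (depP hw (C, b))).1 := onArc_dep hw (C, b)
    rw [h3] at h5
    exact h5
  · right
    obtain ⟨h3, h4⟩ := h1 c' hd
    obtain ⟨C', rfl⟩ := num_surj w c' h3
    rw [his_dep_f hw, his_arr_f hw, ext_val, ext_val, Option.some.injEq] at h4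
    have h5 : (C, b) ∈ (psi hw (depP hw (C, b))).1 := onArc_dep hw (C, b)
    rw [h4] at h5
    have h6 : nx hw (C, b) = (C', b) := by
      have h7 : (C', b) = nx hw ((nx hw).symm (C', b)) := (Equiv.apply_symm_apply _ _).symm
      rw [h7] at h5
      rw [arc_arr hw h5, Equiv.apply_symm_apply]
    refine ⟨?_, ?_⟩
    · intro hm
      have h7 := bef_dep hw hm
      rw [h4, ← h6, bef_arr] at h7
      exact h7
    · rw [nx_eq, Prod.mk.injEq] at h6
      rw [h6.1]

/-- the walker of the system q = true -/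
theorem dgs_true (hw : IsTangle w) (hs : (sys true w).isSome = true) (C : Cr w) (b : Bool) :
    (OnArc hw ((nx hw).symm (C, b)) (e0 w) ∧ dgs true w (num w C) (!b) = none) ∨
    (¬ OnArc hw ((nx hw).symm (C, b)) (e0 w) ∧ dgs true w (num w C) (!b) = some (num w ((st hw b).symm C))) := by
  have hR : LG3P.Rul [true] w (ext (psi hw)) := rul_rul (rul_ext hw (psi hw) (psi_step hw))
  obtain ⟨h1, h2⟩ := dgs_w0 true w hw _ hR (num w C) (num_lt w C) (!b)
  have h5 : (nx hw).symm (C, b) ∈ (psi hw (arrP hw (C, b))).1 := by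
    have h6 := onArc_arr hw ((nx hw).symm (C, b))
    rw [Equiv.apply_symm_apply] at h6
    exact h6
  rcases hd : dgs true w (num w C) (!b) with _ | c'
  · left
    refine ⟨?_, rfl⟩
    obtain ⟨-, h3⟩ := h2 hd hs
    rw [his_dep_t hw, ext_val] at h3
    have h4 : ext (psi hw) (if true then w.length else 0) 0 = some (psi hw (e1 hw)) := ext_val (psi hw) (e1 hw)
    rw [h4, Option.some.injEq] at h3
    rw [h3] at h5
    exact (onArc_e1 hw _).mp h5
  · right
    obtain ⟨h3, h4⟩ := h1 c' hd
    obtain ⟨C', rfl⟩ := num_surj w c' h3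
    rw [his_dep_t hw, his_arr_t hw, ext_val, ext_val, Option.some.injEq] at h4
    rw [h4] at h5
    have h6 : (nx hw).symm (C, b) = (C', b) := arc_dep hw h5
    refine ⟨?_, ?_⟩
    · intro hm
      rw [h6] at hm
      have h7 := bef_dep hw hm
      have h8 : (C, b) = nx hw (C', b) := by rw [← h6, Equiv.apply_symm_apply]
      rw [← h4, h8, bef_arr] at h7
      exact h7
    · rw [nx_symm_eq, Prod.mk.injEq] at h6
      rw [h6.1]

end LG3P.Wo
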