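import Pool.Agent.Lib.MP_3cd99b_gt.Wo6
import Pool.Agent.Lib.MP_3cd99b_gt.L10

/-!
The border between the words and the abstract diagrams: the exponents of the histories of an alternating diagram are
the exponents of the pairs of acyclic states.
-/

namespace LG3P.Wo
open LG3 PoolLib.MP_3cd99b_gt.Oct

variable {w : List Piece}

theorem labs_acyc (q : Bool) (x : List Bool) (hx : x.length = LG3P.nx w) (hs : (sys q w).isSome = true)
    (s : Cr w → Bool → Option (Cr w)) (X : Cr w → Bool)
    (h : ∀ C, dgs q w (num w C) (fnx x (num w C)) = (s C (X C)).map (num w)) :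
    (labs q w x).isSome = true ↔ Acyc s X := by
  classical
  rw [labs_iff q w x hx]
  constructor
  · rintro ⟨-, r, hr⟩
    refine ⟨fun C => r (num w C), fun v u huv => hr _ _ ?_⟩
    rw [h, huv]
    rfl
  · rintro ⟨r, hr⟩
    refine ⟨hs, fun c => if hc : c < LG3P.nx w then r (num_surj w c hc).choose else 0, ?_⟩
    intro v u huv
    have hv : v < LG3P.nx w := by
      by_contra hv
      unfold dgs at huv
      rw [if_neg hv] at huv
      simp at huv
    have h1 : ∀ c (hc : c < LG3P.nx w), num w (num_surj w c hc).choose = c := fun c hc => (num_surj w c hc).choose_spec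
    have h2 := h (num_surj w v hv).choose
    rw [h1 v hv, huv] at h2
    rcases hsx : s (num_surj w v hv).choose (X (num_surj w v hv).choose) with _ | U
    · rw [hsx] at h2
      simp at h2
    · rw [hsx, Option.map_some, Option.some.injEq] at h2
      have hu : u < LG3P.nx w := by rw [h2]; exact num_lt w U
      have h3 : (num_surj w u hu).choose = U := num_inj w ((h1 u hu).trans h2)
      show (if hc : u < LG3P.nx w then r (num_surj w u hc).choose else 0) <
        (if hc : v < LG3P.nx w then r (num_surj w v hc).choose else 0)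
      rw [dif_pos hv, dif_pos hu, h3]
      exact hr _ _ hsx

open Classical in
theorem dgs_sx (hw : IsTangle w) (hs : (sys false w).isSome = true) {m : Sl w} (hm : OnArc hw m (e0 w)) (C : Cr w)
    (b : Bool) : dgs false w (num w C) b = (Top.sx (st hw) m.1 m.2 C b).map (num w) := by
  unfold Top.sx
  rcases dgs_false hw hs C b with ⟨h1, h2⟩ | ⟨h1, h2⟩
  · have h3 := onArc_unique hw h1 hm
    rw [h2, if_pos ⟨congrArg Prod.fst h3, congrArg Prod.snd h3⟩]
    rfl
  · rw [h2, if_neg]
    · rfl
    · rintro ⟨rfl, rfl⟩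
      exact h1 hm

open Classical in
theorem dgs_sy (hw : IsTangle w) (hs : (sys true w).isSome = true) {m : Sl w} (hm : OnArc hw m (e0 w)) (C : Cr w)
    (b : Bool) : dgs true w (num w C) (!b) = (Top.sy (st hw) m.1 m.2 C b).map (num w) := by
  unfold Top.sy
  rcases dgs_true hw hs C b with ⟨h1, h2⟩ | ⟨h1, h2⟩
  · have h3 := onArc_unique hw h1 hm
    have h4 : (C, b) = (st hw m.2 m.1, m.2) := by
      rw [← nx_eq, ← h3, Equiv.apply_symm_apply]
    rw [h2, if_pos ⟨congrArg Prod.fst h4, congrArg Prod.snd h4⟩]
    rfl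
  · rw [h2, if_neg]
    · rfl
    · rintro ⟨h3, rfl⟩
      apply h1
      have h4 : (nx hw).symm (C, m.2) = m := by
        rw [Equiv.symm_apply_eq, h3]
        exact (nx_eq hw m.1 m.2).symm
      rw [h4]
      exact hm

open Classical in
/-- the two exponents of a pair of states -/
theorem pair_val (X Y : Cr w → Bool) (x y : List Bool) (hx : x.length = LG3P.nx w)
    (hy : y.length = LG3P.nx w) (e : Bool) (h1 : ∀ C, fnx x (num w C) = if e then !(Y C) else X C)
    (h2 : ∀ C, fnx y (num w C) = if e then X C else !(Y C)) :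
    LG3P.AB w x y = (∑ C, if X C = true ∧ Y C = false then sg (sc w C.1) else 0,
      ∑ C, if X C = false ∧ Y C = true then sg (sc w C.1) else 0) := by
  rw [AB_sum w x y hx hy]
  have : ∀ C : Cr w, (if fnx x (num w C) then (if fnx y (num w C) then (sg (sc w C.1), (0 : ℤ)) else (0, 0)) else
      (if fnx y (num w C) then ((0 : ℤ), (0 : ℤ)) else (0, sg (sc w C.1)))) =
      (if X C = true ∧ Y C = false then sg (sc w C.1) else 0, if X C = false ∧ Y C = true then sg (sc w C.1) else 0) := by
    intro C
    rw [h1, h2]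
    cases e <;> cases X C <;> cases Y C <;> simp
  rw [Finset.sum_congr rfl fun C _ => this C]
  refine Prod.ext ?_ ?_
  · rw [Prod.fst_sum]
  · rw [Prod.snd_sum]

open Classical in
/-- The border theorem. -/
theorem border (e : Bool) (hw : IsTangle w)
    (ha : ∀ k s, Piece.cross k s ∈ w → s = (e ^^ decide (k % 2 = 1)))
    (hsf : (sys false w).isSome = true) (hst : (sys true w).isSome = true) {m : Sl w} (hm : OnArc hw m (e0 w)) (z : ℤ × ℤ) :
    (∃ t ∈ hist w [0], t.2 = z) ↔ ∃ X Y : Cr w → Bool, Acyc (Top.sx (st hw) m.1 m.2) X ∧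
      Acyc (Top.sy (st hw) m.1 m.2) Y ∧ z = (∑ C, if X C = true ∧ Y C = false then sg (sc w C.1) else 0,
      ∑ C, if X C = false ∧ Y C = true then sg (sc w C.1) else 0) := by
  rw [hist_choices e w hw ha z]
  have key : ∀ (X Y : Cr w → Bool) (x y : List Bool), x.length = LG3P.nx w → y.length = LG3P.nx w →
      (∀ C, fnx x (num w C) = if e then !(Y C) else X C) → (∀ C, fnx y (num w C) = if e then X C else !(Y C)) →
      (((labs e w x).isSome = true ∧ (labs (!e) w y).isSome = true) ↔
        (Acyc (Top.sx (st hw) m.1 m.2) X ∧ Acyc (Top.sy (st hw) m.1 m.2) Y)) := by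
    intro X Y x y hx hy h1 h2
    cases e
    · simp only [Bool.false_eq_true, if_false] at h1 h2
      rw [labs_acyc false x hx hsf (Top.sx (st hw) m.1 m.2) X (fun C => by rw [h1]; exact dgs_sx hw hsf hm C _)]
      rw [Bool.not_false, labs_acyc true y hy hst (Top.sy (st hw) m.1 m.2) Y
        (fun C => by rw [h2]; exact dgs_sy hw hst hm C _)]
    · simp only [if_true] at h1 h2
      rw [labs_acyc true x hx hst (Top.sy (st hw) m.1 m.2) Y (fun C => by rw [h1]; exact dgs_sy hw hst hm C _)]
      rw [Bool.not_true, labs_acyc false y hy hsf (Top.sx (st hw) m.1 m.2) X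
        (fun C => by rw [h2]; exact dgs_sx hw hsf hm C _)]
      exact and_comm
  constructor
  · rintro ⟨x, y, hx, hy, hz⟩
    have lx := labs_len hx
    have ly := labs_len hy
    let X : Cr w → Bool := fun C => if e then fnx y (num w C) else fnx x (num w C)
    let Y : Cr w → Bool := fun C => if e then !(fnx x (num w C)) else !(fnx y (num w C))
    have h1 : ∀ C, fnx x (num w C) = if e then !(Y C) else X C := by
      intro C; cases e <;> simp [X, Y]
    have h2 : ∀ C, fnx y (num w C) = if e then X C else !(Y C) := by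
      intro C; cases e <;> simp [X, Y]
    obtain ⟨h3, h4⟩ := (key X Y x y lx ly h1 h2).mp ⟨hx, hy⟩
    exact ⟨X, Y, h3, h4, by rw [hz]; exact pair_val X Y x y lx ly e h1 h2⟩
  · rintro ⟨X, Y, hX, hY, hz⟩
    obtain ⟨x, lx, h1⟩ := list_of w (fun C => if e then !(Y C) else X C)
    obtain ⟨y, ly, h2⟩ := list_of w (fun C => if e then X C else !(Y C))
    obtain ⟨h3, h4⟩ := (key X Y x y lx ly h1 h2).mpr ⟨hX, hY⟩
    exact ⟨x, y, h3, h4, by rw [hz]; exact (pair_val X Y x y lx ly e h1 h2).symm⟩

/-- the cases without a crossing on the circle of the ends -/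
theorem border_cases (e : Bool) (hw : IsTangle w)
    (ha : ∀ k s, Piece.cross k s ∈ w → s = (e ^^ decide (k % 2 = 1))) :
    (∀ z : ℤ × ℤ, ¬ ∃ t ∈ hist w [0], t.2 = z) ∨
    (IsEmpty (Cr w) ∧ (sys false w).isSome = true ∧ ∀ z : ℤ × ℤ, (∃ t ∈ hist w [0], t.2 = z) ↔ z = 0) ∨
    (∃ m : Sl w, OnArc hw m (e0 w) ∧ (sys false w).isSome = true ∧ (sys true w).isSome = true) := by
  classical
  by_cases hne : ∃ z : ℤ × ℤ, ∃ t ∈ hist w [0], t.2 = z
  · right
    obtain ⟨z0, hz0⟩ := hne
    obtain ⟨x, y, hx, hy, hz⟩ := (hist_choices e w hw ha z0).mp hz0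
    have lx := labs_len hx
    have ly := labs_len hy
    have sx := ((labs_iff e w x lx).mp hx).1
    have sy := ((labs_iff (!e) w y ly).mp hy).1
    have s1 : (sys false w).isSome = true := by cases e <;> assumption
    have s2 : (sys true w).isSome = true := by cases e <;> assumption
    by_cases hE : IsEmpty (Cr w)
    · left
      refine ⟨hE, s1, ?_⟩
      have h0 : LG3P.nx w = 0 := by
        rcases Nat.eq_zero_or_pos (LG3P.nx w) with h | h
        · exact h
        · obtain ⟨C, -⟩ := num_surj w 0 h
          exact (hE.false C).elim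
      have key : ∀ x y : List Bool, x.length = LG3P.nx w → y.length = LG3P.nx w → LG3P.AB w x y = 0 := by
        intro x y hx hy
        rw [AB_sum w x y hx hy, Finset.univ_eq_empty, Finset.sum_empty]
      intro z
      constructor
      · intro h
        obtain ⟨x', y', hx', hy', hz'⟩ := (hist_choices e w hw ha z).mp h
        rw [hz', key x' y' (labs_len hx') (labs_len hy')]
      · rintro rfl
        rw [key x y lx ly] at hz
        rw [← hz]
        exact hz0
    · right
      rw [not_isEmpty_iff] at hE
      rcases cut_exists hw with ⟨m, hm, -⟩ | hno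
      · exact ⟨m, hm, s1, s2⟩
      · exfalso
        have hn : ∀ s : Sl w, ¬ OnArc hw s (e0 w) := by
          rintro s ⟨n, hn, h⟩
          -- then the walk from e0 reaches Dep
          have h2 : (pi hw ^ (len hw s - n)) (e0 w) ∈ Dep hw := by
            rw [← h, ← Equiv.Perm.mul_apply, ← pow_add, Nat.sub_add_cancel (le_of_lt hn), ← depP_nx']
            exact ⟨_, rfl⟩
          exact hno _ h2
        -- the choices of the system q = false
        obtain ⟨xf, lf, hf⟩ : ∃ xf : List Bool, xf.length = LG3P.nx w ∧ (labs false w xf).isSome = true := by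
          cases e
          · exact ⟨x, lx, hx⟩
          · exact ⟨y, ly, hy⟩
        obtain ⟨-, r, hr⟩ := (labs_iff false w xf lf).mp hf
        obtain ⟨C0, h0⟩ := Finite.exists_min (fun C : Cr w => r (num w C))
        rcases dgs_false hw s1 C0 (fnx xf (num w C0)) with ⟨h1, -⟩ | ⟨-, h2⟩
        · exact hn _ h1
        · have h3 := hr _ _ h2
          have h4 := h0 (st hw (fnx xf (num w C0)) C0)
          omega
  · left
    intro z hz
    exact hne ⟨z, hz⟩

end LG3P.Wo
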