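import Pool.Agent.Lib.MP_3cd99b_gt.Wo7
import Pool.Agent.Lib.MP_3cd99b_gt.Rg

/-!
The support of the Links-Gould polynomial of an alternating diagram in terms of acyclic states of the circles.
-/

namespace LG3P.Wo
open LG3 PoolLib.MP_3cd99b_gt.Oct

variable {w : List Piece}

/-- the signs of the crossings -/
def sgn (w : List Piece) (C : Cr w) : Bool := sc w C.1

/-- the support of the polynomial = exponents of the histories -/
theorem supp_hist (e : Bool) (hw : IsTangle w) (ha : ∀ k s, Piece.cross k s ∈ w → s = (e ^^ decide (k % 2 = 1)))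
    (P : ℤ × ℤ →₀ ℤ) (hP : IsLinksGould w P) (z : ℤ × ℤ) : P z ≠ 0 ↔ ∃ t ∈ hist w [0], t.2 = z := by
  obtain ⟨c, hc⟩ := hist_alt e w hw ha
  rw [(isLinksGould_iff_eq w hw P).mp hP, polyOf_ne_zero _ c hc z]

/-- The support: empty, or no crossings, or the exponents of the pairs of acyclic states. -/
theorem supp_cases (e : Bool) (hw : IsTangle w) (ha : ∀ k s, Piece.cross k s ∈ w → s = (e ^^ decide (k % 2 = 1)))
    (P : ℤ × ℤ →₀ ℤ) (hP : IsLinksGould w P) :
    (∀ z, P z = 0) ∨ (IsEmpty (Cr w) ∧ (sys false w).isSome = true ∧ ∀ z, P z ≠ 0 ↔ z = 0) ∨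
    ∃ m : Sl w, OnArc hw m (e0 w) ∧ (sys false w).isSome = true ∧ ∀ z : ℤ × ℤ, P z ≠ 0 ↔ ∃ X Y : Cr w → Bool,
      Acyc (Top.sx (st hw) m.1 m.2) X ∧ Acyc (Top.sy (st hw) m.1 m.2) Y ∧ Sm.ZA (sgn w) X Y = z.1 ∧
      Sm.ZB (sgn w) X Y = z.2 := by
  rcases border_cases e hw ha with h | ⟨h1, h0, h2⟩ | ⟨m, hm, h1, h2⟩
  · left
    intro z
    by_contra hz
    exact h z ((supp_hist e hw ha P hP z).mp hz)
  · right; left
    exact ⟨h1, h0, fun z => (supp_hist e hw ha P hP z).trans (h2 z)⟩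
  · right; right
    refine ⟨m, hm, h1, fun z => (supp_hist e hw ha P hP z).trans ((border e hw ha h1 h2 hm z).trans ?_)⟩
    constructor
    · rintro ⟨X, Y, hX, hY, hz⟩
      exact ⟨X, Y, hX, hY, (congrArg Prod.fst hz).symm, (congrArg Prod.snd hz).symm⟩
    · rintro ⟨X, Y, hX, hY, h3, h4⟩
      exact ⟨X, Y, hX, hY, Prod.ext h3.symm h4.symm⟩

end LG3P.Wo
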