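import Pool.Agent.Lib.MP_3cd99b_gt.Wo8
import Pool.Agent.Lib.MP_3cd99b_gt.Nb
import Pool.Agent.Lib.MP_3cd99b_gt.Jw
import Pool.Agent.Lib.MP_3cd99b_gt.Cn
import Pool.Agent.Lib.MP_3cd99b_gt.PL7
import Pool.Agent.Lib.MP_3cd99b_gt.FC4

/-!
The abstract diagram of a reduced alternating word.
-/

namespace LG3P.Wo
open LG3 PoolLib.MP_3cd99b_gt.Oct PoolLib.MP_3cd99b_gt.Dm

variable {w : List Piece}

/-- the abstract diagram of a word -/
noncomputable def dgW (hw : IsTangle w) (hr : PL.Reduced w) {e : Bool}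
    (ha : ∀ k s, Piece.cross k s ∈ w → s = (e ^^ decide (k % 2 = 1)))
    (hc : ∀ T : Set (Cr w), T.Nonempty → (∀ c ∈ T, ∀ b, st hw b c ∈ T) → T = Set.univ) : Dg (Cr w) where
  st := st hw
  sg := sgn w
  jor := Jw.jor hw ha
  conn := hc
  nob := nob hw hr

theorem sgn_eq {e : Bool} (ha : ∀ k s, Piece.cross k s ∈ w → s = (e ^^ decide (k % 2 = 1))) (c : Cr w) :
    sc w c.1 = (e ^^ decide (kc w c.1 % 2 = 1)) :=
  ha _ _ (List.mem_of_getElem? (cr_piece c.2))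

theorem planarW (hw : IsTangle w) {e : Bool} (ha : ∀ k s, Piece.cross k s ∈ w → s = (e ^^ decide (k % 2 = 1)))
    (s : Bool) : PL.PlanarC (st hw) (sgn w) s := by
  refine PL.planarC_words hw (if s = e then 0 else 1) s fun c => ?_
  rw [sgn_eq ha c]
  rcases Nat.mod_two_eq_zero_or_one (kc w c.1) with h | h <;> rw [h] <;> cases e <;> cases s <;> simp

/-- the support of the polynomial of a reduced alternating word -/
theorem words {e : Bool} (hw : IsTangle w) (ha : ∀ k s, Piece.cross k s ∈ w → s = (e ^^ decide (k % 2 = 1)))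
    (hr : PL.Reduced w) (P : ℤ × ℤ →₀ ℤ) (hP : IsLinksGould w P) :
    (∀ z, P z = 0) ∨ (IsEmpty (Cr w) ∧ (sys false w).isSome = true ∧ ∀ z, P z ≠ 0 ↔ z = 0) ∨
      Nonempty (Cr w) ∧ (sys false w).isSome = true ∧ ∀ a b : ℤ, P (a, b) ≠ 0 ↔
      a ≤ rS (st hw) (sgn w) true ∧ -(rS (st hw) (sgn w) false : ℤ) ≤ a ∧ b ≤ rS (st hw) (sgn w) true ∧
      -(rS (st hw) (sgn w) false : ℤ) ≤ b ∧
      a + b ≤ ((Finset.univ.filter fun c => sgn w c = true).card : ℤ) ∧
      -((Finset.univ.filter fun c => sgn w c = false).card : ℤ) ≤ a + b ∧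
      |a - b| ≤ (Fintype.card (Cr w) : ℤ) + 1 - (Nat.card (Ci (st hw)) : ℤ) := by
  rcases supp_cases e hw ha P hP with h | h | ⟨m, hm, hs, h⟩
  · exact Or.inl h
  · exact Or.inr (Or.inl h)
  by_cases h0 : ∀ z, P z = 0
  · exact Or.inl h0
  · right; right
    rw [not_forall] at h0
    obtain ⟨z0, hz0⟩ := h0
    obtain ⟨X, Y, hX, -, -, -⟩ := (h z0).mp hz0
    have hc : ∀ T : Set (Cr w), T.Nonempty → (∀ c ∈ T, ∀ b, st hw b c ∈ T) → T = Set.univ :=
      fun T h1 h2 => conn_of_acyc hX T h1 h2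
    refine ⟨⟨m.1⟩, hs, fun a b => ?_⟩
    have hcard : Nat.card (Ci (dgW hw hr ha hc).st) = Fintype.card (Ci (dgW hw hr ha hc).st) :=
      Nat.card_eq_fintype_card
    have key := (dgW hw hr ha hc).supp' m (planarW hw ha) a b
    rw [← hcard] at key
    rw [h (a, b)]
    exact key

end LG3P.Wo
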