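import Mathlib

/-! Laurent polynomials in two variables over the integers: coefficients, positivity, evaluation. -/

open Finset

namespace LG3

/-- Laurent polynomials in two variables -/
abbrev LA := AddMonoidAlgebra ℤ (ℤ × ℤ)

/-- the monomial with exponents i, j -/
noncomputable def mX (i j : ℤ) : LA := AddMonoidAlgebra.single (i, j) 1

/-- the coefficient of the monomial with exponents i, j -/
noncomputable def co (f : LA) (i j : ℤ) : ℤ := f.coeff (i, j)

theorem LA_ext {f g : LA} (h : ∀ i j, co f i j = co g i j) : f = g := by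
  ext ⟨i, j⟩
  exact h i j

@[simp] theorem co_zero (i j : ℤ) : co 0 i j = 0 := rfl

theorem co_add (f g : LA) (i j : ℤ) : co (f + g) i j = co f i j + co g i j := rfl

theorem co_neg (f : LA) (i j : ℤ) : co (-f) i j = -co f i j := rfl

theorem co_sub (f g : LA) (i j : ℤ) : co (f - g) i j = co f i j - co g i j := rfl

theorem co_mX_mul (a b : ℤ) (f : LA) (i j : ℤ) : co (mX a b * f) i j = co f (i - a) (j - b) := by
  rw [co, mX, AddMonoidAlgebra.coeff_single_mul_apply, one_mul, co]
  congr 1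
  refine Prod.ext ?_ ?_
  · show -a + i = i - a
    ring
  · show -b + j = j - b
    ring

theorem mX_mul (a b c d : ℤ) : mX a b * mX c d = mX (a + c) (b + d) := by
  rw [mX, mX, AddMonoidAlgebra.single_mul_single, mul_one]
  rfl

theorem mX_zero : mX 0 0 = 1 := rfl

theorem co_mX (a b i j : ℤ) : co (mX a b) i j = if i = a ∧ j = b then 1 else 0 := by
  rw [co, mX, AddMonoidAlgebra.coeff_single, Finsupp.single_apply]
  by_cases h : i = a ∧ j = b
  · rw [if_pos h, if_pos (by rw [h.1, h.2])]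
  · rw [if_neg h, if_neg]
    intro h2
    exact h ⟨(congrArg Prod.fst h2).symm, (congrArg Prod.snd h2).symm⟩

/-- nonnegative coefficients -/
def Pos (f : LA) : Prop := ∀ i j, 0 ≤ co f i j

theorem Pos.zero : Pos 0 := fun _ _ => le_rfl

theorem Pos.mono (a b : ℤ) : Pos (mX a b) := fun i j => by
  rw [co_mX]
  split_ifs <;> norm_num

theorem Pos.one : Pos 1 := Pos.mono 0 0

theorem Pos.add {f g : LA} (hf : Pos f) (hg : Pos g) : Pos (f + g) := fun i j => by
  rw [co_add]
  exact add_nonneg (hf i j) (hg i j)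

theorem co_mul (f g : LA) (i j : ℤ) :
    co (f * g) i j = f.coeff.sum fun z c => c * co g (i - z.1) (j - z.2) := by
  rw [co, AddMonoidAlgebra.coeff_mul_apply_left]
  refine Finsupp.sum_congr (fun z _ => ?_)
  rw [co]
  congr 2
  refine Prod.ext ?_ ?_
  · show -z.1 + i = i - z.1
    ring
  · show -z.2 + j = j - z.2
    ring

theorem Pos.mul {f g : LA} (hf : Pos f) (hg : Pos g) : Pos (f * g) := fun i j => by
  rw [co_mul]
  exact Finset.sum_nonneg (fun z _ => mul_nonneg (hf z.1 z.2) (hg _ _))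

/-- products have the products of the coefficients as lower bounds -/
theorem co_mul_le {f g : LA} (hf : Pos f) (hg : Pos g) (a b c d : ℤ) :
    co f a b * co g c d ≤ co (f * g) (a + c) (b + d) := by
  by_cases h : co f a b = 0
  · rw [h, zero_mul]
    exact hf.mul hg _ _
  rw [co_mul]
  have hm : (a, b) ∈ f.coeff.support := Finsupp.mem_support_iff.mpr h
  refine le_trans ?_ (Finset.single_le_sum (f := fun z : ℤ × ℤ => f.coeff z * co g (a + c - z.1) (b + d - z.2))
    (fun z _ => mul_nonneg (hf z.1 z.2) (hg _ _)) hm)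
  show co f a b * co g c d ≤ co f a b * co g (a + c - a) (b + d - b)
  rw [add_sub_cancel_left, add_sub_cancel_left]

theorem co_mul_pos {f g : LA} (hf : Pos f) (hg : Pos g) {a b c d : ℤ} (h1 : 0 < co f a b) (h2 : 0 < co g c d) :
    0 < co (f * g) (a + c) (b + d) := (mul_pos h1 h2).trans_le (co_mul_le hf hg a b c d)

/-- a monomial of a product is a product of monomials -/
theorem co_mul_ne {f g : LA} {i j : ℤ} (h : co (f * g) i j ≠ 0) :
    ∃ a b c d, co f a b ≠ 0 ∧ co g c d ≠ 0 ∧ a + c = i ∧ b + d = j := by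
  rw [co_mul] at h
  obtain ⟨z, hz, h2⟩ := Finset.exists_ne_zero_of_sum_ne_zero h
  refine ⟨z.1, z.2, i - z.1, j - z.2, ?_, ?_, by ring, by ring⟩
  · exact Finsupp.mem_support_iff.mp hz
  · intro h3
    apply h2
    beta_reduce
    rw [h3, mul_zero]

/-- the exponents are bounded -/
theorem co_bdd (f : LA) : ∃ M : ℤ, ∀ i j, co f i j ≠ 0 → -M ≤ i ∧ i ≤ M ∧ -M ≤ j ∧ j ≤ M := by
  refine ⟨∑ z ∈ f.coeff.support, (|z.1| + |z.2|), fun i j h => ?_⟩
  have hm : (i, j) ∈ f.coeff.support := Finsupp.mem_support_iff.mpr h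
  have h1 : |i| + |j| ≤ ∑ z ∈ f.coeff.support, (|z.1| + |z.2|) :=
    Finset.single_le_sum (f := fun z : ℤ × ℤ => |z.1| + |z.2|) (fun z _ => by positivity) hm
  have h2 := abs_nonneg i
  have h3 := abs_nonneg j
  have h4 := abs_le.mp (show |i| ≤ ∑ z ∈ f.coeff.support, (|z.1| + |z.2|) by linarith)
  have h5 := abs_le.mp (show |j| ≤ ∑ z ∈ f.coeff.support, (|z.1| + |z.2|) by linarith)
  exact ⟨h4.1, h4.2, h5.1, h5.2⟩

/-- the involution that inverts the variables -/
noncomputable def bar : LA →+* LA :=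
  (AddMonoidAlgebra.mapDomainRingEquiv ℤ (AddEquiv.neg (ℤ × ℤ))).toRingHom

theorem co_bar (f : LA) (i j : ℤ) : co (bar f) i j = co f (-i) (-j) := by
  show (AddMonoidAlgebra.mapDomainRingEquiv ℤ (AddEquiv.neg (ℤ × ℤ)) f).coeff (i, j) = _
  rw [AddMonoidAlgebra.coeff_mapDomainRingEquiv, Finsupp.equivMapDomain_apply]
  rfl

theorem bar_mX (i j : ℤ) : bar (mX i j) = mX (-i) (-j) := by
  refine LA_ext fun a b => ?_
  rw [co_bar, co_mX, co_mX]
  congr 1
  refine propext ⟨fun h => ⟨by linarith [h.1], by linarith [h.2]⟩, fun h => ⟨by linarith [h.1], by linarith [h.2]⟩⟩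

theorem Pos.bar {f : LA} (h : Pos f) : Pos (bar f) := fun i j => by
  rw [co_bar]
  exact h _ _

/-- positive part -/
noncomputable def pp (f : LA) : LA := AddMonoidAlgebra.ofCoeff (f.coeff.mapRange (fun c => max c 0) (by simp))

theorem co_pp (f : LA) (i j : ℤ) : co (pp f) i j = max (co f i j) 0 := by
  rw [co, pp, AddMonoidAlgebra.coeff_ofCoeff, Finsupp.mapRange_apply]
  rfl

theorem pos_pp (f : LA) : Pos (pp f) := fun i j => by
  rw [co_pp]
  exact le_max_right _ _

theorem pp_sub (f : LA) : pp f - pp (-f) = f := by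
  refine LA_ext fun i j => ?_
  rw [co_sub, co_pp, co_pp, co_neg]
  rcases le_total 0 (co f i j) with h | h
  · rw [max_eq_left h, max_eq_right (by linarith), sub_zero]
  · rw [max_eq_right h, max_eq_left (by linarith), zero_sub, neg_neg]

/-- evaluation -/
noncomputable def evL (u v : ℂ) (hu : u ≠ 0) (hv : v ≠ 0) : LA →+* ℂ :=
  (AddMonoidAlgebra.lift ℤ ℂ (ℤ × ℤ)
    { toFun := fun z => u ^ z.toAdd.1 * v ^ z.toAdd.2
      map_one' := by simp
      map_mul' := fun z w => by
        simp only [toAdd_mul, Prod.fst_add, Prod.snd_add, zpow_add₀ hu, zpow_add₀ hv]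
        ring }).toRingHom

theorem evL_apply (u v : ℂ) (hu : u ≠ 0) (hv : v ≠ 0) (f : LA) :
    evL u v hu hv f = f.coeff.sum fun z c => (c : ℂ) * (u ^ z.1 * v ^ z.2) := by
  show (AddMonoidAlgebra.lift ℤ ℂ (ℤ × ℤ) _ f : ℂ) = _
  rw [AddMonoidAlgebra.lift_apply']
  rfl

theorem evL_mX (u v : ℂ) (hu : u ≠ 0) (hv : v ≠ 0) (i j : ℤ) : evL u v hu hv (mX i j) = u ^ i * v ^ j := by
  rw [evL_apply, mX, AddMonoidAlgebra.coeff_single, Finsupp.sum_single_index] <;> simp

theorem evL_bar (u v : ℂ) (hu : u ≠ 0) (hv : v ≠ 0) (f : LA) :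
    evL u v hu hv (bar f) = evL u⁻¹ v⁻¹ (inv_ne_zero hu) (inv_ne_zero hv) f := by
  have h : (evL u v hu hv).comp bar = evL u⁻¹ v⁻¹ (inv_ne_zero hu) (inv_ne_zero hv) := by
    refine AddMonoidAlgebra.ringHom_ext (fun r => ?_) (fun z => ?_)
    · have e : (AddMonoidAlgebra.single (0 : ℤ × ℤ) r : LA) = (r : LA) := by
        rw [AddMonoidAlgebra.intCast_def]
        rfl
      rw [e, map_intCast, map_intCast]
    · show evL u v hu hv (bar (mX z.1 z.2)) = evL u⁻¹ v⁻¹ _ _ (mX z.1 z.2)
      rw [bar_mX, evL_mX, evL_mX, zpow_neg, zpow_neg, inv_zpow, inv_zpow]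
  exact congrArg (fun g : LA →+* ℂ => g f) h

end LG3
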