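import Pool.Agent.Lib.MP_3cd99b_gt.X0

/-! Tangle triples and their products. -/

open Finset

namespace LG3

/-- the three coordinates of a tangle -/
@[ext] structure Tr (R : Type*) where
  a : R
  b : R
  c : R

section ops
variable {R : Type*} [CommRing R] (u v : R)

/-- (1 + u)(1 + v) -/
def Bq : R := (1 + u) * (1 + v)

/-- the triple of a crossing -/
def tz : Tr R := ⟨1, 0, 0⟩

/-- the horizontal product -/
def hm (S T : Tr R) : Tr R :=
  ⟨S.a * T.a, S.a * T.b + S.b * T.a + (u * v - 1) * (S.b * T.b),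
    S.a * T.c + S.c * T.a + (1 + u * v) * Bq u v * (S.b * T.b)⟩

/-- the vertical product -/
def vm (S T : Tr R) : Tr R :=
  ⟨Bq u v * (S.a * T.a) + (1 + u * v) * Bq u v * (S.a * T.b + S.b * T.a) +
      u * v * (1 + u * v) * Bq u v * (S.b * T.b) + S.a * T.c + S.c * T.a,
    -(S.a * T.a) - u * v * (S.a * T.b + S.b * T.a) + (1 - (u * v) ^ 2 + Bq u v) * (S.b * T.b) +
      S.b * T.c + S.c * T.b,
    S.a * T.a - (1 + u * v) * Bq u v * (S.b * T.b) + S.c * T.c⟩

/-- the composition of a tangle and a reversed tangle -/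
def cp (S T : Tr R) : Tr R := hm u v (hm u v S T) ⟨1, 1, Bq u v⟩

variable {u v}

/-- second divided difference of T -/
def D0 (T : Tr R) : R := -T.b

variable (u v) in
/-- second divided difference of z T -/
def D1 (T : Tr R) : R := T.a + u * v * T.b

variable (u v) in
/-- delta -/
def De (T : Tr R) : R := T.a + (u * v - 1) * T.b

variable (u v) in
/-- the dual of delta -/
def Ee (T : Tr R) : R := T.c - (u * v - 1) * T.b

variable (u v) in
/-- the value at 1 -/
def V1 (T : Tr R) : R := T.a + Bq u v * T.b + T.c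

variable (u v) in
/-- the value at u -/
def Vu (T : Tr R) : R := u * T.a + (1 + u) * (1 + u * v) * T.b + T.c

variable (u v) in
/-- the value at v -/
def Vv (T : Tr R) : R := v * T.a + (1 + v) * (1 + u * v) * T.b + T.c

variable (u v) in
/-- the divided difference for the points other than p -/
def Ff (p : R) (T : Tr R) : R := D1 u v T - p * D0 T

theorem De_hm (S T : Tr R) : De u v (hm u v S T) = De u v S * De u v T := by
  simp only [De, hm]; ring

theorem a_hm (S T : Tr R) : (hm u v S T).a = S.a * T.a := rfl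

theorem b_hm (S T : Tr R) : (hm u v S T).b = De u v S * T.b + S.b * T.a := by
  simp only [De, hm]; ring

theorem b_hm' (S T : Tr R) : (hm u v S T).b = S.a * T.b + S.b * De u v T := by
  simp only [De, hm]; ring

theorem c_hm (S T : Tr R) : (hm u v S T).c = S.a * T.c + S.c * T.a + (1 + u * v) * Bq u v * (S.b * T.b) := rfl

theorem Ee_hm (S T : Tr R) : Ee u v (hm u v S T) = S.a * Ee u v T + Ee u v S * T.a +
    (4 * (u * v) + (1 + u * v) * (u + v)) * (S.b * T.b) := by
  simp only [Ee, hm, Bq]; ring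

theorem D1_hm (S T : Tr R) : D1 u v (hm u v S T) = S.a * D1 u v T + u * v * (S.b * De u v T) := by
  simp only [D1, De, hm]; ring

theorem D1_hm' (S T : Tr R) : D1 u v (hm u v S T) = De u v S * D1 u v T + S.b * T.a := by
  simp only [D1, De, hm]; ring

theorem D0_hm (S T : Tr R) : D0 (hm u v S T) = S.a * D0 T - S.b * De u v T := by
  simp only [D0, De, hm]; ring

theorem D0_hm' (S T : Tr R) : D0 (hm u v S T) = De u v S * D0 T - S.b * T.a := by
  simp only [D0, De, hm]; ring

theorem V1_hm (S T : Tr R) : V1 u v (hm u v S T) = S.a * V1 u v T + Ee u v S * T.a +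
    S.b * ((u + u * v) * Ff u v v T + (v + u * v) * Ff u v u T) := by
  simp only [V1, Ee, Ff, D0, D1, hm, Bq]; ring

theorem Vu_hm (S T : Tr R) : Vu u v (hm u v S T) = S.a * Vu u v T + S.c * T.a +
    (1 + u * v) * (1 + u) * (S.b * Ff u v v T) := by
  simp only [Vu, Ff, D0, D1, hm, Bq]; ring

theorem Vv_hm (S T : Tr R) : Vv u v (hm u v S T) = S.a * Vv u v T + S.c * T.a +
    (1 + u * v) * (1 + v) * (S.b * Ff u v u T) := by
  simp only [Vv, Ff, D0, D1, hm, Bq]; ring

theorem a_cp (S T : Tr R) : (cp u v S T).a = S.a * T.a := by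
  simp only [cp, hm]; ring

theorem b_cp (S T : Tr R) : (cp u v S T).b = D1 u v S * D1 u v T - u * v * (D0 S * D0 T) := by
  simp only [cp, hm, D0, D1]; ring

theorem c_cp (S T : Tr R) : (cp u v S T).c = (vm u v S T).a := by
  simp only [cp, hm, vm, Bq]; ring

theorem De_cp (S T : Tr R) : De u v (cp u v S T) = u * v * (De u v S * De u v T) := by
  simp only [De, cp, hm, Bq]; ring

theorem Ee_cp (S T : Tr R) : Ee u v (cp u v S T) = V1 u v S * T.a + S.a * V1 u v T +
    u * (Ff u v v S * Ff u v v T) + v * (Ff u v u S * Ff u v u T) := by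
  simp only [Ee, cp, hm, V1, Ff, D0, D1, Bq]; ring

theorem V1_vm (S T : Tr R) : V1 u v (vm u v S T) = V1 u v S * V1 u v T := by
  simp only [V1, vm, Bq]; ring

theorem Vu_vm (S T : Tr R) : Vu u v (vm u v S T) = Vu u v S * Vu u v T := by
  simp only [Vu, vm, Bq]; ring

theorem Vv_vm (S T : Tr R) : Vv u v (vm u v S T) = Vv u v S * Vv u v T := by
  simp only [Vv, vm, Bq]; ring

/-- divided differences -/
theorem V1_sub_Vu (T : Tr R) : V1 u v T - Vu u v T = (1 - u) * Ff u v v T := by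
  simp only [V1, Vu, Ff, D0, D1, Bq]; ring

theorem V1_sub_Vv (T : Tr R) : V1 u v T - Vv u v T = (1 - v) * Ff u v u T := by
  simp only [V1, Vv, Ff, D0, D1, Bq]; ring

theorem Vu_sub_Vv (T : Tr R) : Vu u v T - Vv u v T = (u - v) * Ff u v 1 T := by
  simp only [Vu, Vv, Ff, D0, D1, Bq]; ring

/-- Leibniz rule, middle point 1 -/
theorem D1_vm_1 (S T : Tr R) : D1 u v (vm u v S T) = Vu u v S * D1 u v T +
    Ff u v v S * Ff u v u T + Vv u v T * D1 u v S := by
  simp only [D1, vm, Vu, Vv, Ff, D0, Bq]; ring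

theorem D1_vm_u (S T : Tr R) : D1 u v (vm u v S T) = V1 u v S * D1 u v T +
    u * (Ff u v v S * Ff u v 1 T) + Vv u v T * D1 u v S := by
  simp only [D1, vm, V1, Vv, Ff, D0, Bq]; ring

theorem D1_vm_v (S T : Tr R) : D1 u v (vm u v S T) = V1 u v S * D1 u v T +
    v * (Ff u v u S * Ff u v 1 T) + Vu u v T * D1 u v S := by
  simp only [D1, vm, V1, Vu, Ff, D0, Bq]; ring

theorem D1_vm_1' (S T : Tr R) : D1 u v (vm u v S T) = Vv u v S * D1 u v T +
    Ff u v u S * Ff u v v T + Vu u v T * D1 u v S := by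
  simp only [D1, vm, Vu, Vv, Ff, D0, Bq]; ring

theorem D1_vm_u' (S T : Tr R) : D1 u v (vm u v S T) = Vv u v S * D1 u v T +
    u * (Ff u v 1 S * Ff u v v T) + V1 u v T * D1 u v S := by
  simp only [D1, vm, V1, Vv, Ff, D0, Bq]; ring

theorem D1_vm_v' (S T : Tr R) : D1 u v (vm u v S T) = Vu u v S * D1 u v T +
    v * (Ff u v 1 S * Ff u v u T) + V1 u v T * D1 u v S := by
  simp only [D1, vm, V1, Vu, Ff, D0, Bq]; ring

theorem D0_vm_1 (S T : Tr R) : D0 (vm u v S T) = Vu u v S * D0 T +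
    Ff u v v S * Ff u v u T + Vv u v T * D0 S := by
  simp only [D1, vm, Vu, Vv, Ff, D0, Bq]; ring

theorem D0_vm_u (S T : Tr R) : D0 (vm u v S T) = V1 u v S * D0 T +
    Ff u v v S * Ff u v 1 T + Vv u v T * D0 S := by
  simp only [D1, vm, V1, Vv, Ff, D0, Bq]; ring

theorem D0_vm_v (S T : Tr R) : D0 (vm u v S T) = V1 u v S * D0 T +
    Ff u v u S * Ff u v 1 T + Vu u v T * D0 S := by
  simp only [D1, vm, V1, Vu, Ff, D0, Bq]; ring

theorem a_vm_1 (S T : Tr R) : (vm u v S T).a = Vu u v S * T.a +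
    (1 + u * v) * (Ff u v v S * Ff u v u T) + Vv u v T * S.a := by
  simp only [D1, vm, Vu, Vv, Ff, D0, Bq]; ring

theorem a_vm_u (S T : Tr R) : (vm u v S T).a = V1 u v S * T.a +
    (u + u * v) * (Ff u v v S * Ff u v 1 T) + Vv u v T * S.a := by
  simp only [D1, vm, V1, Vv, Ff, D0, Bq]; ring

theorem a_vm_v (S T : Tr R) : (vm u v S T).a = V1 u v S * T.a +
    (v + u * v) * (Ff u v u S * Ff u v 1 T) + Vu u v T * S.a := by
  simp only [D1, vm, V1, Vu, Ff, D0, Bq]; ring

theorem a_vm_1' (S T : Tr R) : (vm u v S T).a = Vv u v S * T.a +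
    (1 + u * v) * (Ff u v u S * Ff u v v T) + Vu u v T * S.a := by
  simp only [D1, vm, Vu, Vv, Ff, D0, Bq]; ring

theorem a_vm_u' (S T : Tr R) : (vm u v S T).a = Vv u v S * T.a +
    (u + u * v) * (Ff u v 1 S * Ff u v v T) + V1 u v T * S.a := by
  simp only [D1, vm, V1, Vv, Ff, D0, Bq]; ring

theorem a_vm_v' (S T : Tr R) : (vm u v S T).a = Vu u v S * T.a +
    (v + u * v) * (Ff u v 1 S * Ff u v u T) + V1 u v T * S.a := by
  simp only [D1, vm, V1, Vu, Ff, D0, Bq]; ring

theorem a_eq (T : Tr R) : T.a = D1 u v T + u * v * D0 T := by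
  simp only [D0, D1]; ring

theorem De_eq (T : Tr R) : De u v T = D1 u v T + D0 T := by
  simp only [De, D0, D1]; ring

end ops

end LG3
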