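import Pool.Agent.Lib.MP_3cd99b_gt.Df

/-! Lattice octagons. -/

open Finset

namespace LG3

namespace Oc

/-- proper octagons -/
def ok (o : Oc) : Prop := 0 ≤ o.s - 2 * o.l ∧ o.s - 2 * o.l ≤ o.d ∧ 0 ≤ 2 * o.r - o.t ∧ 2 * o.r - o.t ≤ o.d ∧
  o.d ≤ o.r - o.l ∧ (o.d = 0 ∨ o.s + 1 ≤ o.t)

/-- u + v + uv -/
def ce : Oc := ⟨0, 1, 1, 2, 1⟩

/-- the octagons of the theory -/
inductive Gen : Oc → Prop
  | pt (k : ℤ) : Gen (pt k)
  | dg {o : Oc} : Gen o → Gen (o.add dg)
  | bb {o : Oc} : Gen o → Gen (o.add bb)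
  | cc {o : Oc} : Gen o → Gen (o.add cc)
  | ce {o : Oc} : Gen o → Gen (o.add ce)

theorem mem_dg {o : Oc} (h : o.ok) {i j : ℤ} (hz : (o.add dg).mem i j) :
    o.mem i j ∨ o.mem (i - 1) (j - 1) := by
  simp only [mem, add, dg, ok] at *
  omega

theorem mem_cc {o : Oc} (h : o.ok) {i j : ℤ} (hz : (o.add cc).mem i j) :
    o.mem i j ∨ o.mem (i - 1) j ∨ o.mem i (j - 1) := by
  simp only [mem, add, cc, ok] at *
  by_cases h1 : i - j = o.d + 1
  · right; left
    omega
  by_cases h2 : j - i = o.d + 1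
  · right; right
    omega
  by_cases h3 : i + j ≤ o.t ∧ i ≤ o.r ∧ j ≤ o.r
  · left
    omega
  by_cases h4 : j ≤ i
  · right; left
    omega
  · right; right
    omega

theorem mem_ce {o : Oc} (h : o.ok) {i j : ℤ} (hz : (o.add ce).mem i j) :
    o.mem (i - 1) (j - 1) ∨ o.mem (i - 1) j ∨ o.mem i (j - 1) := by
  simp only [mem, add, ce, ok] at *
  by_cases h1 : i - j = o.d + 1
  · right; left
    omega
  by_cases h2 : j - i = o.d + 1
  · right; right
    omega
  by_cases h3 : o.s ≤ i + j - 2 ∧ o.l ≤ i - 1 ∧ o.l ≤ j - 1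
  · left
    omega
  by_cases h4 : j ≤ i
  · right; left
    omega
  · right; right
    omega

theorem mem_bb {o : Oc} (h : o.ok) {i j : ℤ} (hz : (o.add bb).mem i j) :
    o.mem i j ∨ o.mem (i - 1) (j - 1) ∨ o.mem (i - 1) j ∨ o.mem i (j - 1) := by
  simp only [mem, add, bb, ok] at *
  by_cases h1 : i - j = o.d + 1
  · right; right; left
    omega
  by_cases h2 : j - i = o.d + 1
  · right; right; right
    omega
  by_cases h3 : i + j ≤ o.t ∧ i ≤ o.r ∧ j ≤ o.r
  · left
    omega
  by_cases h4 : o.s ≤ i + j - 2 ∧ o.l ≤ i - 1 ∧ o.l ≤ j - 1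
  · right; left
    omega
  by_cases h5 : j ≤ i
  · right; right; left
    omega
  · right; right; right
    omega

theorem ok_pt (k : ℤ) : (pt k).ok := by
  simp [ok, pt]

theorem ok_add {o o' : Oc} (h : o.ok) (h' : o'.ok) : (o.add o').ok := by
  simp only [ok, add] at *
  omega

theorem ok_dg : dg.ok := by
  simp only [ok, dg]
  omega

theorem ok_bb : bb.ok := by
  simp only [ok, bb]
  omega

theorem ok_cc : cc.ok := by
  simp only [ok, cc]
  omega

theorem ok_ce : ce.ok := by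
  simp only [ok, ce]
  omega

theorem Gen.ok {o : Oc} (h : Gen o) : o.ok := by
  induction h with
  | pt k => exact ok_pt k
  | dg _ ih => exact ok_add ih ok_dg
  | bb _ ih => exact ok_add ih ok_bb
  | cc _ ih => exact ok_add ih ok_cc
  | ce _ ih => exact ok_add ih ok_ce

theorem add_assoc' (a b c : Oc) : (a.add b).add c = a.add (b.add c) := by
  ext <;> simp only [add] <;> ring

theorem add_comm' (a b : Oc) : a.add b = b.add a := by
  ext <;> simp only [add] <;> ring

theorem Gen.add {o o' : Oc} (h : Gen o) (h' : Gen o') : Gen (o.add o') := by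
  induction h' with
  | pt k =>
    induction h with
    | pt m =>
      have e : (Oc.pt m).add (Oc.pt k) = Oc.pt (m + k) := by
        ext <;> simp only [Oc.add, Oc.pt] <;> ring
      rw [e]
      exact Gen.pt _
    | @dg o _ ih =>
      have e : (o.add Oc.dg).add (Oc.pt k) = (o.add (Oc.pt k)).add Oc.dg := by
        ext <;> simp only [Oc.add] <;> ring
      rw [e]
      exact ih.dg
    | @bb o _ ih =>
      have e : (o.add Oc.bb).add (Oc.pt k) = (o.add (Oc.pt k)).add Oc.bb := by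
        ext <;> simp only [Oc.add] <;> ring
      rw [e]
      exact ih.bb
    | @cc o _ ih =>
      have e : (o.add Oc.cc).add (Oc.pt k) = (o.add (Oc.pt k)).add Oc.cc := by
        ext <;> simp only [Oc.add] <;> ring
      rw [e]
      exact ih.cc
    | @ce o _ ih =>
      have e : (o.add Oc.ce).add (Oc.pt k) = (o.add (Oc.pt k)).add Oc.ce := by
        ext <;> simp only [Oc.add] <;> ring
      rw [e]
      exact ih.ce
  | dg _ ih =>
    rw [← add_assoc']
    exact ih.dg
  | bb _ ih =>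
    rw [← add_assoc']
    exact ih.bb
  | cc _ ih =>
    rw [← add_assoc']
    exact ih.cc
  | ce _ ih =>
    rw [← add_assoc']
    exact ih.ce

theorem Gen.dg' : Gen Oc.dg := by
  have h := (Gen.pt 0).dg
  have e : (Oc.pt 0).add Oc.dg = Oc.dg := by
    ext <;> simp [Oc.add, Oc.pt, Oc.dg]
  rwa [e] at h

theorem Gen.bb' : Gen Oc.bb := by
  have h := (Gen.pt 0).bb
  have e : (Oc.pt 0).add Oc.bb = Oc.bb := by
    ext <;> simp [Oc.add, Oc.pt, Oc.bb]
  rwa [e] at h

theorem Gen.cc' : Gen Oc.cc := by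
  have h := (Gen.pt 0).cc
  have e : (Oc.pt 0).add Oc.cc = Oc.cc := by
    ext <;> simp [Oc.add, Oc.pt, Oc.cc]
  rwa [e] at h

theorem Gen.neg {o : Oc} (h : Gen o) : Gen o.neg := by
  induction h with
  | pt k =>
    have e : (Oc.pt k).neg = Oc.pt (-k) := by
      ext <;> simp only [Oc.neg, Oc.pt] <;> ring
    rw [e]
    exact Gen.pt _
  | @dg o _ ih =>
    have e : (o.add Oc.dg).neg = (o.neg.add Oc.dg).add (Oc.pt (-1)) := by
      ext <;> simp only [Oc.neg, Oc.add, Oc.pt, Oc.dg] <;> ring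
    rw [e]
    exact ih.dg.add (Gen.pt _)
  | @bb o _ ih =>
    have e : (o.add Oc.bb).neg = (o.neg.add Oc.bb).add (Oc.pt (-1)) := by
      ext <;> simp only [Oc.neg, Oc.add, Oc.pt, Oc.bb] <;> ring
    rw [e]
    exact ih.bb.add (Gen.pt _)
  | @cc o _ ih =>
    have e : (o.add Oc.cc).neg = (o.neg.add Oc.ce).add (Oc.pt (-1)) := by
      ext <;> simp only [Oc.neg, Oc.add, Oc.pt, Oc.cc, Oc.ce] <;> ring
    rw [e]
    exact ih.ce.add (Gen.pt _)
  | @ce o _ ih =>
    have e : (o.add Oc.ce).neg = (o.neg.add Oc.cc).add (Oc.pt (-1)) := by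
      ext <;> simp only [Oc.neg, Oc.add, Oc.pt, Oc.cc, Oc.ce] <;> ring
    rw [e]
    exact ih.cc.add (Gen.pt _)

theorem mem_add {o o' : Oc} {a b c d : ℤ} (h : o.mem a b) (h' : o'.mem c d) : (o.add o').mem (a + c) (b + d) := by
  simp only [mem, add] at *
  omega

/-- the sum theorem -/
theorem exists_add {o o' : Oc} (h : o.ok) (h' : Gen o') {i j : ℤ} (hz : (o.add o').mem i j) :
    ∃ a b, o.mem a b ∧ o'.mem (i - a) (j - b) := by
  induction h' generalizing i j with
  | pt k =>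
    refine ⟨i - k, j - k, ?_, ?_⟩
    · simp only [mem, add, pt] at *
      omega
    · simp only [mem, pt] at *
      omega
  | @dg o1 h1 ih =>
    rw [← add_assoc'] at hz
    rcases mem_dg (ok_add h h1.ok) hz with h2 | h2
    · obtain ⟨a, b, h3, h4⟩ := ih h2
      exact ⟨a, b, h3, by simp only [mem, add, dg] at *; omega⟩
    · obtain ⟨a, b, h3, h4⟩ := ih h2
      exact ⟨a, b, h3, by simp only [mem, add, dg] at *; omega⟩
  | @bb o1 h1 ih =>
    rw [← add_assoc'] at hz
    rcases mem_bb (ok_add h h1.ok) hz with h2 | h2 | h2 | h2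
    all_goals
      obtain ⟨a, b, h3, h4⟩ := ih h2
      exact ⟨a, b, h3, by simp only [mem, add, bb] at *; omega⟩
  | @cc o1 h1 ih =>
    rw [← add_assoc'] at hz
    rcases mem_cc (ok_add h h1.ok) hz with h2 | h2 | h2
    all_goals
      obtain ⟨a, b, h3, h4⟩ := ih h2
      exact ⟨a, b, h3, by simp only [mem, add, cc] at *; omega⟩
  | @ce o1 h1 ih =>
    rw [← add_assoc'] at hz
    rcases mem_ce (ok_add h h1.ok) hz with h2 | h2 | h2
    all_goals
      obtain ⟨a, b, h3, h4⟩ := ih h2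
      exact ⟨a, b, h3, by simp only [mem, add, ce] at *; omega⟩

theorem mem_neg {o : Oc} {i j : ℤ} : o.neg.mem i j ↔ o.mem (-i) (-j) := by
  simp only [mem, neg]
  omega

/-- the line lemma: same lower part and width -/
theorem line {o o' : Oc} (h' : o'.ok) (h1 : o'.l = o.l) (h2 : o'.s = o.s) (h3 : o'.d = o.d) {i j : ℤ}
    (hz : o.mem i j) (hn : ¬ o'.mem i j) : o.mem (i - 1) (j - 1) := by
  simp only [mem, ok] at *
  omega

end Oc

end LG3
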