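import Pool.Agent.Lib.MP_3cd99b_gt.X1

/-! The cones of the tangle triples and their closure under the products. -/

open Finset

namespace LG3

/-- the variables -/
noncomputable def uL : LA := mX 1 0

/-- the variables -/
noncomputable def vL : LA := mX 0 1

theorem uv_eq : uL * vL = mX 1 1 := mX_mul 1 0 0 1

theorem pos_u : Pos uL := Pos.mono 1 0

theorem pos_v : Pos vL := Pos.mono 0 1

theorem pos_uv : Pos (uL * vL) := pos_u.mul pos_v

theorem pos_B : Pos (Bq uL vL) := (Pos.one.add pos_u).mul (Pos.one.add pos_v)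

/-- the cone of the tangles with antiparallel strands -/
structure CA (S : Tr LA) : Prop where
  a : Pos S.a
  b : Pos S.b
  c : Pos S.c
  d : Pos (De uL vL S)
  e : Pos (Ee uL vL S)

/-- the pairs of monomials p, q in the definition of the cone: p is 1, u or v and q is 1 or uv -/
def PQ (p q : LA) : Prop := (p = 1 ∨ p = uL ∨ p = vL) ∧ (q = 1 ∨ q = uL * vL)

/-- the cone of the tangles with parallel strands -/
structure CP (T : Tr LA) : Prop where
  e : ∀ p q, PQ p q → ∃ Q N : LA, Pos Q ∧ Pos N ∧ D0 T = Q - N ∧ Pos (D1 uL vL T - p * Q - q * N)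
  v1 : Pos (V1 uL vL T)
  vu : Pos (Vu uL vL T)
  vv : Pos (Vv uL vL T)

theorem Pos.of_eq {f g : LA} (h : Pos f) (e : g = f) : Pos g := e ▸ h

theorem PQ.pos {p q : LA} (h : PQ p q) : Pos p ∧ Pos q := by
  obtain ⟨h1, h2⟩ := h
  refine ⟨?_, ?_⟩
  · rcases h1 with rfl | rfl | rfl
    · exact Pos.one
    · exact pos_u
    · exact pos_v
  · rcases h2 with rfl | rfl
    · exact Pos.one
    · exact pos_uv

theorem CP.ff {T : Tr LA} (h : CP T) {p : LA} (hp : p = 1 ∨ p = uL ∨ p = vL) : Pos (Ff uL vL p T) := by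
  obtain ⟨Q, N, hQ, hN, h0, h1⟩ := h.e p 1 ⟨hp, Or.inl rfl⟩
  have hp' : Pos p := (PQ.pos ⟨hp, Or.inl rfl⟩).1
  refine ((h1.add hN).add (hp'.mul hN)).of_eq ?_
  rw [Ff, h0]
  ring

theorem CP.aa {T : Tr LA} (h : CP T) : Pos T.a := by
  obtain ⟨Q, N, hQ, hN, h0, h1⟩ := h.e 1 (uL * vL) ⟨Or.inl rfl, Or.inr rfl⟩
  refine ((h1.add hQ).add (pos_uv.mul hQ)).of_eq ?_
  rw [a_eq (u := uL) (v := vL) T, h0]
  ring

theorem CP.de {T : Tr LA} (h : CP T) : Pos (De uL vL T) := by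
  obtain ⟨Q, N, hQ, hN, h0, h1⟩ := h.e 1 1 ⟨Or.inl rfl, Or.inl rfl⟩
  refine ((h1.add hQ).add hQ).of_eq ?_
  rw [De_eq (u := uL) (v := vL) T, h0]
  ring

theorem CP.d1 {T : Tr LA} (h : CP T) : Pos (D1 uL vL T) := by
  obtain ⟨Q, N, hQ, hN, h0, h1⟩ := h.e 1 1 ⟨Or.inl rfl, Or.inl rfl⟩
  refine ((h1.add hQ).add hN).of_eq ?_
  ring

/-- X3a. the crossing -/
theorem CP.tz : CP (tz : Tr LA) := by
  refine ⟨fun p q _ => ⟨0, 0, Pos.zero, Pos.zero, ?_, ?_⟩, ?_, ?_, ?_⟩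
  · simp [D0, LG3.tz]
  · refine Pos.one.of_eq ?_
    simp [D1, LG3.tz]
  · refine Pos.one.of_eq ?_
    simp [V1, LG3.tz]
  · refine pos_u.of_eq ?_
    simp [Vu, LG3.tz]
  · refine pos_v.of_eq ?_
    simp [Vv, LG3.tz]

/-- X3b. vertical products: the middle point of the Leibniz rule is p -/
theorem CP.vm {S T : Tr LA} (hS : CP S) (hT : CP T) : CP (vm uL vL S T) := by
  refine ⟨?_, ?_, ?_, ?_⟩
  · intro p q hpq
    obtain ⟨Q, N, hQ, hN, h0, h1⟩ := hS.e p q hpq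
    obtain ⟨Q', N', hQ', hN', h0', h1'⟩ := hT.e p q hpq
    have key : ∀ A B M : LA, Pos A → Pos B → Pos M →
        D0 (LG3.vm uL vL S T) = A * D0 T + M + B * D0 S →
        D1 uL vL (LG3.vm uL vL S T) = A * D1 uL vL T + p * M + B * D1 uL vL S →
        ∃ Q N : LA, Pos Q ∧ Pos N ∧ D0 (LG3.vm uL vL S T) = Q - N ∧
          Pos (D1 uL vL (LG3.vm uL vL S T) - p * Q - q * N) := by
      intro A B M hA hB hM e0 e1
      refine ⟨A * Q' + M + B * Q, A * N' + B * N, ((hA.mul hQ').add hM).add (hB.mul hQ),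
        (hA.mul hN').add (hB.mul hN), ?_, ?_⟩
      · rw [e0, h0, h0']
        ring
      · refine ((hA.mul h1').add (hB.mul h1)).of_eq ?_
        rw [e1]
        ring
    obtain ⟨rfl | rfl | rfl, -⟩ := hpq
    · exact key _ _ _ hS.vu hT.vv ((hS.ff (Or.inr (Or.inr rfl))).mul (hT.ff (Or.inr (Or.inl rfl))))
        (D0_vm_1 S T) (by rw [one_mul]; exact D1_vm_1 S T)
    · exact key _ _ _ hS.v1 hT.vv ((hS.ff (Or.inr (Or.inr rfl))).mul (hT.ff (Or.inl rfl)))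
        (D0_vm_u S T) (D1_vm_u S T)
    · exact key _ _ _ hS.v1 hT.vu ((hS.ff (Or.inr (Or.inl rfl))).mul (hT.ff (Or.inl rfl)))
        (D0_vm_v S T) (D1_vm_v S T)
  · rw [V1_vm]
    exact hS.v1.mul hT.v1
  · rw [Vu_vm]
    exact hS.vu.mul hT.vu
  · rw [Vv_vm]
    exact hS.vv.mul hT.vv

/-- X3c. products with a tangle with antiparallel strands -/
theorem CP.hm {S T : Tr LA} (hS : CA S) (hT : CP T) : CP (hm uL vL S T) := by
  have hfu := hT.ff (Or.inr (Or.inl rfl))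
  have hfv := hT.ff (Or.inr (Or.inr rfl))
  refine ⟨?_, ?_, ?_, ?_⟩
  · intro p q hpq
    obtain ⟨Q, N, hQ, hN, h0, h1⟩ := hT.e p q hpq
    obtain ⟨-, rfl | rfl⟩ := hpq
    · refine ⟨De uL vL S * Q, De uL vL S * N + S.b * T.a, hS.d.mul hQ, (hS.d.mul hN).add (hS.b.mul hT.aa), ?_, ?_⟩
      · rw [D0_hm' (u := uL) (v := vL), h0]
        ring
      · refine (hS.d.mul h1).of_eq ?_
        rw [D1_hm']
        ring
    · refine ⟨S.a * Q, S.a * N + S.b * De uL vL T, hS.a.mul hQ, (hS.a.mul hN).add (hS.b.mul hT.de), ?_, ?_⟩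
      · rw [D0_hm, h0]
        ring
      · refine (hS.a.mul h1).of_eq ?_
        rw [D1_hm]
        ring
  · rw [V1_hm]
    exact ((hS.a.mul hT.v1).add (hS.e.mul hT.aa)).add
      (hS.b.mul (((pos_u.add pos_uv).mul hfv).add ((pos_v.add pos_uv).mul hfu)))
  · rw [Vu_hm]
    exact ((hS.a.mul hT.vu).add (hS.c.mul hT.aa)).add
      (((Pos.one.add pos_uv).mul (Pos.one.add pos_u)).mul (hS.b.mul hfv))
  · rw [Vv_hm]
    exact ((hS.a.mul hT.vv).add (hS.c.mul hT.aa)).add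
      (((Pos.one.add pos_uv).mul (Pos.one.add pos_v)).mul (hS.b.mul hfu))

/-- X3d. compositions -/
theorem CA.cp {S T : Tr LA} (hS : CP S) (hT : CP T) : CA (cp uL vL S T) := by
  have hfu := hT.ff (Or.inr (Or.inl rfl))
  have hfv := hT.ff (Or.inr (Or.inr rfl))
  have gfu := hS.ff (Or.inr (Or.inl rfl))
  have gfv := hS.ff (Or.inr (Or.inr rfl))
  have gf1 := hT.ff (Or.inl rfl)
  refine ⟨?_, ?_, ?_, ?_, ?_⟩
  · rw [a_cp]
    exact hS.aa.mul hT.aa
  · obtain ⟨Q, N, hQ, hN, h0, h1⟩ := hS.e uL 1 ⟨Or.inr (Or.inl rfl), Or.inl rfl⟩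
    obtain ⟨Q', N', hQ', hN', h0', h1'⟩ := hT.e vL (uL * vL) ⟨Or.inr (Or.inr rfl), Or.inr rfl⟩
    refine ((((h1.mul h1').add (h1.mul ((pos_v.mul hQ').add (pos_uv.mul hN')))).add
      (((pos_u.mul hQ).add hN).mul h1')).add
      (((((pos_u.mul pos_uv).add pos_uv).mul (hQ.mul hN'))).add
        ((pos_v.add pos_uv).mul (hN.mul hQ')))).of_eq ?_
    rw [b_cp, h0, h0']
    ring
  · rw [c_cp, a_vm_u]
    exact ((hS.v1.mul hT.aa).add ((pos_u.add pos_uv).mul (gfv.mul gf1))).add (hT.vv.mul hS.aa)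
  · rw [De_cp]
    exact pos_uv.mul (hS.de.mul hT.de)
  · rw [Ee_cp]
    exact (((hS.v1.mul hT.aa).add (hS.aa.mul hT.v1)).add (pos_u.mul (gfv.mul hfv))).add
      (pos_v.mul (gfu.mul hfu))

/-- X3e. horizontal products -/
theorem CA.hm {S T : Tr LA} (hS : CA S) (hT : CA T) : CA (hm uL vL S T) := by
  have h4 : Pos (4 : LA) := ((Pos.one.add Pos.one).add (Pos.one.add Pos.one)).of_eq (by norm_num)
  refine ⟨?_, ?_, ?_, ?_, ?_⟩
  · exact hS.a.mul hT.a
  · rw [b_hm]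
    exact (hS.d.mul hT.b).add (hS.b.mul hT.a)
  · exact ((hS.a.mul hT.c).add (hS.c.mul hT.a)).add (((Pos.one.add pos_uv).mul pos_B).mul (hS.b.mul hT.b))
  · rw [De_hm]
    exact hS.d.mul hT.d
  · rw [Ee_hm]
    exact ((hS.a.mul hT.e).add (hS.e.mul hT.a)).add
      (((h4.mul pos_uv).add ((Pos.one.add pos_uv).mul (pos_u.add pos_v))).mul (hS.b.mul hT.b))

/-- the rotation -/
noncomputable def rt (S : Tr LA) : Tr LA := ⟨bar S.c, mX (-1) (-1) * bar S.b, bar S.a⟩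

theorem De_rt (S : Tr LA) : De uL vL (rt S) = bar (Ee uL vL S) := by
  rw [De, rt, Ee, map_sub, map_mul, map_sub, map_one, uv_eq, bar_mX]
  have h : mX 1 1 * mX (-1) (-1) = 1 := by rw [mX_mul]; exact mX_zero
  linear_combination (bar S.b) * h

theorem Ee_rt (S : Tr LA) : Ee uL vL (rt S) = bar (De uL vL S) := by
  rw [De, rt, Ee, map_add, map_mul, map_sub, map_one, uv_eq, bar_mX]
  have h : mX 1 1 * mX (-1) (-1) = 1 := by rw [mX_mul]; exact mX_zero
  linear_combination (-bar S.b) * h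

/-- X3f. rotations -/
theorem CA.rt {S : Tr LA} (hS : CA S) : CA (rt S) := by
  refine ⟨hS.c.bar, (Pos.mono _ _).mul hS.b.bar, hS.a.bar, ?_, ?_⟩
  · rw [De_rt]
    exact hS.e.bar
  · rw [Ee_rt]
    exact hS.d.bar

end LG3
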