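import Pool.Agent.Lib.MP_3cd99b_gt.X3

/-! The support of the middle coordinate of a composition. -/

open Finset

namespace LG3

/-- a descent is impossible in a finite support -/
theorem no_descent (f : LA) (w : ℤ → ℤ → ℤ) (St : ℤ → ℤ → Prop) (hf : ∀ i j, St i j → co f i j ≠ 0)
    (hstep : ∀ i j, St i j → ∃ i' j', St i' j' ∧ w i' j' < w i j) : ∀ i j, ¬ St i j := by
  obtain ⟨m, hm⟩ : ∃ m : ℤ, ∀ i j, co f i j ≠ 0 → m ≤ w i j := by
    obtain ⟨m, hm⟩ := (f.coeff.support.image (fun z : ℤ × ℤ => w z.1 z.2)).finite_toSet.bddBelow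
    refine ⟨m, fun i j h => hm ?_⟩
    rw [Finset.mem_coe, Finset.mem_image]
    exact ⟨(i, j), Finsupp.mem_support_iff.mpr h, rfl⟩
  have key : ∀ n : ℕ, ∀ i j, w i j ≤ m + n → ¬ St i j := by
    intro n
    induction n with
    | zero =>
      intro i j h hs
      obtain ⟨i', j', h1, h2⟩ := hstep i j hs
      have := hm i' j' (hf i' j' h1)
      push_cast at h
      omega
    | succ n ih =>
      intro i j h hs
      obtain ⟨i', j', h1, h2⟩ := hstep i j hs
      push_cast at h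
      exact ih i' j' (by omega) h1
  intro i j hs
  have h1 := hm i j (hf i j hs)
  exact key (w i j - m).toNat i j (by omega) hs

/-- the three shifts -/
def P3 (a b : ℤ) : Prop := (a = 0 ∧ b = 0) ∨ (a = 1 ∧ b = 0) ∨ (a = 0 ∧ b = 1)

theorem P3.cases {a b : ℤ} (h : P3 a b) : mX a b = 1 ∨ mX a b = uL ∨ mX a b = vL := by
  rcases h with ⟨rfl, rfl⟩ | ⟨rfl, rfl⟩ | ⟨rfl, rfl⟩
  · exact Or.inl mX_zero
  · exact Or.inr (Or.inl rfl)
  · exact Or.inr (Or.inr rfl)

theorem PQ_of {a b c : ℤ} (h : P3 a b) (hc : c = 0 ∨ c = 1) : PQ (mX a b) (mX c c) := by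
  refine ⟨h.cases, ?_⟩
  rcases hc with rfl | rfl
  · exact Or.inl mX_zero
  · exact Or.inr uv_eq.symm

/-- the lower bounds for the coefficients of D1 -/
theorem CP.low {T : Tr LA} (h : CP T) {a b c : ℤ} (hab : P3 a b) (hc : c = 0 ∨ c = 1) (i j : ℤ) :
    max (co (D0 T) (i - a) (j - b)) 0 + max (-co (D0 T) (i - c) (j - c)) 0 ≤ co (D1 uL vL T) i j := by
  obtain ⟨Q, N, hQ, hN, h0, h1⟩ := h.e _ _ (PQ_of hab hc)
  have h2 := h1 i j
  rw [co_sub, co_sub, co_mX_mul, co_mX_mul] at h2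
  rw [h0, co_sub, co_sub]
  have h3 := hQ (i - a) (j - b)
  have h4 := hN (i - a) (j - b)
  have h5 := hQ (i - c) (j - c)
  have h6 := hN (i - c) (j - c)
  have h7 : max (co Q (i - a) (j - b) - co N (i - a) (j - b)) 0 ≤ co Q (i - a) (j - b) :=
    max_le (by linarith) h3
  have h8 : max (-(co Q (i - c) (j - c) - co N (i - c) (j - c))) 0 ≤ co N (i - c) (j - c) :=
    max_le (by linarith) h6
  linarith

/-- the remainder -/
noncomputable def Er (T : Tr LA) (a b c : ℤ) : LA :=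
  D1 uL vL T - mX a b * pp (D0 T) - mX c c * pp (-D0 T)

theorem co_Er (T : Tr LA) (a b c i j : ℤ) : co (Er T a b c) i j = co (D1 uL vL T) i j -
    max (co (D0 T) (i - a) (j - b)) 0 - max (-co (D0 T) (i - c) (j - c)) 0 := by
  rw [Er, co_sub, co_sub, co_mX_mul, co_mX_mul, co_pp, co_pp, co_neg]

theorem CP.er {T : Tr LA} (h : CP T) {a b c : ℤ} (hab : P3 a b) (hc : c = 0 ∨ c = 1) : Pos (Er T a b c) := by
  intro i j
  rw [co_Er]
  have := h.low hab hc i j
  linarith

theorem co_le_of_pos {f g : LA} (h : Pos (g - f)) (i j : ℤ) : co f i j ≤ co g i j := by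
  have := h i j
  rw [co_sub] at this
  linarith

/-- the four lower bounds -/
theorem beta_key {S T : Tr LA} (hS : CP S) (hT : CP T) {a b c a' b' c' : ℤ} (h : P3 a b) (hc : c = 0 ∨ c = 1)
    (h' : P3 a' b') (hc' : c' = 0 ∨ c' = 1) (e1 : a + a' = 1) (e2 : b + b' = 1) (e3 : c + c' = 1) (i j k l : ℤ) :
    co (Er S a b c) i j * co (D1 uL vL T) k l ≤ co (cp uL vL S T).b (i + k) (j + l) ∧
    co (D1 uL vL S) i j * co (Er T a' b' c') k l ≤ co (cp uL vL S T).b (i + k) (j + l) ∧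
    max (co (D0 S) (i - a) (j - b)) 0 * max (-co (D0 T) (k - c') (l - c')) 0 ≤ co (cp uL vL S T).b (i + k) (j + l) ∧
    max (-co (D0 S) (i - c) (j - c)) 0 * max (co (D0 T) (k - a') (l - b')) 0 ≤ co (cp uL vL S T).b (i + k) (j + l) := by
  set Q := pp (D0 S) with hQ
  set N := pp (-D0 S) with hN
  set Q' := pp (D0 T) with hQ'
  set N' := pp (-D0 T) with hN'
  set E := Er S a b c with hE
  set E' := Er T a' b' c' with hE'
  have pQ : Pos Q := pos_pp _
  have pN : Pos N := pos_pp _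
  have pQ' : Pos Q' := pos_pp _
  have pN' : Pos N' := pos_pp _
  have pE : Pos E := hS.er h hc
  have pE' : Pos E' := hT.er h' hc'
  have hp := Pos.mono a b
  have hq := Pos.mono c c
  have hp' := Pos.mono a' b'
  have hq' := Pos.mono c' c'
  have m1 : mX a b * mX a' b' = uL * vL := by rw [mX_mul, e1, e2, uv_eq]
  have m2 : mX c c * mX c' c' = uL * vL := by rw [mX_mul, e3, uv_eq]
  have d1 : D1 uL vL S = E + mX a b * Q + mX c c * N := by rw [hE, Er]; ring
  have d1' : D1 uL vL T = E' + mX a' b' * Q' + mX c' c' * N' := by rw [hE', Er]; ring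
  have d0 : D0 S = Q - N := (pp_sub _).symm
  have d0' : D0 T = Q' - N' := (pp_sub _).symm
  have W : (cp uL vL S T).b = E * E' + E * (mX a' b' * Q' + mX c' c' * N') + (mX a b * Q + mX c c * N) * E' +
      (mX a b * Q) * (mX c' c' * N') + (mX c c * N) * (mX a' b' * Q') + uL * vL * (Q * N') + uL * vL * (N * Q') := by
    rw [b_cp, d1, d1', d0, d0']
    linear_combination (Q * Q') * m1 + (N * N') * m2
  have g1 : Pos (E * (mX a' b' * Q' + mX c' c' * N')) := pE.mul ((hp'.mul pQ').add (hq'.mul pN'))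
  have g2 : Pos ((mX a b * Q + mX c c * N) * E') := ((hp.mul pQ).add (hq.mul pN)).mul pE'
  have g3 : Pos ((mX a b * Q) * (mX c' c' * N')) := (hp.mul pQ).mul (hq'.mul pN')
  have g4 : Pos ((mX c c * N) * (mX a' b' * Q')) := (hq.mul pN).mul (hp'.mul pQ')
  have g5 : Pos (uL * vL * (Q * N')) := pos_uv.mul (pQ.mul pN')
  have g6 : Pos (uL * vL * (N * Q')) := pos_uv.mul (pN.mul pQ')
  have g0 : Pos (E * E') := pE.mul pE'
  refine ⟨?_, ?_, ?_, ?_⟩
  · refine (co_mul_le pE hT.d1 i j k l).trans (co_le_of_pos ?_ _ _)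
    refine ((((g2.add g3).add g4).add g5).add g6).of_eq ?_
    rw [W, d1']
    ring
  · refine (co_mul_le hS.d1 pE' i j k l).trans (co_le_of_pos ?_ _ _)
    refine ((((g1.add g3).add g4).add g5).add g6).of_eq ?_
    rw [W, d1]
    ring
  · have h1 := co_mul_le (hp.mul pQ) (hq'.mul pN') i j k l
    rw [co_mX_mul, co_mX_mul, hQ, hN', co_pp, co_pp, co_neg] at h1
    refine h1.trans (co_le_of_pos ?_ _ _)
    refine (((((g0.add g1).add g2).add g4).add g5).add g6).of_eq ?_
    rw [W]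
    ring
  · have h1 := co_mul_le (hq.mul pN) (hp'.mul pQ') i j k l
    rw [co_mX_mul, co_mX_mul, hN, hQ', co_pp, co_pp, co_neg] at h1
    refine h1.trans (co_le_of_pos ?_ _ _)
    refine (((((g0.add g1).add g2).add g3).add g5).add g6).of_eq ?_
    rw [W]
    ring

theorem le_zero_of_mul {x y : ℤ} (hy : 0 < y) (h : x * y ≤ 0) : x ≤ 0 := by
  by_contra hx
  exact absurd (mul_pos (not_le.mp hx) hy) (not_lt.mpr h)

/-- X4. the support of the middle coordinate of a composition -/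
theorem beta_low {S T : Tr LA} (hS : CP S) (hT : CP T) {i j k l : ℤ} (h1 : 0 < co (D1 uL vL S) i j)
    (h2 : 0 < co (D1 uL vL T) k l) : 0 < co (cp uL vL S T).b (i + k) (j + l) := by
  by_contra hW
  rw [not_lt] at hW
  refine no_descent (D1 uL vL S) (fun i _ => i)
    (fun i' j' => 0 < co (D1 uL vL S) i' j' ∧ 0 < co (D1 uL vL T) (i + k - i') (j + l - j'))
    (fun i' j' h => h.1.ne') (fun i' j' h => ?_) i j ⟨h1, ?_⟩
  swap
  · rw [add_sub_cancel_left, add_sub_cancel_left]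
    exact h2
  obtain ⟨h3, h4⟩ := h
  have ez1 : i' + (i + k - i') = i + k := by ring
  have ez2 : j' + (j + l - j') = j + l := by ring
  have pu : P3 1 0 := Or.inr (Or.inl ⟨rfl, rfl⟩)
  have pv : P3 0 1 := Or.inr (Or.inr ⟨rfl, rfl⟩)
  have A := beta_key hS hT pu (Or.inl rfl) pv (Or.inr rfl) rfl rfl rfl i' j' (i + k - i') (j + l - j')
  have B := beta_key hS hT pu (Or.inr rfl) pv (Or.inl rfl) rfl rfl rfl i' j' (i + k - i') (j + l - j')
  have C := beta_key hS hT pv (Or.inl rfl) pu (Or.inr rfl) rfl rfl rfl i' j' (i + k - i') (j + l - j')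
  have D := beta_key hS hT pv (Or.inr rfl) pu (Or.inl rfl) rfl rfl rfl i' j' (i + k - i') (j + l - j')
  rw [ez1, ez2] at A B C D
  have z0 : ∀ x : ℤ, x * co (D1 uL vL T) (i + k - i') (j + l - j') ≤ co (cp uL vL S T).b (i + k) (j + l) → x ≤ 0 :=
    fun x hx => le_zero_of_mul h4 (hx.trans hW)
  have z1 : ∀ x : ℤ, co (D1 uL vL S) i' j' * x ≤ co (cp uL vL S T).b (i + k) (j + l) → x ≤ 0 :=
    fun x hx => le_zero_of_mul h3 (by rw [mul_comm]; exact hx.trans hW)
  have A1 := z0 _ A.1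
  have A2 := z1 _ A.2.1
  have B1 := z0 _ B.1
  have B2 := z1 _ B.2.1
  have C1 := z0 _ C.1
  have C2 := z1 _ C.2.1
  have D1' := z0 _ D.1
  have D2 := z1 _ D.2.1
  rw [co_Er] at A1 A2 B1 B2 C1 C2 D1' D2
  have A3 := A.2.2.1.trans hW
  have A4 := A.2.2.2.trans hW
  have B3 := B.2.2.1.trans hW
  have B4 := B.2.2.2.trans hW
  have C3 := C.2.2.1.trans hW
  have C4 := C.2.2.2.trans hW
  have D3 := D.2.2.1.trans hW
  have D4 := D.2.2.2.trans hW
  simp only [sub_zero] at *
  by_cases hQ : 0 < co (D0 S) (i' - 1) j'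
  · -- Q type
    have m1 : 0 < max (co (D0 S) (i' - 1) j') 0 := lt_max_of_lt_left hQ
    have n1 : max (-co (D0 T) (i + k - i') (j + l - j')) 0 ≤ 0 := le_zero_of_mul m1 (by rw [mul_comm]; exact B3)
    have q1 : 0 < co (D0 T) (i + k - i') (j + l - j' - 1) := by
      by_contra hc
      have : max (co (D0 T) (i + k - i') (j + l - j' - 1)) 0 ≤ 0 := max_le (not_lt.mp hc) le_rfl
      linarith
    refine ⟨i' - 1, j' + 1, ⟨?_, ?_⟩, by omega⟩
    · have := hS.low pv (Or.inl rfl) (i' - 1) (j' + 1)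
      simp only [sub_zero, add_sub_cancel_right] at this
      have h5 := le_max_right (-co (D0 S) (i' - 1) (j' + 1)) 0
      linarith
    · have := hT.low pu (Or.inl rfl) (i + k - (i' - 1)) (j + l - (j' + 1))
      have h5 := le_max_right (-co (D0 T) (i + k - (i' - 1) - 0) (j + l - (j' + 1) - 0)) 0
      have e3 : i + k - (i' - 1) - 1 = i + k - i' := by ring
      have e4 : j + l - (j' + 1) - 0 = j + l - j' - 1 := by ring
      rw [e3, e4] at this
      rw [e4] at h5
      have h6 : 0 < max (co (D0 T) (i + k - i') (j + l - j' - 1)) 0 := lt_max_of_lt_left q1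
      linarith
  · -- N type
    have m1 : max (co (D0 S) (i' - 1) j') 0 ≤ 0 := max_le (not_lt.mp hQ) le_rfl
    have n1 : 0 < max (-co (D0 S) (i' - 1) (j' - 1)) 0 := by linarith
    have n0 : 0 < max (-co (D0 S) i' j') 0 := by linarith
    have q1 : max (co (D0 T) (i + k - i') (j + l - j' - 1)) 0 ≤ 0 :=
      le_zero_of_mul n0 (by rw [mul_comm]; exact A4)
    have n2 : 0 < max (-co (D0 T) (i + k - i') (j + l - j')) 0 := by linarith
    refine ⟨i' - 1, j' - 1, ⟨?_, ?_⟩, by omega⟩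
    · have := hS.low pu (Or.inl rfl) (i' - 1) (j' - 1)
      simp only [sub_zero] at this
      have h5 := le_max_right (co (D0 S) (i' - 1 - 1) (j' - 1)) 0
      linarith
    · have := hT.low pu (Or.inr rfl) (i + k - (i' - 1)) (j + l - (j' - 1))
      have e3 : i + k - (i' - 1) - 1 = i + k - i' := by ring
      have e4 : j + l - (j' - 1) - 1 = j + l - j' := by ring
      rw [e3, e4] at this
      have h5 := le_max_right (co (D0 T) (i + k - i') (j + l - (j' - 1) - 0)) 0
      linarith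

end LG3
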