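import Pool.Agent.Lib.MP_3cd99b_gt.X4

/-! The supports of vertical products. -/

open Finset

namespace LG3

/-- the three points 1, u, v -/
inductive Pt
  | o
  | u
  | v

namespace Pt

/-- the exponents -/
def x : Pt → ℤ
  | .o => 0
  | .u => 1
  | .v => 0

/-- the exponents -/
def y : Pt → ℤ
  | .o => 0
  | .u => 0
  | .v => 1

/-- the monomial -/
noncomputable def m (p : Pt) : LA := mX p.x p.y

theorem p3 (p : Pt) : P3 p.x p.y := by
  cases p
  · exact Or.inl ⟨rfl, rfl⟩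
  · exact Or.inr (Or.inl ⟨rfl, rfl⟩)
  · exact Or.inr (Or.inr ⟨rfl, rfl⟩)

theorem m_o : m .o = 1 := mX_zero

theorem m_u : m .u = uL := rfl

theorem m_v : m .v = vL := rfl

/-- the value at the point -/
noncomputable def val (p : Pt) (T : Tr LA) : LA :=
  match p with
  | .o => V1 uL vL T
  | .u => Vu uL vL T
  | .v => Vv uL vL T

theorem sq_pos {p k : Pt} (h : p ≠ k) : 0 < (p.x - k.x) * (p.x - k.x) + (p.y - k.y) * (p.y - k.y) := by
  cases p <;> cases k <;> first | exact absurd rfl h | decide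

end Pt

open Pt

/-- three different points -/
def Dis (p r k : Pt) : Prop := p ≠ r ∧ r ≠ k ∧ p ≠ k

theorem val_sub {p r k : Pt} (h : Dis p r k) (T : Tr LA) :
    p.val T - k.val T = (p.m - k.m) * Ff uL vL r.m T := by
  have h1 := V1_sub_Vu (u := uL) (v := vL) T
  have h2 := V1_sub_Vv (u := uL) (v := vL) T
  have h3 := Vu_sub_Vv (u := uL) (v := vL) T
  obtain ⟨a, b, c⟩ := h
  cases p <;> cases r <;> cases k <;> first
    | exact absurd rfl a
    | exact absurd rfl b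
    | exact absurd rfl c
    | (simp only [Pt.val, m_o, m_u, m_v]; linear_combination h1)
    | (simp only [Pt.val, m_o, m_u, m_v]; linear_combination h2)
    | (simp only [Pt.val, m_o, m_u, m_v]; linear_combination h3)
    | (simp only [Pt.val, m_o, m_u, m_v]; linear_combination -h1)
    | (simp only [Pt.val, m_o, m_u, m_v]; linear_combination -h2)
    | (simp only [Pt.val, m_o, m_u, m_v]; linear_combination -h3)

theorem CP.val {T : Tr LA} (h : CP T) (p : Pt) : Pos (p.val T) := by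
  cases p
  · exact h.v1
  · exact h.vu
  · exact h.vv

theorem CP.fm {T : Tr LA} (h : CP T) (p : Pt) : Pos (Ff uL vL p.m T) := by
  cases p
  · exact h.ff (Or.inl m_o)
  · exact h.ff (Or.inr (Or.inl rfl))
  · exact h.ff (Or.inr (Or.inr rfl))

theorem co_m_mul (p : Pt) (f : LA) (i j : ℤ) : co (p.m * f) i j = co f (i - p.x) (j - p.y) :=
  co_mX_mul _ _ _ _ _

theorem co_Ff (p : Pt) (T : Tr LA) (i j : ℤ) :
    co (Ff uL vL p.m T) i j = co (D1 uL vL T) i j - co (D0 T) (i - p.x) (j - p.y) := by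
  rw [Ff, co_sub, co_m_mul]

theorem CP.low' {T : Tr LA} (h : CP T) (p : Pt) {i j : ℤ} (h0 : 0 < co (D0 T) i j) :
    0 < co (D1 uL vL T) (i + p.x) (j + p.y) := by
  have h1 := h.low p.p3 (Or.inl rfl) (i + p.x) (j + p.y)
  rw [add_sub_cancel_right, add_sub_cancel_right] at h1
  have h2 : 0 < max (co (D0 T) i j) 0 := lt_max_of_lt_left h0
  have h3 := le_max_right (-co (D0 T) (i + p.x - 0) (j + p.y - 0)) 0
  linarith

/-- the descent -/
theorem alpha_step {S T : Tr LA} (hS : CP S) (hT : CP T) {p r k : Pt} (hd : Dis p r k) {X H : LA} {z1 z2 m n : ℤ}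
    (hX : ∀ i j, 0 < co (D0 S) i j → 0 < co X (i + m) (j + n))
    (hE : ∀ c : Pt, ∀ i j i' j', i + i' = z1 → j + j' = z2 → co X i j * co (c.val T) i' j' ≤ co H z1 z2)
    (hM : ∀ i j i' j', i + i' + m = z1 → j + j' + n = z2 →
      co (Ff uL vL p.m S) i j * co (Ff uL vL r.m T) i' j' ≤ co H z1 z2)
    (hz : co H z1 z2 ≤ 0) : ∀ i j, ¬ (0 < co (D1 uL vL S) i j ∧ 0 < co (Ff uL vL r.m T) (z1 - m - i) (z2 - n - j)) := by
  refine no_descent (D1 uL vL S) (fun i j => (p.x - k.x) * i + (p.y - k.y) * j) _ (fun i j h => h.1.ne') ?_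
  rintro i j ⟨h1, h2⟩
  have h3 := hM i j (z1 - m - i) (z2 - n - j) (by ring) (by ring)
  have h4 : co (Ff uL vL p.m S) i j ≤ 0 := le_zero_of_mul h2 (h3.trans hz)
  rw [co_Ff] at h4
  have h5 : 0 < co (D0 S) (i - p.x) (j - p.y) := by linarith
  have h6 := hX _ _ h5
  have h7 : ∀ c : Pt, co (c.val T) (z1 - m - i + p.x) (z2 - n - j + p.y) ≤ 0 := by
    intro c
    have h8 := hE c (i - p.x + m) (j - p.y + n) (z1 - m - i + p.x) (z2 - n - j + p.y) (by ring) (by ring)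
    exact le_zero_of_mul h6 (by rw [mul_comm]; exact h8.trans hz)
  have h9 := congrArg (fun g => co g (z1 - m - i + p.x) (z2 - n - j + p.y)) (val_sub hd T)
  simp only [sub_mul, co_sub] at h9
  rw [co_m_mul, co_m_mul] at h9
  have h10 := hT.val p (z1 - m - i + p.x) (z2 - n - j + p.y)
  have h11 := hT.val k (z1 - m - i + p.x) (z2 - n - j + p.y)
  have h12 := h7 p
  have h13 := h7 k
  rw [add_sub_cancel_right, add_sub_cancel_right] at h9
  refine ⟨i - p.x + k.x, j - p.y + k.y, ⟨hS.low' k h5, ?_⟩, ?_⟩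
  · have e1 : z1 - m - (i - p.x + k.x) = z1 - m - i + p.x - k.x := by ring
    have e2 : z2 - n - (j - p.y + k.y) = z2 - n - j + p.y - k.y := by ring
    rw [e1, e2]
    linarith
  · have := sq_pos hd.2.2
    linarith

/-- the last step -/
theorem alpha_fin {S T : Tr LA} (hS : CP S) (hT : CP T) {p r : Pt} (hpr : p ≠ r) {z1 z2 : ℤ}
    (h1 : ∀ i j, ¬ (0 < co (D1 uL vL S) i j ∧ 0 < co (Ff uL vL r.m T) (z1 - i) (z2 - j)))
    (h2 : ∀ i j, ¬ (0 < co (D1 uL vL T) i j ∧ 0 < co (Ff uL vL p.m S) (z1 - i) (z2 - j))) :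
    ∀ i j, ¬ (0 < co (D1 uL vL S) i j ∧ 0 < co (D1 uL vL T) (z1 - i) (z2 - j)) := by
  refine no_descent (D1 uL vL S) (fun i j => (p.x - r.x) * i + (p.y - r.y) * j) _ (fun i j h => h.1.ne') ?_
  rintro i j ⟨h3, h4⟩
  have h5 : co (Ff uL vL r.m T) (z1 - i) (z2 - j) ≤ 0 := by
    by_contra hc
    exact h1 i j ⟨h3, not_le.mp hc⟩
  have h6 : co (Ff uL vL p.m S) i j ≤ 0 := by
    by_contra hc
    refine h2 (z1 - i) (z2 - j) ⟨h4, ?_⟩
    rw [sub_sub_cancel, sub_sub_cancel]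
    exact not_le.mp hc
  rw [co_Ff] at h5 h6
  have h7 : 0 < co (D0 T) (z1 - i - r.x) (z2 - j - r.y) := by linarith
  have h8 : 0 < co (D0 S) (i - p.x) (j - p.y) := by linarith
  refine ⟨i - p.x + r.x, j - p.y + r.y, ⟨hS.low' r h8, ?_⟩, ?_⟩
  · have h9 := hT.low' p h7
    have e1 : z1 - (i - p.x + r.x) = z1 - i - r.x + p.x := by ring
    have e2 : z2 - (j - p.y + r.y) = z2 - j - r.y + p.y := by ring
    rw [e1, e2]
    exact h9
  · have := sq_pos hpr
    linarith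

theorem vm_comm (S T : Tr LA) : vm uL vL S T = vm uL vL T S := by
  ext1 <;> simp only [vm] <;> ring

theorem Pos.ge {f g : LA} (h : Pos f) (e : g = f) : Pos g := e ▸ h

theorem D1_end {S T : Tr LA} (hS : CP S) (hT : CP T) (c : Pt) :
    Pos (D1 uL vL (vm uL vL S T) - D1 uL vL S * c.val T) := by
  cases c
  · refine ((hS.vv.mul hT.d1).add ((hS.fm .o).mul (hT.fm .v) |> pos_u.mul)).of_eq ?_
    rw [D1_vm_u', Pt.val, m_o, m_v]
    ring
  · refine ((hS.v1.mul hT.d1).add ((hS.fm .u).mul (hT.fm .o) |> pos_v.mul)).of_eq ?_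
    rw [D1_vm_v, Pt.val, m_o, m_u]
    ring
  · refine ((hS.vu.mul hT.d1).add ((hS.fm .v).mul (hT.fm .u))).of_eq ?_
    rw [D1_vm_1, Pt.val, m_u, m_v]
    ring

theorem D1_mid {S T : Tr LA} (hS : CP S) (hT : CP T) {p r k : Pt} (hd : Dis p r k) :
    Pos (D1 uL vL (vm uL vL S T) - k.m * (Ff uL vL p.m S * Ff uL vL r.m T)) := by
  obtain ⟨a, b, c⟩ := hd
  cases p <;> cases r <;> cases k <;> first
    | exact absurd rfl a
    | exact absurd rfl b
    | exact absurd rfl c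
    | skip
  · refine ((hS.vu.mul hT.d1).add (hT.v1.mul hS.d1)).of_eq ?_
    rw [D1_vm_v', m_o, m_u, m_v]
    ring
  · refine ((hS.vv.mul hT.d1).add (hT.v1.mul hS.d1)).of_eq ?_
    rw [D1_vm_u', m_o, m_u, m_v]
    ring
  · refine ((hS.v1.mul hT.d1).add (hT.vu.mul hS.d1)).of_eq ?_
    rw [D1_vm_v, m_o, m_u, m_v]
    ring
  · refine ((hS.vv.mul hT.d1).add (hT.vu.mul hS.d1)).of_eq ?_
    rw [D1_vm_1', m_o, m_u, m_v]
    ring
  · refine ((hS.v1.mul hT.d1).add (hT.vv.mul hS.d1)).of_eq ?_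
    rw [D1_vm_u, m_o, m_u, m_v]
    ring
  · refine ((hS.vu.mul hT.d1).add (hT.vv.mul hS.d1)).of_eq ?_
    rw [D1_vm_1, m_o, m_u, m_v]
    ring

theorem a_end {S T : Tr LA} (hS : CP S) (hT : CP T) (c : Pt) :
    Pos ((vm uL vL S T).a - S.a * c.val T) := by
  cases c
  · refine ((hS.vv.mul hT.aa).add ((pos_u.add pos_uv).mul ((hS.fm .o).mul (hT.fm .v)))).of_eq ?_
    rw [a_vm_u', Pt.val, m_o, m_v]
    ring
  · refine ((hS.v1.mul hT.aa).add ((pos_v.add pos_uv).mul ((hS.fm .u).mul (hT.fm .o)))).of_eq ?_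
    rw [a_vm_v, Pt.val, m_o, m_u]
    ring
  · refine ((hS.vu.mul hT.aa).add ((Pos.one.add pos_uv).mul ((hS.fm .v).mul (hT.fm .u)))).of_eq ?_
    rw [a_vm_1, Pt.val, m_u, m_v]
    ring

theorem a_mid {S T : Tr LA} (hS : CP S) (hT : CP T) {p r k : Pt} (hd : Dis p r k) :
    Pos ((vm uL vL S T).a - (k.m + uL * vL) * (Ff uL vL p.m S * Ff uL vL r.m T)) := by
  obtain ⟨a, b, c⟩ := hd
  cases p <;> cases r <;> cases k <;> first
    | exact absurd rfl a
    | exact absurd rfl b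
    | exact absurd rfl c
    | skip
  · refine ((hS.vu.mul hT.aa).add (hT.v1.mul hS.aa)).of_eq ?_
    rw [a_vm_v', m_o, m_u, m_v]
    ring
  · refine ((hS.vv.mul hT.aa).add (hT.v1.mul hS.aa)).of_eq ?_
    rw [a_vm_u', m_o, m_u, m_v]
    ring
  · refine ((hS.v1.mul hT.aa).add (hT.vu.mul hS.aa)).of_eq ?_
    rw [a_vm_v, m_o, m_u, m_v]
    ring
  · refine ((hS.vv.mul hT.aa).add (hT.vu.mul hS.aa)).of_eq ?_
    rw [a_vm_1', m_o, m_u, m_v]
    ring
  · refine ((hS.v1.mul hT.aa).add (hT.vv.mul hS.aa)).of_eq ?_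
    rw [a_vm_u, m_o, m_u, m_v]
    ring
  · refine ((hS.vu.mul hT.aa).add (hT.vv.mul hS.aa)).of_eq ?_
    rw [a_vm_1, m_o, m_u, m_v]
    ring

theorem exists_dis (k : Pt) : ∃ p r : Pt, Dis p r k := by
  cases k
  · exact ⟨.u, .v, by simp [Dis]⟩
  · exact ⟨.o, .v, by simp [Dis]⟩
  · exact ⟨.o, .u, by simp [Dis]⟩

/-- the lower bound of a product at a point -/
theorem low_mul {f g H : LA} (hf : Pos f) (hg : Pos g) {k1 k2 : ℤ} (h : Pos (H - mX k1 k2 * (f * g))) {i j i' j' z1 z2 : ℤ}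
    (e1 : i + i' + k1 = z1) (e2 : j + j' + k2 = z2) : co f i j * co g i' j' ≤ co H z1 z2 := by
  refine le_trans ?_ (co_le_of_pos h z1 z2)
  rw [co_mX_mul]
  have e3 : z1 - k1 = i + i' := by linarith
  have e4 : z2 - k2 = j + j' := by linarith
  rw [e3, e4]
  exact co_mul_le hf hg i j i' j'

/-- X5a. the support of D1 of a vertical product -/
theorem D1_low {S T : Tr LA} (hS : CP S) (hT : CP T) (k : Pt) {i j i' j' : ℤ} (h1 : 0 < co (D1 uL vL S) i j)
    (h2 : 0 < co (D1 uL vL T) i' j') : 0 < co (D1 uL vL (vm uL vL S T)) (i + i' + k.x) (j + j' + k.y) := by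
  by_contra hW
  rw [not_lt] at hW
  obtain ⟨p, r, hd⟩ := exists_dis k
  have hd' : Dis r p k := ⟨hd.1.symm, hd.2.2, hd.2.1⟩
  set z1 := i + i' + k.x with hz1
  set z2 := j + j' + k.y with hz2
  have A := alpha_step hS hT hd (X := D1 uL vL S) (H := D1 uL vL (vm uL vL S T)) (z1 := z1) (z2 := z2) (m := k.x)
    (n := k.y) (fun a b h => hS.low' k h)
    (fun c a b a' b' e1 e2 => low_mul hS.d1 (hT.val c) (k1 := 0) (k2 := 0)
      (by rw [mX_zero, one_mul]; exact D1_end hS hT c) (by linarith) (by linarith))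
    (fun a b a' b' e1 e2 => low_mul (hS.fm p) (hT.fm r) (D1_mid hS hT hd) e1 e2) hW
  have hW' : co (D1 uL vL (vm uL vL T S)) z1 z2 ≤ 0 := by rw [vm_comm]; exact hW
  have B := alpha_step hT hS hd' (X := D1 uL vL T) (H := D1 uL vL (vm uL vL T S)) (z1 := z1) (z2 := z2) (m := k.x)
    (n := k.y) (fun a b h => hT.low' k h)
    (fun c a b a' b' e1 e2 => low_mul hT.d1 (hS.val c) (k1 := 0) (k2 := 0)
      (by rw [mX_zero, one_mul]; exact D1_end hT hS c) (by linarith) (by linarith))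
    (fun a b a' b' e1 e2 => low_mul (hT.fm r) (hS.fm p) (D1_mid hT hS hd') e1 e2) hW'
  refine alpha_fin hS hT hd.1 (z1 := z1 - k.x) (z2 := z2 - k.y) A B i j ⟨h1, ?_⟩
  rw [hz1, hz2]
  have e1 : i + i' + k.x - k.x - i = i' := by ring
  have e2 : j + j' + k.y - k.y - j = j' := by ring
  rw [e1, e2]
  exact h2

theorem CP.low_a {T : Tr LA} (h : CP T) {m n : ℤ} (hmn : P3 m n ∨ (m = 1 ∧ n = 1)) {i j : ℤ}
    (h0 : 0 < co (D0 T) i j) : 0 < co T.a (i + m) (j + n) := by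
  have e : co T.a (i + m) (j + n) = co (D1 uL vL T) (i + m) (j + n) + co (D0 T) (i + m - 1) (j + n - 1) := by
    conv_lhs => rw [a_eq (u := uL) (v := vL) T]
    rw [co_add, uv_eq, co_mX_mul]
  rw [e]
  rcases hmn with hmn | ⟨rfl, rfl⟩
  · have h1 := h.low hmn (Or.inr rfl) (i + m) (j + n)
    rw [add_sub_cancel_right, add_sub_cancel_right] at h1
    have h2 : co (D0 T) i j ≤ max (co (D0 T) i j) 0 := le_max_left _ _
    have h3 := le_max_left (-co (D0 T) (i + m - 1) (j + n - 1)) 0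
    linarith
  · rw [add_sub_cancel_right, add_sub_cancel_right]
    have h1 := h.d1 (i + 1) (j + 1)
    linarith

/-- X5b. the support of the first coordinate of a vertical product -/
theorem a_low {S T : Tr LA} (hS : CP S) (hT : CP T) {m n : ℤ} (hmn : P3 m n ∨ (m = 1 ∧ n = 1)) {i j i' j' : ℤ}
    (h1 : 0 < co (D1 uL vL S) i j) (h2 : 0 < co (D1 uL vL T) i' j') :
    0 < co (vm uL vL S T).a (i + i' + m) (j + j' + n) := by
  by_contra hW
  rw [not_lt] at hW
  obtain ⟨k, hk⟩ : ∃ k : Pt, (k.x = m ∧ k.y = n) ∨ (m = 1 ∧ n = 1) := by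
    rcases hmn with (⟨rfl, rfl⟩ | ⟨rfl, rfl⟩ | ⟨rfl, rfl⟩) | h
    · exact ⟨.o, Or.inl ⟨rfl, rfl⟩⟩
    · exact ⟨.u, Or.inl ⟨rfl, rfl⟩⟩
    · exact ⟨.v, Or.inl ⟨rfl, rfl⟩⟩
    · exact ⟨.o, Or.inr h⟩
  obtain ⟨p, r, hd⟩ := exists_dis k
  have hd' : Dis r p k := ⟨hd.1.symm, hd.2.2, hd.2.1⟩
  have hmid : ∀ {S T : Tr LA}, CP S → CP T → ∀ {p r : Pt}, Dis p r k →
      Pos ((vm uL vL S T).a - mX m n * (Ff uL vL p.m S * Ff uL vL r.m T)) := by
    intro S T hS hT p r hd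
    have h3 := a_mid hS hT hd
    have h4 : Pos (Ff uL vL p.m S * Ff uL vL r.m T) := (hS.fm p).mul (hT.fm r)
    have h5 : Pos k.m := Pos.mono _ _
    rcases hk with ⟨e1, e2⟩ | ⟨e1, e2⟩
    · refine (h3.add (pos_uv.mul h4)).of_eq ?_
      have e : mX m n = k.m := by rw [← e1, ← e2]; rfl
      rw [e]
      ring
    · refine (h3.add (h5.mul h4)).of_eq ?_
      rw [e1, e2, ← uv_eq]
      ring
  set z1 := i + i' + m with hz1
  set z2 := j + j' + n with hz2
  have A := alpha_step hS hT hd (X := S.a) (H := (vm uL vL S T).a) (z1 := z1) (z2 := z2) (m := m)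
    (n := n) (fun a b h => hS.low_a hmn h)
    (fun c a b a' b' e1 e2 => low_mul hS.aa (hT.val c) (k1 := 0) (k2 := 0)
      (by rw [mX_zero, one_mul]; exact a_end hS hT c) (by linarith) (by linarith))
    (fun a b a' b' e1 e2 => low_mul (hS.fm p) (hT.fm r) (hmid hS hT hd) e1 e2) hW
  have hW' : co (vm uL vL T S).a z1 z2 ≤ 0 := by rw [vm_comm]; exact hW
  have B := alpha_step hT hS hd' (X := T.a) (H := (vm uL vL T S).a) (z1 := z1) (z2 := z2) (m := m)
    (n := n) (fun a b h => hT.low_a hmn h)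
    (fun c a b a' b' e1 e2 => low_mul hT.aa (hS.val c) (k1 := 0) (k2 := 0)
      (by rw [mX_zero, one_mul]; exact a_end hT hS c) (by linarith) (by linarith))
    (fun a b a' b' e1 e2 => low_mul (hT.fm r) (hS.fm p) (hmid hT hS hd') e1 e2) hW'
  refine alpha_fin hS hT hd.1 (z1 := z1 - m) (z2 := z2 - n) A B i j ⟨h1, ?_⟩
  rw [hz1, hz2]
  have e1 : i + i' + m - m - i = i' := by ring
  have e2 : j + j' + n - n - j = j' := by ring
  rw [e1, e2]
  exact h2

end LG3
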