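import Pool.Agent.Lib.MP_3cd99b_gt.X2
import Pool.Agent.Lib.MP_3cd99b_gt.X5

/-! Supports: tangles with parallel strands. -/

open Finset

namespace LG3

/-- the support of f is contained in o -/
def Sub (f : LA) (o : Oc) : Prop := ∀ i j, co f i j ≠ 0 → o.mem i j

/-- the support of f is o -/
def Sp (f : LA) (o : Oc) : Prop := ∀ i j, co f i j ≠ 0 ↔ o.mem i j

theorem Sp.sub {f : LA} {o : Oc} (h : Sp f o) : Sub f o := fun i j => (h i j).mp

theorem Sp.pos {f : LA} {o : Oc} (h : Sp f o) (hf : Pos f) {i j : ℤ} (hm : o.mem i j) : 0 < co f i j :=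
  lt_of_le_of_ne (hf i j) (Ne.symm ((h i j).mpr hm))

theorem Sub.mem {f : LA} {o : Oc} (h : Sub f o) {i j : ℤ} (hm : 0 < co f i j) : o.mem i j := h i j hm.ne'

theorem Sp.mk' {f : LA} {o : Oc} (h : Sub f o) (h' : ∀ i j, o.mem i j → 0 < co f i j) : Sp f o :=
  fun i j => ⟨h i j, fun hm => (h' i j hm).ne'⟩

theorem Sub.mono {f : LA} {o o' : Oc} (h : Sub f o) (h' : ∀ i j, o.mem i j → o'.mem i j) : Sub f o' :=
  fun i j hm => h' i j (h i j hm)

theorem Sub.add {f g : LA} {o : Oc} (hf : Sub f o) (hg : Sub g o) : Sub (f + g) o := by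
  intro i j h
  rw [co_add] at h
  by_cases h1 : co f i j = 0
  · rw [h1, zero_add] at h
    exact hg i j h
  · exact hf i j h1

theorem Sub.neg {f : LA} {o : Oc} (hf : Sub f o) : Sub (-f) o := by
  intro i j h
  rw [co_neg, neg_ne_zero] at h
  exact hf i j h

theorem Sub.sub' {f g : LA} {o : Oc} (hf : Sub f o) (hg : Sub g o) : Sub (f - g) o := by
  rw [sub_eq_add_neg]
  exact hf.add hg.neg

theorem Sub.mul {f g : LA} {o o' : Oc} (hf : Sub f o) (hg : Sub g o') : Sub (f * g) (o.add o') := by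
  intro i j h
  obtain ⟨a, b, c, d, h1, h2, e1, e2⟩ := co_mul_ne h
  rw [← e1, ← e2]
  exact Oc.mem_add (hf a b h1) (hg c d h2)

theorem Sp.mul {f g : LA} {o o' : Oc} (hf : Sp f o) (hg : Sp g o') (pf : Pos f) (pg : Pos g) (h : o.ok)
    (h' : Oc.Gen o') : Sp (f * g) (o.add o') := by
  refine Sp.mk' (hf.sub.mul hg.sub) (fun i j hm => ?_)
  obtain ⟨a, b, h1, h2⟩ := Oc.exists_add h h' hm
  have h3 := co_mul_pos pf pg (hf.pos pf h1) (hg.pos pg h2)
  rw [add_sub_cancel, add_sub_cancel] at h3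
  exact h3

theorem Sp.one : Sp 1 (Oc.pt 0) := by
  intro i j
  rw [← mX_zero, co_mX]
  simp only [Oc.mem, Oc.pt]
  split_ifs with h
  · simp only [ne_eq, one_ne_zero, not_false_eq_true, true_iff]
    omega
  · simp only [ne_eq, not_true_eq_false, false_iff]
    omega

theorem Sub.mX {a b : ℤ} {o : Oc} (h : o.mem a b) : Sub (mX a b) o := by
  intro i j h1
  rw [co_mX] at h1
  split_ifs at h1 with h2
  · rw [h2.1, h2.2]
    exact h
  · exact absurd rfl h1

theorem Sub.mX_mul {a b : ℤ} {f : LA} {o o' : Oc} (hf : Sub f o) (h : ∀ i j, o.mem (i - a) (j - b) → o'.mem i j) :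
    Sub (LG3.mX a b * f) o' := by
  intro i j h1
  rw [co_mX_mul] at h1
  exact h i j (hf _ _ h1)

/-- positive coefficients of D0 -/
theorem CP.d0_pos {T : Tr LA} (h : CP T) {q : Oc} (hq : Sp (D1 uL vL T) q) {i j : ℤ} (h0 : 0 < co (D0 T) i j) :
    q.mem i j ∧ q.mem (i + 1) j ∧ q.mem i (j + 1) := by
  refine ⟨?_, ?_, ?_⟩
  · have := h.low' .o h0
    simp only [Pt.x, Pt.y, add_zero] at this
    exact hq.sub.mem this
  · have := h.low' .u h0
    simp only [Pt.x, Pt.y, add_zero] at this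
    exact hq.sub.mem this
  · have := h.low' .v h0
    simp only [Pt.x, Pt.y, add_zero] at this
    exact hq.sub.mem this

/-- negative coefficients of D0 -/
theorem CP.d0_neg {T : Tr LA} (h : CP T) {q : Oc} (hq : Sp (D1 uL vL T) q) {i j : ℤ} (h0 : co (D0 T) i j < 0) :
    q.mem i j ∧ q.mem (i + 1) (j + 1) := by
  have h2 : 0 < max (-co (D0 T) i j) 0 := lt_max_of_lt_left (by linarith)
  constructor
  · have h1 := h.low (a := 0) (b := 0) (c := 0) (Or.inl ⟨rfl, rfl⟩) (Or.inl rfl) i j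
    rw [sub_zero, sub_zero] at h1
    have h3 := le_max_right (co (D0 T) i j) 0
    exact hq.sub.mem (lt_of_lt_of_le (by linarith) h1)
  · have h1 := h.low (a := 0) (b := 0) (c := 1) (Or.inl ⟨rfl, rfl⟩) (Or.inr rfl) (i + 1) (j + 1)
    rw [add_sub_cancel_right, add_sub_cancel_right] at h1
    have h3 := le_max_right (co (D0 T) (i + 1 - 0) (j + 1 - 0)) 0
    exact hq.sub.mem (lt_of_lt_of_le (by linarith) h1)

theorem CP.sub_d0 {T : Tr LA} (h : CP T) {q : Oc} (hq : Sp (D1 uL vL T) q) : Sub (D0 T) q := by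
  intro i j h1
  rcases lt_or_gt_of_ne h1 with h2 | h2
  · exact (h.d0_neg hq h2).1
  · exact (h.d0_pos hq h2).1

/-- the support of the third difference for v -/
theorem CP.sub_fv {T : Tr LA} (h : CP T) {q : Oc} (hq : Sp (D1 uL vL T) q) {i j : ℤ}
    (h1 : co (Ff uL vL vL T) i j ≠ 0) : q.mem i j ∨ (q.mem i (j - 1) ∧ q.mem (i + 1) j) := by
  by_cases h2 : q.mem i j
  · exact Or.inl h2
  right
  have h3 := co_Ff .v T i j
  simp only [Pt.x, Pt.y, Pt.m_v, sub_zero] at h3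
  have h4 : co (D1 uL vL T) i j = 0 := by
    by_contra hc
    exact h2 ((hq i j).mp hc)
  rw [h4, zero_sub] at h3
  have h5 : co (D0 T) i (j - 1) ≠ 0 := by
    intro h6
    rw [h6] at h3
    exact h1 (by rw [h3, neg_zero])
  rcases lt_or_gt_of_ne h5 with h6 | h6
  · have := h.d0_neg hq h6
    rw [sub_add_cancel] at this
    exact this
  · have := (h.d0_pos hq h6).2.2
    rw [sub_add_cancel] at this
    exact absurd this h2

/-- the support of the third difference for u -/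
theorem CP.sub_fu {T : Tr LA} (h : CP T) {q : Oc} (hq : Sp (D1 uL vL T) q) {i j : ℤ}
    (h1 : co (Ff uL vL uL T) i j ≠ 0) : q.mem i j ∨ (q.mem (i - 1) j ∧ q.mem i (j + 1)) := by
  by_cases h2 : q.mem i j
  · exact Or.inl h2
  right
  have h3 := co_Ff .u T i j
  simp only [Pt.x, Pt.y, Pt.m_u, sub_zero] at h3
  have h4 : co (D1 uL vL T) i j = 0 := by
    by_contra hc
    exact h2 ((hq i j).mp hc)
  rw [h4, zero_sub] at h3
  have h5 : co (D0 T) (i - 1) j ≠ 0 := by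
    intro h6
    rw [h6] at h3
    exact h1 (by rw [h3, neg_zero])
  rcases lt_or_gt_of_ne h5 with h6 | h6
  · have := h.d0_neg hq h6
    rw [sub_add_cancel] at this
    exact this
  · have := (h.d0_pos hq h6).2.1
    rw [sub_add_cancel] at this
    exact absurd this h2

/-- supports of a tangle with parallel strands -/
structure SP (T : Tr LA) (q r : Oc) : Prop where
  h1 : Sp (D1 uL vL T) q
  ha : Sp T.a r
  gq : Oc.Gen q
  gr : Oc.Gen r
  e1 : r.l = q.l
  e2 : r.s = q.s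
  e3 : r.d = q.d
  e4 : r.r ≤ q.r
  e5 : r.t ≤ q.t + 1
  hv : Sub (V1 uL vL T) (q.add Oc.cc)

theorem SP.sub_vu {T : Tr LA} {q r : Oc} (h : CP T) (hT : SP T q r) : Sub (Vu uL vL T) (q.add Oc.cc) := by
  have e : Vu uL vL T = V1 uL vL T - (Ff uL vL vL T - mX 1 0 * Ff uL vL vL T) := by
    have := V1_sub_Vu (u := uL) (v := vL) T
    have h2 : mX 1 0 = uL := rfl
    rw [h2]
    linear_combination -this
  rw [e]
  refine hT.hv.sub' (Sub.sub' (fun i j h1 => ?_) (fun i j h1 => ?_))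
  · have h2 := h.sub_fv hT.h1 h1
    simp only [Oc.mem, Oc.add, Oc.cc] at h2 ⊢
    omega
  · rw [co_mX_mul] at h1
    have h2 := h.sub_fv hT.h1 h1
    simp only [Oc.mem, Oc.add, Oc.cc] at h2 ⊢
    omega

theorem SP.sub_vv {T : Tr LA} {q r : Oc} (h : CP T) (hT : SP T q r) : Sub (Vv uL vL T) (q.add Oc.cc) := by
  have e : Vv uL vL T = V1 uL vL T - (Ff uL vL uL T - mX 0 1 * Ff uL vL uL T) := by
    have := V1_sub_Vv (u := uL) (v := vL) T
    have h2 : mX 0 1 = vL := rfl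
    rw [h2]
    linear_combination -this
  rw [e]
  refine hT.hv.sub' (Sub.sub' (fun i j h1 => ?_) (fun i j h1 => ?_))
  · have h2 := h.sub_fu hT.h1 h1
    simp only [Oc.mem, Oc.add, Oc.cc] at h2 ⊢
    omega
  · rw [co_mX_mul] at h1
    have h2 := h.sub_fu hT.h1 h1
    simp only [Oc.mem, Oc.add, Oc.cc] at h2 ⊢
    omega

/-- X6a. the crossing -/
theorem SP.tz : SP (tz : Tr LA) (Oc.pt 0) (Oc.pt 0) := by
  have e : D1 uL vL (LG3.tz : Tr LA) = 1 := by simp [D1, LG3.tz]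
  refine ⟨?_, Sp.one, Oc.Gen.pt 0, Oc.Gen.pt 0, rfl, rfl, rfl, le_rfl, by simp [Oc.pt], ?_⟩
  · rw [e]
    exact Sp.one
  · have e2 : V1 uL vL (LG3.tz : Tr LA) = 1 := by simp [V1, LG3.tz]
    rw [e2]
    refine Sp.one.sub.mono (fun i j h => ?_)
    simp only [Oc.mem, Oc.pt, Oc.add, Oc.cc] at h ⊢
    omega

theorem mem_cc_iff {i j : ℤ} : Oc.cc.mem i j ↔ (i = 0 ∧ j = 0) ∨ (i = 1 ∧ j = 0) ∨ (i = 0 ∧ j = 1) := by
  simp only [Oc.mem, Oc.cc]
  omega

theorem mem_bb_iff {i j : ℤ} : Oc.bb.mem i j ↔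
    ((i = 0 ∧ j = 0) ∨ (i = 1 ∧ j = 0) ∨ (i = 0 ∧ j = 1)) ∨ (i = 1 ∧ j = 1) := by
  simp only [Oc.mem, Oc.bb]
  omega

theorem mem_dg_iff {i j : ℤ} : Oc.dg.mem i j ↔ (i = 0 ∧ j = 0) ∨ (i = 1 ∧ j = 1) := by
  simp only [Oc.mem, Oc.dg]
  omega

/-- X6b. the support of D1 of vertical products -/
theorem SP.vm_d1 {S T : Tr LA} {q r q' r' : Oc} (cS : CP S) (cT : CP T) (hS : SP S q r) (hT : SP T q' r') :
    Sp (D1 uL vL (vm uL vL S T)) ((q.add q').add Oc.cc) := by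
  refine Sp.mk' ?_ ?_
  · rw [D1_vm_1]
    refine Sub.add (Sub.add ?_ ?_) ?_
    · refine ((hS.sub_vu cS).mul hT.h1.sub).mono (fun i j h => ?_)
      simp only [Oc.mem, Oc.add, Oc.cc] at h ⊢
      omega
    · intro i j h
      obtain ⟨a, b, c, d, h1, h2, e1, e2⟩ := co_mul_ne h
      have h3 := cS.sub_fv hS.h1 h1
      have h4 := cT.sub_fu hT.h1 h2
      rw [← e1, ← e2]
      rcases h3 with h3 | ⟨h3, h3'⟩ <;> rcases h4 with h4 | ⟨h4, h4'⟩ <;>
      · simp only [Oc.mem, Oc.add, Oc.cc] at *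
        omega
    · refine ((hT.sub_vv cT).mul hS.h1.sub).mono (fun i j h => ?_)
      simp only [Oc.mem, Oc.add, Oc.cc] at h ⊢
      omega
  · intro i j hm
    obtain ⟨a, b, h1, h2⟩ := Oc.exists_add (Oc.ok_add hS.gq.ok hT.gq.ok) Oc.Gen.cc' hm
    obtain ⟨a', b', h3, h4⟩ := Oc.exists_add hS.gq.ok hT.gq h1
    rw [mem_cc_iff] at h2
    have p3 := hS.h1.pos cS.d1 h3
    have p4 := hT.h1.pos cT.d1 h4
    obtain ⟨k, k1, k2⟩ : ∃ k : Pt, k.x = i - a ∧ k.y = j - b := by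
      rcases h2 with ⟨h, h'⟩ | ⟨h, h'⟩ | ⟨h, h'⟩
      · exact ⟨.o, h.symm, h'.symm⟩
      · exact ⟨.u, h.symm, h'.symm⟩
      · exact ⟨.v, h.symm, h'.symm⟩
    have := D1_low cS cT k p3 p4
    rw [k1, k2] at this
    have x1 : a' + (a - a') + (i - a) = i := by ring
    have x2 : b' + (b - b') + (j - b) = j := by ring
    rw [x1, x2] at this
    exact this

/-- X6c. the support of the first coordinate of vertical products -/
theorem SP.vm_a {S T : Tr LA} {q r q' r' : Oc} (cS : CP S) (cT : CP T) (hS : SP S q r) (hT : SP T q' r') :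
    Sp (vm uL vL S T).a ((q.add q').add Oc.bb) := by
  have s1 := hS.e1
  have s2 := hS.e2
  have s3 := hS.e3
  have s4 := hS.e4
  have s5 := hS.e5
  have t1 := hT.e1
  have t2 := hT.e2
  have t3 := hT.e3
  have t4 := hT.e4
  have t5 := hT.e5
  refine Sp.mk' ?_ ?_
  · have e : (vm uL vL S T).a = Vu uL vL S * T.a + (Ff uL vL vL S * Ff uL vL uL T +
        mX 1 1 * (Ff uL vL vL S * Ff uL vL uL T)) + Vv uL vL T * S.a := by
      rw [a_vm_1, ← uv_eq]
      ring
    rw [e]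
    refine Sub.add (Sub.add ?_ (Sub.add ?_ ?_)) ?_
    · refine ((hS.sub_vu cS).mul hT.ha.sub).mono (fun i j h => ?_)
      simp only [Oc.mem, Oc.add, Oc.cc, Oc.bb] at h ⊢
      omega
    · intro i j h
      obtain ⟨a, b, c, d, h1, h2, e1, e2⟩ := co_mul_ne h
      have h3 := cS.sub_fv hS.h1 h1
      have h4 := cT.sub_fu hT.h1 h2
      rw [← e1, ← e2]
      rcases h3 with h3 | ⟨h3, h3'⟩ <;> rcases h4 with h4 | ⟨h4, h4'⟩ <;>
      · simp only [Oc.mem, Oc.add, Oc.bb] at *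
        omega
    · intro i j h
      rw [co_mX_mul] at h
      obtain ⟨a, b, c, d, h1, h2, e1, e2⟩ := co_mul_ne h
      have h3 := cS.sub_fv hS.h1 h1
      have h4 := cT.sub_fu hT.h1 h2
      rcases h3 with h3 | ⟨h3, h3'⟩ <;> rcases h4 with h4 | ⟨h4, h4'⟩ <;>
      · simp only [Oc.mem, Oc.add, Oc.bb] at *
        omega
    · refine ((hT.sub_vv cT).mul hS.ha.sub).mono (fun i j h => ?_)
      simp only [Oc.mem, Oc.add, Oc.cc, Oc.bb] at h ⊢
      omega
  · intro i j hm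
    obtain ⟨a, b, h1, h2⟩ := Oc.exists_add (Oc.ok_add hS.gq.ok hT.gq.ok) Oc.Gen.bb' hm
    obtain ⟨a', b', h3, h4⟩ := Oc.exists_add hS.gq.ok hT.gq h1
    rw [mem_bb_iff] at h2
    have p3 := hS.h1.pos cS.d1 h3
    have p4 := hT.h1.pos cT.d1 h4
    have := a_low cS cT h2 p3 p4
    have x1 : a' + (a - a') + (i - a) = i := by ring
    have x2 : b' + (b - b') + (j - b) = j := by ring
    rw [x1, x2] at this
    exact this

theorem SP.vm {S T : Tr LA} {q r q' r' : Oc} (cS : CP S) (cT : CP T) (hS : SP S q r) (hT : SP T q' r') :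
    SP (vm uL vL S T) ((q.add q').add Oc.cc) ((q.add q').add Oc.bb) := by
  refine ⟨hS.vm_d1 cS cT hT, hS.vm_a cS cT hT, (hS.gq.add hT.gq).cc, (hS.gq.add hT.gq).bb, rfl, rfl, rfl,
    le_rfl, ?_, ?_⟩
  · simp only [Oc.add, Oc.bb, Oc.cc]
    omega
  · rw [V1_vm]
    refine (hS.hv.mul hT.hv).mono (fun i j h => ?_)
    simp only [Oc.mem, Oc.add, Oc.cc] at h ⊢
    omega

end LG3
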