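import Pool.Agent.Lib.MP_3cd99b_gt.X6

/-! Supports: tangles with antiparallel strands. -/

open Finset

namespace LG3

/-- supports, first type -/
structure SV (S : Tr LA) (ob oa : Oc) : Prop where
  hb : Sp S.b ob
  ha : Sp S.a oa
  hc : Sp S.c (ob.add Oc.bb)
  gb : Oc.Gen ob
  ga : Oc.Gen oa
  e1 : oa.l = ob.l
  e2 : oa.s = ob.s
  e3 : oa.d = ob.d
  e4 : oa.r ≤ ob.r + 1
  e5 : oa.t ≤ ob.t + 2

/-- supports, second type -/
structure SH (S : Tr LA) (ob oc : Oc) : Prop where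
  hb : Sp S.b ob
  ha : Sp S.a (ob.add Oc.bb)
  hc : Sp S.c oc
  gb : Oc.Gen ob
  gc : Oc.Gen oc
  e1 : ob.l ≤ oc.l
  e2 : ob.s ≤ oc.s
  e3 : oc.d = ob.d
  e4 : oc.r = ob.r + 1
  e5 : oc.t = ob.t + 2

theorem hm_comm (S T : Tr LA) : hm uL vL S T = hm uL vL T S := by
  ext1 <;> simp only [hm] <;> ring

theorem Oc.add_bb_add (a b : Oc) : (a.add Oc.bb).add (b.add Oc.bb) = ((a.add b).add Oc.bb).add Oc.bb := by
  ext <;> simp only [Oc.add, Oc.bb] <;> ring

/-- De of an antiparallel tangle -/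
theorem CA.co_De {S : Tr LA} (i j : ℤ) : co (De uL vL S) i j = co S.a i j + co S.b (i - 1) (j - 1) - co S.b i j := by
  have e : De uL vL S = S.a + mX 1 1 * S.b - S.b := by
    rw [De, ← uv_eq]
    ring
  rw [e, co_sub, co_add, co_mX_mul]

theorem CA.sub_De {S : Tr LA} (h : CA S) {o oa ob : Oc} (ha : Sub S.a oa) (hb : Sub S.b ob)
    (h1 : ∀ i j, oa.mem i j → o.mem i j) (h2 : ∀ i j, ob.mem (i - 1) (j - 1) → o.mem i j) : Sub (De uL vL S) o := by
  intro i j hne
  have h3 : 0 < co (De uL vL S) i j := lt_of_le_of_ne (h.d i j) (Ne.symm hne)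
  rw [CA.co_De] at h3
  have h4 := h.b i j
  by_cases h5 : co S.a i j = 0
  · refine h2 i j (hb _ _ ?_)
    intro h6
    rw [h5, h6] at h3
    linarith
  · exact h1 i j (ha _ _ h5)

theorem CA.sub_Ee {S : Tr LA} (h : CA S) {o : Oc} (hc : Sub S.c o) (hb : Sub S.b o) : Sub (Ee uL vL S) o := by
  intro i j hne
  have h3 : 0 < co (Ee uL vL S) i j := lt_of_le_of_ne (h.e i j) (Ne.symm hne)
  have e : Ee uL vL S = S.c + S.b - mX 1 1 * S.b := by
    rw [Ee, ← uv_eq]
    ring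
  rw [e, co_sub, co_add, co_mX_mul] at h3
  have h4 := h.b (i - 1) (j - 1)
  by_cases h5 : co S.c i j = 0
  · refine hb _ _ ?_
    intro h6
    rw [h5, h6] at h3
    linarith
  · exact hc _ _ h5

theorem CP.sub_De {T : Tr LA} (h : CP T) {q : Oc} (hq : Sp (D1 uL vL T) q) : Sub (De uL vL T) q := by
  rw [De_eq]
  exact hq.sub.add (h.sub_d0 hq)

/-- if De vanishes at a point of the support of D1 the next point is in the support -/
theorem CP.next {T : Tr LA} (h : CP T) {i j : ℤ} (h1 : 0 < co (D1 uL vL T) i j) (h2 : co (De uL vL T) i j = 0) :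
    0 < co (D1 uL vL T) (i + 1) (j + 1) := by
  rw [De_eq, co_add] at h2
  have h3 : co (D0 T) i j < 0 := by linarith
  have h4 : 0 < max (-co (D0 T) i j) 0 := lt_max_of_lt_left (by linarith)
  have h5 := h.low (a := 0) (b := 0) (c := 1) (Or.inl ⟨rfl, rfl⟩) (Or.inr rfl) (i + 1) (j + 1)
  rw [add_sub_cancel_right, add_sub_cancel_right] at h5
  have h6 := le_max_right (co (D0 T) (i + 1 - 0) (j + 1 - 0)) 0
  linarith

/-- the support of D1 of the product with a tangle of the first type -/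
theorem SV.hm_d1 {S T : Tr LA} {ob oa q r : Oc} (cS : CA S) (cT : CP T) (hS : SV S ob oa) (hT : SP T q r) :
    Sp (D1 uL vL (hm uL vL S T)) ((ob.add Oc.dg).add q) := by
  have s1 := hS.e1
  have s2 := hS.e2
  have s3 := hS.e3
  have s4 := hS.e4
  have s5 := hS.e5
  refine Sp.mk' ?_ ?_
  · rw [D1_hm, uv_eq]
    refine Sub.add ?_ ?_
    · refine (hS.ha.sub.mul hT.h1.sub).mono (fun i j h => ?_)
      simp only [Oc.mem, Oc.add, Oc.dg] at h ⊢
      omega
    · refine Sub.mX_mul (hS.hb.sub.mul (cT.sub_De hT.h1)) (fun i j h => ?_)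
      simp only [Oc.mem, Oc.add, Oc.dg] at h ⊢
      omega
  · intro i j hm
    by_contra hW
    rw [not_lt] at hW
    -- lower bounds
    have k1 : ∀ a b : ℤ, 0 < co S.a a b → ¬ 0 < co (D1 uL vL T) (i - a) (j - b) := by
      intro a b h1 h2
      have h3 := co_mul_pos cS.a cT.d1 h1 h2
      rw [add_sub_cancel, add_sub_cancel] at h3
      have h4 : co (S.a * D1 uL vL T) i j ≤ co (D1 uL vL (LG3.hm uL vL S T)) i j := by
        refine co_le_of_pos ((pos_uv.mul (cS.b.mul cT.de)).of_eq ?_) i j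
        rw [D1_hm]
        ring
      linarith
    have k2 : ∀ a b : ℤ, 0 < co S.b a b → ¬ 0 < co (De uL vL T) (i - 1 - a) (j - 1 - b) := by
      intro a b h1 h2
      have h3 := co_mul_pos cS.b cT.de h1 h2
      rw [add_sub_cancel, add_sub_cancel] at h3
      have h4 : co (mX 1 1 * (S.b * De uL vL T)) i j ≤ co (D1 uL vL (LG3.hm uL vL S T)) i j := by
        refine co_le_of_pos ((cS.a.mul cT.d1).of_eq ?_) i j
        rw [D1_hm, ← uv_eq]
        ring
      rw [co_mX_mul] at h4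
      linarith
    -- descent
    have key : ∀ a b, ¬ (ob.mem a b ∧ q.mem (i - a) (j - b)) := by
      refine no_descent S.b (fun a _ => a) _ (fun a b h => (hS.hb a b).mpr h.1) ?_
      rintro a b ⟨h1, h2⟩
      have h3 : ¬ oa.mem a b := fun h3 => k1 a b (hS.ha.pos cS.a h3) (hT.h1.pos cT.d1 h2)
      have h4 := Oc.line hS.ga.ok s1 s2 s3 h1 h3
      refine ⟨a - 1, b - 1, ⟨h4, ?_⟩, by linarith⟩
      have h5 := k2 (a - 1) (b - 1) (hS.hb.pos cS.b h4)
      have e1 : i - 1 - (a - 1) = i - a := by ring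
      have e2 : j - 1 - (b - 1) = j - b := by ring
      rw [e1, e2] at h5
      have h6 : co (De uL vL T) (i - a) (j - b) = 0 := le_antisymm (not_lt.mp h5) (cT.de _ _)
      have h7 := cT.next (hT.h1.pos cT.d1 h2) h6
      have e3 : i - (a - 1) = i - a + 1 := by ring
      have e4 : j - (b - 1) = j - b + 1 := by ring
      rw [e3, e4]
      exact hT.h1.sub.mem h7
    obtain ⟨a, b, h1, h2⟩ := Oc.exists_add (Oc.ok_add hS.gb.ok Oc.ok_dg) hT.gq hm
    rcases Oc.mem_dg hS.gb.ok h1 with h3 | h3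
    · exact key a b ⟨h3, h2⟩
    · have h5 := k2 (a - 1) (b - 1) (hS.hb.pos cS.b h3)
      have e1 : i - 1 - (a - 1) = i - a := by ring
      have e2 : j - 1 - (b - 1) = j - b := by ring
      rw [e1, e2] at h5
      have h6 : co (De uL vL T) (i - a) (j - b) = 0 := le_antisymm (not_lt.mp h5) (cT.de _ _)
      have h7 := cT.next (hT.h1.pos cT.d1 h2) h6
      refine key (a - 1) (b - 1) ⟨h3, ?_⟩
      have e3 : i - (a - 1) = i - a + 1 := by ring
      have e4 : j - (b - 1) = j - b + 1 := by ring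
      rw [e3, e4]
      exact hT.h1.sub.mem h7

/-- the support of V1 of a product -/
theorem sub_V1_hm {S T : Tr LA} {ob os q r : Oc} (cT : CP T) (hb : Sub S.b ob) (hT : SP T q r)
    (ha : Sub S.a os) (he : Sub (Ee uL vL S) (ob.add Oc.bb)) {o : Oc} (ho1 : ∀ i j, ((os.add q).add Oc.cc).mem i j → o.mem i j)
    (ho2 : ∀ i j, (((ob.add Oc.dg).add q).add Oc.cc).mem i j → o.mem i j) : Sub (V1 uL vL (hm uL vL S T)) o := by
  have s1 := hT.e1
  have s2 := hT.e2
  have s3 := hT.e3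
  have s4 := hT.e4
  have s5 := hT.e5
  have hd := cT.sub_d0 hT.h1
  have hq := hT.h1.sub
  have e : V1 uL vL (hm uL vL S T) = S.a * V1 uL vL T + Ee uL vL S * T.a +
      S.b * ((mX 1 0 * D1 uL vL T + mX 1 1 * D1 uL vL T - (mX 1 1 * D0 T + mX 1 2 * D0 T)) +
        (mX 0 1 * D1 uL vL T + mX 1 1 * D1 uL vL T - (mX 1 1 * D0 T + mX 2 1 * D0 T))) := by
    have a1 : mX 1 2 = uL * vL * vL := by
      rw [uv_eq]
      exact (mX_mul 1 1 0 1).symm
    have a2 : mX 2 1 = uL * vL * uL := by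
      rw [uv_eq]
      exact (mX_mul 1 1 1 0).symm
    have a3 : mX 1 0 = uL := rfl
    have a4 : mX 0 1 = vL := rfl
    rw [V1_hm, a1, a2, a3, a4, ← uv_eq, Ff, Ff]
    ring
  rw [e]
  refine Sub.add (Sub.add ?_ ?_) ?_
  · refine (ha.mul hT.hv).mono (fun i j h => ho1 i j ?_)
    simp only [Oc.mem, Oc.add, Oc.cc] at h ⊢
    omega
  · refine (he.mul hT.ha.sub).mono (fun i j h => ho2 i j ?_)
    simp only [Oc.mem, Oc.add, Oc.cc, Oc.dg, Oc.bb] at h ⊢
    omega
  · have hs : Sub ((mX 1 0 * D1 uL vL T + mX 1 1 * D1 uL vL T - (mX 1 1 * D0 T + mX 1 2 * D0 T)) +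
        (mX 0 1 * D1 uL vL T + mX 1 1 * D1 uL vL T - (mX 1 1 * D0 T + mX 2 1 * D0 T))) ((q.add Oc.dg).add Oc.cc) := by
      refine Sub.add (Sub.sub' (Sub.add ?_ ?_) (Sub.add ?_ ?_)) (Sub.sub' (Sub.add ?_ ?_) (Sub.add ?_ ?_))
      · exact Sub.mX_mul hq (fun i j h => by simp only [Oc.mem, Oc.add, Oc.cc, Oc.dg] at h ⊢; omega)
      · exact Sub.mX_mul hq (fun i j h => by simp only [Oc.mem, Oc.add, Oc.cc, Oc.dg] at h ⊢; omega)
      · exact Sub.mX_mul hd (fun i j h => by simp only [Oc.mem, Oc.add, Oc.cc, Oc.dg] at h ⊢; omega)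
      · exact Sub.mX_mul hd (fun i j h => by simp only [Oc.mem, Oc.add, Oc.cc, Oc.dg] at h ⊢; omega)
      · exact Sub.mX_mul hq (fun i j h => by simp only [Oc.mem, Oc.add, Oc.cc, Oc.dg] at h ⊢; omega)
      · exact Sub.mX_mul hq (fun i j h => by simp only [Oc.mem, Oc.add, Oc.cc, Oc.dg] at h ⊢; omega)
      · exact Sub.mX_mul hd (fun i j h => by simp only [Oc.mem, Oc.add, Oc.cc, Oc.dg] at h ⊢; omega)
      · exact Sub.mX_mul hd (fun i j h => by simp only [Oc.mem, Oc.add, Oc.cc, Oc.dg] at h ⊢; omega)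
    refine (hb.mul hs).mono (fun i j h => ho2 i j ?_)
    simp only [Oc.mem, Oc.add, Oc.cc, Oc.dg] at h ⊢
    omega

/-- X7a. products of the first type with parallel tangles -/
theorem SV.hm {S T : Tr LA} {ob oa q r : Oc} (cS : CA S) (cT : CP T) (hS : SV S ob oa) (hT : SP T q r) :
    SP (hm uL vL S T) ((ob.add Oc.dg).add q) (oa.add r) := by
  have s1 := hS.e1
  have s2 := hS.e2
  have s3 := hS.e3
  have s4 := hS.e4
  have s5 := hS.e5
  have t1 := hT.e1
  have t2 := hT.e2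
  have t3 := hT.e3
  have t4 := hT.e4
  have t5 := hT.e5
  refine ⟨hS.hm_d1 cS cT hT, ?_, hS.gb.dg.add hT.gq, hS.ga.add hT.gr, ?_, ?_, ?_, ?_, ?_, ?_⟩
  · rw [a_hm]
    exact hS.ha.mul hT.ha cS.a cT.aa hS.ga.ok hT.gr
  · simp only [Oc.add, Oc.dg]
    omega
  · simp only [Oc.add, Oc.dg]
    omega
  · simp only [Oc.add, Oc.dg]
    omega
  · simp only [Oc.add, Oc.dg]
    omega
  · simp only [Oc.add, Oc.dg]
    omega
  · refine sub_V1_hm (os := oa) cT hS.hb.sub hT hS.ha.sub (cS.sub_Ee hS.hc.sub ?_)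
      (fun i j h => ?_) (fun i j h => h)
    · refine hS.hb.sub.mono (fun i j h => ?_)
      simp only [Oc.mem, Oc.add, Oc.bb] at h ⊢
      omega
    · simp only [Oc.mem, Oc.add, Oc.dg, Oc.cc] at h ⊢
      omega

/-- X7b. products of the second type with parallel tangles -/
theorem SH.hm {S T : Tr LA} {ob oc q r : Oc} (cS : CA S) (cT : CP T) (hS : SH S ob oc) (hT : SP T q r) :
    SP (hm uL vL S T) ((ob.add Oc.bb).add q) ((ob.add Oc.bb).add r) := by
  have s1 := hS.e1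
  have s2 := hS.e2
  have s3 := hS.e3
  have s4 := hS.e4
  have s5 := hS.e5
  have t1 := hT.e1
  have t2 := hT.e2
  have t3 := hT.e3
  have t4 := hT.e4
  have t5 := hT.e5
  refine ⟨?_, ?_, hS.gb.bb.add hT.gq, hS.gb.bb.add hT.gr, ?_, ?_, ?_, ?_, ?_, ?_⟩
  · refine Sp.mk' ?_ ?_
    · rw [D1_hm, uv_eq]
      refine Sub.add (hS.ha.sub.mul hT.h1.sub) ?_
      refine Sub.mX_mul (hS.hb.sub.mul (cT.sub_De hT.h1)) (fun i j h => ?_)
      simp only [Oc.mem, Oc.add, Oc.bb] at h ⊢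
      omega
    · intro i j hm
      have h1 := (hS.ha.mul hT.h1 cS.a cT.d1 hS.gb.bb.ok hT.gq).pos (cS.a.mul cT.d1) hm
      refine lt_of_lt_of_le h1 (co_le_of_pos ((pos_uv.mul (cS.b.mul cT.de)).of_eq ?_) i j)
      rw [D1_hm]
      ring
  · rw [a_hm]
    exact hS.ha.mul hT.ha cS.a cT.aa hS.gb.bb.ok hT.gr
  · simp only [Oc.add, Oc.bb]
    omega
  · simp only [Oc.add, Oc.bb]
    omega
  · simp only [Oc.add, Oc.bb]
    omega
  · simp only [Oc.add, Oc.bb]
    omega
  · simp only [Oc.add, Oc.bb]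
    omega
  · refine sub_V1_hm (os := ob.add Oc.bb) cT hS.hb.sub hT hS.ha.sub (cS.sub_Ee ?_ ?_)
      (fun i j h => h) (fun i j h => ?_)
    · refine hS.hc.sub.mono (fun i j h => ?_)
      simp only [Oc.mem, Oc.add, Oc.bb] at h ⊢
      omega
    · refine hS.hb.sub.mono (fun i j h => ?_)
      simp only [Oc.mem, Oc.add, Oc.bb] at h ⊢
      omega
    · simp only [Oc.mem, Oc.add, Oc.dg, Oc.bb, Oc.cc] at h ⊢
      omega

/-- X7c. compositions -/
theorem SP.cp {S T : Tr LA} {q r q' r' : Oc} (cS : CP S) (cT : CP T) (hS : SP S q r) (hT : SP T q' r') :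
    SV (cp uL vL S T) (q.add q') (r.add r') := by
  have s1 := hS.e1
  have s2 := hS.e2
  have s3 := hS.e3
  have s4 := hS.e4
  have s5 := hS.e5
  have t1 := hT.e1
  have t2 := hT.e2
  have t3 := hT.e3
  have t4 := hT.e4
  have t5 := hT.e5
  refine ⟨?_, ?_, ?_, hS.gq.add hT.gq, hS.gr.add hT.gr, ?_, ?_, ?_, ?_, ?_⟩
  · refine Sp.mk' ?_ ?_
    · rw [b_cp, uv_eq]
      refine Sub.sub' (hS.h1.sub.mul hT.h1.sub) (fun i j h => ?_)
      rw [co_mX_mul] at h
      obtain ⟨a, b, c, d, h1, h2, e1, e2⟩ := co_mul_ne h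
      rcases lt_or_gt_of_ne h1 with h3 | h3
      · have h5 := cS.d0_neg hS.h1 h3
        have h6 := cT.sub_d0 hT.h1 _ _ h2
        simp only [Oc.mem, Oc.add] at *
        omega
      · have h5 := cS.d0_pos hS.h1 h3
        rcases lt_or_gt_of_ne h2 with h4 | h4
        · have h6 := cT.d0_neg hT.h1 h4
          simp only [Oc.mem, Oc.add] at *
          omega
        · have h6 := cT.d0_pos hT.h1 h4
          simp only [Oc.mem, Oc.add] at *
          omega
    · intro i j hm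
      obtain ⟨a, b, h1, h2⟩ := Oc.exists_add hS.gq.ok hT.gq hm
      have h3 := beta_low cS cT (hS.h1.pos cS.d1 h1) (hT.h1.pos cT.d1 h2)
      rw [add_sub_cancel, add_sub_cancel] at h3
      exact h3
  · rw [a_cp]
    exact hS.ha.mul hT.ha cS.aa cT.aa hS.gr.ok hT.gr
  · rw [c_cp]
    exact hS.vm_a cS cT hT
  · simp only [Oc.add]
    omega
  · simp only [Oc.add]
    omega
  · simp only [Oc.add]
    omega
  · simp only [Oc.add]
    omega
  · simp only [Oc.add]
    omega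

/-- the support of b of a product of two tangles of the first type -/
theorem SV.vv_b {S T : Tr LA} {ob oa ob' oa' : Oc} (cS : CA S) (cT : CA T) (hS : SV S ob oa) (hT : SV T ob' oa') :
    Sp (LG3.hm uL vL S T).b ((ob.add ob').add Oc.dg) := by
  have s1 := hS.e1
  have s2 := hS.e2
  have s3 := hS.e3
  have s4 := hS.e4
  have s5 := hS.e5
  have t1 := hT.e1
  have t2 := hT.e2
  have t3 := hT.e3
  have t4 := hT.e4
  have t5 := hT.e5
  refine Sp.mk' ?_ ?_
  · rw [b_hm]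
    refine Sub.add ?_ ?_
    · refine ((cS.sub_De (o := ob.add Oc.dg) hS.ha.sub hS.hb.sub (fun i j h => ?_) (fun i j h => ?_)).mul
        hT.hb.sub).mono (fun i j h => ?_)
      · simp only [Oc.mem, Oc.add, Oc.dg] at h ⊢
        omega
      · simp only [Oc.mem, Oc.add, Oc.dg] at h ⊢
        omega
      · simp only [Oc.mem, Oc.add, Oc.dg] at h ⊢
        omega
    · refine (hS.hb.sub.mul hT.ha.sub).mono (fun i j h => ?_)
      simp only [Oc.mem, Oc.add, Oc.dg] at h ⊢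
      omega
  · intro i j hm
    by_contra hW
    rw [not_lt] at hW
    have k1 : ∀ a b : ℤ, 0 < co S.b (i - a) (j - b) → ¬ 0 < co T.a a b := by
      intro a b h1 h2
      have h3 := co_mul_pos cS.b cT.a h1 h2
      rw [sub_add_cancel, sub_add_cancel] at h3
      have h4 : co (S.b * T.a) i j ≤ co (LG3.hm uL vL S T).b i j := by
        refine co_le_of_pos ((cS.d.mul cT.b).of_eq ?_) i j
        rw [b_hm]
        ring
      linarith
    have k2 : ∀ a b : ℤ, 0 < co (De uL vL S) (i - a) (j - b) → ¬ 0 < co T.b a b := by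
      intro a b h1 h2
      have h3 := co_mul_pos cS.d cT.b h1 h2
      rw [sub_add_cancel, sub_add_cancel] at h3
      have h4 : co (De uL vL S * T.b) i j ≤ co (LG3.hm uL vL S T).b i j := by
        refine co_le_of_pos ((cS.b.mul cT.a).of_eq ?_) i j
        rw [b_hm]
        ring
      linarith
    -- second step
    have k3 : ∀ a b : ℤ, ob'.mem a b → ob.mem (i - 1 - a) (j - 1 - b) → ob.mem (i - a) (j - b) := by
      intro a b h1 h2
      have h3 := k2 a b
      have h4 : co (De uL vL S) (i - a) (j - b) ≤ 0 := by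
        by_contra hc
        exact h3 (not_le.mp hc) (hT.hb.pos cT.b h1)
      rw [CA.co_De] at h4
      have h5 := cS.a (i - a) (j - b)
      have e1 : i - a - 1 = i - 1 - a := by ring
      have e2 : j - b - 1 = j - 1 - b := by ring
      rw [e1, e2] at h4
      have h6 := hS.hb.pos cS.b h2
      exact hS.hb.sub.mem (by linarith)
    have key : ∀ a b, ¬ (ob'.mem a b ∧ ob.mem (i - a) (j - b)) := by
      refine no_descent T.b (fun a _ => a) _ (fun a b h => (hT.hb a b).mpr h.1) ?_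
      rintro a b ⟨h1, h2⟩
      have h3 : ¬ oa'.mem a b := fun h3 => k1 a b (hS.hb.pos cS.b h2) (hT.ha.pos cT.a h3)
      have h4 := Oc.line hT.ga.ok t1 t2 t3 h1 h3
      refine ⟨a - 1, b - 1, ⟨h4, k3 (a - 1) (b - 1) h4 ?_⟩, by linarith⟩
      have e1 : i - 1 - (a - 1) = i - a := by ring
      have e2 : j - 1 - (b - 1) = j - b := by ring
      rw [e1, e2]
      exact h2
    obtain ⟨a, b, h1, h2⟩ := Oc.exists_add (Oc.ok_add hS.gb.ok hT.gb.ok) Oc.Gen.dg' hm
    obtain ⟨a', b', h3, h4⟩ := Oc.exists_add hS.gb.ok hT.gb h1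
    rw [mem_dg_iff] at h2
    rcases h2 with ⟨x1, x2⟩ | ⟨x1, x2⟩
    · refine key (a - a') (b - b') ⟨h4, ?_⟩
      have e1 : i - (a - a') = a' := by linarith
      have e2 : j - (b - b') = b' := by linarith
      rw [e1, e2]
      exact h3
    · refine key (a - a') (b - b') ⟨h4, k3 _ _ h4 ?_⟩
      have e1 : i - 1 - (a - a') = a' := by linarith
      have e2 : j - 1 - (b - b') = b' := by linarith
      rw [e1, e2]
      exact h3

/-- the last term of c of a product -/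
theorem sp_last {S T : Tr LA} {ob ob' : Oc} (cS : CA S) (cT : CA T) (h : Sp S.b ob) (h' : Sp T.b ob')
    (g : Oc.Gen ob) (g' : Oc.Gen ob') :
    Sp ((1 + uL * vL) * Bq uL vL * (S.b * T.b)) ((Oc.dg.add Oc.bb).add (ob.add ob')) := by
  have h1 : Sp (1 + uL * vL) Oc.dg := by
    intro i j
    rw [uv_eq, ← mX_zero, co_add, co_mX, co_mX, mem_dg_iff]
    split_ifs with h1 h2 h2
    · omega
    · simp only [add_zero, ne_eq, one_ne_zero, not_false_eq_true, true_iff]
      exact Or.inl h1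
    · simp only [zero_add, ne_eq, one_ne_zero, not_false_eq_true, true_iff]
      exact Or.inr h2
    · simp only [add_zero, ne_eq, not_true_eq_false, false_iff]
      omega
  have h2 : Sp (Bq uL vL) Oc.bb := by
    have e : Bq uL vL = mX 0 0 + mX 1 0 + mX 0 1 + mX 1 1 := by
      rw [Bq, ← uv_eq, mX_zero]
      show _ = 1 + uL + vL + uL * vL
      ring
    intro i j
    rw [e, co_add, co_add, co_add, co_mX, co_mX, co_mX, co_mX, mem_bb_iff]
    split_ifs <;> omega
  have p1 : Pos (1 + uL * vL) := Pos.one.add pos_uv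
  exact (h1.mul h2 p1 pos_B Oc.ok_dg Oc.Gen.bb').mul (h.mul h' cS.b cT.b g.ok g') (p1.mul pos_B) (cS.b.mul cT.b)
    (Oc.ok_add Oc.ok_dg Oc.ok_bb) (g.add g')

/-- X7d. products of two tangles of the first type -/
theorem SV.vv {S T : Tr LA} {ob oa ob' oa' : Oc} (cS : CA S) (cT : CA T) (hS : SV S ob oa) (hT : SV T ob' oa') :
    SV (LG3.hm uL vL S T) ((ob.add ob').add Oc.dg) (oa.add oa') := by
  have s1 := hS.e1
  have s2 := hS.e2
  have s3 := hS.e3
  have s4 := hS.e4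
  have s5 := hS.e5
  have t1 := hT.e1
  have t2 := hT.e2
  have t3 := hT.e3
  have t4 := hT.e4
  have t5 := hT.e5
  refine ⟨hS.vv_b cS cT hT, ?_, ?_, (hS.gb.add hT.gb).dg, hS.ga.add hT.ga, ?_, ?_, ?_, ?_, ?_⟩
  · rw [a_hm]
    exact hS.ha.mul hT.ha cS.a cT.a hS.ga.ok hT.ga
  · have hl := sp_last cS cT hS.hb hT.hb hS.gb hT.gb
    have pl : Pos ((1 + uL * vL) * Bq uL vL * (S.b * T.b)) :=
      ((Pos.one.add pos_uv).mul pos_B).mul (cS.b.mul cT.b)
    refine Sp.mk' ?_ ?_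
    · rw [c_hm]
      refine Sub.add (Sub.add ?_ ?_) (hl.sub.mono (fun i j h => ?_))
      · refine (hS.ha.sub.mul hT.hc.sub).mono (fun i j h => ?_)
        simp only [Oc.mem, Oc.add, Oc.dg, Oc.bb] at h ⊢
        omega
      · refine (hS.hc.sub.mul hT.ha.sub).mono (fun i j h => ?_)
        simp only [Oc.mem, Oc.add, Oc.dg, Oc.bb] at h ⊢
        omega
      · simp only [Oc.mem, Oc.add, Oc.dg, Oc.bb] at h ⊢
        omega
    · intro i j hm
      have h1 := hl.pos pl (i := i) (j := j) (by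
        simp only [Oc.mem, Oc.add, Oc.dg, Oc.bb] at hm ⊢
        omega)
      refine lt_of_lt_of_le h1 (co_le_of_pos (((cS.a.mul cT.c).add (cS.c.mul cT.a)).of_eq ?_) i j)
      rw [c_hm]
      ring
  · simp only [Oc.add, Oc.dg]
    omega
  · simp only [Oc.add, Oc.dg]
    omega
  · simp only [Oc.add, Oc.dg]
    omega
  · simp only [Oc.add, Oc.dg]
    omega
  · simp only [Oc.add, Oc.dg]
    omega

/-- X7e. products of the two types -/
theorem SV.vh {S T : Tr LA} {ob oa ob' oc' : Oc} (cS : CA S) (cT : CA T) (hS : SV S ob oa) (hT : SH T ob' oc') :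
    SV (LG3.hm uL vL S T) (ob.add (ob'.add Oc.bb)) (oa.add (ob'.add Oc.bb)) := by
  have s1 := hS.e1
  have s2 := hS.e2
  have s3 := hS.e3
  have s4 := hS.e4
  have s5 := hS.e5
  have t1 := hT.e1
  have t2 := hT.e2
  have t3 := hT.e3
  have t4 := hT.e4
  have t5 := hT.e5
  refine ⟨?_, ?_, ?_, hS.gb.add hT.gb.bb, hS.ga.add hT.gb.bb, ?_, ?_, ?_, ?_, ?_⟩
  · refine Sp.mk' ?_ ?_
    · rw [b_hm]
      refine Sub.add ?_ (hS.hb.sub.mul hT.ha.sub)
      refine ((cS.sub_De (o := ob.add Oc.dg) hS.ha.sub hS.hb.sub (fun i j h => ?_) (fun i j h => ?_)).mul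
        hT.hb.sub).mono (fun i j h => ?_)
      · simp only [Oc.mem, Oc.add, Oc.dg] at h ⊢
        omega
      · simp only [Oc.mem, Oc.add, Oc.dg] at h ⊢
        omega
      · simp only [Oc.mem, Oc.add, Oc.dg, Oc.bb] at h ⊢
        omega
    · intro i j hm
      have h1 := (hS.hb.mul hT.ha cS.b cT.a hS.gb.ok hT.gb.bb).pos (cS.b.mul cT.a) hm
      refine lt_of_lt_of_le h1 (co_le_of_pos ((cS.d.mul cT.b).of_eq ?_) i j)
      rw [b_hm]
      ring
  · rw [a_hm]
    exact hS.ha.mul hT.ha cS.a cT.a hS.ga.ok hT.gb.bb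
  · have hl := sp_last cS cT hS.hb hT.hb hS.gb hT.gb
    have pl : Pos ((1 + uL * vL) * Bq uL vL * (S.b * T.b)) :=
      ((Pos.one.add pos_uv).mul pos_B).mul (cS.b.mul cT.b)
    refine Sp.mk' ?_ ?_
    · rw [c_hm]
      refine Sub.add (Sub.add ?_ ?_) (hl.sub.mono (fun i j h => ?_))
      · refine (hS.ha.sub.mul hT.hc.sub).mono (fun i j h => ?_)
        simp only [Oc.mem, Oc.add, Oc.bb] at h ⊢
        omega
      · refine (hS.hc.sub.mul hT.ha.sub).mono (fun i j h => ?_)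
        simp only [Oc.mem, Oc.add, Oc.bb] at h ⊢
        omega
      · simp only [Oc.mem, Oc.add, Oc.dg, Oc.bb] at h ⊢
        omega
    · intro i j hm
      have h1 := (hS.hc.mul hT.ha cS.c cT.a hS.gb.bb.ok hT.gb.bb).pos (cS.c.mul cT.a) (i := i) (j := j) (by
        simp only [Oc.mem, Oc.add, Oc.bb] at hm ⊢
        omega)
      refine lt_of_lt_of_le h1 (co_le_of_pos (((cS.a.mul cT.c).add pl).of_eq ?_) i j)
      rw [c_hm]
      ring
  · simp only [Oc.add, Oc.bb]
    omega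
  · simp only [Oc.add, Oc.bb]
    omega
  · simp only [Oc.add, Oc.bb]
    omega
  · simp only [Oc.add, Oc.bb]
    omega
  · simp only [Oc.add, Oc.bb]
    omega

/-- X7f. products of two tangles of the second type -/
theorem SH.hh {S T : Tr LA} {ob oc ob' oc' : Oc} (cS : CA S) (cT : CA T) (hS : SH S ob oc) (hT : SH T ob' oc') :
    SH (LG3.hm uL vL S T) (ob.add (ob'.add Oc.bb)) ((ob.add (ob'.add Oc.bb)).add Oc.dg) := by
  have s1 := hS.e1
  have s2 := hS.e2
  have s3 := hS.e3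
  have s4 := hS.e4
  have s5 := hS.e5
  have t1 := hT.e1
  have t2 := hT.e2
  have t3 := hT.e3
  have t4 := hT.e4
  have t5 := hT.e5
  refine ⟨?_, ?_, ?_, hS.gb.add hT.gb.bb, (hS.gb.add hT.gb.bb).dg, ?_, ?_, ?_, ?_, ?_⟩
  · refine Sp.mk' ?_ ?_
    · rw [b_hm]
      refine Sub.add ?_ (hS.hb.sub.mul hT.ha.sub)
      refine ((cS.sub_De (o := ob.add Oc.bb) hS.ha.sub hS.hb.sub (fun i j h => h) (fun i j h => ?_)).mul
        hT.hb.sub).mono (fun i j h => ?_)
      · simp only [Oc.mem, Oc.add, Oc.bb] at h ⊢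
        omega
      · simp only [Oc.mem, Oc.add, Oc.bb] at h ⊢
        omega
    · intro i j hm
      have h1 := (hS.hb.mul hT.ha cS.b cT.a hS.gb.ok hT.gb.bb).pos (cS.b.mul cT.a) hm
      refine lt_of_lt_of_le h1 (co_le_of_pos ((cS.d.mul cT.b).of_eq ?_) i j)
      rw [b_hm]
      ring
  · rw [a_hm]
    have h1 := hS.ha.mul hT.ha cS.a cT.a hS.gb.bb.ok hT.gb.bb
    have e : (ob.add Oc.bb).add (ob'.add Oc.bb) = (ob.add (ob'.add Oc.bb)).add Oc.bb := by
      ext <;> simp only [Oc.add, Oc.bb] <;> ring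
    rw [← e]
    exact h1
  · have hl := sp_last cS cT hS.hb hT.hb hS.gb hT.gb
    have pl : Pos ((1 + uL * vL) * Bq uL vL * (S.b * T.b)) :=
      ((Pos.one.add pos_uv).mul pos_B).mul (cS.b.mul cT.b)
    refine Sp.mk' ?_ ?_
    · rw [c_hm]
      refine Sub.add (Sub.add ?_ ?_) (hl.sub.mono (fun i j h => ?_))
      · refine (hS.ha.sub.mul hT.hc.sub).mono (fun i j h => ?_)
        simp only [Oc.mem, Oc.add, Oc.bb, Oc.dg] at h ⊢
        omega
      · refine (hS.hc.sub.mul hT.ha.sub).mono (fun i j h => ?_)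
        simp only [Oc.mem, Oc.add, Oc.bb, Oc.dg] at h ⊢
        omega
      · simp only [Oc.mem, Oc.add, Oc.dg, Oc.bb] at h ⊢
        omega
    · intro i j hm
      have h1 := hl.pos pl (i := i) (j := j) (by
        simp only [Oc.mem, Oc.add, Oc.dg, Oc.bb] at hm ⊢
        omega)
      refine lt_of_lt_of_le h1 (co_le_of_pos (((cS.a.mul cT.c).add (cS.c.mul cT.a)).of_eq ?_) i j)
      rw [c_hm]
      ring
  · simp only [Oc.add, Oc.dg]
    omega
  · simp only [Oc.add, Oc.dg]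
    omega
  · simp only [Oc.add, Oc.dg]
    omega
  · simp only [Oc.add, Oc.dg]
  · simp only [Oc.add, Oc.dg]

theorem Sp.bar {f : LA} {o : Oc} (h : Sp f o) : Sp (bar f) o.neg := by
  intro i j
  rw [co_bar, h, Oc.mem_neg]

/-- X7g. rotations -/
theorem SV.rt {S : Tr LA} {ob oa : Oc} (hS : SV S ob oa) : SH (rt S) (ob.neg.add (Oc.pt (-1))) oa.neg := by
  have s1 := hS.e1
  have s2 := hS.e2
  have s3 := hS.e3
  have s4 := hS.e4
  have s5 := hS.e5
  refine ⟨?_, ?_, hS.ha.bar, hS.gb.neg.add (Oc.Gen.pt _), hS.ga.neg, ?_, ?_, ?_, ?_, ?_⟩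
  · intro i j
    show co (mX (-1) (-1) * LG3.bar S.b) i j ≠ 0 ↔ _
    rw [co_mX_mul, hS.hb.bar]
    simp only [Oc.mem, Oc.neg, Oc.add, Oc.pt]
    omega
  · have h := hS.hc.bar
    have e : (ob.add Oc.bb).neg = (ob.neg.add (Oc.pt (-1))).add Oc.bb := by
      ext <;> simp only [Oc.neg, Oc.add, Oc.pt, Oc.bb] <;> ring
    rw [e] at h
    exact h
  · simp only [Oc.neg, Oc.add, Oc.pt]
    omega
  · simp only [Oc.neg, Oc.add, Oc.pt]
    omega
  · simp only [Oc.neg, Oc.add, Oc.pt]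
    omega
  · simp only [Oc.neg, Oc.add, Oc.pt]
    omega
  · simp only [Oc.neg, Oc.add, Oc.pt]
    omega

theorem SH.rt {S : Tr LA} {ob oc : Oc} (hS : SH S ob oc) : SV (rt S) (ob.neg.add (Oc.pt (-1))) oc.neg := by
  have s1 := hS.e1
  have s2 := hS.e2
  have s3 := hS.e3
  have s4 := hS.e4
  have s5 := hS.e5
  refine ⟨?_, hS.hc.bar, ?_, hS.gb.neg.add (Oc.Gen.pt _), hS.gc.neg, ?_, ?_, ?_, ?_, ?_⟩
  · intro i j
    show co (mX (-1) (-1) * LG3.bar S.b) i j ≠ 0 ↔ _
    rw [co_mX_mul, hS.hb.bar]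
    simp only [Oc.mem, Oc.neg, Oc.add, Oc.pt]
    omega
  · have h := hS.ha.bar
    have e : (ob.add Oc.bb).neg = (ob.neg.add (Oc.pt (-1))).add Oc.bb := by
      ext <;> simp only [Oc.neg, Oc.add, Oc.pt, Oc.bb] <;> ring
    rw [e] at h
    exact h
  · simp only [Oc.neg, Oc.add, Oc.pt]
    omega
  · simp only [Oc.neg, Oc.add, Oc.pt]
    omega
  · simp only [Oc.neg, Oc.add, Oc.pt]
    omega
  · simp only [Oc.neg, Oc.add, Oc.pt]
    omega
  · simp only [Oc.neg, Oc.add, Oc.pt]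
    omega

end LG3
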