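import Pool.Agent.Lib.MP_3cd99b_gt.C
import Pool.Agent.Lib.MP_3cd99b_gt.X1

/-! Sparse tables of matrices and their products. -/

open Finset

namespace LG3

/-- indices of the entries of a matrix -/
abbrev Ky := Fin 4 × Fin 4 × Fin 4 × Fin 4

/-- sparse tables -/
abbrev SP4 := List (Ky × LP)

/-- equality of indices -/
def eqK (a b : Ky) : Bool :=
  if a.1 = b.1 then (if a.2.1 = b.2.1 then (if a.2.2.1 = b.2.2.1 then decide (a.2.2.2 = b.2.2.2) else false)
    else false) else false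

/-- a product of tables, given by conditions on the indices -/
def opS (c : Ky → Ky → Bool) (w : Ky → Ky → LP) (o : Ky → Ky → Ky) (A B : SP4) : SP4 :=
  A.flatMap fun e => B.flatMap fun f => if c e.1 f.1 then [(o e.1 f.1, mulP (w e.1 f.1) (mulP e.2 f.2))] else []

/-- scalar multiple -/
def smS (c : LP) (A : SP4) : SP4 := A.map fun e => (e.1, mulP c e.2)

/-- add an entry -/
def insS (e : Ky × LP) : SP4 → SP4
  | [] => [e]
  | f :: l => if eqK f.1 e.1 then (f.1, e.2 ++ f.2) :: l else f :: insS e l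

/-- zero test -/
def isZS (A : SP4) : Bool := (A.foldr insS []).all fun e => isZ e.2

/-- equality test -/
def eqS (A B : SP4) : Bool := isZS (A ++ smS [(-1, 0, 0)] B)

/-- the matrix product -/
def mulS : SP4 → SP4 → SP4 := opS (fun x y => if x.2.2.1 = y.1 then decide (x.2.2.2 = y.2.1) else false)
  (fun _ _ => [(1, 0, 0)]) (fun x y => (x.1, x.2.1, y.2.2.1, y.2.2.2))

/-- the horizontal product, first kind -/
def hFS : SP4 → SP4 → SP4 := opS (fun x y => if x.2.1 = y.1 then decide (x.2.2.2 = y.2.2.1) else false)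
  (fun x _ => muI x.2.1) (fun x y => (x.1, y.2.1, x.2.2.1, y.2.2.2))

/-- the horizontal product, second kind -/
def hTS : SP4 → SP4 → SP4 := opS (fun x y => if x.2.1 = y.1 then decide (x.2.2.2 = y.2.2.1) else false)
  (fun x _ => muL x.2.2.2) (fun x y => (x.1, y.2.1, x.2.2.1, y.2.2.2))

/-- the composition, first kind -/
def c1S : SP4 → SP4 → SP4 := opS (fun x y => if x.2.1 = y.2.2.2 then decide (x.2.2.2 = y.2.1) else false)
  (fun x y => mulP (muL x.2.1) (mulP (muL y.2.2.1) (muI y.1))) (fun x y => (x.1, y.2.2.1, x.2.2.1, y.1))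

/-- the composition, second kind -/
def c2S : SP4 → SP4 → SP4 := opS (fun x y => if x.2.2.1 = y.1 then decide (x.1 = y.2.2.1) else false)
  (fun x _ => muI x.2.2.1) (fun x y => (x.2.2.2, y.2.1, x.2.1, y.2.2.2))

variable {K : Type*} [Field K]

theorem eqK_iff (a b : Ky) : eqK a b = true ↔ a = b := by
  obtain ⟨a1, a2, a3, a4⟩ := a
  obtain ⟨b1, b2, b3, b4⟩ := b
  simp only [eqK, Prod.mk.injEq]
  split_ifs with h1 h2 h3
  · simp [h1, h2, h3]
  · simp [h3]
  · simp [h2]
  · simp [h1]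

/-- the value of a table -/
def vS (α β : K) (A : SP4) (k : Ky) : K := (A.map fun e => if e.1 = k then ev α β e.2 else 0).sum

theorem vS_nil (α β : K) (k : Ky) : vS α β [] k = 0 := rfl

theorem vS_cons (α β : K) (e : Ky × LP) (A : SP4) (k : Ky) :
    vS α β (e :: A) k = (if e.1 = k then ev α β e.2 else 0) + vS α β A k := rfl

theorem vS_append (α β : K) (A B : SP4) (k : Ky) : vS α β (A ++ B) k = vS α β A k + vS α β B k := by
  rw [vS, List.map_append, List.sum_append]
  rfl

theorem vS_smS {α β : K} (ha : α ≠ 0) (hb : β ≠ 0) (c : LP) (A : SP4) (k : Ky) :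
    vS α β (smS c A) k = ev α β c * vS α β A k := by
  induction A with
  | nil => rw [vS_nil, mul_zero]; rfl
  | cons e A ih =>
    have h : smS c (e :: A) = (e.1, mulP c e.2) :: smS c A := rfl
    rw [h, vS_cons, vS_cons, ih, ev_mulP ha hb]
    split_ifs <;> ring

theorem vS_insS (α β : K) (e : Ky × LP) (A : SP4) (k : Ky) :
    vS α β (insS e A) k = (if e.1 = k then ev α β e.2 else 0) + vS α β A k := by
  induction A with
  | nil => rw [insS, vS_cons]
  | cons f A ih =>
    rw [insS]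
    split_ifs with h h2 h2
    · rw [eqK_iff] at h
      rw [vS_cons, vS_cons, h, if_pos h2, if_pos h2, ev_append]
      ring
    · rw [eqK_iff] at h
      rw [vS_cons, vS_cons, h, if_neg h2, if_neg h2]
      ring
    · rw [vS_cons, vS_cons, ih, if_pos h2]
      ring
    · rw [vS_cons, vS_cons, ih, if_neg h2]
      ring

theorem vS_isZS (α β : K) {A : SP4} (h : isZS A = true) (k : Ky) : vS α β A k = 0 := by
  have h1 : ∀ A : SP4, vS α β (A.foldr insS []) k = vS α β A k := by
    intro A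
    induction A with
    | nil => rfl
    | cons e A ih => rw [List.foldr_cons, vS_insS, ih, vS_cons]
  rw [← h1]
  unfold isZS at h
  generalize A.foldr insS [] = B at h
  induction B with
  | nil => rfl
  | cons e B ih =>
    rw [List.all_cons, Bool.and_eq_true] at h
    rw [vS_cons, ih h.2, ev_isZ α β h.1, ite_self, add_zero]

theorem vS_eqS {α β : K} (ha : α ≠ 0) (hb : β ≠ 0) {A B : SP4} (h : eqS A B = true) (k : Ky) :
    vS α β A k = vS α β B k := by
  have h1 := vS_isZS α β h k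
  rw [vS_append, vS_smS ha hb] at h1
  have h2 : ev α β [(-1, 0, 0)] = -1 := by simp [ev]
  rw [h2] at h1
  linear_combination h1

theorem opS_nil (c : Ky → Ky → Bool) (w : Ky → Ky → LP) (o : Ky → Ky → Ky) (B : SP4) : opS c w o [] B = [] := rfl

theorem opS_cons (c : Ky → Ky → Bool) (w : Ky → Ky → LP) (o : Ky → Ky → Ky) (e : Ky × LP) (A B : SP4) :
    opS c w o (e :: A) B = (B.flatMap fun f => if c e.1 f.1 then [(o e.1 f.1, mulP (w e.1 f.1) (mulP e.2 f.2))] else []) ++
      opS c w o A B := rfl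

/-- the value of a product of tables -/
theorem vS_opS {α β : K} (ha : α ≠ 0) (hb : β ≠ 0) {c : Ky → Ky → Bool} {w : Ky → Ky → LP} {o : Ky → Ky → Ky}
    {fA fB : Ky → Fin 4 → Fin 4 → Ky} {W : Ky → Fin 4 → Fin 4 → K}
    (H : ∀ x y k, (∑ m, ∑ n, if x = fA k m n ∧ y = fB k m n then W k m n else 0) =
      if c x y = true ∧ o x y = k then ev α β (w x y) else 0) (A B : SP4) (k : Ky) :
    vS α β (opS c w o A B) k = ∑ m, ∑ n, W k m n * (vS α β A (fA k m n) * vS α β B (fB k m n)) := by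
  have h1 : ∀ (e : Ky × LP) (B : SP4),
      vS α β (B.flatMap fun f => if c e.1 f.1 then [(o e.1 f.1, mulP (w e.1 f.1) (mulP e.2 f.2))] else []) k =
      ∑ m, ∑ n, W k m n * ((if e.1 = fA k m n then ev α β e.2 else 0) * vS α β B (fB k m n)) := by
    intro e B
    induction B with
    | nil =>
      rw [List.flatMap_nil, vS_nil]
      simp only [vS_nil, mul_zero, Finset.sum_const_zero]
    | cons f B ih =>
      rw [List.flatMap_cons, vS_append, ih]
      simp only [vS_cons, mul_add, Finset.sum_add_distrib]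
      congr 1
      have h2 := congrArg (fun z => z * (ev α β e.2 * ev α β f.2)) (H e.1 f.1 k)
      beta_reduce at h2
      rw [Finset.sum_mul] at h2
      have h3 : ∀ m n : Fin 4, W k m n * ((if e.1 = fA k m n then ev α β e.2 else 0) *
          (if f.1 = fB k m n then ev α β f.2 else 0)) =
          (if e.1 = fA k m n ∧ f.1 = fB k m n then W k m n else 0) * (ev α β e.2 * ev α β f.2) := by
        intro m n
        by_cases h4 : e.1 = fA k m n
        · by_cases h5 : f.1 = fB k m n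
          · rw [if_pos h4, if_pos h5, if_pos ⟨h4, h5⟩]
          · have h6 : ¬(e.1 = fA k m n ∧ f.1 = fB k m n) := fun h => h5 h.2
            rw [if_neg h5, if_neg h6]
            ring
        · have h6 : ¬(e.1 = fA k m n ∧ f.1 = fB k m n) := fun h => h4 h.1
          rw [if_neg h4, if_neg h6]
          ring
      simp only [h3]
      simp only [Finset.sum_mul] at h2
      rw [h2]
      by_cases h4 : c e.1 f.1 = true
      · rw [if_pos h4, vS_cons, vS_nil, add_zero]
        by_cases h5 : o e.1 f.1 = k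
        · rw [if_pos h5, if_pos ⟨h4, h5⟩, ev_mulP ha hb, ev_mulP ha hb]
        · rw [if_neg h5, if_neg (fun h => h5 h.2), zero_mul]
      · rw [if_neg h4, if_neg (fun h => h4 h.1), vS_nil, zero_mul]
  induction A with
  | nil =>
    rw [opS_nil, vS_nil]
    simp only [vS_nil, zero_mul, mul_zero, Finset.sum_const_zero]
  | cons e A ih =>
    rw [opS_cons, vS_append, h1, ih, ← Finset.sum_add_distrib]
    refine Finset.sum_congr rfl fun m _ => ?_
    rw [← Finset.sum_add_distrib]
    refine Finset.sum_congr rfl fun n _ => ?_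
    rw [vS_cons]
    ring

/-- a sum with one term -/
theorem sum2 (W : Fin 4 → Fin 4 → K) (Q : Fin 4 → Fin 4 → Prop) [∀ m n, Decidable (Q m n)] (x y : Fin 4) (R : Prop)
    [Decidable R] (h : ∀ m n, Q m n ↔ (m = x ∧ n = y ∧ R)) :
    (∑ m, ∑ n, if Q m n then W m n else 0) = if R then W x y else 0 := by
  by_cases hR : R
  · rw [if_pos hR, Finset.sum_eq_single x, Finset.sum_eq_single y]
    · rw [if_pos ((h x y).mpr ⟨rfl, rfl, hR⟩)]
    · intro n _ hn
      rw [if_neg (fun h1 => hn ((h x n).mp h1).2.1)]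
    · intro h1
      exact absurd (Finset.mem_univ y) h1
    · intro m _ hm
      refine Finset.sum_eq_zero fun n _ => ?_
      rw [if_neg (fun h1 => hm ((h m n).mp h1).1)]
    · intro h1
      exact absurd (Finset.mem_univ x) h1
  · rw [if_neg hR]
    refine Finset.sum_eq_zero fun m _ => Finset.sum_eq_zero fun n _ => ?_
    rw [if_neg (fun h1 => hR ((h m n).mp h1).2.2)]

/-- the matrix of a table -/
def mS (α β : K) (A : SP4) : Mat K := fun p q => vS α β A (p.1, p.2, q.1, q.2)

/-- the horizontal product, first kind -/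
def hFm (α β : K) (M N : Mat K) : Mat K := fun p q =>
  ∑ m, ∑ n, (mu α β m)⁻¹ * (M (p.1, m) (q.1, n) * N (m, p.2) (n, q.2))

/-- the horizontal product, second kind -/
def hTm (α β : K) (M N : Mat K) : Mat K := fun p q =>
  ∑ m, ∑ n, mu α β n * (M (p.1, m) (q.1, n) * N (m, p.2) (n, q.2))

/-- the composition, first kind -/
def c1m (α β : K) (M N : Mat K) : Mat K := fun p q =>
  ∑ m, ∑ n, (mu α β m * (mu α β p.2 * (mu α β q.2)⁻¹)) * (M (p.1, m) (q.1, n) * N (q.2, n) (p.2, m))

/-- the composition, second kind -/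
def c2m (α β : K) (M N : Mat K) : Mat K := fun p q =>
  ∑ m, ∑ n, (mu α β m)⁻¹ * (M (n, q.1) (m, p.1) * N (m, p.2) (n, q.2))

section
variable {α β : K} (ha : α ≠ 0) (hb : β ≠ 0)
include ha hb

theorem mS_mul (A B : SP4) : mS α β (mulS A B) = mS α β A * mS α β B := by
  ext p q
  rw [Matrix.mul_apply, Fintype.sum_prod_type]
  show vS α β (mulS A B) (p.1, p.2, q.1, q.2) = _
  rw [mulS, vS_opS ha hb (fA := fun k m n => (k.1, k.2.1, m, n)) (fB := fun k m n => (m, n, k.2.2.1, k.2.2.2))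
    (W := fun _ _ _ => 1)]
  · simp only [one_mul]
    rfl
  · rintro ⟨x1, x2, x3, x4⟩ ⟨y1, y2, y3, y4⟩ ⟨k1, k2, k3, k4⟩
    rw [sum2 _ _ x3 x4 (x3 = y1 ∧ x4 = y2 ∧ (x1, x2, y3, y4) = (k1, k2, k3, k4))]
    · have h1 : ev α β [(1, 0, 0)] = 1 := by simp [ev]
      rw [h1]
      refine if_congr ?_ rfl rfl
      beta_reduce
      by_cases h2 : x3 = y1
      · rw [if_pos (show _ from h2)]
        simp [h2]
      · rw [if_neg (show ¬ _ from h2)]
        simp [h2]
    · intro m n
      simp only [Prod.mk.injEq]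
      constructor
      · rintro ⟨⟨rfl, rfl, rfl, rfl⟩, rfl, rfl, rfl, rfl⟩
        simp
      · rintro ⟨rfl, rfl, rfl, rfl, rfl, rfl, rfl, rfl⟩
        simp

theorem mS_hF (A B : SP4) : mS α β (hFS A B) = hFm α β (mS α β A) (mS α β B) := by
  ext p q
  show vS α β (hFS A B) (p.1, p.2, q.1, q.2) = _
  rw [hFS, vS_opS ha hb (fA := fun k m n => (k.1, m, k.2.2.1, n)) (fB := fun k m n => (m, k.2.1, n, k.2.2.2))
    (W := fun _ m _ => (mu α β m)⁻¹)]
  · rfl
  · rintro ⟨x1, x2, x3, x4⟩ ⟨y1, y2, y3, y4⟩ ⟨k1, k2, k3, k4⟩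
    rw [sum2 _ _ x2 x4 (x2 = y1 ∧ x4 = y3 ∧ (x1, y2, x3, y4) = (k1, k2, k3, k4))]
    · rw [← muI_ev]
      refine if_congr ?_ rfl rfl
      beta_reduce
      by_cases h2 : x2 = y1
      · rw [if_pos (show _ from h2)]
        simp [h2]
      · rw [if_neg (show ¬ _ from h2)]
        simp [h2]
    · intro m n
      simp only [Prod.mk.injEq]
      constructor
      · rintro ⟨⟨rfl, rfl, rfl, rfl⟩, rfl, rfl, rfl, rfl⟩
        simp
      · rintro ⟨rfl, rfl, rfl, rfl, rfl, rfl, rfl, rfl⟩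
        simp

theorem mS_hT (A B : SP4) : mS α β (hTS A B) = hTm α β (mS α β A) (mS α β B) := by
  ext p q
  show vS α β (hTS A B) (p.1, p.2, q.1, q.2) = _
  rw [hTS, vS_opS ha hb (fA := fun k m n => (k.1, m, k.2.2.1, n)) (fB := fun k m n => (m, k.2.1, n, k.2.2.2))
    (W := fun _ _ n => mu α β n)]
  · rfl
  · rintro ⟨x1, x2, x3, x4⟩ ⟨y1, y2, y3, y4⟩ ⟨k1, k2, k3, k4⟩
    rw [sum2 _ _ x2 x4 (x2 = y1 ∧ x4 = y3 ∧ (x1, y2, x3, y4) = (k1, k2, k3, k4))]
    · rw [← mu_ev]
      refine if_congr ?_ rfl rfl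
      beta_reduce
      by_cases h2 : x2 = y1
      · rw [if_pos (show _ from h2)]
        simp [h2]
      · rw [if_neg (show ¬ _ from h2)]
        simp [h2]
    · intro m n
      simp only [Prod.mk.injEq]
      constructor
      · rintro ⟨⟨rfl, rfl, rfl, rfl⟩, rfl, rfl, rfl, rfl⟩
        simp
      · rintro ⟨rfl, rfl, rfl, rfl, rfl, rfl, rfl, rfl⟩
        simp

theorem mS_c1 (A B : SP4) : mS α β (c1S A B) = c1m α β (mS α β A) (mS α β B) := by
  ext p q
  show vS α β (c1S A B) (p.1, p.2, q.1, q.2) = _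
  rw [c1S, vS_opS ha hb (fA := fun k m n => (k.1, m, k.2.2.1, n)) (fB := fun k m n => (k.2.2.2, n, k.2.1, m))
    (W := fun k m _ => mu α β m * (mu α β k.2.1 * (mu α β k.2.2.2)⁻¹))]
  · rfl
  · rintro ⟨x1, x2, x3, x4⟩ ⟨y1, y2, y3, y4⟩ ⟨k1, k2, k3, k4⟩
    rw [sum2 _ _ x2 x4 (x2 = y4 ∧ x4 = y2 ∧ (x1, y3, x3, y1) = (k1, k2, k3, k4))]
    · by_cases h : x2 = y4 ∧ x4 = y2 ∧ (x1, y3, x3, y1) = (k1, k2, k3, k4)
      · rw [if_pos h]
        obtain ⟨h1, h2, h3⟩ := h
        rw [if_pos]
        · simp only [Prod.mk.injEq] at h3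
          rw [ev_mulP ha hb, ev_mulP ha hb, ← mu_ev, ← mu_ev, ← muI_ev]
          rw [h3.2.1, h3.2.2.2]
        · refine ⟨?_, h3⟩
          simp [h1, h2]
      · rw [if_neg h, if_neg]
        rintro ⟨h1, h2⟩
        apply h
        split_ifs at h1 with h3
        exact ⟨h3, of_decide_eq_true h1, h2⟩
    · intro m n
      simp only [Prod.mk.injEq]
      constructor
      · rintro ⟨⟨rfl, rfl, rfl, rfl⟩, rfl, rfl, rfl, rfl⟩
        simp
      · rintro ⟨rfl, rfl, rfl, rfl, rfl, rfl, rfl, rfl⟩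
        simp

theorem mS_c2 (A B : SP4) : mS α β (c2S A B) = c2m α β (mS α β A) (mS α β B) := by
  ext p q
  show vS α β (c2S A B) (p.1, p.2, q.1, q.2) = _
  rw [c2S, vS_opS ha hb (fA := fun k m n => (n, k.2.2.1, m, k.1)) (fB := fun k m n => (m, k.2.1, n, k.2.2.2))
    (W := fun _ m _ => (mu α β m)⁻¹)]
  · rfl
  · rintro ⟨x1, x2, x3, x4⟩ ⟨y1, y2, y3, y4⟩ ⟨k1, k2, k3, k4⟩
    rw [sum2 _ _ x3 x1 (x3 = y1 ∧ x1 = y3 ∧ (x4, y2, x2, y4) = (k1, k2, k3, k4))]
    · rw [← muI_ev]
      refine if_congr ?_ rfl rfl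
      beta_reduce
      by_cases h2 : x3 = y1
      · rw [if_pos (show _ from h2)]
        simp [h2]
      · rw [if_neg (show ¬ _ from h2)]
        simp [h2]
    · intro m n
      simp only [Prod.mk.injEq]
      constructor
      · rintro ⟨⟨rfl, rfl, rfl, rfl⟩, rfl, rfl, rfl, rfl⟩
        simp
      · rintro ⟨rfl, rfl, rfl, rfl, rfl, rfl, rfl, rfl⟩
        simp

theorem mS_sm (c : LP) (A : SP4) : mS α β (smS c A) = ev α β c • mS α β A := by
  ext p q
  exact vS_smS ha hb c A _

omit ha hb in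
theorem mS_app (A B : SP4) : mS α β (A ++ B) = mS α β A + mS α β B := by
  ext p q
  exact vS_append α β A B _

theorem mS_eq {A B : SP4} (h : eqS A B = true) : mS α β A = mS α β B := by
  ext p q
  exact vS_eqS ha hb h _

end

/-- bilinear operations -/
structure Bil (f : Mat K → Mat K → Mat K) : Prop where
  al : ∀ M M' N, f (M + M') N = f M N + f M' N
  ar : ∀ M N N', f M (N + N') = f M N + f M N'
  sl : ∀ (c : K) M N, f (c • M) N = c • f M N
  sr : ∀ (c : K) M N, f M (c • N) = c • f M N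

theorem Bil.mul : Bil (fun M N : Mat K => M * N) :=
  ⟨fun M M' N => add_mul M M' N, fun M N N' => mul_add M N N', fun c M N => Matrix.smul_mul c M N,
    fun c M N => Matrix.mul_smul M c N⟩

/-- sums of products are bilinear -/
theorem Bil.sum (f : Mat K → Mat K → Mat K) (W : (Fin 4 × Fin 4) → (Fin 4 × Fin 4) → Fin 4 → Fin 4 → K)
    (a b c d : (Fin 4 × Fin 4) → (Fin 4 × Fin 4) → Fin 4 → Fin 4 → Fin 4 × Fin 4)
    (h : ∀ M N p q, f M N p q = ∑ m, ∑ n, W p q m n * (M (a p q m n) (b p q m n) * N (c p q m n) (d p q m n))) :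
    Bil f := by
  refine ⟨fun M M' N => ?_, fun M N N' => ?_, fun x M N => ?_, fun x M N => ?_⟩
  · ext p q
    simp only [h, Matrix.add_apply, ← Finset.sum_add_distrib]
    exact Finset.sum_congr rfl fun m _ => Finset.sum_congr rfl fun n _ => by ring
  · ext p q
    simp only [h, Matrix.add_apply, ← Finset.sum_add_distrib]
    exact Finset.sum_congr rfl fun m _ => Finset.sum_congr rfl fun n _ => by ring
  · ext p q
    simp only [h, Matrix.smul_apply, smul_eq_mul, Finset.mul_sum]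
    exact Finset.sum_congr rfl fun m _ => Finset.sum_congr rfl fun n _ => by ring
  · ext p q
    simp only [h, Matrix.smul_apply, smul_eq_mul, Finset.mul_sum]
    exact Finset.sum_congr rfl fun m _ => Finset.sum_congr rfl fun n _ => by ring

theorem Bil.hF (α β : K) : Bil (hFm α β) :=
  Bil.sum _ (fun _ _ m _ => (mu α β m)⁻¹) (fun p _ m _ => (p.1, m)) (fun _ q _ n => (q.1, n))
    (fun p _ m _ => (m, p.2)) (fun _ q _ n => (n, q.2)) (fun _ _ _ _ => rfl)

theorem Bil.hT (α β : K) : Bil (hTm α β) :=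
  Bil.sum _ (fun _ _ _ n => mu α β n) (fun p _ m _ => (p.1, m)) (fun _ q _ n => (q.1, n))
    (fun p _ m _ => (m, p.2)) (fun _ q _ n => (n, q.2)) (fun _ _ _ _ => rfl)

theorem Bil.c1 (α β : K) : Bil (c1m α β) :=
  Bil.sum _ (fun p q m _ => mu α β m * (mu α β p.2 * (mu α β q.2)⁻¹)) (fun p _ m _ => (p.1, m))
    (fun _ q _ n => (q.1, n)) (fun _ q _ n => (q.2, n)) (fun p _ m _ => (p.2, m)) (fun _ _ _ _ => rfl)

theorem Bil.c2 (α β : K) : Bil (c2m α β) :=
  Bil.sum _ (fun _ _ m _ => (mu α β m)⁻¹) (fun _ q _ n => (n, q.1)) (fun p _ m _ => (m, p.1))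
    (fun p _ m _ => (m, p.2)) (fun _ q _ n => (n, q.2)) (fun _ _ _ _ => rfl)

/-- a bilinear operation on combinations of three matrices -/
theorem Bil.expand {f : Mat K → Mat K → Mat K} (hf : Bil f) (a b c a' b' c' : K) (X Y Z X' Y' Z' : Mat K) :
    f (a • X + b • Y + c • Z) (a' • X' + b' • Y' + c' • Z') =
      (a * a') • f X X' + (a * b') • f X Y' + (a * c') • f X Z' +
      (b * a') • f Y X' + (b * b') • f Y Y' + (b * c') • f Y Z' +
      (c * a') • f Z X' + (c * b') • f Z Y' + (c * c') • f Z Z' := by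
  simp only [hf.al, hf.ar, hf.sl, hf.sr, smul_smul]
  ext p q
  simp only [Matrix.add_apply, Matrix.smul_apply, smul_eq_mul]
  ring

end LG3
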