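import Pool.Agent.Lib.MP_3cd99b_gt.Y0
import Pool.Agent.Lib.MP_3cd99b_gt.Df

/-! The tables of the bases and the structure constants. -/

open Finset

namespace LG3

/-- table of basis matrix 0, kind P, positive -/
def tP0T : List (Ky × LP) :=
  [((0, 0, 0, 0), [(-1, 2, 0)]), ((0, 1, 1, 0), [(-1, 1, 0)]), ((0, 2, 2, 0), [(-1, 1, 0)]),
    ((0, 3, 3, 0), [(-1, 0, 0)]), ((1, 0, 0, 1), [(-1, 1, 0)]),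
    ((1, 0, 1, 0), [(-1, 2, 0), (1, 0, 0)]), ((1, 1, 1, 1), [(1, 0, 0)]),
    ((1, 2, 1, 2), [(-1, 2, 2), (1, 0, 0)]), ((1, 2, 2, 1), [(1, 1, 1)]),
    ((1, 2, 3, 0), [(-1, 3, 3), (1, 3, 1), (1, 1, 3), (-1, 1, 1)]), ((1, 3, 3, 1), [(-1, 0, 1)]),
    ((2, 0, 0, 2), [(-1, 1, 0)]), ((2, 0, 2, 0), [(-1, 2, 0), (1, 0, 0)]),
    ((2, 1, 1, 2), [(1, 1, 1)]), ((2, 1, 3, 0), [(1, 2, 2), (-1, 2, 0), (-1, 0, 2), (1, 0, 0)]),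
    ((2, 2, 2, 2), [(1, 0, 0)]), ((2, 3, 3, 2), [(-1, 0, 1)]), ((3, 0, 0, 3), [(-1, 0, 0)]),
    ((3, 0, 1, 2), [(1, 1, 1)]), ((3, 0, 2, 1), [(-1, 0, 0)]),
    ((3, 0, 3, 0), [(1, 2, 2), (-1, 2, 0), (-1, 0, 2), (1, 0, 0)]), ((3, 1, 1, 3), [(-1, 0, 1)]),
    ((3, 1, 3, 1), [(-1, 0, 2), (1, 0, 0)]), ((3, 2, 2, 3), [(-1, 0, 1)]),
    ((3, 2, 3, 2), [(-1, 0, 2), (1, 0, 0)]), ((3, 3, 3, 3), [(-1, 0, 2)])]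

/-- table of basis matrix 1, kind P, positive -/
def tP1T : List (Ky × LP) :=
  [((0, 0, 0, 0), [(-1, 4, 2), (1, 2, 2), (-1, 2, 0), (1, 0, 0)]),
    ((0, 1, 0, 1), [(-1, 2, 0), (1, 0, 0)]), ((0, 1, 1, 0), [(-1, 3, 2), (1, 1, 2)]),
    ((0, 2, 0, 2), [(-1, 2, 0), (1, 0, 0)]), ((0, 2, 2, 0), [(-1, 3, 2), (1, 1, 2)]),
    ((0, 3, 1, 2), [(1, 1, 1)]), ((0, 3, 2, 1), [(-1, 0, 0)]),
    ((1, 0, 0, 1), [(-1, 3, 2), (1, 1, 2)]),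
    ((1, 0, 1, 0), [(-1, 4, 2), (2, 2, 2), (-1, 2, 0), (-1, 0, 2), (1, 0, 0)]),
    ((1, 1, 1, 1), [(1, 2, 2), (-1, 2, 0), (-1, 0, 2), (1, 0, 0)]),
    ((1, 2, 0, 3), [(-1, 3, 3), (1, 3, 1), (1, 1, 3), (-1, 1, 1)]),
    ((1, 2, 1, 2), [(-1, 4, 4), (2, 2, 2), (-1, 2, 0), (-1, 0, 2), (1, 0, 0)]),
    ((1, 2, 2, 1), [(1, 3, 3), (-1, 1, 1)]),
    ((1, 2, 3, 0), [(-1, 5, 5), (1, 5, 3), (1, 3, 5), (-1, 3, 3)]),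
    ((1, 3, 1, 3), [(-1, 0, 2), (1, 0, 0)]), ((1, 3, 3, 1), [(-1, 2, 3), (1, 2, 1)]),
    ((2, 0, 0, 2), [(-1, 3, 2), (1, 1, 2)]),
    ((2, 0, 2, 0), [(-1, 4, 2), (2, 2, 2), (-1, 2, 0), (-1, 0, 2), (1, 0, 0)]),
    ((2, 1, 0, 3), [(1, 2, 2), (-1, 2, 0), (-1, 0, 2), (1, 0, 0)]),
    ((2, 1, 1, 2), [(1, 3, 3), (-1, 1, 1)]), ((2, 1, 2, 1), [(-1, 2, 0), (-1, 0, 2), (2, 0, 0)]),
    ((2, 1, 3, 0), [(1, 4, 4), (-1, 4, 2), (-1, 2, 4), (1, 2, 2)]),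
    ((2, 2, 2, 2), [(1, 2, 2), (-1, 2, 0), (-1, 0, 2), (1, 0, 0)]),
    ((2, 3, 2, 3), [(-1, 0, 2), (1, 0, 0)]), ((2, 3, 3, 2), [(-1, 2, 3), (1, 2, 1)]),
    ((3, 0, 1, 2), [(1, 3, 3)]), ((3, 0, 2, 1), [(-1, 2, 2)]),
    ((3, 0, 3, 0), [(1, 4, 4), (-1, 4, 2), (-1, 2, 4), (2, 2, 2), (-1, 2, 0), (-1, 0, 2), (1, 0, 0)]),
    ((3, 1, 1, 3), [(-1, 2, 3), (1, 2, 1)]),
    ((3, 1, 3, 1), [(-1, 2, 4), (2, 2, 2), (-1, 2, 0), (-1, 0, 2), (1, 0, 0)]),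
    ((3, 2, 2, 3), [(-1, 2, 3), (1, 2, 1)]),
    ((3, 2, 3, 2), [(-1, 2, 4), (2, 2, 2), (-1, 2, 0), (-1, 0, 2), (1, 0, 0)]),
    ((3, 3, 3, 3), [(-1, 2, 4), (1, 2, 2), (-1, 0, 2), (1, 0, 0)])]

/-- table of basis matrix 2, kind P -/
def tP2 : List (Ky × LP) :=
  [((0, 0, 0, 0), [(1, 0, 0)]), ((0, 1, 0, 1), [(1, 0, 0)]), ((0, 2, 0, 2), [(1, 0, 0)]),
    ((0, 3, 0, 3), [(1, 0, 0)]), ((1, 0, 1, 0), [(1, 0, 0)]), ((1, 1, 1, 1), [(1, 0, 0)]),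
    ((1, 2, 1, 2), [(1, 0, 0)]), ((1, 3, 1, 3), [(1, 0, 0)]), ((2, 0, 2, 0), [(1, 0, 0)]),
    ((2, 1, 2, 1), [(1, 0, 0)]), ((2, 2, 2, 2), [(1, 0, 0)]), ((2, 3, 2, 3), [(1, 0, 0)]),
    ((3, 0, 3, 0), [(1, 0, 0)]), ((3, 1, 3, 1), [(1, 0, 0)]), ((3, 2, 3, 2), [(1, 0, 0)]),
    ((3, 3, 3, 3), [(1, 0, 0)])]

/-- table of basis matrix 0, kind A -/
def tA0 : List (Ky × LP) :=
  [((0, 0, 0, 0), [(1, -2, 0)]), ((0, 0, 1, 1), [(1, -2, 0)]), ((0, 0, 2, 2), [(1, -2, 0)]),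
    ((0, 0, 3, 3), [(1, -2, 0)]), ((1, 1, 0, 0), [(-1, 0, 2)]), ((1, 1, 1, 1), [(-1, 0, 2)]),
    ((1, 1, 2, 2), [(-1, 0, 2)]), ((1, 1, 3, 3), [(-1, 0, 2)]), ((2, 2, 0, 0), [(-1, -2, 0)]),
    ((2, 2, 1, 1), [(-1, -2, 0)]), ((2, 2, 2, 2), [(-1, -2, 0)]), ((2, 2, 3, 3), [(-1, -2, 0)]),
    ((3, 3, 0, 0), [(1, 0, 2)]), ((3, 3, 1, 1), [(1, 0, 2)]), ((3, 3, 2, 2), [(1, 0, 2)]),
    ((3, 3, 3, 3), [(1, 0, 2)])]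

/-- table of basis matrix 1, kind A, positive -/
def tA1T : List (Ky × LP) :=
  [((0, 0, 0, 0), [(1, 2, 2), (-1, 0, 2), (1, 0, 0), (-1, -2, 0)]),
    ((0, 0, 1, 1), [(1, 0, 0), (-1, -2, 0)]), ((0, 0, 2, 2), [(1, 0, 0), (-1, -2, 0)]),
    ((0, 1, 0, 1), [(1, 2, 2), (-1, 0, 2)]), ((0, 1, 2, 3), [(-1, 0, 1)]),
    ((0, 2, 0, 2), [(1, 2, 2), (-1, 0, 2)]), ((0, 2, 1, 3), [(1, -1, 0)]),
    ((1, 0, 1, 0), [(1, 2, 2), (-1, 0, 2)]),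
    ((1, 0, 3, 2), [(1, 2, 3), (-1, 2, 1), (-1, 0, 3), (1, 0, 1)]),
    ((1, 1, 0, 0), [(-1, 2, 2), (1, 0, 2)]),
    ((1, 1, 1, 1), [(-1, 2, 4), (1, 2, 2), (1, 0, 2), (-1, 0, 0)]),
    ((1, 1, 2, 2), [(-1, 2, 4), (1, 0, 2)]), ((1, 1, 3, 3), [(-1, 2, 4), (1, 2, 2)]),
    ((1, 2, 1, 2), [(1, 2, 2), (-1, 0, 0)]),
    ((1, 3, 0, 2), [(1, 3, 4), (-1, 3, 2), (-1, 1, 4), (1, 1, 2)]),
    ((1, 3, 1, 3), [(1, 0, 2), (-1, 0, 0)]), ((2, 0, 2, 0), [(1, 2, 2), (-1, 0, 2)]),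
    ((2, 0, 3, 1), [(-1, 1, 2), (1, 1, 0), (1, -1, 2), (-1, -1, 0)]),
    ((2, 1, 2, 1), [(1, 2, 2), (-1, 0, 0)]), ((2, 2, 0, 0), [(-1, 0, 0), (1, -2, 0)]),
    ((2, 2, 1, 1), [(-1, 0, 2), (1, -2, 0)]),
    ((2, 2, 2, 2), [(1, 2, 2), (-1, 0, 2), (-1, 0, 0), (1, -2, 0)]),
    ((2, 2, 3, 3), [(-1, 0, 2), (1, 0, 0)]),
    ((2, 3, 0, 1), [(-1, 2, 3), (1, 2, 1), (1, 0, 3), (-1, 0, 1)]),
    ((2, 3, 2, 3), [(1, 0, 2), (-1, 0, 0)]), ((3, 1, 2, 0), [(-1, 1, 2)]),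
    ((3, 1, 3, 1), [(1, 0, 2), (-1, 0, 0)]), ((3, 2, 1, 0), [(1, 0, 1)]),
    ((3, 2, 3, 2), [(1, 0, 2), (-1, 0, 0)]), ((3, 3, 1, 1), [(1, 2, 4), (-1, 2, 2)]),
    ((3, 3, 2, 2), [(1, 2, 4), (-1, 2, 2)]),
    ((3, 3, 3, 3), [(1, 2, 4), (-1, 2, 2), (1, 0, 2), (-1, 0, 0)])]

/-- table of basis matrix 2, kind A -/
def tA2 : List (Ky × LP) :=
  [((0, 0, 0, 0), [(-1, 0, 0)]), ((0, 1, 0, 1), [(-1, 0, 0)]), ((0, 2, 0, 2), [(-1, 0, 0)]),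
    ((0, 3, 0, 3), [(-1, 0, 0)]), ((1, 0, 1, 0), [(-1, 0, 0)]), ((1, 1, 1, 1), [(-1, 0, 0)]),
    ((1, 2, 1, 2), [(-1, 0, 0)]), ((1, 3, 1, 3), [(-1, 0, 0)]), ((2, 0, 2, 0), [(-1, 0, 0)]),
    ((2, 1, 2, 1), [(-1, 0, 0)]), ((2, 2, 2, 2), [(-1, 0, 0)]), ((2, 3, 2, 3), [(-1, 0, 0)]),
    ((3, 0, 3, 0), [(-1, 0, 0)]), ((3, 1, 3, 1), [(-1, 0, 0)]), ((3, 2, 3, 2), [(-1, 0, 0)]),
    ((3, 3, 3, 3), [(-1, 0, 0)])]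

/-- table of basis matrix 0, kind B -/
def tB0 : List (Ky × LP) :=
  [((0, 0, 0, 0), [(1, 2, 0)]), ((0, 0, 1, 1), [(-1, 0, -2)]), ((0, 0, 2, 2), [(-1, 2, 0)]),
    ((0, 0, 3, 3), [(1, 0, -2)]), ((1, 1, 0, 0), [(1, 2, 0)]), ((1, 1, 1, 1), [(-1, 0, -2)]),
    ((1, 1, 2, 2), [(-1, 2, 0)]), ((1, 1, 3, 3), [(1, 0, -2)]), ((2, 2, 0, 0), [(1, 2, 0)]),
    ((2, 2, 1, 1), [(-1, 0, -2)]), ((2, 2, 2, 2), [(-1, 2, 0)]), ((2, 2, 3, 3), [(1, 0, -2)]),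
    ((3, 3, 0, 0), [(1, 2, 0)]), ((3, 3, 1, 1), [(-1, 0, -2)]), ((3, 3, 2, 2), [(-1, 2, 0)]),
    ((3, 3, 3, 3), [(1, 0, -2)])]

/-- table of basis matrix 1, kind B, positive -/
def tB1T : List (Ky × LP) :=
  [((0, 0, 0, 0), [(1, 4, 2), (-1, 2, 2), (1, 2, 0), (-1, 0, 0)]),
    ((0, 0, 1, 1), [(-1, 2, 0), (1, 0, 0)]), ((0, 0, 2, 2), [(-1, 4, 2), (1, 2, 2)]),
    ((0, 1, 0, 1), [(1, 2, 0), (-1, 0, 0)]),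
    ((0, 1, 2, 3), [(1, 3, 2), (-1, 3, 0), (-1, 1, 2), (1, 1, 0)]),
    ((0, 2, 0, 2), [(1, 2, 0), (-1, 0, 0)]),
    ((0, 2, 1, 3), [(-1, 2, 1), (1, 2, -1), (1, 0, 1), (-1, 0, -1)]),
    ((1, 0, 1, 0), [(1, 2, 0), (-1, 0, 0)]), ((1, 0, 3, 2), [(-1, 1, 0)]),
    ((1, 1, 0, 0), [(1, 4, 2), (-1, 2, 2)]),
    ((1, 1, 1, 1), [(1, 2, 2), (-1, 2, 0), (-1, 0, 0), (1, 0, -2)]),
    ((1, 1, 2, 2), [(-1, 4, 2), (1, 2, 0)]), ((1, 1, 3, 3), [(1, 0, 0), (-1, 0, -2)]),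
    ((1, 2, 1, 2), [(1, 2, 2), (-1, 0, 0)]), ((1, 3, 0, 2), [(-1, 2, 1)]),
    ((1, 3, 1, 3), [(1, 2, 2), (-1, 2, 0)]), ((2, 0, 2, 0), [(1, 2, 0), (-1, 0, 0)]),
    ((2, 0, 3, 1), [(1, 0, -1)]), ((2, 1, 2, 1), [(1, 2, 2), (-1, 0, 0)]),
    ((2, 2, 0, 0), [(1, 4, 2), (-1, 2, 2)]), ((2, 2, 1, 1), [(-1, 2, 0), (1, 0, -2)]),
    ((2, 2, 2, 2), [(-1, 4, 2), (1, 2, 2), (1, 2, 0), (-1, 0, 0)]),
    ((2, 2, 3, 3), [(1, 0, 0), (-1, 0, -2)]), ((2, 3, 0, 1), [(1, 1, 0)]),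
    ((2, 3, 2, 3), [(1, 2, 2), (-1, 2, 0)]),
    ((3, 1, 2, 0), [(1, 4, 3), (-1, 4, 1), (-1, 2, 3), (1, 2, 1)]),
    ((3, 1, 3, 1), [(1, 2, 2), (-1, 2, 0)]),
    ((3, 2, 1, 0), [(-1, 3, 2), (1, 3, 0), (1, 1, 2), (-1, 1, 0)]),
    ((3, 2, 3, 2), [(1, 2, 2), (-1, 2, 0)]), ((3, 3, 1, 1), [(-1, 0, 0), (1, 0, -2)]),
    ((3, 3, 2, 2), [(-1, 2, 2), (1, 2, 0)]),
    ((3, 3, 3, 3), [(1, 2, 2), (-1, 2, 0), (1, 0, 0), (-1, 0, -2)])]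

/-- table of basis matrix 0, kind P, negative -/
def tP0F : List (Ky × LP) :=
  [((0, 0, 0, 0), [(-1, -2, 0)]), ((0, 1, 0, 1), [(1, 0, 0), (-1, -2, 0)]),
    ((0, 1, 1, 0), [(-1, -1, 0)]), ((0, 2, 0, 2), [(1, 0, 0), (-1, -2, 0)]),
    ((0, 2, 2, 0), [(-1, -1, 0)]),
    ((0, 3, 0, 3), [(1, 0, 0), (-1, 0, -2), (-1, -2, 0), (1, -2, -2)]),
    ((0, 3, 1, 2), [(-1, -1, -1)]), ((0, 3, 2, 1), [(1, -2, -2)]), ((0, 3, 3, 0), [(-1, 0, 0)]),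
    ((1, 0, 0, 1), [(-1, -1, 0)]), ((1, 1, 1, 1), [(1, 0, 0)]),
    ((1, 2, 0, 3), [(1, 1, 1), (-1, 1, -1), (-1, -1, 1), (1, -1, -1)]),
    ((1, 2, 2, 1), [(1, -1, -1)]), ((1, 3, 1, 3), [(1, 0, 0), (-1, 0, -2)]),
    ((1, 3, 3, 1), [(-1, 0, -1)]), ((2, 0, 0, 2), [(-1, -1, 0)]),
    ((2, 1, 0, 3), [(-1, 0, 0), (1, 0, -2), (1, -2, 0), (-1, -2, -2)]),
    ((2, 1, 1, 2), [(1, -1, -1)]), ((2, 1, 2, 1), [(1, 0, 0), (-1, -2, -2)]),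
    ((2, 2, 2, 2), [(1, 0, 0)]), ((2, 3, 2, 3), [(1, 0, 0), (-1, 0, -2)]),
    ((2, 3, 3, 2), [(-1, 0, -1)]), ((3, 0, 0, 3), [(-1, 0, 0)]), ((3, 1, 1, 3), [(-1, 0, -1)]),
    ((3, 2, 2, 3), [(-1, 0, -1)]), ((3, 3, 3, 3), [(-1, 0, -2)])]

/-- table of basis matrix 1, kind P, negative -/
def tP1F : List (Ky × LP) :=
  [((0, 0, 0, 0), [(1, 0, 0), (-1, -2, 0), (1, -2, -2), (-1, -4, -2)]),
    ((0, 1, 0, 1), [(1, 0, 0), (-1, 0, -2), (-1, -2, 0), (2, -2, -2), (-1, -4, -2)]),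
    ((0, 1, 1, 0), [(1, -1, -2), (-1, -3, -2)]),
    ((0, 2, 0, 2), [(1, 0, 0), (-1, 0, -2), (-1, -2, 0), (2, -2, -2), (-1, -4, -2)]),
    ((0, 2, 2, 0), [(1, -1, -2), (-1, -3, -2)]),
    ((0, 3, 0, 3), [(1, 0, 0), (-1, 0, -2), (-1, -2, 0), (2, -2, -2), (-1, -2, -4), (-1, -4, -2), (1, -4, -4)]),
    ((0, 3, 1, 2), [(-1, -3, -3)]), ((0, 3, 2, 1), [(1, -4, -4)]),
    ((1, 0, 0, 1), [(1, -1, -2), (-1, -3, -2)]), ((1, 0, 1, 0), [(1, 0, 0), (-1, -2, 0)]),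
    ((1, 1, 1, 1), [(1, 0, 0), (-1, 0, -2), (-1, -2, 0), (1, -2, -2)]),
    ((1, 2, 0, 3), [(1, -1, -1), (-1, -1, -3), (-1, -3, -1), (1, -3, -3)]),
    ((1, 2, 1, 2), [(2, 0, 0), (-1, 0, -2), (-1, -2, 0)]),
    ((1, 2, 2, 1), [(-1, -1, -1), (1, -3, -3)]),
    ((1, 2, 3, 0), [(1, 1, 1), (-1, 1, -1), (-1, -1, 1), (1, -1, -1)]),
    ((1, 3, 1, 3), [(1, 0, 0), (-1, 0, -2), (-1, -2, 0), (2, -2, -2), (-1, -2, -4)]),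
    ((1, 3, 3, 1), [(1, -2, -1), (-1, -2, -3)]), ((2, 0, 0, 2), [(1, -1, -2), (-1, -3, -2)]),
    ((2, 0, 2, 0), [(1, 0, 0), (-1, -2, 0)]),
    ((2, 1, 0, 3), [(-1, -2, -2), (1, -2, -4), (1, -4, -2), (-1, -4, -4)]),
    ((2, 1, 1, 2), [(-1, -1, -1), (1, -3, -3)]),
    ((2, 1, 2, 1), [(1, 0, 0), (-1, 0, -2), (-1, -2, 0), (2, -2, -2), (-1, -4, -4)]),
    ((2, 1, 3, 0), [(-1, 0, 0), (1, 0, -2), (1, -2, 0), (-1, -2, -2)]),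
    ((2, 2, 2, 2), [(1, 0, 0), (-1, 0, -2), (-1, -2, 0), (1, -2, -2)]),
    ((2, 3, 2, 3), [(1, 0, 0), (-1, 0, -2), (-1, -2, 0), (2, -2, -2), (-1, -2, -4)]),
    ((2, 3, 3, 2), [(1, -2, -1), (-1, -2, -3)]), ((3, 0, 1, 2), [(-1, -1, -1)]),
    ((3, 0, 2, 1), [(1, -2, -2)]), ((3, 1, 1, 3), [(1, -2, -1), (-1, -2, -3)]),
    ((3, 1, 3, 1), [(1, 0, 0), (-1, 0, -2)]), ((3, 2, 2, 3), [(1, -2, -1), (-1, -2, -3)]),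
    ((3, 2, 3, 2), [(1, 0, 0), (-1, 0, -2)]),
    ((3, 3, 3, 3), [(1, 0, 0), (-1, 0, -2), (1, -2, -2), (-1, -2, -4)])]

/-- table of basis matrix 1, kind A, negative -/
def tA1F : List (Ky × LP) :=
  [((0, 0, 0, 0), [(-1, 0, 0), (1, -2, 0), (-1, -2, -2), (1, -4, -2)]),
    ((0, 0, 1, 1), [(-1, -2, -2), (1, -4, -2)]), ((0, 0, 2, 2), [(-1, -2, -2), (1, -4, -2)]),
    ((0, 1, 0, 1), [(-1, 0, 0), (1, -2, 0)]), ((0, 1, 2, 3), [(1, -2, -1)]),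
    ((0, 2, 0, 2), [(-1, 0, 0), (1, -2, 0)]), ((0, 2, 1, 3), [(-1, -3, -2)]),
    ((1, 0, 1, 0), [(-1, 0, 0), (1, -2, 0)]),
    ((1, 0, 3, 2), [(-1, 0, 1), (1, 0, -1), (1, -2, 1), (-1, -2, -1)]),
    ((1, 1, 0, 0), [(1, 0, 0), (-1, -2, 0)]),
    ((1, 1, 1, 1), [(1, 0, 2), (-1, 0, 0), (-1, -2, 0), (1, -2, -2)]),
    ((1, 1, 2, 2), [(1, 0, 2), (-1, -2, 0)]), ((1, 1, 3, 3), [(1, 0, 2), (-1, 0, 0)]),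
    ((1, 2, 1, 2), [(-1, 0, 0), (1, -2, -2)]),
    ((1, 3, 0, 2), [(-1, 1, 2), (1, 1, 0), (1, -1, 2), (-1, -1, 0)]),
    ((1, 3, 1, 3), [(-1, -2, 0), (1, -2, -2)]), ((2, 0, 2, 0), [(-1, 0, 0), (1, -2, 0)]),
    ((2, 0, 3, 1), [(1, -1, 0), (-1, -1, -2), (-1, -3, 0), (1, -3, -2)]),
    ((2, 1, 2, 1), [(-1, 0, 0), (1, -2, -2)]), ((2, 2, 0, 0), [(1, -2, -2), (-1, -4, -2)]),
    ((2, 2, 1, 1), [(1, -2, 0), (-1, -4, -2)]),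
    ((2, 2, 2, 2), [(-1, 0, 0), (1, -2, 0), (1, -2, -2), (-1, -4, -2)]),
    ((2, 2, 3, 3), [(1, -2, 0), (-1, -2, -2)]),
    ((2, 3, 0, 1), [(1, 0, 1), (-1, 0, -1), (-1, -2, 1), (1, -2, -1)]),
    ((2, 3, 2, 3), [(-1, -2, 0), (1, -2, -2)]), ((3, 1, 2, 0), [(1, -1, 0)]),
    ((3, 1, 3, 1), [(-1, -2, 0), (1, -2, -2)]), ((3, 2, 1, 0), [(-1, -2, -1)]),
    ((3, 2, 3, 2), [(-1, -2, 0), (1, -2, -2)]), ((3, 3, 1, 1), [(-1, 0, 2), (1, 0, 0)]),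
    ((3, 3, 2, 2), [(-1, 0, 2), (1, 0, 0)]),
    ((3, 3, 3, 3), [(-1, 0, 2), (1, 0, 0), (-1, -2, 0), (1, -2, -2)])]

/-- table of basis matrix 1, kind B, negative -/
def tB1F : List (Ky × LP) :=
  [((0, 0, 0, 0), [(-1, 2, 0), (1, 0, 0), (-1, 0, -2), (1, -2, -2)]),
    ((0, 0, 1, 1), [(1, 0, -2), (-1, -2, -2)]), ((0, 0, 2, 2), [(1, 2, 0), (-1, 0, 0)]),
    ((0, 1, 0, 1), [(-1, 0, -2), (1, -2, -2)]),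
    ((0, 1, 2, 3), [(-1, 1, 0), (1, 1, -2), (1, -1, 0), (-1, -1, -2)]),
    ((0, 2, 0, 2), [(-1, 0, -2), (1, -2, -2)]),
    ((0, 2, 1, 3), [(1, 0, -1), (-1, 0, -3), (-1, -2, -1), (1, -2, -3)]),
    ((1, 0, 1, 0), [(-1, 0, -2), (1, -2, -2)]), ((1, 0, 3, 2), [(1, -1, -2)]),
    ((1, 1, 0, 0), [(-1, 2, 0), (1, 0, 0)]),
    ((1, 1, 1, 1), [(-1, 0, 0), (1, 0, -2), (1, -2, -2), (-1, -2, -4)]),
    ((1, 1, 2, 2), [(1, 2, 0), (-1, 0, -2)]), ((1, 1, 3, 3), [(-1, -2, -2), (1, -2, -4)]),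
    ((1, 2, 1, 2), [(-1, 0, 0), (1, -2, -2)]), ((1, 3, 0, 2), [(1, 0, -1)]),
    ((1, 3, 1, 3), [(-1, 0, 0), (1, 0, -2)]), ((2, 0, 2, 0), [(-1, 0, -2), (1, -2, -2)]),
    ((2, 0, 3, 1), [(-1, -2, -3)]), ((2, 1, 2, 1), [(-1, 0, 0), (1, -2, -2)]),
    ((2, 2, 0, 0), [(-1, 2, 0), (1, 0, 0)]), ((2, 2, 1, 1), [(1, 0, -2), (-1, -2, -4)]),
    ((2, 2, 2, 2), [(1, 2, 0), (-1, 0, 0), (-1, 0, -2), (1, -2, -2)]),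
    ((2, 2, 3, 3), [(-1, -2, -2), (1, -2, -4)]), ((2, 3, 0, 1), [(-1, -1, -2)]),
    ((2, 3, 2, 3), [(-1, 0, 0), (1, 0, -2)]),
    ((3, 1, 2, 0), [(-1, 2, 1), (1, 2, -1), (1, 0, 1), (-1, 0, -1)]),
    ((3, 1, 3, 1), [(-1, 0, 0), (1, 0, -2)]),
    ((3, 2, 1, 0), [(1, 1, 0), (-1, 1, -2), (-1, -1, 0), (1, -1, -2)]),
    ((3, 2, 3, 2), [(-1, 0, 0), (1, 0, -2)]), ((3, 3, 1, 1), [(1, -2, -2), (-1, -2, -4)]),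
    ((3, 3, 2, 2), [(1, 0, 0), (-1, 0, -2)]),
    ((3, 3, 3, 3), [(-1, 0, 0), (1, 0, -2), (-1, -2, -2), (1, -2, -4)])]

/-- the tables of the bases -/
def ES (k : Kd) (s : Bool) (i : Fin 3) : SP4 :=
  match k, i with
  | .P, 0 => if s then tP0T else tP0F
  | .P, 1 => if s then tP1T else tP1F
  | .P, 2 => tP2
  | .A, 0 => tA0
  | .A, 1 => if s then tA1T else tA1F
  | .A, 2 => tA2
  | .B, 0 => tB0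
  | .B, 1 => if s then tB1T else tB1F
  | .B, 2 => tA2

/-- the table of u -/
def uP (s : Bool) : LP := if s then [(-1, 2, 0)] else [(-1, -2, 0)]

/-- the table of v -/
def vP (s : Bool) : LP := if s then [(-1, 0, 2)] else [(-1, 0, -2)]

/-- the table of 1 -/
def oP : LP := [(1, 0, 0)]

/-- the table of x -/
def xP (s : Bool) : LP := mulP (uP s) (vP s)

/-- the table of B -/
def bP (s : Bool) : LP := mulP (oP ++ uP s) (oP ++ vP s)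

/-- the table of (1 + x) B -/
def yP (s : Bool) : LP := mulP (oP ++ xP s) (bP s)

/-- structure constants of the horizontal product -/
def hmC (s : Bool) (i j : Fin 3) : LP × LP × LP :=
  match i, j with
  | 0, 0 => (oP, [], [])
  | 0, 1 => ([], oP, [])
  | 0, 2 => ([], [], oP)
  | 1, 0 => ([], oP, [])
  | 1, 1 => ([], xP s ++ negP oP, yP s)
  | 2, 0 => ([], [], oP)
  | _, _ => ([], [], [])

/-- structure constants of the composition -/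
def cpC (s : Bool) (i j : Fin 3) : LP × LP × LP :=
  match i, j with
  | 0, 0 => (oP, oP, bP s)
  | 0, 1 => ([], xP s, yP s)
  | 0, 2 => ([], [], oP)
  | 1, 0 => ([], xP s, yP s)
  | 1, 1 => ([], mulP (xP s) (xP s ++ negP oP), mulP (xP s) (yP s))
  | 2, 0 => ([], [], oP)
  | _, _ => ([], [], [])

/-- structure constants of the vertical product -/
def vmC (s : Bool) (i j : Fin 3) : LP × LP × LP :=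
  match i, j with
  | 0, 0 => (bP s, negP oP, oP)
  | 0, 1 => (yP s, negP (xP s), [])
  | 0, 2 => (oP, [], [])
  | 1, 0 => (yP s, negP (xP s), [])
  | 1, 1 => (mulP (xP s) (yP s), oP ++ negP (mulP (xP s) (xP s)) ++ bP s, negP (yP s))
  | 1, 2 => ([], oP, [])
  | 2, 0 => (oP, [], [])
  | 2, 1 => ([], oP, [])
  | 2, 2 => ([], [], oP)

/-- linear combination of a basis -/
def cmS (c : LP × LP × LP) (k : Kd) (s : Bool) : SP4 :=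
  smS c.1 (ES k s 0) ++ (smS c.2.1 (ES k s 1) ++ smS c.2.2 (ES k s 2))

/-- all products of the elements of two bases have the given structure constants -/
def tst (op : SP4 → SP4 → SP4) (k1 k2 k3 : Kd) (c : Fin 3 → Fin 3 → LP × LP × LP) (s : Bool) : Bool :=
  [0, 1, 2].all fun i => [0, 1, 2].all fun j => eqS (op (ES k1 s i) (ES k2 s j)) (cmS (c i j) k3 s)

/-- the entry of a table -/
def lkS (A : SP4) (k : Ky) : LP := A.flatMap fun e => if eqK e.1 k then e.2 else []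

/-- the table as a function -/
def tbS (A : SP4) : MatL := fun p q => lkS A (p.1, p.2, q.1, q.2)

/-- a change of the indices -/
def roS (o : Ky → Ky) (w : Ky → LP) (A : SP4) : SP4 := A.map fun e => (o e.1, mulP (w e.1) e.2)

/-- the rotation, first kind -/
def r1S : SP4 → SP4 := roS (fun x => (x.2.1, x.2.2.2, x.1, x.2.2.1)) (fun x => muL x.2.2.2)

/-- the rotation, second kind -/
def r2S : SP4 → SP4 := roS (fun x => (x.2.1, x.2.2.2, x.1, x.2.2.1)) (fun x => muI x.1)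

/-- structure constants of the rotation to sign s -/
def rtC (s : Bool) (i : Fin 3) : LP × LP × LP :=
  match i with
  | 0 => ([], [], negP oP)
  | 1 => ([], negP (xP !s), [])
  | 2 => (negP oP, [], [])

/-- rotations of the elements of a basis -/
def tsr (op : SP4 → SP4) (k1 k2 : Kd) (s : Bool) : Bool :=
  [0, 1, 2].all fun i => eqS (op (ES k1 (!s) i)) (cmS (rtC s i) k2 s)

/-- closure of a matrix with antiparallel strands, first kind -/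
def clAL (L : MatL) : Fin 4 → Fin 4 → LP := fun i j => [0, 1, 2, 3].flatMap fun m => mulP (muI m) (L (i, m) (j, m))

/-- closure of a matrix with antiparallel strands, second kind -/
def clBL (L : MatL) : Fin 4 → Fin 4 → LP := fun i j => [0, 1, 2, 3].flatMap fun m => mulP (muL m) (L (m, i) (m, j))

/-- the closures of the elements of a basis -/
def tsc (c : MatL → Fin 4 → Fin 4 → LP) (k : Kd) (e : LP) (s : Bool) : Bool :=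
  [0, 1, 2, 3].all fun i => [0, 1, 2, 3].all fun j =>
    isZ (c (tbS (ES k s 0)) i j ++ (if i = j then e else [])) && isZ (c (tbS (ES k s 1)) i j) &&
      isZ (c (tbS (ES k s 2)) i j)

end LG3
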