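import Pool.Agent.Lib.MP_3cd99b_gt.Y1

/-! Products of tables: vertical products and compositions. -/

namespace LG3

theorem tst_vm (s : Bool) : tst mulS .P .P .P (vmC s) s = true := by
  cases s <;> decide +kernel

theorem tst_c1 (s : Bool) : tst c1S .P .P .A (cpC s) s = true := by
  cases s <;> decide +kernel

theorem tst_c2 (s : Bool) : tst c2S .P .P .B (cpC s) s = true := by
  cases s <;> decide +kernel

end LG3
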