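import Pool.Agent.Lib.MP_3cd99b_gt.Y1

/-! Products of tables: horizontal products, first kind. -/

namespace LG3

theorem tst_hFP (s : Bool) : tst hFS .A .P .P (hmC s) s = true := by
  cases s <;> decide +kernel

theorem tst_hFA (s : Bool) : tst hFS .A .A .A (hmC s) s = true := by
  cases s <;> decide +kernel

end LG3
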