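import Pool.Agent.Lib.MP_3cd99b_gt.Y1

/-! Products of tables: horizontal products, second kind. -/

namespace LG3

theorem tst_hTP (s : Bool) : tst hTS .P .B .P (hmC s) s = true := by
  cases s <;> decide +kernel

theorem tst_hTB (s : Bool) : tst hTS .B .B .B (hmC s) s = true := by
  cases s <;> decide +kernel

end LG3
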