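import Pool.Agent.Lib.MP_3cd99b_gt.Y1

/-! Rotations, closures and the crossing. -/

namespace LG3

theorem tsr_1 (s : Bool) : tsr r1S .B .A s = true := by
  cases s <;> decide +kernel

theorem tsr_2 (s : Bool) : tsr r2S .A .B s = true := by
  cases s <;> decide +kernel

theorem tsc_P (s : Bool) : tsc clL .P [(1, 0, 0)] s = true := by
  cases s <;> decide +kernel

theorem tsc_A (s : Bool) : tsc clAL .A [(-1, 0, 0)] s = true := by
  cases s <;> decide +kernel

theorem tsc_B (s : Bool) : tsc clBL .B [(-1, 0, 0)] s = true := by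
  cases s <;> decide +kernel

theorem chk_cr (s : Bool) : eqL (RtL s) (smulL [(-1, 0, 0)] (tbS (ES .P s 0))) = true := by
  cases s <;> decide +kernel

end LG3
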