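import Pool.Agent.Lib.MP_3cd99b_gt.Y1a
import Pool.Agent.Lib.MP_3cd99b_gt.Y1b
import Pool.Agent.Lib.MP_3cd99b_gt.Y1c
import Pool.Agent.Lib.MP_3cd99b_gt.Y1d

/-! The products of the matrices of tangles are given by the products of the triples. -/

open Finset

namespace LG3

variable {K : Type*} [Field K]

/-- the basis matrices -/
def Em (α β : K) (k : Kd) (s : Bool) (i : Fin 3) : Mat K := mS α β (ES k s i)

/-- the matrix of a triple -/
def Mf (α β : K) (k : Kd) (s : Bool) (T : Tr K) : Mat K :=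
  T.a • Em α β k s 0 + T.b • Em α β k s 1 + T.c • Em α β k s 2

/-- the variable u -/
def us (α β : K) (s : Bool) : K := ev α β (uP s)

/-- the variable v -/
def vs (α β : K) (s : Bool) : K := ev α β (vP s)

theorem ev_one (α β : K) : ev α β oP = 1 := by simp [oP, ev]

/-- a bilinear function of two triples -/
def bc (g : Fin 3 → Fin 3 → K) (S T : Tr K) : K :=
  S.a * T.a * g 0 0 + S.a * T.b * g 0 1 + S.a * T.c * g 0 2 + S.b * T.a * g 1 0 + S.b * T.b * g 1 1 + S.b * T.c * g 1 2 +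
    S.c * T.a * g 2 0 + S.c * T.b * g 2 1 + S.c * T.c * g 2 2

theorem mem3 (i : Fin 3) : i ∈ ([0, 1, 2] : List (Fin 3)) := by
  fin_cases i <;> simp

section
variable {α β : K} (ha : α ≠ 0) (hb : β ≠ 0)
include ha hb

theorem ev_x (s : Bool) : ev α β (xP s) = us α β s * vs α β s := by
  rw [xP, ev_mulP ha hb, us, vs]

theorem ev_b (s : Bool) : ev α β (bP s) = Bq (us α β s) (vs α β s) := by
  rw [bP, ev_mulP ha hb, ev_append, ev_append, ev_one, us, vs, Bq]

theorem ev_y (s : Bool) : ev α β (yP s) = (1 + us α β s * vs α β s) * Bq (us α β s) (vs α β s) := by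
  rw [yP, ev_mulP ha hb, ev_append, ev_one, ev_b ha hb, ev_x ha hb]

theorem mS_cm (c : LP × LP × LP) (k : Kd) (s : Bool) : mS α β (cmS c k s) =
    ev α β c.1 • Em α β k s 0 + ev α β c.2.1 • Em α β k s 1 + ev α β c.2.2 • Em α β k s 2 := by
  rw [cmS, mS_app, mS_app, mS_sm ha hb, mS_sm ha hb, mS_sm ha hb, add_assoc]
  rfl

/-- products from the tests -/
theorem main_op {f : Mat K → Mat K → Mat K} (hf : Bil f) {op : SP4 → SP4 → SP4}
    (ho : ∀ A B, mS α β (op A B) = f (mS α β A) (mS α β B)) {k1 k2 k3 : Kd} {c : Fin 3 → Fin 3 → LP × LP × LP}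
    {s : Bool} (ht : tst op k1 k2 k3 c s = true) (S T : Tr K) :
    f (Mf α β k1 s S) (Mf α β k2 s T) = Mf α β k3 s ⟨bc (fun i j => ev α β (c i j).1) S T,
      bc (fun i j => ev α β (c i j).2.1) S T, bc (fun i j => ev α β (c i j).2.2) S T⟩ := by
  have h : ∀ i j, f (Em α β k1 s i) (Em α β k2 s j) =
      ev α β (c i j).1 • Em α β k3 s 0 + ev α β (c i j).2.1 • Em α β k3 s 1 + ev α β (c i j).2.2 • Em α β k3 s 2 := by
    intro i j
    rw [tst, List.all_eq_true] at ht
    have h1 := ht i (mem3 i)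
    rw [List.all_eq_true] at h1
    have h2 := mS_eq ha hb (h1 j (mem3 j))
    rw [ho, mS_cm ha hb] at h2
    exact h2
  rw [Mf, Mf, hf.expand]
  simp only [h]
  ext p q
  simp only [Mf, bc, Matrix.add_apply, Matrix.smul_apply, smul_eq_mul]
  ring

theorem bc_hm (s : Bool) (S T : Tr K) : (⟨bc (fun i j => ev α β (hmC s i j).1) S T,
      bc (fun i j => ev α β (hmC s i j).2.1) S T, bc (fun i j => ev α β (hmC s i j).2.2) S T⟩ : Tr K) =
    hm (us α β s) (vs α β s) S T := by
  ext1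
  · simp only [bc, hmC, hm, ev_one, ev_nil]
    ring
  · simp only [bc, hmC, hm, ev_one, ev_nil, ev_append, ev_neg, ev_x ha hb]
    ring
  · simp only [bc, hmC, hm, ev_one, ev_nil, ev_y ha hb]
    ring

theorem bc_cp (s : Bool) (S T : Tr K) : (⟨bc (fun i j => ev α β (cpC s i j).1) S T,
      bc (fun i j => ev α β (cpC s i j).2.1) S T, bc (fun i j => ev α β (cpC s i j).2.2) S T⟩ : Tr K) =
    cp (us α β s) (vs α β s) S T := by
  ext1
  · simp only [bc, cpC, cp, hm, ev_one, ev_nil]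
    ring
  · simp only [bc, cpC, cp, hm, ev_one, ev_nil, ev_append, ev_neg, ev_mulP ha hb, ev_x ha hb]
    ring
  · simp only [bc, cpC, cp, hm, ev_one, ev_nil, ev_mulP ha hb, ev_x ha hb, ev_y ha hb, ev_b ha hb]
    ring

theorem bc_vm (s : Bool) (S T : Tr K) : (⟨bc (fun i j => ev α β (vmC s i j).1) S T,
      bc (fun i j => ev α β (vmC s i j).2.1) S T, bc (fun i j => ev α β (vmC s i j).2.2) S T⟩ : Tr K) =
    vm (us α β s) (vs α β s) S T := by
  ext1
  · simp only [bc, vmC, vm, ev_one, ev_nil, ev_mulP ha hb, ev_x ha hb, ev_y ha hb, ev_b ha hb]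
    ring
  · simp only [bc, vmC, vm, ev_one, ev_nil, ev_append, ev_neg, ev_mulP ha hb, ev_x ha hb, ev_b ha hb]
    ring
  · simp only [bc, vmC, vm, ev_one, ev_nil, ev_neg, ev_y ha hb]
    ring

theorem Mf_vm (s : Bool) (S T : Tr K) : Mf α β .P s S * Mf α β .P s T = Mf α β .P s (vm (us α β s) (vs α β s) S T) := by
  rw [← bc_vm ha hb]
  exact main_op ha hb Bil.mul (mS_mul ha hb) (tst_vm s) S T

theorem Mf_hFP (s : Bool) (S T : Tr K) :
    hFm α β (Mf α β .A s S) (Mf α β .P s T) = Mf α β .P s (hm (us α β s) (vs α β s) S T) := by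
  rw [← bc_hm ha hb]
  exact main_op ha hb (Bil.hF α β) (mS_hF ha hb) (tst_hFP s) S T

theorem Mf_hFA (s : Bool) (S T : Tr K) :
    hFm α β (Mf α β .A s S) (Mf α β .A s T) = Mf α β .A s (hm (us α β s) (vs α β s) S T) := by
  rw [← bc_hm ha hb]
  exact main_op ha hb (Bil.hF α β) (mS_hF ha hb) (tst_hFA s) S T

theorem Mf_hTP (s : Bool) (S T : Tr K) :
    hTm α β (Mf α β .P s S) (Mf α β .B s T) = Mf α β .P s (hm (us α β s) (vs α β s) S T) := by
  rw [← bc_hm ha hb]
  exact main_op ha hb (Bil.hT α β) (mS_hT ha hb) (tst_hTP s) S T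

theorem Mf_hTB (s : Bool) (S T : Tr K) :
    hTm α β (Mf α β .B s S) (Mf α β .B s T) = Mf α β .B s (hm (us α β s) (vs α β s) S T) := by
  rw [← bc_hm ha hb]
  exact main_op ha hb (Bil.hT α β) (mS_hT ha hb) (tst_hTB s) S T

theorem Mf_c1 (s : Bool) (S T : Tr K) :
    c1m α β (Mf α β .P s S) (Mf α β .P s T) = Mf α β .A s (cp (us α β s) (vs α β s) S T) := by
  rw [← bc_cp ha hb]
  exact main_op ha hb (Bil.c1 α β) (mS_c1 ha hb) (tst_c1 s) S T

theorem Mf_c2 (s : Bool) (S T : Tr K) :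
    c2m α β (Mf α β .P s S) (Mf α β .P s T) = Mf α β .B s (cp (us α β s) (vs α β s) S T) := by
  rw [← bc_cp ha hb]
  exact main_op ha hb (Bil.c2 α β) (mS_c2 ha hb) (tst_c2 s) S T

end

/-! ### rotations -/

/-- the rotation, first kind -/
def r1m (α β : K) (M : Mat K) : Mat K := fun p q => mu α β p.2 * M (q.1, p.1) (q.2, p.2)

/-- the rotation, second kind -/
def r2m (α β : K) (M : Mat K) : Mat K := fun p q => (mu α β q.1)⁻¹ * M (q.1, p.1) (q.2, p.2)

section
variable {α β : K} (ha : α ≠ 0) (hb : β ≠ 0)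
include ha hb

theorem vS_roS (o : Ky → Ky) (w : Ky → LP) (A : SP4) (k k' : Ky) (ho : ∀ x, o x = k ↔ x = k') :
    vS α β (roS o w A) k = ev α β (w k') * vS α β A k' := by
  induction A with
  | nil => rw [vS_nil, mul_zero]; rfl
  | cons e A ih =>
    have h : roS o w (e :: A) = (o e.1, mulP (w e.1) e.2) :: roS o w A := rfl
    rw [h, vS_cons, vS_cons, ih]
    by_cases h1 : e.1 = k'
    · rw [if_pos h1, if_pos ((ho e.1).mpr h1), ev_mulP ha hb, h1]
      ring
    · rw [if_neg h1, if_neg (fun h2 => h1 ((ho e.1).mp h2))]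
      ring

theorem mS_r1 (A : SP4) : mS α β (r1S A) = r1m α β (mS α β A) := by
  ext p q
  show vS α β (r1S A) (p.1, p.2, q.1, q.2) = mu α β p.2 * vS α β A (q.1, p.1, q.2, p.2)
  rw [r1S, vS_roS ha hb _ _ _ _ (q.1, p.1, q.2, p.2), ← mu_ev]
  rintro ⟨x1, x2, x3, x4⟩
  simp only [Prod.mk.injEq]
  tauto

theorem mS_r2 (A : SP4) : mS α β (r2S A) = r2m α β (mS α β A) := by
  ext p q
  show vS α β (r2S A) (p.1, p.2, q.1, q.2) = (mu α β q.1)⁻¹ * vS α β A (q.1, p.1, q.2, p.2)
  rw [r2S, vS_roS ha hb _ _ _ _ (q.1, p.1, q.2, p.2), ← muI_ev]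
  rintro ⟨x1, x2, x3, x4⟩
  simp only [Prod.mk.injEq]
  tauto

/-- rotations from the tests -/
theorem main_ro {f : Mat K → Mat K} (hadd : ∀ M N, f (M + N) = f M + f N) (hsm : ∀ (c : K) M, f (c • M) = c • f M)
    {op : SP4 → SP4} (ho : ∀ A, mS α β (op A) = f (mS α β A)) {k1 k2 : Kd} {s : Bool} (ht : tsr op k1 k2 s = true)
    (S : Tr K) : f (Mf α β k1 (!s) S) =
      -Mf α β k2 s ⟨S.c, us α β (!s) * vs α β (!s) * S.b, S.a⟩ := by
  have h : ∀ i, f (Em α β k1 (!s) i) = ev α β (rtC s i).1 • Em α β k2 s 0 + ev α β (rtC s i).2.1 • Em α β k2 s 1 +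
      ev α β (rtC s i).2.2 • Em α β k2 s 2 := by
    intro i
    rw [tsr, List.all_eq_true] at ht
    have h2 := mS_eq ha hb (ht i (mem3 i))
    rw [ho, mS_cm ha hb] at h2
    exact h2
  rw [Mf, hadd, hadd, hsm, hsm, hsm]
  simp only [h, rtC, ev_nil, ev_neg, ev_one, ev_x ha hb]
  ext p q
  simp only [Mf, Matrix.add_apply, Matrix.smul_apply, Matrix.neg_apply, smul_eq_mul]
  ring

theorem Mf_r1 (s : Bool) (S : Tr K) : r1m α β (Mf α β .B (!s) S) =
    -Mf α β .A s ⟨S.c, us α β (!s) * vs α β (!s) * S.b, S.a⟩ := by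
  refine main_ro ha hb (fun M N => ?_) (fun c M => ?_) (mS_r1 ha hb) (tsr_1 s) S
  · ext p q
    simp only [r1m, Matrix.add_apply]
    ring
  · ext p q
    simp only [r1m, Matrix.smul_apply, smul_eq_mul]
    ring

theorem Mf_r2 (s : Bool) (S : Tr K) : r2m α β (Mf α β .A (!s) S) =
    -Mf α β .B s ⟨S.c, us α β (!s) * vs α β (!s) * S.b, S.a⟩ := by
  refine main_ro ha hb (fun M N => ?_) (fun c M => ?_) (mS_r2 ha hb) (tsr_2 s) S
  · ext p q
    simp only [r2m, Matrix.add_apply]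
    ring
  · ext p q
    simp only [r2m, Matrix.smul_apply, smul_eq_mul]
    ring

omit ha hb in
theorem ev_lkS (A : SP4) (k : Ky) : ev α β (lkS A k) = vS α β A k := by
  induction A with
  | nil => rfl
  | cons e A ih =>
    have h : lkS (e :: A) k = (if eqK e.1 k then e.2 else []) ++ lkS A k := rfl
    rw [h, ev_append, ih, vS_cons]
    by_cases h1 : e.1 = k
    · rw [if_pos h1, if_pos ((eqK_iff _ _).mpr h1)]
    · rw [if_neg h1, if_neg (fun h2 => h1 ((eqK_iff _ _).mp h2)), ev_nil]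

omit ha hb in
theorem Em_rep (k : Kd) (s : Bool) (i : Fin 3) : Rep α β (Em α β k s i) (tbS (ES k s i)) := by
  intro p q
  exact (ev_lkS _ _).symm

/-- the crossing -/
theorem Rt_eq (s : Bool) : Rt α β s = -Em α β .P s 0 := by
  have h : Rt α β s = (-1 : K) • Em α β .P s 0 :=
    Rep.eq (Rt_rep ha hb s) ((Em_rep .P s 0).smul ha hb (by simp [ev])) (chk_cr s)
  rw [h]
  simp

end

/-! ### closures -/

/-- closure, first kind -/
def clA (α β : K) (M : Mat K) : Fin 4 → Fin 4 → K := fun i j => ∑ m, (mu α β m)⁻¹ * M (i, m) (j, m)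

/-- closure, second kind -/
def clB (α β : K) (M : Mat K) : Fin 4 → Fin 4 → K := fun i j => ∑ m, mu α β m * M (m, i) (m, j)

section
variable {α β : K} (ha : α ≠ 0) (hb : β ≠ 0)
include ha hb

theorem clA_rep {M : Mat K} {L : MatL} (h : Rep α β M L) (i j : Fin 4) :
    clA α β M i j = ev α β (clAL L i j) := by
  rw [clA, clAL]
  simp only [List.flatMap_cons, List.flatMap_nil, List.append_nil, ev_append, ev_mulP ha hb,
    Fin.sum_univ_four, ← muI_ev, h _ _]
  ring

theorem clB_rep {M : Mat K} {L : MatL} (h : Rep α β M L) (i j : Fin 4) :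
    clB α β M i j = ev α β (clBL L i j) := by
  rw [clB, clBL]
  simp only [List.flatMap_cons, List.flatMap_nil, List.append_nil, ev_append, ev_mulP ha hb,
    Fin.sum_univ_four, ← mu_ev, h _ _]
  ring

/-- closures from the tests -/
theorem main_cl {f : Mat K → Fin 4 → Fin 4 → K} {c : MatL → Fin 4 → Fin 4 → LP}
    (hadd : ∀ M N i j, f (M + N) i j = f M i j + f N i j) (hsm : ∀ (x : K) M i j, f (x • M) i j = x * f M i j)
    (hr : ∀ {M : Mat K} {L : MatL}, Rep α β M L → ∀ i j, f M i j = ev α β (c L i j)) {k : Kd} {e : LP} {s : Bool}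
    (ht : tsc c k e s = true) (S : Tr K) (i j : Fin 4) :
    f (Mf α β k s S) i j = if i = j then -(ev α β e * S.a) else 0 := by
  rw [tsc, List.all_eq_true] at ht
  have h1 := ht i (mem4 i)
  rw [List.all_eq_true] at h1
  have h2 := h1 j (mem4 j)
  simp only [Bool.and_eq_true] at h2
  obtain ⟨⟨h3, h4⟩, h5⟩ := h2
  have h3' := ev_isZ α β h3
  have h4' := ev_isZ α β h4
  have h5' := ev_isZ α β h5
  rw [ev_append, ← hr (Em_rep k s 0)] at h3'
  rw [← hr (Em_rep k s 1)] at h4'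
  rw [← hr (Em_rep k s 2)] at h5'
  rw [Mf, hadd, hadd, hsm, hsm, hsm, h4', h5']
  split_ifs at h3' ⊢ with hij
  · linear_combination S.a * h3'
  · rw [ev_nil] at h3'
    linear_combination S.a * h3'

theorem Mf_clP (s : Bool) (S : Tr K) (i j : Fin 4) : cl α β (Mf α β .P s S) i j = if i = j then -S.a else 0 := by
  rw [main_cl ha hb (cl_add α β) (cl_smul α β) (fun h => cl_rep ha hb h) (tsc_P s) S i j]
  have h : ev α β [(1, 0, 0)] = 1 := by simp [ev]
  rw [h, one_mul]

theorem Mf_clA (s : Bool) (S : Tr K) (i j : Fin 4) : clA α β (Mf α β .A s S) i j = if i = j then S.a else 0 := by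
  rw [main_cl ha hb (f := clA α β) ?_ ?_ (fun h => clA_rep ha hb h) (tsc_A s) S i j]
  · have h : ev α β [(-1, 0, 0)] = -1 := by simp [ev]
    rw [h, neg_one_mul, neg_neg]
  · intro M N i j
    simp only [clA, Matrix.add_apply, mul_add, Finset.sum_add_distrib]
  · intro x M i j
    simp only [clA, Matrix.smul_apply, smul_eq_mul, Finset.mul_sum]
    exact Finset.sum_congr rfl (fun _ _ => by ring)

theorem Mf_clB (s : Bool) (S : Tr K) (i j : Fin 4) : clB α β (Mf α β .B s S) i j = if i = j then S.a else 0 := by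
  rw [main_cl ha hb (f := clB α β) ?_ ?_ (fun h => clB_rep ha hb h) (tsc_B s) S i j]
  · have h : ev α β [(-1, 0, 0)] = -1 := by simp [ev]
    rw [h, neg_one_mul, neg_neg]
  · intro M N i j
    simp only [clB, Matrix.add_apply, mul_add, Finset.sum_add_distrib]
  · intro x M i j
    simp only [clB, Matrix.smul_apply, smul_eq_mul, Finset.mul_sum]
    exact Finset.sum_congr rfl (fun _ _ => by ring)

end

end LG3
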