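import Pool.Agent.Lib.MP_3cd99b_gt.Y0
import Pool.Agent.Lib.MP_3cd99b_gt.Df

/-! The operations on diagrams and their matrices. -/

open Finset

namespace LG3

theorem shD_append (k : ℕ) (w w' : List Piece) : shD k (w ++ w') = shD k w ++ shD k w' := List.map_append

theorem shD_cons (k : ℕ) (p : Piece) (w : List Piece) : shD k (p :: w) = p.sh k :: shD k w := rfl

theorem shD_nil (k : ℕ) : shD k [] = [] := rfl

theorem shD_shD (k j : ℕ) (w : List Piece) : shD k (shD j w) = shD (j + k) w := by
  rw [shD, shD, shD, List.map_map]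
  refine List.map_congr_left fun p _ => ?_
  cases p <;> simp [Piece.sh, Nat.add_assoc]

variable {K : Type*} [Field K]

theorem amp_cup (α β : K) (f : Bool) (w : List Piece) (k : ℕ) (l r t : List (Fin 4)) (h : l.length = k) :
    amp α β (.cup k f :: w) (l ++ r) t = ∑ m, (if f then 1 else (mu α β m)⁻¹) * amp α β w (l ++ m :: m :: r) t := by
  rw [amp]
  simp only [take0 h, drop0 h]

theorem amp_cap (α β : K) (f : Bool) (w : List Piece) (k : ℕ) (l r t : List (Fin 4)) (x y : Fin 4) (h : l.length = k) :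
    amp α β (.cap k f :: w) (l ++ x :: y :: r) t =
      if x = y then (if f then mu α β x else 1) * amp α β w (l ++ r) t else 0 := by
  rw [amp]
  simp only [take0 h, drop0 h]

theorem sum4 (F : Fin 4 → Fin 4 → Fin 4 → Fin 4 → K) :
    ∑ m, ∑ a, ∑ n, ∑ b, F m a n b = ∑ a, ∑ b, ∑ m, ∑ n, F m a n b := by
  calc ∑ m, ∑ a, ∑ n, ∑ b, F m a n b = ∑ a, ∑ m, ∑ n, ∑ b, F m a n b := Finset.sum_comm
    _ = ∑ a, ∑ m, ∑ b, ∑ n, F m a n b :=
        Finset.sum_congr rfl (fun _ _ => Finset.sum_congr rfl (fun _ _ => Finset.sum_comm))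
    _ = ∑ a, ∑ b, ∑ m, ∑ n, F m a n b := Finset.sum_congr rfl (fun _ _ => Finset.sum_comm)

theorem sum4' (F : Fin 4 → Fin 4 → Fin 4 → Fin 4 → K) :
    ∑ m, ∑ n, ∑ b, ∑ p, F m n b p = ∑ p, ∑ b, ∑ m, ∑ n, F m n b p := by
  calc ∑ m, ∑ n, ∑ b, ∑ p, F m n b p = ∑ m, ∑ n, ∑ p, ∑ b, F m n b p :=
        Finset.sum_congr rfl (fun _ _ => Finset.sum_congr rfl (fun _ _ => Finset.sum_comm))
    _ = ∑ m, ∑ p, ∑ n, ∑ b, F m n b p := Finset.sum_congr rfl (fun _ _ => Finset.sum_comm)
    _ = ∑ p, ∑ m, ∑ n, ∑ b, F m n b p := Finset.sum_comm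
    _ = ∑ p, ∑ m, ∑ b, ∑ n, F m n b p :=
        Finset.sum_congr rfl (fun _ _ => Finset.sum_congr rfl (fun _ _ => Finset.sum_comm))
    _ = ∑ p, ∑ b, ∑ m, ∑ n, F m n b p := Finset.sum_congr rfl (fun _ _ => Finset.sum_comm)

section acts
variable {α β : K}

/-- the crossing -/
theorem acts_cross (s : Bool) (k : ℕ) : Acts α β [.cross k s] k (Rt α β s) := by
  intro l r t i j w' hl
  rw [List.singleton_append, amp]
  simp only [take0 hl, drop0 hl]
  rfl

theorem acts_glue {f : Bool} {w w' : List Piece} {M N : Mat K} (h1 : ∀ k, Acts α β (shD k w) k M)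
    (h2 : ∀ k, Acts α β (shD k w') k N) (k : ℕ) :
    Acts α β (shD k (glueD f w w')) k (if f then hTm α β M N else hFm α β M N) := by
  intro l r t i j v hl
  have e0 : shD k (glueD f w w') ++ v =
      .cup (1 + k) f :: (shD k w ++ (shD (2 + k) w' ++ (.cap (1 + k) f :: v))) := by
    rw [glueD, shD_cons, shD_append, shD_append, shD_shD]
    simp [shD, Piece.sh]
  have e1 : l ++ i :: j :: r = (l ++ [i]) ++ (j :: r) := by simp
  rw [e0, e1, amp_cup α β f _ (1 + k) (l ++ [i]) (j :: r) t (by simp [hl]; omega)]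
  have e2 : ∀ m : Fin 4, amp α β (shD k w ++ (shD (2 + k) w' ++ (.cap (1 + k) f :: v)))
      ((l ++ [i]) ++ m :: m :: j :: r) t =
      ∑ a, ∑ n, M (i, m) (a, n) * ∑ b, N (m, j) (n, b) *
        ((if f then mu α β n else 1) * amp α β v (l ++ a :: b :: r) t) := by
    intro m
    have e3 : (l ++ [i]) ++ m :: m :: j :: r = l ++ i :: m :: (m :: j :: r) := by simp
    rw [e3, h1 k l (m :: j :: r) t i m _ hl]
    refine Finset.sum_congr rfl fun a _ => Finset.sum_congr rfl fun n _ => ?_
    congr 1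
    have e4 : l ++ a :: n :: (m :: j :: r) = (l ++ [a, n]) ++ m :: j :: r := by simp
    rw [e4, h2 (2 + k) (l ++ [a, n]) r t m j _ (by simp [hl]; omega), Finset.sum_eq_single n]
    · refine Finset.sum_congr rfl fun b _ => ?_
      have e5 : (l ++ [a, n]) ++ n :: b :: r = (l ++ [a]) ++ n :: n :: (b :: r) := by simp
      rw [e5, amp_cap α β f v (1 + k) (l ++ [a]) (b :: r) t n n (by simp [hl]; omega), if_pos rfl]
      congr 3
      simp
    · intro n' _ hn
      refine Finset.sum_eq_zero fun b _ => ?_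
      have e5 : (l ++ [a, n]) ++ n' :: b :: r = (l ++ [a]) ++ n :: n' :: (b :: r) := by simp
      rw [e5, amp_cap α β f v (1 + k) (l ++ [a]) (b :: r) t n n' (by simp [hl]; omega), if_neg (Ne.symm hn), mul_zero]
    · intro h
      exact absurd (Finset.mem_univ n) h
  simp only [e2, Finset.mul_sum]
  rw [sum4]
  refine Finset.sum_congr rfl fun a _ => Finset.sum_congr rfl fun b _ => ?_
  cases f
  · simp only [hFm, Bool.false_eq_true, if_false, Finset.sum_mul]
    refine Finset.sum_congr rfl fun m _ => Finset.sum_congr rfl fun n _ => ?_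
    ring
  · simp only [hTm, if_true, Finset.sum_mul]
    refine Finset.sum_congr rfl fun m _ => Finset.sum_congr rfl fun n _ => ?_
    ring

theorem acts_clasp {w w' : List Piece} {M N : Mat K} (h1 : ∀ k, Acts α β (shD k w) k M)
    (h2 : ∀ k, Acts α β (shD k w') k N) (k : ℕ) : Acts α β (shD k (claspD w w')) k (c1m α β M N) := by
  intro l r t i j v hl
  have e0 : shD k (claspD w w') ++ v = .cup (1 + k) true :: (shD k w ++ (.cup (1 + k) false ::
      (shD (2 + k) w' ++ (.cap (3 + k) true :: .cap (2 + k) true :: v)))) := by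
    rw [claspD, shD_cons, shD_append, shD_cons, shD_append, shD_shD]
    simp [shD, Piece.sh]
  have e1 : l ++ i :: j :: r = (l ++ [i]) ++ (j :: r) := by simp
  rw [e0, e1, amp_cup α β true _ (1 + k) (l ++ [i]) (j :: r) t (by simp [hl]; omega)]
  have e2 : ∀ m : Fin 4, amp α β (shD k w ++ (.cup (1 + k) false ::
      (shD (2 + k) w' ++ (.cap (3 + k) true :: .cap (2 + k) true :: v)))) ((l ++ [i]) ++ m :: m :: j :: r) t =
      ∑ a, ∑ n, M (i, m) (a, n) * ∑ p, (mu α β p)⁻¹ * (N (p, n) (j, m) *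
        (mu α β m * (mu α β j * amp α β v (l ++ a :: p :: r) t))) := by
    intro m
    have e3 : (l ++ [i]) ++ m :: m :: j :: r = l ++ i :: m :: (m :: j :: r) := by simp
    rw [e3, h1 k l (m :: j :: r) t i m _ hl]
    refine Finset.sum_congr rfl fun a _ => Finset.sum_congr rfl fun n _ => ?_
    congr 1
    have e4 : l ++ a :: n :: (m :: j :: r) = (l ++ [a]) ++ n :: m :: j :: r := by simp
    rw [e4, amp_cup α β false _ (1 + k) (l ++ [a]) (n :: m :: j :: r) t (by simp [hl]; omega)]
    refine Finset.sum_congr rfl fun p _ => ?_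
    simp only [Bool.false_eq_true, if_false]
    congr 1
    have e5 : (l ++ [a]) ++ p :: p :: n :: m :: j :: r = (l ++ [a, p]) ++ p :: n :: (m :: j :: r) := by simp
    rw [e5, h2 (2 + k) (l ++ [a, p]) (m :: j :: r) t p n _ (by simp [hl]; omega), Finset.sum_eq_single j,
      Finset.sum_eq_single m]
    · congr 1
      have e6 : (l ++ [a, p]) ++ j :: m :: (m :: j :: r) = (l ++ [a, p, j]) ++ m :: m :: (j :: r) := by simp
      rw [e6, amp_cap α β true _ (3 + k) (l ++ [a, p, j]) (j :: r) t m m (by simp [hl]; omega), if_pos rfl]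
      simp only [if_true]
      congr 1
      have e7 : (l ++ [a, p, j]) ++ j :: r = (l ++ [a, p]) ++ j :: j :: r := by simp
      rw [e7, amp_cap α β true _ (2 + k) (l ++ [a, p]) r t j j (by simp [hl]; omega), if_pos rfl]
      simp
    · intro y _ hy
      have e6 : (l ++ [a, p]) ++ j :: y :: (m :: j :: r) = (l ++ [a, p, j]) ++ y :: m :: (j :: r) := by simp
      rw [e6, amp_cap α β true _ (3 + k) (l ++ [a, p, j]) (j :: r) t y m (by simp [hl]; omega), if_neg hy, mul_zero]
    · intro h
      exact absurd (Finset.mem_univ m) h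
    · intro x _ hx
      refine Finset.sum_eq_zero fun y _ => ?_
      have e6 : (l ++ [a, p]) ++ x :: y :: (m :: j :: r) = (l ++ [a, p, x]) ++ y :: m :: (j :: r) := by simp
      rw [e6, amp_cap α β true _ (3 + k) (l ++ [a, p, x]) (j :: r) t y m (by simp [hl]; omega)]
      have e7 : (l ++ [a, p, x]) ++ j :: r = (l ++ [a, p]) ++ x :: j :: r := by simp
      rw [e7, amp_cap α β true _ (2 + k) (l ++ [a, p]) r t x j (by simp [hl]; omega), if_neg hx, mul_zero, ite_self,
        mul_zero]
    · intro h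
      exact absurd (Finset.mem_univ j) h
  simp only [e2, if_true, one_mul, Finset.mul_sum]
  rw [sum4]
  refine Finset.sum_congr rfl fun a _ => Finset.sum_congr rfl fun p _ => ?_
  simp only [c1m, Finset.sum_mul]
  refine Finset.sum_congr rfl fun m _ => Finset.sum_congr rfl fun n _ => ?_
  ring

theorem acts_clasp' {w w' : List Piece} {M N : Mat K} (h1 : ∀ k, Acts α β (shD k w) k M)
    (h2 : ∀ k, Acts α β (shD k w') k N) (k : ℕ) : Acts α β (shD k (claspD' w w')) k (c2m α β M N) := by
  intro l r t i j v hl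
  have e0 : shD k (claspD' w w') ++ v = .cup (1 + k) false :: (shD (2 + k) w' ++ (.cup (3 + k) true ::
      (shD (2 + k) w ++ (.cap (1 + k) false :: .cap k false :: v)))) := by
    rw [claspD', shD_cons, shD_append, shD_cons, shD_append, shD_shD, shD_shD]
    simp [shD, Piece.sh]
  have e1 : l ++ i :: j :: r = (l ++ [i]) ++ (j :: r) := by simp
  rw [e0, e1, amp_cup α β false _ (1 + k) (l ++ [i]) (j :: r) t (by simp [hl]; omega)]
  have e2 : ∀ m : Fin 4, amp α β (shD (2 + k) w' ++ (.cup (3 + k) true ::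
      (shD (2 + k) w ++ (.cap (1 + k) false :: .cap k false :: v)))) ((l ++ [i]) ++ m :: m :: j :: r) t =
      ∑ n, ∑ b, N (m, j) (n, b) * ∑ p, M (n, p) (m, i) * amp α β v (l ++ p :: b :: r) t := by
    intro m
    have e3 : (l ++ [i]) ++ m :: m :: j :: r = (l ++ [i, m]) ++ m :: j :: r := by simp
    rw [e3, h2 (2 + k) (l ++ [i, m]) r t m j _ (by simp [hl]; omega)]
    refine Finset.sum_congr rfl fun n _ => Finset.sum_congr rfl fun b _ => ?_
    congr 1
    have e4 : (l ++ [i, m]) ++ n :: b :: r = (l ++ [i, m, n]) ++ b :: r := by simp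
    rw [e4, amp_cup α β true _ (3 + k) (l ++ [i, m, n]) (b :: r) t (by simp [hl]; omega)]
    refine Finset.sum_congr rfl fun p _ => ?_
    simp only [if_true, one_mul]
    have e5 : (l ++ [i, m, n]) ++ p :: p :: b :: r = (l ++ [i, m]) ++ n :: p :: (p :: b :: r) := by simp
    rw [e5, h1 (2 + k) (l ++ [i, m]) (p :: b :: r) t n p _ (by simp [hl]; omega), Finset.sum_eq_single m,
      Finset.sum_eq_single i]
    · congr 1
      have e6 : (l ++ [i, m]) ++ m :: i :: (p :: b :: r) = (l ++ [i]) ++ m :: m :: (i :: p :: b :: r) := by simp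
      rw [e6, amp_cap α β false _ (1 + k) (l ++ [i]) (i :: p :: b :: r) t m m (by simp [hl]; omega), if_pos rfl]
      simp only [Bool.false_eq_true, if_false, one_mul]
      have e7 : (l ++ [i]) ++ i :: p :: b :: r = l ++ i :: i :: (p :: b :: r) := by simp
      rw [e7, amp_cap α β false _ k l (p :: b :: r) t i i hl, if_pos rfl]
      simp
    · intro y _ hy
      have e6 : (l ++ [i, m]) ++ m :: y :: (p :: b :: r) = (l ++ [i]) ++ m :: m :: (y :: p :: b :: r) := by simp
      rw [e6, amp_cap α β false _ (1 + k) (l ++ [i]) (y :: p :: b :: r) t m m (by simp [hl]; omega), if_pos rfl]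
      have e7 : (l ++ [i]) ++ y :: p :: b :: r = l ++ i :: y :: (p :: b :: r) := by simp
      rw [e7, amp_cap α β false _ k l (p :: b :: r) t i y hl, if_neg (Ne.symm hy), mul_zero, mul_zero]
    · intro h
      exact absurd (Finset.mem_univ i) h
    · intro x _ hx
      refine Finset.sum_eq_zero fun y _ => ?_
      have e6 : (l ++ [i, m]) ++ x :: y :: (p :: b :: r) = (l ++ [i]) ++ m :: x :: (y :: p :: b :: r) := by simp
      rw [e6, amp_cap α β false _ (1 + k) (l ++ [i]) (y :: p :: b :: r) t m x (by simp [hl]; omega),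
        if_neg (Ne.symm hx), mul_zero]
    · intro h
      exact absurd (Finset.mem_univ m) h
  simp only [e2, Bool.false_eq_true, if_false, Finset.mul_sum]
  rw [sum4']
  refine Finset.sum_congr rfl fun p _ => Finset.sum_congr rfl fun b _ => ?_
  simp only [c2m, Finset.sum_mul]
  refine Finset.sum_congr rfl fun m _ => Finset.sum_congr rfl fun n _ => ?_
  ring

/-- weights of a rotation -/
def rom (α β : K) (f : Bool) (M : Mat K) : Mat K := fun p q =>
  (if f then mu α β p.2 else (mu α β q.1)⁻¹) * M (q.1, p.1) (q.2, p.2)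

theorem acts_rotD {f : Bool} {w : List Piece} {M : Mat K} (h1 : ∀ k, Acts α β (shD k w) k M) (k : ℕ) :
    Acts α β (shD k (rotD f w)) k (rom α β f M) := by
  intro l r t i j v hl
  have e0 : shD k (rotD f w) ++ v = .cup k f :: (shD (1 + k) w ++ (.cap (2 + k) f :: v)) := by
    rw [rotD, shD_cons, shD_append, shD_shD]
    simp [shD, Piece.sh]
  rw [e0, amp_cup α β f _ k l (i :: j :: r) t hl]
  refine Finset.sum_congr rfl fun m _ => ?_
  have e3 : l ++ m :: m :: i :: j :: r = (l ++ [m]) ++ m :: i :: (j :: r) := by simp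
  rw [e3, h1 (1 + k) (l ++ [m]) (j :: r) t m i _ (by simp [hl]; omega), Finset.mul_sum]
  refine Finset.sum_congr rfl fun a _ => ?_
  rw [Finset.sum_eq_single j]
  · have e6 : (l ++ [m]) ++ a :: j :: (j :: r) = (l ++ [m, a]) ++ j :: j :: r := by simp
    rw [e6, amp_cap α β f _ (2 + k) (l ++ [m, a]) r t j j (by simp [hl]; omega), if_pos rfl, rom]
    have e7 : (l ++ [m, a]) ++ r = l ++ m :: a :: r := by simp
    rw [e7]
    cases f
    · simp only [Bool.false_eq_true, if_false, one_mul]
      ring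
    · simp only [if_true, one_mul]
      ring
  · intro b _ hb
    have e6 : (l ++ [m]) ++ a :: b :: (j :: r) = (l ++ [m, a]) ++ b :: j :: r := by simp
    rw [e6, amp_cap α β f _ (2 + k) (l ++ [m, a]) r t b j (by simp [hl]; omega), if_neg hb, mul_zero]
  · intro h
    exact absurd (Finset.mem_univ j) h

/-- the closures -/
theorem amp_clP {w : List Piece} {M : Mat K} (h : Acts α β w 0 M) (i j : Fin 4) :
    amp α β (.cup 1 true :: (w ++ [.cap 1 true])) [i] [j] = cl α β M i j := by
  have e1 : ([i] : List (Fin 4)) = [i] ++ [] := by simp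
  rw [e1, amp_cup α β true _ 1 [i] [] [j] rfl, cl]
  refine Finset.sum_congr rfl fun m _ => ?_
  have h2 := h [] [m] [j] i m [.cap 1 true] rfl
  rw [List.nil_append] at h2
  simp only [if_true, one_mul, List.singleton_append]
  rw [h2, Finset.sum_eq_single j, Finset.sum_eq_single m]
  · have e2 : [] ++ j :: m :: [m] = [j] ++ m :: m :: [] := rfl
    rw [e2, amp_cap α β true _ 1 [j] [] [j] m m rfl, if_pos rfl]
    simp [amp]
    ring
  · intro b _ hb
    have e2 : [] ++ j :: b :: [m] = [j] ++ b :: m :: [] := rfl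
    rw [e2, amp_cap α β true _ 1 [j] [] [j] b m rfl, if_neg hb, mul_zero]
  · intro h
    exact absurd (Finset.mem_univ m) h
  · intro a _ ha
    refine Finset.sum_eq_zero fun b _ => ?_
    have e2 : [] ++ a :: b :: [m] = [a] ++ b :: m :: [] := rfl
    rw [e2, amp_cap α β true _ 1 [a] [] [j] b m rfl]
    simp [amp, ha]
  · intro h
    exact absurd (Finset.mem_univ j) h

theorem amp_clA {w : List Piece} {M : Mat K} (h : Acts α β w 0 M) (i j : Fin 4) :
    amp α β (.cup 1 false :: (w ++ [.cap 1 false])) [i] [j] = ∑ m, (mu α β m)⁻¹ * M (i, m) (j, m) := by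
  have e1 : ([i] : List (Fin 4)) = [i] ++ [] := by simp
  rw [e1, amp_cup α β false _ 1 [i] [] [j] rfl]
  refine Finset.sum_congr rfl fun m _ => ?_
  have h2 := h [] [m] [j] i m [.cap 1 false] rfl
  rw [List.nil_append] at h2
  simp only [Bool.false_eq_true, if_false, List.singleton_append]
  congr 1
  rw [h2, Finset.sum_eq_single j, Finset.sum_eq_single m]
  · have e2 : [] ++ j :: m :: [m] = [j] ++ m :: m :: [] := rfl
    rw [e2, amp_cap α β false _ 1 [j] [] [j] m m rfl, if_pos rfl]
    simp [amp]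
  · intro b _ hb
    have e2 : [] ++ j :: b :: [m] = [j] ++ b :: m :: [] := rfl
    rw [e2, amp_cap α β false _ 1 [j] [] [j] b m rfl, if_neg hb, mul_zero]
  · intro h
    exact absurd (Finset.mem_univ m) h
  · intro a _ ha
    refine Finset.sum_eq_zero fun b _ => ?_
    have e2 : [] ++ a :: b :: [m] = [a] ++ b :: m :: [] := rfl
    rw [e2, amp_cap α β false _ 1 [a] [] [j] b m rfl]
    simp [amp, ha]
  · intro h
    exact absurd (Finset.mem_univ j) h

theorem amp_clB {w : List Piece} {M : Mat K} (h : Acts α β (shD 1 w) 1 M) (i j : Fin 4) :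
    amp α β (.cup 0 true :: (shD 1 w ++ [.cap 0 true])) [i] [j] = ∑ m, mu α β m * M (m, i) (m, j) := by
  have e1 : ([i] : List (Fin 4)) = [] ++ [i] := by simp
  rw [e1, amp_cup α β true _ 0 [] [i] [j] rfl]
  refine Finset.sum_congr rfl fun m _ => ?_
  have h2 := h [m] [] [j] m i [.cap 0 true] rfl
  simp only [List.singleton_append] at h2
  simp only [if_true, one_mul, List.nil_append]
  rw [h2, Finset.sum_eq_single m, Finset.sum_eq_single j]
  · have e2 : m :: m :: j :: [] = [] ++ m :: m :: [j] := rfl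
    rw [e2, amp_cap α β true _ 0 [] [j] [j] m m rfl, if_pos rfl]
    simp [amp]
    ring
  · intro b _ hb
    have e2 : m :: m :: b :: [] = [] ++ m :: m :: [b] := rfl
    rw [e2, amp_cap α β true _ 0 [] [b] [j] m m rfl]
    simp [amp, hb]
  · intro h
    exact absurd (Finset.mem_univ j) h
  · intro a _ ha
    refine Finset.sum_eq_zero fun b _ => ?_
    have e2 : m :: a :: b :: [] = [] ++ m :: a :: [b] := rfl
    rw [e2, amp_cap α β true _ 0 [] [b] [j] m a rfl, if_neg (Ne.symm ha), mul_zero]
  · intro h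
    exact absurd (Finset.mem_univ m) h

end acts

end LG3
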