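import Pool.Agent.Lib.MP_3cd99b_gt.Y2
import Pool.Agent.Lib.MP_3cd99b_gt.Y3
import Pool.Agent.Lib.MP_3cd99b_gt.X7

/-! The matrices of arborescent tangles. -/

open Finset

namespace LG3

/-- the triple of the values -/
noncomputable def evT (u v : ℂ) (hu : u ≠ 0) (hv : v ≠ 0) (T : Tr LA) : Tr ℂ :=
  ⟨evL u v hu hv T.a, evL u v hu hv T.b, evL u v hu hv T.c⟩

theorem evL_u (u v : ℂ) (hu : u ≠ 0) (hv : v ≠ 0) : evL u v hu hv uL = u := by
  rw [uL, evL_mX, zpow_one, zpow_zero, mul_one]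

theorem evL_v (u v : ℂ) (hu : u ≠ 0) (hv : v ≠ 0) : evL u v hu hv vL = v := by
  rw [vL, evL_mX, zpow_one, zpow_zero, one_mul]

theorem evT_tz (u v : ℂ) (hu : u ≠ 0) (hv : v ≠ 0) : evT u v hu hv tz = tz := by
  ext1
  · exact map_one _
  · exact map_zero _
  · exact map_zero _

theorem evT_hm (u v : ℂ) (hu : u ≠ 0) (hv : v ≠ 0) (S T : Tr LA) :
    evT u v hu hv (hm uL vL S T) = hm u v (evT u v hu hv S) (evT u v hu hv T) := by
  ext1 <;> simp only [evT, hm, Bq, map_add, map_mul, map_sub, map_one, evL_u, evL_v]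

theorem evT_vm (u v : ℂ) (hu : u ≠ 0) (hv : v ≠ 0) (S T : Tr LA) :
    evT u v hu hv (vm uL vL S T) = vm u v (evT u v hu hv S) (evT u v hu hv T) := by
  ext1 <;> simp only [evT, vm, Bq, map_add, map_mul, map_sub, map_neg, map_pow, map_one, evL_u, evL_v]

theorem evT_cp (u v : ℂ) (hu : u ≠ 0) (hv : v ≠ 0) (S T : Tr LA) :
    evT u v hu hv (cp uL vL S T) = cp u v (evT u v hu hv S) (evT u v hu hv T) := by
  rw [cp, evT_hm, evT_hm, cp]
  congr 1
  ext1 <;> simp only [evT, Bq, map_add, map_mul, map_one, evL_u, evL_v]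

theorem evL_congr {u v u' v' : ℂ} (hu : u ≠ 0) (hv : v ≠ 0) (hu' : u' ≠ 0) (hv' : v' ≠ 0) (e : u = u') (e' : v = v')
    (f : LA) : evL u v hu hv f = evL u' v' hu' hv' f := by
  subst e e'
  rfl

theorem evT_rt {u v u' v' : ℂ} (hu : u ≠ 0) (hv : v ≠ 0) (hu' : u' ≠ 0) (hv' : v' ≠ 0) (e : u' = u⁻¹) (e' : v' = v⁻¹)
    (S : Tr LA) : (⟨(evT u' v' hu' hv' S).c, u' * v' * (evT u' v' hu' hv' S).b, (evT u' v' hu' hv' S).a⟩ : Tr ℂ) =
      evT u v hu hv (rt S) := by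
  subst e e'
  ext1
  · simp only [evT, rt, evL_bar]
  · simp only [evT, rt, evL_bar, map_mul, evL_mX]
    rw [zpow_neg_one, zpow_neg_one]
  · simp only [evT, rt, evL_bar]

section
variable {α β : ℂ} (ha : α ≠ 0) (hb : β ≠ 0)

theorem us_true (α β : ℂ) : us α β true = -α ^ 2 := by
  simp [us, uP, ev]

theorem vs_true (α β : ℂ) : vs α β true = -β ^ 2 := by
  simp [vs, vP, ev]

theorem us_false (α β : ℂ) : us α β false = (-α ^ 2)⁻¹ := by
  simp [us, uP, ev]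

theorem vs_false (α β : ℂ) : vs α β false = (-β ^ 2)⁻¹ := by
  simp [vs, vP, ev]

include ha in
theorem us_ne (s : Bool) : us α β s ≠ 0 := by
  cases s
  · rw [us_false]
    exact inv_ne_zero (neg_ne_zero.mpr (pow_ne_zero 2 ha))
  · rw [us_true]
    exact neg_ne_zero.mpr (pow_ne_zero 2 ha)

include hb in
theorem vs_ne (s : Bool) : vs α β s ≠ 0 := by
  cases s
  · rw [vs_false]
    exact inv_ne_zero (neg_ne_zero.mpr (pow_ne_zero 2 hb))
  · rw [vs_true]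
    exact neg_ne_zero.mpr (pow_ne_zero 2 hb)

theorem us_not (α β : ℂ) (s : Bool) : us α β (!s) = (us α β s)⁻¹ := by
  cases s
  · rw [Bool.not_false, us_false, us_true, inv_inv]
  · rw [Bool.not_true, us_false, us_true]

theorem vs_not (α β : ℂ) (s : Bool) : vs α β (!s) = (vs α β s)⁻¹ := by
  cases s
  · rw [Bool.not_false, vs_false, vs_true, inv_inv]
  · rw [Bool.not_true, vs_false, vs_true]

/-- the matrix of a triple of Laurent polynomials -/
noncomputable def MT (ha : α ≠ 0) (hb : β ≠ 0) (k : Kd) (s : Bool) (T : Tr LA) : Mat ℂ :=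
  Mf α β k s (evT (us α β s) (vs α β s) (us_ne ha s) (vs_ne hb s) T)

end

/-- the properties of the triples -/
def Gd : Kd → Oo → Tr LA → Prop
  | .P, o, T => CP T ∧ SP T o.p o.q ∧ o.m = false
  | _, o, T => CA T ∧ if o.m then SH T o.p o.q else SV T o.p o.q

/-- the diagram w has the triple T, with sign e -/
def Has (k : Kd) (s : Bool) (w : List Piece) (n : ℕ) (T : Tr LA) : Prop :=
  ∀ (α β : ℂ) (ha : α ≠ 0) (hb : β ≠ 0) (j : ℕ), Acts α β (shD j w) j ((-1 : ℂ) ^ n • MT ha hb k s T)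

theorem Bil.ss {f : Mat ℂ → Mat ℂ → Mat ℂ} (h : Bil f) (n n' : ℕ) (M N : Mat ℂ) :
    f ((-1 : ℂ) ^ n • M) ((-1 : ℂ) ^ n' • N) = (-1 : ℂ) ^ (n + n') • f M N := by
  rw [h.sl, h.sr, smul_smul, pow_add]

theorem Has.cross (s : Bool) : Has .P s [.cross 0 s] 1 tz := by
  intro α β ha hb j
  have h1 := acts_cross (α := α) (β := β) s j
  have e : ((-1 : ℂ) ^ 1 • MT ha hb .P s tz : Mat ℂ) = Rt α β s := by
    rw [Rt_eq ha hb, MT, evT_tz, pow_one, neg_one_smul]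
    congr 1
    rw [Mf, tz]
    simp
  rw [e]
  have e2 : shD j [.cross 0 s] = [.cross j s] := by
    simp [shD, Piece.sh]
  rw [e2]
  exact h1

theorem Has.ver {s : Bool} {w w' : List Piece} {n n' : ℕ} {S T : Tr LA} (hS : Has .P s w n S) (hT : Has .P s w' n' T) :
    Has .P s (w ++ w') (n + n') (vm uL vL S T) := by
  intro α β ha hb j
  rw [shD_append, MT, evT_vm, ← Mf_vm ha hb, ← Bil.mul.ss]
  exact (hS α β ha hb j).mul (hT α β ha hb j)

theorem Has.glueF {s : Bool} {w w' : List Piece} {n n' : ℕ} {S T : Tr LA} {k : Kd} (hk : k = .P ∨ k = .A)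
    (hS : Has .A s w n S) (hT : Has k s w' n' T) : Has k s (glueD false w w') (n + n') (hm uL vL S T) := by
  intro α β ha hb j
  have h := acts_glue (f := false) (hS α β ha hb) (hT α β ha hb) j
  rw [if_neg Bool.false_ne_true, (Bil.hF α β).ss] at h
  rw [MT, evT_hm]
  rcases hk with rfl | rfl
  · rw [← Mf_hFP ha hb]
    exact h
  · rw [← Mf_hFA ha hb]
    exact h

theorem Has.glueT {s : Bool} {w w' : List Piece} {n n' : ℕ} {S T : Tr LA} {k : Kd} (hk : k = .P ∨ k = .B)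
    (hS : Has k s w n S) (hT : Has .B s w' n' T) : Has k s (glueD true w w') (n + n') (hm uL vL S T) := by
  intro α β ha hb j
  have h := acts_glue (f := true) (hS α β ha hb) (hT α β ha hb) j
  rw [if_pos rfl, (Bil.hT α β).ss] at h
  rw [MT, evT_hm]
  rcases hk with rfl | rfl
  · rw [← Mf_hTP ha hb]
    exact h
  · rw [← Mf_hTB ha hb]
    exact h

theorem Has.claspA {s : Bool} {w w' : List Piece} {n n' : ℕ} {S T : Tr LA} (hS : Has .P s w n S)
    (hT : Has .P s w' n' T) : Has .A s (claspD w w') (n + n') (cp uL vL S T) := by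
  intro α β ha hb j
  have h := acts_clasp (hS α β ha hb) (hT α β ha hb) j
  rw [(Bil.c1 α β).ss] at h
  rw [MT, evT_cp, ← Mf_c1 ha hb]
  exact h

theorem Has.claspB {s : Bool} {w w' : List Piece} {n n' : ℕ} {S T : Tr LA} (hS : Has .P s w n S)
    (hT : Has .P s w' n' T) : Has .B s (claspD' w w') (n + n') (cp uL vL S T) := by
  intro α β ha hb j
  have h := acts_clasp' (hS α β ha hb) (hT α β ha hb) j
  rw [(Bil.c2 α β).ss] at h
  rw [MT, evT_cp, ← Mf_c2 ha hb]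
  exact h

theorem Has.rotA {s : Bool} {w : List Piece} {n : ℕ} {S : Tr LA} (hS : Has .B (!s) w n S) :
    Has .A s (rotD true w) (n + 1) (rt S) := by
  intro α β ha hb j
  have h := acts_rotD (f := true) (hS α β ha hb) j
  have e : rom α β true ((-1 : ℂ) ^ n • MT ha hb .B (!s) S) = (-1 : ℂ) ^ (n + 1) • MT ha hb .A s (rt S) := by
    have e1 : rom α β true ((-1 : ℂ) ^ n • MT ha hb .B (!s) S) = (-1 : ℂ) ^ n • r1m α β (MT ha hb .B (!s) S) := by
      ext p q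
      simp only [rom, r1m, if_true, Matrix.smul_apply, smul_eq_mul]
      ring
    rw [e1, MT, Mf_r1 ha hb, evT_rt (us_ne ha s) (vs_ne hb s) _ _ (us_not α β s) (vs_not α β s), ← MT, smul_neg, pow_succ,
      mul_neg_one, neg_smul]
  rw [e] at h
  exact h

theorem Has.rotB {s : Bool} {w : List Piece} {n : ℕ} {S : Tr LA} (hS : Has .A (!s) w n S) :
    Has .B s (rotD false w) (n + 1) (rt S) := by
  intro α β ha hb j
  have h := acts_rotD (f := false) (hS α β ha hb) j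
  have e : rom α β false ((-1 : ℂ) ^ n • MT ha hb .A (!s) S) = (-1 : ℂ) ^ (n + 1) • MT ha hb .B s (rt S) := by
    have e1 : rom α β false ((-1 : ℂ) ^ n • MT ha hb .A (!s) S) = (-1 : ℂ) ^ n • r2m α β (MT ha hb .A (!s) S) := by
      ext p q
      simp only [rom, r2m, Bool.false_eq_true, if_false, Matrix.smul_apply, smul_eq_mul]
      ring
    rw [e1, MT, Mf_r2 ha hb, evT_rt (us_ne ha s) (vs_ne hb s) _ _ (us_not α β s) (vs_not α β s), ← MT, smul_neg, pow_succ,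
      mul_neg_one, neg_smul]
  rw [e] at h
  exact h

/-! ### the cones and the supports -/

theorem Gd.hor {k : Kd} (hk : k ≠ .P) {o o' : Oo} {S T : Tr LA} (hS : Gd k o S) (hT : Gd .P o' T) :
    Gd .P (o.hor o') (hm uL vL S T) := by
  have hS' : CA S ∧ if o.m then SH S o.p o.q else SV S o.p o.q := by
    cases k
    · exact absurd rfl hk
    · exact hS
    · exact hS
  obtain ⟨m, p, q⟩ := o
  obtain ⟨h1, h2⟩ := hS'
  obtain ⟨h3, h4, h5⟩ := hT
  cases m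
  · exact ⟨CP.hm h1 h3, SV.hm h1 h3 h2 h4, rfl⟩
  · exact ⟨CP.hm h1 h3, SH.hm h1 h3 h2 h4, rfl⟩

theorem Gd.hor2 {k : Kd} (hk : k ≠ .P) {o o' : Oo} {S T : Tr LA} (hS : Gd k o S) (hT : Gd k o' T) :
    Gd k (o.hor2 o') (hm uL vL S T) := by
  have key : ∀ (o o' : Oo) (S T : Tr LA), (CA S ∧ if o.m then SH S o.p o.q else SV S o.p o.q) →
      (CA T ∧ if o'.m then SH T o'.p o'.q else SV T o'.p o'.q) →
      (CA (hm uL vL S T) ∧ if (o.hor2 o').m then SH (hm uL vL S T) (o.hor2 o').p (o.hor2 o').q else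
        SV (hm uL vL S T) (o.hor2 o').p (o.hor2 o').q) := by
    rintro ⟨m, p, q⟩ ⟨m', p', q'⟩ S T ⟨h1, h2⟩ ⟨h3, h4⟩
    refine ⟨CA.hm h1 h3, ?_⟩
    cases m <;> cases m'
    · exact SV.vv h1 h3 h2 h4
    · exact SV.vh h1 h3 h2 h4
    · rw [hm_comm]
      exact SV.vh h3 h1 h4 h2
    · exact SH.hh h1 h3 h2 h4
  cases k
  · exact absurd rfl hk
  · exact key _ _ _ _ hS hT
  · exact key _ _ _ _ hS hT

theorem Gd.clasp {k : Kd} (hk : k ≠ .P) {o o' : Oo} {S T : Tr LA} (hS : Gd .P o S) (hT : Gd .P o' T) :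
    Gd k (o.clasp o') (cp uL vL S T) := by
  obtain ⟨h1, h2, -⟩ := hS
  obtain ⟨h3, h4, -⟩ := hT
  cases k
  · exact absurd rfl hk
  · exact ⟨CA.cp h1 h3, SP.cp h1 h3 h2 h4⟩
  · exact ⟨CA.cp h1 h3, SP.cp h1 h3 h2 h4⟩

theorem Gd.rot {k k' : Kd} (hk : k ≠ .P) (hk' : k' ≠ .P) {o : Oo} {S : Tr LA} (hS : Gd k o S) : Gd k' o.rot (rt S) := by
  have key : ∀ (o : Oo) (S : Tr LA), (CA S ∧ if o.m then SH S o.p o.q else SV S o.p o.q) →
      (CA (rt S) ∧ if o.rot.m then SH (rt S) o.rot.p o.rot.q else SV (rt S) o.rot.p o.rot.q) := by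
    rintro ⟨m, p, q⟩ S ⟨h1, h2⟩
    refine ⟨CA.rt h1, ?_⟩
    cases m
    · exact SV.rt h2
    · exact SH.rt h2
  cases k <;> cases k' <;> first | exact absurd rfl hk | exact absurd rfl hk' | exact key _ _ hS

/-- every tangle has a triple -/
theorem AltTangle.main {s : Bool} {k : Kd} (T : AltTangle s k) : ∃ X : Tr LA, Gd k T.oo X ∧ Has k s T.diag T.count X := by
  induction T with
  | cross s => exact ⟨tz, ⟨CP.tz, SP.tz, rfl⟩, Has.cross s⟩
  | ver S T ihS ihT =>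
    obtain ⟨X, g1, h1⟩ := ihS
    obtain ⟨Y, g2, h2⟩ := ihT
    exact ⟨_, ⟨CP.vm g1.1 g2.1, SP.vm g1.1 g2.1 g1.2.1 g2.2.1, rfl⟩, h1.ver h2⟩
  | horA S T ihS ihT =>
    obtain ⟨X, g1, h1⟩ := ihS
    obtain ⟨Y, g2, h2⟩ := ihT
    exact ⟨_, Gd.hor (fun h => by cases h) g1 g2, h1.glueF (Or.inl rfl) h2⟩
  | horB S T ihS ihT =>
    obtain ⟨X, g1, h1⟩ := ihS
    obtain ⟨Y, g2, h2⟩ := ihT
    have h3 := h1.glueT (Or.inl rfl) h2
    rw [hm_comm] at h3
    exact ⟨_, Gd.hor (fun h => by cases h) g2 g1, h3⟩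
  | horAA S T ihS ihT =>
    obtain ⟨X, g1, h1⟩ := ihS
    obtain ⟨Y, g2, h2⟩ := ihT
    exact ⟨_, Gd.hor2 (fun h => by cases h) g1 g2, h1.glueF (Or.inr rfl) h2⟩
  | horBB S T ihS ihT =>
    obtain ⟨X, g1, h1⟩ := ihS
    obtain ⟨Y, g2, h2⟩ := ihT
    exact ⟨_, Gd.hor2 (fun h => by cases h) g1 g2, h1.glueT (Or.inr rfl) h2⟩
  | claspA S T ihS ihT =>
    obtain ⟨X, g1, h1⟩ := ihS
    obtain ⟨Y, g2, h2⟩ := ihT
    exact ⟨_, Gd.clasp (fun h => by cases h) g1 g2, h1.claspA h2⟩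
  | claspB S T ihS ihT =>
    obtain ⟨X, g1, h1⟩ := ihS
    obtain ⟨Y, g2, h2⟩ := ihT
    exact ⟨_, Gd.clasp (fun h => by cases h) g1 g2, h1.claspB h2⟩
  | rotA S ihS =>
    obtain ⟨X, g1, h1⟩ := ihS
    exact ⟨_, Gd.rot (fun h => by cases h) (fun h => by cases h) g1, h1.rotA⟩
  | rotB S ihS =>
    obtain ⟨X, g1, h1⟩ := ihS
    exact ⟨_, Gd.rot (fun h => by cases h) (fun h => by cases h) g1, h1.rotB⟩

end LG3
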