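import Pool.Agent.Lib.MP_3cd99b_gt.Y5
import Pool.Agent.Lib.MP_3cd99b_gt.Bridge
import Pool.Agent.Lib.MP_3cd99b_gt.Unq
import Pool.Agent.Lib.MP_3cd99b_gt.S

/-! The Links-Gould polynomials of alternating arborescent links. -/

open Finset

namespace LG3

theorem dirs_app (w w' : List Piece) (l : List Bool) : dirs (w ++ w') l = (dirs w l).bind (dirs w') := by
  induction w generalizing l with
  | nil => rfl
  | cons p w ih =>
    show (p.dir l).bind (dirs (w ++ w')) = ((p.dir l).bind (dirs w)).bind (dirs w')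
    rw [Option.bind_assoc]
    congr 1
    funext m
    exact ih m

/-- the directions of the strands of a tangle -/
def din : Kd → List Bool
  | .P => [true, true]
  | .A => [true, false]
  | .B => [false, true]

theorem dir_cup (k : ℕ) (f : Bool) (l r : List Bool) (h : l.length = k) (w : List Piece) :
    dirs (.cup k f :: w) (l ++ r) = dirs w (l ++ f :: (!f) :: r) := by
  subst h
  rw [dirs, Piece.dir, if_pos (by simp)]
  simp

theorem dir_cap (k : ℕ) (f : Bool) (l r : List Bool) (h : l.length = k) (w : List Piece) :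
    dirs (.cap k f :: w) (l ++ f :: (!f) :: r) = dirs w (l ++ r) := by
  subst h
  have e : (l ++ f :: (!f) :: r).drop (l.length + 2) = r := by
    rw [List.drop_append]
    simp
  rw [dirs, Piece.dir, e, if_pos (by simp)]
  simp

theorem dir_cross (k : ℕ) (s : Bool) (l r : List Bool) (h : l.length = k) :
    dirs [.cross k s] (l ++ true :: true :: r) = some (l ++ true :: true :: r) := by
  subst h
  have e : (l ++ true :: true :: r).drop (l.length + 2) = r := by
    rw [List.drop_append]
    simp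
  rw [dirs, Piece.dir, e, if_pos (by simp)]
  rfl

/-- w keeps the directions -/
def Kp (k : Kd) (w : List Piece) : Prop :=
  ∀ (j : ℕ) (l r : List Bool) (w' : List Piece), l.length = j → dirs (shD j w ++ w') (l ++ (din k ++ r)) = dirs w' (l ++ (din k ++ r))

theorem Kp.glueF {w w' : List Piece} {k : Kd} (hk : k = .P ∨ k = .A) (h : Kp .A w) (h' : Kp k w') :
    Kp k (glueD false w w') := by
  intro j l r v hl
  have e0 : shD j (glueD false w w') ++ v =
      .cup (1 + j) false :: (shD j w ++ (shD (2 + j) w' ++ (.cap (1 + j) false :: v))) := by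
    rw [glueD, shD_cons, shD_append, shD_append, shD_shD]
    simp [shD, Piece.sh]
  obtain ⟨y, hy⟩ : ∃ y, din k = [true, y] := by
    rcases hk with rfl | rfl
    · exact ⟨_, rfl⟩
    · exact ⟨_, rfl⟩
  have e1 : l ++ (din k ++ r) = (l ++ [true]) ++ (y :: r) := by rw [hy]; simp
  rw [e0, e1, dir_cup (1 + j) false _ _ (by simp [hl]; omega)]
  have e2 : (l ++ [true]) ++ false :: (!false) :: y :: r = l ++ (din .A ++ (true :: y :: r)) := by simp [din]
  rw [e2, h j l _ _ hl]
  have e3 : l ++ (din .A ++ (true :: y :: r)) = (l ++ [true, false]) ++ (din k ++ r) := by rw [hy]; simp [din]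
  rw [e3, h' (2 + j) _ _ _ (by simp [hl]; omega)]
  have e4 : (l ++ [true, false]) ++ (din k ++ r) = (l ++ [true]) ++ false :: (!false) :: y :: r := by rw [hy]; simp
  rw [e4, dir_cap (1 + j) false _ _ (by simp [hl]; omega)]

theorem Kp.glueT {w w' : List Piece} {k : Kd} (hk : k = .P ∨ k = .B) (h : Kp k w) (h' : Kp .B w') :
    Kp k (glueD true w w') := by
  intro j l r v hl
  have e0 : shD j (glueD true w w') ++ v =
      .cup (1 + j) true :: (shD j w ++ (shD (2 + j) w' ++ (.cap (1 + j) true :: v))) := by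
    rw [glueD, shD_cons, shD_append, shD_append, shD_shD]
    simp [shD, Piece.sh]
  obtain ⟨y, hy⟩ : ∃ y, din k = [y, true] := by
    rcases hk with rfl | rfl
    · exact ⟨_, rfl⟩
    · exact ⟨_, rfl⟩
  have e1 : l ++ (din k ++ r) = (l ++ [y]) ++ (true :: r) := by rw [hy]; simp
  rw [e0, e1, dir_cup (1 + j) true _ _ (by simp [hl]; omega)]
  have e2 : (l ++ [y]) ++ true :: (!true) :: true :: r = l ++ (din k ++ (false :: true :: r)) := by rw [hy]; simp
  rw [e2, h j l _ _ hl]
  have e3 : l ++ (din k ++ (false :: true :: r)) = (l ++ [y, true]) ++ (din .B ++ r) := by rw [hy]; simp [din]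
  rw [e3, h' (2 + j) _ _ _ (by simp [hl]; omega)]
  have e4 : (l ++ [y, true]) ++ (din .B ++ r) = (l ++ [y]) ++ true :: (!true) :: true :: r := by simp [din]
  rw [e4, dir_cap (1 + j) true _ _ (by simp [hl]; omega)]

theorem Kp.claspA {w w' : List Piece} (h : Kp .P w) (h' : Kp .P w') : Kp .A (claspD w w') := by
  intro j l r v hl
  have e0 : shD j (claspD w w') ++ v = .cup (1 + j) true :: (shD j w ++ (.cup (1 + j) false ::
      (shD (2 + j) w' ++ (.cap (3 + j) true :: .cap (2 + j) true :: v)))) := by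
    rw [claspD, shD_cons, shD_append, shD_cons, shD_append, shD_shD]
    simp [shD, Piece.sh]
  have e1 : l ++ (din .A ++ r) = (l ++ [true]) ++ (false :: r) := by simp [din]
  rw [e0, e1, dir_cup (1 + j) true _ _ (by simp [hl]; omega)]
  have e2 : (l ++ [true]) ++ true :: (!true) :: false :: r = l ++ (din .P ++ (false :: false :: r)) := by simp [din]
  rw [e2, h j l _ _ hl]
  have e3 : l ++ (din .P ++ (false :: false :: r)) = (l ++ [true]) ++ (true :: false :: false :: r) := by simp [din]
  rw [e3, dir_cup (1 + j) false _ _ (by simp [hl]; omega)]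
  have e4 : (l ++ [true]) ++ false :: (!false) :: true :: false :: false :: r =
      (l ++ [true, false]) ++ (din .P ++ (false :: false :: r)) := by simp [din]
  rw [e4, h' (2 + j) _ _ _ (by simp [hl]; omega)]
  have e5 : (l ++ [true, false]) ++ (din .P ++ (false :: false :: r)) =
      (l ++ [true, false, true]) ++ true :: (!true) :: false :: r := by simp [din]
  rw [e5, dir_cap (3 + j) true _ _ (by simp [hl]; omega)]
  have e6 : (l ++ [true, false, true]) ++ false :: r = (l ++ [true, false]) ++ true :: (!true) :: r := by simp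
  rw [e6, dir_cap (2 + j) true _ _ (by simp [hl]; omega)]
  congr 1
  simp

theorem Kp.claspB {w w' : List Piece} (h : Kp .P w) (h' : Kp .P w') : Kp .B (claspD' w w') := by
  intro j l r v hl
  have e0 : shD j (claspD' w w') ++ v = .cup (1 + j) false :: (shD (2 + j) w' ++ (.cup (3 + j) true ::
      (shD (2 + j) w ++ (.cap (1 + j) false :: .cap j false :: v)))) := by
    rw [claspD', shD_cons, shD_append, shD_cons, shD_append, shD_shD, shD_shD]
    simp [shD, Piece.sh]
  have e1 : l ++ (din .B ++ r) = (l ++ [false]) ++ (true :: r) := by simp [din]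
  rw [e0, e1, dir_cup (1 + j) false _ _ (by simp [hl]; omega)]
  have e2 : (l ++ [false]) ++ false :: (!false) :: true :: r = (l ++ [false, false]) ++ (din .P ++ r) := by simp [din]
  rw [e2, h' (2 + j) _ _ _ (by simp [hl]; omega)]
  have e3 : (l ++ [false, false]) ++ (din .P ++ r) = (l ++ [false, false, true]) ++ (true :: r) := by simp [din]
  rw [e3, dir_cup (3 + j) true _ _ (by simp [hl]; omega)]
  have e4 : (l ++ [false, false, true]) ++ true :: (!true) :: true :: r =
      (l ++ [false, false]) ++ (din .P ++ (false :: true :: r)) := by simp [din]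
  rw [e4, h (2 + j) _ _ _ (by simp [hl]; omega)]
  have e5 : (l ++ [false, false]) ++ (din .P ++ (false :: true :: r)) =
      (l ++ [false]) ++ false :: (!false) :: (true :: false :: true :: r) := by simp [din]
  rw [e5, dir_cap (1 + j) false _ _ (by simp [hl]; omega)]
  have e6 : (l ++ [false]) ++ (true :: false :: true :: r) = l ++ false :: (!false) :: (false :: true :: r) := by simp
  rw [e6, dir_cap j false _ _ hl]
  congr 1

theorem Kp.rot {f : Bool} {w : List Piece} {k k' : Kd} (hk : din k = [!f, f]) (hk' : din k' = [f, !f]) (h : Kp k w) :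
    Kp k' (rotD f w) := by
  intro j l r v hl
  have e0 : shD j (rotD f w) ++ v = .cup j f :: (shD (1 + j) w ++ (.cap (2 + j) f :: v)) := by
    rw [rotD, shD_cons, shD_append, shD_shD]
    simp [shD, Piece.sh]
  rw [e0, dir_cup j f _ _ hl]
  have e1 : l ++ f :: (!f) :: (din k' ++ r) = (l ++ [f]) ++ (din k ++ ((!f) :: r)) := by rw [hk, hk']; simp
  rw [e1, h (1 + j) _ _ _ (by simp [hl]; omega)]
  have e2 : (l ++ [f]) ++ (din k ++ ((!f) :: r)) = (l ++ [f, !f]) ++ f :: (!f) :: r := by rw [hk]; simp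
  rw [e2, dir_cap (2 + j) f _ _ (by simp [hl]; omega), hk']
  congr 1
  simp

/-- tangles keep the directions -/
theorem AltTangle.kp {s : Bool} {k : Kd} (T : AltTangle s k) : Kp k T.diag := by
  induction T with
  | cross s =>
    intro j l r v hl
    have e : shD j [.cross 0 s] = [.cross j s] := by simp [shD, Piece.sh]
    rw [AltTangle.diag, e, dirs_app]
    have e1 : l ++ (din .P ++ r) = l ++ true :: true :: r := by simp [din]
    rw [e1, dir_cross j s l r hl, Option.bind_some]
  | ver S T ihS ihT =>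
    intro j l r v hl
    rw [AltTangle.diag, shD_append, List.append_assoc, ihS j l r _ hl, ihT j l r _ hl]
  | horA S T ihS ihT => exact Kp.glueF (Or.inl rfl) ihS ihT
  | horB S T ihS ihT => exact Kp.glueT (Or.inl rfl) ihS ihT
  | horAA S T ihS ihT => exact Kp.glueF (Or.inr rfl) ihS ihT
  | horBB S T ihS ihT => exact Kp.glueT (Or.inr rfl) ihS ihT
  | claspA S T ihS ihT => exact Kp.claspA ihS ihT
  | claspB S T ihS ihT => exact Kp.claspB ihS ihT
  | rotA S ihS => exact Kp.rot (f := true) rfl rfl ihS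
  | rotB S ihS => exact Kp.rot (f := false) rfl rfl ihS

theorem shD_zero (w : List Piece) : shD 0 w = w := by
  rw [shD]
  conv_rhs => rw [← List.map_id w]
  refine List.map_congr_left fun p _ => ?_
  cases p <;> rfl

theorem AltTangle.dirs_link {s : Bool} {k : Kd} (T : AltTangle s k) : dirs T.link [true] = some [true] := by
  have h := T.kp
  cases k with
  | P =>
    have e1 : ([true] : List Bool) = [true] ++ [] := by simp
    rw [AltTangle.link, e1, dir_cup 1 true _ _ rfl]
    have h2 := h 0 [] [false] [.cap 1 true] rfl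
    rw [shD_zero] at h2
    have e2 : ([true] : List Bool) ++ true :: (!true) :: [] = [] ++ (din .P ++ [false]) := by simp [din]
    rw [e2, h2, ← e2, dir_cap 1 true _ _ rfl]
    rfl
  | A =>
    have e1 : ([true] : List Bool) = [true] ++ [] := by simp
    rw [AltTangle.link, e1, dir_cup 1 false _ _ rfl]
    have h2 := h 0 [] [true] [.cap 1 false] rfl
    rw [shD_zero] at h2
    have e2 : ([true] : List Bool) ++ false :: (!false) :: [] = [] ++ (din .A ++ [true]) := by simp [din]
    rw [e2, h2, ← e2, dir_cap 1 false _ _ rfl]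
    rfl
  | B =>
    have e1 : ([true] : List Bool) = [] ++ [true] := by simp
    rw [AltTangle.link, e1, dir_cup 0 true _ _ rfl]
    have h2 := h 1 [true] [] [.cap 0 true] rfl
    have e2 : ([] : List Bool) ++ true :: (!true) :: [true] = [true] ++ (din .B ++ []) := by simp [din]
    rw [e2, h2, ← e2, dir_cap 0 true _ _ rfl]
    rfl

/-! ### the polynomial -/

/-- the sign of a monomial -/
def sgm (z : ℤ × ℤ) : ℤ := if Even (z.1 + z.2) then 1 else -1

theorem sgm_ne (z : ℤ × ℤ) : sgm z ≠ 0 := by
  rw [sgm]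
  split_ifs <;> norm_num

/-- the polynomial with the coefficients of f and alternating signs -/
noncomputable def altP (n : ℕ) (f : LA) : ℤ × ℤ →₀ ℤ :=
  f.coeff.mapRange (fun c => (-1) ^ n * c) (by simp) |>.zipWith (fun a b => a * b) (by simp)
    (Finsupp.onFinset f.coeff.support (fun z => if f.coeff z = 0 then 0 else sgm z) (fun z h => by
      rw [Finsupp.mem_support_iff]
      intro h2
      exact h (if_pos h2)))

theorem altP_apply (n : ℕ) (f : LA) (z : ℤ × ℤ) : altP n f z = (-1) ^ n * f.coeff z * sgm z := by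
  rw [altP, Finsupp.zipWith_apply, Finsupp.mapRange_apply, Finsupp.onFinset_apply]
  split_ifs with h
  · rw [h]
    ring
  · rfl

theorem supp_altP (n : ℕ) (f : LA) : (altP n f).support = f.coeff.support := by
  ext z
  rw [Finsupp.mem_support_iff, Finsupp.mem_support_iff, altP_apply]
  have h1 : (-1 : ℤ) ^ n ≠ 0 := pow_ne_zero _ (by norm_num)
  have h2 := sgm_ne z
  simp [h1, h2]

theorem sgm_cast (z : ℤ × ℤ) (x y : ℂ) : (sgm z : ℂ) * (x ^ z.1 * y ^ z.2) = (-x) ^ z.1 * (-y) ^ z.2 := by
  have h : ((-1 : ℂ)) ^ (z.1 + z.2) = (sgm z : ℂ) := by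
    rw [sgm]
    split_ifs with h
    · rw [h.neg_one_zpow]
      simp
    · rw [(Int.not_even_iff_odd.mp h).neg_one_zpow]
      simp
  rw [← h, zpow_add₀ (by norm_num), ← neg_one_mul x, ← neg_one_mul y, mul_zpow, mul_zpow]
  ring

theorem evalAt_altP (n : ℕ) (f : LA) (x y : ℂ) (hx : -x ≠ 0) (hy : -y ≠ 0) :
    evalAt (altP n f) x y = (-1) ^ n * evL (-x) (-y) hx hy f := by
  rw [evalAt, Finsupp.sum, supp_altP, evL_apply, Finsupp.sum, Finset.mul_sum]
  refine Finset.sum_congr rfl fun z _ => ?_
  rw [altP_apply, ← sgm_cast]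
  push_cast
  ring

/-- the support of the closure -/
theorem Gd.sa {k : Kd} {o : Oo} {T : Tr LA} (h : Gd k o T) : Sp T.a o.a ∧ Pos T.a := by
  obtain ⟨m, p, q⟩ := o
  have key : (CA T ∧ if m then SH T p q else SV T p q) → Sp T.a (Oo.a ⟨m, p, q⟩) ∧ Pos T.a := by
    rintro ⟨h1, h2⟩
    cases m
    · exact ⟨h2.ha, h1.a⟩
    · exact ⟨h2.ha, h1.a⟩
  cases k
  · obtain ⟨h1, h2, h3⟩ := h
    have h4 : m = false := h3
    subst h4
    exact ⟨h2.ha, h1.aa⟩
  · exact key h
  · exact key h

theorem AltTangle.amp_link {s : Bool} {k : Kd} (T : AltTangle s k) {X : Tr LA} (h : Has k s T.diag T.count X) (α β : ℂ) (ha : α ≠ 0)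
    (hb : β ≠ 0) (i j : Fin 4) : amp α β T.link [i] [j] =
      if i = j then (-1) ^ T.signExp * evL (us α β s) (vs α β s) (us_ne ha s) (vs_ne hb s) X.a else 0 := by
  cases k with
  | P =>
    have h1 := h α β ha hb 0
    rw [shD_zero] at h1
    rw [AltTangle.link, amp_clP h1, cl_smul, MT, Mf_clP ha hb, AltTangle.signExp]
    split_ifs
    · rw [evT, pow_succ]
      ring
    · rw [mul_zero]
  | A =>
    have h1 := h α β ha hb 0
    rw [shD_zero] at h1
    have h2 : amp α β T.link [i] [j] = clA α β ((-1 : ℂ) ^ T.count • MT ha hb .A s X) i j := amp_clA h1 i j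
    have h3 : clA α β ((-1 : ℂ) ^ T.count • MT ha hb .A s X) i j = (-1 : ℂ) ^ T.count * clA α β (MT ha hb .A s X) i j := by
      simp only [clA, Matrix.smul_apply, smul_eq_mul, Finset.mul_sum]
      exact Finset.sum_congr rfl (fun _ _ => by ring)
    rw [h2, h3, MT, Mf_clA ha hb, AltTangle.signExp]
    split_ifs
    · rw [evT]
    · rw [mul_zero]
  | B =>
    have h1 := h α β ha hb 1
    have h2 : amp α β T.link [i] [j] = clB α β ((-1 : ℂ) ^ T.count • MT ha hb .B s X) i j := amp_clB h1 i j
    have h3 : clB α β ((-1 : ℂ) ^ T.count • MT ha hb .B s X) i j = (-1 : ℂ) ^ T.count * clB α β (MT ha hb .B s X) i j := by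
      simp only [clB, Matrix.smul_apply, smul_eq_mul, Finset.mul_sum]
      exact Finset.sum_congr rfl (fun _ _ => by ring)
    rw [h2, h3, MT, Mf_clB ha hb, AltTangle.signExp]
    split_ifs
    · rw [evT]
    · rw [mul_zero]

/-- octagons have no holes -/
theorem ni_oc (o : Oc) : NoInteriorZeros {z : ℤ × ℤ | o.mem z.1 z.2} := by
  intro z hz
  by_contra hn
  have key : ∀ a b : ℤ, (∀ w ∈ {z : ℤ × ℤ | o.mem z.1 z.2}, a * z.1 + b * z.2 < a * w.1 + b * w.2) → False :=
    fun a b h => sep a b h hz
  simp only [Oc.mem] at hn key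
  by_cases c1 : o.l ≤ z.1
  swap
  · exact key 1 0 fun w hw => by linarith [hw.1]
  by_cases c2 : z.1 ≤ o.r
  swap
  · exact key (-1) 0 fun w hw => by linarith [hw.2.1]
  by_cases c3 : o.l ≤ z.2
  swap
  · exact key 0 1 fun w hw => by linarith [hw.2.2.1]
  by_cases c4 : z.2 ≤ o.r
  swap
  · exact key 0 (-1) fun w hw => by linarith [hw.2.2.2.1]
  by_cases c5 : o.s ≤ z.1 + z.2
  swap
  · exact key 1 1 fun w hw => by linarith [hw.2.2.2.2.1]
  by_cases c6 : z.1 + z.2 ≤ o.t
  swap
  · exact key (-1) (-1) fun w hw => by linarith [hw.2.2.2.2.2.1]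
  by_cases c7 : z.1 - z.2 ≤ o.d
  swap
  · exact key (-1) 1 fun w hw => by linarith [hw.2.2.2.2.2.2.1]
  by_cases c8 : z.2 - z.1 ≤ o.d
  swap
  · exact key 1 (-1) fun w hw => by linarith [hw.2.2.2.2.2.2.2]
  exact hn ⟨c1, c2, c3, c4, c5, c6, c7, c8⟩

/-- the main theorem -/
theorem AltTangle.final {s : Bool} {k : Kd} (T : AltTangle s k) : ∃ P : ℤ × ℤ →₀ ℤ,
    (∀ Q : ℤ × ℤ →₀ ℤ, IsLinksGould T.link Q ↔ Q = P) ∧ (∀ i j : ℤ, P (i, j) ≠ 0 ↔ T.octagon.mem i j) ∧
      (∀ i j : ℤ, P (i, j) ≠ 0 → (0 < P (i, j) ↔ Even (i + j + T.signExp))) ∧ NoInteriorZeros {z | P z ≠ 0} := by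
  obtain ⟨X, g, h⟩ := T.main
  obtain ⟨g1, g2⟩ := g.sa
  set f : LA := if s then X.a else bar X.a with hf
  have hsp : Sp f T.octagon := by
    rw [hf, AltTangle.octagon]
    cases s
    · exact g1.bar
    · exact g1
  have hpos : Pos f := by
    rw [hf]
    cases s
    · exact g2.bar
    · exact g2
  have hP : ∀ i j, altP T.signExp f (i, j) ≠ 0 ↔ T.octagon.mem i j := by
    intro i j
    rw [← Finsupp.mem_support_iff, supp_altP, Finsupp.mem_support_iff]
    exact hsp i j
  have hL : IsLGold T.link (altP T.signExp f) := by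
    refine ⟨T.dirs_link, fun α β ha hb i j => ?_⟩
    rw [T.amp_link h α β ha hb i j]
    have hx : -α ^ 2 ≠ 0 := neg_ne_zero.mpr (pow_ne_zero 2 ha)
    have hy : -β ^ 2 ≠ 0 := neg_ne_zero.mpr (pow_ne_zero 2 hb)
    rw [evalAt_altP T.signExp f (α ^ 2) (β ^ 2) hx hy]
    congr 2
    rw [hf]
    cases s
    · rw [if_neg Bool.false_ne_true, evL_bar]
      exact evL_congr _ _ _ _ (us_false α β) (vs_false α β) _
    · rw [if_pos rfl]
      exact evL_congr _ _ _ _ (us_true α β) (vs_true α β) _
  refine ⟨altP T.signExp f, fun Q => ⟨fun hQ => ?_, fun hQ => ?_⟩, hP, fun i j hij => ?_, ?_⟩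
  · rw [isLinksGould_iff] at hQ
    exact hQ.unique hL
  · rw [hQ, isLinksGould_iff]
    exact hL
  · have h0 : 0 < f.coeff (i, j) := by
      have h1 : f.coeff (i, j) ≠ 0 := (hsp i j).mpr ((hP i j).mp hij)
      exact lt_of_le_of_ne (hpos i j) (Ne.symm h1)
    have e0 : Even (i + j + (T.signExp : ℤ)) ↔ (Even (i + j) ↔ Even (T.signExp : ℤ)) := Int.even_add
    rw [altP_apply, sgm, e0]
    rcases Nat.even_or_odd T.signExp with hc | hc
    · have hc' : Even (T.signExp : ℤ) := by exact_mod_cast hc
      rw [hc.neg_one_pow, one_mul]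
      simp only [hc', iff_true]
      split_ifs with he
      · rw [mul_one]
        exact ⟨fun _ => he, fun _ => h0⟩
      · exact ⟨fun h => by linarith, fun h => absurd h he⟩
    · have hc' : ¬ Even (T.signExp : ℤ) := by
        rw [Int.not_even_iff_odd]
        exact_mod_cast hc
      rw [hc.neg_one_pow]
      simp only [hc', iff_false]
      split_ifs with he
      · exact ⟨fun h => by linarith, fun h => absurd he h⟩
      · exact ⟨fun _ => he, fun _ => by linarith⟩
  · have e : {z : ℤ × ℤ | altP T.signExp f z ≠ 0} = {z : ℤ × ℤ | T.octagon.mem z.1 z.2} :=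
      Set.ext fun z => hP z.1 z.2
    rw [e]
    exact ni_oc _

end LG3
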