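import Pool.Agent.Lib.MP_3cd99b_gt.D0

/-!
Formal Laurent polynomials in two variables with a zero test that the kernel can run, and the R-matrix
of D0 in this form.
-/

namespace LG3P
open LG3

/-- formal Laurent polynomials: lists of (coefficient, exponent of a, exponent of b) -/
abbrev LP := List (ℤ × ℤ × ℤ)

section
variable {K : Type*} [Field K]

/-- the value of a formal Laurent polynomial -/
def ev (a b : K) (p : LP) : K := (p.map fun t => (t.1 : K) * (a ^ t.2.1 * b ^ t.2.2)).sum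

/-- product of formal Laurent polynomials -/
def lmul (p q : LP) : LP := p.flatMap fun s => q.map fun t => (s.1 * t.1, s.2.1 + t.2.1, s.2.2 + t.2.2)

/-- negative of a formal Laurent polynomial -/
def lneg (p : LP) : LP := p.map fun t => (-t.1, t.2)

/-- insert a term -/
def ins (t : ℤ × ℤ × ℤ) : LP → LP
  | [] => [t]
  | s :: l => if s.2 = t.2 then (s.1 + t.1, s.2) :: l else s :: ins t l

/-- collect terms -/
def nf (p : LP) : LP := p.foldr ins []

/-- the zero test -/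
def isZ (p : LP) : Bool := (nf p).all fun t => decide (t.1 = 0)

@[simp] theorem ev_nil (a b : K) : ev a b [] = 0 := rfl

theorem ev_cons (a b : K) (t : ℤ × ℤ × ℤ) (p : LP) :
    ev a b (t :: p) = (t.1 : K) * (a ^ t.2.1 * b ^ t.2.2) + ev a b p := by simp [ev]

theorem ev_append (a b : K) (p q : LP) : ev a b (p ++ q) = ev a b p + ev a b q := by simp [ev]

theorem ev_lneg (a b : K) (p : LP) : ev a b (lneg p) = - ev a b p := by
  induction p with
  | nil => simp [lneg]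
  | cons t p ih =>
    have : lneg (t :: p) = (-t.1, t.2) :: lneg p := rfl
    rw [this, ev_cons, ev_cons, ih]; push_cast; ring

theorem ev_mono_mul (a b : K) (ha : a ≠ 0) (hb : b ≠ 0) (s : ℤ × ℤ × ℤ) (q : LP) :
    ev a b (q.map fun t => (s.1 * t.1, s.2.1 + t.2.1, s.2.2 + t.2.2)) =
      (s.1 : K) * (a ^ s.2.1 * b ^ s.2.2) * ev a b q := by
  induction q with
  | nil => simp
  | cons t q ih =>
    rw [List.map_cons, ev_cons, ev_cons, ih]
    simp only [Int.cast_mul, zpow_add₀ ha, zpow_add₀ hb]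
    ring

theorem ev_lmul (a b : K) (ha : a ≠ 0) (hb : b ≠ 0) (p q : LP) :
    ev a b (lmul p q) = ev a b p * ev a b q := by
  induction p with
  | nil => simp [lmul]
  | cons t p ih =>
    have : lmul (t :: p) q = (q.map fun r => (t.1 * r.1, t.2.1 + r.2.1, t.2.2 + r.2.2)) ++ lmul p q := rfl
    rw [this, ev_append, ev_mono_mul a b ha hb, ih, ev_cons]; ring

theorem ev_ins (a b : K) (t : ℤ × ℤ × ℤ) (p : LP) : ev a b (ins t p) = ev a b (t :: p) := by
  induction p with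
  | nil => rfl
  | cons s p ih =>
    unfold ins
    split_ifs with h
    · rw [ev_cons, ev_cons, ev_cons]
      have h1 : s.2.1 = t.2.1 := by rw [h]
      have h2 : s.2.2 = t.2.2 := by rw [h]
      simp only [h1, h2, Int.cast_add]; ring
    · rw [ev_cons, ih, ev_cons, ev_cons, ev_cons]; ring

theorem ev_nf (a b : K) (p : LP) : ev a b (nf p) = ev a b p := by
  induction p with
  | nil => rfl
  | cons t p ih =>
    have : nf (t :: p) = ins t (nf p) := rfl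
    rw [this, ev_ins, ev_cons, ih, ev_cons]

theorem ev_of_isZ (a b : K) (p : LP) (h : isZ p = true) : ev a b p = 0 := by
  rw [← ev_nf]
  unfold isZ at h
  rw [List.all_eq_true] at h
  generalize nf p = q at h
  induction q with
  | nil => rfl
  | cons t q ih =>
    rw [ev_cons, ih (fun x hx => h x (List.mem_cons_of_mem _ hx))]
    have := h t List.mem_cons_self
    simp only [decide_eq_true_eq] at this
    rw [this]; simp

theorem ev_eq_of_isZ (a b : K) (p q : LP) (h : isZ (p ++ lneg q) = true) : ev a b p = ev a b q := by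
  have := ev_of_isZ a b _ h
  rw [ev_append, ev_lneg] at this
  linear_combination this

end

/-- the R-matrix as formal Laurent polynomials -/
def tabPL : List ((Fin 4 × Fin 4 × Fin 4 × Fin 4) × LP) :=
  [((0, 0, 0, 0), [(1, 2, 0)]), ((0, 1, 1, 0), [(1, 1, 0)]), ((0, 2, 2, 0), [(1, 1, 0)]), ((0, 3, 3, 0), [(1, 0, 0)]),
    ((1, 0, 0, 1), [(1, 1, 0)]), ((1, 0, 1, 0), [(1, 2, 0), (-1, 0, 0)]), ((1, 1, 1, 1), [(-1, 0, 0)]),
    ((1, 2, 1, 2), [(1, 2, 2), (-1, 0, 0)]), ((1, 2, 2, 1), [(-1, 1, 1)]),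
    ((1, 2, 3, 0), [(1, 3, 3), (-1, 3, 1), (-1, 1, 3), (1, 1, 1)]), ((1, 3, 3, 1), [(1, 0, 1)]),
    ((2, 0, 0, 2), [(1, 1, 0)]), ((2, 0, 2, 0), [(1, 2, 0), (-1, 0, 0)]), ((2, 1, 1, 2), [(-1, 1, 1)]),
    ((2, 1, 3, 0), [(1, 2, 0), (-1, 2, 2), (-1, 0, 0), (1, 0, 2)]), ((2, 2, 2, 2), [(-1, 0, 0)]), ((2, 3, 3, 2), [(1, 0, 1)]),
    ((3, 0, 0, 3), [(1, 0, 0)]), ((3, 0, 1, 2), [(-1, 1, 1)]), ((3, 0, 2, 1), [(1, 0, 0)]),
    ((3, 0, 3, 0), [(1, 2, 0), (-1, 2, 2), (-1, 0, 0), (1, 0, 2)]), ((3, 1, 1, 3), [(1, 0, 1)]), ((3, 1, 3, 1), [(1, 0, 2), (-1, 0, 0)]),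
    ((3, 2, 2, 3), [(1, 0, 1)]), ((3, 2, 3, 2), [(1, 0, 2), (-1, 0, 0)]), ((3, 3, 3, 3), [(1, 0, 2)])]

/-- the inverse R-matrix as formal Laurent polynomials -/
def tabML : List ((Fin 4 × Fin 4 × Fin 4 × Fin 4) × LP) :=
  [((0, 0, 0, 0), [(1, -2, 0)]), ((0, 1, 0, 1), [(1, -2, 0), (-1, 0, 0)]), ((0, 1, 1, 0), [(1, -1, 0)]),
    ((0, 2, 0, 2), [(1, -2, 0), (-1, 0, 0)]), ((0, 2, 2, 0), [(1, -1, 0)]),
    ((0, 3, 0, 3), [(1, -2, 0), (-1, 0, 0), (-1, -2, -2), (1, 0, -2)]), ((0, 3, 1, 2), [(1, -1, -1)]),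
    ((0, 3, 2, 1), [(-1, -2, -2)]), ((0, 3, 3, 0), [(1, 0, 0)]), ((1, 0, 0, 1), [(1, -1, 0)]),
    ((1, 1, 1, 1), [(-1, 0, 0)]), ((1, 2, 0, 3), [(-1, 1, 1), (1, -1, 1), (1, 1, -1), (-1, -1, -1)]),
    ((1, 2, 2, 1), [(-1, -1, -1)]), ((1, 3, 1, 3), [(1, 0, -2), (-1, 0, 0)]), ((1, 3, 3, 1), [(1, 0, -1)]),
    ((2, 0, 0, 2), [(1, -1, 0)]), ((2, 1, 0, 3), [(1, -2, -2), (-1, 0, -2), (-1, -2, 0), (1, 0, 0)]),
    ((2, 1, 1, 2), [(-1, -1, -1)]), ((2, 1, 2, 1), [(1, -2, -2), (-1, 0, 0)]), ((2, 2, 2, 2), [(-1, 0, 0)]),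
    ((2, 3, 2, 3), [(1, 0, -2), (-1, 0, 0)]), ((2, 3, 3, 2), [(1, 0, -1)]), ((3, 0, 0, 3), [(1, 0, 0)]), ((3, 1, 1, 3), [(1, 0, -1)]),
    ((3, 2, 2, 3), [(1, 0, -1)]), ((3, 3, 3, 3), [(1, 0, -2)])]

/-- the entries of the R-matrix of sign s as formal Laurent polynomials -/
def RL (s : Bool) (i j x y : Fin 4) : LP :=
  (((if s then tabPL else tabML).filter fun e => e.1 = (i, j, x, y)).map Prod.snd).flatten

section
variable {K : Type*} [Field K]

theorem tabP_eq (a b : K) : tabP a b = tabPL.map fun e => (e.1, ev a b e.2) := by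
  simp only [tabP, tabPL, List.map_cons, List.map_nil, ev_cons, ev_nil, List.cons.injEq, Prod.mk.injEq, true_and, and_true]
  norm_cast
  refine ⟨?_, ?_, ?_, ?_, ?_, ?_, ?_, ?_, ?_, ?_, ?_, ?_, ?_, ?_, ?_, ?_, ?_, ?_, ?_, ?_, ?_, ?_, ?_, ?_, ?_, ?_⟩ <;> push_cast <;> ring

theorem tabM_eq (a b : K) (ha : a ≠ 0) (hb : b ≠ 0) : tabM a b = tabML.map fun e => (e.1, ev a b e.2) := by
  have e1 : ∀ x : K, x ^ (-1 : ℤ) = x⁻¹ := fun x => zpow_neg_one x
  have e2 : ∀ x : K, x ^ (-2 : ℤ) = (x ^ 2)⁻¹ := fun x => by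
    rw [zpow_neg]; norm_cast
  simp only [tabM, tabML, List.map_cons, List.map_nil, ev_cons, ev_nil, List.cons.injEq, Prod.mk.injEq, true_and, and_true, e1, e2, zpow_one, zpow_zero]
  refine ⟨?_, ?_, ?_, ?_, ?_, ?_, ?_, ?_, ?_, ?_, ?_, ?_, ?_, ?_, ?_, ?_, ?_, ?_, ?_, ?_, ?_, ?_, ?_, ?_, ?_, ?_⟩ <;> push_cast <;> field_simp <;> ring

theorem ev_flatten (a b : K) (l : List LP) : ev a b l.flatten = (l.map (ev a b)).sum := by
  induction l with
  | nil => rfl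
  | cons p l ih => simp [ev_append, ih]

theorem RM_eq (a b : K) (ha : a ≠ 0) (hb : b ≠ 0) (s : Bool) (i j x y : Fin 4) :
    RM a b s i j x y = ev a b (RL s i j x y) := by
  unfold RM RL
  rw [ev_flatten]
  cases s
  · simp only [Bool.false_eq_true, if_false, tabM_eq a b ha hb, List.filter_map, List.map_map]
    rfl
  · simp only [if_true, tabP_eq a b, List.filter_map, List.map_map]
    rfl

end

end LG3P
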