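import Pool.Agent.Lib.MP_3cd99b_gt.Z0

/-!
Contents, head factors, options (marks) of the pieces, and the finite local identities, checked by the
kernel on formal Laurent polynomials.
-/

namespace LG3P
open LG3

/-- inclusion of contents (a content is a set of labels 1, 2, written 0, 1, 2, 3) -/
def sb (x y : Fin 4) : Bool := Nat.beq (x.val &&& y.val) x.val

/-- difference of contents -/
def dif (x y : Fin 4) : Fin 4 :=
  ⟨x.val &&& (3 - y.val), lt_of_le_of_lt Nat.and_le_left x.isLt⟩

/-- number of labels 1 -/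
def h1 (x : Fin 4) : ℤ := Int.ofNat (x.val % 2)

/-- number of labels 2 -/
def h2 (x : Fin 4) : ℤ := Int.ofNat (x.val / 2)

/-- content of a strand of direction f in the state i -/
def cn (f : Bool) (i : Fin 4) : Fin 4 := if f then i else dif 3 i

/-- content that goes down to the next strand: c = content of the region below the strand -/
def d1 (f : Bool) (D c i : Fin 4) : Fin 4 := dif c (dif (cn f i) D)

/-- admissible strand state -/
def ok1 (f : Bool) (D c i : Fin 4) : Bool := sb D (cn f i) && sb (dif (cn f i) D) c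

/-- two admissible strand states -/
def ok2 (f g : Bool) (D c c' i j : Fin 4) : Bool := ok1 f D c i && ok1 g (d1 f D c i) c' j

/-- content that goes down below two strands -/
def d2 (f g : Bool) (D c c' i j : Fin 4) : Fin 4 := d1 g (d1 f D c i) c' j

/-- sign of a direction -/
def sg (f : Bool) : ℤ := if f then 1 else -1

/-- base factors, forward strand: rows D, columns content -/
def bsF : List (List LP) :=
  [[[(1, 0, 0)], [(1, 0, 0)], [(1, 0, 0)], [(1, 2, 0), (-1, 0, 0)]],
   [[], [(1, 0, 0)], [], [(1, 2, 0), (-1, 0, 0)]],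
   [[], [], [(-1, 2, 0)], [(-1, 2, -2), (1, 0, -2)]],
   [[], [], [], [(-1, 2, -2), (1, 0, -2)]]]

/-- base factors times a^2 - 1, backward strand: rows D, columns content -/
def bsB : List (List LP) :=
  [[[(1, -1, -3)], [(-1, 1, 0), (1, -1, 0)], [(-1, 3, -2), (1, 1, -2)], [(-1, 4, 0), (1, 2, 0)]],
   [[], [(1, 1, 0), (-1, -1, 0)], [], [(1, 4, 0), (-1, 2, 0)]],
   [[], [], [(-1, 3, 0), (1, 1, 0)], [(-1, 2, 0), (1, 0, 0)]],
   [[], [], [], [(1, 2, 0), (-1, 0, 0)]]]

/-- base factor -/
def bs (f : Bool) (D E : Fin 4) : LP := ((if f then bsF else bsB).getD D.val []).getD E.val []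

/-- exponents of the head monomial: sign, a, b -/
def mdx (f : Bool) (m n : ℤ) (i : Fin 4) : ℤ × ℤ × ℤ :=
  (sg f * (m + n * h1 i), sg f * (m - n - m * h2 i), sg f * (-(n * h1 i) - 2 * (m * h2 i)))

/-- head monomial -/
def mdL (f : Bool) (m n : ℤ) (i : Fin 4) : ℤ × ℤ × ℤ :=
  (if (m + n * h1 i) % 2 = 0 then 1 else -1, (mdx f m n i).2)

/-- head factor (times a^2 - 1 for a backward strand) -/
def hdL (f : Bool) (D i : Fin 4) (m n : ℤ) : LP := lmul [mdL f m n i] (bs f D (cn f i))

/-- the factor of two strands with tail weights 0 -/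
def locL (f g : Bool) (D c i j : Fin 4) : LP :=
  lmul (hdL f D i (sg g * h1 j) (sg g * h2 j)) (hdL g (d1 f D c i) j 0 0)

/-- the four states -/
def all4 : List (Fin 4) := [0, 1, 2, 3]

/-- all pairs of states -/
def all16 : List (Fin 4 × Fin 4) :=
  [(0, 0), (0, 1), (0, 2), (0, 3), (1, 0), (1, 1), (1, 2), (1, 3), (2, 0), (2, 1), (2, 2), (2, 3), (3, 0), (3, 1),
    (3, 2), (3, 3)]

/-- the corners of a crossing -/
inductive Mk
  | L | R | T | B
  deriving DecidableEq

/-- the marks that a label (x = 1 or 2) may put at a crossing whose left region has content c and whose lower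
region has content c' -/
def mks (x c c' : Fin 4) : List Mk :=
  if sb x c then [.L] else if sb x c' then [.R, .T, .B] else [.R, .T]

/-- exponents of u = -a^2 and v = -b^2 in the weight of a crossing of sign e with marks m (label 2: the state
S1) and n (label 1: the state S2) -/
def wx (e : Bool) (m n : Mk) : ℤ × ℤ :=
  if e then
    if (m = .R ∨ m = .T) ∧ (n = .R ∨ n = .B) then (1, 0)
    else if (m = .L ∨ m = .B) ∧ (n = .L ∨ n = .T) then (0, 1) else (0, 0)
  else
    if (m = .R ∨ m = .B) ∧ (n = .R ∨ n = .T) then (-1, 0)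
    else if (m = .L ∨ m = .T) ∧ (n = .L ∨ n = .B) then (0, -1) else (0, 0)

/-- does the mark carry a sign -/
def sgm (e : Bool) (m : Mk) : Bool := if e then decide (m = .B) else decide (m = .T)

/-- the new content of the right region after marks m (label 2) and n (label 1) -/
def newc (m n : Mk) : Fin 4 :=
  if n = .R then (if m = .R then 0 else 2) else (if m = .R then 1 else 3)

/-- the set of labels with mark y -/
def lab (y m n : Mk) : Fin 4 :=
  if n = y then (if m = y then 3 else 1) else (if m = y then 2 else 0)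

/-- an option: labels taken from the region above, sign, exponents of a^2 and b^2, contents below -/
structure Op where
  /-- labels taken from the region above -/
  T : Fin 4
  /-- sign -/
  e : ℤ
  /-- exponent of a^2 -/
  p : ℤ
  /-- exponent of b^2 -/
  q : ℤ
  /-- contents -/
  S : List (Fin 4)

/-- the options of a crossing with middle content c and lower content c' -/
def opX (e : Bool) (c c' : Fin 4) : List (Fin 4 × ℤ × ℤ × ℤ × Fin 4 × Fin 4) :=
  (mks 2 c c').flatMap fun m => (mks 1 c c').map fun n =>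
    (lab .T m n,
      (if (sgm e m ^^ sgm e n) ^^ decide ((wx e m n).1 + (wx e m n).2 = 0) then -1 else 1),
      (wx e m n).1, (wx e m n).2, newc m n, dif c' (lab .B m n))

/-- nested table of the R-matrix -/
def nP : List (List (List (List LP))) :=
  [[[[[(1,2,0)],[],[],[]],[[],[],[],[]],[[],[],[],[]],[[],[],[],[]]],
     [[[],[],[],[]],[[(1,1,0)],[],[],[]],[[],[],[],[]],[[],[],[],[]]],
     [[[],[],[],[]],[[],[],[],[]],[[(1,1,0)],[],[],[]],[[],[],[],[]]],
     [[[],[],[],[]],[[],[],[],[]],[[],[],[],[]],[[(1,0,0)],[],[],[]]]],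
    [[[[],[(1,1,0)],[],[]],[[(1,2,0),(-1,0,0)],[],[],[]],[[],[],[],[]],[[],[],[],[]]],
     [[[],[],[],[]],[[],[(-1,0,0)],[],[]],[[],[],[],[]],[[],[],[],[]]],
     [[[],[],[],[]],[[],[],[(1,2,2),(-1,0,0)],[]],[[],[(-1,1,1)],[],[]],[[(1,3,3),(-1,3,1),(-1,1,3),(1,1,1)],[],[],[]]],
     [[[],[],[],[]],[[],[],[],[]],[[],[],[],[]],[[],[(1,0,1)],[],[]]]],
    [[[[],[],[(1,1,0)],[]],[[],[],[],[]],[[(1,2,0),(-1,0,0)],[],[],[]],[[],[],[],[]]],
     [[[],[],[],[]],[[],[],[(-1,1,1)],[]],[[],[],[],[]],[[(1,2,0),(-1,2,2),(-1,0,0),(1,0,2)],[],[],[]]],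
     [[[],[],[],[]],[[],[],[],[]],[[],[],[(-1,0,0)],[]],[[],[],[],[]]],
     [[[],[],[],[]],[[],[],[],[]],[[],[],[],[]],[[],[],[(1,0,1)],[]]]],
    [[[[],[],[],[(1,0,0)]],[[],[],[(-1,1,1)],[]],[[],[(1,0,0)],[],[]],[[(1,2,0),(-1,2,2),(-1,0,0),(1,0,2)],[],[],[]]],
     [[[],[],[],[]],[[],[],[],[(1,0,1)]],[[],[],[],[]],[[],[(1,0,2),(-1,0,0)],[],[]]],
     [[[],[],[],[]],[[],[],[],[]],[[],[],[],[(1,0,1)]],[[],[],[(1,0,2),(-1,0,0)],[]]],
     [[[],[],[],[]],[[],[],[],[]],[[],[],[],[]],[[],[],[],[(1,0,2)]]]]]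

/-- nested table of the inverse R-matrix -/
def nM : List (List (List (List LP))) :=
  [[[[[(1,-2,0)],[],[],[]],[[],[],[],[]],[[],[],[],[]],[[],[],[],[]]],
     [[[],[(1,-2,0),(-1,0,0)],[],[]],[[(1,-1,0)],[],[],[]],[[],[],[],[]],[[],[],[],[]]],
     [[[],[],[(1,-2,0),(-1,0,0)],[]],[[],[],[],[]],[[(1,-1,0)],[],[],[]],[[],[],[],[]]],
     [[[],[],[],[(1,-2,0),(-1,0,0),(-1,-2,-2),(1,0,-2)]],[[],[],[(1,-1,-1)],[]],[[],[(-1,-2,-2)],[],[]],[[(1,0,0)],[],[],[]]]],
    [[[[],[(1,-1,0)],[],[]],[[],[],[],[]],[[],[],[],[]],[[],[],[],[]]],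
     [[[],[],[],[]],[[],[(-1,0,0)],[],[]],[[],[],[],[]],[[],[],[],[]]],
     [[[],[],[],[(-1,1,1),(1,-1,1),(1,1,-1),(-1,-1,-1)]],[[],[],[],[]],[[],[(-1,-1,-1)],[],[]],[[],[],[],[]]],
     [[[],[],[],[]],[[],[],[],[(1,0,-2),(-1,0,0)]],[[],[],[],[]],[[],[(1,0,-1)],[],[]]]],
    [[[[],[],[(1,-1,0)],[]],[[],[],[],[]],[[],[],[],[]],[[],[],[],[]]],
     [[[],[],[],[(1,-2,-2),(-1,0,-2),(-1,-2,0),(1,0,0)]],[[],[],[(-1,-1,-1)],[]],[[],[(1,-2,-2),(-1,0,0)],[],[]],[[],[],[],[]]],
     [[[],[],[],[]],[[],[],[],[]],[[],[],[(-1,0,0)],[]],[[],[],[],[]]],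
     [[[],[],[],[]],[[],[],[],[]],[[],[],[],[(1,0,-2),(-1,0,0)]],[[],[],[(1,0,-1)],[]]]],
    [[[[],[],[],[(1,0,0)]],[[],[],[],[]],[[],[],[],[]],[[],[],[],[]]],
     [[[],[],[],[]],[[],[],[],[(1,0,-1)]],[[],[],[],[]],[[],[],[],[]]],
     [[[],[],[],[]],[[],[],[],[]],[[],[],[],[(1,0,-1)]],[[],[],[],[]]],
     [[[],[],[],[]],[[],[],[],[]],[[],[],[],[]],[[],[],[],[(1,0,-2)]]]]]

/-- entries of the R-matrix by the nested table -/
def RN (s : Bool) (i j x y : Fin 4) : LP :=
  ((((if s then nP else nM).getD i.val []).getD j.val []).getD x.val []).getD y.val []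

theorem RN_eq : ∀ s i j x y, RN s i j x y = RL s i j x y := by decide +kernel

/-- left side of the local identity of a crossing -/
def lX (e : Bool) (D c c' x y E : Fin 4) : LP :=
  all16.flatMap fun ij => if ok2 true true D c c' ij.1 ij.2 && Nat.beq (d2 true true D c c' ij.1 ij.2).val E.val then
    lmul (locL true true D c ij.1 ij.2) (RN e ij.1 ij.2 x y) else []

/-- right side of the local identity of a crossing -/
def rX (e : Bool) (D c c' x y E : Fin 4) : LP :=
  (opX e c c').flatMap fun o => if sb o.1 D && (ok2 true true (dif D o.1) o.2.2.2.2.1 o.2.2.2.2.2 x y &&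
      Nat.beq (d2 true true (dif D o.1) o.2.2.2.2.1 o.2.2.2.2.2 x y).val E.val) then
    lmul [(o.2.1, 2 * o.2.2.1, 2 * o.2.2.2.1)] (locL true true (dif D o.1) o.2.2.2.2.1 x y) else []

theorem testX : ∀ e D c c' x y E, isZ (lX e D c c' x y E ++ lneg (rX e D c c' x y E)) = true := by
  decide +kernel

/-- coefficient of a cup -/
def cupc (f : Bool) (i : Fin 4) : LP :=
  if f then [(1, 0, 0)] else [[(1, 2, 0)], [(-1, 0, -2)], [(-1, 2, 0)], [(1, 0, -2)]].getD i.val []

/-- coefficient of a cap -/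
def capc (f : Bool) (i : Fin 4) : LP :=
  if f then [[(1, -2, 0)], [(-1, 0, 2)], [(-1, -2, 0)], [(1, 0, 2)]].getD i.val [] else [(1, 0, 0)]

/-- left side of the local identity of a cup (times a^2 - 1) -/
def lU (f : Bool) (D i j E : Fin 4) : LP :=
  if i = j ∧ D = E then lmul [(1, 2, 0), (-1, 0, 0)] (cupc f i) else []

/-- right side of the local identity of a cup (times a^2 - 1) -/
def rU (f : Bool) (D i j E : Fin 4) : LP :=
  all4.flatMap fun T => if sb T D && (ok2 f (!f) (dif D T) 3 T i j && Nat.beq (d2 f (!f) (dif D T) 3 T i j).val E.val) then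
    lmul [(sg f, 0, 0)] (locL f (!f) (dif D T) 3 i j) else []

theorem testU : ∀ f D i j E, isZ (lU f D i j E ++ lneg (rU f D i j E)) = true := by
  decide +kernel

/-- left side of the local identity of a cap (times a^2 - 1) -/
def lN (f : Bool) (D c c' E : Fin 4) : LP :=
  all4.flatMap fun i => if ok2 f (!f) D c c' i i && Nat.beq (d2 f (!f) D c c' i i).val E.val then
    lmul (locL f (!f) D c i i) (capc f i) else []

/-- right side of the local identity of a cap (times a^2 - 1) -/
def rN (f : Bool) (D c c' E : Fin 4) : LP :=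
  if c = 0 ∧ sb (dif 3 c') D = true ∧ E = dif D (dif 3 c') then lmul [(1, 2, 0), (-1, 0, 0)] [(- sg f, 0, 0)] else []

theorem testN : ∀ f D c c' E, isZ (lN f D c c' E ++ lneg (rN f D c c' E)) = true := by
  decide +kernel

/-- the options of a piece placed at the top; the list S has one content for every strand, the content of the
region below it (the last one is the unbounded region) -/
def op0 : Piece → List (Fin 4) → List Op
  | .cup _ f, S => all4.map fun T => ⟨T, sg f, 0, 0, 3 :: T :: S⟩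
  | .cap _ f, c :: c' :: S => if c = 0 then [⟨dif 3 c', - sg f, 0, 0, S⟩] else []
  | .cross _ e, c :: c' :: S =>
    (opX e c c').map fun o => ⟨o.1, o.2.1, o.2.2.1, o.2.2.2.1, o.2.2.2.2.1 :: o.2.2.2.2.2 :: S⟩
  | _, _ => []

/-- the options of a piece placed below k strands -/
def opk (p : Piece) : ℕ → List (Fin 4) → List Op
  | 0, S => op0 p S
  | _ + 1, [] => []
  | k + 1, c :: S => ((opk p k S).filter fun o => sb o.T c).map fun o => ⟨0, o.e, o.p, o.q, dif c o.T :: o.S⟩

/-- the position of a piece -/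
def pos : Piece → ℕ
  | .cup k _ => k
  | .cap k _ => k
  | .cross k _ => k

/-- the options of a piece in a diagram with contents S -/
def tr (p : Piece) (S : List (Fin 4)) : List Op := (opk p (pos p) S).filter fun o => o.T = 0

/-- the histories of a diagram: (sign, exponent of a^2, exponent of b^2) -/
def hist : List Piece → List (Fin 4) → List (ℤ × ℤ × ℤ)
  | [], S => if S = [0] then [(1, 0, 0)] else []
  | p :: w, S => (tr p S).flatMap fun o => (hist w o.S).map fun t => (o.e * t.1, o.p + t.2.1, o.q + t.2.2)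

end LG3P
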