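import Pool.Agent.Lib.MP_3cd99b_gt.Z1

/-!
The matrix product vector of a list of contents, and how every piece of a diagram acts on it.
-/

namespace LG3P
open LG3 Finset

section
variable {K : Type*} [Field K]

/-- monomial with a sign -/
def mon (a b : K) (t : ℤ × ℤ × ℤ) : K := (-1) ^ t.1 * (a ^ t.2.1 * b ^ t.2.2)

theorem mon_add {a b : K} (ha : a ≠ 0) (hb : b ≠ 0) (s t : ℤ × ℤ × ℤ) :
    mon a b (s + t) = mon a b s * mon a b t := by
  have h1 : (-1 : K) ≠ 0 := neg_ne_zero.mpr one_ne_zero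
  simp only [mon, Prod.fst_add, Prod.snd_add, zpow_add₀ ha, zpow_add₀ hb, zpow_add₀ h1]
  ring

theorem neg_one_zpow_eq (x : ℤ) : ((-1 : K)) ^ x = (((if x % 2 = 0 then 1 else -1 : ℤ)) : K) := by
  split_ifs with h
  · rw [Even.neg_one_zpow (Int.even_iff.mpr h)]; simp
  · rw [Odd.neg_one_zpow (Int.odd_iff.mpr (by omega))]; simp

theorem ev_mdL (a b : K) (f : Bool) (m n : ℤ) (i : Fin 4) :
    ev a b [mdL f m n i] = mon a b (mdx f m n i) := by
  unfold mon mdL
  rw [ev_cons, ev_nil, add_zero]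
  congr 1
  rw [← neg_one_zpow_eq]
  unfold mdx sg
  cases f
  · simp only [Bool.false_eq_true, if_false, neg_mul, one_mul, zpow_neg]
    rw [← inv_zpow, inv_neg, inv_one]
  · simp

/-- head factor -/
def hd (a b : K) (f : Bool) (D i : Fin 4) (m n : ℤ) : K :=
  (if f then 1 else (a ^ 2 - 1)⁻¹) * (mon a b (mdx f m n i) * ev a b (bs f D (cn f i)))

/-- the factor of two strands -/
def loc (a b : K) (f g : Bool) (D c i j : Fin 4) (m n : ℤ) : K :=
  hd a b f D i (m + sg g * h1 j) (n + sg g * h2 j) * hd a b g (d1 f D c i) j m n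

theorem mdx_add (f : Bool) (m n m' n' : ℤ) (i : Fin 4) :
    mdx f (m + m') (n + n') i = mdx f m n i + mdx f m' n' i := by
  unfold mdx
  ext <;> simp <;> ring

theorem mdx_zero (f : Bool) (i : Fin 4) : mdx f 0 0 i = 0 := by
  unfold mdx
  ext <;> simp

theorem mon_zero (a b : K) : mon a b 0 = 1 := by simp [mon]

theorem loc_eq {a b : K} (ha : a ≠ 0) (hb : b ≠ 0) (f g : Bool) (D c i j : Fin 4) (m n : ℤ) :
    loc a b f g D c i j m n = ((if f then 1 else (a ^ 2 - 1)⁻¹) * (if g then 1 else (a ^ 2 - 1)⁻¹)) *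
      (mon a b (mdx f m n i + mdx g m n j) * ev a b (locL f g D c i j)) := by
  unfold loc hd locL hdL
  rw [ev_lmul a b ha hb, ev_lmul a b ha hb, ev_lmul a b ha hb, ev_mdL, ev_mdL, mdx_zero, mon_zero, mdx_add,
    mon_add ha hb, mon_add ha hb]
  ring

theorem RN_cons : ∀ e i j x y, RN e i j x y = [] ∨ (h1 i + h1 j = h1 x + h1 y ∧ h2 i + h2 j = h2 x + h2 y) := by
  decide +kernel

theorem mon_RM {a b : K} (ha : a ≠ 0) (hb : b ≠ 0) (e : Bool) (i j x y : Fin 4) (m n : ℤ) :
    mon a b (mdx true m n i + mdx true m n j) * RM a b e i j x y =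
      mon a b (mdx true m n x + mdx true m n y) * RM a b e i j x y := by
  rw [RM_eq a b ha hb, ← RN_eq]
  rcases RN_cons e i j x y with h | ⟨h, h'⟩
  · rw [h]; simp
  · have : mdx true m n i + mdx true m n j = mdx true m n x + mdx true m n y := by
      unfold mdx sg
      ext
      · simp only [if_true, one_mul, Prod.fst_add]
        linear_combination n * h
      · simp only [if_true, one_mul, Prod.fst_add, Prod.snd_add]
        linear_combination (-m) * h'
      · simp only [if_true, one_mul, Prod.snd_add]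
        linear_combination (-n) * h - 2 * m * h'
    rw [this]

theorem ev_flatMap {α : Type*} (a b : K) (l : List α) (g : α → LP) :
    ev a b (l.flatMap g) = (l.map fun x => ev a b (g x)).sum := by
  induction l with
  | nil => rfl
  | cons p l ih => simp [List.flatMap_cons, ev_append, ih]

theorem sum16 (F : Fin 4 → Fin 4 → K) :
    ∑ i, ∑ j, F i j = (all16.map fun ij => F ij.1 ij.2).sum := by
  simp only [all16, Fin.sum_univ_four, List.map_cons, List.map_nil, List.sum_cons, List.sum_nil]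
  ring

theorem sum4 (F : Fin 4 → K) : ∑ i, F i = (all4.map F).sum := by
  simp only [all4, Fin.sum_univ_four, List.map_cons, List.map_nil, List.sum_cons, List.sum_nil]
  ring

theorem nbeq (x y : Fin 4) : Nat.beq x.val y.val = decide (x = y) := by
  revert x y; decide

/-- local identity of a crossing -/
theorem cross_coef {a b : K} (ha : a ≠ 0) (hb : b ≠ 0) (e : Bool) (D c c' x y E : Fin 4) (m n : ℤ) :
    (∑ i, ∑ j, if ok2 true true D c c' i j ∧ d2 true true D c c' i j = E then
      loc a b true true D c i j m n * RM a b e i j x y else 0) =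
    ((opX e c c').map fun o => if sb o.1 D ∧ ok2 true true (dif D o.1) o.2.2.2.2.1 o.2.2.2.2.2 x y ∧
        d2 true true (dif D o.1) o.2.2.2.2.1 o.2.2.2.2.2 x y = E then
      ((o.2.1 : K) * ((a ^ 2) ^ o.2.2.1 * (b ^ 2) ^ o.2.2.2.1)) *
        loc a b true true (dif D o.1) o.2.2.2.2.1 x y m n else 0).sum := by
  have hL : (∑ i, ∑ j, if ok2 true true D c c' i j ∧ d2 true true D c c' i j = E then
      loc a b true true D c i j m n * RM a b e i j x y else 0) =
      mon a b (mdx true m n x + mdx true m n y) * ev a b (lX e D c c' x y E) := by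
    unfold lX
    rw [ev_flatMap, ← sum16 fun i j => ev a b (if ok2 true true D c c' i j && Nat.beq (d2 true true D c c' i j).val E.val then
      lmul (locL true true D c i j) (RN e i j x y) else []), Finset.mul_sum]
    refine Finset.sum_congr rfl fun i _ => ?_
    rw [Finset.mul_sum]
    refine Finset.sum_congr rfl fun j _ => ?_
    by_cases h : ok2 true true D c c' i j ∧ d2 true true D c c' i j = E
    · rw [if_pos h, if_pos (by rw [nbeq, h.1, h.2]; simp), ev_lmul a b ha hb, RN_eq, ← RM_eq a b ha hb, loc_eq ha hb]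
      have := mon_RM ha hb e i j x y m n
      simp only [if_true]
      linear_combination (ev a b (locL true true D c i j)) * this
    · rw [if_neg h, if_neg (by
        rw [nbeq]; simp only [Bool.and_eq_true, decide_eq_true_eq]; exact h)]
      simp
  have hR : ((opX e c c').map fun o => if sb o.1 D ∧ ok2 true true (dif D o.1) o.2.2.2.2.1 o.2.2.2.2.2 x y ∧
        d2 true true (dif D o.1) o.2.2.2.2.1 o.2.2.2.2.2 x y = E then
      ((o.2.1 : K) * ((a ^ 2) ^ o.2.2.1 * (b ^ 2) ^ o.2.2.2.1)) *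
        loc a b true true (dif D o.1) o.2.2.2.2.1 x y m n else 0).sum =
      mon a b (mdx true m n x + mdx true m n y) * ev a b (rX e D c c' x y E) := by
    unfold rX
    rw [ev_flatMap, ← List.sum_map_mul_left]
    congr 1
    refine List.map_congr_left fun o _ => ?_
    by_cases h : sb o.1 D ∧ ok2 true true (dif D o.1) o.2.2.2.2.1 o.2.2.2.2.2 x y ∧
        d2 true true (dif D o.1) o.2.2.2.2.1 o.2.2.2.2.2 x y = E
    · rw [if_pos h, if_pos (by rw [nbeq, h.1, h.2.1, h.2.2]; simp), ev_lmul a b ha hb, loc_eq ha hb, ev_cons, ev_nil]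
      simp only [if_true, zpow_mul, add_zero]
      have e1 : a ^ (2 : ℤ) = a ^ 2 := by norm_cast
      have e2 : b ^ (2 : ℤ) = b ^ 2 := by norm_cast
      rw [e1, e2]; ring
    · rw [if_neg h, if_neg (by
        rw [nbeq]; simp only [Bool.and_eq_true, decide_eq_true_eq]; exact h)]
      simp
  rw [hL, hR, ev_eq_of_isZ a b _ _ (testX e D c c' x y E)]

theorem cn_not : ∀ f i, cn f i = cn f i := fun _ _ => rfl

/-- coefficient of a cup in step -/
theorem ev_cupc (a b : K) (f : Bool) (i : Fin 4) :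
    ev a b (cupc f i) = if f then 1 else (wt a b i)⁻¹ := by
  have e1 : b ^ (-2 : ℤ) = (b ^ 2)⁻¹ := by rw [zpow_neg]; norm_cast
  have e2 : a ^ (2 : ℤ) = a ^ 2 := by norm_cast
  cases f
  · fin_cases i <;> simp [cupc, wt, ev_cons, e1, e2, inv_neg]
  · simp [cupc, ev_cons]

/-- coefficient of a cap in step -/
theorem ev_capc (a b : K) (f : Bool) (i : Fin 4) :
    ev a b (capc f i) = if f then wt a b i else 1 := by
  have e1 : b ^ (2 : ℤ) = b ^ 2 := by norm_cast
  have e2 : a ^ (-2 : ℤ) = (a ^ 2)⁻¹ := by rw [zpow_neg]; norm_cast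
  cases f
  · simp [capc, ev_cons]
  · fin_cases i <;> simp [capc, wt, ev_cons, e1, e2]

theorem mdx_cancel (f : Bool) (m n : ℤ) (i : Fin 4) : mdx f m n i + mdx (!f) m n i = 0 := by
  unfold mdx sg
  cases f <;> (ext <;> simp) <;> ring

theorem ff (f : Bool) (A : K) : ((if f then (1 : K) else A) * (if (!f) = true then (1 : K) else A)) = A := by
  cases f <;> simp

theorem ev_A (a b : K) : ev a b [(1, 2, 0), (-1, 0, 0)] = a ^ 2 - 1 := by
  have e2 : a ^ (2 : ℤ) = a ^ 2 := by norm_cast
  simp [ev_cons, e2, sub_eq_add_neg]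

/-- local identity of a cup -/
theorem cup_coef {a b : K} (ha : a ≠ 0) (hb : b ≠ 0) (hA : a ^ 2 - 1 ≠ 0) (f : Bool) (D i j E : Fin 4) (m n : ℤ) :
    (if i = j ∧ D = E then (if f then 1 else (wt a b i)⁻¹) else 0) =
    (all4.map fun T => if sb T D ∧ ok2 f (!f) (dif D T) 3 T i j ∧ d2 f (!f) (dif D T) 3 T i j = E then
      (sg f : K) * loc a b f (!f) (dif D T) 3 i j m n else 0).sum := by
  have hR : (all4.map fun T => if sb T D ∧ ok2 f (!f) (dif D T) 3 T i j ∧ d2 f (!f) (dif D T) 3 T i j = E then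
      (sg f : K) * loc a b f (!f) (dif D T) 3 i j m n else 0).sum =
      (a ^ 2 - 1)⁻¹ * mon a b (mdx f m n i + mdx (!f) m n j) * ev a b (rU f D i j E) := by
    unfold rU
    rw [ev_flatMap, ← List.sum_map_mul_left]
    congr 1
    refine List.map_congr_left fun T _ => ?_
    by_cases h : sb T D ∧ ok2 f (!f) (dif D T) 3 T i j ∧ d2 f (!f) (dif D T) 3 T i j = E
    · rw [if_pos h, if_pos (by rw [nbeq, h.1, h.2.1, h.2.2]; simp), ev_lmul a b ha hb, loc_eq ha hb, ev_cons, ev_nil, ff]
      simp only [zpow_zero, mul_one, add_zero]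
      ring
    · rw [if_neg h, if_neg (by
        rw [nbeq]; simp only [Bool.and_eq_true, decide_eq_true_eq]; exact h)]
      simp
  rw [hR, ← ev_eq_of_isZ a b _ _ (testU f D i j E)]
  unfold lU
  split_ifs with h
  · obtain ⟨rfl, rfl⟩ := h
    rw [mdx_cancel, mon_zero, mul_one, ev_lmul a b ha hb, ev_A, ev_cupc, inv_mul_cancel_left₀ hA]
    simp [*]
  · obtain ⟨rfl, rfl⟩ := h
    rw [mdx_cancel, mon_zero, mul_one, ev_lmul a b ha hb, ev_A, ev_cupc, inv_mul_cancel_left₀ hA]
    simp [*]
  · simp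

/-- local identity of a cap -/
theorem cap_coef {a b : K} (ha : a ≠ 0) (hb : b ≠ 0) (hA : a ^ 2 - 1 ≠ 0) (f : Bool) (D c c' E : Fin 4) (m n : ℤ) :
    (∑ i, if ok2 f (!f) D c c' i i ∧ d2 f (!f) D c c' i i = E then
      loc a b f (!f) D c i i m n * (if f then wt a b i else 1) else 0) =
    if c = 0 ∧ sb (dif 3 c') D = true ∧ E = dif D (dif 3 c') then ((-sg f : ℤ) : K) else 0 := by
  have hL : (∑ i, if ok2 f (!f) D c c' i i ∧ d2 f (!f) D c c' i i = E then
      loc a b f (!f) D c i i m n * (if f then wt a b i else 1) else 0) =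
      (a ^ 2 - 1)⁻¹ * ev a b (lN f D c c' E) := by
    unfold lN
    rw [ev_flatMap, sum4, ← List.sum_map_mul_left]
    congr 1
    refine List.map_congr_left fun i _ => ?_
    by_cases h : ok2 f (!f) D c c' i i ∧ d2 f (!f) D c c' i i = E
    · have hc : (ok2 f (!f) D c c' i i && Nat.beq (d2 f (!f) D c c' i i).val E.val) = true := by
        rw [nbeq, h.1, h.2]; simp
      rw [if_pos h, hc, if_pos (rfl : true = true), ev_lmul a b ha hb, loc_eq ha hb, ev_capc, ff, mdx_cancel,
        mon_zero]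
      ring
    · rw [if_neg h, if_neg (by
        rw [nbeq]; simp only [Bool.and_eq_true, decide_eq_true_eq]; exact h)]
      simp
  rw [hL, ev_eq_of_isZ a b _ _ (testN f D c c' E)]
  unfold rN
  split_ifs with h
  · rw [ev_lmul a b ha hb, ev_A, ev_cons, ev_nil]
    simp only [zpow_zero, mul_one, add_zero]
    field_simp
  · simp

end

end LG3P
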