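import Pool.Agent.Lib.MP_3cd99b_gt.Z2

/-!
The pairing of the matrix product vector with a function of the states, and the action of the pieces.
-/

namespace LG3P
open LG3 Finset

/-- number of backward strands -/
def nb (d : List Bool) : ℤ := (d.map fun f => if f then (0 : ℤ) else 1).sum

/-- number of labels 1 -/
def M1 (D : Fin 4) (S : List (Fin 4)) (d : List Bool) : ℤ := h1 D + (S.map h1).sum - nb d

/-- number of labels 2 -/
def M2 (D : Fin 4) (S : List (Fin 4)) (d : List Bool) : ℤ := h2 D + (S.map h2).sum - nb d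

section
variable {K : Type*} [Field K]

/-- the pairing: d directions, S contents of the regions below the strands, D content of the region above that
goes down -/
def pr (a b : K) : List Bool → List (Fin 4) → Fin 4 → (List (Fin 4) → K) → K
  | [], [], D, v => if D = 0 then v [] else 0
  | f :: d, c :: S, D, v => ∑ i, if ok1 f D c i then
      hd a b f D i (M1 (d1 f D c i) S d) (M2 (d1 f D c i) S d) * pr a b d S (d1 f D c i) (fun t => v (i :: t)) else 0
  | _, _, _, _ => 0

theorem pr_cons (a b : K) (f : Bool) (d : List Bool) (c : Fin 4) (S : List (Fin 4)) (D : Fin 4)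
    (v : List (Fin 4) → K) : pr a b (f :: d) (c :: S) D v = ∑ i, if ok1 f D c i then
      hd a b f D i (M1 (d1 f D c i) S d) (M2 (d1 f D c i) S d) * pr a b d S (d1 f D c i) (fun t => v (i :: t)) else 0 :=
  rfl

theorem pr_sum (a b : K) {ι : Type*} (s : Finset ι) (r : ι → K) : ∀ (d : List Bool) (S : List (Fin 4)) (D : Fin 4)
    (v : ι → List (Fin 4) → K), pr a b d S D (fun t => ∑ x ∈ s, r x * v x t) = ∑ x ∈ s, r x * pr a b d S D (v x) := by
  intro d
  induction d with
  | nil =>
    intro S D v
    cases S with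
    | nil =>
      simp only [pr]
      split_ifs <;> simp
    | cons c S => simp [pr]
  | cons f d ih =>
    intro S D v
    cases S with
    | nil => simp [pr]
    | cons c S =>
      simp only [pr_cons]
      simp only [ih, Finset.mul_sum]
      rw [Finset.sum_comm]
      refine Finset.sum_congr rfl fun i _ => ?_
      split_ifs with h
      · refine Finset.sum_congr rfl fun x _ => ?_
        ring
      · simp

theorem pr_mul (a b : K) (r : K) (d : List Bool) (S : List (Fin 4)) (D : Fin 4)
    (v : List (Fin 4) → K) : pr a b d S D (fun t => r * v t) = r * pr a b d S D v := by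
  have := pr_sum a b ({0} : Finset ℕ) (fun _ => r) d S D (fun _ => v)
  simpa using this

theorem h_d1 : ∀ g D1 c' j, ok1 g D1 c' j = true →
    h1 D1 + h1 c' = h1 (d1 g D1 c' j) + h1 (cn g j) ∧ h2 D1 + h2 c' = h2 (d1 g D1 c' j) + h2 (cn g j) := by
  decide +kernel

theorem h_cn : ∀ g j, h1 (cn g j) - (if g then 0 else 1) = sg g * h1 j ∧
    h2 (cn g j) - (if g then 0 else 1) = sg g * h2 j := by decide +kernel

theorem nb_cons (g : Bool) (d : List Bool) : nb (g :: d) = (if g then 0 else 1) + nb d := by simp [nb]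

/-- two strands at the top -/
theorem pr_two (a b : K) (f g : Bool) (d : List Bool) (c c' : Fin 4) (S : List (Fin 4)) (D : Fin 4)
    (v : List (Fin 4) → K) : pr a b (f :: g :: d) (c :: c' :: S) D v =
    ∑ i, ∑ j, if ok2 f g D c c' i j then
      loc a b f g D c i j (M1 (d2 f g D c c' i j) S d) (M2 (d2 f g D c c' i j) S d) *
        pr a b d S (d2 f g D c c' i j) (fun t => v (i :: j :: t)) else 0 := by
  rw [pr_cons]
  refine Finset.sum_congr rfl fun i _ => ?_
  split_ifs with h
  · rw [pr_cons, Finset.mul_sum]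
    refine Finset.sum_congr rfl fun j _ => ?_
    by_cases h' : ok1 g (d1 f D c i) c' j = true
    · rw [if_pos h', if_pos (by unfold ok2; rw [h, h']; rfl)]
      have e := h_d1 g (d1 f D c i) c' j h'
      have e' := h_cn g j
      unfold loc d2
      have E1 : M1 (d1 f D c i) (c' :: S) (g :: d) = M1 (d1 g (d1 f D c i) c' j) S d + sg g * h1 j := by
        unfold M1
        rw [nb_cons, List.map_cons, List.sum_cons]
        linarith [e.1, e'.1]
      have E2 : M2 (d1 f D c i) (c' :: S) (g :: d) = M2 (d1 g (d1 f D c i) c' j) S d + sg g * h2 j := by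
        unfold M2
        rw [nb_cons, List.map_cons, List.sum_cons]
        linarith [e.2, e'.2]
      rw [E1, E2]; ring
    · rw [if_neg h', if_neg (by unfold ok2; simp [h'])]
      simp
  · symm
    refine Finset.sum_eq_zero fun j _ => ?_
    rw [if_neg (by unfold ok2; simp [h])]

/-- splitting over the content that goes down -/
theorem split_E (F : Fin 4 → K) (P : Prop) [Decidable P] (x : Fin 4) :
    (if P then F x else 0) = ∑ E, if P ∧ x = E then F E else 0 := by
  by_cases h : P
  · simp [h]
  · simp [h]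

theorem step_cup0 (a b : K) (f : Bool) (v : List (Fin 4) → K) (s : List (Fin 4)) :
    step a b (.cup 0 f) v s = ∑ i, (if f then 1 else (wt a b i)⁻¹) * v (i :: i :: s) := by
  simp [step]

theorem step_cap0 (a b : K) (f : Bool) (v : List (Fin 4) → K) (i j : Fin 4) (s : List (Fin 4)) :
    step a b (.cap 0 f) v (i :: j :: s) = if i = j then (if f then wt a b i else 1) * v s else 0 := by
  simp only [step, List.drop_zero, zero_add, List.drop_succ_cons, List.take_zero, List.nil_append, List.cons.injEq,
    and_true]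
  by_cases h : i = j
  · subst h
    rw [if_pos rfl, Finset.sum_eq_single i]
    · simp
    · intro x _ hx
      rw [if_neg]
      rintro ⟨h', _⟩
      exact hx h'.symm
    · simp
  · rw [if_neg h]
    refine Finset.sum_eq_zero fun x _ => ?_
    rw [if_neg]
    rintro ⟨h', h''⟩
    exact h (h'.trans h''.symm)

theorem step_cross0 (a b : K) (e : Bool) (v : List (Fin 4) → K) (i j : Fin 4) (s : List (Fin 4)) :
    step a b (.cross 0 e) v (i :: j :: s) = ∑ x, ∑ y, RM a b e i j x y * v (x :: y :: s) := by
  simp only [step, List.drop_zero, zero_add, List.drop_succ_cons, List.take_zero, List.nil_append, List.cons.injEq,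
    and_true]
  rw [Finset.sum_eq_single i]
  · rw [Finset.sum_eq_single j]
    · simp
    · intro y _ hy
      rw [if_neg]
      rintro ⟨_, h'⟩
      exact hy h'.symm
    · simp
  · intro x _ hx
    refine Finset.sum_eq_zero fun y _ => ?_
    rw [if_neg]
    rintro ⟨h', _⟩
    exact hx h'.symm
  · simp

theorem pr_sum1 (a b : K) {ι : Type*} (s : Finset ι) (d : List Bool) (S : List (Fin 4)) (D : Fin 4)
    (v : ι → List (Fin 4) → K) : pr a b d S D (fun t => ∑ x ∈ s, v x t) = ∑ x ∈ s, pr a b d S D (v x) := by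
  have := pr_sum a b s (fun _ => 1) d S D v
  simpa using this

theorem swap5 (F : Fin 4 → Fin 4 → Fin 4 → Fin 4 → Fin 4 → K) :
    ∑ i, ∑ j, ∑ E, ∑ x, ∑ y, F i j E x y = ∑ E, ∑ x, ∑ y, ∑ i, ∑ j, F i j E x y := by
  calc _ = ∑ i, ∑ E, ∑ j, ∑ x, ∑ y, F i j E x y := Finset.sum_congr rfl fun i _ => Finset.sum_comm
    _ = ∑ E, ∑ i, ∑ j, ∑ x, ∑ y, F i j E x y := Finset.sum_comm
    _ = ∑ E, ∑ i, ∑ x, ∑ j, ∑ y, F i j E x y :=
        Finset.sum_congr rfl fun E _ => Finset.sum_congr rfl fun i _ => Finset.sum_comm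
    _ = ∑ E, ∑ x, ∑ i, ∑ j, ∑ y, F i j E x y := Finset.sum_congr rfl fun E _ => Finset.sum_comm
    _ = ∑ E, ∑ x, ∑ i, ∑ y, ∑ j, F i j E x y :=
        Finset.sum_congr rfl fun E _ => Finset.sum_congr rfl fun x _ => Finset.sum_congr rfl fun i _ =>
          Finset.sum_comm
    _ = ∑ E, ∑ x, ∑ y, ∑ i, ∑ j, F i j E x y :=
        Finset.sum_congr rfl fun E _ => Finset.sum_congr rfl fun x _ => Finset.sum_comm

theorem list_comm {α ι : Type*} (l : List α) (s : Finset ι) (F : α → ι → K) :
    ∑ E ∈ s, (l.map fun o => F o E).sum = (l.map fun o => ∑ E ∈ s, F o E).sum := by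
  induction l with
  | nil => simp
  | cons o l ih => simp [Finset.sum_add_distrib, ih]

/-- value of an option -/
def ov (a b : K) (e p q : ℤ) : K := (e : K) * ((a ^ 2) ^ p * (b ^ 2) ^ q)

/-- two strands at the top, sorted by the content that goes down -/
theorem pr_two' (a b : K) (f g : Bool) (d : List Bool) (c c' : Fin 4) (S : List (Fin 4)) (D : Fin 4)
    (v : List (Fin 4) → K) : pr a b (f :: g :: d) (c :: c' :: S) D v =
    ∑ i, ∑ j, ∑ E, if ok2 f g D c c' i j ∧ d2 f g D c c' i j = E then
      loc a b f g D c i j (M1 E S d) (M2 E S d) * pr a b d S E (fun t => v (i :: j :: t)) else 0 := by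
  rw [pr_two]
  refine Finset.sum_congr rfl fun i _ => Finset.sum_congr rfl fun j _ => ?_
  rw [split_E (fun E => loc a b f g D c i j (M1 E S d) (M2 E S d) * pr a b d S E (fun t => v (i :: j :: t)))]

theorem push_cross0 {a b : K} (ha : a ≠ 0) (hb : b ≠ 0) (e : Bool) (d : List Bool) (c c' : Fin 4)
    (S : List (Fin 4)) (D : Fin 4) (v : List (Fin 4) → K) :
    pr a b (true :: true :: d) (c :: c' :: S) D (step a b (.cross 0 e) v) =
    ((opX e c c').map fun o => if sb o.1 D then ov a b o.2.1 o.2.2.1 o.2.2.2.1 *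
      pr a b (true :: true :: d) (o.2.2.2.2.1 :: o.2.2.2.2.2 :: S) (dif D o.1) v else 0).sum := by
  have hL : pr a b (true :: true :: d) (c :: c' :: S) D (step a b (.cross 0 e) v) =
      ∑ E, ∑ x, ∑ y, pr a b d S E (fun t => v (x :: y :: t)) *
        (∑ i, ∑ j, if ok2 true true D c c' i j ∧ d2 true true D c c' i j = E then
        loc a b true true D c i j (M1 E S d) (M2 E S d) * RM a b e i j x y else 0) := by
    rw [pr_two']
    have : ∀ i j E, (if ok2 true true D c c' i j = true ∧ d2 true true D c c' i j = E then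
        loc a b true true D c i j (M1 E S d) (M2 E S d) *
        pr a b d S E (fun t => step a b (.cross 0 e) v (i :: j :: t)) else 0) =
        ∑ x, ∑ y, pr a b d S E (fun t => v (x :: y :: t)) *
          (if ok2 true true D c c' i j ∧ d2 true true D c c' i j = E then
          loc a b true true D c i j (M1 E S d) (M2 E S d) * RM a b e i j x y else 0) := by
      intro i j E
      split_ifs with h
      · simp only [step_cross0]
        rw [pr_sum1, Finset.mul_sum]
        refine Finset.sum_congr rfl fun x _ => ?_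
        rw [pr_sum, Finset.mul_sum]
        refine Finset.sum_congr rfl fun y _ => ?_
        ring
      · simp
    simp only [this]
    rw [swap5]
    simp only [Finset.mul_sum]
  have hR : ((opX e c c').map fun o => if sb o.1 D then ov a b o.2.1 o.2.2.1 o.2.2.2.1 *
      pr a b (true :: true :: d) (o.2.2.2.2.1 :: o.2.2.2.2.2 :: S) (dif D o.1) v else 0).sum =
      ∑ E, ∑ x, ∑ y, pr a b d S E (fun t => v (x :: y :: t)) *
        ((opX e c c').map fun o => if sb o.1 D ∧ ok2 true true (dif D o.1) o.2.2.2.2.1 o.2.2.2.2.2 x y ∧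
        d2 true true (dif D o.1) o.2.2.2.2.1 o.2.2.2.2.2 x y = E then
      ((o.2.1 : K) * ((a ^ 2) ^ o.2.2.1 * (b ^ 2) ^ o.2.2.2.1)) *
        loc a b true true (dif D o.1) o.2.2.2.2.1 x y (M1 E S d) (M2 E S d) else 0).sum := by
    simp only [← List.sum_map_mul_left, list_comm]
    congr 1
    refine List.map_congr_left fun o _ => ?_
    split_ifs with h
    · rw [pr_two']
      have e1 : ∀ F : Fin 4 → Fin 4 → Fin 4 → K, ∑ x, ∑ y, ∑ E, F x y E = ∑ E, ∑ x, ∑ y, F x y E := by
        intro F
        calc _ = ∑ x, ∑ E, ∑ y, F x y E := Finset.sum_congr rfl fun i _ => Finset.sum_comm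
          _ = _ := Finset.sum_comm
      rw [e1]
      simp only [Finset.mul_sum]
      refine Finset.sum_congr rfl fun E _ => Finset.sum_congr rfl fun x _ => Finset.sum_congr rfl fun y _ => ?_
      unfold ov
      by_cases h' : ok2 true true (dif D o.1) o.2.2.2.2.1 o.2.2.2.2.2 x y ∧
        d2 true true (dif D o.1) o.2.2.2.2.1 o.2.2.2.2.2 x y = E
      · rw [if_pos h', if_pos ⟨h, h'⟩]; ring
      · rw [if_neg h', if_neg (fun h'' => h' h''.2)]; ring
    · symm
      refine Finset.sum_eq_zero fun E _ => Finset.sum_eq_zero fun x _ => Finset.sum_eq_zero fun y _ => ?_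
      rw [if_neg (fun h'' => h h''.1), mul_zero]
  rw [hL, hR]
  refine Finset.sum_congr rfl fun E _ => Finset.sum_congr rfl fun x _ => Finset.sum_congr rfl fun y _ => ?_
  rw [cross_coef ha hb]

theorem push_cup0 {a b : K} (ha : a ≠ 0) (hb : b ≠ 0) (hA : a ^ 2 - 1 ≠ 0) (f : Bool) (d : List Bool)
    (S : List (Fin 4)) (D : Fin 4) (v : List (Fin 4) → K) :
    pr a b d S D (step a b (.cup 0 f) v) =
    (all4.map fun T => if sb T D then ov a b (sg f) 0 0 *
      pr a b (f :: (!f) :: d) (3 :: T :: S) (dif D T) v else 0).sum := by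
  have hL : pr a b d S D (step a b (.cup 0 f) v) =
      ∑ E, ∑ i, ∑ j, pr a b d S E (fun t => v (i :: j :: t)) *
        (if i = j ∧ D = E then (if f then 1 else (wt a b i)⁻¹) else 0) := by
    have : step a b (.cup 0 f) v = fun s => ∑ i, (if f then 1 else (wt a b i)⁻¹) * v (i :: i :: s) := by
      funext s; exact step_cup0 a b f v s
    rw [this, pr_sum]
    symm
    rw [Finset.sum_eq_single D]
    · refine Finset.sum_congr rfl fun i _ => ?_
      rw [Finset.sum_eq_single i]
      · rw [if_pos ⟨rfl, rfl⟩]; ring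
      · intro j _ hj
        rw [if_neg (fun h => hj h.1.symm), mul_zero]
      · simp
    · intro E _ hE
      refine Finset.sum_eq_zero fun x _ => Finset.sum_eq_zero fun y _ => ?_
      rw [if_neg (fun h => hE h.2.symm), mul_zero]
    · simp
  have hR : (all4.map fun T => if sb T D then ov a b (sg f) 0 0 *
      pr a b (f :: (!f) :: d) (3 :: T :: S) (dif D T) v else 0).sum =
      ∑ E, ∑ i, ∑ j, pr a b d S E (fun t => v (i :: j :: t)) *
       (all4.map fun T => if sb T D ∧ ok2 f (!f) (dif D T) 3 T i j ∧ d2 f (!f) (dif D T) 3 T i j = E then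
      (sg f : K) * loc a b f (!f) (dif D T) 3 i j (M1 E S d) (M2 E S d) else 0).sum := by
    simp only [← List.sum_map_mul_left, list_comm]
    congr 1
    refine List.map_congr_left fun T _ => ?_
    split_ifs with h
    · rw [pr_two']
      have e1 : ∀ F : Fin 4 → Fin 4 → Fin 4 → K, ∑ x, ∑ y, ∑ E, F x y E = ∑ E, ∑ x, ∑ y, F x y E := by
        intro F
        calc _ = ∑ x, ∑ E, ∑ y, F x y E := Finset.sum_congr rfl fun i _ => Finset.sum_comm
          _ = _ := Finset.sum_comm
      rw [e1]
      simp only [Finset.mul_sum]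
      refine Finset.sum_congr rfl fun E _ => Finset.sum_congr rfl fun x _ => Finset.sum_congr rfl fun y _ => ?_
      unfold ov
      by_cases h' : ok2 f (!f) (dif D T) 3 T x y ∧ d2 f (!f) (dif D T) 3 T x y = E
      · rw [if_pos h', if_pos ⟨h, h'⟩]; simp only [zpow_zero]; ring
      · rw [if_neg h', if_neg (fun h'' => h' h''.2)]; ring
    · symm
      refine Finset.sum_eq_zero fun E _ => Finset.sum_eq_zero fun x _ => Finset.sum_eq_zero fun y _ => ?_
      rw [if_neg (fun h'' => h h''.1), mul_zero]
  rw [hL, hR]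
  refine Finset.sum_congr rfl fun E _ => Finset.sum_congr rfl fun x _ => Finset.sum_congr rfl fun y _ => ?_
  rw [cup_coef ha hb hA]

theorem push_cap0 {a b : K} (ha : a ≠ 0) (hb : b ≠ 0) (hA : a ^ 2 - 1 ≠ 0) (f : Bool) (d : List Bool)
    (c c' : Fin 4) (S : List (Fin 4)) (D : Fin 4) (v : List (Fin 4) → K) :
    pr a b (f :: (!f) :: d) (c :: c' :: S) D (step a b (.cap 0 f) v) =
    if c = 0 ∧ sb (dif 3 c') D = true then ov a b (- sg f) 0 0 * pr a b d S (dif D (dif 3 c')) v else 0 := by
  have hL : pr a b (f :: (!f) :: d) (c :: c' :: S) D (step a b (.cap 0 f) v) =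
      ∑ E, pr a b d S E v * (∑ i, if ok2 f (!f) D c c' i i ∧ d2 f (!f) D c c' i i = E then
      loc a b f (!f) D c i i (M1 E S d) (M2 E S d) * (if f then wt a b i else 1) else 0) := by
    rw [pr_two']
    have : ∀ i j E, (if ok2 f (!f) D c c' i j = true ∧ d2 f (!f) D c c' i j = E then
        loc a b f (!f) D c i j (M1 E S d) (M2 E S d) *
        pr a b d S E (fun t => step a b (.cap 0 f) v (i :: j :: t)) else 0) =
        if i = j then (pr a b d S E v *
          (if ok2 f (!f) D c c' i j ∧ d2 f (!f) D c c' i j = E then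
          loc a b f (!f) D c i j (M1 E S d) (M2 E S d) * (if f then wt a b i else 1) else 0)) else 0 := by
      intro i j E
      simp only [step_cap0]
      by_cases hij : i = j
      · simp only [if_pos hij]
        by_cases h : ok2 f (!f) D c c' i j = true ∧ d2 f (!f) D c c' i j = E
        · rw [if_pos h, if_pos h, pr_mul]; ring
        · rw [if_neg h, if_neg h, mul_zero]
      · simp only [if_neg hij]
        have : pr a b d S E (fun _ => (0 : K)) = 0 := by
          have := pr_mul a b (0 : K) d S E (fun _ => 0)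
          simpa using this
        rw [this]; simp
    simp only [this]
    have e1 : ∀ F : Fin 4 → Fin 4 → Fin 4 → K, ∑ x, ∑ y, ∑ E, F x y E = ∑ E, ∑ x, ∑ y, F x y E := by
      intro F
      calc _ = ∑ x, ∑ E, ∑ y, F x y E := Finset.sum_congr rfl fun i _ => Finset.sum_comm
        _ = _ := Finset.sum_comm
    rw [e1]
    refine Finset.sum_congr rfl fun E _ => ?_
    rw [Finset.mul_sum]
    refine Finset.sum_congr rfl fun i _ => ?_
    rw [Finset.sum_eq_single i]
    · rw [if_pos rfl]
    · intro j _ hj
      rw [if_neg (fun h => hj h.symm)]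
    · simp
  rw [hL]
  simp only [cap_coef ha hb hA]
  by_cases h : c = 0 ∧ sb (dif 3 c') D = true
  · rw [if_pos h, Finset.sum_eq_single (dif D (dif 3 c'))]
    · rw [if_pos ⟨h.1, h.2, rfl⟩]; unfold ov; simp only [zpow_zero]; ring
    · intro E _ hE
      rw [if_neg (fun h' => hE h'.2.2), mul_zero]
    · simp
  · rw [if_neg h]
    refine Finset.sum_eq_zero fun E _ => ?_
    rw [if_neg (fun h' => h ⟨h'.1, h'.2.1⟩), mul_zero]

end

end LG3P
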