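import Pool.Agent.Lib.MP_3cd99b_gt.Bridge

/-!
Continuity of the state sum in alpha; two functions that agree off a^2 = 1 agree.
-/

open Finset Filter Topology

namespace LG3

/-- two functions, continuous at all a ≠ 0, that agree off a^2 = 1 agree at all a ≠ 0 -/
theorem eq_of_off {f g : ℂ → ℂ} (hf : ∀ a, a ≠ 0 → ContinuousAt f a) (hg : ∀ a, a ≠ 0 → ContinuousAt g a)
    (h : ∀ a, a ≠ 0 → a ^ 2 ≠ 1 → f a = g a) {a : ℂ} (ha : a ≠ 0) : f a = g a := by
  have h1 : ∀ᶠ x in 𝓝[≠] a, f x = g x := by
    have h0 : ∀ᶠ x in 𝓝[≠] a, x ≠ 0 := (eventually_ne_nhds ha).filter_mono nhdsWithin_le_nhds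
    have h2 : ∀ c : ℂ, ∀ᶠ x in 𝓝[≠] a, x ≠ c := by
      intro c
      by_cases hc : a = c
      · subst hc
        exact eventually_mem_nhdsWithin
      · exact (eventually_ne_nhds hc).filter_mono nhdsWithin_le_nhds
    filter_upwards [h0, h2 1, h2 (-1)] with x hx hx1 hx2
    refine h x hx fun h3 => ?_
    have h5 : (x - 1) * (x + 1) = 0 := by
      have : (x - 1) * (x + 1) = x ^ 2 - 1 := by ring
      rw [this, h3, sub_self]
    rcases mul_eq_zero.mp h5 with h4 | h4
    · exact hx1 (sub_eq_zero.mp h4)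
    · exact hx2 (eq_neg_of_add_eq_zero_left h4)
  exact tendsto_nhds_unique_of_eventuallyEq
    ((hf a ha).tendsto.mono_left nhdsWithin_le_nhds) ((hg a ha).tendsto.mono_left nhdsWithin_le_nhds) h1

set_option maxHeartbeats 4000000 in
theorem cont_Rp (b : ℂ) (i j k l : Fin 4) (a : ℂ) : ContinuousAt (fun a => Rp a b i j k l) a := by
  fin_cases i <;> fin_cases j <;> fin_cases k <;> fin_cases l <;>
    first
      | exact continuousAt_const
      | (simp only [Rp]; fun_prop)

set_option maxHeartbeats 4000000 in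
theorem cont_Rm {b : ℂ} (hb : b ≠ 0) (i j k l : Fin 4) {a : ℂ} (ha : a ≠ 0) :
    ContinuousAt (fun a => Rm a b i j k l) a := by
  have h1 : ContinuousAt (fun a : ℂ => a⁻¹) a := continuousAt_inv₀ ha
  have h2 : ContinuousAt (fun a : ℂ => (a ^ 2)⁻¹) a := (continuousAt_id.pow 2).inv₀ (pow_ne_zero 2 ha)
  have h3 : ContinuousAt (fun a : ℂ => (a * b)⁻¹) a := (continuousAt_id.mul continuousAt_const).inv₀ (mul_ne_zero ha hb)
  have h4 : ContinuousAt (fun a : ℂ => (a ^ 2 * b ^ 2)⁻¹) a :=
    ((continuousAt_id.pow 2).mul continuousAt_const).inv₀ (mul_ne_zero (pow_ne_zero 2 ha) (pow_ne_zero 2 hb))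
  fin_cases i <;> fin_cases j <;> fin_cases k <;> fin_cases l <;>
    first
      | exact continuousAt_const
      | exact h1
      | exact h2
      | exact h3
      | exact h4.neg
      | exact h3.neg
      | exact h2.sub continuousAt_const
      | exact h4.sub continuousAt_const
      | exact (h2.sub continuousAt_const).mul continuousAt_const
      | exact (h3.neg.mul ((continuousAt_id.pow 2).sub continuousAt_const)).mul continuousAt_const

theorem cont_RM {b : ℂ} (hb : b ≠ 0) (s : Bool) (i j k l : Fin 4) {a : ℂ} (ha : a ≠ 0) :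
    ContinuousAt (fun a => RM a b s i j k l) a := by
  cases s
  · simp only [RM_false]
    exact cont_Rm hb i j k l ha
  · simp only [RM_true]
    exact cont_Rp b i j k l a

theorem cont_wt (b : ℂ) (i : Fin 4) {a : ℂ} (ha : a ≠ 0) : ContinuousAt (fun a => wt a b i) a := by
  have h2 : ContinuousAt (fun a : ℂ => (a ^ 2)⁻¹) a := (continuousAt_id.pow 2).inv₀ (pow_ne_zero 2 ha)
  fin_cases i <;>
    first
      | exact continuousAt_const
      | exact h2
      | exact h2.neg

theorem wt_ne {a b : ℂ} (ha : a ≠ 0) (hb : b ≠ 0) (i : Fin 4) : wt a b i ≠ 0 := by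
  rw [wt_eq]
  fin_cases i <;> simp [mu, ha, hb]

/-- the state sum is continuous in alpha ≠ 0 -/
theorem cont_stateSum {b : ℂ} (hb : b ≠ 0) (w : List Piece) (s t : List (Fin 4)) {a : ℂ} (ha : a ≠ 0) :
    ContinuousAt (fun a => stateSum a b w s t) a := by
  induction w generalizing s with
  | nil => exact continuousAt_const
  | cons p w ih =>
    simp only [stateSum_cons]
    cases p with
    | cup k f =>
      simp only [step]
      refine tendsto_finsetSum _ fun i _ => ContinuousAt.mul ?_ (ih _)
      cases f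
      · simp only [Bool.false_eq_true, if_false]
        exact (cont_wt b i ha).inv₀ (wt_ne ha hb i)
      · simp only [if_true]
        exact continuousAt_const
    | cap k f =>
      simp only [step]
      refine tendsto_finsetSum _ fun i _ => ?_
      split_ifs
      · exact ContinuousAt.mul (cont_wt b i ha) (ih _)
      · exact ContinuousAt.mul continuousAt_const (ih _)
      · exact continuousAt_const
    | cross k e =>
      simp only [step]
      refine tendsto_finsetSum _ fun i _ => tendsto_finsetSum _ fun j _ => ?_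
      split_ifs
      · exact tendsto_finsetSum _ fun x _ => tendsto_finsetSum _ fun y _ =>
          ContinuousAt.mul (cont_RM hb e i j x y ha) (ih _)
      · exact continuousAt_const

/-- a sum of monomials is continuous in alpha ≠ 0 -/
theorem cont_hist (b : ℂ) (L : List (ℤ × ℤ × ℤ)) {a : ℂ} (ha : a ≠ 0) :
    ContinuousAt (fun a => (L.map fun t => (t.1 : ℂ) * ((a ^ 2) ^ t.2.1 * (b ^ 2) ^ t.2.2)).sum) a := by
  induction L with
  | nil => exact continuousAt_const
  | cons t L ih =>
    simp only [List.map_cons, List.sum_cons]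
    refine ContinuousAt.add ?_ ih
    refine ContinuousAt.mul continuousAt_const (ContinuousAt.mul ?_ continuousAt_const)
    exact (continuousAt_id.pow 2).zpow₀ _ (Or.inl (pow_ne_zero 2 ha))

/-- a formula for the state sum that holds for a^2 ≠ 1 holds for all a ≠ 0 -/
theorem stateSum_of_off {b : ℂ} (hb : b ≠ 0) (w : List Piece) (s t : List (Fin 4)) (L : List (ℤ × ℤ × ℤ))
    (h : ∀ a : ℂ, a ≠ 0 → a ^ 2 ≠ 1 →
      stateSum a b w s t = (L.map fun t => (t.1 : ℂ) * ((a ^ 2) ^ t.2.1 * (b ^ 2) ^ t.2.2)).sum)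
    {a : ℂ} (ha : a ≠ 0) :
    stateSum a b w s t = (L.map fun t => (t.1 : ℂ) * ((a ^ 2) ^ t.2.1 * (b ^ 2) ^ t.2.2)).sum :=
  eq_of_off (fun _ ha => cont_stateSum hb w s t ha) (fun _ ha => cont_hist b L ha) h ha

end LG3
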